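import Pool.Agent.W_1b8d5d_p.ZOne

/-!
ZERO TEMPERATURE (proofs row 623, steps (2) and (5)): the stopped variance `VS`, by recursion along the first coordinate,
and the tail of `F` in terms of `VS`.
-/

namespace Pool.Agent.W_1b8d5d_z

open MeasureTheory Set
open Pool.Agent.W_7d29a1_h42

noncomputable section

/-- Sections. -/
def sc {N : ℕ} (F : (Fin (N + 1) → ℝ) → ℝ) (r : ℝ) (z : Fin N → ℝ) : ℝ := F (cn r z)

/-- The mean over all coordinates but the first. -/
def fm {N : ℕ} (F : (Fin (N + 1) → ℝ) → ℝ) (r : ℝ) : ℝ := ∫ z, F (cn r z) ∂(PN U01 N)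

theorem BM.sc {N : ℕ} {F : (Fin (N + 1) → ℝ) → ℝ} (h : BM F) (r : ℝ) : BM (sc F r) := h.comp (measurable_cn_right r)

theorem BM.fm {N : ℕ} {F : (Fin (N + 1) → ℝ) → ℝ} (h : BM F) : BM (fm F) := by
  obtain ⟨hm, C, hC⟩ := h
  refine ⟨measurable_int_cn hm, C, fun r => ?_⟩
  have h1 := norm_integral_le_of_norm_le_const (μ := PN U01 N) (f := fun z => F (cn r z)) (C := C)
    (Filter.Eventually.of_forall fun z => by rw [Real.norm_eq_abs]; exact hC _)
  simpa [Pool.Agent.W_1b8d5d_z.fm] using h1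

theorem int_fm {N : ℕ} {F : (Fin (N + 1) → ℝ) → ℝ} (h : BM F) :
    ∫ x, F x ∂(PN U01 (N + 1)) = ∫ r, fm F r ∂U01 := int_cn h.int

section sgs

variable {Q : ℝ → ℝ} {a b : ℝ} {N : ℕ}

theorem SG.bm (hQ : Qf Q a b) {g : Fin N → (Fin N → ℝ) → ℝ} {F : (Fin N → ℝ) → ℝ} (h : SG Q N g F) : BM F := by
  refine ⟨h.mF, |F 0| + N, fun x => ?_⟩
  have e : ∀ (z : Fin N → ℝ) (x y : Fin N → ℝ), |∑ i, g i z * (Q (y i) - Q (x i))| ≤ N := by
    intro z x y
    calc |∑ i, g i z * (Q (y i) - Q (x i))| ≤ ∑ i, |g i z * (Q (y i) - Q (x i))| := Finset.abs_sum_le_sum_abs _ _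
      _ ≤ ∑ _i : Fin N, (1 : ℝ) := Finset.sum_le_sum fun i _ => by
          rw [abs_mul, abs_of_nonneg (h.g0 i z)]
          exact mul_le_one₀ (h.g1 i z) (abs_nonneg _) (hQ.osc _ _)
      _ = N := by simp
  have h1 := h.sub 0 x
  have h2 := h.sub x 0
  have h3 := abs_le.1 (e 0 0 x)
  have h4 := abs_le.1 (e x x 0)
  rw [abs_le]
  constructor
  · linarith [neg_abs_le (F 0), h3.1]
  · linarith [le_abs_self (F 0), h4.1]

theorem SG.bg {g : Fin N → (Fin N → ℝ) → ℝ} {F : (Fin N → ℝ) → ℝ} (h : SG Q N g F) (i : Fin N) : BM (g i) :=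
  ⟨h.mg i, 1, fun x => by rw [abs_of_nonneg (h.g0 i x)]; exact h.g1 i x⟩

theorem SG.sec {g : Fin (N + 1) → (Fin (N + 1) → ℝ) → ℝ} {F : (Fin (N + 1) → ℝ) → ℝ} (h : SG Q (N + 1) g F) (r : ℝ) :
    SG Q N (fun i z => g i.succ (cn r z)) (sc F r) := by
  refine ⟨h.mF.comp (measurable_cn_right r), fun i => (h.mg i.succ).comp (measurable_cn_right r), fun i z => h.g0 _ _,
    fun i z => h.g1 _ _, fun x y => ?_⟩
  have h1 := h.sub (cn r x) (cn r y)
  rw [Fin.sum_univ_succ] at h1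
  simp only [cn_zero, cn_succ, sub_self, mul_zero, zero_add] at h1
  exact h1

theorem SG.one (hQ : Qf Q a b) {g : Fin (N + 1) → (Fin (N + 1) → ℝ) → ℝ} {F : (Fin (N + 1) → ℝ) → ℝ}
    (h : SG Q (N + 1) g F) : SG1 Q (fm (g 0)) (fm F) := by
  have hb := h.bm hQ
  refine ⟨measurable_int_cn (h.mg 0), fun x => integral_nonneg fun z => h.g0 _ _, fun x => ?_, fun x y => ?_⟩
  · calc fm (g 0) x ≤ ∫ _z : Fin N → ℝ, (1 : ℝ) ∂(PN U01 N) :=
          integral_mono ((h.bg 0).sc x).int (integrable_const _) fun z => h.g1 _ _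
      _ = 1 := by simp
  · have h1 : ∫ z, (F (cn x z) + g 0 (cn x z) * (Q y - Q x)) ∂(PN U01 N) ≤ ∫ z, F (cn y z) ∂(PN U01 N) := by
      refine integral_mono ((hb.sc x).int.add (((h.bg 0).sc x).int.mul_const _)) (hb.sc y).int fun z => ?_
      have h2 := h.sub (cn x z) (cn y z)
      rw [Fin.sum_univ_succ] at h2
      simp only [cn_zero, cn_succ, sub_self, mul_zero, Finset.sum_const_zero, add_zero] at h2
      exact h2
    have j1 : Integrable (fun z => F (cn x z)) (PN U01 N) := (hb.sc x).int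
    have j2 : Integrable (fun z => g 0 (cn x z) * (Q y - Q x)) (PN U01 N) := ((h.bg 0).sc x).int.mul_const _
    rw [integral_add j1 j2, integral_mul_const] at h1
    exact h1

end sgs

/-- The stopped variance (the budget is `L`). -/
def VS : (N : ℕ) → ((Fin N → ℝ) → ℝ) → ℝ → ℝ
  | 0, _, _ => 0
  | N + 1, F, L =>
    if Vr (fm F) ≤ L then Vr (fm F) + ∫ r, VS N (sc F r) (L - Vr (fm F)) ∂U01 else 0

theorem Vr_nonneg (f : ℝ → ℝ) : 0 ≤ Vr f := integral_nonneg fun x => sq_nonneg _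

theorem fm_meas {N : ℕ} {X : Type} [MeasurableSpace X] (G : X → (Fin (N + 1) → ℝ) → ℝ)
    (hG : Measurable fun p : X × (Fin (N + 1) → ℝ) => G p.1 p.2) :
    Measurable fun p : X × ℝ => fm (G p.1) p.2 := by
  have h1 : Measurable fun p : (X × ℝ) × (Fin N → ℝ) => G p.1.1 (cn p.1.2 p.2) :=
    hG.comp (measurable_fst.fst.prodMk (measurable_cn.comp (measurable_fst.snd.prodMk measurable_snd)))
  exact h1.stronglyMeasurable.integral_prod_right'.measurable

theorem Vr_meas {N : ℕ} {X : Type} [MeasurableSpace X] (G : X → (Fin (N + 1) → ℝ) → ℝ)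
    (hG : Measurable fun p : X × (Fin (N + 1) → ℝ) => G p.1 p.2) : Measurable fun ξ => Vr (fm (G ξ)) := by
  have h1 := fm_meas G hG
  have h2 : Measurable fun ξ => ∫ y, fm (G ξ) y ∂U01 :=
    h1.stronglyMeasurable.integral_prod_right'.measurable
  have h3 : Measurable fun p : X × ℝ => (fm (G p.1) p.2 - ∫ y, fm (G p.1) y ∂U01) ^ 2 :=
    (h1.sub (h2.comp measurable_fst)).pow_const 2
  exact h3.stronglyMeasurable.integral_prod_right'.measurable

theorem VS_meas (N : ℕ) : ∀ {X : Type} [MeasurableSpace X] (G : X → (Fin N → ℝ) → ℝ) (L : X → ℝ),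
    (Measurable fun p : X × (Fin N → ℝ) => G p.1 p.2) → Measurable L →
    Measurable fun ξ => VS N (G ξ) (L ξ) := by
  induction N with
  | zero =>
    intro X _ G L hG hL
    simp only [VS]
    exact measurable_const
  | succ N ih =>
    intro X _ G L hG hL
    have ha := Vr_meas G hG
    have hs : Measurable fun p : (X × ℝ) × (Fin N → ℝ) => sc (G p.1.1) p.1.2 p.2 :=
      hG.comp (measurable_fst.fst.prodMk (measurable_cn.comp (measurable_fst.snd.prodMk measurable_snd)))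
    have h2 : Measurable fun p : X × ℝ => VS N (sc (G p.1) p.2) (L p.1 - Vr (fm (G p.1))) :=
      ih (fun p : X × ℝ => sc (G p.1) p.2) (fun p => L p.1 - Vr (fm (G p.1))) hs
        ((hL.sub ha).comp measurable_fst)
    have h3 : Measurable fun ξ => ∫ x, VS N (sc (G ξ) x) (L ξ - Vr (fm (G ξ))) ∂U01 :=
      h2.stronglyMeasurable.integral_prod_right'.measurable
    simp only [VS]
    exact Measurable.ite (measurableSet_le ha hL) (ha.add h3) measurable_const

theorem VS_sec_meas {N : ℕ} {F : (Fin (N + 1) → ℝ) → ℝ} (hF : Measurable F) (L : ℝ) :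
    Measurable fun r => VS N (sc F r) L :=
  VS_meas N (fun r => sc F r) (fun _ => L) (hF.comp measurable_cn) measurable_const

theorem VS_nonneg (N : ℕ) : ∀ (F : (Fin N → ℝ) → ℝ) (L : ℝ), 0 ≤ VS N F L := by
  induction N with
  | zero => intro F L; simp [VS]
  | succ N ih =>
    intro F L
    simp only [VS]
    split_ifs
    · exact add_nonneg (Vr_nonneg _) (integral_nonneg fun x => ih _ _)
    · exact le_rfl

theorem VS_le (N : ℕ) : ∀ (F : (Fin N → ℝ) → ℝ) (L : ℝ), Measurable F → 0 ≤ L → VS N F L ≤ L := by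
  induction N with
  | zero =>
    intro F L _ h
    simp only [VS]
    exact h
  | succ N ih =>
    intro F L hF h
    simp only [VS]
    split_ifs with h1
    · have hb : ∀ x, VS N (sc F x) (L - Vr (fm F)) ≤ L - Vr (fm F) := fun x =>
        ih _ _ (hF.comp (measurable_cn_right x)) (by linarith)
      have : ∫ x, VS N (sc F x) (L - Vr (fm F)) ∂U01 ≤ L - Vr (fm F) := by
        calc ∫ x, VS N (sc F x) (L - Vr (fm F)) ∂U01 ≤ ∫ _x, (L - Vr (fm F)) ∂U01 :=
              integral_mono_of_nonneg (Filter.Eventually.of_forall fun x => VS_nonneg N _ _)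
                (integrable_const _) (Filter.Eventually.of_forall hb)
          _ = L - Vr (fm F) := by simp
      linarith
    · linarith

theorem VS_sec_bm {N : ℕ} {F : (Fin (N + 1) → ℝ) → ℝ} (hF : Measurable F) {L : ℝ} (hL : 0 ≤ L) :
    BM fun r => VS N (sc F r) L := by
  refine ⟨VS_sec_meas hF L, L, fun r => ?_⟩
  rw [abs_of_nonneg (VS_nonneg N _ _)]
  exact VS_le N _ _ (hF.comp (measurable_cn_right r)) hL

theorem Vr_le_one {Q : ℝ → ℝ} {a b : ℝ} (hQ : Qf Q a b) {γ f : ℝ → ℝ} (h : SG1 Q γ f) : Vr f ≤ 1 := by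
  have hm : Measurable f := (h.mono hQ).measurable
  have hosc : ∀ x, |f x - ∫ y, f y ∂U01| ≤ 1 := by
    intro x
    have hfb : BM f := ⟨hm, |f 0| + 1, fun y => by
      have h1 := h.osc hQ 0 y
      have h2 : |f y| ≤ |f 0| + |f y - f 0| := by
        have := abs_add_le (f 0) (f y - f 0)
        rwa [add_sub_cancel] at this
      linarith⟩
    have e1 : f x - ∫ y, f y ∂U01 = ∫ y, (f x - f y) ∂U01 := by
      rw [integral_sub (integrable_const _) hfb.int]
      simp
    rw [e1]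
    have h1 := norm_integral_le_of_norm_le_const (μ := U01) (f := fun y => f x - f y) (C := 1)
      (Filter.Eventually.of_forall fun y => by rw [Real.norm_eq_abs]; exact h.osc hQ y x)
    simpa using h1
  unfold Vr
  calc ∫ x, (f x - ∫ y, f y ∂U01) ^ 2 ∂U01 ≤ ∫ _x, (1 : ℝ) ∂U01 := by
        refine integral_mono_of_nonneg (Filter.Eventually.of_forall fun x => sq_nonneg _) (integrable_const _)
          (Filter.Eventually.of_forall fun x => ?_)
        have h1 := hosc x
        have h2 : |f x - ∫ y, f y ∂U01| ^ 2 ≤ 1 ^ 2 := pow_le_pow_left₀ (abs_nonneg _) h1 2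
        rw [sq_abs, one_pow] at h2
        exact h2
    _ = 1 := by simp

/-- The second moment around `b`. -/
theorem int_sq {f : ℝ → ℝ} (hf : BM f) (c : ℝ) :
    ∫ x, (f x - c) ^ 2 ∂U01 = Vr f + ((∫ x, f x ∂U01) - c) ^ 2 := by
  obtain ⟨m, hm⟩ : ∃ m, m = ∫ x, f x ∂U01 := ⟨_, rfl⟩
  have h1 : ∀ x, (f x - c) ^ 2 = (f x - m) ^ 2 + (2 * (m - c) * (f x - m) + (m - c) ^ 2) := fun x => by ring
  have i1 : BM fun x => f x - m := hf.sub (BM.const m)
  unfold Vr
  rw [← hm]
  simp_rw [h1]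
  have h2 : ∫ x, (f x - m) ∂U01 = 0 := by
    rw [integral_sub hf.int (integrable_const _), ← hm]
    simp
  rw [integral_add (i1.pow 2).int ((i1.const_mul _).add (BM.const _)).int,
    integral_add (i1.const_mul _).int (BM.const _).int, integral_const_mul, h2]
  simp

/-- THE TAIL (row 623 (5)). -/
theorem tailS {Q : ℝ → ℝ} {a b : ℝ} (hQ : Qf Q a b) {Λ κ : ℝ} (hΛ : 1 < Λ) (hκ : 0 < κ) (N : ℕ) :
    ∀ (F : (Fin N → ℝ) → ℝ) (g : Fin N → (Fin N → ℝ) → ℝ) (c L : ℝ), SG Q N g F → 0 ≤ L → L ≤ Λ →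
      ∫ x, {x : Fin N → ℝ | κ ≤ |F x - c|}.indicator (fun _ => (1 : ℝ)) x ∂(PN U01 N) ≤
        (((∫ x, F x ∂(PN U01 N)) - c) ^ 2 + VS N F L) / κ ^ 2 + (VS N F L + (Λ - L)) / (Λ - 1) := by
  have hκ2 : 0 < κ ^ 2 := by positivity
  have hΛ1 : 0 < Λ - 1 := by linarith
  have hset : ∀ {N : ℕ} {F : (Fin N → ℝ) → ℝ} (c : ℝ), Measurable F → MeasurableSet {x : Fin N → ℝ | κ ≤ |F x - c|} :=
    fun c hF => measurableSet_le measurable_const (hF.sub_const c).abs
  have hbm : ∀ {N : ℕ} {F : (Fin N → ℝ) → ℝ} (c : ℝ), Measurable F →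
      BM fun x : Fin N → ℝ => {x : Fin N → ℝ | κ ≤ |F x - c|}.indicator (fun _ => (1 : ℝ)) x := by
    intro N F c hF
    refine ⟨measurable_const.indicator (hset c hF), 1, fun x => ?_⟩
    dsimp only
    rw [Set.indicator_apply]
    split_ifs <;> simp
  induction N with
  | zero =>
    intro F g c L hF hL hLΛ
    have h0 : ∀ x : Fin 0 → ℝ, F x = F 0 := fun x => by rw [Subsingleton.elim x 0]
    have h1 : ∫ x, F x ∂(PN U01 0) = F 0 := by
      simp_rw [h0]
      simp
    rw [h1]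
    simp only [VS]
    have h2 : ∫ x, {x : Fin 0 → ℝ | κ ≤ |F x - c|}.indicator (fun _ => (1 : ℝ)) x ∂(PN U01 0) ≤
        ∫ _x : Fin 0 → ℝ, (F 0 - c) ^ 2 / κ ^ 2 ∂(PN U01 0) := by
      refine integral_mono (hbm c hF.mF).int (integrable_const _) fun x => ?_
      dsimp only
      rw [Set.indicator_apply]
      split_ifs with h3
      · have h4 : κ ≤ |F 0 - c| := by
          have : κ ≤ |F x - c| := h3
          rwa [h0 x] at this
        rw [le_div_iff₀ hκ2, one_mul, ← sq_abs (F 0 - c)]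
        exact pow_le_pow_left₀ hκ.le h4 2
      · positivity
    have h3 : ∫ _x : Fin 0 → ℝ, (F 0 - c) ^ 2 / κ ^ 2 ∂(PN U01 0) = (F 0 - c) ^ 2 / κ ^ 2 := by simp
    rw [h3] at h2
    have h4 : 0 ≤ (0 + (Λ - L)) / (Λ - 1) := div_nonneg (by linarith) hΛ1.le
    rw [add_zero]
    linarith
  | succ N ih =>
    intro F g c L hF hL hLΛ
    have hb := hF.bm hQ
    have hS := hF.one hQ
    simp only [VS]
    split_ifs with h1
    · obtain ⟨V, hV⟩ : ∃ V, V = Vr (fm F) := ⟨_, rfl⟩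
      have hV0 : 0 ≤ V := by rw [hV]; exact Vr_nonneg _
      rw [← hV] at h1 ⊢
      obtain ⟨S, hSd⟩ : ∃ S : ℝ → ℝ, S = fun r => VS N (sc F r) (L - V) := ⟨_, rfl⟩
      have hSb : BM S := by rw [hSd]; exact VS_sec_bm hF.mF (by linarith)
      have hstep : ∀ r, ∫ z, {x : Fin (N + 1) → ℝ | κ ≤ |F x - c|}.indicator (fun _ => (1 : ℝ)) (cn r z) ∂(PN U01 N) ≤
          ((fm F r - c) ^ 2 + S r) / κ ^ 2 + (S r + (Λ - (L - V))) / (Λ - 1) := by
        intro r
        have h2 := ih (sc F r) _ c (L - V) (hF.sec r) (by linarith) (by linarith)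
        have e1 : ∀ z : Fin N → ℝ, {x : Fin (N + 1) → ℝ | κ ≤ |F x - c|}.indicator (fun _ => (1 : ℝ)) (cn r z) =
            {x : Fin N → ℝ | κ ≤ |sc F r x - c|}.indicator (fun _ => (1 : ℝ)) z := fun z => rfl
        simp_rw [e1]
        rw [hSd]
        exact h2
      rw [int_cn (hbm c hF.mF).int]
      have hR : BM fun r => ((fm F r - c) ^ 2 + S r) / κ ^ 2 + (S r + (Λ - (L - V))) / (Λ - 1) := by
        have i1 : BM fun r => (κ ^ 2)⁻¹ * ((fm F r - c) ^ 2 + S r) :=
          (((hb.fm.sub (BM.const c)).pow 2).add hSb).const_mul _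
        have i2 : BM fun r => (Λ - 1)⁻¹ * (S r + (Λ - (L - V))) := (hSb.add (BM.const _)).const_mul _
        have i3 := i1.add i2
        simpa [div_eq_inv_mul] using i3
      have hL1 : BM fun r => ∫ z, {x : Fin (N + 1) → ℝ | κ ≤ |F x - c|}.indicator (fun _ => (1 : ℝ)) (cn r z)
          ∂(PN U01 N) := (hbm (F := F) c hF.mF).fm
      refine (integral_mono hL1.int hR.int hstep).trans (le_of_eq ?_)
      have i1 : BM fun r => (fm F r - c) ^ 2 := (hb.fm.sub (BM.const c)).pow 2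
      rw [integral_add, integral_div, integral_div, integral_add i1.int hSb.int,
        integral_add hSb.int (integrable_const _), int_sq hb.fm c, ← int_fm hb, ← hV]
      · rw [integral_const, probReal_univ, one_smul]
        have e1 : ∫ r, VS N (sc F r) (L - V) ∂U01 = ∫ r, S r ∂U01 := by rw [hSd]
        rw [e1]
        ring
      · exact (i1.add hSb).int.div_const _
      · exact (hSb.add (BM.const _)).int.div_const _
    · push Not at h1
      have h2 := Vr_le_one hQ hS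
      have h3 : ∫ x, {x : Fin (N + 1) → ℝ | κ ≤ |F x - c|}.indicator (fun _ => (1 : ℝ)) x ∂(PN U01 (N + 1)) ≤ 1 := by
        calc ∫ x, {x : Fin (N + 1) → ℝ | κ ≤ |F x - c|}.indicator (fun _ => (1 : ℝ)) x ∂(PN U01 (N + 1)) ≤
            ∫ _x : Fin (N + 1) → ℝ, (1 : ℝ) ∂(PN U01 (N + 1)) := by
              refine integral_mono (hbm c hF.mF).int (integrable_const _) fun x => ?_
              dsimp only
              rw [Set.indicator_apply]
              split_ifs <;> norm_num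
          _ = 1 := by simp
      have h4 : 1 ≤ (0 + (Λ - L)) / (Λ - 1) := by
        rw [le_div_iff₀ hΛ1]
        linarith
      have h5 : 0 ≤ (((∫ x, F x ∂(PN U01 (N + 1))) - c) ^ 2 + 0) / κ ^ 2 := by positivity
      linarith

end

end Pool.Agent.W_1b8d5d_z
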