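import Pool.Agent.W_1b8d5d_p.LA0

/-!
VARIANCE AND LUCK AT ZERO TEMPERATURE: `θ E F + c θ ^ 2 Var F ≤ log E exp (θ F)` for `0 ≤ θ ≤ 1`, for functions of
independent weights with a law `ν` on `[0, 1]` with density bounded above and below, and with a subgradient in `[0, 1]`.
So the variance of `F` is bounded by its right exponential moments. Proof: induction on the number of coordinates; one
coordinate: the density `1 + θ' (f - m)`, `gain`, and `log (1 + x) ≤ x`.
-/

namespace Pool.Agent.W_1b8d5d_z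

open MeasureTheory Set
open Pool.Agent.W_7d29a1_h42

noncomputable section

/-- The variance of a function of `N` coordinates. -/
def VarN {N : ℕ} (P : Measure (Fin N → ℝ)) (F : (Fin N → ℝ) → ℝ) : ℝ := ∫ x, (F x - ∫ y, F y ∂P) ^ 2 ∂P

theorem BM.exp {α : Type} [MeasurableSpace α] {F : α → ℝ} (h : BM F) : BM fun x => Real.exp (F x) := by
  obtain ⟨hm, C, hC⟩ := h
  refine ⟨Real.measurable_exp.comp hm, Real.exp C, fun x => ?_⟩
  rw [abs_of_pos (Real.exp_pos _)]
  exact Real.exp_le_exp.2 ((le_abs_self _).trans (hC x))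

/-- The logarithm of the exponential moment is bounded as the function is. -/
private theorem vl_log {α : Type} [MeasurableSpace α] {P : Measure α} [IsProbabilityMeasure P] {F : α → ℝ}
    (hm : Measurable F) {C : ℝ} (hC : ∀ x, |F x| ≤ C) :
    0 < ∫ x, Real.exp (F x) ∂P ∧ |Real.log (∫ x, Real.exp (F x) ∂P)| ≤ C := by
  have hb : BM fun x => Real.exp (F x) := BM.exp ⟨hm, C, hC⟩
  have h1 : Real.exp (-C) ≤ ∫ x, Real.exp (F x) ∂P := by
    calc Real.exp (-C) = ∫ _x, Real.exp (-C) ∂P := by simp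
      _ ≤ ∫ x, Real.exp (F x) ∂P := integral_mono (integrable_const _) hb.int fun x =>
          Real.exp_le_exp.2 (by linarith [neg_abs_le (F x), hC x])
  have h2 : ∫ x, Real.exp (F x) ∂P ≤ Real.exp C := by
    calc ∫ x, Real.exp (F x) ∂P ≤ ∫ _x, Real.exp C ∂P := integral_mono hb.int (integrable_const _) fun x =>
          Real.exp_le_exp.2 ((le_abs_self _).trans (hC x))
      _ = Real.exp C := by simp
  have h3 : 0 < ∫ x, Real.exp (F x) ∂P := lt_of_lt_of_le (Real.exp_pos _) h1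
  refine ⟨h3, abs_le.2 ⟨?_, ?_⟩⟩
  · rw [Real.le_log_iff_exp_le h3]
    exact h1
  · rw [Real.log_le_iff_le_exp h3]
    exact h2

/-- Gibbs' variational inequality, with `log h ≤ h - 1`. -/
private theorem vl_gibbs {l h : ℝ → ℝ} (hl : BM l) (hh : BM h) (h0 : ∀ x, 1 / 2 ≤ h x) (h1 : ∫ x, h x ∂U01 = 1) :
    ∫ x, h x * l x ∂U01 - ∫ x, (h x - 1) ^ 2 ∂U01 ≤ Real.log (∫ x, Real.exp (l x) ∂U01) := by
  have hpos : ∀ x, 0 < h x := fun x => by linarith [h0 x]
  obtain ⟨A, hA⟩ : ∃ A, A = ∫ x, h x * l x ∂U01 - ∫ x, (h x - 1) ^ 2 ∂U01 := ⟨_, rfl⟩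
  rw [← hA]
  obtain ⟨C, hC⟩ := hl.2
  have hZ := (vl_log (P := U01) hl.1 hC).1
  rw [Real.le_log_iff_exp_le hZ]
  have b1 : BM fun x => h x * l x := hh.mul hl
  have b2 : BM fun x => (h x - 1) ^ 2 := (hh.sub (BM.const 1)).pow 2
  have b3 : BM fun x => Real.exp (-A) * Real.exp (l x) := hl.exp.const_mul _
  have b4 : BM fun x => h x + (h x * l x - ((h x - 1) ^ 2 + (h x - 1)) - A * h x) :=
    hh.add ((b1.sub (b2.add (hh.sub (BM.const 1)))).sub (hh.const_mul A))
  have hpt : ∀ x, h x + (h x * l x - ((h x - 1) ^ 2 + (h x - 1)) - A * h x) ≤ Real.exp (-A) * Real.exp (l x) := by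
    intro x
    have e1 : Real.exp (-A) * Real.exp (l x) = h x * Real.exp (l x - Real.log (h x) - A) := by
      rw [Real.exp_sub, Real.exp_sub, Real.exp_log (hpos x), Real.exp_neg]
      have := (hpos x).ne'
      field_simp
    have e2 := Real.add_one_le_exp (l x - Real.log (h x) - A)
    have e3 := Real.log_le_sub_one_of_pos (hpos x)
    have e4 : h x * (l x - (h x - 1) - A + 1) ≤ h x * Real.exp (l x - Real.log (h x) - A) :=
      mul_le_mul_of_nonneg_left (by linarith) (hpos x).le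
    rw [e1]
    refine le_trans (le_of_eq ?_) e4
    ring
  have hint := integral_mono b4.int b3.int (μ := U01) hpt
  rw [integral_const_mul, integral_add hh.int ((b1.sub (b2.add (hh.sub (BM.const 1)))).sub (hh.const_mul A)).int,
    integral_sub (b1.sub (b2.add (hh.sub (BM.const 1)))).int (hh.const_mul A).int,
    integral_sub b1.int (b2.add (hh.sub (BM.const 1))).int, integral_add b2.int (hh.sub (BM.const 1)).int,
    integral_sub hh.int (integrable_const _), integral_const_mul, h1] at hint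
  have e5 : ∫ _x : ℝ, (1 : ℝ) ∂U01 = 1 := by simp
  rw [e5] at hint
  have h2 : 1 ≤ Real.exp (-A) * ∫ x, Real.exp (l x) ∂U01 := by linarith
  rw [Real.exp_neg, ← div_eq_inv_mul, le_div_iff₀ (Real.exp_pos _), one_mul] at h2
  exact h2

theorem varN_succ {N : ℕ} {F : (Fin (N + 1) → ℝ) → ℝ} (hF : BM F) :
    VarN (PN U01 (N + 1)) F = Vr (fm F) + ∫ r, VarN (PN U01 N) (sc F r) ∂U01 := by
  obtain ⟨m, hm⟩ : ∃ m, m = ∫ x, F x ∂(PN U01 (N + 1)) := ⟨_, rfl⟩
  have hm' : m = ∫ r, fm F r ∂U01 := by rw [hm, int_fm hF]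
  have b1 : BM fun x => (F x - m) ^ 2 := (hF.sub (BM.const m)).pow 2
  unfold VarN
  rw [← hm, int_fm b1]
  have e1 : ∀ r, fm (fun x => (F x - m) ^ 2) r = (fm F r - m) ^ 2 +
      ∫ z, (sc F r z - ∫ y, sc F r y ∂(PN U01 N)) ^ 2 ∂(PN U01 N) := by
    intro r
    obtain ⟨f, hf⟩ : ∃ f, f = ∫ y, sc F r y ∂(PN U01 N) := ⟨_, rfl⟩
    have hf' : fm F r = f := hf.symm
    have hs := hF.sc r
    have i1 : BM fun z => sc F r z - f := hs.sub (BM.const f)
    rw [← hf, hf']
    have h2 : ∀ z, (F (cn r z) - m) ^ 2 = (sc F r z - f) ^ 2 + (2 * (f - m) * (sc F r z - f) + (f - m) ^ 2) :=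
      fun z => by
        show (sc F r z - m) ^ 2 = _
        ring
    have h3 : ∫ z, (sc F r z - f) ∂(PN U01 N) = 0 := by
      rw [integral_sub hs.int (integrable_const _), ← hf]
      simp
    show ∫ z, (F (cn r z) - m) ^ 2 ∂(PN U01 N) = _
    simp_rw [h2]
    rw [integral_add (i1.pow 2).int ((i1.const_mul _).add (BM.const _)).int,
      integral_add (i1.const_mul _).int (BM.const _).int, integral_const_mul, h3]
    simp
    ring
  simp_rw [e1]
  have b2 : BM fun r => (fm F r - m) ^ 2 := (hF.fm.sub (BM.const m)).pow 2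
  have b3 : BM fun r => ∫ z, (sc F r z - ∫ y, sc F r y ∂(PN U01 N)) ^ 2 ∂(PN U01 N) := by
    have e2 : (fun r => ∫ z, (sc F r z - ∫ y, sc F r y ∂(PN U01 N)) ^ 2 ∂(PN U01 N)) =
        fun r => fm (fun x => (F x - m) ^ 2) r - (fm F r - m) ^ 2 := by
      funext r
      rw [e1 r]
      ring
    rw [e2]
    exact b1.fm.sub b2
  rw [integral_add b2.int b3.int]
  congr 1
  unfold Vr
  rw [← hm']

theorem varN_sec_bm {N : ℕ} {F : (Fin (N + 1) → ℝ) → ℝ} (hF : BM F) : BM fun r => VarN (PN U01 N) (sc F r) := by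
  obtain ⟨m, hm⟩ : ∃ m : ℝ, m = 0 := ⟨_, rfl⟩
  have b1 : BM fun x => F x ^ 2 := hF.pow 2
  have e2 : (fun r => VarN (PN U01 N) (sc F r)) = fun r => fm (fun x => F x ^ 2) r - fm F r ^ 2 := by
    funext r
    obtain ⟨f, hf⟩ : ∃ f, f = ∫ y, sc F r y ∂(PN U01 N) := ⟨_, rfl⟩
    have hf' : fm F r = f := hf.symm
    have hs := hF.sc r
    unfold VarN
    rw [← hf, hf']
    have h2 : ∀ z, (sc F r z - f) ^ 2 = sc F r z ^ 2 - (2 * f * sc F r z - f ^ 2) := fun z => by ring
    simp_rw [h2]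
    rw [integral_sub (hs.pow 2).int ((hs.const_mul _).sub (BM.const _)).int,
      integral_sub (hs.const_mul _).int (BM.const _).int, integral_const_mul, ← hf]
    have h3 : ∫ z, sc F r z ^ 2 ∂(PN U01 N) = fm (fun x => F x ^ 2) r := rfl
    rw [h3]
    simp
    ring
  rw [e2]
  exact b1.fm.sub (hF.fm.pow 2)

/-- THE INDUCTION. -/
theorem vl0_key {Q : ℝ → ℝ} {a b : ℝ} (hQ : Qf Q a b) {θ : ℝ} (hθ0 : 0 ≤ θ) (hθ1 : θ ≤ 1) (N : ℕ) :
    ∀ (F Go Fp : (Fin N → ℝ) → ℝ) (g : Fin N → (Fin N → ℝ) → ℝ), SG Q N g F → BM Go → BM Fp →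
      (∀ x y, Go x + ∑ i, g i x * (Q (y i) - Q (x i)) ≤ Fp y) →
      θ * ∫ x, Go x ∂(PN U01 N) + (a / (2 * b)) ^ 2 / 4 * θ ^ 2 * VarN (PN U01 N) F ≤
      Real.log (∫ x, Real.exp (θ * Fp x) ∂(PN U01 N)) := by
  have hb0 := hQ.b0
  have ha0 := hQ.a0
  obtain ⟨c1, hc1⟩ : ∃ c1, c1 = a / (2 * b) := ⟨_, rfl⟩
  have hc10 : 0 < c1 := by rw [hc1]; positivity
  have hc11 : c1 ≤ 1 / 2 := by
    rw [hc1, div_le_iff₀ (by positivity)]
    linarith [hQ.ab]
  rw [← hc1]
  induction N with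
  | zero =>
    intro F Go Fp g hF hGo hFp h
    have h0 : ∀ (f : (Fin 0 → ℝ) → ℝ) (x : Fin 0 → ℝ), f x = f 0 := fun f x => by rw [Subsingleton.elim x 0]
    have h1 : ∀ f : (Fin 0 → ℝ) → ℝ, ∫ x, f x ∂(PN U01 0) = f 0 := fun f => by
      simp_rw [h0 f]
      simp
    have h2 := h 0 0
    simp only [Finset.univ_eq_empty, Finset.sum_empty, add_zero] at h2
    unfold VarN
    rw [h1, h1, h1, h1, Real.log_exp]
    simp only [sub_self]
    nlinarith
  | succ N ih =>
    intro F Go Fp g hF hGo hFp h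
    have hFb := hF.bm hQ
    have h1s := hF.one hQ
    obtain ⟨m, hm⟩ : ∃ m, m = ∫ x, fm F x ∂U01 := ⟨_, rfl⟩
    obtain ⟨V, hV⟩ : ∃ V, V = Vr (fm F) := ⟨_, rfl⟩
    have hV0 : 0 ≤ V := by rw [hV]; exact Vr_nonneg _
    obtain ⟨t, ht⟩ : ∃ t, t = c1 * θ / 2 := ⟨_, rfl⟩
    have ht0 : 0 ≤ t := by rw [ht]; positivity
    have ht1 : t ≤ 1 / 2 := by rw [ht]; nlinarith
    have hosc : ∀ y, |fm F y - m| ≤ 1 := fun y => by rw [hm]; exact h1s.osc_mean hQ y
    have hr0 : ∀ y, 1 / 2 ≤ 1 + t * (fm F y - m) := fun y => by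
      have := abs_le.1 (hosc y)
      nlinarith
    obtain ⟨l, hl⟩ : ∃ l : ℝ → ℝ, l = fun y => Real.log (∫ z, Real.exp (θ * Fp (cn y z)) ∂(PN U01 N)) := ⟨_, rfl⟩
    obtain ⟨C, hC⟩ := (hFp.const_mul θ).2
    have hlb : BM l := by
      rw [hl]
      refine ⟨Real.measurable_log.comp (hFp.const_mul θ).exp.fm.1, C, fun y => ?_⟩
      exact (vl_log (P := PN U01 N) (F := fun z => θ * Fp (cn y z))
        ((hFp.const_mul θ).1.comp (measurable_cn_right y)) fun z => hC _).2
    have hrb : BM fun y => 1 + t * (fm F y - m) := (BM.const 1).add ((hFb.fm.sub (BM.const m)).const_mul t)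
    have er : ∫ y, (1 + t * (fm F y - m)) ∂U01 = 1 := by
      rw [integral_add (integrable_const _) ((hFb.fm.sub (BM.const m)).const_mul t).int, integral_const_mul,
        integral_sub hFb.fm.int (integrable_const _), ← hm]
      simp
    have hg := vl_gibbs hlb hrb hr0 er
    have e1 : ∫ y, (1 + t * (fm F y - m) - 1) ^ 2 ∂U01 = t ^ 2 * V := by
      have h1 : ∀ y, (1 + t * (fm F y - m) - 1) ^ 2 = t ^ 2 * (fm F y - m) ^ 2 := fun y => by ring
      simp_rw [h1]
      rw [integral_const_mul, hV]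
      unfold Vr
      rw [← hm]
    rw [e1] at hg
    -- the exponential moment
    have e2 : ∫ x, Real.exp (θ * Fp x) ∂(PN U01 (N + 1)) = ∫ y, Real.exp (l y) ∂U01 := by
      rw [int_fm (hFp.const_mul θ).exp]
      refine integral_congr_ae (Filter.Eventually.of_forall fun y => ?_)
      rw [hl]
      show fm (fun x => Real.exp (θ * Fp x)) y = Real.exp (Real.log (∫ z, Real.exp (θ * Fp (cn y z)) ∂(PN U01 N)))
      rw [Real.exp_log]
      · rfl
      · exact (vl_log (P := PN U01 N) (F := fun z => θ * Fp (cn y z))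
          ((hFp.const_mul θ).1.comp (measurable_cn_right y)) fun z => hC _).1
    rw [e2]
    refine le_trans ?_ hg
    -- the induction hypothesis
    have hmain : ∀ x y, θ * (fm Go x + fm (g 0) x * (Q y - Q x)) + c1 ^ 2 / 4 * θ ^ 2 * VarN (PN U01 N) (sc F x) ≤ l y := by
      intro x y
      have hGx : BM fun z => Go (cn x z) + g 0 (cn x z) * (Q y - Q x) :=
        (hGo.sc x).add (((hF.bg 0).sc x).mul (BM.const (Q y - Q x)))
      have h2 := ih (sc F x) (fun z => Go (cn x z) + g 0 (cn x z) * (Q y - Q x)) (fun z => Fp (cn y z))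
        (fun i z => g i.succ (cn x z)) (hF.sec x) hGx (hFp.sc y) (fun z z' => by
          have h3 := h (cn x z) (cn y z')
          rw [Fin.sum_univ_succ] at h3
          simp only [cn_zero, cn_succ] at h3
          linarith)
      have j1 : Integrable (fun z => Go (cn x z)) (PN U01 N) := (hGo.sc x).int
      have j2 : Integrable (fun z => g 0 (cn x z) * (Q y - Q x)) (PN U01 N) := ((hF.bg 0).sc x).int.mul_const _
      rw [integral_add j1 j2, integral_mul_const] at h2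
      rw [hl]
      exact h2
    -- integrate
    have hτ : Measurable (tau t (fm F)) := tau_meas hQ h1s t
    have s1 := tau_map hQ h1s ht0 ht1 hGo.fm
    have s2 := tau_map hQ h1s ht0 ht1 (varN_sec_bm hFb)
    have s3 := gain hQ h1s ht0 ht1
    rw [← hm] at s1 s2 s3
    rw [← hc1, ← hV] at s3
    have hQb : BM fun y => Q y - Q (tau t (fm F) y) :=
      ⟨hQ.mono.measurable.sub (hQ.mono.measurable.comp hτ), 1, fun y => hQ.osc _ _⟩
    have b1 : BM fun y => (1 + t * (fm F y - m)) * fm Go (tau t (fm F) y) := hrb.mul (hGo.fm.comp hτ)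
    have b2 : BM fun y => (1 + t * (fm F y - m)) * (fm (g 0) (tau t (fm F) y) * (Q y - Q (tau t (fm F) y))) :=
      hrb.mul ((h1s.bγ.comp hτ).mul hQb)
    have b3 : BM fun y => (1 + t * (fm F y - m)) * VarN (PN U01 N) (sc F (tau t (fm F) y)) :=
      hrb.mul ((varN_sec_bm hFb).comp hτ)
    have hpt : ∀ y, θ * ((1 + t * (fm F y - m)) * fm Go (tau t (fm F) y)) +
        (θ * ((1 + t * (fm F y - m)) * (fm (g 0) (tau t (fm F) y) * (Q y - Q (tau t (fm F) y)))) +
        c1 ^ 2 / 4 * θ ^ 2 * ((1 + t * (fm F y - m)) * VarN (PN U01 N) (sc F (tau t (fm F) y)))) ≤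
        (1 + t * (fm F y - m)) * l y := by
      intro y
      have h1 := mul_le_mul_of_nonneg_left (hmain (tau t (fm F) y) y) (by linarith [hr0 y] : 0 ≤ 1 + t * (fm F y - m))
      refine le_trans (le_of_eq ?_) h1
      ring
    have hint := integral_mono ((b1.const_mul θ).add ((b2.const_mul θ).add (b3.const_mul _))).int
      (hrb.mul hlb).int (μ := U01) hpt
    rw [integral_add (b1.const_mul θ).int ((b2.const_mul θ).add (b3.const_mul _)).int,
      integral_add (b2.const_mul θ).int (b3.const_mul _).int, integral_const_mul, integral_const_mul,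
      integral_const_mul, s1, s2] at hint
    rw [int_fm hGo, varN_succ hFb, ← hV]
    have h5 := mul_le_mul_of_nonneg_left s3 hθ0
    have h6 : θ * (c1 * t * V) - t ^ 2 * V = c1 ^ 2 / 4 * θ ^ 2 * V := by
      rw [ht]
      ring
    linarith

/-- VARIANCE AND LUCK AT ZERO TEMPERATURE. The constant depends on `r, R` only. -/
theorem vl0 {r R : ℝ} (hr : 0 < r) (hrR : r ≤ R) : ∃ c : ℝ, 0 < c ∧ ∀ ν : Measure ℝ, IsProbabilityMeasure ν →
    ENNReal.ofReal r • U01 ≤ ν → ν ≤ ENNReal.ofReal R • U01 → ∀ (N : ℕ) (F : (Fin N → ℝ) → ℝ)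
    (g : Fin N → (Fin N → ℝ) → ℝ), SW N g F → ∀ θ : ℝ, 0 ≤ θ → θ ≤ 1 →
      θ * ∫ x, F x ∂(PN ν N) + c * θ ^ 2 * ∫ x, (F x - ∫ y, F y ∂(PN ν N)) ^ 2 ∂(PN ν N) ≤
        Real.log (∫ x, Real.exp (θ * F x) ∂(PN ν N)) := by
  have hR : 0 < R := lt_of_lt_of_le hr hrR
  refine ⟨(1 / R / (2 * (1 / r))) ^ 2 / 4, by positivity, fun ν hν h1 h2 N F g hF θ hθ0 hθ1 => ?_⟩
  obtain ⟨Q, hQ, hQ1, hQν⟩ := exists_Q hr h1 h2
  have hQm : Measurable Q := hQ.mono.measurable
  have hm : Measurable fun (x : Fin N → ℝ) (j : Fin N) => Q (x j) :=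
    measurable_pi_lambda _ fun j => hQm.comp (measurable_pi_apply j)
  have hmap := map_PN hQm hQν N
  have hint : ∀ f : (Fin N → ℝ) → ℝ, Measurable f → ∫ x, f x ∂(PN ν N) = ∫ x, f (fun j => Q (x j)) ∂(PN U01 N) := by
    intro f hf
    rw [← hmap, integral_map hm.aemeasurable hf.aestronglyMeasurable]
  have hS := hF.toSG hQm hQ1
  have hk := vl0_key hQ hθ0 hθ1 N _ _ _ _ hS (hS.bm hQ) (hS.bm hQ) hS.sub
  unfold VarN at hk
  rw [hint _ ((hF.mF.sub_const _).pow_const 2),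
    hint (fun x => Real.exp (θ * F x)) (Real.measurable_exp.comp (hF.mF.const_mul θ)), hint F hF.mF]
  exact hk

end

end Pool.Agent.W_1b8d5d_z
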