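import Pool.Agent.W_1b8d5d_p.ZDefs

/-!
ZERO TEMPERATURE: a law with a density in `[r, R]` on `[0, 1]` is the image of the uniform law under a function `Q` with
slopes in `[1 / R, 1 / r]`.
-/

namespace Pool.Agent.W_1b8d5d_z

open MeasureTheory Set
open Pool.Agent.W_7d29a1_h42

noncomputable section

theorem exists_Q {ν : Measure ℝ} [IsProbabilityMeasure ν] {r R : ℝ} (hr : 0 < r)
    (h1 : ENNReal.ofReal r • U01 ≤ ν) (h2 : ν ≤ ENNReal.ofReal R • U01) :
    ∃ Q : ℝ → ℝ, Qf Q (1 / R) (1 / r) ∧ (∀ x, Q x ∈ Icc (0 : ℝ) 1) ∧ U01.map Q = ν := by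
  have hvol : ∀ x y : ℝ, 0 ≤ x → x ≤ y → y ≤ 1 → U01 (Ioc x y) = ENNReal.ofReal (y - x) := by
    intro x y h0 hxy hy
    have hs : Ioc x y ⊆ Icc 0 1 := fun z hz => ⟨h0.trans hz.1.le, hz.2.trans hy⟩
    rw [Measure.restrict_apply measurableSet_Ioc, inter_eq_left.2 hs, Real.volume_Ioc]
  have htot : ν univ ≤ ENNReal.ofReal R := by
    have := h2 univ
    simpa using this
  have hR1 : 1 ≤ R := by
    rw [measure_univ] at htot
    by_contra hcon
    rw [not_le] at hcon
    have : ENNReal.ofReal R < 1 := by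
      rw [ENNReal.ofReal_lt_one]
      exact hcon
    exact absurd htot (not_le.2 this)
  have hr1 : r ≤ 1 := by
    have h3 := h1 univ
    rw [Measure.smul_apply, smul_eq_mul, measure_univ, measure_univ, mul_one] at h3
    exact ENNReal.ofReal_le_one.1 h3
  have hR0 : 0 < R := by linarith
  -- bounds for the measure of an interval
  have hlo : ∀ x y : ℝ, 0 ≤ x → x ≤ y → y ≤ 1 → r * (y - x) ≤ ν.real (Ioc x y) := by
    intro x y h0 hxy hy
    have h3 := h1 (Ioc x y)
    rw [Measure.smul_apply, smul_eq_mul, hvol x y h0 hxy hy, ← ENNReal.ofReal_mul hr.le] at h3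
    exact (ENNReal.ofReal_le_iff_le_toReal (measure_ne_top ν _)).1 h3
  have hhi : ∀ x y : ℝ, 0 ≤ x → x ≤ y → y ≤ 1 → ν.real (Ioc x y) ≤ R * (y - x) := by
    intro x y h0 hxy hy
    have h3 := h2 (Ioc x y)
    rw [Measure.smul_apply, smul_eq_mul, hvol x y h0 hxy hy, ← ENNReal.ofReal_mul hR0.le] at h3
    exact ENNReal.toReal_le_of_le_ofReal (mul_nonneg hR0.le (by linarith)) h3
  have hnull : ∀ s : Set ℝ, U01 s = 0 → ν s = 0 := by
    intro s hs
    have h3 := h2 s
    rw [Measure.smul_apply, hs, smul_zero] at h3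
    exact le_antisymm h3 zero_le
  obtain ⟨H, hH⟩ : ∃ H : ℝ → ℝ, H = fun t => ν.real (Iic t) := ⟨_, rfl⟩
  have hsub : ∀ x y : ℝ, x ≤ y → H y = H x + ν.real (Ioc x y) := by
    intro x y hxy
    rw [hH]
    dsimp only
    have hd : Disjoint (Iic x) (Ioc x y) := Iic_disjoint_Ioc le_rfl
    rw [← measureReal_union hd measurableSet_Ioc, Iic_union_Ioc_eq_Iic hxy]
  have hH0 : H 0 = 0 := by
    rw [hH]
    have : ν (Iic 0) = 0 := by
      refine hnull _ ?_
      rw [Measure.restrict_apply measurableSet_Iic]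
      have : Iic (0 : ℝ) ∩ Icc 0 1 = {0} := by
        ext z
        simp only [mem_inter_iff, mem_Iic, mem_Icc, mem_singleton_iff]
        constructor
        · rintro ⟨h3, h4, h5⟩
          linarith
        · intro h3
          rw [h3]
          norm_num
      rw [this]
      simp
    simp [Measure.real, this]
  have hH1 : H 1 = 1 := by
    rw [hH]
    have h3 : ν (Ioi 1) = 0 := by
      refine hnull _ ?_
      rw [Measure.restrict_apply measurableSet_Ioi]
      have : Ioi (1 : ℝ) ∩ Icc 0 1 = ∅ := by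
        ext z
        simp only [mem_inter_iff, mem_Ioi, mem_Icc, mem_empty_iff_false, iff_false, not_and]
        intro h3 h4
        linarith
      rw [this]
      simp
    have h4 : ν.real (Iic 1)ᶜ = 0 := by
      rw [compl_Iic]
      simp [Measure.real, h3]
    have h5 := probReal_compl_eq_one_sub (μ := ν) (measurableSet_Iic (a := (1 : ℝ)))
    rw [h4] at h5
    show ν.real (Iic 1) = 1
    linarith
  have hHlo : ∀ x y : ℝ, 0 ≤ x → x ≤ y → y ≤ 1 → r * (y - x) ≤ H y - H x := by
    intro x y h0 hxy hy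
    rw [hsub x y hxy]
    linarith [hlo x y h0 hxy hy]
  have hHhi : ∀ x y : ℝ, 0 ≤ x → x ≤ y → y ≤ 1 → H y - H x ≤ R * (y - x) := by
    intro x y h0 hxy hy
    rw [hsub x y hxy]
    linarith [hhi x y h0 hxy hy]
  have hcont : ContinuousOn H (Icc 0 1) := by
    have hlip : LipschitzOnWith (Real.toNNReal R) H (Icc 0 1) := by
      refine LipschitzOnWith.of_dist_le_mul fun x hx y hy => ?_
      rw [Real.dist_eq, Real.dist_eq, Real.coe_toNNReal R hR0.le]
      rcases le_total x y with h | h
      · rw [abs_sub_comm, abs_sub_comm x y, abs_of_nonneg, abs_of_nonneg (by linarith)]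
        · exact hHhi x y hx.1 h hy.2
        · have := hHlo x y hx.1 h hy.2
          have h3 : 0 ≤ r * (y - x) := mul_nonneg hr.le (by linarith)
          linarith
      · rw [abs_of_nonneg, abs_of_nonneg (by linarith)]
        · exact hHhi y x hy.1 h hx.2
        · have := hHlo y x hy.1 h hx.2
          have h3 : 0 ≤ r * (x - y) := mul_nonneg hr.le (by linarith)
          linarith
    exact hlip.continuousOn
  -- the clamp
  obtain ⟨cl, hcl⟩ : ∃ cl : ℝ → ℝ, cl = fun u => max 0 (min u 1) := ⟨_, rfl⟩
  have hcl0 : ∀ u, cl u ∈ Icc (0 : ℝ) 1 := fun u => by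
    rw [hcl]
    exact ⟨le_max_left _ _, max_le zero_le_one (min_le_right _ _)⟩
  have hclm : Monotone cl := fun u v h => by
    rw [hcl]
    exact max_le_max le_rfl (min_le_min h le_rfl)
  have hclid : ∀ u ∈ Icc (0 : ℝ) 1, cl u = u := fun u hu => by
    rw [hcl]
    dsimp only
    rw [min_eq_left hu.2, max_eq_right hu.1]
  have hcll : ∀ u v : ℝ, u ≤ v → cl v - cl u ≤ v - u := by
    intro u v h
    rw [hcl]
    dsimp only
    rcases le_total u 1 with h3 | h3 <;> rcases le_total v 1 with h4 | h4 <;> rcases le_total 0 u with h5 | h5 <;>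
      rcases le_total 0 v with h6 | h6 <;> simp [*] <;> linarith
  have hex : ∀ u : ℝ, ∃ x ∈ Icc (0 : ℝ) 1, H x = cl u := by
    intro u
    have h3 := intermediate_value_Icc zero_le_one hcont
    rw [hH0, hH1] at h3
    exact h3 (hcl0 u)
  choose Q hQ1 hQ2 using hex
  have hmono : Monotone Q := by
    intro u v huv
    by_contra hcon
    rw [not_le] at hcon
    have h3 := hHlo (Q v) (Q u) (hQ1 v).1 hcon.le (hQ1 u).2
    rw [hQ2, hQ2] at h3
    have h4 := hclm huv
    have h5 : 0 < r * (Q u - Q v) := mul_pos hr (by linarith)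
    linarith
  refine ⟨Q, ⟨hmono, by positivity, one_div_le_one_div_of_le hr (by linarith), fun x y h0 hxy hy => ?_,
    fun x y hxy => ?_, fun x y => ?_⟩, hQ1, ?_⟩
  · have h3 := hHhi (Q x) (Q y) (hQ1 x).1 (hmono hxy) (hQ1 y).2
    rw [hQ2, hQ2, hclid y ⟨h0.trans hxy, hy⟩, hclid x ⟨h0, hxy.trans hy⟩] at h3
    rw [one_div, inv_mul_le_iff₀ hR0]
    exact h3
  · have h3 := hHlo (Q x) (Q y) (hQ1 x).1 (hmono hxy) (hQ1 y).2
    rw [hQ2, hQ2] at h3
    have h4 := hcll x y hxy
    rw [one_div, le_inv_mul_iff₀ hr]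
    linarith
  · linarith [(hQ1 y).2, (hQ1 x).1]
  · have : IsProbabilityMeasure (U01.map Q) := Measure.isProbabilityMeasure_map hmono.measurable.aemeasurable
    refine Measure.ext_of_Iic _ _ fun t => ?_
    rw [Measure.map_apply hmono.measurable measurableSet_Iic]
    rcases lt_or_ge t 0 with ht | ht
    · have e1 : Q ⁻¹' Iic t = ∅ := by
        ext u
        simp only [mem_preimage, mem_Iic, mem_empty_iff_false, iff_false, not_le]
        linarith [(hQ1 u).1]
      rw [e1, measure_empty]
      symm
      refine hnull _ ?_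
      rw [Measure.restrict_apply measurableSet_Iic]
      have : Iic t ∩ Icc (0 : ℝ) 1 = ∅ := by
        ext z
        simp only [mem_inter_iff, mem_Iic, mem_Icc, mem_empty_iff_false, iff_false, not_and]
        intro h3 h4
        linarith
      rw [this]
      simp
    · rcases lt_or_ge 1 t with ht1 | ht1
      · have e1 : Q ⁻¹' Iic t = univ := by
          ext u
          simp only [mem_preimage, mem_Iic, mem_univ, iff_true]
          linarith [(hQ1 u).2]
        rw [e1, measure_univ]
        have h3 : ν.real (Iic 1) ≤ ν.real (Iic t) := measureReal_mono (Iic_subset_Iic.2 ht1.le)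
        have h4 : ν.real (Iic 1) = 1 := by
          have := hH1
          rw [hH] at this
          exact this
        have h5 : ν.real (Iic t) = 1 := le_antisymm measureReal_le_one (by linarith)
        have h6 : ν (Iic t) = ENNReal.ofReal (ν.real (Iic t)) := (ofReal_measureReal).symm
        rw [h6, h5]
        simp
      · have e1 : Q ⁻¹' Iic t ∩ Icc 0 1 = Icc 0 (H t) := by
          ext u
          simp only [mem_inter_iff, mem_preimage, mem_Iic, mem_Icc]
          have hHt1 : H t ≤ 1 := by
            have h3 := hHlo t 1 ht ht1 le_rfl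
            rw [hH1] at h3
            have h4 : 0 ≤ r * (1 - t) := mul_nonneg hr.le (by linarith)
            linarith
          constructor
          · rintro ⟨h3, h4, h5⟩
            refine ⟨h4, ?_⟩
            have h6 := hHlo (Q u) t (hQ1 u).1 h3 ht1
            rw [hQ2, hclid u ⟨h4, h5⟩] at h6
            have h7 : 0 ≤ r * (t - Q u) := mul_nonneg hr.le (by linarith)
            linarith
          · rintro ⟨h3, h4⟩
            refine ⟨?_, h3, by linarith⟩
            by_contra hcon
            rw [not_le] at hcon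
            have h6 := hHlo t (Q u) ht hcon.le (hQ1 u).2
            rw [hQ2, hclid u ⟨h3, by linarith⟩] at h6
            have h7 : 0 < r * (Q u - t) := mul_pos hr (by linarith)
            linarith
        rw [Measure.restrict_apply (hmono.measurable measurableSet_Iic), e1, Real.volume_Icc, sub_zero, hH]
        exact ofReal_measureReal

/-- The product measures. -/
theorem map_PN {ν : Measure ℝ} [IsProbabilityMeasure ν] {Q : ℝ → ℝ} (hQ : Measurable Q) (h : U01.map Q = ν) (N : ℕ) :
    (PN U01 N).map (fun x i => Q (x i)) = PN ν N := by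
  have h1 := measurePreserving_pi (fun _ : Fin N => U01) (fun _ : Fin N => ν) (f := fun _ => Q)
    fun _ => ⟨hQ, h⟩
  exact h1.map_eq

end

end Pool.Agent.W_1b8d5d_z
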