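import Pool.Agent.W_1b8d5d_p.ZKey
import Pool.Agent.W_1b8d5d_p.ZQuant
import Pool.Agent.W_7d29a1_h42.LuckAmp

/-!
LEMMA LA0 (proofs row 623): luck amplification at zero temperature. `F` is a function of `N` independent weights with a law
`ν` on `[0, 1]`, whose density is bounded above and below, and `F` has a measurable subgradient with values in `[0, 1]`
(for instance a maximum of finitely many affine functions with coefficients in `[0, 1]`: `SW.affine`, `SW.max`,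
`SW.sup'`). If `F` has fluctuations of the order `U` then there is a density which is bounded by a constant which depends on
`K` only, and which raises the mean of `F` by `K U`.
-/

namespace Pool.Agent.W_1b8d5d_z

open MeasureTheory Set
open Pool.Agent.W_7d29a1_h42

noncomputable section

/-- LEMMA LA0, dual form, in the variables `u`. -/
theorem la0_u {a b : ℝ} (ha0 : 0 < a) (hab : a ≤ b) {c : ℝ} (hc : 0 < c) (hc1 : c ≤ 1) {K : ℝ} (hK : 0 ≤ K) :
    ∃ B U0 : ℝ, 1 < B ∧ 0 < U0 ∧ ∀ Q : ℝ → ℝ, Qf Q a b → ∀ (N : ℕ) (F : (Fin N → ℝ) → ℝ)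
      (g : Fin N → (Fin N → ℝ) → ℝ), SG Q N g F → ∀ U : ℝ, U0 ≤ U →
      c ≤ (PN U01 N).real {x | c * U ≤ |F x - ∫ y, F y ∂(PN U01 N)|} → ∀ s : ℝ,
      ∫ x, F x ∂(PN U01 N) + K * U ≤ s + B * ∫ x, max (F x - s) 0 ∂(PN U01 N) := by
  have hb0 : 0 < b := lt_of_lt_of_le ha0 hab
  obtain ⟨d, hd⟩ : ∃ d, d = c ^ 3 / 3 := ⟨_, rfl⟩
  have hd0 : 0 < d := by rw [hd]; positivity
  have hd1 : d ≤ 1 := by
    rw [hd]
    have : c ^ 3 ≤ 1 := pow_le_one₀ hc.le hc1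
    linarith
  obtain ⟨c1, hc1d⟩ : ∃ c1, c1 = a / (2 * b) := ⟨_, rfl⟩
  have hc10 : 0 < c1 := by rw [hc1d]; positivity
  obtain ⟨K', hK'⟩ : ∃ K', K' = 2 * K / (c1 * d) := ⟨_, rfl⟩
  have hK'0 : 0 ≤ K' := by rw [hK']; positivity
  obtain ⟨N0, hN0⟩ : ∃ N0, N0 = 2 * Real.exp (K' ^ 2) / d := ⟨_, rfl⟩
  have hexp1 : 1 ≤ Real.exp (K' ^ 2) := Real.one_le_exp (by positivity)
  have hN01 : 1 ≤ N0 := by
    rw [hN0, le_div_iff₀ hd0]
    linarith
  refine ⟨2 * N0, 2 + 2 * K', by linarith, by positivity, ?_⟩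
  intro Q hQ N F g hF U hU hfl s
  have hU2 : 2 ≤ U := by linarith
  have hU0 : 0 < U := by linarith
  have hUsq : 2 ≤ U ^ 2 := by nlinarith
  have hbm := hF.bm hQ
  obtain ⟨m, hm⟩ : ∃ m, m = ∫ y, F y ∂(PN U01 N) := ⟨_, rfl⟩
  have ht := tailS hQ (Λ := U ^ 2) (κ := c * U) (by linarith) (by positivity) N F g m (U ^ 2) hF (sq_nonneg U) le_rfl
  have hset : MeasurableSet {x : Fin N → ℝ | c * U ≤ |F x - m|} :=
    measurableSet_le measurable_const (hF.mF.sub_const m).abs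
  rw [integral_indicator hset] at ht
  simp only [integral_const, measureReal_restrict_apply_univ, smul_eq_mul, mul_one] at ht
  rw [← hm] at ht hfl
  obtain ⟨S, hS⟩ : ∃ S, S = VS N F (U ^ 2) := ⟨_, rfl⟩
  have hS0 : 0 ≤ S := by rw [hS]; exact VS_nonneg _ _ _
  rw [← hS, sub_self, sub_self] at ht
  have hS1 : d * U ^ 2 ≤ S := by
    have h1 : c ≤ (0 ^ 2 + S) / (c * U) ^ 2 + (S + 0) / (U ^ 2 - 1) := hfl.trans ht
    have h2 : (S + 0) / (U ^ 2 - 1) ≤ 2 * S / (c * U) ^ 2 := by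
      rw [add_zero, div_le_div_iff₀ (by linarith) (by positivity)]
      have h3 : (c * U) ^ 2 ≤ U ^ 2 := by
        rw [mul_pow]
        have : c ^ 2 ≤ 1 := pow_le_one₀ hc.le hc1
        nlinarith [sq_nonneg U]
      have h4 : (c * U) ^ 2 ≤ 2 * (U ^ 2 - 1) := by linarith
      nlinarith
    have h3 : c ≤ 3 * S / (c * U) ^ 2 := by
      have h4 : (0 ^ 2 + S) / (c * U) ^ 2 + 2 * S / (c * U) ^ 2 = 3 * S / (c * U) ^ 2 := by ring
      linarith
    rw [le_div_iff₀ (by positivity)] at h3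
    rw [hd]
    have h5 : c * (c * U) ^ 2 = c ^ 3 * U ^ 2 := by ring
    linarith
  have hθ1 : K' / U ≤ 1 / 2 := by
    rw [div_le_iff₀ hU0]
    linarith
  have hk := key0 hQ (θ := K' / U) (N0 := N0) (by positivity) hθ1 (by linarith) N F F F g (U ^ 2) 1 s hF hbm hbm
    (sq_nonneg U) one_pos (by linarith) hF.sub
  rw [← hm, ← hS, ← hc1d, div_one] at hk
  have e1 : (K' / U) ^ 2 * U ^ 2 = K' ^ 2 := by
    field_simp
  rw [e1] at hk
  have e2 : U ^ 2 * (1 / N0) * Real.exp (K' ^ 2) = d * U ^ 2 / 2 := by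
    rw [hN0]
    have : Real.exp (K' ^ 2) ≠ 0 := (Real.exp_pos _).ne'
    field_simp
  rw [e2] at hk
  have e3 : K * U ≤ c1 * (K' / U) * (S - d * U ^ 2 / 2) := by
    have h1 : d * U ^ 2 / 2 ≤ S - d * U ^ 2 / 2 := by linarith
    have h2 : c1 * (K' / U) * (d * U ^ 2 / 2) = K * U := by
      rw [hK']
      field_simp
    rw [← h2]
    exact mul_le_mul_of_nonneg_left h1 (by positivity)
  linarith

/-- A subgradient `g` of `F` on the cube, with values in `[0, 1]`. -/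
structure SW (N : ℕ) (g : Fin N → (Fin N → ℝ) → ℝ) (F : (Fin N → ℝ) → ℝ) : Prop where
  mF : Measurable F
  mg : ∀ i, Measurable (g i)
  g0 : ∀ i x, (∀ j, x j ∈ Icc (0 : ℝ) 1) → 0 ≤ g i x
  g1 : ∀ i x, (∀ j, x j ∈ Icc (0 : ℝ) 1) → g i x ≤ 1
  sub : ∀ x y, (∀ j, x j ∈ Icc (0 : ℝ) 1) → (∀ j, y j ∈ Icc (0 : ℝ) 1) → F x + ∑ i, g i x * (y i - x i) ≤ F y

theorem SW.toSG {Q : ℝ → ℝ} (hQm : Measurable Q) (hQ1 : ∀ x, Q x ∈ Icc (0 : ℝ) 1) {N : ℕ}
    {g : Fin N → (Fin N → ℝ) → ℝ} {F : (Fin N → ℝ) → ℝ} (h : SW N g F) :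
    SG Q N (fun i x => g i fun j => Q (x j)) fun x => F fun j => Q (x j) := by
  have hm : Measurable fun (x : Fin N → ℝ) (j : Fin N) => Q (x j) :=
    measurable_pi_lambda _ fun j => hQm.comp (measurable_pi_apply j)
  exact ⟨h.mF.comp hm, fun i => (h.mg i).comp hm, fun i x => h.g0 i _ fun j => hQ1 _,
    fun i x => h.g1 i _ fun j => hQ1 _, fun x y => h.sub _ _ (fun j => hQ1 _) fun j => hQ1 _⟩

/-- LEMMA LA0, dual form. The constants `B`, `U0` depend on `r, R, c, K` only. -/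
theorem la0_dual {r R : ℝ} (hr : 0 < r) (hrR : r ≤ R) {c : ℝ} (hc : 0 < c) (hc1 : c ≤ 1) {K : ℝ} (hK : 0 ≤ K) :
    ∃ B U0 : ℝ, 1 < B ∧ 0 < U0 ∧ ∀ ν : Measure ℝ, IsProbabilityMeasure ν → ENNReal.ofReal r • U01 ≤ ν →
      ν ≤ ENNReal.ofReal R • U01 → ∀ (N : ℕ) (F : (Fin N → ℝ) → ℝ) (g : Fin N → (Fin N → ℝ) → ℝ), SW N g F →
      ∀ U : ℝ, U0 ≤ U → c ≤ (PN ν N).real {x | c * U ≤ |F x - ∫ y, F y ∂(PN ν N)|} → ∀ s : ℝ,
      ∫ x, F x ∂(PN ν N) + K * U ≤ s + B * ∫ x, max (F x - s) 0 ∂(PN ν N) := by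
  have hR : 0 < R := lt_of_lt_of_le hr hrR
  obtain ⟨B, U0, hB, hU0, h⟩ := la0_u (a := 1 / R) (b := 1 / r) (by positivity)
    (one_div_le_one_div_of_le hr hrR) hc hc1 hK
  refine ⟨B, U0, hB, hU0, fun ν hν h1 h2 N F g hF U hU hfl s => ?_⟩
  obtain ⟨Q, hQ, hQ1, hQν⟩ := exists_Q hr h1 h2
  have hQm : Measurable Q := hQ.mono.measurable
  have hm : Measurable fun (x : Fin N → ℝ) (j : Fin N) => Q (x j) :=
    measurable_pi_lambda _ fun j => hQm.comp (measurable_pi_apply j)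
  have hmap := map_PN hQm hQν N
  have hint : ∀ f : (Fin N → ℝ) → ℝ, Measurable f → ∫ x, f x ∂(PN ν N) = ∫ x, f (fun j => Q (x j)) ∂(PN U01 N) := by
    intro f hf
    rw [← hmap, integral_map hm.aemeasurable hf.aestronglyMeasurable]
  have hset : MeasurableSet {x : Fin N → ℝ | c * U ≤ |F x - ∫ y, F y ∂(PN ν N)|} :=
    measurableSet_le measurable_const (hF.mF.sub_const _).abs
  have hreal : (PN ν N).real {x | c * U ≤ |F x - ∫ y, F y ∂(PN ν N)|} =
      (PN U01 N).real {x | c * U ≤ |F (fun j => Q (x j)) - ∫ y, F y ∂(PN ν N)|} := by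
    conv_lhs => rw [← hmap]
    rw [map_measureReal_apply hm (by rw [hmap]; exact hset), hmap]
    rfl
  rw [hreal, hint F hF.mF] at hfl
  rw [hint F hF.mF, hint _ ((hF.mF.sub_const s).max measurable_const)]
  exact h Q hQ N _ _ (hF.toSG hQm hQ1) U hU hfl s

/-- LEMMA LA0, density form. -/
theorem la0 {r R : ℝ} (hr : 0 < r) (hrR : r ≤ R) {c : ℝ} (hc : 0 < c) (hc1 : c ≤ 1) {K : ℝ} (hK : 0 ≤ K) :
    ∃ B U0 : ℝ, 1 < B ∧ 0 < U0 ∧ ∀ ν : Measure ℝ, IsProbabilityMeasure ν → ENNReal.ofReal r • U01 ≤ ν →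
      ν ≤ ENNReal.ofReal R • U01 → ∀ (N : ℕ) (F : (Fin N → ℝ) → ℝ) (g : Fin N → (Fin N → ℝ) → ℝ), SW N g F →
      ∀ U : ℝ, U0 ≤ U → c ≤ (PN ν N).real {x | c * U ≤ |F x - ∫ y, F y ∂(PN ν N)|} →
      ∃ ψ : ℝ → ℝ, Measurable ψ ∧ (∀ t, 0 ≤ ψ t) ∧ (∀ t, ψ t ≤ B) ∧ ∫ x, ψ (F x) ∂(PN ν N) = 1 ∧
        ∫ x, F x ∂(PN ν N) + K * U ≤ ∫ x, ψ (F x) * F x ∂(PN ν N) := by
  obtain ⟨B, U0, hB, hU0, h⟩ := la0_dual hr hrR hc hc1 hK
  refine ⟨B, U0, hB, hU0, fun ν hν h1 h2 N F g hF U hU hfl => ?_⟩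
  have hi : Integrable F (PN ν N) := by
    obtain ⟨Q, hQ, hQ1, hQν⟩ := exists_Q hr h1 h2
    have hQm : Measurable Q := hQ.mono.measurable
    have hm : Measurable fun (x : Fin N → ℝ) (j : Fin N) => Q (x j) :=
      measurable_pi_lambda _ fun j => hQm.comp (measurable_pi_apply j)
    rw [← map_PN hQm hQν N, integrable_map_measure hF.mF.aestronglyMeasurable hm.aemeasurable]
    exact ((hF.toSG hQm hQ1).bm hQ).int
  obtain ⟨s, ψ, h1', h2', h3, h4, h5⟩ := dens_opt hF.mF hi hB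
  refine ⟨ψ, h1', h2', h3, h4, ?_⟩
  rw [h5]
  exact h ν hν h1 h2 N F g hF U hU hfl s

/-- Affine functions. -/
theorem SW.affine {N : ℕ} (c : ℝ) (A : Fin N → ℝ) (h0 : ∀ i, 0 ≤ A i) (h1 : ∀ i, A i ≤ 1) :
    SW N (fun i _ => A i) fun x => c + ∑ i, A i * x i := by
  refine ⟨by fun_prop, fun i => measurable_const, fun i x _ => h0 i, fun i x _ => h1 i, fun x y _ _ => le_of_eq ?_⟩
  have : ∑ i, A i * (y i - x i) = ∑ i, A i * y i - ∑ i, A i * x i := by
    rw [← Finset.sum_sub_distrib]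
    exact Finset.sum_congr rfl fun i _ => by ring
  rw [this]
  ring

/-- Maximum of two functions. -/
theorem SW.max {N : ℕ} {g g' : Fin N → (Fin N → ℝ) → ℝ} {F F' : (Fin N → ℝ) → ℝ} (h : SW N g F) (h' : SW N g' F') :
    SW N (fun i x => if F' x ≤ F x then g i x else g' i x) fun x => Max.max (F x) (F' x) := by
  have hs : MeasurableSet {x | F' x ≤ F x} := measurableSet_le h'.mF h.mF
  refine ⟨h.mF.max h'.mF, fun i => Measurable.ite hs (h.mg i) (h'.mg i), fun i x hx => ?_, fun i x hx => ?_,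
    fun x y hx hy => ?_⟩
  · split_ifs
    · exact h.g0 i x hx
    · exact h'.g0 i x hx
  · split_ifs
    · exact h.g1 i x hx
    · exact h'.g1 i x hx
  · by_cases hc : F' x ≤ F x
    · simp only [if_pos hc]
      rw [max_eq_left hc]
      exact (h.sub x y hx hy).trans (le_max_left _ _)
    · simp only [if_neg hc]
      rw [max_eq_right (not_le.1 hc).le]
      exact (h'.sub x y hx hy).trans (le_max_right _ _)

/-- Maximum of finitely many functions. -/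
theorem SW.sup' {N : ℕ} {ι : Type*} (I : Finset ι) (hI : I.Nonempty) (F : ι → (Fin N → ℝ) → ℝ)
    (h : ∀ k ∈ I, ∃ g, SW N g (F k)) : ∃ g, SW N g fun x => I.sup' hI fun k => F k x := by
  classical
  induction I using Finset.induction_on with
  | empty => exact absurd hI Finset.not_nonempty_empty
  | insert k t hk ih =>
    rcases t.eq_empty_or_nonempty with ht | ht
    · subst ht
      simpa using h k (Finset.mem_insert_self _ _)
    · obtain ⟨g1, hg1⟩ := h k (Finset.mem_insert_self _ _)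
      obtain ⟨g2, hg2⟩ := ih ht fun j hj => h j (Finset.mem_insert_of_mem hj)
      have e : (fun x => (insert k t).sup' hI fun j => F j x) = fun x => Max.max (F k x) (t.sup' ht fun j => F j x) := by
        funext x
        rw [Finset.sup'_insert ht]
      rw [e]
      exact ⟨_, hg1.max hg2⟩

end

end Pool.Agent.W_1b8d5d_z
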