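import Pool.Agent.W_1b8d5d_p.Gr35
import Pool.Agent.W_7d29a1_X20.Quad

/-!
MP_1b8d5d_pr, Track P2, geometry: the points of exactly quadratic curvature are dense.
-/

set_option autoImplicit false

namespace Pool.Agent.W_1b8d5d_p

open MeasureTheory Set Filter Topology

variable {μ : (Fin 2 → ℝ) → ℝ} {a b C δ : ℝ} {S : (Fin 2 → ℝ) → ((Fin 2 → ℝ) →ₗ[ℝ] ℝ)}

/-- A supporting form is the gradient. -/
theorem fderiv_of_touch35 (hN : NormP μ a b) {z : Fin 2 → ℝ} (hz : z ≠ 0) (L : (Fin 2 → ℝ) →ₗ[ℝ] ℝ) (h1 : ∀ y, L y ≤ μ y)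
    (h2 : L z = μ z) (v : Fin 2 → ℝ) : fderiv ℝ μ z v = L v := by
  obtain ⟨L', hL⟩ : ∃ L' : (Fin 2 → ℝ) →L[ℝ] ℝ, ∀ v, L' v = L v := ⟨LinearMap.toContinuousLinearMap L, fun _ => rfl⟩
  have g1 : IsLocalMin (fun y => μ y - L' y) z := by
    refine Filter.Eventually.of_forall fun y => ?_
    show μ z - L' z ≤ μ y - L' y
    rw [hL, hL, h2, sub_self]
    have := h1 y
    linarith
  have g2 : HasFDerivAt (fun y => μ y - L' y) (fderiv ℝ μ z - L') z := (hN.diff z hz).hasFDerivAt.sub L'.hasFDerivAt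
  have g3 : fderiv ℝ μ z - L' = 0 := by
    have h4 := g1.fderiv_eq_zero
    rwa [g2.fderiv] at h4
  have g5 : fderiv ℝ μ z = L' := sub_eq_zero.1 g3
  rw [g5, hL]

theorem pos_ne35 (hN : NormP μ a b) {z : Fin 2 → ℝ} (hz : 0 < μ z) : z ≠ 0 := by
  rintro rfl
  have := hN.upp 0
  simp at this
  linarith

/-- **The points of exactly quadratic curvature are dense.** -/
theorem dense_quad35 (hN : NormP μ a b) (ha : 0 < a)
    (hLD : ∃ C δ : ℝ, 1 ≤ C ∧ 0 < δ ∧ ∀ z, μ z = 1 → LD35 μ C δ z) :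
    ∀ x : Fin 2 → ℝ, μ x = 1 → ∀ r > 0, ∃ z : Fin 2 → ℝ, μ z = 1 ∧ ‖z - x‖ < r ∧ ∃ ε > 0, ∃ M > 0,
      ∀ y : Fin 2 → ℝ, μ y = 1 →
        ε * ‖z - y‖ ^ (2 : ℝ) ≤ μ z + μ y - μ (z + y) ∧ μ z + μ y - μ (z + y) ≤ M * ‖z - y‖ ^ (2 : ℝ) := by
  obtain ⟨C₁, δ, hC₁, hδ, hLD⟩ := hLD
  obtain ⟨S, hS⟩ := exists_sf35 hN hδ hLD
  have hδ2 : 0 < δ / 2 := by positivity
  have hb := hN.b0_35 ha
  obtain ⟨c, K, hc, hK, hcurv⟩ := curv35 hN ha hS hC₁ hδ2
  obtain ⟨ρ, D₁, α, hρ0, hD₁, hα, hnear⟩ := near35 hN ha hS hC₁ hδ2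
  intro x hx r hr
  have hx0 := ne_zero35 hN hx
  have hxn : 0 < ‖x‖ := norm_pos_iff.2 hx0
  obtain ⟨w, hw⟩ : ∃ w : Fin 2 → ℝ, w = ‖x‖⁻¹ • ![-x 1, x 0] := ⟨_, rfl⟩
  have hwn : ‖w‖ ≤ 1 := by
    rw [hw, norm_smul, norm_inv, norm_norm]
    have h1 : ‖![-x 1, x 0]‖ ≤ ‖x‖ := by
      refine norm_le_of _ ?_ ?_
      · show |(-x 1)| ≤ ‖x‖
        rw [abs_neg]
        exact abs_apply_le x 1
      · exact abs_apply_le x 0
    calc ‖x‖⁻¹ * ‖![-x 1, x 0]‖ ≤ ‖x‖⁻¹ * ‖x‖ := mul_le_mul_of_nonneg_left h1 (by positivity)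
      _ = 1 := inv_mul_cancel₀ hxn.ne'
  obtain ⟨κ, hκ⟩ : ∃ κ, κ = crs x w := ⟨_, rfl⟩
  have hκ0 : 0 < κ := by
    have e1 : crs x w = ‖x‖⁻¹ * (x 0 ^ 2 + x 1 ^ 2) := by
      rw [hw]
      show x 0 * (‖x‖⁻¹ * x 0) - x 1 * (‖x‖⁻¹ * -x 1) = _
      ring
    rw [hκ, e1]
    refine mul_pos (inv_pos.2 hxn) ?_
    by_contra hcon
    push Not at hcon
    have h1 : x 0 = 0 := by nlinarith [sq_nonneg (x 0), sq_nonneg (x 1)]
    have h2 : x 1 = 0 := by nlinarith [sq_nonneg (x 0), sq_nonneg (x 1)]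
    apply hx0
    funext i
    fin_cases i
    · exact h1
    · exact h2
  obtain ⟨R, hR⟩ : ∃ R, R = min (min (δ / 4) (1 / (4 * b))) (r / (2 * (1 + 2 * b / a))) := ⟨_, rfl⟩
  have hR0 : 0 < R := by rw [hR]; positivity
  have hRδ : 2 * R ≤ δ / 2 := by
    have : R ≤ δ / 4 := by rw [hR]; exact (min_le_left _ _).trans (min_le_left _ _)
    linarith
  have hRb : R ≤ 1 / (4 * b) := by rw [hR]; exact (min_le_left _ _).trans (min_le_right _ _)
  have hRr : R ≤ r / (2 * (1 + 2 * b / a)) := by rw [hR]; exact min_le_right _ _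
  have hdb := line35 hN ha hS hC₁ hx hwn hR0 hRδ hRb
  have hhalf : ∀ t : ℝ, |t| ≤ R → 1 / 2 ≤ μ (x + t • w) := fun t ht => half_le35 hN ha hx hwn hRb ht
  have habs : ∀ t : ℝ, 0 ≤ t → t ≤ R → |t| ≤ R := fun t h0 h1 => by rwa [abs_of_nonneg h0]
  -- the exactly quadratic point
  have hJ : ∀ v : ℝ, 0 ≤ v → v ≤ R → HasDerivAt (fun t : ℝ => μ (x + t • w)) (S (x + v • w) w) v := by
    intro v hv0 hv1
    have hz := hhalf v (habs v hv0 hv1)
    have hzne : x + v • w ≠ 0 := pos_ne35 hN (by linarith)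
    obtain ⟨g1, g2, -⟩ := hS _ hz
    have h1 : HasDerivAt (fun t : ℝ => x + t • w) w v := by
      have := ((hasDerivAt_id v).smul_const w).const_add x
      simpa using this
    have h2 := (hN.diff _ hzne).hasFDerivAt.comp_hasDerivAt v h1
    rw [fderiv_of_touch35 hN hzne _ g1 g2] at h2
    exact h2
  have hgm : MonotoneOn (fun v : ℝ => S (x + v • w) w) (Icc 0 R) := by
    intro s hs t ht hst
    have h1 := hdb.G_mono (s := s) (t := t) (habs s hs.1 hs.2) (habs t ht.1 ht.2) hst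
    unfold Gl35 at h1
    show S (x + s • w) w ≤ S (x + t • w) w
    linarith
  have hgab : S (x + (0 : ℝ) • w) w < S (x + R • w) w := by
    have h1 := hdb.le_mul (t := R) (by rw [abs_of_pos hR0])
    have h2 : 0 < Fl35 μ S x w R := by
      obtain ⟨g1, g2, -⟩ := hS x (by rw [hx]; norm_num)
      have h3 := hN.strict x (x + R • w) (not_ray35 hx0 (by rw [crs_line35, ← hκ]; positivity))
      have h4 := g1 (x + (x + R • w))
      rw [map_add, g2] at h4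
      unfold Fl35
      linarith
    have h3 : 0 < Gl35 S x w R := by
      by_contra hcon
      push Not at hcon
      have := mul_nonpos_of_nonneg_of_nonpos hR0.le hcon
      linarith
    unfold Gl35 at h3
    rw [zero_smul, add_zero]
    linarith
  have hE : ∀ v u : ℝ, |v| ≤ R → μ (x + v • w + u • w) - S (x + v • w) (x + v • w + u • w) =
      μ (x + (v + u) • w) - μ (x + v • w) - S (x + v • w) w * u := by
    intro v u hv
    obtain ⟨-, g2, -⟩ := hS _ (hhalf v hv)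
    rw [map_add (S (x + v • w)), g2, map_smul, smul_eq_mul, add_smul, add_assoc]
    ring
  obtain ⟨v, hv0, hv1, k, K₂, r', hk, hK₂, hr', hquad⟩ := Pool.Agent.W_7d29a1_X20.quad_point_J (u₀ := R)
    (C := C₁ ^ 2) hR0 hJ hgm hgab (by positivity) hR0 (fun v u hv0 hv1 hu h1 h2 => by
      have hv : |v| ≤ R := habs v hv0 hv1
      have g := hS.dbl (by linarith) (hhalf v hv) (w := w) (s := u) (by
        rw [norm_smul, Real.norm_eq_abs]
        have h3 : |2 * u| ≤ 2 * R := by rw [abs_mul, abs_two]; linarith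
        calc |2 * u| * ‖w‖ ≤ 2 * R * 1 := mul_le_mul h3 hwn (norm_nonneg _) (by positivity)
          _ ≤ δ / 2 := by linarith)
      rw [hE v (2 * u) hv, hE v u hv] at g
      exact g)
  have hvR : |v| ≤ R := habs v hv0.le hv1.le
  obtain ⟨z, hz⟩ : ∃ z, z = x + v • w := ⟨_, rfl⟩
  obtain ⟨m, hm⟩ : ∃ m, m = μ z := ⟨_, rfl⟩
  have hm2 : 1 / 2 ≤ m := by rw [hm, hz]; exact hhalf v hvR
  have hm0 : 0 < m := by linarith
  have hz0 : z ≠ 0 := pos_ne35 hN (by rw [← hm]; exact hm0)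
  have hzx : ‖z - x‖ ≤ v := by
    rw [hz, add_sub_cancel_left, norm_smul, Real.norm_eq_abs, abs_of_pos hv0]
    nlinarith
  have hm1 : |m - 1| ≤ 2 * b * v := by
    have h1 := lip_of_sub (hN.le_norm35 ha) hN.sub z x
    rw [← hm, hx] at h1
    exact h1.trans (mul_le_mul_of_nonneg_left hzx (by positivity))
  have hmu : m ≤ 3 / 2 := by
    have h1 := (abs_le.1 hm1).2
    have h2 : 2 * b * v ≤ 2 * b * (1 / (4 * b)) := mul_le_mul_of_nonneg_left (hv1.le.trans hRb) (by positivity)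
    have h3 : 2 * b * (1 / (4 * b)) = 1 / 2 := by
      field_simp
      norm_num
    linarith
  obtain ⟨z₁, hz₁⟩ : ∃ z₁, z₁ = m⁻¹ • z := ⟨_, rfl⟩
  have hzm : z = m • z₁ := by rw [hz₁, smul_smul, mul_inv_cancel₀ hm0.ne', one_smul]
  have hz1 : μ z₁ = 1 := by
    rw [hz₁, hN.hom _ _ (inv_pos.2 hm0).le, ← hm, inv_mul_cancel₀ hm0.ne']
  have hz1n := unit_norm35 hN ha hz1
  have hzz : ‖z₁ - x‖ < r := by
    have h1 : ‖z₁ - z‖ ≤ 2 * b * v * (1 / a) := by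
      have e1 : z₁ - z = (1 - m) • z₁ := by rw [sub_smul, one_smul, ← hzm]
      rw [e1, norm_smul, Real.norm_eq_abs, abs_sub_comm]
      exact mul_le_mul hm1 hz1n (norm_nonneg _) (by positivity)
    have h2 : ‖z₁ - x‖ ≤ ‖z₁ - z‖ + ‖z - x‖ := by
      have := norm_add_le (z₁ - z) (z - x)
      rwa [sub_add_sub_cancel] at this
    have h3 : v * (1 + 2 * b / a) ≤ r / 2 := by
      have h4 := mul_le_mul_of_nonneg_right (hv1.le.trans hRr) (show 0 ≤ 1 + 2 * b / a by positivity)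
      have e1 : r / (2 * (1 + 2 * b / a)) * (1 + 2 * b / a) = r / 2 := by field_simp
      linarith
    have e2 : 2 * b * v * (1 / a) + v = v * (1 + 2 * b / a) := by ring
    linarith
  -- the forms at `z` and at `z₁`
  obtain ⟨g1, g2, -⟩ := hS z (by rw [← hm]; exact hm2)
  obtain ⟨f1, f2, -⟩ := hS z₁ (by rw [hz1]; norm_num)
  have hSS : ∀ y, S z₁ y = S z y := by
    intro y
    have h1 := fderiv_of_touch35 hN hz0 (S z) g1 g2 y
    have h2 := fderiv_of_touch35 hN hz0 (S z₁) f1 (by rw [hzm, map_smul, smul_eq_mul, f2, hz1, hN.hom _ _ hm0.le, hz1]) y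
    rw [← h1, ← h2]
  have hcz : crs z w = κ := by
    rw [hz, hκ]
    unfold crs
    simp only [Pi.add_apply, Pi.smul_apply, smul_eq_mul]
    ring
  have hκ1 : κ ≤ 2 * ‖x‖ := by
    rw [hκ]
    refine (le_abs_self _).trans ((abs_crs_le35 x w).trans ?_)
    have : ‖x‖ * ‖w‖ ≤ ‖x‖ * 1 := mul_le_mul_of_nonneg_left hwn (norm_nonneg _)
    linarith
  obtain ⟨Q, hQ⟩ : ∃ Q, Q = (2 * b / a + 1) * (2 * b) := ⟨_, rfl⟩
  have hQ0 : 0 < Q := by rw [hQ]; positivity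
  obtain ⟨A₀, hA₀⟩ : ∃ A₀, A₀ = 1 / (6 * κ * Q) := ⟨_, rfl⟩
  obtain ⟨A₁, hA₁⟩ : ∃ A₁, A₁ = 12 / (a * κ) := ⟨_, rfl⟩
  have hA₀0 : 0 < A₀ := by rw [hA₀]; positivity
  have hA₁0 : 0 < A₁ := by rw [hA₁]; positivity
  obtain ⟨σ, hσ⟩ : ∃ σ, σ = min (min (κ / 8) (1 / (8 * b))) (min (r' / A₁) ρ) := ⟨_, rfl⟩
  have hσ0 : 0 < σ := by rw [hσ]; positivity
  have hσ1 : σ ≤ κ / 8 := by rw [hσ]; exact (min_le_left _ _).trans (min_le_left _ _)
  have hσ2 : σ ≤ 1 / (8 * b) := by rw [hσ]; exact (min_le_left _ _).trans (min_le_right _ _)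
  have hσ3 : σ ≤ r' / A₁ := by rw [hσ]; exact (min_le_right _ _).trans (min_le_left _ _)
  have hσ4 : σ ≤ ρ := by rw [hσ]; exact (min_le_right _ _).trans (min_le_right _ _)
  have hloc : ∀ y : Fin 2 → ℝ, μ y = 1 → ‖y - z₁‖ ≤ σ →
      1 / 4 * (k * (A₀ * ‖y - z₁‖) ^ 2) ≤ μ y - S z₁ y ∧ μ y - S z₁ y ≤ 3 * (K₂ * (A₁ * ‖y - z₁‖) ^ 2) := by
    intro y hy hyz
    obtain ⟨l, hl⟩ : ∃ l, l = crs y w / κ := ⟨_, rfl⟩
    obtain ⟨s, hs⟩ : ∃ s, s = crs z y / κ := ⟨_, rfl⟩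
    have hy' : y = l • z + s • w := by
      have h1 := cramer35 z w y
      rw [hcz] at h1
      have h2 : y = κ⁻¹ • (κ • y) := by rw [smul_smul, inv_mul_cancel₀ hκ0.ne', one_smul]
      rw [h2, h1, smul_add, smul_smul, smul_smul, hl, hs]
      congr 2 <;> ring
    have hl1 : |l - 1 / m| ≤ 1 / 4 := by
      have e1 : l - 1 / m = crs (y - z₁) w / κ := by
        have e2 : crs z₁ w = κ / m := by
          have h3 : crs z w = m * crs z₁ w := by
            rw [hzm]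
            unfold crs
            simp only [Pi.smul_apply, smul_eq_mul]
            ring
          rw [hcz] at h3
          rw [h3]
          field_simp
        have e3 : crs (y - z₁) w = crs y w - crs z₁ w := by
          unfold crs
          simp only [Pi.sub_apply]
          ring
        rw [e3, e2, hl]
        field_simp
      rw [e1, abs_div, abs_of_pos hκ0, div_le_iff₀ hκ0]
      have h1 := abs_crs_le35 (y - z₁) w
      have h2 : ‖y - z₁‖ * ‖w‖ ≤ κ / 8 * 1 := mul_le_mul (hyz.trans hσ1) hwn (norm_nonneg _) (by positivity)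
      linarith
    have hl2 := abs_le.1 hl1
    have hm3 : 2 / 3 ≤ 1 / m := by
      rw [le_div_iff₀ hm0]
      linarith
    have hm4 : 1 / m ≤ 2 := by
      rw [div_le_iff₀ hm0]
      linarith
    have hl3 : 1 / 4 ≤ l := by linarith
    have hl4 : l ≤ 3 := by linarith
    have hl0 : 0 < l := by linarith
    obtain ⟨u, hu⟩ : ∃ u, u = s / l := ⟨_, rfl⟩
    have hy2 : y = l • (z + u • w) := by
      rw [hy', smul_add, smul_smul, hu]
      congr 2
      field_simp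
    have hczy : crs z y = m * crs z₁ y := by
      rw [hzm]
      unfold crs
      simp only [Pi.smul_apply, smul_eq_mul]
      ring
    have hsabs : |s| = m * |crs z₁ y| / κ := by
      rw [hs, hczy, abs_div, abs_mul, abs_of_pos hm0, abs_of_pos hκ0]
    have huabs : |u| = |s| / l := by rw [hu, abs_div, abs_of_pos hl0]
    have hu1 : |u| ≤ A₁ * ‖y - z₁‖ := by
      have h1 := crs_le35 hN ha hz1 y
      rw [huabs, div_le_iff₀ hl0, hsabs, div_le_iff₀ hκ0]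
      have h2 : m * |crs z₁ y| ≤ 3 / 2 * (2 / a * ‖y - z₁‖) := mul_le_mul hmu h1 (abs_nonneg _) (by norm_num)
      have h3 : A₁ * ‖y - z₁‖ * (1 / 4) * κ ≤ A₁ * ‖y - z₁‖ * l * κ :=
        mul_le_mul_of_nonneg_right (mul_le_mul_of_nonneg_left hl3 (by positivity)) hκ0.le
      have e1 : A₁ * ‖y - z₁‖ * (1 / 4) * κ = 3 / 2 * (2 / a * ‖y - z₁‖) := by
        rw [hA₁]
        field_simp
        ring
      linarith
    have hu2 : A₀ * ‖y - z₁‖ ≤ |u| := by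
      have h1 := crs_ge35 hN ha hz1 hy (hyz.trans hσ2)
      rw [← hQ] at h1
      rw [huabs, le_div_iff₀ hl0, hsabs, le_div_iff₀ hκ0]
      have h2 : A₀ * ‖y - z₁‖ * l * κ ≤ A₀ * (Q * |crs z₁ y|) * 3 * κ := by
        refine mul_le_mul_of_nonneg_right ?_ hκ0.le
        exact mul_le_mul (mul_le_mul_of_nonneg_left h1 hA₀0.le) hl4 hl0.le (by positivity)
      have e1 : A₀ * (Q * |crs z₁ y|) * 3 * κ = 1 / 2 * |crs z₁ y| := by
        rw [hA₀]
        field_simp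
        ring
      have h3 : 1 / 2 * |crs z₁ y| ≤ m * |crs z₁ y| := mul_le_mul_of_nonneg_right hm2 (abs_nonneg _)
      linarith
    have hur : |u| ≤ r' := by
      refine hu1.trans ?_
      have h1 := mul_le_mul_of_nonneg_left (hyz.trans hσ3) hA₁0.le
      have e1 : A₁ * (r' / A₁) = r' := by field_simp
      linarith
    obtain ⟨-, -, q1, q2⟩ := hquad u hur
    have hval : μ y - S z₁ y = l * (μ (x + (v + u) • w) - μ (x + v • w) - S (x + v • w) w * u) := by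
      rw [hSS, ← hE v u hvR, ← hz]
      have e1 : S z y = l * S z (z + u • w) := by
        conv_lhs => rw [hy2]
        rw [map_smul, smul_eq_mul]
      have e2 : μ y = l * μ (z + u • w) := by
        conv_lhs => rw [hy2]
        rw [hN.hom _ _ hl0.le]
      rw [e1, e2]
      ring
    rw [hval]
    have hq0 : 0 ≤ k * u ^ 2 := by positivity
    have s1 : (A₀ * ‖y - z₁‖) ^ 2 ≤ u ^ 2 := by
      rw [← sq_abs u]
      exact pow_le_pow_left₀ (by positivity) hu2 2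
    have s2 : u ^ 2 ≤ (A₁ * ‖y - z₁‖) ^ 2 := by
      rw [← sq_abs u]
      exact pow_le_pow_left₀ (abs_nonneg _) hu1 2
    constructor
    · exact mul_le_mul hl3 ((mul_le_mul_of_nonneg_left s1 hk.le).trans q1) (by positivity) hl0.le
    · refine mul_le_mul hl4 (q2.trans (mul_le_mul_of_nonneg_left s2 hK₂.le)) (by linarith) (by norm_num)
  obtain ⟨ε, hε⟩ : ∃ ε, ε = min (1 / 4 * (k * A₀ ^ 2) / D₁) (c * σ ^ K / (2 / a) ^ 2) := ⟨_, rfl⟩
  have hε0 : 0 < ε := by rw [hε]; positivity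
  obtain ⟨M, hM⟩ : ∃ M, M = 3 * (K₂ * A₁ ^ 2) + 2 / σ ^ 2 := ⟨_, rfl⟩
  have hMa : 0 < 3 * (K₂ * A₁ ^ 2) := by positivity
  have hMb : 0 < 2 / σ ^ 2 := by positivity
  refine ⟨z₁, hz1, hzz, ε, hε0, M, by rw [hM]; positivity, fun y hy => ?_⟩
  rw [Real.rpow_two]
  rcases le_total ‖z₁ - y‖ σ with h2 | h2
  · obtain ⟨d1, d2, -⟩ := hnear z₁ y hz1 hy (by rw [norm_sub_rev]; linarith)
    obtain ⟨l1, l2⟩ := hloc y hy (by rw [norm_sub_rev]; exact h2)
    rw [norm_sub_rev y z₁] at l1 l2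
    constructor
    · refine le_trans ?_ d1
      calc ε * ‖z₁ - y‖ ^ 2 ≤ 1 / 4 * (k * A₀ ^ 2) / D₁ * ‖z₁ - y‖ ^ 2 := by
            refine mul_le_mul_of_nonneg_right ?_ (sq_nonneg _)
            rw [hε]
            exact min_le_left _ _
        _ = 1 / 4 * (k * (A₀ * ‖z₁ - y‖) ^ 2) / D₁ := by ring
        _ ≤ (μ y - S z₁ y) / D₁ := div_le_div_of_nonneg_right l1 (by linarith)
    · refine (d2.trans l2).trans ?_
      calc 3 * (K₂ * (A₁ * ‖z₁ - y‖) ^ 2) = 3 * (K₂ * A₁ ^ 2) * ‖z₁ - y‖ ^ 2 := by ring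
        _ ≤ M * ‖z₁ - y‖ ^ 2 := by
          refine mul_le_mul_of_nonneg_right ?_ (sq_nonneg _)
          rw [hM]
          linarith
  · constructor
    · refine le_trans ?_ (hcurv z₁ y hz1 hy)
      have h3 : σ ^ K ≤ ‖z₁ - y‖ ^ K := Real.rpow_le_rpow hσ0.le h2 hK.le
      have h4 : ‖z₁ - y‖ ^ 2 ≤ (2 / a) ^ 2 := pow_le_pow_left₀ (norm_nonneg _) (dist_le35 hN ha hz1 hy) 2
      calc ε * ‖z₁ - y‖ ^ 2 ≤ c * σ ^ K / (2 / a) ^ 2 * (2 / a) ^ 2 := by
            refine mul_le_mul ?_ h4 (sq_nonneg _) (by positivity)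
            rw [hε]
            exact min_le_right _ _
        _ = c * σ ^ K := by field_simp
        _ ≤ c * ‖z₁ - y‖ ^ K := mul_le_mul_of_nonneg_left h3 hc.le
    · refine (two_le35 hN ha hz1 hy).trans ?_
      have h3 : σ ^ 2 ≤ ‖z₁ - y‖ ^ 2 := pow_le_pow_left₀ hσ0.le h2 2
      calc (2 : ℝ) = 2 / σ ^ 2 * σ ^ 2 := by field_simp
        _ ≤ 2 / σ ^ 2 * ‖z₁ - y‖ ^ 2 := mul_le_mul_of_nonneg_left h3 hMb.le
        _ ≤ M * ‖z₁ - y‖ ^ 2 := by
          refine mul_le_mul_of_nonneg_right ?_ (sq_nonneg _)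
          rw [hM]
          linarith

end Pool.Agent.W_1b8d5d_p
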