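import Pool.Agent.W_1b8d5d_p.WCut
import Pool.Agent.W_1b8d5d_sc.Planar

/-!
MP_1b8d5d_pr, Track P. Crossing: two slab walks whose end points are in opposite orders have a common vertex, and the swap.
-/

namespace Pool.Agent.W_1b8d5d_p

open MeasureTheory Set
open Pool.Agent.W_1b8d5d_h85

/-- A horizontal segment. -/
theorem hline (x y : V) (h2 : x.2 = y.2) (h1 : x.1 ≤ y.1) :
    ∃ w : grid.Walk x y, ∀ z ∈ w.support, z.2 = x.2 ∧ x.1 ≤ z.1 ∧ z.1 ≤ y.1 := by
  obtain ⟨n, hn⟩ : ∃ n : ℕ, y.1 = x.1 + n := ⟨(y.1 - x.1).toNat, by omega⟩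
  induction n generalizing y with
  | zero =>
    have e : x = y := Prod.ext (by simpa using hn.symm) h2
    subst e
    refine ⟨.nil, fun z hz => ?_⟩
    rw [SimpleGraph.Walk.support_nil, List.mem_singleton] at hz
    subst hz
    exact ⟨rfl, le_rfl, le_rfl⟩
  | succ n ih =>
    obtain ⟨w, hw⟩ := ih (x.1 + n, y.2) h2 (by simp) rfl
    have ha : grid.Adj (x.1 + (n : ℤ), y.2) y := by
      refine ⟨false, Or.inl ?_⟩
      ext
      · simp [dir, hn, add_assoc]
      · simp [dir]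
    refine ⟨w.concat ha, fun z hz => ?_⟩
    rw [SimpleGraph.Walk.support_concat, List.mem_append, List.mem_singleton] at hz
    rcases hz with hz | rfl
    · have h := hw z hz
      refine ⟨h.1, h.2.1, h.2.2.trans ?_⟩
      rw [hn]
      push_cast
      simp
    · exact ⟨h2.symm, h1, le_rfl⟩

/-- A vertical segment. -/
theorem vline (x y : V) (h1 : x.1 = y.1) (h2 : x.2 ≤ y.2) :
    ∃ w : grid.Walk x y, ∀ z ∈ w.support, z.1 = x.1 ∧ x.2 ≤ z.2 ∧ z.2 ≤ y.2 := by
  obtain ⟨n, hn⟩ : ∃ n : ℕ, y.2 = x.2 + n := ⟨(y.2 - x.2).toNat, by omega⟩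
  induction n generalizing y with
  | zero =>
    have e : x = y := Prod.ext h1 (by simpa using hn.symm)
    subst e
    refine ⟨.nil, fun z hz => ?_⟩
    rw [SimpleGraph.Walk.support_nil, List.mem_singleton] at hz
    subst hz
    exact ⟨rfl, le_rfl, le_rfl⟩
  | succ n ih =>
    obtain ⟨w, hw⟩ := ih (y.1, x.2 + n) h1 (by simp) rfl
    have ha : grid.Adj (y.1, x.2 + (n : ℤ)) y := by
      refine ⟨true, Or.inl ?_⟩
      ext
      · simp [dir]
      · simp [dir, hn, add_assoc]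
    refine ⟨w.concat ha, fun z hz => ?_⟩
    rw [SimpleGraph.Walk.support_concat, List.mem_append, List.mem_singleton] at hz
    rcases hz with hz | rfl
    · have h := hw z hz
      refine ⟨h.1, h.2.1, h.2.2.trans ?_⟩
      rw [hn]
      push_cast
      simp
    · exact ⟨h1.symm, h2, le_rfl⟩

/-- The vertices of a walk are bounded. -/
theorem walk_bd {x y : V} (w : grid.Walk x y) : ∃ N : ℤ, ∀ z ∈ w.support, |z.1| < N ∧ |z.2| < N := by
  induction w with
  | @nil x =>
    refine ⟨|x.1| + |x.2| + 1, fun z hz => ?_⟩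
    rw [SimpleGraph.Walk.support_nil, List.mem_singleton] at hz
    subst hz
    have h1 := abs_nonneg z.1
    have h2 := abs_nonneg z.2
    constructor <;> linarith
  | @cons x v y h w ih =>
    obtain ⟨N, hN⟩ := ih
    refine ⟨max N (|x.1| + |x.2| + 1), fun z hz => ?_⟩
    rw [SimpleGraph.Walk.support_cons, List.mem_cons] at hz
    have h1 := abs_nonneg x.1
    have h2 := abs_nonneg x.2
    rcases hz with rfl | hz
    · exact ⟨lt_of_lt_of_le (by linarith) (le_max_right _ _), lt_of_lt_of_le (by linarith) (le_max_right _ _)⟩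
    · exact ⟨lt_of_lt_of_le (hN z hz).1 (le_max_left _ _), lt_of_lt_of_le (hN z hz).2 (le_max_left _ _)⟩

/-- **Crossing, general form.** The start of `P` is below the start of `Q`, the end of `P` is above the end of `Q`; the rays to
the left of the starting points and the rays to the right of the end points do not meet the other walk. -/
theorem cross_rays {x y x' y' : V} (P : grid.Walk x y) (Q : grid.Walk x' y') (h1 : x.2 < x'.2) (h2 : y'.2 < y.2)
    (a1 : ∀ z ∈ Q.support, z.2 = x.2 → x.1 ≤ z.1) (a2 : ∀ z ∈ Q.support, z.2 = y.2 → z.1 ≤ y.1)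
    (a3 : ∀ z ∈ P.support, z.2 = x'.2 → x'.1 ≤ z.1) (a4 : ∀ z ∈ P.support, z.2 = y'.2 → z.1 ≤ y'.1)
    (a5 : x.2 = y'.2 → x.1 ≤ y'.1) (a6 : y.2 = x'.2 → x'.1 ≤ y.1) : ∃ z, z ∈ P.support ∧ z ∈ Q.support := by
  obtain ⟨N₁, hN₁⟩ := walk_bd P
  obtain ⟨N₂, hN₂⟩ := walk_bd Q
  obtain ⟨N, hN⟩ : ∃ N, N = max N₁ N₂ := ⟨_, rfl⟩
  have bP : ∀ z ∈ P.support, (-N < z.1 ∧ z.1 < N) ∧ (-N < z.2 ∧ z.2 < N) := fun z hz => by
    have h := hN₁ z hz
    have e : N₁ ≤ N := hN ▸ le_max_left _ _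
    exact ⟨abs_lt.1 (lt_of_lt_of_le h.1 e), abs_lt.1 (lt_of_lt_of_le h.2 e)⟩
  have bQ : ∀ z ∈ Q.support, (-N < z.1 ∧ z.1 < N) ∧ (-N < z.2 ∧ z.2 < N) := fun z hz => by
    have h := hN₂ z hz
    have e : N₂ ≤ N := hN ▸ le_max_right _ _
    exact ⟨abs_lt.1 (lt_of_lt_of_le h.1 e), abs_lt.1 (lt_of_lt_of_le h.2 e)⟩
  have bx := bP x P.start_mem_support
  have by' := bP y P.end_mem_support
  have bx' := bQ x' Q.start_mem_support
  have by'' := bQ y' Q.end_mem_support
  obtain ⟨L1, hL1⟩ := hline (-N - 1, x.2) x rfl (by simp only; omega)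
  obtain ⟨R1, hR1⟩ := hline y (N + 1, y.2) rfl (by simp only; omega)
  obtain ⟨L2, hL2⟩ := hline (-N, x'.2) x' rfl (by simp only; omega)
  obtain ⟨R2, hR2⟩ := hline y' (N, y'.2) rfl (by simp only; omega)
  obtain ⟨V1, hV1⟩ := vline (N, -N - 1) (N, y'.2) rfl (by simp only; omega)
  obtain ⟨V2, hV2⟩ := vline (-N, x'.2) (-N, N + 1) rfl (by simp only; omega)
  simp only at hL1 hR1 hL2 hR2 hV1 hV2
  have hP' : ∀ z ∈ (L1.append (P.append R1)).support, z ∈ L1.support ∨ z ∈ P.support ∨ z ∈ R1.support := fun z hz => by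
    rw [SimpleGraph.Walk.mem_support_append_iff, SimpleGraph.Walk.mem_support_append_iff] at hz
    exact hz
  have hQ' : ∀ z ∈ (V1.append (R2.reverse.append (Q.reverse.append (L2.reverse.append V2)))).support,
      z ∈ V1.support ∨ z ∈ R2.support ∨ z ∈ Q.support ∨ z ∈ L2.support ∨ z ∈ V2.support := fun z hz => by
    rw [SimpleGraph.Walk.mem_support_append_iff, SimpleGraph.Walk.mem_support_append_iff,
      SimpleGraph.Walk.mem_support_append_iff, SimpleGraph.Walk.mem_support_append_iff] at hz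
    simpa using hz
  obtain ⟨z, hz, hz'⟩ := Pool.Agent.W_1b8d5d_sc.meet_col (L1.append (P.append R1))
    (V1.append (R2.reverse.append (Q.reverse.append (L2.reverse.append V2))))
    (AddMonoidHom.mk' (fun z : V => (z.2 : ℝ)) fun a b => by simp) (-N) N (by simp)
    (fun z hz => by
      simp only [AddMonoidHom.mk'_apply]
      have hb : -N ≤ z.2 ∧ z.2 ≤ N := by
        rcases hP' z hz with h | h | h
        · have := hL1 z h
          omega
        · have := bP z h
          omega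
        · have := hR1 z h
          omega
      exact ⟨by exact_mod_cast hb.1, by exact_mod_cast hb.2⟩)
    (by
      simp only [AddMonoidHom.mk'_apply]
      push_cast
      linarith)
    (by
      simp only [AddMonoidHom.mk'_apply]
      push_cast
      linarith)
    (fun z hz => by
      simp only
      rcases hQ' z hz with h | h | h | h | h
      · have := hV1 z h
        omega
      · have := hR2 z h
        omega
      · have := bQ z h
        omega
      · have := hL2 z h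
        omega
      · have := hV2 z h
        omega)
  rcases hP' z hz with h | h | h <;> rcases hQ' z hz' with h' | h' | h' | h' | h'
  · have e1 := hL1 z h
    have e2 := hV1 z h'
    omega
  · have e1 := hL1 z h
    have e2 := hR2 z h'
    have e3 := a5 (by omega)
    have e4 : z = x := Prod.ext (by omega) (by omega)
    have e5 : z = y' := Prod.ext (by omega) (by omega)
    exact ⟨z, e4 ▸ P.start_mem_support, e5 ▸ Q.end_mem_support⟩
  · have e1 := hL1 z h
    have e3 := a1 z h' e1.1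
    have e4 : z = x := Prod.ext (by omega) (by omega)
    exact ⟨z, e4 ▸ P.start_mem_support, h'⟩
  · have e1 := hL1 z h
    have e2 := hL2 z h'
    omega
  · have e1 := hL1 z h
    have e2 := hV2 z h'
    omega
  · have e1 := bP z h
    have e2 := hV1 z h'
    omega
  · have e2 := hR2 z h'
    have e3 := a4 z h e2.1
    have e4 : z = y' := Prod.ext (by omega) (by omega)
    exact ⟨z, h, e4 ▸ Q.end_mem_support⟩
  · exact ⟨z, h, h'⟩
  · have e2 := hL2 z h'
    have e3 := a3 z h e2.1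
    have e4 : z = x' := Prod.ext (by omega) (by omega)
    exact ⟨z, h, e4 ▸ Q.start_mem_support⟩
  · have e1 := bP z h
    have e2 := hV2 z h'
    omega
  · have e1 := hR1 z h
    have e2 := hV1 z h'
    omega
  · have e1 := hR1 z h
    have e2 := hR2 z h'
    omega
  · have e1 := hR1 z h
    have e3 := a2 z h' e1.1
    have e4 : z = y := Prod.ext (by omega) (by omega)
    exact ⟨z, e4 ▸ P.end_mem_support, h'⟩
  · have e1 := hR1 z h
    have e2 := hL2 z h'
    have e3 := a6 (by omega)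
    have e4 : z = y := Prod.ext (by omega) (by omega)
    have e5 : z = x' := Prod.ext (by omega) (by omega)
    exact ⟨z, e4 ▸ P.end_mem_support, e5 ▸ Q.start_mem_support⟩
  · have e1 := hR1 z h
    have e2 := hV2 z h'
    omega

/-- **Crossing in a slab of times** (any two times `A ≤ B`). -/
theorem cross_meet (c : Co) {A B : ℤ} {x y x' y' : V} (P : grid.Walk x y) (Q : grid.Walk x' y')
    (hP : ∀ z ∈ P.support, A ≤ c.tm z ∧ c.tm z ≤ B) (hQ : ∀ z ∈ Q.support, A ≤ c.tm z ∧ c.tm z ≤ B)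
    (hx : c.tm x = A) (hx' : c.tm x' = A) (hy : c.tm y = B) (hy' : c.tm y' = B) (h1 : c.ps x ≤ c.ps x')
    (h2 : c.ps y' ≤ c.ps y) : ∃ z, z ∈ P.support ∧ z ∈ Q.support := by
  have hp := c.hp
  -- equal positions
  rcases eq_or_lt_of_le h1 with h1 | h1
  · have e : x = x' := Prod.ext (by rw [c.fst_eq x, c.fst_eq x', hx, hx', h1]) (by rw [c.snd_eq x, c.snd_eq x', hx, hx', h1])
    exact ⟨x, P.start_mem_support, e ▸ Q.start_mem_support⟩
  rcases eq_or_lt_of_le h2 with h2 | h2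
  · have e : y' = y := Prod.ext (by rw [c.fst_eq y, c.fst_eq y', hy, hy', h2]) (by rw [c.snd_eq y, c.snd_eq y', hy, hy', h2])
    exact ⟨y, P.end_mem_support, e ▸ Q.end_mem_support⟩
  have e1 : x.2 < x'.2 := by
    rw [c.snd_eq x, c.snd_eq x', hx, hx']
    have := mul_lt_mul_of_pos_right h1 (by linarith : (0 : ℤ) < c.p)
    linarith
  have e2 : y'.2 < y.2 := by
    rw [c.snd_eq y, c.snd_eq y', hy, hy']
    have := mul_lt_mul_of_pos_right h2 (by linarith : (0 : ℤ) < c.p)
    linarith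
  -- the rows
  have key : ∀ u v : V, u.2 = v.2 → c.tm u ≤ c.tm v → u.1 ≤ v.1 := by
    intro u v huv h
    unfold Co.tm at h
    rw [huv] at h
    by_contra hcon
    push Not at hcon
    have := mul_lt_mul_of_pos_left hcon (by linarith : (0 : ℤ) < c.p)
    linarith
  have hAB : A ≤ B := by
    have := hP x P.start_mem_support
    linarith [this.1, this.2]
  exact cross_rays P Q e1 e2 (fun z hz h => key _ _ h.symm (by rw [hx]; exact (hQ z hz).1))
    (fun z hz h => key _ _ h (by rw [hy]; exact (hQ z hz).2)) (fun z hz h => key _ _ h.symm (by rw [hx']; exact (hP z hz).1))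
    (fun z hz h => key _ _ h (by rw [hy']; exact (hP z hz).2)) (fun h => key _ _ h (by rw [hx, hy']; exact hAB))
    (fun h => key _ _ h.symm (by rw [hx', hy]; exact hAB))

/-- **The swap.** -/
theorem TR_swap {a b : ℝ} {τ : Env} (hτ : Bd a b τ) (ha : 0 ≤ a) {S : Set Edge} {x y x' y' z : V} (P : grid.Walk x y)
    (Q : grid.Walk x' y') (hP : ∀ e ∈ wedges P, e ∈ S) (hQ : ∀ e ∈ wedges Q, e ∈ S) (hz : z ∈ P.support)
    (hz' : z ∈ Q.support) : TR S τ x y' + TR S τ x' y ≤ cost τ P + cost τ Q := by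
  classical
  obtain ⟨P₁, P₂, hP₁⟩ : ∃ (P₁ : grid.Walk x z) (P₂ : grid.Walk z y), P = P₁.append P₂ :=
    ⟨P.takeUntil z hz, P.dropUntil z hz, (P.take_spec hz).symm⟩
  obtain ⟨Q₁, Q₂, hQ₁⟩ : ∃ (Q₁ : grid.Walk x' z) (Q₂ : grid.Walk z y'), Q = Q₁.append Q₂ :=
    ⟨Q.takeUntil z hz', Q.dropUntil z hz', (Q.take_spec hz').symm⟩
  subst hP₁ hQ₁
  have e1 := TR_le hτ ha (P₁.append Q₂) (S := S) fun e he => by
    rw [wedges_append, List.mem_append] at he
    rcases he with he | he
    · exact hP e (wedges_left _ _ he)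
    · exact hQ e (wedges_right _ _ he)
  have e2 := TR_le hτ ha (Q₁.append P₂) (S := S) fun e he => by
    rw [wedges_append, List.mem_append] at he
    rcases he with he | he
    · exact hQ e (wedges_left _ _ he)
    · exact hP e (wedges_right _ _ he)
  rw [cost_append] at e1 e2 ⊢
  rw [cost_append]
  linarith

/-- **(C), crossing inequality for walks of two sets of edges of a slab of times.** -/
theorem TR_cross (c : Co) {a b : ℝ} {τ : Env} (hτ : Bd a b τ) (ha : 0 < a) {S₁ S₂ S : Set Edge} {A B : ℤ} {x y x' y' : V}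
    (h₁ : S₁ ⊆ S) (h₂ : S₂ ⊆ S) (hS : S ⊆ c.sl A B) (hx : c.tm x = A) (hx' : c.tm x' = A) (hy : c.tm y = B) (hy' : c.tm y' = B)
    (h1 : c.ps x ≤ c.ps x') (h2 : c.ps y' ≤ c.ps y) (hAB : A ≤ B) (n1 : Nonempty (WK S₁ x y)) (n2 : Nonempty (WK S₂ x' y')) :
    TR S τ x y' + TR S τ x' y ≤ TR S₁ τ x y + TR S₂ τ x' y' := by
  obtain ⟨P, -, hP, cP⟩ := TR_min hτ ha n1
  obtain ⟨Q, -, hQ, cQ⟩ := TR_min hτ ha n2
  obtain ⟨z, hz, hz'⟩ := cross_meet c P Q (c.tm_mem_sl P (fun e he => hS (h₁ (hP e he))) ⟨hx.ge, hx.trans_le hAB⟩)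
    (c.tm_mem_sl Q (fun e he => hS (h₂ (hQ e he))) ⟨hx'.ge, hx'.trans_le hAB⟩) hx hx' hy hy' h1 h2
  rw [← cP, ← cQ]
  exact TR_swap hτ ha.le P Q (fun e he => h₁ (hP e he)) (fun e he => h₂ (hQ e he)) hz hz'

/-- **(C), between grid points**: starts at the positions `x ≤ x + k`, ends at the displacements `y' ≤ y`. -/
theorem TT_cross {c : Co} {α β : ℝ} {τ : Env} (hτ : Bd α β τ) (hα : 0 < α) (a : Pt) {n : ℕ} (hn : 1 ≤ n) {k y y' : ℤ}
    (hk : 0 ≤ k) (hy : y' ≤ y) :
    TT c τ a n y' + TT c τ (a + (0, k)) n (y - k) ≤ TT c τ a n y + TT c τ (a + (0, k)) n (y' - k) := by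
  have hL := c.L_pos
  have h1 : c.L * a.1 ≤ c.L * (a.1 + n) := mul_le_mul_of_nonneg_left (by omega) (by omega)
  have e1 : ∀ z : ℤ, a + (0, k) + ((n : ℤ), z - k) = a + ((n : ℤ), z) := fun z => by ext <;> simp
  have e2 : ∀ z : ℤ, TT c τ (a + (0, k)) n (z - k) =
      TR (c.slab a.1 (a.1 + n)) τ (c.vt (a + (0, k))) (c.vt (a + ((n : ℤ), z))) := fun z => by
    unfold TT
    rw [e1]
    simp only [Prod.fst_add, add_zero]
  have e3 : ∀ z : ℤ, TT c τ a n z = TR (c.slab a.1 (a.1 + n)) τ (c.vt a) (c.vt (a + ((n : ℤ), z))) := fun z => rfl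
  have hn1 := Co.ne_vt (c := c) a hn y
  have hn2 : Nonempty (WK (c.slab a.1 (a.1 + n)) (c.vt (a + (0, k))) (c.vt (a + ((n : ℤ), y')))) := by
    have := Co.ne_vt (c := c) (a + (0, k)) hn (y' - k)
    rw [e1] at this
    simpa only [Prod.fst_add, add_zero] using this
  rw [e2, e2, e3, e3]
  refine TR_cross c hτ hα (A := c.L * a.1) (B := c.L * (a.1 + n)) le_rfl le_rfl (le_of_eq (c.slab_eq _ _)) ?_ ?_ ?_ ?_ ?_ ?_
    h1 hn1 hn2
  · rw [Co.tm_vt]
  · rw [Co.tm_vt]
    simp
  · rw [Co.tm_vt]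
    simp
  · rw [Co.tm_vt]
    simp
  · rw [Co.ps_vt, Co.ps_vt]
    simp only [Prod.snd_add]
    linarith
  · rw [Co.ps_vt, Co.ps_vt]
    simp only [Prod.snd_add]
    linarith

/-- **(C)** for the costs. -/
theorem X_cross (F : Fm) (d : Dr) (η : Env) (a : Pt) {n : ℕ} (hn : 1 ≤ n) {k y y' : ℤ} (hk : 0 ≤ k) (hy : y' ≤ y) :
    X F d η a n y' + X F d η (a + (0, k)) n (y - k) ≤ X F d η a n y + X F d η (a + (0, k)) n (y' - k) := by
  have h := TT_cross (c := F.co) (F.bd η) F.a0 a hn hk hy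
  unfold X
  push_cast
  linarith

end Pool.Agent.W_1b8d5d_p
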