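import Pool.Agent.W_1b8d5d_p.FrLaw

/-!
MP_1b8d5d_pr, Track P. The cost `X` and the lucks `VV`, `Vr`: (A) - (D), dependence, measurability, covariance; the luck is
attained, superadditive.
-/

namespace Pool.Agent.W_1b8d5d_p

open MeasureTheory ProbabilityTheory Set
open Pool.Agent.W_1b8d5d_h85

variable {F : Fm} {κ : ℝ} {d : Dr}

theorem bd_tau (F : Fm) (η : Env) : Bd F.a F.b (F.tau η) := fun _ => ⟨F.g1 _, F.g2 _⟩

theorem b_pos (F : Fm) : 0 < F.b := F.a0.trans_le F.ab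

theorem tau_sh (F : Fm) (z : V) (η : Env) : F.tau (sh z η) = sh z (F.tau η) := rfl

theorem tau_rf (F : Fm) (η : Env) : F.tau (rf η) = rf (F.tau η) := rfl

theorem tau_meas (F : Fm) : Measurable F.tau :=
  measurable_pi_iff.2 fun e => F.mg.comp (measurable_pi_apply e)

theorem dep_tau {α : Type*} {G : Env → α} {S : Set Edge} (h : DependsOn G S) : DependsOn (fun η => G (F.tau η)) S :=
  fun η η' hh => h fun e he => by
    show F.g (η e) = F.g (η' e)
    rw [hh e he]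

/-! ### Bounds for the form -/

theorem Adm.abs_be (h : Adm F κ d) : |be F.co d| ≤ F.b * F.co.M := by
  have h1 : (1 : ℝ) ≤ F.co.M := by exact_mod_cast F.co.M_pos
  refine h.loop.trans (mul_le_mul_of_nonneg_right ?_ (by linarith))
  linarith [h.κ0, F.ab]

theorem Adm.κ_lt (h : Adm F κ d) : κ ≤ F.a := by
  have h1 : (1 : ℝ) ≤ F.co.M := by exact_mod_cast F.co.M_pos
  have h2 := (abs_nonneg _).trans h.loop
  by_contra h3
  push Not at h3
  have : (F.a - κ) * (F.co.M : ℝ) < 0 := mul_neg_of_neg_of_pos (by linarith) (by linarith)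
  linarith

theorem Adm.H_le (h : Adm F κ d) (z : V) : |d.H z| ≤ F.b * nm z := by
  unfold Dr.H nm
  refine (abs_add_le _ _).trans ?_
  rw [abs_mul, abs_mul, abs_of_nonneg h.h1n, abs_of_nonneg h.h2n, mul_add]
  exact add_le_add (mul_le_mul_of_nonneg_right h.h1b (abs_nonneg _)) (mul_le_mul_of_nonneg_right h.h2b (abs_nonneg _))

theorem nm_vt_n (c : Co) (n : ℕ) : nm (c.vt ((n : ℤ), 0)) = c.L * c.R * n := by
  have h : (0 : ℝ) ≤ c.L := by have := c.L_pos; exact_mod_cast (by omega : (0 : ℤ) ≤ c.L)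
  unfold nm Co.vt Co.R
  push_cast
  rw [zero_mul, zero_mul, sub_zero, add_zero, abs_mul _ (c.r : ℝ), abs_mul _ (c.s : ℝ),
    abs_of_nonneg (mul_nonneg h (Nat.cast_nonneg n))]
  ring

theorem Adm.abs_al (h : Adm F κ d) : |al F.co d| ≤ F.b * (F.co.L * F.co.R) := by
  have h1 : al F.co d = d.H (F.co.vt (((1 : ℕ) : ℤ), 0)) := by rw [Co.H_vt]; simp
  have h2 := h.H_le (F.co.vt (((1 : ℕ) : ℤ), 0))
  rw [nm_vt_n] at h2
  rw [h1]
  simpa using h2

theorem nm_vt_le (c : Co) (n : ℕ) (y : ℤ) : nm (c.vt ((n : ℤ), y)) ≤ c.L * c.R * n + c.M * |(y : ℝ)| := by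
  have h1 : c.vt ((n : ℤ), y) = c.vt ((n : ℤ), 0) + c.vt (0, y) := by
    rw [← Co.vt_add]
    congr 1
    ext <;> simp
  rw [h1]
  refine (nm_add_le _ _).trans ?_
  rw [nm_vt_n, c.nm_lat]

theorem le_nm_vt (c : Co) (n : ℕ) (y : ℤ) : c.M * |(y : ℝ)| - c.L * c.R * n ≤ nm (c.vt ((n : ℤ), y)) := by
  have h1 : c.vt (0, y) = c.vt ((n : ℤ), y) + -c.vt ((n : ℤ), 0) := by
    rw [← Co.vt_neg, ← Co.vt_add]
    congr 1
    ext <;> simp
  have h2 := nm_add_le (c.vt ((n : ℤ), y)) (-c.vt ((n : ℤ), 0))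
  rw [← h1, nm_neg, nm_vt_n, c.nm_lat] at h2
  linarith

/-- The constant of the linear bounds. -/
noncomputable def C1 (F : Fm) : ℝ := 2 * F.b * (F.co.L * F.co.R)

theorem C1_pos (F : Fm) : 0 < C1 F := by
  have h1 : (2 : ℝ) ≤ F.co.L := by exact_mod_cast F.co.L_pos
  have h2 : (1 : ℝ) ≤ F.co.R := by exact_mod_cast F.co.R_pos
  have := b_pos F
  unfold C1
  positivity

/-! ### The cost -/

theorem X_eq (F : Fm) (d : Dr) (η : Env) (a : Pt) (n : ℕ) (y : ℤ) :
    X F d η a n y = TT F.co (F.tau η) a n y - d.H (F.co.vt ((n : ℤ), y)) := by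
  rw [Co.H_vt]
  unfold X
  simp

theorem X_zero (F : Fm) (d : Dr) (η : Env) (a : Pt) : X F d η a 0 0 = 0 := by
  unfold X
  rw [TT_zero (bd_tau F η) F.a0.le]
  simp

/-- **(A)** -/
theorem X_tri (F : Fm) (d : Dr) (η : Env) (a : Pt) {m n : ℕ} (hm : 1 ≤ m) (hn : 1 ≤ n) (y z : ℤ) :
    X F d η a (m + n) (y + z) ≤ X F d η a m y + X F d η (a + ((m : ℤ), y)) n z := by
  have h := TT_tri (c := F.co) (bd_tau F η) F.a0.le a hm hn y z
  unfold X
  push_cast
  linarith

theorem X_tri' (F : Fm) (d : Dr) (η : Env) (a : Pt) (m n : ℕ) (y z : ℤ) (hm : m = 0 → y = 0) (hn : n = 0 → z = 0) :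
    X F d η a (m + n) (y + z) ≤ X F d η a m y + X F d η (a + ((m : ℤ), y)) n z := by
  have h := TT_tri' (c := F.co) (bd_tau F η) F.a0.le a m n y z hm hn
  unfold X
  push_cast
  linarith

/-- **(B)** -/
theorem X_cut (hd : Adm F κ d) (η : Env) (a : Pt) {m n : ℕ} (hm : 1 ≤ m) (hn : 1 ≤ n) (y : ℤ) :
    ∃ k k' : ℤ, X F d η a m k + κ * (F.co.M * |(k : ℝ) - k'|) + X F d η (a + ((m : ℤ), k')) n (y - k') ≤
      X F d η a (m + n) y + C0 F.co F.b := by
  obtain ⟨k, k', h⟩ := TT_cut (c := F.co) (bd_tau F η) F.a0 F.ab a hm hn y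
  refine ⟨k, k', ?_⟩
  have h1 : be F.co d * ((k' : ℝ) - k) ≤ |be F.co d| * |(k : ℝ) - k'| := by
    rw [abs_sub_comm, ← abs_mul]
    exact le_abs_self _
  have h2 := mul_le_mul_of_nonneg_right hd.loop (abs_nonneg ((k : ℝ) - k'))
  unfold X
  push_cast
  nlinarith

/-- **(D)** Lower bound. -/
theorem X_lower (hd : Adm F κ d) (η : Env) (a : Pt) {n : ℕ} (hn : 1 ≤ n) (y : ℤ) :
    κ * (F.co.M * |(y : ℝ)|) - C1 F * n ≤ X F d η a n y := by
  have h1 := TT_lower (c := F.co) (bd_tau F η) F.a0.le a hn y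
  have h2 := mul_le_mul_of_nonneg_left (le_nm_vt F.co n y) F.a0.le
  have h3 : be F.co d * y ≤ |be F.co d| * |(y : ℝ)| := by rw [← abs_mul]; exact le_abs_self _
  have h4 := mul_le_mul_of_nonneg_right hd.loop (abs_nonneg (y : ℝ))
  have h5 := mul_le_mul_of_nonneg_right ((le_abs_self _).trans hd.abs_al) (Nat.cast_nonneg (α := ℝ) n)
  have hL : (2 : ℝ) ≤ F.co.L := by exact_mod_cast F.co.L_pos
  have hR : (1 : ℝ) ≤ F.co.R := by exact_mod_cast F.co.R_pos
  have h6 : F.a * (F.co.L * F.co.R * n) ≤ F.b * (F.co.L * F.co.R * n) :=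
    mul_le_mul_of_nonneg_right F.ab (by positivity)
  unfold X C1
  nlinarith

theorem X_upper (hd : Adm F κ d) (η : Env) (a : Pt) {n : ℕ} (hn : 1 ≤ n) (y : ℤ) :
    X F d η a n y ≤ C1 F * n + 2 * F.b * (F.co.M * |(y : ℝ)|) + 4 * F.b := by
  have h1 := TT_upper (c := F.co) (bd_tau F η) F.a0.le (b_pos F).le a hn y
  have h2 := mul_le_mul_of_nonneg_left (nm_vt_le F.co n y) (b_pos F).le
  have h3 : -(be F.co d * y) ≤ |be F.co d| * |(y : ℝ)| := by rw [← abs_mul]; exact neg_le_abs _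
  have h4 := mul_le_mul_of_nonneg_right hd.abs_be (abs_nonneg (y : ℝ))
  have h5 := mul_le_mul_of_nonneg_right ((neg_le_abs _).trans hd.abs_al) (Nat.cast_nonneg (α := ℝ) n)
  unfold X C1
  nlinarith

/-- **(D)** Two end points. -/
theorem X_end (hd : Adm F κ d) (η : Env) (a : Pt) {n : ℕ} (hn : 1 ≤ n) (y y' : ℤ) :
    X F d η a n y ≤ X F d η a n y' + 2 * F.b * (F.co.M * |(y : ℝ) - y'|) + 4 * F.b := by
  have h1 := TT_end (c := F.co) (bd_tau F η) F.a0.le (b_pos F).le a hn y y'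
  have h3 : -(be F.co d * ((y : ℝ) - y')) ≤ |be F.co d| * |(y : ℝ) - y'| := by rw [← abs_mul]; exact neg_le_abs _
  have h4 := mul_le_mul_of_nonneg_right hd.abs_be (abs_nonneg ((y : ℝ) - y'))
  unfold X
  nlinarith

/-- **(D)** Two starting points. -/
theorem X_start (hd : Adm F κ d) (η : Env) (a : Pt) {n : ℕ} (hn : 1 ≤ n) (y k : ℤ) :
    X F d η a n y ≤ X F d η (a + (0, k)) n (y - k) + 2 * F.b * (F.co.M * |(k : ℝ)|) + 4 * F.b := by
  have h1 := TT_start (c := F.co) (bd_tau F η) F.a0.le (b_pos F).le a hn y k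
  have h3 : -(be F.co d * (k : ℝ)) ≤ |be F.co d| * |(k : ℝ)| := by rw [← abs_mul]; exact neg_le_abs _
  have h4 := mul_le_mul_of_nonneg_right hd.abs_be (abs_nonneg (k : ℝ))
  unfold X
  push_cast
  nlinarith

theorem X_meas (F : Fm) (d : Dr) (a : Pt) (n : ℕ) (y : ℤ) : Measurable fun η => X F d η a n y :=
  ((TT_meas F.co a n y).comp (tau_meas F)).sub_const _

theorem X_dep (F : Fm) (d : Dr) (a : Pt) (n : ℕ) (y : ℤ) :
    DependsOn (fun η => X F d η a n y) (F.co.slab a.1 (a.1 + n)) := by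
  intro η η' h
  have := dep_tau (F := F) (TT_dep F.co a n y) h
  unfold X
  simp only at this ⊢
  rw [this]

theorem X_shp (F : Fm) (d : Dr) (b : Pt) (η : Env) (a : Pt) (n : ℕ) (y : ℤ) :
    X F d (F.shp b η) a n y = X F d η (a + b) n y := by
  unfold X Fm.shp
  rw [tau_sh, TT_sh]

theorem X_rf (F : Fm) (d : Dr) (η : Env) (a : Pt) (n : ℕ) (y : ℤ) :
    X F d (rf η) a n y = X F d η (-a - ((n : ℤ), y)) n y := by
  unfold X
  rw [tau_rf, TT_rf]

theorem X_mean (F : Fm) (d : Dr) (a : Pt) (n : ℕ) (y : ℤ) : ∫ η, X F d η a n y ∂(law F) = e F d n y := by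
  have h : ∀ η, X F d η a n y = X F d (F.shp a η) 0 n y := fun η => by rw [X_shp, zero_add]
  simp_rw [h]
  exact shp_int (X_meas F d 0 n y) a

/-- A bound for the cost. -/
theorem abs_X_le (hd : Adm F κ d) (η : Env) (a : Pt) {n : ℕ} (hn : 1 ≤ n) (y : ℤ) :
    |X F d η a n y| ≤ C1 F * n + 2 * F.b * (F.co.M * |(y : ℝ)|) + 4 * F.b := by
  have h1 := X_lower hd η a hn y
  have h2 := X_upper hd η a hn y
  have h3 : 0 ≤ κ * (F.co.M * |(y : ℝ)|) := by
    have : (1 : ℝ) ≤ F.co.M := by exact_mod_cast F.co.M_pos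
    have := hd.κ0
    positivity
  have h4 : 0 ≤ 2 * F.b * (F.co.M * |(y : ℝ)|) := by
    have : (1 : ℝ) ≤ F.co.M := by exact_mod_cast F.co.M_pos
    have := b_pos F
    positivity
  have h5 := b_pos F
  rw [abs_le]
  constructor <;> linarith

theorem X_integrable (hd : Adm F κ d) (a : Pt) {n : ℕ} (hn : 1 ≤ n) (y : ℤ) :
    Integrable (fun η => X F d η a n y) (law F) :=
  (integrable_const (C1 F * n + 2 * F.b * (F.co.M * |(y : ℝ)|) + 4 * F.b)).mono' (X_meas F d a n y).aestronglyMeasurable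
    (Filter.Eventually.of_forall fun η => abs_X_le hd η a hn y)

/-! ### Lucks -/

theorem VV_bdd (hd : Adm F κ d) (η : Env) (a : Pt) {n : ℕ} (hn : 1 ≤ n) :
    BddAbove (Set.range fun y : ℤ => -X F d η a n y) := by
  refine ⟨C1 F * n, ?_⟩
  rintro r ⟨y, rfl⟩
  have h1 := X_lower hd η a hn y
  have h3 : 0 ≤ κ * (F.co.M * |(y : ℝ)|) := by
    have : (1 : ℝ) ≤ F.co.M := by exact_mod_cast F.co.M_pos
    have := hd.κ0
    positivity
  simp only
  linarith

theorem neg_X_le_VV (hd : Adm F κ d) (η : Env) (a : Pt) {n : ℕ} (hn : 1 ≤ n) (y : ℤ) : -X F d η a n y ≤ VV F d η a n :=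
  le_ciSup (VV_bdd hd η a hn) y

theorem VV_le (η : Env) (a : Pt) {n : ℕ} {r : ℝ} (h : ∀ y, -X F d η a n y ≤ r) : VV F d η a n ≤ r := ciSup_le h

theorem VV_upper (hd : Adm F κ d) (η : Env) (a : Pt) {n : ℕ} (hn : 1 ≤ n) : VV F d η a n ≤ C1 F * n := by
  refine VV_le η a fun y => ?_
  have h1 := X_lower hd η a hn y
  have h3 : 0 ≤ κ * (F.co.M * |(y : ℝ)|) := by
    have : (1 : ℝ) ≤ F.co.M := by exact_mod_cast F.co.M_pos
    have := hd.κ0
    positivity
  linarith

theorem VV_lower (hd : Adm F κ d) (η : Env) (a : Pt) {n : ℕ} (hn : 1 ≤ n) : -(C1 F * n + 4 * F.b) ≤ VV F d η a n := by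
  have h1 := neg_X_le_VV hd η a hn 0
  have h2 := X_upper hd η a hn 0
  simp only [Int.cast_zero, abs_zero, mul_zero, add_zero] at h2
  linarith

/-- The luck is attained, at a displacement of at most `K n`. -/
theorem VV_attained (hd : Adm F κ d) (η : Env) (a : Pt) {n : ℕ} (hn : 1 ≤ n) :
    ∃ y : ℤ, VV F d η a n = -X F d η a n y ∧ κ * (F.co.M * |(y : ℝ)|) ≤ (2 * C1 F + 4 * F.b) * n := by
  have hM : (1 : ℝ) ≤ F.co.M := by exact_mod_cast F.co.M_pos
  have hκ := hd.κ0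
  have hn' : (1 : ℝ) ≤ n := by exact_mod_cast hn
  have hb := b_pos F
  obtain ⟨K, hK⟩ := exists_nat_gt ((2 * C1 F + 4 * F.b) * n / (κ * F.co.M))
  rw [div_lt_iff₀ (by positivity)] at hK
  have hfar : ∀ y : ℤ, (K : ℝ) ≤ |(y : ℝ)| → -X F d η a n y < -X F d η a n 0 := by
    intro y hy
    have h1 := X_lower hd η a hn y
    have h2 := X_upper hd η a hn 0
    simp only [Int.cast_zero, abs_zero, mul_zero, add_zero] at h2
    have h3 : κ * F.co.M * K ≤ κ * F.co.M * |(y : ℝ)| := mul_le_mul_of_nonneg_left hy (by positivity)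
    nlinarith
  obtain ⟨y₀, hy₀, hmax⟩ := Finset.exists_max_image (Finset.Icc (-(K : ℤ)) K) (fun y => -X F d η a n y)
    ⟨0, by simp⟩
  have hmax' : ∀ y, -X F d η a n y ≤ -X F d η a n y₀ := by
    intro y
    by_cases h : y ∈ Finset.Icc (-(K : ℤ)) K
    · exact hmax y h
    · have h1 : (K : ℝ) ≤ |(y : ℝ)| := by
        rw [Finset.mem_Icc, not_and_or] at h
        rcases h with h | h
        · have : (y : ℝ) ≤ -K := by exact_mod_cast (by omega : y ≤ -(K : ℤ))
          have := neg_le_abs (y : ℝ)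
          linarith
        · have : (K : ℝ) ≤ y := by exact_mod_cast (by omega : (K : ℤ) ≤ y)
          have := le_abs_self (y : ℝ)
          linarith
      exact (hfar y h1).le.trans (hmax 0 (by simp))
  refine ⟨y₀, le_antisymm (VV_le η a hmax') (neg_X_le_VV hd η a hn y₀), ?_⟩
  have h1 := X_lower hd η a hn y₀
  have h2 := hmax' 0
  have h3 := X_upper hd η a hn 0
  simp only [Int.cast_zero, abs_zero, mul_zero, add_zero] at h3
  nlinarith

/-- Superadditivity. -/
theorem VV_super (hd : Adm F κ d) (η : Env) (a : Pt) {m n : ℕ} (hm : 1 ≤ m) (hn : 1 ≤ n) (y : ℤ) :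
    -X F d η a m y + VV F d η (a + ((m : ℤ), y)) n ≤ VV F d η a (m + n) := by
  have h : VV F d η (a + ((m : ℤ), y)) n ≤ X F d η a m y + VV F d η a (m + n) := by
    refine VV_le η _ fun z => ?_
    have h1 := X_tri F d η a hm hn y z
    have h2 := neg_X_le_VV hd η a (n := m + n) (by omega) (y + z)
    linarith
  linarith

theorem VV_meas (F : Fm) (d : Dr) (a : Pt) (n : ℕ) : Measurable fun η => VV F d η a n :=
  Measurable.iSup fun y => (X_meas F d a n y).neg

theorem VV_dep (F : Fm) (d : Dr) (a : Pt) (n : ℕ) : DependsOn (fun η => VV F d η a n) (F.co.slab a.1 (a.1 + n)) := by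
  intro η η' h
  unfold VV
  simp only
  congr 1
  ext y
  have := X_dep F d a n y h
  simp only at this
  rw [this]

theorem VV_shp (F : Fm) (d : Dr) (b : Pt) (η : Env) (a : Pt) (n : ℕ) :
    VV F d (F.shp b η) a n = VV F d η (a + b) n := by
  unfold VV
  simp_rw [X_shp]

theorem VV_integrable (hd : Adm F κ d) (a : Pt) {n : ℕ} (hn : 1 ≤ n) : Integrable (fun η => VV F d η a n) (law F) :=
  (integrable_const (C1 F * n + 4 * F.b)).mono' (VV_meas F d a n).aestronglyMeasurable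
    (Filter.Eventually.of_forall fun η => by
      have h1 := VV_upper hd η a hn
      have h2 := VV_lower hd η a hn
      have h3 := b_pos F
      rw [Real.norm_eq_abs, abs_le]
      constructor <;> linarith)

/-- The luck of the end point is the luck of the starting point in the reflected environment. -/
theorem Vr_eq (F : Fm) (d : Dr) (η : Env) (a : Pt) (n : ℕ) : Vr F d η a n = VV F d (rf η) (-a) n := by
  unfold Vr VV
  simp_rw [X_rf, neg_neg]

theorem VV_int (F : Fm) (d : Dr) (a : Pt) (n : ℕ) : ∫ η, VV F d η a n ∂(law F) = ∫ η, VV F d η 0 n ∂(law F) := by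
  have h : ∀ η, VV F d η a n = VV F d (F.shp a η) 0 n := fun η => by rw [VV_shp, zero_add]
  simp_rw [h]
  exact shp_int (VV_meas F d 0 n) a

theorem Vr_int (F : Fm) (d : Dr) (a : Pt) (n : ℕ) : ∫ η, Vr F d η a n ∂(law F) = ∫ η, VV F d η 0 n ∂(law F) := by
  simp_rw [Vr_eq]
  rw [rf_int (VV_meas F d (-a) n), VV_int]

/-- The mean luck is superadditive. -/
theorem VV_mean_super (hd : Adm F κ d) {m n : ℕ} (hm : 1 ≤ m) (hn : 1 ≤ n) :
    ∫ η, VV F d η 0 m ∂(law F) + ∫ η, VV F d η 0 n ∂(law F) ≤ ∫ η, VV F d η 0 (m + n) ∂(law F) := by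
  classical
  have hM : (1 : ℝ) ≤ F.co.M := by exact_mod_cast F.co.M_pos
  have hκ := hd.κ0
  obtain ⟨K, hK⟩ := exists_nat_gt ((2 * C1 F + 4 * F.b) * m / (κ * F.co.M))
  rw [div_lt_iff₀ (by positivity)] at hK
  set I := Finset.Icc (-(K : ℤ)) K with hI
  have hex : ∀ η, ∃ y ∈ I, VV F d η 0 m = -X F d η 0 m y := by
    intro η
    obtain ⟨y, h1, h2⟩ := VV_attained hd η 0 hm
    refine ⟨y, ?_, h1⟩
    have h3 : κ * F.co.M * |(y : ℝ)| < κ * F.co.M * K := by linarith
    have h4 : |(y : ℝ)| < K := lt_of_mul_lt_mul_left h3 (by positivity)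
    rw [abs_lt] at h4
    rw [hI, Finset.mem_Icc]
    constructor
    · have : (-(K : ℝ)) ≤ y := h4.1.le
      exact_mod_cast this
    · exact_mod_cast h4.2.le
  set A : ℤ → Set Env := fun y =>
    {η | VV F d η 0 m = -X F d η 0 m y ∧ ∀ y' ∈ I, y' < y → VV F d η 0 m ≠ -X F d η 0 m y'} with hA
  have hAm : ∀ y, MeasurableSet (A y) := by
    intro y
    have h1 : MeasurableSet {η : Env | VV F d η 0 m = -X F d η 0 m y} :=
      measurableSet_eq_fun (VV_meas F d 0 m) (X_meas F d 0 m y).neg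
    have h2 : MeasurableSet {η : Env | ∀ y' ∈ I, y' < y → VV F d η 0 m ≠ -X F d η 0 m y'} := by
      have : {η : Env | ∀ y' ∈ I, y' < y → VV F d η 0 m ≠ -X F d η 0 m y'} =
          ⋂ y' ∈ I, {η : Env | y' < y → VV F d η 0 m ≠ -X F d η 0 m y'} := by
        ext η; simp
      rw [this]
      refine Finset.measurableSet_biInter I fun y' _ => ?_
      by_cases h : y' < y
      · simp only [h, true_imp_iff]
        exact (measurableSet_eq_fun (VV_meas F d 0 m) (X_meas F d 0 m y').neg).compl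
      · simp only [h, false_imp_iff]
        exact MeasurableSet.univ
    exact h1.inter h2
  set f : ℤ → Env → ℝ := fun y => (A y).indicator fun _ => (1 : ℝ) with hf
  have hfm : ∀ y, Measurable (f y) := fun y => measurable_const.indicator (hAm y)
  have hf0 : ∀ y η, 0 ≤ f y η := fun y η => Set.indicator_nonneg (fun _ _ => zero_le_one) η
  have hf1 : ∀ y η, f y η ≤ 1 := fun y η => Set.indicator_le_self' (fun _ _ => zero_le_one) η
  have hsum : ∀ η, ∃ y₀ ∈ I, η ∈ A y₀ ∧ ∀ y ∈ I, y ≠ y₀ → η ∉ A y := by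
    intro η
    obtain ⟨y1, hy1, hy1'⟩ := hex η
    have hne : (I.filter fun y => VV F d η 0 m = -X F d η 0 m y).Nonempty := ⟨y1, Finset.mem_filter.2 ⟨hy1, hy1'⟩⟩
    set y₀ := (I.filter fun y => VV F d η 0 m = -X F d η 0 m y).min' hne with hy₀
    have h1 := Finset.mem_filter.1 (Finset.min'_mem _ hne)
    have h2 : ∀ y' ∈ I, y' < y₀ → VV F d η 0 m ≠ -X F d η 0 m y' := by
      intro y' hy' hlt heq
      have h5 : y' ∈ I.filter fun y => VV F d η 0 m = -X F d η 0 m y := Finset.mem_filter.2 ⟨hy', heq⟩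
      have := Finset.min'_le _ y' h5
      omega
    refine ⟨y₀, h1.1, ⟨h1.2, h2⟩, ?_⟩
    rintro y hy hne' ⟨g1, g2⟩
    rcases lt_or_gt_of_ne hne' with h | h
    · exact h2 y hy h g1
    · exact g2 y₀ h1.1 h h1.2
  have hsum1 : ∀ (η : Env) (g : ℤ → ℝ), ∃ y₀ ∈ I, η ∈ A y₀ ∧ ∑ y ∈ I, f y η * g y = g y₀ := by
    intro η g
    obtain ⟨y₀, h1, h2, h3⟩ := hsum η
    refine ⟨y₀, h1, h2, ?_⟩
    rw [Finset.sum_eq_single_of_mem y₀ h1]
    · simp only [hf]
      rw [Set.indicator_of_mem h2, one_mul]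
    · intro y hy hne
      simp only [hf]
      rw [Set.indicator_of_notMem (h3 y hy hne), zero_mul]
  have hfd : ∀ y, DependsOn (f y) (F.co.slab (0 : Pt).1 ((0 : Pt).1 + m)) := by
    intro y η η' hh
    have h1 := VV_dep F d 0 m hh
    have h2 : ∀ y', X F d η 0 m y' = X F d η' 0 m y' := fun y' => X_dep F d 0 m y' hh
    simp only at h1
    have h3 : η ∈ A y ↔ η' ∈ A y := by
      simp only [hA, Set.mem_ofPred_eq]
      rw [h1, h2]
      simp_rw [h2]
    simp only [hf]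
    by_cases h : η ∈ A y
    · rw [Set.indicator_of_mem h, Set.indicator_of_mem (h3.1 h)]
    · rw [Set.indicator_of_notMem h, Set.indicator_of_notMem fun h4 => h (h3.2 h4)]
  -- the pointwise inequality
  have hpt : ∀ η, ∑ y ∈ I, f y η * (-X F d η 0 m y) + ∑ y ∈ I, f y η * VV F d η (0 + ((m : ℤ), y)) n ≤
      VV F d η 0 (m + n) := by
    intro η
    rw [← Finset.sum_add_distrib]
    simp_rw [← mul_add]
    obtain ⟨y₀, -, -, h⟩ := hsum1 η fun y => -X F d η 0 m y + VV F d η (0 + ((m : ℤ), y)) n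
    rw [h]
    exact VV_super hd η 0 hm hn y₀
  have hi1 : ∀ y ∈ I, Integrable (fun η => f y η * (-X F d η 0 m y)) (law F) := fun y _ =>
    ((X_integrable hd 0 hm y).neg).bdd_mul (c := 1) (hfm y).aestronglyMeasurable (Filter.Eventually.of_forall fun η => by
      rw [Real.norm_eq_abs, abs_of_nonneg (hf0 y η)]; exact hf1 y η)
  have hi2 : ∀ y ∈ I, Integrable (fun η => f y η * VV F d η (0 + ((m : ℤ), y)) n) (law F) := fun y _ =>
    (VV_integrable hd _ hn).bdd_mul (c := 1) (hfm y).aestronglyMeasurable (Filter.Eventually.of_forall fun η => by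
      rw [Real.norm_eq_abs, abs_of_nonneg (hf0 y η)]; exact hf1 y η)
  have h1 : ∫ η, (∑ y ∈ I, f y η * (-X F d η 0 m y) + ∑ y ∈ I, f y η * VV F d η (0 + ((m : ℤ), y)) n) ∂(law F) ≤
      ∫ η, VV F d η 0 (m + n) ∂(law F) :=
    integral_mono ((integrable_finsetSum _ hi1).add (integrable_finsetSum _ hi2))
      (VV_integrable hd 0 (n := m + n) (by omega)) hpt
  rw [integral_add (integrable_finsetSum _ hi1) (integrable_finsetSum _ hi2)] at h1
  have h2 : ∀ η, ∑ y ∈ I, f y η * (-X F d η 0 m y) = VV F d η 0 m := by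
    intro η
    obtain ⟨y₀, -, h3, h⟩ := hsum1 η fun y => -X F d η 0 m y
    rw [h]
    exact h3.1.symm
  simp_rw [h2] at h1
  rw [integral_finsetSum _ hi2] at h1
  have h3 : ∀ y ∈ I, ∫ η, f y η * VV F d η (0 + ((m : ℤ), y)) n ∂(law F) =
      (∫ η, f y η ∂(law F)) * ∫ η, VV F d η 0 n ∂(law F) := by
    intro y _
    rw [integral_indep (A := F.co.slab (0 : Pt).1 ((0 : Pt).1 + m))
      (B := F.co.slab (0 + ((m : ℤ), y)).1 ((0 + ((m : ℤ), y)).1 + n)) (hfm y) (VV_meas F d _ n) (hfd y)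
      (VV_dep F d _ n) (Co.slab_disjoint (by simp)), VV_int]
  rw [Finset.sum_congr rfl h3, ← Finset.sum_mul] at h1
  have h4 : ∑ y ∈ I, ∫ η, f y η ∂(law F) = 1 := by
    rw [← integral_finsetSum]
    · have : ∀ η, ∑ y ∈ I, f y η = 1 := by
        intro η
        obtain ⟨y₀, -, -, h⟩ := hsum1 η fun _ => 1
        simpa using h
      simp_rw [this]
      simp
    · intro y _
      exact (integrable_const (1 : ℝ)).mono' (hfm y).aestronglyMeasurable (Filter.Eventually.of_forall fun η => by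
        rw [Real.norm_eq_abs, abs_of_nonneg (hf0 y η)]; exact hf1 y η)
  rw [h4, one_mul] at h1
  exact h1

end Pool.Agent.W_1b8d5d_p
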