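import Pool.Agent.W_1b8d5d_p.Unit0
import Pool.Agent.W_1b8d5d_p.FrX
import Pool.Agent.W_1b8d5d_p.Cross

/-!
MP_1b8d5d_pr, Track P. The unit `EE` (cheapest displacements), convexity in the position, sets of directions.
-/

namespace Pool.Agent.W_1b8d5d_p

open MeasureTheory Set
open Pool.Agent.W_1b8d5d_h85 (V nm dir Edge Env grid ke wedges cost Bd sh rf)

noncomputable section

private theorem v_b0 (F : Fm) : 0 < F.b := F.a0.trans_le F.ab

private theorem v_tau_meas (F : Fm) : Measurable F.tau :=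
  measurable_pi_lambda _ fun e => F.mg.comp (measurable_pi_apply e)

private theorem v_meas (F : Fm) (d : Dr) (a : Pt) (n : ℕ) (y : ℤ) : Measurable fun η => X F d η a n y :=
  ((TT_meas F.co a n y).comp (v_tau_meas F)).sub_const _

private theorem v_M (F : Fm) : (1 : ℝ) ≤ F.co.M := by exact_mod_cast F.co.M_pos

private theorem v_TT_int (F : Fm) (a : Pt) {n : ℕ} (hn : 1 ≤ n) (y : ℤ) :
    Integrable (fun η => TT F.co (F.tau η) a n y) (law F) := by
  refine Integrable.of_bound ((TT_meas F.co a n y).comp (v_tau_meas F)).aestronglyMeasurable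
    (F.b * (nm (F.co.vt ((n : ℤ), y)) + 4)) (Filter.Eventually.of_forall fun η => ?_)
  rw [Real.norm_eq_abs, abs_of_nonneg (TT_nonneg (F.bd η) F.a0.le a n y)]
  exact TT_upper (F.bd η) F.a0.le (v_b0 F).le a hn y

private theorem v_int (F : Fm) (d : Dr) (a : Pt) {n : ℕ} (hn : 1 ≤ n) (y : ℤ) :
    Integrable (fun η => X F d η a n y) (law F) :=
  (v_TT_int F a hn y).sub (integrable_const _)

private theorem v_X_sh (F : Fm) (d : Dr) (η : Env) (b a : Pt) (n : ℕ) (y : ℤ) :
    X F d (F.shp b η) a n y = X F d η (a + b) n y := by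
  unfold X Fm.shp
  rw [show F.tau (sh (F.co.vt b) η) = sh (F.co.vt b) (F.tau η) from rfl, TT_sh]

/-- The central position at the block time `n`. -/
def md (d : Dr) (n : ℕ) : ℤ := ⌊d.v * n⌋

/-- The mean of the positive part of the cost. -/
def ep (F : Fm) (d : Dr) (n : ℕ) (y : ℤ) : ℝ := ∫ η, max (X F d η 0 n y) 0 ∂(law F)

/-- The cost of one lateral step. -/
def Cr (F : Fm) : ℝ := F.b * (2 * F.co.M + 4)

/-- The mean of the positive part of the cost of the cheapest displacement. -/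
def es (F : Fm) (d : Dr) (n : ℕ) : ℝ := ⨅ y : ℤ, ep F d n y

/-- **The unit.** -/
def EE (F : Fm) (d : Dr) (n : ℕ) : ℝ :=
  Cr F + (Finset.range (n + 1)).sup' Finset.nonempty_range_add_one fun m => es F d m

/-- Convexity of the means in the position. -/
def Cvx (F : Fm) : Prop := ∀ n : ℕ, 1 ≤ n → ∀ y : ℤ, 2 * tm_ F n y ≤ tm_ F n (y - 1) + tm_ F n (y + 1)

theorem Cr_pos (F : Fm) : 0 < Cr F := by
  have h1 := v_b0 F
  have h2 := v_M F
  unfold Cr
  positivity

theorem md_zero (d : Dr) : md d 0 = 0 := by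
  unfold md
  simp

theorem md_le (d : Dr) (n : ℕ) : (md d n : ℝ) ≤ d.v * n := Int.floor_le _

theorem lt_md (d : Dr) (n : ℕ) : d.v * n < md d n + 1 := Int.lt_floor_add_one _

theorem abs_md (d : Dr) (n : ℕ) : |(md d n : ℝ) - d.v * n| ≤ 1 := by
  have h1 := md_le d n
  have h2 := lt_md d n
  rw [abs_le]
  constructor <;> linarith

theorem md_add (d : Dr) (m n : ℕ) : md d (m + n) = md d m + md d n ∨ md d (m + n) = md d m + md d n + 1 := by
  have h1 := md_le d m
  have h2 := lt_md d m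
  have h3 := md_le d n
  have h4 := lt_md d n
  have h5 := md_le d (m + n)
  have h6 := lt_md d (m + n)
  push_cast at h5 h6
  rw [mul_add] at h5 h6
  have h7 : ((md d (m + n) : ℤ) : ℝ) < ((md d m + md d n + 2 : ℤ) : ℝ) := by push_cast; linarith
  have h8 : ((md d m + md d n : ℤ) : ℝ) < ((md d (m + n) + 1 : ℤ) : ℝ) := by push_cast; linarith
  have h9 : md d (m + n) < md d m + md d n + 2 := by exact_mod_cast h7
  have h10 : md d m + md d n < md d (m + n) + 1 := by exact_mod_cast h8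
  omega

theorem ep_nonneg (F : Fm) (d : Dr) (n : ℕ) (y : ℤ) : 0 ≤ ep F d n y :=
  integral_nonneg fun _ => le_max_right _ _

theorem e_le_ep (F : Fm) (d : Dr) {n : ℕ} (hn : 1 ≤ n) (y : ℤ) : e F d n y ≤ ep F d n y :=
  integral_mono (v_int F d 0 hn y) ((v_int F d 0 hn y).pos_part) fun _ => le_max_left _ _

theorem ep_zero (F : Fm) (d : Dr) : ep F d 0 0 = 0 := by
  unfold ep X
  have h : ∀ η : Env, TT F.co (F.tau η) 0 0 0 - (al F.co d * ((0 : ℕ) : ℝ) + be F.co d * ((0 : ℤ) : ℝ)) = 0 := by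
    intro η
    rw [TT_zero (F.bd η) F.a0.le]
    simp
  simp_rw [h]
  simp

theorem ep_at (F : Fm) (d : Dr) (a : Pt) (n : ℕ) (y : ℤ) : ∫ η, max (X F d η a n y) 0 ∂(law F) = ep F d n y := by
  have h := shp_int (F := F) (g := fun η => max (X F d η 0 n y) 0) ((v_meas F d 0 n y).max measurable_const) a
  simp_rw [v_X_sh F d _ a 0 n y, zero_add] at h
  exact h

theorem e_at (F : Fm) (d : Dr) (a : Pt) (n : ℕ) (y : ℤ) : ∫ η, X F d η a n y ∂(law F) = e F d n y := by
  have h := shp_int (F := F) (g := fun η => X F d η 0 n y) (v_meas F d 0 n y) a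
  simp_rw [v_X_sh F d _ a 0 n y, zero_add] at h
  exact h

private theorem v_max_add (r s : ℝ) : max (r + s) 0 ≤ max r 0 + max s 0 := by
  refine max_le ?_ (add_nonneg (le_max_right _ _) (le_max_right _ _))
  linarith [le_max_left r 0, le_max_left s 0]

/-- Subadditivity. -/
theorem ep_sub (F : Fm) (d : Dr) {m n : ℕ} (hm : 1 ≤ m) (hn : 1 ≤ n) (k y : ℤ) :
    ep F d (m + n) (k + y) ≤ ep F d m k + ep F d n y := by
  rw [← ep_at F d (0 + ((m : ℤ), k)) n y]
  unfold ep
  rw [← integral_add (v_int F d 0 hm k).pos_part (v_int F d _ hn y).pos_part]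
  refine integral_mono (v_int F d 0 (by omega) _).pos_part
    ((v_int F d 0 hm k).pos_part.add (v_int F d _ hn y).pos_part) fun η => ?_
  have h1 := TT_tri (c := F.co) (F.bd η) F.a0.le 0 hm hn k y
  have h2 : X F d η 0 (m + n) (k + y) ≤ X F d η 0 m k + X F d η (0 + ((m : ℤ), k)) n y := by
    unfold X
    push_cast
    linarith
  exact (max_le_max_right 0 h2).trans (v_max_add _ _)

theorem Adm.be_le {F : Fm} {κ : ℝ} {d : Dr} (h : Adm F κ d) : |be F.co d| ≤ F.b * F.co.M := by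
  have h1 := h.loop
  have h2 := h.κ0
  have h3 := F.ab
  have h4 := v_M F
  nlinarith

/-- One lateral step. -/
theorem ep_step (F : Fm) {κ : ℝ} {d : Dr} (hd : Adm F κ d) {n : ℕ} (hn : 1 ≤ n) (y y' : ℤ) :
    ep F d n y ≤ ep F d n y' + (F.b * (2 * F.co.M * |(y : ℝ) - y'| + 4)) := by
  unfold ep
  have h0 : 0 ≤ F.b * (2 * F.co.M * |(y : ℝ) - y'| + 4) := by
    have h1 := v_b0 F
    have h2 := v_M F
    positivity
  have h1 : ∫ η, max (X F d η 0 n y) 0 ∂(law F) ≤
      ∫ η, (max (X F d η 0 n y') 0 + F.b * (2 * F.co.M * |(y : ℝ) - y'| + 4)) ∂(law F) := by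
    refine integral_mono (v_int F d 0 hn y).pos_part ((v_int F d 0 hn y').pos_part.add (integrable_const _)) fun η => ?_
    have h1 := TT_end (c := F.co) (F.bd η) F.a0.le (v_b0 F).le 0 hn y y'
    have h2 : be F.co d * y' - be F.co d * y ≤ F.b * (F.co.M * |(y : ℝ) - y'|) := by
      have h3 : be F.co d * y' - be F.co d * y ≤ |be F.co d| * |(y : ℝ) - y'| := by
        rw [← abs_mul, ← mul_sub]
        refine (le_abs_self _).trans ?_
        rw [abs_mul, abs_mul, abs_sub_comm (y' : ℝ)]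
      have h4 := mul_le_mul_of_nonneg_right hd.be_le (abs_nonneg ((y : ℝ) - y'))
      nlinarith
    have h3 : X F d η 0 n y ≤ X F d η 0 n y' + F.b * (2 * F.co.M * |(y : ℝ) - y'| + 4) := by
      unfold X
      nlinarith
    refine max_le (h3.trans ?_) (add_nonneg (le_max_right _ _) h0)
    linarith [le_max_left (X F d η 0 n y') 0]
  rw [integral_add (v_int F d 0 hn y').pos_part (integrable_const _), integral_const, probReal_univ, one_smul] at h1
  exact h1

theorem es_nonneg (F : Fm) (d : Dr) (n : ℕ) : 0 ≤ es F d n := le_ciInf fun y => ep_nonneg F d n y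

theorem ep_bdd (F : Fm) (d : Dr) (n : ℕ) : BddBelow (range fun y : ℤ => ep F d n y) :=
  ⟨0, by rintro _ ⟨y, rfl⟩; exact ep_nonneg F d n y⟩

theorem es_le (F : Fm) (d : Dr) (n : ℕ) (y : ℤ) : es F d n ≤ ep F d n y := ciInf_le (ep_bdd F d n) y

theorem es_zero (F : Fm) (d : Dr) : es F d 0 = 0 :=
  le_antisymm ((es_le F d 0 0).trans_eq (ep_zero F d)) (es_nonneg F d 0)

/-- Subadditivity. -/
theorem es_sub (F : Fm) (d : Dr) (m n : ℕ) : es F d (m + n) ≤ es F d m + es F d n := by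
  rcases Nat.eq_zero_or_pos m with hm | hm
  · rw [hm, es_zero, zero_add, zero_add]
  rcases Nat.eq_zero_or_pos n with hn | hn
  · rw [hn, es_zero, add_zero, add_zero]
  have h1 : ∀ k y : ℤ, es F d (m + n) ≤ ep F d m k + ep F d n y := fun k y =>
    (es_le F d (m + n) (k + y)).trans (ep_sub F d hm hn k y)
  have h2 : ∀ y : ℤ, es F d (m + n) - ep F d n y ≤ es F d m := fun y =>
    le_ciInf fun k => by linarith [h1 k y]
  have h3 : es F d (m + n) - es F d m ≤ es F d n := le_ciInf fun y => by linarith [h2 y]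
  linarith

theorem le_EE (F : Fm) (d : Dr) {m n : ℕ} (h : m ≤ n) : es F d m + Cr F ≤ EE F d n := by
  have := Finset.le_sup' (fun m => es F d m) (Finset.mem_range.2 (Nat.lt_succ_of_le h))
  unfold EE
  linarith

theorem EE_le (F : Fm) (d : Dr) {n : ℕ} {R : ℝ} (h : ∀ m, m ≤ n → es F d m + Cr F ≤ R) : EE F d n ≤ R := by
  unfold EE
  have := Finset.sup'_le (H := Finset.nonempty_range_add_one (n := n)) (s := Finset.range (n + 1))
    (fun m => es F d m) (a := R - Cr F) fun m hm => by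
      have := h m (Nat.lt_succ_iff.1 (Finset.mem_range.1 hm))
      linarith
  linarith

theorem EE_mono (F : Fm) (d : Dr) {m n : ℕ} (h : m ≤ n) : EE F d m ≤ EE F d n :=
  EE_le F d fun _ hk => le_EE F d (hk.trans h)

theorem Cr_le_EE (F : Fm) (d : Dr) (n : ℕ) : Cr F ≤ EE F d n := by
  have h1 := le_EE F d (Nat.zero_le n)
  have h2 := es_nonneg F d 0
  linarith

theorem EE_pos (F : Fm) (d : Dr) (n : ℕ) : 0 < EE F d n := (Cr_pos F).trans_le (Cr_le_EE F d n)

/-- Subadditivity of the unit. -/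
theorem EE_add (F : Fm) (d : Dr) (m n : ℕ) : EE F d (m + n) ≤ EE F d m + EE F d n := by
  refine EE_le F d fun k hk => ?_
  rcases le_total k m with h | h
  · have h1 := le_EE F d h
    have h2 := EE_pos F d n
    linarith
  obtain ⟨l, rfl⟩ := Nat.exists_eq_add_of_le h
  have hl : l ≤ n := by omega
  have h1 := le_EE F d (le_refl m)
  have h2 := le_EE F d hl
  have h3 := es_sub F d m l
  have h4 := Cr_pos F
  linarith

theorem EE_mul (F : Fm) (d : Dr) (n : ℕ) {k : ℕ} (hk : 1 ≤ k) : EE F d (k * n) ≤ k * EE F d n := by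
  induction k with
  | zero => omega
  | succ k ih =>
    rcases Nat.eq_zero_or_pos k with h0 | h0
    · subst h0
      simp
    · have h1 := ih h0
      have h2 := EE_add F d (k * n) n
      have e1 : (k + 1) * n = k * n + n := by ring
      rw [e1]
      push_cast
      linarith

/-- The means are convex in the position. -/
theorem cvx (F : Fm) : Cvx F := by
  intro n hn y
  have h0 := tm_at F (0 + (0, 1)) hn y
  have h1 := tm_at F (0 + (0, 1)) hn (y - 1)
  have key : ∫ η, (TT F.co (F.tau η) 0 n y + TT F.co (F.tau η) (0 + (0, 1)) n y) ∂(law F) ≤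
      ∫ η, (TT F.co (F.tau η) 0 n (y + 1) + TT F.co (F.tau η) (0 + (0, 1)) n (y - 1)) ∂(law F) := by
    refine integral_mono ((v_TT_int F _ hn _).add (v_TT_int F _ hn _)) ((v_TT_int F _ hn _).add (v_TT_int F _ hn _))
      fun η => ?_
    have := TT_cross (c := F.co) (F.bd η) F.a0 0 hn (k := 1) (y := y + 1) (y' := y) (by norm_num) (by omega)
    rw [add_sub_cancel_right] at this
    exact this
  rw [integral_add (v_TT_int F _ hn _) (v_TT_int F _ hn _), integral_add (v_TT_int F _ hn _) (v_TT_int F _ hn _),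
    h0, h1] at key
  unfold tm_ at key ⊢
  linarith

/-! ### Convexity in the position -/

section dconv

variable {f : ℤ → ℝ} (hf : ∀ y, 2 * f y ≤ f (y - 1) + f (y + 1))

include hf

private theorem dc_mono (y : ℤ) (k : ℕ) : f (y + 1) - f y ≤ f (y + k + 1) - f (y + k) := by
  induction k with
  | zero => simp
  | succ k ih =>
    have h := hf (y + k + 1)
    rw [add_sub_cancel_right] at h
    have e1 : y + ((k + 1 : ℕ) : ℤ) = y + k + 1 := by push_cast; ring
    rw [e1]
    linarith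

private theorem dc_left (a : ℤ) (m : ℕ) : f (a + m) ≤ f a + m * (f (a + m + 1) - f (a + m)) := by
  induction m with
  | zero => simp
  | succ m ih =>
    have h := hf (a + m + 1)
    rw [add_sub_cancel_right] at h
    have e1 : a + ((m + 1 : ℕ) : ℤ) = a + m + 1 := by push_cast; ring
    rw [e1]
    push_cast
    have h2 : (m : ℝ) * (f (a + m + 1) - f (a + m)) ≤ m * (f (a + m + 1 + 1) - f (a + m + 1)) :=
      mul_le_mul_of_nonneg_left (by linarith) (Nat.cast_nonneg _)
    nlinarith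

private theorem dc_right (b : ℤ) (n : ℕ) : f b + n * (f (b + 1) - f b) ≤ f (b + n) := by
  induction n with
  | zero => simp
  | succ n ih =>
    have h := dc_mono hf b n
    have e1 : b + ((n + 1 : ℕ) : ℤ) = b + n + 1 := by push_cast; ring
    rw [e1]
    push_cast
    nlinarith

/-- The chord inequality. -/
theorem dconv {y0 y y1 : ℤ} (h0 : y0 ≤ y) (h1 : y ≤ y1) :
    ((y1 : ℝ) - y0) * f y ≤ ((y1 : ℝ) - y) * f y0 + ((y : ℝ) - y0) * f y1 := by
  obtain ⟨m, rfl⟩ : ∃ m : ℕ, y = y0 + m := ⟨(y - y0).toNat, by omega⟩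
  obtain ⟨n, rfl⟩ : ∃ n : ℕ, y1 = y0 + m + n := ⟨(y1 - (y0 + m)).toNat, by omega⟩
  have h2 := dc_left hf y0 m
  have h3 := dc_right hf (y0 + m) n
  push_cast
  have h4 : (n : ℝ) * (f (y0 + m) - f y0) ≤ n * (m * (f (y0 + m + 1) - f (y0 + m))) :=
    mul_le_mul_of_nonneg_left (by linarith) (Nat.cast_nonneg _)
  have h5 : (m : ℝ) * (n * (f (y0 + m + 1) - f (y0 + m))) ≤ m * (f (y0 + m + n) - f (y0 + m)) :=
    mul_le_mul_of_nonneg_left (by linarith) (Nat.cast_nonneg _)
  nlinarith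

end dconv

theorem e_conv (F : Fm) (d : Dr) {n : ℕ} (hn : 1 ≤ n) (y : ℤ) : 2 * e F d n y ≤ e F d n (y - 1) + e F d n (y + 1) := by
  have h := cvx F n hn y
  rw [e_eq F d hn, e_eq F d hn, e_eq F d hn]
  push_cast
  linarith

/-- The chord inequality for the mean costs. -/
theorem e_chord (F : Fm) (d : Dr) {n : ℕ} (hn : 1 ≤ n) {y0 y y1 : ℤ} (h0 : y0 ≤ y) (h1 : y ≤ y1) :
    ((y1 : ℝ) - y0) * e F d n y ≤ ((y1 : ℝ) - y) * e F d n y0 + ((y : ℝ) - y0) * e F d n y1 :=
  dconv (e_conv F d hn) h0 h1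

/-! ### Sets of directions -/

/-- A set of directions with uniform constants. -/
structure Dirs (F : Fm) (κ K : ℝ) (A : Set Dr) : Prop where
  adm : ∀ d ∈ A, Adm F κ d
  slope : ∀ d ∈ A, |d.v| ≤ K
  touch : ∀ d ∈ A, Touch F d
  nc : ∀ ε : ℝ, 0 < ε → ∃ δ : ℝ, 0 < δ ∧ ∀ d ∈ A, ∀ x : ℝ, |x| ≤ δ → J F d x ≤ ε * |x|
  strict : ∀ r : ℝ, 0 < r → ∃ j : ℝ, 0 < j ∧ ∀ d ∈ A, ∀ x : ℝ, r ≤ |x| → j * |x| ≤ J F d x

/-- The units tend to infinity, uniformly in the direction. -/
def Grow (F : Fm) (A : Set Dr) : Prop := ∀ R : ℝ, ∃ n0 : ℕ, ∀ d ∈ A, ∀ n : ℕ, n0 ≤ n → R ≤ EE F d n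

variable {F : Fm} {κ K : ℝ} {A : Set Dr}

/-- The mean costs of small slopes. -/
theorem Dirs.small (h : Dirs F κ K A) {ε : ℝ} (hε : 0 < ε) : ∃ δ : ℝ, 0 < δ ∧ ∀ x : ℝ, 0 < x → x ≤ δ →
    ∃ n0 : ℕ, 1 ≤ n0 ∧ ∀ d ∈ A, ∀ n : ℕ, n0 ≤ n → ∀ y : ℤ, |(y : ℝ) - d.v * n| ≤ x * n → e F d n y ≤ ε * (x * n) := by
  obtain ⟨δ, hδ, hδ1⟩ := h.nc (ε / 2) (by positivity)
  refine ⟨min δ 1, lt_min hδ one_pos, fun x hx hxδ => ?_⟩
  obtain ⟨N, hN, hN1⟩ := e_upper F (K + 1) (ε := ε / 2 * x) (by positivity)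
  refine ⟨N, hN, fun d hd n hn y hy => ?_⟩
  have hn1 : 1 ≤ n := hN.trans hn
  have hn0 : (0 : ℝ) < n := by exact_mod_cast hn1
  have h1 : |(y : ℝ)| ≤ (K + 1) * n := by
    have h2 : |(y : ℝ)| ≤ |(y : ℝ) - d.v * n| + |d.v * n| := by
      have := abs_add_le ((y : ℝ) - d.v * n) (d.v * n)
      rwa [sub_add_cancel] at this
    rw [abs_mul, Nat.abs_cast] at h2
    have h3 := mul_le_mul_of_nonneg_right (h.slope d hd) hn0.le
    have h4 : x * n ≤ 1 * n := mul_le_mul_of_nonneg_right (hxδ.trans (min_le_right _ _)) hn0.le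
    linarith
  have h2 := hN1 d n hn y h1
  have h3 : |(y : ℝ) / n - d.v| ≤ x := by
    have e1 : (y : ℝ) / n - d.v = (y - d.v * n) / n := by field_simp
    rw [e1, abs_div, Nat.abs_cast, div_le_iff₀ hn0]
    exact hy
  have h4 := hδ1 d hd ((y : ℝ) / n - d.v) (h3.trans (hxδ.trans (min_le_left _ _)))
  have h5 : J F d ((y : ℝ) / n - d.v) ≤ ε / 2 * x := h4.trans (mul_le_mul_of_nonneg_left h3 (by positivity))
  refine h2.trans ?_
  have h6 : (n : ℝ) * (J F d ((y : ℝ) / n - d.v) + ε / 2 * x) ≤ n * (ε / 2 * x + ε / 2 * x) :=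
    mul_le_mul_of_nonneg_left (by linarith) hn0.le
  refine h6.trans (le_of_eq ?_)
  ring

/-- The traveller bound at large times, with the cost of the centre of the same time. -/
theorem Dirs.trav0 (h : Dirs F κ K A) {ε : ℝ} (hε : 0 < ε) : ∃ η : ℝ, 0 < η ∧ ∃ n0 : ℕ, 1 ≤ n0 ∧ ∀ d ∈ A, ∀ n : ℕ,
    n0 ≤ n → ∀ y : ℤ, |(y : ℝ) - d.v * n| ≤ η * n → e F d n y ≤ max (e F d n (md d n)) 0 + ε * |(y : ℝ) - md d n| := by
  obtain ⟨δ, hδ, hδ1⟩ := h.small (ε := ε / 2) (by positivity)
  obtain ⟨N, hN, hN1⟩ := hδ1 δ hδ le_rfl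
  obtain ⟨N1, hN1'⟩ := exists_nat_ge (4 / δ)
  refine ⟨δ / 4, by positivity, max N N1, hN.trans (le_max_left _ _), fun d hd n hn y hy => ?_⟩
  have hnN : N ≤ n := (le_max_left _ _).trans hn
  have hn1 : 1 ≤ n := hN.trans hnN
  have hn0 : (0 : ℝ) < n := by exact_mod_cast hn1
  have hδn : 4 ≤ δ * n := by
    have h1 : (N1 : ℝ) ≤ n := by exact_mod_cast (le_max_right _ _).trans hn
    have h2 : 4 / δ ≤ n := hN1'.trans h1
    rw [div_le_iff₀ hδ] at h2
    linarith
  set D : ℤ := ⌊δ * n⌋ - 1 with hD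
  have hD1 : (D : ℝ) ≤ δ * n - 1 := by
    rw [hD]
    push_cast
    have := Int.floor_le (δ * n)
    linarith
  have hD2 : δ * n - 2 < (D : ℝ) := by
    rw [hD]
    push_cast
    have := Int.lt_floor_add_one (δ * n)
    linarith
  have hD3 : δ * n / 2 ≤ (D : ℝ) := by linarith
  have hD0 : (0 : ℝ) < D := by linarith
  have hc := abs_le.1 (abs_md d n)
  have hy' := abs_le.1 hy
  have hcost : ∀ z : ℤ, |(z : ℝ) - md d n| = D → e F d n z ≤ ε * D := by
    intro z hz
    have h1 : |(z : ℝ) - d.v * n| ≤ δ * n := by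
      have h2 := abs_add_le ((z : ℝ) - md d n) ((md d n : ℝ) - d.v * n)
      rw [sub_add_sub_cancel, hz] at h2
      have h3 := abs_md d n
      linarith
    have h2 := hN1 d hd n hnN z h1
    have h3 : ε / 2 * (δ * n) ≤ ε * D := by
      have := mul_le_mul_of_nonneg_left hD3 hε.le
      linarith
    linarith
  have hyD : |(y : ℝ) - md d n| ≤ D := by
    have h2 := abs_add_le ((y : ℝ) - d.v * n) (d.v * n - md d n)
    rw [sub_add_sub_cancel] at h2
    have h3 := abs_md d n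
    rw [abs_sub_comm] at h3
    linarith
  have hm0 : e F d n (md d n) ≤ max (e F d n (md d n)) 0 := le_max_left _ _
  have hm1 : 0 ≤ max (e F d n (md d n)) 0 := le_max_right _ _
  rcases le_total (md d n) y with hyz | hyz
  · have hz : (md d n : ℝ) ≤ y := by exact_mod_cast hyz
    have ha : |(y : ℝ) - md d n| = y - md d n := abs_of_nonneg (by linarith)
    rw [ha] at hyD ⊢
    have hy1 : y ≤ md d n + D := by
      have : (y : ℝ) ≤ ((md d n + D : ℤ) : ℝ) := by push_cast; linarith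
      exact_mod_cast this
    have h1 := e_chord F d hn1 hyz hy1
    have h2 := hcost (md d n + D) (by push_cast; rw [add_sub_cancel_left, abs_of_pos hD0])
    push_cast at h1
    rw [add_sub_cancel_left] at h1
    have h3 : (D : ℝ) * e F d n y ≤ D * (max (e F d n (md d n)) 0 + ε * (y - md d n)) := by
      have h4 : ((md d n : ℝ) + D - y) * e F d n (md d n) ≤ D * max (e F d n (md d n)) 0 := by
        have h5 : ((md d n : ℝ) + D - y) * e F d n (md d n) ≤ ((md d n : ℝ) + D - y) * max (e F d n (md d n)) 0 :=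
          mul_le_mul_of_nonneg_left hm0 (by linarith)
        have h6 : ((md d n : ℝ) + D - y) * max (e F d n (md d n)) 0 ≤ D * max (e F d n (md d n)) 0 :=
          mul_le_mul_of_nonneg_right (by linarith) hm1
        linarith
      have h5 : ((y : ℝ) - md d n) * e F d n (md d n + D) ≤ (y - md d n) * (ε * D) :=
        mul_le_mul_of_nonneg_left h2 (by linarith)
      linarith
    exact le_of_mul_le_mul_left h3 hD0
  · have hz : (y : ℝ) ≤ md d n := by exact_mod_cast hyz
    have ha : |(y : ℝ) - md d n| = md d n - y := by rw [abs_sub_comm, abs_of_nonneg (by linarith)]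
    rw [ha] at hyD ⊢
    have hy1 : md d n - D ≤ y := by
      have : ((md d n - D : ℤ) : ℝ) ≤ (y : ℝ) := by push_cast; linarith
      exact_mod_cast this
    have h1 := e_chord F d hn1 hy1 hyz
    have h2 := hcost (md d n - D) (by
      push_cast
      rw [show (md d n : ℝ) - D - md d n = -D by ring, abs_neg, abs_of_pos hD0])
    push_cast at h1
    rw [sub_sub_cancel] at h1
    have h3 : (D : ℝ) * e F d n y ≤ D * (max (e F d n (md d n)) 0 + ε * (md d n - y)) := by
      have h4 : ((y : ℝ) - (md d n - D)) * e F d n (md d n) ≤ D * max (e F d n (md d n)) 0 := by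
        have h5 : ((y : ℝ) - (md d n - D)) * e F d n (md d n) ≤
            ((y : ℝ) - (md d n - D)) * max (e F d n (md d n)) 0 :=
          mul_le_mul_of_nonneg_left hm0 (by linarith)
        have h6 : ((y : ℝ) - (md d n - D)) * max (e F d n (md d n)) 0 ≤ D * max (e F d n (md d n)) 0 :=
          mul_le_mul_of_nonneg_right (by linarith) hm1
        linarith
      have h5 : ((md d n : ℝ) - y) * e F d n (md d n - D) ≤ (md d n - y) * (ε * D) :=
        mul_le_mul_of_nonneg_left h2 (by linarith)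
      linarith
    exact le_of_mul_le_mul_left h3 hD0

theorem Adm.al_le {F : Fm} {κ : ℝ} {d : Dr} (h : Adm F κ d) : |al F.co d| ≤ F.b * (F.co.L * F.co.R) := by
  have hL : (0 : ℝ) ≤ F.co.L := by exact_mod_cast (show (0 : ℤ) ≤ F.co.L by have := F.co.L_pos; omega)
  unfold al Co.R
  rw [abs_mul, abs_of_nonneg hL]
  push_cast
  have h1 : |d.h1 * F.co.r + d.h2 * F.co.s| ≤ F.b * (|(F.co.r : ℝ)| + |(F.co.s : ℝ)|) := by
    refine (abs_add_le _ _).trans ?_
    rw [abs_mul, abs_mul, abs_of_nonneg h.h1n, abs_of_nonneg h.h2n, mul_add]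
    exact add_le_add (mul_le_mul_of_nonneg_right h.h1b (abs_nonneg _)) (mul_le_mul_of_nonneg_right h.h2b (abs_nonneg _))
  have h2 := mul_le_mul_of_nonneg_left h1 hL
  linarith

/-- A rough upper bound of the mean costs. -/
theorem e_rough {F : Fm} {κ : ℝ} {d : Dr} (h : Adm F κ d) {n : ℕ} (hn : 1 ≤ n) (y : ℤ) :
    e F d n y ≤ (CT F + F.b * (F.co.L * F.co.R)) * n + (CT F + F.b * F.co.M) * |(y : ℝ)| := by
  rw [e_eq F d hn]
  have h1 := (tm_sub F).up hn y
  have h2 : -(al F.co d * n) ≤ F.b * (F.co.L * F.co.R) * n := by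
    have h3 := mul_le_mul_of_nonneg_right h.al_le (Nat.cast_nonneg (α := ℝ) n)
    have h4 : -(al F.co d * n) ≤ |al F.co d| * n := by
      rw [← neg_mul]
      exact mul_le_mul_of_nonneg_right (neg_le_abs _) (Nat.cast_nonneg _)
    linarith
  have h3 : -(be F.co d * y) ≤ F.b * F.co.M * |(y : ℝ)| := by
    have h4 := mul_le_mul_of_nonneg_right h.be_le (abs_nonneg (y : ℝ))
    have h5 : -(be F.co d * y) ≤ |be F.co d| * |(y : ℝ)| := by
      rw [← abs_mul]
      exact neg_le_abs _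
    linarith
  linarith

/-! ### Cheapest displacements -/

/-- The mean costs grow linearly in the position. -/
theorem e_coer {F : Fm} {κ : ℝ} {d : Dr} (hd : Adm F κ d) {n : ℕ} (hn : 1 ≤ n) (y : ℤ) :
    κ * (F.co.M * |(y : ℝ)|) - C1 F * n ≤ e F d n y := by
  have h : ∫ _η, (κ * (F.co.M * |(y : ℝ)|) - C1 F * n) ∂(law F) ≤ ∫ η, X F d η 0 n y ∂(law F) :=
    integral_mono (integrable_const _) (X_integrable hd 0 hn y) fun η => X_lower hd η 0 hn y
  rw [integral_const, probReal_univ, one_smul] at h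
  exact h

theorem exists_min_int {f : ℤ → ℝ} {k C : ℝ} (hk : 0 < k) (h : ∀ y : ℤ, k * |(y : ℝ)| - C ≤ f y) :
    ∃ y, ∀ z, f y ≤ f z := by
  obtain ⟨N, hN⟩ := exists_nat_ge ((f 0 + C) / k)
  obtain ⟨y, hy, hy1⟩ := (Finset.Icc (-(N : ℤ)) N).exists_min_image f ⟨0, by simp⟩
  refine ⟨y, fun z => ?_⟩
  by_cases hz : z ∈ Finset.Icc (-(N : ℤ)) N
  · exact hy1 z hz
  · have h0 := hy1 0 (by simp)
    have h1 : (N : ℝ) ≤ |(z : ℝ)| := by
      rw [Finset.mem_Icc, not_and_or, not_le, not_le] at hz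
      have h2 : (N : ℤ) ≤ |z| := by
        rcases hz with hz | hz
        · rw [abs_of_neg (by omega)]; omega
        · rw [abs_of_pos (by omega)]; omega
      calc (N : ℝ) = ((N : ℤ) : ℝ) := by simp
        _ ≤ ((|z| : ℤ) : ℝ) := by exact_mod_cast h2
        _ = |(z : ℝ)| := by push_cast; rfl
    have h2 := h z
    rw [div_le_iff₀ hk] at hN
    have h3 : k * N ≤ k * |(z : ℝ)| := mul_le_mul_of_nonneg_left h1 hk.le
    linarith

theorem e_min {F : Fm} {κ : ℝ} {d : Dr} (hd : Adm F κ d) {n : ℕ} (hn : 1 ≤ n) : ∃ y, ∀ z, e F d n y ≤ e F d n z := by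
  refine exists_min_int (k := κ * F.co.M) (C := C1 F * n) ?_ fun y => ?_
  · have := hd.κ0
    have := v_M F
    positivity
  · have := e_coer hd hn y
    linarith

theorem ep_min {F : Fm} {κ : ℝ} {d : Dr} (hd : Adm F κ d) {n : ℕ} (hn : 1 ≤ n) : ∃ y, ∀ z, ep F d n y ≤ ep F d n z := by
  refine exists_min_int (k := κ * F.co.M) (C := C1 F * n) ?_ fun y => ?_
  · have := hd.κ0
    have := v_M F
    positivity
  · have := e_coer hd hn y
    have := e_le_ep F d hn y
    linarith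

/-- The minimum is attained. -/
theorem es_attained {F : Fm} {κ : ℝ} {d : Dr} (hd : Adm F κ d) (n : ℕ) : ∃ y, ep F d n y = es F d n := by
  rcases Nat.eq_zero_or_pos n with h | h
  · subst h
    exact ⟨0, by rw [ep_zero, es_zero]⟩
  · obtain ⟨y, hy⟩ := ep_min hd h
    exact ⟨y, le_antisymm (le_ciInf hy) (es_le F d n y)⟩

open Classical in
/-- The cheapest displacement. -/
def xs (F : Fm) (d : Dr) (n : ℕ) : ℤ :=
  if h : 1 ≤ n ∧ ∃ y, ∀ z, e F d n y ≤ e F d n z then h.2.choose else 0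

theorem xs_zero (F : Fm) (d : Dr) : xs F d 0 = 0 := by
  unfold xs
  rw [dif_neg]
  rintro ⟨h, -⟩
  omega

theorem e_zero (F : Fm) (d : Dr) : e F d 0 0 = 0 := by
  unfold e
  simp_rw [X_zero]
  simp

theorem xs_le {F : Fm} {κ : ℝ} {d : Dr} (hd : Adm F κ d) {n : ℕ} (hn : 1 ≤ n) (z : ℤ) :
    e F d n (xs F d n) ≤ e F d n z := by
  have h : 1 ≤ n ∧ ∃ y, ∀ z, e F d n y ≤ e F d n z := ⟨hn, e_min hd hn⟩
  unfold xs
  rw [dif_pos h]
  exact h.2.choose_spec z

theorem e_xs_le {F : Fm} {κ : ℝ} {d : Dr} (hd : Adm F κ d) (n : ℕ) : e F d n (xs F d n) ≤ es F d n := by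
  rcases Nat.eq_zero_or_pos n with h | h
  · subst h
    rw [xs_zero, e_zero, es_zero]
  · exact le_ciInf fun y => (xs_le hd h y).trans (e_le_ep F d h y)

/-- The bulk. -/
def Em (F : Fm) (d : Dr) (n : ℕ) : ℝ :=
  Cr F + (Finset.range (n + 1)).sup' Finset.nonempty_range_add_one fun m => e F d m (xs F d m)

theorem le_Em (F : Fm) (d : Dr) {m n : ℕ} (h : m ≤ n) : e F d m (xs F d m) + Cr F ≤ Em F d n := by
  have := Finset.le_sup' (fun m => e F d m (xs F d m)) (Finset.mem_range.2 (Nat.lt_succ_of_le h))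
  unfold Em
  linarith

theorem Em_le (F : Fm) (d : Dr) {n : ℕ} {R : ℝ} (h : ∀ m, m ≤ n → e F d m (xs F d m) + Cr F ≤ R) : Em F d n ≤ R := by
  unfold Em
  have := Finset.sup'_le (H := Finset.nonempty_range_add_one (n := n)) (s := Finset.range (n + 1))
    (fun m => e F d m (xs F d m)) (a := R - Cr F) fun m hm => by
      have := h m (Nat.lt_succ_iff.1 (Finset.mem_range.1 hm))
      linarith
  linarith

theorem Em_mono (F : Fm) (d : Dr) {m n : ℕ} (h : m ≤ n) : Em F d m ≤ Em F d n :=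
  Em_le F d fun _ hk => le_Em F d (hk.trans h)

theorem Em_le_EE {F : Fm} {κ : ℝ} {d : Dr} (hd : Adm F κ d) (n : ℕ) : Em F d n ≤ EE F d n :=
  Em_le F d fun m hm => by
    have h1 := e_xs_le hd m
    have h2 := le_EE F d hm
    linarith

theorem Cr_le_Em (F : Fm) (d : Dr) (n : ℕ) : Cr F ≤ Em F d n := by
  have h1 := le_Em F d (Nat.zero_le n)
  rw [xs_zero, e_zero] at h1
  linarith

theorem Em_pos (F : Fm) (d : Dr) (n : ℕ) : 0 < Em F d n := (Cr_pos F).trans_le (Cr_le_Em F d n)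

/-- Subadditivity of the mean costs. -/
theorem e_sub (F : Fm) (d : Dr) {m n : ℕ} (hm : 1 ≤ m) (hn : 1 ≤ n) (k y : ℤ) :
    e F d (m + n) (k + y) ≤ e F d m k + e F d n y := by
  have h := (tm_sub F).sub m n hm hn k y
  rw [e_eq F d (by omega), e_eq F d hm, e_eq F d hn]
  push_cast
  linarith

/-- With durations `0` (then the displacement is `0`). -/
theorem e_sub' (F : Fm) (d : Dr) (m n : ℕ) (k y : ℤ) (hm : m = 0 → k = 0) (hn : n = 0 → y = 0) :
    e F d (m + n) (k + y) ≤ e F d m k + e F d n y := by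
  rcases Nat.eq_zero_or_pos m with h | h
  · rw [hm h, h, e_zero, zero_add, zero_add, zero_add]
  rcases Nat.eq_zero_or_pos n with h' | h'
  · rw [hn h', h', e_zero, add_zero, add_zero, add_zero]
  · exact e_sub F d h h' k y

theorem Em_add {F : Fm} {κ : ℝ} {d : Dr} (hd : Adm F κ d) (m n : ℕ) : Em F d (m + n) ≤ Em F d m + Em F d n := by
  refine Em_le F d fun k hk => ?_
  rcases le_total k m with h | h
  · have h1 := le_Em F d h
    have h2 := Em_pos F d n
    linarith
  obtain ⟨l, rfl⟩ := Nat.exists_eq_add_of_le h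
  have hl : l ≤ n := by omega
  have h1 := le_Em F d (le_refl m)
  have h2 := le_Em F d hl
  have h4 := Cr_pos F
  rcases Nat.eq_zero_or_pos m with hm | hm
  · subst hm
    rw [zero_add]
    have := Em_pos F d 0
    linarith
  rcases Nat.eq_zero_or_pos l with hl0 | hl0
  · subst hl0
    rw [add_zero]
    have := Em_pos F d n
    linarith
  have h3 := (xs_le hd (n := m + l) (by omega) (xs F d m + xs F d l)).trans (e_sub F d hm hl0 _ _)
  linarith

/-- One lateral step. -/
theorem e_step {F : Fm} {κ : ℝ} {d : Dr} (hd : Adm F κ d) {n : ℕ} (hn : 1 ≤ n) (y y' : ℤ) :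
    e F d n y ≤ e F d n y' + (2 * F.b * (F.co.M * |(y : ℝ) - y'|) + 4 * F.b) := by
  unfold e
  have h : ∫ η, X F d η 0 n y ∂(law F) ≤
      ∫ η, (X F d η 0 n y' + (2 * F.b * (F.co.M * |(y : ℝ) - y'|) + 4 * F.b)) ∂(law F) :=
    integral_mono (X_integrable hd 0 hn y) ((X_integrable hd 0 hn y').add (integrable_const _)) fun η => by
      have := X_end hd η 0 hn y y'
      simp only
      linarith
  rw [integral_add (X_integrable hd 0 hn y') (integrable_const _), integral_const, probReal_univ, one_smul] at h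
  exact h

end

end Pool.Agent.W_1b8d5d_p
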