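import Pool.Agent.W_1b8d5d_p.FrX
import Pool.Agent.W_1b8d5d_p.Unit1

/-!
MP_1b8d5d_pr, Track P: the mean luck is not positive. The end points of the luckiest passages of consecutive blocks form a
random walk with independent increments, so a positive mean luck would give a negative mean cost of one fixed displacement.
-/

namespace Pool.Agent.W_1b8d5d_p

open MeasureTheory Set
open Pool.Agent.W_1b8d5d_h85 (V nm dir Edge Env grid ke wedges cost Bd sh rf)

variable {F : Fm} {κ : ℝ} {d : Dr}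

private theorem VM_int {f : Env → ℝ} (hf : Measurable f) {C : ℝ} (h : ∀ η, |f η| ≤ C) : Integrable f (law F) :=
  (integrable_const C).mono' hf.aestronglyMeasurable (Filter.Eventually.of_forall h)

/-- A measurable choice of the best end point. -/
private theorem VM_sel (hd : Adm F κ d) {n : ℕ} (hn : 1 ≤ n) : ∃ (Y : Env → ℤ) (K : ℕ), Measurable Y ∧
    DependsOn Y (F.co.slab 0 n) ∧ (∀ η, |Y η| ≤ K) ∧ ∀ η, VV F d η 0 n = -X F d η 0 n (Y η) := by
  classical
  have hM : (1 : ℝ) ≤ F.co.M := by exact_mod_cast F.co.M_pos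
  have hκ := hd.κ0
  obtain ⟨K, hK⟩ := exists_nat_gt ((2 * C1 F + 4 * F.b) * n / (κ * F.co.M))
  rw [div_lt_iff₀ (by positivity)] at hK
  have hex : ∀ η, ∃ y ∈ Finset.Icc (-(K : ℤ)) K, VV F d η 0 n = -X F d η 0 n y := by
    intro η
    obtain ⟨y, h1, h2⟩ := VV_attained hd η 0 hn
    refine ⟨y, ?_, h1⟩
    have h3 : κ * F.co.M * |(y : ℝ)| < κ * F.co.M * K := by linarith only [h2, hK]
    have h4 : |(y : ℝ)| < K := lt_of_mul_lt_mul_left h3 (by positivity)
    rw [abs_lt] at h4
    rw [Finset.mem_Icc]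
    constructor
    · have : (-(K : ℝ)) ≤ y := h4.1.le
      exact_mod_cast this
    · exact_mod_cast h4.2.le
  have hne : ∀ η, ((Finset.Icc (-(K : ℤ)) K).filter fun y => VV F d η 0 n = -X F d η 0 n y).Nonempty := by
    intro η
    obtain ⟨y, h1, h2⟩ := hex η
    exact ⟨y, Finset.mem_filter.2 ⟨h1, h2⟩⟩
  have hkey : ∀ η (y : ℤ), ((Finset.Icc (-(K : ℤ)) K).filter fun y => VV F d η 0 n = -X F d η 0 n y).min' (hne η) = y ↔
      (y ∈ Finset.Icc (-(K : ℤ)) K ∧ VV F d η 0 n = -X F d η 0 n y) ∧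
        ∀ y' ∈ Finset.Icc (-(K : ℤ)) K, VV F d η 0 n = -X F d η 0 n y' → y ≤ y' := by
    intro η y
    rw [Finset.min'_eq_iff]
    simp only [Finset.mem_filter, and_imp]
  refine ⟨fun η => ((Finset.Icc (-(K : ℤ)) K).filter fun y => VV F d η 0 n = -X F d η 0 n y).min' (hne η), K, ?_, ?_, ?_, ?_⟩
  · refine measurable_to_countable' fun y => ?_
    have e1 : (fun η => ((Finset.Icc (-(K : ℤ)) K).filter fun y => VV F d η 0 n = -X F d η 0 n y).min' (hne η)) ⁻¹' {y} =
        {η | y ∈ Finset.Icc (-(K : ℤ)) K ∧ VV F d η 0 n = -X F d η 0 n y} ∩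
          ⋂ y' ∈ Finset.Icc (-(K : ℤ)) K, {η | VV F d η 0 n = -X F d η 0 n y' → y ≤ y'} := by
      ext η
      rw [Set.mem_preimage, Set.mem_singleton_iff, hkey]
      simp only [Set.mem_inter_iff, Set.mem_ofPred_eq, Set.mem_iInter]
    rw [e1]
    have hm : ∀ y' : ℤ, MeasurableSet {η : Env | VV F d η 0 n = -X F d η 0 n y'} := fun y' =>
      measurableSet_eq_fun (VV_meas F d 0 n) (X_meas F d 0 n y').neg
    refine MeasurableSet.inter ?_ (Finset.measurableSet_biInter _ fun y' _ => ?_)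
    · exact (MeasurableSet.const _).inter (hm y)
    · have e2 : {η : Env | VV F d η 0 n = -X F d η 0 n y' → y ≤ y'} =
          {η : Env | VV F d η 0 n = -X F d η 0 n y'}ᶜ ∪ {_η : Env | y ≤ y'} := by
        ext η
        simp only [Set.mem_ofPred_eq, Set.mem_union, Set.mem_compl_iff]
        tauto
      rw [e2]
      exact (hm y').compl.union (MeasurableSet.const _)
  · intro η η' h
    have h0 : ∀ i ∈ F.co.slab (0 : Pt).1 ((0 : Pt).1 + n), η i = η' i := by simpa using h
    have h1 : ∀ y, X F d η 0 n y = X F d η' 0 n y := fun y => X_dep F d 0 n y h0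
    have h2 : VV F d η 0 n = VV F d η' 0 n := by
      unfold VV
      simp_rw [h1]
    show ((Finset.Icc (-(K : ℤ)) K).filter fun y => VV F d η 0 n = -X F d η 0 n y).min' (hne η) =
      ((Finset.Icc (-(K : ℤ)) K).filter fun y => VV F d η' 0 n = -X F d η' 0 n y).min' (hne η')
    congr 1
    simp_rw [h1, h2]
  · intro η
    have h1 := Finset.min'_mem _ (hne η)
    rw [Finset.mem_filter, Finset.mem_Icc] at h1
    rw [abs_le]
    exact h1.1
  · intro η
    have h1 := Finset.min'_mem _ (hne η)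
    rw [Finset.mem_filter] at h1
    exact h1.2

/-- Shifted functions of a slab. -/
private theorem VM_dep_sh {g : Env → ℝ} {n : ℤ} (hg : DependsOn g (F.co.slab 0 n)) (t y : ℤ) :
    DependsOn (fun η => g (F.shp (t, y) η)) (F.co.slab t (t + n)) := by
  intro η η' h
  refine hg fun e he => ?_
  obtain ⟨x, σ⟩ := e
  have h1 := (sh_mem_slab F.co (t, y) 0 n x σ).2 he
  have h2 : (x + F.co.vt (t, y), σ) ∈ F.co.slab t (t + n) := by
    have e1 : (0 : ℤ) + (t, y).1 = t := by simp
    have e2 : n + (t, y).1 = t + n := by simp [add_comm]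
    rw [e1, e2] at h1
    exact h1
  exact h _ h2

/-- The walk of the best end points of consecutive blocks. -/
private def VM_S (F : Fm) (Y : Env → ℤ) (n : ℕ) : ℕ → Env → ℤ
  | 0, _ => 0
  | i + 1, η => VM_S F Y n i η + Y (F.shp (((i * n : ℕ) : ℤ), VM_S F Y n i η) η)

private theorem VM_succ (Y : Env → ℤ) (n i : ℕ) (η : Env) :
    VM_S F Y n (i + 1) η = VM_S F Y n i η + Y (F.shp (((i * n : ℕ) : ℤ), VM_S F Y n i η) η) := rfl

private theorem VM_shp_meas (b : Pt) : Measurable (F.shp b) := (mp_shp F b).measurable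

private theorem VM_comp {α : Type} [MeasurableSpace α] {S : Env → ℤ} (hS : Measurable S) {g : Env → α} (hg : Measurable g)
    (t : ℤ) : Measurable fun η => g (F.shp (t, S η) η) := by
  have h1 : Measurable fun p : ℤ × Env => g (F.shp (t, p.1) p.2) :=
    measurable_from_prod_countable_right fun y => hg.comp (VM_shp_meas (F := F) (t, y))
  exact h1.comp (hS.prodMk measurable_id)

variable {Y : Env → ℤ} {K n : ℕ}

private theorem VM_S_meas (hY : Measurable Y) (i : ℕ) : Measurable (VM_S F Y n i) := by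
  induction i with
  | zero => exact measurable_const
  | succ i ih => exact ih.add (VM_comp ih hY _)

private theorem VM_S_bd (hK : ∀ η, |Y η| ≤ K) (i : ℕ) (η : Env) : |VM_S F Y n i η| ≤ (i * K : ℕ) := by
  induction i with
  | zero => simp [VM_S]
  | succ i ih =>
    rw [VM_succ]
    refine (abs_add_le _ _).trans ((add_le_add ih (hK _)).trans (le_of_eq ?_))
    push_cast
    ring

private theorem VM_S_dep (hYd : DependsOn Y (F.co.slab 0 n)) (i : ℕ) :
    DependsOn (VM_S F Y n i) (F.co.slab 0 ((i * n : ℕ) : ℤ)) := by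
  induction i with
  | zero => intro η η' _; rfl
  | succ i ih =>
    intro η η' h
    have h1 : VM_S F Y n i η = VM_S F Y n i η' := by
      refine ih fun e he => h e (F.co.slab_mono le_rfl ?_ he)
      push_cast
      nlinarith [Int.natCast_nonneg n]
    rw [VM_succ, VM_succ, h1]
    congr 1
    have h2 : DependsOn (fun η => ((Y η : ℤ) : ℝ)) (F.co.slab 0 n) := by
      intro η η' h
      have := hYd h
      simp only [this]
    have h4 : ∀ e ∈ F.co.slab ((i * n : ℕ) : ℤ) (((i * n : ℕ) : ℤ) + n), η e = η' e := fun e he => h e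
      (F.co.slab_mono (Int.natCast_nonneg _) (by push_cast; linarith) he)
    have h3 := VM_dep_sh h2 ((i * n : ℕ) : ℤ) (VM_S F Y n i η') h4
    have h5 : ((Y (F.shp (((i * n : ℕ) : ℤ), VM_S F Y n i η') η) : ℤ) : ℝ) =
        Y (F.shp (((i * n : ℕ) : ℤ), VM_S F Y n i η') η') := h3
    exact_mod_cast h5

/-- The next block is independent of the past. -/
private theorem VM_prod (hY : Measurable Y) (hYd : DependsOn Y (F.co.slab 0 n)) (hK : ∀ η, |Y η| ≤ K) (i : ℕ) (φ : ℤ → ℝ)
    {g : Env → ℝ} (hg : Measurable g) (hgd : DependsOn g (F.co.slab 0 n)) {C : ℝ} (hgC : ∀ η, |g η| ≤ C) :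
    ∫ η, φ (VM_S F Y n i η) * g (F.shp (((i * n : ℕ) : ℤ), VM_S F Y n i η) η) ∂(law F) =
      (∫ η, φ (VM_S F Y n i η) ∂(law F)) * ∫ η, g η ∂(law F) := by
  classical
  have hSm := VM_S_meas (F := F) (n := n) hY i
  have hI : ∀ η, VM_S F Y n i η ∈ Finset.Icc (-((i * K : ℕ) : ℤ)) ((i * K : ℕ) : ℤ) := fun η => by
    have := VM_S_bd (F := F) (n := n) hK i η
    rw [abs_le] at this
    exact Finset.mem_Icc.2 this
  obtain ⟨I, hIe⟩ : ∃ I : Finset ℤ, I = Finset.Icc (-((i * K : ℕ) : ℤ)) ((i * K : ℕ) : ℤ) := ⟨_, rfl⟩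
  rw [← hIe] at hI
  have hfm : ∀ y : ℤ, Measurable fun η => if VM_S F Y n i η = y then φ y else 0 := fun y =>
    Measurable.ite (hSm (MeasurableSet.singleton y)) measurable_const measurable_const
  have hfb : ∀ (y : ℤ) η, |if VM_S F Y n i η = y then φ y else 0| ≤ |φ y| := fun y η => by
    split_ifs
    · exact le_rfl
    · rw [abs_zero]
      exact abs_nonneg _
  have hfd : ∀ y : ℤ, DependsOn (fun η => if VM_S F Y n i η = y then φ y else 0) (F.co.slab 0 ((i * n : ℕ) : ℤ)) := by
    intro y η η' h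
    have := VM_S_dep (F := F) hYd i h
    simp only [this]
  have e1 : ∀ η, φ (VM_S F Y n i η) * g (F.shp (((i * n : ℕ) : ℤ), VM_S F Y n i η) η) =
      ∑ y ∈ I, (if VM_S F Y n i η = y then φ y else 0) * g (F.shp (((i * n : ℕ) : ℤ), y) η) := by
    intro η
    rw [Finset.sum_eq_single (VM_S F Y n i η)]
    · rw [if_pos rfl]
    · intro y _ hy
      rw [if_neg (Ne.symm hy), zero_mul]
    · intro h
      exact absurd (hI η) h
  have e2 : ∀ η, φ (VM_S F Y n i η) = ∑ y ∈ I, (if VM_S F Y n i η = y then φ y else 0) := by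
    intro η
    rw [Finset.sum_eq_single (VM_S F Y n i η)]
    · rw [if_pos rfl]
    · intro y _ hy
      rw [if_neg (Ne.symm hy)]
    · intro h
      exact absurd (hI η) h
  have hgm : ∀ y : ℤ, Measurable fun η => g (F.shp (((i * n : ℕ) : ℤ), y) η) := fun y =>
    hg.comp (VM_shp_meas (F := F) _)
  simp_rw [e1, e2]
  rw [integral_finsetSum, integral_finsetSum, Finset.sum_mul]
  · refine Finset.sum_congr rfl fun y _ => ?_
    rw [integral_indep (hfm y) (hgm y) (hfd y) (VM_dep_sh hgd ((i * n : ℕ) : ℤ) y) (F.co.slab_disjoint le_rfl)]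
    congr 1
    exact shp_int hg (((i * n : ℕ) : ℤ), y)
  · intro y _
    exact VM_int (hfm y) (hfb y)
  · intro y _
    refine VM_int ((hfm y).mul (hgm y)) (C := |φ y| * C) fun η => ?_
    rw [abs_mul]
    exact mul_le_mul (hfb y η) (hgC _) (abs_nonneg _) (abs_nonneg _)

/-- The variance of the walk. -/
private theorem VM_var (hY : Measurable Y) (hYd : DependsOn Y (F.co.slab 0 n)) (hK : ∀ η, |Y η| ≤ K) (i : ℕ) :
    ∫ η, ((VM_S F Y n i η : ℝ) - i * ∫ η, (Y η : ℝ) ∂(law F)) ^ 2 ∂(law F) ≤ i * (2 * K) ^ 2 := by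
  obtain ⟨m, hm⟩ : ∃ m : ℝ, m = ∫ η, (Y η : ℝ) ∂(law F) := ⟨_, rfl⟩
  rw [← hm]
  have hYm : Measurable fun η => (Y η : ℝ) := (measurable_of_countable _).comp hY
  have hYK : ∀ η, |(Y η : ℝ)| ≤ K := fun η => by exact_mod_cast hK η
  have hYi : Integrable (fun η => (Y η : ℝ)) (law F) := VM_int hYm hYK
  have hmK : |m| ≤ K := by
    rw [hm]
    refine (abs_integral_le_integral_abs).trans ?_
    refine (integral_mono hYi.abs (integrable_const _) hYK).trans (le_of_eq ?_)
    rw [integral_const, probReal_univ, one_smul]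
  have hg0 : ∫ η, ((Y η : ℝ) - m) ∂(law F) = 0 := by
    rw [integral_sub hYi (integrable_const _), integral_const, probReal_univ, one_smul, ← hm, sub_self]
  have hgm : Measurable fun η => (Y η : ℝ) - m := hYm.sub_const _
  have hgd : DependsOn (fun η => (Y η : ℝ) - m) (F.co.slab 0 n) := by
    intro η η' h
    have := hYd h
    simp only [this]
  have hgC : ∀ η, |(Y η : ℝ) - m| ≤ 2 * K := fun η => by
    have h1 := hYK η
    rw [abs_le] at h1 hmK ⊢
    constructor <;> linarith only [h1.1, h1.2, hmK.1, hmK.2]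
  have hg2m : Measurable fun η => ((Y η : ℝ) - m) ^ 2 := hgm.pow_const 2
  have hg2d : DependsOn (fun η => ((Y η : ℝ) - m) ^ 2) (F.co.slab 0 n) := by
    intro η η' h
    have := hYd h
    simp only [this]
  have hg2C : ∀ η, |((Y η : ℝ) - m) ^ 2| ≤ (2 * K) ^ 2 := fun η => by
    rw [abs_pow]
    exact pow_le_pow_left₀ (abs_nonneg _) (hgC η) 2
  induction i with
  | zero => simp [VM_S]
  | succ i ih =>
    have hSm := VM_S_meas (F := F) (n := n) hY i
    have hSR : Measurable fun η => (VM_S F Y n i η : ℝ) - i * m := ((measurable_of_countable _).comp hSm).sub_const _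
    have hSC : ∀ η, |(VM_S F Y n i η : ℝ) - i * m| ≤ 2 * (i * K) := fun η => by
      have h1 : |(VM_S F Y n i η : ℝ)| ≤ i * K := by exact_mod_cast VM_S_bd (F := F) (n := n) hK i η
      have h2 : |(i : ℝ) * m| ≤ i * K := by
        rw [abs_mul, Nat.abs_cast]
        exact mul_le_mul_of_nonneg_left hmK (Nat.cast_nonneg i)
      rw [abs_le] at h1 h2 ⊢
      constructor <;> linarith only [h1.1, h1.2, h2.1, h2.2]
    have hTm : Measurable fun η => (Y (F.shp (((i * n : ℕ) : ℤ), VM_S F Y n i η) η) : ℝ) - m := VM_comp hSm hgm _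
    have e1 : ∀ η, ((VM_S F Y n (i + 1) η : ℝ) - ((i + 1 : ℕ) : ℝ) * m) ^ 2 =
        ((VM_S F Y n i η : ℝ) - i * m) ^ 2 +
        ((2 * ((VM_S F Y n i η : ℝ) - i * m)) * ((Y (F.shp (((i * n : ℕ) : ℤ), VM_S F Y n i η) η) : ℝ) - m) +
          1 * ((Y (F.shp (((i * n : ℕ) : ℤ), VM_S F Y n i η) η) : ℝ) - m) ^ 2) := by
      intro η
      rw [VM_succ]
      push_cast
      ring
    have h2 := VM_prod (F := F) hY hYd hK i (fun y => 2 * ((y : ℝ) - i * m)) hgm hgd hgC
    have h3 := VM_prod (F := F) hY hYd hK i (fun _ => 1) hg2m hg2d hg2C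
    rw [hg0, mul_zero] at h2
    rw [integral_const, probReal_univ, one_smul, one_mul] at h3
    simp_rw [e1]
    rw [integral_add, integral_add, h2, h3, zero_add]
    · have h4 : ∫ η, ((Y η : ℝ) - m) ^ 2 ∂(law F) ≤ (2 * K) ^ 2 := by
        refine (integral_mono (VM_int hg2m hg2C) (integrable_const ((2 * (K : ℝ)) ^ 2))
          fun η => (le_abs_self _).trans (hg2C η)).trans (le_of_eq ?_)
        rw [integral_const, probReal_univ, one_smul]
      push_cast
      linarith only [ih, h4]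
    · refine VM_int ((hSR.const_mul 2).mul hTm) (C := 2 * (2 * (i * K)) * (2 * K)) fun η => ?_
      rw [abs_mul, abs_mul, abs_two]
      exact mul_le_mul (mul_le_mul_of_nonneg_left (hSC η) zero_le_two) (hgC _) (abs_nonneg _) (by positivity)
    · refine VM_int ((hTm.pow_const 2).const_mul 1) (C := (2 * K) ^ 2) fun η => ?_
      rw [one_mul]
      exact hg2C _
    · refine VM_int (hSR.pow_const 2) (C := (2 * (i * K)) ^ 2) fun η => ?_
      rw [abs_pow]
      exact pow_le_pow_left₀ (abs_nonneg _) (hSC η) 2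
    · refine VM_int (((hSR.const_mul 2).mul hTm).add ((hTm.pow_const 2).const_mul 1))
        (C := 2 * (2 * (i * K)) * (2 * K) + (2 * K) ^ 2) fun η => ?_
      refine (abs_add_le _ _).trans (add_le_add ?_ ?_)
      · rw [abs_mul, abs_mul, abs_two]
        exact mul_le_mul (mul_le_mul_of_nonneg_left (hSC η) zero_le_two) (hgC _) (abs_nonneg _) (by positivity)
      · rw [one_mul]
        exact hg2C _

/-- The cost of the walk. -/
private theorem VM_cost (hn : 1 ≤ n) (hVY : ∀ η, VV F d η 0 n = -X F d η 0 n (Y η)) (k : ℕ) (η : Env) :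
    X F d η 0 (k * n) (VM_S F Y n k η) ≤
      -∑ j ∈ Finset.range k, VV F d (F.shp (((j * n : ℕ) : ℤ), VM_S F Y n j η) η) 0 n := by
  induction k with
  | zero =>
    rw [Finset.range_zero, Finset.sum_empty, neg_zero, zero_mul]
    exact (X_zero F d η 0).le
  | succ k ih =>
    rw [Finset.sum_range_succ, VM_succ]
    have e1 : (k + 1) * n = k * n + n := by ring
    rw [e1]
    have h1 := X_tri' F d η 0 (k * n) n (VM_S F Y n k η) (Y (F.shp (((k * n : ℕ) : ℤ), VM_S F Y n k η) η))
      (fun h => by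
        have hk : k = 0 := by
          rcases Nat.mul_eq_zero.1 h with h | h
          · exact h
          · omega
        subst hk
        rfl) (fun h => by omega)
    have h2 := hVY (F.shp (((k * n : ℕ) : ℤ), VM_S F Y n k η) η)
    rw [X_shp] at h2
    linarith only [h1, h2, ih]

private theorem VM_abs {t c : ℝ} (hc : 0 < c) : |t| ≤ t ^ 2 / (2 * c) + c / 2 := by
  have h1 : t ^ 2 / (2 * c) + c / 2 - |t| = (|t| - c) ^ 2 / (2 * c) := by
    rw [← sq_abs t]
    field_simp
    ring
  have h2 : 0 ≤ (|t| - c) ^ 2 / (2 * c) := by positivity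
  linarith only [h1, h2]

private theorem VV_abs (hd : Adm F κ d) {n : ℕ} (hn : 1 ≤ n) (η : Env) (a : Pt) : |VV F d η a n| ≤ C1 F * n + 4 * F.b := by
  have h1 := VV_upper hd η a hn
  have h2 := VV_lower hd η a hn
  have h3 := b_pos F
  rw [abs_le]
  constructor <;> linarith only [h1, h2, h3]

/-- **The mean luck is not positive.** -/
theorem VV_mean_le (hd : Adm F κ d) (ht : Touch F d) {n : ℕ} (hn : 1 ≤ n) : ∫ η, VV F d η 0 n ∂(law F) ≤ 0 := by
  obtain ⟨Y, K, hY, hYd, hK, hVY⟩ := VM_sel hd hn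
  obtain ⟨m, hm⟩ : ∃ m : ℝ, m = ∫ η, (Y η : ℝ) ∂(law F) := ⟨_, rfl⟩
  obtain ⟨v, hv⟩ : ∃ v : ℝ, v = ∫ η, VV F d η 0 n ∂(law F) := ⟨_, rfl⟩
  rw [← hv]
  by_contra hcon
  push Not at hcon
  have hb := b_pos F
  have hM : (1 : ℝ) ≤ F.co.M := by exact_mod_cast F.co.M_pos
  obtain ⟨B, hB⟩ : ∃ B : ℝ, B = 2 * F.b * F.co.M := ⟨_, rfl⟩
  have hB0 : 0 < B := by
    rw [hB]
    positivity
  have hVd : DependsOn (fun η => VV F d η 0 n) (F.co.slab 0 n) := by
    have := VV_dep F d 0 n
    simpa using this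
  -- the main inequality
  have hmain : ∀ k : ℕ, 1 ≤ k → ∀ c : ℝ, 0 < c →
      k * v ≤ B * (k * (2 * K) ^ 2 / (2 * c) + c / 2 + 1) + 4 * F.b := by
    intro k hk c hc
    obtain ⟨y, hy⟩ : ∃ y : ℤ, y = ⌊(k : ℝ) * m⌋ := ⟨_, rfl⟩
    have hy1 : |(y : ℝ) - k * m| ≤ 1 := by
      have h1 := Int.floor_le ((k : ℝ) * m)
      have h2 := Int.lt_floor_add_one ((k : ℝ) * m)
      rw [← hy] at h1 h2
      rw [abs_le]
      constructor <;> linarith only [h1, h2]
    have hkn : 1 ≤ k * n := Nat.one_le_iff_ne_zero.2 (Nat.mul_ne_zero (by omega) (by omega))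
    have hSm := VM_S_meas (F := F) (n := n) hY k
    have hSR : Measurable fun η => ((VM_S F Y n k η : ℝ) - k * m) := ((measurable_of_countable _).comp hSm).sub_const _
    have hmK : |m| ≤ K := by
      rw [hm]
      have hYm : Measurable fun η => (Y η : ℝ) := (measurable_of_countable _).comp hY
      have hYK : ∀ η, |(Y η : ℝ)| ≤ K := fun η => by exact_mod_cast hK η
      refine (abs_integral_le_integral_abs).trans ?_
      refine (integral_mono (VM_int hYm hYK).abs (integrable_const _) hYK).trans (le_of_eq ?_)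
      rw [integral_const, probReal_univ, one_smul]
    have hSC : ∀ η, |(VM_S F Y n k η : ℝ) - k * m| ≤ 2 * (k * K) := fun η => by
      have h1 : |(VM_S F Y n k η : ℝ)| ≤ k * K := by exact_mod_cast VM_S_bd (F := F) (n := n) hK k η
      have h2 : |(k : ℝ) * m| ≤ k * K := by
        rw [abs_mul, Nat.abs_cast]
        exact mul_le_mul_of_nonneg_left hmK (Nat.cast_nonneg k)
      rw [abs_le] at h1 h2 ⊢
      constructor <;> linarith only [h1.1, h1.2, h2.1, h2.2]
    have hpt : ∀ η, X F d η 0 (k * n) y ≤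
        -∑ j ∈ Finset.range k, VV F d (F.shp (((j * n : ℕ) : ℤ), VM_S F Y n j η) η) 0 n +
          (B * (((VM_S F Y n k η : ℝ) - k * m) ^ 2 / (2 * c)) + (B * (c / 2 + 1) + 4 * F.b)) := by
      intro η
      have h1 := X_end hd η 0 hkn y (VM_S F Y n k η)
      have h2 := VM_cost (F := F) (d := d) hn hVY k η
      have h3 : |(y : ℝ) - VM_S F Y n k η| ≤ 1 + |(VM_S F Y n k η : ℝ) - k * m| := by
        have := abs_sub_le (y : ℝ) (k * m) (VM_S F Y n k η)
        rw [abs_sub_comm (k * m : ℝ)] at this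
        linarith only [this, hy1]
      have h4 := VM_abs (t := (VM_S F Y n k η : ℝ) - k * m) hc
      have h5 : B * |(y : ℝ) - VM_S F Y n k η| ≤
          B * (1 + (((VM_S F Y n k η : ℝ) - k * m) ^ 2 / (2 * c) + c / 2)) :=
        mul_le_mul_of_nonneg_left (by linarith only [h3, h4]) hB0.le
      have h6 : 2 * F.b * (F.co.M * |(y : ℝ) - VM_S F Y n k η|) = B * |(y : ℝ) - VM_S F Y n k η| := by
        rw [hB]
        ring
      rw [h6] at h1
      linarith only [h1, h2, h5]
    have hVi : ∀ j : ℕ, Integrable (fun η => VV F d (F.shp (((j * n : ℕ) : ℤ), VM_S F Y n j η) η) 0 n) (law F) :=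
      fun j => VM_int (VM_comp (VM_S_meas (F := F) (n := n) hY j) (VV_meas F d 0 n) _) fun η => VV_abs hd hn _ _
    have hVv : ∀ j : ℕ, ∫ η, VV F d (F.shp (((j * n : ℕ) : ℤ), VM_S F Y n j η) η) 0 n ∂(law F) = v := by
      intro j
      have h1 := VM_prod (F := F) hY hYd hK j (fun _ => 1) (VV_meas F d 0 n) hVd fun η => VV_abs hd hn η 0
      simp only [one_mul] at h1
      rw [h1, integral_const, probReal_univ, one_smul, one_mul, hv]
    have hqi : Integrable (fun η => B * (((VM_S F Y n k η : ℝ) - k * m) ^ 2 / (2 * c))) (law F) := by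
      refine VM_int (((hSR.pow_const 2).div_const _).const_mul _) (C := B * ((2 * (k * K)) ^ 2 / (2 * c))) fun η => ?_
      rw [abs_mul, abs_of_pos hB0, abs_div, abs_pow, abs_of_pos (show 0 < 2 * c by positivity)]
      refine mul_le_mul_of_nonneg_left ?_ hB0.le
      exact div_le_div_of_nonneg_right (pow_le_pow_left₀ (abs_nonneg _) (hSC η) 2) (by positivity)
    have hneg : Integrable (fun η => -∑ j ∈ Finset.range k, VV F d (F.shp (((j * n : ℕ) : ℤ), VM_S F Y n j η) η) 0 n) (law F) :=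
      (integrable_finsetSum _ fun j _ => hVi j).neg
    have hqc : Integrable (fun η => B * (((VM_S F Y n k η : ℝ) - k * m) ^ 2 / (2 * c)) + (B * (c / 2 + 1) + 4 * F.b)) (law F) :=
      hqi.add (integrable_const _)
    have hR : ∫ η, (-∑ j ∈ Finset.range k, VV F d (F.shp (((j * n : ℕ) : ℤ), VM_S F Y n j η) η) 0 n +
        (B * (((VM_S F Y n k η : ℝ) - k * m) ^ 2 / (2 * c)) + (B * (c / 2 + 1) + 4 * F.b))) ∂(law F) =
        -(k * v) + (B * ((∫ η, ((VM_S F Y n k η : ℝ) - k * m) ^ 2 ∂(law F)) / (2 * c)) + (B * (c / 2 + 1) + 4 * F.b)) := by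
      rw [integral_add hneg hqc, integral_add hqi (integrable_const _), integral_neg,
        integral_finsetSum _ fun j _ => hVi j, integral_const_mul, integral_div, integral_const, probReal_univ, one_smul,
        Finset.sum_congr rfl fun j _ => hVv j, Finset.sum_const, Finset.card_range, nsmul_eq_mul]
    have hint := (integral_mono (X_integrable hd 0 hkn y) (hneg.add hqc) hpt).trans (le_of_eq hR)
    have hvar := VM_var (F := F) hY hYd hK k
    rw [← hm] at hvar
    have he : 0 ≤ e F d (k * n) y := by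
      refine le_trans ?_ (e_lower F d hkn y)
      exact mul_nonneg (Nat.cast_nonneg _) (ht.nn _)
    have he2 : e F d (k * n) y = ∫ η, X F d η 0 (k * n) y ∂(law F) := rfl
    rw [← he2] at hint
    have h7 : B * ((∫ η, ((VM_S F Y n k η : ℝ) - k * m) ^ 2 ∂(law F)) / (2 * c)) ≤ B * (k * (2 * K) ^ 2 / (2 * c)) := by
      refine mul_le_mul_of_nonneg_left ?_ hB0.le
      exact div_le_div_of_nonneg_right hvar (by positivity)
    linarith only [hint, he, h7]
  -- large `k`
  have hε : 0 < v / B := div_pos hcon hB0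
  obtain ⟨k, hk⟩ := exists_nat_gt ((B * ((2 * K) ^ 2 / (2 * (v / B)) + 1) + 4 * F.b) / (v / 2))
  have hk0 : (0 : ℝ) < k := by
    refine lt_of_le_of_lt ?_ hk
    have : 0 < v / 2 := by linarith only [hcon]
    positivity
  have hk1 : 1 ≤ k := by
    have : 0 < k := by exact_mod_cast hk0
    omega
  have h1 := hmain k hk1 (k * (v / B)) (by positivity)
  rw [div_lt_iff₀ (by linarith only [hcon])] at hk
  have h2 : (k : ℝ) * (2 * K) ^ 2 / (2 * (k * (v / B))) = (2 * K) ^ 2 / (2 * (v / B)) := by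
    field_simp
  have h3 : B * (k * (v / B) / 2) = k * v / 2 := by
    field_simp
  rw [h2] at h1
  have h4 : B * ((2 * (K : ℝ)) ^ 2 / (2 * (v / B)) + k * (v / B) / 2 + 1) =
      B * ((2 * K) ^ 2 / (2 * (v / B)) + 1) + B * (k * (v / B) / 2) := by ring
  rw [h4, h3] at h1
  linarith only [h1, hk]

theorem Vr_mean_le (hd : Adm F κ d) (ht : Touch F d) {n : ℕ} (hn : 1 ≤ n) : ∫ η, Vr F d η 0 n ∂(law F) ≤ 0 := by
  rw [Vr_int]
  exact VV_mean_le hd ht hn

/-- The unlucky part is at most the mean of the positive part of any cost. -/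
theorem VV_neg_le (hd : Adm F κ d) {n : ℕ} (hn : 1 ≤ n) (y : ℤ) :
    ∫ η, max (-VV F d η 0 n) 0 ∂(law F) ≤ ep F d n y := by
  refine integral_mono ((VV_integrable hd 0 hn).neg.pos_part) ((X_integrable hd 0 hn y).pos_part) fun η => ?_
  have h1 := neg_X_le_VV hd η 0 hn y
  exact max_le_max (by linarith only [h1]) le_rfl

/-- **The lucky part is at most the mean of the positive part of any cost.** -/
theorem VV_pos_le (hd : Adm F κ d) (ht : Touch F d) {n : ℕ} (hn : 1 ≤ n) (y : ℤ) :
    ∫ η, max (VV F d η 0 n) 0 ∂(law F) ≤ ep F d n y := by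
  have h1 := VV_neg_le hd hn y
  have h2 := VV_mean_le hd ht hn
  have h3 : ∀ η, max (VV F d η 0 n) 0 = VV F d η 0 n + max (-VV F d η 0 n) 0 := by
    intro η
    rcases le_total 0 (VV F d η 0 n) with h | h
    · rw [max_eq_left h, max_eq_right (by linarith only [h]), add_zero]
    · rw [max_eq_right h, max_eq_left (by linarith only [h]), add_neg_cancel]
  have hni : Integrable (fun η => max (-VV F d η 0 n) 0) (law F) := (VV_integrable hd 0 hn).neg.pos_part
  simp_rw [h3]
  rw [integral_add (VV_integrable hd 0 hn) hni]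
  linarith only [h1, h2]

theorem Vr_pos_le (hd : Adm F κ d) (ht : Touch F d) {n : ℕ} (hn : 1 ≤ n) (y : ℤ) :
    ∫ η, max (Vr F d η 0 n) 0 ∂(law F) ≤ ep F d n y := by
  refine le_trans (le_of_eq ?_) (VV_pos_le hd ht hn y)
  simp_rw [Vr_eq, neg_zero]
  exact rf_int (g := fun η => max (VV F d η 0 n) 0) ((VV_meas F d 0 n).max measurable_const)

/-- The positive part of the cost of any displacement. -/
theorem ep_le_e_add (hd : Adm F κ d) (ht : Touch F d) {n : ℕ} (hn : 1 ≤ n) (y y' : ℤ) :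
    ep F d n y ≤ e F d n y + ep F d n y' := by
  have h1 := VV_pos_le hd ht hn y'
  have h2 : ep F d n y ≤ ∫ η, (X F d η 0 n y + max (VV F d η 0 n) 0) ∂(law F) := by
    refine integral_mono ((X_integrable hd 0 hn y).pos_part)
      ((X_integrable hd 0 hn y).add (VV_integrable hd 0 hn).pos_part) fun η => ?_
    have h3 := neg_X_le_VV hd η 0 hn y
    refine max_le ?_ ?_
    · exact le_add_of_nonneg_right (le_max_right _ _)
    · have := le_max_left (VV F d η 0 n) 0
      show 0 ≤ X F d η 0 n y + max (VV F d η 0 n) 0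
      linarith only [h3, this]
  have hpi : Integrable (fun η => max (VV F d η 0 n) 0) (law F) := (VV_integrable hd 0 hn).pos_part
  rw [integral_add (X_integrable hd 0 hn y) hpi] at h2
  have h4 : e F d n y = ∫ η, X F d η 0 n y ∂(law F) := rfl
  linarith only [h1, h2, h4]

/-- The mean cost is nonnegative. -/
theorem e_nonneg' (ht : Touch F d) {n : ℕ} (hn : 1 ≤ n) (y : ℤ) : 0 ≤ e F d n y :=
  (mul_nonneg (Nat.cast_nonneg _) (ht.nn _)).trans (e_lower F d hn y)

end Pool.Agent.W_1b8d5d_p
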