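import Pool.Agent.W_1b8d5d_p.HfE99
import Pool.Agent.W_1b8d5d_h57p.TubeC

/-!
MP_1b8d5d_pr, Track P, (hF2): the predicates (TF) (cheap tubes at the two edges) and (REC) (the record trick).
-/

namespace Pool.Agent.W_1b8d5d_p

open MeasureTheory Set
open Pool.Agent.W_1b8d5d_h57p (wv HasT XT)

noncomputable section

/-- **(TF)**: cheap tubes of two slopes at a distance of at least `c7 v`, at all durations in `[N / 4, N]`, `N = 2 ^ (x + h)`. -/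
def TFH (θ A : ℝ) (F : Fm) (Ds : Set Dr) : Prop :=
  ∃ (c7 C7 : ℝ) (h0 : ℕ), 0 < c7 ∧ 0 < C7 ∧ ∀ D : ℝ, 0 < D → ∀ h : ℕ, h0 ≤ h →
    ∃ (L x1 : ℕ) (δ : ℝ), 0 < δ ∧ ∀ d ∈ Ds, ∀ x : ℕ, x1 ≤ x →
      (∀ j : ℕ, j ≤ L → gg F d (x + j) ≤ gg F d x + θ * j) → ff A F d (x + L) < ff A F d x + δ →
      ∃ sp sm : ℝ, c7 * vA A F d (2 ^ x) ≤ sp - sm ∧ |sp - d.v| ≤ C7 * vA A F d (2 ^ x) ∧
        |sm - d.v| ≤ C7 * vA A F d (2 ^ x) ∧ ∀ T : ℕ, 2 ^ (x + h) ≤ 4 * T → T ≤ 2 ^ (x + h) → ∀ s : ℝ, s = sp ∨ s = sm →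
          HasT F (wv d s) (D * (vA A F d (2 ^ x) * 2 ^ x)) T ⌊s * T⌋ ∧
            ∫ η, XT F (wv d s) (D * (vA A F d (2 ^ x) * 2 ^ x)) η 0 T ⌊s * T⌋ ∂(law F) ≤ C7 * EE F d (2 ^ (x + h))

/-- **(REC)**: the record trick along one tube, references of duration `t` and of the cheapest displacement, pieces of duration
`p + t`. -/
def RecH (F : Fm) (Ds : Set Dr) : Prop :=
  ∀ S0 : ℝ, ∃ C : ℝ, 0 ≤ C ∧ ∀ d ∈ Ds, ∀ (s D σ : ℝ) (t p k : ℕ) (Z : ℤ), |s| ≤ S0 → 0 < D → σ = 1 ∨ σ = -1 → 1 ≤ t →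
    t + 1 ≤ p → 1 ≤ k →
    2 * D + C ≤ σ * (s * t - xs F d t) → HasT F (wv d s) D (k * p + t) Z →
    ∃ xx : ℕ → ℤ, (∀ i : ℕ, |(xx i : ℝ) - (s * (i * p) + σ * (D + C / 2))| ≤ 1) ∧
      ∑ i ∈ Finset.range k, e F d (p + t) (xx (i + 1) + xs F d t - xx i) ≤
        ∫ η, XT F (wv d s) D η 0 (k * p + t) Z ∂(law F) + (k - 1) * e F d t (xs F d t)

end

end Pool.Agent.W_1b8d5d_p
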