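import Pool.Agent.W_1b8d5d_p.UnitS
import Pool.Agent.W_1b8d5d_h4p.ESz

/-!
MP_1b8d5d_pr, Track P. The unit is `o(n)`, uniformly in the direction.
-/

namespace Pool.Agent.W_1b8d5d_p

open MeasureTheory Set
open Pool.Agent.W_1b8d5d_h4p (LawH CV CV_nonneg var_X)

noncomputable section

variable {F : Fm} {κ K : ℝ} {A : Set Dr}

/-- The units are `o(n)`, uniformly in the direction. -/
def Rate (F : Fm) (A : Set Dr) : Prop := ∀ ε : ℝ, 0 < ε → ∃ n0 : ℕ, ∀ d ∈ A, ∀ n : ℕ, n0 ≤ n → EE F d n ≤ ε * n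

/-- The positive part. -/
theorem ep_le_var {c0 C0 : ℝ} (hL : LawH F c0 C0) {d : Dr} (hd : Adm F κ d) {n : ℕ} (hn : 1 ≤ n) (y : ℤ) {s : ℝ}
    (hs : 0 < s) : ep F d n y ≤ max (e F d n y) 0 + (CV F * (n + |(y : ℝ)|) / s + s) := by
  have h1 := var_X hL d hn y
  have hi := X_integrable hd 0 hn y
  have hi2 : Integrable (fun η => (X F d η 0 n y - e F d n y) ^ 2) (law F) := by
    refine Integrable.of_bound (((X_meas F d 0 n y).sub_const _).pow_const 2).aestronglyMeasurable
      ((C1 F * n + 2 * F.b * (F.co.M * |(y : ℝ)|) + 4 * F.b + |e F d n y|) ^ 2)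
      (Filter.Eventually.of_forall fun η => ?_)
    rw [Real.norm_eq_abs, abs_pow]
    refine pow_le_pow_left₀ (abs_nonneg _) ?_ 2
    have := abs_X_le hd η 0 hn y
    exact (abs_sub _ _).trans (by linarith)
  have h2 : ep F d n y ≤ ∫ η, ((X F d η 0 n y - e F d n y) ^ 2 / s + (max (e F d n y) 0 + s)) ∂(law F) := by
    refine integral_mono hi.pos_part ((hi2.div_const s).add (integrable_const _)) fun η => ?_
    have h3 : |X F d η 0 n y - e F d n y| ≤ (X F d η 0 n y - e F d n y) ^ 2 / s + s := by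
      rw [← sq_abs]
      set u := |X F d η 0 n y - e F d n y| with hu
      have hu0 : 0 ≤ u := abs_nonneg _
      rw [← sub_le_iff_le_add, le_div_iff₀ hs]
      nlinarith [sq_nonneg (u - s)]
    have h4 := le_abs_self (X F d η 0 n y - e F d n y)
    have h5 := le_max_left (e F d n y) 0
    have h6 : 0 ≤ (X F d η 0 n y - e F d n y) ^ 2 / s + s := (abs_nonneg _).trans h3
    refine max_le ?_ ?_
    · simp only
      linarith
    · simp only
      linarith [le_max_right (e F d n y) 0]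
  have hc : ∀ c : ℝ, ∫ _η, c ∂(law F) = c := fun c => by
    rw [integral_const, probReal_univ, one_smul]
  rw [integral_add (hi2.div_const s) (integrable_const _), integral_div, hc] at h2
  have h3 := div_le_div_of_nonneg_right h1 hs.le
  linarith

theorem es_rough {d : Dr} (hd : Adm F κ d) (n : ℕ) : es F d n ≤ C1 F * n + 4 * F.b := by
  have hb := b_pos F
  have hC := C1_pos F
  rcases Nat.eq_zero_or_pos n with h | h
  · subst h
    rw [es_zero]
    simp
    exact hb.le
  refine (es_le F d n 0).trans ?_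
  have h1 : ep F d n 0 ≤ ∫ _η, (C1 F * n + 4 * F.b) ∂(law F) := by
    refine integral_mono (X_integrable hd 0 h 0).pos_part (integrable_const _) fun η => ?_
    have h2 := X_upper hd η 0 h 0
    simp only [Int.cast_zero, abs_zero, mul_zero, add_zero] at h2
    exact max_le h2 (by positivity)
  rwa [integral_const, probReal_univ, one_smul] at h1

theorem Dirs.rate (h : Dirs F κ K A) {c0 C0 : ℝ} (hL : LawH F c0 C0) : Rate F A := by
  intro ε hε
  have hb := b_pos F
  have hC := C1_pos F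
  have hCV := CV_nonneg F
  obtain ⟨δ, hδ, hδ1⟩ := h.small (ε := ε / 8) (by positivity)
  obtain ⟨x, hx, hx1, hx2⟩ : ∃ x : ℝ, 0 < x ∧ x ≤ δ ∧ x ≤ 1 := ⟨min δ 1, lt_min hδ one_pos, min_le_left _ _, min_le_right _ _⟩
  obtain ⟨N1, hN1, hN1'⟩ := hδ1 x hx hx1
  obtain ⟨N2, hN2⟩ := exists_nat_ge (1 / x)
  -- large durations
  have hlarge : ∀ d ∈ A, ∀ n : ℕ, max N1 N2 ≤ n → es F d n ≤ ε / 4 * n + CV F * (|K| + 2) * (8 / ε) := by
    intro d hd n hn
    have hn1 : 1 ≤ n := hN1.trans ((le_max_left _ _).trans hn)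
    have hnp : (0 : ℝ) < n := by exact_mod_cast hn1
    have h1x : 1 ≤ x * n := by
      have h1 : (N2 : ℝ) ≤ n := by exact_mod_cast (le_max_right _ _).trans hn
      have h2 : 1 / x ≤ n := hN2.trans h1
      rw [div_le_iff₀ hx] at h2
      linarith
    have h1 := hN1' d hd n ((le_max_left _ _).trans hn) (md d n) ((abs_md d n).trans h1x)
    have h2 := ep_le_var hL (h.adm d hd) hn1 (md d n) (s := ε / 8 * n) (by positivity)
    have h3 := es_le F d n (md d n)
    have h4 : max (e F d n (md d n)) 0 ≤ ε / 8 * n := by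
      refine max_le (h1.trans ?_) (by positivity)
      have : x * n ≤ 1 * n := mul_le_mul_of_nonneg_right hx2 hnp.le
      have := mul_le_mul_of_nonneg_left this (show 0 ≤ ε / 8 by positivity)
      linarith
    have h5 : |(md d n : ℝ)| ≤ (|K| + 1) * n := by
      have h6 := abs_add_le ((md d n : ℝ) - d.v * n) (d.v * n)
      rw [sub_add_cancel, abs_mul, Nat.abs_cast] at h6
      have h7 := abs_md d n
      have h8 := mul_le_mul_of_nonneg_right ((h.slope d hd).trans (le_abs_self K)) hnp.le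
      have h9 : (1 : ℝ) ≤ n := by exact_mod_cast hn1
      linarith
    have h6 : CV F * (n + |(md d n : ℝ)|) / (ε / 8 * n) ≤ CV F * (|K| + 2) * (8 / ε) := by
      rw [div_le_iff₀ (by positivity)]
      have h7 : CV F * (n + |(md d n : ℝ)|) ≤ CV F * ((|K| + 2) * n) := mul_le_mul_of_nonneg_left (by linarith) hCV
      refine h7.trans (le_of_eq ?_)
      field_simp
    linarith
  obtain ⟨C, hCdef⟩ : ∃ C : ℝ, C = max (CV F * (|K| + 2) * (8 / ε)) (C1 F * ((max N1 N2 : ℕ) : ℝ) + 4 * F.b) + Cr F := ⟨_, rfl⟩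
  obtain ⟨N3, hN3⟩ := exists_nat_ge (2 * C / ε)
  refine ⟨N3, fun d hd n hn => EE_le F d fun m hm => ?_⟩
  have hmn : (m : ℝ) ≤ n := by exact_mod_cast hm
  have hC' : C ≤ ε / 2 * n := by
    have h1 : (N3 : ℝ) ≤ n := by exact_mod_cast hn
    have h2 : 2 * C / ε ≤ n := hN3.trans h1
    rw [div_le_iff₀ hε] at h2
    linarith
  have hn0 : 0 ≤ ε * n := by positivity
  rcases le_total (max N1 N2) m with h1 | h1
  · have h2 := hlarge d hd m h1
    have h3 := le_max_left (CV F * (|K| + 2) * (8 / ε)) (C1 F * ((max N1 N2 : ℕ) : ℝ) + 4 * F.b)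
    have h4 := mul_le_mul_of_nonneg_left hmn (show 0 ≤ ε / 4 by positivity)
    linarith
  · have h2 := es_rough (h.adm d hd) m
    have h3 := le_max_right (CV F * (|K| + 2) * (8 / ε)) (C1 F * ((max N1 N2 : ℕ) : ℝ) + 4 * F.b)
    have h4 : C1 F * (m : ℝ) ≤ C1 F * ((max N1 N2 : ℕ) : ℝ) :=
      mul_le_mul_of_nonneg_left (by exact_mod_cast h1) hC.le
    linarith

end

end Pool.Agent.W_1b8d5d_p
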