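import Pool.Agent.W_1b8d5d_p.UnitV
import Pool.Agent.W_1b8d5d_p.UnitR
import Pool.Agent.W_1b8d5d_p.Wd99

/-!
MP_1b8d5d_pr, Track P. The width facts: `vA` is the length of the level set, `w = n vA` is nondecreasing, `EE` grows at most as
`w`, uniform limits, and the inputs of the chain about `gg`, `ff`.
-/

namespace Pool.Agent.W_1b8d5d_p

open MeasureTheory Set
open Pool.Agent.W_1b8d5d_h85 (V nm dir Edge Env grid ke wedges cost Bd sh rf)
open Pool.Agent.W_1b8d5d_h4p (LawH)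

noncomputable section

private def vW (A : ℝ) (F : Fm) (d : Dr) (n : ℕ) : ℝ := wd (J F d) (A * EE F d n / n)

variable {F : Fm} {κ K A c0 C0 : ℝ} {d : Dr} {Ds : Set Dr}

/-- The Lipschitz constant of the rate function. -/
def LJ (F : Fm) : ℝ := CT F + F.b * F.co.M

theorem LJ_pos (F : Fm) : 0 < LJ F := by
  have h1 := CT_pos F
  have h2 := b_pos F
  have h3 : (1 : ℝ) ≤ F.co.M := by exact_mod_cast F.co.M_pos
  unfold LJ
  positivity

theorem J_lip (hd : Adm F κ d) (ht : Touch F d) (x : ℝ) : J F d x ≤ LJ F * |x| := by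
  have h0 := ht.zero
  have h1 := le_of_abs_le (mu_lip F (d.v + x) (d.v + 0))
  have h2 := hd.be_le
  have h3 : -(be F.co d * x) ≤ F.b * F.co.M * |x| := by
    have h4 := neg_abs_le (be F.co d * x)
    rw [abs_mul] at h4
    have h5 := mul_le_mul_of_nonneg_right h2 (abs_nonneg x)
    linarith
  have e1 : d.v + x - (d.v + 0) = x := by ring
  rw [e1] at h1
  unfold J at h0 ⊢
  unfold LJ
  rw [add_mul]
  nlinarith

/-! ### The width at one time -/

/-- A direction with strictly positive growth. -/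
def Gw (F : Fm) (d : Dr) : Prop := ∃ r j : ℝ, 0 < j ∧ ∀ x, r ≤ |x| → j * |x| ≤ J F d x

theorem Dirs.gw (h : Dirs F κ K Ds) (hd : d ∈ Ds) : Gw F d := by
  obtain ⟨j, hj, h1⟩ := h.strict 1 one_pos
  exact ⟨1, j, hj, fun x hx => h1 d hd x hx⟩

private theorem vW_nonneg (n : ℕ) : 0 ≤ vW A F d n := wd_nonneg _

private theorem vW_lower (hd : Adm F κ d) (ht : Touch F d) (hg : Gw F d) (hA : 0 ≤ A) {n : ℕ} (hn : 1 ≤ n) :
    2 * (A * EE F d n / n / LJ F) ≤ vW A F d n := by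
  obtain ⟨r, j, hj, h⟩ := hg
  have h1 := EE_pos F d n
  have h2 := LJ_pos F
  refine le_wd hj h (by positivity) fun x hx => (J_lip hd ht x).trans ?_
  rw [le_div_iff₀ h2] at hx
  linarith

private theorem vW_pos (hd : Adm F κ d) (ht : Touch F d) (hg : Gw F d) (hA : 0 < A) {n : ℕ} (hn : 1 ≤ n) : 0 < vW A F d n := by
  refine lt_of_lt_of_le ?_ (vW_lower hd ht hg hA.le hn)
  have h1 := EE_pos F d n
  have h2 := LJ_pos F
  have h3 : (0 : ℝ) < n := by exact_mod_cast hn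
  positivity

/-- The mean unit per time along multiples. -/
theorem EE_div_mul (F : Fm) (d : Dr) {n k : ℕ} (hn : 1 ≤ n) (hk : 1 ≤ k) :
    EE F d (k * n) / (k * n : ℕ) ≤ EE F d n / n := by
  have h1 := EE_mul F d n hk
  have h3 : (0 : ℝ) < n := by exact_mod_cast hn
  have h4 : (0 : ℝ) < k := by exact_mod_cast hk
  push_cast
  rw [div_le_div_iff₀ (by positivity) h3]
  nlinarith

theorem EE_div_two (F : Fm) (d : Dr) {n n' : ℕ} (hn : 1 ≤ n) (h : n ≤ n') : EE F d n' / n' ≤ 2 * (EE F d n / n) := by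
  obtain ⟨k, hk⟩ : ∃ k : ℕ, k = n' / n + 1 := ⟨_, rfl⟩
  have h1 : n' ≤ k * n := by
    rw [hk]
    have := Nat.lt_div_mul_add (a := n') (b := n) (by omega)
    nlinarith
  have h2 : k * n ≤ 2 * n' := by
    rw [hk]
    have := Nat.div_mul_le_self n' n
    nlinarith
  have h3 := (EE_mono F d h1).trans (EE_mul F d n (by rw [hk]; exact Nat.succ_le_succ (Nat.zero_le _) : 1 ≤ k))
  have h4 : (0 : ℝ) < n := by exact_mod_cast hn
  have h5 : (0 : ℝ) < n' := by exact_mod_cast (hn.trans h)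
  have h6 : (k : ℝ) * n ≤ 2 * n' := by exact_mod_cast h2
  have h7 := EE_pos F d n
  rw [← mul_div_assoc, div_le_div_iff₀ h5 h4]
  nlinarith

/-- The width decreases along multiples. -/
private theorem vW_mul_le (hg : Gw F d) (hA : 0 ≤ A) {n k : ℕ} (hn : 1 ≤ n) (hk : 1 ≤ k) : vW A F d (k * n) ≤ vW A F d n := by
  obtain ⟨r, j, hj, h⟩ := hg
  refine wd_mono hj h ?_
  rw [mul_div_assoc, mul_div_assoc]
  exact mul_le_mul_of_nonneg_left (EE_div_mul F d hn hk) hA

/-- The width at later times. -/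
private theorem vW_le_two (ht : Touch F d) (hg : Gw F d) (hA : 0 ≤ A) {n n' : ℕ} (hn : 1 ≤ n) (h : n ≤ n') :
    vW A F d n' ≤ 2 * vW A F d n := by
  obtain ⟨r, j, hj, h1⟩ := hg
  refine (wd_mono hj h1 ?_).trans (wd_mul hj h1 (J_convex F d) ht.zero one_le_two)
  have h2 := mul_le_mul_of_nonneg_left (EE_div_two F d hn h) hA
  calc A * EE F d n' / n' = A * (EE F d n' / n') := by ring
    _ ≤ A * (2 * (EE F d n / n)) := h2
    _ = 2 * (A * EE F d n / n) := by ring

/-- The width `w n = n vW n` is nondecreasing. -/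
private theorem vW_w (ht : Touch F d) (hg : Gw F d) (hA : 0 ≤ A) {n n' : ℕ} (hn : 1 ≤ n) (h : n ≤ n') :
    n * vW A F d n ≤ n' * vW A F d n' := by
  obtain ⟨r, j, hj, h1⟩ := hg
  have h4 : (0 : ℝ) < n := by exact_mod_cast hn
  have h5 : (0 : ℝ) < n' := by exact_mod_cast (hn.trans h)
  have h6 : (n : ℝ) ≤ n' := by exact_mod_cast h
  have h2 : vW A F d n ≤ (n' / n : ℝ) * vW A F d n' := by
    refine (wd_mono hj h1 ?_).trans (wd_mul hj h1 (J_convex F d) ht.zero (by rw [le_div_iff₀ h4]; linarith))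
    have e1 : (n' / n : ℝ) * (A * EE F d n' / n') = A * EE F d n' / n := by field_simp
    rw [e1]
    exact div_le_div_of_nonneg_right (mul_le_mul_of_nonneg_left (EE_mono F d h) hA) h4.le
  calc n * vW A F d n ≤ n * ((n' / n : ℝ) * vW A F d n') := mul_le_mul_of_nonneg_left h2 h4.le
    _ = n' * vW A F d n' := by field_simp

private theorem vW_two (ht : Touch F d) (hg : Gw F d) (hA : 0 ≤ A) {n : ℕ} (hn : 1 ≤ n) : vW A F d n ≤ 2 * vW A F d (2 * n) := by
  have h1 := vW_w (A := A) ht hg hA hn (show n ≤ 2 * n by omega)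
  have h4 : (0 : ℝ) < n := by exact_mod_cast hn
  push_cast at h1
  have h2 : (n : ℝ) * vW A F d n ≤ n * (2 * vW A F d (2 * n)) := by linarith
  exact le_of_mul_le_mul_left h2 h4

/-- **The units grow at most as the widths.** -/
private theorem vW_EE (ht : Touch F d) (hg : Gw F d) {n k : ℕ} (hn : 1 ≤ n) (hk : 1 ≤ k) :
    EE F d (k * n) * (n * vW A F d n) ≤ (k * n : ℕ) * vW A F d (k * n) * EE F d n := by
  obtain ⟨r, j, hj, h1⟩ := hg
  have h4 : (0 : ℝ) < n := by exact_mod_cast hn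
  have hkn : 1 ≤ k * n := Nat.one_le_iff_ne_zero.2 (Nat.mul_ne_zero (by omega) (by omega))
  have h5 : (0 : ℝ) < (k * n : ℕ) := by exact_mod_cast hkn
  have hE := EE_pos F d n
  have hE' := EE_pos F d (k * n)
  have hc : 1 ≤ (EE F d n / n) / (EE F d (k * n) / (k * n : ℕ)) := by
    rw [one_le_div (by positivity)]
    exact EE_div_mul F d hn hk
  have h2 : vW A F d n ≤ (EE F d n / n) / (EE F d (k * n) / (k * n : ℕ)) * vW A F d (k * n) := by
    refine (wd_mono hj h1 (le_of_eq ?_)).trans (wd_mul hj h1 (J_convex F d) ht.zero hc)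
    field_simp
  have h3 := mul_le_mul_of_nonneg_left h2 (show (0 : ℝ) ≤ EE F d (k * n) * n by positivity)
  calc EE F d (k * n) * (n * vW A F d n) = EE F d (k * n) * n * vW A F d n := by ring
    _ ≤ EE F d (k * n) * n * ((EE F d n / n) / (EE F d (k * n) / (k * n : ℕ)) * vW A F d (k * n)) := h3
    _ = (k * n : ℕ) * vW A F d (k * n) * EE F d n := by field_simp

/-- The same for all later times, with a factor `2`. -/
private theorem vW_EE_two (ht : Touch F d) (hg : Gw F d) (hA : 0 ≤ A) {n n' : ℕ} (hn : 1 ≤ n) (h : n ≤ n') :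
    EE F d n' * (n * vW A F d n) ≤ 2 * (n' * vW A F d n' * EE F d n) := by
  obtain ⟨k, hk⟩ : ∃ k : ℕ, k = n' / n := ⟨_, rfl⟩
  have hk1 : 1 ≤ k := by
    rw [hk]
    exact (Nat.one_le_div_iff (by omega)).2 h
  have h1 : k * n ≤ n' := by
    rw [hk]
    exact Nat.div_mul_le_self n' n
  have h2 : n' ≤ 2 * (k * n) := by
    rw [hk]
    have := Nat.lt_div_mul_add (a := n') (b := n) (by omega)
    rw [← hk] at this ⊢
    nlinarith
  have h3 := vW_EE (A := A) ht hg hn hk1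
  have hkn : 1 ≤ k * n := Nat.one_le_iff_ne_zero.2 (Nat.mul_ne_zero (by omega) (by omega))
  have h4 := vW_w (A := A) ht hg hA hkn h1
  have h5 : EE F d n' ≤ 2 * EE F d (k * n) := by
    have h6 := (EE_mono F d h2).trans (EE_mul F d (k * n) one_le_two)
    exact_mod_cast h6
  have h6 : 0 ≤ (n : ℝ) * vW A F d n := mul_nonneg (Nat.cast_nonneg _) (vW_nonneg n)
  have h7 := mul_le_mul_of_nonneg_right h5 h6
  have h8 := mul_le_mul_of_nonneg_right h4 (EE_pos F d n).le
  linarith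

/-! ### The bridge -/

/-- **The width is the length of the level set.** -/
theorem Dirs.vA_wd (hD : Dirs F κ K Ds) (hd : d ∈ Ds) (hA : 0 ≤ A) (n : ℕ) : vA A F d n = wd (J F d) (A * EE F d n / n) := by
  have h0 : 0 ≤ A * EE F d n / n := lev_nonneg hA
  have h1 : {x | J F d x ≤ A * EE F d n / n} = Icc (-vl A F d n) (vr A F d n) := by
    ext x
    rw [mem_Icc]
    exact (hD.rf hd).level_iff h0
  have h2 := hD.vr_nonneg hd hA n
  have h3 := hD.vl_nonneg hd hA n
  unfold wd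
  rw [h1, Real.volume_real_Icc_of_le (by linarith)]
  unfold vA
  ring

section width

variable (hD : Dirs F κ K Ds) (hd : d ∈ Ds)

include hD hd

private theorem vW_eq (hA : 0 ≤ A) (n : ℕ) : vA A F d n = vW A F d n := hD.vA_wd hd hA n

theorem Dirs.vA_pos (hA : 0 < A) {n : ℕ} (hn : 1 ≤ n) : 0 < vA A F d n := by
  rw [vW_eq hD hd hA.le]
  exact vW_pos (hD.adm d hd) (hD.touch d hd) (hD.gw hd) hA hn

/-- A lower bound of the width: `n vA ≥ 2 A EE / L`. -/
theorem Dirs.vA_lower (hA : 0 ≤ A) {n : ℕ} (hn : 1 ≤ n) : 2 * (A * EE F d n / n / LJ F) ≤ vA A F d n := by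
  rw [vW_eq hD hd hA]
  exact vW_lower (hD.adm d hd) (hD.touch d hd) (hD.gw hd) hA hn

/-- The width decreases along multiples. -/
theorem Dirs.vA_mul_le (hA : 0 ≤ A) {n k : ℕ} (hn : 1 ≤ n) (hk : 1 ≤ k) : vA A F d (k * n) ≤ vA A F d n := by
  rw [vW_eq hD hd hA, vW_eq hD hd hA]
  exact vW_mul_le (hD.gw hd) hA hn hk

/-- The width at later times. -/
theorem Dirs.vA_le_two (hA : 0 ≤ A) {n n' : ℕ} (hn : 1 ≤ n) (h : n ≤ n') : vA A F d n' ≤ 2 * vA A F d n := by
  rw [vW_eq hD hd hA, vW_eq hD hd hA]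
  exact vW_le_two (hD.touch d hd) (hD.gw hd) hA hn h

/-- The width `w n = n vA n` is nondecreasing. -/
theorem Dirs.w_mono (hA : 0 ≤ A) {n n' : ℕ} (hn : 1 ≤ n) (h : n ≤ n') : n * vA A F d n ≤ n' * vA A F d n' := by
  rw [vW_eq hD hd hA, vW_eq hD hd hA]
  exact vW_w (hD.touch d hd) (hD.gw hd) hA hn h

theorem Dirs.vA_two (hA : 0 ≤ A) {n : ℕ} (hn : 1 ≤ n) : vA A F d n ≤ 2 * vA A F d (2 * n) := by
  rw [vW_eq hD hd hA, vW_eq hD hd hA]
  exact vW_two (hD.touch d hd) (hD.gw hd) hA hn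

/-- **The units grow at most as the widths.** -/
theorem Dirs.EE_w (hA : 0 ≤ A) {n k : ℕ} (hn : 1 ≤ n) (hk : 1 ≤ k) :
    EE F d (k * n) * (n * vA A F d n) ≤ (k * n : ℕ) * vA A F d (k * n) * EE F d n := by
  rw [vW_eq hD hd hA, vW_eq hD hd hA]
  exact vW_EE (hD.touch d hd) (hD.gw hd) hn hk

/-- The same for all later times, with a factor `2`. -/
theorem Dirs.EE_w_two (hA : 0 ≤ A) {n n' : ℕ} (hn : 1 ≤ n) (h : n ≤ n') :
    EE F d n' * (n * vA A F d n) ≤ 2 * (n' * vA A F d n' * EE F d n) := by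
  rw [vW_eq hD hd hA, vW_eq hD hd hA]
  exact vW_EE_two (hD.touch d hd) (hD.gw hd) hA hn h

/-- The width as a function of the level. -/
theorem Dirs.vA_level_mono {A' : ℝ} (hA : 0 ≤ A) (h : A ≤ A') (n : ℕ) : vA A F d n ≤ vA A' F d n := by
  rw [hD.vA_wd hd hA, hD.vA_wd hd (hA.trans h)]
  obtain ⟨r, j, hj, h1⟩ := hD.gw hd
  exact wd_mono hj h1 (div_le_div_of_nonneg_right (mul_le_mul_of_nonneg_right h (EE_pos F d n).le) (Nat.cast_nonneg _))

theorem Dirs.vA_level_mul {c : ℝ} (hA : 0 ≤ A) (hc : 1 ≤ c) (n : ℕ) : vA (c * A) F d n ≤ c * vA A F d n := by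
  rw [hD.vA_wd hd hA, hD.vA_wd hd (mul_nonneg (zero_le_one.trans hc) hA)]
  obtain ⟨r, j, hj, h1⟩ := hD.gw hd
  have h2 := wd_mul (t := A * EE F d n / n) hj h1 (J_convex F d) (hD.touch d hd).zero hc
  have e1 : c * (A * EE F d n / n) = c * A * EE F d n / n := by ring
  rwa [e1] at h2

end width

/-! ### Uniform limits -/

/-- A bound of the first unit. -/
theorem ep_one_le (hd : Adm F κ d) : ep F d 1 0 ≤ F.b * (F.co.L * F.co.R + 4) + F.b * (F.co.L * F.co.R) := by
  have h1 : ∀ η, max (X F d η 0 1 0) 0 ≤ F.b * (F.co.L * F.co.R + 4) + F.b * (F.co.L * F.co.R) := by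
    intro η
    have h2 := TT_upper (c := F.co) (F.bd η) F.a0.le (b_pos F).le 0 le_rfl 0
    rw [nm_vt_n] at h2
    have h3 := hd.abs_al
    have h4 := neg_abs_le (al F.co d)
    have h5 := b_pos F
    have h6 : (0 : ℝ) ≤ F.co.L * F.co.R := by
      have h7 : (0 : ℝ) ≤ F.co.L := by exact_mod_cast (show (0 : ℤ) ≤ F.co.L by have := F.co.L_pos; omega)
      have h8 : (0 : ℝ) ≤ F.co.R := by exact_mod_cast (show (0 : ℤ) ≤ F.co.R by have := F.co.R_pos; omega)
      positivity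
    refine max_le ?_ (by positivity)
    unfold X
    push_cast at h2 ⊢
    linarith
  unfold ep
  refine (integral_mono (X_integrable hd 0 le_rfl 0).pos_part (integrable_const _) h1).trans (le_of_eq ?_)
  rw [integral_const, probReal_univ, one_smul]

/-- A bound of all units. -/
def Ku (F : Fm) : ℝ := Cr F + (F.b * (F.co.L * F.co.R + 4) + F.b * (F.co.L * F.co.R))

theorem EE_one_le (hd : Adm F κ d) : EE F d 1 ≤ Ku F := by
  have h1 := ep_one_le hd
  have h2 := (ep_nonneg F d 1 0).trans h1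
  refine EE_le F d fun m hm => ?_
  unfold Ku
  interval_cases m
  · rw [es_zero]
    linarith
  · have h3 := es_le F d 1 0
    linarith

theorem EE_le_Ku (hd : Adm F κ d) {n : ℕ} (hn : 1 ≤ n) : EE F d n ≤ n * Ku F := by
  have h1 := EE_mul F d 1 hn
  rw [mul_one] at h1
  exact h1.trans (mul_le_mul_of_nonneg_left (EE_one_le hd) (Nat.cast_nonneg _))

theorem Rate.one (hR : Rate F Ds) {ε : ℝ} (hε : 0 < ε) :
    ∃ n0 : ℕ, 1 ≤ n0 ∧ ∀ d ∈ Ds, ∀ n : ℕ, n0 ≤ n → EE F d n ≤ ε * n := by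
  obtain ⟨n0, h⟩ := hR ε hε
  exact ⟨max n0 1, le_max_right _ _, fun d hd n hn => h d hd n ((le_max_left _ _).trans hn)⟩

/-- The widths tend to `0`, uniformly in the direction. -/
theorem Dirs.vA_small (hD : Dirs F κ K Ds) (hR : Rate F Ds) (hA : 0 < A) {ε : ℝ} (hε : 0 < ε) :
    ∃ n0 : ℕ, 1 ≤ n0 ∧ ∀ d ∈ Ds, ∀ n : ℕ, n0 ≤ n → vA A F d n ≤ ε := by
  obtain ⟨j, hj, h⟩ := hD.strict (ε / 2) (by positivity)
  obtain ⟨n0, hn0, h1⟩ := Rate.one hR (ε := j * (ε / 2) / A) (by positivity)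
  refine ⟨n0, hn0, fun d hd n hn => ?_⟩
  have h2 := h1 d hd n hn
  have hn00 : (0 : ℝ) < n := by exact_mod_cast hn0.trans hn
  have h3 : A * EE F d n / n ≤ j * (ε / 2) := by
    rw [div_le_iff₀ hn00]
    have h4 := mul_le_mul_of_nonneg_left h2 hA.le
    have e1 : A * (j * (ε / 2) / A * n) = j * (ε / 2) * n := by field_simp
    linarith
  have h4 := wd_small (J := J F d) (t := A * EE F d n / n) (r := ε / 2) (by positivity) hj (fun x hx => h d hd x hx) h3
  rw [hD.vA_wd hd hA.le]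
  linarith

/-- **The widths are much larger than the units, uniformly in the direction.** -/
theorem Dirs.w_large (hD : Dirs F κ K Ds) (hR : Rate F Ds) (hA : 0 < A) (R : ℝ) :
    ∃ n0 : ℕ, 1 ≤ n0 ∧ ∀ d ∈ Ds, ∀ n : ℕ, n0 ≤ n → R * EE F d n ≤ n * vA A F d n := by
  obtain ⟨R', hR', hRR⟩ : ∃ R' : ℝ, 0 < R' ∧ R ≤ R' := ⟨max R 1, lt_max_of_lt_right one_pos, le_max_left _ _⟩
  obtain ⟨δ, hδ, h⟩ := hD.nc (A / R') (by positivity)
  obtain ⟨n0, hn0, h1⟩ := Rate.one hR (ε := δ / R') (by positivity)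
  refine ⟨n0, hn0, fun d hd n hn => ?_⟩
  have h2 := h1 d hd n hn
  have hE := EE_pos F d n
  have hn00 : (0 : ℝ) < n := by exact_mod_cast hn0.trans hn
  obtain ⟨j, hj, hs⟩ := hD.strict 1 one_pos
  have h3 : R' * EE F d n / n ≤ δ := by
    rw [div_le_iff₀ hn00]
    have h4 := mul_le_mul_of_nonneg_left h2 hR'.le
    have e1 : R' * (δ / R' * n) = δ * n := by field_simp
    linarith
  have h4 : 2 * (R' * EE F d n / n) ≤ vA A F d n := by
    rw [hD.vA_wd hd hA.le]
    refine le_wd hj (fun x hx => hs d hd x hx) (by positivity) fun x hx => ?_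
    refine (h d hd x (hx.trans h3)).trans ?_
    have h5 : A / R' * |x| ≤ A / R' * (R' * EE F d n / n) := mul_le_mul_of_nonneg_left hx (by positivity)
    refine h5.trans (le_of_eq ?_)
    field_simp
  have h5 := mul_le_mul_of_nonneg_left h4 hn00.le
  have e1 : (n : ℝ) * (2 * (R' * EE F d n / n)) = 2 * (R' * EE F d n) := by field_simp
  rw [e1] at h5
  have h6 := mul_le_mul_of_nonneg_right hRR hE.le
  have h7 : 0 < R' * EE F d n := by positivity
  linarith

/-! ### Logarithms -/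

theorem pow_gg (F : Fm) (d : Dr) (x : ℕ) : (2 : ℝ) ^ gg F d x = EE F d (2 ^ x) :=
  Real.rpow_logb two_pos (by norm_num) (EE_pos F d _)

theorem gg_mono (F : Fm) (d : Dr) : Monotone (gg F d) := fun x y h => by
  refine (Real.logb_le_logb one_lt_two (EE_pos F d _) (EE_pos F d _)).2 (EE_mono F d ?_)
  exact Nat.pow_le_pow_right (by norm_num) h

theorem gg_succ (F : Fm) (d : Dr) (x : ℕ) : gg F d (x + 1) ≤ gg F d x + 1 := by
  have h1 := EE_mul F d (2 ^ x) one_le_two
  have e1 : 2 ^ (x + 1) = 2 * 2 ^ x := by ring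
  have h2 := EE_pos F d (2 ^ x)
  have e2 : gg F d x + 1 = Real.logb 2 (2 * EE F d (2 ^ x)) := by
    rw [Real.logb_mul two_ne_zero h2.ne', Real.logb_self_eq_one one_lt_two]
    unfold gg
    ring
  rw [e2]
  refine (Real.logb_le_logb one_lt_two (EE_pos F d _) (by positivity)).2 ?_
  rw [e1]
  exact_mod_cast h1

theorem gg_add (F : Fm) (d : Dr) (x k : ℕ) : gg F d (x + k) ≤ gg F d x + k := by
  induction k with
  | zero => simp
  | succ k ih =>
    have h := gg_succ F d (x + k)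
    push_cast
    rw [← add_assoc]
    linarith

/-- The first logarithm is bounded, uniformly. -/
theorem gg_zero (hD : Dirs F κ K Ds) : ∃ G0 : ℝ, ∀ d ∈ Ds, |gg F d 0| ≤ G0 := by
  refine ⟨|Real.logb 2 (Cr F)| + |Real.logb 2 (Ku F)|, fun d hd => ?_⟩
  have h1 := EE_one_le (hD.adm d hd)
  have h2 := Cr_le_EE F d 1
  have hC := Cr_pos F
  have h3 : Real.logb 2 (Cr F) ≤ gg F d 0 := by
    unfold gg
    rw [pow_zero]
    exact (Real.logb_le_logb one_lt_two hC (EE_pos F d _)).2 h2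
  have h4 : gg F d 0 ≤ Real.logb 2 (Ku F) := by
    unfold gg
    rw [pow_zero]
    exact (Real.logb_le_logb one_lt_two (EE_pos F d _) (hC.trans_le (h2.trans h1))).2 h1
  rw [abs_le]
  have h5 := neg_abs_le (Real.logb 2 (Cr F))
  have h6 := le_abs_self (Real.logb 2 (Ku F))
  have h7 := abs_nonneg (Real.logb 2 (Cr F))
  have h8 := abs_nonneg (Real.logb 2 (Ku F))
  constructor <;> linarith

variable (hD : Dirs F κ K Ds) (hA : 0 < A) (hd : d ∈ Ds)

include hD hA hd in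
theorem pow_ff (x : ℕ) : (2 : ℝ) ^ (-ff A F d x) = vA A F d (2 ^ x) := by
  unfold ff
  rw [neg_neg]
  exact Real.rpow_logb two_pos (by norm_num) (hD.vA_pos hd hA Nat.one_le_two_pow)

include hD hA hd in
theorem ff_mono : Monotone (ff A F d) := by
  refine monotone_nat_of_le_succ fun x => ?_
  unfold ff
  have h1 := hD.vA_mul_le hd hA.le (n := 2 ^ x) (k := 2) Nat.one_le_two_pow one_le_two
  have e1 : 2 ^ (x + 1) = 2 * 2 ^ x := by ring
  refine neg_le_neg ((Real.logb_le_logb one_lt_two (hD.vA_pos hd hA Nat.one_le_two_pow)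
    (hD.vA_pos hd hA Nat.one_le_two_pow)).2 ?_)
  rw [e1]
  exact h1

include hD hA hd in
theorem ff_succ (x : ℕ) : ff A F d (x + 1) ≤ ff A F d x + 1 := by
  have h1 := hD.vA_two hd hA.le (n := 2 ^ x) Nat.one_le_two_pow
  have h2 : 0 < vA A F d (2 ^ (x + 1)) := hD.vA_pos hd hA Nat.one_le_two_pow
  have e1 : 2 ^ (x + 1) = 2 * 2 ^ x := by ring
  rw [← e1] at h1
  have h3 : Real.logb 2 (vA A F d (2 ^ x)) ≤ Real.logb 2 (2 * vA A F d (2 ^ (x + 1))) :=
    (Real.logb_le_logb one_lt_two (hD.vA_pos hd hA Nat.one_le_two_pow) (by positivity)).2 h1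
  rw [Real.logb_mul two_ne_zero h2.ne', Real.logb_self_eq_one one_lt_two] at h3
  unfold ff
  linarith

include hD hA hd in
theorem ff_add (x k : ℕ) : ff A F d (x + k) ≤ ff A F d x + k := by
  induction k with
  | zero => simp
  | succ k ih =>
    have h := ff_succ hD hA hd (x + k)
    push_cast
    rw [← add_assoc]
    linarith

include hD hA hd in
/-- **The units grow at most as the widths**: `g(x+k) - g(x) ≤ k - (f(x+k) - f(x))`. -/
theorem gg_ff (x k : ℕ) : gg F d (x + k) - gg F d x ≤ k - (ff A F d (x + k) - ff A F d x) := by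
  have h1 := hD.EE_w hd hA.le (n := 2 ^ x) (k := 2 ^ k) Nat.one_le_two_pow Nat.one_le_two_pow
  have e1 : 2 ^ k * 2 ^ x = 2 ^ (x + k) := by ring
  rw [e1] at h1
  have h2 : 0 < vA A F d (2 ^ x) := hD.vA_pos hd hA Nat.one_le_two_pow
  have h3 : 0 < vA A F d (2 ^ (x + k)) := hD.vA_pos hd hA Nat.one_le_two_pow
  have h4 := EE_pos F d (2 ^ x)
  have h5 := EE_pos F d (2 ^ (x + k))
  push_cast at h1
  have h6 := (Real.logb_le_logb one_lt_two (by positivity) (by positivity)).2 h1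
  rw [Real.logb_mul h5.ne' (by positivity), Real.logb_mul (by positivity) h2.ne', Real.logb_mul (by positivity) h4.ne',
    Real.logb_mul (by positivity) h3.ne', Real.logb_pow, Real.logb_pow, Real.logb_self_eq_one one_lt_two] at h6
  push_cast at h6
  unfold gg ff
  linarith

include hD hA in
/-- The first width is bounded, uniformly. -/
theorem ff_zero : ∃ F0 : ℝ, ∀ d ∈ Ds, -F0 ≤ ff A F d 0 := by
  obtain ⟨j, hj, h⟩ := hD.strict 1 one_pos
  refine ⟨Real.logb 2 (2 * max 1 (A * Ku F / j)), fun d hd => ?_⟩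
  have h1 := EE_one_le (hD.adm d hd)
  have h2 : vA A F d 1 ≤ 2 * max 1 (A * EE F d 1 / (1 : ℕ) / j) := by
    rw [hD.vA_wd hd hA.le]
    exact wd_le zero_le_one hj fun x hx => h d hd x hx
  have h3 : vA A F d 1 ≤ 2 * max 1 (A * Ku F / j) := by
    refine h2.trans ?_
    have h4 : A * EE F d 1 / (1 : ℕ) / j ≤ A * Ku F / j := by
      rw [Nat.cast_one, div_one]
      exact div_le_div_of_nonneg_right (mul_le_mul_of_nonneg_left h1 hA.le) hj.le
    have h5 := max_le_max (le_refl (1 : ℝ)) h4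
    linarith
  unfold ff
  rw [pow_zero]
  refine neg_le_neg ((Real.logb_le_logb one_lt_two (hD.vA_pos hd hA le_rfl) ?_).2 h3)
  have := le_max_left (1 : ℝ) (A * Ku F / j)
  linarith

include hD hA in
/-- **`f` tends to infinity, uniformly.** -/
theorem ff_large (hR : Rate F Ds) (M : ℝ) : ∃ x1 : ℕ, ∀ d ∈ Ds, ∀ x : ℕ, x1 ≤ x → M ≤ ff A F d x := by
  obtain ⟨n0, hn0, h⟩ := hD.vA_small hR hA (ε := (2 : ℝ) ^ (-M)) (by positivity)
  refine ⟨n0, fun d hd x hx => ?_⟩
  have h1 : n0 ≤ 2 ^ x := hx.trans Nat.lt_two_pow_self.le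
  have h2 := h d hd (2 ^ x) h1
  have h3 := (Real.logb_le_logb one_lt_two (hD.vA_pos hd hA Nat.one_le_two_pow) (by positivity)).2 h2
  rw [Real.logb_rpow two_pos (by norm_num)] at h3
  unfold ff
  linarith

/-- `g` tends to infinity, uniformly. -/
theorem gg_large (hG : Grow F Ds) (M : ℝ) : ∃ x1 : ℕ, ∀ d ∈ Ds, ∀ x : ℕ, x1 ≤ x → M ≤ gg F d x := by
  obtain ⟨n0, h⟩ := hG ((2 : ℝ) ^ M)
  refine ⟨n0, fun d hd x hx => ?_⟩
  have h1 : n0 ≤ 2 ^ x := hx.trans Nat.lt_two_pow_self.le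
  have h2 := h d hd (2 ^ x) h1
  have h3 := (Real.logb_le_logb one_lt_two (by positivity) (EE_pos F d _)).2 h2
  rwa [Real.logb_rpow two_pos (by norm_num)] at h3

end

end Pool.Agent.W_1b8d5d_p
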