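import Pool.Agent.W_1b8d5d_p.HsU
import Pool.Agent.W_1b8d5d_p.Width99
import Pool.Agent.W_1b8d5d_h4p.ToolZ

/-!
MP_1b8d5d_pr, Track P, D4: the growth bound of the chain on a stretch without soft scale, for the family of directions, from the
inequality for one octave, (D7) and (I1). The level of the width may be changed.
-/

namespace Pool.Agent.W_1b8d5d_p

open Set
open Pool.Agent.W_1b8d5d_h4p (Sf Sf.mono)

variable {F : Fm} {κ K : ℝ} {A : Set Dr}

/-- The unit along the octaves, for the directions of a family. -/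
noncomputable def EoP (F : Fm) (A : Set Dr) : A → ℕ → ℝ := fun d x => EE F d (2 ^ x)

/-- The bulk along the octaves. -/
noncomputable def EmP (F : Fm) (A : Set Dr) : A → ℕ → ℝ := fun d x => Em F d (2 ^ x)

/-- The closing of the cone along the octaves. -/
noncomputable def ffP (a : ℝ) (F : Fm) (A : Set Dr) : A → ℕ → ℝ := fun d x => ff a F d x

/-- The soft scales. -/
def SfP (F : Fm) (κ : ℝ) (A : Set Dr) : A → ℕ → ℝ → Prop := fun d x α => Sf F κ d x α

theorem vA_change (hD : Dirs F κ K A) {d : Dr} (hd : d ∈ A) {a a' : ℝ} (ha : 0 < a) (ha' : 0 < a') (n : ℕ) :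
    vA a' F d n ≤ max (a' / a) (a / a') * vA a F d n := by
  have hc : 1 ≤ max (a' / a) (a / a') := by
    rcases le_total a a' with h | h
    · exact le_max_of_le_left ((one_le_div ha).2 h)
    · exact le_max_of_le_right ((one_le_div ha').2 h)
  have h0 : 0 ≤ vA a F d n := add_nonneg (hD.vr_nonneg hd ha.le n) (hD.vl_nonneg hd ha.le n)
  rcases le_total a a' with h | h
  · have h1 := hD.vA_level_mul hd ha.le ((one_le_div ha).2 h) n
    rw [div_mul_cancel₀ _ ha.ne'] at h1
    exact h1.trans (mul_le_mul_of_nonneg_right (le_max_left _ _) h0)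
  · have h1 := hD.vA_level_mono hd ha'.le h n
    nlinarith

/-- The change of the level of the width. -/
theorem ff_change (hD : Dirs F κ K A) {a a' : ℝ} (ha : 0 < a) (ha' : 0 < a') :
    ∃ C : ℝ, ∀ d ∈ A, ∀ x : ℕ, |ff a' F d x - ff a F d x| ≤ C := by
  set c := max (a' / a) (a / a') with hc
  have hc' : max (a / a') (a' / a) = c := max_comm _ _
  have hc0 : 0 < c := lt_max_of_lt_left (div_pos ha' ha)
  refine ⟨Real.logb 2 c, fun d hd x => ?_⟩
  have hn : 1 ≤ 2 ^ x := Nat.one_le_two_pow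
  have p1 := hD.vA_pos hd ha hn
  have p2 := hD.vA_pos hd ha' hn
  have h1 := vA_change hD hd ha ha' (2 ^ x)
  have h2 := vA_change hD hd ha' ha (2 ^ x)
  rw [hc'] at h2
  have h3 := Real.logb_le_logb_of_le (b := 2) (by norm_num) p2 h1
  have h4 := Real.logb_le_logb_of_le (b := 2) (by norm_num) p1 h2
  rw [Real.logb_mul hc0.ne' p1.ne'] at h3
  rw [Real.logb_mul hc0.ne' p2.ne'] at h4
  unfold ff
  rw [abs_le]
  constructor <;> linarith

/-- **(D4)**: growth on a stretch without soft scale, in the form of the chain. -/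
theorem hsP (hD : Dirs F κ K A) {a a' : ℝ} (ha : 0 < a) (ha' : 0 < a')
    (hO : OctU (EoP F A) (EmP F A) (ffP a' F A) (SfP F κ A)) (h7 : D7U (EmP F A) (SfP F κ A))
    (h1 : I1U (EoP F A) (EmP F A) (SfP F κ A)) :
    ∃ (P : A → ℕ → Prop) (α C : ℝ) (k x₀ : ℕ),
      (∀ (d : A) y x, x₀ ≤ y → y ≤ x → (∀ z, y ≤ z → z < x → P d z) →
        gg F d x - gg F d y ≤ (ff a F d x - ff a F d y) / 4 + C) ∧
      ∀ (d : A) x, x₀ ≤ x → ¬ P d x → ∃ y, x ≤ y + k ∧ y ≤ x + k ∧ Sf F κ d y α := by
  obtain ⟨CL, hCL⟩ := ff_change hD ha' ha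
  exact hsU (E := EoP F A) (Em := EmP F A) (f := ffP a' F A) (f₁ := ffP a F A) (S := SfP F κ A) (CL := CL)
    (fun d x α β h1 h2 => Sf.mono h2 h1) (fun d => ff_mono hD ha' d.2)
    (fun d x y hxy => Em_mono F d (Nat.pow_le_pow_right (by norm_num) hxy))
    (fun d x => Em_pos F d _) (fun d x => Em_le_EE (hD.adm d d.2) _)
    (fun d x => by
      have h2 := EE_mul F d (2 ^ x) (k := 2) (by norm_num)
      rw [← pow_succ'] at h2
      exact_mod_cast h2)
    (fun d x => hCL d d.2 x) hO h7 h1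

end Pool.Agent.W_1b8d5d_p
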