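import Pool.Agent.W_1b8d5d_p.FrTT
import Pool.Agent.W_7d29a1_f21.Ind

/-!
MP_1b8d5d_pr, Track P. Symmetries of the restricted passage times; the law of the environment: independence of functions of
disjoint sets of edges, invariance under shifts and under the reflection.
-/

namespace Pool.Agent.W_1b8d5d_p

open MeasureTheory ProbabilityTheory Set
open Pool.Agent.W_1b8d5d_h85

/-! ### Symmetries -/

private theorem walk_map {f : V → V} {φ : Edge → Edge}
    (hf : ∀ x y, grid.Adj x y → grid.Adj (f x) (f y) ∧ ke s(f x, f y) = φ (ke s(x, y))) {x y : V} (w : grid.Walk x y) :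
    ∃ w' : grid.Walk (f x) (f y), wedges w' = (wedges w).map φ := by
  induction w with
  | nil => exact ⟨.nil, by simp [wedges]⟩
  | @cons u v y h w ih =>
    obtain ⟨w', hw'⟩ := ih
    refine ⟨SimpleGraph.Walk.cons (hf u v h).1 w', ?_⟩
    have h1 : wedges (SimpleGraph.Walk.cons (hf u v h).1 w') = ke s(f u, f v) :: wedges w' := by
      unfold wedges; rw [SimpleGraph.Walk.edges_cons, List.map_cons]
    have h2 : wedges (SimpleGraph.Walk.cons h w) = ke s(u, v) :: wedges w := by
      unfold wedges; rw [SimpleGraph.Walk.edges_cons, List.map_cons]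
    rw [h1, h2, List.map_cons, hw', (hf u v h).2]

/-- An automorphism of the grid. -/
theorem TR_aut {f g : V → V} {φ ψ : Edge → Edge} {S S' : Set Edge}
    (hf : ∀ x y, grid.Adj x y → grid.Adj (f x) (f y) ∧ ke s(f x, f y) = φ (ke s(x, y)))
    (hg : ∀ x y, grid.Adj x y → grid.Adj (g x) (g y) ∧ ke s(g x, g y) = ψ (ke s(x, y)))
    (hgf : ∀ x, g (f x) = x) (hφψ : ∀ e, φ (ψ e) = e) (hS : ∀ e, e ∈ S ↔ φ e ∈ S') (τ : Env) (x y : V) :
    TR S (fun e => τ (φ e)) x y = TR S' τ (f x) (f y) := by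
  unfold TR
  rw [iInf, iInf]
  congr 1
  ext r
  constructor
  · rintro ⟨⟨w, hw⟩, rfl⟩
    obtain ⟨w', hw'⟩ := walk_map hf w
    refine ⟨⟨w', ?_⟩, ?_⟩
    · intro e he
      rw [hw', List.mem_map] at he
      obtain ⟨e', he', rfl⟩ := he
      exact (hS e').1 (hw e' he')
    · simp only [cost]
      rw [hw', List.map_map]
      rfl
  · rintro ⟨⟨w, hw⟩, rfl⟩
    obtain ⟨w', hw'⟩ := walk_map hg w
    have hc : ∃ w'' : grid.Walk x y, wedges w'' = (wedges w).map ψ := by
      refine ⟨w'.copy (hgf x) (hgf y), ?_⟩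
      unfold wedges at hw' ⊢
      rw [SimpleGraph.Walk.edges_copy, hw']
    obtain ⟨w'', hw''⟩ := hc
    refine ⟨⟨w'', ?_⟩, ?_⟩
    · intro e he
      rw [hw'', List.mem_map] at he
      obtain ⟨e', he', rfl⟩ := he
      rw [hS, hφψ]
      exact hw e' he'
    · simp only [cost]
      rw [hw'', List.map_map]
      congr 1
      refine List.map_congr_left fun e _ => ?_
      simp only [Function.comp_apply, hφψ]

private theorem adj_tr (z : V) : ∀ x y, grid.Adj x y →
    grid.Adj (x + z) (y + z) ∧ ke s(x + z, y + z) = (fun e : Edge => (e.1 + z, e.2)) (ke s(x, y)) := by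
  rintro x y ⟨s, h | h⟩
  · subst h
    refine ⟨⟨s, Or.inl (by abel)⟩, ?_⟩
    rw [ke_dir, show x + dir s + z = x + z + dir s by abel, ke_dir]
  · subst h
    refine ⟨⟨s, Or.inr (by abel)⟩, ?_⟩
    rw [ke_dir', show y + dir s + z = y + z + dir s by abel, ke_dir']

/-- Shift covariance. -/
theorem TR_sh {S S' : Set Edge} (z : V) (hS : ∀ (x : V) (s : Bool), (x, s) ∈ S ↔ (x + z, s) ∈ S') (τ : Env) (x y : V) :
    TR S (sh z τ) x y = TR S' τ (x + z) (y + z) :=
  TR_aut (f := fun x => x + z) (g := fun x => x + -z) (φ := fun e => (e.1 + z, e.2)) (ψ := fun e => (e.1 + -z, e.2))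
    (adj_tr z) (adj_tr (-z)) (fun x => by simp) (fun e => by simp) (fun e => hS e.1 e.2) τ x y

private theorem adj_rf : ∀ x y, grid.Adj x y →
    grid.Adj (-x) (-y) ∧ ke s(-x, -y) = (fun e : Edge => (-e.1 - dir e.2, e.2)) (ke s(x, y)) := by
  rintro x y ⟨s, h | h⟩
  · subst h
    refine ⟨⟨s, Or.inr (by abel)⟩, ?_⟩
    rw [ke_dir]
    have := ke_dir' (-(x + dir s)) s
    rw [show -(x + dir s) + dir s = -x by abel] at this
    rw [this]
    ext1
    · simp only; abel
    · rfl
  · subst h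
    refine ⟨⟨s, Or.inl (by abel)⟩, ?_⟩
    rw [ke_dir']
    have := ke_dir (-(y + dir s)) s
    rw [show -(y + dir s) + dir s = -y by abel] at this
    rw [this]
    ext1
    · simp only; abel
    · rfl

theorem TR_rf {S S' : Set Edge} (hS : ∀ (x : V) (s : Bool), (x, s) ∈ S ↔ (-x - dir s, s) ∈ S') (τ : Env) (x y : V) :
    TR S (rf τ) x y = TR S' τ (-x) (-y) :=
  TR_aut (f := fun x => -x) (g := fun x => -x) (φ := fun e => (-e.1 - dir e.2, e.2)) (ψ := fun e => (-e.1 - dir e.2, e.2))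
    adj_rf adj_rf (fun x => by simp) (fun e => by simp) (fun e => hS e.1 e.2) τ x y

theorem TR_symm (S : Set Edge) (τ : Env) (x y : V) : TR S τ x y = TR S τ y x := by
  unfold TR
  rw [iInf, iInf]
  congr 1
  ext r
  constructor
  · rintro ⟨⟨w, hw⟩, rfl⟩
    exact ⟨⟨w.reverse, fun e he => hw e (by rwa [wedges_reverse, List.mem_reverse] at he)⟩, cost_reverse τ w⟩
  · rintro ⟨⟨w, hw⟩, rfl⟩
    exact ⟨⟨w.reverse, fun e he => hw e (by rwa [wedges_reverse, List.mem_reverse] at he)⟩, cost_reverse τ w⟩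

/-- Shift of the slab passage times. -/
theorem TT_sh (c : Co) (b : Pt) (τ : Env) (a : Pt) (n : ℕ) (y : ℤ) : TT c (sh (c.vt b) τ) a n y = TT c τ (a + b) n y := by
  unfold TT
  rw [TR_sh (S' := c.slab (a.1 + b.1) (a.1 + n + b.1)) (c.vt b) (fun x s => (sh_mem_slab c b a.1 (a.1 + n) x s).symm),
    ← Co.vt_add, ← Co.vt_add, show a + ((n : ℤ), y) + b = a + b + ((n : ℤ), y) by abel]
  congr 2
  simp only [Prod.fst_add]
  ring

theorem rf_mem_slab (c : Co) (s t : ℤ) (x : V) (σ : Bool) : (x, σ) ∈ c.slab s t ↔ (-x - dir σ, σ) ∈ c.slab (-t) (-s) := by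
  change (_ ∧ _ ∧ _ ∧ _) ↔ (_ ∧ _ ∧ _ ∧ _)
  simp only
  rw [show -x - dir σ + dir σ = -x by abel, show -x - dir σ = -(x + dir σ) by abel, Co.tm_neg, Co.tm_neg, mul_neg,
    mul_neg]
  constructor
  · rintro ⟨h1, h2, h3, h4⟩
    exact ⟨by omega, by omega, by omega, by omega⟩
  · rintro ⟨h1, h2, h3, h4⟩
    exact ⟨by omega, by omega, by omega, by omega⟩

/-- Reflection of the slab passage times. -/
theorem TT_rf (c : Co) (τ : Env) (a : Pt) (n : ℕ) (y : ℤ) : TT c (rf τ) a n y = TT c τ (-a - ((n : ℤ), y)) n y := by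
  unfold TT
  rw [TR_rf (fun x s => rf_mem_slab c a.1 (a.1 + n) x s), TR_symm, ← Co.vt_neg, ← Co.vt_neg,
    show -(a + ((n : ℤ), y)) = -a - ((n : ℤ), y) by abel, show -a - ((n : ℤ), y) + ((n : ℤ), y) = -a by abel]
  congr 2
  · simp only [Prod.fst_sub, Prod.fst_neg]; ring
  · simp only [Prod.fst_sub, Prod.fst_neg]; ring

/-! ### The law -/

variable {F : Fm}

theorem mp_sh (F : Fm) (z : V) : MeasurePreserving (sh z) (law F) (law F) :=
  Pool.Agent.W_7d29a1_f21.mp_reindex (f := fun e : Edge => (e.1 + z, e.2)) (by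
    rintro ⟨x, s⟩ ⟨x', s'⟩ h
    simp only [Prod.mk.injEq, add_left_inj] at h
    exact Prod.ext h.1 h.2)

theorem mp_rf (F : Fm) : MeasurePreserving rf (law F) (law F) :=
  Pool.Agent.W_7d29a1_f21.mp_reindex (f := fun e : Edge => (-e.1 - dir e.2, e.2)) (by
    rintro ⟨x, s⟩ ⟨x', s'⟩ h
    simp only [Prod.mk.injEq] at h
    obtain ⟨h1, rfl⟩ := h
    exact Prod.ext (neg_injective (sub_left_injective h1)) rfl)

theorem mp_shp (F : Fm) (a : Pt) : MeasurePreserving (F.shp a) (law F) (law F) := mp_sh F _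

/-- Stationarity. -/
theorem sh_int {g : Env → ℝ} (hg : Measurable g) (z : V) : ∫ η, g (sh z η) ∂(law F) = ∫ η, g η ∂(law F) :=
  Pool.Agent.W_7d29a1_f21.mp_integral (mp_sh F z) hg.aestronglyMeasurable

theorem shp_int {g : Env → ℝ} (hg : Measurable g) (a : Pt) : ∫ η, g (F.shp a η) ∂(law F) = ∫ η, g η ∂(law F) :=
  sh_int hg _

theorem rf_int {g : Env → ℝ} (hg : Measurable g) : ∫ η, g (rf η) ∂(law F) = ∫ η, g η ∂(law F) :=
  Pool.Agent.W_7d29a1_f21.mp_integral (mp_rf F) hg.aestronglyMeasurable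

theorem shp_real {E : Set Env} (hE : MeasurableSet E) (a : Pt) : (law F).real {η | F.shp a η ∈ E} = (law F).real E :=
  (mp_shp F a).measureReal_preimage hE.nullMeasurableSet

theorem rf_real {E : Set Env} (hE : MeasurableSet E) : (law F).real {η | rf η ∈ E} = (law F).real E :=
  (mp_rf F).measureReal_preimage hE.nullMeasurableSet

/-- Independence of functions of disjoint sets of edges (no integrability needed). -/
theorem integral_indep {f g : Env → ℝ} {A B : Set Edge} (hf : Measurable f) (hg : Measurable g)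
    (hfA : DependsOn f A) (hgB : DependsOn g B) (h : Disjoint A B) :
    ∫ η, f η * g η ∂(law F) = (∫ η, f η ∂(law F)) * ∫ η, g η ∂(law F) := by
  have hgA : DependsOn g Aᶜ := fun η η' hh =>
    hgB fun p hp => hh p fun hpA => (Set.disjoint_left.mp h) hpA hp
  exact Pool.Agent.W_7d29a1_f21.integral_mul_indep (μ := F.nu) A hf hg hfA hgA

theorem indep_prod {ι : Type*} (I : Finset ι) (G : ι → Env → ℝ) (A : ι → Set Edge)
    (hm : ∀ i ∈ I, Measurable (G i)) (hdep : ∀ i ∈ I, DependsOn (G i) (A i))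
    (hdisj : ∀ i ∈ I, ∀ j ∈ I, i ≠ j → Disjoint (A i) (A j)) :
    ∫ η, ∏ i ∈ I, G i η ∂(law F) = ∏ i ∈ I, ∫ η, G i η ∂(law F) := by
  classical
  induction I using Finset.induction_on with
  | empty => simp
  | @insert a I ha ih =>
    rw [Finset.prod_insert ha]
    have h1 : ∀ η, ∏ i ∈ insert a I, G i η = G a η * ∏ i ∈ I, G i η := fun η =>
      Finset.prod_insert ha
    simp_rw [h1]
    rw [integral_indep (A := A a) (B := ⋃ i ∈ I, A i) (hm a (Finset.mem_insert_self a I)) ?_
      (hdep a (Finset.mem_insert_self a I)) ?_ ?_]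
    · rw [ih (fun i hi => hm i (Finset.mem_insert_of_mem hi))
        (fun i hi => hdep i (Finset.mem_insert_of_mem hi))
        (fun i hi j hj hij => hdisj i (Finset.mem_insert_of_mem hi) j (Finset.mem_insert_of_mem hj) hij)]
    · exact Finset.measurable_prod I fun i hi => hm i (Finset.mem_insert_of_mem hi)
    · intro η η' hh
      apply Finset.prod_congr rfl
      intro i hi
      exact hdep i (Finset.mem_insert_of_mem hi) fun p hp => hh p (Set.mem_biUnion hi hp)
    · rw [Set.disjoint_iUnion₂_right]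
      intro i hi
      refine hdisj a (Finset.mem_insert_self a I) i (Finset.mem_insert_of_mem hi) ?_
      rintro rfl
      exact ha hi

/-- Events of disjoint sets of edges. -/
theorem indep_events {ι : Type*} (I : Finset ι) (E : ι → Set Env) (A : ι → Set Edge)
    (hm : ∀ i ∈ I, MeasurableSet (E i))
    (hdep : ∀ i ∈ I, ∀ η η' : Env, (∀ p ∈ A i, η p = η' p) → (η ∈ E i ↔ η' ∈ E i))
    (hdisj : ∀ i ∈ I, ∀ j ∈ I, i ≠ j → Disjoint (A i) (A j)) :
    (law F).real {η | ∀ i ∈ I, η ∈ E i} = ∏ i ∈ I, (law F).real (E i) := by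
  classical
  have h := indep_prod (F := F) I (fun i => (E i).indicator (fun _ => (1 : ℝ))) A
    (fun i hi => measurable_const.indicator (hm i hi))
    (fun i hi η η' hh => by
      have := hdep i hi η η' hh
      by_cases h1 : η ∈ E i
      · simp only [Set.indicator_of_mem h1, Set.indicator_of_mem (this.mp h1)]
      · have h2 : η' ∉ E i := fun h3 => h1 (this.mpr h3)
        simp only [Set.indicator_of_notMem h1, Set.indicator_of_notMem h2]) hdisj
  have h1 : ∀ i ∈ I, ∫ η, (E i).indicator (fun _ => (1 : ℝ)) η ∂(law F) = (law F).real (E i) := by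
    intro i hi
    rw [integral_indicator_const _ (hm i hi)]
    simp
  rw [Finset.prod_congr rfl h1] at h
  rw [← h]
  have hms : MeasurableSet {η : Env | ∀ i ∈ I, η ∈ E i} := by
    have : {η : Env | ∀ i ∈ I, η ∈ E i} = ⋂ i ∈ I, E i := by
      ext η; simp
    rw [this]
    exact Finset.measurableSet_biInter I hm
  have h2 : ∀ η : Env, ∏ i ∈ I, (E i).indicator (fun _ => (1 : ℝ)) η =
      {η : Env | ∀ i ∈ I, η ∈ E i}.indicator (fun _ => (1 : ℝ)) η := by
    intro η
    by_cases hη : ∀ i ∈ I, η ∈ E i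
    · rw [Set.indicator_of_mem (show η ∈ {η : Env | ∀ i ∈ I, η ∈ E i} from hη)]
      exact Finset.prod_eq_one fun i hi => by rw [Set.indicator_of_mem (hη i hi)]
    · rw [Set.indicator_of_notMem (show η ∉ {η : Env | ∀ i ∈ I, η ∈ E i} from hη)]
      push Not at hη
      obtain ⟨i, hi, hiη⟩ := hη
      exact Finset.prod_eq_zero hi (by rw [Set.indicator_of_notMem hiη])
  simp_rw [h2]
  rw [integral_indicator_const _ hms]
  simp

end Pool.Agent.W_1b8d5d_p
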