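import Pool.Agent.W_1b8d5d_p.IfaceP

/-!
MP_1b8d5d_pr, Track P2 (row 653): no corner at any scale. Definitions and interface statements. (helper66)

Notation: `n = 2 ^ x`, the unit `EE F d n`, the lateral width `n * vA a F d n`; `av N f` is the average of `f` over the times
`(N, 2 N]`; `h_n(x)` is `VV F d η (0, x) n`.
-/

set_option autoImplicit false

namespace Pool.Agent.W_1b8d5d_p

open MeasureTheory Set
open Pool.Agent.W_1b8d5d_h85 (V nm dir Edge Env grid ke wedges cost Bd sh rf)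
open Pool.Agent.W_1b8d5d_h4p (LawH Sf)

noncomputable section

/-! ### Regularity at all scales -/

/-- The closed cone, at all scales above `x₁`: the conclusion of `cone_allP`. -/
structure Reg0 (F : Fm) (κ : ℝ) (A : Set Dr) (a β C δ : ℝ) (T L x₁ : ℕ) : Prop where
  δ0 : 0 < δ
  L1 : 1 ≤ L
  soft : ∀ d ∈ A, ∀ x, x₁ ≤ x → Sf F κ d x β
  grow : ∀ d ∈ A, ∀ x, x₁ ≤ x → gg F d x + 1 ≤ gg F d (x + T)
  half : ∀ d ∈ A, ∀ x j : ℕ, x₁ ≤ x → gg F d (x + j) ≤ gg F d x + j / 2 + C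
  width : ∀ d ∈ A, ∀ x, x₁ ≤ x → ff a F d x + δ ≤ ff a F d (x + L)

/-! ### Averages over the times -/

/-- The average over the times `(N, 2 N]`. -/
def av (N : ℕ) (f : ℕ → ℝ) : ℝ := (∑ n ∈ Finset.Ioc N (2 * N), f n) / N

/-- The mean oscillation `v_N(L)` of `h_n`. -/
def vN (F : Fm) (d : Dr) (N : ℕ) (L : ℤ) : ℝ :=
  av N fun n => ∫ η, |VV F d η 0 n - VV F d η (0, L) n| ∂(law F)

/-- **STEP 1 (Osc)**, with the constant `c` of the separation. -/
def OscP (a : ℝ) (F : Fm) (A : Set Dr) (c : ℝ) : Prop :=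
  ∃ C2 : ℝ, ∀ d ∈ A, ∀ m N : ℕ, 1 ≤ m → m ≤ N → ∀ L : ℤ, |(L : ℝ)| ≤ c * (m * vA a F d m) →
    vN F d N L ≤ C2 * EE F d m

/-- (1a): `h_n(x)` and the luck of the point `(m, y)`, when the displacement `(m, y - x)` is cheap. -/
def OscB (F : Fm) (A : Set Dr) : Prop :=
  ∀ d ∈ A, ∀ m N : ℕ, 1 ≤ m → m ≤ N → ∀ (x y : ℤ) (B : ℝ), ep F d m (y - x) ≤ B →
    (av N fun n => ∫ η, |VV F d η (0, x) n - VV F d η ((m : ℤ), y) (n - m)| ∂(law F)) ≤ 2 * EE F d m + 2 * B

/-! ### The walks off a finite set of edges, the lucky strips -/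

/-- The walks of the slab `[0, n]` from `(0, x)` to the row `n` without edges in `D` have lucks at most `t`. -/
def OffLe (F : Fm) (d : Dr) (D : Finset Edge) (n : ℕ) (x : ℤ) (t : ℝ) (η : Env) : Prop :=
  ∀ (y : ℤ) (w : grid.Walk (F.co.vt (0, x)) (F.co.vt ((n : ℤ), y))),
    (∀ e ∈ wedges w, e ∈ F.co.slab 0 n ∧ e ∉ D) → -exc F d η w ≤ t

/-- There is a walk in `D` from `0` to `(M, k)` with luck at least `Y`. -/
def LuckIn (F : Fm) (d : Dr) (D : Finset Edge) (M : ℕ) (k : ℤ) (Y : ℝ) (η : Env) : Prop :=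
  ∃ g : grid.Walk (F.co.vt 0) (F.co.vt ((M : ℤ), k)), (∀ e ∈ wedges g, e ∈ D) ∧ Y ≤ -exc F d η g

/-- **STEP 2 (LuckStrip)**: in a strip of lateral half width `R1 w` and duration `(1 + rc) 2 ^ j` times the scale, lucks of any
multiple of the unit, with positive probability. -/
def LuckStrip (a : ℝ) (F : Fm) (A : Set Dr) : Prop :=
  ∃ (R1 C3 : ℝ) (rc j : ℕ), 0 ≤ R1 ∧ 0 ≤ C3 ∧ ∀ K : ℝ, ∃ (p : ℝ) (x₁ : ℕ), 0 < p ∧ ∀ d ∈ A, ∀ x n M : ℕ, x₁ ≤ x →
    n = 2 ^ x → M = (1 + rc) * 2 ^ (x + j) → ∃ (k : ℤ) (D : Finset Edge),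
      (∀ e ∈ D, e ∈ F.co.slab 0 M) ∧ (∀ e ∈ D, |latV F d e.1| ≤ R1 * (n * vA a F d n)) ∧
      |(k : ℝ) - d.v * M| ≤ C3 * (n * vA a F d n) ∧ p ≤ (law F).real {η | LuckIn F d D M k (K * EE F d n) η}

/-! ### The statements -/

/-- **STEP 3 (Sep)**. -/
def SepP (a : ℝ) (F : Fm) (A : Set Dr) (c : ℝ) : Prop :=
  ∃ (κ' p : ℝ) (x₁ : ℕ), 0 < κ' ∧ 0 < p ∧ ∀ d ∈ A, ∀ x m N : ℕ, x₁ ≤ x → m = 2 ^ x → m ≤ N → ∀ L : ℤ,
    c * (m * vA a F d m) / 32 ≤ (L : ℝ) → (L : ℝ) ≤ c * (m * vA a F d m) / 8 →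
    p ≤ av N fun n => (law F).real {η | κ' * EE F d m ≤ VV F d η (0, L) n - VV F d η 0 n ∧
      κ' * EE F d m ≤ VV F d η (0, L) n - VV F d η (0, 2 * L) n}

/-- The exponent of the quotient (lateral width) / (unit). -/
def sA (a : ℝ) (F : Fm) (d : Dr) (x : ℕ) : ℝ := x - ff a F d x - gg F d x

/-- **THEOREM (SL)**: the unit grows at most as a power `1 - c` of the lateral width. -/
def SLP (a : ℝ) (F : Fm) (A : Set Dr) : Prop :=
  ∃ (C c : ℝ) (x₁ : ℕ), 0 < c ∧ c < 1 ∧ ∀ d ∈ A, ∀ x x' : ℕ, x₁ ≤ x → x ≤ x' →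
    gg F d x' - gg F d x ≤ C + (1 - c) * ((x' - ff a F d x') - (x - ff a F d x))

/-- **(SL')**: the quotient (lateral width) / (unit) doubles in `L` octaves. -/
def SLP' (a : ℝ) (F : Fm) (A : Set Dr) : Prop :=
  ∃ L x₁ : ℕ, ∀ d ∈ A, ∀ x : ℕ, x₁ ≤ x → sA a F d x + 1 ≤ sA a F d (x + L)

/-- The one-sided doubling of the tilted shape function, uniformly in the direction. -/
def DblP (F : Fm) (A : Set Dr) : Prop :=
  ∃ D δ : ℝ, 0 < δ ∧ ∀ d ∈ A, ∀ x : ℝ, |x| ≤ δ → J F d (2 * x) ≤ D * J F d x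

/-! ### First facts -/

variable {F : Fm} {κ K a c0 C0 : ℝ} {A : Set Dr} {d : Dr}

theorem av_mono {N : ℕ} {f g : ℕ → ℝ} (h : ∀ n, N < n → n ≤ 2 * N → f n ≤ g n) : av N f ≤ av N g := by
  unfold av
  refine div_le_div_of_nonneg_right (Finset.sum_le_sum fun n hn => ?_) (Nat.cast_nonneg _)
  rw [Finset.mem_Ioc] at hn
  exact h n hn.1 hn.2

theorem av_add (N : ℕ) (f g : ℕ → ℝ) : (av N fun n => f n + g n) = av N f + av N g := by
  unfold av
  rw [Finset.sum_add_distrib, add_div]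

theorem av_const_mul (N : ℕ) (c : ℝ) (f : ℕ → ℝ) : (av N fun n => c * f n) = c * av N f := by
  unfold av
  rw [← Finset.mul_sum, mul_div_assoc]

theorem av_const {N : ℕ} (hN : 1 ≤ N) (c : ℝ) : (av N fun _ => c) = c := by
  have hN0 : (N : ℝ) ≠ 0 := by positivity
  unfold av
  rw [Finset.sum_const, Nat.card_Ioc, nsmul_eq_mul, show 2 * N - N = N by omega]
  field_simp

theorem av_nonneg {N : ℕ} {f : ℕ → ℝ} (h : ∀ n, 0 ≤ f n) : 0 ≤ av N f :=
  div_nonneg (Finset.sum_nonneg fun n _ => h n) (Nat.cast_nonneg _)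

/-- The luck of a slab walk is at most the luck of its starting point. -/
theorem neg_exc_le_VV (hd : Adm F κ d) (η : Env) {n : ℕ} (hn : 1 ≤ n) {x y : ℤ}
    (w : grid.Walk (F.co.vt (0, x)) (F.co.vt ((n : ℤ), y))) (hw : ∀ e ∈ wedges w, e ∈ F.co.slab 0 n) :
    -exc F d η w ≤ VV F d η (0, x) n := by
  have h1 := neg_X_le_VV hd η (0, x) hn (y - x)
  have e1 : ((0 : ℤ), x) + ((n : ℤ), y - x) = ((n : ℤ), y) := by ext <;> simp
  have h2 : TR (F.co.slab 0 n) (F.tau η) (F.co.vt (0, x)) (F.co.vt ((n : ℤ), y)) ≤ cost (F.tau η) w :=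
    TR_le (bdp F η) F.a0.le w hw
  have h3 : X F d η (0, x) n (y - x) =
      TR (F.co.slab 0 n) (F.tau η) (F.co.vt (0, x)) (F.co.vt ((n : ℤ), y)) - d.H (F.co.vt ((n : ℤ), y) - F.co.vt (0, x)) := by
    unfold X TT
    rw [H_vt_sub, e1]
    simp
  unfold exc
  linarith

theorem offLe_of_VV (hd : Adm F κ d) {η : Env} {n : ℕ} (hn : 1 ≤ n) {x : ℤ} {t : ℝ} (D : Finset Edge)
    (h : VV F d η (0, x) n ≤ t) : OffLe F d D n x t η :=
  fun _ w hw => (neg_exc_le_VV hd η hn w fun e he => (hw e he).1).trans h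

theorem exc_congr {η η' : Env} {u v : V} (w : grid.Walk u v) (h : ∀ e ∈ wedges w, η e = η' e) :
    exc F d η w = exc F d η' w := by
  unfold exc cost
  congr 2
  refine List.map_congr_left fun e he => ?_
  unfold Fm.tau
  rw [h e he]

/-- The event `OffLe` depends on the weights off `D`. -/
theorem offLe_congr {D : Finset Edge} {η η' : Env} (h : ∀ e, e ∉ D → η e = η' e) (n : ℕ) (x : ℤ) (t : ℝ) :
    OffLe F d D n x t η ↔ OffLe F d D n x t η' := by
  unfold OffLe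
  refine forall_congr' fun y => forall_congr' fun w => ?_
  refine imp_congr_right fun hw => ?_
  rw [exc_congr (η := η) (η' := η') w fun e he => h e (hw e he).2]

/-- The event `LuckIn` depends on the weights in `D`. -/
theorem luckIn_congr {D : Finset Edge} {η η' : Env} (h : ∀ e ∈ D, η e = η' e) (M : ℕ) (k : ℤ) (Y : ℝ) :
    LuckIn F d D M k Y η ↔ LuckIn F d D M k Y η' := by
  unfold LuckIn
  refine exists_congr fun g => and_congr_right fun hg => ?_
  rw [exc_congr (η := η) (η' := η') g fun e he => h e (hg e he)]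

theorem exc_meas (F : Fm) (d : Dr) {u v : V} (w : grid.Walk u v) : Measurable fun η => exc F d η w := by
  unfold exc
  refine Measurable.sub_const ?_ _
  unfold cost
  generalize wedges w = l
  induction l with
  | nil => simp
  | cons e l ih =>
    simp only [List.map_cons, List.sum_cons]
    exact (F.mg.comp (measurable_pi_apply e)).add ih

theorem walk_countable66 (x y : V) : Countable (grid.Walk x y) :=
  Function.Injective.countable (f := fun w : grid.Walk x y => w.support) fun _ _ h => SimpleGraph.Walk.ext_support h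

theorem offLe_meas (F : Fm) (d : Dr) (D : Finset Edge) (n : ℕ) (x : ℤ) {t : Env → ℝ} (ht : Measurable t) :
    MeasurableSet {η | OffLe F d D n x (t η) η} := by
  have e1 : {η | OffLe F d D n x (t η) η} = ⋂ (y : ℤ) (w : grid.Walk (F.co.vt (0, x)) (F.co.vt ((n : ℤ), y)))
      (_ : ∀ e ∈ wedges w, e ∈ F.co.slab 0 n ∧ e ∉ D), {η | -exc F d η w ≤ t η} := by
    ext η
    simp only [OffLe, mem_iInter, mem_ofPred_eq]
  rw [e1]
  have := walk_countable66
  exact MeasurableSet.iInter fun y => MeasurableSet.iInter fun w => MeasurableSet.iInter fun _ =>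
    measurableSet_le (exc_meas F d w).neg ht

theorem luckIn_meas (F : Fm) (d : Dr) (D : Finset Edge) (M : ℕ) (k : ℤ) (Y : ℝ) :
    MeasurableSet {η | LuckIn F d D M k Y η} := by
  have e1 : {η | LuckIn F d D M k Y η} = ⋃ (g : grid.Walk (F.co.vt 0) (F.co.vt ((M : ℤ), k)))
      (_ : ∀ e ∈ wedges g, e ∈ D), {η | Y ≤ -exc F d η g} := by
    ext η
    simp only [LuckIn, mem_iUnion, mem_ofPred_eq, exists_prop]
  rw [e1]
  have := walk_countable66
  exact MeasurableSet.iUnion fun g => MeasurableSet.iUnion fun _ => measurableSet_le measurable_const (exc_meas F d g).neg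

/-- (SL) implies (SL'). -/
theorem SLP.succ (h : SLP a F A) {β C δ : ℝ} {T L x₁ : ℕ} (hR : Reg0 F κ A a β C δ T L x₁) : SLP' a F A := by
  obtain ⟨C1, c, x₂, hc, hc1, h⟩ := h
  obtain ⟨j, hj⟩ := exists_nat_ge ((C1 + 1) / c)
  have hj' : C1 + 1 ≤ c * j := by
    rw [div_le_iff₀ hc] at hj
    linarith
  have hgr : ∀ d ∈ A, ∀ x, x₁ ≤ x → ∀ i : ℕ, gg F d x + i ≤ gg F d (x + i * T) := by
    intro d hd x hx i
    induction i with
    | zero => simp
    | succ i ih =>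
      have h1 := hR.grow d hd (x + i * T) (by omega)
      rw [show x + (i + 1) * T = x + i * T + T by ring]
      push_cast
      linarith
  refine ⟨j * T, max x₁ x₂, fun d hd x hx => ?_⟩
  have h1 := hgr d hd x ((le_max_left _ _).trans hx) j
  have h2 := h d hd x (x + j * T) ((le_max_right _ _).trans hx) (by omega)
  unfold sA
  set W := ((((x + j * T : ℕ) : ℝ) - ff a F d (x + j * T)) - (x - ff a F d x)) with hW
  set G := gg F d (x + j * T) - gg F d x with hG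
  have h3 : (j : ℝ) ≤ G := by linarith
  have h4 : 1 ≤ W - G := by
    have h5 : (1 - c) * (W - G) = (1 - c) * W - (1 - c) * G := by ring
    have h6 : c * (j : ℝ) ≤ c * G := mul_le_mul_of_nonneg_left h3 hc.le
    have h7 : 1 ≤ (1 - c) * (W - G) := by
      rw [h5]
      linarith
    have h8 : 0 < 1 - c := by linarith
    have h9 : 0 ≤ W - G := by
      by_contra hcon
      push Not at hcon
      have := mul_neg_of_pos_of_neg h8 hcon
      linarith
    nlinarith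
  linarith

end

end Pool.Agent.W_1b8d5d_p
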