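import Pool.Agent.W_1b8d5d_p.FrDefs
import Pool.Agent.W_7d29a1_f21.Ind

/-!
MP_1b8d5d_pr, Track P, frame (proofs row 631): pairs of grid points, lateral positions, the slab facts used by the restart.
-/

namespace Pool.Agent.W_1b8d5d_p

open MeasureTheory Set
open Pool.Agent.W_1b8d5d_h85 (V nm dir Edge Env grid)

/-- The lateral position of a grid point relative to the direction. -/
def lat (d : Dr) (P : Pt) : ℝ := (P.2 : ℝ) - d.v * P.1

/-- The cost of a pair of grid points `P`, `Q` with `P.1 < Q.1` or `P = Q`. -/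
noncomputable def XP (F : Fm) (d : Dr) (η : Env) (P Q : Pt) : ℝ := X F d η P (Q.1 - P.1).toNat (Q.2 - P.2)

/-- The slab facts: `k` = price of a lateral unit, `C0` = rounding constant of a cut, `C1` = largest luck of one block. -/
structure Sl (F : Fm) (d : Dr) (k C0 C1 : ℝ) : Prop where
  k0 : 0 < k
  C00 : 0 ≤ C0
  C10 : 0 ≤ C1
  meas : ∀ (a : Pt) (n : ℕ) (y : ℤ), Measurable fun η => X F d η a n y
  dep : ∀ (a : Pt) (n : ℕ) (y : ℤ), DependsOn (fun η => X F d η a n y) (F.co.rows a.1 (a.1 + n))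
  shift : ∀ (a b : Pt) (n : ℕ) (y : ℤ) (η : Env), X F d (F.shp a η) b n y = X F d η (b + a) n y
  mp : ∀ a : Pt, MeasurePreserving (F.shp a) (law F) (law F)
  diag : ∀ (η : Env) (a : Pt), X F d η a 0 0 = 0
  tri : ∀ (η : Env) (a : Pt) (m n : ℕ) (y z : ℤ), 1 ≤ m → 1 ≤ n →
    X F d η a (m + n) (y + z) ≤ X F d η a m y + X F d η (a + ((m : ℤ), y)) n z
  cut : ∀ (η : Env) (a : Pt) (m n : ℕ) (z : ℤ), 1 ≤ m → 1 ≤ n → ∃ c c' : ℤ,
    X F d η a m c + k * |(c : ℝ) - c'| + X F d η (a + ((m : ℤ), c')) n (z - c') - C0 ≤ X F d η a (m + n) z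
  low : ∀ (η : Env) (a : Pt) (n : ℕ) (y : ℤ), 1 ≤ n → k * |(y : ℝ)| - C1 * n ≤ X F d η a n y

/-- Rows of disjoint ranges of block times are disjoint. -/
theorem rows_disj (c : Co) (i : ℤ) {m m' : ℤ} (h : m ≤ m') (j : ℤ) : Disjoint (c.rows i m) (c.rows m' j) := by
  rw [Set.disjoint_left]
  intro e he he'
  have h1 : c.tm e.1 < c.L * m := he.2
  have h2 : c.L * m' ≤ c.tm e.1 := he'.1
  have h3 : c.L * m ≤ c.L * m' := by
    have : 0 ≤ c.L := by
      have := c.hp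
      have := c.hq
      unfold Co.L
      linarith
    exact mul_le_mul_of_nonneg_left h this
  linarith

theorem rows_mono (c : Co) {i i' j j' : ℤ} (h : i' ≤ i) (h' : j ≤ j') : c.rows i j ⊆ c.rows i' j' := by
  have h0 : 0 ≤ c.L := by
    have := c.hp
    have := c.hq
    unfold Co.L
    linarith
  intro e he
  exact ⟨(mul_le_mul_of_nonneg_left h h0).trans he.1, he.2.trans_le (mul_le_mul_of_nonneg_left h' h0)⟩

/-- Independence of functions of disjoint sets of edges. -/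
theorem int_ind {F : Fm} {f g : Env → ℝ} {A B : Set Edge} (hf : Measurable f) (hg : Measurable g)
    (hfA : DependsOn f A) (hgB : DependsOn g B) (h : Disjoint A B) :
    ∫ η, f η * g η ∂(law F) = (∫ η, f η ∂(law F)) * ∫ η, g η ∂(law F) := by
  have hgA : DependsOn g Aᶜ := fun η η' hh =>
    hgB fun p hp => hh p fun hpA => (Set.disjoint_left.mp h) hpA hp
  exact Pool.Agent.W_7d29a1_f21.integral_mul_indep (μ := F.nu) A hf hg hfA hgA

section

variable {F : Fm} {d : Dr} {k C0 C1 : ℝ}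

theorem Sl.XP_meas (h : Sl F d k C0 C1) (P Q : Pt) : Measurable fun η => XP F d η P Q := h.meas _ _ _

theorem Sl.XP_dep (h : Sl F d k C0 C1) {P Q : Pt} (hPQ : P.1 ≤ Q.1) :
    DependsOn (fun η => XP F d η P Q) (F.co.rows P.1 Q.1) := by
  have h1 := h.dep P (Q.1 - P.1).toNat (Q.2 - P.2)
  have h2 : P.1 + ((Q.1 - P.1).toNat : ℤ) = Q.1 := by omega
  rw [h2] at h1
  exact h1

theorem Sl.XP_self (h : Sl F d k C0 C1) (η : Env) (P : Pt) : XP F d η P P = 0 := by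
  unfold XP
  rw [sub_self, sub_self]
  exact h.diag η P

theorem Sl.XP_shift (h : Sl F d k C0 C1) (a P Q : Pt) (η : Env) :
    XP F d (F.shp a η) P Q = XP F d η (P + a) (Q + a) := by
  unfold XP
  rw [h.shift]
  congr 1
  · simp only [Prod.fst_add]
    congr 1
    ring
  · simp only [Prod.snd_add]
    ring

theorem Sl.XP_cut (h : Sl F d k C0 C1) (η : Env) {P Q : Pt} {m : ℤ} (h1 : P.1 < m) (h2 : m < Q.1) :
    ∃ c c' : ℤ, XP F d η P (m, c) + k * |(c : ℝ) - c'| + XP F d η (m, c') Q - C0 ≤ XP F d η P Q := by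
  obtain ⟨c, c', hc⟩ := h.cut η P (m - P.1).toNat (Q.1 - m).toNat (Q.2 - P.2) (by omega) (by omega)
  refine ⟨P.2 + c, P.2 + c', ?_⟩
  have e1 : P + (((m - P.1).toNat : ℤ), c') = (m, P.2 + c') := by
    ext
    · simp only [Prod.fst_add]
      omega
    · simp only [Prod.snd_add]
  have e2 : (m - P.1).toNat + (Q.1 - m).toNat = (Q.1 - P.1).toNat := by omega
  rw [e1, e2] at hc
  unfold XP
  simp only
  have e3 : P.2 + c - P.2 = c := by ring
  have e4 : Q.2 - (P.2 + c') = Q.2 - P.2 - c' := by ring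
  have e5 : (((P.2 + c : ℤ) : ℝ) - ((P.2 + c' : ℤ) : ℝ)) = (c : ℝ) - c' := by
    push_cast
    ring
  rw [e3, e4, e5]
  exact hc

theorem Sl.XP_low (h : Sl F d k C0 C1) (η : Env) {P Q : Pt} (h1 : P.1 < Q.1) :
    k * |lat d Q - lat d P| - (C1 + k * |d.v|) * ((Q.1 : ℝ) - P.1) ≤ XP F d η P Q := by
  have h2 := h.low η P (Q.1 - P.1).toNat (Q.2 - P.2) (by omega)
  have h3 : (((Q.1 - P.1).toNat : ℕ) : ℝ) = (Q.1 : ℝ) - P.1 := by
    have : (((Q.1 - P.1).toNat : ℕ) : ℤ) = Q.1 - P.1 := by omega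
    rw [← Int.cast_natCast, this]
    push_cast
    ring
  rw [h3] at h2
  have h4 : |lat d Q - lat d P| ≤ |((Q.2 - P.2 : ℤ) : ℝ)| + |d.v| * ((Q.1 : ℝ) - P.1) := by
    have h5 : lat d Q - lat d P = ((Q.2 - P.2 : ℤ) : ℝ) - d.v * ((Q.1 : ℝ) - P.1) := by
      unfold lat
      push_cast
      ring
    rw [h5]
    have h6 : (0 : ℝ) ≤ (Q.1 : ℝ) - P.1 := by
      have : (P.1 : ℝ) ≤ Q.1 := by exact_mod_cast h1.le
      linarith
    calc |((Q.2 - P.2 : ℤ) : ℝ) - d.v * ((Q.1 : ℝ) - P.1)|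
        ≤ |((Q.2 - P.2 : ℤ) : ℝ)| + |d.v * ((Q.1 : ℝ) - P.1)| := abs_sub _ _
      _ = _ := by rw [abs_mul, abs_of_nonneg h6]
  have h7 := mul_le_mul_of_nonneg_left h4 h.k0.le
  unfold XP
  nlinarith [h2, h7]

end

end Pool.Agent.W_1b8d5d_p
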