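import Pool.Agent.W_1b8d5d_p.FrTT
import Pool.Agent.W_1b8d5d_p.FrPair
import Pool.Agent.W_1b8d5d_sc.FWalk

/-!
MP_1b8d5d_pr, Track P. From walks to slab pairs.  A walk between two vertices contains a slab pair `P, Q` of grid points and has
an excess at least `X(P, Q) + κ (|u - P| + |v - Q|) - C₀`.
-/

namespace Pool.Agent.W_1b8d5d_p

open MeasureTheory Set
open Pool.Agent.W_1b8d5d_h85

noncomputable section

/-- Slab pairs in the block times `[s, t]`. -/
def IsPr (s t : ℤ) (P Q : Pt) : Prop := s ≤ P.1 ∧ Q.1 ≤ t ∧ (P.1 < Q.1 ∨ P = Q)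

variable {F : Fm} {κ : ℝ} {d : Dr} {η : Env}

theorem H_add (d : Dr) (z z' : V) : d.H (z + z') = d.H z + d.H z' := by
  simp only [Dr.H, Prod.fst_add, Prod.snd_add]
  push_cast
  ring

theorem H_sub (d : Dr) (z z' : V) : d.H (z - z') = d.H z - d.H z' := by
  simp only [Dr.H, Prod.fst_sub, Prod.snd_sub]
  push_cast
  ring

/-- The height of a grid displacement. -/
theorem H_vt_sub (c : Co) (d : Dr) (a b : Pt) :
    d.H (c.vt b - c.vt a) = al c d * ((b.1 : ℝ) - a.1) + be c d * ((b.2 : ℝ) - a.2) := by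
  rw [← Co.vt_sub, Co.H_vt]
  simp only [Prod.fst_sub, Prod.snd_sub]
  push_cast
  ring

theorem H_abs_le (hd : Adm F κ d) (z : V) : |d.H z| ≤ F.b * nm z := by
  unfold Dr.H nm
  have h1 : |d.h1 * (z.1 : ℝ)| ≤ F.b * |(z.1 : ℝ)| := by
    rw [abs_mul, abs_of_nonneg hd.h1n]
    exact mul_le_mul_of_nonneg_right hd.h1b (abs_nonneg _)
  have h2 : |d.h2 * (z.2 : ℝ)| ≤ F.b * |(z.2 : ℝ)| := by
    rw [abs_mul, abs_of_nonneg hd.h2n]
    exact mul_le_mul_of_nonneg_right hd.h2b (abs_nonneg _)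
  have h3 := abs_add_le (d.h1 * (z.1 : ℝ)) (d.h2 * (z.2 : ℝ))
  linarith

private theorem Adm.FrPiece_κ_le (hd : Adm F κ d) : κ ≤ F.a := by
  have h1 := hd.loop
  have h2 : (1 : ℝ) ≤ F.co.M := by
    have h3 := F.co.hp
    have h4 := F.co.hq
    have : (1 : ℤ) ≤ F.co.M := by unfold Co.M; omega
    exact_mod_cast this
  have h5 := abs_nonneg (be F.co d)
  by_contra h
  push Not at h
  nlinarith

/-- A displacement which does not increase the time is never lucky. -/
theorem H_le_of_tm (hd : Adm F κ d) {z : V} (hz : F.co.tm z ≤ 0) : d.H z ≤ (F.a - κ) * nm z := by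
  have hκ := hd.FrPiece_κ_le
  have hM : (F.co.M : ℝ) = F.co.p + F.co.q := by unfold Co.M; push_cast; ring
  have hp : (1 : ℝ) ≤ F.co.p := by exact_mod_cast F.co.hp
  have hq : (0 : ℝ) ≤ F.co.q := by exact_mod_cast F.co.hq
  have hl := hd.loop
  rw [abs_le, hM] at hl
  obtain ⟨hl1, hl2⟩ := hl
  unfold be at hl1 hl2
  have hz' : (F.co.p : ℝ) * z.1 + F.co.q * z.2 ≤ 0 := by
    have : F.co.p * z.1 + F.co.q * z.2 ≤ 0 := hz
    exact_mod_cast this
  have h1n := hd.h1n
  have h2n := hd.h2n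
  have hK : 0 ≤ F.a - κ := by linarith
  unfold Dr.H nm
  rcases le_total (z.1 : ℝ) 0 with h1 | h1
  · rcases le_total (z.2 : ℝ) 0 with h2 | h2
    · have e1 : d.h1 * (z.1 : ℝ) ≤ 0 := mul_nonpos_of_nonneg_of_nonpos h1n h1
      have e2 : d.h2 * (z.2 : ℝ) ≤ 0 := mul_nonpos_of_nonneg_of_nonpos h2n h2
      have e3 : 0 ≤ (F.a - κ) * (|(z.1 : ℝ)| + |(z.2 : ℝ)|) := by positivity
      linarith
    · rw [abs_of_nonpos h1, abs_of_nonneg h2]
      -- multiply by `p`
      have key : (F.co.p : ℝ) * (d.h1 * z.1 + d.h2 * z.2) ≤ F.co.p * ((F.a - κ) * (-z.1 + z.2)) := by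
        have e1 : d.h2 * F.co.p * z.2 ≤ (d.h1 * F.co.q + (F.a - κ) * (F.co.p + F.co.q)) * z.2 :=
          mul_le_mul_of_nonneg_right (by linarith) h2
        have e2 : (d.h1 + (F.a - κ)) * (F.co.p * z.1 + F.co.q * z.2) ≤ 0 :=
          mul_nonpos_of_nonneg_of_nonpos (by linarith) hz'
        nlinarith
      exact le_of_mul_le_mul_left key (by linarith)
  · rcases le_total (z.2 : ℝ) 0 with h2 | h2
    · rw [abs_of_nonneg h1, abs_of_nonpos h2]
      rcases hq.eq_or_lt with hq0 | hq0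
      · rw [← hq0] at hz'
        have e0 : (z.1 : ℝ) ≤ 0 := by
          by_contra h
          push Not at h
          have : 0 < (F.co.p : ℝ) * z.1 := mul_pos (by linarith) h
          linarith
        have e1 : (z.1 : ℝ) = 0 := le_antisymm e0 h1
        rw [e1]
        have e2 : d.h2 * (z.2 : ℝ) ≤ 0 := mul_nonpos_of_nonneg_of_nonpos h2n h2
        have e3 : 0 ≤ (F.a - κ) * (0 + -(z.2 : ℝ)) := mul_nonneg hK (by linarith)
        linarith
      · have key : (F.co.q : ℝ) * (d.h1 * z.1 + d.h2 * z.2) ≤ F.co.q * ((F.a - κ) * (z.1 + -z.2)) := by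
          have e1 : d.h1 * F.co.q * z.1 ≤ (d.h2 * F.co.p + (F.a - κ) * (F.co.p + F.co.q)) * z.1 :=
            mul_le_mul_of_nonneg_right (by linarith) h1
          have e2 : (d.h2 + (F.a - κ)) * (F.co.p * z.1 + F.co.q * z.2) ≤ 0 :=
            mul_nonpos_of_nonneg_of_nonpos (by linarith) hz'
          nlinarith
        exact le_of_mul_le_mul_left key hq0
    · have e1 : (z.1 : ℝ) ≤ 0 := by
        have e2 : 0 ≤ (F.co.q : ℝ) * z.2 := mul_nonneg hq h2
        by_contra h
        push Not at h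
        have : 0 < (F.co.p : ℝ) * z.1 := mul_pos (by linarith) h
        linarith
      have e1' : (z.1 : ℝ) = 0 := le_antisymm e1 h1
      rw [e1'] at hz' ⊢
      rcases hq.eq_or_lt with hq0 | hq0
      · have h3 : d.h2 ≤ F.a - κ := by
          rw [← hq0] at hl2
          nlinarith
        rw [abs_zero, abs_of_nonneg h2, mul_zero, zero_add, zero_add]
        exact mul_le_mul_of_nonneg_right h3 h2
      · have e2 : (z.2 : ℝ) ≤ 0 := by
          by_contra h
          push Not at h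
          have : 0 < (F.co.q : ℝ) * z.2 := mul_pos hq0 h
          linarith
        have e3 : (z.2 : ℝ) = 0 := le_antisymm e2 h2
        rw [e3]
        simp

/-- The constant of `H_le`. -/
def bb (F : Fm) : ℝ := F.a + F.b

/-- The height of a displacement which increases the time by at most `T`. -/
theorem H_le (hd : Adm F κ d) {z : V} {T : ℕ} (hz : F.co.tm z ≤ T) : d.H z ≤ (F.a - κ) * nm z + bb F * T := by
  have hκ := hd.FrPiece_κ_le
  set z' : V := z - ((T : ℤ), 0) with hz'
  have h1 : F.co.tm z' ≤ 0 := by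
    have h2 := F.co.hp
    have h3 : F.co.tm (((T : ℤ), (0 : ℤ)) : V) = F.co.p * T := by simp [Co.tm]
    rw [hz', Co.tm_sub, h3]
    nlinarith
  have h2 := H_le_of_tm hd h1
  have h3 : d.H z = d.H z' + d.h1 * T := by
    rw [hz', H_sub]
    simp [Dr.H]
  have h4 : nm z' ≤ nm z + T := by
    have h5 := nm_add_le z (-((T : ℤ), (0 : ℤ)))
    rw [nm_neg] at h5
    have h6 : nm (((T : ℤ), (0 : ℤ)) : V) = T := by simp [nm]
    rw [h6] at h5
    rw [hz', sub_eq_add_neg]
    exact h5
  have h5 : d.h1 * (T : ℝ) ≤ F.b * T := mul_le_mul_of_nonneg_right hd.h1b (Nat.cast_nonneg _)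
  have h6 : (F.a - κ) * nm z' ≤ (F.a - κ) * (nm z + T) := mul_le_mul_of_nonneg_left h4 (by linarith)
  have h7 : 0 ≤ κ * (T : ℝ) := mul_nonneg hd.κ0.le (Nat.cast_nonneg _)
  unfold bb
  nlinarith

/-- The excess of a walk. -/
def exc (F : Fm) (d : Dr) (η : Env) {u v : V} (w : grid.Walk u v) : ℝ := cost (F.tau η) w - d.H (v - u)

theorem bdp (F : Fm) (η : Env) : Bd F.a F.b (F.tau η) := fun e => ⟨F.g1 (η e), F.g2 (η e)⟩

theorem exc_append (d : Dr) (η : Env) {u v z : V} (w : grid.Walk u v) (w' : grid.Walk v z) :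
    exc F d η (w.append w') = exc F d η w + exc F d η w' := by
  unfold exc
  rw [cost_append, H_sub, H_sub, H_sub]
  ring

/-- Walks which increase the time by at most `T` are not lucky. -/
theorem exc_ge (hd : Adm F κ d) (η : Env) {u v : V} (w : grid.Walk u v) {T : ℕ} (h : F.co.tm v ≤ F.co.tm u + T) :
    κ * nm (v - u) - bb F * T ≤ exc F d η w := by
  have h1 := le_cost (bdp F η) w
  have h2 := nm_le_length w
  have h3 : F.co.tm (v - u) ≤ T := by rw [Co.tm_sub]; omega
  have h4 := H_le hd h3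
  have h5 : F.a * nm (v - u) ≤ F.a * w.length := mul_le_mul_of_nonneg_left h2 F.a0.le
  unfold exc
  linarith

/-- The trivial pair. -/
theorem XP_self (F : Fm) (d : Dr) (η : Env) (P : Pt) : XP F d η P P = 0 := by
  unfold XP X
  rw [sub_self, sub_self, Int.toNat_zero, TT_zero (bdp F η) F.a0.le]
  simp

/-- The constant of a piece. -/
def CP (F : Fm) : ℝ := 4 * bb F * F.co.L + 6 * F.b + 2 * F.b * (F.co.R * F.co.L + 4) + 2 * F.b * (F.co.R * F.co.L) +
  2 * F.a * (F.co.R * F.co.L + 2)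

/-- A slab walk joins the grid points next to its ends: upper bound of the cost of a pair. -/
theorem XP_le_exc (hd : Adm F κ d) (η : Env) {i j : ℤ} (hij : i < j) {u v : V} (w : grid.Walk u v)
    (hw : ∀ z ∈ w.support, F.co.L * i < F.co.tm z ∧ F.co.tm z < F.co.L * j) (hu : F.co.tm u ≤ F.co.L * i + F.co.L)
    (hv : F.co.L * j - F.co.L ≤ F.co.tm v) :
    XP F d η (i, F.co.ps u) (j, F.co.ps v) ≤ exc F d η w + (2 * F.b * (F.co.R * F.co.L + 4) +
      2 * F.b * (F.co.R * F.co.L)) := by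
  have hL := F.co.L_pos
  have hLij : F.co.L * i ≤ F.co.L * j := mul_le_mul_of_nonneg_left hij.le (by omega)
  have hu0 := hw u w.start_mem_support
  have hv0 := hw v w.end_mem_support
  have hR1 : (0 : ℝ) ≤ F.co.R := by exact_mod_cast (zero_le_one.trans F.co.R_pos)
  have hb : 0 ≤ F.b := F.a0.le.trans F.ab
  -- the distances of the ends from the grid points
  have n1 : nm (F.co.vt (i, F.co.ps u) - u) ≤ F.co.R * F.co.L := by
    rw [nm_round]
    refine mul_le_mul_of_nonneg_left ?_ hR1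
    have : |F.co.L * i - F.co.tm u| ≤ F.co.L := by rw [abs_le]; omega
    exact_mod_cast this
  have n2 : nm (F.co.vt (j, F.co.ps v) - v) ≤ F.co.R * F.co.L := by
    rw [nm_round]
    refine mul_le_mul_of_nonneg_left ?_ hR1
    have : |F.co.L * j - F.co.tm v| ≤ F.co.L := by rw [abs_le]; omega
    exact_mod_cast this
  obtain ⟨w1, s1, l1⟩ := Co.slab_conn (c := F.co) hij (x := F.co.vt (i, F.co.ps u)) (y := u)
    (by rw [Co.tm_vt]; exact ⟨le_rfl, hLij⟩) ⟨hu0.1.le, hu0.2.le⟩
  obtain ⟨w3, s3, l3⟩ := Co.slab_conn (c := F.co) hij (x := v) (y := F.co.vt (j, F.co.ps v))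
    ⟨hv0.1.le, hv0.2.le⟩ (by rw [Co.tm_vt]; exact ⟨hLij, le_rfl⟩)
  have s2 : ∀ e ∈ wedges w, e ∈ F.co.slab i j :=
    Co.slab_of_win fun z hz => by have := hw z hz; omega
  have hsl : ∀ e ∈ wedges (w1.append (w.append w3)), e ∈ F.co.slab i j := by
    intro e he
    rw [wedges_append, wedges_append, List.mem_append, List.mem_append] at he
    rcases he with he | he | he
    · exact s1 e he
    · exact s2 e he
    · exact s3 e he
  have hTT : TR (F.co.slab i j) (F.tau η) (F.co.vt (i, F.co.ps u)) (F.co.vt (j, F.co.ps v)) ≤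
      F.b * w1.length + (cost (F.tau η) w + F.b * w3.length) := by
    refine (TR_le (bdp F η) F.a0.le _ hsl).trans ?_
    rw [cost_append, cost_append]
    have := cost_le (bdp F η) w1
    have := cost_le (bdp F η) w3
    linarith
  have hX : XP F d η (i, F.co.ps u) (j, F.co.ps v) =
      TR (F.co.slab i j) (F.tau η) (F.co.vt (i, F.co.ps u)) (F.co.vt (j, F.co.ps v)) -
        d.H (F.co.vt (j, F.co.ps v) - F.co.vt (i, F.co.ps u)) := by
    have e1 : ((j - i).toNat : ℤ) = j - i := Int.toNat_of_nonneg (by omega)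
    have e2 : (((j - i).toNat : ℕ) : ℝ) = (j : ℝ) - i := by
      have : (((j - i).toNat : ℤ) : ℝ) = ((j - i : ℤ) : ℝ) := by rw [e1]
      push_cast at this
      exact this
    unfold XP X TT
    rw [H_vt_sub]
    simp only
    rw [e2, e1]
    have e3 : ((i, F.co.ps u) : Pt) + (j - i, F.co.ps v - F.co.ps u) = (j, F.co.ps v) := by
      ext <;> simp
    rw [e3, show i + (j - i) = j by ring]
    push_cast
    ring
  have hH : d.H (v - u) - 2 * F.b * (F.co.R * F.co.L) ≤ d.H (F.co.vt (j, F.co.ps v) - F.co.vt (i, F.co.ps u)) := by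
    have e1 := H_abs_le hd (F.co.vt (i, F.co.ps u) - u)
    have e2 := H_abs_le hd (F.co.vt (j, F.co.ps v) - v)
    have e3 := mul_le_mul_of_nonneg_left n1 hb
    have e4 := mul_le_mul_of_nonneg_left n2 hb
    rw [H_sub] at e1 e2 ⊢
    rw [H_sub]
    rw [abs_le] at e1 e2
    linarith [e1.2, e2.1]
  rw [hX]
  unfold exc
  have m1 : nm (u - F.co.vt (i, F.co.ps u)) ≤ F.co.R * F.co.L := by rw [nm_sub_comm]; exact n1
  have e5 : F.b * (w1.length : ℝ) ≤ F.b * (F.co.R * F.co.L + 4) := mul_le_mul_of_nonneg_left (by linarith) hb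
  have e6 : F.b * (w3.length : ℝ) ≤ F.b * (F.co.R * F.co.L + 4) := mul_le_mul_of_nonneg_left (by linarith) hb
  linarith

theorem nm_adj_sub {x y : V} (h : grid.Adj x y) : nm (y - x) = 1 := nm_adj h

theorem exc_edge (hd : Adm F κ d) (η : Env) {u v : V} (h : grid.Adj u v) :
    -F.b ≤ exc F d η (SimpleGraph.Walk.cons h .nil) := by
  have h1 := le_cost (bdp F η) (SimpleGraph.Walk.cons h SimpleGraph.Walk.nil)
  have h2 := H_abs_le hd (v - u)
  rw [nm_adj h, abs_le] at h2
  have h3 : 0 ≤ F.a * ((SimpleGraph.Walk.cons h SimpleGraph.Walk.nil : grid.Walk u v).length : ℝ) :=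
    mul_nonneg F.a0.le (Nat.cast_nonneg _)
  unfold exc
  linarith [h2.2]

theorem ceil_div {L m : ℤ} (hL : 0 < L) : ∃ i : ℤ, m ≤ L * i ∧ L * i < m + L := by
  refine ⟨(m + L - 1) / L, ?_, ?_⟩
  · have h := Int.lt_mul_ediv_self_add (x := m + L - 1) hL
    omega
  · have h := Int.mul_ediv_self_le (x := m + L - 1) (k := L) hL.ne'
    omega

theorem floor_div {L m : ℤ} (hL : 0 < L) : ∃ i : ℤ, L * i ≤ m ∧ m < L * i + L :=
  ⟨m / L, Int.mul_ediv_self_le hL.ne', Int.lt_mul_ediv_self_add hL⟩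

/-- **PIECE.** A walk with all times in `[L s, L t]` contains a slab pair `P, Q` in `[s, t]`, and its excess is at least
`X(P, Q) + κ (|u - P| + |v - Q|) - CP`. -/
theorem piece (hd : Adm F κ d) (η : Env) {s t : ℤ} {u v : V} (w : grid.Walk u v)
    (hw : ∀ z ∈ w.support, F.co.L * s ≤ F.co.tm z ∧ F.co.tm z ≤ F.co.L * t) :
    ∃ P Q : Pt, IsPr s t P Q ∧
      XP F d η P Q + κ * (nm (u - F.co.vt P) + nm (v - F.co.vt Q)) - CP F ≤ exc F d η w := by
  classical
  have hL := F.co.L_pos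
  have hL0 : 0 < F.co.L := by omega
  have hLM := F.co.L_eq
  have hκ := hd.FrPiece_κ_le
  have hκ0 := hd.κ0
  have hb : 0 ≤ F.b := F.a0.le.trans F.ab
  have ha := F.a0
  have hR1 : (1 : ℝ) ≤ F.co.R := by exact_mod_cast F.co.R_pos
  have hLr : (2 : ℝ) ≤ F.co.L := by exact_mod_cast hL
  have hRL : 0 ≤ (F.co.R : ℝ) * F.co.L := by positivity
  have hbb : 0 ≤ bb F := by unfold bb; linarith
  -- the lowest time
  obtain ⟨z0, hz0, hmin⟩ := Finset.exists_min_image w.support.toFinset (fun z => F.co.tm z)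
    ⟨u, by simp⟩
  rw [List.mem_toFinset] at hz0
  have hmin' : ∀ z ∈ w.support, F.co.tm z0 ≤ F.co.tm z := fun z hz => hmin z (by simpa using hz)
  obtain ⟨i, hi1, hi2⟩ := ceil_div (L := F.co.L) (m := F.co.tm z0) hL0
  have hsi : s ≤ i := by
    have h1 := (hw z0 hz0).1
    have h2 : F.co.L * s ≤ F.co.L * i := h1.trans hi1
    exact le_of_mul_le_mul_left h2 hL0
  have hit : i ≤ t := by
    have h1 := (hw z0 hz0).2
    have h2 : F.co.L * i < F.co.L * (t + 1) := by rw [mul_add, mul_one]; omega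
    have h3 := lt_of_mul_lt_mul_left h2 hL0.le
    omega
  have hnat : ((F.co.L.toNat : ℕ) : ℤ) = F.co.L := Int.toNat_of_nonneg hL0.le
  have hnatr : ((F.co.L.toNat : ℕ) : ℝ) = F.co.L := by
    rw [← Int.cast_natCast, hnat]
  -- rounding of a vertex
  have rnd : ∀ (m : ℤ) (z : V), |F.co.L * m - F.co.tm z| ≤ F.co.L → nm (z - F.co.vt (m, F.co.ps z)) ≤
      F.co.R * F.co.L := by
    intro m z h
    rw [nm_sub_comm, nm_round]
    refine mul_le_mul_of_nonneg_left ?_ (by linarith)
    exact_mod_cast h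
  by_cases hv : F.co.L * i < F.co.tm v
  swap
  · -- the walk does not increase the time by more than `L`
    push Not at hv
    have h1 : F.co.tm v ≤ F.co.tm u + F.co.L.toNat := by
      have := hmin' u w.start_mem_support
      omega
    have h2 := exc_ge hd η w h1
    have h3 := hmin' v w.end_mem_support
    have h4 : nm (v - F.co.vt (i, F.co.ps v)) ≤ F.co.R * F.co.L := rnd i v (by rw [abs_le]; omega)
    have h5 : nm (u - F.co.vt (i, F.co.ps v)) ≤ nm (v - u) + F.co.R * F.co.L := by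
      have := nm_add_le (u - v) (v - F.co.vt (i, F.co.ps v))
      rw [sub_add_sub_cancel, nm_sub_comm u v] at this
      linarith
    refine ⟨(i, F.co.ps v), (i, F.co.ps v), ⟨hsi, hit, Or.inr rfl⟩, ?_⟩
    rw [XP_self]
    rw [hnatr] at h2
    have h6 : κ * (nm (u - F.co.vt (i, F.co.ps v)) + nm (v - F.co.vt (i, F.co.ps v))) ≤
        κ * (nm (v - u) + 2 * (F.co.R * F.co.L)) := mul_le_mul_of_nonneg_left (by linarith) hκ0.le
    have h7 : κ * (2 * (F.co.R * F.co.L)) ≤ F.a * (2 * (F.co.R * F.co.L)) :=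
      mul_le_mul_of_nonneg_right hκ (by positivity)
    unfold CP
    have h8 : 0 ≤ F.b * (F.co.R * F.co.L) := by positivity
    have h9 : 0 ≤ bb F * F.co.L := by positivity
    nlinarith
  -- the last vertex with a time at most `L i`
  obtain ⟨u', v', w1, h1, w2, e1, e2, e3⟩ :=
    Pool.Agent.W_1b8d5d_sc.split_last (fun z => F.co.L * i < F.co.tm z) w
      ⟨z0, hz0, by simp only [not_lt]; exact hi1⟩ hv
  simp only [not_lt] at e2 e3
  have hsup1 : ∀ z ∈ w1.support, z ∈ w.support := by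
    intro z hz
    rw [e1, SimpleGraph.Walk.mem_support_append_iff]
    exact Or.inl hz
  have hsup2 : ∀ z ∈ w2.support, z ∈ w.support := by
    intro z hz
    rw [e1, SimpleGraph.Walk.mem_support_append_iff, SimpleGraph.Walk.support_cons]
    exact Or.inr (List.mem_cons_of_mem _ hz)
  have hadj := tm_adj F.co h1
  have hu' := hmin' u' (hsup1 u' w1.end_mem_support)
  have hw1 : κ * nm (u' - u) - bb F * F.co.L ≤ exc F d η w1 := by
    have := exc_ge hd η w1 (T := F.co.L.toNat) (by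
      have := hmin' u w.start_mem_support
      omega)
    rwa [hnatr] at this
  have hexc : exc F d η w = exc F d η w1 + (exc F d η (SimpleGraph.Walk.cons h1 .nil) + exc F d η w2) := by
    rw [← exc_append, ← exc_append]
    congr 1
  have hedge1 := exc_edge hd η h1
  have hv' := e2 v' w2.start_mem_support
  -- the highest time of the rest
  obtain ⟨z1, hz1, hmax⟩ := Finset.exists_max_image w2.support.toFinset (fun z => F.co.tm z)
    ⟨v', by simp⟩
  rw [List.mem_toFinset] at hz1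
  have hmax' : ∀ z ∈ w2.support, F.co.tm z ≤ F.co.tm z1 := fun z hz => hmax z (by simpa using hz)
  obtain ⟨j, hj1, hj2⟩ := floor_div (L := F.co.L) (m := F.co.tm z1) hL0
  have hjt : j ≤ t := by
    have h2 := (hw z1 (hsup2 z1 hz1)).2
    exact le_of_mul_le_mul_left (hj1.trans h2) hL0
  have n0 : nm (v' - u') = 1 := nm_adj h1
  have nP : nm (v' - F.co.vt (i, F.co.ps v')) ≤ F.co.R * F.co.L := rnd i v' (by rw [abs_le]; omega)
  have nu : nm (u - F.co.vt (i, F.co.ps v')) ≤ nm (u' - u) + 1 + F.co.R * F.co.L := by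
    have a1 := nm_add_le (u - u') (u' - v')
    have a2 := nm_add_le (u - v') (v' - F.co.vt (i, F.co.ps v'))
    rw [sub_add_sub_cancel] at a1 a2
    rw [nm_sub_comm u u', nm_sub_comm u' v', n0] at a1
    linarith
  rcases le_or_gt j i with hji | hij
  · -- trivial pair
    have h2 : F.co.tm v ≤ F.co.tm v' + F.co.L.toNat := by
      have := hmax' v w2.end_mem_support
      have h3 : F.co.L * j ≤ F.co.L * i := mul_le_mul_of_nonneg_left hji hL0.le
      omega
    have h3 := exc_ge hd η w2 h2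
    rw [hnatr] at h3
    have h5 : nm (v - F.co.vt (i, F.co.ps v')) ≤ nm (v - v') + F.co.R * F.co.L := by
      have := nm_add_le (v - v') (v' - F.co.vt (i, F.co.ps v'))
      rw [sub_add_sub_cancel] at this
      linarith
    refine ⟨(i, F.co.ps v'), (i, F.co.ps v'), ⟨hsi, hit, Or.inr rfl⟩, ?_⟩
    rw [XP_self, hexc]
    have h6 : κ * (nm (u - F.co.vt (i, F.co.ps v')) + nm (v - F.co.vt (i, F.co.ps v'))) ≤
        κ * ((nm (u' - u) + 1 + F.co.R * F.co.L) + (nm (v - v') + F.co.R * F.co.L)) :=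
      mul_le_mul_of_nonneg_left (by linarith) hκ0.le
    have h7 : κ * (1 + 2 * (F.co.R * F.co.L)) ≤ F.a * (1 + 2 * (F.co.R * F.co.L)) :=
      mul_le_mul_of_nonneg_right hκ (by positivity)
    have h8 : 0 ≤ F.b * (F.co.R * F.co.L) := by positivity
    have h9 : 0 ≤ bb F * F.co.L := by positivity
    unfold CP
    nlinarith
  · -- the first vertex with a time at least `L j`
    have hLij : F.co.L * i + F.co.L ≤ F.co.L * j := by
      have : F.co.L * (i + 1) ≤ F.co.L * j := mul_le_mul_of_nonneg_left (by omega) hL0.le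
      linarith [mul_add F.co.L i 1]
    obtain ⟨u'', v'', w3, h2, w4, f1, f2, f3⟩ :=
      Pool.Agent.W_1b8d5d_sc.split_first (fun z => F.co.L * j ≤ F.co.tm z) w2
        (by simp only [not_le]; omega) ⟨z1, hz1, hj1⟩
    simp only [not_le] at f2
    have hadj2 := tm_adj F.co h2
    have hsup3 : ∀ z ∈ w3.support, z ∈ w2.support := by
      intro z hz
      rw [f1, SimpleGraph.Walk.mem_support_append_iff]
      exact Or.inl hz
    have hw3 : ∀ z ∈ w3.support, F.co.L * i < F.co.tm z ∧ F.co.tm z < F.co.L * j :=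
      fun z hz => ⟨e2 z (hsup3 z hz), f2 z hz⟩
    have hX := XP_le_exc hd η hij w3 hw3 (by omega) (by omega)
    have hw4 : κ * nm (v - v'') - bb F * F.co.L ≤ exc F d η w4 := by
      have := exc_ge hd η w4 (T := F.co.L.toNat) (by
        have := hmax' v w2.end_mem_support
        omega)
      rwa [hnatr] at this
    have hexc2 : exc F d η w2 = exc F d η w3 + (exc F d η (SimpleGraph.Walk.cons h2 .nil) + exc F d η w4) := by
      rw [← exc_append, ← exc_append]
      congr 1
    have hedge2 := exc_edge hd η h2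
    have n3 : nm (v'' - u'') = 1 := nm_adj h2
    have hu2 := f2 u'' w3.end_mem_support
    have nQ : nm (u'' - F.co.vt (j, F.co.ps u'')) ≤ F.co.R * F.co.L := rnd j u'' (by rw [abs_le]; omega)
    have nv : nm (v - F.co.vt (j, F.co.ps u'')) ≤ nm (v - v'') + 1 + F.co.R * F.co.L := by
      have a1 := nm_add_le (v - v'') (v'' - u'')
      have a2 := nm_add_le (v - u'') (u'' - F.co.vt (j, F.co.ps u''))
      rw [sub_add_sub_cancel] at a1 a2
      rw [n3] at a1
      linarith
    refine ⟨(i, F.co.ps v'), (j, F.co.ps u''), ⟨hsi, hjt, Or.inl hij⟩, ?_⟩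
    rw [hexc, hexc2]
    have h6 : κ * (nm (u - F.co.vt (i, F.co.ps v')) + nm (v - F.co.vt (j, F.co.ps u''))) ≤
        κ * ((nm (u' - u) + 1 + F.co.R * F.co.L) + (nm (v - v'') + 1 + F.co.R * F.co.L)) :=
      mul_le_mul_of_nonneg_left (by linarith) hκ0.le
    have h7 : κ * (2 + 2 * (F.co.R * F.co.L)) ≤ F.a * (2 + 2 * (F.co.R * F.co.L)) :=
      mul_le_mul_of_nonneg_right hκ (by positivity)
    have h8 : 0 ≤ F.b * (F.co.R * F.co.L) := by positivity
    have h9 : 0 ≤ bb F * F.co.L := by positivity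
    unfold CP
    nlinarith

end

end Pool.Agent.W_1b8d5d_p
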