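import Pool.Agent.W_1b8d5d_p.HfB80
import Pool.Agent.W_1b8d5d_p.VMean
import Pool.Agent.W_1b8d5d_p.Width99

/-!
MP_1b8d5d_pr, Track P, HF2 (proofs row 645, (iii)): SEPARATION with numbers, at one scale and for a family of directions.
-/

namespace Pool.Agent.W_1b8d5d_p

open MeasureTheory Set
open Pool.Agent.W_1b8d5d_h85

noncomputable section

variable {F : Fm} {κ K k1 K1 a : ℝ} {d : Dr} {Ds : Set Dr}

/-- **SEPARATION AT ONE SCALE**, with numbers: `E` the unit, `w` the width, `C`, `c` the constants of (L*). -/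
theorem sep_scale80 (hd : Adm F κ d) (ht : Touch F d) (hk : Lat F κ k1 K1 d) {E w c C : ℝ} (hE : 0 < E) (hw : 0 < w)
    (hc : 0 < c) (hC : 1 ≤ C) (h1 : c * E / w ≤ k1 / 2) (h2 : C * E ≤ k1 / 2 * w) (hCP : CP F ≤ E) {m : ℕ} (hm : 1 ≤ m)
    (hL : ∀ o : ℝ, ∫ η, Real.exp (1 / (C * E) * TL F d (c * E / w) o w m η) ∂(law F) ≤ C) {y : ℤ}
    (he : e F d m y ≤ E) (hes : es F d m ≤ E) {P : ℝ} (hP : 1 ≤ P) {a1 a2 : Pt}
    (hsep : 2 * (128 * P + 2 * (C * Real.log (640 * C * P)) + 2) * w < c * |lat d a2 - lat d a1|) (b : ℝ) :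
    ∃ c0 : ℝ, (law F).real {η | b < |X F d η 0 m y - c0|} ≤
      (law F).real {η | b < |X F d η a1 m y - X F d η a2 m y|} + 3 / (32 * P) := by
  have hC0 : 0 < C := by linarith
  have hP0 : 0 < P := by linarith
  have hCE : 0 < C * E := by positivity
  obtain ⟨y1, hy1⟩ := es_attained hd m
  have hep : ep F d m y ≤ 2 * E := by
    have := ep_le_e_add hd ht hm y y1
    linarith
  obtain ⟨ℓ, hℓ⟩ : ∃ ℓ, ℓ = Real.log (640 * C * P) := ⟨_, rfl⟩
  have hs1 : 2 * (128 * P * E + 2 * (C * ℓ * E) + 2 * CP F) < c * E / w * |lat d a2 - lat d a1| := by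
    rw [← hℓ] at hsep
    have h3 := mul_lt_mul_of_pos_right hsep (show 0 < E / w by positivity)
    have e1 : 2 * (128 * P + 2 * (C * ℓ) + 2) * w * (E / w) = 2 * (128 * P * E + 2 * (C * ℓ * E) + 2 * E) := by
      field_simp
    have e2 : c * |lat d a2 - lat d a1| * (E / w) = c * E / w * |lat d a2 - lat d a1| := by
      field_simp
    rw [e1, e2] at h3
    linarith
  obtain ⟨c0, hc0⟩ := sep80 hd hk (s := c * E / w) (W := w) (θ := 1 / (C * E)) (C := C) (by positivity) h1 hw (by positivity)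
    (by rw [one_div, inv_mul_eq_div, le_div_iff₀ hCE]; linarith) hm hL y (y0 := C * ℓ * E) (Z := 128 * P * E) hs1 b
  refine ⟨c0, hc0.trans ?_⟩
  have e3 : 10 * C * Real.exp (-(1 / (C * E) * (C * ℓ * E))) = 1 / (64 * P) := by
    have e4 : 1 / (C * E) * (C * ℓ * E) = ℓ := by
      field_simp
    rw [e4, hℓ, Real.exp_neg, Real.exp_log (by positivity)]
    field_simp
    norm_num
  have h5 : (law F).real {η | 128 * P * E < X F d η 0 m y} ≤ 1 / (64 * P) := by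
    have h6 : {η : Env | 128 * P * E < X F d η 0 m y} ⊆ {η : Env | 128 * P * E ≤ max (X F d η 0 m y) 0} := by
      intro η hη
      have h7 : 128 * P * E < X F d η 0 m y := hη
      exact h7.le.trans (le_max_left _ _)
    have h8 := mul_meas_ge_le_integral_of_nonneg (μ := law F) (f := fun η => max (X F d η 0 m y) 0)
      (Filter.Eventually.of_forall fun η => le_max_right _ _) ((X_integrable hd 0 hm y).pos_part) (128 * P * E)
    have h9 : ∫ η, max (X F d η 0 m y) 0 ∂(law F) ≤ 2 * E := hep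
    have h10 := (measureReal_mono h6 (measure_ne_top (law F) _))
    have h11 : 128 * P * E * (law F).real {η | 128 * P * E ≤ max (X F d η 0 m y) 0} ≤ 2 * E := h8.trans h9
    have h12 : (law F).real {η | 128 * P * E ≤ max (X F d η 0 m y) 0} ≤ 1 / (64 * P) := by
      rw [le_div_iff₀ (by positivity)]
      have h13 : 2 * E * ((law F).real {η | 128 * P * E ≤ max (X F d η 0 m y) 0} * (64 * P)) ≤ 2 * E * 1 := by
        linarith
      exact le_of_mul_le_mul_left h13 (by positivity)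
    exact h10.trans h12
  rw [e3]
  have e6 : 3 / (32 * P) = 3 * (1 / (64 * P) + 1 / (64 * P)) := by
    field_simp
    norm_num
  rw [e6]
  have : (law F).real {η | 128 * P * E < X F d η 0 m y} ≤ 1 / (64 * P) := h5
  linarith

/-- (L*) for the durations `≤ n`, for a family of directions, in units. -/
def LS80 (a : ℝ) (F : Fm) (Ds : Set Dr) : Prop :=
  ∃ (C c : ℝ) (n0 : ℕ), 1 ≤ C ∧ 0 < c ∧ 1 ≤ n0 ∧ ∀ d ∈ Ds, ∀ n : ℕ, n0 ≤ n → ∀ N ≤ n, ∀ o : ℝ,
    ∫ η, Real.exp (1 / (C * EE F d n) * TL F d (c * EE F d n / (n * vA a F d n)) o (n * vA a F d n) N η) ∂(law F) ≤ C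

/-- **SEPARATION**, family form: durations `m ≤ 2 ^ T n`, distance at least `c8 2 ^ S n vA n`. -/
theorem sep_T80 (hD : Dirs F κ K Ds) (hR : Rate F Ds) (hG : Grow F Ds) (ha : 0 < a) (hLS : LS80 a F Ds) (T : ℕ) {P c8 : ℝ}
    (hP : 1 ≤ P) (hc8 : 0 < c8) : ∃ S0 n1 : ℕ, 1 ≤ n1 ∧ ∀ S : ℕ, S0 ≤ S → ∀ d ∈ Ds, ∀ n : ℕ, n1 ≤ n → ∀ m : ℕ, 1 ≤ m →
      m ≤ 2 ^ T * n → ∀ y : ℤ, e F d m y ≤ EE F d n → ∀ a1 a2 : Pt,
      c8 * (2 ^ S * (n * vA a F d n)) ≤ |lat d a2 - lat d a1| → ∀ b : ℝ,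
      ∃ c0 : ℝ, (law F).real {η | b < |X F d η 0 m y - c0|} ≤
        (law F).real {η | b < |X F d η a1 m y - X F d η a2 m y|} + 3 / (32 * P) := by
  rcases Ds.eq_empty_or_nonempty with h0 | ⟨d0, hd0⟩
  · refine ⟨0, 1, le_rfl, fun S _ d hd => ?_⟩
    rw [h0] at hd
    exact absurd hd (notMem_empty _)
  obtain ⟨C, c, n0, hC, hc, hn0, hL⟩ := hLS
  have hC0 : 0 < C := by linarith
  have hκ := (hD.adm d0 hd0).κ0
  have hK0 : 0 ≤ K := (abs_nonneg _).trans (hD.slope d0 hd0)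
  have hR1 : (1 : ℝ) ≤ F.co.R := by exact_mod_cast F.co.R_pos
  obtain ⟨K1, hK1⟩ : ∃ K1 : ℝ, K1 = F.co.R + K := ⟨_, rfl⟩
  have hK1p : 0 < K1 := by rw [hK1]; linarith
  obtain ⟨k1, hk1⟩ : ∃ k1 : ℝ, k1 = κ / K1 := ⟨_, rfl⟩
  have hk1p : 0 < k1 := by rw [hk1]; positivity
  have hlat : ∀ d ∈ Ds, Lat F κ k1 K1 d := fun d hd => ⟨hk1p, by rw [hK1]; linarith [hD.slope d hd], by
    rw [hk1, div_mul_cancel₀ _ hK1p.ne']⟩
  obtain ⟨nw, hnw, hw⟩ := hD.w_large hR ha (2 * (c + C) / k1)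
  obtain ⟨ng, hng⟩ := hG (CP F)
  obtain ⟨Q, hQ⟩ : ∃ Q : ℝ, Q = 2 * (128 * P + 2 * (C * Real.log (640 * C * P)) + 2) := ⟨_, rfl⟩
  obtain ⟨S0, hS0⟩ := pow_unbounded_of_one_lt (Q * 2 ^ T / (c * c8)) (one_lt_two (α := ℝ))
  refine ⟨S0, max n0 (max nw (max ng 1)), le_trans (le_max_right ng 1) ((le_max_right nw _).trans (le_max_right n0 _)), ?_⟩
  intro S hS d hd n hn m hm hmn y he a1 a2 hdist b
  have hn1 : n0 ≤ n := (le_max_left _ _).trans hn
  have hn2 : nw ≤ n := ((le_max_left _ _).trans (le_max_right _ _)).trans hn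
  have hn3 : ng ≤ n := (((le_max_left _ _).trans (le_max_right _ _)).trans (le_max_right _ _)).trans hn
  have hn4 : 1 ≤ n := hn0.trans hn1
  obtain ⟨n', hn'⟩ : ∃ n', n' = 2 ^ T * n := ⟨_, rfl⟩
  have hT1 : 1 ≤ 2 ^ T := Nat.one_le_two_pow
  have hnn' : n ≤ n' := by
    rw [hn']
    exact Nat.le_mul_of_pos_left n (by positivity)
  have hn'1 : 1 ≤ n' := hn4.trans hnn'
  have hE := EE_pos F d n'
  have hEE := EE_mono F d hnn'
  have hv := hD.vA_pos hd ha hn'1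
  have hn'0 : (0 : ℝ) < n' := by exact_mod_cast hn'1
  have hw0 : 0 < n' * vA a F d n' := by positivity
  have hwl := hw d hd n' (hn2.trans hnn')
  rw [div_mul_eq_mul_div, div_le_iff₀ hk1p] at hwl
  have hw' : n' * vA a F d n' ≤ 2 ^ T * (n * vA a F d n) := by
    have h1 := hD.vA_mul_le hd ha.le hn4 (k := 2 ^ T) hT1
    rw [hn']
    push_cast
    rw [mul_assoc]
    exact mul_le_mul_of_nonneg_left (mul_le_mul_of_nonneg_left h1 (Nat.cast_nonneg _)) (by positivity)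
  have hwn : 0 < n * vA a F d n := by
    have h1 := hD.vA_pos hd ha hn4
    have h2 : (0 : ℝ) < n := by exact_mod_cast hn4
    positivity
  have hQ0 : 0 ≤ Q := by
    rw [hQ]
    have : 0 ≤ Real.log (640 * C * P) := Real.log_nonneg (by nlinarith)
    positivity
  refine sep_scale80 (hD.adm d hd) (hD.touch d hd) (hlat d hd) (E := EE F d n') (w := n' * vA a F d n') (c := c) (C := C)
    hE hw0 hc hC ?_ ?_ ((hng d hd n' (hn3.trans hnn'))) hm (fun o => hL d hd n' (hn1.trans hnn') m (by rw [hn']; exact hmn) o)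
    (he.trans hEE) ?_ hP ?_ b
  · rw [div_le_iff₀ hw0]
    nlinarith
  · nlinarith
  · have h1 := le_EE F d (show m ≤ n' by rw [hn']; exact hmn)
    have h2 := Cr_pos F
    linarith
  · rw [← hQ]
    have h3 : Q * 2 ^ T < c * c8 * 2 ^ S := by
      rw [div_lt_iff₀ (by positivity)] at hS0
      have h4 : (2 : ℝ) ^ S0 ≤ 2 ^ S := pow_le_pow_right₀ (by norm_num) hS
      nlinarith [mul_pos hc hc8]
    calc Q * (n' * vA a F d n') ≤ Q * (2 ^ T * (n * vA a F d n)) := mul_le_mul_of_nonneg_left hw' hQ0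
      _ = Q * 2 ^ T * (n * vA a F d n) := by ring
      _ < c * c8 * 2 ^ S * (n * vA a F d n) := mul_lt_mul_of_pos_right h3 hwn
      _ = c * (c8 * (2 ^ S * (n * vA a F d n))) := by ring
      _ ≤ c * |lat d a2 - lat d a1| := mul_le_mul_of_nonneg_left hdist hc.le

end

end Pool.Agent.W_1b8d5d_p
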