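import Pool.Agent.W_1b8d5d_p.Unit1
import Pool.Agent.W_1b8d5d_p.LevJ

/-!
MP_1b8d5d_pr, Track P. The width `vA`: the total length of the level set `{n J ≤ A EE n}`, an interval `[-vl, vr]`; the exponents
`gg` (unit) and `ff` (width) of the octave `x`.
-/

namespace Pool.Agent.W_1b8d5d_p

open MeasureTheory Set

noncomputable section

/-- The right width of the level set `{n J ≤ A EE n}`. -/
def vr (A : ℝ) (F : Fm) (d : Dr) (n : ℕ) : ℝ := wR (J F d) (A * EE F d n / n)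

/-- The left width. -/
def vl (A : ℝ) (F : Fm) (d : Dr) (n : ℕ) : ℝ := wL (J F d) (A * EE F d n / n)

/-- **The width.** -/
def vA (A : ℝ) (F : Fm) (d : Dr) (n : ℕ) : ℝ := vr A F d n + vl A F d n

/-- The exponent of the unit. -/
def gg (F : Fm) (d : Dr) (x : ℕ) : ℝ := Real.logb 2 (EE F d (2 ^ x))

/-- The exponent of the width. -/
def ff (A : ℝ) (F : Fm) (d : Dr) (x : ℕ) : ℝ := -Real.logb 2 (vA A F d (2 ^ x))

variable {F : Fm} {κ K : ℝ} {A : Set Dr}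

/-- The rate function of a direction of the family. -/
theorem Dirs.rf (h : Dirs F κ K A) {d : Dr} (hd : d ∈ A) : Rf (J F d) where
  conv := J_convex F d
  zero := (h.touch d hd).zero
  nn := (h.touch d hd).nn
  grow := by
    obtain ⟨j, hj, hj1⟩ := h.strict 1 one_pos
    exact ⟨j, 1, hj, fun x hx => hj1 d hd x hx⟩

variable {a : ℝ} {d : Dr} {n : ℕ}

theorem lev_nonneg (ha : 0 ≤ a) : 0 ≤ a * EE F d n / n :=
  div_nonneg (mul_nonneg ha (EE_pos F d n).le) (Nat.cast_nonneg _)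

theorem lev_iff (hn : 1 ≤ n) (x : ℝ) : J F d x ≤ a * EE F d n / n ↔ n * J F d x ≤ a * EE F d n := by
  have hn0 : (0 : ℝ) < n := by exact_mod_cast hn
  rw [le_div_iff₀ hn0, mul_comm]

theorem Dirs.vr_nonneg (h : Dirs F κ K A) (hd : d ∈ A) (ha : 0 ≤ a) (n : ℕ) : 0 ≤ vr a F d n :=
  (h.rf hd).wR_nonneg (lev_nonneg ha)

theorem Dirs.vl_nonneg (h : Dirs F κ K A) (hd : d ∈ A) (ha : 0 ≤ a) (n : ℕ) : 0 ≤ vl a F d n :=
  (h.rf hd).wL_nonneg (lev_nonneg ha)

theorem Dirs.J_vr (h : Dirs F κ K A) (hd : d ∈ A) (ha : 0 ≤ a) (hn : 1 ≤ n) : n * J F d (vr a F d n) = a * EE F d n := by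
  have hn0 : (n : ℝ) ≠ 0 := by exact_mod_cast (show n ≠ 0 by omega)
  unfold vr
  rw [(h.rf hd).J_wR (lev_nonneg ha), mul_div_cancel₀ _ hn0]

theorem Dirs.J_vl (h : Dirs F κ K A) (hd : d ∈ A) (ha : 0 ≤ a) (hn : 1 ≤ n) : n * J F d (-vl a F d n) = a * EE F d n := by
  have hn0 : (n : ℝ) ≠ 0 := by exact_mod_cast (show n ≠ 0 by omega)
  unfold vl
  rw [(h.rf hd).J_wL (lev_nonneg ha), mul_div_cancel₀ _ hn0]

/-- The level set is the interval `[-vl, vr]`. -/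
theorem Dirs.lev (h : Dirs F κ K A) (hd : d ∈ A) (ha : 0 ≤ a) (hn : 1 ≤ n) (x : ℝ) :
    n * J F d x ≤ a * EE F d n ↔ -vl a F d n ≤ x ∧ x ≤ vr a F d n := by
  rw [← lev_iff hn]
  exact (h.rf hd).level_iff (lev_nonneg ha)

/-- The slopes of the level set are at most the width. -/
theorem Dirs.lev_abs (h : Dirs F κ K A) (hd : d ∈ A) (ha : 0 ≤ a) (hn : 1 ≤ n) {x : ℝ}
    (hx : n * J F d x ≤ a * EE F d n) : |x| ≤ vA a F d n := by
  have h1 := (h.lev hd ha hn x).1 hx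
  have h2 := h.vr_nonneg hd ha n
  have h3 := h.vl_nonneg hd ha n
  unfold vA
  rw [abs_le]
  constructor <;> linarith [h1.1, h1.2]

/-- The levels. -/
theorem lev_two (ha : 0 ≤ a) (hn : 1 ≤ n) : a * EE F d (2 * n) / ((2 * n : ℕ) : ℝ) ≤ a * EE F d n / n := by
  have hn0 : (0 : ℝ) < n := by exact_mod_cast hn
  have h1 := EE_mul F d n (k := 2) (by norm_num)
  push_cast at h1 ⊢
  rw [div_le_div_iff₀ (by positivity) hn0]
  have h2 := mul_le_mul_of_nonneg_left h1 (mul_nonneg ha hn0.le)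
  linarith

theorem lev_half (ha : 0 ≤ a) {m : ℕ} (hn : 1 ≤ n) (hnm : n ≤ m) (hm : m ≤ 2 * n) :
    a * EE F d n / n ≤ 2 * (a * EE F d m / m) := by
  have hn0 : (0 : ℝ) < n := by exact_mod_cast hn
  have hm0 : (0 : ℝ) < m := by exact_mod_cast (show 0 < m by omega)
  have h1 := mul_le_mul_of_nonneg_left (EE_mono F d hnm) ha
  have h2 : (m : ℝ) ≤ 2 * n := by exact_mod_cast hm
  rw [← mul_div_assoc, div_le_div_iff₀ hn0 hm0]
  have h3 : 0 ≤ a * EE F d m := mul_nonneg ha (EE_pos F d m).le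
  have h4 : a * EE F d n * m ≤ a * EE F d m * m := mul_le_mul_of_nonneg_right h1 hm0.le
  have h5 : a * EE F d m * m ≤ a * EE F d m * (2 * n) := mul_le_mul_of_nonneg_left h2 h3
  linarith

/-- The widths do not increase under doubling. -/
theorem Dirs.vA_two_le (h : Dirs F κ K A) (hd : d ∈ A) (ha : 0 ≤ a) (hn : 1 ≤ n) : vA a F d (2 * n) ≤ vA a F d n :=
  add_le_add ((h.rf hd).wR_mono (lev_nonneg ha) (lev_two ha hn)) ((h.rf hd).wL_mono (lev_nonneg ha) (lev_two ha hn))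

/-- The widths lose at most a factor `2` between `n` and `2 n`. -/
theorem Dirs.vA_half (h : Dirs F κ K A) (hd : d ∈ A) (ha : 0 ≤ a) (hn : 1 ≤ n) {m : ℕ} (hnm : n ≤ m) (hm : m ≤ 2 * n) :
    vA a F d n ≤ 2 * vA a F d m := by
  have h1 := (h.rf hd).wR_mono (lev_nonneg ha) (lev_half (F := F) (d := d) ha hn hnm hm)
  have h2 := (h.rf hd).wL_mono (lev_nonneg ha) (lev_half (F := F) (d := d) ha hn hnm hm)
  have h3 := (h.rf hd).wR_mul (B := a * EE F d m / m) (t := 2) (lev_nonneg ha) (by norm_num)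
  have h4 := (h.rf hd).wL_mul (B := a * EE F d m / m) (t := 2) (lev_nonneg ha) (by norm_num)
  unfold vA vr vl
  linarith

end

end Pool.Agent.W_1b8d5d_p
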