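import Pool.Agent.W_1b8d5d_p.Curv
import Pool.Agent.W_1b8d5d_p.UnitV

/-!
MP_1b8d5d_pr, Track P: from the closing of the cone along the octaves, uniform in the direction, to the lower bound of power type of
the rate functions.
-/

namespace Pool.Agent.W_1b8d5d_p

open Set

/-- **From the chain to the core.** -/
theorem core_of_chain {F : Fm} {κ K : ℝ} {A : Set Dr} (hD : Dirs F κ K A) {a c C : ℝ} (ha : 0 < a) (hc : 0 < c)
    (h : ∀ d ∈ A, ∀ x : ℕ, c * x - C ≤ ff a F d x) :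
    ∃ c0 K0 δ : ℝ, 0 < c0 ∧ 0 < K0 ∧ 0 < δ ∧ ∀ d ∈ A, ∀ x : ℝ, |x| ≤ δ → c0 * |x| ^ K0 ≤ J F d x := by
  have hm : 0 < a * Cr F := mul_pos ha (Cr_pos F)
  refine ⟨a * Cr F * (2 : ℝ) ^ (-1 - max C 0 / c), 1 / c, 1, by positivity, by positivity, one_pos, fun d hd v hv => ?_⟩
  have hJ0 : 0 ≤ J F d v := (hD.touch d hd).nn v
  have key := pow_of_cone (J := fun v => J F d v / (a * Cr F)) (η := 1) hc (le_max_right C 0) le_rfl (by
    intro x v _ hx
    have h1 : ((2 ^ x : ℕ) : ℝ) * J F d v ≤ a * EE F d (2 ^ x) := by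
      push_cast
      have h2 : (2 : ℝ) ^ x * J F d v ≤ a * Cr F := by
        have h3 : (2 : ℝ) ^ x * (J F d v / (a * Cr F)) = (2 : ℝ) ^ x * J F d v / (a * Cr F) := by ring
        rw [h3, div_le_one hm] at hx
        exact hx
      exact h2.trans (mul_le_mul_of_nonneg_left (Cr_le_EE F d _) ha.le)
    have h2 := hD.lev_abs hd ha.le (Nat.one_le_two_pow) h1
    refine h2.trans ?_
    rcases le_or_gt (vA a F d (2 ^ x)) 0 with h3 | h3
    · exact h3.trans (by positivity)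
    · have h4 := h d hd x
      unfold ff at h4
      have h5 : Real.logb 2 (vA a F d (2 ^ x)) ≤ max C 0 - c * x := by
        have := le_max_left C 0
        linarith
      calc vA a F d (2 ^ x) = (2 : ℝ) ^ Real.logb 2 (vA a F d (2 ^ x)) := (Real.rpow_logb two_pos (by norm_num) h3).symm
        _ ≤ (2 : ℝ) ^ (max C 0 - c * x) := Real.rpow_le_rpow_of_exponent_le (by norm_num) h5) v hv (div_nonneg hJ0 hm.le)
  rw [le_div_iff₀ hm] at key
  calc a * Cr F * (2 : ℝ) ^ (-1 - max C 0 / c) * |v| ^ (1 / c) =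
      (2 : ℝ) ^ (-1 - max C 0 / c) * |v| ^ (1 / c) * (a * Cr F) := by ring
    _ ≤ J F d v := key

end Pool.Agent.W_1b8d5d_p
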