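import Pool.Agent.W_1b8d5d_p.FrSlope

/-!
MP_1b8d5d_pr, Track P, frame: the forms of (L*). Everything follows from the one hypothesis
`∀ o, ∫ exp (θ TL F d t o W k) ≤ B`.
-/

namespace Pool.Agent.W_1b8d5d_p

open MeasureTheory Set
open Pool.Agent.W_1b8d5d_h85 (V nm dir Edge Env grid wedges cost rf)

noncomputable section

variable {F : Fm} {κ k1 K1 : ℝ} {d : Dr} {K C0 C1 t δ o W θ B : ℝ} {k : ℕ} {η : Env}

/-- The pairs in the rows `[0, k]`. -/
def PrS (k : ℕ) : Set (Pt × Pt) := {w | 0 ≤ w.1.1 ∧ w.1.1 ≤ w.2.1 ∧ w.2.1 ≤ k ∧ (w.1.1 = w.2.1 → w.1 = w.2)}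

/-- The largest tilted luck of all pairs in the rows `[0, k]`, with the price `δ` per unit of the distance of the starting point
from the box `[o, o + W]`. -/
def MT (F : Fm) (d : Dr) (t δ o W : ℝ) (k : ℕ) (η : Env) : ℝ :=
  ⨆ w : PrS k, (t * |lat d w.1.2 - lat d w.1.1| - XP F d η w.1.1 w.1.2 - δ * dI o (o + W) (lat d w.1.1))

theorem PrS_ne (k : ℕ) : Nonempty (PrS k) := ⟨⟨((0, 0), (0, 0)), le_rfl, le_rfl, by simp, fun _ => rfl⟩⟩

theorem MT_bd (h : Sl F d K C0 C1) (ht : t ≤ K) (hδ : 0 ≤ δ) (o W : ℝ) (η : Env) (w : PrS k) :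
    t * |lat d w.1.2 - lat d w.1.1| - XP F d η w.1.1 w.1.2 - δ * dI o (o + W) (lat d w.1.1) ≤ (C1 + K * |d.v|) * k := by
  obtain ⟨h1, h2, h3, h4⟩ := w.2
  have h5 := tilt_le h ht η h2 h4
  have h6 : (C1 + K * |d.v|) * ((w.1.2.1 : ℝ) - w.1.1.1) ≤ (C1 + K * |d.v|) * k := by
    refine mul_le_mul_of_nonneg_left ?_ (bnd_nonneg h)
    have e1 : (0 : ℝ) ≤ w.1.1.1 := by exact_mod_cast h1
    have e2 : (w.1.2.1 : ℝ) ≤ k := by exact_mod_cast h3
    linarith
  have h7 : 0 ≤ δ * dI o (o + W) (lat d w.1.1) := mul_nonneg hδ (dI_nonneg _ _ _)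
  linarith

theorem MT_bdd (h : Sl F d K C0 C1) (ht : t ≤ K) (hδ : 0 ≤ δ) (o W : ℝ) (η : Env) :
    BddAbove (Set.range fun w : PrS k =>
      (t * |lat d w.1.2 - lat d w.1.1| - XP F d η w.1.1 w.1.2 - δ * dI o (o + W) (lat d w.1.1))) := by
  refine ⟨(C1 + K * |d.v|) * k, ?_⟩
  rintro r ⟨w, rfl⟩
  exact MT_bd h ht hδ o W η w

theorem le_MT (h : Sl F d K C0 C1) (ht : t ≤ K) (hδ : 0 ≤ δ) (o W : ℝ) (η : Env) {P Q : Pt} (h1 : 0 ≤ P.1)
    (h2 : P.1 ≤ Q.1) (h3 : Q.1 ≤ k) (h4 : P.1 = Q.1 → P = Q) :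
    t * |lat d Q - lat d P| - XP F d η P Q - δ * dI o (o + W) (lat d P) ≤ MT F d t δ o W k η :=
  le_ciSup (MT_bdd h ht hδ o W η) (⟨(P, Q), h1, h2, h3, h4⟩ : PrS k)

theorem MT_meas (h : Sl F d K C0 C1) : Measurable (MT F d t δ o W k) := by
  unfold MT
  exact Measurable.iSup fun w => (measurable_const.sub (h.XP_meas _ _)).sub measurable_const

theorem MT_le_bnd (h : Sl F d K C0 C1) (ht : t ≤ K) (hδ : 0 ≤ δ) (η : Env) :
    MT F d t δ o W k η ≤ (C1 + K * |d.v|) * k := by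
  have := PrS_ne k
  exact ciSup_le fun w => MT_bd h ht hδ o W η w

/-- A box luck is a luck with distances. -/
theorem TL_le_MT (h : Sl F d K C0 C1) (ht : t ≤ K) (hδ : 0 ≤ δ) (h0 : 0 ≤ MT F d t δ o W k η) :
    TL F d t o W k η ≤ MT F d t δ o W k η := by
  refine TL_le h0 fun P Q hPQ => ?_
  obtain ⟨h1, h2, h3, h4, h5, h6⟩ := hPQ
  have h7 := le_MT (k := k) h ht hδ o W η (P := P) (Q := Q) h1 h2 h3 h4
  have h8 : dI o (o + W) (lat d P) = 0 := by
    simp only at h5 h6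
    unfold dI
    rw [max_eq_left (max_le (by linarith) (by linarith))]
  rw [h8, mul_zero, sub_zero] at h7
  exact h7

private theorem dI_cell {x : ℝ} {j : ℤ} (h1 : o + j * W ≤ x) (h2 : x < o + j * W + W) :
    max (|(j : ℝ)| - 1) 0 * W ≤ dI o (o + W) x := by
  unfold dI
  rcases le_total (|(j : ℝ)| - 1) 0 with h5 | h5
  · rw [max_eq_right h5, zero_mul]
    exact le_max_left _ _
  · rw [max_eq_left h5]
    refine le_trans ?_ (le_max_right _ _)
    rcases le_total 0 (j : ℝ) with h6 | h6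
    · rw [abs_of_nonneg h6]
      refine le_trans ?_ (le_max_right _ _)
      nlinarith
    · rw [abs_of_nonpos h6]
      refine le_trans ?_ (le_max_left _ _)
      nlinarith

/-- The pointwise bound. -/
theorem MT_pt (h : Sl F d K C0 C1) (ht : t ≤ K) (hδ : 0 < δ) (hW : 0 < W) (hθ : 0 < θ) {J : ℕ}
    (hJ : (C1 + K * |d.v|) * k ≤ δ * W * J) (o : ℝ) (η : Env) :
    Real.exp (θ * MT F d t δ o W k η) ≤
      ∑ j ∈ Finset.Icc (-(J : ℤ)) J, wj (θ * δ * W) j * Real.exp (θ * TL F d t (o + j * W) W k η) := by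
  obtain ⟨S, hS⟩ : ∃ S, S = ∑ j ∈ Finset.Icc (-(J : ℤ)) J,
    wj (θ * δ * W) j * Real.exp (θ * TL F d t (o + j * W) W k η) := ⟨_, rfl⟩
  rw [← hS]
  have hterm : ∀ j : ℤ, |j| ≤ J → wj (θ * δ * W) j * Real.exp (θ * TL F d t (o + j * W) W k η) ≤ S := by
    intro j hj
    rw [hS]
    exact Finset.single_le_sum (f := fun j : ℤ => wj (θ * δ * W) j * Real.exp (θ * TL F d t (o + j * W) W k η))
      (fun j _ => mul_nonneg (wj_nonneg _ _) (Real.exp_pos _).le) (Finset.mem_Icc.2 (abs_le.1 hj))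
  have hS1 : 1 ≤ S := by
    refine le_trans ?_ (hterm 0 (by simp))
    have e13 : wj (θ * δ * W) 0 = 1 := by
      unfold wj
      simp
    rw [e13, one_mul]
    exact Real.one_le_exp (mul_nonneg hθ.le (TL_nonneg h ht η))
  have hne := PrS_ne k
  have hL : MT F d t δ o W k η ≤ Real.log S / θ := by
    refine ciSup_le fun w => ?_
    obtain ⟨⟨P, Q⟩, h1, h2, h3, h4⟩ := w
    simp only at h1 h2 h3 h4 ⊢
    rw [le_div_iff₀ hθ, mul_comm]
    refine (Real.le_log_iff_exp_le (by linarith)).2 ?_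
    obtain ⟨j, hj1, hj2⟩ : ∃ j : ℤ, o + j * W ≤ lat d P ∧ lat d P < o + j * W + W := by
      refine ⟨⌊(lat d P - o) / W⌋, ?_, ?_⟩
      · have := Int.floor_le ((lat d P - o) / W)
        rw [le_div_iff₀ hW] at this
        linarith
      · have := Int.lt_floor_add_one ((lat d P - o) / W)
        rw [div_lt_iff₀ hW] at this
        linarith
    have hd := dI_cell hj1 hj2
    have h7 := le_TL h ht η (P := P) (Q := Q) (o := o + j * W) (W := W) (k := k) (t := t) ⟨h1, h2, h3, h4, hj1, hj2⟩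
    have h8 := mul_le_mul_of_nonneg_left hd hδ.le
    rcases le_or_gt |j| (J : ℤ) with hjJ | hjJ
    · refine le_trans ?_ (hterm j hjJ)
      unfold wj
      rw [← Real.exp_add]
      refine Real.exp_le_exp.2 ?_
      have h9 := mul_le_mul_of_nonneg_left h7 hθ.le
      have h10 := mul_le_mul_of_nonneg_left h8 hθ.le
      nlinarith
    · have e10 : (J : ℝ) ≤ max (|(j : ℝ)| - 1) 0 := by
        refine le_trans ?_ (le_max_left _ _)
        have h11 : (J : ℤ) + 1 ≤ |j| := hjJ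
        have h12 : ((J : ℤ) : ℝ) + 1 ≤ |(j : ℝ)| := by exact_mod_cast h11
        push_cast at h12
        linarith
      have h9 := TL_le_bnd (o := o + j * W) (W := W) (k := k) h ht η
      have h10 : δ * W * J ≤ δ * (max (|(j : ℝ)| - 1) 0 * W) := by
        calc δ * W * J ≤ δ * W * max (|(j : ℝ)| - 1) 0 := mul_le_mul_of_nonneg_left e10 (by positivity)
          _ = _ := by ring
      refine le_trans (Real.exp_le_one_iff.2 ?_) hS1
      have : t * |lat d Q - lat d P| - XP F d η P Q - δ * dI o (o + W) (lat d P) ≤ 0 := by linarith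
      exact mul_nonpos_of_nonneg_of_nonpos hθ.le this
  rw [le_div_iff₀ hθ] at hL
  refine (Real.le_log_iff_exp_le (by linarith)).1 ?_
  linarith

private theorem bdd_int3 {g : Env → ℝ} (hg : Measurable g) {C : ℝ} (hC : ∀ η, |g η| ≤ C) : Integrable g (law F) :=
  Integrable.of_bound hg.aestronglyMeasurable C (Filter.Eventually.of_forall fun η => by
    rw [Real.norm_eq_abs]
    exact hC η)

theorem expMT_int (h : Sl F d K C0 C1) (ht : t ≤ K) (hδ : 0 ≤ δ) (hθ : 0 ≤ θ) :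
    Integrable (fun η => Real.exp (θ * MT F d t δ o W k η)) (law F) := by
  refine bdd_int3 (C := Real.exp (θ * ((C1 + K * |d.v|) * k)))
    (Real.measurable_exp.comp (measurable_const.mul (MT_meas h))) fun η => ?_
  rw [abs_of_pos (Real.exp_pos _)]
  exact Real.exp_le_exp.2 (mul_le_mul_of_nonneg_left (MT_le_bnd h ht hδ η) hθ)

/-- **ALL STARTS.** -/
theorem MT_int (h : Sl F d K C0 C1) (ht : t ≤ K) (hδ : 0 < δ) (hW : 0 < W) (hθ : 0 < θ)
    (hB : ∀ o, ∫ η, Real.exp (θ * TL F d t o W k η) ∂(law F) ≤ B) (o : ℝ) :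
    ∫ η, Real.exp (θ * MT F d t δ o W k η) ∂(law F) ≤ (3 + 2 / (θ * δ * W)) * B := by
  obtain ⟨J, hJ⟩ := exists_nat_ge ((C1 + K * |d.v|) * k / (δ * W))
  rw [div_le_iff₀ (by positivity)] at hJ
  have h1 := integral_mono (expMT_int (o := o) (W := W) (k := k) h ht hδ.le hθ.le)
    (integrable_finsetSum (Finset.Icc (-(J : ℤ)) J) fun (j : ℤ) _ =>
      (expTL_int (o := o + (j : ℝ) * W) (W := W) (k := k) h ht hθ.le).const_mul (wj (θ * δ * W) j))
    (fun η => MT_pt h ht hδ hW hθ (J := J) (by linarith) o η)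
  have hB0 : 0 ≤ B := (integral_nonneg fun η => (Real.exp_pos _).le).trans (hB 0)
  refine h1.trans ?_
  rw [integral_finsetSum (Finset.Icc (-(J : ℤ)) J) fun (j : ℤ) _ =>
    (expTL_int (o := o + (j : ℝ) * W) (W := W) (k := k) h ht hθ.le).const_mul (wj (θ * δ * W) j)]
  have h2 : ∀ j ∈ Finset.Icc (-(J : ℤ)) J,
      ∫ η, wj (θ * δ * W) j * Real.exp (θ * TL F d t (o + (j : ℝ) * W) W k η) ∂(law F) ≤ wj (θ * δ * W) j * B := by
    intro j _
    rw [integral_const_mul]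
    exact mul_le_mul_of_nonneg_left (hB _) (wj_nonneg _ _)
  refine (Finset.sum_le_sum h2).trans ?_
  rw [← Finset.sum_mul]
  exact mul_le_mul_of_nonneg_right (sum_wj (by positivity) J) hB0

/-- The tilted luck of a walk. -/
theorem walk_MT (hd : Adm F κ d) (hk : Lat F κ k1 K1 d) (ht : 0 ≤ t) (htk : t ≤ k1) (hk1 : k1 ≤ κ * F.co.M) (η : Env)
    {u v : V} (w : grid.Walk u v) (hw : ∀ z ∈ w.support, 0 ≤ F.co.tm z ∧ F.co.tm z ≤ F.co.L * k)
    (hu : o ≤ latV F d u ∧ latV F d u ≤ o + W) :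
    t * |latV F d v - latV F d u| - exc F d η w ≤ MT F d t (k1 - t) o W k η + CP F := by
  have hsl := sl_of hd
  obtain ⟨P, Q, hPQ, h1⟩ := piece_lat hd hk η (s := 0) (t := k) w (fun z hz => ⟨by rw [mul_zero]; exact (hw z hz).1, (hw z hz).2⟩)
  obtain ⟨p1, p2, p3⟩ := hPQ
  have q1 : P.1 ≤ Q.1 := by
    rcases p3 with p3 | p3
    · exact p3.le
    · rw [p3]
  have q2 : P.1 = Q.1 → P = Q := by
    intro hh
    rcases p3 with p3 | p3
    · exact absurd hh p3.ne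
    · exact p3
  have h2 := le_MT (k := k) hsl (htk.trans hk1) (sub_nonneg.2 htk) o W η (P := P) (Q := Q) p1 q1 p2 q2
  have h3 : |latV F d v - latV F d u| ≤ |latV F d v - lat d Q| + |lat d Q - lat d P| + |latV F d u - lat d P| := by
    have e1 : latV F d v - latV F d u = (latV F d v - lat d Q) + (lat d Q - lat d P) + (lat d P - latV F d u) := by ring
    rw [e1, abs_sub_comm (latV F d u) (lat d P)]
    exact (abs_add_le _ _).trans (add_le_add (abs_add_le _ _) le_rfl)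
  have h4 := mul_le_mul_of_nonneg_left h3 ht
  have h5 := mul_le_mul_of_nonneg_left (dI_le o (o + W) (x := lat d P) hu) (sub_nonneg.2 htk)
  have h6 : 0 ≤ (k1 - t) * |latV F d v - lat d Q| := mul_nonneg (sub_nonneg.2 htk) (abs_nonneg _)
  nlinarith

/-- Tails. -/
theorem tail_of_exp {M : Env → ℝ} (hθ : 0 < θ) (hi : Integrable (fun η => Real.exp (θ * M η)) (law F))
    (hB : ∫ η, Real.exp (θ * M η) ∂(law F) ≤ B) (y : ℝ) :
    (law F).real {η | y ≤ M η} ≤ B * Real.exp (-(θ * y)) := by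
  have h1 := mul_meas_ge_le_integral_of_nonneg (μ := law F) (f := fun η => Real.exp (θ * M η))
    (Filter.Eventually.of_forall fun η => (Real.exp_pos _).le) hi (Real.exp (θ * y))
  have h2 : {η | y ≤ M η} = {x | Real.exp (θ * y) ≤ Real.exp (θ * M x)} := by
    ext η
    simp only [Set.mem_ofPred_eq, Real.exp_le_exp]
    exact ⟨fun h => mul_le_mul_of_nonneg_left h hθ.le, fun h => le_of_mul_le_mul_left h hθ⟩
  rw [h2]
  rw [Real.exp_neg, ← div_eq_mul_inv, le_div_iff₀ (Real.exp_pos _), mul_comm]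
  exact h1.trans hB

theorem TL_tail (h : Sl F d K C0 C1) (ht : t ≤ K) (hθ : 0 < θ)
    (hB : ∀ o, ∫ η, Real.exp (θ * TL F d t o W k η) ∂(law F) ≤ B) (o y : ℝ) :
    (law F).real {η | y ≤ TL F d t o W k η} ≤ B * Real.exp (-(θ * y)) :=
  tail_of_exp hθ (expTL_int h ht hθ.le) (hB o) y

theorem MT_tail (h : Sl F d K C0 C1) (ht : t ≤ K) (hδ : 0 < δ) (hW : 0 < W) (hθ : 0 < θ)
    (hB : ∀ o, ∫ η, Real.exp (θ * TL F d t o W k η) ∂(law F) ≤ B) (o y : ℝ) :
    (law F).real {η | y ≤ MT F d t δ o W k η} ≤ (3 + 2 / (θ * δ * W)) * B * Real.exp (-(θ * y)) :=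
  tail_of_exp hθ (expMT_int h ht hδ.le hθ.le) (MT_int h ht hδ hW hθ hB o) y

/-- The box luck is the case without tilt. -/
theorem MM_le_MT (hd : Adm F κ d) (ht : 0 ≤ t) (htK : t ≤ κ * F.co.M) (hδ : 0 ≤ δ) (o W : ℝ) (k : ℕ) (η : Env) :
    MM F d δ 0 k o (o + W) η ≤ MT F d t δ o W k η := by
  have hsl := sl_of hd
  have : Nonempty {p : Pt × Pt // IsPr 0 (k : ℤ) p.1 p.2} := ⟨⟨(0, 0), ⟨le_rfl, by simp, Or.inr rfl⟩⟩⟩
  refine ciSup_le fun p => ?_
  obtain ⟨⟨P, Q⟩, p1, p2, p3⟩ := p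
  simp only at p1 p2 p3 ⊢
  have q1 : P.1 ≤ Q.1 := by
    rcases p3 with p3 | p3
    · exact p3.le
    · rw [p3]
  have q2 : P.1 = Q.1 → P = Q := by
    intro hh
    rcases p3 with p3 | p3
    · exact absurd hh p3.ne
    · exact p3
  have h1 := le_MT (k := k) hsl htK hδ o W η (P := P) (Q := Q) p1 q1 p2 q2
  have h2 : 0 ≤ t * |lat d Q - lat d P| := mul_nonneg ht (abs_nonneg _)
  linarith

/-- **(L0)**: the lucks of one starting point. -/
theorem VV_le_TL (h : Sl F d K C0 C1) (ht0 : 0 ≤ t) (ht : t ≤ K) (hW : 0 < W) {m : ℕ} (hmk : m ≤ k) (η : Env) (hm : 1 ≤ m) :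
    VV F d η 0 m ≤ TL F d t 0 W k η := by
  refine ciSup_le fun y => ?_
  have h1 := le_TL h ht η (P := (0 : Pt)) (Q := ((m : ℤ), y)) (o := 0) (W := W) (k := k) (t := t)
    ⟨le_rfl, by simp, by simp only; exact_mod_cast hmk, fun hh => by
      simp only [Prod.fst_zero] at hh
      omega, by simp [lat], by simp [lat, hW]⟩
  have h2 : XP F d η 0 ((m : ℤ), y) = X F d η 0 m y := by
    unfold XP
    simp
  rw [h2] at h1
  have h3 : 0 ≤ t * |lat d ((m : ℤ), y) - lat d (0 : Pt)| := mul_nonneg ht0 (abs_nonneg _)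
  linarith

theorem VV_max_tail (h : Sl F d K C0 C1) (ht0 : 0 ≤ t) (ht : t ≤ K) (hW : 0 < W) (hθ : 0 < θ)
    (hB : ∀ o, ∫ η, Real.exp (θ * TL F d t o W k η) ∂(law F) ≤ B) (y : ℝ) :
    (law F).real {η | ∃ m, 1 ≤ m ∧ m ≤ k ∧ y ≤ VV F d η 0 m} ≤ B * Real.exp (-(θ * y)) := by
  refine le_trans (measureReal_mono ?_) (TL_tail h ht hθ hB 0 y)
  rintro η ⟨m, hm1, hmk, hm⟩
  exact hm.trans (VV_le_TL h ht0 ht hW hmk η hm1)

/-- Fewer rows. -/
theorem TL_mono (h : Sl F d K C0 C1) (ht : t ≤ K) {k' : ℕ} (hk : k ≤ k') (o W : ℝ) (η : Env) :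
    TL F d t o W k η ≤ TL F d t o W k' η := by
  refine TL_le (TL_nonneg h ht η) fun P Q hPQ => ?_
  obtain ⟨h1, h2, h3, h4, h5, h6⟩ := hPQ
  exact le_TL h ht η ⟨h1, h2, h3.trans (by exact_mod_cast hk), h4, h5, h6⟩

theorem MT_mono (h : Sl F d K C0 C1) (ht : t ≤ K) (hδ : 0 ≤ δ) {k' : ℕ} (hk : k ≤ k') (o W : ℝ) (η : Env) :
    MT F d t δ o W k η ≤ MT F d t δ o W k' η := by
  have := PrS_ne k
  refine ciSup_le fun w => ?_
  obtain ⟨⟨P, Q⟩, h1, h2, h3, h4⟩ := w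
  exact le_MT (k := k') h ht hδ o W η h1 h2 (h3.trans (by exact_mod_cast hk)) h4

/-! ### The reversed form: the price of the distance of the END point from the box -/

/-- The largest tilted luck of all pairs in the rows `[0, k]`, with the price `δ` per unit of the distance of the end point
from the box `[o, o + W]`. -/
def MTr (F : Fm) (d : Dr) (t δ o W : ℝ) (k : ℕ) (η : Env) : ℝ :=
  ⨆ w : PrS k, (t * |lat d w.1.2 - lat d w.1.1| - XP F d η w.1.1 w.1.2 - δ * dI o (o + W) (lat d w.1.2))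

/-- The reversal of the pairs. -/
def rvP (k : ℕ) : PrS k ≃ PrS k where
  toFun w := ⟨(-w.1.2 + ((k : ℤ), 0), -w.1.1 + ((k : ℤ), 0)), by
    obtain ⟨h1, h2, h3, h4⟩ := w.2
    refine ⟨?_, ?_, ?_, ?_⟩
    · simp only [Prod.fst_add, Prod.fst_neg]
      linarith
    · simp only [Prod.fst_add, Prod.fst_neg]
      linarith
    · simp only [Prod.fst_add, Prod.fst_neg]
      linarith
    · intro h
      simp only [Prod.fst_add, Prod.fst_neg] at h
      simp only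
      rw [h4 (by linarith)]⟩
  invFun w := ⟨(-w.1.2 + ((k : ℤ), 0), -w.1.1 + ((k : ℤ), 0)), by
    obtain ⟨h1, h2, h3, h4⟩ := w.2
    refine ⟨?_, ?_, ?_, ?_⟩
    · simp only [Prod.fst_add, Prod.fst_neg]
      linarith
    · simp only [Prod.fst_add, Prod.fst_neg]
      linarith
    · simp only [Prod.fst_add, Prod.fst_neg]
      linarith
    · intro h
      simp only [Prod.fst_add, Prod.fst_neg] at h
      simp only
      rw [h4 (by linarith)]⟩
  left_inv w := by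
    ext <;> simp
  right_inv w := by
    ext <;> simp

theorem MTr_eq (hd : Adm F κ d) (t δ o W : ℝ) (k : ℕ) (η : Env) :
    MTr F d t δ o W k η = MT F d t δ (-o - W - d.v * k) W k (F.shp (-(k : ℤ), 0) (rf η)) := by
  have hsl := sl_of hd
  unfold MTr MT
  refine Equiv.iSup_congr (rvP k) fun w => ?_
  obtain ⟨h1, h2, h3, h4⟩ := w.2
  simp only [rvP, Equiv.coe_fn_mk]
  rw [hsl.XP_shift]
  have e1 : -w.1.2 + ((k : ℤ), (0 : ℤ)) + (-(k : ℤ), 0) = -w.1.2 := by
    ext <;> simp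
  have e2 : -w.1.1 + ((k : ℤ), (0 : ℤ)) + (-(k : ℤ), 0) = -w.1.1 := by
    ext <;> simp
  rw [e1, e2, XP_rf F d η (by simp only [Prod.fst_neg]; linarith), neg_neg, neg_neg, lat_row, lat_row, lat_neg, lat_neg]
  have e3 : dI (-o - W - d.v * k) (-o - W - d.v * k + W) (-lat d w.1.2 - d.v * ((k : ℤ) : ℝ)) =
      dI o (o + W) (lat d w.1.2) := by
    unfold dI
    push_cast
    congr 1
    rw [max_comm]
    congr 1 <;> ring
  rw [e3]
  congr 4
  ring

/-- **ALL END POINTS.** -/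
theorem MTr_int (hd : Adm F κ d) (ht : t ≤ κ * F.co.M) (hδ : 0 < δ) (hW : 0 < W) (hθ : 0 < θ)
    (hB : ∀ o, ∫ η, Real.exp (θ * TL F d t o W k η) ∂(law F) ≤ B) (o : ℝ) :
    ∫ η, Real.exp (θ * MTr F d t δ o W k η) ∂(law F) ≤ (3 + 2 / (θ * δ * W)) * B := by
  have hsl := sl_of hd
  have h1 : MeasurePreserving (fun η => F.shp (-(k : ℤ), 0) (rf η)) (law F) (law F) := (hsl.mp _).comp (mp_rf F)
  have h2 : Measurable fun η => Real.exp (θ * MT F d t δ (-o - W - d.v * k) W k η) :=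
    Real.measurable_exp.comp (measurable_const.mul (MT_meas hsl))
  have h3 := Pool.Agent.W_7d29a1_f21.mp_integral h1 (F := fun η => Real.exp (θ * MT F d t δ (-o - W - d.v * k) W k η))
    h2.aestronglyMeasurable
  refine le_trans (le_of_eq ?_) (MT_int hsl ht hδ hW hθ hB (-o - W - d.v * k))
  rw [← h3]
  refine integral_congr_ae (Filter.Eventually.of_forall fun η => ?_)
  simp only
  rw [MTr_eq hd]

theorem MTr_meas (h : Sl F d K C0 C1) : Measurable (MTr F d t δ o W k) := by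
  unfold MTr
  exact Measurable.iSup fun w => (measurable_const.sub (h.XP_meas _ _)).sub measurable_const

theorem le_MTr (hd : Adm F κ d) (ht : t ≤ κ * F.co.M) (hδ : 0 ≤ δ) (o W : ℝ) (η : Env) {P Q : Pt} (h1 : 0 ≤ P.1)
    (h2 : P.1 ≤ Q.1) (h3 : Q.1 ≤ k) (h4 : P.1 = Q.1 → P = Q) :
    t * |lat d Q - lat d P| - XP F d η P Q - δ * dI o (o + W) (lat d Q) ≤ MTr F d t δ o W k η := by
  have hsl := sl_of hd
  refine le_ciSup (f := fun w : PrS k => t * |lat d w.1.2 - lat d w.1.1| - XP F d η w.1.1 w.1.2 -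
    δ * dI o (o + W) (lat d w.1.2)) ⟨(C1 F + κ * F.co.M * |d.v|) * k, ?_⟩ (⟨(P, Q), h1, h2, h3, h4⟩ : PrS k)
  rintro r ⟨w, rfl⟩
  obtain ⟨g1, g2, g3, g4⟩ := w.2
  have h5 := tilt_le hsl ht η g2 g4
  have h6 : (C1 F + κ * F.co.M * |d.v|) * ((w.1.2.1 : ℝ) - w.1.1.1) ≤ (C1 F + κ * F.co.M * |d.v|) * k := by
    refine mul_le_mul_of_nonneg_left ?_ (bnd_nonneg hsl)
    have e1 : (0 : ℝ) ≤ w.1.1.1 := by exact_mod_cast g1
    have e2 : (w.1.2.1 : ℝ) ≤ k := by exact_mod_cast g3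
    linarith
  have h7 : 0 ≤ δ * dI o (o + W) (lat d w.1.2) := mul_nonneg hδ (dI_nonneg _ _ _)
  simp only
  linarith

theorem MTr_tail (hd : Adm F κ d) (ht : t ≤ κ * F.co.M) (hδ : 0 < δ) (hW : 0 < W) (hθ : 0 < θ)
    (hB : ∀ o, ∫ η, Real.exp (θ * TL F d t o W k η) ∂(law F) ≤ B) (o y : ℝ) :
    (law F).real {η | y ≤ MTr F d t δ o W k η} ≤ (3 + 2 / (θ * δ * W)) * B * Real.exp (-(θ * y)) := by
  have hsl := sl_of hd
  refine tail_of_exp hθ ?_ (MTr_int hd ht hδ hW hθ hB o) y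
  have h1 : MeasurePreserving (fun η => F.shp (-(k : ℤ), 0) (rf η)) (law F) (law F) := (hsl.mp _).comp (mp_rf F)
  have h2 := h1.integrable_comp_of_integrable (expMT_int (o := -o - W - d.v * k) (W := W) (k := k) hsl ht hδ.le hθ.le)
  refine h2.congr (Filter.Eventually.of_forall fun η => ?_)
  simp only [Function.comp]
  rw [MTr_eq hd]

/-- The tilted luck of a walk, the price at its end. -/
theorem walk_MTr (hd : Adm F κ d) (hk : Lat F κ k1 K1 d) (ht : 0 ≤ t) (htk : t ≤ k1) (hk1 : k1 ≤ κ * F.co.M) (η : Env)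
    {u v : V} (w : grid.Walk u v) (hw : ∀ z ∈ w.support, 0 ≤ F.co.tm z ∧ F.co.tm z ≤ F.co.L * k)
    (hv : o ≤ latV F d v ∧ latV F d v ≤ o + W) :
    t * |latV F d v - latV F d u| - exc F d η w ≤ MTr F d t (k1 - t) o W k η + CP F := by
  obtain ⟨P, Q, hPQ, h1⟩ := piece_lat hd hk η (s := 0) (t := k) w (fun z hz => ⟨by rw [mul_zero]; exact (hw z hz).1, (hw z hz).2⟩)
  obtain ⟨p1, p2, p3⟩ := hPQ
  have q1 : P.1 ≤ Q.1 := by
    rcases p3 with p3 | p3
    · exact p3.le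
    · rw [p3]
  have q2 : P.1 = Q.1 → P = Q := by
    intro hh
    rcases p3 with p3 | p3
    · exact absurd hh p3.ne
    · exact p3
  have h2 := le_MTr (k := k) hd (htk.trans hk1) (sub_nonneg.2 htk) o W η (P := P) (Q := Q) p1 q1 p2 q2
  have h3 : |latV F d v - latV F d u| ≤ |latV F d v - lat d Q| + |lat d Q - lat d P| + |latV F d u - lat d P| := by
    have e1 : latV F d v - latV F d u = (latV F d v - lat d Q) + (lat d Q - lat d P) + (lat d P - latV F d u) := by ring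
    rw [e1, abs_sub_comm (latV F d u) (lat d P)]
    exact (abs_add_le _ _).trans (add_le_add (abs_add_le _ _) le_rfl)
  have h4 := mul_le_mul_of_nonneg_left h3 ht
  have h5 := mul_le_mul_of_nonneg_left (dI_le o (o + W) (x := lat d Q) hv) (sub_nonneg.2 htk)
  have h6 : 0 ≤ (k1 - t) * |latV F d u - lat d P| := mul_nonneg (sub_nonneg.2 htk) (abs_nonneg _)
  nlinarith

end

end Pool.Agent.W_1b8d5d_p
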