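import Pool.Agent.W_1b8d5d_p.Grow

/-!
MP_1b8d5d_pr, Track P: the units tend to infinity, uniformly in the direction (`Grow`), second part: the detour through a cheap run.
(helper29)
-/

set_option autoImplicit false

namespace Pool.Agent.W_1b8d5d_p

open MeasureTheory Set
open Pool.Agent.W_1b8d5d_h85 (V nm dir Edge Env grid ke wedges cost Bd sh rf cost_append le_cost cost_le nm_dir nm_nonneg)

noncomputable section

variable {F : Fm} {κ K : ℝ} {A : Set Dr}

private theorem g2_X_tri (d : Dr) (η : Env) (a : Pt) {m n : ℕ} (hm : 1 ≤ m) (hn : 1 ≤ n) (y z : ℤ) :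
    X F d η a (m + n) (y + z) ≤ X F d η a m y + X F d η (a + ((m : ℤ), y)) n z := by
  have h := TT_tri (c := F.co) (F.bd η) F.a0.le a hm hn y z
  unfold X
  push_cast
  linarith

private theorem g2_b0 (F : Fm) : 0 < F.b := F.a0.trans_le F.ab

private theorem g2_meas (F : Fm) (d : Dr) (a : Pt) (n : ℕ) (y : ℤ) : Measurable fun η => X F d η a n y :=
  ((TT_meas F.co a n y).comp (measurable_pi_lambda _ fun e => F.mg.comp (measurable_pi_apply e))).sub_const _

private theorem g2_bound (F : Fm) (d : Dr) (a : Pt) {n : ℕ} (hn : 1 ≤ n) (y : ℤ) : ∃ B : ℝ, 0 ≤ B ∧ ∀ η : Env, |X F d η a n y| ≤ B := by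
  refine ⟨F.b * (nm (F.co.vt ((n : ℤ), y)) + 4) + |al F.co d * n + be F.co d * y|, ?_, fun η => ?_⟩
  · have := g2_b0 F
    have := nm_nonneg (F.co.vt ((n : ℤ), y))
    positivity
  · unfold X
    refine (abs_sub _ _).trans (add_le_add ?_ le_rfl)
    rw [abs_of_nonneg (TT_nonneg (F.bd η) F.a0.le a n y)]
    exact TT_upper (F.bd η) F.a0.le (g2_b0 F).le a hn y

private theorem g2_int (F : Fm) (d : Dr) (a : Pt) {n : ℕ} (hn : 1 ≤ n) (y : ℤ) :
    Integrable (fun η => X F d η a n y) (law F) := by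
  obtain ⟨B, -, hB⟩ := g2_bound F d a hn y
  exact Integrable.of_bound (g2_meas F d a n y).aestronglyMeasurable B
    (Filter.Eventually.of_forall fun η => by rw [Real.norm_eq_abs]; exact hB η)

private theorem g2_dep (F : Fm) (d : Dr) (a : Pt) (n : ℕ) (y : ℤ) :
    DependsOn (fun η => X F d η a n y) (F.co.slab a.1 (a.1 + n)) := by
  intro η η' h
  have h1 : TT F.co (F.tau η) a n y = TT F.co (F.tau η') a n y :=
    TT_dep F.co a n y fun e he => by
      show F.g (η e) = F.g (η' e)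
      rw [h e he]
  simp only
  unfold X
  rw [h1]

/-- A weight of the middle slab times the cost of a piece. -/
private theorem g2_mul_int {W : Env → ℝ} (hW : Measurable W) (h0 : ∀ η, 0 ≤ W η) (h1 : ∀ η, W η ≤ 1) (d : Dr) (a : Pt)
    {n : ℕ} (hn : 1 ≤ n) (y : ℤ) : Integrable (fun η => W η * X F d η a n y) (law F) := by
  obtain ⟨B, hB0, hB⟩ := g2_bound F d a hn y
  refine Integrable.of_bound (hW.mul (g2_meas F d a n y)).aestronglyMeasurable B
    (Filter.Eventually.of_forall fun η => ?_)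
  rw [Real.norm_eq_abs, abs_mul, abs_of_nonneg (h0 η)]
  have h2 := mul_le_mul (h1 η) (hB η) (abs_nonneg _) zero_le_one
  linarith

/-- **The detour.** `W` is a function of the slab `[n, n + m]`, on whose support the run of the position `y` is cheap. -/
theorem detour (d : Dr) {n m : ℕ} (hn : 1 ≤ n) (hm : 1 ≤ m) (y Δ z : ℤ) {W : Env → ℝ} (hW : Measurable W) (h0 : ∀ η, 0 ≤ W η)
    (h1 : ∀ η, W η ≤ 1) (hdep : DependsOn W (F.co.slab n (n + m))) {r : ℝ}
    (hr : ∀ η, W η ≠ 0 → X F d η ((n : ℤ), y) m Δ ≤ r) :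
    ∫ η, W η * X F d η 0 (n + (m + n)) (y + (Δ + z)) ∂(law F) ≤
      (∫ η, W η ∂(law F)) * (e F d n y + r + e F d n z) := by
  have hWi : Integrable W (law F) :=
    Integrable.of_bound hW.aestronglyMeasurable 1 (Filter.Eventually.of_forall fun η => by
      rw [Real.norm_eq_abs, abs_of_nonneg (h0 η)]
      exact h1 η)
  have e1 : (0 : Pt) + ((n : ℤ), y) = ((n : ℤ), y) := zero_add _
  have e2 : ((n : ℤ), y) + ((m : ℤ), Δ) = ((n : ℤ) + m, y + Δ) := rfl
  have key : ∀ η, W η * X F d η 0 (n + (m + n)) (y + (Δ + z)) ≤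
      W η * X F d η 0 n y + (W η * r + W η * X F d η ((n : ℤ) + m, y + Δ) n z) := by
    intro η
    have h2 := g2_X_tri (F := F) d η 0 hn (n := m + n) (by omega) y (Δ + z)
    have h3 := g2_X_tri (F := F) d η ((n : ℤ), y) hm hn Δ z
    rw [e1] at h2
    rw [e2] at h3
    rcases eq_or_ne (W η) 0 with h4 | h4
    · rw [h4]
      simp
    · have h5 := hr η h4
      have h6 : X F d η 0 (n + (m + n)) (y + (Δ + z)) ≤
          X F d η 0 n y + (r + X F d η ((n : ℤ) + m, y + Δ) n z) := by linarith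
      have h7 := mul_le_mul_of_nonneg_left h6 (h0 η)
      linarith
  have i1 := g2_mul_int (F := F) hW h0 h1 d 0 hn y
  have i3 := g2_mul_int (F := F) hW h0 h1 d ((n : ℤ) + m, y + Δ) hn z
  have i0 := g2_mul_int (F := F) hW h0 h1 d 0 (n := n + (m + n)) (by omega) (y + (Δ + z))
  have d1 : ∫ η, W η * X F d η 0 n y ∂(law F) = (∫ η, W η ∂(law F)) * e F d n y := by
    rw [integral_indep (F := F) (A := F.co.slab n (n + m)) (B := F.co.slab 0 n) hW (g2_meas F d 0 n y) hdep
      (by simpa using g2_dep F d 0 n y) (Co.slab_disjoint le_rfl).symm]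
    rfl
  have d3 : ∫ η, W η * X F d η ((n : ℤ) + m, y + Δ) n z ∂(law F) = (∫ η, W η ∂(law F)) * e F d n z := by
    rw [integral_indep (F := F) (A := F.co.slab n (n + m)) (B := F.co.slab (n + m) (n + m + n)) hW
      (g2_meas F d _ n z) hdep (g2_dep F d ((n : ℤ) + m, y + Δ) n z) (Co.slab_disjoint le_rfl), e_at]
  have i2 : Integrable (fun η => W η * r) (law F) := hWi.mul_const r
  have i23 : Integrable (fun η => W η * r + W η * X F d η ((n : ℤ) + m, y + Δ) n z) (law F) := i2.add i3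
  calc ∫ η, W η * X F d η 0 (n + (m + n)) (y + (Δ + z)) ∂(law F)
      ≤ ∫ η, (W η * X F d η 0 n y + (W η * r + W η * X F d η ((n : ℤ) + m, y + Δ) n z)) ∂(law F) :=
        integral_mono i0 (i1.add i23) key
    _ = (∫ η, W η ∂(law F)) * (e F d n y + r + e F d n z) := by
        rw [integral_add i1 i23, integral_add i2 i3, d1, d3, integral_mul_const]
        ring

/-- Near a cheap position all positions are cheap, at large times, uniformly in the direction. -/
theorem near_of (hD : Dirs F κ K A) {R : ℝ} (hR : 0 ≤ R) (D : ℕ) : ∃ n0 : ℕ, 1 ≤ n0 ∧ ∀ d ∈ A, ∀ n : ℕ, n0 ≤ n → ∀ y0 : ℤ,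
    e F d n y0 < R → ∀ y : ℤ, |(y : ℝ) - y0| ≤ D → e F d n y ≤ R + 1 := by
  obtain ⟨δ, hδ, hδ1⟩ := hD.small (ε := 1 / (4 * ((D : ℝ) + 1))) (by positivity)
  obtain ⟨N, hN, hN1⟩ := hδ1 δ hδ le_rfl
  obtain ⟨j, hj, hj1⟩ := hD.strict (δ / 4) (by positivity)
  obtain ⟨N1, hN1'⟩ := exists_nat_gt (max (4 * ((D : ℝ) + 1) / δ) (4 * R / (j * δ)))
  refine ⟨max N (max N1 1), hN.trans (le_max_left _ _), fun d hd n hn y0 hy0 y hy => ?_⟩
  have hnN : N ≤ n := (le_max_left _ _).trans hn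
  have hn1 : 1 ≤ n := hN.trans hnN
  have hnR : (0 : ℝ) < n := by exact_mod_cast hn1
  have hnn1 : (N1 : ℝ) ≤ n := by exact_mod_cast ((le_max_left _ _).trans (le_max_right _ _)).trans hn
  have hb1 : 4 * ((D : ℝ) + 1) < δ * n := by
    have h1 : 4 * ((D : ℝ) + 1) / δ < n := (lt_of_le_of_lt (le_max_left _ _) hN1').trans_le hnn1
    rw [div_lt_iff₀ hδ] at h1
    linarith
  have hb2 : 4 * R < n * (j * δ) := by
    have h1 : 4 * R / (j * δ) < n := (lt_of_le_of_lt (le_max_right _ _) hN1').trans_le hnn1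
    rwa [div_lt_iff₀ (by positivity)] at h1
  have hDn : (0 : ℝ) ≤ D := Nat.cast_nonneg _
  -- the cheap position is near the line of slope `v`
  have hy0v : |(y0 : ℝ) - d.v * n| ≤ δ / 4 * n := by
    by_contra hcon
    push Not at hcon
    have h1 : (y0 : ℝ) / n - d.v = (y0 - d.v * n) / n := by field_simp
    have h2 : δ / 4 ≤ |(y0 : ℝ) / n - d.v| := by
      rw [h1, abs_div, Nat.abs_cast, le_div_iff₀ hnR]
      exact hcon.le
    have h3 := hj1 d hd _ h2
    have h4 := e_lower F d hn1 y0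
    have h5 : j * (δ / 4) ≤ j * |(y0 : ℝ) / n - d.v| := mul_le_mul_of_nonneg_left h2 hj.le
    have h6 : (n : ℝ) * (j * (δ / 4)) ≤ n * J F d ((y0 : ℝ) / n - d.v) := mul_le_mul_of_nonneg_left (h5.trans h3) hnR.le
    nlinarith
  set P : ℤ := ⌊δ / 2 * n⌋ with hP
  have hP1 : (P : ℝ) ≤ δ / 2 * n := Int.floor_le _
  have hP2 : δ / 2 * n - 1 < (P : ℝ) := by
    have := Int.lt_floor_add_one (δ / 2 * n)
    linarith
  have hP3 : δ / 4 * n ≤ (P : ℝ) := by linarith
  have hP0 : (0 : ℝ) < P := by nlinarith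
  have hPD : (D : ℝ) ≤ P := by linarith
  have hcost : ∀ z : ℤ, |(z : ℝ) - y0| = P → e F d n z ≤ 1 / ((D : ℝ) + 1) * P := by
    intro z hz
    have h1 : |(z : ℝ) - d.v * n| ≤ δ * n := by
      have h2 := abs_add_le ((z : ℝ) - y0) ((y0 : ℝ) - d.v * n)
      rw [sub_add_sub_cancel, hz] at h2
      nlinarith
    have h2 := hN1 d hd n hnN z h1
    have h3 : 1 / (4 * ((D : ℝ) + 1)) * (δ * n) ≤ 1 / ((D : ℝ) + 1) * P := by
      have h4 : 1 / (4 * ((D : ℝ) + 1)) * (δ * n) = 1 / ((D : ℝ) + 1) * (δ / 4 * n) := by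
        field_simp
      rw [h4]
      exact mul_le_mul_of_nonneg_left hP3 (by positivity)
    linarith
  have hrest : ∀ x : ℝ, 0 ≤ x → x ≤ D → x * (1 / ((D : ℝ) + 1) * P) ≤ P * 1 := by
    intro x hx0 hx1
    have h1 : x * (1 / ((D : ℝ) + 1)) ≤ 1 := by
      rw [mul_one_div, div_le_one (by positivity)]
      linarith
    calc x * (1 / ((D : ℝ) + 1) * P) = (x * (1 / ((D : ℝ) + 1))) * P := by ring
      _ ≤ 1 * P := mul_le_mul_of_nonneg_right h1 hP0.le
      _ = P * 1 := by ring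
  rcases le_total y0 y with hyz | hyz
  · have hz : (y0 : ℝ) ≤ y := by exact_mod_cast hyz
    rw [abs_of_nonneg (by linarith)] at hy
    have hy1 : y ≤ y0 + P := by
      have : (y : ℝ) ≤ ((y0 + P : ℤ) : ℝ) := by push_cast; linarith
      exact_mod_cast this
    have h1 := e_chord F d hn1 hyz hy1
    have h2 := hcost (y0 + P) (by push_cast; rw [add_sub_cancel_left, abs_of_pos hP0])
    push_cast at h1
    rw [add_sub_cancel_left] at h1
    have h4 : ((y0 : ℝ) + P - y) * e F d n y0 ≤ P * R := by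
      have h5 : ((y0 : ℝ) + P - y) * e F d n y0 ≤ ((y0 : ℝ) + P - y) * R :=
        mul_le_mul_of_nonneg_left hy0.le (by linarith)
      have h6 : ((y0 : ℝ) + P - y) * R ≤ P * R := mul_le_mul_of_nonneg_right (by linarith) hR
      linarith
    have h5 : ((y : ℝ) - y0) * e F d n (y0 + P) ≤ (y - y0) * (1 / ((D : ℝ) + 1) * P) :=
      mul_le_mul_of_nonneg_left h2 (by linarith)
    have h6 := hrest ((y : ℝ) - y0) (by linarith) hy
    have h7 : (P : ℝ) * e F d n y ≤ P * (R + 1) := by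
      rw [mul_add]
      linarith
    exact le_of_mul_le_mul_left h7 hP0
  · have hz : (y : ℝ) ≤ y0 := by exact_mod_cast hyz
    rw [abs_sub_comm, abs_of_nonneg (by linarith)] at hy
    have hy1 : y0 - P ≤ y := by
      have : ((y0 - P : ℤ) : ℝ) ≤ (y : ℝ) := by push_cast; linarith
      exact_mod_cast this
    have h1 := e_chord F d hn1 hy1 hyz
    have h2 := hcost (y0 - P) (by
      push_cast
      rw [show (y0 : ℝ) - P - y0 = -P by ring, abs_neg, abs_of_pos hP0])
    push_cast at h1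
    rw [sub_sub_cancel] at h1
    have h4 : ((y : ℝ) - (y0 - P)) * e F d n y0 ≤ P * R := by
      have h5 : ((y : ℝ) - (y0 - P)) * e F d n y0 ≤ ((y : ℝ) - (y0 - P)) * R :=
        mul_le_mul_of_nonneg_left hy0.le (by linarith)
      have h6 : ((y : ℝ) - (y0 - P)) * R ≤ P * R := mul_le_mul_of_nonneg_right (by linarith) hR
      linarith
    have h5 : ((y0 : ℝ) - y) * e F d n (y0 - P) ≤ (y0 - y) * (1 / ((D : ℝ) + 1) * P) :=
      mul_le_mul_of_nonneg_left h2 (by linarith)
    have h6 := hrest ((y0 : ℝ) - y) (by linarith) hy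
    have h7 : (P : ℝ) * e F d n y ≤ P * (R + 1) := by
      rw [mul_add]
      linarith
    exact le_of_mul_le_mul_left h7 hP0

/-- **The mean costs of all positions are large**, if runs in the direction `s` can be lucky. -/
theorem plant (hD : Dirs F κ K A) (s : Bool) (hs : 1 ≤ F.co.tm (dir s)) {k : ℝ} (hk : 0 < k)
    (hρ : 0 < F.nu.real {x | F.g x ≤ F.a + k / 2}) {R : ℝ} (hR : 0 ≤ R) :
    ∃ n0 : ℕ, ∀ d ∈ A, F.a + k ≤ d.hs s → ∀ n : ℕ, n0 ≤ n → ∀ y0 : ℤ, R ≤ e F d n y0 := by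
  have hb := g2_b0 F
  have ha := F.a0
  have hL := F.co.L_pos
  set ρ := F.nu.real {x | F.g x ≤ F.a + k / 2} with hρdef
  have hρ1 : ρ ≤ 1 := measureReal_le_one
  -- the number of steps
  obtain ⟨j, hj⟩ := exists_nat_gt ((8 * R + 12) / k)
  have hj0 : (0 : ℝ) < j := lt_trans (by positivity) hj
  have hj1 : 1 ≤ j := by exact_mod_cast hj0
  set N : ℕ := F.co.L.toNat * j with hN
  have hNR : (N : ℝ) = F.co.L * j := by
    have h1 : ((F.co.L.toNat * j : ℕ) : ℤ) = F.co.L * j := by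
      push_cast
      rw [Int.toNat_of_nonneg (by omega)]
    have := congrArg (Int.cast : ℤ → ℝ) h1
    rw [hN]
    push_cast at this ⊢
    exact this
  have hLR : (1 : ℝ) ≤ F.co.L := by exact_mod_cast (show (1 : ℤ) ≤ F.co.L by omega)
  have hNj : (j : ℝ) ≤ N := by
    rw [hNR]
    nlinarith
  have hkN : 8 * R + 12 < k * N := by
    rw [div_lt_iff₀ hk] at hj
    nlinarith
  have hN0 : (0 : ℝ) < N := lt_of_lt_of_le hj0 hNj
  -- the number of runs
  have hq0 : 0 ≤ 1 - ρ ^ N := by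
    have := pow_le_one₀ hρ.le hρ1 (n := N)
    linarith
  have hq1 : 1 - ρ ^ N < 1 := by
    have := pow_pos hρ N
    linarith
  set δ : ℝ := min (1 / 2) (1 / (2 * F.b * N)) with hδ
  have hδ0 : 0 < δ := by positivity
  obtain ⟨D, hDp⟩ := exists_pow_lt_of_lt_one hδ0 hq1
  have hD0 : 0 < D := by
    rcases Nat.eq_zero_or_pos D with h | h
    · rw [h, pow_zero] at hDp
      have := min_le_left (1 / 2 : ℝ) (1 / (2 * F.b * N))
      linarith
    · exact h
  have hDR : (0 : ℝ) < D := by exact_mod_cast hD0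
  obtain ⟨n1, hn1, hnear'⟩ := near_of hD hR D
  refine ⟨n1, fun d hd hsl n hnn1 y0 => ?_⟩
  have hn1' : 1 ≤ n := hn1.trans hnn1
  by_contra hcon
  push Not at hcon
  have hnear := hnear' d hd n hnn1 y0 hcon
  -- the pieces
  set m : ℕ := (F.co.tm (dir s)).toNat * j with hm
  have hmZ : (m : ℤ) = F.co.tm (dir s) * j := by
    rw [hm]
    push_cast
    rw [Int.toNat_of_nonneg (by omega)]
  have hm1 : 1 ≤ m := by
    rw [hm]
    have h1 : 1 ≤ (F.co.tm (dir s)).toNat := by omega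
    exact Nat.one_le_iff_ne_zero.2 (Nat.mul_ne_zero (by omega) (by omega))
  set Δ : ℤ := F.co.L * j * F.co.ps (dir s) with hΔ
  set S : ℕ → Finset Edge := fun i => run (F.co.vt ((n : ℤ), y0 + i)) s N with hS
  have hSlab : ∀ l, (S l : Set Edge) ⊆ F.co.slab n (n + m) := by
    intro l e he
    have h1 := run_slab F.co ((n : ℤ), y0 + l) s hs j (Finset.mem_coe.1 he)
    rw [hmZ]
    exact h1
  have hcard : ∀ l, (S l).card = N := fun l => run_card _ _ _
  have hdis : ∀ l l', l ≠ l' → Disjoint (S l : Set Edge) (S l' : Set Edge) := by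
    intro l l' hll
    exact run_disjoint F.co s hs n (by
      intro h
      apply hll
      have : (l : ℤ) = l' := by linarith
      exact_mod_cast this) N
  have hpl : ∀ i : ℕ, ∀ η : Env, WW0 F (k / 2) S i η ≠ 0 → X F d η ((n : ℤ), y0 + i) m Δ ≤ -(k / 2) * N := by
    intro i η h
    have h1 : bbG F (k / 2) (S i) η ≠ 0 := fun h2 => h (by unfold WW0; rw [h2, mul_zero])
    have h2 := run_X d η ((n : ℤ), y0 + i) s hs j (bb_ne h1)
    refine h2.trans ?_
    rw [← hNR]
    exact mul_le_mul_of_nonneg_right (by linarith) hN0.le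
  have hpl0 : ∀ η : Env, X F d η ((n : ℤ), y0 + (0 : ℕ)) m Δ ≤ F.b * N := by
    intro η
    have h2 := run_X d η ((n : ℤ), y0 + (0 : ℕ)) s hs j (r := F.b) (fun e _ => F.g2 _)
    refine h2.trans ?_
    rw [← hNR]
    exact mul_le_mul_of_nonneg_right (by linarith) hN0.le
  -- the weights
  have hWi : ∀ i, Integrable (WW0 F (k / 2) S i) (law F) := fun i =>
    Integrable.of_bound (WW0_meas F (k / 2) S i).aestronglyMeasurable 1 (Filter.Eventually.of_forall fun η => by
      rw [Real.norm_eq_abs, abs_of_nonneg (WW0_nn F (k / 2) S i η)]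
      exact WW0_le F (k / 2) S i η)
  have hUi : Integrable (UU0 F (k / 2) S D) (law F) :=
    Integrable.of_bound (UU0_meas F (k / 2) S D).aestronglyMeasurable 1 (Filter.Eventually.of_forall fun η => by
      rw [Real.norm_eq_abs, abs_of_nonneg (UU0_nn F (k / 2) S D η)]
      exact UU0_le F (k / 2) S D η)
  set u : ℝ := ∫ η, UU0 F (k / 2) S D η ∂(law F) with hu
  have hu1 : u < δ := by
    rw [hu, UU0_int F (k / 2) S hcard hdis D]
    exact hDp
  have hu0 : 0 ≤ u := integral_nonneg fun η => UU0_nn F (k / 2) S D η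
  have hsum1 : ∑ i ∈ Finset.range D, ∫ η, WW0 F (k / 2) S i η ∂(law F) + u = 1 := by
    rw [hu, ← integral_finsetSum _ fun i _ => hWi i, ← integral_add (integrable_finsetSum _ fun i _ => hWi i) hUi]
    have h1 : (fun η => ∑ i ∈ Finset.range D, WW0 F (k / 2) S i η + UU0 F (k / 2) S D η) = fun _ => (1 : ℝ) := by
      funext η
      exact WW0_sum F (k / 2) S D η
    rw [h1, integral_const]
    simp
  have hT : 1 ≤ n + (m + n) := by omega
  -- the target does not depend on the run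
  have htgt : ∀ i : ℕ, y0 + (i : ℤ) + (Δ + (y0 - i)) = y0 + (Δ + y0) := fun i => by ring
  have hpos : 0 ≤ e F d (n + (m + n)) (y0 + (Δ + y0)) := by
    refine le_trans ?_ (e_lower F d hT _)
    exact mul_nonneg (Nat.cast_nonneg _) ((hD.touch d hd).nn _)
  have hsplit : e F d (n + (m + n)) (y0 + (Δ + y0)) =
      ∑ i ∈ Finset.range D, ∫ η, WW0 F (k / 2) S i η * X F d η 0 (n + (m + n)) (y0 + (Δ + y0)) ∂(law F) +
        ∫ η, UU0 F (k / 2) S D η * X F d η 0 (n + (m + n)) (y0 + (Δ + y0)) ∂(law F) := by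
    have i1 : ∀ i, Integrable (fun η => WW0 F (k / 2) S i η * X F d η 0 (n + (m + n)) (y0 + (Δ + y0))) (law F) :=
      fun i => g2_mul_int (WW0_meas F (k / 2) S i) (WW0_nn F (k / 2) S i) (WW0_le F (k / 2) S i) d 0 hT _
    have i2 : Integrable (fun η => UU0 F (k / 2) S D η * X F d η 0 (n + (m + n)) (y0 + (Δ + y0))) (law F) :=
      g2_mul_int (UU0_meas F (k / 2) S D) (UU0_nn F (k / 2) S D) (UU0_le F (k / 2) S D) d 0 hT _
    rw [← integral_finsetSum _ fun i _ => i1 i, ← integral_add (integrable_finsetSum _ fun i _ => i1 i) i2]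
    unfold e
    congr 1
    funext η
    rw [← Finset.sum_mul, ← add_mul, WW0_sum, one_mul]
  have hW1 : ∀ i ∈ Finset.range D,
      ∫ η, WW0 F (k / 2) S i η * X F d η 0 (n + (m + n)) (y0 + (Δ + y0)) ∂(law F) ≤
        (∫ η, WW0 F (k / 2) S i η ∂(law F)) * (2 * (R + 1) - k / 2 * N) := by
    intro i hi
    have hiD : (i : ℝ) ≤ D := by
      have := Finset.mem_range.1 hi
      exact_mod_cast this.le
    have h1 := detour d hn1' hm1 (y0 + i) Δ (y0 - i) (WW0_meas F (k / 2) S i) (WW0_nn F (k / 2) S i)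
      (WW0_le F (k / 2) S i) (WW0_dep F (k / 2) S hSlab i) (hpl i)
    rw [htgt] at h1
    refine h1.trans (mul_le_mul_of_nonneg_left ?_ (integral_nonneg fun η => WW0_nn F (k / 2) S i η))
    have h2 := hnear (y0 + i) (by push_cast; rw [add_sub_cancel_left, abs_of_nonneg (Nat.cast_nonneg i)]; exact hiD)
    have h3 := hnear (y0 - i) (by
      push_cast
      rw [show (y0 : ℝ) - i - y0 = -i by ring, abs_neg, abs_of_nonneg (Nat.cast_nonneg i)]
      exact hiD)
    linarith
  have hU1 : ∫ η, UU0 F (k / 2) S D η * X F d η 0 (n + (m + n)) (y0 + (Δ + y0)) ∂(law F) ≤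
        u * (2 * (R + 1) + F.b * N) := by
    have h1 := detour d hn1' hm1 (y0 + (0 : ℕ)) Δ (y0 - (0 : ℕ)) (UU0_meas F (k / 2) S D) (UU0_nn F (k / 2) S D)
      (UU0_le F (k / 2) S D) (UU0_dep F (k / 2) S hSlab D) (fun η _ => hpl0 η)
    rw [htgt] at h1
    refine h1.trans (mul_le_mul_of_nonneg_left ?_ hu0)
    have h2 := hnear (y0 + (0 : ℕ)) (by simp)
    have h3 := hnear (y0 - (0 : ℕ)) (by simp)
    linarith
  have hfin : e F d (n + (m + n)) (y0 + (Δ + y0)) ≤
      (1 - u) * (2 * (R + 1) - k / 2 * N) + u * (2 * (R + 1) + F.b * N) := by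
    rw [hsplit]
    refine add_le_add ((Finset.sum_le_sum hW1).trans (le_of_eq ?_)) hU1
    rw [← Finset.sum_mul]
    congr 1
    linarith
  have hu2 : u ≤ 1 / 2 := hu1.le.trans (min_le_left _ _)
  have hu3 : u * (F.b * N) ≤ 1 / 2 := by
    have h1 : u ≤ 1 / (2 * F.b * N) := hu1.le.trans (min_le_right _ _)
    calc u * (F.b * N) ≤ 1 / (2 * F.b * N) * (F.b * N) := mul_le_mul_of_nonneg_right h1 (by positivity)
      _ = 1 / 2 := by field_simp
  nlinarith

/-- The slopes of the supporting forms are larger than `a`. -/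
theorem slope_lower (hD : Dirs F κ K A) {t : ℝ} (ht : 0 < t) (h : F.nu.real {x | F.g x ≤ F.a + t} ≤ 1 / 32) :
    ∃ k : ℝ, 0 < k ∧ ∀ d ∈ A, F.a + k ≤ d.hs false ∨ F.a + k ≤ d.hs true := by
  obtain ⟨k, C, hk, hC, -, hml⟩ := mean_lower F ht h
  have hL := F.co.L_pos
  have hM : (1 : ℝ) ≤ F.co.M := by exact_mod_cast F.co.M_pos
  obtain ⟨δ, hδ, hδ1⟩ := hD.small (ε := k / 8 / (1 + F.co.M)) (by positivity)
  set x : ℝ := min δ 1 with hx
  have hx0 : 0 < x := lt_min hδ one_pos
  have hx1 : x ≤ 1 := min_le_right _ _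
  obtain ⟨n0, hn0, hsm⟩ := hδ1 x hx0 (min_le_left _ _)
  obtain ⟨n1, hn1⟩ := exists_nat_gt (max (1 / x) (8 * (C + 1) * (1 + F.co.M) / k))
  refine ⟨k / 2, by positivity, fun d hd => ?_⟩
  by_contra hcon
  push Not at hcon
  set n : ℕ := max n0 n1 with hn
  have hn1' : 1 ≤ n := hn0.trans (le_max_left _ _)
  have hnR : (0 : ℝ) < n := by exact_mod_cast hn1'
  have hnn1 : (n1 : ℝ) ≤ n := by exact_mod_cast le_max_right n0 n1
  have hb1 : 1 / x < n := (lt_of_le_of_lt (le_max_left _ _) hn1).trans_le hnn1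
  have hb2 : 8 * (C + 1) * (1 + F.co.M) / k < n := (lt_of_le_of_lt (le_max_right _ _) hn1).trans_le hnn1
  have h1 := hsm d hd n (le_max_left _ _) (md d n) (by
    refine (abs_md d n).trans ?_
    rw [div_lt_iff₀ hx0] at hb1
    linarith)
  -- lower bound of the mean
  have h2 := hml (F.co.slab 0 (0 + n)) (F.co.vt 0) (F.co.vt (0 + ((n : ℤ), md d n))) (by
    simpa using Co.ne_vt (c := F.co) 0 hn1' (md d n))
  have h3 : ∫ η, TR (F.co.slab 0 (0 + n)) (F.tau η) (F.co.vt 0) (F.co.vt (0 + ((n : ℤ), md d n))) ∂(law F) =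
      tm_ F n (md d n) := rfl
  rw [h3, zero_add, Co.vt_zero, sub_zero] at h2
  set w : V := F.co.vt ((n : ℤ), md d n) with hw
  have h4 := e_eq F d hn1' (md d n)
  have h5 : al F.co d * n + be F.co d * md d n = d.H w := by
    rw [hw, Co.H_vt]
    push_cast
    rfl
  have h6 : d.H w ≤ (F.a + k / 2) * nm w := by
    have hadm := hD.adm d hd
    have e1 : d.hs false = d.h1 := by unfold Dr.hs Dr.H dir; simp
    have e2 : d.hs true = d.h2 := by unfold Dr.hs Dr.H dir; simp
    rw [e1, e2] at hcon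
    unfold Dr.H nm
    have h7 : d.h1 * (w.1 : ℝ) ≤ (F.a + k / 2) * |(w.1 : ℝ)| := by
      calc d.h1 * (w.1 : ℝ) ≤ d.h1 * |(w.1 : ℝ)| := mul_le_mul_of_nonneg_left (le_abs_self _) hadm.h1n
        _ ≤ (F.a + k / 2) * |(w.1 : ℝ)| := mul_le_mul_of_nonneg_right hcon.1.le (abs_nonneg _)
    have h8 : d.h2 * (w.2 : ℝ) ≤ (F.a + k / 2) * |(w.2 : ℝ)| := by
      calc d.h2 * (w.2 : ℝ) ≤ d.h2 * |(w.2 : ℝ)| := mul_le_mul_of_nonneg_left (le_abs_self _) hadm.h2n
        _ ≤ (F.a + k / 2) * |(w.2 : ℝ)| := mul_le_mul_of_nonneg_right hcon.2.le (abs_nonneg _)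
    linarith
  have h9 : (n : ℝ) ≤ F.co.M * nm w := by
    have h10 := F.co.abs_tm_le w
    rw [hw, Co.tm_vt] at h10
    have h11 : (n : ℝ) ≤ |((F.co.L * ((n : ℤ), md d n).1 : ℤ) : ℝ)| := by
      simp only
      push_cast
      rw [abs_mul, Nat.abs_cast]
      have h12 : (1 : ℝ) ≤ |(F.co.L : ℝ)| := by
        rw [abs_of_pos (by exact_mod_cast (show (0 : ℤ) < F.co.L by omega))]
        exact_mod_cast (show (1 : ℤ) ≤ F.co.L by omega)
      nlinarith
    exact h11.trans h10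
  have h10 : k / 2 * nm w ≤ C + k / 8 / (1 + F.co.M) * (x * n) := by
    rw [h4, h5] at h1
    nlinarith
  have h11 : k / 8 / (1 + F.co.M) * (x * n) ≤ k / 8 * nm w := by
    have h12 : x * n ≤ n := by nlinarith
    have h13 : (n : ℝ) ≤ (1 + F.co.M) * nm w := by
      have := nm_nonneg w
      nlinarith
    calc k / 8 / (1 + F.co.M) * (x * n) ≤ k / 8 / (1 + F.co.M) * ((1 + F.co.M) * nm w) :=
          mul_le_mul_of_nonneg_left (h12.trans h13) (by positivity)
      _ = k / 8 * nm w := by field_simp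
  have h12 : C + 1 < k / 8 * nm w := by
    have h13 : 8 * (C + 1) * (1 + F.co.M) < n * k := by
      rw [div_lt_iff₀ hk] at hb2
      exact hb2
    have h14 : (n : ℝ) * k ≤ F.co.M * nm w * k := mul_le_mul_of_nonneg_right h9 hk.le
    have h15 : 8 * (C + 1) * F.co.M ≤ 8 * (C + 1) * (1 + F.co.M) := by
      have : 0 ≤ 8 * (C + 1) := by linarith
      nlinarith
    have h16 : F.co.M * (8 * (C + 1)) < F.co.M * (nm w * k) := by linarith
    have h17 := lt_of_mul_lt_mul_left h16 (by linarith)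
    linarith
  nlinarith [nm_nonneg w]

/-- **The mean costs of all positions tend to infinity, uniformly in the direction and the position.** The law has a small atom at
the bottom and `a` is the bottom of its support. -/
theorem grow_all (hD : Dirs F κ K A) {t : ℝ} (ht : 0 < t) (h : F.nu.real {x | F.g x ≤ F.a + t} ≤ 1 / 32)
    (hbot : ∀ u : ℝ, 0 < u → 0 < F.nu.real {x | F.g x ≤ F.a + u}) (R : ℝ) :
    ∃ n0 : ℕ, 1 ≤ n0 ∧ ∀ d ∈ A, ∀ n : ℕ, n0 ≤ n → ∀ y : ℤ, R ≤ e F d n y := by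
  obtain ⟨k, hk, hsl⟩ := slope_lower hD ht h
  have hR : 0 ≤ |R| := abs_nonneg R
  have hRR := le_abs_self R
  obtain ⟨n1, hn1⟩ := plant hD false (by rw [Co.tm_e1]; have := F.co.hp; omega) hk (hbot _ (by positivity)) hR
  have hq : 1 ≤ F.co.q ∨ F.co.q = 0 := by
    have := F.co.hq
    omega
  rcases hq with hq | hq
  · obtain ⟨n2, hn2⟩ := plant hD true (by rw [Co.tm_e2]; omega) hk (hbot _ (by positivity)) hR
    refine ⟨max 1 (max n1 n2), le_max_left _ _, fun d hd n hn y => ?_⟩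
    rcases hsl d hd with h2 | h2
    · exact hRR.trans (hn1 d hd h2 n (((le_max_left _ _).trans (le_max_right _ _)).trans hn) y)
    · exact hRR.trans (hn2 d hd h2 n (((le_max_right _ _).trans (le_max_right _ _)).trans hn) y)
  · refine ⟨max 1 n1, le_max_left _ _, fun d hd n hn y => ?_⟩
    rcases hsl d hd with h2 | h2
    · exact hRR.trans (hn1 d hd h2 n ((le_max_right _ _).trans hn) y)
    · exfalso
      have hadm := hD.adm d hd
      have e2 : d.hs true = d.h2 := by unfold Dr.hs Dr.H dir; simp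
      have hp : F.co.p = 1 := by
        have h3 := F.co.det
        have h4 := F.co.hp
        rw [hq, zero_mul, add_zero] at h3
        have h5 : F.co.p ∣ 1 := ⟨F.co.r, h3.symm⟩
        have h6 := Int.le_of_dvd one_pos h5
        omega
      have h3 : be F.co d = d.h2 := by
        unfold be
        rw [hp, hq]
        simp
      have h4 := hadm.loop
      have h5 : (F.co.M : ℝ) = 1 := by
        unfold Co.M
        rw [hp, hq]
        simp
      rw [h3, h5, mul_one] at h4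
      have h6 := (le_abs_self _).trans h4
      have h7 := hadm.κ0
      rw [e2] at h2
      linarith

/-- The cheapest displacements and the bulk tend to infinity, uniformly in the direction. -/
theorem grow_es (hD : Dirs F κ K A) {t : ℝ} (ht : 0 < t) (h : F.nu.real {x | F.g x ≤ F.a + t} ≤ 1 / 32)
    (hbot : ∀ u : ℝ, 0 < u → 0 < F.nu.real {x | F.g x ≤ F.a + u}) (R : ℝ) :
    ∃ n0 : ℕ, 1 ≤ n0 ∧ ∀ d ∈ A, ∀ n : ℕ, n0 ≤ n →
      R ≤ es F d n ∧ R ≤ e F d n (xs F d n) ∧ R ≤ Em F d n ∧ R ≤ EE F d n := by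
  obtain ⟨n0, hn0, h1⟩ := grow_all hD ht h hbot R
  refine ⟨n0, hn0, fun d hd n hn => ?_⟩
  have h2 : R ≤ es F d n := le_ciInf fun y => (h1 d hd n hn y).trans (e_le_ep F d (hn0.trans hn) y)
  have h3 := le_EE F d (le_refl n)
  have h4 := le_Em F d (le_refl n)
  have h5 := Cr_pos F
  have h6 := h1 d hd n hn (xs F d n)
  exact ⟨h2, h6, by linarith, by linarith⟩

/-- **The units tend to infinity, uniformly in the direction.** -/
theorem grow (hD : Dirs F κ K A) {t : ℝ} (ht : 0 < t) (h : F.nu.real {x | F.g x ≤ F.a + t} ≤ 1 / 32)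
    (hbot : ∀ u : ℝ, 0 < u → 0 < F.nu.real {x | F.g x ≤ F.a + u}) : Grow F A := by
  intro R
  obtain ⟨n0, -, h1⟩ := grow_es hD ht h hbot R
  exact ⟨n0, fun d hd n hn => (h1 d hd n hn).2.2.2⟩

end

end Pool.Agent.W_1b8d5d_p
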