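import Pool.Agent.W_1b8d5d_nc.NcLev
import Pool.Agent.W_1b8d5d_p.ChainU
import Pool.Agent.W_1b8d5d_p.HsP
import Pool.Agent.W_1b8d5d_p.CoreOfChain
import Pool.Agent.W_1b8d5d_p.Width99
import Pool.Agent.W_1b8d5d_p.Grow2
import Pool.Agent.W_1b8d5d_p.FrCor
import Pool.Agent.W_1b8d5d_h4p.NSz

/-!
MP_1b8d5d_pr, Track P. The interface: the statements of the sections as predicates of the law `F` and the set of directions `A`
(`a` is the level of the width `vA a F d n`, `κ` the constant of `Dirs`), and the chain from them: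
`(hS)`, `(hB0)`, `(hB)`, `(hF2)` imply that the widths are at most a power of the time, uniformly in the direction.
-/

set_option autoImplicit false

namespace Pool.Agent.W_1b8d5d_p

open MeasureTheory Set
open Pool.Agent.W_1b8d5d_h85 (V nm dir Edge Env grid ke wedges cost Bd sh rf)
open Pool.Agent.W_1b8d5d_h4p (LawH Sf growK0 hV0)

noncomputable section

/-! ### The predicates -/

/-- **(L\*)**: the exponential moments of the tilted lucks of the pairs in the rows `[0, k]`, `k ≤ H n`, which start in a box of the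
width of the cone. -/
def LStarP (a : ℝ) (F : Fm) (A : Set Dr) : Prop :=
  ∀ H : ℕ, ∃ (C : ℝ) (n0 : ℕ), 1 ≤ C ∧ ∀ d ∈ A, ∀ n : ℕ, n0 ≤ n → ∀ k : ℕ, k ≤ H * n → ∀ o : ℝ,
    ∫ η, Real.exp (1 / (C * EE F d n) * TL F d (EE F d n / (C * (n * vA a F d n))) o (n * vA a F d n) k η) ∂(law F) ≤ C

/-- (L0): the lucks of a starting point. -/
def L0P (F : Fm) (A : Set Dr) : Prop :=
  ∀ H : ℕ, ∃ (C : ℝ) (n0 : ℕ), 1 ≤ C ∧ ∀ d ∈ A, ∀ n : ℕ, n0 ≤ n → ∀ y : ℝ,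
    (law F).real {η | ∃ m, 1 ≤ m ∧ m ≤ H * n ∧ y ≤ VV F d η 0 m} ≤ C * Real.exp (-(y / (C * EE F d n)))

/-- (CHEAP): the cheap displacements. -/
def CheapP (a : ℝ) (F : Fm) (A : Set Dr) : Prop :=
  ∃ c0 C' : ℝ, 0 < c0 ∧ ∀ d ∈ A, ∀ m : ℕ, 1 ≤ m → ∃ lo hi : ℤ, lo ≤ xs F d m ∧ xs F d m ≤ hi ∧
    c0 * (m * vA a F d m) - 1 ≤ (hi : ℝ) - lo ∧
    ∀ y : ℤ, lo ≤ y → y ≤ hi → e F d m y ≤ C' * EE F d m ∧ |(y : ℝ) - d.v * m| ≤ 2 * (m * vA a F d m) + 1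

/-- (D7), in the form of `hsP`. -/
def D7P (F : Fm) (κ : ℝ) (A : Set Dr) : Prop := D7U (EmP F A) (SfP F κ A)

/-- (I1), in the form of `hsP`. -/
def I1P (F : Fm) (κ : ℝ) (A : Set Dr) : Prop := I1U (EoP F A) (EmP F A) (SfP F κ A)

/-- One octave of (D4), in the form of `hsP`, at any level `a'` of the width. -/
def OctP (a' : ℝ) (F : Fm) (κ : ℝ) (A : Set Dr) : Prop := OctU (EoP F A) (EmP F A) (ffP a' F A) (SfP F κ A)

/-- (hS): slow growth of the unit on the stretches without soft scale (D4). -/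
def HSP (a : ℝ) (F : Fm) (κ : ℝ) (A : Set Dr) : Prop :=
  ∃ (P : A → ℕ → Prop) (α C : ℝ) (k x₀ : ℕ),
    (∀ d y x, x₀ ≤ y → y ≤ x → (∀ z, y ≤ z → z < x → P d z) →
      gg F d.1 x - gg F d.1 y ≤ (ff a F d.1 x - ff a F d.1 y) / 4 + C) ∧
    ∀ d x, x₀ ≤ x → ¬ P d x → ∃ y, x ≤ y + k ∧ y ≤ x + k ∧ Sf F κ d.1 y α

/-- (hB0). -/
def HB0P (a : ℝ) (F : Fm) (κ : ℝ) (A : Set Dr) : Prop :=
  ∃ C₀ α₀ : ℝ, ∀ d ∈ A, ∀ x : ℕ, Sf F κ d x (max (gg F d x - ff a F d x / 2 + C₀) α₀)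

/-- (hB). -/
def HBP (a : ℝ) (F : Fm) (κ : ℝ) (A : Set Dr) : Prop :=
  ∃ α₀ : ℝ, ∀ a₁ : ℝ, ∃ C : ℝ, ∀ T : ℕ, ∃ y₀ : ℕ, ∀ d ∈ A, ∀ y x : ℕ, y₀ ≤ y → y ≤ x → x ≤ y + T → Sf F κ d y a₁ →
    Sf F κ d x (max (gg F d x - gg F d y - (ff a F d x - ff a F d y) / 2 + C) α₀)

/-- (hF2). -/
def HF2P (a : ℝ) (F : Fm) (κ : ℝ) (A : Set Dr) : Prop :=
  ∀ (T x₀ : ℕ) (b : ℝ), (∀ d ∈ A, ∀ y, x₀ ≤ y → gg F d y + 1 ≤ gg F d (y + T)) → (∀ d ∈ A, ∀ y, x₀ ≤ y → Sf F κ d y b) →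
    (∀ d ∈ A, ∀ y : ℕ, gg F d y ≤ (y : ℝ) / 2 + b) → ∃ (L x₁ : ℕ) (δ : ℝ), 0 < δ ∧ ∀ d ∈ A, ∀ x, x₁ ≤ x →
      (∀ j : ℕ, j ≤ L → gg F d (x + j) ≤ gg F d x + 3 / 4 * j) → ff a F d x + δ ≤ ff a F d (x + L)

/-- The widths are at most a power of the time. -/
def WidthPow (a : ℝ) (F : Fm) (A : Set Dr) : Prop :=
  ∃ c C : ℝ, 0 < c ∧ ∀ d ∈ A, ∀ x : ℕ, c * x - C ≤ ff a F d x

/-! ### The chain -/

variable {F : Fm} {κ K a c0 C0 : ℝ} {A : Set Dr}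

/-- (hS) from one octave, (D7) and (I1). -/
theorem HSP.of (hD : Dirs F κ K A) {a' : ℝ} (ha : 0 < a) (ha' : 0 < a') (hO : OctP a' F κ A) (h7 : D7P F κ A)
    (h1 : I1P F κ A) : HSP a F κ A := hsP hD ha ha' hO h7 h1

/-- A change of the level of the width in (hB0). -/
theorem HB0P.change (hD : Dirs F κ K A) {a' : ℝ} (ha : 0 < a) (ha' : 0 < a') (h : HB0P a' F κ A) : HB0P a F κ A := by
  obtain ⟨C₀, α₀, h⟩ := h
  obtain ⟨C, hC⟩ := ff_change hD ha ha'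
  refine ⟨C₀ + C / 2, α₀, fun d hd x => (h d hd x).mono (max_le_max_right _ ?_)⟩
  have h1 := abs_le.1 (hC d hd x)
  linarith

/-- A change of the level of the width in (hB). -/
theorem HBP.change (hD : Dirs F κ K A) {a' : ℝ} (ha : 0 < a) (ha' : 0 < a') (h : HBP a' F κ A) : HBP a F κ A := by
  obtain ⟨α₀, h⟩ := h
  obtain ⟨CL, hCL⟩ := ff_change hD ha ha'
  refine ⟨α₀, fun a₁ => ?_⟩
  obtain ⟨C, h⟩ := h a₁
  refine ⟨C + CL, fun T => ?_⟩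
  obtain ⟨y₀, h⟩ := h T
  refine ⟨y₀, fun d hd y x h1 h2 h3 h4 => (h d hd y x h1 h2 h3 h4).mono (max_le_max_right _ ?_)⟩
  have h5 := abs_le.1 (hCL d hd x)
  have h6 := abs_le.1 (hCL d hd y)
  linarith

/-- Grow from the law. -/
theorem Dirs.grow_law (hD : Dirs F κ K A) (hL : LawH F c0 C0) : Grow F A :=
  Pool.Agent.W_1b8d5d_nc.growN hD (hL.at0 F.a) hL.pos

/-- **The chain.** -/
theorem chainP (hL : LawH F c0 C0) (hκ : 0 < κ) (hD : Dirs F κ K A) (ha : 0 < a) (hS : HSP a F κ A) (hB0 : HB0P a F κ A)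
    (hB : HBP a F κ A) (hF2 : HF2P a F κ A) : WidthPow a F A := by
  obtain ⟨C₀, α₀, hB0⟩ := hB0
  obtain ⟨α₁, hB⟩ := hB
  obtain ⟨G₀, hG₀⟩ := gg_zero hD
  obtain ⟨F₀, hF₀⟩ := ff_zero hD ha
  have hgr := hD.grow_law hL
  have key := chainU (ι := A) (g := fun d x => gg F d.1 x) (f := fun d x => ff a F d.1 x) (S := fun d x α => Sf F κ d.1 x α)
    (α₀ := max α₀ α₁) (C₀ := C₀) (D := 1) (Cg := 0) (G₀ := G₀) (F₀ := F₀)
    (fun d x α β hαβ hs => hs.mono hαβ) le_rfl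
    (fun d y x hyx => by simpa using gg_mono F d.1 hyx) (fun d x => gg_succ F d.1 x) (fun d => ff_mono hD ha d.2)
    (fun d => hG₀ d.1 d.2) (fun d => hF₀ d.1 d.2)
    (fun M => by
      obtain ⟨x₁, h⟩ := ff_large hD ha (hD.rate hL) M
      exact ⟨x₁, fun d x hx => h d.1 d.2 x hx⟩)
    hS
    (fun d x => (hB0 d.1 d.2 x).mono (max_le_max_left _ (le_max_left _ _)))
    (fun a₁ => by
      obtain ⟨C, h⟩ := hB a₁
      refine ⟨C, fun T => ?_⟩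
      obtain ⟨y₀, h1⟩ := h T
      exact ⟨y₀, fun d y x h2 h3 h4 h5 => (h1 d.1 d.2 y x h2 h3 h4 h5).mono (max_le_max_left _ (le_max_right _ _))⟩)
    (fun a₁ => by
      obtain ⟨T, x₀, h⟩ := growK0 hL hD.adm hD.touch hgr a₁ 1
      exact ⟨T, x₀, fun d x hx hs => h d.1 d.2 x hx hs⟩)
    (fun a₁ => by
      obtain ⟨C, h⟩ := hV0 hL hκ a₁
      exact ⟨C, fun d x hs => h d.1 (hD.adm d.1 d.2) x hs⟩)
    (fun T x₀ b h1 h2 h3 => by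
      obtain ⟨L, x₁, δ, hδ, h⟩ := hF2 T x₀ b (fun d hd => h1 ⟨d, hd⟩) (fun d hd => h2 ⟨d, hd⟩) (fun d hd => h3 ⟨d, hd⟩)
      exact ⟨L, x₁, δ, hδ, fun d => h d.1 d.2⟩)
  obtain ⟨c, C, hc, h⟩ := key
  exact ⟨c, C, hc, fun d hd x => h ⟨d, hd⟩ x⟩

/-- **The core from the sections**: `hB` may be proved at any level `a'`, the levels of (D4) and (hB0) are free, too. -/
theorem core_of_sections (hL : LawH F c0 C0) (hκ : 0 < κ) (hD : Dirs F κ K A) {a1 a2 a3 : ℝ} (ha : 0 < a) (ha1 : 0 < a1)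
    (ha2 : 0 < a2) (ha3 : 0 < a3) (hO : OctP a1 F κ A) (h7 : D7P F κ A) (h1 : I1P F κ A) (hB0 : HB0P a2 F κ A)
    (hB : HBP a3 F κ A) (hF2 : HF2P a F κ A) :
    ∃ c K0 δ : ℝ, 0 < c ∧ 0 < K0 ∧ 0 < δ ∧ ∀ d ∈ A, ∀ x : ℝ, |x| ≤ δ → c * |x| ^ K0 ≤ J F d x := by
  obtain ⟨c, C, hc, h⟩ := chainP hL hκ hD ha (HSP.of hD ha ha1 hO h7 h1) (hB0.change hD ha ha2) (hB.change hD ha ha3) hF2
  exact core_of_chain hD ha hc h

end

end Pool.Agent.W_1b8d5d_p
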