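import Pool.Agent.W_1b8d5d_p.FrameE
import Pool.Agent.W_1b8d5d_p.IfaceP
import Pool.Agent.W_1b8d5d_p.HfC80

/-!
MP_1b8d5d_pr, Track P. (L*) and (L0) in the forms of the users: `LStarP`, `L0P` (IfaceP), `LS80` (HfC80).
-/

namespace Pool.Agent.W_1b8d5d_p

open MeasureTheory Set
open Pool.Agent.W_1b8d5d_h85
open Pool.Agent.W_1b8d5d_h4p (LawH)

noncomputable section

variable {F : Fm} {κ K : ℝ} {Ds : Set Dr}

/-- Smaller boxes and smaller tilts have smaller lucks. -/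
theorem TL_mono_bx {d : Dr} {K0 C0 C1 t t' o W W' : ℝ} {k k' : ℕ} (hsl : Sl F d K0 C0 C1) (ht : t' ≤ t) (htK : t ≤ K0)
    (hW : W' ≤ W) (hk : k' ≤ k) (η : Env) : TL F d t' o W' k' η ≤ TL F d t o W k η := by
  refine TL_le (TL_nonneg hsl htK η) fun P Q hPQ => ?_
  obtain ⟨h1, h2, h3, h4, h5, h6⟩ := hPQ
  simp only at h1 h2 h3 h4 h5 h6
  have hk' : ((k' : ℕ) : ℤ) ≤ k := by exact_mod_cast hk
  have h7 := le_TL hsl htK η (P := P) (Q := Q) (o := o) (W := W) (k := k) (t := t)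
    ⟨h1, h2, h3.trans hk', h4, h5, by linarith⟩
  have h8 := mul_le_mul_of_nonneg_right ht (abs_nonneg (lat d Q - lat d P))
  linarith

/-- The tilts `c EE n / (n vA n)` are small. -/
theorem Dirs.tilt_small (h : Dirs F κ K Ds) {d : Dr} (hd : d ∈ Ds) {a c k' : ℝ} (ha : 1 ≤ a) {n : ℕ} (hn : 1 ≤ n)
    (hc : 0 ≤ c) (hck : c * LJ F ≤ k') : c * EE F d n / (n * vA a F d n) ≤ k' := by
  have hLJ := LJ_pos F
  have hE0 := EE_pos F d n
  have hn0r : (1 : ℝ) ≤ n := by exact_mod_cast hn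
  have hlow := h.vA_lower hd (show 0 ≤ a by linarith) hn
  obtain ⟨V, hV⟩ : ∃ V, V = n * vA a F d n := ⟨_, rfl⟩
  have hV1 : 2 * (a * EE F d n) ≤ V * LJ F := by
    have g1 := mul_le_mul_of_nonneg_left hlow (show (0 : ℝ) ≤ n by linarith)
    have g2 : (n : ℝ) * (2 * (a * EE F d n / n / LJ F)) = 2 * (a * EE F d n) / LJ F := by field_simp
    rw [g2, div_le_iff₀ hLJ, ← hV] at g1
    exact g1
  rw [← hV]
  have hV0 : 0 < V := by
    rw [hV]
    have := h.vA_pos hd (show 0 < a by linarith) hn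
    positivity
  rw [div_le_iff₀ hV0]
  have h1 : EE F d n ≤ V * LJ F := by nlinarith
  calc c * EE F d n ≤ c * (V * LJ F) := mul_le_mul_of_nonneg_left h1 hc
    _ = c * LJ F * V := by ring
    _ ≤ k' * V := mul_le_mul_of_nonneg_right hck hV0.le

/-- **(L\*)** in the form of `IfaceP`. -/
theorem Dirs.lstarP (h : Dirs F κ K Ds) (hr : Rate F Ds) (hg : Grow F Ds) (hmc : MCz F Ds) {a : ℝ} (ha : 0 < a) :
    LStarP a F Ds := by
  intro H
  rcases Ds.eq_empty_or_nonempty with hemp | ⟨d0, hd0⟩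
  · refine ⟨1, 1, le_rfl, fun d hd => ?_⟩
    rw [hemp] at hd
    exact absurd hd (notMem_empty _)
  have hκ := (h.adm d0 hd0).κ0
  have hM : (1 : ℝ) ≤ F.co.M := by exact_mod_cast F.co.M_pos
  have hLJ := LJ_pos F
  obtain ⟨a1, ha1⟩ : ∃ a1 : ℝ, a1 = max 1 a := ⟨_, rfl⟩
  have ha11 : 1 ≤ a1 := by rw [ha1]; exact le_max_left _ _
  have ha1a : a ≤ a1 := by rw [ha1]; exact le_max_right _ _
  obtain ⟨c1, n0, hc1, hc11, hn0, hls⟩ := h.lsU hr hg hmc ha11 (Hh := H + 1) (by omega)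
  obtain ⟨C1, hC1, hls1⟩ := hls 1 le_rfl
  obtain ⟨c0, hc0, hc01, hc0L⟩ : ∃ c0 : ℝ, 0 < c0 ∧ c0 ≤ c1 ∧ c0 * LJ F ≤ κ := by
    refine ⟨min c1 (κ / LJ F), by positivity, min_le_left _ _, ?_⟩
    have g1 := min_le_right c1 (κ / LJ F)
    rwa [le_div_iff₀ hLJ] at g1
  have hq : 1 ≤ a1 / a := by rw [one_le_div ha]; exact ha1a
  obtain ⟨C, hC, hCc, hCC⟩ : ∃ C : ℝ, 1 ≤ C ∧ a1 / a / c0 ≤ C ∧ C1 ≤ C :=
    ⟨max 1 (max (a1 / a / c0) C1), le_max_left _ _, (le_max_left _ _).trans (le_max_right _ _),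
      (le_max_right _ _).trans (le_max_right _ _)⟩
  refine ⟨C, n0, hC, fun d hd n hn k hk o => ?_⟩
  have hn1 : 1 ≤ n := hn0.trans hn
  have hn1r : (1 : ℝ) ≤ n := by exact_mod_cast hn1
  have hadm := h.adm d hd
  have hsl := sl_of hadm
  have hC0 : 0 < C := by linarith
  obtain ⟨c, hc⟩ : ∃ c : ℝ, c = a1 / a / C := ⟨_, rfl⟩
  have hc00 : 0 < c := by rw [hc]; positivity
  have hcc0 : c ≤ c0 := by
    rw [div_le_iff₀ hc0] at hCc
    rw [hc, div_le_iff₀ hC0]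
    linarith
  have h1 := (hls1 c hc00 (hcc0.trans hc01) d hd n hn k (hk.trans (Nat.mul_le_mul_right n (by omega))) o).1
  rw [one_mul] at h1
  have hE0 := EE_pos F d n
  have hv0 := h.vA_pos hd ha hn1
  have hv1 := h.vA_pos hd (show 0 < a1 by linarith) hn1
  have hvm : vA a F d n ≤ vA a1 F d n := h.vA_level_mono hd ha.le ha1a n
  have hvl : vA a1 F d n ≤ a1 / a * vA a F d n := by
    have := h.vA_level_mul hd ha.le hq n
    rwa [div_mul_cancel₀ a1 ha.ne'] at this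
  have hc1' : c * C = a1 / a := by rw [hc, div_mul_cancel₀ _ hC0.ne']
  have hCle : EE F d n / (C * (n * vA a F d n)) ≤ c * EE F d n / (n * vA a1 F d n) := by
    rw [div_le_div_iff₀ (by positivity) (by positivity)]
    have g1 : n * vA a1 F d n ≤ n * (a1 / a * vA a F d n) := mul_le_mul_of_nonneg_left hvl (by linarith)
    have g2 : c * EE F d n * (C * (n * vA a F d n)) = EE F d n * (n * (c * C * vA a F d n)) := by ring
    rw [g2, hc1']
    exact mul_le_mul_of_nonneg_left g1 hE0.le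
  have hcK : c * EE F d n / (n * vA a1 F d n) ≤ κ * F.co.M := by
    have g1 := h.tilt_small hd ha11 hn1 hc00.le (k' := κ)
      ((mul_le_mul_of_nonneg_right hcc0 hLJ.le).trans hc0L)
    have g2 : κ * 1 ≤ κ * F.co.M := mul_le_mul_of_nonneg_left hM hκ.le
    linarith
  have hTL : ∀ η, TL F d (EE F d n / (C * (n * vA a F d n))) o (n * vA a F d n) k η ≤
      TL F d (c * EE F d n / (n * vA a1 F d n)) o (n * vA a1 F d n) k η := fun η =>
    TL_mono_bx hsl hCle hcK (mul_le_mul_of_nonneg_left hvm (by linarith)) le_rfl η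
  have h2 := integral_mono (expTL_int (o := o) (W := n * vA a F d n) (k := k) hsl (hCle.trans hcK)
    (show 0 ≤ c / EE F d n by positivity)) (expTL_int (o := o) (W := n * vA a1 F d n) (k := k) hsl hcK
    (show 0 ≤ c / EE F d n by positivity)) fun η =>
      Real.exp_le_exp.2 (mul_le_mul_of_nonneg_left (hTL η) (by positivity))
  have h3 : 1 / (C * EE F d n) ≤ c / EE F d n := by
    rw [div_le_div_iff₀ (by positivity) hE0]
    have : 1 ≤ c * C := by rw [hc1']; exact hq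
    nlinarith
  exact ((expTL_mono hsl (hCle.trans hcK) (by positivity) h3).trans h2).trans (h1.trans hCC)

/-- (L0) in the form of `IfaceP`. -/
theorem Dirs.l0P (h : Dirs F κ K Ds) (hr : Rate F Ds) (hg : Grow F Ds) (hmc : MCz F Ds) : L0P F Ds := by
  intro H
  rcases Ds.eq_empty_or_nonempty with hemp | ⟨d0, hd0⟩
  · refine ⟨1, 1, le_rfl, fun d hd => ?_⟩
    rw [hemp] at hd
    exact absurd hd (notMem_empty _)
  have hκ := (h.adm d0 hd0).κ0
  have hM : (1 : ℝ) ≤ F.co.M := by exact_mod_cast F.co.M_pos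
  obtain ⟨Λ, c, C, n0, hΛ, hc, hc1, hC, hn0, hls⟩ := h.lsTube hr hg hmc (a := 1) le_rfl (Hh := H + 1) (by omega) (k' := κ) hκ
  obtain ⟨C', hC', hC1, hC2⟩ : ∃ C' : ℝ, 1 ≤ C' ∧ C ≤ C' ∧ 1 / c ≤ C' :=
    ⟨max 1 (max C (1 / c)), le_max_left _ _, (le_max_left _ _).trans (le_max_right _ _),
      (le_max_right _ _).trans (le_max_right _ _)⟩
  refine ⟨C', n0, hC', fun d hd n hn y => ?_⟩
  obtain ⟨-, hW, hk, -, hL⟩ := hls d hd n hn
  have hsl := sl_of (h.adm d hd)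
  have hE0 := EE_pos F d n
  have hC'0 : 0 < C' := by linarith
  rcases le_total y 0 with hy | hy
  · have g1 : 0 ≤ -(y / (C' * EE F d n)) := by
      rw [neg_nonneg]
      exact div_nonpos_of_nonpos_of_nonneg hy (by positivity)
    have g2 := Real.one_le_exp g1
    have g3 : (law F).real {η | ∃ m, 1 ≤ m ∧ m ≤ H * n ∧ y ≤ VV F d η 0 m} ≤ 1 := measureReal_le_one
    nlinarith
  · have hsK : c * EE F d n / (Λ * (n * vA 1 F d n)) ≤ κ * F.co.M := by
      have g1 : κ * 1 ≤ κ * F.co.M := mul_le_mul_of_nonneg_left hM hκ.le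
      linarith
    have hfin := VV_max_tail (k := H * n) hsl (show 0 ≤ c * EE F d n / (Λ * (n * vA 1 F d n)) by positivity) hsK hW
      (show 0 < c / EE F d n by positivity) (fun o => (hL (H * n) (Nat.mul_le_mul_right n (by omega)) o).1) y
    refine hfin.trans (mul_le_mul hC1 ?_ (Real.exp_pos _).le (by linarith))
    refine Real.exp_le_exp.2 (neg_le_neg ?_)
    rw [div_le_iff₀ (by positivity)]
    have g1 : 1 ≤ c * C' := by
      rw [div_le_iff₀ hc] at hC2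
      linarith
    have g2 : c / EE F d n * y * (C' * EE F d n) = c * C' * y := by field_simp
    rw [g2]
    nlinarith

/-- (L\*) in the form of `HfC80`. -/
theorem Dirs.ls80 (h : Dirs F κ K Ds) (hr : Rate F Ds) (hg : Grow F Ds) (hmc : MCz F Ds) {a : ℝ} (ha : 0 < a) :
    LS80 a F Ds := by
  obtain ⟨C, n0, hC, hls⟩ := h.lstarP hr hg hmc ha 1
  have hC0 : 0 < C := by linarith
  refine ⟨C, 1 / C, max n0 1, hC, by positivity, le_max_right _ _, fun d hd n hn N hN o => ?_⟩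
  have h1 := hls d hd n ((le_max_left _ _).trans hn) N (by omega) o
  have e1 : 1 / C * EE F d n / (n * vA a F d n) = EE F d n / (C * (n * vA a F d n)) := by
    rw [one_div, inv_mul_eq_div, div_div]
  rw [e1]
  exact h1

/-! ### From the law only -/

/-- (L\*) in the form of `IfaceP`, from the law. -/
theorem lstarP_all {c0 C0 : ℝ} (hL : LawH F c0 C0) (h : Dirs F κ K Ds) {a : ℝ} (ha : 0 < a) : LStarP a F Ds :=
  h.lstarP (h.rate hL) (h.grow_law hL) (mcz hL h) ha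

theorem l0P_all {c0 C0 : ℝ} (hL : LawH F c0 C0) (h : Dirs F κ K Ds) : L0P F Ds :=
  h.l0P (h.rate hL) (h.grow_law hL) (mcz hL h)

theorem ls80_all {c0 C0 : ℝ} (hL : LawH F c0 C0) (h : Dirs F κ K Ds) {a : ℝ} (ha : 0 < a) : LS80 a F Ds :=
  h.ls80 (h.rate hL) (h.grow_law hL) (mcz hL h) ha

/-- (CHEAP) in the form of `IfaceP`, from the law, `a ≥ 1`. -/
theorem cheapP_all {c0 C0 : ℝ} (hL : LawH F c0 C0) (h : Dirs F κ K Ds) {a : ℝ} (ha : 1 ≤ a) : CheapP a F Ds := by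
  obtain ⟨A', C, c, H, n0, hA', hC, hc, hH, hcone⟩ := h.coneAt (h.rate hL) (h.grow_law hL) (mcz hL h)
  exact cheap32 h ha hH hA' hC hc n0 hcone

/-- The form of `tube_scale`, from the law. -/
theorem lsTube_all {c0 C0 : ℝ} (hL : LawH F c0 C0) (h : Dirs F κ K Ds) {a : ℝ} (ha : 1 ≤ a) {Hh : ℕ}
    (hHh : 1 ≤ Hh) {k' : ℝ} (hk' : 0 < k') :
    ∃ (Λ c C : ℝ) (n0 : ℕ), 1 ≤ Λ ∧ 0 < c ∧ c ≤ 1 ∧ 1 ≤ C ∧ 1 ≤ n0 ∧ ∀ d ∈ Ds, ∀ n : ℕ, n0 ≤ n →
      CP F ≤ EE F d n ∧ 0 < Λ * (n * vA a F d n) ∧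
      c * EE F d n / (Λ * (n * vA a F d n)) ≤ k' / 2 ∧ 1 ≤ c / EE F d n * (k' / 2 * (Λ * (n * vA a F d n))) ∧
      ∀ N ≤ Hh * n, ∀ o : ℝ,
        ∫ η, Real.exp (c / EE F d n *
          TL F d (c * EE F d n / (Λ * (n * vA a F d n))) o (Λ * (n * vA a F d n)) N η) ∂(law F) ≤ C ∧
        ∫ η, Real.exp (c / EE F d n *
          TLr F d (c * EE F d n / (Λ * (n * vA a F d n))) o (Λ * (n * vA a F d n)) N η) ∂(law F) ≤ C :=
  h.lsTube (h.rate hL) (h.grow_law hL) (mcz hL h) ha hHh hk'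

end

end Pool.Agent.W_1b8d5d_p
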