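import Pool.Agent.W_1b8d5d_p.Np71

/-!
MP_1b8d5d_pr, Track P (proofs row 636, sections 3 and 4): the passage time fluctuates (in probability) at least like
`n / sqrt (number of edges)` if the first `n` edges of all minimal walks are in a fixed set of edges. (helper71)
-/

namespace Pool.Agent.W_1b8d5d_p

open MeasureTheory Set
open Pool.Agent.W_1b8d5d_h85

noncomputable section

variable {F : Fm}

theorem tau_measurable (F : Fm) : Measurable F.tau :=
  measurable_pi_iff.2 fun e => F.mg.comp (measurable_pi_apply e)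

theorem Bd_tau (F : Fm) (η : Env) : Bd F.a F.b (F.tau η) := fun _ => ⟨F.g1 _, F.g2 _⟩

/-- The environment with the weight of `e` replaced by `t`. -/
def ud (τ : Env) (e : Edge) (t : ℝ) : Env := Function.update τ e t

theorem ud_self (τ : Env) (e : Edge) (t : ℝ) : ud τ e t e = t := Function.update_self ..

theorem ud_ne (τ : Env) {e e' : Edge} (t : ℝ) (h : e' ≠ e) : ud τ e t e' = τ e' := Function.update_of_ne h ..

theorem Bd_ud {a b : ℝ} {τ : Env} (hτ : Bd a b τ) (e : Edge) {t : ℝ} (h1 : a ≤ t) (h2 : t ≤ b) : Bd a b (ud τ e t) := by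
  intro e'
  by_cases h : e' = e
  · rw [h, ud_self]
    exact ⟨h1, h2⟩
  · rw [ud_ne τ t h]
    exact hτ e'

theorem ud_meas (e : Edge) (t : ℝ) : Measurable fun τ : Env => ud τ e t := by
  refine measurable_pi_iff.2 fun e' => ?_
  by_cases h : e' = e
  · rw [h]
    simp only [ud_self]
    exact measurable_const
  · simp only [ud_ne _ t h]
    exact measurable_pi_apply e'

/-- Lowering an edge of a minimal path. -/
theorem TR_ud_le {a b t : ℝ} {τ : Env} (hτ : Bd a b τ) (ha : 0 ≤ a) {e : Edge} (h1 : a ≤ t) (h2 : t ≤ b) {S : Set Edge}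
    {x z : V} {w : grid.Walk x z} (hp : w.IsPath) (hw : ∀ e ∈ wedges w, e ∈ S) (hm : cost τ w = TR S τ x z)
    (he : e ∈ wedges w) : TR S (ud τ e t) x z + (τ e - t) ≤ TR S τ x z := by
  classical
  have h3 := TR_le (Bd_ud hτ e h1 h2) ha w hw
  have h4 : cost (ud τ e t) w = cost τ w - τ e + t := by
    rw [cost_path _ hp, cost_path _ hp, ← Finset.add_sum_erase _ _ (List.mem_toFinset.2 he),
      ← Finset.add_sum_erase _ _ (List.mem_toFinset.2 he), ud_self]
    have h5 : ∑ e' ∈ (wedges w).toFinset.erase e, ud τ e t e' = ∑ e' ∈ (wedges w).toFinset.erase e, τ e' :=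
      Finset.sum_congr rfl fun e' he' => ud_ne τ t (Finset.ne_of_mem_erase he')
    rw [h5]
    ring
  linarith

/-- The passage time is bounded. -/
theorem TR_bm {f : Env → Env} (hf : Measurable f) {a b : ℝ} (hb : ∀ η, Bd a b (f η)) (ha : 0 ≤ a) (S : Set Edge) (x z : V) :
    Bm fun η => TR S (f η) x z := by
  refine ⟨(TR_meas S x z).comp hf, ?_⟩
  by_cases hne : Nonempty (WK S x z)
  · obtain ⟨w, hw⟩ := hne
    refine ⟨b * w.length, fun η => ?_⟩
    rw [abs_of_nonneg (TR_nonneg (hb η) ha S x z)]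
    exact (TR_le (hb η) ha w hw).trans (cost_le (hb η) w)
  · refine ⟨0, fun η => ?_⟩
    rw [not_nonempty_iff] at hne
    show |TR S (f η) x z| ≤ 0
    unfold TR
    rw [Real.iInf_of_isEmpty, abs_zero]

theorem exists_of_pos {A : Set ℝ} (h : 0 < F.nu.real A) : ∃ u, u ∈ A := by
  by_contra hc
  push Not at hc
  have : A = ∅ := Set.eq_empty_of_forall_notMem hc
  rw [this, measureReal_empty] at h
  exact lt_irrefl _ h

/-- **FLUCTUATIONS.** -/
theorem fluct0 {t1 t2 : ℝ} (hq1 : 0 < F.nu.real {u | F.g u ≤ t1}) (hq2 : 0 < F.nu.real {u | t2 ≤ F.g u})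
    (ht : t1 < t2) (hp : F.nu.real {u | F.g u < t2} ≤ 1 / 256) {S : Set Edge} {x z : V} (hne : Nonempty (WK S x z))
    {n : ℕ} (hn : 1 ≤ n) (D : Finset Edge) {B : Set Env} (hB : MeasurableSet B) (hPB : (law F).real B ≤ 1 / 8)
    (hgood : ∀ η, η ∉ B → ∀ w : grid.Walk x z, w.IsPath → (∀ e ∈ wedges w, e ∈ S) →
      cost (F.tau η) w = TR S (F.tau η) x z → n ≤ w.length ∧ ∀ e ∈ wedges (w.take n), e ∈ D) (m : ℝ) {s : ℝ}
    (hs : 0 ≤ s) (hPs : (law F).real {η | s ≤ |TR S (F.tau η) x z - m|} ≤ 1 / 8) :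
    ((t2 - t1) * (n / 8)) ^ 2 ≤ D.card * ((F.nu.real {u | t2 ≤ F.g u})⁻¹ + (F.nu.real {u | F.g u ≤ t1})⁻¹) ^ 2 *
        (s ^ 2 + (s + (t2 - t1)) ^ 2 * (law F).real {η | s ≤ |TR S (F.tau η) x z - m|}) := by
  classical
  obtain ⟨u1, hu1⟩ := exists_of_pos hq1
  obtain ⟨u2, hu2⟩ := exists_of_pos hq2
  have ha1 : F.a ≤ t1 := (F.g1 u1).trans hu1
  have hb1 : t1 ≤ F.b := ht.le.trans (le_trans hu2 (F.g2 u2))
  have ha0 : 0 ≤ F.a := F.a0.le
  have hε : 0 ≤ t2 - t1 := by linarith
  obtain ⟨T, hT⟩ : ∃ T : Env → ℝ, T = fun η => TR S (F.tau η) x z := ⟨_, rfl⟩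
  obtain ⟨T1, hT1⟩ : ∃ T1 : Edge → Env → ℝ, T1 = fun e η => TR S (ud (F.tau η) e t1) x z := ⟨_, rfl⟩
  have bT : Bm T := by
    rw [hT]
    exact TR_bm (tau_measurable F) (Bd_tau F) ha0 S x z
  have bT1 : ∀ e, Bm (T1 e) := fun e => by
    rw [hT1]
    exact TR_bm ((ud_meas e t1).comp (tau_measurable F)) (fun η => Bd_ud (Bd_tau F η) e ha1 hb1) ha0 S x z
  have hTe : ∀ η, TR S (F.tau η) x z = T η := fun η => by rw [hT]
  simp only [hTe] at hPs ⊢
  have key := np0 (F := F) hq1 hq2 ht hε D bT (T1 := T1) (fun e _ => bT1 e) (fun e _ η η' h => by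
      rw [hT1]
      show TR S (ud (F.tau η) e t1) x z = TR S (ud (F.tau η') e t1) x z
      have e1 : ud (F.tau η) e t1 = ud (F.tau η') e t1 := by
        funext e'
        by_cases h' : e' = e
        · rw [h', ud_self, ud_self]
        · rw [ud_ne _ t1 h', ud_ne _ t1 h']
          show F.g (η e') = F.g (η' e')
          rw [h e' h']
      rw [e1])
    (fun e _ η h => by
      rw [hT1, hT]
      refine TR_mono (Bd_ud (Bd_tau F η) e ha1 hb1) ha0 (fun e' _ => ?_) x z
      by_cases h' : e' = e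
      · rw [h', ud_self]
        exact ht.le.trans h
      · rw [ud_ne _ t1 h'])
    (fun e _ η h => by
      rw [hT1, hT]
      refine TR_mono (Bd_tau F η) ha0 (fun e' _ => ?_) x z
      by_cases h' : e' = e
      · rw [h', ud_self]
        exact h
      · rw [ud_ne _ t1 h']) m hs
  refine le_trans (pow_le_pow_left₀ (mul_nonneg hε (by positivity)) (mul_le_mul_of_nonneg_left ?_ hε) 2) key
  -- the number of influential edges
  obtain ⟨B', hB'm, hB'P, hB'⟩ := cheap_paths (F := F) hp x n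
  have hB'P2 : (law F).real B' ≤ 1 / 2 := hB'P.trans (by
    obtain ⟨k, rfl⟩ : ∃ k, n = k + 1 := ⟨n - 1, by omega⟩
    rw [pow_succ]
    have : (1 / 2 : ℝ) ^ k ≤ 1 := pow_le_one₀ (by norm_num) (by norm_num)
    linarith)
  obtain ⟨U, hU⟩ : ∃ U : Edge → Set Env, U = fun e => {η | (t2 ≤ F.g (η e) ∧ T1 e η + (t2 - t1) ≤ T η) ∧ |T η - m| < s} :=
    ⟨_, rfl⟩
  have hUm : ∀ e, MeasurableSet (U e) := by
    intro e
    rw [hU]
    exact ((measurableSet_le measurable_const (F.mg.comp (measurable_pi_apply e))).inter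
      (measurableSet_le ((bT1 e).1.add_const _) bT.1)).inter (measurableSet_lt (bT.1.sub_const m).abs measurable_const)
  have hUe : ∀ e, (law F).real {η | (t2 ≤ F.g (η e) ∧ T1 e η + (t2 - t1) ≤ T η) ∧ |T η - m| < s} = (law F).real (U e) :=
    fun e => by rw [hU]
  simp only [hUe]
  have hbad : MeasurableSet {η : Env | s ≤ |T η - m|} := measurableSet_le measurable_const (bT.1.sub_const m).abs
  obtain ⟨G, hG⟩ : ∃ G : Set Env, G = (B ∪ B' ∪ {η : Env | s ≤ |T η - m|})ᶜ := ⟨_, rfl⟩
  have hGm : MeasurableSet G := by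
    rw [hG]
    exact ((hB.union hB'm).union hbad).compl
  have hPG : 1 / 4 ≤ (law F).real G := by
    rw [hG, probReal_compl_eq_one_sub ((hB.union hB'm).union hbad)]
    have h1 := measureReal_union_le (μ := law F) (B ∪ B') {η : Env | s ≤ |T η - m|}
    have h2 := measureReal_union_le (μ := law F) B B'
    linarith
  have hcount : ∀ η ∈ G, (n : ℝ) / 2 ≤ ∑ e ∈ D, (U e).indicator (fun _ => (1 : ℝ)) η := by
    intro η hη
    rw [hG] at hη
    have hη1 : η ∉ B := fun h => hη (Or.inl (Or.inl h))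
    have hη2 : η ∉ B' := fun h => hη (Or.inl (Or.inr h))
    have hη3 : |T η - m| < s := lt_of_not_ge fun h => hη (Or.inr h)
    obtain ⟨w, hwp, hwS, hwc⟩ := TR_min (Bd_tau F η) F.a0 hne
    obtain ⟨hlen, hD⟩ := hgood η hη1 w hwp hwS hwc
    have hwt : (w.take n).IsPath := hwp.take n
    have hlt : (w.take n).length = n := by
      rw [SimpleGraph.Walk.take_length]
      exact min_eq_left hlen
    have hc := hB' η hη2 _ (w.take n) hwt hlt
    have hsub : ((wedges (w.take n)).toFinset.filter fun e => t2 ≤ F.tau η e) ⊆ D.filter fun e => η ∈ U e := by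
      intro e he
      rw [Finset.mem_filter, List.mem_toFinset] at he
      obtain ⟨he1, he2⟩ := he
      have hew : e ∈ wedges w := by
        have h1 : w = (w.take n).append (w.drop n) := by rw [SimpleGraph.Walk.append_take_drop_eq]
        rw [h1, wedges_append, List.mem_append]
        exact Or.inl he1
      rw [Finset.mem_filter]
      refine ⟨hD e he1, ?_⟩
      rw [hU]
      refine ⟨⟨he2, ?_⟩, hη3⟩
      have h1 := TR_ud_le (Bd_tau F η) ha0 ha1 hb1 hwp hwS hwc hew
      have h2 : t2 ≤ F.tau η e := he2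
      rw [hT1, hT]
      show TR S (ud (F.tau η) e t1) x z + (t2 - t1) ≤ TR S (F.tau η) x z
      linarith
    have hcard := Finset.card_le_card hsub
    have e1 : ∑ e ∈ D, (U e).indicator (fun _ => (1 : ℝ)) η = ((D.filter fun e => η ∈ U e).card : ℝ) := by
      rw [Finset.card_filter, Nat.cast_sum]
      refine Finset.sum_congr rfl fun e _ => ?_
      by_cases h : η ∈ U e
      · rw [Set.indicator_of_mem h, if_pos h, Nat.cast_one]
      · rw [Set.indicator_of_notMem h, if_neg h, Nat.cast_zero]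
    rw [e1, div_le_iff₀ two_pos]
    have h3 : n ≤ (D.filter fun e => η ∈ U e).card * 2 := by omega
    exact_mod_cast h3
  have hsum : ∑ e ∈ D, (law F).real (U e) = ∫ η, ∑ e ∈ D, (U e).indicator (fun _ => (1 : ℝ)) η ∂(law F) := by
    rw [integral_finsetSum]
    · refine Finset.sum_congr rfl fun e _ => ?_
      rw [integral_indicator (hUm e)]
      simp
    · exact fun e _ => (Bm.ind (hUm e) 1).int
  rw [hsum]
  calc (n : ℝ) / 8 = n / 2 * (1 / 4) := by ring
    _ ≤ n / 2 * (law F).real G := mul_le_mul_of_nonneg_left hPG (by positivity)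
    _ = ∫ η, G.indicator (fun _ => (n : ℝ) / 2) η ∂(law F) := by
        rw [integral_indicator hGm, setIntegral_const, smul_eq_mul, mul_comm]
    _ ≤ _ := by
        refine integral_mono (Bm.ind hGm _).int (Bm.sum D fun e _ => Bm.ind (hUm e) 1).int fun η => ?_
        show G.indicator (fun _ => (n : ℝ) / 2) η ≤ ∑ e ∈ D, (U e).indicator (fun _ => (1 : ℝ)) η
        by_cases h : η ∈ G
        · rw [Set.indicator_of_mem h]
          exact hcount η h
        · rw [Set.indicator_of_notMem h]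
          exact Finset.sum_nonneg fun e _ => Set.indicator_nonneg (fun _ _ => zero_le_one) _

end

end Pool.Agent.W_1b8d5d_p
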