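import Pool.Agent.W_1b8d5d_p.TubeA71
import Pool.Agent.W_1b8d5d_p.Fluct71

/-!
MP_1b8d5d_pr, Track P (proofs row 636, sections 1 and 4): confinement and fluctuations at one scale (unit `E`, width `w`).
(helper71)
-/

namespace Pool.Agent.W_1b8d5d_p

open MeasureTheory Set
open Pool.Agent.W_1b8d5d_h85

noncomputable section

variable {F : Fm} {κ k1 K1 : ℝ} {d : Dr}

/-- **CONFINEMENT AT A SCALE.** -/
theorem tube_scale (hd : Adm F κ d) (hk : Lat F κ k1 K1 d) {E w c C : ℝ} (hE : 0 < E) (hw : 0 < w) (hc : 0 < c)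
    (h1 : c * E / w ≤ k1 / 2) (h2 : 1 ≤ c / E * (k1 / 2 * w)) (hCP : CP F ≤ E) {N : ℕ}
    (hL : ∀ o : ℝ, ∫ η, Real.exp (c / E * TL F d (c * E / w) o w N η) ∂(law F) ≤ C) (K : ℝ) (yE : ℤ) :
    ∃ B : Set Env, MeasurableSet B ∧ (law F).real B ≤ 10 * C * Real.exp (-(c * K)) ∧ ∀ η, η ∉ B →
      ∀ g : grid.Walk (F.co.vt 0) (F.co.vt ((N : ℤ), yE)), (∀ e ∈ wedges g, e ∈ F.co.slab 0 N) → exc F d η g ≤ K * E →
        ∀ v ∈ g.support, |latV F d v| ≤ (3 * K + 2) / c * w := by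
  obtain ⟨B, hB, hP, h⟩ := tube_gen hd hk (s := c * E / w) (W := w) (θ := c / E) (by positivity) h1 hw (by positivity) h2
    hL (K * E) yE
  refine ⟨B, hB, ?_, fun η hη g hg hx v hv => ?_⟩
  · have e1 : c / E * (K * E) = c * K := by
      field_simp
    rwa [e1] at hP
  · have h3 := h η hη g hg v hv
    have h4 : c * E / w * |latV F d v| ≤ (3 * K + 2) * E := by linarith
    rw [div_mul_eq_mul_div, div_le_iff₀ hw] at h4
    rw [div_mul_eq_mul_div, le_div_iff₀ hc]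
    have h5 : E * (|latV F d v| * c) ≤ E * ((3 * K + 2) * w) := by linarith
    exact le_of_mul_le_mul_left h5 hE

/-- The excess of a minimal walk. -/
theorem exc_min (F : Fm) (d : Dr) (η : Env) {N : ℕ} {y : ℤ} {g : grid.Walk (F.co.vt 0) (F.co.vt ((N : ℤ), y))}
    (h : cost (F.tau η) g = TT F.co (F.tau η) 0 N y) : exc F d η g = X F d η 0 N y := by
  unfold exc
  rw [h, X_eq, Co.vt_zero, sub_zero]

/-- The edges which start in the tube of half width `ρ` at times in `[0, L n]`. -/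
def Dt (F : Fm) (d : Dr) (n : ℕ) (ρ : ℝ) : Finset Edge :=
  ((Finset.Icc (0 : ℤ) (F.co.L * n)).biUnion fun t =>
    (Finset.Icc ⌈d.v * ((t : ℝ) / F.co.L) - ρ⌉ ⌊d.v * ((t : ℝ) / F.co.L) + ρ⌋).image fun p =>
      ((t * F.co.r - p * F.co.q, t * F.co.s + p * F.co.p) : V)) ×ˢ (Finset.univ : Finset Bool)

theorem mem_Dt {n : ℕ} {ρ : ℝ} {e : Edge} (h0 : 0 ≤ F.co.tm e.1) (h1 : F.co.tm e.1 ≤ F.co.L * n)
    (h2 : |latV F d e.1| ≤ ρ) : e ∈ Dt F d n ρ := by
  unfold Dt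
  rw [Finset.mem_product]
  refine ⟨?_, Finset.mem_univ _⟩
  rw [Finset.mem_biUnion]
  refine ⟨F.co.tm e.1, Finset.mem_Icc.2 ⟨h0, h1⟩, ?_⟩
  rw [Finset.mem_image]
  refine ⟨F.co.ps e.1, ?_, (F.co.eq_of e.1).symm⟩
  unfold latV at h2
  obtain ⟨h3, h4⟩ := abs_le.1 h2
  rw [Finset.mem_Icc]
  exact ⟨Int.ceil_le.2 (by linarith), Int.le_floor.2 (by linarith)⟩

theorem Dt_card {n : ℕ} {ρ : ℝ} (hρ : 0 ≤ ρ) : ((Dt F d n ρ).card : ℝ) ≤ 2 * ((F.co.L * n + 1) * (2 * ρ + 1)) := by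
  have hL := F.co.L_pos
  have hterm : ∀ t ∈ Finset.Icc (0 : ℤ) (F.co.L * n),
      ((((Finset.Icc ⌈d.v * ((t : ℝ) / F.co.L) - ρ⌉ ⌊d.v * ((t : ℝ) / F.co.L) + ρ⌋).image fun p =>
        ((t * F.co.r - p * F.co.q, t * F.co.s + p * F.co.p) : V))).card : ℝ) ≤ 2 * ρ + 1 := by
    intro t _
    have h1 := Finset.card_image_le (s := Finset.Icc ⌈d.v * ((t : ℝ) / F.co.L) - ρ⌉ ⌊d.v * ((t : ℝ) / F.co.L) + ρ⌋)
      (f := fun p => ((t * F.co.r - p * F.co.q, t * F.co.s + p * F.co.p) : V))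
    rw [Int.card_Icc] at h1
    have h2 : ((((Finset.Icc ⌈d.v * ((t : ℝ) / F.co.L) - ρ⌉ ⌊d.v * ((t : ℝ) / F.co.L) + ρ⌋).image fun p =>
        ((t * F.co.r - p * F.co.q, t * F.co.s + p * F.co.p) : V))).card : ℝ) ≤
        ((⌊d.v * ((t : ℝ) / F.co.L) + ρ⌋ + 1 - ⌈d.v * ((t : ℝ) / F.co.L) - ρ⌉).toNat : ℝ) := by exact_mod_cast h1
    refine h2.trans ?_
    have h3 : ((⌊d.v * ((t : ℝ) / F.co.L) + ρ⌋ + 1 - ⌈d.v * ((t : ℝ) / F.co.L) - ρ⌉).toNat : ℝ) =
        max (((⌊d.v * ((t : ℝ) / F.co.L) + ρ⌋ + 1 - ⌈d.v * ((t : ℝ) / F.co.L) - ρ⌉ : ℤ)) : ℝ) 0 := by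
      rw [← Int.cast_natCast, Int.toNat_eq_max]
      push_cast
      rfl
    rw [h3]
    refine max_le ?_ (by linarith)
    push_cast
    have h4 := Int.floor_le (d.v * ((t : ℝ) / F.co.L) + ρ)
    have h5 := Int.le_ceil (d.v * ((t : ℝ) / F.co.L) - ρ)
    linarith
  unfold Dt
  rw [Finset.card_product, Finset.card_univ, Fintype.card_bool]
  push_cast
  rw [mul_comm _ (2 : ℝ)]
  refine mul_le_mul_of_nonneg_left ?_ (by norm_num)
  have h1 := Finset.card_biUnion_le (s := Finset.Icc (0 : ℤ) (F.co.L * n))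
    (t := fun t => (Finset.Icc ⌈d.v * ((t : ℝ) / F.co.L) - ρ⌉ ⌊d.v * ((t : ℝ) / F.co.L) + ρ⌋).image fun p =>
        ((t * F.co.r - p * F.co.q, t * F.co.s + p * F.co.p) : V))
  have h2 := (Nat.cast_le (α := ℝ)).2 h1
  rw [Nat.cast_sum] at h2
  refine h2.trans ((Finset.sum_le_card_nsmul _ _ _ hterm).trans ?_)
  rw [nsmul_eq_mul, Int.card_Icc]
  refine mul_le_mul_of_nonneg_right ?_ (by linarith)
  have h3 : (((F.co.L * n + 1 - 0).toNat : ℕ) : ℝ) = F.co.L * n + 1 := by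
    have h4 : 0 ≤ F.co.L * n := mul_nonneg (by omega) (Nat.cast_nonneg n)
    have h5 : (((F.co.L * n + 1 - 0).toNat : ℕ) : ℤ) = F.co.L * n + 1 := by omega
    rw [← Int.cast_natCast, h5]
    push_cast
    ring
  rw [h3]

/-- A slab walk has at least `n` edges. -/
theorem le_length {n : ℕ} {y : ℤ} (g : grid.Walk (F.co.vt 0) (F.co.vt ((n : ℤ), y))) : n ≤ g.length := by
  have h1 := nm_le_length g
  have h2 := F.co.abs_tm_le (F.co.vt ((n : ℤ), y) - F.co.vt 0)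
  have e0 : F.co.vt ((n : ℤ), y) - F.co.vt 0 = F.co.vt ((n : ℤ), y) := by rw [Co.vt_zero, sub_zero]
  rw [e0, Co.tm_vt] at h2
  rw [e0] at h1
  have hL : (F.co.L : ℝ) = F.co.M + 1 := by
    have := F.co.L_eq
    exact_mod_cast this
  have hM : (1 : ℝ) ≤ F.co.M := by exact_mod_cast F.co.M_pos
  have hn : (0 : ℝ) ≤ n := Nat.cast_nonneg n
  have h3 : |((F.co.L * (n : ℤ) : ℤ) : ℝ)| = F.co.L * n := by
    push_cast
    rw [hL]
    exact abs_of_nonneg (by positivity)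
  simp only at h2
  rw [h3, hL] at h2
  have h4 : (F.co.M : ℝ) * nm (F.co.vt ((n : ℤ), y)) ≤ F.co.M * g.length := mul_le_mul_of_nonneg_left h1 (by linarith)
  have h5 : (F.co.M : ℝ) * n ≤ F.co.M * g.length := by linarith
  have h6 : (n : ℝ) ≤ g.length := le_of_mul_le_mul_left h5 (by linarith)
  exact_mod_cast h6

/-- **FLUCTUATIONS AT A SCALE.** -/
theorem fluct_scale {t1 t2 : ℝ} (hq1 : 0 < F.nu.real {u | F.g u ≤ t1}) (hq2 : 0 < F.nu.real {u | t2 ≤ F.g u})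
    (ht : t1 < t2) (hp : F.nu.real {u | F.g u < t2} ≤ 1 / 256) {n : ℕ} (hn : 1 ≤ n) {y : ℤ} {x0 ρ : ℝ}
    (hρ : 0 ≤ ρ) {B : Set Env} (hB : MeasurableSet B) (hPB : (law F).real B ≤ 1 / 16)
    (hX : (law F).real {η | x0 < X F d η 0 n y} ≤ 1 / 16)
    (htube : ∀ η, η ∉ B → ∀ g : grid.Walk (F.co.vt 0) (F.co.vt ((n : ℤ), y)), (∀ e ∈ wedges g, e ∈ F.co.slab 0 n) →
      exc F d η g ≤ x0 → ∀ v ∈ g.support, |latV F d v| ≤ ρ) (m : ℝ) {s : ℝ} (hs : 0 ≤ s)
    (hPs : (law F).real {η | s ≤ |X F d η 0 n y - m|} ≤ 1 / 8) :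
    ((t2 - t1) * (n / 8)) ^ 2 ≤ 2 * ((F.co.L * n + 1) * (2 * ρ + 1)) *
      ((F.nu.real {u | t2 ≤ F.g u})⁻¹ + (F.nu.real {u | F.g u ≤ t1})⁻¹) ^ 2 *
        (s ^ 2 + (s + (t2 - t1)) ^ 2 * (law F).real {η | s ≤ |X F d η 0 n y - m|}) := by
  classical
  have hTX : ∀ η, TR (F.co.slab 0 n) (F.tau η) (F.co.vt 0) (F.co.vt ((n : ℤ), y)) = TT F.co (F.tau η) 0 n y := by
    intro η
    unfold TT
    simp only [Prod.fst_zero, zero_add]
  have hset : {η : Env | s ≤ |TR (F.co.slab 0 n) (F.tau η) (F.co.vt 0) (F.co.vt ((n : ℤ), y)) -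
      (m + (al F.co d * n + be F.co d * y))|} = {η : Env | s ≤ |X F d η 0 n y - m|} := by
    ext η
    simp only [Set.mem_ofPred_eq, hTX]
    unfold X
    rw [show TT F.co (F.tau η) 0 n y - (m + (al F.co d * n + be F.co d * y)) =
      TT F.co (F.tau η) 0 n y - (al F.co d * n + be F.co d * y) - m by ring]
  have hXm : MeasurableSet {η : Env | x0 < X F d η 0 n y} := measurableSet_lt measurable_const (X_meas F d 0 n y)
  have hne : Nonempty (WK (F.co.slab 0 n) (F.co.vt 0) (F.co.vt ((n : ℤ), y))) := by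
    have h := Co.ne_vt (c := F.co) 0 hn y
    simpa using h
  have key := fluct0 (F := F) hq1 hq2 ht hp (S := F.co.slab 0 n) (x := F.co.vt 0) (z := F.co.vt ((n : ℤ), y)) hne hn
    (Dt F d n ρ) (B := B ∪ {η : Env | x0 < X F d η 0 n y}) (hB.union hXm) (by
      have := measureReal_union_le (μ := law F) B {η : Env | x0 < X F d η 0 n y}
      linarith) (fun η hη g _ hgS hgc => by
      have hη1 : η ∉ B := fun h => hη (Or.inl h)
      have hη2 : X F d η 0 n y ≤ x0 := by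
        by_contra hc
        push Not at hc
        exact hη (Or.inr hc)
      refine ⟨le_length g, fun e he => ?_⟩
      have hew : e ∈ wedges g := by
        have h1 : g = (g.take n).append (g.drop n) := by rw [SimpleGraph.Walk.append_take_drop_eq]
        rw [h1, wedges_append, List.mem_append]
        exact Or.inl he
      have hes := hgS e hew
      rw [hTX] at hgc
      refine mem_Dt (by have := hes.1; simpa using this) hes.2.2.1.le (htube η hη1 g hgS (by rw [exc_min F d η hgc]; exact hη2)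
        _ (wedges_support g hew).1)) (m + (al F.co d * n + be F.co d * y)) hs (by rw [hset]; exact hPs)
  rw [hset] at key
  refine key.trans ?_
  have hcard := Dt_card (F := F) (d := d) (n := n) hρ
  refine mul_le_mul_of_nonneg_right (mul_le_mul_of_nonneg_right hcard (sq_nonneg _)) ?_
  have : 0 ≤ (law F).real {η | s ≤ |X F d η 0 n y - m|} := measureReal_nonneg
  positivity

end

end Pool.Agent.W_1b8d5d_p
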