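import Pool.Agent.W_1b8d5d_h4p.LAz
import Pool.Agent.W_1b8d5d_h4p.LuckZ
import Pool.Agent.W_1b8d5d_p.TubeB71

/-!
MP_1b8d5d_pr, Track P (proofs row 636, section 5, (B1)): from a fluctuation to a large luck with a positive probability.
(helper71)
-/

namespace Pool.Agent.W_1b8d5d_p

open MeasureTheory Set
open Pool.Agent.W_1b8d5d_h85
open Pool.Agent.W_1b8d5d_z (BM)
open Pool.Agent.W_1b8d5d_h4p (LawH Fz la_law0 bm_VV bm_X bm_max fz_TR)

noncomputable section

theorem bm_exp71 {f : Env → ℝ} (h : BM f) : BM fun η => Real.exp (f η) := by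
  obtain ⟨hm, C, hC⟩ := h
  refine ⟨hm.exp, Real.exp C, fun η => ?_⟩
  rw [abs_of_pos (Real.exp_pos _)]
  exact Real.exp_le_exp.2 ((le_abs_self _).trans (hC η))

/-- A bounded density under which the mean is large gives a probability. -/
theorem prob_of_dens71 {F : Fm} {f Z : Env → ℝ} (hfm : Measurable f) (hf0 : ∀ η, 0 ≤ f η) {D : ℝ} (hD : 0 < D)
    (hfD : ∀ η, f η ≤ D) (hf1 : ∫ η, f η ∂(law F) = 1) (hZ : BM Z) (hZ0 : ∀ η, 0 ≤ Z η) {E K M : ℝ} (hE : 0 < E)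
    (hK : 0 ≤ K) (hM : 0 < M) (hM2 : ∫ η, Z η ^ 2 ∂(law F) ≤ M ^ 2 * E ^ 2)
    (h : (K + 1) * E ≤ ∫ η, f η * Z η ∂(law F)) :
    1 / (D * M) ^ 2 ≤ (law F).real {η | K * E ≤ Z η} := by
  have hfB : BM f := ⟨hfm, D, fun η => by rw [abs_of_nonneg (hf0 η)]; exact hfD η⟩
  have hm : MeasurableSet {η | K * E ≤ Z η} := measurableSet_le measurable_const hZ.1
  obtain ⟨I, hI⟩ : ∃ I : Env → ℝ, I = {η | K * E ≤ Z η}.indicator fun _ => (1 : ℝ) := ⟨_, rfl⟩
  have hIB : BM I := by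
    rw [hI]
    refine ⟨measurable_const.indicator hm, 1, fun η => ?_⟩
    by_cases h1 : η ∈ {η | K * E ≤ Z η}
    · rw [indicator_of_mem h1]; simp
    · rw [indicator_of_notMem h1]; simp
  have hI1 : ∫ η, I η ∂(law F) = (law F).real {η | K * E ≤ Z η} := by
    rw [hI, integral_indicator_const _ hm, smul_eq_mul, mul_one]
  obtain ⟨t, ht⟩ : ∃ t : ℝ, t = M ^ 2 * D * E := ⟨_, rfl⟩
  have ht0 : 0 < t := by rw [ht]; positivity
  have hpt : ∀ η, f η * Z η ≤ K * E * f η + D * (1 / (2 * t) * Z η ^ 2 + t / 2 * I η) := by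
    intro η
    have h0 := hf0 η
    have hz := hZ0 η
    by_cases h1 : K * E ≤ Z η
    · have hi : I η = 1 := by rw [hI]; exact indicator_of_mem (s := {η | K * E ≤ Z η}) h1 _
      rw [hi, mul_one]
      have h3 : Z η ≤ 1 / (2 * t) * Z η ^ 2 + t / 2 := by
        have h4 : 0 ≤ (Z η - t) ^ 2 * (1 / (2 * t)) := by positivity
        have h5 : (Z η - t) ^ 2 * (1 / (2 * t)) = 1 / (2 * t) * Z η ^ 2 + t / 2 - Z η := by
          field_simp
          ring
        linarith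
      have h7 := mul_le_mul_of_nonneg_left h3 hD.le
      have h6 : f η * Z η ≤ D * Z η := mul_le_mul_of_nonneg_right (hfD η) hz
      have h8 : 0 ≤ K * E * f η := mul_nonneg (mul_nonneg hK hE.le) h0
      linarith
    · have hi : I η = 0 := by rw [hI]; exact indicator_of_notMem (s := {η | K * E ≤ Z η}) h1 _
      rw [hi, mul_zero, add_zero]
      have h2 : f η * Z η ≤ f η * (K * E) := mul_le_mul_of_nonneg_left (not_le.1 h1).le h0
      have h3 : 0 ≤ D * (1 / (2 * t) * Z η ^ 2) := by positivity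
      linarith [mul_comm (f η) (K * E)]
  have I1 := (hZ.pow 2).const_mul (1 / (2 * t))
  have I2 := hIB.const_mul (t / 2)
  have I3 := (I1.add I2).const_mul D
  have I4 := hfB.const_mul (K * E)
  have h1 := integral_mono (μ := law F) (hfB.mul hZ).int (I4.add I3).int hpt
  rw [integral_add I4.int I3.int, integral_const_mul, integral_const_mul, hf1, integral_add I1.int I2.int,
    integral_const_mul, integral_const_mul, hI1] at h1
  obtain ⟨p, hp⟩ : ∃ p : ℝ, p = (law F).real {η | K * E ≤ Z η} := ⟨_, rfl⟩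
  rw [← hp] at h1 ⊢
  have h2 : 1 / (2 * t) * (∫ η, Z η ^ 2 ∂(law F)) ≤ 1 / (2 * t) * (M ^ 2 * E ^ 2) :=
    mul_le_mul_of_nonneg_left hM2 (by positivity)
  have h3 : D * (1 / (2 * t) * (M ^ 2 * E ^ 2)) = E / 2 := by
    rw [ht]
    field_simp
  have h4 : E / 2 ≤ D * (t / 2 * p) := by
    have := mul_le_mul_of_nonneg_left h2 hD.le
    nlinarith
  have h5 : D * (t / 2 * p) = E / 2 * ((D * M) ^ 2 * p) := by
    rw [ht]
    ring
  rw [h5] at h4
  have h6 : 1 ≤ (D * M) ^ 2 * p := by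
    have h7 : E / 2 * 1 ≤ E / 2 * ((D * M) ^ 2 * p) := by linarith
    exact le_of_mul_le_mul_left h7 (by positivity)
  rw [div_le_iff₀ (by positivity)]
  linarith

/-- An exponential moment bounds the second moment. -/
theorem sq_of_exp71 {F : Fm} {Z : Env → ℝ} (hZ : BM Z) (hZ0 : ∀ η, 0 ≤ Z η) {c C E : ℝ} (hc : 0 < c) (hE : 0 < E)
    (h : ∫ η, Real.exp (c / E * Z η) ∂(law F) ≤ C) : ∫ η, Z η ^ 2 ∂(law F) ≤ 2 * C / c ^ 2 * E ^ 2 := by
  have hpt : ∀ η, Z η ^ 2 ≤ 2 / c ^ 2 * E ^ 2 * Real.exp (c / E * Z η) := by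
    intro η
    have h0 : 0 ≤ c / E * Z η := mul_nonneg (by positivity) (hZ0 η)
    have h1 := Real.quadratic_le_exp_of_nonneg h0
    have h2 : (c / E * Z η) ^ 2 / 2 ≤ Real.exp (c / E * Z η) := by linarith
    have h3 : Z η ^ 2 = 2 / c ^ 2 * E ^ 2 * ((c / E * Z η) ^ 2 / 2) := by
      field_simp
    rw [h3]
    exact mul_le_mul_of_nonneg_left h2 (by positivity)
  have h1 := integral_mono (μ := law F) (hZ.pow 2).int ((bm_exp71 (hZ.const_mul (c / E))).const_mul _).int hpt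
  rw [integral_const_mul] at h1
  refine h1.trans ?_
  have h2 := mul_le_mul_of_nonneg_left h (show 0 ≤ 2 / c ^ 2 * E ^ 2 by positivity)
  refine h2.trans (le_of_eq ?_)
  ring

/-- Markov's inequality for an exponential moment. -/
theorem markov_exp71 {F : Fm} {Z : Env → ℝ} (hZ : BM Z) {c C E : ℝ} (hc : 0 < c) (hE : 0 < E)
    (h : ∫ η, Real.exp (c / E * Z η) ∂(law F) ≤ C) (K : ℝ) :
    (law F).real {η | K * E ≤ Z η} ≤ C * Real.exp (-(c * K)) := by
  have hm : MeasurableSet {η | K * E ≤ Z η} := measurableSet_le measurable_const hZ.1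
  have hpt : ∀ η, ({η | K * E ≤ Z η}.indicator fun _ => (1 : ℝ)) η ≤ Real.exp (-(c * K)) * Real.exp (c / E * Z η) := by
    intro η
    by_cases h1 : K * E ≤ Z η
    · rw [indicator_of_mem (s := {η | K * E ≤ Z η}) h1, ← Real.exp_add]
      refine Real.one_le_exp ?_
      have h2 : c / E * (K * E) ≤ c / E * Z η := mul_le_mul_of_nonneg_left h1 (by positivity)
      have h3 : c / E * (K * E) = c * K := by field_simp
      linarith
    · rw [indicator_of_notMem (s := {η | K * E ≤ Z η}) h1]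
      positivity
  have hIB : BM ({η | K * E ≤ Z η}.indicator fun _ => (1 : ℝ)) := by
    refine ⟨measurable_const.indicator hm, 1, fun η => ?_⟩
    by_cases h1 : η ∈ {η | K * E ≤ Z η}
    · rw [indicator_of_mem h1]; simp
    · rw [indicator_of_notMem h1]; simp
  have h1 := integral_mono (μ := law F) hIB.int ((bm_exp71 (hZ.const_mul (c / E))).const_mul _).int hpt
  rw [integral_const_mul, integral_indicator_const _ hm, smul_eq_mul, mul_one] at h1
  refine h1.trans ?_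
  rw [mul_comm C]
  exact mul_le_mul_of_nonneg_left h (Real.exp_pos _).le

/-- **(B1)** A functional of the class below `Z ≥ 0` (a luck, with an exponential moment) which fluctuates on the scale `E` and
whose mean is at least `-A1 E`: then `Z ≥ K E` has a positive probability, for every `K`. -/
theorem amp71 {F : Fm} {c0 C0 : ℝ} (hL : LawH F c0 C0) {c1 : ℝ} (hc1 : 0 < c1) (hc11 : c1 ≤ 1) {A1 c C K : ℝ}
    (hA1 : 0 ≤ A1) (hc : 0 < c) (hC : 0 < C) (hK : 0 ≤ K) : ∃ p U₀ : ℝ, 0 < p ∧ 0 < U₀ ∧ ∀ E : ℝ, U₀ ≤ E →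
    ∀ Z : Env → ℝ, BM Z → (∀ η, 0 ≤ Z η) → ∫ η, Real.exp (c / E * Z η) ∂(law F) ≤ C →
    ∀ (S : Set Edge) (G : Env → ℝ), Fz F.a F.b S G → (∀ η, G (F.tau η) ≤ Z η) →
    -(A1 * E) ≤ ∫ η, G (F.tau η) ∂(law F) →
    c1 ≤ (law F).real {η | c1 * E ≤ |G (F.tau η) - ∫ ξ, G (F.tau ξ) ∂(law F)|} →
    p ≤ (law F).real {η | K * E ≤ Z η} := by
  obtain ⟨D, U₀, hD, hU₀, h⟩ := la_law0 hL hc1 hc11 (K := K + 1 + A1) (by linarith)
  have hD0 : 0 < D := one_pos.trans hD
  obtain ⟨M, hM⟩ : ∃ M : ℝ, M = Real.sqrt (2 * C / c ^ 2) := ⟨_, rfl⟩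
  have hM0 : 0 < M := by rw [hM]; positivity
  have hM2 : M ^ 2 = 2 * C / c ^ 2 := by rw [hM]; exact Real.sq_sqrt (by positivity)
  refine ⟨1 / (D * M) ^ 2, U₀, by positivity, hU₀, fun E hE Z hZ hZ0 hexp S G hG hGZ hmean hfl => ?_⟩
  have hE0 : 0 < E := hU₀.trans_le hE
  obtain ⟨f, hfm, hf0, hfD, hf1, -, hfG⟩ := h S G hG E hE hfl
  refine prob_of_dens71 hfm hf0 hD0 hfD hf1 hZ hZ0 hE0 hK hM0 ?_ ?_
  · rw [hM2]
    exact sq_of_exp71 hZ hZ0 hc hE0 hexp
  · have hfB : BM f := ⟨hfm, D, fun η => by rw [abs_of_nonneg (hf0 η)]; exact hfD η⟩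
    have h1 : ∫ η, f η * G (F.tau η) ∂(law F) ≤ ∫ η, f η * Z η ∂(law F) :=
      integral_mono (hfB.mul hG.bm).int (hfB.mul hZ).int fun η => mul_le_mul_of_nonneg_left (hGZ η) (hf0 η)
    have e1 : (K + 1 + A1) * E = (K + 1) * E + A1 * E := by ring
    linarith

variable {F : Fm} {κ k1 K1 : ℝ} {d : Dr}

/-- The luck of the origin is at most the tilted luck of the box at the origin. -/
theorem VV_le_TL71 (hd : Adm F κ d) {s W : ℝ} (hs : 0 ≤ s) (hsk : s ≤ κ * F.co.M) (hW : 0 < W) {l N : ℕ} (hl : 1 ≤ l)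
    (hlN : l ≤ N) (η : Env) : VV F d η 0 l ≤ TL F d s 0 W N η := by
  refine VV_le η 0 fun y => ?_
  have hin : ((0 : Pt), (((l : ℤ), y) : Pt)) ∈ InB d 0 W N := by
    refine ⟨le_rfl, ?_, ?_, ?_, ?_, ?_⟩
    · show (0 : ℤ) ≤ (l : ℤ)
      omega
    · show (l : ℤ) ≤ (N : ℤ)
      omega
    · intro h
      have h' : (0 : ℤ) = (l : ℤ) := h
      omega
    · rw [lat_zero71]
    · rw [lat_zero71]
      linarith
  have h1 := le_TL (sl_of hd) hsk η hin
  have h2 : 0 ≤ s * |lat d (((l : ℤ), y) : Pt) - lat d 0| := mul_nonneg hs (abs_nonneg _)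
  have h3 : XP F d η 0 (((l : ℤ), y) : Pt) = X F d η 0 l y := by
    unfold XP
    simp
  rw [h3] at h1
  linarith

/-- The positive part of the luck has the exponential moment. -/
theorem VVp_exp71 (hd : Adm F κ d) {s W c C E : ℝ} (hc : 0 < c) (hE : 0 < E) (hs : 0 ≤ s) (hsk : s ≤ κ * F.co.M)
    (hW : 0 < W) {l N : ℕ} (hl : 1 ≤ l) (hlN : l ≤ N)
    (h : ∫ η, Real.exp (c / E * TL F d s 0 W N η) ∂(law F) ≤ C) :
    ∫ η, Real.exp (c / E * max (VV F d η 0 l) 0) ∂(law F) ≤ C := by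
  refine le_trans ?_ h
  have hTL : BM (TL F d s 0 W N) := ⟨TL_meas (sl_of hd), (C1 F + κ * F.co.M * |d.v|) * N, fun η => by
    rw [abs_of_nonneg (TL_nonneg (sl_of hd) hsk η)]
    exact TL_le_bnd (sl_of hd) hsk η⟩
  refine integral_mono (bm_exp71 ((bm_max (bm_VV hd 0 hl) (BM.const 0)).const_mul _)).int
    (bm_exp71 (hTL.const_mul _)).int fun η => Real.exp_le_exp.2 (mul_le_mul_of_nonneg_left ?_ (by positivity))
  exact max_le (VV_le_TL71 hd hs hsk hW hl hlN η) (TL_nonneg (sl_of hd) hsk η)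

end

end Pool.Agent.W_1b8d5d_p
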