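import Pool.Agent.W_1b8d5d_p.CheapC32

/-!
MP_1b8d5d_pr, Track P, section 4, (B3) of row 642: the connections of the edge. A cell of width `w` is entered and left by displacements of
a duration `S ≤ n` with `S vA n ≈ w`, all of which are cheap. (helper61)
-/

namespace Pool.Agent.W_1b8d5d_p

open MeasureTheory Set

noncomputable section

variable {F : Fm} {κ K : ℝ} {Ds : Set Dr} {d : Dr}

/-- The conclusion of `cheap32`. -/
def CheapI (a : ℝ) (F : Fm) (Ds : Set Dr) (c0 C' : ℝ) : Prop :=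
  ∀ d ∈ Ds, ∀ m : ℕ, 1 ≤ m → ∃ lo hi : ℤ, lo ≤ xs F d m ∧ xs F d m ≤ hi ∧
    c0 * (m * vA a F d m) - 1 ≤ (hi : ℝ) - lo ∧
    ∀ y : ℤ, lo ≤ y → y ≤ hi → e F d m y ≤ C' * EE F d m ∧ |(y : ℝ) - d.v * m| ≤ 2 * (m * vA a F d m) + 1

/-- The constant `C'` of `CheapI` can be increased. -/
theorem CheapI.mono {a c0 C' C'' : ℝ} (h : CheapI a F Ds c0 C') (hC : C' ≤ C'') : CheapI a F Ds c0 C'' := by
  intro d hd m hm
  obtain ⟨lo, hi, h1, h2, h3, h4⟩ := h d hd m hm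
  refine ⟨lo, hi, h1, h2, h3, fun y hy1 hy2 => ⟨(h4 y hy1 hy2).1.trans ?_, (h4 y hy1 hy2).2⟩⟩
  exact mul_le_mul_of_nonneg_right hC (EE_pos F d m).le

/-- **(B3)**: the connections of a cell of width `w`. -/
theorem ed_con (h : Dirs F κ K Ds) {a c0 C' Cf Cu : ℝ} (ha : 0 ≤ a) (hc0 : 0 < c0) (hC' : 0 ≤ C') (hCf : 0 ≤ Cf) (hCu : 0 ≤ Cu)
    (hch : CheapI a F Ds c0 C') (hd : d ∈ Ds) {n S w : ℕ} (hS : 1 ≤ S) (hSn : S ≤ n) (hw : 1 ≤ w)
    (hS1 : 2 * ((w : ℝ) + 2) ≤ c0 * (S * vA a F d n)) (hS2 : S * vA a F d n ≤ 4 * ((w : ℝ) + 2) / c0 + 1)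
    (hf : vA a F d S ≤ Cf * vA a F d n) {u : ℝ} (hu : |u - d.v| ≤ Cu * vA a F d n) :
    ∃ y0 : ℤ, (∀ y : ℤ, y0 ≤ y → y ≤ y0 + w → e F d S y ≤ C' * EE F d n) ∧
      |2 * (y0 : ℝ) + w - 2 * u * S| ≤ (3 + (4 * Cf + 2 * Cu) * (12 / c0 + 1)) * w := by
  obtain ⟨lo, hi, h1, h2, h3, h4⟩ := hch d hd S hS
  have hS0 : (0 : ℝ) < S := by exact_mod_cast hS
  have hw0 : (1 : ℝ) ≤ w := by exact_mod_cast hw
  have hv := h.vA_le_two hd ha hS hSn
  have h5 : (w : ℝ) + 1 ≤ (hi : ℝ) - lo := by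
    have : c0 * (S * vA a F d n) ≤ c0 * (S * (2 * vA a F d S)) := by gcongr
    linarith
  have h6 : lo + w ≤ hi := by
    have : ((lo + w : ℤ) : ℝ) ≤ (hi : ℝ) := by
      push_cast
      linarith
    exact_mod_cast this
  refine ⟨lo, fun y hy1 hy2 => ?_, ?_⟩
  · refine (h4 y hy1 (hy2.trans h6)).1.trans ?_
    exact mul_le_mul_of_nonneg_left (EE_mono F d hSn) hC'
  · have h7 := (h4 lo le_rfl (h1.trans h2)).2
    have e1 : 2 * (lo : ℝ) + w - 2 * u * S = 2 * ((lo : ℝ) - d.v * S) + w - 2 * ((u - d.v) * S) := by ring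
    have h8 : |2 * (lo : ℝ) + w - 2 * u * S| ≤ 2 * |(lo : ℝ) - d.v * S| + w + 2 * (|u - d.v| * S) := by
      rw [e1, abs_le]
      have a1 := abs_le.1 (le_refl |(lo : ℝ) - d.v * S|)
      have a2 : |(u - d.v) * S| = |u - d.v| * S := by rw [abs_mul, Nat.abs_cast]
      have a3 := abs_le.1 (le_refl |(u - d.v) * S|)
      rw [a2] at a3
      constructor <;> linarith [a1.1, a1.2, a3.1, a3.2]
    have h9 : S * vA a F d S ≤ Cf * (S * vA a F d n) := by nlinarith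
    have h10 : |u - d.v| * S ≤ Cu * (S * vA a F d n) := by nlinarith
    have h11 : S * vA a F d n ≤ (12 / c0 + 1) * w := by
      refine hS2.trans ?_
      have : 4 * ((w : ℝ) + 2) / c0 ≤ 12 / c0 * w := by
        rw [div_mul_eq_mul_div]
        exact div_le_div_of_nonneg_right (by linarith) hc0.le
      linarith
    have h12 : (4 * Cf + 2 * Cu) * (S * vA a F d n) ≤ (4 * Cf + 2 * Cu) * ((12 / c0 + 1) * w) :=
      mul_le_mul_of_nonneg_left h11 (by positivity)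
    linarith

/-- The duration of the connections. -/
theorem ed_S (h : Dirs F κ K Ds) {a c0 : ℝ} (ha : 0 < a) (hc0 : 0 < c0) (hd : d ∈ Ds) {n w : ℕ} (hn : 1 ≤ n)
    (hv : vA a F d n ≤ 1) (hw : 4 * ((w : ℝ) + 2) ≤ c0 * (n * vA a F d n)) :
    ∃ S : ℕ, 1 ≤ S ∧ S ≤ n ∧ 2 * ((w : ℝ) + 2) ≤ c0 * (S * vA a F d n) ∧ S * vA a F d n ≤ 4 * ((w : ℝ) + 2) / c0 + 1 := by
  have hv0 := h.vA_pos hd ha hn
  have hn0 : (0 : ℝ) < n := by exact_mod_cast hn
  obtain ⟨q, hq⟩ : ∃ q : ℝ, q = 2 * ((w : ℝ) + 2) / (c0 * vA a F d n) := ⟨_, rfl⟩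
  have hq0 : 0 < q := by rw [hq]; positivity
  have e1 : q * (c0 * vA a F d n) = 2 * ((w : ℝ) + 2) := by
    rw [hq]
    field_simp
  have hqn : q ≤ n / 2 := by
    have h1 : q * (c0 * vA a F d n) ≤ n / 2 * (c0 * vA a F d n) := by
      rw [e1]
      linarith
    exact le_of_mul_le_mul_right h1 (by positivity)
  have h1 := Nat.le_ceil q
  have h2 := Nat.ceil_lt_add_one hq0.le
  refine ⟨⌈q⌉₊, Nat.one_le_ceil_iff.2 hq0, ?_, ?_, ?_⟩
  · have h3 : (⌈q⌉₊ : ℝ) < n / 2 + 1 := by linarith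
    rcases Nat.eq_or_lt_of_le hn with h4 | h4
    · rw [← h4] at h3 ⊢
      have h5 : ((⌈q⌉₊ : ℕ) : ℝ) < ((2 : ℕ) : ℝ) := by
        push_cast
        norm_num at h3
        linarith
      have h6 : ⌈q⌉₊ < 2 := by exact_mod_cast h5
      omega
    · have h5 : (2 : ℝ) ≤ n := by exact_mod_cast h4
      have h6 : (⌈q⌉₊ : ℝ) < n := by linarith
      have h7 : ⌈q⌉₊ < n := by exact_mod_cast h6
      exact h7.le
  · have h3 : q * (c0 * vA a F d n) ≤ ⌈q⌉₊ * (c0 * vA a F d n) := mul_le_mul_of_nonneg_right h1 (by positivity)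
    rw [e1] at h3
    linarith
  · have h3 : ⌈q⌉₊ * vA a F d n ≤ (q + 1) * vA a F d n := mul_le_mul_of_nonneg_right h2.le hv0.le
    have h4 : q * vA a F d n = 2 * ((w : ℝ) + 2) / c0 := by
      rw [hq]
      field_simp
    have h5 : 2 * ((w : ℝ) + 2) / c0 ≤ 4 * ((w : ℝ) + 2) / c0 := by
      refine div_le_div_of_nonneg_right ?_ hc0.le
      have : (0 : ℝ) ≤ w := Nat.cast_nonneg w
      linarith
    linarith

/-- **(flat)** is free for cells of width `w ≥ c w_n`. -/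
theorem ed_flat (h : Dirs F κ K Ds) {a c0 c : ℝ} (ha : 0 < a) (hc : 0 < c) (hd : d ∈ Ds) {n S w : ℕ} (hS : 1 ≤ S)
    (hSn : S ≤ n) (hS1 : 2 * ((w : ℝ) + 2) ≤ c0 * (S * vA a F d n)) (hw : c * (n * vA a F d n) ≤ w) :
    vA a F d S ≤ c0 / (2 * c) * vA a F d n := by
  have hv0 := h.vA_pos hd ha (hS.trans hSn)
  have hS0 : (0 : ℝ) < S := by exact_mod_cast hS
  have h1 := h.w_mono hd ha.le hS hSn
  have h2 : n * vA a F d n ≤ c0 / (2 * c) * (S * vA a F d n) := by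
    have h3 : 2 * (c * (n * vA a F d n)) ≤ c0 * (S * vA a F d n) := by linarith
    rw [div_mul_eq_mul_div, le_div_iff₀ (by positivity)]
    linarith
  have h3 : S * vA a F d S ≤ S * (c0 / (2 * c) * vA a F d n) := by linarith
  exact le_of_mul_le_mul_left h3 hS0

end

end Pool.Agent.W_1b8d5d_p
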