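import Pool.Agent.W_1b8d5d_h48.ManyT
import Pool.Agent.W_1b8d5d_p.EdCon61
import Pool.Agent.W_1b8d5d_h4p.ToolZ
import Pool.Agent.W_1b8d5d_p.VMean

/-!
# Track P of `MP_1b8d5d_pr`, section (B): the two inputs of the assembly HB (helper32)
-/

namespace Pool.Agent.W_1b8d5d_p

open MeasureTheory
open Pool.Agent.W_1b8d5d_h85 (Env Edge)
open Pool.Agent.W_1b8d5d_h48 (CoreEv Sel)
open Pool.Agent.W_1b8d5d_h4p (Sf)

noncomputable section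

/-- THE SELECTION OF INSERTION POINTS, for the walks `0 → (N, y)` of cost at most `Cz EE n`, `n ≤ N ≤ H n`, with a lateral
position in the window of the scale `n`: at least `cJ n / M` levels at mutual distances `≥ M`, the positions in a window of
width `R w n` with probability `≥ 7/8`, the loss of the selection at most `Λ + ε osc`. -/
def SelP (F : Fm) (a : ℝ) (Ds : Set Dr) : Prop :=
  ∀ H Cz : ℝ, ∃ R cJ : ℝ, 0 ≤ R ∧ 0 < cJ ∧ ∀ ε : ℝ, 0 < ε → ∃ (Λ : ℝ) (n0 : ℕ), ∀ d ∈ Ds,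
    ∀ (n N M : ℕ) (y : ℤ), n0 ≤ n → n0 ≤ M → 8 * M ≤ n → n ≤ N → (N : ℝ) ≤ H * n → e F d N y ≤ Cz * EE F d n →
    |(y : ℝ) - d.v * N| ≤ Cz * (n * vA a F d n) → ∀ (wc : ℤ) (J Z : ℕ) (osc : ℝ), 0 < wc → 0 ≤ osc →
    (J : ℝ) ≤ cJ * (n / M) → R * (n * vA a F d n) + wc ≤ Z * wc →
    ∃ (Js : Finset ℕ) (cen : ℕ → ℤ) (Bd : ℤ) (c : ℕ → Env → ℤ) (lo : ℕ → Env → ℝ),
      Sel F d M J Z wc (1 / 8) (Λ + ε * osc) osc N y Js cen Bd c lo

/-- THE CORE at the scales which are soft at the level `a₁`: an event of probability at least `p`, of the weights in a tube of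
half width `R w m`, on which the displacement `((1 + r) m, k)` is lucky by `K EE m`; `m = 2 ^ (y + j)`. -/
def CoreHB (F : Fm) (κ a : ℝ) (Ds : Set Dr) (r : ℕ) (C3 : ℝ) : Prop :=
  ∀ K a₁ : ℝ, ∃ (p R : ℝ) (j y0 : ℕ), 0 < p ∧ 0 ≤ R ∧ ∀ d ∈ Ds, ∀ y : ℕ, y0 ≤ y → Sf F κ d y a₁ →
    ∀ m : ℕ, m = 2 ^ (y + j) → ∃ (k : ℤ) (E : Set Env) (D : Finset Edge),
      CoreEv F d (d.v / F.co.L) (R * (m * vA a F d m)) (K * EE F d m) ((1 + r) * m) k E D ∧ p ≤ (law F).real E ∧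
      ep F d ((1 + r) * m) k ≤ C3 * EE F d m ∧ |(k : ℝ) - d.v * (((1 + r) * m : ℕ) : ℝ)| ≤ C3 * (m * vA a F d m)

end

end Pool.Agent.W_1b8d5d_p
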