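import Pool.Agent.W_1b8d5d_p.UnitR
import Pool.Agent.W_1b8d5d_p.VMean

/-!
MP_1b8d5d_pr, Track P. Travellers from one far point to a whole box of lateral size `R0 n` (TRAV* for the frame), references, cheap
intervals as intervals of integers.
-/

namespace Pool.Agent.W_1b8d5d_p

open MeasureTheory Set

noncomputable section

variable {F : Fm} {κ K : ℝ} {A : Set Dr} {d : Dr}

/-- The positive part of the cost. -/
theorem ep_le_es (hd : Adm F κ d) (ht : Touch F d) {n : ℕ} (hn : 1 ≤ n) (y : ℤ) : ep F d n y ≤ e F d n y + es F d n := by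
  obtain ⟨y', hy'⟩ := es_attained hd n
  rw [← hy']
  exact ep_le_e_add hd ht hn y y'

theorem ep_le_EE (hd : Adm F κ d) (ht : Touch F d) {n N : ℕ} (hn : 1 ≤ n) (hN : n ≤ N) (y : ℤ) :
    ep F d n y ≤ e F d n y + EE F d N := by
  have h1 := ep_le_es hd ht hn y
  have h2 := le_EE F d hN
  have h3 := Cr_pos F
  linarith

/-- References. -/
theorem ref_le (hd : Adm F κ d) {m N : ℕ} (h : m ≤ N) : ∃ y, ep F d m y ≤ EE F d N := by
  obtain ⟨y, hy⟩ := es_attained hd m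
  have h1 := le_EE F d h
  have h2 := Cr_pos F
  exact ⟨y, by linarith⟩

theorem ep_xs_le (hd : Adm F κ d) (ht : Touch F d) {n : ℕ} (hn : 1 ≤ n) : ep F d n (xs F d n) ≤ 2 * es F d n := by
  have h1 := ep_le_es hd ht hn (xs F d n)
  have h2 := e_xs_le hd n
  linarith

/-- A cheap interval as an interval of integers. -/
theorem CI_int (hd : Adm F κ d) {m : ℕ} (hm : 1 ≤ m) {B : ℝ} (hB : e F d m (xs F d m) ≤ B) :
    ∃ lo hi : ℤ, lo ≤ hi ∧ ∀ y : ℤ, e F d m y ≤ B ↔ lo ≤ y ∧ y ≤ hi := by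
  obtain ⟨N, hN⟩ := exists_nat_ge ((|B| + C1 F * m) / (κ * F.co.M))
  have hbd : ∀ y : ℤ, e F d m y ≤ B → |(y : ℝ)| ≤ N := fun y hy => (CI_bdd hd (CI_mk hm hy)).trans hN
  obtain ⟨lo, hlo, hlo1⟩ := Int.exists_least_of_bdd (P := fun y => e F d m y ≤ B)
    ⟨-(N : ℤ), fun y hy => by
      have := (abs_le.1 (hbd y hy)).1
      exact_mod_cast this⟩ ⟨_, hB⟩
  obtain ⟨hi, hhi, hhi1⟩ := Int.exists_greatest_of_bdd (P := fun y => e F d m y ≤ B)
    ⟨(N : ℤ), fun y hy => by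
      have := (abs_le.1 (hbd y hy)).2
      exact_mod_cast this⟩ ⟨_, hB⟩
  refine ⟨lo, hi, hlo1 hi hhi, fun y => ⟨fun hy => ⟨hlo1 y hy, hhi1 y hy⟩, fun hy => ?_⟩⟩
  exact (CI_conv (CI_mk hm hlo) (CI_mk hm hhi) hy.1 hy.2).1

theorem CI_int' (hd : Adm F κ d) {m N : ℕ} (hm : 1 ≤ m) (hmN : m ≤ N) {a : ℝ} (ha : 1 ≤ a) :
    ∃ lo hi : ℤ, lo ≤ hi ∧ lo ≤ xs F d m ∧ xs F d m ≤ hi ∧ ∀ y : ℤ, e F d m y ≤ a * EE F d N ↔ lo ≤ y ∧ y ≤ hi := by
  have hB : e F d m (xs F d m) ≤ a * EE F d N := by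
    have h1 := e_xs_le hd m
    have h2 := le_EE F d hmN
    have h3 := Cr_pos F
    have h4 := EE_pos F d N
    nlinarith
  obtain ⟨lo, hi, h1, h2⟩ := CI_int hd hm hB
  exact ⟨lo, hi, h1, ((h2 _).1 hB).1, ((h2 _).1 hB).2, h2⟩

/-- **(TRAV*)** with the flat core: one far point, a box of lateral size `R0 n`. -/
theorem Dirs.trav_flat (h : Dirs F κ K A) (hr : Rate F A) {ε : ℝ} (hε : 0 < ε) (R0 : ℝ) : ∃ K' n0 : ℕ, 1 ≤ n0 ∧ 1 ≤ K' ∧
    ∀ d ∈ A, ∀ n : ℕ, n0 ≤ n → ∃ (r ys : ℝ) (T : ℕ), 1 ≤ T ∧ 12 * n ≤ T ∧ T + n ≤ K' * n ∧ |r - d.v| ≤ ε ∧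
      r = (xs F d n : ℝ) / n ∧ (∀ t : ℕ, t ≤ n → |(xs F d t : ℝ) - r * t| ≤ 3 * ln F d n (2 * EE F d (12 * n))) ∧
      ∀ t : ℕ, t ≤ n → ∀ y : ℤ, |(y : ℝ) - (ys + r * t)| ≤ R0 * n →
        ep F d (T + t) y ≤ 30 * EE F d (K' * n) +
          ε * max (|(y : ℝ) - (ys + r * t)| - 3 * ln F d n (2 * EE F d (12 * n))) 0 := by
  obtain ⟨ε1, hε1, hε1ε, hε1C⟩ : ∃ ε1 : ℝ, 0 < ε1 ∧ ε1 ≤ ε ∧ ε1 ≤ Cr F :=
    ⟨min ε (Cr F), lt_min hε (Cr_pos F), min_le_left _ _, min_le_right _ _⟩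
  obtain ⟨η, δ, hη, hδ, n1, hn1, hs⟩ := h.spread hε1
  obtain ⟨δ', hδ', hcs⟩ := h.cheap_slope hε
  obtain ⟨K1, hK1⟩ := exists_nat_ge (max ((|R0| + 1) / η) 1)
  have hK1a : (|R0| + 1) / η ≤ K1 := (le_max_left _ _).trans hK1
  have hK1b : (1 : ℝ) ≤ K1 := (le_max_right _ _).trans hK1
  have hK1c : 1 ≤ K1 := by exact_mod_cast hK1b
  rw [div_le_iff₀ hη] at hK1a
  obtain ⟨n2, hn2⟩ := hr (min δ δ' / (K1 + 14)) (by positivity)
  refine ⟨K1 + 14, max n1 (max n2 1), (le_max_right _ _).trans (le_max_right _ _), by omega, fun d hd n hn => ?_⟩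
  have hnn1 : n1 ≤ n := (le_max_left _ _).trans hn
  have hnn2 : n2 ≤ n := ((le_max_left _ _).trans (le_max_right _ _)).trans hn
  have hn1' : 1 ≤ n := ((le_max_right _ _).trans (le_max_right _ _)).trans hn
  have hnp : (0 : ℝ) < n := by exact_mod_cast hn1'
  obtain ⟨E, hE⟩ : ∃ E, E = EE F d ((K1 + 14) * n) := ⟨_, rfl⟩
  have hE0 : 0 < E := by rw [hE]; exact EE_pos _ _ _
  have hEr : E ≤ min δ δ' * n := by
    have h1 := hn2 d hd ((K1 + 14) * n) (by nlinarith)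
    rw [← hE] at h1
    refine h1.trans (le_of_eq ?_)
    push_cast
    field_simp
  have hEδ : E ≤ δ * n := hEr.trans (mul_le_mul_of_nonneg_right (min_le_left _ _) hnp.le)
  have hEδ' : E ≤ δ' * n := hEr.trans (mul_le_mul_of_nonneg_right (min_le_right _ _) hnp.le)
  have hadm := h.adm d hd
  have h12 : EE F d (12 * n) ≤ E := by rw [hE]; exact EE_mono F d (by nlinarith)
  obtain ⟨r, Y, hr1, hr2, hr3⟩ := trav_star hadm hn1' (le_refl (EE F d (12 * n)))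
  have hxs : ∀ m : ℕ, m ≤ (K1 + 14) * n → e F d m (xs F d m) ≤ E - Cr F := by
    intro m hm
    have h1 := e_xs_le hadm m
    have h2 := le_EE F d hm
    rw [← hE] at h2
    linarith
  have hCr := Cr_pos F
  refine ⟨r, Y + xs F d (K1 * n), 12 * n + K1 * n, by omega, by omega, by nlinarith, ?_, hr1, hr2, ?_⟩
  · have h1 := hcs d hd n hn1' (xs F d n) (by have := hxs n (by nlinarith); linarith)
    have e1 : r - d.v = ((xs F d n : ℝ) - d.v * n) / n := by rw [hr1]; field_simp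
    rw [e1, abs_div, Nat.abs_cast, div_le_iff₀ hnp]
    exact h1
  intro t ht y hy
  obtain ⟨x, hx⟩ : ∃ x : ℝ, x = (y : ℝ) - (Y + xs F d (K1 * n) + r * t) := ⟨_, rfl⟩
  rw [← hx] at hy ⊢
  obtain ⟨l, hl⟩ : ∃ l : ℝ, l = 3 * ln F d n (2 * EE F d (12 * n)) := ⟨_, rfl⟩
  rw [← hl] at hr3 ⊢
  have hl0 : 1 ≤ l := by
    have h1 : EE F d n ≤ 2 * EE F d (12 * n) := by
      have h2 := EE_mono F d (show n ≤ 12 * n by omega)
      have h3 := EE_pos F d (12 * n)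
      linarith
    have h2 : (1 : ℝ) ≤ ln F d n (2 * EE F d (12 * n)) := by exact_mod_cast one_le_ln hadm hn1' h1
    rw [hl]
    linarith
  -- the lateral part
  obtain ⟨s, hs1, hs2, hs3⟩ : ∃ s : ℤ, |x - s| ≤ l ∧ |(s : ℝ)| ≤ max (|x| - l) 0 + 1 ∧ |(s : ℝ)| ≤ |x| + 1 := by
    rcases le_total |x| l with hxl | hxl
    · refine ⟨0, by simpa using hxl, ?_, ?_⟩
      · simp only [Int.cast_zero, abs_zero]
        have := le_max_right (|x| - l) 0
        linarith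
      · simp only [Int.cast_zero, abs_zero]
        have := abs_nonneg x
        linarith
    · have hm : max (|x| - l) 0 = |x| - l := max_eq_left (by linarith)
      rcases le_total 0 x with hx0 | hx0
      · rw [abs_of_nonneg hx0] at hxl hm ⊢
        have f1 : x - l ≤ ((⌈x - l⌉ : ℤ) : ℝ) := Int.le_ceil _
        have f2 : ((⌈x - l⌉ : ℤ) : ℝ) < x - l + 1 := Int.ceil_lt_add_one _
        refine ⟨⌈x - l⌉, ?_, ?_, ?_⟩
        · rw [abs_le]
          constructor <;> linarith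
        · rw [hm, abs_of_nonneg (by linarith)]
          linarith
        · rw [abs_of_nonneg (by linarith)]
          linarith
      · rw [abs_of_nonpos hx0] at hxl hm ⊢
        have f1 : ((⌊x + l⌋ : ℤ) : ℝ) ≤ x + l := Int.floor_le _
        have f2 : x + l < ((⌊x + l⌋ : ℤ) : ℝ) + 1 := Int.lt_floor_add_one _
        refine ⟨⌊x + l⌋, ?_, ?_, ?_⟩
        · rw [abs_le]
          constructor <;> linarith
        · rw [hm, abs_of_nonpos (by linarith)]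
          linarith
        · rw [abs_of_nonpos (by linarith)]
          linarith
  -- the first piece
  have h1 : e F d (12 * n + t) (y - (xs F d (K1 * n) + s)) ≤ 26 * E := by
    refine (hr3 t ht _ ?_).trans (by linarith)
    push_cast
    have e1 : (y : ℝ) - (xs F d (K1 * n) + s) - (Y + r * t) = x - s := by rw [hx]; ring
    rw [e1]
    exact hs1
  -- the second piece
  have hKn : n ≤ K1 * n := Nat.le_mul_of_pos_left n (by omega)
  have h2 : e F d (K1 * n) (xs F d (K1 * n) + s) ≤ E - Cr F + ε1 * (max (|x| - l) 0 + 1) := by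
    have hc := hxs (K1 * n) (by nlinarith)
    have h3 := hs d hd (K1 * n) (hnn1.trans hKn) (xs F d (K1 * n)) ?_ (xs F d (K1 * n) + s) ?_
    · push_cast at h3
      rw [add_sub_cancel_left] at h3
      have h4 : 0 ≤ E - Cr F := by
        have := Cr_le_EE F d ((K1 + 14) * n)
        rw [← hE] at this
        linarith
      have h5 : max (e F d (K1 * n) (xs F d (K1 * n))) 0 ≤ E - Cr F := max_le hc h4
      have h6 := mul_le_mul_of_nonneg_left hs2 hε1.le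
      linarith
    · push_cast
      have h4 : δ * n ≤ δ * (K1 * n) := mul_le_mul_of_nonneg_left (by nlinarith) hδ.le
      linarith
    · push_cast
      rw [add_sub_cancel_left]
      have h4 : R0 * n ≤ |R0| * n := mul_le_mul_of_nonneg_right (le_abs_self R0) hnp.le
      have h5 : (|R0| + 1) * n ≤ K1 * η * n := mul_le_mul_of_nonneg_right hK1a hnp.le
      have h6 : (1 : ℝ) ≤ n := by exact_mod_cast hn1'
      nlinarith
  have h3 := e_sub F d (show 1 ≤ 12 * n + t by omega) (show 1 ≤ K1 * n by omega) (y - (xs F d (K1 * n) + s))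
    (xs F d (K1 * n) + s)
  rw [sub_add_cancel, show 12 * n + t + K1 * n = 12 * n + K1 * n + t by ring] at h3
  have h4 := ep_le_EE hadm (h.touch d hd) (n := 12 * n + K1 * n + t) (N := (K1 + 14) * n) (by omega) (by nlinarith) y
  rw [← hE] at h4 ⊢
  have h5 : ε1 * max (|x| - l) 0 ≤ ε * max (|x| - l) 0 := mul_le_mul_of_nonneg_right hε1ε (le_max_right _ _)
  linarith

/-- **(TRAV*)** for the frame: one far point, a box of lateral size `R0 n`. -/
theorem Dirs.trav_far (h : Dirs F κ K A) (hr : Rate F A) {ε : ℝ} (hε : 0 < ε) (R0 : ℝ) : ∃ K' n0 : ℕ, 1 ≤ n0 ∧ 1 ≤ K' ∧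
    ∀ d ∈ A, ∀ n : ℕ, n0 ≤ n → ∃ (r ys : ℝ) (T : ℕ), 1 ≤ T ∧ 12 * n ≤ T ∧ T + n ≤ K' * n ∧ |r - d.v| ≤ ε ∧
      r = (xs F d n : ℝ) / n ∧ (∀ t : ℕ, t ≤ n → |(xs F d t : ℝ) - r * t| ≤ 3 * ln F d n (2 * EE F d (12 * n))) ∧
      ∀ t : ℕ, t ≤ n → ∀ y : ℤ, |(y : ℝ) - (ys + r * t)| ≤ R0 * n →
        ep F d (T + t) y ≤ 30 * EE F d (K' * n) + ε * |(y : ℝ) - (ys + r * t)| := by
  obtain ⟨K', n0, h1, h2, h3⟩ := h.trav_flat hr hε R0
  refine ⟨K', n0, h1, h2, fun d hd n hn => ?_⟩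
  obtain ⟨r, ys, T, g1, g2, g3, g4, g5, g6, g7⟩ := h3 d hd n hn
  refine ⟨r, ys, T, g1, g2, g3, g4, g5, g6, fun t ht y hy => (g7 t ht y hy).trans ?_⟩
  have h4 : max (|(y : ℝ) - (ys + r * t)| - 3 * ln F d n (2 * EE F d (12 * n))) 0 ≤ |(y : ℝ) - (ys + r * t)| :=
    max_le (by linarith [Nat.cast_nonneg (α := ℝ) (ln F d n (2 * EE F d (12 * n)))]) (abs_nonneg _)
  have h5 := mul_le_mul_of_nonneg_left h4 hε.le
  linarith

end

end Pool.Agent.W_1b8d5d_p
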