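import Pool.Agent.W_1b8d5d_p.CoreP4
import Pool.Agent.W_1b8d5d_p.Width99
import Pool.Agent.W_1b8d5d_p.CoreA71
import Pool.Agent.W_1b8d5d_p.UnitT
import Pool.Agent.W_1b8d5d_p.IfaceP
import Pool.Agent.W_1b8d5d_p.HbDefs32

/-!
MP_1b8d5d_pr, Track P (proofs row 636, section 5, row 644 INPUT): the core at a soft scale, for a family of directions.
-/

namespace Pool.Agent.W_1b8d5d_p

open MeasureTheory Set
open Pool.Agent.W_1b8d5d_h85
open Pool.Agent.W_1b8d5d_h48 (CoreEv)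
open Pool.Agent.W_1b8d5d_h4p (LawH Lk Fz Sf)

noncomputable section

variable {F : Fm} {κ K : ℝ} {Ds : Set Dr} {d : Dr}

/-- A displacement of duration `l ≤ m` of mean cost at most `b EE m` is at the distance `≤ max 1 (b / a) w_m` of the line. -/
theorem near83 (h : Dirs F κ K Ds) (hd : d ∈ Ds) {a b : ℝ} (ha : 0 < a) (hb : 0 ≤ b) {l m : ℕ} (hl : 1 ≤ l)
    (hlm : l ≤ m) {q : ℤ} (hq : e F d l q ≤ b * EE F d m) :
    |(q : ℝ) - d.v * l| ≤ max 1 (b / a) * (m * vA a F d m) := by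
  have hl0 : (0 : ℝ) < l := by exact_mod_cast hl
  have hm0 : (0 : ℝ) < m := by exact_mod_cast hl.trans hlm
  have hlm' : (l : ℝ) ≤ m := by exact_mod_cast hlm
  obtain ⟨t, ht⟩ : ∃ t : ℝ, t = (q : ℝ) - d.v * l := ⟨_, rfl⟩
  rw [← ht]
  have h1 := e_lower F d hl q
  have e1 : (q : ℝ) / l - d.v = t / l := by rw [ht]; field_simp
  rw [e1] at h1
  -- convexity
  have h2 : m * J F d (t / m) ≤ l * J F d (t / l) := by
    have g1 : 0 ≤ 1 - (l : ℝ) / m := by rw [sub_nonneg, div_le_one hm0]; exact hlm'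
    have g2 : 0 ≤ (l : ℝ) / m := by positivity
    have hc := (J_convex F d).2 (mem_univ (0 : ℝ)) (mem_univ (t / l)) g1 g2 (by ring)
    simp only [smul_eq_mul, mul_zero, zero_add, (h.touch d hd).zero] at hc
    rw [show (l : ℝ) / m * (t / l) = t / m by field_simp] at hc
    have := mul_le_mul_of_nonneg_left hc hm0.le
    rwa [show (m : ℝ) * ((l : ℝ) / m * J F d (t / l)) = l * J F d (t / l) by field_simp] at this
  have h3 := h.lev_abs hd hb (hl.trans hlm) (h2.trans (h1.trans hq))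
  have h4 : vA b F d m ≤ vA (max 1 (b / a) * a) F d m := by
    refine h.vA_level_mono hd hb ?_ m
    have h5 := mul_le_mul_of_nonneg_right (le_max_right 1 (b / a)) ha.le
    rwa [div_mul_cancel₀ _ ha.ne'] at h5
  have h5 := h.vA_level_mul hd (c := max 1 (b / a)) ha.le (le_max_left _ _) m
  rw [abs_div, abs_of_pos hm0, div_le_iff₀ hm0] at h3
  calc |t| ≤ vA b F d m * m := h3
    _ ≤ (max 1 (b / a) * vA a F d m) * m := mul_le_mul_of_nonneg_right (h4.trans h5) hm0.le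
    _ = _ := by ring

/-- (L*) with one constant in the exponents. -/
theorem lstar83 {a : ℝ} (h : LStarP a F Ds) (H : ℕ) : ∃ c C : ℝ, 0 < c ∧ 0 < C ∧ ∃ n0 : ℕ, ∀ d ∈ Ds, ∀ n : ℕ,
    n0 ≤ n → ∀ N : ℕ, N ≤ H * n → ∀ o : ℝ,
      ∫ η, Real.exp (c / EE F d n * TL F d (c * EE F d n / (n * vA a F d n)) o (n * vA a F d n) N η) ∂(law F) ≤ C := by
  obtain ⟨C, n0, hC, h1⟩ := h H
  have hC0 : 0 < C := by linarith
  refine ⟨1 / C, C, by positivity, hC0, n0, fun d hd n hn N hN o => ?_⟩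
  have h2 := h1 d hd n hn N hN o
  have e1 : 1 / C / EE F d n = 1 / (C * EE F d n) := by rw [div_div]
  have e2 : 1 / C * EE F d n / (n * vA a F d n) = EE F d n / (C * (n * vA a F d n)) := by
    rw [one_div_mul_eq_div, div_div]
  rw [e1, e2]
  exact h2

/-- A smaller luck. -/
theorem _root_.Pool.Agent.W_1b8d5d_h48.CoreEv.mono83 {sl b Y Y' : ℝ} {M : ℕ} {k : ℤ} {Ev : Set Env} {D : Finset Edge}
    (h : CoreEv F d sl b Y M k Ev D) (hY : Y' ≤ Y) : CoreEv F d sl b Y' M k Ev D :=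
  ⟨h.meas, h.up, h.dep, h.rows, h.lat, fun η hη => hY.trans (h.luck η hη)⟩

/-- The statement of `mid71`: the lucky end in a window around the cheapest displacement. -/
def Mid83 (F : Fm) : Prop := ∀ c1 A1 c C B K : ℝ, 0 < c1 → c1 ≤ 1 → 0 ≤ A1 → 0 < c → 0 < C → 0 ≤ B →
    Real.exp (-(c * B)) ≤ 1 / 100 → 0 < K →
    ∃ p' U0 : ℝ, 0 < p' ∧ 0 < U0 ∧ ∀ (κ : ℝ) (d : Dr), Adm F κ d → ∀ E : ℝ, U0 ≤ E → ∀ l : ℕ, 1 ≤ l →
      e F d l (xs F d l) ≤ E → ∫ η, Real.exp (c / E * max (VV F d η 0 l) 0) ∂(law F) ≤ C →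
      ∀ (S : Set Edge) (G : Env → ℝ), Fz F.a F.b S G → (∀ η, G (F.tau η) ≤ VV F d η 0 l) →
      -(A1 * E) ≤ ∫ η, G (F.tau η) ∂(law F) →
      c1 ≤ (law F).real {η | c1 * E ≤ |G (F.tau η) - ∫ ξ, G (F.tau ξ) ∂(law F)|} →
      ∃ qa qb : ℤ, qa ≤ xs F d l ∧ xs F d l ≤ qb ∧ (∀ q, qa ≤ q → q ≤ qb → e F d l q ≤ (B + 6) * E) ∧
        p' ≤ (law F).real {η | ∃ q, qa ≤ q ∧ q ≤ qb ∧ K * E ≤ -X F d η 0 l q}

/-- **THE CORE AT SOFT SCALES**, from the lucky window. -/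
theorem coreHB_of_mid83 {a : ℝ} (hMid : Mid83 F) (hg : Antitone F.g) (h : Dirs F κ K Ds) (ha : 0 < a)
    (hR : Rate F Ds) (hG : Grow F Ds) (hLS : LStarP a F Ds) (hCh : CheapP a F Ds) :
    ∃ (r : ℕ) (C3 : ℝ), 1 ≤ r ∧ 0 < C3 ∧ CoreHB F κ a Ds r C3 := by
  classical
  rcases Ds.eq_empty_or_nonempty with h0 | ⟨d0, hd0⟩
  · refine ⟨1, 1, le_rfl, one_pos, fun K a1 => ⟨1, 1, 0, 0, one_pos, zero_le_one, fun d hd => ?_⟩⟩
    rw [h0] at hd
    exact absurd hd (notMem_empty _)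
  have hκ := (h.adm d0 hd0).κ0
  have hK0 : 0 ≤ K := (abs_nonneg _).trans (h.slope d0 hd0)
  have hM1 : (1 : ℝ) ≤ F.co.M := by exact_mod_cast F.co.M_pos
  have hR1 : (1 : ℝ) ≤ F.co.R := by exact_mod_cast F.co.R_pos
  obtain ⟨c, C, hc, hC, n1, h1⟩ := lstar83 hLS 1
  obtain ⟨cw, Cw, hcw, h2⟩ := hCh
  obtain ⟨B, hB⟩ : ∃ B : ℝ, B = Real.log 100 / c := ⟨_, rfl⟩
  have hB0 : 0 ≤ B := by rw [hB]; exact div_nonneg (Real.log_nonneg (by norm_num)) hc.le
  have hcB : Real.exp (-(c * B)) ≤ 1 / 100 := by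
    rw [hB, mul_div_cancel₀ _ hc.ne', Real.exp_neg, Real.exp_log (by norm_num)]
    norm_num
  obtain ⟨c1, hc1⟩ : ∃ c1 : ℝ, c1 = 2 * max 1 ((B + 6) / a) := ⟨_, rfl⟩
  have hc10 : 0 ≤ c1 := by
    rw [hc1]
    have := le_max_left 1 ((B + 6) / a)
    linarith
  obtain ⟨r, hr⟩ : ∃ r : ℕ, r = ⌈2 * c1 / cw⌉₊ + 1 := ⟨_, rfl⟩
  have hr1 : 1 ≤ r := by omega
  have hr2 : 2 * c1 / cw ≤ r := by
    have := Nat.le_ceil (2 * c1 / cw)
    rw [hr]
    push_cast
    linarith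
  obtain ⟨Cc, hCc⟩ : ∃ Cc : ℝ, Cc = |Cw| + 3 := ⟨_, rfl⟩
  have hCc0 : 3 ≤ Cc := by
    rw [hCc]
    have := abs_nonneg Cw
    linarith
  obtain ⟨C3, hC3⟩ : ∃ C3 : ℝ, C3 = c1 + (3 + 2 * r) * Cc := ⟨_, rfl⟩
  have hC30 : 0 < C3 := by
    rw [hC3]
    positivity
  refine ⟨r, C3, hr1, hC30, fun Kr a1 => ?_⟩
  obtain ⟨Kc, hKc'⟩ : ∃ Kc : ℝ, Kc = max Kr 1 := ⟨_, rfl⟩
  have hKc : 0 < Kc := by rw [hKc']; exact lt_max_of_lt_right one_pos
  have hKr : Kr ≤ Kc := by rw [hKc']; exact le_max_left _ _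
  obtain ⟨c2, C2, hc2, hC2, n2, h3⟩ := lstar83 hLS (1 + r)
  obtain ⟨a1', ha1'⟩ : ∃ a1' : ℝ, a1' = max a1 0 := ⟨_, rfl⟩
  have ha10 : 0 ≤ a1' := by rw [ha1']; exact le_max_right _ _
  have haa : a1 ≤ a1' := by rw [ha1']; exact le_max_left _ _
  obtain ⟨k1, hk1⟩ : ∃ k1 : ℕ, k1 = ⌈a1⌉₊ + 1 := ⟨_, rfl⟩
  have hk1' : a1' ≤ (k1 : ℝ) - 1 := by
    rw [hk1, ha1']
    push_cast
    rw [add_sub_cancel_right]
    exact max_le (Nat.le_ceil _) (Nat.cast_nonneg _)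
  obtain ⟨cs, hcs⟩ : ∃ cs : ℝ, cs = (2 : ℝ) ^ (-a1') / 2 ^ k1 := ⟨_, rfl⟩
  have h2a : (0 : ℝ) < 2 ^ (-a1') := Real.rpow_pos_of_pos two_pos _
  have h2a1 : (2 : ℝ) ^ (-a1') ≤ 1 := by
    rw [Real.rpow_neg two_pos.le]
    exact inv_le_one_of_one_le₀ (Real.one_le_rpow one_le_two ha10)
  have hpk : (1 : ℝ) ≤ 2 ^ k1 := one_le_pow₀ one_le_two
  have hcs0 : 0 < cs := by rw [hcs]; positivity
  have hcs2 : cs ≤ 2 ^ (-a1') := by
    rw [hcs]
    exact div_le_self h2a.le hpk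
  have hcs1 : cs ≤ 1 := hcs2.trans h2a1
  obtain ⟨p', U0, hp', hU0, hmid⟩ := hMid cs (2 ^ a1') c C B (Kc + C3) hcs0 hcs1 (by positivity) hc hC hB0 hcB
    (by linarith)
  obtain ⟨n3, hn3⟩ := hG (max U0 (CP F))
  obtain ⟨K1, hK1⟩ : ∃ K1 : ℝ, K1 = F.co.R + K := ⟨_, rfl⟩
  have hK10 : 1 ≤ K1 := by rw [hK1]; linarith
  obtain ⟨kk, hkk⟩ : ∃ kk : ℝ, kk = κ / K1 := ⟨_, rfl⟩
  have hkk0 : 0 < kk := by rw [hkk]; positivity
  obtain ⟨n4, hn41, hn4⟩ := h.w_large hR ha (max (max (2 * c2 / kk) (2 / (c2 * kk))) (max (c / κ) (max (2 / cw) 1 / Cr F)))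
  refine ⟨p' / 2 / 2, Rc c2 C2 (p' / 2), ⌈a1⌉₊ + 1, max (max n1 n2) (max n3 n4), by positivity, ?_, ?_⟩
  · unfold Rc
    have := le_max_left 0 (Real.log (20 * C2 / (p' / 2)) / c2)
    positivity
  intro d hd y hy hS m hm
  have hadm := h.adm d hd
  have htch := h.touch d hd
  have hym : y ≤ m := by
    rw [hm]
    exact (Nat.le_add_right y _).trans Nat.lt_two_pow_self.le
  have hmn1 : n1 ≤ m := ((le_max_left _ _).trans ((le_max_left _ _).trans hy)).trans hym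
  have hmn2 : n2 ≤ m := ((le_max_right _ _).trans ((le_max_left _ _).trans hy)).trans hym
  have hmn3 : n3 ≤ m := ((le_max_left _ _).trans ((le_max_right _ _).trans hy)).trans hym
  have hmn4 : n4 ≤ m := ((le_max_right _ _).trans ((le_max_right _ _).trans hy)).trans hym
  have hm1 : 1 ≤ m := hn41.trans hmn4
  obtain ⟨E, hE⟩ : ∃ E : ℝ, E = EE F d m := ⟨_, rfl⟩
  obtain ⟨w, hw⟩ : ∃ w : ℝ, w = m * vA a F d m := ⟨_, rfl⟩
  have hE0 : 0 < E := by rw [hE]; exact EE_pos F d m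
  have hECr : Cr F ≤ E := by rw [hE]; exact Cr_le_EE F d m
  have hCr := Cr_pos F
  have hEU := hn3 d hd m hmn3
  have hwE := hn4 d hd m hmn4
  rw [← hE] at hEU hwE
  rw [← hw] at hwE
  have hw_of : ∀ t : ℝ, t ≤ max (max (2 * c2 / kk) (2 / (c2 * kk))) (max (c / κ) (max (2 / cw) 1 / Cr F)) → t * E ≤ w :=
    fun t ht => (mul_le_mul_of_nonneg_right ht hE0.le).trans hwE
  have hw1 : 2 * c2 / kk * E ≤ w := hw_of _ ((le_max_left _ _).trans (le_max_left _ _))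
  have hw2 : 2 / (c2 * kk) * E ≤ w := hw_of _ ((le_max_right _ _).trans (le_max_left _ _))
  have hw3 : c / κ * E ≤ w := hw_of _ ((le_max_left _ _).trans (le_max_right _ _))
  have hw4 : max (2 / cw) 1 ≤ w := by
    have h4 := hw_of _ ((le_max_right _ _).trans (le_max_right _ _))
    have h5 : max (2 / cw) 1 / Cr F * Cr F ≤ max (2 / cw) 1 / Cr F * E :=
      mul_le_mul_of_nonneg_left hECr (by positivity)
    rw [div_mul_cancel₀ _ hCr.ne'] at h5
    exact h5.trans h4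
  have hw5 : 2 / cw ≤ w := (le_max_left _ _).trans hw4
  have hw6 : 1 ≤ w := (le_max_right _ _).trans hw4
  have hw0 : 0 < w := by linarith
  rw [← hE, ← hw]
  -- the soft functional
  obtain ⟨l, G, hl, hGk, hmean, hfl⟩ := hS.mono haa
  have hl1 := hGk.l1
  have hlm : l ≤ m := by
    have h4 : (2 : ℝ) ^ ((y : ℝ) + a1') ≤ 2 ^ ((y : ℝ) + k1) :=
      Real.rpow_le_rpow_of_exponent_le one_le_two (by linarith)
    have h5 : (2 : ℝ) ^ ((y : ℝ) + (k1 : ℝ)) = ((m : ℕ) : ℝ) := by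
      rw [hm, ← hk1, ← Nat.cast_add, Real.rpow_natCast]
      push_cast
      rfl
    have h6 : (l : ℝ) ≤ m := (hl.trans h4).trans_eq h5
    exact_mod_cast h6
  have hEy : EE F d (2 ^ y) ≤ E := by
    rw [hE, hm]
    exact EE_mono F d (Nat.pow_le_pow_right (by norm_num) (Nat.le_add_right _ _))
  have hEy2 : E ≤ 2 ^ k1 * EE F d (2 ^ y) := by
    have h4 := EE_mul F d (2 ^ y) (k := 2 ^ k1) Nat.one_le_two_pow
    rw [← pow_add, add_comm k1 y, hk1, ← hm, ← hE, ← hk1] at h4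
    exact_mod_cast h4
  have hEy0 := EE_pos F d (2 ^ y)
  have hes : es F d l + Cr F ≤ E := by rw [hE]; exact le_EE F d hlm
  have hexl : e F d l (xs F d l) ≤ E := by
    have := e_xs_le hadm l
    linarith
  have hexp : ∫ η, Real.exp (c / E * max (VV F d η 0 l) 0) ∂(law F) ≤ C := by
    have h4 := h1 d hd m hmn1 m (by omega) 0
    rw [← hE, ← hw] at h4
    refine VVp_exp71 hadm (s := c * E / w) (W := w) (N := m) hc hE0 (by positivity) ?_ hw0 hl1 hlm h4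
    rw [div_le_iff₀ hw0]
    have h5 : c * E ≤ κ * w := by
      have := mul_le_mul_of_nonneg_left hw3 hκ.le
      rwa [show κ * (c / κ * E) = c * E by field_simp] at this
    have h6 := mul_le_mul_of_nonneg_left hM1 (mul_nonneg hκ.le hw0.le)
    linarith only [h5, h6]
  obtain ⟨qa, qb, hqa, hqb, hq, hprob⟩ := hmid κ d hadm E ((le_max_left _ _).trans hEU) l hl1 hexl hexp _ G
    (hGk.fz0 hκ.le) (hGk.le_VV hκ.le)
    (by
      have := mul_le_mul_of_nonneg_left hEy (show (0 : ℝ) ≤ 2 ^ a1' by positivity)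
      linarith)
    (by
      refine hcs2.trans (hfl.trans (measureReal_mono fun η hη => ?_))
      have h4 : cs * E ≤ 2 ^ (-a1') * EE F d (2 ^ y) := by
        rw [hcs, div_mul_eq_mul_div, div_le_iff₀ (by positivity)]
        have h5 := mul_le_mul_of_nonneg_left hEy2 h2a.le
        linarith only [h5]
      exact h4.trans hη)
  -- the place
  obtain ⟨lo, hi, hlo, hhi, hlen, hint⟩ := h2 d hd m hm1
  rw [← hE, ← hw] at hint
  rw [← hw] at hlen
  have hlohi : lo ≤ hi := hlo.trans hhi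
  have hepxs : ∀ j : ℕ, j ≤ m → ep F d j (xs F d j) ≤ Cc * E := by
    intro j hj
    rcases Nat.eq_zero_or_pos j with hj0 | hj0
    · rw [hj0, xs_zero, ep_zero]
      positivity
    · have h4 := ep_xs_le hadm htch hj0
      have h5 : es F d j + Cr F ≤ E := by rw [hE]; exact le_EE F d hj
      have h6 : 3 * E ≤ Cc * E := mul_le_mul_of_nonneg_right hCc0 hE0.le
      linarith only [h4, h5, h6, hCr, hE0]
  have hxsl : ∀ j : ℕ, j ≤ m → |(xs F d j : ℝ) - d.v * j| ≤ Cc * w := by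
    intro j hj
    rcases Nat.eq_zero_or_pos j with hj0 | hj0
    · rw [hj0, xs_zero]
      simp only [Int.cast_zero, Nat.cast_zero, mul_zero, sub_zero, abs_zero]
      positivity
    · obtain ⟨lo', hi', hlo', hhi', -, hint'⟩ := h2 d hd j hj0
      have h4 := (hint' (xs F d j) hlo' hhi').2
      have h5 := h.w_mono hd ha.le hj0 hj
      rw [← hw] at h5
      have h6 : 3 * w ≤ Cc * w := mul_le_mul_of_nonneg_right hCc0 hw0.le
      linarith only [h4, h5, h6, hw6]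
  have hwin : (qb : ℝ) - qa ≤ c1 * w := by
    have h4 := near83 h hd ha (by linarith) hl1 hlm (q := qa) (b := B + 6) (by
      rw [← hE]
      exact hq qa le_rfl (hqa.trans hqb))
    have h5 := near83 h hd ha (by linarith) hl1 hlm (q := qb) (b := B + 6) (by
      rw [← hE]
      exact hq qb (hqa.trans hqb) le_rfl)
    rw [← hw] at h4 h5
    have h6 := abs_le.1 h4
    have h7 := abs_le.1 h5
    rw [hc1]
    linarith [h6.1, h7.2]
  have hplace := place_fill (F := F) (d := d) (m := m) (r := r) (l := l) (j := m - l) (lo := lo) (hi := hi)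
    (x := xs F d l) (f := xs F d (m - l)) (qa := qa) (qb := qb) (w := w) (E := E) (C := Cc) (c0 := cw) (c1 := c1)
    hl1 (by omega) hE0 hcw (by linarith) hc10 hw5 hlen hlohi
    (fun y h4 h5 => by
      have h6 := (hint y h4 h5).1
      have h7 := ep_le_e_add hadm htch hm1 y (xs F d m)
      have h8 := ep_xs_le hadm htch hm1
      have h9 : es F d m + Cr F ≤ E := by rw [hE]; exact le_EE F d le_rfl
      have h10 : Cw * E ≤ |Cw| * E := mul_le_mul_of_nonneg_right (le_abs_self _) hE0.le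
      rw [hCc, add_mul]
      linarith only [h6, h7, h8, h9, h10, hE0, hCr])
    (fun y h4 h5 => by
      have h6 := (hint y h4 h5).2
      have h7 : 3 * w ≤ Cc * w := mul_le_mul_of_nonneg_right hCc0 hw0.le
      linarith only [h6, h7, hw6])
    (fun h4 => by rw [h4, xs_zero]) (hepxs _ (by omega)) (hxsl _ (by omega)) (hepxs _ hlm) (hxsl _ hlm) hqa hqb hwin
    hr1 hr2
  rw [← hC3] at hplace
  obtain ⟨hp1, hp2, hp3⟩ := hplace
  have hprob2 : p' / 2 ≤ (law F).real {η | Kc * E ≤ -X F d η 0 ((1 + r) * m) (qb + (xs F d (m - l) + r * lo))} := by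
    have := hp3 Kc
    linarith
  have hMr : 1 ≤ (1 + r) * m := Nat.mul_pos (by omega) hm1
  obtain ⟨hcore, hcp⟩ := core_scale (F := F) (κ := κ) (d := d) (k1 := kk) (K1 := K1) hadm
    ⟨hkk0, by have := h.slope d hd; rw [hK1]; linarith, le_of_eq (by rw [hkk]; field_simp)⟩ hg hE0 hw0 hc2 hC2
    (by
      rw [div_le_iff₀ hw0]
      have h4 := mul_le_mul_of_nonneg_left hw1 hkk0.le
      rw [show kk * (2 * c2 / kk * E) = 2 * (c2 * E) by field_simp] at h4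
      linarith)
    (by
      have h4 := mul_le_mul_of_nonneg_left hw2 (show 0 ≤ c2 * kk by positivity)
      rw [show c2 * kk * (2 / (c2 * kk) * E) = 2 * E by field_simp] at h4
      rw [show c2 / E * (kk / 2 * w) = c2 * kk * w / (2 * E) by field_simp, le_div_iff₀ (by positivity)]
      linarith)
    ((le_max_right _ _).trans hEU) hMr
    (fun o => by
      have h4 := h3 d hd m hmn2 ((1 + r) * m) le_rfl o
      rw [← hE, ← hw] at h4
      exact h4) hKc.le (p := p' / 2) (by positivity) hprob2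
  exact ⟨_, _, _, hcore.mono83 (mul_le_mul_of_nonneg_right hKr hE0.le), hcp, hp1, hp2⟩

end

end Pool.Agent.W_1b8d5d_p
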