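import Pool.Agent.W_1b8d5d_p.UnitV

/-!
MP_1b8d5d_pr, Track P, section 4 (proofs row 642, (B1), (B2)): the edge of a scale; the means outside of the edge.
-/

namespace Pool.Agent.W_1b8d5d_p

open MeasureTheory Set

noncomputable section

/-- The width on the side `sg` (`sg = 1`: right, `sg = -1`: left) at the level `a`. -/
def vs (a : ℝ) (F : Fm) (d : Dr) (sg : ℝ) (n : ℕ) : ℝ := wR (fun x => J F d (sg * x)) (a * EE F d n / n)

theorem vs_one (a : ℝ) (F : Fm) (d : Dr) (n : ℕ) : vs a F d 1 n = vr a F d n := by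
  unfold vs vr
  simp only [one_mul]

theorem vs_neg (a : ℝ) (F : Fm) (d : Dr) (n : ℕ) : vs a F d (-1) n = vl a F d n := by
  unfold vs vl wL
  simp only [neg_mul, one_mul]

variable {F : Fm} {κ K : ℝ} {Ds : Set Dr} {d : Dr} {sg a A0 A1 w ρ : ℝ} {n N0 : ℕ}

theorem ed_rf (h : Dirs F κ K Ds) (hd : d ∈ Ds) (hsg : sg = 1 ∨ sg = -1) : Rf fun x => J F d (sg * x) := by
  rcases hsg with rfl | rfl
  · simpa only [one_mul] using h.rf hd
  · simpa only [neg_mul, one_mul] using (h.rf hd).neg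

theorem vs_nonneg (h : Dirs F κ K Ds) (hd : d ∈ Ds) (hsg : sg = 1 ∨ sg = -1) (ha : 0 ≤ a) : 0 ≤ vs a F d sg n :=
  (ed_rf h hd hsg).wR_nonneg (lev_nonneg ha)

theorem ed_J' (h : Dirs F κ K Ds) (hd : d ∈ Ds) (hsg : sg = 1 ∨ sg = -1) (ha : 0 ≤ a) :
    J F d (sg * vs a F d sg n) = a * EE F d n / n := (ed_rf h hd hsg).J_wR (lev_nonneg ha)

theorem ed_J (h : Dirs F κ K Ds) (hd : d ∈ Ds) (hsg : sg = 1 ∨ sg = -1) (ha : 0 ≤ a) (hn : 1 ≤ n) :
    n * J F d (sg * vs a F d sg n) = a * EE F d n := by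
  have hn0 : (n : ℝ) ≠ 0 := by exact_mod_cast (show n ≠ 0 by omega)
  rw [ed_J' h hd hsg ha, mul_div_cancel₀ _ hn0]

theorem vs_mono (h : Dirs F κ K Ds) (hd : d ∈ Ds) (hsg : sg = 1 ∨ sg = -1) (ha : 0 ≤ a) {a' : ℝ} (haa : a ≤ a') :
    vs a F d sg n ≤ vs a' F d sg n := by
  refine (ed_rf h hd hsg).wR_mono (lev_nonneg ha) ?_
  exact div_le_div_of_nonneg_right (mul_le_mul_of_nonneg_right haa (EE_pos F d n).le) (Nat.cast_nonneg _)

theorem vs_mul (h : Dirs F κ K Ds) (hd : d ∈ Ds) (hsg : sg = 1 ∨ sg = -1) (ha : 0 ≤ a) {t : ℝ} (ht : 1 ≤ t) :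
    vs (t * a) F d sg n ≤ t * vs a F d sg n := by
  have h1 := (ed_rf h hd hsg).wR_mul (lev_nonneg (F := F) (d := d) (n := n) ha) ht
  unfold vs
  have e1 : t * a * EE F d n / n = t * (a * EE F d n / n) := by ring
  rw [e1]
  exact h1

/-- The Lipschitz constant of the rate function. -/
theorem ed_lip (hd : Adm F κ d) (x y : ℝ) : |J F d x - J F d y| ≤ (CT F + F.b * F.co.M) * |x - y| := by
  have h1 := mu_lip F (d.v + x) (d.v + y)
  have e1 : d.v + x - (d.v + y) = x - y := by ring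
  rw [e1] at h1
  have h2 := hd.abs_be
  have e2 : J F d x - J F d y = (mu_ F (d.v + x) - mu_ F (d.v + y)) + -(be F.co d * (x - y)) := by
    unfold J
    ring
  have h3 : |-(be F.co d * (x - y))| ≤ F.b * F.co.M * |x - y| := by
    rw [abs_neg, abs_mul]
    exact mul_le_mul_of_nonneg_right h2 (abs_nonneg _)
  rw [e2]
  have h4 := abs_add_le (mu_ F (d.v + x) - mu_ F (d.v + y)) (-(be F.co d * (x - y)))
  nlinarith

/-- **(B1)** The thickness of the edge is at least a constant times the unit. -/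
theorem ed_om (h : Dirs F κ K Ds) (hd : d ∈ Ds) (hsg : sg = 1 ∨ sg = -1) (h0 : 0 ≤ A0) (h01 : A0 ≤ A1) (hn : 1 ≤ n) :
    (A1 - A0) * EE F d n ≤ (CT F + F.b * F.co.M) * (n * (vs A1 F d sg n - vs A0 F d sg n)) := by
  have hn0 : (0 : ℝ) < n := by exact_mod_cast hn
  have h1 := ed_J h hd hsg h0 hn (n := n)
  have h2 := ed_J h hd hsg (h0.trans h01) hn (n := n)
  have h3 := vs_mono (n := n) h hd hsg h0 h01
  have h4 := le_of_abs_le (ed_lip (h.adm d hd) (sg * vs A1 F d sg n) (sg * vs A0 F d sg n))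
  have h5 : |sg * vs A1 F d sg n - sg * vs A0 F d sg n| = vs A1 F d sg n - vs A0 F d sg n := by
    rw [← mul_sub, abs_mul]
    rcases hsg with rfl | rfl
    · rw [abs_one, one_mul, abs_of_nonneg (sub_nonneg.2 h3)]
    · rw [abs_neg, abs_one, one_mul, abs_of_nonneg (sub_nonneg.2 h3)]
  rw [h5] at h4
  have h6 := mul_le_mul_of_nonneg_left h4 hn0.le
  nlinarith

theorem ed_om_pos (h : Dirs F κ K Ds) (hd : d ∈ Ds) (hsg : sg = 1 ∨ sg = -1) (h0 : 0 ≤ A0) (h01 : A0 < A1) (hn : 1 ≤ n) :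
    0 < n * (vs A1 F d sg n - vs A0 F d sg n) := by
  have h1 := ed_om (n := n) h hd hsg h0 h01.le hn
  have h2 : 0 < (A1 - A0) * EE F d n := mul_pos (sub_pos.2 h01) (EE_pos F d n)
  have h3 : 0 ≤ CT F + F.b * F.co.M := by
    have h4 := CT_pos F
    have h5 := F.a0.trans_le F.ab
    have h6 : (0 : ℝ) ≤ F.co.M := by exact_mod_cast (show (0 : ℤ) ≤ F.co.M by have := F.co.M_pos; omega)
    positivity
  by_contra hcon
  rw [not_lt] at hcon
  have := mul_nonpos_of_nonneg_of_nonpos h3 hcon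
  linarith

/-- The thickness is at most a constant times the one-sided width. -/
theorem ed_om_le (h : Dirs F κ K Ds) (hd : d ∈ Ds) (hsg : sg = 1 ∨ sg = -1) (h0 : 0 < A0) (h01 : A0 ≤ A1) :
    vs A1 F d sg n - vs A0 F d sg n ≤ (A1 / A0 - 1) * vs A0 F d sg n := by
  have h1 := vs_mul (n := n) h hd hsg h0.le ((one_le_div h0).2 h01)
  rw [div_mul_cancel₀ _ h0.ne'] at h1
  linarith

/-- A one-sided width is at most the total width. -/
theorem vs_le_vA (h : Dirs F κ K Ds) (hd : d ∈ Ds) (hsg : sg = 1 ∨ sg = -1) (ha : 0 ≤ a) : vs a F d sg n ≤ vA a F d n := by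
  have h1 := h.vr_nonneg hd ha n
  have h2 := h.vl_nonneg hd ha n
  unfold vA
  rcases hsg with rfl | rfl
  · rw [vs_one]
    linarith
  · rw [vs_neg]
    linarith

theorem vs_le_vA' (h : Dirs F κ K Ds) (hd : d ∈ Ds) (hsg : sg = 1 ∨ sg = -1) (ha : 0 < a) {a' : ℝ} (haa : a ≤ a') :
    vs a' F d sg n ≤ a' / a * vA a F d n := by
  have h1 := vs_mul (n := n) h hd hsg ha.le ((one_le_div ha).2 haa)
  rw [div_mul_cancel₀ _ ha.ne'] at h1
  exact h1.trans (mul_le_mul_of_nonneg_left (vs_le_vA h hd hsg ha.le) (div_nonneg (ha.le.trans haa) ha.le))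

/-- **(B2)** The means outside of the edge. -/
theorem ed_out (h : Dirs F κ K Ds) (hd : d ∈ Ds) (hsg : sg = 1 ∨ sg = -1) (h0 : 0 ≤ A0) (h01 : A0 < A1) (hn : 1 ≤ n)
    (hN : n ≤ N0) (hρ : 0 ≤ ρ) (hw : 0 ≤ w) (z : ℤ)
    (hz : ρ * w ≤ sg * (z - (d.v + sg * vs A1 F d sg n) * N0)) :
    (A1 + ρ * (w / (n * (vs A1 F d sg n - vs A0 F d sg n))) * (A1 - A0)) * EE F d n ≤ e F d N0 z := by
  obtain ⟨v1, hv1⟩ : ∃ v1, v1 = vs A1 F d sg n := ⟨_, rfl⟩
  obtain ⟨v0, hv0⟩ : ∃ v0, v0 = vs A0 F d sg n := ⟨_, rfl⟩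
  have hn0 : (0 : ℝ) < n := by exact_mod_cast hn
  have hN1 : 1 ≤ N0 := hn.trans hN
  have hN0 : (0 : ℝ) < N0 := by exact_mod_cast hN1
  have hnN : (n : ℝ) ≤ N0 := by exact_mod_cast hN
  have hom := ed_om_pos (n := n) h hd hsg h0 h01 hn
  rw [← hv1, ← hv0] at hom ⊢
  rw [← hv1] at hz
  have hgap : 0 < v1 - v0 := by
    by_contra hcon
    rw [not_lt] at hcon
    nlinarith
  have hv0n : 0 ≤ v0 := by
    rw [hv0]
    exact vs_nonneg h hd hsg h0
  have hrf := ed_rf h hd hsg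
  have hJ1 : J F d (sg * v1) = A1 * EE F d n / n := by
    rw [hv1]
    exact ed_J' h hd hsg (h0.trans h01.le)
  have hJ0 : J F d (sg * v0) = A0 * EE F d n / n := by
    rw [hv0]
    exact ed_J' h hd hsg h0
  have hE := EE_pos F d n
  have hsg2 : sg * sg = 1 := by rcases hsg with rfl | rfl <;> norm_num
  -- the excess slope
  obtain ⟨x, hx⟩ : ∃ x, x = sg * ((z : ℝ) / N0 - d.v) - v1 := ⟨_, rfl⟩
  have hx1 : ρ * w / N0 ≤ x := by
    rw [div_le_iff₀ hN0, hx]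
    have e1 : (sg * ((z : ℝ) / N0 - d.v) - v1) * N0 = sg * (z - (d.v + sg * v1) * N0) := by
      have e2 : sg * (z - (d.v + sg * v1) * N0) = sg * z - sg * d.v * N0 - (sg * sg) * v1 * N0 := by ring
      rw [e2, hsg2]
      field_simp
    rw [e1]
    exact hz
  have hx0 : 0 ≤ x := le_trans (div_nonneg (mul_nonneg hρ hw) hN0.le) hx1
  have hJx : A1 * EE F d n / n + x / (v1 - v0) * ((A1 - A0) * EE F d n / n) ≤ J F d (sg * (v1 + x)) := by
    -- convexity on v0 < v1 <= v1 + x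
    have hden : 0 < (v1 - v0) + x := by linarith
    have ha1 : 0 ≤ x / ((v1 - v0) + x) := div_nonneg hx0 hden.le
    have ha2 : 0 ≤ (v1 - v0) / ((v1 - v0) + x) := div_nonneg hgap.le hden.le
    have ha3 : x / ((v1 - v0) + x) + (v1 - v0) / ((v1 - v0) + x) = 1 := by
      field_simp
      ring
    have hc := hrf.conv.2 (mem_univ v0) (mem_univ (v1 + x)) ha1 ha2 ha3
    simp only [smul_eq_mul] at hc
    have e3 : x / ((v1 - v0) + x) * v0 + (v1 - v0) / ((v1 - v0) + x) * (v1 + x) = v1 := by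
      field_simp
      ring
    rw [e3, hJ1, hJ0] at hc
    have h5 := mul_le_mul_of_nonneg_right hc hden.le
    have e4 : (x / ((v1 - v0) + x) * (A0 * EE F d n / n) + (v1 - v0) / ((v1 - v0) + x) * J F d (sg * (v1 + x))) *
        ((v1 - v0) + x) = x * (A0 * EE F d n / n) + (v1 - v0) * J F d (sg * (v1 + x)) := by
      field_simp
    rw [e4] at h5
    have h6 : (v1 - v0) * (A1 * EE F d n / n + x / (v1 - v0) * ((A1 - A0) * EE F d n / n)) ≤
        (v1 - v0) * J F d (sg * (v1 + x)) := by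
      have e5 : (v1 - v0) * (A1 * EE F d n / n + x / (v1 - v0) * ((A1 - A0) * EE F d n / n)) =
          (v1 - v0) * (A1 * EE F d n / n) + x * ((A1 - A0) * EE F d n / n) := by
        field_simp
      rw [e5]
      have e6 : x * ((A1 - A0) * EE F d n / n) = x * (A1 * EE F d n / n) - x * (A0 * EE F d n / n) := by ring
      rw [e6]
      nlinarith
    exact le_of_mul_le_mul_left h6 hgap
  have he := e_lower F d hN1 z
  have e7 : (z : ℝ) / N0 - d.v = sg * (v1 + x) := by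
    rw [hx]
    have e8 : sg * (v1 + (sg * ((z : ℝ) / N0 - d.v) - v1)) = (sg * sg) * ((z : ℝ) / N0 - d.v) := by ring
    rw [e8, hsg2, one_mul]
  rw [e7] at he
  refine le_trans ?_ he
  refine le_trans ?_ (mul_le_mul_of_nonneg_left hJx hN0.le)
  have h7 : A1 * EE F d n ≤ N0 * (A1 * EE F d n / n) := by
    rw [mul_div_assoc', le_div_iff₀ hn0]
    have : 0 ≤ A1 * EE F d n := mul_nonneg (h0.trans h01.le) hE.le
    nlinarith
  have h8 : ρ * (w / (n * (v1 - v0))) * (A1 - A0) * EE F d n ≤ N0 * (x / (v1 - v0) * ((A1 - A0) * EE F d n / n)) := by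
    have e9 : ρ * (w / (n * (v1 - v0))) * (A1 - A0) * EE F d n =
        (ρ * w) * ((A1 - A0) * EE F d n / (n * (v1 - v0))) := by
      field_simp
    have e10 : (N0 : ℝ) * (x / (v1 - v0) * ((A1 - A0) * EE F d n / n)) =
        (N0 * x) * ((A1 - A0) * EE F d n / (n * (v1 - v0))) := by
      field_simp
    rw [e9, e10]
    refine mul_le_mul_of_nonneg_right ?_ ?_
    · rw [div_le_iff₀ hN0] at hx1
      linarith
    · exact div_nonneg (mul_nonneg (sub_nonneg.2 h01.le) hE.le) hom.le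
  rw [add_mul, mul_add]
  exact add_le_add h7 h8

/-- **(B2)** in the form of the field `out` of `EdH`. -/
theorem ed_out' (h : Dirs F κ K Ds) (hd : d ∈ Ds) (hsg : sg = 1 ∨ sg = -1) (h0 : 0 ≤ A0) (h01 : A0 < A1) (hn : 1 ≤ n)
    (hN : n ≤ N0) (hρ : 0 ≤ ρ) {c c2 : ℝ} (hc : 0 ≤ c) (hc2 : 0 ≤ c2)
    (hw : c2 * (n * (vs A1 F d sg n - vs A0 F d sg n)) ≤ w) (z : ℤ)
    (hz : ρ * w ≤ sg * (z - (d.v + sg * vs A1 F d sg n) * N0)) :
    c * (A1 - A0) * c2 * ρ ≤ c / EE F d n * e F d N0 z := by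
  have hom := ed_om_pos (n := n) h hd hsg h0 h01 hn
  have hw0 : 0 ≤ w := (mul_nonneg hc2 hom.le).trans hw
  have h1 := ed_out h hd hsg h0 h01 hn hN hρ hw0 z hz
  have hE := EE_pos F d n
  have h2 : c2 ≤ w / (n * (vs A1 F d sg n - vs A0 F d sg n)) := (le_div_iff₀ hom).2 hw
  have h3 : (A1 - A0) * c2 * ρ ≤ A1 + ρ * (w / (n * (vs A1 F d sg n - vs A0 F d sg n))) * (A1 - A0) := by
    have h4 : ρ * c2 ≤ ρ * (w / (n * (vs A1 F d sg n - vs A0 F d sg n))) := mul_le_mul_of_nonneg_left h2 hρ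
    have h5 := mul_le_mul_of_nonneg_right h4 (sub_nonneg.2 h01.le)
    have h6 : 0 ≤ A1 := h0.trans h01.le
    linarith
  calc c * (A1 - A0) * c2 * ρ = c * ((A1 - A0) * c2 * ρ) := by ring
    _ ≤ c * (e F d N0 z / EE F d n) := by
        refine mul_le_mul_of_nonneg_left ?_ hc
        rw [le_div_iff₀ hE]
        exact (mul_le_mul_of_nonneg_right h3 hE.le).trans h1
    _ = _ := by ring

end

end Pool.Agent.W_1b8d5d_p
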