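import Pool.Agent.W_1b8d5d_p.EdWall
import Pool.Agent.W_1b8d5d_p.EdOut30
import Pool.Agent.W_1b8d5d_p.Width99

/-!
Track P (MP_1b8d5d_pr), section 4, proofs row 642, part B: THE EDGE OF THE SCALE `n`. From the one sided widths, the cheap intervals of
the connections, and the tails of the costs, to the edge at one scale (`EdH`), and the corollary (WALL).
-/

namespace Pool.Agent.W_1b8d5d_p7

open MeasureTheory Set Pool.Agent.W_1b8d5d_h85 Pool.Agent.W_1b8d5d_p Pool.Agent.W_1b8d5d_p66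
open scoped ENNReal

noncomputable section

/-- (CHEAP): for every duration `m` the displacements of an interval around the cheapest one are cheap, and the length of the
interval is comparable with `m vA m` (the conclusion of `cheap32`). -/
def ChI (F : Fm) (Ds : Set Dr) (A c0 C' : ℝ) : Prop :=
  ∀ d ∈ Ds, ∀ m : ℕ, 1 ≤ m → ∃ lo hi : ℤ, lo ≤ xs F d m ∧ xs F d m ≤ hi ∧ c0 * (m * vA A F d m) - 1 ≤ (hi : ℝ) - lo ∧
    ∀ y : ℤ, lo ≤ y → y ≤ hi → e F d m y ≤ C' * EE F d m ∧ |(y : ℝ) - d.v * m| ≤ 2 * (m * vA A F d m) + 1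

/-- (TAIL): the exponential moments of the costs of the durations up to `H n`, at the rate `t0 / EE n`. -/
def TlU (F : Fm) (Ds : Set Dr) (H : ℕ) (t0 C1 : ℝ) (n0 : ℕ) : Prop :=
  ∀ d ∈ Ds, ∀ n : ℕ, n0 ≤ n → ∀ N : ℕ, 1 ≤ N → N ≤ H * n → ∀ th : ℝ, 0 < th → th ≤ t0 / EE F d n → ∀ z : ℤ,
    ∫ η, Real.exp (-(th * X F d η 0 N z)) ∂(law F) ≤ C1 * Real.exp (-(th * e F d N z / 2))

/-- Cell width `w`, connection duration `S` and slab length `L'` of an edge of the scale `n`: cells not thinner than `c2` times the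
edge, connections with room, and a width that is flat from `S` to `n`. -/
structure EdG (F : Fm) (d : Dr) (A A0 A1 c0 c2 Cf CS : ℝ) (H : ℕ) (sg : ℝ) (n w S L' : ℕ) : Prop where
  w1 : 1 ≤ w
  S1 : 1 ≤ S
  L1 : 1 ≤ L'
  thick : c2 * (n * (vs A1 F d sg n - vs A0 F d sg n)) ≤ w
  room : 2 * ((w : ℝ) + 2) ≤ c0 * (S * vA A F d n)
  room' : S * vA A F d n ≤ CS * w
  Sn : S ≤ n
  nN : n ≤ S + L' + S
  NH : S + L' + S ≤ H * n
  flat : vA A F d S ≤ Cf * vA A F d n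

variable {F : Fm} {κ K : ℝ} {Ds : Set Dr}

/-- **The edge of the scale `n`.** -/
theorem edge_data (hD : Dirs F κ K Ds) {A A0 A1 : ℝ} (hA : 0 < A) (hA0 : A ≤ A0) (hA1 : A0 < A1) (H : ℕ)
    {c2 Cf CS : ℝ} (hc2 : 0 < c2) (hCf : 0 ≤ Cf) (hCS : 0 ≤ CS) {c0 C' : ℝ}
    (hc0 : 0 < c0) (hch : ChI F Ds A c0 C') {t0 C1 : ℝ} (ht0 : 0 < t0) {n0 : ℕ} (htl : TlU F Ds H t0 C1 n0) :
    ∃ De ks cth ka1 : ℝ, 0 < De ∧ 0 ≤ ks ∧ 0 < cth ∧ 0 < ka1 ∧ ∀ d ∈ Ds, ∀ n : ℕ, n0 ≤ n → 1 ≤ n →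
      ∀ (sg : ℝ) (w S L' : ℕ), sg = 1 ∨ sg = -1 → EdG F d A A0 A1 c0 c2 Cf CS H sg n w S L' →
      ∃ y0 : ℤ, EdH F d sg (cth / EE F d n) (d.v + sg * vs A1 F d sg n) ks De C1 w S L' y0 ∧
        ka1 ≤ cth / EE F d n * (κ * F.co.M) * w ∧ cth / EE F d n * C0 F.co F.b ≤ 1 ∧
        cth / EE F d n * (L' * J F d ((d.v + sg * vs A1 F d sg n) - d.v)) ≤ H * (cth * A1) := by
  rcases Ds.eq_empty_or_nonempty with hDs | ⟨d0, hd0⟩
  · exact ⟨1, 0, 1, 1, one_pos, le_rfl, one_pos, one_pos, fun d hd => by simp [hDs] at hd⟩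
  have hκ := (hD.adm d0 hd0).κ0
  have hb0 := b_pos F
  have hM : (1 : ℝ) ≤ F.co.M := by exact_mod_cast F.co.M_pos
  have hC0 := C0_nonneg F.co hb0.le
  have hCr := Cr_pos F
  have hLJ := LJ_pos F
  have hAA : 0 < A1 - A0 := by linarith
  have hA1' : 0 < A1 := by linarith
  obtain ⟨cth, hcth⟩ : ∃ cth : ℝ, cth = min t0 (min (1 / max C' 1) (Cr F / (C0 F.co F.b + 1))) := ⟨_, rfl⟩
  have hcth0 : 0 < cth := by
    rw [hcth]
    refine lt_min ht0 (lt_min ?_ ?_)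
    · have : (0 : ℝ) < max C' 1 := lt_max_of_lt_right one_pos
      positivity
    · positivity
  have hcth1 : cth ≤ t0 := by rw [hcth]; exact min_le_left _ _
  have hcth2 : cth * C' ≤ 1 := by
    have h1 : cth ≤ 1 / max C' 1 := by rw [hcth]; exact (min_le_right _ _).trans (min_le_left _ _)
    have h2 : (0 : ℝ) < max C' 1 := lt_max_of_lt_right one_pos
    rw [le_div_iff₀ h2] at h1
    exact (mul_le_mul_of_nonneg_left (le_max_left _ _) hcth0.le).trans h1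
  have hcth3 : cth * C0 F.co F.b ≤ Cr F := by
    have h1 : cth ≤ Cr F / (C0 F.co F.b + 1) := by rw [hcth]; exact (min_le_right _ _).trans (min_le_right _ _)
    rw [le_div_iff₀ (by positivity)] at h1
    linarith
  obtain ⟨ks, hks⟩ : ∃ ks : ℝ, ks = 4 * Cf * CS + 3 + 2 * (A1 / A) * CS := ⟨_, rfl⟩
  obtain ⟨ka1, hka1⟩ : ∃ ka1 : ℝ, ka1 = cth * (κ * F.co.M) * (c2 * ((A1 - A0) / LJ F)) := ⟨_, rfl⟩
  refine ⟨cth * (A1 - A0) * c2, ks, cth, ka1, by positivity, by rw [hks]; positivity, hcth0, by rw [hka1]; positivity, ?_⟩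
  intro d hd n hn0 hn sg w S L' hsg G
  have hE := EE_pos F d n
  have hEr := Cr_le_EE F d n
  have hn' : (0 : ℝ) < n := by exact_mod_cast hn
  have hw' : (1 : ℝ) ≤ w := by exact_mod_cast G.w1
  have hS' : (1 : ℝ) ≤ S := by exact_mod_cast G.S1
  have hth : 0 < cth / EE F d n := by positivity
  obtain ⟨lo, hi, hlx, hxh, hlen, hin⟩ := hch d hd S G.S1
  have hvn := hD.vA_le_two hd hA.le G.S1 G.Sn
  have hvS0 : 0 < vA A F d S := hD.vA_pos hd hA G.S1
  have hvn0 : 0 < vA A F d n := hD.vA_pos hd hA hn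
  have hwh : (w : ℝ) + 1 ≤ (hi : ℝ) - lo := by
    have h1 : c0 * (S * vA A F d n) ≤ c0 * (S * (2 * vA A F d S)) := by
      refine mul_le_mul_of_nonneg_left (mul_le_mul_of_nonneg_left hvn (by positivity)) hc0.le
    have h2 := G.room
    linarith
  refine ⟨lo, ⟨hsg, hth, G.w1, G.S1, G.L1, ?_, ?_, ?_, ?_⟩, ?_, ?_, ?_⟩
  · -- con
    intro y hy1 hy2
    have hy3 : y ≤ hi := by
      have h1 : (y : ℝ) ≤ lo + w := by exact_mod_cast hy2
      have h2 : (y : ℝ) ≤ hi := by linarith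
      exact_mod_cast h2
    have h1 := (hin y hy1 hy3).1
    have h2 := EE_mono F d G.Sn
    have h3 := EE_pos F d S
    rw [div_mul_eq_mul_div, div_le_one hE]
    calc cth * e F d S y ≤ cth * (C' * EE F d S) := mul_le_mul_of_nonneg_left h1 hcth0.le
      _ = cth * C' * EE F d S := by ring
      _ ≤ 1 * EE F d S := mul_le_mul_of_nonneg_right hcth2 h3.le
      _ ≤ EE F d n := by rw [one_mul]; exact h2
  · -- shift
    have h1 := (hin lo le_rfl (hlx.trans hxh)).2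
    have h2 : 0 ≤ vs A1 F d sg n := vs_nonneg hD hd hsg hA1'.le
    have h2' : vs A1 F d sg n ≤ vA A1 F d n := vs_le_vA hD hd hsg hA1'.le
    have h3 : vA A1 F d n ≤ A1 / A * vA A F d n := by
      have h4 := hD.vA_level_mul hd hA.le (c := A1 / A) (by rw [one_le_div hA]; linarith) n
      rwa [div_mul_cancel₀ _ hA.ne'] at h4
    have h5 : |sg * vs A1 F d sg n| = vs A1 F d sg n := by
      rcases hsg with h | h
      · rw [h, one_mul]
        rw [h] at h2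
        exact abs_of_nonneg h2
      · rw [h, neg_one_mul, abs_neg]
        rw [h] at h2
        exact abs_of_nonneg h2
    have h6 : 2 * (lo : ℝ) + w - 2 * (d.v + sg * vs A1 F d sg n) * S =
        2 * (lo - d.v * S) + w - 2 * (sg * vs A1 F d sg n) * S := by ring
    rw [h6]
    have h7 : |2 * ((lo : ℝ) - d.v * S) + w - 2 * (sg * vs A1 F d sg n) * S| ≤
        2 * |(lo : ℝ) - d.v * S| + w + 2 * vs A1 F d sg n * S := by
      have e1 : |2 * (sg * vs A1 F d sg n) * S| = 2 * vs A1 F d sg n * S := by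
        rw [abs_mul, abs_mul, h5, abs_of_nonneg (by norm_num : (0 : ℝ) ≤ 2), abs_of_nonneg (by positivity : (0 : ℝ) ≤ (S : ℝ))]
      have e2 : |2 * ((lo : ℝ) - d.v * S)| = 2 * |(lo : ℝ) - d.v * S| := by
        rw [abs_mul, abs_of_nonneg (by norm_num : (0 : ℝ) ≤ 2)]
      calc |2 * ((lo : ℝ) - d.v * S) + w - 2 * (sg * vs A1 F d sg n) * S|
          ≤ |2 * ((lo : ℝ) - d.v * S) + w| + |2 * (sg * vs A1 F d sg n) * S| := abs_sub _ _
        _ ≤ |2 * ((lo : ℝ) - d.v * S)| + |(w : ℝ)| + |2 * (sg * vs A1 F d sg n) * S| := by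
          have := abs_add_le (2 * ((lo : ℝ) - d.v * S)) w
          linarith
        _ = 2 * |(lo : ℝ) - d.v * S| + w + 2 * vs A1 F d sg n * S := by
          rw [e1, e2, abs_of_nonneg (by positivity : (0 : ℝ) ≤ (w : ℝ))]
    have h8 : (S : ℝ) * vA A F d S ≤ Cf * (CS * w) := by
      calc (S : ℝ) * vA A F d S ≤ S * (Cf * vA A F d n) := mul_le_mul_of_nonneg_left G.flat (by positivity)
        _ = Cf * (S * vA A F d n) := by ring
        _ ≤ Cf * (CS * w) := mul_le_mul_of_nonneg_left G.room' hCf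
    have h9 : vs A1 F d sg n * S ≤ A1 / A * (CS * w) := by
      calc vs A1 F d sg n * S ≤ (A1 / A * vA A F d n) * S :=
            mul_le_mul_of_nonneg_right (h2'.trans h3) (by positivity)
        _ = A1 / A * (S * vA A F d n) := by ring
        _ ≤ A1 / A * (CS * w) := mul_le_mul_of_nonneg_left G.room' (by positivity)
    rw [hks]
    nlinarith [h7, h8, h9, h1]
  · -- tail
    intro z
    have h1 := G.S1
    exact htl d hd n hn0 (S + L' + S) (by omega) G.NH _ hth (div_le_div_of_nonneg_right hcth1 hE.le) z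
  · -- out
    intro z ρ hρ hz
    exact ed_out' hD hd hsg (hA.le.trans hA0) hA1 hn G.nN (by linarith) hcth0.le hc2.le G.thick z hz
  · -- ka1
    have h1 : (A1 - A0) * EE F d n ≤ LJ F * (n * (vs A1 F d sg n - vs A0 F d sg n)) :=
      ed_om hD hd hsg (hA.le.trans hA0) hA1.le hn
    have h2 : c2 * ((A1 - A0) / LJ F) * EE F d n ≤ w := by
      refine le_trans ?_ G.thick
      rw [mul_assoc]
      refine mul_le_mul_of_nonneg_left ?_ hc2.le
      rw [div_mul_eq_mul_div, div_le_iff₀ hLJ]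
      linarith
    rw [hka1]
    have h3 : cth / EE F d n * (κ * F.co.M) * w = cth * (κ * F.co.M) * (w / EE F d n) := by ring
    rw [h3]
    refine mul_le_mul_of_nonneg_left ?_ (by positivity)
    rw [le_div_iff₀ hE]
    exact h2
  · -- the constant of the cuts
    rw [div_mul_eq_mul_div, div_le_one hE]
    exact hcth3.trans hEr
  · -- the cost of the slope
    have h1 := ed_J (n := n) hD hd hsg hA1'.le hn
    have e1 : (d.v + sg * vs A1 F d sg n) - d.v = sg * vs A1 F d sg n := by ring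
    rw [e1]
    have h2 : (L' : ℝ) ≤ H * n := by
      have h3 : L' ≤ H * n := by
        have := G.NH
        omega
      exact_mod_cast h3
    have h4 : 0 ≤ J F d (sg * vs A1 F d sg n) := (hD.touch d hd).nn _
    have h5 : (L' : ℝ) * J F d (sg * vs A1 F d sg n) ≤ H * (A1 * EE F d n) := by
      calc (L' : ℝ) * J F d (sg * vs A1 F d sg n) ≤ (H * n) * J F d (sg * vs A1 F d sg n) :=
            mul_le_mul_of_nonneg_right h2 h4
        _ = H * (n * J F d (sg * vs A1 F d sg n)) := by ring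
        _ = H * (A1 * EE F d n) := by rw [h1]
    calc cth / EE F d n * (L' * J F d (sg * vs A1 F d sg n)) ≤ cth / EE F d n * (H * (A1 * EE F d n)) :=
          mul_le_mul_of_nonneg_left h5 hth.le
      _ = H * (cth * A1) := by field_simp

/-- (WALL), exported form, from the edge. `u` is the slope of the outer edge. -/
theorem wall_data (hD : Dirs F κ K Ds) {A A0 A1 : ℝ} (hA : 0 < A) (hA0 : A ≤ A0) (hA1 : A0 < A1) (H : ℕ)
    {c2 Cf CS : ℝ} (hc2 : 0 < c2) (hCf : 0 ≤ Cf) (hCS : 0 ≤ CS) {c0 C' : ℝ}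
    (hc0 : 0 < c0) (hch : ChI F Ds A c0 C') {t0 C1 : ℝ} (ht0 : 0 < t0) (hC1 : 0 ≤ C1) {n0 : ℕ}
    (htl : TlU F Ds H t0 C1 n0) :
    ∃ C c : ℝ, 0 < C ∧ 0 < c ∧ ∀ d ∈ Ds, ∀ n : ℕ, n0 ≤ n → 1 ≤ n →
      ∀ (sg : ℝ) (w S L' : ℕ), sg = 1 ∨ sg = -1 → EdG F d A A0 A1 c0 c2 Cf CS H sg n w S L' →
      ∀ (A' r0 : ℝ) (t : ℤ), (law F).real {η | ∃ x x' : ℤ, sg * (x - r0) ≤ 0 ∧
        sg * ((d.v + sg * vs A1 F d sg n) * L') + A' * w ≤ sg * (x' - r0) ∧
        X F d η (t, x) L' (x' - x) ≤ c * A' * EE F d n} ≤ C * Real.exp (-(c * A')) := by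
  obtain ⟨De, ks, cth, ka1, hDe, hks, hcth, -, hed⟩ := edge_data hD hA hA0 hA1 H hc2 hCf hCS hc0 hch ht0 htl
  obtain ⟨Cw, cw, hCw, hcw, hw⟩ := wall0 hC1 hDe hks
  obtain ⟨c, hc⟩ : ∃ c : ℝ, c = min cw (cw / cth) := ⟨_, rfl⟩
  have hc0' : 0 < c := by rw [hc]; exact lt_min hcw (by positivity)
  have hc1 : c ≤ cw := by rw [hc]; exact min_le_left _ _
  have hc2' : c ≤ cw / cth := by rw [hc]; exact min_le_right _ _
  refine ⟨Cw + 1, c, by positivity, hc0', ?_⟩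
  intro d hd n hn0 hn sg w S L' hsg G A' r0 t
  have hE := EE_pos F d n
  rcases lt_or_ge A' 0 with hA' | hA'
  · refine measureReal_le_one.trans ?_
    have h1 : (1 : ℝ) ≤ Real.exp (-(c * A')) := Real.one_le_exp (by nlinarith)
    nlinarith
  · obtain ⟨y0, hy0, -⟩ := hed d hd n hn0 hn sg w S L' hsg G
    have h1 := hw F κ d sg (cth / EE F d n) _ w S L' y0 (hD.adm d hd) hy0 A' _ r0 t le_rfl
    have h2 : c * A' * EE F d n ≤ cw * A' / (cth / EE F d n) := by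
      have h3 : cw * A' / (cth / EE F d n) = cw / cth * (A' * EE F d n) := by field_simp
      rw [h3, mul_assoc]
      exact mul_le_mul_of_nonneg_right hc2' (by positivity)
    have h3 : {η : Env | ∃ x x' : ℤ, sg * (x - r0) ≤ 0 ∧
        sg * ((d.v + sg * vs A1 F d sg n) * L') + A' * w ≤ sg * (x' - r0) ∧
        X F d η (t, x) L' (x' - x) ≤ c * A' * EE F d n} ⊆ {η : Env | ∃ x x' : ℤ, sg * (x - r0) ≤ 0 ∧
        sg * ((d.v + sg * vs A1 F d sg n) * L') + A' * w ≤ sg * (x' - r0) ∧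
        X F d η (t, x) L' (x' - x) ≤ cw * A' / (cth / EE F d n)} := by
      rintro η ⟨x, x', ha, hb, hc⟩
      exact ⟨x, x', ha, hb, hc.trans h2⟩
    refine (measureReal_mono h3 (measure_ne_top _ _)).trans (h1.trans ?_)
    have h4 : Real.exp (-(cw * A')) ≤ Real.exp (-(c * A')) :=
      Real.exp_le_exp.2 (neg_le_neg (mul_le_mul_of_nonneg_right hc1 hA'))
    have h5 := Real.exp_pos (-(c * A'))
    calc Cw * Real.exp (-(cw * A')) ≤ Cw * Real.exp (-(c * A')) := mul_le_mul_of_nonneg_left h4 hCw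
      _ ≤ (Cw + 1) * Real.exp (-(c * A')) := by nlinarith

/-- The connection duration of a cell width. -/
theorem exists_S7 (hD : Dirs F κ K Ds) {A : ℝ} (hA : 0 < A) {d : Dr} (hd : d ∈ Ds) {c0 : ℝ} (hc0 : 0 < c0) {n w : ℕ}
    (hn : 1 ≤ n) (hw : 1 ≤ w) (hv : vA A F d n ≤ 1) (hwn : 2 * ((w : ℝ) + 2) + c0 * vA A F d n ≤ c0 * (n * vA A F d n)) :
    ∃ S : ℕ, 1 ≤ S ∧ S ≤ n ∧ 2 * ((w : ℝ) + 2) ≤ c0 * (S * vA A F d n) ∧ S * vA A F d n ≤ (6 / c0 + 1) * w := by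
  have hvn0 : 0 < vA A F d n := hD.vA_pos hd hA hn
  have hw' : (1 : ℝ) ≤ w := by exact_mod_cast hw
  obtain ⟨q, hq⟩ : ∃ q : ℝ, q = 2 * ((w : ℝ) + 2) / (c0 * vA A F d n) := ⟨_, rfl⟩
  have hq0 : 0 < q := by rw [hq]; positivity
  have hqe : q * (c0 * vA A F d n) = 2 * ((w : ℝ) + 2) := by
    rw [hq, div_mul_cancel₀]
    positivity
  have h1 := Nat.le_ceil q
  have h2 := Nat.ceil_lt_add_one hq0.le
  refine ⟨⌈q⌉₊, Nat.ceil_pos.2 hq0, ?_, ?_, ?_⟩
  · have h3 : q + 1 ≤ n := by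
      have h4 : (q + 1) * (c0 * vA A F d n) ≤ n * (c0 * vA A F d n) := by
        rw [add_mul, hqe, one_mul]
        linarith
      exact le_of_mul_le_mul_right h4 (by positivity)
    have h4 : (⌈q⌉₊ : ℝ) < n := by linarith
    exact_mod_cast h4.le
  · calc 2 * ((w : ℝ) + 2) = q * (c0 * vA A F d n) := hqe.symm
      _ ≤ ⌈q⌉₊ * (c0 * vA A F d n) := mul_le_mul_of_nonneg_right h1 (by positivity)
      _ = c0 * (⌈q⌉₊ * vA A F d n) := by ring
  · calc (⌈q⌉₊ : ℝ) * vA A F d n ≤ (q + 1) * vA A F d n := mul_le_mul_of_nonneg_right h2.le hvn0.le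
      _ = 2 * ((w : ℝ) + 2) / c0 + vA A F d n := by rw [hq]; field_simp
      _ ≤ 6 * w / c0 + w := by
        refine add_le_add ?_ (hv.trans hw')
        exact div_le_div_of_nonneg_right (by linarith) hc0.le
      _ = (6 / c0 + 1) * w := by ring

end

end Pool.Agent.W_1b8d5d_p7
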