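import Pool.Agent.W_1b8d5d_p.FrPair

/-!
MP_1b8d5d_pr, Track P, frame (proofs row 631, section 6): the restart. Definitions and the pointwise bound.
-/

namespace Pool.Agent.W_1b8d5d_p

open MeasureTheory Set
open Pool.Agent.W_1b8d5d_h85 (V nm dir Edge Env grid)

noncomputable section

/-- The pairs in the rows `[0, k]` which start in the box `[o, o + W)`. -/
def InB (d : Dr) (o W : ℝ) (k : ℕ) : Set (Pt × Pt) :=
  {w | 0 ≤ w.1.1 ∧ w.1.1 ≤ w.2.1 ∧ w.2.1 ≤ k ∧ (w.1.1 = w.2.1 → w.1 = w.2) ∧ o ≤ lat d w.1 ∧ lat d w.1 < o + W}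

/-- The largest tilted luck of the pairs in the rows `[0, k]` which start in the box `[o, o + W)`. -/
def TL (F : Fm) (d : Dr) (t o W : ℝ) (k : ℕ) (η : Env) : ℝ :=
  ⨆ w : InB d o W k, (t * |lat d w.1.2 - lat d w.1.1| - XP F d η w.1.1 w.1.2)

/-- A tilted luck of at least `Y` ends at the block time `m`. -/
def Hit (F : Fm) (d : Dr) (t Y o W : ℝ) (m : ℕ) : Set Env :=
  {η | ∃ u : Pt, ∃ y : ℤ, (0 ≤ u.1 ∧ u.1 < m ∧ o ≤ lat d u ∧ lat d u < o + W) ∧
    Y ≤ t * |lat d ((m : ℤ), y) - lat d u| - XP F d η u ((m : ℤ), y)}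

/-- The first hit is at the block time `m`. -/
def Fst (F : Fm) (d : Dr) (t Y o W : ℝ) (m : ℕ) : Set Env :=
  {η | η ∈ Hit F d t Y o W m ∧ ∀ m' < m, η ∉ Hit F d t Y o W m'}

/-- The weight of the cell `j`. -/
def wj (a : ℝ) (j : ℤ) : ℝ := Real.exp (-a * max (|(j : ℝ)| - 1) 0)

variable {F : Fm} {d : Dr} {K C0 C1 t s t0 Y o W : ℝ} {k m n : ℕ} {η : Env}

theorem wj_nonneg (a : ℝ) (j : ℤ) : 0 ≤ wj a j := (Real.exp_pos _).le

/-- The a priori bound. -/
theorem tilt_le (h : Sl F d K C0 C1) (ht : t ≤ K) (η : Env) {P Q : Pt} (h1 : P.1 ≤ Q.1)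
    (h2 : P.1 = Q.1 → P = Q) :
    t * |lat d Q - lat d P| - XP F d η P Q ≤ (C1 + K * |d.v|) * ((Q.1 : ℝ) - P.1) := by
  rcases h1.lt_or_eq with h3 | h3
  · have h4 := h.XP_low η h3
    have h5 := mul_le_mul_of_nonneg_right ht (abs_nonneg (lat d Q - lat d P))
    linarith
  · rw [h2 h3, h.XP_self]
    simp

theorem bnd_nonneg (h : Sl F d K C0 C1) : 0 ≤ C1 + K * |d.v| :=
  add_nonneg h.C10 (mul_nonneg h.k0.le (abs_nonneg _))

theorem InB_le (h : Sl F d K C0 C1) (ht : t ≤ K) (η : Env) {w : Pt × Pt} (hw : w ∈ InB d o W k) :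
    t * |lat d w.2 - lat d w.1| - XP F d η w.1 w.2 ≤ (C1 + K * |d.v|) * k := by
  obtain ⟨h1, h2, h3, h4, -, -⟩ := hw
  refine (tilt_le h ht η h2 h4).trans (mul_le_mul_of_nonneg_left ?_ (bnd_nonneg h))
  have h5 : (0 : ℝ) ≤ w.1.1 := by exact_mod_cast h1
  have h6 : (w.2.1 : ℝ) ≤ k := by exact_mod_cast h3
  linarith

theorem TL_bdd (h : Sl F d K C0 C1) (ht : t ≤ K) (η : Env) :
    BddAbove (Set.range fun w : InB d o W k => (t * |lat d w.1.2 - lat d w.1.1| - XP F d η w.1.1 w.1.2)) := by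
  refine ⟨(C1 + K * |d.v|) * k, ?_⟩
  rintro r ⟨w, rfl⟩
  exact InB_le h ht η w.2

theorem le_TL (h : Sl F d K C0 C1) (ht : t ≤ K) (η : Env) {P Q : Pt} (hw : (P, Q) ∈ InB d o W k) :
    t * |lat d Q - lat d P| - XP F d η P Q ≤ TL F d t o W k η :=
  le_ciSup (TL_bdd h ht η) (⟨(P, Q), hw⟩ : InB d o W k)

theorem TL_le {R : ℝ} (hR : 0 ≤ R)
    (h : ∀ P Q : Pt, (P, Q) ∈ InB d o W k → t * |lat d Q - lat d P| - XP F d η P Q ≤ R) :
    TL F d t o W k η ≤ R := by
  unfold TL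
  rcases isEmpty_or_nonempty (InB d o W k) with h0 | h0
  · rw [Real.iSup_of_isEmpty]
    exact hR
  · exact ciSup_le fun w => h w.1.1 w.1.2 w.2

theorem TL_nonneg (h : Sl F d K C0 C1) (ht : t ≤ K) (η : Env) : 0 ≤ TL F d t o W k η := by
  rcases isEmpty_or_nonempty (InB d o W k) with h0 | ⟨⟨⟨P, Q⟩, h1, h2, h3, h4, h5, h6⟩⟩
  · unfold TL
    rw [Real.iSup_of_isEmpty]
  · have h7 := le_TL h ht η (show (P, P) ∈ InB d o W k from ⟨h1, le_rfl, h2.trans h3, fun _ => rfl, h5, h6⟩)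
    rw [h.XP_self] at h7
    simpa using h7

theorem TL_le_bnd (h : Sl F d K C0 C1) (ht : t ≤ K) (η : Env) :
    TL F d t o W k η ≤ (C1 + K * |d.v|) * k :=
  TL_le (mul_nonneg (bnd_nonneg h) (Nat.cast_nonneg _)) fun _ _ hw => InB_le h ht η hw

theorem TL_meas (h : Sl F d K C0 C1) : Measurable (TL F d t o W k) := by
  unfold TL
  exact Measurable.iSup fun w => measurable_const.sub (h.XP_meas _ _)

/-- A tilted luck behind the block time `m`, seen from there. -/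
theorem TL_shp (h : Sl F d K C0 C1) (m k : ℕ) (η : Env) :
    TL F d t o W k (F.shp ((m : ℤ), 0) η) =
      ⨆ w : InB d o W k, (t * |lat d w.1.2 - lat d w.1.1| -
        XP F d η (w.1.1 + ((m : ℤ), 0)) (w.1.2 + ((m : ℤ), 0))) := by
  unfold TL
  refine iSup_congr fun w => ?_
  rw [h.XP_shift]

theorem TLs_dep (h : Sl F d K C0 C1) (m k : ℕ) :
    DependsOn (fun η => TL F d t o W k (F.shp ((m : ℤ), 0) η)) (F.co.rows m (m + k)) := by
  intro η η' hh
  simp only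
  rw [TL_shp h, TL_shp h]
  refine iSup_congr fun w => ?_
  congr 1
  obtain ⟨h1, h2, h3, h4, -, -⟩ := w.2
  refine h.XP_dep (P := w.1.1 + ((m : ℤ), 0)) (Q := w.1.2 + ((m : ℤ), 0)) ?_ ?_
  · simp only [Prod.fst_add]
    linarith
  · intro e he
    refine hh e (rows_mono F.co ?_ ?_ he)
    · simp only [Prod.fst_add]
      linarith
    · simp only [Prod.fst_add]
      linarith

theorem Hit_meas (h : Sl F d K C0 C1) (m : ℕ) : MeasurableSet (Hit F d t Y o W m) := by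
  have h1 : Hit F d t Y o W m = ⋃ u : Pt, ⋃ y : ℤ,
      ({η | (0 ≤ u.1 ∧ u.1 < m ∧ o ≤ lat d u ∧ lat d u < o + W)} ∩
        {η | Y ≤ t * |lat d ((m : ℤ), y) - lat d u| - XP F d η u ((m : ℤ), y)}) := by
    ext η
    simp only [Hit, Set.mem_ofPred_eq, Set.mem_iUnion, Set.mem_inter_iff]
  rw [h1]
  exact MeasurableSet.iUnion fun u => MeasurableSet.iUnion fun y => (MeasurableSet.const _).inter
    (measurableSet_le measurable_const (measurable_const.sub (h.XP_meas _ _)))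

theorem Hit_dep (h : Sl F d K C0 C1) (m : ℕ) {η η' : Env} (hh : ∀ e ∈ F.co.rows 0 m, η e = η' e) :
    η ∈ Hit F d t Y o W m ↔ η' ∈ Hit F d t Y o W m := by
  simp only [Hit, Set.mem_ofPred_eq]
  refine exists_congr fun u => exists_congr fun y => and_congr_right fun hu => ?_
  have h1 : XP F d η u ((m : ℤ), y) = XP F d η' u ((m : ℤ), y) :=
    h.XP_dep (P := u) (Q := ((m : ℤ), y)) hu.2.1.le fun e he => hh e (rows_mono F.co hu.1 le_rfl he)
  rw [h1]

theorem Fst_meas (h : Sl F d K C0 C1) (m : ℕ) : MeasurableSet (Fst F d t Y o W m) := by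
  have h1 : Fst F d t Y o W m = Hit F d t Y o W m ∩ ⋂ m' ∈ Set.Iio m, (Hit F d t Y o W m')ᶜ := by
    ext η
    simp only [Fst, Set.mem_ofPred_eq, Set.mem_inter_iff, Set.mem_iInter, Set.mem_Iio, Set.mem_compl_iff]
  rw [h1]
  exact (Hit_meas h m).inter (MeasurableSet.biInter (Set.to_countable _) fun m' _ => (Hit_meas h m').compl)

theorem Fst_dep (h : Sl F d K C0 C1) (m : ℕ) :
    DependsOn ((Fst F d t Y o W m).indicator fun _ => (1 : ℝ)) (F.co.rows 0 m) := by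
  intro η η' hh
  have h1 : η ∈ Fst F d t Y o W m ↔ η' ∈ Fst F d t Y o W m := by
    simp only [Fst, Set.mem_ofPred_eq]
    refine and_congr (Hit_dep h m hh) (forall_congr' fun m' => forall_congr' fun hm' => not_congr ?_)
    exact Hit_dep h m' fun e he => hh e (rows_mono F.co le_rfl (by exact_mod_cast hm'.le) he)
  by_cases h2 : η ∈ Fst F d t Y o W m
  · rw [Set.indicator_of_mem h2, Set.indicator_of_mem (h1.1 h2)]
  · rw [Set.indicator_of_notMem h2, Set.indicator_of_notMem fun h3 => h2 (h1.2 h3)]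

theorem Fst_disj {m m' : ℕ} (h : m ≠ m') : Disjoint (Fst F d t Y o W m) (Fst F d t Y o W m') := by
  rw [Set.disjoint_left]
  intro η h1 h2
  rcases lt_or_gt_of_ne h with h3 | h3
  · exact h2.2 m h3 h1.1
  · exact h1.2 m' h3 h2.1

theorem Fst_of_Hit (h : η ∈ Hit F d t Y o W m) : ∃ m' ≤ m, η ∈ Fst F d t Y o W m' := by
  classical
  have h0 : ∃ m', η ∈ Hit F d t Y o W m' := ⟨m, h⟩
  exact ⟨Nat.find h0, Nat.find_min' h0 h, Nat.find_spec h0, fun m' hm' => Nat.find_min h0 hm'⟩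

/-- A pair which does not end at or behind a hit. -/
theorem tilt_lt (hs : s ≤ t0) (h : Sl F d K C0 C1) (hY : 0 ≤ Y) {P Q : Pt} (h0 : 0 ≤ P.1) (h1 : P.1 ≤ Q.1)
    (h2 : P.1 = Q.1 → P = Q) (h3 : o ≤ lat d P) (h4 : lat d P < o + W)
    (h5 : η ∉ Hit F d t0 Y o W Q.1.toNat) : s * |lat d Q - lat d P| - XP F d η P Q ≤ Y := by
  rcases h1.lt_or_eq with h6 | h6
  · by_contra hcon
    rw [not_le] at hcon
    refine h5 ⟨P, Q.2, ⟨h0, by omega, h3, h4⟩, ?_⟩
    have h7 : (((Q.1.toNat : ℕ) : ℤ), Q.2) = Q := by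
      ext
      · simp only
        omega
      · rfl
    rw [h7]
    have h8 := mul_le_mul_of_nonneg_right hs (abs_nonneg (lat d Q - lat d P))
    linarith
  · rw [h2 h6, h.XP_self]
    simpa using hY

/-- The overshoot at the first hit is bounded. -/
theorem overshoot (h : Sl F d K C0 C1) (ht : 0 ≤ t0) (htK : t0 ≤ K) (hY : 0 ≤ Y) (hf : η ∈ Fst F d t0 Y o W m) {P : Pt}
    (h0 : 0 ≤ P.1) (h1 : P.1 < m) (h3 : o ≤ lat d P) (h4 : lat d P < o + W) (y : ℤ) :
    t0 * |lat d ((m : ℤ), y) - lat d P| - XP F d η P ((m : ℤ), y) ≤ Y + (C0 + C1 + K * |d.v|) := by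
  have hb := bnd_nonneg h
  have hC0 := h.C00
  rcases (show P.1 ≤ m - 1 by omega).lt_or_eq with h5 | h5
  · obtain ⟨c, c', hc⟩ := h.XP_cut η (P := P) (Q := ((m : ℤ), y)) h5 (show (m : ℤ) - 1 < m by omega)
    have h6 : t0 * |lat d ((m : ℤ) - 1, c) - lat d P| - XP F d η P ((m : ℤ) - 1, c) ≤ Y := by
      refine tilt_lt le_rfl h hY h0 h5.le (fun h' => absurd h' h5.ne) h3 h4 ?_
      refine hf.2 _ ?_
      simp only
      omega
    have h7 := tilt_le h htK η (P := ((m : ℤ) - 1, c')) (Q := ((m : ℤ), y)) (by simp only; omega)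
      (fun h' => by simp only at h'; omega)
    simp only at h7
    push_cast at h7
    have h8 : |lat d ((m : ℤ), y) - lat d P| ≤ |lat d ((m : ℤ), y) - lat d ((m : ℤ) - 1, c')| +
        |(c : ℝ) - c'| + |lat d ((m : ℤ) - 1, c) - lat d P| := by
      have e1 : lat d ((m : ℤ) - 1, c') - lat d ((m : ℤ) - 1, c) = (c' : ℝ) - c := by
        unfold lat
        ring
      have e2 : lat d ((m : ℤ), y) - lat d P = (lat d ((m : ℤ), y) - lat d ((m : ℤ) - 1, c')) +
          (lat d ((m : ℤ) - 1, c') - lat d ((m : ℤ) - 1, c)) + (lat d ((m : ℤ) - 1, c) - lat d P) := by ring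
      rw [e2, e1, abs_sub_comm (c : ℝ) c']
      exact (abs_add_le _ _).trans (add_le_add (abs_add_le _ _) le_rfl)
    have h9 := mul_le_mul_of_nonneg_left h8 ht
    have h10 := mul_le_mul_of_nonneg_right htK (abs_nonneg ((c : ℝ) - c'))
    nlinarith [h9, h10, h7, h6, hc]
  · have h7 := tilt_le h htK η (P := P) (Q := ((m : ℤ), y)) (by simp only; omega)
      (fun h' => by simp only at h'; omega)
    simp only at h7
    rw [h5] at h7
    push_cast at h7
    linarith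

end

end Pool.Agent.W_1b8d5d_p
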