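import Pool.Agent.W_1b8d5d_h4p.NSz
import Pool.Agent.W_1b8d5d_p.FrResA

/-!
Track P (MP_1b8d5d_pr), section 4, proofs row 642: THE FIELD `tail` of the edge data: the exponential moment of one cost is at
most a constant times the exponential of half its mean, from the exponential lower tail (`le_law0`) and the exponential moments
of the luck of the starting point (L0). (helper33)
-/

namespace Pool.Agent.W_1b8d5d_h33p

open MeasureTheory Set
open Pool.Agent.W_1b8d5d_h85 (V nm dir Env Edge grid wedges cost Bd sh)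
open Pool.Agent.W_1b8d5d_p Pool.Agent.W_1b8d5d_h4p
open Pool.Agent.W_1b8d5d_z (BM)

noncomputable section

variable {F : Fm} {c0 C0 κ : ℝ} {d : Dr}

theorem VV_exp_bm (hd : Adm F κ d) {N : ℕ} (hN : 1 ≤ N) (t : ℝ) :
    Integrable (fun η => Real.exp (t * VV F d η 0 N)) (law F) := by
  obtain ⟨hm, K, hK⟩ := bm_VV hd (0 : Pt) hN
  refine (integrable_const (Real.exp (|t| * K))).mono' (Real.measurable_exp.comp (hm.const_mul t)).aestronglyMeasurable
    (Filter.Eventually.of_forall fun η => ?_)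
  rw [Real.norm_eq_abs, abs_of_pos (Real.exp_pos _)]
  refine Real.exp_le_exp.2 ?_
  calc t * VV F d η 0 N ≤ |t * VV F d η 0 N| := le_abs_self _
    _ = |t| * |VV F d η 0 N| := abs_mul _ _
    _ ≤ |t| * K := mul_le_mul_of_nonneg_left (hK η) (abs_nonneg _)

theorem X_exp_bm (hd : Adm F κ d) {N : ℕ} (hN : 1 ≤ N) (t : ℝ) (z : ℤ) :
    Integrable (fun η => Real.exp (-(t * X F d η 0 N z))) (law F) := by
  obtain ⟨hm, K, hK⟩ := bm_X hd (0 : Pt) hN z
  refine (integrable_const (Real.exp (|t| * K))).mono' (Real.measurable_exp.comp (hm.const_mul t).neg).aestronglyMeasurable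
    (Filter.Eventually.of_forall fun η => ?_)
  rw [Real.norm_eq_abs, abs_of_pos (Real.exp_pos _)]
  refine Real.exp_le_exp.2 ?_
  calc -(t * X F d η 0 N z) ≤ |t * X F d η 0 N z| := neg_le_abs _
    _ = |t| * |X F d η 0 N z| := abs_mul _ _
    _ ≤ |t| * K := mul_le_mul_of_nonneg_left (hK η) (abs_nonneg _)

/-- THE TAIL OF ONE COST, one direction and one duration. -/
theorem tail_one (hL : LawH F c0 C0) : ∃ k t₀ : ℝ, 0 < k ∧ k ≤ 1 ∧ 0 < t₀ ∧ ∀ (κ : ℝ) (d : Dr), Adm F κ d →
    ∀ (N : ℕ), 1 ≤ N → ∀ t1 C : ℝ, 0 < t1 → t1 ≤ t₀ → 1 ≤ C → ∫ η, Real.exp (t1 * VV F d η 0 N) ∂(law F) ≤ C →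
    ∀ t : ℝ, 0 < t → t ≤ k * t1 → ∀ z : ℤ, ∫ η, Real.exp (-(t * X F d η 0 N z)) ∂(law F) ≤
      C * Real.exp (-(t * e F d N z / 2)) := by
  obtain ⟨k, t₀, hk, hk1, ht₀, h⟩ := le_law0 hL
  refine ⟨k, t₀, hk, hk1, ht₀, fun κ d hd N hN t1 C ht1 ht1' hC hV t ht htk z => ?_⟩
  have hC0 : 0 < C := by linarith
  have hc1 : 0 ≤ Real.log C := Real.log_nonneg hC
  have hfz := (lk_X hd hN z).fz0 hd.κ0.le
  have h1 := h _ _ hfz t1 (Real.log C) ht1 ht1' hc1 ?_ t ht htk
  · rw [int_negX, Real.exp_log hC0] at h1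
    have e1 : (fun η => Real.exp (t * (fun τ : Env => -(TT F.co τ 0 N z - (al F.co d * N + be F.co d * z))) (F.tau η))) =
        fun η => Real.exp (-(t * X F d η 0 N z)) := by
      funext η
      unfold X
      ring_nf
    rw [e1] at h1
    refine h1.trans_eq ?_
    congr 2
    ring
  · rw [Real.exp_log hC0]
    refine le_trans (integral_mono ?_ (VV_exp_bm hd hN t1) fun η => ?_) hV
    · have e1 : (fun η => Real.exp (t1 * (fun τ : Env => -(TT F.co τ 0 N z - (al F.co d * N + be F.co d * z))) (F.tau η))) =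
          fun η => Real.exp (-(t1 * X F d η 0 N z)) := by
        funext η
        unfold X
        ring_nf
      rw [e1]
      exact X_exp_bm hd hN t1 z
    · refine Real.exp_le_exp.2 (mul_le_mul_of_nonneg_left ?_ ht1.le)
      exact neg_X_le_VV hd η 0 hN z

/-- **THE FIELD `tail`** for a family of directions: from the exponential moments (L0) of the luck of the starting point at the
order `c / EE n` one gets, for every order `th / EE n` with `th ≤ cth`, the bound `C1 exp (-(th e / (2 EE n)))`. -/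
theorem ed_tail (hL : LawH F c0 C0) {A : Set Dr} (hadm : ∀ d ∈ A, Adm F κ d) {c C : ℝ} (hc : 0 < c) {n0 H : ℕ}
    (h0 : ∀ d ∈ A, ∀ n, n0 ≤ n → ∀ N, 1 ≤ N → N ≤ H * n →
      ∫ η, Real.exp (c / EE F d n * VV F d η 0 N) ∂(law F) ≤ C) :
    ∃ cth K : ℝ, 0 < cth ∧ 1 ≤ K ∧ ∀ th : ℝ, 0 < th → th ≤ cth → ∀ d ∈ A, ∀ n, n0 ≤ n → ∀ N, 1 ≤ N → N ≤ H * n →
      ∀ z : ℤ, ∫ η, Real.exp (-(th / EE F d n * X F d η 0 N z)) ∂(law F) ≤
        K * Real.exp (-(th / EE F d n * e F d N z / 2)) := by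
  obtain ⟨k, t₀, hk, hk1, ht₀, h⟩ := tail_one hL
  have hCr := Cr_pos F
  obtain ⟨c', hc'⟩ : ∃ c' : ℝ, c' = min c (t₀ * Cr F) := ⟨_, rfl⟩
  have hc'0 : 0 < c' := by
    rw [hc']
    exact lt_min hc (mul_pos ht₀ hCr)
  refine ⟨k * c', 1 + max C 0, mul_pos hk hc'0, by linarith [le_max_right C 0], fun th hth hth' d hdA n hn N hN hNH z => ?_⟩
  have hd := hadm d hdA
  have hE := EE_pos F d n
  have hCE := Cr_le_EE F d n
  refine h κ d hd N hN (c' / EE F d n) _ (div_pos hc'0 hE) ?_ (by linarith [le_max_right C 0]) ?_ (th / EE F d n)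
    (div_pos hth hE) ?_ z
  · rw [div_le_iff₀ hE]
    calc c' ≤ t₀ * Cr F := by
          rw [hc']
          exact min_le_right _ _
      _ ≤ t₀ * EE F d n := mul_le_mul_of_nonneg_left hCE ht₀.le
  · have h1 : ∀ η, Real.exp (c' / EE F d n * VV F d η 0 N) ≤ 1 + Real.exp (c / EE F d n * VV F d η 0 N) := by
      intro η
      rcases le_or_gt (VV F d η 0 N) 0 with hv | hv
      · have h2 : Real.exp (c' / EE F d n * VV F d η 0 N) ≤ 1 := by
          refine Real.exp_le_one_iff.2 ?_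
          exact mul_nonpos_of_nonneg_of_nonpos (div_pos hc'0 hE).le hv
        linarith [Real.exp_pos (c / EE F d n * VV F d η 0 N)]
      · have h2 : Real.exp (c' / EE F d n * VV F d η 0 N) ≤ Real.exp (c / EE F d n * VV F d η 0 N) := by
          refine Real.exp_le_exp.2 (mul_le_mul_of_nonneg_right ?_ hv.le)
          refine div_le_div_of_nonneg_right ?_ hE.le
          rw [hc']
          exact min_le_left _ _
        linarith
    calc ∫ η, Real.exp (c' / EE F d n * VV F d η 0 N) ∂(law F)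
        ≤ ∫ η, (1 + Real.exp (c / EE F d n * VV F d η 0 N)) ∂(law F) :=
          integral_mono (VV_exp_bm hd hN _) ((integrable_const _).add (VV_exp_bm hd hN _)) h1
      _ = 1 + ∫ η, Real.exp (c / EE F d n * VV F d η 0 N) ∂(law F) := by
          rw [integral_add (integrable_const _) (VV_exp_bm hd hN _), integral_const, probReal_univ, one_smul]
      _ ≤ 1 + max C 0 := by
          have := (h0 d hdA n hn N hN hNH).trans (le_max_left C 0)
          linarith
  · rw [← mul_div_assoc]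
    exact div_le_div_of_nonneg_right hth' hE.le

/-- The luck of the starting point is at most the tilted luck of a box which contains it. -/
theorem VV_le_TL (hd : Adm F κ d) {K Ca Cb : ℝ} (h : Sl F d K Ca Cb) {t o W : ℝ} (ht0 : 0 ≤ t) (ht : t ≤ K) (ho : o ≤ 0)
    (ho' : 0 < o + W) {N : ℕ} (hN : 1 ≤ N) (η : Env) : VV F d η 0 N ≤ TL F d t o W N η := by
  obtain ⟨y, h1, -⟩ := VV_attained hd η (0 : Pt) hN
  rw [h1]
  have h2 : ((0 : Pt), (((N : ℤ), y) : Pt)) ∈ InB d o W N := by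
    refine ⟨le_rfl, ?_, le_rfl, ?_, ?_, ?_⟩
    · show (0 : ℤ) ≤ N
      omega
    · intro h3
      have h4 : (0 : ℤ) = N := h3
      omega
    · have : lat d (0 : Pt) = 0 := by simp [lat]
      rw [this]
      exact ho
    · have : lat d (0 : Pt) = 0 := by simp [lat]
      rw [this]
      exact ho'
  have h3 := le_TL h ht η h2
  have h4 : XP F d η 0 ((N : ℤ), y) = X F d η 0 N y := by
    unfold XP
    simp
  rw [h4] at h3
  have h5 : 0 ≤ t * |lat d ((N : ℤ), y) - lat d 0| := mul_nonneg ht0 (abs_nonneg _)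
  linarith

end

end Pool.Agent.W_1b8d5d_h33p
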