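import Pool.Agent.W_1b8d5d_p.EdL07

/-!
Track P (MP_1b8d5d_pr), section 4: the edge of a scale and (WALL) for a family of directions, from the law, the family, the rate and
the growth of the units, and (CHEAP).
-/

namespace Pool.Agent.W_1b8d5d_p7

open MeasureTheory Set Pool.Agent.W_1b8d5d_h85 Pool.Agent.W_1b8d5d_p Pool.Agent.W_1b8d5d_h4p

noncomputable section

variable {F : Fm} {κ K c0' C0' : ℝ} {Ds : Set Dr}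

/-- **THE EDGE OF THE SCALE `n`** for a family of directions. -/
theorem edge_all (hL : LawH F c0' C0') (hD : Dirs F κ K Ds) (hR : Rate F Ds) (hG : Grow F Ds) {A A0 A1 : ℝ} (hA : 0 < A)
    (hA0 : A ≤ A0) (hA1 : A0 < A1) {H : ℕ} (hH : 1 ≤ H) {c2 Cf CS c0 C' : ℝ} (hc2 : 0 < c2) (hCf : 0 ≤ Cf) (hCS : 0 ≤ CS)
    (hc0 : 0 < c0) (hch : CheapI A F Ds c0 C') :
    ∃ (C1 De ks cth ka1 : ℝ) (n0 : ℕ), 1 ≤ C1 ∧ 0 < De ∧ 0 ≤ ks ∧ 0 < cth ∧ 0 < ka1 ∧ 1 ≤ n0 ∧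
      ∀ d ∈ Ds, ∀ n : ℕ, n0 ≤ n → ∀ (sg : ℝ) (w S L' : ℕ), sg = 1 ∨ sg = -1 → EdG F d A A0 A1 c0 c2 Cf CS H sg n w S L' →
      ∃ y0 : ℤ, EdH F d sg (cth / EE F d n) (d.v + sg * vs A1 F d sg n) ks De C1 w S L' y0 ∧
        ka1 ≤ cth / EE F d n * (κ * F.co.M) * w ∧ cth / EE F d n * C0 F.co F.b ≤ 1 ∧
        cth / EE F d n * (L' * J F d ((d.v + sg * vs A1 F d sg n) - d.v)) ≤ H * (cth * A1) := by
  obtain ⟨t0, C1, n0, ht0, hC1, hn0, htl⟩ := tlU_all hL hD hR hG hH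
  obtain ⟨De, ks, cth, ka1, hDe, hks, hcth, hka1, h⟩ := edge_data hD hA hA0 hA1 H hc2 hCf hCS hc0 (chI_of hch) ht0 htl
  exact ⟨C1, De, ks, cth, ka1, n0, hC1, hDe, hks, hcth, hka1, hn0,
    fun d hd n hn sg w S L' hsg hG' => h d hd n hn (hn0.trans hn) sg w S L' hsg hG'⟩

/-- **(WALL)** for a family of directions. -/
theorem wall_all (hL : LawH F c0' C0') (hD : Dirs F κ K Ds) (hR : Rate F Ds) (hG : Grow F Ds) {A A0 A1 : ℝ} (hA : 0 < A)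
    (hA0 : A ≤ A0) (hA1 : A0 < A1) {H : ℕ} (hH : 1 ≤ H) {c2 Cf CS c0 C' : ℝ} (hc2 : 0 < c2) (hCf : 0 ≤ Cf) (hCS : 0 ≤ CS)
    (hc0 : 0 < c0) (hch : CheapI A F Ds c0 C') :
    ∃ (C c : ℝ) (n0 : ℕ), 0 < C ∧ 0 < c ∧ 1 ≤ n0 ∧ ∀ d ∈ Ds, ∀ n : ℕ, n0 ≤ n →
      ∀ (sg : ℝ) (w S L' : ℕ), sg = 1 ∨ sg = -1 → EdG F d A A0 A1 c0 c2 Cf CS H sg n w S L' →
      ∀ (A' r0 : ℝ) (t : ℤ), (law F).real {η | ∃ x x' : ℤ, sg * (x - r0) ≤ 0 ∧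
        sg * ((d.v + sg * vs A1 F d sg n) * L') + A' * w ≤ sg * (x' - r0) ∧
        X F d η (t, x) L' (x' - x) ≤ c * A' * EE F d n} ≤ C * Real.exp (-(c * A')) := by
  obtain ⟨t0, C1, n0, ht0, hC1, hn0, htl⟩ := tlU_all hL hD hR hG hH
  obtain ⟨C, c, hC, hc, h⟩ := wall_data hD hA hA0 hA1 H hc2 hCf hCS hc0 (chI_of hch) ht0 (zero_le_one.trans hC1) htl
  exact ⟨C, c, n0, hC, hc, hn0, fun d hd n hn sg w S L' hsg hG' => h d hd n hn (hn0.trans hn) sg w S L' hsg hG'⟩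

end

end Pool.Agent.W_1b8d5d_p7
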