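import Pool.Agent.W_1b8d5d_p.UnitT
import Pool.Agent.W_1b8d5d_p.Width99

/-!
MP_1b8d5d_pr, Track P. (CHEAP): the cheap interval of every duration `m` has a length comparable with the width `w_m = vA m * m`.
Input: the cone at the scale `n` in terms of the length `W` of the cheap interval of the duration `D1 n`.
-/

namespace Pool.Agent.W_1b8d5d_p

open MeasureTheory Set

noncomputable section

variable {F : Fm} {κ K : ℝ} {A : Set Dr} {d : Dr}

/-- The cone of the frame: at every scale `n`, with `W` at most the length of a cheap interval of the duration `D1 n`. -/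
def ConeW (F : Fm) (A : Set Dr) : Prop :=
  ∃ (c C Af : ℝ) (D1 D2 n0 : ℕ), 0 < c ∧ 0 ≤ C ∧ 1 ≤ Af ∧ 1 ≤ D1 ∧ 1 ≤ D2 ∧ ∀ d ∈ A, ∀ n : ℕ, n0 ≤ n →
    ∃ (ρ W : ℝ) (lo hi : ℤ), 0 < W ∧ W ≤ (hi : ℝ) - lo ∧ e F d (D1 * n) lo ≤ Af * EE F d (D2 * n) ∧
      e F d (D1 * n) hi ≤ Af * EE F d (D2 * n) ∧
      ∀ x : ℝ, c * (EE F d n / W) * (n * |x - ρ|) - C * EE F d n ≤ n * J F d x

/-- **(CHEAP)** at the level `a` of the widths. -/
def Cheap (a : ℝ) (F : Fm) (A : Set Dr) : Prop :=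
  ∃ (c0 C : ℝ) (n0 : ℕ), 0 < c0 ∧ c0 ≤ 1 ∧ 1 ≤ C ∧ 1 ≤ n0 ∧ ∀ d ∈ A, ∀ m : ℕ, n0 ≤ m → ∃ lo hi : ℤ,
    lo ≤ xs F d m ∧ xs F d m ≤ hi ∧ c0 * (vA a F d m * m) - 1 ≤ (hi : ℝ) - lo ∧
      ∀ y : ℤ, lo ≤ y → y ≤ hi → e F d m y ≤ C * EE F d m ∧ |(y : ℝ) - d.v * m| ≤ 2 * (vA a F d m * m)

/-- A cheap displacement lies in the cone. -/
theorem Dirs.e_cone (h : Dirs F κ K A) {a : ℝ} (hd : d ∈ A) (ha : 0 ≤ a) {m : ℕ} (hm : 1 ≤ m) {y : ℤ}
    (hy : e F d m y ≤ a * EE F d m) : |(y : ℝ) - d.v * m| ≤ vA a F d m * m := by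
  have hm0 : (0 : ℝ) < m := by exact_mod_cast hm
  have h1 := h.lev_abs hd ha hm (x := (y : ℝ) / m - d.v) ((e_lower F d hm y).trans hy)
  have e1 : (y : ℝ) - d.v * m = ((y : ℝ) / m - d.v) * m := by field_simp
  rw [e1, abs_mul, Nat.abs_cast]
  exact mul_le_mul_of_nonneg_right h1 hm0.le

theorem Dirs.xs_cone (h : Dirs F κ K A) {a : ℝ} (hd : d ∈ A) (ha : 1 ≤ a) {m : ℕ} (hm : 1 ≤ m) :
    |(xs F d m : ℝ) - d.v * m| ≤ vA a F d m * m := by
  refine h.e_cone hd (by linarith) hm ?_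
  have h1 := e_xs_le (h.adm d hd) m
  have h2 := le_EE F d (le_refl m)
  have h3 := Cr_pos F
  have h4 := EE_pos F d m
  nlinarith

/-- **(CHEAP)** from the cone. -/
theorem Dirs.cheap (h : Dirs F κ K A) (hc : ConeW F A) {a : ℝ} (ha : 1 ≤ a) : Cheap a F A := by
  obtain ⟨c, C, Af, D1, D2, n0, hc0, hC0, hAf, hD1, hD2, hcone⟩ := hc
  have ha0 : 0 ≤ a := by linarith
  have hD1r : (1 : ℝ) ≤ D1 := by exact_mod_cast hD1
  have hD2r : (1 : ℝ) ≤ D2 := by exact_mod_cast hD2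
  obtain ⟨c1, hc1, hc1a, hc1b⟩ : ∃ c1 : ℝ, 0 < c1 ∧ c1 ≤ 1 ∧ c1 ≤ c / (8 * D1 * (a + C)) :=
    ⟨min 1 (c / (8 * D1 * (a + C))), by positivity, min_le_left _ _, min_le_right _ _⟩
  refine ⟨c1, Af * D2 + 1, D1 * (n0 + 1), hc1, hc1a, by nlinarith, by nlinarith, fun d hd m hm => ?_⟩
  have hadm := h.adm d hd
  obtain ⟨n, hn⟩ : ∃ n, n = m / D1 := ⟨_, rfl⟩
  obtain ⟨s, hs⟩ : ∃ s, s = m % D1 := ⟨_, rfl⟩
  have hms : D1 * n + s = m := by rw [hn, hs]; exact Nat.div_add_mod m D1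
  have hsD : s < D1 := by rw [hs]; exact Nat.mod_lt _ (by omega)
  have hn0 : n0 + 1 ≤ n := by rw [hn]; exact (Nat.le_div_iff_mul_le (by omega)).2 (by linarith [mul_comm D1 (n0 + 1)])
  have hn1 : 1 ≤ n := by omega
  have hnm : n ≤ m := by nlinarith
  have hm1 : 1 ≤ m := hn1.trans hnm
  have hnp : (0 : ℝ) < n := by exact_mod_cast hn1
  have hmp : (0 : ℝ) < m := by exact_mod_cast hm1
  obtain ⟨ρ, W, lo, hi, hW, hWl, hlo, hhi, hx⟩ := hcone d hd n (by omega)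
  have hEn := EE_pos F d n
  have hEm := EE_pos F d m
  have hEnm := EE_mono F d hnm
  have hD2E : Af * EE F d (D2 * n) ≤ Af * D2 * EE F d m := by
    have h1 := EE_mul F d n hD2
    have h2 : (D2 : ℝ) * EE F d n ≤ D2 * EE F d m := mul_le_mul_of_nonneg_left hEnm (by linarith)
    have h3 := mul_le_mul_of_nonneg_left (h1.trans h2) (show 0 ≤ Af by linarith)
    linarith
  have hes : e F d s (xs F d s) ≤ EE F d m := by
    have h1 := e_xs_le hadm s
    have h2 := le_EE F d (show s ≤ m by omega)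
    linarith [Cr_pos F]
  have hpt : ∀ y : ℤ, e F d (D1 * n) y ≤ Af * EE F d (D2 * n) → e F d m (y + xs F d s) ≤ (Af * D2 + 1) * EE F d m := by
    intro y hy
    have h1 := e_sub' F d (D1 * n) s y (xs F d s) (fun h0 => by
      have : 1 ≤ D1 * n := Nat.mul_pos (by omega) (by omega)
      omega) (fun h0 => by rw [h0, xs_zero])
    rw [hms] at h1
    linarith
  obtain ⟨LO, HI, hLH, hxl, hxh, hiff⟩ := CI_int' hadm hm1 (le_refl m) (a := Af * D2 + 1) (by nlinarith)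
  have h1 := ((hiff _).1 (hpt lo hlo)).1
  have h2 := ((hiff _).1 (hpt hi hhi)).2
  have hlen : W ≤ (HI : ℝ) - LO := by
    have h3 : ((hi - lo : ℤ) : ℝ) ≤ ((HI - LO : ℤ) : ℝ) := by exact_mod_cast (show hi - lo ≤ HI - LO by omega)
    push_cast at h3
    linarith
  -- the lower bound of `W`
  have hdist : ∀ x : ℝ, n * J F d x = a * EE F d n → |x - ρ| ≤ (a + C) * W / (c * n) := by
    intro x hxJ
    have h3 := hx x
    rw [hxJ] at h3
    rw [le_div_iff₀ (by positivity)]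
    have h4 : c * (EE F d n / W) * (n * |x - ρ|) ≤ (a + C) * EE F d n := by linarith
    have h5 : c * (EE F d n / W) * (n * |x - ρ|) = (|x - ρ| * (c * n)) * (EE F d n / W) := by ring
    have h6 : (a + C) * EE F d n = ((a + C) * W) * (EE F d n / W) := by field_simp
    rw [h5, h6] at h4
    exact le_of_mul_le_mul_right h4 (by positivity)
  have h3 := hdist _ (h.J_vr hd ha0 hn1)
  have h4 := hdist _ (h.J_vl hd ha0 hn1)
  have h5 : vA a F d n ≤ 2 * ((a + C) * W / (c * n)) := by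
    unfold vA
    rw [abs_le] at h3 h4
    linarith [h3.2, h4.1]
  have h6 : vA a F d n * n * c ≤ 2 * ((a + C) * W) := by
    have h7 := mul_le_mul_of_nonneg_right h5 (show 0 ≤ c * (n : ℝ) by positivity)
    have e1 : 2 * ((a + C) * W / (c * n)) * (c * n) = 2 * ((a + C) * W) := by field_simp
    rw [e1] at h7
    linarith
  have hv0 : 0 ≤ vA a F d n := add_nonneg (h.vr_nonneg hd ha0 n) (h.vl_nonneg hd ha0 n)
  have hvm0 : 0 ≤ vA a F d m := add_nonneg (h.vr_nonneg hd ha0 m) (h.vl_nonneg hd ha0 m)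
  have h7 := h.vA_le_two hd ha0 hn1 hnm
  have hmn : (m : ℝ) ≤ 2 * D1 * n := by
    have h8 : m ≤ 2 * D1 * n := by nlinarith
    exact_mod_cast h8
  have h8 : vA a F d m * m ≤ 4 * D1 * (vA a F d n * n) := by
    have h9 : vA a F d m * m ≤ 2 * vA a F d n * (2 * D1 * n) := mul_le_mul h7 hmn hmp.le (by positivity)
    linarith
  have hWw : c1 * (vA a F d m * m) ≤ W := by
    have h9 : c1 * (vA a F d m * m) ≤ c / (8 * D1 * (a + C)) * (4 * D1 * (vA a F d n * n)) :=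
      mul_le_mul hc1b h8 (by positivity) (by positivity)
    have h10 : c / (8 * D1 * (a + C)) * (4 * D1 * (vA a F d n * n)) = vA a F d n * n * c / (2 * (a + C)) := by
      field_simp
      ring
    rw [h10] at h9
    refine h9.trans ?_
    rw [div_le_iff₀ (by positivity)]
    linarith
  -- the interval around the cheapest displacement
  obtain ⟨w, hw⟩ : ∃ w, w = vA a F d m * m := ⟨_, rfl⟩
  have hw0 : 0 ≤ w := by rw [hw]; positivity
  rw [← hw] at hWw ⊢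
  have f1 : ((⌊w⌋ : ℤ) : ℝ) ≤ w := Int.floor_le _
  have f2 : w - 1 < (⌊w⌋ : ℤ) := Int.sub_one_lt_floor _
  have f3 : 0 ≤ ⌊w⌋ := Int.floor_nonneg.2 hw0
  refine ⟨max LO (xs F d m - ⌊w⌋), min HI (xs F d m + ⌊w⌋), max_le hxl (by omega), le_min hxh (by omega), ?_, ?_⟩
  · have key : ((min (HI - LO) ⌊w⌋ : ℤ) : ℝ) ≤ ((min HI (xs F d m + ⌊w⌋) - max LO (xs F d m - ⌊w⌋) : ℤ) : ℝ) := by
      have : min (HI - LO) ⌊w⌋ ≤ min HI (xs F d m + ⌊w⌋) - max LO (xs F d m - ⌊w⌋) := by omega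
      exact_mod_cast this
    push_cast at key ⊢
    have k1 : c1 * w - 1 ≤ min ((HI : ℝ) - LO) ((⌊w⌋ : ℤ) : ℝ) := by
      refine le_min (by linarith) ?_
      have : c1 * w ≤ 1 * w := mul_le_mul_of_nonneg_right hc1a hw0
      linarith
    exact k1.trans key
  · intro y hy1 hy2
    have g1 : LO ≤ y := (le_max_left _ _).trans hy1
    have g2 : y ≤ HI := hy2.trans (min_le_left _ _)
    have g3 : xs F d m - ⌊w⌋ ≤ y := (le_max_right _ _).trans hy1
    have g4 : y ≤ xs F d m + ⌊w⌋ := hy2.trans (min_le_right _ _)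
    refine ⟨(hiff y).2 ⟨g1, g2⟩, ?_⟩
    have g5 := h.xs_cone hd ha hm1
    rw [← hw] at g5
    have g6 : |(y : ℝ) - xs F d m| ≤ w := by
      rw [abs_le]
      constructor
      · have : ((xs F d m - ⌊w⌋ : ℤ) : ℝ) ≤ y := by exact_mod_cast g3
        push_cast at this
        linarith
      · have : (y : ℝ) ≤ ((xs F d m + ⌊w⌋ : ℤ) : ℝ) := by exact_mod_cast g4
        push_cast at this
        linarith
    have g7 := abs_sub_le (y : ℝ) (xs F d m) (d.v * m)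
    linarith

end

end Pool.Agent.W_1b8d5d_p
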