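import Pool.Agent.W_1b8d5d_p.IfaceP
import Pool.Agent.W_1b8d5d_p.FrameF
import Pool.Agent.W_1b8d5d_p.TubeB71
import Pool.Agent.W_1b8d5d_p.EdAll7
import Pool.Agent.W_1b8d5d_p.UnitK
import Pool.Agent.W_1b8d5d_p.HfC80
import Pool.Agent.W_1b8d5d_h4p.InpZ

/-!
MP_1b8d5d_pr, Track P. Glue: the results of the frame, of the cheap displacements and of the edges from the law and the family of
directions only, and the forms of (L*) used by the other sections.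
-/

set_option autoImplicit false

namespace Pool.Agent.W_1b8d5d_p

open MeasureTheory Set
open Pool.Agent.W_1b8d5d_h85 (V nm dir Edge Env grid ke wedges cost Bd sh rf)
open Pool.Agent.W_1b8d5d_h4p (LawH Sf tlU0 i1U)
open Pool.Agent.W_1b8d5d_p7 (TlU ChI EdG EdH edge_all wall_all)

noncomputable section

variable {F : Fm} {κ K a c0 C0' : ℝ} {A : Set Dr}

/-! ### Constants of the family -/

/-- The lateral constants of the family. -/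
theorem Dirs.lat_all (hD : Dirs F κ K A) : ∃ k1 K1 : ℝ, 0 < k1 ∧ ∀ d ∈ A, k1 ≤ κ * F.co.M ∧ Lat F κ k1 K1 d := by
  rcases A.eq_empty_or_nonempty with h0 | ⟨d0, hd0⟩
  · refine ⟨1, 0, one_pos, fun d hd => ?_⟩
    rw [h0] at hd
    exact absurd hd (notMem_empty _)
  have hκ := (hD.adm d0 hd0).κ0
  have hK0 : 0 ≤ K := (abs_nonneg _).trans (hD.slope d0 hd0)
  have hR1 : (1 : ℝ) ≤ F.co.R := by exact_mod_cast F.co.R_pos
  have hM1 : (1 : ℝ) ≤ F.co.M := by exact_mod_cast F.co.M_pos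
  have hK1p : 0 < F.co.R + K := by linarith
  refine ⟨κ / (F.co.R + K), F.co.R + K, by positivity, fun d hd => ⟨?_, by positivity, by linarith [hD.slope d hd], ?_⟩⟩
  · have h1 : κ / (F.co.R + K) ≤ κ := div_le_self hκ.le (by linarith)
    nlinarith
  · rw [div_mul_cancel₀ _ hK1p.ne']

/-! ### (CHEAP) -/

/-- **(CHEAP)**, unconditional. -/
theorem cheapI_all (hL : LawH F c0 C0') (hD : Dirs F κ K A) (ha : 1 ≤ a) :
    ∃ c C' : ℝ, 0 < c ∧ c ≤ 1 ∧ 1 ≤ C' ∧ CheapI a F A c C' := by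
  obtain ⟨A', C, c, H, n0, hA', hC, hc, hH, hcone⟩ := hD.coneAt (hD.rate hL) (hD.grow_law hL) (mcz hL hD)
  obtain ⟨c1, C', hc1, h⟩ := cheap32 hD ha hH hA' hC hc n0 hcone
  refine ⟨min c1 1, max C' 1, lt_min hc1 one_pos, min_le_right _ _, le_max_right _ _, fun d hd m hm => ?_⟩
  obtain ⟨lo, hi, h1, h2, h3, h4⟩ := h d hd m hm
  refine ⟨lo, hi, h1, h2, ?_, fun y hy1 hy2 => ⟨?_, (h4 y hy1 hy2).2⟩⟩
  · have h6 := hD.vA_pos hd (lt_of_lt_of_le one_pos ha) hm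
    have h5 : min c1 1 * (m * vA a F d m) ≤ c1 * (m * vA a F d m) :=
      mul_le_mul_of_nonneg_right (min_le_left _ _) (by positivity)
    linarith
  · exact (h4 y hy1 hy2).1.trans (mul_le_mul_of_nonneg_right (le_max_left _ _) (EE_pos F d m).le)

/-- The form `Cheap` from the form `CheapI`. -/
theorem Cheap.of_cheapI (hD : Dirs F κ K A) (ha : 1 ≤ a) {c C' : ℝ} (hc : 0 < c) (hc1 : c ≤ 1) (hC : 1 ≤ C')
    (h : CheapI a F A c C') : Cheap a F A := by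
  refine ⟨c, C', 1, hc, hc1, hC, le_rfl, fun d hd m hm => ?_⟩
  obtain ⟨lo, hi, h1, h2, h3, h4⟩ := h d hd m hm
  have hv := hD.vA_pos hd (lt_of_lt_of_le one_pos ha) hm
  obtain ⟨w, hw⟩ : ∃ w : ℝ, w = vA a F d m * m := ⟨_, rfl⟩
  have hw0 : 0 ≤ w := by rw [hw]; positivity
  have hx := hD.xs_cone hd ha hm
  rw [← hw] at hx ⊢
  have h3' : c * w - 1 ≤ (hi : ℝ) - lo := by
    rw [hw, mul_comm (vA a F d m)]
    exact h3
  have hk1 := Int.floor_le w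
  have hk2 := Int.lt_floor_add_one w
  have hk0 : 0 ≤ ⌊w⌋ := Int.floor_nonneg.2 hw0
  have hcw : c * w ≤ w := mul_le_of_le_one_left hw0 hc1
  refine ⟨max lo (xs F d m - ⌊w⌋), min hi (xs F d m + ⌊w⌋), max_le h1 (by omega), le_min h2 (by omega), ?_, ?_⟩
  · have e1 : ((max lo (xs F d m - ⌊w⌋) : ℤ) : ℝ) = max (lo : ℝ) ((xs F d m : ℝ) - ⌊w⌋) := by push_cast; rfl
    have e2 : ((min hi (xs F d m + ⌊w⌋) : ℤ) : ℝ) = min (hi : ℝ) ((xs F d m : ℝ) + ⌊w⌋) := by push_cast; rfl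
    rw [e1, e2]
    have g1 : (lo : ℝ) ≤ xs F d m := by exact_mod_cast h1
    have g2 : (xs F d m : ℝ) ≤ hi := by exact_mod_cast h2
    rcases le_total (lo : ℝ) ((xs F d m : ℝ) - ⌊w⌋) with ha' | ha' <;>
      rcases le_total (hi : ℝ) ((xs F d m : ℝ) + ⌊w⌋) with hb' | hb'
    · rw [max_eq_right ha', min_eq_left hb']
      linarith
    · rw [max_eq_right ha', min_eq_right hb']
      have : (0 : ℝ) ≤ ⌊w⌋ := by exact_mod_cast hk0
      linarith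
    · rw [max_eq_left ha', min_eq_left hb']
      exact h3'
    · rw [max_eq_left ha', min_eq_right hb']
      linarith
  · intro y hy1 hy2
    have g1 : lo ≤ y := (le_max_left _ _).trans hy1
    have g2 : y ≤ hi := hy2.trans (min_le_left _ _)
    refine ⟨(h4 y g1 g2).1, ?_⟩
    have g3 : ((xs F d m - ⌊w⌋ : ℤ) : ℝ) ≤ y := by exact_mod_cast (le_max_right _ _).trans hy1
    have g4 : (y : ℝ) ≤ ((xs F d m + ⌊w⌋ : ℤ) : ℝ) := by exact_mod_cast hy2.trans (min_le_right _ _)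
    push_cast at g3 g4
    rw [abs_le] at hx ⊢
    constructor <;> linarith [hx.1, hx.2]

/-- **(CHEAP)** in the form of `UnitK`, unconditional. -/
theorem cheap_all (hL : LawH F c0 C0') (hD : Dirs F κ K A) (ha : 1 ≤ a) : Cheap a F A := by
  obtain ⟨c, C', hc, hc1, hC, h⟩ := cheapI_all hL hD ha
  exact Cheap.of_cheapI hD ha hc hc1 hC h

/-- **(I1)**, unconditional. -/
theorem i1P_allP (hL : LawH F c0 C0') (hD : Dirs F κ K A) : I1P F κ A := i1U hL hD (hD.rate hL) (hD.grow_law hL)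

/-! ### Tails and edges -/

/-- **(TAIL)**, unconditional. -/
theorem tlU_allP (hL : LawH F c0 C0') (hD : Dirs F κ K A) (H : ℕ) :
    ∃ (t0 C1 : ℝ) (n0 : ℕ), 0 < t0 ∧ 1 ≤ C1 ∧ 1 ≤ n0 ∧ TlU F A H t0 C1 n0 :=
  tlU0 hL hD (hD.rate hL) (hD.grow_law hL) H

/-- The edge of a scale, for given constants of the cheap displacements. -/
theorem edgeA (hL : LawH F c0 C0') (hD : Dirs F κ K A) {A0 A1 : ℝ} (ha : 0 < a) (hA0 : a ≤ A0) (hA1 : A0 < A1) {H : ℕ}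
    (hH : 1 ≤ H) {c2 Cf CS c C' : ℝ} (hc2 : 0 < c2) (hCf : 0 ≤ Cf) (hCS : 0 ≤ CS) (hc : 0 < c) (hch : CheapI a F A c C') :
    ∃ (C1 De ks cth ka1 : ℝ) (n0 : ℕ), 1 ≤ C1 ∧ 0 < De ∧ 0 ≤ ks ∧ 0 < cth ∧ 0 < ka1 ∧ 1 ≤ n0 ∧
      ∀ d ∈ A, ∀ n : ℕ, n0 ≤ n → ∀ (sg : ℝ) (w S L' : ℕ), sg = 1 ∨ sg = -1 → EdG F d a A0 A1 c c2 Cf CS H sg n w S L' →
      ∃ y0 : ℤ, EdH F d sg (cth / EE F d n) (d.v + sg * vs A1 F d sg n) ks De C1 w S L' y0 ∧
        ka1 ≤ cth / EE F d n * (κ * F.co.M) * w ∧ cth / EE F d n * Pool.Agent.W_1b8d5d_p.C0 F.co F.b ≤ 1 ∧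
        cth / EE F d n * (L' * J F d ((d.v + sg * vs A1 F d sg n) - d.v)) ≤ H * (cth * A1) :=
  edge_all hL hD (hD.rate hL) (hD.grow_law hL) ha hA0 hA1 hH hc2 hCf hCS hc hch

/-- **(WALL)**, for given constants of the cheap displacements. -/
theorem wallA (hL : LawH F c0 C0') (hD : Dirs F κ K A) {A0 A1 : ℝ} (ha : 0 < a) (hA0 : a ≤ A0) (hA1 : A0 < A1) {H : ℕ}
    (hH : 1 ≤ H) {c2 Cf CS c C' : ℝ} (hc2 : 0 < c2) (hCf : 0 ≤ Cf) (hCS : 0 ≤ CS) (hc : 0 < c) (hch : CheapI a F A c C') :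
    ∃ (C cw : ℝ) (n0 : ℕ), 0 < C ∧ 0 < cw ∧ 1 ≤ n0 ∧ ∀ d ∈ A, ∀ n : ℕ, n0 ≤ n →
      ∀ (sg : ℝ) (w S L' : ℕ), sg = 1 ∨ sg = -1 → EdG F d a A0 A1 c c2 Cf CS H sg n w S L' →
      ∀ (A' r0 : ℝ) (t : ℤ), (law F).real {η | ∃ x x' : ℤ, sg * (x - r0) ≤ 0 ∧
        sg * ((d.v + sg * vs A1 F d sg n) * L') + A' * w ≤ sg * (x' - r0) ∧
        X F d η (t, x) L' (x' - x) ≤ cw * A' * EE F d n} ≤ C * Real.exp (-(cw * A')) :=
  wall_all hL hD (hD.rate hL) (hD.grow_law hL) ha hA0 hA1 hH hc2 hCf hCS hc hch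

/-! ### Forms of (L*) -/

/-- (L*) with small constants in both places. -/
theorem LStarP.unit (h : LStarP a F A) (H : ℕ) : ∃ (c C : ℝ) (n0 : ℕ), 0 < c ∧ c ≤ 1 ∧ 1 ≤ C ∧ 1 ≤ n0 ∧ ∀ d ∈ A,
    ∀ n : ℕ, n0 ≤ n → ∀ N : ℕ, N ≤ H * n → ∀ o : ℝ,
      ∫ η, Real.exp (c / EE F d n * TL F d (c * EE F d n / (n * vA a F d n)) o (n * vA a F d n) N η) ∂(law F) ≤ C := by
  obtain ⟨C, n0, hC, h⟩ := h H
  have hC0 : 0 < C := by linarith
  refine ⟨1 / C, C, max n0 1, by positivity, (div_le_one hC0).2 hC, hC, le_max_right _ _, fun d hd n hn N hN o => ?_⟩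
  have h1 := h d hd n ((le_max_left _ _).trans hn) N hN o
  have e1 : 1 / C / EE F d n = 1 / (C * EE F d n) := by rw [div_div]
  have e2 : 1 / C * EE F d n / (n * vA a F d n) = EE F d n / (C * (n * vA a F d n)) := by
    rw [one_div_mul_eq_div, div_div]
  rw [e1, e2]
  exact h1

/-- (L*) with all numerical conditions of the confinement (`tube_scale`). -/
theorem LStarP.scale (hD : Dirs F κ K A) (hR : Rate F A) (hG : Grow F A) (ha : 0 < a) (h : LStarP a F A) {k1 : ℝ}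
    (hk1 : 0 < k1) (H : ℕ) : ∃ (c C : ℝ) (n0 : ℕ), 0 < c ∧ c ≤ 1 ∧ 1 ≤ C ∧ 1 ≤ n0 ∧ ∀ d ∈ A, ∀ n : ℕ, n0 ≤ n →
      0 < n * vA a F d n ∧ c * EE F d n / (n * vA a F d n) ≤ k1 / 2 ∧ 1 ≤ c / EE F d n * (k1 / 2 * (n * vA a F d n)) ∧
      CP F ≤ EE F d n ∧ ∀ N : ℕ, N ≤ H * n → ∀ o : ℝ,
        ∫ η, Real.exp (c / EE F d n * TL F d (c * EE F d n / (n * vA a F d n)) o (n * vA a F d n) N η) ∂(law F) ≤ C := by
  obtain ⟨c, C, n0, hc, hc1, hC, hn0, h⟩ := h.unit H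
  obtain ⟨n1, hn1, hw⟩ := hD.w_large hR ha (max (2 * c / k1) (2 / (c * k1)))
  obtain ⟨n2, hg⟩ := hG (CP F)
  refine ⟨c, C, max n0 (max n1 n2), hc, hc1, hC, hn0.trans (le_max_left _ _), fun d hd n hn => ?_⟩
  have hnn0 : n0 ≤ n := (le_max_left _ _).trans hn
  have hnn1 : n1 ≤ n := ((le_max_left _ _).trans (le_max_right _ _)).trans hn
  have hnn2 : n2 ≤ n := ((le_max_right _ _).trans (le_max_right _ _)).trans hn
  have hn0' : (0 : ℝ) < n := by exact_mod_cast hn1.trans hnn1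
  have hv := hD.vA_pos hd ha (hn1.trans hnn1)
  have hE := EE_pos F d n
  have hw0 : 0 < n * vA a F d n := by positivity
  have h1 := hw d hd n hnn1
  have h2 : 2 * c / k1 * EE F d n ≤ n * vA a F d n := (mul_le_mul_of_nonneg_right (le_max_left _ _) hE.le).trans h1
  have h3 : 2 / (c * k1) * EE F d n ≤ n * vA a F d n := (mul_le_mul_of_nonneg_right (le_max_right _ _) hE.le).trans h1
  refine ⟨hw0, ?_, ?_, hg d hd n hnn2, fun N hN o => h d hd n hnn0 N hN o⟩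
  · rw [div_le_iff₀ hw0]
    have h4 := mul_le_mul_of_nonneg_left h2 (by positivity : 0 ≤ k1 / 2)
    have e : k1 / 2 * (2 * c / k1 * EE F d n) = c * EE F d n := by field_simp
    linarith
  · have h4 := mul_le_mul_of_nonneg_left h3 (by positivity : 0 ≤ c / EE F d n * (k1 / 2))
    have e : c / EE F d n * (k1 / 2) * (2 / (c * k1) * EE F d n) = 1 := by field_simp
    rw [e] at h4
    linarith

/-- (L*) for the pairs which END in a box. -/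
theorem LStarP.unitR (hD : Dirs F κ K A) (h : LStarP a F A) (H : ℕ) : ∃ (c C : ℝ) (n0 : ℕ), 0 < c ∧ c ≤ 1 ∧ 1 ≤ C ∧
    1 ≤ n0 ∧ ∀ d ∈ A, ∀ n : ℕ, n0 ≤ n → ∀ N : ℕ, N ≤ H * n → ∀ o : ℝ,
      ∫ η, Real.exp (c / EE F d n * TLr F d (c * EE F d n / (n * vA a F d n)) o (n * vA a F d n) N η) ∂(law F) ≤ C := by
  obtain ⟨c, C, n0, hc, hc1, hC, hn0, h⟩ := h.unit H
  refine ⟨c, C, n0, hc, hc1, hC, hn0, fun d hd n hn N hN o => ?_⟩
  rw [TLr_int (hD.adm d hd)]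
  exact h d hd n hn N hN _

/-- **CONFINEMENT** for the durations up to `H n`, at the scale `n`. -/
theorem LStarP.tube (hD : Dirs F κ K A) (hR : Rate F A) (hG : Grow F A) (ha : 0 < a) (h : LStarP a F A) (H : ℕ) :
    ∃ (c C : ℝ) (n0 : ℕ), 0 < c ∧ c ≤ 1 ∧ 1 ≤ C ∧ 1 ≤ n0 ∧ ∀ d ∈ A, ∀ n : ℕ, n0 ≤ n → ∀ N : ℕ, N ≤ H * n →
      ∀ (k : ℝ) (yE : ℤ), ∃ B : Set Env, MeasurableSet B ∧ (law F).real B ≤ 10 * C * Real.exp (-(c * k)) ∧ ∀ η, η ∉ B →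
        ∀ g : grid.Walk (F.co.vt 0) (F.co.vt ((N : ℤ), yE)), (∀ e ∈ wedges g, e ∈ F.co.slab 0 N) →
          exc F d η g ≤ k * EE F d n → ∀ v ∈ g.support, |latV F d v| ≤ (3 * k + 2) / c * (n * vA a F d n) := by
  obtain ⟨k1, K1, hk1, hlat⟩ := hD.lat_all
  obtain ⟨c, C, n0, hc, hc1, hC, hn0, h⟩ := h.scale hD hR hG ha hk1 H
  refine ⟨c, C, n0, hc, hc1, hC, hn0, fun d hd n hn N hN k yE => ?_⟩
  obtain ⟨h1, h2, h3, h4, h5⟩ := h d hd n hn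
  exact tube_scale (hD.adm d hd) (hlat d hd).2 (EE_pos F d n) h1 hc h2 h3 h4 (h5 N hN) k yE

/-- **CONFINEMENT**, unconditional. -/
theorem tubeA (hL : LawH F c0 C0') (hD : Dirs F κ K A) (ha : 0 < a) (H : ℕ) :
    ∃ (c C : ℝ) (n0 : ℕ), 0 < c ∧ c ≤ 1 ∧ 1 ≤ C ∧ 1 ≤ n0 ∧ ∀ d ∈ A, ∀ n : ℕ, n0 ≤ n → ∀ N : ℕ, N ≤ H * n →
      ∀ (k : ℝ) (yE : ℤ), ∃ B : Set Env, MeasurableSet B ∧ (law F).real B ≤ 10 * C * Real.exp (-(c * k)) ∧ ∀ η, η ∉ B →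
        ∀ g : grid.Walk (F.co.vt 0) (F.co.vt ((N : ℤ), yE)), (∀ e ∈ wedges g, e ∈ F.co.slab 0 N) →
          exc F d η g ≤ k * EE F d n → ∀ v ∈ g.support, |latV F d v| ≤ (3 * k + 2) / c * (n * vA a F d n) :=
  (lstarP_all hL hD ha).tube hD (hD.rate hL) (hD.grow_law hL) ha H

end

end Pool.Agent.W_1b8d5d_p
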