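import Pool.Agent.W_1b8d5d_p.EdB7
import Pool.Agent.W_1b8d5d_p.EdTail33
import Pool.Agent.W_1b8d5d_p.EdCon61

/-!
Track P (MP_1b8d5d_pr), section 4, proofs row 642: the tails `TlU` of `edge_data` from the exponential moments of the lucks.
-/

namespace Pool.Agent.W_1b8d5d_p7

open MeasureTheory Set Pool.Agent.W_1b8d5d_h85 Pool.Agent.W_1b8d5d_p Pool.Agent.W_1b8d5d_p66 Pool.Agent.W_1b8d5d_h4p

variable {F : Fm} {κ c0 C0 : ℝ}

/-- (L0) gives (TAIL). -/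
theorem tlU_of (hL : LawH F c0 C0) {Ds : Set Dr} (hadm : ∀ d ∈ Ds, Adm F κ d) {c C : ℝ} (hc : 0 < c) {n0 H : ℕ}
    (h0 : ∀ d ∈ Ds, ∀ n, n0 ≤ n → ∀ N, 1 ≤ N → N ≤ H * n →
      ∫ η, Real.exp (c / EE F d n * VV F d η 0 N) ∂(law F) ≤ C) :
    ∃ t0 C1 : ℝ, 0 < t0 ∧ 1 ≤ C1 ∧ TlU F Ds H t0 C1 n0 := by
  obtain ⟨t0, C1, ht0, hC1, h⟩ := Pool.Agent.W_1b8d5d_h33p.ed_tail hL hadm hc h0
  refine ⟨t0, C1, ht0, hC1, ?_⟩
  intro d hd n hn N hN hNH th hth hth' z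
  have hE := EE_pos F d n
  have h1 : th * EE F d n ≤ t0 := by
    rw [le_div_iff₀ hE] at hth'
    exact hth'
  have h2 := h (th * EE F d n) (by positivity) h1 d hd n hn N hN hNH z
  have e1 : th * EE F d n / EE F d n = th := by field_simp
  rwa [e1] at h2

theorem chI_of {Ds : Set Dr} {A c0 C' : ℝ} (h : CheapI A F Ds c0 C') : ChI F Ds A c0 C' := h

end Pool.Agent.W_1b8d5d_p7
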