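import Pool.Agent.W_1b8d5d_p.FrameC
import Pool.Agent.W_1b8d5d_p.FrCor
import Pool.Agent.W_1b8d5d_h4p.ToolZ
import Pool.Agent.W_1b8d5d_p.EdTl7

/-!
Track P (MP_1b8d5d_pr). Glue between the frame (`Dirs.frame`) and the edges of section 4: the mean costs (MC) in the form `MCz`,
the exponential moments (L0) of the lucks of one point for all durations up to `H n`, and the tails `TlU`.
-/

namespace Pool.Agent.W_1b8d5d_p7

open MeasureTheory Set Pool.Agent.W_1b8d5d_h85 Pool.Agent.W_1b8d5d_p Pool.Agent.W_1b8d5d_h4p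

noncomputable section

variable {F : Fm} {κ K c0 C0' : ℝ} {Ds : Set Dr}

/-- (MC): large means are large with high probability. -/
theorem mcz_of (hL : LawH F c0 C0') (h : Dirs F κ K Ds) : MCz F Ds := by
  intro p hp
  obtain ⟨T, C, hT, hC, h1⟩ := mc0 hL hp
  have hCr := Cr_pos F
  have hT0 : (0 : ℝ) < T := by exact_mod_cast hT
  refine ⟨6 * T + C / Cr F, 1, fun d hd n hn y u hy hu => ?_⟩
  have hadm := h.adm d hd
  by_contra hcon
  rw [not_le] at hcon
  have h2 := h1 κ d hadm (h.touch d hd) n (T * n) le_rfl _ (lk_X hadm hn y) u (by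
    refine hcon.le.trans_eq ?_
    congr 1
    ext η
    show X F d η 0 n y ≤ u ↔ -u ≤ -(X F d η 0 n y)
    constructor <;> intro hh <;> linarith)
  have e1 : -∫ η, (fun τ => -(TT F.co τ 0 n y - (al F.co d * n + be F.co d * y))) (F.tau η) ∂(law F) = e F d n y := by
    have e2 : ∫ η, (fun τ => -(TT F.co τ 0 n y - (al F.co d * n + be F.co d * y))) (F.tau η) ∂(law F) =
        ∫ η, -(X F d η 0 n y) ∂(law F) := rfl
    rw [e2, integral_neg, neg_neg]
    rfl
  rw [e1] at h2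
  have hE := EE_pos F d n
  have hE1 := Cr_le_EE F d n
  have h3 := EE_mul F d n hT
  have h4 : C ≤ C / Cr F * EE F d n := by
    calc C = C / Cr F * Cr F := by field_simp
      _ ≤ C / Cr F * EE F d n := mul_le_mul_of_nonneg_left hE1 (by positivity)
  have h5 : (6 * (T : ℝ) + C / Cr F) * EE F d n = 6 * (T * EE F d n) + C / Cr F * EE F d n := by ring
  rw [h5] at hy
  have h6 : 0 < C / Cr F * EE F d n := by positivity
  have h7 : 0 < (T : ℝ) * EE F d n := by positivity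
  rcases le_max_iff.1 h2 with h8 | h8
  · rcases le_max_iff.1 h8 with h9 | h9
    · linarith
    · linarith
  · linarith

/-- **(L0)** for a family of directions and all durations up to `H n`. -/
theorem vv_exp7 (h : Dirs F κ K Ds) (hr : Rate F Ds) (hg : Grow F Ds) (hmc : MCz F Ds) {H : ℕ} (hH : 1 ≤ H) :
    ∃ (c C : ℝ) (n0 : ℕ), 0 < c ∧ 0 < C ∧ 1 ≤ n0 ∧ ∀ d ∈ Ds, ∀ n : ℕ, n0 ≤ n → ∀ N : ℕ, 1 ≤ N → N ≤ H * n →
      ∫ η, Real.exp (c / EE F d n * VV F d η 0 N) ∂(law F) ≤ C := by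
  obtain ⟨A, k1, H1, n0, hA, hk1, hH1, hn0, hfr⟩ := h.frame hr hg hmc
  have hA0 : 0 < A := lt_of_lt_of_le (by norm_num) hA
  have hH1' : (1 : ℝ) ≤ H1 := by exact_mod_cast hH1
  have hH' : (1 : ℝ) ≤ H := by exact_mod_cast hH
  refine ⟨4 / (25 * A * (H1 * H)), 2 * Real.exp 2, n0, by positivity, by positivity, hn0, ?_⟩
  intro d hd n hn N hN hNH
  have hadm := h.adm d hd
  have hnn : 1 ≤ n := hn0.trans hn
  obtain ⟨r, N1, w, α, β, hkκ, hrv, hN1, hN1', hw, hls⟩ := hfr d hd (H * n) (hn.trans (Nat.le_mul_of_pos_left n (by omega)))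
  obtain ⟨E, hE⟩ : ∃ E : ℝ, E = EE F d (H1 * (H * n)) := ⟨_, rfl⟩
  rw [← hE] at hw hls
  have hE0 : 0 < E := by rw [hE]; exact EE_pos F d _
  have hEn := EE_pos F d n
  have hEE : E ≤ (H1 * H) * EE F d n := by
    rw [hE]
    have h1 := EE_mul F d n (k := H1 * H) (by nlinarith)
    have e1 : H1 * H * n = H1 * (H * n) := by ring
    rw [e1] at h1
    push_cast at h1
    exact h1
  have hw0 : (0 : ℝ) < w := by exact_mod_cast hls.w1
  have hM : (1 : ℝ) ≤ F.co.M := by exact_mod_cast F.co.M_pos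
  have hsl := sl_of (hadm.at r)
  obtain ⟨t, ht⟩ : ∃ t : ℝ, t = A * E / (32 * w) := ⟨_, rfl⟩
  have ht0 : 0 ≤ t := by rw [ht]; positivity
  have htk : t ≤ κ * F.co.M := by
    have h1 : 4 * (A * E) ≤ w * k1 := by
      have h2 : 4 * (A * E / k1) = 4 * (A * E) / k1 := by ring
      rw [h2, div_le_iff₀ hk1] at hw
      exact hw
    have h2 : t ≤ k1 := by
      rw [ht, div_le_iff₀ (by positivity)]
      have h3 : 0 ≤ (w : ℝ) * k1 := by positivity
      nlinarith
    have h3 : κ ≤ κ * F.co.M := by nlinarith [hadm.κ0]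
    linarith
  obtain ⟨θ, hθ⟩ : ∃ θ : ℝ, θ = 4 / (25 * (A * E)) := ⟨_, rfl⟩
  have hθ0 : 0 < θ := by rw [hθ]; positivity
  have hls' := hls.ls (H * n) le_rfl 0
  rw [← ht, ← hθ] at hls'
  have hint := expTL_int (o := 0) (W := (w : ℝ)) (k := H * n) hsl htk hθ0.le
  refine le_trans (integral_mono_of_nonneg (Filter.Eventually.of_forall fun η => (Real.exp_pos _).le) hint
    (Filter.Eventually.of_forall fun η => ?_)) hls'
  refine Real.exp_le_exp.2 ?_
  have h1 : VV F d η 0 N ≤ TL F (d.at r) t 0 w (H * n) η := VV_le_TL hsl ht0 htk hw0 hNH η hN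
  have h2 : 0 ≤ TL F (d.at r) t 0 w (H * n) η := TL_nonneg hsl htk η
  have h3 : 4 / (25 * A * (H1 * H)) / EE F d n ≤ θ := by
    rw [hθ, div_div]
    refine div_le_div_of_nonneg_left (by norm_num) (by positivity) ?_
    have h4 := mul_le_mul_of_nonneg_left hEE (by positivity : 0 ≤ 25 * A)
    calc 25 * (A * E) = 25 * A * E := by ring
      _ ≤ 25 * A * (H1 * H * EE F d n) := h4
      _ = 25 * A * (H1 * H) * EE F d n := by ring
  calc 4 / (25 * A * (H1 * H)) / EE F d n * VV F d η 0 N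
      ≤ 4 / (25 * A * (H1 * H)) / EE F d n * TL F (d.at r) t 0 w (H * n) η := mul_le_mul_of_nonneg_left h1 (by positivity)
    _ ≤ θ * TL F (d.at r) t 0 w (H * n) η := mul_le_mul_of_nonneg_right h3 h2

/-- **(TAIL)** for a family of directions and all durations up to `H n`. -/
theorem tlU_all (hL : LawH F c0 C0') (h : Dirs F κ K Ds) (hr : Rate F Ds) (hg : Grow F Ds) {H : ℕ} (hH : 1 ≤ H) :
    ∃ (t0 C1 : ℝ) (n0 : ℕ), 0 < t0 ∧ 1 ≤ C1 ∧ 1 ≤ n0 ∧ TlU F Ds H t0 C1 n0 := by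
  obtain ⟨c, C, n0, hc, -, hn0, h0⟩ := vv_exp7 h hr hg (mcz_of hL h) hH
  obtain ⟨t0, C1, ht0, hC1, h1⟩ := tlU_of hL h.adm hc h0
  exact ⟨t0, C1, n0, ht0, hC1, hn0, h1⟩

end

end Pool.Agent.W_1b8d5d_p7
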