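import Pool.Agent.W_1b8d5d_p.EdInN
import Pool.Agent.W_1b8d5d_p.EdL07
import Pool.Agent.W_1b8d5d_h52p.OctPb

/-!
MP_1b8d5d_pr, Track P, section 4: (IN) for a family of directions, in the form `InW` of the octave and of the tubes. (helper11)
-/

namespace Pool.Agent.W_1b8d5d_p11

open MeasureTheory Set
open Pool.Agent.W_1b8d5d_p Pool.Agent.W_1b8d5d_p7 Pool.Agent.W_1b8d5d_h4p Pool.Agent.W_1b8d5d_h52p

variable {F : Fm} {κ K c0' C0' : ℝ} {Ds : Set Dr}

/-- **(IN)** for a family of directions. -/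
theorem inW_of (hL : LawH F c0' C0') (hD : Dirs F κ K Ds) (hR : Rate F Ds) (hG : Grow F Ds) {A A0 A1 : ℝ} (hA : 0 < A)
    (hA0 : A ≤ A0) (hA1 : A0 < A1) {c0 C' : ℝ} (hc0 : 0 < c0) (hch : CheapI A F Ds c0 C') : InW F Ds A A0 A1 c0 := by
  obtain ⟨t0, C1, n0, ht0, hC1, hn0, htl⟩ := tlU_all hL hD hR hG (H := 1) le_rfl
  obtain ⟨Ci, c1, hCi, hc1, h⟩ := in_both hD hA hA0 hA1 (c2 := 1) one_pos (Cf := 8) (by norm_num) (CS := 6 / c0 + 1)
    (by positivity) hc0 (chI_of hch) ht0 (zero_le_one.trans hC1) htl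
  refine ⟨Ci, max c1 1, n0, hCi, le_max_right _ _, ?_⟩
  intro d hd N hN w S hw hS hSN hthick hroom hroom' hflat y hy1 hy2
  have hE := EE_pos F d N
  have h1 := hthick 1 (Or.inl rfl)
  have h2 := hthick (-1) (Or.inr rfl)
  rw [vs_one, vs_one] at h1
  rw [vs_neg, vs_neg] at h2
  refine (h d hd N hN w S hw hS hSN (by linarith) (by linarith) hroom hroom' hflat y (by linarith) (by linarith)).trans ?_
  exact mul_le_mul_of_nonneg_right (le_max_left _ _) hE.le

end Pool.Agent.W_1b8d5d_p11
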