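import Pool.Agent.W_1b8d5d_h52p.OctPb
import Pool.Agent.W_1b8d5d_p.EdCon61
import Pool.Agent.W_1b8d5d_p.VMean

/-!
Track P (MP_1b8d5d_pr), section 6, proofs row 646 section 3: THE NUMBERS OF THE INNER EDGE (window length, cell width, end point,
walls, references, location), both sides at once. (helper33)
-/

namespace Pool.Agent.W_1b8d5d_h33p

open MeasureTheory Set Pool.Agent.W_1b8d5d_p Pool.Agent.W_1b8d5d_h52p

variable {F : Fm} {κ Kd : ℝ} {Ds : Set Dr} {d : Dr} {sg A0 A1 : ℝ} {k z0 z1 n : ℕ}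

/-- The beginning of the window `j`. -/
def tn (L n' j : ℕ) : ℕ := (j + 1) * (L - n')

/-- The total duration. -/
def NN (L n' K : ℕ) : ℕ := (K + 2) * L - (K + 1) * n'

/-! ### Small lemmas -/

theorem sg_sq (hsg : sg = 1 ∨ sg = -1) : sg * sg = 1 := by rcases hsg with rfl | rfl <;> norm_num

theorem rnd_in (hsg : sg = 1 ∨ sg = -1) (x : ℝ) : ∃ z : ℤ, sg * z ≤ sg * x ∧ sg * x < sg * z + 1 := by
  rcases hsg with rfl | rfl
  · refine ⟨⌊x⌋, ?_, ?_⟩
    · have := Int.floor_le x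
      linarith
    · have := Int.lt_floor_add_one x
      linarith
  · refine ⟨⌈x⌉, ?_, ?_⟩
    · have := Int.le_ceil x
      linarith
    · have := Int.ceil_lt_add_one x
      linarith

theorem rnd_out (hsg : sg = 1 ∨ sg = -1) (x : ℝ) : ∃ z : ℤ, sg * x ≤ sg * z ∧ sg * z < sg * x + 1 := by
  rcases hsg with rfl | rfl
  · refine ⟨⌈x⌉, ?_, ?_⟩
    · have := Int.le_ceil x
      linarith
    · have := Int.ceil_lt_add_one x
      linarith
  · refine ⟨⌊x⌋, ?_, ?_⟩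
    · have := Int.floor_le x
      linarith
    · have := Int.lt_floor_add_one x
      linarith

theorem rf_mono33 {f : ℝ → ℝ} (hf : Rf f) {x y : ℝ} (hx : 0 ≤ x) (hxy : x ≤ y) : f x ≤ f y := by
  rcases hx.eq_or_lt with rfl | hx
  · rw [hf.zero]
    exact hf.nn y
  have hy : 0 < y := hx.trans_le hxy
  have h := hf.conv.2 (mem_univ (0 : ℝ)) (mem_univ y)
    (show 0 ≤ 1 - x / y by rw [sub_nonneg, div_le_one hy]; exact hxy) (show 0 ≤ x / y by positivity) (by ring)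
  simp only [smul_eq_mul, mul_zero, zero_add] at h
  rw [div_mul_cancel₀ _ hy.ne', hf.zero, mul_zero, zero_add] at h
  have h2 : x / y * f y ≤ 1 * f y := mul_le_mul_of_nonneg_right ((div_le_one hy).2 hxy) (hf.nn y)
  linarith

/-- The cheapest displacement is inside every displacement which costs more than the unit. -/
theorem xs_side (h : Dirs F κ Kd Ds) (hd : d ∈ Ds) (hsg : sg = 1 ∨ sg = -1) {T : ℕ} (hT : 1 ≤ T) {Y : ℤ}
    (h1 : 0 ≤ sg * ((Y : ℝ) / T - d.v)) (h2 : EE F d T < T * J F d ((Y : ℝ) / T - d.v)) :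
    0 ≤ sg * ((Y : ℝ) - xs F d T) := by
  by_contra hcon
  rw [not_le] at hcon
  have hT0 : (0 : ℝ) < T := by exact_mod_cast hT
  have h3 : sg * ((Y : ℝ) / T - d.v) ≤ sg * ((xs F d T : ℝ) / T - d.v) := by
    have e1 : sg * ((xs F d T : ℝ) / T - d.v) - sg * ((Y : ℝ) / T - d.v) = -(sg * ((Y : ℝ) - xs F d T)) / T := by
      field_simp
      ring
    have h4 : 0 ≤ -(sg * ((Y : ℝ) - xs F d T)) / T := div_nonneg (by linarith) hT0.le
    linarith
  have h4 := rf_mono33 (ed_rf h hd hsg) h1 h3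
  have e1 : ∀ x : ℝ, sg * (sg * x) = x := fun x => by rw [← mul_assoc, sg_sq hsg, one_mul]
  simp only [e1] at h4
  have h5 := e_lower F d hT (xs F d T)
  have h6 := e_xs_le (h.adm d hd) T
  have h7 := le_EE F d (le_refl T)
  have h8 := Cr_pos F
  have h9 := mul_le_mul_of_nonneg_left h4 hT0.le
  linarith

/-- THE REFERENCES: two displacements at the distance `mu` in the cheap interval, one of them the cheapest. -/
theorem refs33 (h : Dirs F κ Kd Ds) (hd : d ∈ Ds) {n' : ℕ} (hn : 1 ≤ n') {lo hi : ℤ} (hlo : lo ≤ xs F d n')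
    (hhi : xs F d n' ≤ hi) {b w : ℝ} (hb : ∀ y : ℤ, lo ≤ y → y ≤ hi → e F d n' y ≤ b) {mu : ℤ} (hmu : 0 ≤ mu) (hw : 0 < w)
    (hw1 : w ≤ (hi : ℝ) - lo) (hmw : 2 * (mu : ℝ) ≤ w) :
    ∃ hh : ℤ, lo ≤ hh - mu ∧ hh ≤ hi ∧ e F d n' hh ≤ e F d n' (xs F d n') + 2 * mu / w * b ∧
      e F d n' (hh - mu) ≤ e F d n' (xs F d n') + 2 * mu / w * b := by
  obtain ⟨x, hx⟩ : ∃ x, x = xs F d n' := ⟨_, rfl⟩
  rw [← hx] at hlo hhi ⊢
  have hx0 : 0 ≤ e F d n' x := e_nonneg' (h.touch d hd) hn x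
  have hb0 : 0 ≤ b := hx0.trans (hb x hlo hhi)
  have hmu' : (0 : ℝ) ≤ mu := by exact_mod_cast hmu
  have hr : 0 ≤ 2 * mu / w * b := by positivity
  by_cases hc : w ≤ 2 * ((hi : ℝ) - x)
  · have h1 : x + mu ≤ hi := by
      have h2 : (x : ℝ) + mu ≤ hi := by linarith
      exact_mod_cast h2
    refine ⟨x + mu, by omega, h1, ?_, ?_⟩
    · have h2 := e_chord F d hn (show x ≤ x + mu by omega) h1
      push_cast at h2
      have h3 := hb hi (by omega) le_rfl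
      have h4 : (0 : ℝ) < hi - x := by linarith
      have h5 : ((hi : ℝ) - x) * e F d n' (x + mu) ≤ ((hi : ℝ) - x) * (e F d n' x + 2 * mu / w * b) := by
        have h6 : ((hi : ℝ) - (x + mu)) * e F d n' x ≤ ((hi : ℝ) - x) * e F d n' x :=
          mul_le_mul_of_nonneg_right (by linarith) hx0
        have h7 : ((x : ℝ) + mu - x) * e F d n' hi ≤ mu * b := by
          rw [add_sub_cancel_left]
          exact mul_le_mul_of_nonneg_left h3 hmu'
        have h8 : mu * b ≤ ((hi : ℝ) - x) * (2 * mu / w * b) := by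
          have h9 : w * (mu * b) ≤ (2 * ((hi : ℝ) - x)) * (mu * b) := mul_le_mul_of_nonneg_right hc (by positivity)
          have e1 : ((hi : ℝ) - x) * (2 * mu / w * b) = (2 * ((hi : ℝ) - x)) * (mu * b) / w := by
            field_simp
          rw [e1, le_div_iff₀ hw]
          linarith
        linarith
      exact le_of_mul_le_mul_left h5 h4
    · rw [add_sub_cancel_right]
      linarith
  · rw [not_le] at hc
    have hc' : w ≤ 2 * ((x : ℝ) - lo) := by linarith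
    have h1 : lo ≤ x - mu := by
      have h2 : (lo : ℝ) ≤ x - mu := by linarith
      exact_mod_cast h2
    refine ⟨x, h1, hhi, by linarith, ?_⟩
    have h2 := e_chord F d hn h1 (show x - mu ≤ x by omega)
    push_cast at h2
    have h3 := hb lo le_rfl (by omega)
    have h4 : (0 : ℝ) < x - lo := by linarith
    have h5 : ((x : ℝ) - lo) * e F d n' (x - mu) ≤ ((x : ℝ) - lo) * (e F d n' x + 2 * mu / w * b) := by
      have h6 : ((x : ℝ) - mu - lo) * e F d n' x ≤ ((x : ℝ) - lo) * e F d n' x :=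
        mul_le_mul_of_nonneg_right (by linarith) hx0
      have h7 : ((x : ℝ) - (x - mu)) * e F d n' lo ≤ mu * b := by
        rw [sub_sub_cancel]
        exact mul_le_mul_of_nonneg_left h3 hmu'
      have h8 : mu * b ≤ ((x : ℝ) - lo) * (2 * mu / w * b) := by
        have h9 : w * (mu * b) ≤ (2 * ((x : ℝ) - lo)) * (mu * b) := mul_le_mul_of_nonneg_right hc' (by positivity)
        have e1 : ((x : ℝ) - lo) * (2 * mu / w * b) = (2 * ((x : ℝ) - lo)) * (mu * b) / w := by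
          field_simp
        rw [e1, le_div_iff₀ hw]
        linarith
      linarith
    exact le_of_mul_le_mul_left h5 h4

/-- Integer division from below. -/
theorem div_lo33 {a : ℤ} {N : ℕ} (hN : 1 ≤ N) {x : ℝ} (h : x * N ≤ a) : x - 1 ≤ ((a / (N : ℤ) : ℤ) : ℝ) := by
  have hN0 : (0 : ℝ) < N := by exact_mod_cast hN
  have h1 : a < (a / (N : ℤ) + 1) * N := Int.lt_ediv_add_one_mul_self a (by omega)
  have h2 : (a : ℝ) < (((a / (N : ℤ) : ℤ) : ℝ) + 1) * N := by exact_mod_cast h1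
  have h3 : x * N < (((a / (N : ℤ) : ℤ) : ℝ) + 1) * N := lt_of_le_of_lt h h2
  have h4 := lt_of_mul_lt_mul_right h3 hN0.le
  linarith

/-! ### The numbers -/

/-- **The numbers of the inner edge**, side `sg`: `K + 1` windows of length `n'`, cells of width `mu`, end point `z`, walls `Y`
(from the start), `Y'` (from the end), references of displacement `h`, `h - mu`. -/
structure NumX (F : Fm) (d : Dr) (sg A0 : ℝ) (z0 z1 : ℕ) (E : ℝ) (L n' K J : ℕ) (z h mu : ℤ) (cc Y Y' : ℕ → ℤ)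
    (Ce c1 Bw cw rm Bn : ℝ) : Prop where
  n1 : 8 ≤ n'
  n2 : 16 * n' ≤ L
  deep : Bn * E ≤ n'
  mu1 : 1 ≤ mu
  J1 : 1 ≤ J
  tn1 : ∀ j ≤ K, 1 ≤ tn L n' j
  tnN : ∀ j ≤ K, tn L n' j + n' ≤ NN L n' K
  NE : EE F d (NN L n' K) ≤ E
  path : e F d (NN L n' K) z ≤ c1 * E
  refh : e F d n' h + Cr F ≤ Em F d L + rm * E
  refh' : e F d n' (h - mu) + Cr F ≤ Em F d L + rm * E
  wall : ∀ j ≤ K, Bw * E ≤ e F d (tn L n' j) (Y j)
  ref0 : ∀ j ≤ K, 0 ≤ sg * ((Y j : ℝ) - xs F d (tn L n' j))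
  wall' : ∀ j ≤ K, Bw * E ≤ e F d (NN L n' K - tn L n' j) (z - Y' j)
  ref0' : ∀ j ≤ K, 0 ≤ sg * ((z : ℝ) - Y' j - xs F d (NN L n' K - tn L n' j))
  win1 : ∀ j ≤ K, (cc j : ℝ) + cw * E ≤ Y j
  win2 : ∀ j ≤ K, (cc j : ℝ) + cw * E ≤ Y' j
  win3 : ∀ j ≤ K, (Y j : ℝ) + cw * E < cc j + J * mu
  win4 : ∀ j ≤ K, (Y' j : ℝ) + cw * E < cc j + J * mu
  loc1 : sg = 1 → (d.v + (vs A0 F d sg (2 ^ z1) - Ce * dl A0 F d z0 z1)) * L ≤
    (((z + (K + 1) * (h - mu)) / ((K + 2 : ℕ) : ℤ) : ℤ) : ℝ)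
  loc2 : sg = -1 → ((-((-(z + (K + 1) * h)) / ((K + 2 : ℕ) : ℤ)) : ℤ) : ℝ) ≤
    (d.v - (vs A0 F d sg (2 ^ z1) - Ce * dl A0 F d z0 z1)) * L

/-- The times. -/
theorem tn_facts {L n' K j : ℕ} (hn : 16 * n' ≤ L) (hn' : 1 ≤ n') (hj : j ≤ K) :
    1 ≤ tn L n' j ∧ tn L n' j + n' ≤ NN L n' K ∧ NN L n' K + (K + 1) * n' = (K + 2) * L ∧
      (K + 2) * (15 * L) ≤ 16 * NN L n' K := by
  obtain ⟨m, rfl⟩ : ∃ m, L = 16 * n' + m := ⟨L - 16 * n', by omega⟩
  have e1 : 16 * n' + m - n' = 15 * n' + m := by omega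
  have h1 : tn (16 * n' + m) n' j ≤ (K + 1) * (15 * n' + m) := by
    unfold tn
    rw [e1]
    exact Nat.mul_le_mul_right _ (by omega)
  have h2 : NN (16 * n' + m) n' K = (K + 2) * (15 * n' + m) + n' := by
    unfold NN
    have e2 : (K + 2) * (16 * n' + m) = ((K + 2) * (15 * n' + m) + n') + (K + 1) * n' := by ring
    rw [e2, Nat.add_sub_cancel]
  have h3 : 1 ≤ tn (16 * n' + m) n' j := by
    unfold tn
    rw [e1]
    exact Nat.mul_pos (by omega) (by omega)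
  refine ⟨h3, ?_, ?_, ?_⟩
  · rw [h2]
    have : (K + 2) * (15 * n' + m) = (K + 1) * (15 * n' + m) + (15 * n' + m) := by ring
    omega
  · rw [h2]
    ring
  · rw [h2]
    nlinarith

/-- THE WALLS of one window. -/
theorem walls33 (h : Dirs F κ Kd Ds) (hd : d ∈ Ds) (hsg : sg = 1 ∨ sg = -1) (hA0 : 0 < A0) (W : FW F d A0 A1 k z0 z1)
    {w N T : ℕ} (hw0 : z0 ≤ w) (hw1 : w ≤ z1) (hN : 2 ^ w ≤ 8 * N) (hNw : N ≤ 2 ^ w) (hT : 1 ≤ T) (hTN : T ≤ N)
    {CW Bw : ℝ} (hCW : 1 ≤ CW) (hBw : 1 < Bw) (hCWB : Bw ≤ (CW - 1) * (A0 / 50)) {Y : ℤ}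
    (hY : vs A0 F d sg (2 ^ z1) * T + CW * dl A0 F d z0 z1 * N ≤ sg * ((Y : ℝ) - d.v * T)) :
    Bw * EE F d (2 ^ w) ≤ e F d T Y ∧ 0 ≤ sg * ((Y : ℝ) - xs F d T) := by
  have hT0 : (0 : ℝ) < T := by exact_mod_cast hT
  have hl := W.len4
  have hD : 0 ≤ dl A0 F d z0 z1 := op_dl_nonneg h hd hA0.le (by omega)
  have hvs : 0 ≤ vs A0 F d sg (2 ^ z1) := vs_nonneg h hd hsg hA0.le
  obtain ⟨x, hx⟩ : ∃ x : ℝ, x = sg * ((Y : ℝ) / T - d.v) := ⟨_, rfl⟩
  have hx1 : vs A0 F d sg (2 ^ z1) + CW * dl A0 F d z0 z1 * (N / T) ≤ x := by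
    have e1 : x = sg * ((Y : ℝ) - d.v * T) / T := by
      rw [hx]
      field_simp
    rw [e1, le_div_iff₀ hT0]
    have e2 : (vs A0 F d sg (2 ^ z1) + CW * dl A0 F d z0 z1 * (N / T)) * T =
        vs A0 F d sg (2 ^ z1) * T + CW * dl A0 F d z0 z1 * N := by
      field_simp
    rw [e2]
    exact hY
  have hx0 : 0 ≤ x := by
    have : 0 ≤ CW * dl A0 F d z0 z1 * (N / T) := by positivity
    linarith
  have h1 := W.wall h hd hsg hA0 hw0 hw1 hN hT hTN hCW hx1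
  have e3 : sg * x = (Y : ℝ) / T - d.v := by rw [hx, ← mul_assoc, sg_sq hsg, one_mul]
  rw [e3] at h1
  have hE := EE_pos F d (2 ^ w)
  have h2 := mul_le_mul_of_nonneg_right hCWB hE.le
  have h3 := e_lower F d hT Y
  refine ⟨by linarith, xs_side h hd hsg hT (by rw [← hx]; exact hx0) ?_⟩
  have h4 : EE F d T ≤ EE F d (2 ^ w) := EE_mono F d (hTN.trans hNw)
  have h5 : 1 * EE F d (2 ^ w) < Bw * EE F d (2 ^ w) := mul_lt_mul_of_pos_right hBw hE
  linarith

/-- Location of the end point (pure). -/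
theorem loc33 {q D G L N K n' Rs V1 Ci Ce zz hv : ℝ} (hG : G = D * L) (hG1 : 1 ≤ G) (hN : N + (K + 1) * n' = (K + 2) * L)
    (hK : 0 ≤ K) (hn : 0 ≤ n') (hRV : Rs ≤ V1) (hnV : n' * V1 ≤ G) (hDN : D * N ≤ (K + 2) * G) (hCi : 0 ≤ Ci)
    (hCe : Ci + 16 ≤ Ce) (hz : q * N + (Rs - Ci * D) * N < zz + 1) (hh : q * n' - (12 * G + 1) ≤ hv) :
    ((q + (Rs - Ce * D)) * L + 1) * (K + 2) ≤ zz + (K + 1) * hv := by
  have g2 : (K + 1) * (q * n' - (12 * G + 1)) ≤ (K + 1) * hv := mul_le_mul_of_nonneg_left hh (by positivity)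
  have g3 : Rs * ((K + 1) * n') ≤ (K + 1) * G := by
    have g4 : n' * Rs ≤ n' * V1 := mul_le_mul_of_nonneg_left hRV hn
    have := mul_le_mul_of_nonneg_left (g4.trans hnV) (show (0 : ℝ) ≤ K + 1 by positivity)
    linarith
  have g5 : Ci * (D * N) ≤ Ci * ((K + 2) * G) := mul_le_mul_of_nonneg_left hDN hCi
  have g6 : (Ci + 16) * ((K + 2) * G) ≤ Ce * ((K + 2) * G) := mul_le_mul_of_nonneg_right hCe (by positivity)
  have g7 : (K + 2 : ℝ) * 1 ≤ (K + 2) * G := mul_le_mul_of_nonneg_left hG1 (by positivity)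
  have e1 : N = (K + 2) * L - (K + 1) * n' := by linarith
  have e3 : ((q + (Rs - Ce * D)) * L + 1) * (K + 2) =
      (K + 2) * (q * L) + Rs * ((K + 2) * L) - Ce * ((K + 2) * (D * L)) + (K + 2) := by ring
  rw [e3, ← hG]
  have e4 : q * N + (K + 1) * (q * n') = (K + 2) * (q * L) := by rw [e1]; ring
  have e5 : Rs * N = Rs * ((K + 2) * L) - Rs * ((K + 1) * n') := by rw [e1]; ring
  have g8 : 0 ≤ K * G := by positivity
  linarith

/-- Positions of the walls (pure). -/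
theorem pos33 (hsg : sg = 1 ∨ sg = -1) {v T N T' Rs Ci CW DN Y Y' z W0 : ℝ} (hT : T' = N - T)
    (hCi : 0 ≤ Ci) (hCW : 0 ≤ CW) (hDN : 0 ≤ DN) (hW : W0 = (Ci + CW) * DN + 2)
    (a1 : sg * (v * T + sg * (Rs * T + CW * DN)) ≤ sg * Y) (a2 : sg * Y < sg * (v * T + sg * (Rs * T + CW * DN)) + 1)
    (b1 : sg * Y' ≤ sg * (z - v * T' - sg * (Rs * T' + CW * DN)))
    (b2 : sg * (z - v * T' - sg * (Rs * T' + CW * DN)) < sg * Y' + 1)
    (z1 : sg * z ≤ sg * (v * N) + (Rs * N - Ci * DN)) (z2 : sg * (v * N) + (Rs * N - Ci * DN) < sg * z + 1) :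
    |Y - (v * T + sg * (Rs * T))| ≤ W0 ∧ |Y' - (v * T + sg * (Rs * T))| ≤ W0 := by
  subst hT hW
  have q0 : 0 ≤ Ci * DN := mul_nonneg hCi hDN
  have q1 : 0 ≤ CW * DN := mul_nonneg hCW hDN
  rcases hsg with rfl | rfl
  · constructor <;> rw [abs_le] <;> constructor <;> linarith
  · constructor <;> rw [abs_le] <;> constructor <;> linarith

/-- THE NUMBERS at one scale, all smallness conditions explicit. -/
theorem numX_scale (h : Dirs F κ Kd Ds) (hd : d ∈ Ds) (hsg : sg = 1 ∨ sg = -1) (hA0 : 0 < A0) (h01 : A0 < A1)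
    (W : FW F d A0 A1 k z0 z1) {y m K L : ℕ} (hy0 : z0 + k + 2 = y) (hz1 : y + m + 3 ≤ z1) (hm : 1 ≤ m)
    (hK : K + 2 = 2 ^ m) (hL1 : 2 ^ (y - 2) ≤ L) (hL2 : L ≤ 2 ^ y) {c0 C' : ℝ} (hc0 : 0 < c0) (hC' : 0 ≤ C')
    (hch : CheapI A0 F Ds c0 C') {Ci c1 : ℝ} (hCi : 0 ≤ Ci) (hc1 : 1 ≤ c1)
    (hin : ∀ N : ℕ, 2 ^ (z0 + k) ≤ N → N ≤ 2 ^ (z1 - 3) → ∀ y : ℤ,
      -(vl A0 F d (2 ^ z1) - Ci * dl A0 F d z0 z1) * N ≤ y - d.v * N →
      y - d.v * N ≤ (vr A0 F d (2 ^ z1) - Ci * dl A0 F d z0 z1) * N → e F d N y ≤ c1 * EE F d N)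
    {Ce : ℝ} (hCe : Ci + 16 ≤ Ce) (hCek : (2 : ℝ) ^ (k + 1) ≤ Ce)
    (hdl : 2 * Ce * dl A0 F d z0 z1 ≤ vA A0 F d (2 ^ z1)) {CW Bw : ℝ} (hCW : 1 ≤ CW) (hBw : 1 < Bw)
    (hCWB : Bw ≤ (CW - 1) * (A0 / 50)) {cw δ rm Bn : ℝ} (hcw : 0 ≤ cw) (hδ : 0 < δ) (hδ1 : 16 * δ ≤ c0)
    (hrm : 16 * δ / c0 * C' ≤ rm) {J : ℕ}
    (hJ : 2 * (2 * ((Ci + CW) * (K + 2) + 2 + 4 * cw * (K + 2) / cJ F A0 A1) + 1) ≤ δ * J)
    (hV16 : 16 * vA A0 F d (2 ^ z1) ≤ dl A0 F d z0 z1 * L) (hVB : 8 * 2 ^ m * Bn * vA A0 F d (2 ^ z1) ≤ cJ F A0 A1)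
    (hDL1 : 1 ≤ dl A0 F d z0 z1 * L) (hDL2 : 2 ≤ δ * (dl A0 F d z0 z1 * L)) (hDL3 : 8 ≤ c0 * (dl A0 F d z0 z1 * L)) :
    ∃ (n' : ℕ) (z hh mu : ℤ) (cc Y Y' : ℕ → ℤ),
      NumX F d sg A0 z0 z1 (EE F d (2 ^ (y + m))) L n' K J z hh mu cc Y Y' Ce c1 Bw cw rm Bn := by
  have hl4 := W.len4
  have hDp0 := W.dl_pos h hd hA0
  have hV1p0 : 0 < vA A0 F d (2 ^ z1) := h.vA_pos hd hA0 Nat.one_le_two_pow
  have hcJ : 0 < cJ F A0 A1 := cJ_pos F h01
  obtain ⟨D, hD⟩ : ∃ D, D = dl A0 F d z0 z1 := ⟨_, rfl⟩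
  obtain ⟨V1, hV1⟩ : ∃ V, V = vA A0 F d (2 ^ z1) := ⟨_, rfl⟩
  obtain ⟨E, hE⟩ : ∃ E, E = EE F d (2 ^ (y + m)) := ⟨_, rfl⟩
  obtain ⟨Rs, hRs⟩ : ∃ R, R = vs A0 F d sg (2 ^ z1) := ⟨_, rfl⟩
  obtain ⟨cj, hcj⟩ : ∃ c, c = cJ F A0 A1 := ⟨_, rfl⟩
  have hE0 : 0 < E := by rw [hE]; exact EE_pos F d _
  have hRs0 : 0 ≤ Rs := by rw [hRs]; exact vs_nonneg h hd hsg hA0.le
  -- one side is at most the width
  have hRsV : Rs ≤ V1 := by
    have g1 := vs_nonneg (n := 2 ^ z1) (sg := 1) h hd (Or.inl rfl) hA0.le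
    have g2 := vs_nonneg (n := 2 ^ z1) (sg := -1) h hd (Or.inr rfl) hA0.le
    rw [vs_one] at g1
    rw [vs_neg] at g2
    rw [hRs, hV1]
    unfold vA
    rcases hsg with rfl | rfl
    · rw [vs_one]; linarith
    · rw [vs_neg]; linarith
  have hy2 : 2 ≤ y := by omega
  have p1 : (2 : ℝ) ^ y = 4 * 2 ^ (y - 2) := by
    obtain ⟨q, rfl⟩ : ∃ q, y = q + 2 := ⟨y - 2, by omega⟩
    rw [Nat.add_sub_cancel, pow_add]
    ring
  have hL1r : (2 : ℝ) ^ (y - 2) ≤ L := by exact_mod_cast hL1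
  have hL2r : (L : ℝ) ≤ 2 ^ y := by exact_mod_cast hL2
  have hL0 : (0 : ℝ) < L := lt_of_lt_of_le (by positivity) hL1r
  have hKr : (K : ℝ) + 2 = 2 ^ m := by exact_mod_cast hK
  -- thick
  have hth := W.thick (n := 2 ^ (y + m)) h hd hA0 h01 (Nat.pow_le_pow_right (by norm_num) (by omega))
    (Nat.pow_le_pow_right (by norm_num) (by omega))
  rw [← hE, ← hD, ← hcj] at hth
  push_cast at hth
  rw [← hD, ← hV1] at hdl
  rw [← hV1, ← hD] at hV16
  rw [← hV1, ← hcj] at hVB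
  rw [← hD] at hDL1 hDL2 hDL3 hDp0
  rw [← hV1] at hV1p0
  rw [← hcj] at hcJ hJ
  obtain ⟨G, hG⟩ : ∃ G, G = D * L := ⟨_, rfl⟩
  rw [← hG] at hDL1 hDL2 hDL3 hV16
  have hG0 : 0 < G := by linarith
  have hthG : cj * E ≤ 4 * 2 ^ m * G := by
    refine hth.trans ?_
    rw [pow_add, p1, hG]
    have := mul_le_mul_of_nonneg_left hL1r (show 0 ≤ D * 4 * 2 ^ m by positivity)
    linarith
  -- the window length
  obtain ⟨n', hn'⟩ : ∃ n' : ℕ, n' = ⌊G / V1⌋₊ := ⟨_, rfl⟩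
  have f1 : (n' : ℝ) * V1 ≤ G := by
    rw [← le_div_iff₀ hV1p0, hn']
    exact Nat.floor_le (by positivity)
  have f2 : G < (n' + 1) * V1 := by
    rw [← div_lt_iff₀ hV1p0, hn']
    exact Nat.lt_floor_add_one _
  have hn16 : (15 : ℝ) < n' := by
    have : 16 * V1 < (n' + 1) * V1 := lt_of_le_of_lt hV16 f2
    have := lt_of_mul_lt_mul_right this hV1p0.le
    linarith
  have hn8 : 8 ≤ n' := by
    have : (15 : ℕ) < n' := by exact_mod_cast hn16
    omega
  have hn1 : 1 ≤ n' := by omega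
  have hn0 : (0 : ℝ) < n' := by linarith
  have f3 : 15 / 16 * G ≤ n' * V1 := by linarith
  have f4 : 2 * Ce * n' ≤ L := by
    have g1 : 2 * Ce * n' * V1 ≤ L * V1 := by
      have g2 := mul_le_mul_of_nonneg_left f1 (show 0 ≤ 2 * Ce by linarith)
      have g3 := mul_le_mul_of_nonneg_right hdl hL0.le
      rw [hG] at g2
      linarith
    exact le_of_mul_le_mul_right g1 hV1p0
  have hn2 : 16 * n' ≤ L := by
    have g1 : (16 : ℝ) * n' ≤ L := by
      have g2 : (32 : ℝ) * n' ≤ 2 * Ce * n' := mul_le_mul_of_nonneg_right (by linarith) hn0.le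
      linarith
    exact_mod_cast g1
  have hnz0 : n' ≤ 2 ^ z0 := by
    have g1 : (2 : ℝ) ^ (k + 2) * n' ≤ 2 ^ (k + 2) * 2 ^ z0 := by
      have g2 : (2 : ℝ) ^ (k + 2) * n' ≤ 2 * Ce * n' := by
        refine mul_le_mul_of_nonneg_right ?_ hn0.le
        rw [show k + 2 = k + 1 + 1 by omega, pow_succ]
        linarith
      have g3 : (2 : ℝ) ^ y = 2 ^ (k + 2) * 2 ^ z0 := by
        rw [← pow_add]
        congr 1
        omega
      linarith
    have g2 := le_of_mul_le_mul_left g1 (by positivity)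
    exact_mod_cast g2
  have hnL : n' ≤ L := by omega
  -- the cells
  obtain ⟨mu, hmu⟩ : ∃ mu : ℤ, mu = ⌊δ * G⌋ := ⟨_, rfl⟩
  have m1 : (mu : ℝ) ≤ δ * G := by rw [hmu]; exact Int.floor_le _
  have m2 : δ * G < mu + 1 := by rw [hmu]; exact Int.lt_floor_add_one _
  have m3 : δ * G / 2 ≤ mu := by linarith
  have hmu1 : 1 ≤ mu := by
    have g1 : (0 : ℝ) < mu := by linarith
    have g2 : 0 < mu := by exact_mod_cast g1
    omega
  -- the widths of the windows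
  have hw1 : G / 4 ≤ n' * vA A0 F d n' := by
    have g1 := h.vA_le_two hd hA0.le hn1 (hnz0.trans (Nat.pow_le_pow_right (by norm_num) (show z0 ≤ z1 by omega)))
    rw [← hV1] at g1
    have g2 := mul_le_mul_of_nonneg_left g1 hn0.le
    linarith
  have hw2 : n' * vA A0 F d n' ≤ 6 * G := by
    have g1 := W.small_vA h hd hA0 hA0.le hn1 hnz0
    rw [← hD, div_self hA0.ne', mul_one] at g1
    have e1 : vA A0 F d (2 ^ z0) = V1 + D := by
      rw [hD, hV1]
      unfold dl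
      ring
    rw [e1] at g1
    have g2 := mul_le_mul_of_nonneg_left g1 hn0.le
    have e2 : (n' : ℝ) * (V1 + D + 4 * D * (2 ^ z0 / n')) = n' * V1 + n' * D + 4 * D * 2 ^ z0 := by
      field_simp
    rw [e2] at g2
    have g3 : (n' : ℝ) * D ≤ G := by
      have g4 : (n' : ℝ) ≤ L := by exact_mod_cast hnL
      rw [hG]
      have := mul_le_mul_of_nonneg_right g4 hDp0.le
      linarith
    have g5 : (2 : ℝ) ^ z0 ≤ L := by
      have g6 : (2 : ℝ) ^ z0 ≤ 2 ^ (y - 2) := pow_le_pow_right₀ (by norm_num) (by omega)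
      linarith
    have g7 : 4 * D * 2 ^ z0 ≤ 4 * G := by
      have := mul_le_mul_of_nonneg_left g5 (show 0 ≤ 4 * D by positivity)
      rw [hG]
      linarith
    linarith
  -- the references
  obtain ⟨lo, hi, r1, r2, r3, r4⟩ := hch d hd n' hn1
  have hEn : EE F d n' ≤ E := by
    rw [hE]
    exact EE_mono F d (hnz0.trans (Nat.pow_le_pow_right (by norm_num) (by omega)))
  have r5 : c0 * G / 8 ≤ (hi : ℝ) - lo := by
    have g1 := mul_le_mul_of_nonneg_left hw1 hc0.le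
    linarith
  obtain ⟨hh, k1, k2, k3, k4⟩ := refs33 (b := C' * E) (w := c0 * G / 8) h hd hn1 r1 r2
    (fun yy q1 q2 => ((r4 yy q1 q2).1).trans (mul_le_mul_of_nonneg_left hEn hC')) (mu := mu) (by omega) (by positivity) r5 (by
      have g1 := mul_le_mul_of_nonneg_right hδ1 hG0.le
      linarith)
  have hrm' : 2 * (mu : ℝ) / (c0 * G / 8) * (C' * E) ≤ rm * E := by
    have e1 : 2 * (mu : ℝ) / (c0 * G / 8) * (C' * E) = 16 * mu / (c0 * G) * C' * E := by
      field_simp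
      ring
    rw [e1]
    refine mul_le_mul_of_nonneg_right (le_trans (mul_le_mul_of_nonneg_right ?_ hC') hrm) hE0.le
    rw [div_le_div_iff₀ (by positivity) hc0]
    have := mul_le_mul_of_nonneg_right m1 (show 0 ≤ 16 * c0 by positivity)
    linarith
  have hEm := le_Em F d hnL
  have hloc0 := (r4 hh (by omega) k2).2
  have hloc1 := (r4 (hh - mu) k1 (by omega)).2
  -- the total duration
  obtain ⟨N, hN⟩ : ∃ N, N = NN L n' K := ⟨_, rfl⟩
  have tf := fun j (hj : j ≤ K) => tn_facts hn2 hn1 hj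
  obtain ⟨-, -, t3, t4⟩ := tf 0 (Nat.zero_le _)
  rw [← hN] at t3 t4
  have hNeq : (N : ℝ) + (K + 1) * n' = (K + 2) * L := by exact_mod_cast t3
  have hN15 : ((K : ℝ) + 2) * (15 * L) ≤ 16 * N := by exact_mod_cast t4
  have hKp : (0 : ℝ) ≤ K := Nat.cast_nonneg K
  have hNle : (N : ℝ) ≤ (K + 2) * L := by
    have : (0 : ℝ) ≤ (K + 1) * n' := by positivity
    linarith
  have hNw : N ≤ 2 ^ (y + m) := by
    have g1 : (N : ℝ) ≤ 2 ^ (y + m) := by
      have g2 : ((K : ℝ) + 2) * L ≤ 2 ^ m * 2 ^ y := by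
        rw [hKr]
        exact mul_le_mul_of_nonneg_left hL2r (by positivity)
      rw [pow_add]
      linarith
    exact_mod_cast g1
  have hNw8 : 2 ^ (y + m) ≤ 8 * N := by
    have g1 : (2 : ℝ) ^ (y + m) ≤ 8 * N := by
      have g2 : (2 : ℝ) ^ m * (15 * 2 ^ (y - 2)) ≤ (K + 2) * (15 * L) := by
        rw [hKr]
        exact mul_le_mul_of_nonneg_left (by linarith) (by positivity)
      have g3 : (2 : ℝ) ^ (y + m) = 4 * (2 ^ m * 2 ^ (y - 2)) := by
        rw [pow_add, p1]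
        ring
      have g4 : (0 : ℝ) < 2 ^ m * 2 ^ (y - 2) := by positivity
      linarith
    exact_mod_cast g1
  have hm2 : (2 : ℝ) ≤ K + 2 := by
    rw [hKr]
    calc (2 : ℝ) = 2 ^ 1 := by norm_num
      _ ≤ 2 ^ m := pow_le_pow_right₀ (by norm_num) hm
  have hNL : (L : ℝ) ≤ N := by
    have g1 : 2 * (15 * L) ≤ ((K : ℝ) + 2) * (15 * L) := mul_le_mul_of_nonneg_right hm2 (by positivity)
    linarith
  have hNL' : L ≤ N := by exact_mod_cast hNL
  have hNlo : 2 ^ (z0 + k) ≤ N := by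
    have g1 : 2 ^ (z0 + k) ≤ 2 ^ (y - 2) := Nat.pow_le_pow_right (by norm_num) (by omega)
    exact g1.trans (hL1.trans hNL')
  have hNhi : N ≤ 2 ^ (z1 - 3) := hNw.trans (Nat.pow_le_pow_right (by norm_num) (by omega))
  have hDN : 1 ≤ D * N := by
    have g1 := mul_le_mul_of_nonneg_left hNL hDp0.le
    rw [hG] at hDL1
    linarith
  have hN0 : (0 : ℝ) < N := by linarith
  have hDN2 : D * N ≤ (K + 2) * G := by
    have g1 := mul_le_mul_of_nonneg_left hNle hDp0.le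
    rw [hG]
    linarith
  have hENE : EE F d N ≤ E := by
    rw [hE]
    exact EE_mono F d hNw
  -- the end point
  obtain ⟨z, hz1', hz2'⟩ := rnd_in hsg (d.v * N + sg * ((Rs - Ci * D) * N))
  have hsq := sg_sq hsg
  have ez : sg * (d.v * N + sg * ((Rs - Ci * D) * N)) = sg * (d.v * N) + (Rs - Ci * D) * N := by
    have : sg * (sg * ((Rs - Ci * D) * N)) = (Rs - Ci * D) * N := by rw [← mul_assoc, hsq, one_mul]
    linarith
  rw [ez] at hz1' hz2'
  have hpath : e F d N z ≤ c1 * E := by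
    refine le_trans ?_ (mul_le_mul_of_nonneg_left hENE (by linarith))
    have g0 : 1 ≤ (V1 - 2 * Ci * D) * N := by
      have g1 : 2 * (Ci + 16) * D ≤ V1 := (mul_le_mul_of_nonneg_right (by linarith) hDp0.le).trans hdl
      have g2 : 32 * D ≤ V1 - 2 * Ci * D := by linarith
      have g3 := mul_le_mul_of_nonneg_right g2 hN0.le
      linarith
    have g4 : V1 = vr A0 F d (2 ^ z1) + vl A0 F d (2 ^ z1) := by rw [hV1]; rfl
    refine hin N hNlo hNhi z ?_ ?_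
    · rw [← hD]
      rcases hsg with rfl | rfl
      · rw [vs_one] at hRs
        rw [g4, ← hRs] at g0
        linarith
      · rw [vs_neg] at hRs
        rw [← hRs]
        linarith
    · rw [← hD]
      rcases hsg with rfl | rfl
      · rw [vs_one] at hRs
        rw [← hRs]
        linarith
      · rw [vs_neg] at hRs
        rw [g4, ← hRs] at g0
        linarith
  -- the walls
  have hY : ∀ j : ℕ, ∃ Y : ℤ, sg * (d.v * tn L n' j + sg * (Rs * tn L n' j + CW * D * N)) ≤ sg * Y ∧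
      sg * Y < sg * (d.v * tn L n' j + sg * (Rs * tn L n' j + CW * D * N)) + 1 := fun j => rnd_out hsg _
  have hY' : ∀ j : ℕ, ∃ Y : ℤ,
      sg * Y ≤ sg * (z - d.v * (N - tn L n' j : ℕ) - sg * (Rs * (N - tn L n' j : ℕ) + CW * D * N)) ∧
      sg * (z - d.v * (N - tn L n' j : ℕ) - sg * (Rs * (N - tn L n' j : ℕ) + CW * D * N)) < sg * Y + 1 :=
    fun j => rnd_in hsg _
  choose Y hYa hYb using hY
  choose Y' hY'a hY'b using hY'
  have eY : ∀ t : ℝ, sg * (sg * t) = t := fun t => by rw [← mul_assoc, hsq, one_mul]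
  -- the window positions
  obtain ⟨W0, hW0⟩ : ∃ W0, W0 = (Ci + CW) * (D * N) + 2 := ⟨_, rfl⟩
  obtain ⟨cc, hcc⟩ : ∃ cc : ℕ → ℤ, cc = fun j => ⌊d.v * tn L n' j + sg * (Rs * tn L n' j) - W0 - cw * E⌋ := ⟨_, rfl⟩
  have hJmu : 2 * (W0 + cw * E) + 1 ≤ J * mu := by
    have g1 : W0 ≤ (Ci + CW) * ((K + 2) * G) + 2 * G := by
      rw [hW0]
      have := mul_le_mul_of_nonneg_left hDN2 (show 0 ≤ Ci + CW by linarith)
      linarith
    have g2 : cw * E ≤ 4 * cw * (K + 2) / cj * G := by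
      have g3 := mul_le_mul_of_nonneg_left hthG hcw
      rw [div_mul_eq_mul_div, le_div_iff₀ hcJ, hKr]
      linarith
    have g4 := mul_le_mul_of_nonneg_right hJ hG0.le
    have g5 := mul_le_mul_of_nonneg_left m3 (Nat.cast_nonneg J)
    have e1 : 2 * (2 * ((Ci + CW) * (K + 2) + 2 + 4 * cw * (K + 2) / cj) + 1) * G =
        2 * (2 * ((Ci + CW) * ((K + 2) * G) + 2 * G + 4 * cw * (K + 2) / cj * G) + G) := by ring
    rw [e1] at g4
    linarith
  have hpos : ∀ j ≤ K, |(Y j : ℝ) - (d.v * tn L n' j + sg * (Rs * tn L n' j))| ≤ W0 ∧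
      |(Y' j : ℝ) - (d.v * tn L n' j + sg * (Rs * tn L n' j))| ≤ W0 := by
    intro j hj
    obtain ⟨t1, t2, -, -⟩ := tf j hj
    rw [← hN] at t2
    have tN : ((N - tn L n' j : ℕ) : ℝ) = N - tn L n' j := by
      rw [Nat.cast_sub (by omega)]
    have a1 := hYa j
    have a2 := hYb j
    have b1 := hY'a j
    have b2 := hY'b j
    rw [mul_assoc CW D N] at a1 a2 b1 b2
    have e1 : (Rs - Ci * D) * N = Rs * N - Ci * (D * N) := by ring
    rw [e1] at hz1' hz2'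
    exact pos33 hsg tN hCi (zero_le_one.trans hCW) (by positivity) hW0 a1 a2 b1 b2 hz1' hz2'
  have hccl : ∀ j, (cc j : ℝ) ≤ d.v * tn L n' j + sg * (Rs * tn L n' j) - W0 - cw * E := fun j => by
    rw [hcc]
    exact Int.floor_le _
  have hccu : ∀ j, d.v * tn L n' j + sg * (Rs * tn L n' j) - W0 - cw * E < cc j + 1 := fun j => by
    rw [hcc]
    exact Int.lt_floor_add_one _
  refine ⟨n', z, hh, mu, cc, Y, Y', ?_⟩
  rw [← hE]
  exact
    { n1 := hn8
      n2 := hn2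
      deep := by
        have g1 := mul_le_mul_of_nonneg_right hVB hE0.le
        have g2 : 8 * 2 ^ m * V1 * (Bn * E) ≤ 8 * 2 ^ m * V1 * n' := by
          have g3 := mul_le_mul_of_nonneg_left f3 (show (0 : ℝ) ≤ 8 * 2 ^ m by positivity)
          have g4 : (0 : ℝ) ≤ 2 ^ m * G := by positivity
          linarith
        exact le_of_mul_le_mul_left g2 (by positivity)
      mu1 := hmu1
      J1 := by
        have g1 : (0 : ℝ) < δ * J := by
          refine lt_of_lt_of_le ?_ hJ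
          have g2 : 0 ≤ (Ci + CW) * (K + 2) := by positivity
          have g3 : 0 ≤ 4 * cw * (K + 2) / cj := by positivity
          linarith
        have g4 : (0 : ℝ) < J := (mul_pos_iff_of_pos_left hδ).1 g1
        exact_mod_cast g4
      tn1 := fun j hj => (tf j hj).1
      tnN := fun j hj => (tf j hj).2.1
      NE := by rw [← hN]; exact hENE
      path := by rw [← hN]; exact hpath
      refh := by linarith
      refh' := by linarith
      wall := fun j hj => by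
        obtain ⟨t1, t2, -, -⟩ := tf j hj
        rw [← hN] at t2
        rw [hE]
        refine (walls33 h hd hsg hA0 W (w := y + m) (by omega) (by omega) hNw8 hNw t1 (by omega) hCW hBw hCWB ?_).1
        rw [← hRs, ← hD]
        have a1 := hYa j
        rw [mul_add, eY] at a1
        linarith
      ref0 := fun j hj => by
        obtain ⟨t1, t2, -, -⟩ := tf j hj
        rw [← hN] at t2
        refine (walls33 h hd hsg hA0 W (w := y + m) (by omega) (by omega) hNw8 hNw t1 (by omega) hCW hBw hCWB ?_).2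
        rw [← hRs, ← hD]
        have a1 := hYa j
        rw [mul_add, eY] at a1
        linarith
      wall' := fun j hj => by
        obtain ⟨t1, t2, -, -⟩ := tf j hj
        rw [← hN] at t2 ⊢
        rw [hE]
        refine (walls33 h hd hsg hA0 W (w := y + m) (T := N - tn L n' j) (by omega) (by omega) hNw8 hNw (by omega) (by omega)
          hCW hBw hCWB ?_).1
        rw [← hRs, ← hD]
        have b1 := hY'a j
        rw [mul_sub, eY] at b1
        push_cast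
        linarith
      ref0' := fun j hj => by
        obtain ⟨t1, t2, -, -⟩ := tf j hj
        rw [← hN] at t2 ⊢
        have g1 := (walls33 h hd hsg hA0 W (w := y + m) (T := N - tn L n' j) (Y := z - Y' j) (by omega) (by omega) hNw8 hNw
          (by omega) (by omega) hCW hBw hCWB (by
            rw [← hRs, ← hD]
            have b1 := hY'a j
            rw [mul_sub, eY] at b1
            push_cast
            linarith)).2
        push_cast at g1
        exact g1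
      win1 := fun j hj => by
        have g1 := (abs_le.1 (hpos j hj).1).1
        linarith [hccl j]
      win2 := fun j hj => by
        have g1 := (abs_le.1 (hpos j hj).2).1
        linarith [hccl j]
      win3 := fun j hj => by
        have g1 := (abs_le.1 (hpos j hj).1).2
        linarith [hccu j]
      win4 := fun j hj => by
        have g1 := (abs_le.1 (hpos j hj).2).2
        linarith [hccu j]
      loc1 := fun hs => by
        rw [← hRs, ← hD]
        have g0 := div_lo33 (a := z + (K + 1) * (hh - mu)) (N := K + 2) (by omega)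
          (x := (d.v + (Rs - Ce * D)) * L + 1) (by
            push_cast
            rw [hs, one_mul, one_mul] at hz2'
            have g1 := (abs_le.1 hloc1).1
            push_cast at g1
            exact loc33 hG hDL1 hNeq hKp hn0.le hRsV f1 hDN2 hCi hCe hz2' (by linarith))
        push_cast at g0 ⊢
        linarith
      loc2 := fun hs => by
        rw [← hRs, ← hD]
        have g0 := div_lo33 (a := -(z + (K + 1) * hh)) (N := K + 2) (by omega)
          (x := (-d.v + (Rs - Ce * D)) * L + 1) (by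
            push_cast
            rw [hs] at hz2'
            have g1 := (abs_le.1 hloc0).2
            have g2 := loc33 (q := -d.v) (zz := -(z : ℝ)) (hv := -(hh : ℝ)) hG hDL1 hNeq hKp hn0.le hRsV f1 hDN2 hCi hCe
              (by linarith) (by linarith)
            linarith)
        push_cast at g0 ⊢
        linarith }

/-- **(S4) THE NUMBERS OF THE INNER EDGE.** `c1` is the constant of (IN); `Ce` depends on `k`; `J` and `x0` are chosen after the
sizes `Bw` of the walls, `cw` of the errors, `rm` of the references, `Bn` of the windows. -/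
theorem numX (h : Dirs F κ Kd Ds) (hR : Rate F Ds) (hG : Grow F Ds) (hA0 : 0 < A0) (h01 : A0 < A1) {c0 C' : ℝ} (hc0 : 0 < c0)
    (hch : CheapI A0 F Ds c0 C') (hIN : InW F Ds A0 A0 A1 c0) :
    ∃ (c1 : ℝ) (kk : ℕ), 1 ≤ c1 ∧ ∀ k, kk ≤ k → ∃ Ce : ℝ, 8 ≤ Ce ∧ ∀ m K : ℕ, 1 ≤ m → K + 2 = 2 ^ m →
      ∀ Bw cw rm Bn : ℝ, 1 < Bw → 0 ≤ cw → 0 < rm → ∃ (J x0 : ℕ), ∀ d ∈ Ds, ∀ y z1 : ℕ, x0 ≤ y → k + 2 ≤ y →
      y + m + 3 ≤ z1 → FW F d A0 A1 k (y - 2 - k) z1 →
      2 * Ce * dl A0 F d (y - 2 - k) z1 ≤ vA A0 F d (2 ^ z1) → ∀ sg : ℝ, sg = 1 ∨ sg = -1 →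
      ∀ L : ℕ, 2 ^ (y - 2) ≤ L → L ≤ 2 ^ y → ∃ (n' : ℕ) (z hh mu : ℤ) (cc Y Y' : ℕ → ℤ),
        NumX F d sg A0 (y - 2 - k) z1 (EE F d (2 ^ (y + m))) L n' K J z hh mu cc Y Y' Ce c1 Bw cw rm Bn := by
  obtain ⟨Ci, c1, c', n0, hCi, hc1, hc', hin⟩ := op_in h hR hA0 h01 hc0 hIN
  obtain ⟨kk, hkk⟩ := pow_unbounded_of_one_lt c0 (one_lt_two : (1 : ℝ) < 2)
  refine ⟨c1, kk, hc1, fun k hk => ?_⟩
  have hck : c0 ≤ 2 ^ k := hkk.le.trans (pow_le_pow_right₀ one_le_two hk)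
  obtain ⟨Ce, hCe1, hCe2, hCe3⟩ : ∃ Ce : ℝ, Ci + 16 ≤ Ce ∧ (2 : ℝ) ^ (k + 1) ≤ Ce ∧ 1 / (2 * c') ≤ Ce :=
    ⟨max (Ci + 16) (max (2 ^ (k + 1)) (1 / (2 * c'))), le_max_left _ _, (le_max_left _ _).trans (le_max_right _ _),
      (le_max_right _ _).trans (le_max_right _ _)⟩
  refine ⟨Ce, by linarith, fun m K hm hK Bw cw rm Bn hBw hcw hrm => ?_⟩
  have hcJ : 0 < cJ F A0 A1 := cJ_pos F h01
  have hCr := Cr_pos F
  obtain ⟨δ, hδ, hδ1, hδ2⟩ : ∃ δ : ℝ, 0 < δ ∧ 16 * δ ≤ c0 ∧ 16 * δ / c0 * |C'| ≤ rm := by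
    refine ⟨min (c0 / 16) (rm * c0 / (16 * (|C'| + 1))), lt_min (by positivity) (by positivity), ?_, ?_⟩
    · have := min_le_left (c0 / 16) (rm * c0 / (16 * (|C'| + 1)))
      linarith
    · have h1 := min_le_right (c0 / 16) (rm * c0 / (16 * (|C'| + 1)))
      obtain ⟨t, ht⟩ : ∃ t, t = min (c0 / 16) (rm * c0 / (16 * (|C'| + 1))) := ⟨_, rfl⟩
      have ht0 : 0 ≤ t := by rw [ht]; exact le_min (by positivity) (by positivity)
      rw [← ht] at h1 ⊢
      rw [le_div_iff₀ (by positivity)] at h1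
      rw [div_mul_eq_mul_div, div_le_iff₀ hc0]
      linarith
  obtain ⟨CW, hCW, hCW1⟩ : ∃ CW : ℝ, 1 ≤ CW ∧ Bw ≤ (CW - 1) * (A0 / 50) := by
    refine ⟨1 + 50 * Bw / A0, ?_, ?_⟩
    · have : 0 ≤ 50 * Bw / A0 := by positivity
      linarith
    · have e1 : (1 + 50 * Bw / A0 - 1) * (A0 / 50) = Bw := by
        field_simp
        ring
      rw [e1]
  obtain ⟨J, hJ⟩ := exists_nat_ge (2 * (2 * ((Ci + CW) * (K + 2) + 2 + 4 * cw * (K + 2) / cJ F A0 A1) + 1) / δ)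
  rw [div_le_iff₀ hδ] at hJ
  obtain ⟨v, hv, hv1, hv2⟩ : ∃ v : ℝ, 0 < v ∧ 16 * v ≤ cJ F A0 A1 * Cr F ∧ 8 * 2 ^ m * (|Bn| + 1) * v ≤ cJ F A0 A1 := by
    refine ⟨min (cJ F A0 A1 * Cr F / 16) (cJ F A0 A1 / (8 * 2 ^ m * (|Bn| + 1))), lt_min (by positivity) (by positivity), ?_, ?_⟩
    · have := min_le_left (cJ F A0 A1 * Cr F / 16) (cJ F A0 A1 / (8 * 2 ^ m * (|Bn| + 1)))
      linarith
    · have h1 := min_le_right (cJ F A0 A1 * Cr F / 16) (cJ F A0 A1 / (8 * 2 ^ m * (|Bn| + 1)))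
      rw [le_div_iff₀ (by positivity)] at h1
      linarith
  obtain ⟨nv, hnv, hvs⟩ := h.vA_small hR hA0 hv
  obtain ⟨nG, hnG⟩ := hG (max 1 (max (2 / δ) (8 / c0)) / cJ F A0 A1)
  refine ⟨J, max nv (nG + n0 + 2), fun d hd y z1 hy hky hz1 W hdl sg hsg L hL1 hL2 => ?_⟩
  have hDp := W.dl_pos h hd hA0
  have hyv : nv ≤ y := (le_max_left _ _).trans hy
  have hyG : nG + n0 + 2 ≤ y := (le_max_right _ _).trans hy
  have h2y : y - 2 < 2 ^ (y - 2) := Nat.lt_two_pow_self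
  have hV : vA A0 F d (2 ^ z1) ≤ v := hvs d hd _ (by
    have : z1 < 2 ^ z1 := Nat.lt_two_pow_self
    omega)
  have hVp : 0 < vA A0 F d (2 ^ z1) := h.vA_pos hd hA0 Nat.one_le_two_pow
  have hth := W.thick (n := L) h hd hA0 h01 (le_trans (Nat.pow_le_pow_right (by norm_num) (by omega)) hL1)
    (hL2.trans (Nat.pow_le_pow_right (by norm_num) (by omega)))
  have hEL : max 1 (max (2 / δ) (8 / c0)) / cJ F A0 A1 ≤ EE F d L := hnG d hd L (by omega)
  rw [div_le_iff₀ hcJ] at hEL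
  have hDL : max 1 (max (2 / δ) (8 / c0)) ≤ dl A0 F d (y - 2 - k) z1 * L := by linarith
  have g1 := (le_max_left _ _).trans hDL
  have g2 := (le_max_left (2 / δ) (8 / c0)).trans ((le_max_right (1 : ℝ) _).trans hDL)
  have g3 := (le_max_right (2 / δ) (8 / c0)).trans ((le_max_right (1 : ℝ) _).trans hDL)
  rw [div_le_iff₀ hδ] at g2
  rw [div_le_iff₀ hc0] at g3
  refine numX_scale h hd hsg hA0 h01 W (by omega) hz1 hm hK hL1 hL2 hc0 (abs_nonneg C')
    (hch.mono (le_abs_self C')) hCi hc1 (fun N hN1 hN2 y' => hin d hd k _ _ W hck ?_ N ?_ hN1 hN2 y') hCe1 hCe2 hdl hCW hBw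
    hCW1 hcw hδ hδ1 hδ2 (by linarith) ?_ ?_ g1 (by linarith) (by linarith)
  · have e1 : dl A0 F d (y - 2 - k) z1 ≤ 2 * Ce * dl A0 F d (y - 2 - k) z1 * c' := by
      have e2 : 1 ≤ 2 * Ce * c' := by
        rw [div_le_iff₀ (by positivity)] at hCe3
        linarith
      have := mul_le_mul_of_nonneg_right e2 hDp.le
      linarith
    have e3 := mul_le_mul_of_nonneg_right hdl hc'.le
    linarith
  · have : 2 ^ (y - 2 - k + k) = 2 ^ (y - 2) := by
      congr 1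
      omega
    omega
  · have e1 := mul_le_mul_of_nonneg_left (Cr_le_EE F d L) hcJ.le
    linarith
  · have e1 : 8 * 2 ^ m * Bn * vA A0 F d (2 ^ z1) ≤ 8 * 2 ^ m * (|Bn| + 1) * vA A0 F d (2 ^ z1) := by
      refine mul_le_mul_of_nonneg_right (mul_le_mul_of_nonneg_left ?_ (by positivity)) hVp.le
      linarith [le_abs_self Bn]
    have e2 : 8 * 2 ^ m * (|Bn| + 1) * vA A0 F d (2 ^ z1) ≤ 8 * 2 ^ m * (|Bn| + 1) * v :=
      mul_le_mul_of_nonneg_left hV (by positivity)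
    linarith

end Pool.Agent.W_1b8d5d_h33p
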