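import Pool.Agent.W_1b8d5d_p.FrPiece

/-!
MP_1b8d5d_pr, Track P. The frame: lucks of lines and of boxes, passages between parallel lines, all in terms of slab pairs, and the
decomposition of a walk at its first passages through parallel lines.
-/

namespace Pool.Agent.W_1b8d5d_p

open MeasureTheory Set
open Pool.Agent.W_1b8d5d_h85

noncomputable section

/-- The lateral position of a vertex. -/
def latV (F : Fm) (d : Dr) (z : V) : ℝ := (F.co.ps z : ℝ) - d.v * ((F.co.tm z : ℝ) / F.co.L)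

/-- Price `k1` of a lateral displacement by `1`; `K1` bounds the lateral displacement along an edge. -/
structure Lat (F : Fm) (κ k1 K1 : ℝ) (d : Dr) : Prop where
  k0 : 0 < k1
  hv : F.co.R + |d.v| ≤ K1
  hκ : k1 * K1 ≤ κ

/-- The distance of `x` from the interval `[x0, x1]`. -/
def dI (x0 x1 x : ℝ) : ℝ := max 0 (max (x0 - x) (x - x1))

theorem dI_nonneg (x0 x1 x : ℝ) : 0 ≤ dI x0 x1 x := le_max_left _ _

theorem dI_self (l x : ℝ) : dI l l x = |x - l| := by
  unfold dI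
  rcases le_total x l with h | h
  · rw [abs_of_nonpos (by linarith), max_eq_left (by linarith : x - l ≤ l - x), max_eq_right (by linarith)]
    ring
  · rw [abs_of_nonneg (by linarith), max_eq_right (by linarith : l - x ≤ x - l), max_eq_right (by linarith)]

theorem dI_le (x0 x1 : ℝ) {x y : ℝ} (hy : x0 ≤ y ∧ y ≤ x1) : dI x0 x1 x ≤ |y - x| := by
  unfold dI
  have h1 := le_abs_self (y - x)
  have h2 := neg_abs_le (y - x)
  exact max_le (abs_nonneg _) (max_le (by linarith [hy.1]) (by linarith [hy.2]))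

/-- The luck of the box `[x0, x1]` of starting positions in the block times `[s, t]`. -/
def MM (F : Fm) (d : Dr) (k1 : ℝ) (s t : ℤ) (x0 x1 : ℝ) (η : Env) : ℝ :=
  ⨆ p : {p : Pt × Pt // IsPr s t p.1 p.2}, (-XP F d η p.1.1 p.1.2 - k1 * dI x0 x1 (lat d p.1.1))

/-- The luck of the line `l`. -/
def LL (F : Fm) (d : Dr) (k1 : ℝ) (s t : ℤ) (l : ℝ) (η : Env) : ℝ := MM F d k1 s t l l η

/-- The cheapest passage from the line `l` to the line `l'`. -/
def UU (F : Fm) (d : Dr) (k1 : ℝ) (s t : ℤ) (l l' : ℝ) (η : Env) : ℝ :=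
  ⨅ p : {p : Pt × Pt // IsPr s t p.1 p.2}, (XP F d η p.1.1 p.1.2 + k1 * (|lat d p.1.1 - l| + |lat d p.1.2 - l'|))

variable {F : Fm} {κ k1 K1 : ℝ} {d : Dr} {η : Env}

theorem latV_vt (F : Fm) (d : Dr) (P : Pt) : latV F d (F.co.vt P) = lat d P := by
  have hL := F.co.L_pos
  have h : (F.co.L : ℝ) ≠ 0 := by
    have : (2 : ℝ) ≤ F.co.L := by exact_mod_cast hL
    linarith
  unfold latV lat
  rw [Co.ps_vt, Co.tm_vt]
  push_cast
  rw [mul_div_cancel_left₀ _ h]

theorem latV_lip (hk : Lat F κ k1 K1 d) (z z' : V) : |latV F d z - latV F d z'| ≤ K1 * nm (z - z') := by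
  have hL : (2 : ℝ) ≤ F.co.L := by exact_mod_cast F.co.L_pos
  have hLM : (F.co.L : ℝ) = F.co.M + 1 := by
    have := F.co.L_eq
    exact_mod_cast this
  have h1 := F.co.abs_ps_le (z - z')
  have h2 := F.co.abs_tm_le (z - z')
  have h3 := nm_nonneg (z - z')
  have e : latV F d z - latV F d z' = (F.co.ps (z - z') : ℝ) - d.v * ((F.co.tm (z - z') : ℝ) / F.co.L) := by
    unfold latV
    rw [Co.ps_sub, Co.tm_sub]
    push_cast
    ring
  have h4 : |d.v * ((F.co.tm (z - z') : ℝ) / F.co.L)| ≤ |d.v| * nm (z - z') := by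
    rw [abs_mul, abs_div, abs_of_nonneg (by linarith : (0 : ℝ) ≤ F.co.L)]
    refine mul_le_mul_of_nonneg_left ?_ (abs_nonneg _)
    rw [div_le_iff₀ (by linarith)]
    nlinarith
  rw [e]
  have h5 := abs_sub (F.co.ps (z - z') : ℝ) (d.v * ((F.co.tm (z - z') : ℝ) / F.co.L))
  have h6 : (F.co.R + |d.v|) * nm (z - z') ≤ K1 * nm (z - z') := mul_le_mul_of_nonneg_right hk.hv h3
  nlinarith

theorem Lat.K0 (hk : Lat F κ k1 K1 d) : 1 ≤ K1 := by
  have h1 := hk.hv
  have h2 := abs_nonneg d.v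
  have h3 : (1 : ℝ) ≤ F.co.R := by exact_mod_cast F.co.R_pos
  linarith

theorem latV_adj (hk : Lat F κ k1 K1 d) {z z' : V} (h : grid.Adj z z') : |latV F d z' - latV F d z| ≤ K1 := by
  have h1 := latV_lip hk z' z
  rwa [nm_adj h, mul_one] at h1

theorem lat_le_nm (hk : Lat F κ k1 K1 d) (z : V) (P : Pt) : k1 * |latV F d z - lat d P| ≤ κ * nm (z - F.co.vt P) := by
  have h1 := latV_lip hk z (F.co.vt P)
  rw [latV_vt] at h1
  have h2 := mul_le_mul_of_nonneg_left h1 hk.k0.le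
  have h3 := mul_le_mul_of_nonneg_right hk.hκ (nm_nonneg (z - F.co.vt P))
  linarith

/-- `piece` with lateral distances. -/
theorem piece_lat (hd : Adm F κ d) (hk : Lat F κ k1 K1 d) (η : Env) {s t : ℤ} {u v : V} (w : grid.Walk u v)
    (hw : ∀ z ∈ w.support, F.co.L * s ≤ F.co.tm z ∧ F.co.tm z ≤ F.co.L * t) :
    ∃ P Q : Pt, IsPr s t P Q ∧
      XP F d η P Q + k1 * (|latV F d u - lat d P| + |latV F d v - lat d Q|) - CP F ≤ exc F d η w := by
  obtain ⟨P, Q, h1, h2⟩ := piece hd η w hw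
  refine ⟨P, Q, h1, ?_⟩
  have h3 := lat_le_nm hk u P
  have h4 := lat_le_nm hk v Q
  linarith

/-- Lower bound of the cost of a pair. -/
theorem XP_ge (hd : Adm F κ d) (η : Env) {s t : ℤ} {P Q : Pt} (h : IsPr s t P Q) :
    κ * nm (F.co.vt Q - F.co.vt P) - bb F * F.co.L * ((Q.1 : ℝ) - P.1) ≤ XP F d η P Q := by
  rcases h.2.2 with h1 | h1
  · have hn : 1 ≤ (Q.1 - P.1).toNat := by omega
    have e0 : (((Q.1 - P.1).toNat : ℕ) : ℤ) = Q.1 - P.1 := Int.toNat_of_nonneg (by omega)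
    have h2 := TT_lower (c := F.co) (bdp F η) F.a0.le P hn (Q.2 - P.2)
    have e1 : (((Q.1 - P.1).toNat : ℤ), Q.2 - P.2) = Q - P := by rw [e0]; rfl
    rw [e1, Co.vt_sub] at h2
    have e2 : (((Q.1 - P.1).toNat : ℕ) : ℝ) = (Q.1 : ℝ) - P.1 := by
      rw [← Int.cast_natCast, e0]
      push_cast
      ring
    have h3 : F.co.tm (F.co.vt Q - F.co.vt P) ≤ (F.co.L * (Q.1 - P.1)).toNat := by
      rw [Co.tm_sub, Co.tm_vt, Co.tm_vt]
      have := Int.self_le_toNat (F.co.L * (Q.1 - P.1))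
      linarith
    have h4 := H_le hd h3
    have e3 : (((F.co.L * (Q.1 - P.1)).toNat : ℕ) : ℝ) = F.co.L * ((Q.1 : ℝ) - P.1) := by
      rw [← Int.cast_natCast, Int.toNat_of_nonneg (mul_nonneg (by have := F.co.L_pos; omega) (by omega))]
      push_cast
      ring
    rw [e3] at h4
    have h5 : XP F d η P Q = TT F.co (F.tau η) P (Q.1 - P.1).toNat (Q.2 - P.2) - d.H (F.co.vt Q - F.co.vt P) := by
      unfold XP X
      rw [H_vt_sub, e2]
      push_cast
      ring
    rw [h5]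
    linarith
  · subst h1
    rw [XP_self, sub_self, nm_zero, sub_self]
    simp

theorem XP_ge' (hd : Adm F κ d) (η : Env) {s t : ℤ} {P Q : Pt} (h : IsPr s t P Q) :
    -(bb F * F.co.L * ((t : ℝ) - s)) ≤ XP F d η P Q := by
  have h1 := XP_ge hd η h
  have h2 : 0 ≤ κ * nm (F.co.vt Q - F.co.vt P) := mul_nonneg hd.κ0.le (nm_nonneg _)
  have h3 : (Q.1 : ℝ) - P.1 ≤ (t : ℝ) - s := by
    have := h.1
    have := h.2.1
    have h5 : (Q.1 - P.1 : ℤ) ≤ t - s := by omega
    exact_mod_cast h5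
  have h4 : 0 ≤ bb F * F.co.L := by
    have : (2 : ℝ) ≤ F.co.L := by exact_mod_cast F.co.L_pos
    have := F.a0
    have := F.ab
    unfold bb
    exact mul_nonneg (by linarith) (by linarith)
  have h5 := mul_le_mul_of_nonneg_left h3 h4
  linarith

theorem MM_bdd (hd : Adm F κ d) (hk : 0 ≤ k1) (s t : ℤ) (x0 x1 : ℝ) (η : Env) :
    BddAbove (Set.range fun p : {p : Pt × Pt // IsPr s t p.1 p.2} =>
      (-XP F d η p.1.1 p.1.2 - k1 * dI x0 x1 (lat d p.1.1))) := by
  refine ⟨bb F * F.co.L * ((t : ℝ) - s), ?_⟩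
  rintro r ⟨p, rfl⟩
  have h1 := XP_ge' hd η p.2
  have h2 : 0 ≤ k1 * dI x0 x1 (lat d p.1.1) := mul_nonneg hk (dI_nonneg _ _ _)
  simp only
  linarith

theorem le_MM (hd : Adm F κ d) (hk : 0 ≤ k1) {s t : ℤ} (x0 x1 : ℝ) (η : Env) {P Q : Pt} (h : IsPr s t P Q) :
    -XP F d η P Q - k1 * dI x0 x1 (lat d P) ≤ MM F d k1 s t x0 x1 η :=
  le_ciSup (MM_bdd hd hk s t x0 x1 η) (⟨(P, Q), h⟩ : {p : Pt × Pt // IsPr s t p.1 p.2})

theorem le_LL (hd : Adm F κ d) (hk : 0 ≤ k1) {s t : ℤ} (l : ℝ) (η : Env) {P Q : Pt} (h : IsPr s t P Q) :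
    -XP F d η P Q - k1 * |lat d P - l| ≤ LL F d k1 s t l η := by
  have := le_MM hd hk l l η h
  rwa [dI_self] at this

theorem UU_bdd (hd : Adm F κ d) (hk : 0 ≤ k1) (s t : ℤ) (l l' : ℝ) (η : Env) :
    BddBelow (Set.range fun p : {p : Pt × Pt // IsPr s t p.1 p.2} =>
      (XP F d η p.1.1 p.1.2 + k1 * (|lat d p.1.1 - l| + |lat d p.1.2 - l'|))) := by
  refine ⟨-(bb F * F.co.L * ((t : ℝ) - s)), ?_⟩
  rintro r ⟨p, rfl⟩
  have h1 := XP_ge' hd η p.2
  have h2 : 0 ≤ k1 * (|lat d p.1.1 - l| + |lat d p.1.2 - l'|) := by positivity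
  simp only
  linarith

theorem UU_le (hd : Adm F κ d) (hk : 0 ≤ k1) {s t : ℤ} (l l' : ℝ) (η : Env) {P Q : Pt} (h : IsPr s t P Q) :
    UU F d k1 s t l l' η ≤ XP F d η P Q + k1 * (|lat d P - l| + |lat d Q - l'|) :=
  ciInf_le (UU_bdd hd hk s t l l' η) (⟨(P, Q), h⟩ : {p : Pt × Pt // IsPr s t p.1 p.2})

/-- The constant of a passage. -/
def CL (F : Fm) (k1 K1 : ℝ) : ℝ := CP F + 2 * (k1 * K1)

/-- A walk from the box. -/
theorem exc_ge_MM (hd : Adm F κ d) (hk : Lat F κ k1 K1 d) (η : Env) {s t : ℤ} {u v : V} (w : grid.Walk u v)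
    (hw : ∀ z ∈ w.support, F.co.L * s ≤ F.co.tm z ∧ F.co.tm z ≤ F.co.L * t) {x0 x1 : ℝ}
    (hu : x0 ≤ latV F d u ∧ latV F d u ≤ x1) : -MM F d k1 s t x0 x1 η - CP F ≤ exc F d η w := by
  obtain ⟨P, Q, h1, h2⟩ := piece_lat hd hk η w hw
  have h3 := le_MM hd hk.k0.le x0 x1 η h1
  have h4 := mul_le_mul_of_nonneg_left (dI_le x0 x1 (x := lat d P) hu) hk.k0.le
  have h5 : 0 ≤ k1 * |latV F d v - lat d Q| := mul_nonneg hk.k0.le (abs_nonneg _)
  linarith

/-- A walk from the neighbourhood of the line `l`. -/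
theorem exc_ge_LL (hd : Adm F κ d) (hk : Lat F κ k1 K1 d) (η : Env) {s t : ℤ} {u v : V} (w : grid.Walk u v)
    (hw : ∀ z ∈ w.support, F.co.L * s ≤ F.co.tm z ∧ F.co.tm z ≤ F.co.L * t) {l : ℝ}
    (hu : |latV F d u - l| ≤ K1) : -LL F d k1 s t l η - CL F k1 K1 ≤ exc F d η w := by
  obtain ⟨P, Q, h1, h2⟩ := piece_lat hd hk η w hw
  have h3 := le_LL hd hk.k0.le l η h1
  have h4 : |lat d P - l| ≤ |latV F d u - lat d P| + K1 := by
    have := abs_sub_le (lat d P) (latV F d u) l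
    rw [abs_sub_comm (lat d P) (latV F d u)] at this
    linarith
  have h6 := mul_le_mul_of_nonneg_left h4 hk.k0.le
  have h5 : 0 ≤ k1 * |latV F d v - lat d Q| := mul_nonneg hk.k0.le (abs_nonneg _)
  have h7 : 0 ≤ k1 * K1 := mul_nonneg hk.k0.le (by have := hk.K0; linarith)
  unfold CL
  linarith

/-- A walk from the neighbourhood of the line `l` to the neighbourhood of the line `l'`. -/
theorem exc_ge_UU (hd : Adm F κ d) (hk : Lat F κ k1 K1 d) (η : Env) {s t : ℤ} {u v : V} (w : grid.Walk u v)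
    (hw : ∀ z ∈ w.support, F.co.L * s ≤ F.co.tm z ∧ F.co.tm z ≤ F.co.L * t) {l l' : ℝ}
    (hu : |latV F d u - l| ≤ K1) (hv : |latV F d v - l'| ≤ K1) :
    UU F d k1 s t l l' η - CL F k1 K1 ≤ exc F d η w := by
  obtain ⟨P, Q, h1, h2⟩ := piece_lat hd hk η w hw
  have h3 := UU_le hd hk.k0.le l l' η h1
  have h4 : |lat d P - l| ≤ |latV F d u - lat d P| + K1 := by
    have := abs_sub_le (lat d P) (latV F d u) l
    rw [abs_sub_comm (lat d P) (latV F d u)] at this
    linarith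
  have h4' : |lat d Q - l'| ≤ |latV F d v - lat d Q| + K1 := by
    have := abs_sub_le (lat d Q) (latV F d v) l'
    rw [abs_sub_comm (lat d Q) (latV F d v)] at this
    linarith
  have h6 := mul_le_mul_of_nonneg_left h4 hk.k0.le
  have h6' := mul_le_mul_of_nonneg_left h4' hk.k0.le
  unfold CL
  linarith

/-- **LINES.** A walk from the neighbourhood of the line `l` to a vertex beyond the line `l + ε k W` (`ε = ± 1`). -/
theorem lines (hd : Adm F κ d) (hk : Lat F κ k1 K1 d) (η : Env) {s t : ℤ} {ε W : ℝ} (hε : ε = 1 ∨ ε = -1) (hW : K1 < W)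
    (k : ℕ) : ∀ {u v : V} (w : grid.Walk u v)
    (_ : ∀ z ∈ w.support, F.co.L * s ≤ F.co.tm z ∧ F.co.tm z ≤ F.co.L * t) (l : ℝ)
    (_ : ε * l ≤ ε * latV F d u) (_ : ε * latV F d u ≤ ε * l + K1) (_ : ε * l + k * W ≤ ε * latV F d v),
    (∑ m ∈ Finset.range k, UU F d k1 s t (l + ε * (m * W)) (l + ε * ((m + 1) * W)) η) -
      LL F d k1 s t (l + ε * (k * W)) η - (k + 1) * CL F k1 K1 ≤ exc F d η w := by
  have hε2 : ε * ε = 1 := by rcases hε with rfl | rfl <;> norm_num
  have habs : ∀ x : ℝ, |ε * x| = |x| := by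
    intro x
    rcases hε with rfl | rfl <;> simp
  induction k with
  | zero =>
    intro u v w hw l hu1 hu2 _
    have h1 := exc_ge_LL hd hk η w hw (l := l) (by
      rw [← habs, abs_le, mul_sub]
      have := hk.K0
      constructor <;> linarith)
    simp only [Finset.range_zero, Finset.sum_empty, Nat.cast_zero, zero_mul, mul_zero, add_zero, zero_add, one_mul, zero_sub]
    linarith
  | succ k ih =>
    intro u v w hw l hu1 hu2 hv
    push_cast at hv
    have hkW : 0 ≤ (k : ℝ) * W := mul_nonneg (Nat.cast_nonneg _) (by have := hk.K0; linarith)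
    obtain ⟨u', v', w1, h1, w2, e1, e2, e3⟩ :=
      Pool.Agent.W_1b8d5d_sc.split_first (fun z => ε * l + W ≤ ε * latV F d z) w
        (by simp only [not_le]; linarith) ⟨v, w.end_mem_support, by linarith⟩
    simp only [not_le] at e2
    have hsup1 : ∀ z ∈ (w1.append (SimpleGraph.Walk.cons h1 .nil)).support, z ∈ w.support := by
      intro z hz
      rw [SimpleGraph.Walk.mem_support_append_iff] at hz
      rw [e1, SimpleGraph.Walk.mem_support_append_iff]
      rcases hz with hz | hz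
      · exact Or.inl hz
      · refine Or.inr ?_
        rw [SimpleGraph.Walk.support_cons, SimpleGraph.Walk.support_nil, List.mem_cons, List.mem_singleton] at hz
        rw [SimpleGraph.Walk.support_cons, List.mem_cons]
        rcases hz with hz | hz
        · exact Or.inl hz
        · right
          rw [hz]
          exact w2.start_mem_support
    have hsup2 : ∀ z ∈ w2.support, z ∈ w.support := by
      intro z hz
      rw [e1, SimpleGraph.Walk.mem_support_append_iff, SimpleGraph.Walk.support_cons]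
      exact Or.inr (List.mem_cons_of_mem _ hz)
    have e4 : exc F d η w = exc F d η (w1.append (SimpleGraph.Walk.cons h1 .nil)) + exc F d η w2 := by
      rw [← exc_append]
      congr 1
      rw [e1, ← SimpleGraph.Walk.append_assoc]
      rfl
    have e5 := e2 u' w1.end_mem_support
    have e6 := latV_adj hk h1
    rw [← habs, abs_le, mul_sub] at e6
    have a1 := exc_ge_UU hd hk η (w1.append (SimpleGraph.Walk.cons h1 .nil)) (fun z hz => hw z (hsup1 z hz))
      (l := l) (l' := l + ε * W) (by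
        rw [← habs, abs_le, mul_sub]
        have := hk.K0
        constructor <;> linarith) (by
        rw [← habs, abs_le, mul_sub, mul_add, ← mul_assoc, hε2]
        have := hk.K0
        constructor <;> linarith [e6.2])
    have a2 := ih w2 (fun z hz => hw z (hsup2 z hz)) (l + ε * W)
      (by rw [mul_add, ← mul_assoc, hε2]; linarith) (by rw [mul_add, ← mul_assoc, hε2]; linarith [e6.2])
      (by rw [mul_add, ← mul_assoc, hε2]; linarith)
    rw [Finset.sum_range_succ']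
    have b1 : ∀ m : ℕ, l + ε * ((((m + 1 : ℕ) : ℝ)) * W) = l + ε * W + ε * (m * W) := by
      intro m; push_cast; ring
    have b2 : ∀ m : ℕ, l + ε * ((((m + 1 : ℕ) : ℝ) + 1) * W) = l + ε * W + ε * (((m : ℝ) + 1) * W) := by
      intro m; push_cast; ring
    have b3 : (∑ m ∈ Finset.range k, UU F d k1 s t (l + ε * ((((m + 1 : ℕ) : ℝ)) * W))
        (l + ε * ((((m + 1 : ℕ) : ℝ) + 1) * W)) η) =
        ∑ m ∈ Finset.range k, UU F d k1 s t (l + ε * W + ε * (m * W)) (l + ε * W + ε * (((m : ℝ) + 1) * W)) η :=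
      Finset.sum_congr rfl fun m _ => by rw [b1, b2]
    rw [b3, b1, e4]
    have b4 : UU F d k1 s t (l + ε * (((0 : ℕ) : ℝ) * W)) (l + ε * ((((0 : ℕ) : ℝ) + 1) * W)) η =
        UU F d k1 s t l (l + ε * W) η := by
      simp
    rw [b4]
    push_cast
    linarith

end

end Pool.Agent.W_1b8d5d_p
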