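import Pool.Agent.W_1b8d5d_p.FrX
import Pool.Agent.W_1b8d5d_p.FrPair

/-!
MP_1b8d5d_pr, Track P. The slab facts `Sl` of `FrPair` hold for every admissible direction, with constants which do not depend
on the direction.
-/

namespace Pool.Agent.W_1b8d5d_p

open MeasureTheory Set
open Pool.Agent.W_1b8d5d_h85

theorem sl_of {F : Fm} {κ : ℝ} {d : Dr} (hd : Adm F κ d) : Sl F d (κ * F.co.M) (C0 F.co F.b) (C1 F) where
  k0 := by
    have h1 : (1 : ℝ) ≤ F.co.M := by exact_mod_cast F.co.M_pos
    have := hd.κ0
    positivity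
  C00 := C0_nonneg _ (b_pos F).le
  C10 := (C1_pos F).le
  meas := X_meas F d
  dep a n y := fun _ _ h => X_dep F d a n y fun e he => h e (Co.slab_subset_rows _ _ he)
  shift a b n y η := X_shp F d a η b n y
  mp := mp_shp F
  diag η a := X_zero F d η a
  tri η a m n y z hm hn := X_tri F d η a hm hn y z
  cut η a m n z hm hn := by
    obtain ⟨k, k', h⟩ := X_cut hd η a hm hn z
    exact ⟨k, k', by linarith⟩
  low η a n y hn := by
    have := X_lower hd η a hn y
    linarith

end Pool.Agent.W_1b8d5d_p
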