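import Pool.Agent.W_1b8d5d_p.TubeA71

/-!
MP_1b8d5d_pr, Track P, HF2 (proofs row 645, (iii)): SEPARATION. Two parallel costs at a large distance are functions of
disjoint sets of edges; if they are almost equal they are almost constant.
-/

namespace Pool.Agent.W_1b8d5d_p

open MeasureTheory Set
open Pool.Agent.W_1b8d5d_h85
open Pool.Agent.W_7d29a1_f21 (splice splice_mem splice_not_mem mp_splice integral_splice)

noncomputable section

variable {F : Fm} {κ k1 K1 : ℝ} {d : Dr}

private theorem ind80 {S : Set Env} (hS : MeasurableSet S) : ∫ η, S.indicator (fun _ => (1 : ℝ)) η ∂(law F) = (law F).real S := by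
  rw [integral_indicator hS, setIntegral_const, smul_eq_mul, mul_one]

/-- Two independent variables which are almost equal are almost constant. -/
theorem const80 {f g : Env → ℝ} {A : Set Edge} (hf : Measurable f) (hg : Measurable g) (hfA : DependsOn f Aᶜ)
    (hgA : DependsOn g A) (b : ℝ) :
    ∃ c : ℝ, (law F).real {η | b < |f η - c|} ≤ (law F).real {η | b < |f η - g η|} := by
  have hmS : ∀ c : ℝ, MeasurableSet {η : Env | b < |f η - c|} := fun c =>
    measurableSet_lt measurable_const (measurable_norm.comp (hf.sub measurable_const))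
  have hm : MeasurableSet {η : Env | b < |f η - g η|} :=
    measurableSet_lt measurable_const (measurable_norm.comp (hf.sub hg))
  obtain ⟨φ, hφ⟩ : ∃ φ : Env → ℝ, φ = {η : Env | b < |f η - g η|}.indicator fun _ => (1 : ℝ) := ⟨_, rfl⟩
  have hφm : Measurable φ := by
    rw [hφ]
    exact measurable_const.indicator hm
  have hφi : Integrable φ (law F) := by
    rw [hφ]
    exact (integrable_const (1 : ℝ)).indicator hm
  have h1 := integral_splice (μ := F.nu) A (F := φ) hφi
  have h2 : Integrable (fun η : Env => ∫ η', φ (splice A η η') ∂(law F)) (law F) :=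
    (Pool.Agent.W_7d29a1_f21.integrable_splice (μ := F.nu) A hφi).integral_prod_left
  have key : ∀ η : Env, ∫ η', φ (splice A η η') ∂(law F) = (law F).real {η' | b < |f η' - g η|} := by
    intro η
    rw [← ind80 (hmS (g η))]
    refine integral_congr_ae (Filter.Eventually.of_forall fun η' => ?_)
    have e1 : f (splice A η η') = f η' := hfA fun p hp => splice_not_mem _ _ hp
    have e2 : g (splice A η η') = g η := hgA fun p hp => splice_mem _ _ hp
    show φ (splice A η η') = {η' : Env | b < |f η' - g η|}.indicator (fun _ => (1 : ℝ)) η'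
    rw [hφ]
    unfold Set.indicator
    simp only [Set.mem_ofPred_eq]
    rw [e1, e2]
  have h3 : ∫ η, φ η ∂(law F) = (law F).real {η | b < |f η - g η|} := by
    rw [hφ]
    exact ind80 hm
  obtain ⟨η, hη⟩ := exists_le_integral h2
  refine ⟨g η, ?_⟩
  rw [← key η, ← h3]
  refine hη.trans (le_of_eq ?_)
  exact h1.symm

/-- The edges of the slab `[0, m]` which start at a distance at most `ρ` from the line `0`. -/
def StE80 (F : Fm) (d : Dr) (m : ℕ) (ρ : ℝ) : Set Edge := {e | e ∈ F.co.slab 0 m ∧ |latV F d e.1| ≤ ρ}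

/-- The cost of the displacement `(m, y)` from `0` along the walks with all edges in the strip. -/
def XS80 (F : Fm) (d : Dr) (ρ : ℝ) (m : ℕ) (y : ℤ) (η : Env) : ℝ :=
  TR (StE80 F d m ρ) (F.tau η) (F.co.vt 0) (F.co.vt ((m : ℤ), y)) - (al F.co d * m + be F.co d * y)

theorem XS80_meas (F : Fm) (d : Dr) (ρ : ℝ) (m : ℕ) (y : ℤ) : Measurable (XS80 F d ρ m y) := by
  unfold XS80
  refine Measurable.sub ?_ measurable_const
  refine (TR_meas _ _ _).comp ?_
  unfold Fm.tau
  exact measurable_pi_iff.2 fun e => F.mg.comp (measurable_pi_apply e)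

theorem XS80_dep (F : Fm) (d : Dr) (ρ : ℝ) (m : ℕ) (y : ℤ) : DependsOn (XS80 F d ρ m y) (StE80 F d m ρ) := by
  intro η η' h
  unfold XS80
  rw [TR_congr (StE80 F d m ρ) _ _ fun e he => show F.tau η e = F.tau η' e by
    unfold Fm.tau
    rw [h e he]]

/-- Off the bad set the cost is the cost in the strip. -/
theorem XS80_eq {m : ℕ} (hm : 1 ≤ m) {y : ℤ} {ρ Z : ℝ} {η : Env} (hX : X F d η 0 m y ≤ Z)
    (h : ∀ w : grid.Walk (F.co.vt 0) (F.co.vt ((m : ℤ), y)), (∀ e ∈ wedges w, e ∈ F.co.slab 0 m) → exc F d η w ≤ Z →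
      ∀ v ∈ w.support, |latV F d v| ≤ ρ) : XS80 F d ρ m y η = X F d η 0 m y := by
  have hne := Co.ne_vt (c := F.co) 0 hm y
  simp only [Prod.fst_zero, zero_add] at hne
  obtain ⟨w, -, hw, hc⟩ := TR_min (bdp F η) F.a0 hne
  have hTT : TT F.co (F.tau η) 0 m y = TR (F.co.slab 0 m) (F.tau η) (F.co.vt 0) (F.co.vt ((m : ℤ), y)) := by
    unfold TT
    simp only [Prod.fst_zero, zero_add]
  have hexc : exc F d η w = X F d η 0 m y := by
    unfold exc X
    rw [hc, hTT, Co.vt_zero, sub_zero, Co.H_vt]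
    simp
  have hin : ∀ e ∈ wedges w, e ∈ StE80 F d m ρ := fun e he =>
    ⟨hw e he, h w hw (by rw [hexc]; exact hX) _ (wedges_support w he).1⟩
  have h1 : TR (StE80 F d m ρ) (F.tau η) (F.co.vt 0) (F.co.vt ((m : ℤ), y)) ≤ cost (F.tau η) w :=
    TR_le (bdp F η) F.a0.le w hin
  have h2 : TR (F.co.slab 0 m) (F.tau η) (F.co.vt 0) (F.co.vt ((m : ℤ), y)) ≤
      TR (StE80 F d m ρ) (F.tau η) (F.co.vt 0) (F.co.vt ((m : ℤ), y)) :=
    TR_anti (bdp F η) F.a0.le ⟨⟨w, hin⟩⟩ fun e he => he.1
  unfold XS80 X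
  rw [hTT]
  have h3 : TR (StE80 F d m ρ) (F.tau η) (F.co.vt 0) (F.co.vt ((m : ℤ), y)) =
      TR (F.co.slab 0 m) (F.tau η) (F.co.vt 0) (F.co.vt ((m : ℤ), y)) := le_antisymm (h1.trans hc.le) h2
  rw [h3]

/-- **SEPARATION.** The costs of the displacement `(m, y)` from two sites at a large distance are almost equal (probability
of a difference larger than `b`) ==> the cost is almost constant. -/
theorem sep80 (hd : Adm F κ d) (hk : Lat F κ k1 K1 d) {s W θ C : ℝ} (hs : 0 < s) (hsk : s ≤ k1 / 2) (hW : 0 < W)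
    (hθ : 0 < θ) (hθ1 : 1 ≤ θ * (k1 / 2 * W)) {m : ℕ} (hm : 1 ≤ m)
    (hL : ∀ o : ℝ, ∫ η, Real.exp (θ * TL F d s o W m η) ∂(law F) ≤ C) (y : ℤ) {y0 Z : ℝ} {a1 a2 : Pt}
    (hsep : 2 * (Z + 2 * y0 + 2 * CP F) < s * |lat d a2 - lat d a1|) (b : ℝ) :
    ∃ c0 : ℝ, (law F).real {η | b < |X F d η 0 m y - c0|} ≤
      (law F).real {η | b < |X F d η a1 m y - X F d η a2 m y|} +
        3 * (10 * C * Real.exp (-(θ * y0)) + (law F).real {η | Z < X F d η 0 m y}) := by
  obtain ⟨B, hB, hPB, hBw⟩ := tube_gen hd hk hs hsk hW hθ hθ1 hL y0 y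
  obtain ⟨ρ, hρ⟩ : ∃ ρ, ρ = (Z + 2 * y0 + 2 * CP F) / s := ⟨_, rfl⟩
  have hXm : MeasurableSet {η : Env | Z < X F d η 0 m y} := measurableSet_lt measurable_const (X_meas F d 0 m y)
  obtain ⟨G, hG⟩ : ∃ G : Set Env, G = B ∪ {η : Env | Z < X F d η 0 m y} := ⟨_, rfl⟩
  have hGm : MeasurableSet G := by rw [hG]; exact hB.union hXm
  have hPG : (law F).real G ≤ 10 * C * Real.exp (-(θ * y0)) + (law F).real {η | Z < X F d η 0 m y} := by
    rw [hG]
    exact (measureReal_union_le _ _).trans (add_le_add hPB le_rfl)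
  have hgood : ∀ η, η ∉ G → XS80 F d ρ m y η = X F d η 0 m y := by
    intro η hη
    rw [hG] at hη
    have h1 : η ∉ B := fun h => hη (Or.inl h)
    have h2 : X F d η 0 m y ≤ Z := by
      by_contra hc
      push Not at hc
      exact hη (Or.inr hc)
    refine XS80_eq hm h2 fun w hw hx v hv => ?_
    have h3 := hBw η h1 w hw v hv
    rw [hρ, le_div_iff₀ hs, mul_comm]
    linarith
  -- the shifted costs
  have hXa : ∀ (a : Pt) (η : Env), X F d η a m y = X F d (F.shp a η) 0 m y := fun a η => by rw [X_shp, zero_add]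
  obtain ⟨f, hf⟩ : ∃ f : Pt → Env → ℝ, f = fun a η => XS80 F d ρ m y (F.shp a η) := ⟨_, rfl⟩
  have hfm : ∀ a, Measurable (f a) := by
    intro a
    rw [hf]
    exact (XS80_meas F d ρ m y).comp (mp_shp F a).measurable
  have hfeq : ∀ a η, F.shp a η ∉ G → f a η = X F d η a m y := by
    intro a η h
    rw [hf, hXa]
    exact hgood _ h
  have hPa : ∀ a, (law F).real (F.shp a ⁻¹' G) = (law F).real G := fun a =>
    (mp_shp F a).measureReal_preimage hGm.nullMeasurableSet
  obtain ⟨A, hA⟩ : ∃ A : Pt → Set Edge, A = fun a => {e : Edge | |latV F d e.1 - lat d a| ≤ ρ} := ⟨_, rfl⟩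
  have hdep : ∀ a, DependsOn (f a) (A a) := by
    intro a η η' h
    rw [hf]
    refine XS80_dep F d ρ m y fun e he => ?_
    have h1 : F.shp a η e = η (e.1 + F.co.vt a, e.2) := rfl
    have h2 : F.shp a η' e = η' (e.1 + F.co.vt a, e.2) := rfl
    rw [h1, h2]
    refine h _ ?_
    rw [hA]
    have h3 : latV F d (e.1 + F.co.vt a) = latV F d e.1 + lat d a := by
      unfold latV lat
      rw [Co.ps_add, Co.tm_add, Co.ps_vt, Co.tm_vt]
      push_cast
      have hL0 : (F.co.L : ℝ) ≠ 0 := by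
        have := F.co.L_pos
        exact_mod_cast (show F.co.L ≠ 0 by omega)
      field_simp
      ring
    show |latV F d (e.1 + F.co.vt a) - lat d a| ≤ ρ
    rw [h3, add_sub_cancel_right]
    exact he.2
  have hdisj : A a1 ⊆ (A a2)ᶜ := by
    intro e h1 h2
    rw [hA] at h1 h2
    have h3 : |latV F d e.1 - lat d a1| ≤ ρ := h1
    have h4 : |latV F d e.1 - lat d a2| ≤ ρ := h2
    have h5 : |lat d a2 - lat d a1| ≤ 2 * ρ := by
      have h6 : lat d a2 - lat d a1 = (latV F d e.1 - lat d a1) - (latV F d e.1 - lat d a2) := by ring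
      rw [h6]
      exact (abs_sub _ _).trans (by linarith)
    have h7 := mul_le_mul_of_nonneg_left h5 hs.le
    have h8 : s * (2 * ρ) = 2 * (Z + 2 * y0 + 2 * CP F) := by
      rw [hρ]
      field_simp
    linarith
  have hdep1 : DependsOn (f a1) (A a2)ᶜ := fun η η' h => hdep a1 fun e he => h e (hdisj he)
  obtain ⟨c0, hc0⟩ := const80 (F := F) (hfm a1) (hfm a2) hdep1 (hdep a2) b
  refine ⟨c0, ?_⟩
  have hX0 : (law F).real {η | b < |X F d η 0 m y - c0|} = (law F).real {η | b < |X F d η a1 m y - c0|} := by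
    have h1 : {η : Env | b < |X F d η a1 m y - c0|} = F.shp a1 ⁻¹' {η : Env | b < |X F d η 0 m y - c0|} := by
      ext η
      simp only [Set.mem_ofPred_eq, Set.mem_preimage]
      rw [hXa a1 η]
    have h2 : MeasurableSet {η : Env | b < |X F d η 0 m y - c0|} :=
      measurableSet_lt measurable_const (measurable_norm.comp ((X_meas F d 0 m y).sub measurable_const))
    rw [h1, (mp_shp F a1).measureReal_preimage h2.nullMeasurableSet]
  rw [hX0]
  have s1 : {η : Env | b < |X F d η a1 m y - c0|} ⊆ {η : Env | b < |f a1 η - c0|} ∪ F.shp a1 ⁻¹' G := by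
    intro η hη
    by_cases h : F.shp a1 η ∈ G
    · exact Or.inr h
    · refine Or.inl ?_
      show b < |f a1 η - c0|
      rw [hfeq a1 η h]
      exact hη
  have s2 : {η : Env | b < |f a1 η - f a2 η|} ⊆
      {η : Env | b < |X F d η a1 m y - X F d η a2 m y|} ∪ (F.shp a1 ⁻¹' G ∪ F.shp a2 ⁻¹' G) := by
    intro η hη
    by_cases h1 : F.shp a1 η ∈ G
    · exact Or.inr (Or.inl h1)
    by_cases h2 : F.shp a2 η ∈ G
    · exact Or.inr (Or.inr h2)
    · refine Or.inl ?_
      show b < |X F d η a1 m y - X F d η a2 m y|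
      rw [← hfeq a1 η h1, ← hfeq a2 η h2]
      exact hη
  have t1 := (measureReal_mono s1 (measure_ne_top (law F) _)).trans (measureReal_union_le _ _)
  have t2 := (measureReal_mono s2 (measure_ne_top (law F) _)).trans (measureReal_union_le _ _)
  have t3 := measureReal_union_le (μ := law F) (F.shp a1 ⁻¹' G) (F.shp a2 ⁻¹' G)
  rw [hPa] at t1
  rw [hPa, hPa] at t3
  linarith

end

end Pool.Agent.W_1b8d5d_p
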