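import Pool.Agent.W_1b8d5d_p.HfP99

/-!
MP_1b8d5d_pr, Track P, (hF2): from the cheap tubes at the two edges (TF) and the record trick (REC) to the predicate `RTF`.
-/

namespace Pool.Agent.W_1b8d5d_p

open MeasureTheory Set
open Pool.Agent.W_1b8d5d_h57p (wv HasT XT)

noncomputable section

variable {F : Fm} {κ K A θ : ℝ} {Ds : Set Dr}

/-- The number of the pieces. -/
theorem rt_count {t N : ℕ} (ht : 1 ≤ t) (hN : 8 * t ≤ N) : ∃ k : ℕ, 1 ≤ k ∧ k * (t + 1) + t ≤ N ∧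
    N ≤ 2 * (k * (t + 1) + t) ∧ N ≤ 4 * (k * t) := by
  refine ⟨(N - t) / (t + 1), ?_, ?_, ?_, ?_⟩
  · exact (Nat.one_le_div_iff (by omega)).2 (by omega)
  · have := Nat.div_mul_le_self (N - t) (t + 1)
    omega
  · have := Nat.lt_div_mul_add (a := N - t) (b := t + 1) (by omega)
    omega
  · have h1 := Nat.lt_div_mul_add (a := N - t) (b := t + 1) (by omega)
    obtain ⟨k, hk⟩ : ∃ k, k = (N - t) / (t + 1) := ⟨_, rfl⟩
    rw [← hk] at h1 ⊢
    have h2 : k ≤ k * t := Nat.le_mul_of_pos_right k (by omega)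
    have h3 : k * (t + 1) = k * t + k := by ring
    rw [h3] at h1
    omega

/-- **From the tubes and the record trick to `RTF`.** -/
theorem rtf99 (hD : Dirs F κ K Ds) (hA : 0 < A) (hR : Rate F Ds) (hT : TFH θ A F Ds) (hRec : RecH F Ds) :
    RTF θ A F Ds := by
  obtain ⟨c7, C7, h0, hc7, hC7, hT⟩ := hT
  obtain ⟨W1, hW1, hW⟩ := hD.vA_one hA.le
  obtain ⟨C, hC, hRec⟩ := hRec (|K| + C7 * W1)
  refine ⟨c7, 4 * C7, 2 + |K| + C7 * W1, h0, hc7, by positivity, by positivity, fun c0 hc0 h hh => ?_⟩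
  obtain ⟨D, hDd⟩ : ∃ D, D = c7 * c0 / 16 := ⟨_, rfl⟩
  have hD0 : 0 < D := by
    rw [hDd]
    positivity
  have hD2 : D ≤ c7 * c0 / 16 := le_of_eq hDd
  obtain ⟨L, x1, δ, hδ, hT⟩ := hT D hD0 h hh
  obtain ⟨n2, -, hn2⟩ := hD.w_large hR hA ((8 * C / (c7 * c0)) / Cr F)
  refine ⟨L, max x1 n2, δ, hδ, fun d hd x hx hslow hflat => ?_⟩
  have hCr := Cr_pos F
  have hxn2 : n2 ≤ 2 ^ x := ((le_max_right _ _).trans hx).trans Nat.lt_two_pow_self.le
  obtain ⟨sp, sm, h1, h2, h3, h4⟩ := hT d hd x ((le_max_left _ _).trans hx) hslow hflat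
  have hv : 0 < vA A F d (2 ^ x) := hD.vA_pos hd hA Nat.one_le_two_pow
  have hvW : vA A F d (2 ^ x) ≤ W1 := by
    have k1 := hD.vA_mul_le hd hA.le (n := 1) (k := 2 ^ x) le_rfl Nat.one_le_two_pow
    rw [mul_one] at k1
    exact k1.trans (hW d hd)
  have hwbig : 8 * C / (c7 * c0) ≤ (2 ^ x : ℕ) * vA A F d (2 ^ x) := by
    have k2 := hn2 d hd (2 ^ x) hxn2
    refine le_trans ?_ k2
    have k3 := mul_le_mul_of_nonneg_left (Cr_le_EE F d (2 ^ x)) (show 0 ≤ (8 * C / (c7 * c0)) / Cr F by positivity)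
    rwa [div_mul_cancel₀ _ hCr.ne'] at k3
  refine ⟨sp, sm, ⟨h1, h2.trans ?_, h3.trans ?_, fun t ht htN s hs hfar => ?_⟩⟩
  · nlinarith [mul_pos hC7 hv]
  · nlinarith [mul_pos hC7 hv]
  have htpos : (0 : ℝ) < t := lt_of_lt_of_le (by positivity) ht
  have ht1 : 1 ≤ t := by exact_mod_cast htpos
  obtain ⟨k, hk1, hk2, hk3, hk4⟩ := rt_count ht1 htN
  obtain ⟨hHas, hXT⟩ := h4 (k * (t + 1) + t) (by omega) hk2 s hs
  -- the side
  obtain ⟨σ, hσ, hσ2⟩ : ∃ σ : ℝ, (σ = 1 ∨ σ = -1) ∧ σ * (s * t - xs F d t) = |s * t - xs F d t| := by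
    rcases le_total 0 (s * t - xs F d t) with k1 | k1
    · exact ⟨1, Or.inl rfl, by rw [one_mul, abs_of_nonneg k1]⟩
    · exact ⟨-1, Or.inr rfl, by rw [abs_of_nonpos k1]; ring⟩
  have hside : 2 * (D * (vA A F d (2 ^ x) * 2 ^ x)) + C ≤ σ * (s * t - xs F d t) := by
    rw [hσ2]
    refine le_trans ?_ hfar
    have k1 : D * (vA A F d (2 ^ x) * 2 ^ x) ≤ c7 * c0 / 16 * (vA A F d (2 ^ x) * 2 ^ x) :=
      mul_le_mul_of_nonneg_right hD2 (by positivity)
    have k2 : c7 * (c0 * 2 ^ x * vA A F d (2 ^ x)) ≤ c7 * (t * vA A F d (2 ^ x)) :=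
      mul_le_mul_of_nonneg_left (mul_le_mul_of_nonneg_right ht hv.le) hc7.le
    have k3 : C ≤ c7 * c0 / 8 * (vA A F d (2 ^ x) * 2 ^ x) := by
      rw [div_le_iff₀ (by positivity)] at hwbig
      push_cast at hwbig
      linarith
    linarith
  have k3 : |s| ≤ |K| + C7 * W1 := by
    have k4 : |s - d.v| ≤ C7 * vA A F d (2 ^ x) := by
      rcases hs with hs | hs
      · rw [hs]
        exact h2
      · rw [hs]
        exact h3
    have k5 := abs_add_le (s - d.v) d.v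
    rw [sub_add_cancel] at k5
    have k6 := hD.slope d hd
    have k7 := le_abs_self K
    have k8 := mul_le_mul_of_nonneg_left hvW hC7.le
    linarith
  obtain ⟨xx, hxx, hsum⟩ := hRec d hd s _ σ t (t + 1) k _ k3 (by positivity) hσ ht1 le_rfl hk1 hside hHas
  have hE := EE_pos F d (2 ^ (x + h))
  have hk0 : (0 : ℝ) < k := by exact_mod_cast hk1
  have hest := e_xs_nonneg (hD.touch d hd) ht1
  have hN0 : (0 : ℝ) < (2 ^ (x + h) : ℕ) := by positivity
  -- the cheapest piece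
  have hex : ∃ i ∈ Finset.range k, e F d (t + 1 + t) (xx (i + 1) + xs F d t - xx i) ≤
      e F d t (xs F d t) + 4 * C7 * (t / (2 ^ (x + h) : ℕ)) * EE F d (2 ^ (x + h)) := by
    by_contra hcon
    push Not at hcon
    have k1 : ∑ i ∈ Finset.range k, (e F d t (xs F d t) + 4 * C7 * (t / (2 ^ (x + h) : ℕ)) * EE F d (2 ^ (x + h))) <
        ∑ i ∈ Finset.range k, e F d (t + 1 + t) (xx (i + 1) + xs F d t - xx i) :=
      Finset.sum_lt_sum_of_nonempty (Finset.nonempty_range_iff.2 (by omega)) hcon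
    rw [Finset.sum_const, Finset.card_range, nsmul_eq_mul] at k1
    have k2 : C7 * EE F d (2 ^ (x + h)) ≤ k * (4 * C7 * (t / (2 ^ (x + h) : ℕ)) * EE F d (2 ^ (x + h))) := by
      have k3 : (1 : ℝ) ≤ 4 * (k * t) / (2 ^ (x + h) : ℕ) := by
        rw [one_le_div hN0]
        exact_mod_cast hk4
      have k4 := mul_le_mul_of_nonneg_left k3 (show 0 ≤ C7 * EE F d (2 ^ (x + h)) by positivity)
      calc C7 * EE F d (2 ^ (x + h)) = C7 * EE F d (2 ^ (x + h)) * 1 := by ring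
        _ ≤ C7 * EE F d (2 ^ (x + h)) * (4 * (k * t) / (2 ^ (x + h) : ℕ)) := k4
        _ = _ := by ring
    linarith
  obtain ⟨i, -, hi⟩ := hex
  refine ⟨xx (i + 1) + xs F d t - xx i, ?_, ?_⟩
  · have k1 := hxx (i + 1)
    have k2 := hxx i
    have e1 : ((xx (i + 1) + xs F d t - xx i : ℤ) : ℝ) - (s * t + xs F d t) =
        ((xx (i + 1) : ℝ) - (s * ((i + 1 : ℕ) * (t + 1 : ℕ)) + σ * (D * (vA A F d (2 ^ x) * 2 ^ x) + C / 2))) +
          (-((xx i : ℝ) - (s * (i * (t + 1 : ℕ)) + σ * (D * (vA A F d (2 ^ x) * 2 ^ x) + C / 2))) + s) := by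
      push_cast
      ring
    rw [e1]
    refine (abs_add_le _ _).trans ?_
    have k9 := abs_add_le (-((xx i : ℝ) - (s * (i * (t + 1 : ℕ)) + σ * (D * (vA A F d (2 ^ x) * 2 ^ x) + C / 2)))) s
    rw [abs_neg] at k9
    linarith
  · have e1 : 2 * t + 1 = t + 1 + t := by ring
    rw [e1]
    have k1 : 0 ≤ 2 + |K| + C7 * W1 := by positivity
    linarith

end

end Pool.Agent.W_1b8d5d_p
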