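import Mathlib

/-!
MP_1b8d5d_pr, Track P: the limit function of a subadditive family `t n y` of displacements (time `n ≥ 1`, position `y`), Lipschitz in
the position: `lm x = inf (t n y / n + C |x - y / n|)`. It is Lipschitz and convex, `n lm (y / n) ≤ t n y`, and
`t n y ≤ n (lm (y / n) + ε)` uniformly on compact sets of slopes.
-/

namespace Pool.Agent.W_1b8d5d_p

open Filter Topology Set

/-- A nonnegative subadditive family of displacements, Lipschitz in the position. -/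
structure SubT (t : ℕ → ℤ → ℝ) (C : ℝ) : Prop where
  C0 : 0 ≤ C
  sub : ∀ m n : ℕ, 1 ≤ m → 1 ≤ n → ∀ k y : ℤ, t (m + n) (k + y) ≤ t m k + t n y
  lip : ∀ n : ℕ, 1 ≤ n → ∀ y : ℤ, |t n (y + 1) - t n y| ≤ C
  one : t 1 0 ≤ C
  nn : ∀ n : ℕ, 1 ≤ n → ∀ y : ℤ, 0 ≤ t n y

/-- The limit function. -/
noncomputable def lm (t : ℕ → ℤ → ℝ) (C : ℝ) (x : ℝ) : ℝ :=
  ⨅ q : ℕ × ℤ, (t (q.1 + 1) q.2 / ((q.1 : ℝ) + 1) + C * |x - q.2 / ((q.1 : ℝ) + 1)|)

namespace SubT

variable {t : ℕ → ℤ → ℝ} {C : ℝ} (h : SubT t C)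

include h

theorem lipN {n : ℕ} (hn : 1 ≤ n) (y : ℤ) (k : ℕ) : |t n (y + k) - t n y| ≤ C * k := by
  induction k with
  | zero => simp
  | succ k ih =>
    have h1 := h.lip n hn (y + k)
    have e1 : y + ((k + 1 : ℕ) : ℤ) = y + k + 1 := by push_cast; ring
    rw [e1]
    have h2 : t n (y + k + 1) - t n y = (t n (y + k + 1) - t n (y + k)) + (t n (y + k) - t n y) := by ring
    rw [h2]
    refine (abs_add_le _ _).trans ?_
    push_cast
    linarith

theorem lipZ {n : ℕ} (hn : 1 ≤ n) (y z : ℤ) : |t n z - t n y| ≤ C * |(z : ℝ) - y| := by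
  rcases le_total y z with hyz | hyz
  · obtain ⟨k, hk⟩ : ∃ k : ℕ, z = y + k := ⟨(z - y).toNat, by omega⟩
    subst hk
    have := h.lipN hn y k
    have e1 : |((y + (k : ℤ) : ℤ) : ℝ) - y| = k := by
      push_cast
      rw [add_sub_cancel_left, abs_of_nonneg (Nat.cast_nonneg k)]
    rwa [e1]
  · obtain ⟨k, hk⟩ : ∃ k : ℕ, y = z + k := ⟨(y - z).toNat, by omega⟩
    subst hk
    have := h.lipN hn z k
    rw [abs_sub_comm] at this
    have e1 : |(z : ℝ) - ((z + (k : ℤ) : ℤ) : ℝ)| = k := by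
      push_cast
      rw [sub_add_cancel_left, abs_neg, abs_of_nonneg (Nat.cast_nonneg k)]
    rwa [e1]

theorem up0 {r : ℕ} (hr : 1 ≤ r) : t r 0 ≤ C * r := by
  induction r with
  | zero => omega
  | succ r ih =>
    rcases Nat.eq_zero_or_pos r with h0 | h0
    · subst h0
      simpa using h.one
    · have h1 := h.sub r 1 h0 le_rfl 0 0
      rw [add_zero] at h1
      have h2 := ih h0
      have h3 := h.one
      push_cast
      linarith

theorem up {r : ℕ} (hr : 1 ≤ r) (y : ℤ) : t r y ≤ C * r + C * |(y : ℝ)| := by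
  have h1 := h.lipZ hr 0 y
  have h2 := h.up0 hr
  have h3 := (abs_le.1 h1).2
  push_cast at h3
  rw [sub_zero] at h3
  linarith

theorem mulN {n : ℕ} (hn : 1 ≤ n) (y : ℤ) {q : ℕ} (hq : 1 ≤ q) : t (q * n) (q * y) ≤ q * t n y := by
  induction q with
  | zero => omega
  | succ q ih =>
    rcases Nat.eq_zero_or_pos q with h0 | h0
    · subst h0
      simp
    · have h1 := h.sub (q * n) n (Nat.mul_pos h0 hn) hn (q * y) y
      have h2 := ih h0
      have e1 : (q + 1) * n = q * n + n := by ring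
      have e2 : ((q + 1 : ℕ) : ℤ) * y = q * y + y := by push_cast; ring
      rw [e1, e2]
      push_cast
      linarith

theorem bdd (x : ℝ) : BddBelow (range fun q : ℕ × ℤ =>
    (t (q.1 + 1) q.2 / ((q.1 : ℝ) + 1) + C * |x - q.2 / ((q.1 : ℝ) + 1)|)) := by
  refine ⟨0, ?_⟩
  rintro _ ⟨q, rfl⟩
  have h1 := h.nn (q.1 + 1) (by omega) q.2
  have h2 := h.C0
  positivity

theorem lm_nonneg (x : ℝ) : 0 ≤ lm t C x := by
  refine le_ciInf fun q => ?_
  have h1 := h.nn (q.1 + 1) (by omega) q.2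
  have h2 := h.C0
  positivity

theorem lm_le {n : ℕ} (hn : 1 ≤ n) (y : ℤ) (x : ℝ) : lm t C x ≤ t n y / n + C * |x - y / n| := by
  obtain ⟨k, rfl⟩ : ∃ k, n = k + 1 := ⟨n - 1, by omega⟩
  have := ciInf_le (h.bdd x) (k, y)
  simpa [lm] using this

/-- The lower bound. -/
theorem lower {n : ℕ} (hn : 1 ≤ n) (y : ℤ) : n * lm t C (y / n) ≤ t n y := by
  have hn0 : (0 : ℝ) < n := by exact_mod_cast hn
  have h1 := h.lm_le hn y (y / n)
  rw [sub_self, abs_zero, mul_zero, add_zero, le_div_iff₀ hn0] at h1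
  linarith

theorem lm_lip (x x' : ℝ) : lm t C x ≤ lm t C x' + C * |x - x'| := by
  rw [← sub_le_iff_le_add]
  refine le_ciInf fun q => ?_
  have h1 := ciInf_le (h.bdd x) q
  have h2 : |x - q.2 / ((q.1 : ℝ) + 1)| ≤ |x - x'| + |x' - q.2 / ((q.1 : ℝ) + 1)| :=
    abs_sub_le _ _ _
  have h3 := mul_le_mul_of_nonneg_left h2 h.C0
  unfold lm
  linarith

theorem lm_lip' (x x' : ℝ) : |lm t C x - lm t C x'| ≤ C * |x - x'| := by
  rw [abs_le]
  have h1 := h.lm_lip x x'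
  have h2 := h.lm_lip x' x
  rw [abs_sub_comm] at h2
  constructor <;> linarith

theorem lm_continuous : Continuous (lm t C) := by
  have : LipschitzWith (Real.toNNReal C) (lm t C) := by
    refine LipschitzWith.of_dist_le_mul fun x y => ?_
    rw [Real.dist_eq, Real.dist_eq, Real.coe_toNNReal _ h.C0]
    exact h.lm_lip' x y
  exact this.continuous

/-- The upper bound from one displacement. -/
theorem upper_of {n0 : ℕ} (hn0 : 1 ≤ n0) (y0 : ℤ) {n : ℕ} (hn : n0 ≤ n) (y : ℤ) :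
    t n y ≤ n * (t n0 y0 / n0 + C * |(y : ℝ) / n - y0 / n0|) + C * (n0 + |(y0 : ℝ)|) := by
  have hC := h.C0
  have hn0R : (0 : ℝ) < n0 := by exact_mod_cast hn0
  have hnR : (0 : ℝ) < n := by exact_mod_cast (show 0 < n by omega)
  obtain ⟨q, hq⟩ : ∃ q : ℕ, q = n / n0 := ⟨_, rfl⟩
  obtain ⟨r, hr⟩ : ∃ r : ℕ, r = n % n0 := ⟨_, rfl⟩
  have hqr : n = q * n0 + r := by
    rw [hq, hr]
    exact (Nat.div_add_mod' n n0).symm
  have hr1 : r < n0 := by rw [hr]; exact Nat.mod_lt _ (by omega)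
  have hq1 : 1 ≤ q := by rw [hq]; exact Nat.div_pos hn (by omega)
  have hqn : 1 ≤ q * n0 := Nat.mul_pos hq1 hn0
  have hqrR : (n : ℝ) = q * n0 + r := by exact_mod_cast hqr
  have hr1R : (r : ℝ) ≤ n0 := by exact_mod_cast hr1.le
  have hr0R : (0 : ℝ) ≤ r := Nat.cast_nonneg r
  have hm := h.mulN hn0 y0 hq1
  have h1 : t n y ≤ q * t n0 y0 + C * n0 + C * |(y : ℝ) - q * y0| := by
    rcases Nat.eq_zero_or_pos r with h0 | h0
    · have e1 : n = q * n0 := by omega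
      have h2 := (abs_le.1 (h.lipZ hqn (q * y0) y)).2
      rw [e1]
      push_cast at h2
      have h3 : 0 ≤ C * (n0 : ℝ) := by positivity
      linarith
    · have h2 := h.sub (q * n0) r hqn h0 (q * y0) (y - q * y0)
      have h3 := h.up h0 (y - q * y0)
      rw [← hqr, add_sub_cancel] at h2
      push_cast at h3
      have h4 : C * (r : ℝ) ≤ C * n0 := mul_le_mul_of_nonneg_left hr1R hC
      linarith
  have ht := h.nn n0 hn0 y0
  have h2 : (q : ℝ) * t n0 y0 ≤ n * (t n0 y0 / n0) := by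
    rw [mul_div_assoc', le_div_iff₀ hn0R, hqrR]
    nlinarith
  have h3 : |(y : ℝ) - q * y0| ≤ n * |(y : ℝ) / n - y0 / n0| + |(y0 : ℝ)| := by
    have e1 : (y : ℝ) - q * y0 = n * ((y : ℝ) / n - y0 / n0) + (r / n0) * y0 := by
      rw [mul_sub, mul_div_cancel₀ _ hnR.ne']
      have : (n : ℝ) * (y0 / n0) = q * y0 + r / n0 * y0 := by
        rw [hqrR]
        field_simp
      rw [this]
      ring
    rw [e1]
    refine (abs_add_le _ _).trans ?_
    rw [abs_mul, abs_mul, abs_of_pos hnR, abs_of_nonneg (div_nonneg hr0R hn0R.le)]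
    have h5 : (r : ℝ) / n0 ≤ 1 := by rwa [div_le_one hn0R]
    have h6 := mul_le_mul_of_nonneg_right h5 (abs_nonneg (y0 : ℝ))
    linarith
  have h4 := mul_le_mul_of_nonneg_left h3 hC
  nlinarith

/-- **The uniform upper bound.** -/
theorem upper (K : ℝ) {ε : ℝ} (hε : 0 < ε) : ∃ N : ℕ, 1 ≤ N ∧ ∀ n : ℕ, N ≤ n → ∀ y : ℤ, |(y : ℝ)| ≤ K * n →
    t n y ≤ n * (lm t C (y / n) + ε) := by
  have hC := h.C0
  obtain ⟨δ, hδ, hδ1⟩ : ∃ δ : ℝ, 0 < δ ∧ C * δ ≤ ε / 8 := by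
    refine ⟨ε / (8 * (C + 1)), by positivity, ?_⟩
    have h1 : C * (ε / (8 * (C + 1))) ≤ (C + 1) * (ε / (8 * (C + 1))) :=
      mul_le_mul_of_nonneg_right (by linarith) (by positivity)
    have h2 : (C + 1) * (ε / (8 * (C + 1))) = ε / 8 := by field_simp
    linarith
  -- for each grid point a good displacement
  have hex : ∀ i : ℤ, ∃ q : ℕ × ℤ, t (q.1 + 1) q.2 / ((q.1 : ℝ) + 1) + C * |i * δ - q.2 / ((q.1 : ℝ) + 1)| <
      lm t C (i * δ) + ε / 8 := by
    intro i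
    exact exists_lt_of_ciInf_lt (show lm t C (i * δ) < lm t C (i * δ) + ε / 8 by linarith)
  choose q hq using hex
  obtain ⟨I, hI⟩ : ∃ I : ℕ, K / δ + 1 < I := exists_nat_gt _
  -- the thresholds
  obtain ⟨N1, hN1⟩ : ∃ N1 : ℕ, ∀ i ∈ Finset.Icc (-(I : ℤ)) I, (q i).1 + 1 ≤ N1 ∧
      C * (((q i).1 : ℝ) + 1 + |((q i).2 : ℝ)|) ≤ ε / 8 * N1 := by
    have : ∀ᶠ N : ℕ in atTop, ∀ i ∈ Finset.Icc (-(I : ℤ)) I, (q i).1 + 1 ≤ N ∧
        C * (((q i).1 : ℝ) + 1 + |((q i).2 : ℝ)|) ≤ ε / 8 * N := by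
      rw [Finset.eventually_all]
      intro i _
      refine (eventually_ge_atTop _).and ?_
      have h1 : Tendsto (fun N : ℕ => ε / 8 * (N : ℝ)) atTop atTop :=
        tendsto_natCast_atTop_atTop.const_mul_atTop (by positivity)
      exact h1.eventually (eventually_ge_atTop _)
    exact this.exists
  refine ⟨max N1 1, le_max_right _ _, fun n hn y hy => ?_⟩
  have hn1 : N1 ≤ n := (le_max_left _ _).trans hn
  have hn0 : 1 ≤ n := (le_max_right _ _).trans hn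
  have hnR : (0 : ℝ) < n := by exact_mod_cast hn0
  obtain ⟨x, hx⟩ : ∃ x : ℝ, x = (y : ℝ) / n := ⟨_, rfl⟩
  have hxK : |x| ≤ K := by
    rw [hx, abs_div, abs_of_pos hnR, div_le_iff₀ hnR]
    exact hy
  obtain ⟨i, hi⟩ : ∃ i : ℤ, i = ⌊x / δ⌋ := ⟨_, rfl⟩
  have hi1 : (i : ℝ) * δ ≤ x := by
    have := Int.floor_le (x / δ)
    rw [← hi, le_div_iff₀ hδ] at this
    exact this
  have hi2 : x < (i : ℝ) * δ + δ := by
    have := Int.lt_floor_add_one (x / δ)
    rw [← hi, div_lt_iff₀ hδ] at this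
    linarith
  have hiI : i ∈ Finset.Icc (-(I : ℤ)) I := by
    have hIδ : K + δ < I * δ := by
      have h1 := mul_lt_mul_of_pos_right hI hδ
      have h2 : (K / δ + 1) * δ = K + δ := by field_simp
      linarith
    have hx2 := abs_le.1 hxK
    rw [Finset.mem_Icc]
    constructor
    · have h1 : -(I * δ) < i * δ := by linarith
      have h2 : (-(I : ℝ)) * δ < i * δ := by linarith
      have h3 := lt_of_mul_lt_mul_right h2 hδ.le
      have h4 : ((-(I : ℤ) : ℤ) : ℝ) < i := by push_cast; exact h3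
      exact (by exact_mod_cast h4 : -(I : ℤ) < i).le
    · have h1 : (i : ℝ) * δ < I * δ := by linarith
      have h3 := lt_of_mul_lt_mul_right h1 hδ.le
      exact (by exact_mod_cast h3 : i < (I : ℤ)).le
  obtain ⟨hN2, hN3⟩ := hN1 i hiI
  have h1 := h.upper_of (n0 := (q i).1 + 1) (by omega) (q i).2 (n := n) (by omega) y
  have h2 := hq i
  have hxi : |x - i * δ| ≤ δ := by
    rw [abs_le]
    constructor <;> linarith
  push_cast at h1
  rw [← hx] at h1 ⊢
  have h3 : |x - (q i).2 / (((q i).1 : ℝ) + 1)| ≤ δ + |i * δ - (q i).2 / (((q i).1 : ℝ) + 1)| :=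
    (abs_sub_le x (i * δ) _).trans (by linarith)
  have h4 := mul_le_mul_of_nonneg_left h3 hC
  have h5 : lm t C (i * δ) ≤ lm t C x + C * δ := by
    have := h.lm_lip (i * δ) x
    rw [abs_sub_comm] at this
    have := mul_le_mul_of_nonneg_left hxi hC
    linarith
  have h6 : C * (((q i).1 : ℝ) + 1 + |((q i).2 : ℝ)|) ≤ ε / 8 * n := by
    have : ε / 8 * (N1 : ℝ) ≤ ε / 8 * n := mul_le_mul_of_nonneg_left (by exact_mod_cast hn1) (by positivity)
    linarith
  have h7 : t (((q i).1) + 1) (q i).2 / (((q i).1 : ℝ) + 1) + C * |x - (q i).2 / (((q i).1 : ℝ) + 1)| ≤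
      lm t C x + ε / 2 := by linarith
  have h8 := mul_le_mul_of_nonneg_left h7 hnR.le
  nlinarith

/-- Comparison of nearby slopes. -/
theorem near {n : ℕ} (hn : 1 ≤ n) {y z D : ℝ} (hy : |y - z * n| ≤ D) :
    n * lm t C (y / n) ≤ n * lm t C z + C * D ∧ n * lm t C z ≤ n * lm t C (y / n) + C * D := by
  have hnR : (0 : ℝ) < n := by exact_mod_cast hn
  have e1 : (n : ℝ) * |y / n - z| = |y - z * n| := by
    rw [← abs_of_pos hnR, ← abs_mul, abs_of_pos hnR, mul_sub, mul_div_cancel₀ _ hnR.ne']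
    congr 1
    ring
  have h1 := mul_le_mul_of_nonneg_left (h.lm_lip (y / n) z) hnR.le
  have h2 := mul_le_mul_of_nonneg_left (h.lm_lip z (y / n)) hnR.le
  rw [abs_sub_comm z] at h2
  have h3 : C * (n * |y / n - z|) ≤ C * D := by
    rw [e1]
    exact mul_le_mul_of_nonneg_left hy h.C0
  have e2 : (n : ℝ) * (C * |y / n - z|) = C * (n * |y / n - z|) := by ring
  rw [mul_add, e2] at h1 h2
  constructor <;> linarith

omit h in
private theorem floor_abs (x : ℝ) {n : ℕ} (hn : 1 ≤ n) {K : ℝ} (hK : |x| ≤ K) :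
    |((⌊x * n⌋ : ℤ) : ℝ) - x * n| ≤ 1 ∧ |((⌊x * n⌋ : ℤ) : ℝ)| ≤ (K + 1) * n := by
  have hnR : (1 : ℝ) ≤ n := by exact_mod_cast hn
  have f1 : ((⌊x * n⌋ : ℤ) : ℝ) ≤ x * n := Int.floor_le _
  have f2 : x * n < ((⌊x * n⌋ : ℤ) : ℝ) + 1 := Int.lt_floor_add_one _
  have h2 : |((⌊x * n⌋ : ℤ) : ℝ) - x * n| ≤ 1 := by rw [abs_le]; constructor <;> linarith
  refine ⟨h2, ?_⟩
  have h1 : |((⌊x * n⌋ : ℤ) : ℝ)| ≤ |x * n| + |((⌊x * n⌋ : ℤ) : ℝ) - x * n| := by
    have := abs_add_le (x * n) (((⌊x * n⌋ : ℤ) : ℝ) - x * n)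
    rwa [add_sub_cancel] at this
  rw [abs_mul, abs_of_nonneg (show (0 : ℝ) ≤ n by linarith)] at h1
  have h3 : |x| * n ≤ K * n := mul_le_mul_of_nonneg_right hK (by linarith)
  linarith

/-- Cutting a long displacement in the proportion `a : b`. -/
private theorem cut_ab {a b x x' ε : ℝ} (hab : a + b = 1) {N n n1 n2 : ℕ} (hN1 : 1 ≤ N)
    (hN : ∀ n : ℕ, N ≤ n → ∀ y : ℤ, |(y : ℝ)| ≤ (max |x| |x'| + 1) * n → t n y ≤ n * (lm t C (y / n) + ε))
    (h1 : N ≤ n1) (h2 : N ≤ n2) (h12 : n = n1 + n2) (ha1 : (n1 : ℝ) ≤ a * n) (ha2 : a * n ≤ n1 + 1) :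
    n * lm t C (a * x + b * x') ≤ n1 * (lm t C x + ε) + n2 * (lm t C x' + ε) + C * (4 + |x| + |x'|) := by
  have hC := h.C0
  have hn1 : 1 ≤ n1 := hN1.trans h1
  have hn2 : 1 ≤ n2 := hN1.trans h2
  have hn12 : (n : ℝ) = n1 + n2 := by exact_mod_cast h12
  obtain ⟨f1, g1⟩ := floor_abs x hn1 (le_max_left |x| |x'|)
  obtain ⟨f2, g2⟩ := floor_abs x' hn2 (le_max_right |x| |x'|)
  obtain ⟨y1, hy1⟩ : ∃ y1 : ℤ, y1 = ⌊x * n1⌋ := ⟨_, rfl⟩
  obtain ⟨y2, hy2⟩ : ∃ y2 : ℤ, y2 = ⌊x' * n2⌋ := ⟨_, rfl⟩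
  rw [← hy1] at f1 g1
  rw [← hy2] at f2 g2
  have k1 := hN n1 h1 y1 g1
  have k2 := hN n2 h2 y2 g2
  have k3 := h.sub n1 n2 hn1 hn2 y1 y2
  rw [← h12] at k3
  have k4 := h.lower (n := n) (by omega) (y1 + y2)
  have k5 := (h.near hn1 f1).1
  have k6 := (h.near hn2 f2).1
  have hf : |((y1 + y2 : ℤ) : ℝ) - (a * x + b * x') * n| ≤ 2 + |x| + |x'| := by
    have hbn : b * (n : ℝ) - n2 = -(a * n - n1) := by
      have : a * (n : ℝ) + b * n = n := by rw [← add_mul, hab, one_mul]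
      linarith
    have e1 : ((y1 + y2 : ℤ) : ℝ) - (a * x + b * x') * n =
        ((y1 : ℝ) - x * n1) + ((y2 : ℝ) - x' * n2) + (-(x * (a * n - n1)) + -(x' * (b * n - n2))) := by
      push_cast
      ring
    rw [e1]
    have s0 : |a * n - n1| ≤ 1 := by rw [abs_le]; constructor <;> linarith
    have s3 : |-(x * (a * n - n1))| ≤ |x| := by
      rw [abs_neg, abs_mul]
      calc |x| * |a * n - n1| ≤ |x| * 1 := mul_le_mul_of_nonneg_left s0 (abs_nonneg x)
        _ = |x| := mul_one _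
    have s4 : |-(x' * (b * n - n2))| ≤ |x'| := by
      rw [hbn, abs_neg, abs_mul, abs_neg]
      calc |x'| * |a * n - n1| ≤ |x'| * 1 := mul_le_mul_of_nonneg_left s0 (abs_nonneg x')
        _ = |x'| := mul_one _
    have s5 := abs_add_le (((y1 : ℝ) - x * n1) + ((y2 : ℝ) - x' * n2))
      (-(x * (a * n - n1)) + -(x' * (b * n - n2)))
    have s6 := abs_add_le ((y1 : ℝ) - x * n1) ((y2 : ℝ) - x' * n2)
    have s7 := abs_add_le (-(x * (a * n - n1))) (-(x' * (b * n - n2)))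
    linarith
  have k7 := (h.near (show 1 ≤ n by omega) hf).2
  have e3 : C * (4 + |x| + |x'|) = C * (2 + |x| + |x'|) + C * 1 + C * 1 := by ring
  rw [e3]
  linarith

/-- Convexity. -/
theorem lm_convex : ConvexOn ℝ univ (lm t C) := by
  have hC := h.C0
  refine ⟨convex_univ, fun x _ x' _ a b ha hb hab => ?_⟩
  simp only [smul_eq_mul]
  rcases ha.eq_or_lt with ha0 | ha0
  · have hb1 : b = 1 := by linarith
    rw [← ha0, hb1]
    simp
  rcases hb.eq_or_lt with hb0 | hb0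
  · have ha1 : a = 1 := by linarith
    rw [← hb0, ha1]
    simp
  refine le_of_forall_pos_le_add fun ε hε => ?_
  obtain ⟨N, hN1, hN⟩ := h.upper (max |x| |x'| + 1) (half_pos hε)
  have hx0 := h.lm_nonneg x
  have hx'0 := h.lm_nonneg x'
  -- a large time
  obtain ⟨n, hn1, hn2, hn3⟩ : ∃ n : ℕ, (N : ℝ) + 1 ≤ a * n ∧ (N : ℝ) + 1 ≤ b * n ∧
      C * (4 + |x| + |x'|) + lm t C x' ≤ ε / 2 * n := by
    have h1 : Tendsto (fun n : ℕ => a * (n : ℝ)) atTop atTop :=
      tendsto_natCast_atTop_atTop.const_mul_atTop ha0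
    have h2 : Tendsto (fun n : ℕ => b * (n : ℝ)) atTop atTop :=
      tendsto_natCast_atTop_atTop.const_mul_atTop hb0
    have h3 : Tendsto (fun n : ℕ => ε / 2 * (n : ℝ)) atTop atTop :=
      tendsto_natCast_atTop_atTop.const_mul_atTop (half_pos hε)
    exact ((h1.eventually (eventually_ge_atTop _)).and ((h2.eventually (eventually_ge_atTop _)).and
      (h3.eventually (eventually_ge_atTop _)))).exists
  have hNR : (1 : ℝ) ≤ N := by exact_mod_cast hN1
  have hnR : (0 : ℝ) < n := by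
    by_contra hcon
    have : (n : ℝ) = 0 := le_antisymm (not_lt.1 hcon) (Nat.cast_nonneg n)
    rw [this, mul_zero] at hn1
    linarith
  have habn : a * (n : ℝ) + b * n = n := by rw [← add_mul, hab, one_mul]
  obtain ⟨n1, hn1'⟩ : ∃ n1 : ℕ, n1 = ⌊a * n⌋₊ := ⟨_, rfl⟩
  have ha1 : (n1 : ℝ) ≤ a * n := by rw [hn1']; exact Nat.floor_le (by positivity)
  have ha2 : a * n < n1 + 1 := by rw [hn1']; exact Nat.lt_floor_add_one _
  have hn1N : N ≤ n1 := by
    have : (N : ℝ) < n1 + 1 := by linarith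
    have : N < n1 + 1 := by exact_mod_cast this
    omega
  have hn1n : n1 ≤ n := by
    have : (n1 : ℝ) ≤ n := by linarith
    exact_mod_cast this
  obtain ⟨n2, hn2'⟩ : ∃ n2 : ℕ, n = n1 + n2 := ⟨n - n1, by omega⟩
  have hn12 : (n : ℝ) = n1 + n2 := by exact_mod_cast hn2'
  have hb2 : (n2 : ℝ) ≤ b * n + 1 := by linarith
  have hn2N : N ≤ n2 := by
    have : (N : ℝ) ≤ n2 := by linarith
    exact_mod_cast this
  have key := h.cut_ab hab hN1 hN hn1N hn2N hn2' ha1 ha2.le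
  have k8 : (n1 : ℝ) * lm t C x ≤ a * n * lm t C x := mul_le_mul_of_nonneg_right ha1 hx0
  have k9 : (n2 : ℝ) * lm t C x' ≤ (b * n + 1) * lm t C x' := mul_le_mul_of_nonneg_right hb2 hx'0
  have k10 : (n : ℝ) * lm t C (a * x + b * x') ≤ n * (a * lm t C x + b * lm t C x' + ε) := by
    have e1 : (n1 : ℝ) * (ε / 2) + n2 * (ε / 2) = ε / 2 * n := by rw [hn12]; ring
    have e2 : (n1 : ℝ) * (lm t C x + ε / 2) + n2 * (lm t C x' + ε / 2) =
        n1 * lm t C x + n2 * lm t C x' + ((n1 : ℝ) * (ε / 2) + n2 * (ε / 2)) := by ring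
    rw [e2, e1] at key
    have e3 : (n : ℝ) * (a * lm t C x + b * lm t C x' + ε) =
        a * n * lm t C x + b * n * lm t C x' + ε * n := by ring
    rw [e3]
    linarith
  exact le_of_mul_le_mul_left k10 hnR

end SubT

end Pool.Agent.W_1b8d5d_p
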