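import Pool.Agent.W_1b8d5d_p.FrTT
import Pool.Agent.W_1b8d5d_p.SubL

/-!
MP_1b8d5d_pr, Track P. The mean slab passage time `tm_`, its limit function `mu_`, the rate function `J` of a direction, lower and
upper bounds of the mean costs, uniform in the direction.
-/

namespace Pool.Agent.W_1b8d5d_p

open MeasureTheory Set
open Pool.Agent.W_1b8d5d_h85 (V nm dir Edge Env grid ke wedges cost Bd sh rf)

noncomputable section

private theorem u_bd (F : Fm) (η : Env) : Bd F.a F.b (F.tau η) := fun _ => ⟨F.g1 _, F.g2 _⟩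

private theorem u_b0 (F : Fm) : 0 < F.b := F.a0.trans_le F.ab

private theorem u_tau_meas (F : Fm) : Measurable F.tau :=
  measurable_pi_lambda _ fun e => F.mg.comp (measurable_pi_apply e)

private theorem u_meas (F : Fm) (a : Pt) (n : ℕ) (y : ℤ) : Measurable fun η => TT F.co (F.tau η) a n y :=
  (TT_meas F.co a n y).comp (u_tau_meas F)

private theorem u_int (F : Fm) (a : Pt) {n : ℕ} (hn : 1 ≤ n) (y : ℤ) :
    Integrable (fun η => TT F.co (F.tau η) a n y) (law F) := by
  refine Integrable.of_bound (u_meas F a n y).aestronglyMeasurable (F.b * (nm (F.co.vt ((n : ℤ), y)) + 4))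
    (Filter.Eventually.of_forall fun η => ?_)
  rw [Real.norm_eq_abs, abs_of_nonneg (TT_nonneg (u_bd F η) F.a0.le a n y)]
  exact TT_upper (u_bd F η) F.a0.le (u_b0 F).le a hn y

private def u_eq (z : V) : Edge ≃ Edge where
  toFun e := (e.1 - z, e.2)
  invFun e := (e.1 + z, e.2)
  left_inv e := by simp
  right_inv e := by simp

private theorem u_map (F : Fm) (z : V) : (law F).map (sh z) = law F := by
  have h := Measure.infinitePi_map_piCongrLeft (μ := fun _ : Edge => F.nu) (u_eq z)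
  have e1 : (MeasurableEquiv.piCongrLeft (fun _ : Edge => ℝ) (u_eq z) : (Edge → ℝ) → (Edge → ℝ)) = sh z := by
    funext τ e
    rw [MeasurableEquiv.coe_piCongrLeft]
    have h1 : (u_eq z) (e.1 + z, e.2) = e := by simp [u_eq]
    conv_lhs => rw [← h1]
    rw [Equiv.piCongrLeft_apply_apply]
    rfl
  unfold law
  rw [← e1]
  exact h

private theorem u_walk (z : V) {x y : V} (w : grid.Walk x y) :
    ∃ w' : grid.Walk (x + z) (y + z), wedges w' = (wedges w).map fun e => (e.1 + z, e.2) := by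
  induction w with
  | nil => exact ⟨SimpleGraph.Walk.nil, by simp [wedges]⟩
  | @cons u v w h p ih =>
    obtain ⟨w', hw'⟩ := ih
    have key : ∃ h' : grid.Adj (u + z) (v + z), ke s(u + z, v + z) = ((ke s(u, v)).1 + z, (ke s(u, v)).2) := by
      obtain ⟨s, h | h⟩ := h
      · subst h
        have e : u + dir s + z = (u + z) + dir s := by abel
        exact ⟨⟨s, Or.inl e⟩, by rw [e, Pool.Agent.W_1b8d5d_h85.ke_dir, Pool.Agent.W_1b8d5d_h85.ke_dir]⟩
      · subst h
        have e : v + dir s + z = (v + z) + dir s := by abel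
        exact ⟨⟨s, Or.inr e⟩, by rw [e, Pool.Agent.W_1b8d5d_h85.ke_dir', Pool.Agent.W_1b8d5d_h85.ke_dir']⟩
    obtain ⟨h', hk⟩ := key
    refine ⟨SimpleGraph.Walk.cons h' w', ?_⟩
    unfold wedges at hw' ⊢
    rw [SimpleGraph.Walk.edges_cons, SimpleGraph.Walk.edges_cons, List.map_cons, List.map_cons, List.map_cons, hw', hk]

private theorem u_TR_le (S S' : Set Edge) (τ : Env) {α β : ℝ} (hτ : Bd α β τ) (hα : 0 ≤ α) (z : V)
    (hS : ∀ e, e ∈ S' → ((e.1 + z, e.2) : Edge) ∈ S) (x y : V) (hne : Nonempty (WK S' x y)) :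
    TR S τ (x + z) (y + z) ≤ TR S' (sh z τ) x y := by
  refine le_TR hne fun w hw => ?_
  obtain ⟨w', hw'⟩ := u_walk z w
  refine (TR_le hτ hα w' fun e he => ?_).trans ?_
  · rw [hw', List.mem_map] at he
    obtain ⟨e', he', rfl⟩ := he
    exact hS e' (hw e' he')
  · unfold cost
    rw [hw', List.map_map]
    exact le_rfl

private theorem u_TT_le (c : Co) (τ : Env) {α β : ℝ} (hτ : Bd α β τ) (hα : 0 ≤ α) (b a : Pt) {n : ℕ} (hn : 1 ≤ n)
    (y : ℤ) : TT c τ (a + b) n y ≤ TT c (sh (c.vt b) τ) a n y := by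
  have h := u_TR_le (c.slab (a.1 + b.1) (a.1 + n + b.1)) (c.slab a.1 (a.1 + n)) τ hτ hα (c.vt b)
    (fun e he => (sh_mem_slab c b a.1 (a.1 + n) e.1 e.2).2 he) (c.vt a) (c.vt (a + ((n : ℤ), y))) (Co.ne_vt a hn y)
  rw [← Co.vt_add, ← Co.vt_add] at h
  unfold TT
  have e1 : a + ((n : ℤ), y) + b = a + b + ((n : ℤ), y) := by abel
  have e2 : (a + b).1 + (n : ℤ) = a.1 + n + b.1 := by rw [Prod.fst_add]; ring
  rw [e2, ← e1]
  exact h

private theorem u_TT_sh (c : Co) (τ : Env) {α β : ℝ} (hτ : Bd α β τ) (hα : 0 ≤ α) (b a : Pt) {n : ℕ} (hn : 1 ≤ n)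
    (y : ℤ) : TT c (sh (c.vt b) τ) a n y = TT c τ (a + b) n y := by
  refine le_antisymm ?_ (u_TT_le c τ hτ hα b a hn y)
  have h := u_TT_le c (sh (c.vt b) τ) (α := α) (β := β) (fun _ => hτ _) hα (-b) (a + b) hn y
  have e1 : sh (c.vt (-b)) (sh (c.vt b) τ) = τ := by
    funext e
    unfold sh
    simp [Co.vt_neg]
  rw [e1, add_neg_cancel_right] at h
  exact h

/-- The mean slab passage time of the displacement `(n, y)`. -/
def tm_ (F : Fm) (n : ℕ) (y : ℤ) : ℝ := ∫ η, TT F.co (F.tau η) 0 n y ∂(law F)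

/-- Cost of one step. -/
def CT (F : Fm) : ℝ := F.b * (F.co.L * F.co.R + F.co.M + 4)

theorem CT_pos (F : Fm) : 0 < CT F := by
  have h1 : (0 : ℝ) < F.co.L := by exact_mod_cast (show (0 : ℤ) < F.co.L by have := F.co.L_pos; omega)
  have h2 : (0 : ℝ) < F.co.R := by exact_mod_cast (show (0 : ℤ) < F.co.R by have := F.co.R_pos; omega)
  have h3 : (0 : ℝ) < F.co.M := by exact_mod_cast (show (0 : ℤ) < F.co.M by have := F.co.M_pos; omega)
  have h4 := u_b0 F
  unfold CT
  positivity

theorem tm_at (F : Fm) (a : Pt) {n : ℕ} (hn : 1 ≤ n) (y : ℤ) :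
    ∫ η, TT F.co (F.tau η) a n y ∂(law F) = tm_ F n y := by
  have e1 : ∀ η, TT F.co (F.tau η) a n y = (fun η => TT F.co (F.tau η) 0 n y) (sh (F.co.vt a) η) := by
    intro η
    simp only
    rw [show F.tau (sh (F.co.vt a) η) = sh (F.co.vt a) (F.tau η) from rfl,
      u_TT_sh F.co (F.tau η) (u_bd F η) F.a0.le a 0 hn, zero_add]
  unfold tm_
  simp_rw [e1]
  conv_rhs => rw [← u_map F (F.co.vt a)]
  have hm : Measurable (sh (F.co.vt a) : Env → Env) := measurable_pi_lambda _ fun e => measurable_pi_apply _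
  rw [integral_map hm.aemeasurable (u_meas F 0 n y).aestronglyMeasurable]

theorem tm_sub (F : Fm) : SubT (tm_ F) (CT F) where
  C0 := (CT_pos F).le
  sub := by
    intro m n hm hn k y
    rw [← tm_at F (0 + ((m : ℤ), k)) hn y]
    unfold tm_
    rw [← integral_add (u_int F 0 hm k) (u_int F _ hn y)]
    exact integral_mono (u_int F 0 (by omega) _) ((u_int F 0 hm k).add (u_int F _ hn y)) fun η =>
      TT_tri (u_bd F η) F.a0.le 0 hm hn k y
  lip := by
    intro n hn y
    have key : ∀ y y' : ℤ, |(y : ℝ) - y'| ≤ 1 → tm_ F n y ≤ tm_ F n y' + CT F := by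
      intro y y' h
      unfold tm_
      have h1 : ∫ η, TT F.co (F.tau η) 0 n y ∂(law F) ≤ ∫ η, (TT F.co (F.tau η) 0 n y' + CT F) ∂(law F) := by
        refine integral_mono (u_int F 0 hn y) ((u_int F 0 hn y').add (integrable_const _)) fun η => ?_
        refine (TT_end (u_bd F η) F.a0.le (u_b0 F).le 0 hn y y').trans ?_
        have h1 : (0 : ℝ) ≤ F.co.L := by exact_mod_cast (show (0 : ℤ) ≤ F.co.L by have := F.co.L_pos; omega)
        have h2 : (0 : ℝ) ≤ F.co.R := by exact_mod_cast (show (0 : ℤ) ≤ F.co.R by have := F.co.R_pos; omega)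
        have h3 : (0 : ℝ) ≤ F.co.M := by exact_mod_cast (show (0 : ℤ) ≤ F.co.M by have := F.co.M_pos; omega)
        have h4 := u_b0 F
        have h5 : F.b * (F.co.M * |(y : ℝ) - y'| + 4) ≤ CT F := by
          unfold CT
          refine mul_le_mul_of_nonneg_left ?_ h4.le
          have h6 : F.co.M * |(y : ℝ) - y'| ≤ F.co.M * 1 := mul_le_mul_of_nonneg_left h h3
          have h7 : 0 ≤ (F.co.L : ℝ) * F.co.R := by positivity
          linarith
        linarith
      rw [integral_add (u_int F 0 hn y') (integrable_const _), integral_const, probReal_univ, one_smul] at h1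
      exact h1
    have h1 := key (y + 1) y (by push_cast; rw [add_sub_cancel_left, abs_one])
    have h2 := key y (y + 1) (by push_cast; rw [show (y : ℝ) - (y + 1) = -1 by ring, abs_neg, abs_one])
    rw [abs_le]
    constructor <;> linarith
  one := by
    unfold tm_
    have h1 : ∫ η, TT F.co (F.tau η) 0 1 0 ∂(law F) ≤ ∫ _η, CT F ∂(law F) := by
      refine integral_mono (u_int F 0 le_rfl 0) (integrable_const _) fun η => ?_
      refine (TT_upper (u_bd F η) F.a0.le (u_b0 F).le 0 le_rfl 0).trans ?_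
      unfold CT
      refine mul_le_mul_of_nonneg_left ?_ (u_b0 F).le
      have h3 : (0 : ℝ) ≤ F.co.M := by exact_mod_cast (show (0 : ℤ) ≤ F.co.M by have := F.co.M_pos; omega)
      have h4 := F.co.nm_le (F.co.vt (((1 : ℕ) : ℤ), 0))
      rw [Co.tm_vt, Co.ps_vt] at h4
      push_cast at h4
      rw [abs_zero, mul_zero, add_zero, mul_one, abs_of_nonneg (by
        exact_mod_cast (show (0 : ℤ) ≤ F.co.L by have := F.co.L_pos; omega))] at h4
      push_cast
      linarith [mul_comm (F.co.L : ℝ) F.co.R]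
    rw [integral_const, probReal_univ, one_smul] at h1
    exact h1
  nn := by
    intro n _ y
    exact integral_nonneg fun η => TT_nonneg (u_bd F η) F.a0.le 0 n y

/-- The limit function: mean slab time of the displacements `(n, x n)`, divided by `n`. -/
def mu_ (F : Fm) (x : ℝ) : ℝ := lm (tm_ F) (CT F) x

theorem mu_lip (F : Fm) (x x' : ℝ) : |mu_ F x - mu_ F x'| ≤ CT F * |x - x'| := (tm_sub F).lm_lip' x x'

theorem mu_convex (F : Fm) : ConvexOn ℝ univ (mu_ F) := (tm_sub F).lm_convex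

/-- The rate function of a direction. -/
def J (F : Fm) (d : Dr) (x : ℝ) : ℝ := mu_ F (d.v + x) - (al F.co d + be F.co d * (d.v + x))

/-- `H` is a supporting form at the slope `v`. -/
structure Touch (F : Fm) (d : Dr) : Prop where
  zero : J F d 0 = 0
  nn : ∀ x, 0 ≤ J F d x

theorem J_convex (F : Fm) (d : Dr) : ConvexOn ℝ univ (J F d) := by
  have h1 := mu_convex F
  refine ⟨convex_univ, fun x _ y _ a b ha hb hab => ?_⟩
  have h2 := h1.2 (mem_univ (d.v + x)) (mem_univ (d.v + y)) ha hb hab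
  simp only [smul_eq_mul] at h2 ⊢
  have e1 : a * (d.v + x) + b * (d.v + y) = d.v + (a * x + b * y) := by
    linear_combination d.v * hab
  rw [e1] at h2
  unfold J
  have e2 : a * (al F.co d + be F.co d * (d.v + x)) + b * (al F.co d + be F.co d * (d.v + y)) =
      al F.co d + be F.co d * (d.v + (a * x + b * y)) := by
    linear_combination (al F.co d + be F.co d * d.v) * hab
  rw [mul_sub, mul_sub]
  linarith

theorem e_eq (F : Fm) (d : Dr) {n : ℕ} (hn : 1 ≤ n) (y : ℤ) :
    e F d n y = tm_ F n y - (al F.co d * n + be F.co d * y) := by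
  unfold e X tm_
  rw [integral_sub (u_int F 0 hn y) (integrable_const _), integral_const, probReal_univ, one_smul]

/-- The lower bound of the mean costs. -/
theorem e_lower (F : Fm) (d : Dr) {n : ℕ} (hn : 1 ≤ n) (y : ℤ) : n * J F d (y / n - d.v) ≤ e F d n y := by
  have h1 := (tm_sub F).lower hn y
  have hn0 : (n : ℝ) ≠ 0 := by exact_mod_cast (show n ≠ 0 by omega)
  rw [e_eq F d hn y]
  unfold J mu_
  have e1 : d.v + ((y : ℝ) / n - d.v) = y / n := by ring
  rw [e1]
  have e2 : (n : ℝ) * (y / n) = y := mul_div_cancel₀ _ hn0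
  have e3 : (n : ℝ) * (lm (tm_ F) (CT F) (y / n) - (al F.co d + be F.co d * (y / n))) =
      n * lm (tm_ F) (CT F) (y / n) - (al F.co d * n + be F.co d * (n * (y / n))) := by ring
  rw [e3, e2]
  linarith

/-- **The upper bound, uniform in the direction.** -/
theorem e_upper (F : Fm) (K : ℝ) {ε : ℝ} (hε : 0 < ε) : ∃ N : ℕ, 1 ≤ N ∧ ∀ d : Dr, ∀ n : ℕ, N ≤ n → ∀ y : ℤ,
    |(y : ℝ)| ≤ K * n → e F d n y ≤ n * (J F d (y / n - d.v) + ε) := by
  obtain ⟨N, hN, h⟩ := (tm_sub F).upper K hε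
  refine ⟨N, hN, fun d n hn y hy => ?_⟩
  have h1 := h n hn y hy
  have hn1 : 1 ≤ n := hN.trans hn
  have hn0 : (n : ℝ) ≠ 0 := by exact_mod_cast (show n ≠ 0 by omega)
  rw [e_eq F d hn1 y]
  unfold J mu_
  have e1 : d.v + ((y : ℝ) / n - d.v) = y / n := by ring
  rw [e1]
  have e2 : (n : ℝ) * (y / n) = y := mul_div_cancel₀ _ hn0
  have e3 : (n : ℝ) * (lm (tm_ F) (CT F) (y / n) - (al F.co d + be F.co d * (y / n)) + ε) =
      n * (lm (tm_ F) (CT F) (y / n) + ε) - (al F.co d * n + be F.co d * (n * (y / n))) := by ring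
  rw [e3, e2]
  linarith

end

end Pool.Agent.W_1b8d5d_p
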