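import Pool.Agent.W_1b8d5d_p.Cone32C
import Pool.Agent.W_1b8d5d_p.Unit0

/-!
MP_1b8d5d_pr, Track P, proofs row 631, section 7: ONE CONE, the lower bound of the rate function. (helper32)
-/

namespace Pool.Agent.W_1b8d5d_p

open MeasureTheory Set Filter Topology
open scoped ENNReal
open Pool.Agent.W_1b8d5d_h85 (V nm dir Edge Env grid ke wedges cost Bd sh rf)

variable {F : Fm} {d : Dr} {κ θ σ σ₀ W D : ℝ} {n : ℕ}

theorem J_lip32 (F : Fm) (d : Dr) (x x' : ℝ) : J F d x ≤ J F d x' + (CT F + |be F.co d|) * |x - x'| := by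
  have h1 := mu_lip F (d.v + x) (d.v + x')
  have e1 : d.v + x - (d.v + x') = x - x' := by ring
  rw [e1] at h1
  have h2 := le_abs_self (mu_ F (d.v + x) - mu_ F (d.v + x'))
  have h3 : -(be F.co d * (x - x')) ≤ |be F.co d| * |x - x'| := by
    rw [← abs_mul]
    exact neg_le_abs _
  unfold J
  nlinarith

/-- ONE CONE: the rate function above a cone. -/
theorem one_cone (h : Adm F κ d) (hθ : 0 < θ) (hσ : 0 ≤ σ) (hσ₀ : σ < σ₀) (hk : σ₀ ≤ κ * F.co.M)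
    (hW : 0 < W) (hn : 1 ≤ n) (hD : 1 ≤ D)
    (H0 : ∀ z : ℝ, ∫⁻ η, EG F d θ σ₀ W z n η ∂(law F) ≤ ENNReal.ofReal D) (x : ℝ) :
    σ * (n * |x|) - Real.log (D * (Real.exp (θ * C0 F.co F.b) * (3 + 2 / (θ * ((σ₀ - σ) * W))))) / θ ≤ n * J F d x := by
  obtain ⟨B, hB⟩ : ∃ B, B = Real.log (D * (Real.exp (θ * C0 F.co F.b) * (3 + 2 / (θ * ((σ₀ - σ) * W))))) / θ := ⟨_, rfl⟩
  rw [← hB]
  obtain ⟨C, hC⟩ : ∃ C, C = CT F + |be F.co d| := ⟨_, rfl⟩
  have hC0 : 0 ≤ C := by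
    rw [hC]
    have := CT_pos F
    positivity
  have hn0 : (0 : ℝ) < n := by exact_mod_cast hn
  refine le_of_forall_pos_le_add fun δ hδ => ?_
  obtain ⟨N, hN, hup⟩ := e_upper F (|d.v + x| + 1) (show 0 < δ / (2 * n) by positivity)
  obtain ⟨k, hk1⟩ := exists_nat_ge (max (N : ℝ) (2 * (C + σ) / δ))
  have hkN : N ≤ k := by exact_mod_cast (le_max_left _ _).trans hk1
  have hk2 : 2 * (C + σ) / δ ≤ k := (le_max_right _ _).trans hk1
  have hk0 : 1 ≤ k := hN.trans hkN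
  have hk0' : (0 : ℝ) < k := by exact_mod_cast hk0
  have hkn : (0 : ℝ) < ((k * n : ℕ) : ℝ) := by push_cast; positivity
  obtain ⟨y, hy⟩ : ∃ y : ℤ, y = ⌊(d.v + x) * ((k * n : ℕ) : ℝ)⌋ := ⟨_, rfl⟩
  have y1 : (y : ℝ) ≤ (d.v + x) * ((k * n : ℕ) : ℝ) := by rw [hy]; exact Int.floor_le _
  have y2 : (d.v + x) * ((k * n : ℕ) : ℝ) - 1 < y := by rw [hy]; exact Int.sub_one_lt_floor _
  have hkn1 : (1 : ℝ) ≤ ((k * n : ℕ) : ℝ) := by
    have : 1 ≤ k * n := Nat.mul_pos hk0 hn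
    exact_mod_cast this
  have y3 : |(y : ℝ)| ≤ (|d.v + x| + 1) * ((k * n : ℕ) : ℝ) := by
    rw [abs_le]
    have g1 := neg_abs_le (d.v + x)
    have g2 := le_abs_self (d.v + x)
    constructor <;> nlinarith
  have h1 := hup d (k * n) (hkN.trans (Nat.le_mul_of_pos_right k hn)) y y3
  have h2 := one_cone_e h hθ hσ hσ₀ hk hW hn hD H0 hk0 y
  rw [← hB] at h2
  obtain ⟨u, hu⟩ : ∃ u, u = (y : ℝ) / ((k * n : ℕ) : ℝ) - d.v := ⟨_, rfl⟩
  rw [← hu] at h1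
  have hu1 : (y : ℝ) - d.v * ((k * n : ℕ) : ℝ) = u * ((k * n : ℕ) : ℝ) := by
    rw [hu]
    field_simp
  rw [hu1, abs_mul, abs_of_pos hkn] at h2
  have hux : |u - x| * ((k * n : ℕ) : ℝ) ≤ 1 := by
    have e : (u - x) * ((k * n : ℕ) : ℝ) = y - (d.v + x) * ((k * n : ℕ) : ℝ) := by
      rw [sub_mul, ← hu1]
      ring
    rw [← abs_of_pos hkn, ← abs_mul, e, abs_le]
    constructor <;> linarith
  have h3 := J_lip32 F d u x
  rw [← hC] at h3
  have h4 : |x| ≤ |u| + |u - x| := by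
    have := abs_sub_abs_le_abs_sub x u
    rw [abs_sub_comm x u] at this
    linarith
  have c1 : ((k * n : ℕ) : ℝ) = k * n := by push_cast; ring
  rw [c1] at h1 h2 hux
  -- everything divided by `k`
  have q1 : σ * (|u| * (k * n)) - k * B ≤ k * n * (J F d u + δ / (2 * n)) := h2.trans h1
  have q2 : σ * |x| * (k * n) ≤ σ * |u| * (k * n) + σ * (|u - x| * (k * n)) := by
    have := mul_le_mul_of_nonneg_left h4 hσ
    nlinarith [mul_pos hk0' hn0]
  have q3 : σ * (|u - x| * (k * n)) ≤ σ * 1 := mul_le_mul_of_nonneg_left hux hσ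
  have q4 : k * n * J F d u ≤ k * n * J F d x + C * (|u - x| * (k * n)) := by
    have := mul_le_mul_of_nonneg_left h3 (mul_pos hk0' hn0).le
    nlinarith
  have q5 : C * (|u - x| * (k * n)) ≤ C * 1 := mul_le_mul_of_nonneg_left hux hC0
  have q6 : k * n * (δ / (2 * n)) = k * (δ / 2) := by
    field_simp
  have q7 : C + σ ≤ k * (δ / 2) := by
    rw [div_le_iff₀ hδ] at hk2
    linarith
  have q8 : k * (σ * (n * |x|) - B) ≤ k * (n * J F d x + δ) := by nlinarith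
  exact le_of_mul_le_mul_left q8 hk0'

end Pool.Agent.W_1b8d5d_p
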