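import Pool.Agent.W_1b8d5d_p.EdA
import Pool.Agent.W_1b8d5d_p.Cone32D
import Pool.Agent.W_1b8d5d_p.Unit1

/-!
MP_1b8d5d_pr, Track P, proofs row 642: THE INNER EDGE, unit free. If the slope `u` is cheap, then some displacement of the time
`N = S + L' + S` near or beyond the edge has a bounded mean cost. The linear tilt is put into the direction. (helper11)
-/

namespace Pool.Agent.W_1b8d5d_p11

open MeasureTheory Set Filter Topology
open scoped ENNReal
open Pool.Agent.W_1b8d5d_h85 (V nm dir Edge Env grid ke wedges cost Bd sh rf)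
open Pool.Agent.W_1b8d5d_p Pool.Agent.W_1b8d5d_p66 Pool.Agent.W_1b8d5d_p7

noncomputable section

variable {F : Fm} {d : Dr} {κ : ℝ}

/-! ### The direction with a linear tilt -/

/-- The direction with the costs `X - t (y - u n)` and the slope `u`. -/
def tilt (F : Fm) (d : Dr) (t u : ℝ) : Dr where
  h1 := d.h1 + -(t * u) / F.co.L * F.co.p - t * F.co.s
  h2 := d.h2 + -(t * u) / F.co.L * F.co.q + t * F.co.r
  v := u

theorem det_real (c : Co) : (c.p : ℝ) * c.r + c.q * c.s = 1 := by exact_mod_cast c.det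

theorem L_real (c : Co) : (0 : ℝ) < c.L := by
  have h1 := c.L_pos
  have h2 : 0 < c.L := by omega
  exact_mod_cast h2

theorem be_tilt (F : Fm) (d : Dr) (t u : ℝ) : be F.co (tilt F d t u) = be F.co d + t := by
  have h := det_real F.co
  unfold be tilt
  simp only
  linear_combination t * h

theorem al_tilt (F : Fm) (d : Dr) (t u : ℝ) : al F.co (tilt F d t u) = al F.co d - t * u := by
  have h := det_real F.co
  have hL := L_real F.co
  unfold al tilt
  simp only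
  have h1 : (F.co.L : ℝ) * (-(t * u) / F.co.L) = -(t * u) := by
    field_simp
  linear_combination (F.co.L : ℝ) * (-(t * u) / F.co.L) * h + h1

theorem X_tilt (F : Fm) (d : Dr) (t u : ℝ) (η : Env) (a : Pt) (n : ℕ) (y : ℤ) :
    X F (tilt F d t u) η a n y = X F d η a n y - t * (y - u * n) := by
  unfold X
  rw [be_tilt, al_tilt]
  ring

theorem cutH_tilt (h : Adm F κ d) (t u : ℝ) : CutH F (tilt F d t u) (κ * F.co.M - |t|) (C0 F.co F.b) := by
  refine ⟨fun η a n m y hn hm => ?_⟩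
  obtain ⟨r, r', hr⟩ := (cutH_of_adm h).cut η a n m y hn hm
  refine ⟨r, r', ?_⟩
  simp only [X_tilt]
  have h1 : -(|t| * |(r : ℝ) - r'|) ≤ t * ((r : ℝ) - r') := by
    rw [← abs_mul]
    exact neg_abs_le _
  push_cast
  nlinarith

theorem e_tilt (h : Adm F κ d) (t u : ℝ) {n : ℕ} (hn : 1 ≤ n) (y : ℤ) :
    e F (tilt F d t u) n y = e F d n y - t * (y - u * n) := by
  unfold e
  simp only [X_tilt]
  rw [integral_sub (X_integrable h 0 hn y) (integrable_const _), integral_const, probReal_univ, one_smul]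

/-! ### The slabs -/

variable {θ σ σ₀ W k1 C0' : ℝ} {n : ℕ}

/-- The means over the multiples of a slab, any factor `D > 0`. -/
theorem cone_pos (hC : CutH F d k1 C0') (hL : LwH F d) (hθ : 0 < θ) (hσ₀ : 0 < σ₀) (hk : σ₀ ≤ k1)
    (hW : 0 < W) (hn : 1 ≤ n) {D : ℝ} (hD : 0 < D)
    (H0 : ∀ z : ℝ, ∫⁻ η, EG F d θ σ₀ W z n η ∂(law F) ≤ ENNReal.ofReal D) (hC0 : 0 ≤ C0') {k : ℕ} (hk1 : 1 ≤ k) (y : ℤ) :
    -(k * (Real.log (D * (Real.exp (θ * C0') * (3 + 2 / (θ * (σ₀ * W))))) / θ)) ≤ e F d (k * n) y := by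
  obtain ⟨i, rfl⟩ : ∃ i, k = i + 1 := ⟨k - 1, by omega⟩
  obtain ⟨G, hG⟩ : ∃ G : ℝ, G = D * (Real.exp (θ * C0') * (3 + 2 / (θ * (σ₀ * W)))) := ⟨_, rfl⟩
  have hκ : 0 < σ₀ * W := mul_pos hσ₀ hW
  have hS1 : 1 ≤ Real.exp (θ * C0') * (3 + 2 / (θ * (σ₀ * W))) := by
    have h1 : 1 ≤ Real.exp (θ * C0') := Real.one_le_exp (by positivity)
    have h2 : 1 ≤ 3 + 2 / (θ * (σ₀ * W)) := by
      have : 0 < 2 / (θ * (σ₀ * W)) := by positivity
      linarith
    nlinarith
  have hDG : D ≤ G := by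
    rw [hG]
    nlinarith
  have hG0 : 0 < G := by linarith
  have hb := slabs_mean hC hL hθ le_rfl hσ₀ hk hW hn hD.le H0 i (-W)
  rw [sub_zero, ← hG] at hb
  rw [← hG]
  have hn' : 1 ≤ (i + 1) * n := Nat.one_le_iff_ne_zero.2 (by positivity)
  have h1 : ∀ η, ENNReal.ofReal (Real.exp (-(θ * X F d η 0 ((i + 1) * n) y))) ≤ EG F d θ 0 W (-W) ((i + 1) * n) η := by
    intro η
    have h2 := le_EG (F := F) (d := d) (θ := θ) (σ := 0) (W := W) (z := -W) (m := (i + 1) * n) η (x := 0)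
      (by push_cast; linarith) (by push_cast; linarith) y
    have e1 : θ * (0 * |(y : ℝ) - d.v * (((i + 1) * n : ℕ) : ℝ)| - X F d η (0, 0) ((i + 1) * n) y) =
        -(θ * X F d η 0 ((i + 1) * n) y) := by
      have : ((0, 0) : Pt) = 0 := rfl
      rw [this]
      ring
    rw [e1] at h2
    exact h2
  have hint := hL.int ((i + 1) * n) y hn'
  have hi2 : Integrable (fun η => -(θ * X F d η 0 ((i + 1) * n) y)) (law F) := (hint.const_mul θ).neg
  have hm2 : Measurable fun η => -(θ * X F d η 0 ((i + 1) * n) y) := ((hL.meas 0 ((i + 1) * n) y).const_mul θ).neg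
  have h3 := (exp_integral_le hi2 hm2).trans ((lintegral_mono h1).trans hb)
  have h4 : ∫ η, -(θ * X F d η 0 ((i + 1) * n) y) ∂(law F) = -(θ * e F d ((i + 1) * n) y) := by
    rw [integral_neg, integral_const_mul]
    rfl
  rw [h4, ENNReal.ofReal_le_ofReal_iff (by positivity)] at h3
  have h5 : D * G ^ i ≤ G ^ (i + 1) := by
    rw [pow_succ, mul_comm]
    exact mul_le_mul_of_nonneg_left hDG (by positivity)
  have h6 := Real.log_le_log (Real.exp_pos _) (h3.trans h5)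
  rw [Real.log_exp, Real.log_pow] at h6
  have h7 : -(e F d ((i + 1) * n) y) ≤ ((i + 1 : ℕ) : ℝ) * Real.log G / θ := by
    rw [le_div_iff₀ hθ]
    linarith
  rw [mul_div_assoc] at h7
  linarith

/-! ### The sum over the cells -/

/-- The tilted luck of a slab against the pairs of cells. -/
theorem EG_cells (F : Fm) (d : Dr) {sg th u s : ℝ} (hsg : sg = 1 ∨ sg = -1) (hth : 0 < th) (hs : 0 ≤ s) {w : ℕ} (hw : 1 ≤ w)
    (L' : ℕ) (z : ℝ) (η : Env) :
    EG F (tilt F d (sg * (s / (th * w))) u) th (s / (2 * (th * w))) w z L' η ≤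
      ∑' j : ℤ, ex (2 * s + s * (sg * j) + s / 2 * |(j : ℝ)|) *
        GG F d th 0 (⌊z⌋ + 1) L' (⌊z⌋ + 1 + ⌊u * L'⌋ + j * w) w η := by
  have hw0 : (0 : ℝ) < w := by exact_mod_cast hw
  have hwZ : (0 : ℤ) < w := by exact_mod_cast hw
  refine EG_le η fun x y x1 x2 => ?_
  obtain ⟨x0, hx0⟩ : ∃ x0 : ℤ, x0 = ⌊z⌋ + 1 := ⟨_, rfl⟩
  obtain ⟨f, hf⟩ : ∃ f : ℤ, f = ⌊u * L'⌋ := ⟨_, rfl⟩
  have hz1 : (⌊z⌋ : ℝ) ≤ z := Int.floor_le z
  have hz2 : z < ⌊z⌋ + 1 := Int.lt_floor_add_one z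
  have hx1 : x0 ≤ x := by
    have h1 : (⌊z⌋ : ℝ) < x := lt_of_le_of_lt hz1 x1
    have h2 : ⌊z⌋ < x := by exact_mod_cast h1
    omega
  have hx2 : x < x0 + w := by
    have h1 : (x : ℝ) < ((x0 + w : ℤ) : ℝ) := by
      rw [hx0]
      push_cast
      linarith
    exact_mod_cast h1
  have hf1 : (f : ℝ) ≤ u * L' := by rw [hf]; exact Int.floor_le _
  have hf2 : u * L' < f + 1 := by rw [hf]; exact Int.lt_floor_add_one _
  -- the cell of the end
  obtain ⟨j, hj⟩ : ∃ j : ℤ, j = (x + y - x0 - f) / w := ⟨_, rfl⟩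
  have hd := Int.mul_ediv_add_emod (x + y - x0 - f) w
  have hr0 := Int.emod_nonneg (x + y - x0 - f) hwZ.ne'
  have hr1 := Int.emod_lt_of_pos (x + y - x0 - f) hwZ
  rw [← hj] at hd
  have hk1 : x0 + f + j * w ≤ x + y := by linarith
  have hk2 : x + y < x0 + f + j * w + w := by linarith
  refine le_trans ?_ (ENNReal.le_tsum j)
  rw [← hx0, ← hf]
  have hG := le_GG (F := F) (d := d) th (s := 0) (x0 := x0) L' (y0 := x0 + f + j * w) (w := (w : ℤ)) (x := x) (k := x + y)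
    ⟨hx1, hx2.le⟩ ⟨hk1, hk2.le⟩ η
  refine le_trans ?_ (mul_le_mul' le_rfl hG)
  rw [← ex_add]
  refine ex_mono ?_
  have hY : Y F d η 0 x L' (x + y) = X F d η (0, x) L' y := by
    unfold Y
    rw [add_sub_cancel_left]
  rw [hY, X_tilt]
  show th * (s / (2 * (th * w)) * |(y : ℝ) - u * L'| - (X F d η (0, x) L' y - sg * (s / (th * w)) * (y - u * L'))) ≤ _
  obtain ⟨ρ, hρ⟩ : ∃ ρ : ℝ, ρ = ((y : ℝ) - u * L') / w := ⟨_, rfl⟩
  have hyρ : (y : ℝ) - u * L' = ρ * w := by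
    rw [hρ]
    field_simp
  have hx1' : (x0 : ℝ) ≤ x := by exact_mod_cast hx1
  have hx2' : (x : ℝ) + 1 ≤ x0 + w := by
    have : x + 1 ≤ x0 + w := by omega
    exact_mod_cast this
  have hk1' : (x0 : ℝ) + f + j * w ≤ x + y := by exact_mod_cast hk1
  have hk2' : (x : ℝ) + y + 1 ≤ x0 + f + j * w + w := by
    have : x + y + 1 ≤ x0 + f + j * w + w := by omega
    exact_mod_cast this
  have hρj : |ρ - j| ≤ 1 := by
    have h1 : |(ρ - j) * w| ≤ 1 * w := by
      rw [abs_le]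
      have e1 : (ρ - j) * w = y - u * L' - j * w := by rw [sub_mul, hyρ]
      rw [e1]
      constructor <;> linarith
    rw [abs_mul, abs_of_pos hw0] at h1
    exact le_of_mul_le_mul_right h1 hw0
  rw [hyρ, abs_mul, abs_of_pos hw0]
  have e2 : th * (s / (2 * (th * w)) * (|ρ| * w) - (X F d η (0, x) L' y - sg * (s / (th * w)) * (ρ * w))) =
      s / 2 * |ρ| + s * (sg * ρ) - th * X F d η (0, x) L' y := by
    field_simp
    ring
  rw [e2]
  have h3 : |ρ| ≤ |(j : ℝ)| + 1 := by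
    have := abs_sub_abs_le_abs_sub ρ (j : ℝ)
    linarith
  have h4 : sg * ρ ≤ sg * j + 1 := by
    have h5 := abs_le.1 hρj
    rcases hsg with h | h <;> rw [h] <;> linarith [h5.1, h5.2]
  have h5 : s / 2 * |ρ| ≤ s / 2 * (|(j : ℝ)| + 1) := mul_le_mul_of_nonneg_left h3 (by positivity)
  have h6 : s * (sg * ρ) ≤ s * (sg * j + 1) := mul_le_mul_of_nonneg_left h4 hs
  linarith

/-! ### The moments of the tilted slab -/

/-- The exponential moment of the tilted luck of a slab is small, if all displacements near the edge are expensive. -/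
theorem EG_small (hd : Adm F κ d) (htc : Touch F d) {sg th u ks De C1 s K C5 R X0 : ℝ} {w S L' : ℕ} {y0 : ℤ}
    (H : EdH F d sg th u ks De C1 w S L' y0) (hC1 : 0 ≤ C1) (hks : 0 ≤ ks) (hs : 0 < s) (hsDe : 4 * s ≤ De) (hX : 0 ≤ X0)
    (hC5 : C5 = 4 * X0 / s) (hR : R = C5 + ks + 2) (hK : 2 * X0 + 4 * s * R ≤ K)
    (hcon : ∀ z : ℤ, -((C5 + ks + 1) * w) ≤ sg * (z - u * ((S + L' + S : ℕ) : ℝ)) → K < th * e F d (S + L' + S) z) (z : ℝ) :
    ∫⁻ η, EG F (tilt F d (sg * (s / (th * w))) u) th (s / (2 * (th * w))) w z L' η ∂(law F) ≤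
      ENNReal.ofReal (Real.exp (2 * s + 2 * s * (ks + 1) - X0) * (2 + 8 / s) * (Real.exp 2 * C1)) := by
  have hw0 : (0 : ℝ) < w := by exact_mod_cast H.w1
  have hw1 : (1 : ℝ) ≤ w := by exact_mod_cast H.w1
  have hC50 : 0 ≤ C5 := by rw [hC5]; positivity
  have hsC5 : s / 4 * C5 = X0 := by
    rw [hC5]
    field_simp
  have hR0 : 0 ≤ R := by rw [hR]; linarith
  obtain ⟨x0, hx0⟩ : ∃ x0 : ℤ, x0 = ⌊z⌋ + 1 := ⟨_, rfl⟩
  obtain ⟨f, hf⟩ : ∃ f : ℤ, f = ⌊u * L'⌋ := ⟨_, rfl⟩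
  have hf1 : (f : ℝ) ≤ u * L' := by rw [hf]; exact Int.floor_le _
  have hf2 : u * L' < f + 1 := by rw [hf]; exact Int.lt_floor_add_one _
  have hN : 1 ≤ S + L' + S := by have := H.S1; omega
  refine (lintegral_mono fun η => EG_cells F d H.sg1 H.th0 hs.le H.w1 L' z η).trans ?_
  rw [← hx0, ← hf]
  rw [lintegral_tsum fun j => ((GG_meas th 0 x0 L' _ _).const_mul _).aemeasurable]
  -- one pair of cells
  have hterm : ∀ j : ℤ, ∫⁻ η, ex (2 * s + s * (sg * j) + s / 2 * |(j : ℝ)|) *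
      GG F d th 0 x0 L' (x0 + f + j * w) w η ∂(law F) ≤
      ex (2 * s + 2 * s * (ks + 1) - X0 - s / 4 * |((j - 0 : ℤ) : ℝ)|) * ENNReal.ofReal (Real.exp 2 * C1) := by
    intro j
    rw [lintegral_const_mul _ (GG_meas th 0 x0 L' _ _), sub_zero]
    obtain ⟨g, hg⟩ : ∃ g : ℝ≥0∞, g = ∫⁻ η, GG F d th 0 x0 L' (x0 + f + j * w) w η ∂(law F) := ⟨_, rfl⟩
    rw [← hg]
    obtain ⟨zc, hzc⟩ : ∃ zc : ℤ, zc = x0 + f + j * w - x0 + 2 * y0 + w := ⟨_, rfl⟩
    -- the position of the point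
    have hnear := H.near (x0 + f + j * w - x0)
    rw [← hzc] at hnear
    have e1 : ((x0 + f + j * w - x0 : ℤ) : ℝ) = f + j * w := by push_cast; ring
    rw [e1] at hnear
    have hpos : (sg * j - ks - 1) * w ≤ sg * ((zc : ℝ) - u * ((S + L' + S : ℕ) : ℝ)) := by
      have h1 := abs_le.1 hnear
      rcases H.sg1 with h | h <;> rw [h] <;> nlinarith [h1.1, h1.2]
    have hjabs : |(j : ℝ)| = |sg * j| := by
      rcases H.sg1 with h | h <;> rw [h] <;> simp
    obtain ⟨j', hj'⟩ : ∃ j' : ℝ, j' = sg * j := ⟨_, rfl⟩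
    rw [← hj'] at hpos hjabs
    rw [hjabs, ← hj']
    -- reduction to an exponent
    have key : ∀ l : ℝ, g ≤ ex l * ENNReal.ofReal (Real.exp 2 * C1) →
        2 * s + s * j' + s / 2 * |j'| + l ≤ 2 * s + 2 * s * (ks + 1) - X0 - s / 4 * |j'| →
        ex (2 * s + s * j' + s / 2 * |j'|) * g ≤
          ex (2 * s + 2 * s * (ks + 1) - X0 - s / 4 * |j'|) * ENNReal.ofReal (Real.exp 2 * C1) := by
      intro l h1 h2
      refine (mul_le_mul' le_rfl h1).trans ?_
      rw [← mul_assoc, ← ex_add]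
      exact mul_le_mul' (ex_mono h2) le_rfl
    have hof : ∀ l : ℝ, ex 2 * ENNReal.ofReal (C1 * Real.exp l) = ex l * ENNReal.ofReal (Real.exp 2 * C1) := by
      intro l
      unfold ex
      rw [← ENNReal.ofReal_mul (Real.exp_pos _).le, ← ENNReal.ofReal_mul (Real.exp_pos _).le]
      congr 1
      ring
    have hany := H.any hd 0 x0 (x0 + f + j * w)
    rw [← hzc, ← hg] at hany
    have he0 : 0 ≤ e F d (S + L' + S) zc := by
      have h1 := e_lower F d hN zc
      have h2 := htc.nn ((zc : ℝ) / ((S + L' + S : ℕ) : ℝ) - d.v)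
      have h3 : (0 : ℝ) ≤ ((S + L' + S : ℕ) : ℝ) := Nat.cast_nonneg _
      have h4 := mul_nonneg h3 h2
      linarith
    rcases le_or_gt j' (-C5) with hA | hA
    · -- inside
      refine key 0 ?_ ?_
      · rw [← hof 0]
        refine hany.trans (mul_le_mul' le_rfl (ENNReal.ofReal_le_ofReal ?_))
        refine mul_le_mul_of_nonneg_left (Real.exp_le_exp.2 ?_) hC1
        have := mul_nonneg H.th0.le he0
        linarith
      · rw [abs_of_nonpos (by linarith)]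
        have h1 : s / 4 * j' ≤ s / 4 * (-C5) := mul_le_mul_of_nonneg_left hA (by positivity)
        have h2 : 0 ≤ 2 * s * (ks + 1) := by positivity
        linarith
    · rcases lt_or_ge j' R with hB | hB
      · -- near the edge
        refine key (-(K / 2)) ?_ ?_
        · rw [← hof]
          refine hany.trans (mul_le_mul' le_rfl (ENNReal.ofReal_le_ofReal ?_))
          refine mul_le_mul_of_nonneg_left (Real.exp_le_exp.2 ?_) hC1
          have h1 := hcon zc (le_trans ?_ hpos)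
          · linarith
          · have h2 : -(C5 + ks + 1) ≤ j' - ks - 1 := by linarith
            have h3 := mul_le_mul_of_nonneg_right h2 hw0.le
            linarith
        · have h1 : |j'| ≤ R := abs_le.2 ⟨by rw [hR]; linarith, hB.le⟩
          have h2 : s * j' ≤ s * R := mul_le_mul_of_nonneg_left hB.le hs.le
          have h3 : s * |j'| ≤ s * R := mul_le_mul_of_nonneg_left h1 hs.le
          have h4 : 0 ≤ 2 * s * (ks + 1) := by positivity
          have h5 : 0 ≤ s * |j'| := by positivity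
          linarith
      · -- outside
        have hρ : 1 ≤ j' - ks - 1 := by rw [hR] at hB; linarith
        have hfar := H.far hd hC1 0 x0 (x0 + f + j * w) hρ (by rw [← hzc]; exact hpos)
        rw [← hg] at hfar
        refine key (-(De * (j' - ks - 1) / 2)) ?_ ?_
        · rw [← hof]
          exact hfar
        · have hj0 : 0 ≤ j' := hR0.trans hB
          rw [abs_of_nonneg hj0]
          have h1 : 4 * s * (j' - ks - 1) ≤ De * (j' - ks - 1) := mul_le_mul_of_nonneg_right hsDe (by linarith)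
          have h2 : s / 4 * C5 ≤ s / 4 * j' := mul_le_mul_of_nonneg_left (by rw [hR] at hB; linarith) (by positivity)
          nlinarith
  refine (ENNReal.tsum_le_tsum hterm).trans ?_
  rw [ENNReal.tsum_mul_right]
  have hs4 : (0 : ℝ) < s / 4 := by positivity
  refine (mul_le_mul' (tsum_ex_le hs4 _ 0) le_rfl).trans (le_of_eq ?_)
  unfold ex
  rw [← ENNReal.ofReal_mul (Real.exp_pos _).le, ← ENNReal.ofReal_mul (by positivity)]
  congr 3
  field_simp
  ring

theorem C0_nonneg (F : Fm) : 0 ≤ C0 F.co F.b := by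
  have hb : 0 ≤ F.b := F.a0.le.trans F.ab
  have h1 : (0 : ℝ) ≤ F.co.M := by
    have : (0 : ℤ) ≤ F.co.M := by have := F.co.M_pos; omega
    exact_mod_cast this
  have h2 : (0 : ℝ) ≤ F.co.R := by
    have : (0 : ℤ) ≤ F.co.R := by have := F.co.R_pos; omega
    exact_mod_cast this
  unfold C0
  positivity

/-- The means of the multiples of the slab along a line, in terms of `J`. -/
theorem J_of_means (F : Fm) (d : Dr) {u B c : ℝ} {n : ℕ} (hn : 1 ≤ n)
    (h : ∀ k : ℕ, 1 ≤ k → k * B - c ≤ e F d (k * n) ⌊u * ((k * n : ℕ) : ℝ)⌋) : B ≤ n * J F d (u - d.v) := by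
  obtain ⟨C, hC⟩ : ∃ C, C = CT F + |be F.co d| := ⟨_, rfl⟩
  have hC0 : 0 ≤ C := by
    rw [hC]
    have := CT_pos F
    positivity
  have hn0 : (0 : ℝ) < n := by exact_mod_cast hn
  refine le_of_forall_pos_le_add fun δ hδ => ?_
  obtain ⟨N, hN, hup⟩ := e_upper F (|u| + 1) (show 0 < δ / (2 * n) by positivity)
  obtain ⟨k, hk1⟩ := exists_nat_ge (max (N : ℝ) (2 * (C + |c|) / δ))
  have hkN : N ≤ k := by exact_mod_cast (le_max_left _ _).trans hk1
  have hk2 : 2 * (C + |c|) / δ ≤ k := (le_max_right _ _).trans hk1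
  have hk0 : 1 ≤ k := hN.trans hkN
  have hk0' : (0 : ℝ) < k := by exact_mod_cast hk0
  have hkn : (0 : ℝ) < ((k * n : ℕ) : ℝ) := by push_cast; positivity
  have hkn1 : (1 : ℝ) ≤ ((k * n : ℕ) : ℝ) := by
    have : 1 ≤ k * n := Nat.mul_pos hk0 hn
    exact_mod_cast this
  have h0 := h k hk0
  obtain ⟨y, hy⟩ : ∃ y : ℤ, y = ⌊u * ((k * n : ℕ) : ℝ)⌋ := ⟨_, rfl⟩
  rw [← hy] at h0
  have y1 : (y : ℝ) ≤ u * ((k * n : ℕ) : ℝ) := by rw [hy]; exact Int.floor_le _
  have y2 : u * ((k * n : ℕ) : ℝ) < y + 1 := by rw [hy]; exact Int.lt_floor_add_one _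
  have y3 : |(y : ℝ)| ≤ (|u| + 1) * ((k * n : ℕ) : ℝ) := by
    rw [abs_le]
    have g1 := neg_abs_le u
    have g2 := le_abs_self u
    constructor <;> nlinarith
  have h1 := hup d (k * n) (hkN.trans (Nat.le_mul_of_pos_right k hn)) y y3
  obtain ⟨x, hx⟩ : ∃ x : ℝ, x = (y : ℝ) / ((k * n : ℕ) : ℝ) - d.v := ⟨_, rfl⟩
  rw [← hx] at h1
  have h3 := J_lip32 F d x (u - d.v)
  rw [← hC] at h3
  have hux : |x - (u - d.v)| * ((k * n : ℕ) : ℝ) ≤ 1 := by
    have e : (x - (u - d.v)) * ((k * n : ℕ) : ℝ) = y - u * ((k * n : ℕ) : ℝ) := by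
      rw [hx]
      field_simp
      ring
    rw [← abs_of_pos hkn, ← abs_mul, e, abs_le]
    constructor <;> linarith
  have c1 : ((k * n : ℕ) : ℝ) = k * n := by push_cast; ring
  rw [c1] at h1 hux
  have q4 : k * n * J F d x ≤ k * n * J F d (u - d.v) + C * (|x - (u - d.v)| * (k * n)) := by
    have := mul_le_mul_of_nonneg_left h3 (mul_pos hk0' hn0).le
    nlinarith
  have q5 : C * (|x - (u - d.v)| * (k * n)) ≤ C * 1 := mul_le_mul_of_nonneg_left hux hC0
  have q6 : k * n * (δ / (2 * n)) = k * (δ / 2) := by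
    field_simp
  have q7 : C + |c| ≤ k * (δ / 2) := by
    rw [div_le_iff₀ hδ] at hk2
    linarith
  have q9 := le_abs_self c
  have q8 : k * B ≤ k * (n * J F d (u - d.v) + δ) := by nlinarith
  exact le_of_mul_le_mul_left q8 hk0'

/-- **THE INNER EDGE.** -/
theorem in0 {C1 De ks A ka1 : ℝ} (hC1 : 0 ≤ C1) (hDe : 0 < De) (hks : 0 ≤ ks) (hka : 0 < ka1) :
    ∃ C K : ℝ, 0 ≤ C ∧ 0 ≤ K ∧ ∀ (F : Fm) (κ : ℝ) (d : Dr) (sg th u : ℝ) (w S L' : ℕ) (y0 : ℤ), Adm F κ d → Touch F d →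
      EdH F d sg th u ks De C1 w S L' y0 → th * C0 F.co F.b ≤ 1 → ka1 ≤ th * (κ * F.co.M) * w →
      th * (L' * J F d (u - d.v)) ≤ A →
      ∃ z : ℤ, -(C * w) ≤ sg * (z - u * ((S + L' + S : ℕ) : ℝ)) ∧ th * e F d (S + L' + S) z ≤ K := by
  obtain ⟨s, hs⟩ : ∃ s : ℝ, s = min (De / 4) (ka1 / 2) := ⟨_, rfl⟩
  have hs0 : 0 < s := by rw [hs]; exact lt_min (by positivity) (by positivity)
  have hs1 : 4 * s ≤ De := by
    have := min_le_left (De / 4) (ka1 / 2)
    rw [hs]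
    linarith
  have hs2 : 2 * s ≤ ka1 := by
    have := min_le_right (De / 4) (ka1 / 2)
    rw [hs]
    linarith
  obtain ⟨B, hB⟩ : ∃ B : ℝ, B = 2 * s + 2 * s * (ks + 1) := ⟨_, rfl⟩
  obtain ⟨G, hG⟩ : ∃ G : ℝ, G = (2 + 8 / s) * (Real.exp 2 * (C1 + 1)) * (Real.exp 1 * (3 + 4 / s)) := ⟨_, rfl⟩
  have hG0 : 0 < G := by rw [hG]; positivity
  obtain ⟨X0, hX0⟩ : ∃ X0 : ℝ, X0 = max 0 (B + Real.log G + A + 1) := ⟨_, rfl⟩
  have hX00 : 0 ≤ X0 := by rw [hX0]; exact le_max_left _ _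
  have hX01 : B + Real.log G + A + 1 ≤ X0 := by rw [hX0]; exact le_max_right _ _
  obtain ⟨C5, hC5⟩ : ∃ C5 : ℝ, C5 = 4 * X0 / s := ⟨_, rfl⟩
  have hC50 : 0 ≤ C5 := by rw [hC5]; positivity
  obtain ⟨R, hR⟩ : ∃ R : ℝ, R = C5 + ks + 2 := ⟨_, rfl⟩
  have hR0 : 0 ≤ R := by rw [hR]; linarith
  refine ⟨C5 + ks + 1, 2 * X0 + 4 * s * R, by linarith, by positivity, ?_⟩
  intro F κ d sg th u w S L' y0 hd htc H hth0 hkaw hJ
  by_contra hcon
  push Not at hcon
  have hth := H.th0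
  have hw0 : (0 : ℝ) < w := by exact_mod_cast H.w1
  have hthw : 0 < th * w := mul_pos hth hw0
  obtain ⟨D, hD⟩ : ∃ D : ℝ, D = Real.exp (B - X0) * (2 + 8 / s) * (Real.exp 2 * (C1 + 1)) := ⟨_, rfl⟩
  have hD0 : 0 < D := by rw [hD]; positivity
  have hEG : ∀ z : ℝ, ∫⁻ η, EG F (tilt F d (sg * (s / (th * w))) u) th (s / (2 * (th * w))) w z L' η ∂(law F) ≤
      ENNReal.ofReal D := by
    intro z
    refine (EG_small hd htc H hC1 hks hs0 hs1 hX00 hC5 hR le_rfl hcon z).trans (ENNReal.ofReal_le_ofReal ?_)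
    rw [hD, hB]
    exact mul_le_mul_of_nonneg_left (mul_le_mul_of_nonneg_left (by linarith) (Real.exp_pos 2).le) (by positivity)
  obtain ⟨lam, hlam⟩ : ∃ lam : ℝ, lam = s / (th * w) := ⟨_, rfl⟩
  have hlam0 : 0 < lam := by rw [hlam]; positivity
  have hs0' : s / (2 * (th * w)) = lam / 2 := by
    rw [hlam]
    field_simp
  have hk1 : 2 * lam ≤ κ * F.co.M := by
    rw [hlam, mul_div_assoc', div_le_iff₀ hthw]
    linarith
  rw [← hlam, hs0'] at hEG
  have habs : |sg * lam| = lam := by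
    rcases H.sg1 with h | h <;> rw [h] <;> simp [abs_of_pos hlam0]
  have hC := cutH_tilt hd (sg * lam) u
  rw [habs] at hC
  have hN : 1 ≤ S + L' + S := by have := H.S1; omega
  -- the factor of one slab
  obtain ⟨Lg, hLg⟩ : ∃ Lg : ℝ, Lg = Real.log (D * (Real.exp (th * C0 F.co F.b) * (3 + 2 / (th * (lam / 2 * w))))) := ⟨_, rfl⟩
  have hLg1 : Lg ≤ -(A + 1) := by
    have e1 : th * (lam / 2 * w) = s / 2 := by
      rw [hlam]
      field_simp
    have e2 : (2 : ℝ) / (s / 2) = 4 / s := by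
      field_simp
      norm_num
    rw [hLg, e1, e2]
    have h1 : Real.exp (th * C0 F.co F.b) ≤ Real.exp 1 := Real.exp_le_exp.2 hth0
    have h2 : D * (Real.exp (th * C0 F.co F.b) * (3 + 4 / s)) ≤ Real.exp (B - X0) * G := by
      rw [hD, hG]
      have h3 : Real.exp (th * C0 F.co F.b) * (3 + 4 / s) ≤ Real.exp 1 * (3 + 4 / s) :=
        mul_le_mul_of_nonneg_right h1 (by positivity)
      refine (mul_le_mul_of_nonneg_left h3 (by positivity)).trans (le_of_eq ?_)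
      ring
    refine (Real.log_le_log (by positivity) h2).trans ?_
    rw [Real.log_mul (Real.exp_pos _).ne' hG0.ne', Real.log_exp]
    linarith
  have hmean : ∀ k : ℕ, 1 ≤ k → k * ((A + 1) / th) - lam ≤ e F d (k * L') ⌊u * ((k * L' : ℕ) : ℝ)⌋ := by
    intro k hk
    have hkn : 1 ≤ k * L' := Nat.mul_pos hk H.L1
    have h1 := cone_pos hC (lwH F _) hth (show 0 < lam / 2 by positivity) (by linarith) hw0 H.L1 hD0 hEG (C0_nonneg F) hk
      ⌊u * ((k * L' : ℕ) : ℝ)⌋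
    rw [← hLg, e_tilt hd _ _ hkn] at h1
    have h2 : (A + 1) / th ≤ -(Lg / th) := by
      rw [← neg_div]
      exact div_le_div_of_nonneg_right (by linarith) hth.le
    have h3 : (k : ℝ) * ((A + 1) / th) ≤ k * (-(Lg / th)) := mul_le_mul_of_nonneg_left h2 (Nat.cast_nonneg k)
    have y1 : ((⌊u * ((k * L' : ℕ) : ℝ)⌋ : ℤ) : ℝ) ≤ u * ((k * L' : ℕ) : ℝ) := Int.floor_le _
    have y2 : u * ((k * L' : ℕ) : ℝ) < ((⌊u * ((k * L' : ℕ) : ℝ)⌋ : ℤ) : ℝ) + 1 := Int.lt_floor_add_one _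
    have h4 : |sg * lam * (((⌊u * ((k * L' : ℕ) : ℝ)⌋ : ℤ) : ℝ) - u * ((k * L' : ℕ) : ℝ))| ≤ lam * 1 := by
      rw [abs_mul, habs]
      refine mul_le_mul_of_nonneg_left ?_ hlam0.le
      rw [abs_le]
      constructor <;> linarith
    have h5 := neg_abs_le (sg * lam * (((⌊u * ((k * L' : ℕ) : ℝ)⌋ : ℤ) : ℝ) - u * ((k * L' : ℕ) : ℝ)))
    have h6 : (k : ℝ) * (-(Lg / th)) = -(k * (Lg / th)) := by ring
    linarith
  have hfin := J_of_means F d H.L1 hmean
  rw [div_le_iff₀ hth] at hfin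
  linarith

/-- All displacements between the cheapest one and the edge. -/
theorem in_between (hd : Adm F κ d) {sg u c th K : ℝ} (hsg : sg = 1 ∨ sg = -1) (hth : 0 < th) {N : ℕ} (hN : 1 ≤ N) {z z' : ℤ}
    (hz : c ≤ sg * (z - u * N)) (hzK : th * e F d N z ≤ K) (hz1 : 0 ≤ sg * ((z' : ℝ) - xs F d N))
    (hz2 : sg * (z' - u * N) ≤ c) : th * e F d N z' ≤ K := by
  obtain ⟨x, hx⟩ : ∃ x : ℤ, x = xs F d N := ⟨_, rfl⟩
  have hmin : e F d N x ≤ e F d N z := by rw [hx]; exact xs_le hd hN z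
  rw [← hx] at hz1
  refine le_trans (mul_le_mul_of_nonneg_left ?_ hth.le) hzK
  rcases hsg with h | h
  · rw [h] at hz hz1 hz2
    have a1 : x ≤ z' := by
      have : (x : ℝ) ≤ z' := by linarith
      exact_mod_cast this
    have a2 : z' ≤ z := by
      have : (z' : ℝ) ≤ z := by linarith
      exact_mod_cast this
    have a1' : (x : ℝ) ≤ z' := by exact_mod_cast a1
    have a2' : (z' : ℝ) ≤ z := by exact_mod_cast a2
    rcases eq_or_lt_of_le (a1'.trans a2') with h0 | h0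
    · have : z' = z := by
        have : (z' : ℝ) = z := by linarith
        exact_mod_cast this
      rw [this]
    · have hch := e_chord F d hN a1 a2
      have h1 : ((z : ℝ) - z') * e F d N x ≤ ((z : ℝ) - z') * e F d N z := mul_le_mul_of_nonneg_left hmin (by linarith)
      have h2 : ((z : ℝ) - x) * e F d N z' ≤ ((z : ℝ) - x) * e F d N z := by nlinarith
      exact le_of_mul_le_mul_left h2 (by linarith)
  · rw [h] at hz hz1 hz2
    have a1 : z' ≤ x := by
      have : (z' : ℝ) ≤ x := by linarith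
      exact_mod_cast this
    have a2 : z ≤ z' := by
      have : (z : ℝ) ≤ z' := by linarith
      exact_mod_cast this
    have a1' : (z' : ℝ) ≤ x := by exact_mod_cast a1
    have a2' : (z : ℝ) ≤ z' := by exact_mod_cast a2
    rcases eq_or_lt_of_le (a2'.trans a1') with h0 | h0
    · have : z' = z := by
        have : (z' : ℝ) = z := by linarith
        exact_mod_cast this
      rw [this]
    · have hch := e_chord F d hN a2 a1
      have h1 : ((z' : ℝ) - z) * e F d N x ≤ ((z' : ℝ) - z) * e F d N z := mul_le_mul_of_nonneg_left hmin (by linarith)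
      have h2 : ((x : ℝ) - z) * e F d N z' ≤ ((x : ℝ) - z) * e F d N z := by nlinarith
      exact le_of_mul_le_mul_left h2 (by linarith)

end

end Pool.Agent.W_1b8d5d_p11
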