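import Pool.Agent.W_1b8d5d_p.EdB7
import Pool.Agent.W_1b8d5d_p.EdIn

/-!
MP_1b8d5d_pr, Track P, proofs row 642: (IN) AT THE SCALE `n`. The displacements between the two inner edges are cheap. (helper11)
-/

namespace Pool.Agent.W_1b8d5d_p11

open MeasureTheory Set
open Pool.Agent.W_1b8d5d_h85 (V nm dir Edge Env grid ke wedges cost Bd sh rf)
open Pool.Agent.W_1b8d5d_p Pool.Agent.W_1b8d5d_p66 Pool.Agent.W_1b8d5d_p7

noncomputable section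

variable {F : Fm} {κ K : ℝ} {Ds : Set Dr}

/-- (IN), one side. -/
theorem in_data (hD : Dirs F κ K Ds) {A A0 A1 : ℝ} (hA : 0 < A) (hA0 : A ≤ A0) (hA1 : A0 < A1) (H : ℕ)
    {c2 Cf CS : ℝ} (hc2 : 0 < c2) (hCf : 0 ≤ Cf) (hCS : 0 ≤ CS) {c0 C' : ℝ}
    (hc0 : 0 < c0) (hch : ChI F Ds A c0 C') {t0 C1 : ℝ} (ht0 : 0 < t0) (hC1 : 0 ≤ C1) {n0 : ℕ} (htl : TlU F Ds H t0 C1 n0) :
    ∃ Ci c1 : ℝ, 0 ≤ Ci ∧ 0 ≤ c1 ∧ ∀ d ∈ Ds, ∀ n : ℕ, n0 ≤ n → 1 ≤ n →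
      ∀ (sg : ℝ) (w S L' : ℕ), sg = 1 ∨ sg = -1 → EdG F d A A0 A1 c0 c2 Cf CS H sg n w S L' →
      ∀ z : ℤ, 0 ≤ sg * ((z : ℝ) - xs F d (S + L' + S)) →
        sg * (z - (d.v + sg * vs A1 F d sg n) * ((S + L' + S : ℕ) : ℝ)) ≤ -(Ci * w) →
        e F d (S + L' + S) z ≤ c1 * EE F d n := by
  obtain ⟨De, ks, cth, ka1, hDe, hks, hcth, hka, hed⟩ := edge_data hD hA hA0 hA1 H hc2 hCf hCS hc0 hch ht0 htl
  obtain ⟨C, K1, hC, hK1, hin⟩ := in0 (A := H * (cth * A1)) hC1 hDe hks hka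
  refine ⟨C, K1 / cth, hC, by positivity, ?_⟩
  intro d hd n hn0 hn sg w S L' hsg G z hz1 hz2
  have hE := EE_pos F d n
  obtain ⟨y0, hH, h1, h2, h3⟩ := hed d hd n hn0 hn sg w S L' hsg G
  obtain ⟨z1, hz3, hz4⟩ := hin F κ d sg (cth / EE F d n) (d.v + sg * vs A1 F d sg n) w S L' y0 (hD.adm d hd) (hD.touch d hd)
    hH h2 h1 h3
  have hN : 1 ≤ S + L' + S := by have := G.S1; omega
  have h4 := in_between (hD.adm d hd) hsg hH.th0 hN hz3 hz4 hz1 hz2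
  rw [div_mul_eq_mul_div, div_le_iff₀ hE] at h4
  rw [div_mul_eq_mul_div, le_div_iff₀ hcth]
  linarith

/-- **(IN)**: all displacements between the two inner edges, at the duration of the scale. -/
theorem in_both (hD : Dirs F κ K Ds) {A A0 A1 : ℝ} (hA : 0 < A) (hA0 : A ≤ A0) (hA1 : A0 < A1)
    {c2 Cf CS : ℝ} (hc2 : 0 < c2) (hCf : 0 ≤ Cf) (hCS : 0 ≤ CS) {c0 C' : ℝ}
    (hc0 : 0 < c0) (hch : ChI F Ds A c0 C') {t0 C1 : ℝ} (ht0 : 0 < t0) (hC1 : 0 ≤ C1) {n0 : ℕ} (htl : TlU F Ds 1 t0 C1 n0) :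
    ∃ Ci c1 : ℝ, 0 ≤ Ci ∧ 0 ≤ c1 ∧ ∀ d ∈ Ds, ∀ n : ℕ, n0 ≤ n → ∀ w S : ℕ, 1 ≤ w → 1 ≤ S → 2 * S + 1 ≤ n →
      c2 * (n * (vr A1 F d n - vr A0 F d n)) ≤ w → c2 * (n * (vl A1 F d n - vl A0 F d n)) ≤ w →
      2 * ((w : ℝ) + 2) ≤ c0 * (S * vA A F d n) → S * vA A F d n ≤ CS * w → vA A F d S ≤ Cf * vA A F d n →
      ∀ y : ℤ, -(vl A1 F d n * n) + Ci * w ≤ y - d.v * n → y - d.v * n ≤ vr A1 F d n * n - Ci * w →
        e F d n y ≤ c1 * EE F d n := by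
  obtain ⟨Ci, c1, hCi, hc1, h⟩ := in_data hD hA hA0 hA1 1 hc2 hCf hCS hc0 hch ht0 hC1 htl
  refine ⟨Ci, c1, hCi, hc1, ?_⟩
  intro d hd n hn0 w S hw hS hSn hr hl hroom hroom' hflat y hy1 hy2
  have hn : 1 ≤ n := by omega
  have hG : ∀ sg : ℝ, sg = 1 ∨ sg = -1 → EdG F d A A0 A1 c0 c2 Cf CS 1 sg n w S (n - 2 * S) := by
    intro sg hsg
    refine ⟨hw, hS, by omega, ?_, hroom, hroom', by omega, by omega, by omega, hflat⟩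
    rcases hsg with h1 | h1
    · rw [h1, vs_one, vs_one]
      exact hr
    · rw [h1, vs_neg, vs_neg]
      exact hl
  have hN : S + (n - 2 * S) + S = n := by omega
  rcases le_total ((xs F d n : ℤ) : ℝ) (y : ℝ) with hxy | hxy
  · have h1 := h d hd n hn0 hn 1 w S (n - 2 * S) (Or.inl rfl) (hG 1 (Or.inl rfl)) y
    rw [hN] at h1
    refine h1 (by linarith) ?_
    rw [vs_one]
    linarith
  · have h1 := h d hd n hn0 hn (-1) w S (n - 2 * S) (Or.inr rfl) (hG (-1) (Or.inr rfl)) y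
    rw [hN] at h1
    refine h1 (by linarith) ?_
    rw [vs_neg]
    linarith

end

end Pool.Agent.W_1b8d5d_p11
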