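import Mathlib

/-!
MP_1b8d5d_pr, Track P2, geometry: for almost every linear form, the point of a compact set where it is maximal has a quadratic
contact.
-/

set_option autoImplicit false

namespace Pool.Agent.W_1b8d5d_p

open MeasureTheory Set Filter Topology

/-- The form `(1, t)`: quadratic contact at its maximizers. -/
def TouchQ35 (K : Set (Fin 2 → ℝ)) (t : ℝ) : Prop :=
  ∀ x ∈ K, (∀ y ∈ K, y 0 + t * y 1 ≤ x 0 + t * x 1) →
    ∃ c : ℝ, 0 < c ∧ ∀ y ∈ K, c * ‖y - x‖ ^ 2 ≤ (x 0 + t * x 1) - (y 0 + t * y 1)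

theorem ae_touch_line35 {K : Set (Fin 2 → ℝ)} (hK : IsCompact K) : ∀ᵐ t : ℝ, TouchQ35 K t := by
  rcases K.eq_empty_or_nonempty with hne | hne
  · refine Filter.Eventually.of_forall fun t x hx => ?_
    rw [hne] at hx
    exact absurd hx (notMem_empty x)
  have hex : ∀ t : ℝ, ∃ x ∈ K, ∀ y ∈ K, y 0 + t * y 1 ≤ x 0 + t * x 1 := by
    intro t
    obtain ⟨x, hx, h⟩ := hK.exists_isMaxOn hne (f := fun y : Fin 2 → ℝ => y 0 + t * y 1) (by fun_prop)
    exact ⟨x, hx, fun y hy => h hy⟩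
  choose m hm hmax using hex
  obtain ⟨X, hX⟩ : ∃ X : ℝ → ℝ, X = fun t => m t 1 := ⟨_, rfl⟩
  have hXm : Monotone X := by
    intro s t hst
    rcases hst.eq_or_lt with h | h
    · rw [h]
    have h1 := hmax s (m t) (hm t)
    have h2 := hmax t (m s) (hm s)
    rw [hX]
    show m s 1 ≤ m t 1
    by_contra hcon
    push Not at hcon
    have h3 : 0 < (t - s) * (m s 1 - m t 1) := mul_pos (sub_pos.2 h) (sub_pos.2 hcon)
    have h4 : (t - s) * (m s 1 - m t 1) = (m t 0 + s * m t 1 - (m s 0 + s * m s 1)) + (m s 0 + t * m s 1 - (m t 0 + t * m t 1)) := by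
      ring
    linarith
  obtain ⟨R, hR⟩ := hK.isBounded.exists_norm_le
  have hR0 : 0 ≤ R := by
    obtain ⟨y, hy⟩ := hne
    exact (norm_nonneg y).trans (hR y hy)
  have hco : ∀ y ∈ K, ∀ i, |y i| ≤ R := fun y hy i => by
    have := norm_le_pi_norm y i
    rw [Real.norm_eq_abs] at this
    exact this.trans (hR y hy)
  filter_upwards [hXm.ae_differentiableAt] with t ht
  intro x hx hxm
  obtain ⟨C, hC, hO⟩ := ht.isBigO_sub.exists_pos
  obtain ⟨e, he, hb⟩ := Metric.eventually_nhds_iff.1 hO.bound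
  have hb' : ∀ s : ℝ, |s| < e → |X (t + s) - X t| ≤ C * |s| := by
    intro s hs
    have h1 := hb (y := t + s) (by rw [Real.dist_eq, add_sub_cancel_left]; exact hs)
    simpa [Real.norm_eq_abs] using h1
  -- the basic inequality
  have key : ∀ y ∈ K, ∀ s : ℝ, s * (y 1 - X (t + s)) ≤ (x 0 + t * x 1) - (y 0 + t * y 1) := by
    intro y hy s
    have h1 := hmax (t + s) y hy
    have h2 := hxm (m (t + s)) (hm (t + s))
    rw [hX]
    show s * (y 1 - m (t + s) 1) ≤ _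
    have h3 : s * (y 1 - m (t + s) 1) = (y 0 + (t + s) * y 1 - (m (t + s) 0 + (t + s) * m (t + s) 1)) +
        (m (t + s) 0 + t * m (t + s) 1 - (y 0 + t * y 1)) := by ring
    linarith
  have hx1 : x 1 = X t := by
    by_contra hcon
    have hd : 0 < |x 1 - X t| := abs_pos.2 (sub_ne_zero.2 hcon)
    obtain ⟨s, hs, hs1, hs2⟩ : ∃ s : ℝ, 0 < s ∧ s < e ∧ C * s < |x 1 - X t| := by
      refine ⟨min (e / 2) (|x 1 - X t| / (2 * C)), lt_min (by positivity) (by positivity), ?_, ?_⟩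
      · exact (min_le_left _ _).trans_lt (by linarith)
      · have h1 : C * min (e / 2) (|x 1 - X t| / (2 * C)) ≤ C * (|x 1 - X t| / (2 * C)) :=
          mul_le_mul_of_nonneg_left (min_le_right _ _) hC.le
        have h2 : C * (|x 1 - X t| / (2 * C)) = |x 1 - X t| / 2 := by field_simp
        linarith
    have h1 := key x hx s
    have h2 := key x hx (-s)
    have h3 := hb' s (by rw [abs_of_pos hs]; exact hs1)
    have h4 := hb' (-s) (by rw [abs_neg, abs_of_pos hs]; exact hs1)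
    rw [abs_of_pos hs] at h3
    rw [abs_neg, abs_of_pos hs] at h4
    rw [sub_self] at h1 h2
    have h5 : x 1 ≤ X (t + s) := by
      by_contra h
      push Not at h
      have := mul_pos hs (sub_pos.2 h)
      linarith
    have h6 : X (t + -s) ≤ x 1 := by
      by_contra h
      push Not at h
      have := mul_pos hs (sub_pos.2 h)
      linarith [show -s * (x 1 - X (t + -s)) = s * (X (t + -s) - x 1) by ring]
    have h7 := abs_le.1 h3
    have h8 := abs_le.1 h4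
    have h9 : |x 1 - X t| ≤ C * s := abs_le.2 ⟨by linarith, by linarith⟩
    linarith
  obtain ⟨δ, hδ, hδ1, hδ2⟩ : ∃ δ : ℝ, 0 < δ ∧ C * δ ≤ 1 / 2 ∧ δ * (2 * R) < e := by
    refine ⟨min (1 / (2 * C)) (e / (2 * R + 1)), lt_min (by positivity) (by positivity), ?_, ?_⟩
    · have h1 : C * min (1 / (2 * C)) (e / (2 * R + 1)) ≤ C * (1 / (2 * C)) :=
        mul_le_mul_of_nonneg_left (min_le_left _ _) hC.le
      have h2 : C * (1 / (2 * C)) = 1 / 2 := by field_simp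
      linarith
    · have h1 : min (1 / (2 * C)) (e / (2 * R + 1)) * (2 * R) ≤ e / (2 * R + 1) * (2 * R) :=
        mul_le_mul_of_nonneg_right (min_le_right _ _) (by positivity)
      have h2 : e / (2 * R + 1) * (2 * R) < e := by
        rw [div_mul_eq_mul_div, div_lt_iff₀ (by positivity)]
        nlinarith
      linarith
  have hmain : ∀ y ∈ K, δ / 2 * (y 1 - x 1) ^ 2 ≤ (x 0 + t * x 1) - (y 0 + t * y 1) := by
    intro y hy
    have hu : |y 1 - X t| ≤ 2 * R := by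
      have h1 := abs_le.1 (hco y hy 1)
      have h2 := abs_le.1 (hco x hx 1)
      rw [← hx1]
      exact abs_le.2 ⟨by linarith, by linarith⟩
    obtain ⟨u, hu'⟩ : ∃ u, u = y 1 - X t := ⟨_, rfl⟩
    rw [← hu'] at hu
    have h1 := key y hy (δ * u)
    have h2 : |δ * u| < e := by
      rw [abs_mul, abs_of_pos hδ]
      exact (mul_le_mul_of_nonneg_left hu hδ.le).trans_lt hδ2
    have h3 := hb' (δ * u) h2
    rw [abs_mul, abs_of_pos hδ] at h3
    have h4 : δ * u * (y 1 - X (t + δ * u)) = δ * u ^ 2 - δ * (u * (X (t + δ * u) - X t)) := by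
      rw [show y 1 = u + X t by rw [hu']; ring]
      ring
    have h5 : u * (X (t + δ * u) - X t) ≤ |u| * (C * (δ * |u|)) := by
      refine (le_abs_self _).trans ?_
      rw [abs_mul]
      exact mul_le_mul_of_nonneg_left h3 (abs_nonneg _)
    have h6 : |u| * (C * (δ * |u|)) = C * δ * u ^ 2 := by
      rw [← sq_abs u]
      ring
    have h7 : C * δ * u ^ 2 ≤ 1 / 2 * u ^ 2 := mul_le_mul_of_nonneg_right hδ1 (sq_nonneg _)
    have h8 : δ * (u * (X (t + δ * u) - X t)) ≤ δ * (1 / 2 * u ^ 2) := mul_le_mul_of_nonneg_left (by linarith) hδ.le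
    rw [hx1, ← hu']
    rw [hx1] at h1
    linarith
  obtain ⟨T, hT⟩ : ∃ T, T = 1 + |t| := ⟨_, rfl⟩
  have hT0 : 0 < T := by rw [hT]; positivity
  refine ⟨1 / (2 * (T * (2 * R)) + 2 * T ^ 2 * (2 / δ) ), by positivity, fun y hy => ?_⟩
  obtain ⟨g, hg⟩ : ∃ g, g = (x 0 + t * x 1) - (y 0 + t * y 1) := ⟨_, rfl⟩
  have hg0 : 0 ≤ g := by
    have := hxm y hy
    linarith
  have hg1 : g ≤ T * (2 * R) := by
    have h1 := abs_le.1 (hco y hy 1)
    have h2 := abs_le.1 (hco x hx 1)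
    have h3 := abs_le.1 (hco y hy 0)
    have h4 := abs_le.1 (hco x hx 0)
    have h5 : t * (x 1 - y 1) ≤ |t| * (2 * R) := by
      refine (le_abs_self _).trans ?_
      rw [abs_mul]
      exact mul_le_mul_of_nonneg_left (abs_le.2 ⟨by linarith, by linarith⟩) (abs_nonneg _)
    have h6 : g = (x 0 - y 0) + t * (x 1 - y 1) := by rw [hg]; ring
    rw [h6, hT]
    linarith
  have h1 := hmain y hy
  rw [← hg] at h1
  have h2 : (y 1 - x 1) ^ 2 ≤ 2 / δ * g := by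
    rw [div_mul_eq_mul_div, le_div_iff₀ hδ]
    linarith
  have h3 : ‖y - x‖ ≤ g + T * |y 1 - x 1| := by
    rw [pi_norm_le_iff_of_nonneg (by positivity)]
    intro i
    fin_cases i
    · show ‖y 0 - x 0‖ ≤ _
      rw [Real.norm_eq_abs, show y 0 - x 0 = -g - t * (y 1 - x 1) by rw [hg]; ring]
      have h5 : |-g - t * (y 1 - x 1)| ≤ |-g| + |t * (y 1 - x 1)| := abs_sub _ _
      rw [abs_neg, abs_of_nonneg hg0, abs_mul] at h5
      have h6 : |t| * |y 1 - x 1| ≤ T * |y 1 - x 1| := mul_le_mul_of_nonneg_right (by rw [hT]; linarith) (abs_nonneg _)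
      linarith
    · show ‖y 1 - x 1‖ ≤ _
      rw [Real.norm_eq_abs]
      have h6 : 1 * |y 1 - x 1| ≤ T * |y 1 - x 1| :=
        mul_le_mul_of_nonneg_right (by rw [hT]; linarith [abs_nonneg t]) (abs_nonneg _)
      linarith
  have h4 : ‖y - x‖ ^ 2 ≤ 2 * g ^ 2 + 2 * (T * |y 1 - x 1|) ^ 2 := by
    have h5 : ‖y - x‖ ^ 2 ≤ (g + T * |y 1 - x 1|) ^ 2 := pow_le_pow_left₀ (norm_nonneg _) h3 2
    nlinarith [sq_nonneg (g - T * |y 1 - x 1|)]
  have h5 : g ^ 2 ≤ T * (2 * R) * g := by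
    rw [sq]
    exact mul_le_mul_of_nonneg_right hg1 hg0
  have h6 : (T * |y 1 - x 1|) ^ 2 = T ^ 2 * (y 1 - x 1) ^ 2 := by rw [mul_pow, sq_abs]
  have h7 : T ^ 2 * (y 1 - x 1) ^ 2 ≤ T ^ 2 * (2 / δ * g) := mul_le_mul_of_nonneg_left h2 (sq_nonneg _)
  rw [← hg, one_div, inv_mul_le_iff₀ (by positivity)]
  rw [h6] at h4
  calc ‖y - x‖ ^ 2 ≤ 2 * g ^ 2 + 2 * (T ^ 2 * (y 1 - x 1) ^ 2) := h4
    _ ≤ 2 * (T * (2 * R) * g) + 2 * (T ^ 2 * (2 / δ * g)) := by linarith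
    _ = (2 * (T * (2 * R)) + 2 * T ^ 2 * (2 / δ)) * g := by ring

/-- **Almost every linear form has a quadratic contact at its maximizers.** -/
theorem ae_touch35 {K : Set (Fin 2 → ℝ)} (hK : IsCompact K) :
    ∀ᵐ f : Fin 2 → ℝ, ∀ x ∈ K, (∀ y ∈ K, f 0 * y 0 + f 1 * y 1 ≤ f 0 * x 0 + f 1 * x 1) →
      ∃ c : ℝ, 0 < c ∧ ∀ y ∈ K, c * ‖y - x‖ ^ 2 ≤ (f 0 * x 0 + f 1 * x 1) - (f 0 * y 0 + f 1 * y 1) := by
  have hK' : IsCompact ((fun y : Fin 2 → ℝ => -y) '' K) := hK.image continuous_neg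
  have h1 : ∀ᵐ t : ℝ, TouchQ35 K t ∧ TouchQ35 ((fun y : Fin 2 → ℝ => -y) '' K) t :=
    (ae_touch_line35 hK).and (ae_touch_line35 hK')
  obtain ⟨T, hT⟩ : ∃ T : Set ℝ, T = toMeasurable volume {t | ¬ (TouchQ35 K t ∧ TouchQ35 ((fun y : Fin 2 → ℝ => -y) '' K) t)} :=
    ⟨_, rfl⟩
  have hTm : MeasurableSet T := by rw [hT]; exact measurableSet_toMeasurable _ _
  have hT0 : volume T = 0 := by
    rw [hT, measure_toMeasurable]
    exact h1
  have hTs : ∀ t, t ∉ T → TouchQ35 K t ∧ TouchQ35 ((fun y : Fin 2 → ℝ => -y) '' K) t := by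
    intro t ht
    by_contra hcon
    exact ht (by rw [hT]; exact subset_toMeasurable _ _ hcon)
  have h2 : ∀ᵐ p : ℝ × ℝ, p.1 ≠ 0 ∧ p.2 / p.1 ∉ T := by
    have e1 : MeasurableSet {p : ℝ × ℝ | ¬ (p.1 ≠ 0 ∧ p.2 / p.1 ∉ T)} := by
      have e2 : {p : ℝ × ℝ | ¬ (p.1 ≠ 0 ∧ p.2 / p.1 ∉ T)} = (fun p : ℝ × ℝ => p.1) ⁻¹' {0} ∪ (fun p : ℝ × ℝ => p.2 / p.1) ⁻¹' T := by
        ext p
        simp only [mem_ofPred_eq, mem_union, mem_preimage, mem_singleton_iff]
        tauto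
      rw [e2]
      exact (measurable_fst (measurableSet_singleton 0)).union ((measurable_snd.div measurable_fst) hTm)
    rw [ae_iff, Measure.volume_eq_prod, Measure.measure_prod_null e1]
    have e3 : ∀ᵐ a : ℝ, a ≠ 0 := by
      rw [ae_iff]
      simp
    filter_upwards [e3] with a ha
    have e4 : Prod.mk a ⁻¹' {p : ℝ × ℝ | ¬ (p.1 ≠ 0 ∧ p.2 / p.1 ∉ T)} = (fun y : ℝ => y * a⁻¹) ⁻¹' T := by
      ext y
      simp only [mem_preimage, mem_ofPred_eq, div_eq_mul_inv]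
      tauto
    rw [e4, Real.volume_preimage_mul_right (inv_ne_zero ha), hT0, mul_zero]
    rfl
  have h3 := (volume_preserving_finTwoArrow ℝ).quasiMeasurePreserving.ae h2
  filter_upwards [h3] with f hf
  obtain ⟨hf0, hft⟩ := hf
  have hf0' : f 0 ≠ 0 := hf0
  have hft' : f 1 / f 0 ∉ T := hft
  obtain ⟨g1, g2⟩ := hTs _ hft'
  have e5 : f 0 * (f 1 / f 0) = f 1 := by field_simp
  intro x hx hxm
  rcases lt_or_gt_of_ne hf0' with hneg | hpos
  · obtain ⟨c, hc, h⟩ := g2 (-x) ⟨x, hx, rfl⟩ (by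
      rintro _ ⟨y, hy, rfl⟩
      have h4 := hxm y hy
      show -(y 0) + f 1 / f 0 * -(y 1) ≤ -(x 0) + f 1 / f 0 * -(x 1)
      have h5 : 0 < -(f 0) := by linarith
      refine le_of_mul_le_mul_left ?_ h5
      have e6 : ∀ z : Fin 2 → ℝ, -(f 0) * (-(z 0) + f 1 / f 0 * -(z 1)) = f 0 * z 0 + f 0 * (f 1 / f 0) * z 1 := fun z => by ring
      rw [e6 y, e6 x, e5]
      exact h4)
    refine ⟨c * -(f 0), mul_pos hc (by linarith), fun y hy => ?_⟩
    have h4 := h (-y) ⟨y, hy, rfl⟩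
    have e7 : ‖-y - -x‖ = ‖y - x‖ := by rw [← norm_neg]; congr 1; ring
    rw [e7] at h4
    have h5 : c * ‖y - x‖ ^ 2 ≤ (-(x 0) + f 1 / f 0 * -(x 1)) - (-(y 0) + f 1 / f 0 * -(y 1)) := h4
    have h6 := mul_le_mul_of_nonneg_left h5 (show 0 ≤ -(f 0) by linarith)
    have e8 : -(f 0) * ((-(x 0) + f 1 / f 0 * -(x 1)) - (-(y 0) + f 1 / f 0 * -(y 1))) =
        (f 0 * x 0 + f 0 * (f 1 / f 0) * x 1) - (f 0 * y 0 + f 0 * (f 1 / f 0) * y 1) := by ring
    rw [e8, e5] at h6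
    linarith
  · obtain ⟨c, hc, h⟩ := g1 x hx (by
      intro y hy
      have h4 := hxm y hy
      refine le_of_mul_le_mul_left ?_ hpos
      have e6 : ∀ z : Fin 2 → ℝ, f 0 * (z 0 + f 1 / f 0 * z 1) = f 0 * z 0 + f 0 * (f 1 / f 0) * z 1 := fun z => by ring
      rw [e6 y, e6 x, e5]
      exact h4)
    refine ⟨c * f 0, mul_pos hc hpos, fun y hy => ?_⟩
    have h6 := mul_le_mul_of_nonneg_left (h y hy) hpos.le
    have e8 : f 0 * ((x 0 + f 1 / f 0 * x 1) - (y 0 + f 1 / f 0 * y 1)) =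
        (f 0 * x 0 + f 0 * (f 1 / f 0) * x 1) - (f 0 * y 0 + f 0 * (f 1 / f 0) * y 1) := by ring
    rw [e8, e5] at h6
    linarith

end Pool.Agent.W_1b8d5d_p
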