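import Pool.Agent.W_1b8d5d_p.BalDef14
import Pool.Agent.W_1b8d5d_p.Width99
import Pool.Agent.W_1b8d5d_h14.Lanes14

/-!
# Track P2: the comparison of the widths of two directions (helper14)

Lucky lanes of the direction `d` at the scale `2 ^ x`, reached through the cheap displacements of the direction `d'` at the
later scale `2 ^ x'`: the width of `d'` is at most a multiple of the width of `d`.
-/

namespace Pool.Agent.W_1b8d5d_p

open MeasureTheory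
open Pool.Agent.W_1b8d5d_h85 (Env Edge)
open Pool.Agent.W_1b8d5d_h48 (CoreEv)
open Pool.Agent.W_1b8d5d_h14 (lanes14)

noncomputable section

variable {F : Fm} {κ K0 a C3 Cm : ℝ} {A : Set Dr}

/-- **(COMPARE).** -/
theorem cmp_all14 (hD : Dirs F κ K0 A) (hR : Rate F A) (ha : 0 < a)
    (hCh : ∃ c0 C' : ℝ, 0 < c0 ∧ ∀ d ∈ A, ∀ m : ℕ, 1 ≤ m → ∃ lo hi : ℤ, lo ≤ xs F d m ∧ xs F d m ≤ hi ∧
      c0 * (m * vA a F d m) - 1 ≤ (hi : ℝ) - lo ∧
      ∀ y : ℤ, lo ≤ y → y ≤ hi → e F d m y ≤ C' * EE F d m ∧ |(y : ℝ) - d.v * m| ≤ 2 * (m * vA a F d m) + 1)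
    (hLane : LaneP a F A C3 Cm) : CmpP a F A C3 Cm := by
  intro C1
  obtain ⟨c0, C', hc0, hCh⟩ := hCh
  obtain ⟨Cn, hCn⟩ : ∃ Cn : ℕ, Cn = ⌈Cm⌉₊ + 1 := ⟨_, rfl⟩
  obtain ⟨Kt, hKt⟩ : ∃ Kt : ℝ, Kt = |C1| + 2 * (|C'| + 1 + Cn) * |C1| + 2 := ⟨_, rfl⟩
  obtain ⟨p, R, x1, hp, hR0, hLane⟩ := hLane Kt
  obtain ⟨J, hJ⟩ : ∃ J : ℕ, J = ⌈4 / p⌉₊ := ⟨_, rfl⟩
  have hJp : 4 ≤ J * p := by
    have h1 := Nat.le_ceil (4 / p)
    rw [← hJ, div_le_iff₀ hp] at h1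
    exact h1
  obtain ⟨n1, -, hw1⟩ := hD.w_large hR ha (1 / Cr F)
  obtain ⟨C2, hC2⟩ : ∃ C2 : ℝ, C2 = (J * (2 * R + 1) + 1) / c0 := ⟨_, rfl⟩
  refine ⟨C2, max x1 n1, fun d hd d' hd' x x' hx hxx' hi hii => ?_⟩
  by_contra hcon
  rw [not_le] at hcon
  obtain ⟨w, hw⟩ : ∃ w : ℝ, w = 2 ^ x * vA a F d (2 ^ x) := ⟨_, rfl⟩
  obtain ⟨w', hw'⟩ : ∃ w' : ℝ, w' = 2 ^ x' * vA a F d' (2 ^ x') := ⟨_, rfl⟩
  obtain ⟨E, hE⟩ : ∃ E : ℝ, E = EE F d (2 ^ x) := ⟨_, rfl⟩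
  obtain ⟨E', hE'⟩ : ∃ E' : ℝ, E' = EE F d' (2 ^ x') := ⟨_, rfl⟩
  have hE0 : 0 < E := by rw [hE]; exact EE_pos F d _
  have hE'0 : 0 < E' := by rw [hE']; exact EE_pos F d' _
  rw [← hE, ← hE'] at hi
  rw [← hw, ← hw'] at hcon
  have hC1 : 0 < C1 := by
    by_contra h
    rw [not_lt] at h
    have := mul_nonpos_of_nonpos_of_nonneg h hE0.le
    linarith
  have hwge : 1 ≤ w := by
    have hx2 : n1 ≤ 2 ^ x := (le_max_right x1 n1).trans (hx.trans (Nat.lt_two_pow_self).le)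
    have h1 := hw1 d hd (2 ^ x) hx2
    have h2 := Cr_le_EE F d (2 ^ x)
    have h3 : 1 ≤ 1 / Cr F * EE F d (2 ^ x) := by
      rw [one_div, inv_mul_eq_div, one_le_div (Cr_pos F)]
      exact h2
    rw [hw]
    push_cast at h1
    linarith
  obtain ⟨M, k, sl, Ev, D, hM1, hMC, hk, hpE, hcore⟩ := hLane d hd x ((le_max_left _ _).trans hx)
  rw [← hw, ← hE] at hcore
  obtain ⟨lo, hi', -, -, hlen, hch⟩ := hCh d' hd' (2 ^ x') Nat.one_le_two_pow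
  push_cast at hlen
  rw [← hw'] at hlen
  obtain ⟨S, hS⟩ : ∃ S : ℕ, S = ⌊2 * R * w⌋₊ + 1 := ⟨_, rfl⟩
  have hRw : 0 ≤ 2 * R * w := by positivity
  have hS1 : 2 * R * w < S := by
    rw [hS]
    push_cast
    exact Nat.lt_floor_add_one _
  have hS2 : (S : ℝ) ≤ 2 * R * w + 1 := by
    rw [hS]
    push_cast
    linarith [Nat.floor_le hRw]
  -- the places
  obtain ⟨pos, hpos⟩ : ∃ pos : ℕ → ℤ, ∀ j, pos j = lo + j * S := ⟨_, fun _ => rfl⟩
  have hJS : (J : ℝ) * S ≤ hi' - lo := by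
    have h1 : (J : ℝ) * S ≤ J * (2 * R * w + 1) := mul_le_mul_of_nonneg_left hS2 (Nat.cast_nonneg _)
    have h2 : C2 * w * c0 = (J * (2 * R + 1) + 1) * w := by
      rw [hC2]
      field_simp
    have h3 : c0 * (C2 * w) ≤ c0 * w' := mul_le_mul_of_nonneg_left hcon.le hc0.le
    have h4 : (J : ℝ) * 1 ≤ J * w := mul_le_mul_of_nonneg_left hwge (Nat.cast_nonneg _)
    nlinarith
  have hposle : ∀ j < J, lo ≤ pos j ∧ pos j ≤ hi' := by
    intro j hj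
    rw [hpos]
    constructor
    · have : (0 : ℤ) ≤ (j : ℤ) * S := by positivity
      omega
    · have h1 : (j : ℝ) * S ≤ J * S := mul_le_mul_of_nonneg_right (by exact_mod_cast hj.le) (Nat.cast_nonneg _)
      have h2 : ((lo + (j : ℤ) * S : ℤ) : ℝ) ≤ ((hi' : ℤ) : ℝ) := by
        push_cast
        linarith
      exact_mod_cast h2
  have hadm' := hD.adm d' hd'
  have htouch' := hD.touch d' hd'
  have hn1 : 1 ≤ 2 ^ x' := Nat.one_le_two_pow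
  obtain ⟨ys, hys⟩ := es_attained hadm' (2 ^ x')
  have hA : ∀ j ∈ Finset.range J, ep F d' (2 ^ x') (pos j) ≤ (|C'| + 1) * C1 * E := by
    intro j hj
    obtain ⟨h1, h2⟩ := hposle j (Finset.mem_range.1 hj)
    have h3 := (hch (pos j) h1 h2).1
    have h4 := ep_le_e_add hadm' htouch' hn1 (pos j) ys
    rw [hys] at h4
    have h5 := le_EE F d' (le_refl (2 ^ x'))
    have h6 := Cr_pos F
    rw [← hE'] at h3 h5
    have h7 : C' * E' ≤ |C'| * E' := mul_le_mul_of_nonneg_right (le_abs_self _) hE'0.le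
    have h8 : (|C'| + 1) * E' ≤ (|C'| + 1) * (C1 * E) := mul_le_mul_of_nonneg_left hi (by positivity)
    linarith
  have hMn : M ≤ Cn * 2 ^ x' := by
    have h1 : (M : ℝ) ≤ ((Cn * 2 ^ x' : ℕ) : ℝ) := by
      have h2 : Cm ≤ Cn := by
        rw [hCn]
        push_cast
        linarith [Nat.le_ceil Cm]
      have h3 : (2 : ℝ) ^ x ≤ 2 ^ x' := pow_le_pow_right₀ (by norm_num) hxx'
      have h4 : Cm * 2 ^ x ≤ Cn * 2 ^ x := mul_le_mul_of_nonneg_right h2 (by positivity)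
      have h5 : (Cn : ℝ) * 2 ^ x ≤ Cn * 2 ^ x' := mul_le_mul_of_nonneg_left h3 (Nat.cast_nonneg _)
      push_cast
      linarith
    exact_mod_cast h1
  obtain ⟨y0, hy0⟩ := es_attained hadm' M
  have hA' : ep F d' M y0 ≤ Cn * (C1 * E) := by
    rw [hy0]
    have h1 := le_EE F d' hMn
    have h2 := EE_mul F d' (2 ^ x') (k := Cn) (by omega)
    rw [← hE'] at h2
    have h3 := Cr_pos F
    have h4 : (Cn : ℝ) * E' ≤ Cn * (C1 * E) := mul_le_mul_of_nonneg_left hi (Nat.cast_nonneg _)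
    linarith
  have hdist : ∀ i ∈ Finset.range J, ∀ j ∈ Finset.range J, i ≠ j → 2 * (R * w) < |((pos i - pos j : ℤ) : ℝ)| := by
    intro i _ j _ hij
    have e1 : ((pos i - pos j : ℤ) : ℝ) = ((i : ℝ) - j) * S := by
      rw [hpos, hpos]
      push_cast
      ring
    rw [e1, abs_mul, Nat.abs_cast]
    have h1 : (1 : ℝ) ≤ |(i : ℝ) - j| := by
      have h2 : (1 : ℤ) ≤ |(i : ℤ) - j| := Int.one_le_abs (by omega)
      have h3 : ((1 : ℤ) : ℝ) ≤ ((|(i : ℤ) - j| : ℤ) : ℝ) := by exact_mod_cast h2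
      push_cast at h3
      exact h3
    have h2 : 1 * (S : ℝ) ≤ |(i : ℝ) - j| * S := mul_le_mul_of_nonneg_right h1 (Nat.cast_nonneg _)
    linarith
  have hL := hii (M : ℝ) (k : ℝ) (Nat.cast_nonneg _) hMC hk
  rw [← hE] at hL
  have hKC : |C1| = C1 := abs_of_pos hC1
  have hCn0 : (0 : ℝ) ≤ Cn := Nat.cast_nonneg _
  have hKpos : 0 ≤ Kt - C1 := by
    rw [hKt, hKC]
    have : 0 ≤ 2 * (|C'| + 1 + Cn) * C1 := by positivity
    linarith
  have key := lanes14 (F := F) (κ := κ) (d := d) (d' := d') (b := R * w) (Y := Kt * E) (n := 2 ^ x') (J := J) (pos := pos)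
    (A := (|C'| + 1) * C1 * E) (A' := Cn * (C1 * E)) (Y' := (Kt - C1) * E) hadm' htouch' hcore hM1 hn1 hdist hp hpE hJp
    hA hA' (mul_nonneg hKpos hE0.le) (by linarith)
  have h1 : (Kt - C1) * E * (3 / 4) ≤ ((|C'| + 1 + Cn) * C1) * E := by linarith
  have h2 : (Kt - C1) * (3 / 4) ≤ (|C'| + 1 + Cn) * C1 := by
    have h3 : ((Kt - C1) * (3 / 4)) * E ≤ ((|C'| + 1 + Cn) * C1) * E := by linarith
    exact le_of_mul_le_mul_right h3 hE0
  rw [hKt, hKC] at h2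
  have h3 : 0 ≤ (|C'| + 1 + Cn) * C1 := by positivity
  linarith

end

end Pool.Agent.W_1b8d5d_p
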