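import Pool.Agent.W_1b8d5d_p.DirsB

/-!
MP_1b8d5d_pr, Track P2 (balance): the cover of the octant by finitely many coordinates, with a margin for the tilts.
-/

namespace Pool.Agent.W_1b8d5d_p

open MeasureTheory Set Filter Topology

variable {μ : (Fin 2 → ℝ) → ℝ} {a b : ℝ}

/-- The coordinates number `0` are the natural ones. -/
theorem coOf_zero32 (N : ℕ) : (coOf N 0).p = 1 ∧ (coOf N 0).q = 0 ∧ (coOf N 0).r = 1 ∧ (coOf N 0).s = 0 := by
  have h1 : Nat.gcd (N + 1) 0 = N + 1 := Nat.gcd_zero_right _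
  have h2 : (N + 1) / Nat.gcd (N + 1) 0 = 1 := by rw [h1]; exact Nat.div_self (Nat.succ_pos _)
  have h3 : 0 / Nat.gcd (N + 1) 0 = 0 := Nat.zero_div _
  refine ⟨?_, ?_, ?_, ?_⟩
  · show (((N + 1) / Nat.gcd (N + 1) 0 : ℕ) : ℤ) = 1
    rw [h2]
    rfl
  · show ((0 / Nat.gcd (N + 1) 0 : ℕ) : ℤ) = 0
    rw [h3]
    rfl
  · show Nat.gcdA ((N + 1) / Nat.gcd (N + 1) 0) (0 / Nat.gcd (N + 1) 0) = 1
    rw [h2, h3]
    unfold Nat.gcdA Nat.xgcd
    rw [Nat.xgcdAux_rec one_pos]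
    simp
  · show Nat.gcdB ((N + 1) / Nat.gcd (N + 1) 0) (0 / Nat.gcd (N + 1) 0) = 0
    rw [h2, h3]
    unfold Nat.gcdB Nat.xgcd
    rw [Nat.xgcdAux_rec one_pos]
    simp

/-- The supporting form at a point is unique. -/
theorem form_unique32 (hN : NormP μ a b) {z : Fin 2 → ℝ} (hz : z ≠ 0) {h1 h2 g1 g2 : ℝ}
    (h3 : ∀ x : Fin 2 → ℝ, h1 * x 0 + h2 * x 1 ≤ μ x) (h4 : h1 * z 0 + h2 * z 1 = μ z)
    (g3 : ∀ x : Fin 2 → ℝ, g1 * x 0 + g2 * x 1 ≤ μ x) (g4 : g1 * z 0 + g2 * z 1 = μ z) : h1 = g1 ∧ h2 = g2 := by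
  have key : ∀ k1 k2 : ℝ, (∀ x : Fin 2 → ℝ, k1 * x 0 + k2 * x 1 ≤ μ x) → k1 * z 0 + k2 * z 1 = μ z →
      ∀ y : Fin 2 → ℝ, k1 * y 0 + k2 * y 1 = fderiv ℝ μ z y := by
    intro k1 k2 k3 k4 y
    have hd := (hN.diff z hz).hasFDerivAt
    have h1' : HasDerivAt (fun t : ℝ => z + t • y) y 0 := by
      have h2 := ((hasDerivAt_id (0 : ℝ)).smul_const y).const_add z
      simpa using h2
    have h3' : HasFDerivAt μ (fderiv ℝ μ z) (z + (0 : ℝ) • y) := by rwa [zero_smul, add_zero]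
    have hline : HasDerivAt (fun t : ℝ => μ (z + t • y)) (fderiv ℝ μ z y) 0 :=
      HasFDerivAt.comp_hasDerivAt (x := (0 : ℝ)) h3' h1'
    have hlin : HasDerivAt (fun t : ℝ => μ z + t * (k1 * y 0 + k2 * y 1)) (k1 * y 0 + k2 * y 1) 0 := by
      have e := ((hasDerivAt_id (0 : ℝ)).mul_const (k1 * y 0 + k2 * y 1)).const_add (μ z)
      simpa using e
    have hsub := hline.sub hlin
    have hmin : IsLocalMin ((fun t : ℝ => μ (z + t • y)) - fun t : ℝ => μ z + t * (k1 * y 0 + k2 * y 1)) 0 := by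
      refine Filter.Eventually.of_forall fun t => ?_
      simp only [Pi.sub_apply]
      rw [zero_smul, add_zero, zero_mul, add_zero, sub_self]
      have e := k3 (z + t • y)
      simp only [Pi.add_apply, Pi.smul_apply, smul_eq_mul] at e
      nlinarith
    have e := hmin.hasDerivAt_eq_zero hsub
    linarith
  have e0 := key h1 h2 h3 h4 ![1, 0]
  have e1 := key h1 h2 h3 h4 ![0, 1]
  have f0 := key g1 g2 g3 g4 ![1, 0]
  have f1 := key g1 g2 g3 g4 ![0, 1]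
  rw [← f0] at e0
  rw [← f1] at e1
  have e0' : h1 * 1 + h2 * 0 = g1 * 1 + g2 * 0 := e0
  have e1' : h1 * 0 + h2 * 1 = g1 * 0 + g2 * 1 := e1
  constructor <;> linarith

/-- In the closed first quadrant the supporting form has nonnegative coefficients. -/
theorem exists_form_quad32 (hN : NormP μ a b) {z : Fin 2 → ℝ} (hz : z ≠ 0) (hz0 : 0 ≤ z 0) (hz1 : 0 ≤ z 1) : ∃ h1 h2 : ℝ,
    (0 ≤ h1 ∧ 0 ≤ h2 ∧ h1 ≤ b ∧ h2 ≤ b) ∧ (∀ x : Fin 2 → ℝ, h1 * x 0 + h2 * x 1 ≤ μ x) ∧ h1 * z 0 + h2 * z 1 = μ z := by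
  obtain ⟨h1, h2, h3, h4⟩ := exists_form hN hz
  obtain ⟨h1, h2, h3, h4, hpos1⟩ : ∃ h1 h2 : ℝ, (∀ x : Fin 2 → ℝ, h1 * x 0 + h2 * x 1 ≤ μ x) ∧
      h1 * z 0 + h2 * z 1 = μ z ∧ 0 ≤ h1 := by
    rcases le_total 0 h1 with h5 | h5
    · exact ⟨h1, h2, h3, h4, h5⟩
    · have e3 : h1 * z 0 = 0 := by
        have e1 := h3 ![-z 0, z 1]
        rw [hN.refl z, ← h4] at e1
        have e2 : h1 * -z 0 + h2 * z 1 ≤ h1 * z 0 + h2 * z 1 := e1
        have e4 : h1 * z 0 ≤ 0 := mul_nonpos_of_nonpos_of_nonneg h5 hz0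
        linarith
      refine ⟨-h1, h2, fun x => ?_, by linarith, by linarith⟩
      have e4 := h3 ![-x 0, x 1]
      rw [hN.refl x] at e4
      have e5 : h1 * -x 0 + h2 * x 1 ≤ μ x := e4
      linarith
  obtain ⟨h1, h2, h3, h4, hpos1, hpos2⟩ : ∃ h1 h2 : ℝ, (∀ x : Fin 2 → ℝ, h1 * x 0 + h2 * x 1 ≤ μ x) ∧
      h1 * z 0 + h2 * z 1 = μ z ∧ 0 ≤ h1 ∧ 0 ≤ h2 := by
    rcases le_total 0 h2 with h5 | h5
    · exact ⟨h1, h2, h3, h4, hpos1, h5⟩
    · have e3 : h2 * z 1 = 0 := by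
        have e1 := h3 ![z 0, -z 1]
        rw [hN.refl1 z, ← h4] at e1
        have e2 : h1 * z 0 + h2 * -z 1 ≤ h1 * z 0 + h2 * z 1 := e1
        have e4 : h2 * z 1 ≤ 0 := mul_nonpos_of_nonpos_of_nonneg h5 hz1
        linarith
      refine ⟨h1, -h2, fun x => ?_, by linarith, hpos1, by linarith⟩
      have e4 := h3 ![x 0, -x 1]
      rw [hN.refl1 x] at e4
      have e5 : h1 * x 0 + h2 * -x 1 ≤ μ x := e4
      linarith
  refine ⟨h1, h2, ⟨hpos1, hpos2, ?_, ?_⟩, h3, h4⟩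
  · have e1 := (h3 ![1, 0]).trans (hN.upp ![1, 0])
    have e2 : h1 * 1 + h2 * 0 ≤ b * (|1| + |0|) := e1
    simpa using e2
  · have e1 := (h3 ![0, 1]).trans (hN.upp ![0, 1])
    have e2 : h1 * 0 + h2 * 1 ≤ b * (|0| + |1|) := e1
    simpa using e2

/-- **Finitely many coordinates cover the octant, with a margin.** -/
theorem cover_gen32 (hN : NormP μ a b) (ha : 0 < a) {m : ℝ} (hm : 0 < m) (hma : m ≤ a / 2) : ∃ (N : ℕ) (K : ℝ), 0 < K ∧
    ∀ z : Fin 2 → ℝ, μ z = 1 → 0 ≤ z 1 → z 1 ≤ z 0 →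
    ∃ j : ℕ, j ≤ N + 1 ∧ ∃ d ∈ DA μ (coOf N j) a b K, |be (coOf N j) d| ≤ m * (coOf N j).M ∧ d.h2 ≤ d.h1 ∧ a ≤ d.h1 ∧
      (j = 0 ∨ a / (N + 1) ≤ d.h2) ∧ d.h1 * z 0 + d.h2 * z 1 = μ z ∧
      d.v = (coOf N j).L * psR (coOf N j) z / tmR (coOf N j) z := by
  obtain ⟨N, hN1⟩ := exists_nat_gt (b / m)
  obtain ⟨K, hK⟩ : ∃ K : ℝ, ∀ j ≤ N + 1, (coOf N j).L * (coOf N j).R * (2 * b / a) ≤ K := by
    obtain ⟨K, hK⟩ := ((Finset.range (N + 2)).image fun j => ((coOf N j).L * (coOf N j).R * (2 * b / a) : ℝ)).bddAbove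
    exact ⟨K, fun j hj => hK (by
      rw [Finset.coe_image]
      exact ⟨j, by simpa using by omega, rfl⟩)⟩
  refine ⟨N, max K 1, lt_max_of_lt_right one_pos, fun z hz hz1 hz0 => ?_⟩
  obtain ⟨h1, h2, ⟨e1, e2, e3⟩, h3, h4⟩ := exists_form_oct hN hz hz1 hz0
  have hh1 : 0 < h1 := by
    rcases eq_or_lt_of_le (e1.trans e2) with h | h
    · exfalso
      rw [← h] at h4 e2
      have : h2 = 0 := le_antisymm e2 e1
      rw [this, hz] at h4
      linarith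
    · exact h
  -- the fraction
  obtain ⟨j, hj⟩ : ∃ j : ℕ, j = ⌊h2 / h1 * (N + 1 : ℝ)⌋₊ := ⟨_, rfl⟩
  have hθ0 : 0 ≤ h2 / h1 := div_nonneg e1 hh1.le
  have hθ1 : h2 / h1 ≤ 1 := (div_le_one hh1).2 e2
  have hNp : (0 : ℝ) < (N : ℝ) + 1 := by positivity
  have hj1 : (j : ℝ) ≤ h2 / h1 * (N + 1 : ℝ) := by
    rw [hj]
    exact Nat.floor_le (by positivity)
  have hj2 : h2 / h1 * (N + 1 : ℝ) < j + 1 := by
    rw [hj]
    exact Nat.lt_floor_add_one _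
  have hjN : j ≤ N + 1 := by
    have : (j : ℝ) ≤ N + 1 := hj1.trans (by nlinarith)
    exact_mod_cast this
  obtain ⟨g, hg, hgp, hgq⟩ := coOf_eq N j
  set c := coOf N j with hc
  obtain ⟨hb, htm, hz3⟩ := oct_bounds hN ha hz hz1 hz0 c
  have htm0 : 0 < tmR c z := lt_of_lt_of_le (by positivity) htm
  have hM1 := M_one c
  -- the first coefficient
  have hah : a ≤ h1 := by
    rw [abs_of_nonneg (hz1.trans hz0), abs_of_nonneg hz1, le_div_iff₀ ha] at hz3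
    rw [hz] at h4
    nlinarith [mul_nonneg (sub_nonneg.2 e2) hz1, hz1.trans hz0]
  -- the loops
  have hbe : |h2 * (c.p : ℝ) - h1 * c.q| ≤ m * c.M := by
    have hg' : (0 : ℝ) < g := by exact_mod_cast hg
    have hgp' : (g : ℝ) * c.p = N + 1 := by exact_mod_cast hgp
    have hgq' : (g : ℝ) * c.q = j := by exact_mod_cast hgq
    have hM : (c.M : ℝ) = c.p + c.q := by
      unfold Co.M
      push_cast
      ring
    have f1 : (g : ℝ) * (h2 * (c.p : ℝ) - h1 * c.q) = h2 * (N + 1) - h1 * j := by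
      rw [← hgp', ← hgq']
      ring
    have f2 : |h2 * ((N : ℝ) + 1) - h1 * j| ≤ h1 := by
      have g1 : h2 * ((N : ℝ) + 1) = h1 * (h2 / h1 * (N + 1)) := by field_simp
      rw [g1, ← mul_sub, abs_mul, abs_of_pos hh1]
      have g2 : |h2 / h1 * ((N : ℝ) + 1) - j| ≤ 1 := by
        rw [abs_le]
        constructor <;> linarith
      nlinarith
    have f3 : (g : ℝ) * |h2 * (c.p : ℝ) - h1 * c.q| ≤ b := by
      rw [← abs_of_pos hg', ← abs_mul, f1]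
      exact f2.trans e3
    have f4 : b ≤ (g : ℝ) * (m * c.M) := by
      have g1 : (g : ℝ) * (m * c.M) = m * (N + 1 + j) := by
        rw [hM, ← hgp', ← hgq']
        ring
      rw [g1]
      rw [div_lt_iff₀ hm] at hN1
      nlinarith [mul_nonneg hm.le (Nat.cast_nonneg (α := ℝ) j)]
    exact le_of_mul_le_mul_left (f3.trans f4) hg'
  refine ⟨j, hjN, ⟨h1, h2, c.L * psR c z / tmR c z⟩,
    ⟨⟨hh1.le, e1, e3, e2.trans e3⟩, ?_, hbe.trans (mul_le_mul_of_nonneg_right hma (by linarith)), h3, ?_⟩, hbe, e2, hah,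
    ?_, h4, rfl⟩
  · -- the slope
    refine le_trans ?_ ((hK j hjN).trans (le_max_left _ _))
    rw [← hc]
    have hL := L_pos' c
    have hR := R_one c
    simp only
    rw [abs_div, abs_mul, abs_of_pos hL, abs_of_pos htm0, div_le_iff₀ htm0]
    have f1 := (abs_psR c z).trans (mul_le_mul_of_nonneg_left hz3 (by linarith))
    have f2 : c.L * |psR c z| ≤ c.L * (c.R * (1 / a)) := mul_le_mul_of_nonneg_left f1 hL.le
    refine f2.trans ?_
    have f3 : (c.L : ℝ) * (c.R * (1 / a)) = c.L * c.R * (2 * b / a) * (1 / (2 * b)) := by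
      field_simp
    rw [f3]
    exact mul_le_mul_of_nonneg_left htm (by positivity)
  · -- the touching point
    simp only
    rw [z_eq c htm0.ne', hN.hom _ _ (by have := L_pos' c; positivity), ← h4]
    simp only [Pi.smul_apply, smul_eq_mul]
    ring
  · -- the second coefficient
    rcases Nat.eq_zero_or_pos j with h | h
    · exact Or.inl h
    · refine Or.inr ?_
      have f1 : (1 : ℝ) ≤ j := by exact_mod_cast h
      have f2 : (1 : ℝ) ≤ h2 / h1 * (N + 1 : ℝ) := f1.trans hj1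
      have f3 : h1 ≤ h2 * (N + 1) := by
        have f4 : h2 / h1 * (N + 1 : ℝ) = h2 * (N + 1) / h1 := by ring
        rw [f4, le_div_iff₀ hh1] at f2
        linarith
      show a / (N + 1) ≤ h2
      rw [div_le_iff₀ hNp]
      linarith

/-- **The cover with the margin `a / 4`.** -/
theorem cover32 (hN : NormP μ a b) (ha : 0 < a) : ∃ (N : ℕ) (K q₀ : ℝ), 0 < K ∧ 0 < q₀ ∧
    ∀ z : Fin 2 → ℝ, μ z = 1 → 0 ≤ z 1 → z 1 ≤ z 0 →
    ∃ j : ℕ, j ≤ N + 1 ∧ ∃ d ∈ DA μ (coOf N j) a b K, |be (coOf N j) d| ≤ a / 4 * (coOf N j).M ∧ d.h2 ≤ d.h1 ∧ a ≤ d.h1 ∧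
      (j = 0 ∨ q₀ ≤ d.h2) ∧ d.h1 * z 0 + d.h2 * z 1 = μ z ∧
      d.v = (coOf N j).L * psR (coOf N j) z / tmR (coOf N j) z := by
  obtain ⟨N, K, hK, h⟩ := cover_gen32 hN ha (m := a / 4) (by positivity) (by linarith)
  exact ⟨N, K, a / (N + 1), hK, by positivity, h⟩

end Pool.Agent.W_1b8d5d_p
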