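import Pool.Agent.W_1b8d5d_p.DirsB

/-!
MP_1b8d5d_pr, Track P2 (BALANCE), the family of directions: near a direction all support slopes occur, and the axis is not an
obstacle. (helper78)
-/

set_option autoImplicit false

namespace Pool.Agent.W_1b8d5d_p

open MeasureTheory Set Filter Topology

noncomputable section

/-- The family `A` contains the direction with the support slope `σ` relative to `d0`. -/
def Tilt (F : Fm) (A : Set Dr) (d0 : Dr) (σ : ℝ) : Prop :=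
  ∃ d ∈ A, ∃ x : ℝ, |x| ≤ 1 ∧ 0 ≤ σ * x ∧ d.v = d0.v + x ∧ be F.co d = be F.co d0 + σ ∧
    ∀ u : ℝ, J F d u = J F d0 (x + u) - J F d0 x - σ * u

/-- The family `A` around `A0`: the slopes `σ` with `|σ| ≤ s0` and `-b0 ≤ σ` occur, where `b0` bounds the asymmetry. -/
structure Fam (F : Fm) (A A0 : Set Dr) (s0 : ℝ) : Prop where
  pos : 0 < s0
  sub : A0 ⊆ A
  ax : ∀ d0 ∈ A0, ∃ b0 : ℝ, 0 ≤ b0 ∧ (∀ u : ℝ, 0 ≤ u → J F d0 (-u) ≤ J F d0 u + 2 * b0 * u) ∧
    ∀ σ : ℝ, -b0 ≤ σ → |σ| ≤ s0 → Tilt F A d0 σ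

/-- The directions with a margin: the loops, and the axis only in the coordinates `(1, 0)`. -/
def DA0 (μ : (Fin 2 → ℝ) → ℝ) (c : Co) (a b K q0 : ℝ) : Set Dr :=
  {d | d ∈ DA μ c a b K ∧ |be c d| ≤ a / 4 * c.M ∧ q0 ≤ d.h1 ∧ (q0 ≤ d.h2 ∨ (c.p = 1 ∧ c.q = 0 ∧ c.r = 1 ∧ c.s = 0))}

variable {μ : (Fin 2 → ℝ) → ℝ} {a b K q0 : ℝ}

/-- The norm on the line is differentiable. -/
theorem line_diff (hN : NormP μ a b) (c : Co) (y : ℝ) : DifferentiableAt ℝ (fun x : ℝ => μ (ptF c x)) y := by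
  have h1 : DifferentiableAt ℝ (ptF c) y := by
    have e1 : ptF c = fun x : ℝ => ptF c 0 + x • ![-(c.q : ℝ), (c.p : ℝ)] := by
      funext x
      rw [← ptF_add, zero_add]
    rw [e1]
    fun_prop
  exact DifferentiableAt.comp y (hN.diff _ (ptF_ne c y)) h1

/-- Two support lines at one point have the same slope. -/
theorem slope_unique {g : ℝ → ℝ} {y s s' : ℝ} (hg : DifferentiableAt ℝ g y) (h : ∀ x, g y + s * (x - y) ≤ g x)
    (h' : ∀ x, g y + s' * (x - y) ≤ g x) : s = s' := by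
  have key : ∀ s : ℝ, (∀ x, g y + s * (x - y) ≤ g x) → deriv g y = s := by
    intro s h
    have h4 : IsLocalMin (fun x : ℝ => g x - s * x) y := by
      refine Filter.Eventually.of_forall fun x => ?_
      have := h x
      simp only
      linarith
    have h5 := h4.deriv_eq_zero
    have h6 : deriv (fun x : ℝ => g x - s * x) y = deriv g y - s := by
      rw [deriv_fun_sub hg (by fun_prop)]
      congr 1
      simp
    rw [h6] at h5
    linarith
  rw [← key s h, ← key s' h']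

/-- The coefficients of a form from its height. -/
theorem h1_eq (c : Co) (d : Dr) : d.h1 * c.L = c.p * al c d - c.s * c.L * be c d := by
  have h : (c.p : ℝ) * c.r + c.q * c.s = 1 := det_real c
  unfold al be
  linear_combination (-(d.h1 * c.L)) * h

theorem h2_eq (c : Co) (d : Dr) : d.h2 * c.L = c.q * al c d + c.r * c.L * be c d := by
  have h : (c.p : ℝ) * c.r + c.q * c.s = 1 := det_real c
  unfold al be
  linear_combination (-(d.h2 * c.L)) * h

/-- **The tilted direction**, without the signs. -/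
theorem tilt78 (hN : NormP μ a b) (ha : 0 < a) {F : Fm} (hFa : F.a = a) (hFb : F.b = b)
    (hmu : ∀ x, mu_ F x = μ (ptF F.co x)) (K : ℝ) : ∃ s0 C : ℝ, 0 < s0 ∧ s0 ≤ a / 4 ∧ 0 ≤ C ∧ ∀ d0 ∈ DA μ F.co a b K, ∀ σ : ℝ,
      |σ| ≤ s0 → ∃ (d : Dr) (x : ℝ), |x| ≤ 1 ∧ 0 ≤ σ * x ∧ d.v = d0.v + x ∧ be F.co d = be F.co d0 + σ ∧
        (∀ u : ℝ, J F d u = J F d0 (x + u) - J F d0 x - σ * u) ∧ (∀ z : Fin 2 → ℝ, d.h1 * z 0 + d.h2 * z 1 ≤ μ z) ∧
        d.h1 * ptF F.co d.v 0 + d.h2 * ptF F.co d.v 1 = μ (ptF F.co d.v) ∧ |d.h1 - d0.h1| ≤ C * |σ| ∧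
        |d.h2 - d0.h2| ≤ C * |σ| := by
  have hD := dirs hN ha hFa hFb hmu K
  obtain ⟨j, hj, hst⟩ := hD.strict 1 one_pos
  have hR1 := R_one F.co
  have hK1 : (K + 2 + F.co.R) ≤ |K| + 2 + F.co.R := by linarith [le_abs_self K]
  refine ⟨min (j / 2) (a / 4), |K| + 2 + F.co.R, by positivity, min_le_right _ _, by positivity, fun d0 hd0 σ hσ => ?_⟩
  have hσj : |σ| < j := by linarith [hσ.trans (min_le_left _ _)]
  have hT := touch_of hmu hd0
  -- the minimum
  have hJc : Continuous fun x : ℝ => J F d0 x := by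
    have h1 : Continuous (mu_ F) := (tm_sub F).lm_continuous
    unfold J
    fun_prop
  have hfc : Continuous fun x : ℝ => J F d0 x - σ * x := hJc.sub (by fun_prop)
  obtain ⟨x, hx, hmin⟩ := isCompact_Icc.exists_isMinOn (nonempty_Icc.2 (by norm_num : (-1 : ℝ) ≤ 1)) hfc.continuousOn
  rw [isMinOn_iff] at hmin
  have hx1 : |x| ≤ 1 := abs_le.2 hx
  have h0 : J F d0 x - σ * x ≤ 0 := by
    have := hmin 0 (by constructor <;> norm_num)
    simpa [hT.zero] using this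
  have hall : ∀ y : ℝ, J F d0 x - σ * x ≤ J F d0 y - σ * y := by
    intro y
    rcases le_total |y| 1 with hy | hy
    · exact hmin y (abs_le.1 hy)
    · have h1 := hst d0 hd0 y hy
      have h2 : σ * y ≤ |σ| * |y| := by
        rw [← abs_mul]
        exact le_abs_self _
      have h3 : |σ| * |y| ≤ j * |y| := mul_le_mul_of_nonneg_right hσj.le (abs_nonneg _)
      linarith
  have hσx : 0 ≤ σ * x := by linarith [hT.nn x]
  -- the form
  obtain ⟨h1, h2, h3, h4⟩ := exists_form hN (ptF_ne F.co (d0.v + x))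
  obtain ⟨d, hd⟩ : ∃ d : Dr, d = ⟨h1, h2, d0.v + x⟩ := ⟨_, rfl⟩
  have hdv : d.v = d0.v + x := by rw [hd]
  have hd3 : ∀ z : Fin 2 → ℝ, d.h1 * z 0 + d.h2 * z 1 ≤ μ z := by rw [hd]; exact h3
  have hd4 : d.h1 * ptF F.co d.v 0 + d.h2 * ptF F.co d.v 1 = μ (ptF F.co d.v) := by rw [hd]; exact h4
  have e0 : al F.co d0 + be F.co d0 * d0.v = μ (ptF F.co d0.v) := by
    rw [← form_pt]
    exact hd0.2.2.2.2
  have e1 : al F.co d + be F.co d * (d0.v + x) = μ (ptF F.co (d0.v + x)) := by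
    rw [← form_pt, ← hdv]
    exact hd4
  have eJ : ∀ y, J F d0 y = μ (ptF F.co (d0.v + y)) - (al F.co d0 + be F.co d0 * (d0.v + y)) := by
    intro y
    rw [J_eq hmu, form_pt]
  have eJd : ∀ y, J F d y = μ (ptF F.co (d0.v + x + y)) - (al F.co d + be F.co d * (d0.v + x + y)) := by
    intro y
    rw [J_eq hmu, form_pt, hdv]
  have hbe : be F.co d = be F.co d0 + σ := by
    refine slope_unique (g := fun y => μ (ptF F.co y)) (y := d0.v + x) (line_diff hN F.co _) (fun y => ?_) fun y => ?_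
    · have g1 := hd3 (ptF F.co y)
      rw [form_pt] at g1
      rw [← e1]
      linarith
    · have g1 := hall (y - d0.v)
      rw [eJ, eJ, show d0.v + (y - d0.v) = y by ring] at g1
      linarith
  have hal : al F.co d - al F.co d0 = J F d0 x - σ * (d0.v + x) := by
    rw [eJ x, ← e1, hbe]
    ring
  have hv0 : |d0.v| ≤ |K| := hd0.2.1.trans (le_abs_self K)
  have hJx : |J F d0 x| ≤ |σ| := by
    rw [abs_of_nonneg (hT.nn x)]
    have h5 : σ * x ≤ |σ| * |x| := by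
      rw [← abs_mul]
      exact le_abs_self _
    have h6 : |σ| * |x| ≤ |σ| * 1 := mul_le_mul_of_nonneg_left hx1 (abs_nonneg _)
    linarith
  have halb : |al F.co d - al F.co d0| ≤ (|K| + 2) * |σ| := by
    rw [hal]
    refine (abs_sub _ _).trans ?_
    rw [abs_mul]
    have h5 : |d0.v + x| ≤ |K| + 1 := (abs_add_le _ _).trans (add_le_add hv0 hx1)
    have h6 : |σ| * |d0.v + x| ≤ |σ| * (|K| + 1) := mul_le_mul_of_nonneg_left h5 (abs_nonneg _)
    linarith
  have hL := L_pos' F.co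
  have hLc : (F.co.L : ℝ) = F.co.p + F.co.q + 1 := by
    unfold Co.L
    push_cast
    ring
  have hRc : (F.co.R : ℝ) = |(F.co.r : ℝ)| + |(F.co.s : ℝ)| := by
    unfold Co.R
    push_cast
    ring
  have hp0 : (0 : ℝ) ≤ F.co.p := by exact_mod_cast (by linarith [F.co.hp] : (0 : ℤ) ≤ F.co.p)
  have hq0 : (0 : ℝ) ≤ F.co.q := by exact_mod_cast F.co.hq
  have hbd : be F.co d - be F.co d0 = σ := by rw [hbe]; ring
  have fin : ∀ x y z w : ℝ, 0 ≤ z → z ≤ F.co.L → |w| ≤ F.co.R → x * F.co.L = z * (al F.co d - al F.co d0) + w * F.co.L * σ →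
      |x| ≤ (|K| + 2 + F.co.R) * |σ| := by
    intro x y z w hz hz1 hw h5
    have h6 : |x| * F.co.L ≤ ((|K| + 2 + F.co.R) * |σ|) * F.co.L := by
      have h7 : |x| * F.co.L = |x * F.co.L| := by rw [abs_mul, abs_of_pos hL]
      rw [h7, h5]
      refine (abs_add_le _ _).trans ?_
      rw [abs_mul, abs_mul, abs_mul, abs_of_nonneg hz, abs_of_pos hL]
      have h8 : z * |al F.co d - al F.co d0| ≤ F.co.L * ((|K| + 2) * |σ|) :=
        mul_le_mul hz1 halb (abs_nonneg _) hL.le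
      have h9 : |w| * F.co.L * |σ| ≤ F.co.R * F.co.L * |σ| :=
        mul_le_mul_of_nonneg_right (mul_le_mul_of_nonneg_right hw hL.le) (abs_nonneg _)
      linarith
    exact le_of_mul_le_mul_right h6 hL
  refine ⟨d, x, hx1, hσx, hdv, hbe, fun u => ?_, hd3, hd4, ?_, ?_⟩
  · rw [eJd, eJ, eJ, show d0.v + (x + u) = d0.v + x + u by ring, ← e1, hbe]
    have := hal
    rw [eJ x, ← e1, hbe] at this
    linarith
  · refine fin _ 0 F.co.p (-F.co.s) hp0 (by linarith) ?_ ?_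
    · rw [abs_neg, hRc]
      linarith [abs_nonneg (F.co.r : ℝ)]
    · have g1 := h1_eq F.co d
      have g2 := h1_eq F.co d0
      rw [hbe] at g1
      linarith
  · refine fin _ 0 F.co.q F.co.r hq0 (by linarith) ?_ ?_
    · rw [hRc]
      linarith [abs_nonneg (F.co.s : ℝ)]
    · have g1 := h2_eq F.co d
      have g2 := h2_eq F.co d0
      rw [hbe] at g1
      linarith

/-- **The axis**: in the coordinates `(1, 0)` the asymmetry of the rate function is at most the slope of the form. -/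
theorem axis78 (hN : NormP μ a b) {F : Fm} (hmu : ∀ x, mu_ F x = μ (ptF F.co x)) {K : ℝ}
    (hc : F.co.p = 1 ∧ F.co.q = 0 ∧ F.co.r = 1 ∧ F.co.s = 0) {d0 : Dr} (hd0 : d0 ∈ DA μ F.co a b K) {u : ℝ} (hu : 0 ≤ u) :
    J F d0 (-u) ≤ J F d0 u + 2 * be F.co d0 * u := by
  obtain ⟨cp, cq, cr, cs⟩ := hc
  have hL : (F.co.L : ℝ) = 2 := by
    unfold Co.L
    rw [cp, cq]
    norm_num
  have hpt : ∀ x : ℝ, ptF F.co x = ![2, x] := by
    intro x
    unfold ptF
    rw [hL, cp, cq, cr, cs]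
    simp
  have hev : ∀ x : ℝ, μ (ptF F.co (-x)) = μ (ptF F.co x) := by
    intro x
    rw [hpt, hpt]
    have := hN.refl1 ![2, x]
    simpa using this
  have eJ : ∀ y, J F d0 y = μ (ptF F.co (d0.v + y)) - (al F.co d0 + be F.co d0 * (d0.v + y)) := by
    intro y
    rw [J_eq hmu, form_pt]
  have hbe : 0 ≤ be F.co d0 := by
    unfold be
    rw [cp, cq]
    have := hd0.1.2.1
    simpa using this
  have hT := touch_of hmu hd0
  -- the sign of the slope
  have hv : 0 ≤ d0.v := by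
    by_contra hcon
    push Not at hcon
    have h1 := J_pos hN hmu hd0 (x := -2 * d0.v) (by linarith)
    have h2 := hT.zero
    rw [eJ] at h1 h2
    rw [add_zero] at h2
    rw [show d0.v + -2 * d0.v = -d0.v by ring, hev] at h1
    nlinarith
  have hcv := J_convex F d0
  -- convexity
  have h3 : μ (ptF F.co (d0.v - u)) ≤ μ (ptF F.co (d0.v + u)) := by
    rcases eq_or_lt_of_le (add_nonneg hv hu) with h0 | h0
    · have e1 : d0.v = 0 := by linarith
      have e2 : u = 0 := by linarith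
      rw [e1, e2, sub_zero, add_zero]
    · have h4 := hN.sub (((d0.v) / (d0.v + u)) • ptF F.co (d0.v + u)) ((u / (d0.v + u)) • ptF F.co (-(d0.v + u)))
      rw [hN.hom _ _ (div_nonneg hv h0.le), hN.hom _ _ (div_nonneg hu h0.le), hev] at h4
      have e3 : ((d0.v) / (d0.v + u)) • ptF F.co (d0.v + u) + (u / (d0.v + u)) • ptF F.co (-(d0.v + u)) =
          ptF F.co (d0.v - u) := by
        rw [hpt, hpt, hpt]
        funext i
        fin_cases i
        · show (d0.v) / (d0.v + u) * 2 + u / (d0.v + u) * 2 = 2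
          field_simp
        · show (d0.v) / (d0.v + u) * (d0.v + u) + u / (d0.v + u) * (-(d0.v + u)) = d0.v - u
          field_simp
          ring
      rw [e3] at h4
      have e4 : d0.v / (d0.v + u) * μ (ptF F.co (d0.v + u)) + u / (d0.v + u) * μ (ptF F.co (d0.v + u)) =
          μ (ptF F.co (d0.v + u)) := by
        rw [← add_mul, ← add_div, div_self h0.ne', one_mul]
      linarith
  rw [eJ, eJ]
  rw [show d0.v + -u = d0.v - u by ring]
  linarith

/-- The trivial bound of the asymmetry. -/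
theorem asym78 (hN : NormP μ a b) (ha : 0 < a) {F : Fm} (hmu : ∀ x, mu_ F x = μ (ptF F.co x)) {K : ℝ} {d0 : Dr}
    (hd0 : d0 ∈ DA μ F.co a b K) {u : ℝ} (hu : 0 ≤ u) : J F d0 (-u) ≤ J F d0 u + 2 * ((b + a) * F.co.M) * u := by
  have hT := touch_of hmu hd0
  have hM := M_one F.co
  have h1 := hT.nn u
  have h2 := hT.zero
  have e0 : ptF F.co (d0.v + -u) = ptF F.co d0.v + (-u) • ![-(F.co.q : ℝ), (F.co.p : ℝ)] := ptF_add _ _ _
  have h3 := hN.sub (ptF F.co d0.v) ((-u) • ![-(F.co.q : ℝ), (F.co.p : ℝ)])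
  have h4 := hN.upp ((-u) • ![-(F.co.q : ℝ), (F.co.p : ℝ)])
  have hMc : (F.co.M : ℝ) = F.co.p + F.co.q := by
    unfold Co.M
    push_cast
    ring
  have hp0 : (0 : ℝ) ≤ F.co.p := by exact_mod_cast (by linarith [F.co.hp] : (0 : ℤ) ≤ F.co.p)
  have hq0 : (0 : ℝ) ≤ F.co.q := by exact_mod_cast F.co.hq
  have e1 : |((-u) • ![-(F.co.q : ℝ), (F.co.p : ℝ)]) 0| + |((-u) • ![-(F.co.q : ℝ), (F.co.p : ℝ)]) 1| = F.co.M * u := by
    have g1 : ((-u) • ![-(F.co.q : ℝ), (F.co.p : ℝ)]) 0 = u * F.co.q := by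
      show (-u) * (-(F.co.q : ℝ)) = _
      ring
    have g2 : ((-u) • ![-(F.co.q : ℝ), (F.co.p : ℝ)]) 1 = -(u * F.co.p) := by
      show (-u) * ((F.co.p : ℝ)) = _
      ring
    rw [g1, g2, abs_neg, abs_of_nonneg (by positivity), abs_of_nonneg (by positivity), hMc]
    ring
  rw [e1] at h4
  have hbe := abs_le.1 hd0.2.2.1
  have h5 : be F.co d0 * u ≤ a / 2 * F.co.M * u := mul_le_mul_of_nonneg_right hbe.2 hu
  have h6 : 0 ≤ F.co.M * u := by positivity
  have hb0 : 0 ≤ b * (F.co.M * u) := by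
    have g1 := hN.low ![1, 0]
    have g2 := hN.upp ![1, 0]
    have g3 : a * (|1| + |0|) ≤ b * (|1| + |0|) := g1.trans g2
    have g4 : a ≤ b := by simpa using g3
    have : 0 ≤ b := ha.le.trans g4
    positivity
  rw [J_eq hmu, form_pt, e0]
  rw [J_eq hmu, form_pt, add_zero] at h2
  nlinarith

/-- **The family of the norm.** -/
theorem fam78 (hN : NormP μ a b) (ha : 0 < a) {F : Fm} (hFa : F.a = a) (hFb : F.b = b)
    (hmu : ∀ x, mu_ F x = μ (ptF F.co x)) (K : ℝ) {q0 : ℝ} (hq0 : 0 < q0) :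
    ∃ s0 : ℝ, Fam F (DA μ F.co a b (K + 1)) (DA0 μ F.co a b K q0) s0 := by
  obtain ⟨s1, C, hs1, hs1a, hC, h⟩ := tilt78 hN ha hFa hFb hmu K
  have hM := M_one F.co
  have hb1 : a ≤ b := by
    have g1 := hN.low ![1, 0]
    have g2 := hN.upp ![1, 0]
    have g3 : a * (|1| + |0|) ≤ b * (|1| + |0|) := g1.trans g2
    simpa using g3
  have hs : 0 < min s1 (q0 / (C + 1)) := by positivity
  have hsub : DA0 μ F.co a b K q0 ⊆ DA μ F.co a b (K + 1) := fun d hd =>
    ⟨hd.1.1, hd.1.2.1.trans (by linarith), hd.1.2.2⟩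
  have key : ∀ d0 ∈ DA0 μ F.co a b K q0, ∀ σ : ℝ, |σ| ≤ min s1 (q0 / (C + 1)) →
      (q0 ≤ d0.h2 ∨ (F.co.p = 1 ∧ F.co.q = 0 ∧ F.co.r = 1 ∧ F.co.s = 0) ∧ 0 ≤ be F.co d0 + σ) →
      Tilt F (DA μ F.co a b (K + 1)) d0 σ := by
    intro d0 hd0 σ hσ hax
    obtain ⟨d, x, hx, hσx, hdv, hbe, hJ, hle, htc, hc1, hc2⟩ := h d0 hd0.1 σ (hσ.trans (min_le_left _ _))
    have hCσ : C * |σ| ≤ q0 := by
      have g1 : |σ| ≤ q0 / (C + 1) := hσ.trans (min_le_right _ _)
      rw [le_div_iff₀ (by positivity)] at g1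
      nlinarith [abs_nonneg σ]
    have hn1 : 0 ≤ d.h1 := by linarith [(abs_le.1 (hc1.trans hCσ)).1, hd0.2.2.1]
    have hn2 : 0 ≤ d.h2 := by
      rcases hax with h1 | ⟨⟨cp, cq, -, -⟩, h1⟩
      · linarith [(abs_le.1 (hc2.trans hCσ)).1]
      · rw [← hbe] at h1
        unfold be at h1
        rw [cp, cq] at h1
        simpa using h1
    refine ⟨d, ⟨⟨hn1, hn2, ?_, ?_⟩, ?_, ?_, hle, htc⟩, x, hx, hσx, hdv, hbe, hJ⟩
    · have g1 := (hle ![1, 0]).trans (hN.upp ![1, 0])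
      have g2 : d.h1 * 1 + d.h2 * 0 ≤ b * (|1| + |0|) := g1
      simpa using g2
    · have g1 := (hle ![0, 1]).trans (hN.upp ![0, 1])
      have g2 : d.h1 * 0 + d.h2 * 1 ≤ b * (|0| + |1|) := g1
      simpa using g2
    · rw [hdv]
      exact (abs_add_le _ _).trans (add_le_add hd0.1.2.1 hx)
    · rw [hbe]
      have g1 : |σ| ≤ a / 4 := (hσ.trans (min_le_left _ _)).trans hs1a
      have g2 := (abs_add_le (be F.co d0) σ).trans (add_le_add hd0.2.1 g1)
      nlinarith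
  refine ⟨min s1 (q0 / (C + 1)), hs, hsub, fun d0 hd0 => ?_⟩
  rcases hd0.2.2.2 with h2 | h2
  · refine ⟨(b + a) * F.co.M, by nlinarith, fun u hu => asym78 hN ha hmu hd0.1 hu, fun σ _ hσ =>
      key d0 hd0 σ hσ (Or.inl h2)⟩
  · refine ⟨be F.co d0, ?_, fun u hu => axis78 hN hmu h2 hd0.1 hu, fun σ hσ1 hσ =>
      key d0 hd0 σ hσ (Or.inr ⟨h2, by linarith⟩)⟩
    unfold be
    rw [h2.1, h2.2.1]
    have := hd0.1.1.2.1
    simpa using this

/-- The coordinates `(1, 0)`. -/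
theorem coOf_zero78 (N : ℕ) : (coOf N 0).p = 1 ∧ (coOf N 0).q = 0 ∧ (coOf N 0).r = 1 ∧ (coOf N 0).s = 0 := by
  have e1 : (N + 1) / Nat.gcd (N + 1) 0 = 1 := by
    rw [Nat.gcd_zero_right]
    exact Nat.div_self (Nat.succ_pos N)
  have e2 : 0 / Nat.gcd (N + 1) 0 = 0 := Nat.zero_div _
  refine ⟨?_, ?_, ?_, ?_⟩
  · show (((N + 1) / Nat.gcd (N + 1) 0 : ℕ) : ℤ) = 1
    rw [e1]
    rfl
  · show ((0 / Nat.gcd (N + 1) 0 : ℕ) : ℤ) = 0
    rw [e2]
    rfl
  · show Nat.gcdA ((N + 1) / Nat.gcd (N + 1) 0) (0 / Nat.gcd (N + 1) 0) = 1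
    rw [e1, e2]
    exact Nat.gcdA_zero_right one_ne_zero
  · show Nat.gcdB ((N + 1) / Nat.gcd (N + 1) 0) (0 / Nat.gcd (N + 1) 0) = 0
    rw [e1, e2]
    exact Nat.gcdB_zero_right one_ne_zero

end

end Pool.Agent.W_1b8d5d_p
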