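import Pool.Agent.W_1b8d5d_p.BalCov32
import Pool.Agent.W_1b8d5d_p.BalFam78

/-!
MP_1b8d5d_pr, Track P2 (balance): the cover of the octant by directions with a margin.
-/

namespace Pool.Agent.W_1b8d5d_p

open MeasureTheory Set Filter Topology

variable {μ : (Fin 2 → ℝ) → ℝ} {a b : ℝ}

/-- **Finitely many coordinates cover the octant by directions with a margin.** -/
theorem coverDA0_32 (hN : NormP μ a b) (ha : 0 < a) : ∃ (N : ℕ) (K q₀ : ℝ), 0 < K ∧ 0 < q₀ ∧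
    ∀ z : Fin 2 → ℝ, μ z = 1 → 0 ≤ z 1 → z 1 ≤ z 0 →
    ∃ j : ℕ, j ≤ N + 1 ∧ ∃ d ∈ DA0 μ (coOf N j) a b K q₀, d.h1 * z 0 + d.h2 * z 1 = μ z ∧
      d.v = (coOf N j).L * psR (coOf N j) z / tmR (coOf N j) z := by
  obtain ⟨N, K, hK, h⟩ := cover_gen32 hN ha (m := a / 4) (by positivity) (by linarith)
  have hNp : (0 : ℝ) < (N : ℝ) + 1 := by positivity
  refine ⟨N, K, a / (N + 1), hK, by positivity, fun z hz hz1 hz0 => ?_⟩
  obtain ⟨j, hj, d, hd, h1, h2, h3, h4, h5, h6⟩ := h z hz hz1 hz0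
  refine ⟨j, hj, d, ⟨hd, h1, ?_, ?_⟩, h5, h6⟩
  · refine le_trans ?_ h3
    rw [div_le_iff₀ hNp]
    have : (0 : ℝ) ≤ N := Nat.cast_nonneg N
    nlinarith
  · rcases h4 with h4 | h4
    · subst h4
      exact Or.inr (coOf_zero32 N)
    · exact Or.inl h4

end Pool.Agent.W_1b8d5d_p
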