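import Pool.Agent.W_1b8d5d_p.DubD66
import Pool.Agent.W_1b8d5d_p.SlDefs

/-!
MP_1b8d5d_pr, Track P2 (B5): balanced caps and the halving of the caps imply the one-sided doubling of the tilted shape
function. (helper66)
-/

set_option autoImplicit false

namespace Pool.Agent.W_1b8d5d_p

open MeasureTheory Set
open Pool.Agent.W_1b8d5d_h4p (LawH)

noncomputable section

/-- **(BALANCE)**: the two sides of the caps are comparable at all scales. -/
def BalP (a : ℝ) (F : Fm) (A : Set Dr) : Prop :=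
  ∃ (M0 : ℝ) (x₁ : ℕ), ∀ d ∈ A, ∀ x : ℕ, x₁ ≤ x →
    vl a F d (2 ^ x) ≤ M0 * vr a F d (2 ^ x) ∧ vr a F d (2 ^ x) ≤ M0 * vl a F d (2 ^ x)

/-- (BALANCE) at all small heights. -/
def BalH (F : Fm) (A : Set Dr) : Prop :=
  ∃ M t₀ : ℝ, 0 < M ∧ 0 < t₀ ∧ ∀ d ∈ A, ∀ t : ℝ, 0 < t → t ≤ t₀ →
    wL (J F d) t ≤ M * wR (J F d) t ∧ wR (J F d) t ≤ M * wL (J F d) t

/-- The halving of the caps (the conclusion of `halving_allP`). -/
def HalvP (F : Fm) (A : Set Dr) : Prop :=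
  ∃ θ t₀ : ℝ, 0 < θ ∧ θ ≤ 1 ∧ 0 < t₀ ∧ ∀ d ∈ A, ∀ t : ℝ, 0 < t → t ≤ t₀ →
    wd (J F d) (θ * t) ≤ wd (J F d) t / 2

variable {F : Fm} {κ K a c0 C0 : ℝ} {A A' : Set Dr} {d : Dr}

theorem Dirs.mono_set (h : Dirs F κ K A) (hA : A' ⊆ A) : Dirs F κ K A' where
  adm := fun d hd => h.adm d (hA hd)
  slope := fun d hd => h.slope d (hA hd)
  touch := fun d hd => h.touch d (hA hd)
  nc := fun ε hε => by
    obtain ⟨δ, h1, h2⟩ := h.nc ε hε
    exact ⟨δ, h1, fun d hd => h2 d (hA hd)⟩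
  strict := fun r hr => by
    obtain ⟨j, h1, h2⟩ := h.strict r hr
    exact ⟨j, h1, fun d hd => h2 d (hA hd)⟩

theorem HalvP.mono_set (h : HalvP F A) (hA : A' ⊆ A) : HalvP F A' := by
  obtain ⟨θ, t₀, h1, h2, h3, h4⟩ := h
  exact ⟨θ, t₀, h1, h2, h3, fun d hd => h4 d (hA hd)⟩

/-- From the scales to all heights. -/
theorem BalP.heights (h : BalP a F A) (hD : Dirs F κ K A) (hR : Rate F A) (ha : 0 < a) : BalH F A := by
  obtain ⟨M0, x₁, hB⟩ := h
  have hCr := Cr_pos F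
  refine ⟨2 * max M0 1, a * Cr F / 2 ^ x₁, by positivity, by positivity, fun d hd t ht htt => ?_⟩
  have hrf := hD.rf hd
  obtain ⟨s, hs⟩ : ∃ s : ℕ → ℝ, s = fun x => a * EE F d (2 ^ x) / ((2 ^ x : ℕ) : ℝ) := ⟨_, rfl⟩
  have hs' : ∀ x, s x = a * EE F d (2 ^ x) / 2 ^ x := by
    intro x
    rw [hs]
    push_cast
    rfl
  have hs0 : ∀ x, 0 < s x := fun x => by
    have := EE_pos F d (2 ^ x)
    rw [hs']
    positivity
  have hslow : ∀ x, s x ≤ 2 * s (x + 1) := by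
    intro x
    have h1 : EE F d (2 ^ x) ≤ EE F d (2 ^ (x + 1)) := EE_mono F d (Nat.pow_le_pow_right (by norm_num) (by omega))
    rw [hs', hs']
    have e : 2 * (a * EE F d (2 ^ (x + 1)) / 2 ^ (x + 1)) = a * EE F d (2 ^ (x + 1)) / 2 ^ x := by
      have e2 : (2 : ℝ) ^ (x + 1) = 2 ^ x * 2 := pow_succ _ _
      rw [e2]
      field_simp
    rw [e]
    exact div_le_div_of_nonneg_right (mul_le_mul_of_nonneg_left h1 ha.le) (by positivity)
  have hex : ∃ x, x₁ ≤ x ∧ s x < t := by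
    obtain ⟨n0, hn0⟩ := hR (t / (2 * a)) (by positivity)
    refine ⟨max x₁ n0, le_max_left _ _, ?_⟩
    have h1 : n0 ≤ 2 ^ (max x₁ n0) := (Nat.lt_two_pow_self).le.trans (Nat.pow_le_pow_right (by norm_num) (le_max_right _ _))
    have h2 := hn0 d hd _ h1
    push_cast at h2
    rw [hs', div_lt_iff₀ (by positivity)]
    calc a * EE F d (2 ^ max x₁ n0) ≤ a * (t / (2 * a) * 2 ^ max x₁ n0) := mul_le_mul_of_nonneg_left h2 ha.le
      _ = t * 2 ^ max x₁ n0 / 2 := by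
        field_simp
      _ < t * 2 ^ max x₁ n0 := by
        have : 0 < t * 2 ^ max x₁ n0 := by positivity
        linarith
  classical
  obtain ⟨x, hx, hmin⟩ : ∃ x, (x₁ ≤ x ∧ s x < t) ∧ ∀ y, y < x → ¬ (x₁ ≤ y ∧ s y < t) :=
    ⟨Nat.find hex, Nat.find_spec hex, fun y hy => Nat.find_min hex hy⟩
  have hx1 : x₁ < x := by
    rcases hx.1.lt_or_eq with h | h
    · exact h
    · exfalso
      have h1 := hx.2
      rw [← h] at h1
      have h2 : a * Cr F / 2 ^ x₁ ≤ s x₁ := by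
        rw [hs']
        exact div_le_div_of_nonneg_right (mul_le_mul_of_nonneg_left (Cr_le_EE F d _) ha.le) (by positivity)
      linarith
  obtain ⟨y, rfl⟩ : ∃ y, x = y + 1 := ⟨x - 1, by omega⟩
  have hy : t ≤ s y := by
    have h1 := hmin y (by omega)
    rw [not_and, not_lt] at h1
    exact h1 (by omega)
  have hyt : s y ≤ 2 * t := (hslow y).trans (by linarith [hx.2])
  have hb := hB d hd y (by omega)
  have e1 : vl a F d (2 ^ y) = wL (J F d) (s y) := by rw [hs]; rfl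
  have e2 : vr a F d (2 ^ y) = wR (J F d) (s y) := by rw [hs]; rfl
  rw [e1, e2] at hb
  have hL0 := hrf.wL_nonneg (hs0 y).le
  have hR0 := hrf.wR_nonneg (hs0 y).le
  have l1 : wL (J F d) t ≤ wL (J F d) (s y) := hrf.wL_mono ht.le hy
  have r1 : wR (J F d) t ≤ wR (J F d) (s y) := hrf.wR_mono ht.le hy
  have l2 : wL (J F d) (s y) ≤ 2 * wL (J F d) t :=
    (hrf.wL_mono (hs0 y).le hyt).trans (hrf.wL_mul ht.le one_le_two)
  have r2 : wR (J F d) (s y) ≤ 2 * wR (J F d) t :=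
    (hrf.wR_mono (hs0 y).le hyt).trans (hrf.wR_mul ht.le one_le_two)
  have m1 : M0 ≤ max M0 1 := le_max_left _ _
  have m0 : 0 < max M0 1 := lt_max_of_lt_right one_pos
  constructor
  · calc wL (J F d) t ≤ M0 * wR (J F d) (s y) := l1.trans hb.1
      _ ≤ max M0 1 * wR (J F d) (s y) := mul_le_mul_of_nonneg_right m1 hR0
      _ ≤ max M0 1 * (2 * wR (J F d) t) := mul_le_mul_of_nonneg_left r2 m0.le
      _ = 2 * max M0 1 * wR (J F d) t := by ring
  · calc wR (J F d) t ≤ M0 * wL (J F d) (s y) := r1.trans hb.2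
      _ ≤ max M0 1 * wL (J F d) (s y) := mul_le_mul_of_nonneg_right m1 hL0
      _ ≤ max M0 1 * (2 * wL (J F d) t) := mul_le_mul_of_nonneg_left l2 m0.le
      _ = 2 * max M0 1 * wL (J F d) t := by ring

/-- Doubling, for one rate function. -/
theorem dbl_aux {J : ℝ → ℝ} (h : Rf J) {θ t₀ M : ℝ} (hθ : 0 < θ) (hθ1 : θ ≤ 1)
    (hH : ∀ t, 0 < t → t ≤ t₀ → wd J (θ * t) ≤ wd J t / 2)
    (hM0 : 0 < M) (hM : ∀ t, 0 < t → t ≤ t₀ → wL J t ≤ M * wR J t ∧ wR J t ≤ M * wL J t) {k : ℕ}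
    (hk : 2 * (1 + M) ≤ 2 ^ k) {x : ℝ} (hx : 0 < J x) (hxt : J x ≤ θ ^ k * t₀) : J (2 * x) ≤ (1 / θ) ^ k * J x := by
  obtain ⟨t, rfl⟩ : ∃ t, t = J x := ⟨_, rfl⟩
  have hit : ∀ j ≤ k, wd J (J x) * 2 ^ j ≤ wd J ((1 / θ) ^ j * J x) := by
    intro j
    induction j with
    | zero => intro _; simp
    | succ j ih =>
      intro hj
      have h1 := ih (by omega)
      have hp : 0 < (1 / θ) ^ (j + 1) * J x := by positivity
      have h2 : (1 / θ) ^ (j + 1) * J x ≤ t₀ := by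
        have h3 : (1 / θ) ^ (j + 1) ≤ (1 / θ) ^ k := pow_le_pow_right₀ ((one_le_div hθ).2 hθ1) hj
        calc (1 / θ) ^ (j + 1) * J x ≤ (1 / θ) ^ k * (θ ^ k * t₀) := mul_le_mul h3 hxt hx.le (by positivity)
          _ = t₀ := by
            rw [← mul_assoc, ← mul_pow, one_div, inv_mul_cancel₀ hθ.ne', one_pow, one_mul]
      have h4 := hH _ hp h2
      have e1 : θ * ((1 / θ) ^ (j + 1) * J x) = (1 / θ) ^ j * J x := by
        rw [pow_succ]
        field_simp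
      rw [e1] at h4
      rw [pow_succ]
      linarith
  have h1 := hit k le_rfl
  set T := (1 / θ) ^ k * J x with hT
  have hT0 : 0 < T := by positivity
  have hTt : T ≤ t₀ := by
    rw [hT]
    calc (1 / θ) ^ k * J x ≤ (1 / θ) ^ k * (θ ^ k * t₀) := mul_le_mul_of_nonneg_left hxt (by positivity)
      _ = t₀ := by
        rw [← mul_assoc, ← mul_pow, one_div, inv_mul_cancel₀ hθ.ne', one_pow, one_mul]
  have hb := hM T hT0 hTt
  rw [Pool.Agent.W_1b8d5d_p66.wd_eq h hT0.le, Pool.Agent.W_1b8d5d_p66.wd_eq h hx.le] at h1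
  have hR0 := h.wR_nonneg hx.le
  have hL0 := h.wL_nonneg hx.le
  have hRT := h.wR_nonneg hT0.le
  have hLT := h.wL_nonneg hT0.le
  have key : ∀ u : ℝ, 0 ≤ u → u ≤ wR J (J x) + wL J (J x) → 2 * u * (1 + M) ≤ wR J T + wL J T := by
    intro u hu hu1
    have h2 : u * (2 * (1 + M)) ≤ (wR J (J x) + wL J (J x)) * 2 ^ k :=
      mul_le_mul hu1 hk (by positivity) (by linarith)
    linarith
  rcases le_total 0 x with h0 | h0
  · have h2 : x ≤ wR J (J x) := h.le_wR h0 le_rfl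
    have h3 := key x h0 (by linarith)
    have h4 : 2 * x * (1 + M) ≤ wR J T * (1 + M) := by linarith [hb.1]
    have h5 : 2 * x ≤ wR J T := le_of_mul_le_mul_right h4 (by positivity)
    exact (h.le_wR_iff hT0.le (by positivity)).1 h5
  · have h2 : -x ≤ wL J (J x) := by
      have := (h.level_iff hx.le).1 (le_refl (J x))
      linarith [this.1]
    have h3 := key (-x) (by linarith) (by linarith)
    have h4 : 2 * (-x) * (1 + M) ≤ wL J T * (1 + M) := by linarith [hb.2]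
    have h5 : 2 * (-x) ≤ wL J T := le_of_mul_le_mul_right h4 (by positivity)
    exact (h.level_iff hT0.le).2 ⟨by linarith, by linarith⟩

/-- **(BALANCE) and the halving of the caps imply the doubling.** -/
theorem dblP_of (hD : Dirs F κ K A) (hH : HalvP F A) (hB : BalH F A) : DblP F A := by
  obtain ⟨θ, t₀, hθ, hθ1, ht₀, hH⟩ := hH
  obtain ⟨M, t₁, hM, ht₁, hB⟩ := hB
  obtain ⟨k, hk⟩ : ∃ k : ℕ, 2 * (1 + M) < 2 ^ k := pow_unbounded_of_one_lt _ one_lt_two
  obtain ⟨δ, hδ, hnc⟩ := hD.nc 1 one_pos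
  have hm : 0 < min t₀ t₁ := lt_min ht₀ ht₁
  refine ⟨(1 / θ) ^ k, min δ (θ ^ k * min t₀ t₁), lt_min hδ (by positivity), fun d hd x hx => ?_⟩
  have hrf := hD.rf hd
  rcases eq_or_ne x 0 with rfl | hx0
  · simp [hrf.zero]
  · obtain ⟨j, hj, hj1⟩ := hD.strict |x| (abs_pos.2 hx0)
    have h1 : 0 < J F d x := (mul_pos hj (abs_pos.2 hx0)).trans_le (hj1 d hd x le_rfl)
    have h2 : J F d x ≤ θ ^ k * min t₀ t₁ := by
      have := hnc d hd x (hx.trans (min_le_left _ _))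
      have := hx.trans (min_le_right _ _)
      linarith
    exact dbl_aux hrf hθ hθ1 (fun t ht ht1 => hH d hd t ht (ht1.trans (min_le_left _ _))) hM
      (fun t ht ht1 => hB d hd t ht (ht1.trans (min_le_right _ _))) hk.le h1 h2

/-- From (BALANCE) at the scales. -/
theorem dblP_of_bal (hL : LawH F c0 C0) (hD : Dirs F κ K A) (ha : 0 < a) (hH : HalvP F A) (hB : BalP a F A) : DblP F A :=
  dblP_of hD hH (hB.heights hD (hD.rate hL) ha)

end

end Pool.Agent.W_1b8d5d_p
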