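import Pool.Agent.W_1b8d5d_h48.StepT
import Pool.Agent.W_1b8d5d_p.VMean
import Pool.Agent.W_1b8d5d_p.UnitV

/-!
# Track P2: the predicates of the comparison of two directions (helper14, helper48)
-/

namespace Pool.Agent.W_1b8d5d_p

open MeasureTheory
open Pool.Agent.W_1b8d5d_h85 (Env Edge)
open Pool.Agent.W_1b8d5d_h48 (CoreEv)

noncomputable section

/-- (B1) LANES AT EVERY SCALE: at the scale `n = 2 ^ x`, an event of probability at least `p`, of the weights in a tube of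
half width `R w n`, on which a displacement `(M, k)`, `M ≤ Cm n`, `|k - v M| ≤ C3 w n`, is lucky by `K EE n`. -/
def LaneP (a : ℝ) (F : Fm) (A : Set Dr) (C3 Cm : ℝ) : Prop :=
  ∀ K : ℝ, ∃ (p R : ℝ) (x1 : ℕ), 0 < p ∧ 0 ≤ R ∧ ∀ d ∈ A, ∀ x : ℕ, x1 ≤ x → ∃ (M : ℕ) (k : ℤ) (sl : ℝ) (E : Set Env)
    (D : Finset Edge), 1 ≤ M ∧ (M : ℝ) ≤ Cm * 2 ^ x ∧ |(k : ℝ) - d.v * M| ≤ C3 * (2 ^ x * vA a F d (2 ^ x)) ∧
      p ≤ (law F).real E ∧ CoreEv F d sl (R * (2 ^ x * vA a F d (2 ^ x))) (K * EE F d (2 ^ x)) M k E D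

/-- (B2) COMPARISON of the widths of two directions `d`, `d'` at the scales `2 ^ x ≤ 2 ^ x'`, if the unit of `d'` is at most a
multiple of the unit of `d` and the two linear forms differ by at most a multiple of the unit on the displacements of the
lanes. -/
def CmpP (a : ℝ) (F : Fm) (A : Set Dr) (C3 Cm : ℝ) : Prop :=
  ∀ C1 : ℝ, ∃ (C2 : ℝ) (x1 : ℕ), ∀ d ∈ A, ∀ d' ∈ A, ∀ x x' : ℕ, x1 ≤ x → x ≤ x' →
    EE F d' (2 ^ x') ≤ C1 * EE F d (2 ^ x) →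
    (∀ M k : ℝ, 0 ≤ M → M ≤ Cm * 2 ^ x → |k - d.v * M| ≤ C3 * (2 ^ x * vA a F d (2 ^ x)) →
      |(al F.co d' - al F.co d) * M + (be F.co d' - be F.co d) * k| ≤ C1 * EE F d (2 ^ x)) →
    2 ^ x' * vA a F d' (2 ^ x') ≤ C2 * (2 ^ x * vA a F d (2 ^ x))

end

end Pool.Agent.W_1b8d5d_p
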