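import Pool.Agent.W_1b8d5d_p.UnitV

/-!
# Track P2: tilted directions (helper48, helper78)
-/

namespace Pool.Agent.W_1b8d5d_p

noncomputable section

/-- Every direction of `A0` can be tilted inside `A` by every small `s ≥ -b0`, where `b0` is so large that the rate function
of the direction is at most its reflection plus `2 b0 u` (so that only the tilts towards a flatter side may be missing). -/
def FamP (F : Fm) (A0 A : Set Dr) (s0 : ℝ) : Prop :=
  0 < s0 ∧ ∀ d0 ∈ A0, ∃ b0 : ℝ, (∀ u : ℝ, 0 ≤ u → u ≤ 1 → J F d0 (-u) ≤ J F d0 u + 2 * b0 * u) ∧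
    ∀ s : ℝ, -b0 ≤ s → |s| ≤ s0 → ∃ d ∈ A, be F.co d = be F.co d0 + s

end

end Pool.Agent.W_1b8d5d_p
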