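import Pool.Agent.W_1b8d5d_p.BalFam78
import Pool.Agent.W_1b8d5d_p.BalCov32
import Pool.Agent.W_1b8d5d_p.BalDef48

/-!
MP_1b8d5d_pr, Track P2 (BALANCE): the family in the form of the numbers section, and the cover by the inner family. (helper78)
-/

set_option autoImplicit false

namespace Pool.Agent.W_1b8d5d_p

open MeasureTheory Set Filter Topology

noncomputable section

variable {μ : (Fin 2 → ℝ) → ℝ} {a b : ℝ}

/-- The form of the numbers section. -/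
theorem Fam.famP {F : Fm} {A A0 : Set Dr} {s0 : ℝ} (h : Fam F A A0 s0) : FamP F A0 A s0 := by
  refine ⟨h.pos, fun d0 hd0 => ?_⟩
  obtain ⟨b0, -, h1, h2⟩ := h.ax d0 hd0
  refine ⟨b0, fun u hu _ => h1 u hu, fun s hs1 hs2 => ?_⟩
  obtain ⟨d, hd, -, -, -, -, hbe, -⟩ := h2 s hs1 hs2
  exact ⟨d, hd, hbe⟩

/-- **The inner families cover the octant.** -/
theorem cover78 (hN : NormP μ a b) (ha : 0 < a) : ∃ (N : ℕ) (K q0 : ℝ), 0 < K ∧ 0 < q0 ∧ ∀ z : Fin 2 → ℝ, μ z = 1 →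
    0 ≤ z 1 → z 1 ≤ z 0 → ∃ j : ℕ, j ≤ N + 1 ∧ ∃ d ∈ DA0 μ (coOf N j) a b K q0, d.h1 * z 0 + d.h2 * z 1 = μ z ∧
      d.v = (coOf N j).L * psR (coOf N j) z / tmR (coOf N j) z := by
  obtain ⟨N, K, q0, hK, hq0, h⟩ := cover32 hN ha
  refine ⟨N, K, min q0 a, hK, lt_min hq0 ha, fun z hz hz1 hz0 => ?_⟩
  obtain ⟨j, hj, d, hd, h1, h2, h3, h4, h5, h6⟩ := h z hz hz1 hz0
  refine ⟨j, hj, d, ⟨hd, h1, (min_le_right _ _).trans h3, ?_⟩, h5, h6⟩
  rcases h4 with h4 | h4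
  · right
    rw [h4]
    exact coOf_zero78 N
  · left
    exact (min_le_left _ _).trans h4

end

end Pool.Agent.W_1b8d5d_p
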