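import Pool.Agent.W_1b8d5d_p.MainQ
import Pool.Agent.W_1b8d5d_p.BalDef14

/-!
# Track P2 (B1): lanes at every scale, in every direction (helper69)
-/

set_option autoImplicit false

namespace Pool.Agent.W_1b8d5d_p

open MeasureTheory
open Pool.Agent.W_1b8d5d_h4p (LawH Sf)
open Pool.Agent.W_1b8d5d_h48 (CoreEv)

variable {F : Fm} {κ K a c0 C0 : ℝ} {A : Set Dr}

/-- (B1) **Lanes at every scale**, uniformly in the direction. -/
theorem laneP_all69 (hL : LawH F c0 C0) (hg : Antitone F.g) (hκ : 0 < κ) (hD : Dirs F κ K A) (ha : 1 ≤ a) :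
    ∃ C3 Cm : ℝ, LaneP a F A C3 Cm := by
  obtain ⟨β, C, δ, T, L, x₁, -, -, hsoft, -, -, -⟩ := cone_allP hL hg hκ hD ha
  have ha0 : 0 < a := one_pos.trans_le ha
  obtain ⟨r, C3, -, -, hcore⟩ := coreHB_of_mid83 (mid83 hL) hg hD ha0 (hD.rate hL) (hD.grow_law hL) (lstarP_all hL hD ha0)
    (cheapP_all hL hD ha)
  refine ⟨C3, 1 + r, fun K' => ?_⟩
  obtain ⟨p, R, j, y0, hp, hR, h⟩ := hcore K' β
  refine ⟨p, R, max y0 x₁ + j, hp, hR, fun d hd x hx => ?_⟩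
  obtain ⟨y, rfl⟩ : ∃ y, x = y + j := ⟨x - j, by omega⟩
  have hy : max y0 x₁ ≤ y := by omega
  obtain ⟨k, E, D, hE, hpE, -, hk⟩ := h d hd y ((le_max_left _ _).trans hy) (hsoft d hd y ((le_max_right _ _).trans hy))
    (2 ^ (y + j)) rfl
  refine ⟨(1 + r) * 2 ^ (y + j), k, d.v / F.co.L, E, D, ?_, ?_, ?_, hpE, ?_⟩
  · exact Nat.succ_le_of_lt (Nat.mul_pos (by omega) (by positivity))
  · push_cast
    exact le_rfl
  · have h1 := hk
    push_cast at h1 ⊢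
    exact h1
  · have h1 := hE
    push_cast at h1 ⊢
    exact h1

end Pool.Agent.W_1b8d5d_p
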