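import Pool.Agent.W_1b8d5d_p.BalDef14
import Pool.Agent.W_1b8d5d_p.BalDef48
import Pool.Agent.W_1b8d5d_p.UnitR

/-!
# Track P2, (BALANCE): the two sides of the caps are comparable (helper48, after helper14)

The comparison of two directions `CmpP`, applied to a direction and a tilted one, bounds the ratio of the left and the right
width of the caps, at all scales and in all directions.
-/

namespace Pool.Agent.W_1b8d5d_p

open MeasureTheory Set

noncomputable section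

/-! ### Convex geometry of a tilt -/

/-- `K1` is `K0` recentred at `x` and tilted by the slope `s`. -/
def Tilt48 (K0 K1 : ℝ → ℝ) (x s : ℝ) : Prop := ∀ u : ℝ, K1 u = K0 (x + u) - K0 x - s * u

section Convex

variable {K0 K1 : ℝ → ℝ} {x s τ : ℝ}

theorem tilt_nn48 (h0 : Rf K0) (h1 : Rf K1) (hT : Tilt48 K0 K1 x s) : K0 x ≤ s * x := by
  have h2 := h1.nn (-x)
  rw [hT (-x), add_neg_cancel, h0.zero] at h2
  linarith

/-- The touching point is between `0` and the right width. -/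
theorem tilt_pos48 (h0 : Rf K0) (h1 : Rf K1) (hT : Tilt48 K0 K1 x s) (hs : 0 < s) : 0 ≤ x := by
  have h2 := tilt_nn48 h0 h1 hT
  have h3 := h0.nn x
  by_contra hcon
  push Not at hcon
  nlinarith

theorem tilt_le48 (h0 : Rf K0) (h1 : Rf K1) (hT : Tilt48 K0 K1 x s) (hs : 0 < s) (hτ : 0 < τ) (hr : 0 < wR K0 τ)
    (hsr : 2 * (s * wR K0 τ) ≤ τ) : x ≤ wR K0 τ := by
  by_contra hcon
  push Not at hcon
  have h2 := h0.J_ge hτ.le hr hcon.le
  have h3 := tilt_nn48 h0 h1 hT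
  have hx : 0 < x := hr.trans hcon
  have h4 : τ * (x / wR K0 τ) ≤ s * x := h2.trans h3
  have h5 : τ * (x / wR K0 τ) * wR K0 τ = τ * x := by field_simp
  have h6 : τ * x ≤ s * x * wR K0 τ := by
    rw [← h5]
    exact mul_le_mul_of_nonneg_right h4 hr.le
  nlinarith [mul_pos hτ hx]

/-- To the right, the tilted function is at least half the chord slope of `K0`. -/
theorem tilt_right48 (h0 : Rf K0) (h1 : Rf K1) (hT : Tilt48 K0 K1 x s) (hτ : 0 < τ) (hr : 0 < wR K0 τ)
    (hsr : 2 * (s * wR K0 τ) ≤ τ) (u : ℝ) : x + u ≤ wR K0 τ + 2 * wR K0 τ * (K1 u / τ) := by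
  set r := wR K0 τ with hrd
  have h2 : 0 ≤ 2 * r * (K1 u / τ) := mul_nonneg (by positivity) (div_nonneg (h1.nn u) hτ.le)
  rcases le_or_gt (x + u) r with h | h
  · linarith
  have h3 := h0.J_ge hτ.le hr h.le
  rw [← hrd] at h3
  have h4 := tilt_nn48 h0 h1 hT
  have h5 : K1 u = K0 (x + u) - K0 x - s * u := hT u
  have h6 : 0 < x + u := hr.trans h
  have h7 : s * (x + u) ≤ τ * ((x + u) / r) / 2 := by
    have : s * (x + u) * r ≤ τ * ((x + u) / r) / 2 * r := by
      have e1 : τ * ((x + u) / r) / 2 * r = τ * (x + u) / 2 := by field_simp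
      rw [e1]
      nlinarith
    exact le_of_mul_le_mul_right this hr
  have h8 : τ * ((x + u) / r) / 2 ≤ K1 u := by
    rw [h5]
    nlinarith
  have h9 : x + u ≤ 2 * r * (K1 u / τ) := by
    have e1 : x + u = 2 * r * (τ * ((x + u) / r) / 2 / τ) := by field_simp
    calc x + u = 2 * r * (τ * ((x + u) / r) / 2 / τ) := e1
      _ ≤ 2 * r * (K1 u / τ) := mul_le_mul_of_nonneg_left (div_le_div_of_nonneg_right h8 hτ.le) (by positivity)
  linarith

/-- The right width of the tilted function. -/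
theorem tilt_wR48 (h0 : Rf K0) (h1 : Rf K1) (hT : Tilt48 K0 K1 x s) (hs : 0 < s) (hτ : 0 < τ) (hr : 0 < wR K0 τ)
    (hsr : 2 * (s * wR K0 τ) ≤ τ) {b : ℝ} (hb : 0 ≤ b) : wR K1 b ≤ wR K0 τ + 2 * wR K0 τ * (b / τ) := by
  have h2 := tilt_right48 h0 h1 hT hτ hr hsr (wR K1 b)
  rw [h1.J_wR hb] at h2
  have h3 := tilt_pos48 h0 h1 hT hs
  linarith

/-- The left width of the tilted function. -/
theorem tilt_wL48 (h0 : Rf K0) (h1 : Rf K1) (hT : Tilt48 K0 K1 x s) (hs : 0 < s) (hτ : 0 < τ) (hr : 0 < wR K0 τ)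
    (hsr : 2 * (s * wR K0 τ) ≤ τ) {b : ℝ} (hb : 0 ≤ b) : wL K1 b ≤ b / s + wR K0 τ := by
  have h2 := h1.J_wL hb
  rw [hT] at h2
  have h3 := h0.nn (x + -wL K1 b)
  have h4 := tilt_nn48 h0 h1 hT
  have h5 := tilt_le48 h0 h1 hT hs hτ hr hsr
  have h6 : s * wL K1 b ≤ b + s * x := by linarith
  have h7 : wL K1 b ≤ (b + s * x) / s := by
    rw [le_div_iff₀ hs]
    linarith
  have h8 : (b + s * x) / s = b / s + x := by field_simp
  linarith

end Convex

/-! ### The mirror -/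

/-- The reflected function. -/
def mir48 (ρ : ℝ) (J : ℝ → ℝ) : ℝ → ℝ := fun x => J (ρ * x)

theorem mir_one48 (J : ℝ → ℝ) : mir48 1 J = J := by
  funext x
  simp [mir48]

theorem mir_neg48 (J : ℝ → ℝ) : mir48 (-1) J = fun x => J (-x) := by
  funext x
  simp [mir48]

theorem mir_rf48 {ρ : ℝ} (hρ : ρ = 1 ∨ ρ = -1) {J : ℝ → ℝ} (h : Rf J) : Rf (mir48 ρ J) := by
  rcases hρ with rfl | rfl
  · rwa [mir_one48]
  · rw [mir_neg48]
    exact h.neg

/-- The difference of the linear forms of two touching directions. -/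
theorem tilt_al48 {F : Fm} {d0 d : Dr} (h : Touch F d) :
    al F.co d - al F.co d0 = J F d0 (d.v - d0.v) - (be F.co d - be F.co d0) * d.v := by
  have h1 := h.zero
  unfold J at h1 ⊢
  rw [add_zero] at h1
  rw [add_sub_cancel]
  linarith

/-- The rate function of the tilted direction. -/
theorem tilt_of48 {F : Fm} {d0 d : Dr} (h : Touch F d) {ρ : ℝ} (hρ : ρ = 1 ∨ ρ = -1) :
    Tilt48 (mir48 ρ (J F d0)) (mir48 ρ (J F d)) (ρ * (d.v - d0.v)) (ρ * (be F.co d - be F.co d0)) := by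
  intro u
  have h1 := tilt_al48 (d0 := d0) h
  have hρ2 : ρ * ρ = 1 := by rcases hρ with rfl | rfl <;> norm_num
  unfold mir48
  have e1 : ρ * (ρ * (d.v - d0.v)) = d.v - d0.v := by rw [← mul_assoc, hρ2, one_mul]
  have e2 : ρ * (ρ * (d.v - d0.v) + u) = d.v - d0.v + ρ * u := by rw [mul_add, e1]
  rw [e1, e2]
  unfold J at h1 ⊢
  have e3 : d0.v + (d.v - d0.v + ρ * u) = d.v + ρ * u := by ring
  have e4 : d0.v + (d.v - d0.v) = d.v := by ring
  rw [e4] at h1
  rw [e3, e4]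
  linear_combination (-1 : ℝ) * h1

/-! ### The units -/

/-- The means of two directions. -/
theorem ep_cmp48 {F : Fm} {κ : ℝ} {d0 d : Dr} (h0 : Adm F κ d0) (h1 : Adm F κ d) {m : ℕ} (hm : 1 ≤ m) (y : ℤ) {D : ℝ}
    (hD0 : 0 ≤ D) (hD : (al F.co d - al F.co d0) * m + (be F.co d - be F.co d0) * y ≤ D) :
    ep F d0 m y ≤ ep F d m y + D := by
  have hi0 := X_integrable h0 0 hm y
  have hi1 := X_integrable h1 0 hm y
  have h2 : ep F d0 m y ≤ ∫ η, (max (X F d η 0 m y) 0 + D) ∂(law F) := by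
    refine integral_mono hi0.pos_part (hi1.pos_part.add (integrable_const _)) fun η => ?_
    have e1 : X F d0 η 0 m y = X F d η 0 m y + ((al F.co d - al F.co d0) * m + (be F.co d - be F.co d0) * y) := by
      unfold X
      ring
    refine max_le ?_ (add_nonneg (le_max_right _ _) hD0)
    simp only
    rw [e1]
    linarith [le_max_left (X F d η 0 m y) 0]
  rw [integral_add hi1.pos_part (integrable_const _), integral_const, probReal_univ, one_smul] at h2
  exact h2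

/-- The widths grow at least as the units. -/
theorem vA_ge48 {F : Fm} {κ K a : ℝ} {A : Set Dr} (hD : Dirs F κ K A) (ha : 0 < a) {d : Dr} (hd : d ∈ A) {n k : ℕ}
    (hn : 1 ≤ n) (hk : 1 ≤ k) : vA a F d n * EE F d (k * n) ≤ k * vA a F d (k * n) * EE F d n := by
  have hn0 : (0 : ℝ) < n := by exact_mod_cast hn
  have hk0 : (0 : ℝ) < k := by exact_mod_cast hk
  have hE := EE_pos F d n
  have hE' := EE_pos F d (k * n)
  have h1 := EE_mul F d n hk
  set t : ℝ := k * EE F d n / EE F d (k * n) with ht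
  have ht1 : 1 ≤ t := (one_le_div hE').2 h1
  have hlev : a * EE F d n / n = t * (a * EE F d (k * n) / ((k * n : ℕ) : ℝ)) := by
    rw [ht]
    push_cast
    field_simp
  have h2 := (hD.rf hd).wR_mul (lev_nonneg (F := F) (d := d) (n := k * n) ha.le) ht1
  have h3 := (hD.rf hd).wL_mul (lev_nonneg (F := F) (d := d) (n := k * n) ha.le) ht1
  rw [← hlev] at h2 h3
  have h4 : vA a F d n ≤ t * vA a F d (k * n) := by
    unfold vA vr vl
    rw [mul_add]
    exact add_le_add h2 h3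
  have h5 := mul_le_mul_of_nonneg_right h4 hE'.le
  have h6 : t * vA a F d (k * n) * EE F d (k * n) = k * vA a F d (k * n) * EE F d n := by
    rw [ht]
    field_simp
  linarith

/-- The total width does not see the mirror. -/
theorem mir_w48 {ρ : ℝ} (hρ : ρ = 1 ∨ ρ = -1) (J : ℝ → ℝ) (b : ℝ) :
    wR (mir48 ρ J) b + wL (mir48 ρ J) b = wR J b + wL J b := by
  rcases hρ with rfl | rfl
  · rw [mir_one48]
  · rw [mir_neg48]
    have e1 : wR (fun x => J (-x)) b = wL J b := rfl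
    have e2 : wL (fun x => J (-x)) b = wR J b := by
      unfold wL
      simp only [neg_neg]
    rw [e1, e2, add_comm]

variable {F : Fm} {κ K a C3 Cm : ℝ} {A A0 : Set Dr}

/-- The unit of the tilted direction is not much smaller. -/
theorem bal_unit48 (hD : Dirs F κ K A) (ha : 1 ≤ a) {d0 d : Dr} (h0 : d0 ∈ A) (h1 : d ∈ A) {ρ : ℝ} (hρ : ρ = 1 ∨ ρ = -1)
    {n : ℕ} (hn : 1 ≤ n) {s τ : ℝ} (hs : 0 < s) (hsd : ρ * (be F.co d - be F.co d0) = s) (hτ : τ = a * EE F d0 n / n)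
    (hr : 0 < wR (mir48 ρ (J F d0)) τ) (hsr : 2 * (s * wR (mir48 ρ (J F d0)) τ) ≤ τ) (hle : EE F d n ≤ EE F d0 n) :
    EE F d0 n ≤ EE F d n + 4 * (n * (s * wR (mir48 ρ (J F d0)) τ)) := by
  have hT := tilt_of48 (d0 := d0) (hD.touch d h1) hρ
  rw [hsd] at hT
  have hρ2 : ρ * ρ = 1 := by rcases hρ with rfl | rfl <;> norm_num
  have hn0 : (0 : ℝ) < n := by exact_mod_cast hn
  have hE := EE_pos F d0 n
  have hτ0 : 0 < τ := by rw [hτ]; positivity
  have R0 := mir_rf48 hρ (hD.rf h0)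
  have R1 := mir_rf48 hρ (hD.rf h1)
  set K0 := mir48 ρ (J F d0) with hK0
  set K1 := mir48 ρ (J F d) with hK1
  set r := wR K0 τ with hrd
  set x := ρ * (d.v - d0.v) with hx
  have hx0 := tilt_pos48 R0 R1 hT hs
  have hxr := tilt_le48 R0 R1 hT hs hτ0 hr hsr
  have hKx := tilt_nn48 R0 R1 hT
  have hbe : be F.co d - be F.co d0 = ρ * s := by
    rw [← hsd, ← mul_assoc, hρ2, one_mul]
  refine EE_le F d0 fun m hm => ?_
  have hD0 : 0 ≤ 4 * (n * (s * r)) := by positivity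
  rcases Nat.eq_zero_or_pos m with hm0 | hm0
  · rw [hm0, es_zero]
    linarith [Cr_le_EE F d n]
  obtain ⟨y, hy⟩ := es_attained (hD.adm d h1) m
  have hm1 : (0 : ℝ) < m := by exact_mod_cast hm0
  have hmn : (m : ℝ) ≤ n := by exact_mod_cast hm
  have h2 := e_lower F d hm0 y
  have h3 := e_le_ep F d hm0 y
  have h4 := le_EE F d hm
  have h5 := Cr_pos F
  set u := ρ * ((y : ℝ) / m - d.v) with hu
  have hKu : K1 u = J F d ((y : ℝ) / m - d.v) := by
    rw [hK1, hu]
    unfold mir48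
    rw [← mul_assoc, hρ2, one_mul]
  have h6 : m * K1 u ≤ EE F d0 n := by
    rw [hKu]
    linarith
  have h7 : m * (K1 u / τ) ≤ n := by
    rw [← mul_div_assoc, div_le_iff₀ hτ0, hτ]
    have e1 : (n : ℝ) * (a * EE F d0 n / n) = a * EE F d0 n := by field_simp
    rw [e1]
    have h8 : 1 * EE F d0 n ≤ a * EE F d0 n := mul_le_mul_of_nonneg_right ha hE.le
    linarith
  have h8 := tilt_right48 R0 R1 hT hτ0 hr hsr u
  have h9 : m * (x + u) ≤ 3 * (n * r) := by
    have h10 := mul_le_mul_of_nonneg_left h8 hm1.le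
    have h11 : m * (r + 2 * r * (K1 u / τ)) = m * r + 2 * r * (m * (K1 u / τ)) := by ring
    rw [← hrd] at h10
    rw [h11] at h10
    have h12 : m * r ≤ n * r := mul_le_mul_of_nonneg_right hmn hr.le
    have h13 : 2 * r * (m * (K1 u / τ)) ≤ 2 * r * n := mul_le_mul_of_nonneg_left h7 (by positivity)
    linarith
  have hmu : (y : ℝ) - d.v * m = m * (ρ * u) := by
    rw [hu, ← mul_assoc ρ ρ, hρ2, one_mul]
    field_simp
  have hJx : J F d0 (d.v - d0.v) = K0 x := by
    rw [hK0, hx]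
    unfold mir48
    rw [← mul_assoc, hρ2, one_mul]
  have hmain : (al F.co d - al F.co d0) * m + (be F.co d - be F.co d0) * y ≤ 4 * (n * (s * r)) := by
    rw [tilt_al48 (d0 := d0) (hD.touch d h1), hJx]
    have e1 : (K0 x - (be F.co d - be F.co d0) * d.v) * m + (be F.co d - be F.co d0) * y =
        m * K0 x + (be F.co d - be F.co d0) * (y - d.v * m) := by ring
    rw [e1, hmu, hbe]
    have e2 : ρ * s * (m * (ρ * u)) = s * (m * u) := by
      linear_combination (s * (m * u)) * hρ2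
    rw [e2]
    have h10 : m * K0 x ≤ n * (s * r) := by
      have h11 : K0 x ≤ s * r := hKx.trans (mul_le_mul_of_nonneg_left hxr hs.le)
      exact (mul_le_mul_of_nonneg_left h11 hm1.le).trans (mul_le_mul_of_nonneg_right hmn (by positivity))
    have h11 : s * (m * u) ≤ s * (3 * (n * r)) := by
      refine mul_le_mul_of_nonneg_left ?_ hs.le
      have h12 : 0 ≤ m * x := mul_nonneg hm1.le hx0
      have h13 : m * (x + u) = m * x + m * u := by ring
      linarith
    nlinarith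
  have h14 := ep_cmp48 (hD.adm d0 h0) (hD.adm d h1) hm0 y hD0 hmain
  have h15 := es_le F d0 m y
  linarith

/-- The width of the tilted direction. -/
theorem bal_width48 (hD : Dirs F κ K A) (ha : 1 ≤ a) {d0 d : Dr} (h0 : d0 ∈ A) (h1 : d ∈ A) {ρ : ℝ} (hρ : ρ = 1 ∨ ρ = -1)
    {n : ℕ} (hn : 1 ≤ n) {s τ : ℝ} (hs : 0 < s) (hsd : ρ * (be F.co d - be F.co d0) = s) (hτ : τ = a * EE F d0 n / n)
    (hr : 0 < wR (mir48 ρ (J F d0)) τ) (hsr : 2 * (s * wR (mir48 ρ (J F d0)) τ) ≤ τ) :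
    vA a F d n ≤ 2 * wR (mir48 ρ (J F d0)) τ * (1 + EE F d n / EE F d0 n) + a * EE F d n / n / s := by
  have hT := tilt_of48 (d0 := d0) (hD.touch d h1) hρ
  rw [hsd] at hT
  have hn0 : (0 : ℝ) < n := by exact_mod_cast hn
  have hE := EE_pos F d0 n
  have hτ0 : 0 < τ := by rw [hτ]; positivity
  have R0 := mir_rf48 hρ (hD.rf h0)
  have R1 := mir_rf48 hρ (hD.rf h1)
  have hb : 0 ≤ a * EE F d n / n := lev_nonneg (by linarith)
  have h2 := tilt_wR48 R0 R1 hT hs hτ0 hr hsr hb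
  have h3 := tilt_wL48 R0 R1 hT hs hτ0 hr hsr hb
  have h4 := mir_w48 hρ (J F d) (a * EE F d n / n)
  have e1 : a * EE F d n / n / τ = EE F d n / EE F d0 n := by
    rw [hτ]
    field_simp
  rw [e1] at h2
  have e2 : vA a F d n = wR (J F d) (a * EE F d n / n) + wL (J F d) (a * EE F d n / n) := rfl
  rw [e2, ← h4]
  nlinarith

/-- The linear forms of the two directions on the displacements of the lanes. -/
theorem bal_form48 (hD : Dirs F κ K A) {d0 d : Dr} (h0 : d0 ∈ A) (h1 : d ∈ A) {ρ : ℝ} (hρ : ρ = 1 ∨ ρ = -1)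
    {s τ : ℝ} (hs : 0 < s) (hsd : ρ * (be F.co d - be F.co d0) = s) (hτ : 0 < τ)
    (hr : 0 < wR (mir48 ρ (J F d0)) τ) (hsr : 2 * (s * wR (mir48 ρ (J F d0)) τ) ≤ τ) {M k : ℝ} (hM : 0 ≤ M) :
    |(al F.co d0 - al F.co d) * M + (be F.co d0 - be F.co d) * k| ≤
      M * (s * wR (mir48 ρ (J F d0)) τ) + s * |k - d.v * M| := by
  have hT := tilt_of48 (d0 := d0) (hD.touch d h1) hρ
  rw [hsd] at hT
  have hρ2 : ρ * ρ = 1 := by rcases hρ with rfl | rfl <;> norm_num
  have R0 := mir_rf48 hρ (hD.rf h0)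
  have R1 := mir_rf48 hρ (hD.rf h1)
  have hxr := tilt_le48 R0 R1 hT hs hτ hr hsr
  have hKx := tilt_nn48 R0 R1 hT
  have hKn := R0.nn (ρ * (d.v - d0.v))
  have hbe : be F.co d - be F.co d0 = ρ * s := by
    rw [← hsd, ← mul_assoc, hρ2, one_mul]
  have hJx : J F d0 (d.v - d0.v) = mir48 ρ (J F d0) (ρ * (d.v - d0.v)) := by
    unfold mir48
    rw [← mul_assoc, hρ2, one_mul]
  have e1 : (al F.co d0 - al F.co d) * M + (be F.co d0 - be F.co d) * k =
      -(M * mir48 ρ (J F d0) (ρ * (d.v - d0.v)) + ρ * s * (k - d.v * M)) := by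
    have h2 := tilt_al48 (d0 := d0) (hD.touch d h1)
    rw [hJx, hbe] at h2
    have e2 : al F.co d0 - al F.co d = -(mir48 ρ (J F d0) (ρ * (d.v - d0.v)) - ρ * s * d.v) := by
      rw [← h2]
      ring
    have e3 : be F.co d0 - be F.co d = -(ρ * s) := by
      rw [← hbe]
      ring
    rw [e2, e3]
    ring
  rw [e1, abs_neg]
  refine (abs_add_le _ _).trans (add_le_add ?_ ?_)
  · rw [abs_mul, abs_of_nonneg hM, abs_of_nonneg hKn]
    exact mul_le_mul_of_nonneg_left (hKx.trans (mul_le_mul_of_nonneg_left hxr hs.le)) hM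
  · rw [abs_mul, abs_mul, abs_of_pos hs]
    have : |ρ| = 1 := by rcases hρ with rfl | rfl <;> simp
    rw [this, one_mul]

/-- The scale at which the unit of `d0` is about `E`. -/
theorem bal_scale48 (hG : Grow F A) {d0 : Dr} (h0 : d0 ∈ A) {x : ℕ} {E : ℝ} (hE : EE F d0 (2 ^ x) ≤ 2 * E) :
    ∃ x' : ℕ, x ≤ x' ∧ EE F d0 (2 ^ x') ≤ 2 * E ∧ E ≤ 2 * EE F d0 (2 ^ x') := by
  rcases le_or_gt E (2 * EE F d0 (2 ^ x)) with h | h
  · exact ⟨x, le_rfl, hE, h⟩
  have hex : ∃ j : ℕ, E < EE F d0 (2 ^ (x + j)) := by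
    obtain ⟨n0, hn0⟩ := hG (E + 1)
    refine ⟨n0, ?_⟩
    have h2 : n0 ≤ 2 ^ (x + n0) := (Nat.lt_two_pow_self.le).trans (Nat.pow_le_pow_right (by norm_num) (by omega))
    have := hn0 d0 h0 _ h2
    linarith
  classical
  obtain ⟨hj, hmin⟩ : E < EE F d0 (2 ^ (x + Nat.find hex)) ∧ ∀ i < Nat.find hex, EE F d0 (2 ^ (x + i)) ≤ E :=
    ⟨Nat.find_spec hex, fun i hi => not_lt.1 (Nat.find_min hex hi)⟩
  set j := Nat.find hex with hjd
  have hEp := EE_pos F d0 (2 ^ x)
  have hj0 : j ≠ 0 := by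
    intro hj0
    rw [hj0, add_zero] at hj
    linarith
  obtain ⟨i, hi⟩ := Nat.exists_eq_succ_of_ne_zero hj0
  have h3 := hmin i (by omega)
  have h4 := EE_mul F d0 (2 ^ (x + i)) (k := 2) (by norm_num)
  have e1 : 2 * 2 ^ (x + i) = 2 ^ (x + j) := by
    rw [hi, Nat.succ_eq_add_one]
    ring
  rw [e1] at h4
  push_cast at h4
  refine ⟨x + i, by omega, ?_, by linarith⟩
  have h5 := EE_pos F d0 (2 ^ (x + i))
  linarith

/-- **One side.** A direction with one very flat side, tilted towards the other side, contradicts the comparison. -/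
theorem bal_side48 (hD : Dirs F κ K A) (ha : 1 ≤ a) (hG : Grow F A) (hC : CmpP a F A C3 Cm) :
    ∃ (B : ℝ) (x1 : ℕ), 1 ≤ B ∧ ∀ d0 ∈ A, ∀ d ∈ A, ∀ ρ : ℝ, (ρ = 1 ∨ ρ = -1) → ∀ x : ℕ, x1 ≤ x → ∀ τ t : ℝ,
      t = EE F d0 (2 ^ x) / 2 ^ x → τ = a * EE F d0 (2 ^ x) / 2 ^ x →
      0 < wR (mir48 ρ (J F d0)) τ → 0 < wL (mir48 ρ (J F d0)) τ →
      ρ * (be F.co d - be F.co d0) = 4 * B * t / wL (mir48 ρ (J F d0)) τ →
      wL (mir48 ρ (J F d0)) τ < 64 * B * wR (mir48 ρ (J F d0)) τ := by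
  obtain ⟨C2', x1, hC2⟩ := hC (2 + |Cm| + 2 * a * |C3|)
  set C2 := max C2' 1 with hC2d
  have hC21 : 1 ≤ C2 := le_max_right _ _
  have ha0 : 0 < a := by linarith
  have hB : 1 ≤ 2 * a * C2 := by nlinarith
  refine ⟨2 * a * C2, x1, hB, fun d0 h0 d h1 ρ hρ x hx τ t ht hτ hr hl hsd => ?_⟩
  set B := 2 * a * C2 with hBd
  by_contra hcon
  push Not at hcon
  set r := wR (mir48 ρ (J F d0)) τ with hrd
  set l := wL (mir48 ρ (J F d0)) τ with hld
  set n : ℕ := 2 ^ x with hnd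
  have hn : 1 ≤ n := Nat.one_le_two_pow
  have hn0 : (0 : ℝ) < n := by exact_mod_cast hn
  have hcast : ((2 : ℝ) ^ x) = (n : ℝ) := by rw [hnd]; push_cast; rfl
  set E0 := EE F d0 n with hE0d
  set E1 := EE F d n with hE1d
  have hE0 : 0 < E0 := EE_pos F d0 n
  have hE1 : 0 < E1 := EE_pos F d n
  have hB0 : 0 < B := by linarith
  rw [hcast] at ht hτ
  have ht0 : 0 < t := by rw [ht]; positivity
  have hτt : τ = a * t := by rw [hτ, ht]; ring
  have hτ0 : 0 < τ := by rw [hτt]; positivity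
  set s := 4 * B * t / l with hsdef
  have hs : 0 < s := by positivity
  have hsl : s * l = 4 * B * t := by rw [hsdef]; field_simp
  have hnt : n * t = E0 := by rw [ht]; field_simp
  -- `s r ≤ t / 16`
  have hsr1 : s * r ≤ t / 16 := by
    have h2 : s * (64 * B * r) ≤ s * l := mul_le_mul_of_nonneg_left hcon hs.le
    rw [hsl] at h2
    have h3 : B * (16 * (s * r)) ≤ B * t := by linarith
    have := le_of_mul_le_mul_left h3 hB0
    linarith
  have hta : t ≤ τ := by
    rw [hτt]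
    nlinarith
  have hsr : 2 * (s * r) ≤ τ := by linarith
  have hnsr : n * (s * r) ≤ E0 / 16 := by
    have := mul_le_mul_of_nonneg_left hsr1 hn0.le
    have e1 : (n : ℝ) * (t / 16) = n * t / 16 := by ring
    rw [e1, hnt] at this
    exact this
  -- the unit
  have hu : E0 ≤ 2 * E1 := by
    rcases le_or_gt E1 E0 with h | h
    · have := bal_unit48 hD ha h0 h1 hρ hn hs hsd hτ hr hsr h
      rw [← hrd, ← hE0d, ← hE1d] at this
      linarith
    · linarith
  -- the width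
  have hW : vA a F d n * E0 ≤ E1 * l * (a / (2 * B)) := by
    have h2 := bal_width48 hD ha h0 h1 hρ hn hs hsd hτ hr hsr
    rw [← hrd, ← hE0d, ← hE1d] at h2
    have h3 : (2 * r * (1 + E1 / E0) + a * E1 / n / s) * E0 = 2 * r * (E0 + E1) + E1 * l * (a / (4 * B)) := by
      have e1 : a * E1 / n / s * E0 = E1 * l * (a / (4 * B)) := by
        rw [hsdef, ht]
        field_simp
      rw [add_mul, e1]
      field_simp
    have h4 := mul_le_mul_of_nonneg_right h2 hE0.le
    rw [h3] at h4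
    have h5 : r ≤ l / (64 * B) := by
      rw [le_div_iff₀ (by positivity)]
      linarith
    have h6 : 2 * r * (E0 + E1) ≤ 2 * (l / (64 * B)) * (3 * E1) :=
      mul_le_mul (by linarith) (by linarith) (by positivity) (by positivity)
    have h7 : 2 * (l / (64 * B)) * (3 * E1) ≤ E1 * l * (a / (4 * B)) := by
      have e1 : 2 * (l / (64 * B)) * (3 * E1) = E1 * l * (6 / 16 * (1 / (4 * B))) := by
        field_simp
        ring
      have e2 : E1 * l * (a / (4 * B)) = E1 * l * (a * (1 / (4 * B))) := by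
        field_simp
      rw [e1, e2]
      refine mul_le_mul_of_nonneg_left ?_ (by positivity)
      exact mul_le_mul_of_nonneg_right (by linarith) (by positivity)
    have h8 : E1 * l * (a / (2 * B)) = E1 * l * (a / (4 * B)) + E1 * l * (a / (4 * B)) := by
      field_simp
      ring
    linarith
  have hvn : 0 ≤ vA a F d n := add_nonneg (hD.vr_nonneg h1 ha0.le n) (hD.vl_nonneg h1 ha0.le n)
  -- `s n vA ≤ 2 a E1`
  have hsv : s * (n * vA a F d n) ≤ 2 * a * E1 := by
    have e1 : s * (n * vA a F d n) = 4 * B / l * (vA a F d n * E0) := by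
      rw [hsdef, ← hnt]
      field_simp
    rw [e1]
    have h2 : 4 * B / l * (vA a F d n * E0) ≤ 4 * B / l * (E1 * l * (a / (2 * B))) :=
      mul_le_mul_of_nonneg_left hW (by positivity)
    refine h2.trans (le_of_eq ?_)
    field_simp
    ring
  -- the scale
  obtain ⟨x', hxx, hE'1, hE'2⟩ := bal_scale48 hG h0 (x := x) (E := E1) (by
    rw [← hnd, ← hE0d]
    exact hu)
  have hcm := abs_nonneg Cm
  have hc3 := abs_nonneg C3
  have hK := hC2 d h1 d0 h0 x x' hx hxx (by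
    rw [← hnd, ← hE1d]
    refine hE'1.trans (mul_le_mul_of_nonneg_right ?_ hE1.le)
    have : 0 ≤ 2 * a * |C3| := by positivity
    linarith) (by
    intro M k hM0 hM hk
    rw [← hnd, ← hE1d]
    rw [hcast] at hM hk
    rw [← hnd] at hk
    refine (bal_form48 hD h0 h1 hρ hs hsd hτ0 hr hsr hM0).trans ?_
    rw [← hrd]
    have hsr0 : 0 ≤ s * r := by positivity
    have h2 : M * (s * r) ≤ |Cm| * (E0 / 16) := by
      have h3 : M ≤ |Cm| * n := hM.trans (mul_le_mul_of_nonneg_right (le_abs_self _) hn0.le)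
      have h4 := mul_le_mul_of_nonneg_right h3 hsr0
      have h5 : |Cm| * n * (s * r) = |Cm| * (n * (s * r)) := by ring
      rw [h5] at h4
      exact h4.trans (mul_le_mul_of_nonneg_left hnsr hcm)
    have h3 : s * |k - d.v * M| ≤ |C3| * (2 * a * E1) := by
      have h4 : |k - d.v * M| ≤ |C3| * (n * vA a F d n) :=
        hk.trans (mul_le_mul_of_nonneg_right (le_abs_self _) (mul_nonneg hn0.le hvn))
      have h5 := mul_le_mul_of_nonneg_left h4 hs.le
      have h6 : s * (|C3| * (n * vA a F d n)) = |C3| * (s * (n * vA a F d n)) := by ring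
      rw [h6] at h5
      exact h5.trans (mul_le_mul_of_nonneg_left hsv hc3)
    have h4 : |Cm| * (E0 / 16) ≤ |Cm| * E1 := mul_le_mul_of_nonneg_left (by linarith) hcm
    nlinarith)
  -- the width of `d0` at the scale `x'`
  have hg := vA_ge48 hD ha0 h0 (n := n) (k := 2 ^ (x' - x)) hn Nat.one_le_two_pow
  have e1 : 2 ^ (x' - x) * n = 2 ^ x' := by
    rw [hnd, ← pow_add]
    congr 1
    omega
  rw [e1] at hg
  push_cast at hg
  have hl2 : l ≤ vA a F d0 n := by
    have h2 := mir_w48 hρ (J F d0) (a * EE F d0 n / n)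
    have e2 : vA a F d0 n = wR (J F d0) (a * EE F d0 n / n) + wL (J F d0) (a * EE F d0 n / n) := rfl
    rw [e2, ← h2, ← hE0d, ← hτ, ← hrd, ← hld]
    linarith
  set E' := EE F d0 (2 ^ x') with hE'd
  set V' := vA a F d0 (2 ^ x') with hV'd
  rw [hcast, ← hnd] at hK
  -- `n l E' ≤ 2 ^ x' V' E0`
  have h2 : n * (l * E') ≤ 2 ^ x' * V' * E0 := by
    have h3 : l * E' ≤ vA a F d0 n * E' := mul_le_mul_of_nonneg_right hl2 (EE_pos F d0 _).le
    have h4 := mul_le_mul_of_nonneg_left (h3.trans hg) hn0.le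
    refine h4.trans (le_of_eq ?_)
    have h5 : (n : ℝ) * 2 ^ (x' - x) = 2 ^ x' := by
      rw [← hcast, ← pow_add]
      congr 1
      omega
    rw [← h5, hE0d]
    ring
  have hK' : 2 ^ x' * V' ≤ C2 * (n * vA a F d n) :=
    hK.trans (mul_le_mul_of_nonneg_right (le_max_left _ _) (mul_nonneg hn0.le hvn))
  have h3 : 2 ^ x' * V' * E0 ≤ C2 * (n * (E1 * l * (a / (2 * B)))) := by
    have h4 := mul_le_mul_of_nonneg_right hK' hE0.le
    have h5 : C2 * (n * vA a F d n) * E0 = C2 * (n * (vA a F d n * E0)) := by ring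
    rw [h5] at h4
    exact h4.trans (mul_le_mul_of_nonneg_left (mul_le_mul_of_nonneg_left hW hn0.le) (by linarith))
  have h4 : C2 * (n * (E1 * l * (a / (2 * B)))) = n * (l * (E1 / 4)) := by
    rw [hBd]
    field_simp
    ring
  have h5 : n * (l * (E1 / 4)) < n * (l * E') := by
    refine mul_lt_mul_of_pos_left (mul_lt_mul_of_pos_left ?_ hl) hn0
    linarith
  linarith

/-- The widths of the caps are small, and so are the chord slopes. -/
theorem bal_small48 (hD : Dirs F κ K A) (ha : 1 ≤ a) (hR : Rate F A) {ε : ℝ} (hε : 0 < ε) :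
    ∃ x1 : ℕ, ∀ d ∈ A, ∀ x : ℕ, x1 ≤ x → ∀ τ : ℝ, τ = a * EE F d (2 ^ x) / 2 ^ x → 0 < τ ∧
      0 < wR (J F d) τ ∧ 0 < wL (J F d) τ ∧ wR (J F d) τ ≤ 1 ∧ wL (J F d) τ ≤ 1 ∧
      τ ≤ ε * wR (J F d) τ ∧ τ ≤ ε * wL (J F d) τ := by
  have ha0 : 0 < a := by linarith
  obtain ⟨δ', hδ', hnc'⟩ := hD.nc ε hε
  obtain ⟨δ, hδ, hδ1, hnc⟩ : ∃ δ : ℝ, 0 < δ ∧ δ ≤ 1 ∧ ∀ d ∈ A, ∀ x : ℝ, |x| ≤ δ → J F d x ≤ ε * |x| :=
    ⟨min δ' 1, lt_min hδ' one_pos, min_le_right _ _, fun d hd x hx => hnc' d hd x (hx.trans (min_le_left _ _))⟩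
  obtain ⟨j, hj, hst⟩ := hD.strict δ hδ
  obtain ⟨n0, hn0⟩ := hR (j * δ / (2 * a)) (by positivity)
  refine ⟨n0, fun d hd x hx τ hτ => ?_⟩
  have R := hD.rf hd
  have hE := EE_pos F d (2 ^ x)
  have hp : (0 : ℝ) < 2 ^ x := by positivity
  have hτ0 : 0 < τ := by rw [hτ]; positivity
  have h1 : n0 ≤ 2 ^ x := hx.trans Nat.lt_two_pow_self.le
  have h2 := hn0 d hd _ h1
  push_cast at h2
  have h3 : τ ≤ j * δ / 2 := by
    rw [hτ, div_le_iff₀ hp]
    have h4 := mul_le_mul_of_nonneg_left h2 ha0.le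
    have h5 : a * (j * δ / (2 * a) * 2 ^ x) = j * δ / 2 * 2 ^ x := by field_simp
    linarith
  have h4 : τ < j * δ := by
    have : 0 < j * δ := by positivity
    linarith
  have key : ∀ w : ℝ, 0 ≤ w → (J F d w = τ ∨ J F d (-w) = τ) → 0 < w ∧ w ≤ δ ∧ τ ≤ ε * w := by
    intro w hw hJ
    have hw0 : 0 < w := by
      rcases hw.eq_or_lt with h | h
      · rw [← h, neg_zero, R.zero] at hJ
        rcases hJ with h | h <;> linarith
      · exact h
    have hwδ : w ≤ δ := by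
      by_contra hcon
      push Not at hcon
      have h5 := hst d hd w (by rw [abs_of_pos hw0]; exact hcon.le)
      have h6 := hst d hd (-w) (by rw [abs_neg, abs_of_pos hw0]; exact hcon.le)
      rw [abs_neg] at h6
      rw [abs_of_pos hw0] at h5 h6
      have h7 : j * δ < j * w := mul_lt_mul_of_pos_left hcon hj
      rcases hJ with h | h <;> linarith
    refine ⟨hw0, hwδ, ?_⟩
    have h5 := hnc d hd w (by rw [abs_of_pos hw0]; exact hwδ)
    have h6 := hnc d hd (-w) (by rw [abs_neg, abs_of_pos hw0]; exact hwδ)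
    rw [abs_neg] at h6
    rw [abs_of_pos hw0] at h5 h6
    rcases hJ with h | h <;> linarith
  obtain ⟨a1, a2, a3⟩ := key _ (R.wR_nonneg hτ0.le) (Or.inl (R.J_wR hτ0.le))
  obtain ⟨b1, b2, b3⟩ := key _ (R.wL_nonneg hτ0.le) (Or.inr (R.J_wL hτ0.le))
  exact ⟨hτ0, a1, b1, a2.trans hδ1, b2.trans hδ1, a3, b3⟩

/-- **(BALANCE).** The two sides of the caps are comparable, at all scales and uniformly in the direction. -/
theorem bal_all (hD : Dirs F κ K A) (ha : 1 ≤ a) (hR : Rate F A) (hG : Grow F A) (hA : A0 ⊆ A) {s0 : ℝ}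
    (hF : FamP F A0 A s0) (hC : CmpP a F A C3 Cm) : ∃ (M0 : ℝ) (x1 : ℕ), 0 < M0 ∧ ∀ d ∈ A0, ∀ x : ℕ, x1 ≤ x →
      vl a F d (2 ^ x) ≤ M0 * vr a F d (2 ^ x) ∧ vr a F d (2 ^ x) ≤ M0 * vl a F d (2 ^ x) := by
  obtain ⟨B, x1, hB, hside⟩ := bal_side48 hD ha hG hC
  obtain ⟨hs0, hF⟩ := hF
  have hB0 : 0 < B := by linarith
  have ha0 : 0 < a := by linarith
  obtain ⟨x2, hsm⟩ := bal_small48 hD ha hR (ε := s0 / (4 * B)) (by positivity)
  refine ⟨64 * B, max x1 x2, by positivity, fun d0 hd0 x hx => ?_⟩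
  have h0 := hA hd0
  obtain ⟨b0, hb0, hfam⟩ := hF d0 hd0
  set τ : ℝ := a * EE F d0 (2 ^ x) / 2 ^ x with hτ
  set t : ℝ := EE F d0 (2 ^ x) / 2 ^ x with ht
  obtain ⟨hτ0, hr, hl, hr1, hl1, hr2, hl2⟩ := hsm d0 h0 x ((le_max_right _ _).trans hx) τ hτ
  have R := hD.rf h0
  have hx1 : x1 ≤ x := (le_max_left _ _).trans hx
  have hvr : vr a F d0 (2 ^ x) = wR (J F d0) τ := by
    unfold vr
    push_cast
    rfl
  have hvl : vl a F d0 (2 ^ x) = wL (J F d0) τ := by
    unfold vl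
    push_cast
    rfl
  have hE := EE_pos F d0 (2 ^ x)
  have ht0 : 0 < t := by rw [ht]; positivity
  have hτt : τ = a * t := by rw [hτ, ht]; ring
  have hta : t ≤ τ := by
    rw [hτt]
    nlinarith
  -- the slope of the tilt
  have hslope : ∀ w : ℝ, 0 < w → τ ≤ s0 / (4 * B) * w → 0 < 4 * B * t / w ∧ 4 * B * t / w ≤ s0 := by
    intro w hw h
    refine ⟨by positivity, ?_⟩
    rw [div_le_iff₀ hw]
    have h3 : 4 * B * t ≤ 4 * B * (s0 / (4 * B) * w) := mul_le_mul_of_nonneg_left (hta.trans h) (by positivity)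
    have h4 : 4 * B * (s0 / (4 * B) * w) = s0 * w := by field_simp
    linarith
  rw [hvr, hvl]
  set r := wR (J F d0) τ with hrd
  set l := wL (J F d0) τ with hld
  have hJr : J F d0 r = τ := R.J_wR hτ0.le
  have hJl : J F d0 (-l) = τ := R.J_wL hτ0.le
  constructor
  · by_contra hcon
    push Not at hcon
    obtain ⟨hsp, hs⟩ := hslope l hl hl2
    -- `b0 ≥ 0`
    have hb00 : 0 ≤ b0 := by
      by_contra hneg
      push Not at hneg
      obtain ⟨δ, hδ, hnc⟩ := hD.nc (-b0) (by linarith)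
      have hu : 0 < min δ 1 := lt_min hδ one_pos
      have h2 := hb0 (min δ 1) hu.le (min_le_right _ _)
      have h3 := hnc d0 h0 (min δ 1) (by rw [abs_of_pos hu]; exact min_le_left _ _)
      rw [abs_of_pos hu] at h3
      have h4 := R.nn (-min δ 1)
      nlinarith
    obtain ⟨d, hd, hbe⟩ := hfam (4 * B * t / l) (by linarith) (by rw [abs_of_pos hsp]; exact hs)
    have h3 := hside d0 h0 d hd 1 (Or.inl rfl) x hx1 τ t ht hτ (by rw [mir_one48]; exact hr) (by rw [mir_one48]; exact hl)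
      (by rw [mir_one48, hbe]; ring)
    rw [mir_one48] at h3
    linarith
  · by_contra hcon
    push Not at hcon
    obtain ⟨hsp, hs⟩ := hslope r hr hr2
    -- `4 B t / r ≤ b0`
    have hbb : 4 * B * t / r ≤ b0 := by
      have h2 := hb0 l hl.le hl1
      rw [hJl] at h2
      have h3 : l / r ≤ 1 / 64 := by
        rw [div_le_iff₀ hr]
        nlinarith
      have h4 := R.mul_le (t := l / r) (by positivity) (h3.trans (by norm_num)) r
      rw [div_mul_cancel₀ _ hr.ne', hJr] at h4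
      have h5 : l / r * τ ≤ 1 / 64 * τ := mul_le_mul_of_nonneg_right h3 hτ0.le
      have h6 : τ / 4 ≤ b0 * l := by linarith
      have h7 : τ / 4 * r ≤ b0 * l * r := mul_le_mul_of_nonneg_right h6 hr.le
      have h8 : 16 * B * τ * l ≤ b0 * r * l := by
        have h9 : τ / 4 * (64 * B * l) ≤ τ / 4 * r := mul_le_mul_of_nonneg_left hcon.le (by positivity)
        nlinarith
      have h9 : 16 * B * τ ≤ b0 * r := le_of_mul_le_mul_right h8 hl
      rw [div_le_iff₀ hr]
      have h10 : B * t ≤ B * τ := mul_le_mul_of_nonneg_left hta hB0.le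
      nlinarith [mul_pos hB0 hτ0]
    obtain ⟨d, hd, hbe⟩ := hfam (-(4 * B * t / r)) (by linarith) (by rw [abs_neg, abs_of_pos hsp]; exact hs)
    have e1 : wR (mir48 (-1) (J F d0)) τ = l := by
      rw [mir_neg48]
      rfl
    have e2 : wL (mir48 (-1) (J F d0)) τ = r := by
      rw [mir_neg48, hrd]
      unfold wL
      simp only [neg_neg]
    have h3 := hside d0 h0 d hd (-1) (Or.inr rfl) x hx1 τ t ht hτ (by rw [e1]; exact hl) (by rw [e2]; exact hr)
      (by rw [e2, hbe]; ring)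
    rw [e1, e2] at h3
    linarith

end

end Pool.Agent.W_1b8d5d_p
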