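import Pool.Agent.W_1b8d5d_p.FrX
import Pool.Agent.W_1b8d5d_h85.FMuG

/-!
MP_1b8d5d_pr, Track P, the bridge (1): the frame of a law on `[a, b]`. The weights are `g (η e)` with `g x = max a (min b (-x))`
(antitone) and `η e` independent with the law of `-τ`.
-/

namespace Pool.Agent.W_1b8d5d_p

open MeasureTheory ProbabilityTheory Set
open Pool.Agent.W_1b8d5d_h85 hiding tm

variable {a b : ℝ} {ν : Measure ℝ}

/-- The weight as a function of the variable. -/
noncomputable def gcl (a b : ℝ) (x : ℝ) : ℝ := max a (min b (-x))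

theorem gcl_meas (a b : ℝ) : Measurable (gcl a b) := measurable_const.max (measurable_const.min measurable_neg)

theorem gcl_anti (a b : ℝ) : Antitone (gcl a b) := fun _ _ h =>
  max_le_max le_rfl (min_le_min le_rfl (neg_le_neg h))

/-- The frame of the law `ν`. -/
noncomputable def fmOf (co : Co) (ha : 0 < a) (h : Law a b ν) : Fm where
  co := co
  a := a
  b := b
  g := gcl a b
  nu := ν.map fun x => -x
  prob := by
    have := h.prob
    exact Measure.isProbabilityMeasure_map measurable_neg.aemeasurable
  a0 := ha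
  ab := h.lt.le
  mg := gcl_meas a b
  g1 := fun x => le_max_left _ _
  g2 := fun x => max_le h.lt.le (min_le_left _ _)

theorem fmOf_anti (co : Co) (ha : 0 < a) (h : Law a b ν) : Antitone (fmOf co ha h).g := gcl_anti a b

/-- The law of the weights. -/
theorem fmOf_map (co : Co) (ha : 0 < a) (h : Law a b ν) : (fmOf co ha h).nu.map (fmOf co ha h).g = ν := by
  show (ν.map fun x => -x).map (gcl a b) = ν
  rw [Measure.map_map (gcl_meas a b) measurable_neg]
  have h1 : ∀ᵐ x ∂ν, (gcl a b ∘ fun x => -x) x = id x := by
    have h2 : ∀ᵐ x ∂ν, x ∈ Set.Icc a b := mem_ae_iff.2 h.supp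
    filter_upwards [h2] with x hx
    simp only [Function.comp_apply, gcl, neg_neg, id_eq]
    rw [min_eq_right hx.2, max_eq_right hx.1]
  rw [Measure.map_congr h1, Measure.map_id]

/-- The law of the environment of weights. -/
theorem law_map_tau (F : Fm) : (law F).map F.tau = Measure.infinitePi fun _ : Edge => F.nu.map F.g := by
  have := Measure.infinitePi_map_pi (μ := fun _ : Edge => F.nu) (f := fun _ => F.g) (fun _ => F.mg)
  exact this

/-- Means of functions of the weights. -/
theorem int_env (co : Co) (ha : 0 < a) (h : Law a b ν) {Ω : Type} [MeasurableSpace Ω] {P : Measure Ω} {τ : Edge → Ω → ℝ}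
    (hτ : IsFPP ν P τ) {G : Env → ℝ} (hG : Measurable G) :
    ∫ ω, G (fun e => τ e ω) ∂P = ∫ η, G ((fmOf co ha h).tau η) ∂(law (fmOf co ha h)) := by
  have hP := hτ.prob
  have h1 : P.map (fun ω e => τ e ω) = Measure.infinitePi fun _ : Edge => ν := by
    rw [(iIndepFun_iff_map_fun_eq_infinitePi_map hτ.meas).1 hτ.indep]
    congr 1
    funext e
    exact hτ.law e
  have h2 := law_map_tau (fmOf co ha h)
  rw [show (fun _ : Edge => (fmOf co ha h).nu.map (fmOf co ha h).g) = fun _ => ν from
    funext fun _ => fmOf_map co ha h] at h2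
  rw [← integral_map (tau_meas _).aemeasurable hG.aestronglyMeasurable, h2, ← h1,
    integral_map (measurable_pi_iff.2 hτ.meas).aemeasurable hG.aestronglyMeasurable]

end Pool.Agent.W_1b8d5d_p
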