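import Pool.Agent.W_1b8d5d_p.BrLaw
import Pool.Agent.W_1b8d5d_p.Unit0

/-!
MP_1b8d5d_pr, Track P, the bridge (2): the time constant of the slab passage times is the time constant.
Geodesics stay in a ball, so the geodesics between successive points of a chain far from the two boundary lines are slab
walks.
-/

namespace Pool.Agent.W_1b8d5d_p

open MeasureTheory ProbabilityTheory Set Filter Topology
open Pool.Agent.W_1b8d5d_h85 hiding tm

section det

variable {c : Co} {α β : ℝ} {τ : Env}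

theorem vt_mul (c : Co) (j N : ℕ) (y : ℤ) : c.vt (((j * N : ℕ) : ℤ), (j : ℤ) * y) = j • c.vt ((N : ℤ), y) := by
  unfold Co.vt
  ext
  · rw [Prod.smul_fst, nsmul_eq_mul]
    push_cast
    ring
  · rw [Prod.smul_snd, nsmul_eq_mul]
    push_cast
    ring

/-- Geodesics far from the boundary lines are slab walks. -/
theorem TR_le_T (hτ : Bd α β τ) (hα : 0 < α) {s t : ℤ} {x y : V}
    (h1 : (c.L * s + 1 : ℝ) ≤ c.tm x - c.M * (β / α * nm (y - x)))
    (h2 : c.tm x + c.M * (β / α * nm (y - x)) ≤ (c.L * t - 1 : ℝ)) : TR (c.slab s t) τ x y ≤ T τ x y := by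
  have hM : (0 : ℝ) ≤ c.M := by have := c.M_pos; exact_mod_cast (by omega : (0 : ℤ) ≤ c.M)
  obtain ⟨w, hw⟩ := exists_geo hτ hα x y
  rw [← hw.2]
  refine TR_le hτ hα.le w (Co.slab_of_win fun z hz => ?_)
  obtain ⟨i, rfl, -⟩ := SimpleGraph.Walk.mem_support_iff_exists_getVert.1 hz
  have h3 := geo_near hτ hα hw i
  have h4 := c.abs_tm_le (w.getVert i - x)
  rw [Co.tm_sub] at h4
  push_cast at h4
  have h5 := h4.trans (mul_le_mul_of_nonneg_left h3 hM)
  rw [abs_le] at h5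
  constructor
  · have : ((c.L * s + 1 : ℤ) : ℝ) ≤ c.tm (w.getVert i) := by push_cast; linarith
    exact_mod_cast this
  · have : (c.tm (w.getVert i) : ℝ) ≤ ((c.L * t - 1 : ℤ) : ℝ) := by push_cast; linarith
    exact_mod_cast this

/-- A chain of geodesics. -/
theorem TR_chain (hτ : Bd α β τ) (hα : 0 < α) {s t : ℤ} (hst : s < t) (x : ℕ → V) (m : ℕ)
    (hx : ∀ i ≤ m, c.L * s ≤ c.tm (x i) ∧ c.tm (x i) ≤ c.L * t)
    (hT : ∀ i < m, TR (c.slab s t) τ (x i) (x (i + 1)) ≤ T τ (x i) (x (i + 1))) :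
    TR (c.slab s t) τ (x 0) (x m) ≤ ∑ i ∈ Finset.range m, T τ (x i) (x (i + 1)) := by
  induction m with
  | zero =>
    have := TR_le hτ hα.le (SimpleGraph.Walk.nil : grid.Walk (x 0) (x 0)) (S := c.slab s t)
      (by intro e he; simp [wedges] at he)
    simpa [cost, wedges] using this
  | succ m ih =>
    rw [Finset.sum_range_succ]
    have h1 := ih (fun i hi => hx i (by omega)) (fun i hi => hT i (by omega))
    have h2 := hT m (by omega)
    have h3 := TR_triangle hτ hα.le (Co.slab_ne hst (hx 0 (by omega)) (hx m (by omega)))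
      (Co.slab_ne hst (hx m (by omega)) (hx (m + 1) le_rfl)) (le_refl (c.slab s t)) (le_refl (c.slab s t))
    linarith

/-- The slab passage time of a multiple of a displacement. -/
theorem TT_mult (hτ : Bd α β τ) (hα : 0 < α) (hβ : 0 ≤ β) {N : ℕ} (hN : 1 ≤ N) (y : ℤ) {j k : ℕ} (hj : 1 ≤ j)
    (hjk : 2 * j < k) (hjρ : c.M * (β / α * nm (c.vt ((N : ℤ), y))) + 1 ≤ (c.L : ℝ) * (j * N)) :
    TT c τ 0 (k * N) (k * y) ≤ 2 * (β * (j * nm (c.vt ((N : ℤ), y)) + 4)) +
      ∑ i ∈ Finset.range (k - 2 * j), T τ (c.vt (((j + i) * N : ℕ), (j + i : ℕ) * y))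
        (c.vt (((j + i + 1) * N : ℕ), (j + i + 1 : ℕ) * y)) := by
  have hL : (2 : ℤ) ≤ c.L := c.L_pos
  have hLr : (2 : ℝ) ≤ c.L := by exact_mod_cast hL
  have hN' : (1 : ℝ) ≤ N := by exact_mod_cast hN
  set t : ℤ := ((k * N : ℕ) : ℤ) with ht
  have ht0 : (0 : ℤ) < t := by rw [ht]; have : 0 < k * N := Nat.mul_pos (by omega) (by omega); exact_mod_cast this
  set x : ℕ → V := fun i => c.vt (((j + i) * N : ℕ), (j + i : ℕ) * y) with hx
  have htm : ∀ i, c.tm (x i) = c.L * ((j + i) * N : ℕ) := fun i => by rw [hx]; simp only; rw [Co.tm_vt]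
  have hxr : ∀ i ≤ k - 2 * j, c.L * 0 ≤ c.tm (x i) ∧ c.tm (x i) ≤ c.L * t := by
    intro i hi
    rw [htm]
    constructor
    · exact mul_le_mul_of_nonneg_left (by positivity) (by omega)
    · refine mul_le_mul_of_nonneg_left ?_ (by omega)
      rw [ht]
      exact_mod_cast Nat.mul_le_mul_right N (show j + i ≤ k by omega)
  have hdiff : ∀ i, nm (x (i + 1) - x i) = nm (c.vt ((N : ℤ), y)) := by
    intro i
    rw [hx]
    simp only
    rw [← Co.vt_sub]
    congr 2
    ext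
    · simp only [Prod.fst_sub]; push_cast; ring
    · simp only [Prod.snd_sub]; push_cast; ring
  have hT : ∀ i < k - 2 * j, TR (c.slab 0 t) τ (x i) (x (i + 1)) ≤ T τ (x i) (x (i + 1)) := by
    intro i hi
    refine TR_le_T hτ hα ?_ ?_
    · rw [hdiff, htm]
      push_cast
      have : (c.L : ℝ) * (j * N) ≤ c.L * ((j + i) * N) := by
        refine mul_le_mul_of_nonneg_left (mul_le_mul_of_nonneg_right ?_ (by linarith)) (by linarith)
        have : (0 : ℝ) ≤ i := Nat.cast_nonneg i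
        linarith
      linarith
    · rw [hdiff, htm, ht]
      push_cast
      have h1 : ((j : ℝ) + i) + j ≤ k := by exact_mod_cast (by omega : j + i + j ≤ k)
      have h2 : (c.L : ℝ) * ((j + i) * N) + c.L * (j * N) ≤ c.L * (k * N) := by
        rw [← mul_add, ← add_mul]
        exact mul_le_mul_of_nonneg_left (mul_le_mul_of_nonneg_right h1 (by linarith)) (by linarith)
      linarith
  have hch := TR_chain hτ hα ht0 x (k - 2 * j) hxr hT
  -- the two ends
  have hend : ∀ (u v : V), c.L * 0 ≤ c.tm u ∧ c.tm u ≤ c.L * t → c.L * 0 ≤ c.tm v ∧ c.tm v ≤ c.L * t →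
      nm (v - u) ≤ j * nm (c.vt ((N : ℤ), y)) →
      TR (c.slab 0 t) τ u v ≤ β * (j * nm (c.vt ((N : ℤ), y)) + 4) := by
    intro u v hu hv huv
    obtain ⟨w, hw, hl⟩ := Co.slab_conn ht0 hu hv
    refine (TR_le hτ hα.le w hw).trans ((cost_le hτ w).trans (mul_le_mul_of_nonneg_left (hl.trans ?_) hβ))
    linarith
  have hnmj : nm (c.vt (((j * N : ℕ) : ℤ), (j : ℤ) * y)) ≤ j * nm (c.vt ((N : ℤ), y)) := by
    rw [vt_mul, nm_eq_rn, toR_nsmul, rn_smul, abs_of_nonneg (Nat.cast_nonneg j), ← nm_eq_rn]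
  have e0 : c.vt (0 : Pt) = 0 := c.vt_zero
  have h0r : c.L * 0 ≤ c.tm (c.vt (0 : Pt)) ∧ c.tm (c.vt (0 : Pt)) ≤ c.L * t := by
    rw [e0, Co.tm_zero, mul_zero]
    exact ⟨le_rfl, mul_nonneg (by omega) ht0.le⟩
  have hzr : c.L * 0 ≤ c.tm (c.vt ((k * N : ℕ), (k : ℤ) * y)) ∧ c.tm (c.vt ((k * N : ℕ), (k : ℤ) * y)) ≤ c.L * t := by
    rw [Co.tm_vt, ← ht]
    exact ⟨mul_le_mul_of_nonneg_left ht0.le (by omega), le_rfl⟩
  have hA := hend (c.vt (0 : Pt)) (x 0) h0r (hxr 0 (by omega)) (by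
    rw [e0, sub_zero, hx]
    simpa using hnmj)
  have hB := hend (x (k - 2 * j)) (c.vt ((k * N : ℕ), (k : ℤ) * y)) (hxr _ le_rfl) hzr (by
    have h1 : c.vt ((k * N : ℕ), (k : ℤ) * y) - x (k - 2 * j) = c.vt (((j * N : ℕ) : ℤ), (j : ℤ) * y) := by
      rw [hx]
      simp only
      rw [← Co.vt_sub]
      have h2 : j + (k - 2 * j) = k - j := by omega
      have h3 : ((k - j : ℕ) : ℤ) = (k : ℤ) - j := by rw [Nat.cast_sub (by omega)]
      rw [h2]
      congr 1
      ext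
      · simp only [Prod.fst_sub]; rw [Nat.cast_mul, Nat.cast_mul, Nat.cast_mul, h3]; ring
      · simp only [Prod.snd_sub]; rw [h3]; ring
    rw [h1]
    exact hnmj)
  have t1 := TR_triangle hτ hα.le (Co.slab_ne ht0 h0r (hxr 0 (by omega)))
    (Co.slab_ne ht0 (hxr 0 (by omega)) (hxr (k - 2 * j) le_rfl)) (le_refl (c.slab 0 t)) (le_refl (c.slab 0 t))
  have t2 := TR_triangle hτ hα.le (Co.slab_ne ht0 h0r (hxr (k - 2 * j) le_rfl))
    (Co.slab_ne ht0 (hxr (k - 2 * j) le_rfl) hzr) (le_refl (c.slab 0 t)) (le_refl (c.slab 0 t))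
  have e1 : TT c τ 0 (k * N) (k * y) = TR (c.slab 0 t) τ (c.vt (0 : Pt)) (c.vt ((k * N : ℕ), (k : ℤ) * y)) := by
    unfold TT
    rw [zero_add, ← ht]
    simp
  rw [e1]
  have h6 : ∑ i ∈ Finset.range (k - 2 * j), T τ (x i) (x (i + 1)) = ∑ i ∈ Finset.range (k - 2 * j),
      T τ (c.vt (((j + i) * N : ℕ), (j + i : ℕ) * y)) (c.vt (((j + i + 1) * N : ℕ), (j + i + 1 : ℕ) * y)) := by
    refine Finset.sum_congr rfl fun i _ => ?_
    rw [hx]
    simp only [add_assoc]
  rw [← h6]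
  linarith

end det

section law

variable {F : Fm}

/-- The mean of the unrestricted passage time. -/
noncomputable def tF (F : Fm) (z : V) : ℝ := ∫ η, T (F.tau η) 0 z ∂(law F)

theorem T_meas_tau (F : Fm) (x y : V) : Measurable fun η : Env => T (F.tau η) x y :=
  measurable_T (τ := fun e (η : Env) => F.g (η e)) (fun e => F.mg.comp (measurable_pi_apply e)) x y

theorem T_mean (F : Fm) (x y : V) : ∫ η, T (F.tau η) x y ∂(law F) = tF F (y - x) := by
  have h : ∀ η : Env, T (F.tau η) x y = T (F.tau (sh x η)) 0 (y - x) := by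
    intro η
    rw [tau_sh, T_sh, zero_add, sub_add_cancel]
  simp_rw [h]
  exact sh_int (T_meas_tau F 0 (y - x)) x

theorem T_int (F : Fm) (x y : V) : Integrable (fun η : Env => T (F.tau η) x y) (law F) :=
  (integrable_const (F.b * nm (y - x))).mono' (T_meas_tau F x y).aestronglyMeasurable
    (Filter.Eventually.of_forall fun η => by
      rw [Real.norm_eq_abs, abs_of_nonneg (T_nonneg (bd_tau F η) F.a0.le _ _)]
      exact T_upper (bd_tau F η) F.a0.le x y)

theorem TT_int (F : Fm) (a : Pt) {n : ℕ} (hn : 1 ≤ n) (y : ℤ) :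
    Integrable (fun η : Env => TT F.co (F.tau η) a n y) (law F) :=
  (integrable_const (F.b * (nm (F.co.vt ((n : ℤ), y)) + 4))).mono'
    ((TT_meas F.co a n y).comp (tau_meas F)).aestronglyMeasurable
    (Filter.Eventually.of_forall fun η => by
      rw [Real.norm_eq_abs, abs_of_nonneg (TT_nonneg (bd_tau F η) F.a0.le _ _ _)]
      exact TT_upper (bd_tau F η) F.a0.le (b_pos F).le a hn y)

/-- The slab means are larger. -/
theorem tF_le_tm (F : Fm) {n : ℕ} (hn : 1 ≤ n) (y : ℤ) : tF F (F.co.vt ((n : ℤ), y)) ≤ tm_ F n y := by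
  refine integral_mono (T_int F _ _) (TT_int F 0 hn y) fun η => ?_
  have h := T_le_TR (bd_tau F η) F.a0.le (Co.ne_vt (c := F.co) 0 hn y)
  have e1 : F.co.vt (0 + ((n : ℤ), y)) = F.co.vt ((n : ℤ), y) := by rw [zero_add]
  rw [e1, Co.vt_zero] at h
  unfold TT
  rw [e1, Co.vt_zero]
  exact h

/-- The slab means of a multiple of a displacement. -/
theorem tm_mult (F : Fm) {N : ℕ} (hN : 1 ≤ N) (y : ℤ) {j k : ℕ} (hj : 1 ≤ j) (hjk : 2 * j < k)
    (hjρ : F.co.M * (F.b / F.a * nm (F.co.vt ((N : ℤ), y))) + 1 ≤ (F.co.L : ℝ) * (j * N)) :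
    tm_ F (k * N) (k * y) ≤ 2 * (F.b * (j * nm (F.co.vt ((N : ℤ), y)) + 4)) +
      ((k : ℝ) - 2 * j) * tF F (F.co.vt ((N : ℤ), y)) := by
  have h1 : ∀ η, TT F.co (F.tau η) 0 (k * N) (k * y) ≤ 2 * (F.b * (j * nm (F.co.vt ((N : ℤ), y)) + 4)) +
      ∑ i ∈ Finset.range (k - 2 * j), T (F.tau η) (F.co.vt (((j + i) * N : ℕ), (j + i : ℕ) * y))
        (F.co.vt (((j + i + 1) * N : ℕ), (j + i + 1 : ℕ) * y)) := fun η =>
    TT_mult (bd_tau F η) F.a0 (b_pos F).le hN y hj hjk hjρ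
  have hkN : 1 ≤ k * N := Nat.one_le_iff_ne_zero.2 (Nat.mul_ne_zero (by omega) (by omega))
  have h2 : tm_ F (k * N) (k * y) ≤ ∫ η : Env, (2 * (F.b * (j * nm (F.co.vt ((N : ℤ), y)) + 4)) +
      ∑ i ∈ Finset.range (k - 2 * j), T (F.tau η) (F.co.vt (((j + i) * N : ℕ), (j + i : ℕ) * y))
        (F.co.vt (((j + i + 1) * N : ℕ), (j + i + 1 : ℕ) * y))) ∂(law F) :=
    integral_mono (TT_int F 0 hkN (k * y)) ((integrable_const _).add
      (integrable_finsetSum (Finset.range (k - 2 * j)) fun i _ => T_int F _ _)) h1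
  refine h2.trans (le_of_eq ?_)
  rw [integral_add (integrable_const _) (integrable_finsetSum _ fun i _ => T_int F _ _), integral_const,
    integral_finsetSum _ fun i _ => T_int F _ _]
  simp only [probReal_univ, one_smul]
  congr 1
  have h4 : ∀ i ∈ Finset.range (k - 2 * j), ∫ η : Env, T (F.tau η) (F.co.vt (((j + i) * N : ℕ), (j + i : ℕ) * y))
        (F.co.vt (((j + i + 1) * N : ℕ), (j + i + 1 : ℕ) * y)) ∂(law F) = tF F (F.co.vt ((N : ℤ), y)) := by
    intro i _
    rw [T_mean, ← Co.vt_sub]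
    congr 2
    ext
    · simp only [Prod.fst_sub]; push_cast; ring
    · simp only [Prod.snd_sub]; push_cast; ring
  rw [Finset.sum_congr rfl h4, Finset.sum_const, Finset.card_range, nsmul_eq_mul, Nat.cast_sub (by omega)]
  push_cast
  ring

/-- **The slab time constant is the time constant.** -/
theorem mu_slab {N : ℕ} (hN : 1 ≤ N) (y : ℤ) {m : ℝ}
    (hlim : Tendsto (fun n : ℕ => tF F (n • F.co.vt ((N : ℤ), y)) / n) atTop (𝓝 m)) :
    N * mu_ F (y / N) = m := by
  have hS := tm_sub F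
  have hN' : (0 : ℝ) < N := by exact_mod_cast hN
  have hLr : (2 : ℝ) ≤ F.co.L := by exact_mod_cast F.co.L_pos
  -- upper bound by the unrestricted mean
  have key : ∀ (N : ℕ) (y : ℤ), 1 ≤ N → N * mu_ F (y / N) ≤ tF F (F.co.vt ((N : ℤ), y)) := by
    intro N y hN
    have hN' : (0 : ℝ) < N := by exact_mod_cast hN
    obtain ⟨j, hj⟩ := exists_nat_gt (F.co.M * (F.b / F.a * nm (F.co.vt ((N : ℤ), y))) + 1)
    have hj0 : 1 ≤ j + 1 := by omega
    have hjρ : F.co.M * (F.b / F.a * nm (F.co.vt ((N : ℤ), y))) + 1 ≤ (F.co.L : ℝ) * ((j + 1 : ℕ) * N) := by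
      have h1 : (1 : ℝ) ≤ N := by exact_mod_cast hN
      have h2 : (0 : ℝ) ≤ j := Nat.cast_nonneg j
      push_cast
      have h3 : (j : ℝ) + 1 ≤ (j + 1) * N := by nlinarith
      have h4 : ((j : ℝ) + 1) * N ≤ F.co.L * ((j + 1) * N) := by
        have : (0 : ℝ) ≤ (j + 1) * N := by positivity
        nlinarith
      linarith
    set D : ℝ := 2 * (F.b * ((j + 1 : ℕ) * nm (F.co.vt ((N : ℤ), y)) + 4)) with hD
    have h1 : ∀ k : ℕ, 2 * (j + 1) < k → (k : ℝ) * (N * mu_ F (y / N)) ≤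
        D + ((k : ℝ) - 2 * (j + 1 : ℕ)) * tF F (F.co.vt ((N : ℤ), y)) := by
      intro k hk
      have h2 := tm_mult F hN y hj0 hk hjρ
      have hkN : 1 ≤ k * N := Nat.one_le_iff_ne_zero.2 (Nat.mul_ne_zero (by omega) (by omega))
      have h3 := hS.lower hkN (k * y)
      have hk' : (0 : ℝ) < k := by exact_mod_cast (by omega : 0 < k)
      have h4 : (((k : ℤ) * y : ℤ) : ℝ) / ((k * N : ℕ) : ℝ) = y / N := by
        push_cast
        rw [mul_div_mul_left _ _ hk'.ne']
      rw [h4] at h3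
      have h5 : ((k * N : ℕ) : ℝ) = k * N := by push_cast; ring
      rw [h5, mul_assoc] at h3
      exact h3.trans h2
    -- let `k` tend to infinity
    by_contra hcon
    push Not at hcon
    set g := N * mu_ F (y / N) - tF F (F.co.vt ((N : ℤ), y)) with hg
    have hg0 : 0 < g := by rw [hg]; linarith
    obtain ⟨k, hk⟩ := exists_nat_gt (max ((2 * (j + 1) : ℕ) : ℝ) ((D + 2 * (j + 1 : ℕ) * |tF F (F.co.vt ((N : ℤ), y))|) / g))
    have hk1 : 2 * (j + 1) < k := by
      have := (le_max_left _ _).trans_lt hk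
      exact_mod_cast this
    have hk2 := (le_max_right _ _).trans_lt hk
    rw [div_lt_iff₀ hg0] at hk2
    have h2 := h1 k hk1
    have h3 : -(2 * (j + 1 : ℕ) * tF F (F.co.vt ((N : ℤ), y))) ≤ 2 * (j + 1 : ℕ) * |tF F (F.co.vt ((N : ℤ), y))| := by
      have := neg_le_abs (tF F (F.co.vt ((N : ℤ), y)))
      have h4 : (0 : ℝ) ≤ 2 * (j + 1 : ℕ) := by positivity
      nlinarith
    rw [hg] at hk2
    nlinarith
  have hmul : ∀ k : ℕ, 1 ≤ k → (((k : ℤ) * y : ℤ) : ℝ) / ((k * N : ℕ) : ℝ) = y / N := by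
    intro k hk
    have hk' : (0 : ℝ) < k := by exact_mod_cast hk
    push_cast
    rw [mul_div_mul_left _ _ hk'.ne']
  apply le_antisymm
  · refine ge_of_tendsto hlim ?_
    filter_upwards [eventually_ge_atTop 1] with k hk
    have hk' : (0 : ℝ) < k := by exact_mod_cast hk
    have hkN : 1 ≤ k * N := Nat.one_le_iff_ne_zero.2 (Nat.mul_ne_zero (by omega) (by omega))
    have h1 := key (k * N) (k * y) hkN
    rw [hmul k hk, vt_mul] at h1
    rw [le_div_iff₀ hk']
    push_cast at h1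
    linarith
  · refine le_of_forall_pos_le_add fun ε hε => ?_
    obtain ⟨N0, hN0, hup⟩ := hS.upper (|(y : ℝ)| / N) (ε := ε / N) (by positivity)
    refine le_of_tendsto hlim ?_
    filter_upwards [eventually_ge_atTop (max N0 1)] with k hk
    have hk1 : 1 ≤ k := (le_max_right _ _).trans hk
    have hk' : (0 : ℝ) < k := by exact_mod_cast hk1
    have hkN : 1 ≤ k * N := Nat.one_le_iff_ne_zero.2 (Nat.mul_ne_zero (by omega) (by omega))
    have h1 := tF_le_tm F hkN (k * y)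
    rw [vt_mul] at h1
    have h2 := hup (k * N) (((le_max_left _ _).trans hk).trans (Nat.le_mul_of_pos_right k (by omega))) (k * y) (by
      push_cast
      rw [abs_mul, abs_of_pos hk']
      apply le_of_eq
      field_simp)
    rw [hmul k hk1] at h2
    rw [div_le_iff₀ hk']
    have h3 := h1.trans h2
    push_cast at h3
    have h4 : (k : ℝ) * N * (mu_ F (y / N) + ε / N) = (N * mu_ F (y / N) + ε) * k := by
      field_simp
    rw [← h4]
    exact h3

end law

end Pool.Agent.W_1b8d5d_p
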