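import Pool.Agent.W_1b8d5d_p.BrMu

/-!
MP_1b8d5d_pr, Track P, the bridge (1), final form: the limit function of the slab passage times is the time constant.
-/

namespace Pool.Agent.W_1b8d5d_p

open MeasureTheory ProbabilityTheory Set Filter Topology
open Pool.Agent.W_1b8d5d_h85 hiding tm

/-- The point of the plane of the slope `x` at the block time one. -/
noncomputable def pt1 (c : Co) (x : ℝ) : ℝ × ℝ := (c.L * c.r - x * c.q, c.L * c.s + x * c.p)

theorem pt1_continuous (c : Co) : Continuous (pt1 c) := by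
  unfold pt1
  fun_prop

theorem tF_eq {a b : ℝ} {ν : Measure ℝ} (co : Co) (ha : 0 < a) (h : Law a b ν) {Ω : Type} [MeasurableSpace Ω]
    {P : Measure Ω} {τ : Edge → Ω → ℝ} (hτ : IsFPP ν P τ) (z : V) :
    tF (fmOf co ha h) z = Pool.Agent.W_1b8d5d_h85.tm P τ z := by
  unfold tF Pool.Agent.W_1b8d5d_h85.tm
  exact (int_env co ha h hτ (G := fun σ : Env => T σ 0 z)
    (measurable_T (τ := fun e (σ : Env) => σ e) (fun e => measurable_pi_apply e) 0 z)).symm

/-- **The slab time constant is the time constant.** -/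
theorem tc {a b : ℝ} {ν : Measure ℝ} (ha : 0 < a) (h : Law a b ν) {Ω : Type} [MeasurableSpace Ω] {P : Measure Ω}
    {τ : Edge → Ω → ℝ} (hτ : IsFPP ν P τ) {μ : ℝ × ℝ → ℝ} (hc : Continuous μ)
    (hom : ∀ (c : ℝ) (x : ℝ × ℝ), 0 ≤ c → μ (c • x) = c * μ x)
    (hlim : ∀ x : V, Tendsto (fun n : ℕ => Pool.Agent.W_1b8d5d_h85.tm P τ (n • x) / n) atTop (𝓝 (μ (toR x))))
    (c : Co) (x : ℝ) : mu_ (fmOf c ha h) x = μ (pt1 c x) := by
  set F := fmOf c ha h with hF
  have hco : F.co = c := rfl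
  have h1 : ∀ (N : ℕ) (y : ℤ), 1 ≤ N → mu_ F ((y : ℝ) / N) = μ (pt1 c ((y : ℝ) / N)) := by
    intro N y hN
    have hN' : (0 : ℝ) < N := by exact_mod_cast hN
    have h2 := mu_slab (F := F) hN y (m := μ (toR (c.vt ((N : ℤ), y)))) (by
      have := hlim (c.vt ((N : ℤ), y))
      refine this.congr fun n => ?_
      rw [hco, hF, tF_eq c ha h hτ])
    have h3 : toR (c.vt ((N : ℤ), y)) = (N : ℝ) • pt1 c ((y : ℝ) / N) := by
      unfold toR Co.vt pt1
      ext
      · simp only [Prod.smul_mk, smul_eq_mul]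
        push_cast
        field_simp
      · simp only [Prod.smul_mk, smul_eq_mul]
        push_cast
        field_simp
    rw [h3, hom _ _ hN'.le] at h2
    exact mul_left_cancel₀ hN'.ne' h2
  have hcont1 : Continuous (mu_ F) := (tm_sub F).lm_continuous
  have hcont2 : Continuous fun x => μ (pt1 c x) := hc.comp (pt1_continuous c)
  have h2 : mu_ F = fun x => μ (pt1 c x) := by
    refine DenseRange.equalizer (Rat.denseRange_cast (𝕜 := ℝ)) hcont1 hcont2 ?_
    funext q
    simp only [Function.comp_apply]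
    have h3 : ((q : ℚ) : ℝ) = (q.num : ℝ) / (q.den : ℝ) := by
      exact_mod_cast congrArg (fun t : ℚ => (t : ℝ)) (Rat.num_div_den q).symm
    rw [h3]
    exact h1 q.den q.num (Nat.one_le_iff_ne_zero.2 q.den_nz)
  exact congrFun h2 x

end Pool.Agent.W_1b8d5d_p
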