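import Pool.Agent.W_1b8d5d_p.FrLaw
import Pool.Agent.W_1b8d5d_h85.AWalk

/-!
MP_1b8d5d_pr, Track P (proofs row 636, section 2): no path of length `n` uses mostly cheap edges. (helper71)
-/

namespace Pool.Agent.W_1b8d5d_p

open MeasureTheory Set
open Pool.Agent.W_1b8d5d_h85

noncomputable section

variable {F : Fm}

/-- One weight. -/
theorem int_eval {f : ℝ → ℝ} (hf : Measurable f) (e : Edge) : ∫ η, f (η e) ∂(law F) = ∫ u, f u ∂F.nu :=
  Pool.Agent.W_7d29a1_f21.mp_integral (measurePreserving_eval_infinitePi (fun _ : Edge => F.nu) e)
    hf.aestronglyMeasurable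

open Classical in
/-- The test function of the cheap edges. -/
private def ch (F : Fm) (t u : ℝ) : ℝ := if F.g u < t then 256 else 1

private theorem ch_meas (t : ℝ) : Measurable (ch F t) :=
  Measurable.ite (measurableSet_lt F.mg measurable_const) measurable_const measurable_const

private theorem ch_le (t u : ℝ) : |ch F t u| ≤ 256 := by
  unfold ch
  split_ifs <;> norm_num

private theorem ch_one (t u : ℝ) : 1 ≤ ch F t u := by
  unfold ch
  split_ifs <;> norm_num

private theorem ch_int {t : ℝ} (hp : F.nu.real {u | F.g u < t} ≤ 1 / 256) : ∫ u, ch F t u ∂F.nu ≤ 2 := by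
  have hm : MeasurableSet {u | F.g u < t} := measurableSet_lt F.mg measurable_const
  have e1 : ∀ u, ch F t u = 1 + 255 * Set.indicator {u | F.g u < t} (fun _ => (1 : ℝ)) u := by
    intro u
    unfold ch
    by_cases h : F.g u < t
    · rw [if_pos h, Set.indicator_of_mem (show u ∈ {u | F.g u < t} from h)]
      norm_num
    · rw [if_neg h, Set.indicator_of_notMem (show u ∉ {u | F.g u < t} from h)]
      norm_num
  simp only [e1]
  rw [integral_add (integrable_const _) (((integrable_const (1 : ℝ)).indicator hm).const_mul 255), integral_const_mul,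
    integral_indicator hm]
  simp only [integral_const, probReal_univ, smul_eq_mul, mul_one, measureReal_restrict_apply_univ]
  linarith

/-- A fixed set of `n` edges. -/
theorem cheap_set {t : ℝ} (hp : F.nu.real {u | F.g u < t} ≤ 1 / 256) (A : Finset Edge) :
    (law F).real {η | A.card < 2 * (A.filter fun e => F.tau η e < t).card} ≤ (1 / 8) ^ A.card := by
  classical
  obtain ⟨G, hG⟩ : ∃ G : Env → ℝ, G = fun η => ∏ e ∈ A, ch F t (η e) := ⟨_, rfl⟩
  have hGm : Measurable G := by
    rw [hG]
    exact Finset.measurable_prod _ fun e _ => (ch_meas t).comp (measurable_pi_apply e)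
  have hG1 : ∀ η, 1 ≤ G η := by
    intro η
    rw [hG]
    have h := Finset.prod_le_prod (s := A) (f := fun _ => (1 : ℝ)) (g := fun e => ch F t (η e))
      (fun e _ => zero_le_one) (fun e _ => ch_one t _)
    rwa [Finset.prod_const_one] at h
  have hGb : ∀ η, G η ≤ 256 ^ A.card := by
    intro η
    rw [hG]
    have h := Finset.prod_le_prod (s := A) (f := fun e => ch F t (η e)) (g := fun _ => (256 : ℝ))
      (fun e _ => zero_le_one.trans (ch_one t _)) (fun e _ => (le_abs_self _).trans (ch_le t _))
    rwa [Finset.prod_const] at h
  have hGi : Integrable G (law F) := Integrable.of_bound (C := 256 ^ A.card) hGm.aestronglyMeasurable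
    (Filter.Eventually.of_forall fun η => by
      rw [Real.norm_eq_abs, abs_of_nonneg (by linarith [hG1 η])]
      exact hGb η)
  have hint : ∫ η, G η ∂(law F) ≤ 2 ^ A.card := by
    rw [hG, indep_prod (F := F) A (fun e η => ch F t (η e)) (fun e => {e})
      (fun e _ => (ch_meas t).comp (measurable_pi_apply e))
      (fun e _ η η' h => by
        show ch F t (η e) = ch F t (η' e)
        rw [h e rfl])
      (fun e _ e' _ hne => by simpa using hne)]
    have h := Finset.prod_le_prod (s := A) (f := fun e => ∫ η : Env, ch F t (η e) ∂(law F)) (g := fun _ => (2 : ℝ))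
      (fun e _ => integral_nonneg fun η => zero_le_one.trans (ch_one t _)) (fun e _ => by
        rw [int_eval (ch_meas t)]
        exact ch_int hp)
    rwa [Finset.prod_const] at h
  have hM := mul_meas_ge_le_integral_of_nonneg (μ := law F) (f := G)
    (Filter.Eventually.of_forall fun η => by
      show (0 : ℝ) ≤ G η
      linarith [hG1 η]) hGi (16 ^ A.card)
  have hsub : (law F).real {η | A.card < 2 * (A.filter fun e => F.tau η e < t).card} ≤
      (law F).real {η | (16 : ℝ) ^ A.card ≤ G η} := by
    refine measureReal_mono (fun η hη => ?_) (measure_ne_top _ _)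
    have hη' : A.card < 2 * (A.filter fun e => F.tau η e < t).card := hη
    show (16 : ℝ) ^ A.card ≤ G η
    have e1 : G η = 256 ^ (A.filter fun e => F.tau η e < t).card := by
      rw [hG]
      show ∏ e ∈ A, ch F t (η e) = _
      unfold ch
      rw [Finset.prod_ite, Finset.prod_const, Finset.prod_const_one, mul_one]
      rfl
    rw [e1, show (256 : ℝ) = 16 ^ 2 by norm_num, ← pow_mul]
    exact pow_le_pow_right₀ (by norm_num) hη'.le
  have h1 : (16 : ℝ) ^ A.card * (law F).real {η | A.card < 2 * (A.filter fun e => F.tau η e < t).card} ≤ 2 ^ A.card :=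
    le_trans (mul_le_mul_of_nonneg_left hsub (by positivity)) (hM.trans hint)
  have h2 : (16 : ℝ) ^ A.card * (1 / 8) ^ A.card = 2 ^ A.card := by
    rw [← mul_pow]
    norm_num
  exact le_of_mul_le_mul_left (by rw [h2]; exact h1) (by positivity)

/-- **COUNTING.** Off an event of probability `2 ^ (-n)` every path of length `n` from `x` has at least `n / 2` edges of weight at
least `t`. -/
theorem cheap_paths {t : ℝ} (hp : F.nu.real {u | F.g u < t} ≤ 1 / 256) (x : V) (n : ℕ) :
    ∃ B : Set Env, MeasurableSet B ∧ (law F).real B ≤ (1 / 2) ^ n ∧ ∀ η, η ∉ B → ∀ (y : V) (w : grid.Walk x y), w.IsPath →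
      w.length = n → n ≤ 2 * ((wedges w).toFinset.filter fun e => t ≤ F.tau η e).card := by
  classical
  obtain ⟨E, hE⟩ : ∃ E : (Fin n → Bool × Bool) → Set Env, E = fun σ =>
      if (sedges x (List.ofFn σ)).Nodup then {η | (sedges x (List.ofFn σ)).toFinset.card <
        2 * ((sedges x (List.ofFn σ)).toFinset.filter fun e => F.tau η e < t).card} else ∅ := ⟨_, rfl⟩
  have hmeasA : ∀ A : Finset Edge, MeasurableSet {η : Env | A.card < 2 * (A.filter fun e => F.tau η e < t).card} := by
    intro A
    have h1 : Measurable fun η : Env => (A.filter fun e => F.tau η e < t).card := by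
      have e1 : ∀ η : Env, (A.filter fun e => F.tau η e < t).card = ∑ e ∈ A, if F.tau η e < t then 1 else 0 := fun η =>
        Finset.card_filter _ _
      simp only [e1]
      refine Finset.measurable_sum _ fun e _ => ?_
      exact Measurable.ite (measurableSet_lt (F.mg.comp (measurable_pi_apply e)) measurable_const) measurable_const
        measurable_const
    exact measurableSet_lt measurable_const (h1.const_mul 2)
  refine ⟨⋃ σ ∈ (Finset.univ : Finset (Fin n → Bool × Bool)), E σ, ?_, ?_, ?_⟩
  · refine Finset.measurableSet_biUnion _ fun σ _ => ?_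
    rw [hE]
    show MeasurableSet (if _ then _ else _)
    split_ifs
    · exact hmeasA _
    · exact MeasurableSet.empty
  · refine (measureReal_biUnion_finset_le _ _).trans ?_
    have h1 : ∀ σ ∈ (Finset.univ : Finset (Fin n → Bool × Bool)), (law F).real (E σ) ≤ (1 / 8) ^ n := by
      intro σ _
      rw [hE]
      show (law F).real (if _ then _ else _) ≤ _
      split_ifs with hd
      · have hc : (sedges x (List.ofFn σ)).toFinset.card = n := by
          rw [List.toFinset_card_of_nodup hd, length_sedges, List.length_ofFn]
        have := cheap_set (F := F) hp (sedges x (List.ofFn σ)).toFinset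
        rw [hc] at this ⊢
        exact this
      · rw [measureReal_empty]
        positivity
    refine (Finset.sum_le_card_nsmul _ _ _ h1).trans (le_of_eq ?_)
    have h4 : Fintype.card (Fin n → Bool × Bool) = 4 ^ n := by
      rw [Fintype.card_fun, Fintype.card_prod, Fintype.card_bool, Fintype.card_fin]
    rw [Finset.card_univ, h4, nsmul_eq_mul]
    push_cast
    rw [← mul_pow]
    norm_num
  · intro η hη y w hw hn
    obtain ⟨l, hl1, hl2⟩ := exists_steps w
    rw [hn] at hl1
    subst hl1
    have hnod := wedges_nodup hw
    have h1 : η ∉ E l.get := fun h => hη (Set.mem_biUnion (Finset.mem_univ _) h)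
    rw [hE] at h1
    have h2 : (sedges x (List.ofFn l.get)).Nodup := by
      rw [List.ofFn_get, hl2]
      exact hnod
    have h3 : η ∉ {η : Env | (sedges x (List.ofFn l.get)).toFinset.card <
        2 * ((sedges x (List.ofFn l.get)).toFinset.filter fun e => F.tau η e < t).card} := by
      have h4 : (if (sedges x (List.ofFn l.get)).Nodup then {η : Env | (sedges x (List.ofFn l.get)).toFinset.card <
        2 * ((sedges x (List.ofFn l.get)).toFinset.filter fun e => F.tau η e < t).card} else ∅) =
        {η : Env | (sedges x (List.ofFn l.get)).toFinset.card <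
          2 * ((sedges x (List.ofFn l.get)).toFinset.filter fun e => F.tau η e < t).card} := if_pos h2
      intro h5
      exact h1 (by
        show η ∈ (if (sedges x (List.ofFn l.get)).Nodup then _ else _)
        rw [if_pos h2]
        exact h5)
    rw [List.ofFn_get, hl2] at h3
    have h5 : ¬ (wedges w).toFinset.card < 2 * ((wedges w).toFinset.filter fun e => F.tau η e < t).card := h3
    have h6 : (wedges w).toFinset.card = l.length := by
      rw [List.toFinset_card_of_nodup hnod, ← hl2, length_sedges]
    have h7 := Finset.card_filter_add_card_filter_not (s := (wedges w).toFinset) fun e => F.tau η e < t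
    have h8 : ((wedges w).toFinset.filter fun e => ¬ F.tau η e < t) =
        (wedges w).toFinset.filter fun e => t ≤ F.tau η e := Finset.filter_congr fun e _ => not_lt
    rw [h8] at h7
    omega

end

end Pool.Agent.W_1b8d5d_p
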