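import Pool.Agent.W_1b8d5d_p.UnitC
import Pool.Agent.W_1b8d5d_p.Width99

/-!
MP_1b8d5d_pr, Track P, (CHEAP): for every duration `m` the cheap displacements contain an interval around the cheapest one, whose
length is comparable with `m vA m`. From the cone of every scale (`ConeAt`). (helper32)
-/

namespace Pool.Agent.W_1b8d5d_p

open MeasureTheory Set

noncomputable section

/-- The cone at the scale `n`: `W = hi - lo` is the length of an interval of cheap displacements of a duration `N2 ≤ H n`, and `J` is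
above a cone of centre `r` whose half width at the level `EE / n` is `W / n`. -/
def ConeAt (F : Fm) (d : Dr) (H : ℕ) (A' C c : ℝ) (n : ℕ) : Prop :=
  ∃ (N2 : ℕ) (lo hi : ℤ) (r : ℝ), 1 ≤ N2 ∧ N2 ≤ H * n ∧ lo ≤ hi ∧ e F d N2 lo ≤ A' * EE F d n ∧
    e F d N2 hi ≤ A' * EE F d n ∧
    ∀ x : ℝ, c * EE F d n * (n * |x - r|) ≤ ((hi : ℝ) - lo) * (n * J F d x + C * EE F d n)

variable {F : Fm} {κ K : ℝ} {Ds : Set Dr} {d : Dr}

theorem wd_le32 {J : ℝ → ℝ} {t r R : ℝ} (hR : 0 ≤ R) (h : ∀ x, J x ≤ t → |x - r| ≤ R) : wd J t ≤ 2 * R := by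
  unfold wd
  have h1 : {x | J x ≤ t} ⊆ Icc (r - R) (r + R) := by
    intro x hx
    have h2 := h x hx
    rw [abs_le] at h2
    exact ⟨by linarith [h2.1], by linarith [h2.2]⟩
  refine (measureReal_mono h1 (by rw [Real.volume_Icc]; exact ENNReal.ofReal_ne_top)).trans ?_
  rw [Real.volume_real_Icc_of_le (by linarith)]
  linarith

theorem J_bdd32 (h : Dirs F κ K Ds) : ∃ j : ℝ, 0 < j ∧ ∀ d ∈ Ds, ∀ t x : ℝ, J F d x ≤ t → |x| ≤ max 1 (t / j) := by
  obtain ⟨j, hj, h1⟩ := h.strict 1 one_pos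
  refine ⟨j, hj, fun d hd t x hx => ?_⟩
  rcases le_total 1 |x| with h2 | h2
  · refine le_max_of_le_right ?_
    rw [le_div_iff₀ hj]
    have := h1 d hd x h2
    linarith
  · exact le_max_of_le_left h2

theorem le_wd32 (h : Dirs F κ K Ds) (hd : d ∈ Ds) {t x : ℝ} (ht : 0 ≤ t) (hx : J F d x ≤ t) : |x| ≤ wd (J F d) t := by
  obtain ⟨j, hj, hb⟩ := J_bdd32 h
  unfold wd
  have hc := (J_convex F d).convex_le t
  have h0 : (0 : ℝ) ∈ {x ∈ univ | J F d x ≤ t} := ⟨mem_univ _, by rw [(h.touch d hd).zero]; exact ht⟩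
  have h1 : x ∈ {x ∈ univ | J F d x ≤ t} := ⟨mem_univ _, hx⟩
  have h2 := hc.segment_subset h0 h1
  rw [segment_eq_uIcc] at h2
  have h3 : uIcc 0 x ⊆ {x | J F d x ≤ t} := fun z hz => (h2 hz).2
  have hfin : volume {x | J F d x ≤ t} ≠ ⊤ := by
    have h4 : {x | J F d x ≤ t} ⊆ Icc (-(max 1 (t / j))) (max 1 (t / j)) := fun z hz => abs_le.1 (hb d hd t z hz)
    refine ne_top_of_le_ne_top ?_ (measure_mono h4)
    rw [Real.volume_Icc]
    exact ENNReal.ofReal_ne_top
  have h5 := measureReal_mono h3 hfin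
  have h6 : volume.real (uIcc 0 x) = |x| := by
    rw [Real.volume_real_interval, sub_zero]
  rwa [h6] at h5

theorem wd_nonneg32 (J : ℝ → ℝ) (t : ℝ) : 0 ≤ wd J t := measureReal_nonneg

/-- The cheapest displacement is inside the level set. -/
theorem xs_near32 (h : Dirs F κ K Ds) (hd : d ∈ Ds) {A : ℝ} (hA : 1 ≤ A) {m : ℕ} (hm : 1 ≤ m) :
    |(xs F d m : ℝ) - d.v * m| ≤ m * vA A F d m := by
  have hm0 : (0 : ℝ) < m := by exact_mod_cast hm
  have h1 := e_lower F d hm (xs F d m)
  have h2 := e_xs_le (h.adm d hd) m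
  have h3 := le_EE F d (le_refl m)
  have h4 := Cr_pos F
  have h5 := EE_pos F d m
  have h6 : J F d ((xs F d m : ℝ) / m - d.v) ≤ A * EE F d m / m := by
    rw [le_div_iff₀ hm0]
    nlinarith
  have h7 := le_wd32 h hd (by positivity) h6
  rw [← h.vA_wd hd (by linarith)] at h7
  have h8 : (xs F d m : ℝ) - d.v * m = m * ((xs F d m : ℝ) / m - d.v) := by field_simp
  rw [h8, abs_mul, abs_of_pos hm0]
  exact mul_le_mul_of_nonneg_left h7 hm0.le

theorem vA_nonneg32 (h : Dirs F κ K Ds) (hd : d ∈ Ds) {A : ℝ} (hA : 1 ≤ A) (m : ℕ) : 0 ≤ vA A F d m := by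
  rw [h.vA_wd hd (by linarith)]
  exact wd_nonneg32 _ _

theorem EE_one32 (h : Dirs F κ K Ds) (hd : d ∈ Ds) : EE F d 1 ≤ Cr F + (C1 F + 4 * F.b) := by
  have hb : 0 < F.b := F.a0.trans_le F.ab
  have hC := C1_pos F
  refine EE_le F d fun k hk => ?_
  have h1 : es F d k ≤ C1 F + 4 * F.b := by
    rcases Nat.eq_zero_or_pos k with h0 | h0
    · subst h0
      rw [es_zero]
      positivity
    · have hk1 : k = 1 := by omega
      subst hk1
      refine (es_le F d 1 0).trans ?_
      unfold ep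
      have h2 : ∫ η, max (X F d η 0 1 0) 0 ∂(law F) ≤ ∫ _η, (C1 F + 4 * F.b) ∂(law F) := by
        refine integral_mono (X_integrable (h.adm d hd) 0 le_rfl 0).pos_part (integrable_const _) fun η => ?_
        refine max_le ?_ (by positivity)
        have := X_upper (h.adm d hd) η 0 (n := 1) le_rfl 0
        simp only [Nat.cast_one, mul_one, Int.cast_zero, abs_zero, mul_zero, add_zero] at this
        exact this
      rwa [integral_const, probReal_univ, one_smul] at h2
  linarith

/-- **(CHEAP)** from the cones of all scales. -/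
theorem cheap32 (h : Dirs F κ K Ds) {A : ℝ} (hA : 1 ≤ A) {H : ℕ} (hH : 1 ≤ H) {A' C c : ℝ} (hA' : 0 ≤ A') (hC : 0 ≤ C)
    (hc : 0 < c) (n0 : ℕ) (hcone : ∀ d ∈ Ds, ∀ n : ℕ, n0 ≤ n → ConeAt F d H A' C c n) :
    ∃ c0 C' : ℝ, 0 < c0 ∧ ∀ d ∈ Ds, ∀ m : ℕ, 1 ≤ m → ∃ lo hi : ℤ, lo ≤ xs F d m ∧ xs F d m ≤ hi ∧
      c0 * (m * vA A F d m) - 1 ≤ (hi : ℝ) - lo ∧
      ∀ y : ℤ, lo ≤ y → y ≤ hi → e F d m y ≤ C' * EE F d m ∧ |(y : ℝ) - d.v * m| ≤ 2 * (m * vA A F d m) + 1 := by
  obtain ⟨j, hj, hjb⟩ := J_bdd32 h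
  have hb : 0 < F.b := F.a0.trans_le F.ab
  have hC1 := C1_pos F
  have hCr := Cr_pos F
  obtain ⟨E1, hE1⟩ : ∃ E1, E1 = Cr F + (C1 F + 4 * F.b) := ⟨_, rfl⟩
  have hE10 : 0 < E1 := by rw [hE1]; positivity
  obtain ⟨N1, hN1⟩ : ∃ N1, N1 = H * max n0 1 := ⟨_, rfl⟩
  obtain ⟨B, hB⟩ : ∃ B : ℝ, B = N1 * (2 * (1 + A * E1 / j)) := ⟨_, rfl⟩
  have hB0 : 0 ≤ B := by rw [hB]; positivity
  obtain ⟨Γ, hΓ⟩ : ∃ Γ : ℝ, Γ = 16 * H * (A + C) / c := ⟨_, rfl⟩
  have hH0 : (0 : ℝ) < H := by exact_mod_cast hH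
  have hΓ0 : 0 < Γ := by rw [hΓ]; positivity
  refine ⟨min 1 (min (1 / (B + 1)) (1 / (2 * Γ))), A' + 1, by positivity, fun d hd m hm => ?_⟩
  obtain ⟨c0, hc0⟩ : ∃ c0, c0 = min 1 (min (1 / (B + 1)) (1 / (2 * Γ))) := ⟨_, rfl⟩
  rw [← hc0]
  have c0a : c0 ≤ 1 := by rw [hc0]; exact min_le_left _ _
  have c0b : c0 ≤ 1 / (B + 1) := by rw [hc0]; exact (min_le_right _ _).trans (min_le_left _ _)
  have c0c : c0 ≤ 1 / (2 * Γ) := by rw [hc0]; exact (min_le_right _ _).trans (min_le_right _ _)
  have c0p : 0 < c0 := by rw [hc0]; positivity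
  have hm0 : (0 : ℝ) < m := by exact_mod_cast hm
  obtain ⟨w, hw⟩ : ∃ w, w = m * vA A F d m := ⟨_, rfl⟩
  rw [← hw]
  have hw0 : 0 ≤ w := by rw [hw]; exact mul_nonneg hm0.le (vA_nonneg32 h hd hA m)
  have hx := xs_near32 h hd hA hm
  rw [← hw] at hx
  have hadm := h.adm d hd
  have hEm := EE_pos F d m
  have hxe : e F d m (xs F d m) ≤ EE F d m := by
    have := e_xs_le hadm m
    have := le_EE F d (le_refl m)
    linarith
  rcases lt_or_ge m N1 with hlt | hge
  · -- small durations
    refine ⟨xs F d m, xs F d m, le_rfl, le_rfl, ?_, fun y h1 h2 => ?_⟩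
    · have h1 : vA A F d m ≤ 2 * (1 + A * E1 / j) := by
        rw [h.vA_wd hd (by linarith)]
        refine wd_le32 (r := 0) (by positivity) fun x hx1 => ?_
        rw [sub_zero]
        refine (hjb d hd _ x hx1).trans ?_
        have h2 : A * EE F d m / m ≤ A * E1 := by
          rw [div_le_iff₀ hm0]
          have h3 := EE_mul F d 1 (k := m) hm
          rw [mul_one] at h3
          have h4 := EE_one32 h hd
          rw [← hE1] at h4
          have h5 : (m : ℝ) * EE F d 1 ≤ m * E1 := mul_le_mul_of_nonneg_left h4 hm0.le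
          nlinarith
        refine max_le ?_ ?_
        · have : 0 ≤ A * E1 / j := by positivity
          linarith
        · have := div_le_div_of_nonneg_right h2 hj.le
          linarith
      have h2 : w ≤ B := by
        rw [hw, hB]
        have h3 : (m : ℝ) ≤ N1 := by exact_mod_cast hlt.le
        exact mul_le_mul h3 h1 (vA_nonneg32 h hd hA m) (Nat.cast_nonneg _)
      have h3 : c0 * w ≤ 1 := by
        have h4 : c0 * w ≤ 1 / (B + 1) * (B + 1) := mul_le_mul c0b (by linarith) hw0 (by positivity)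
        rwa [one_div, inv_mul_cancel₀ (by positivity)] at h4
      linarith
    · have h3 : y = xs F d m := le_antisymm h2 h1
      subst h3
      refine ⟨?_, by linarith⟩
      nlinarith
  · -- large durations
    obtain ⟨n, hn⟩ : ∃ n, n = m / H := ⟨_, rfl⟩
    obtain ⟨t, ht⟩ : ∃ t, t = m % H := ⟨_, rfl⟩
    have hmn : H * n + t = m := by rw [hn, ht]; exact Nat.div_add_mod m H
    have htH : t < H := by rw [ht]; exact Nat.mod_lt _ (by omega)
    have hn1 : max n0 1 ≤ n := by
      rw [hn, Nat.le_div_iff_mul_le (by omega)]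
      rw [hN1] at hge
      linarith
    have hn0 : n0 ≤ n := (le_max_left _ _).trans hn1
    have hn1' : 1 ≤ n := (le_max_right _ _).trans hn1
    have hn0' : (0 : ℝ) < n := by exact_mod_cast hn1'
    have hHn : 1 ≤ H * n := Nat.mul_pos hH hn1'
    have hnm : n ≤ m := by
      have : n ≤ H * n := Nat.le_mul_of_pos_left n (by omega)
      omega
    obtain ⟨N2, lo', hi', r, hN21, hN2, hlh, he1, he2, hJ⟩ := hcone d hd n hn0
    obtain ⟨s, hs2⟩ : ∃ s, N2 + s = m := ⟨m - N2, by omega⟩
    obtain ⟨W, hW⟩ : ∃ W : ℝ, W = (hi' : ℝ) - lo' := ⟨_, rfl⟩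
    have hW0 : 0 ≤ W := by
      rw [hW]
      have : (lo' : ℝ) ≤ hi' := by exact_mod_cast hlh
      linarith
    have hEn := EE_pos F d n
    -- the width at the scale `n`
    have hv : vA A F d n ≤ 2 * (W * (A + C) / (c * n)) := by
      rw [h.vA_wd hd (by linarith)]
      refine wd_le32 (r := r) (by positivity) fun x hx1 => ?_
      have h1 := hJ x
      rw [← hW] at h1
      rw [le_div_iff₀ hn0'] at hx1
      rw [le_div_iff₀ (by positivity)]
      have h2 : W * (n * J F d x + C * EE F d n) ≤ W * ((A + C) * EE F d n) := by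
        refine mul_le_mul_of_nonneg_left ?_ hW0
        linarith
      have h3 : (|x - r| * (c * n)) * EE F d n ≤ (W * (A + C)) * EE F d n := by
        nlinarith
      exact le_of_mul_le_mul_right h3 hEn
    -- comparison of the widths
    have hwW : w ≤ Γ * W := by
      have h1' := h.vA_le_two hd (A := A) (by linarith) hn1' hnm
      have h1 : vA A F d m ≤ 4 * vA A F d n := by
        have := vA_nonneg32 h hd hA n
        linarith
      have h2 : (m : ℝ) ≤ 2 * H * n := by
        have h3 : m ≤ 2 * (H * n) := by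
          have : H ≤ H * n := Nat.le_mul_of_pos_right H (by omega)
          omega
        have h4 : (m : ℝ) ≤ ((2 * (H * n) : ℕ) : ℝ) := by exact_mod_cast h3
        push_cast at h4
        linarith
      have hv0 : 0 ≤ vA A F d n := vA_nonneg32 h hd hA n
      calc w ≤ m * (4 * vA A F d n) := by rw [hw]; exact mul_le_mul_of_nonneg_left h1 hm0.le
        _ ≤ (2 * H * n) * (4 * vA A F d n) := mul_le_mul_of_nonneg_right h2 (by positivity)
        _ ≤ (2 * H * n) * (4 * (2 * (W * (A + C) / (c * n)))) :=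
          mul_le_mul_of_nonneg_left (mul_le_mul_of_nonneg_left hv (by norm_num)) (by positivity)
        _ = Γ * W := by
          rw [hΓ]
          field_simp
          ring
    -- the cheap displacements of the duration `m`
    have hEnm := EE_mono F d hnm
    have hEtm := EE_mono F d (show s ≤ m by omega)
    have hxt : xs F d s ∈ CI F d s (EE F d s) := xs_mem' hadm le_rfl le_rfl
    have hCI : ∀ y : ℤ, e F d N2 y ≤ A' * EE F d n → y + xs F d s ∈ CI F d m ((A' + 1) * EE F d m) := by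
      intro y hy
      have h1 := CI_add (CI_mk hN21 hy) hxt
      rw [hs2] at h1
      refine CI_mono ?_ h1
      nlinarith
    have h1 := hCI lo' he1
    have h2 := hCI hi' he2
    have h0 : xs F d m ∈ CI F d m ((A' + 1) * EE F d m) := CI_mk hm (by nlinarith)
    obtain ⟨k, hk⟩ : ∃ k : ℤ, k = ⌊w⌋ := ⟨_, rfl⟩
    have hk0 : 0 ≤ k := by rw [hk]; exact Int.floor_nonneg.2 hw0
    have hk1 : (k : ℝ) ≤ w := by rw [hk]; exact Int.floor_le w
    have hk2 : w - 1 < k := by rw [hk]; exact Int.sub_one_lt_floor w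
    have hW2 : c0 * w ≤ W / 2 := by
      have h3 : c0 * w ≤ 1 / (2 * Γ) * (Γ * W) := mul_le_mul c0c hwW hw0 (by positivity)
      have h4 : 1 / (2 * Γ) * (Γ * W) = W / 2 := by field_simp
      rwa [h4] at h3
    have hcw : c0 * w ≤ w := by nlinarith
    rcases le_total (xs F d m - (lo' + xs F d s)) (hi' + xs F d s - xs F d m) with hs | hs
    · refine ⟨xs F d m, xs F d m + min (hi' + xs F d s - xs F d m) k, le_rfl, ?_, ?_, fun y hy1 hy2 => ?_⟩
      · have : 0 ≤ min (hi' + xs F d s - xs F d m) k := le_min (by omega) hk0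
        omega
      · have e1 : ((xs F d m + min (hi' + xs F d s - xs F d m) k : ℤ) : ℝ) - (xs F d m : ℝ) =
            min ((hi' : ℝ) + xs F d s - xs F d m) k := by
          push_cast
          ring
        rw [e1]
        refine le_min ?_ (by linarith)
        have hs' : (xs F d m : ℝ) - (lo' + xs F d s) ≤ hi' + xs F d s - xs F d m := by exact_mod_cast hs
        linarith
      · have hy3 : y ≤ hi' + xs F d s := by
          have := min_le_left (hi' + xs F d s - xs F d m) k
          omega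
        have hy4 : y - xs F d m ≤ k := by
          have := min_le_right (hi' + xs F d s - xs F d m) k
          omega
        refine ⟨CI_e (CI_conv h0 h2 hy1 hy3), ?_⟩
        have hy5 : (y : ℝ) - xs F d m ≤ k := by exact_mod_cast hy4
        have hy6 : (xs F d m : ℝ) ≤ y := by exact_mod_cast hy1
        rw [abs_le] at hx ⊢
        constructor <;> linarith [hx.1, hx.2]
    · refine ⟨xs F d m - min (xs F d m - (lo' + xs F d s)) k, xs F d m, ?_, le_rfl, ?_, fun y hy1 hy2 => ?_⟩
      · have : 0 ≤ min (xs F d m - (lo' + xs F d s)) k := le_min (by omega) hk0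
        omega
      · have e1 : (xs F d m : ℝ) - ((xs F d m - min (xs F d m - (lo' + xs F d s)) k : ℤ) : ℝ) =
            min ((xs F d m : ℝ) - (lo' + xs F d s)) k := by
          push_cast
          ring
        rw [e1]
        refine le_min ?_ (by linarith)
        have hs' : (hi' : ℝ) + xs F d s - xs F d m ≤ xs F d m - (lo' + xs F d s) := by exact_mod_cast hs
        linarith
      · have hy3 : lo' + xs F d s ≤ y := by
          have := min_le_left (xs F d m - (lo' + xs F d s)) k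
          omega
        have hy4 : xs F d m - y ≤ k := by
          have := min_le_right (xs F d m - (lo' + xs F d s)) k
          omega
        refine ⟨CI_e (CI_conv h1 h0 hy3 hy2), ?_⟩
        have hy5 : (xs F d m : ℝ) - y ≤ k := by exact_mod_cast hy4
        have hy6 : (y : ℝ) ≤ xs F d m := by exact_mod_cast hy2
        rw [abs_le] at hx ⊢
        constructor <;> linarith [hx.1, hx.2]

end

end Pool.Agent.W_1b8d5d_p
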