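import Pool.Agent.W_1b8d5d_p.FrSlab
import Pool.Agent.W_7d29a1_f21.Ind

/-!
MP_1b8d5d_pr, Track P, proofs row 631, section 7: ONE CONE. From exponential moments of the tilted luck of one slab (tilt `σ₀`) to
a lower bound of the means over all multiples of the slab (tilt `σ < σ₀`). (helper32)
-/

namespace Pool.Agent.W_1b8d5d_p

open MeasureTheory Set Filter Topology
open scoped ENNReal
open Pool.Agent.W_1b8d5d_h85 (V nm dir Edge Env grid ke wedges cost Bd sh rf)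

noncomputable section

/-- The cut with a lateral jump at a block time. -/
structure CutH (F : Fm) (d : Dr) (k1 C0 : ℝ) : Prop where
  cut : ∀ (η : Env) (a : Pt) (n m : ℕ) (y : ℤ), 1 ≤ n → 1 ≤ m → ∃ r r' : ℤ,
    X F d η a n r + k1 * |(r : ℝ) - r'| + X F d η (a + ((n : ℤ), r')) m (y - r') - C0 ≤ X F d η a (n + m) y

/-- What is needed from the law. -/
structure LwH (F : Fm) (d : Dr) : Prop where
  meas : ∀ (a : Pt) (n : ℕ) (y : ℤ), Measurable fun η => X F d η a n y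
  dep : ∀ (a : Pt) (n : ℕ) (y : ℤ), DependsOn (fun η => X F d η a n y) (F.co.rows a.1 (a.1 + n))
  int : ∀ (n : ℕ) (y : ℤ), 1 ≤ n → Integrable (fun η => X F d η 0 n y) (law F)
  mp : ∀ a : Pt, MeasurePreserving (F.shp a) (law F) (law F)
  shX : ∀ (η : Env) (a b : Pt) (n : ℕ) (y : ℤ), X F d (F.shp a η) b n y = X F d η (a + b) n y

/-- The exponential of `θ` times the largest tilted luck of the slab `[0, m]`, starts `(0, x)` with `z < x ≤ z + W`. -/
def EG (F : Fm) (d : Dr) (θ σ W z : ℝ) (m : ℕ) (η : Env) : ℝ≥0∞ :=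
  ⨆ (x : {x : ℤ // z < x ∧ (x : ℝ) ≤ z + W}) (y : ℤ),
    ENNReal.ofReal (Real.exp (θ * (σ * |(y : ℝ) - d.v * m| - X F d η (0, x.1) m y)))

/-- The cost of `j` cells. -/
def farc (κ : ℝ) (j : ℤ) : ℝ := κ * max (|(j : ℝ)| - 1) 0

variable {F : Fm} {d : Dr} {θ σ σ₀ W z k1 C0 κ : ℝ} {n m : ℕ}

theorem le_EG (η : Env) {x : ℤ} (h1 : z < x) (h2 : (x : ℝ) ≤ z + W) (y : ℤ) :
    ENNReal.ofReal (Real.exp (θ * (σ * |(y : ℝ) - d.v * m| - X F d η (0, x) m y))) ≤ EG F d θ σ W z m η := by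
  unfold EG
  exact le_iSup_of_le ⟨x, h1, h2⟩ (le_iSup_of_le y le_rfl)

theorem EG_le (η : Env) {c : ℝ≥0∞} (H : ∀ x y : ℤ, z < x → (x : ℝ) ≤ z + W →
    ENNReal.ofReal (Real.exp (θ * (σ * |(y : ℝ) - d.v * m| - X F d η (0, x) m y))) ≤ c) :
    EG F d θ σ W z m η ≤ c := by
  unfold EG
  exact iSup_le fun x => iSup_le fun y => H x.1 y x.2.1 x.2.2

theorem EG_mono (hθ : 0 ≤ θ) (hσ : σ ≤ σ₀) (η : Env) : EG F d θ σ W z m η ≤ EG F d θ σ₀ W z m η := by
  refine EG_le η fun x y h1 h2 => le_trans (ENNReal.ofReal_le_ofReal (Real.exp_le_exp.2 ?_)) (le_EG η h1 h2 y)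
  refine mul_le_mul_of_nonneg_left ?_ hθ
  have := mul_le_mul_of_nonneg_right hσ (abs_nonneg ((y : ℝ) - d.v * m))
  linarith

theorem EG_meas (hL : LwH F d) : Measurable fun η => EG F d θ σ W z m η := by
  unfold EG
  refine Measurable.iSup fun x => Measurable.iSup fun y => ?_
  exact (Real.measurable_exp.comp (((hL.meas (0, x.1) m y).const_sub _).const_mul θ)).ennreal_ofReal

theorem EG_congr (hL : LwH F d) {η η' : Env} (h : ∀ e ∈ F.co.rows 0 m, η e = η' e) :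
    EG F d θ σ W z m η = EG F d θ σ W z m η' := by
  unfold EG
  refine iSup_congr fun x => iSup_congr fun y => ?_
  have h1 : X F d η (0, x.1) m y = X F d η' (0, x.1) m y := by
    refine hL.dep (0, x.1) m y fun e he => h e ?_
    simpa using he
  rw [h1]

/-- The cell of a real number. -/
theorem cell_ex (hW : 0 < W) (u : ℝ) : ∃ j : ℤ, z + j * W < u ∧ u ≤ z + j * W + W := by
  refine ⟨⌈(u - z) / W⌉ - 1, ?_, ?_⟩
  · have a1 := Int.ceil_lt_add_one ((u - z) / W)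
    have a2 : ((⌈(u - z) / W⌉ - 1 : ℤ) : ℝ) < (u - z) / W := by push_cast; linarith
    rw [lt_div_iff₀ hW] at a2
    linarith
  · have a1 := Int.le_ceil ((u - z) / W)
    rw [div_le_iff₀ hW] at a1
    push_cast
    linarith

theorem far_le (hκ : 0 ≤ κ) (hW : 0 < W) {x u : ℝ} (x1 : z < x) (x2 : x ≤ z + W) {j : ℤ} (h1 : z + j * W < u)
    (h2 : u ≤ z + j * W + W) : farc (κ * W) j ≤ κ * |u - x| := by
  unfold farc
  rw [mul_assoc]
  refine mul_le_mul_of_nonneg_left ?_ hκ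
  rcases le_total (|(j : ℝ)| - 1) 0 with h3 | h3
  · rw [max_eq_right h3, mul_zero]
    exact abs_nonneg _
  · rw [max_eq_left h3]
    rcases le_total 0 (j : ℝ) with h4 | h4
    · rw [abs_of_nonneg h4]
      have h5 := le_abs_self (u - x)
      nlinarith
    · rw [abs_of_nonpos h4]
      have h5 := neg_abs_le (u - x)
      nlinarith

/-- The pointwise slab inequality. -/
theorem EG_slab (hC : CutH F d k1 C0) (hL : LwH F d) (hθ : 0 ≤ θ) (hσ : 0 ≤ σ) (hσ₀ : σ ≤ σ₀) (hk : σ₀ ≤ k1) (hW : 0 < W)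
    (hn : 1 ≤ n) (hm : 1 ≤ m) (η : Env) :
    EG F d θ σ W z (n + m) η ≤ EG F d θ σ₀ W z n η *
      ∑' j : ℤ, ENNReal.ofReal (Real.exp (θ * C0 - θ * farc ((σ₀ - σ) * W) j)) *
        EG F d θ σ W (z + j * W + d.v * n) m (F.shp ((n : ℤ), 0) η) := by
  refine EG_le η fun x y x1 x2 => ?_
  obtain ⟨r, r', hr⟩ := hC.cut η (0, x) n m y hn hm
  obtain ⟨j, j1, j2⟩ := cell_ex (z := z) hW ((x : ℝ) + r' - d.v * n)
  have hf := far_le (κ := σ₀ - σ) (by linarith) hW x1 x2 j1 j2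
  have e1 : X F d (F.shp ((n : ℤ), 0) η) (0, x + r') m (y - r') = X F d η ((0, x) + ((n : ℤ), r')) m (y - r') := by
    rw [hL.shX]
    congr 1
    refine Prod.ext ?_ ?_
    · simp
    · simp
  have q1 := le_EG (F := F) (d := d) (θ := θ) (σ := σ₀) η x1 x2 r (m := n)
  have q2 := le_EG (F := F) (d := d) (θ := θ) (σ := σ) (W := W) (z := z + j * W + d.v * n) (m := m)
    (F.shp ((n : ℤ), 0) η) (x := x + r') (by push_cast; linarith) (by push_cast; linarith) (y - r')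
  rw [e1] at q2
  have q3 : ENNReal.ofReal (Real.exp (θ * C0 - θ * farc ((σ₀ - σ) * W) j)) *
      EG F d θ σ W (z + j * W + d.v * n) m (F.shp ((n : ℤ), 0) η) ≤
      ∑' j : ℤ, ENNReal.ofReal (Real.exp (θ * C0 - θ * farc ((σ₀ - σ) * W) j)) *
        EG F d θ σ W (z + j * W + d.v * n) m (F.shp ((n : ℤ), 0) η) :=
    ENNReal.le_tsum (f := fun j : ℤ => ENNReal.ofReal (Real.exp (θ * C0 - θ * farc ((σ₀ - σ) * W) j)) *
        EG F d θ σ W (z + j * W + d.v * n) m (F.shp ((n : ℤ), 0) η)) j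
  refine le_trans ?_ (mul_le_mul' q1 ((mul_le_mul' le_rfl q2).trans q3))
  rw [← ENNReal.ofReal_mul (Real.exp_pos _).le, ← ENNReal.ofReal_mul (Real.exp_pos _).le, ← Real.exp_add, ← Real.exp_add]
  refine ENNReal.ofReal_le_ofReal (Real.exp_le_exp.2 ?_)
  have t1 : |(y : ℝ) - d.v * ((n + m : ℕ) : ℝ)| ≤ |(r : ℝ) - d.v * n| + |(r : ℝ) - r'| + |((y - r' : ℤ) : ℝ) - d.v * m| := by
    have e : (y : ℝ) - d.v * ((n + m : ℕ) : ℝ) = ((r : ℝ) - d.v * n) - ((r : ℝ) - r') + (((y - r' : ℤ) : ℝ) - d.v * m) := by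
      push_cast; ring
    rw [e]
    have h1 := abs_add_le (((r : ℝ) - d.v * n) - ((r : ℝ) - r')) (((y - r' : ℤ) : ℝ) - d.v * m)
    have h2 := abs_sub ((r : ℝ) - d.v * n) ((r : ℝ) - r')
    linarith
  have t2 : |(x : ℝ) + r' - d.v * n - x| ≤ |(r : ℝ) - d.v * n| + |(r : ℝ) - r'| := by
    have e : (x : ℝ) + r' - d.v * n - x = ((r : ℝ) - d.v * n) - ((r : ℝ) - r') := by ring
    rw [e]
    exact abs_sub _ _
  have t3 : (σ₀ - σ) * |(x : ℝ) + r' - d.v * n - x| ≤ (σ₀ - σ) * (|(r : ℝ) - d.v * n| + |(r : ℝ) - r'|) :=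
    mul_le_mul_of_nonneg_left t2 (by linarith)
  have t4 : σ * |(y : ℝ) - d.v * ((n + m : ℕ) : ℝ)| ≤
      σ * (|(r : ℝ) - d.v * n| + |(r : ℝ) - r'| + |((y - r' : ℤ) : ℝ) - d.v * m|) := mul_le_mul_of_nonneg_left t1 hσ
  have t5 : σ₀ * |(r : ℝ) - r'| ≤ k1 * |(r : ℝ) - r'| := mul_le_mul_of_nonneg_right hk (abs_nonneg _)
  have key : σ * |(y : ℝ) - d.v * ((n + m : ℕ) : ℝ)| - X F d η (0, x) (n + m) y ≤
      (σ₀ * |(r : ℝ) - d.v * n| - X F d η (0, x) n r) + (C0 - farc ((σ₀ - σ) * W) j +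
        (σ * |((y - r' : ℤ) : ℝ) - d.v * m| - X F d η ((0, x) + ((n : ℤ), r')) m (y - r'))) := by
    linarith
  have := mul_le_mul_of_nonneg_left key hθ
  linarith

/-- Functions of disjoint sets of edges are independent. -/
theorem lintegral_indep {f g : Env → ℝ≥0∞} {A B : Set Edge} (hf : Measurable f) (hg : Measurable g)
    (hfA : DependsOn f A) (hgB : DependsOn g B) (h : Disjoint A B) :
    ∫⁻ η, f η * g η ∂(law F) = (∫⁻ η, f η ∂(law F)) * ∫⁻ η, g η ∂(law F) := by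
  have hgA : DependsOn g Aᶜ := fun η η' hh => hgB fun p hp => hh p fun hpA => (Set.disjoint_left.mp h) hpA hp
  have hmp := Pool.Agent.W_7d29a1_f21.mp_splice (ι := Edge) (μ := F.nu) A
  have h1 := hmp.lintegral_comp (hf.mul hg)
  have h2 : ∀ w : Env × Env, f (Pool.Agent.W_7d29a1_f21.splice A w.1 w.2) * g (Pool.Agent.W_7d29a1_f21.splice A w.1 w.2) =
      f w.1 * g w.2 := by
    intro w
    congr 1
    · exact hfA fun p hp => Pool.Agent.W_7d29a1_f21.splice_mem _ _ hp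
    · exact hgA fun p hp => Pool.Agent.W_7d29a1_f21.splice_not_mem _ _ hp
  have h3 : ∫⁻ w : Env × Env, f w.1 * g w.2 ∂((law F).prod (law F)) = (∫⁻ η, f η ∂(law F)) * ∫⁻ η, g η ∂(law F) :=
    lintegral_prod_mul hf.aemeasurable hg.aemeasurable
  rw [← h3]
  refine h1.symm.trans (lintegral_congr fun w => ?_)
  exact h2 w

/-- The slab inequality in the mean. -/
theorem slab_mean (hC : CutH F d k1 C0) (hL : LwH F d) (hθ : 0 ≤ θ) (hσ : 0 ≤ σ) (hσ₀ : σ ≤ σ₀) (hk : σ₀ ≤ k1) (hW : 0 < W)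
    (hn : 1 ≤ n) (hm : 1 ≤ m) {D B : ℝ≥0∞} (H0 : ∀ z : ℝ, ∫⁻ η, EG F d θ σ₀ W z n η ∂(law F) ≤ D)
    (HB : ∀ z : ℝ, ∫⁻ η, EG F d θ σ W z m η ∂(law F) ≤ B) (z : ℝ) :
    ∫⁻ η, EG F d θ σ W z (n + m) η ∂(law F) ≤
      D * ((∑' j : ℤ, ENNReal.ofReal (Real.exp (θ * C0 - θ * farc ((σ₀ - σ) * W) j))) * B) := by
  refine (lintegral_mono fun η => EG_slab hC hL hθ hσ hσ₀ hk hW hn hm η).trans ?_
  have hm1 : Measurable fun η => EG F d θ σ₀ W z n η := EG_meas hL
  have hm2 : ∀ j : ℤ, Measurable fun η => ENNReal.ofReal (Real.exp (θ * C0 - θ * farc ((σ₀ - σ) * W) j)) *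
        EG F d θ σ W (z + j * W + d.v * n) m (F.shp ((n : ℤ), 0) η) := fun j =>
    ((EG_meas hL).comp (hL.mp _).measurable).const_mul _
  have hm3 : Measurable fun η => ∑' j : ℤ, ENNReal.ofReal (Real.exp (θ * C0 - θ * farc ((σ₀ - σ) * W) j)) *
        EG F d θ σ W (z + j * W + d.v * n) m (F.shp ((n : ℤ), 0) η) := Measurable.tsum hm2
  have d1 : DependsOn (fun η => EG F d θ σ₀ W z n η) (F.co.rows 0 n) := fun η η' h => EG_congr hL h
  have d2 : DependsOn (fun η => ∑' j : ℤ, ENNReal.ofReal (Real.exp (θ * C0 - θ * farc ((σ₀ - σ) * W) j)) *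
        EG F d θ σ W (z + j * W + d.v * n) m (F.shp ((n : ℤ), 0) η)) (F.co.rows n (n + m)) := by
    intro η η' h
    refine tsum_congr fun j => ?_
    congr 1
    unfold EG
    refine iSup_congr fun x => iSup_congr fun y => ?_
    have h1 : X F d (F.shp ((n : ℤ), 0) η) (0, x.1) m y = X F d (F.shp ((n : ℤ), 0) η') (0, x.1) m y := by
      rw [hL.shX, hL.shX]
      refine hL.dep _ m y fun e he => h e ?_
      simpa using he
    rw [h1]
  rw [lintegral_indep hm1 hm3 d1 d2 (Co.rows_disjoint le_rfl)]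
  refine mul_le_mul' (H0 z) ?_
  rw [lintegral_tsum fun j => (hm2 j).aemeasurable, ← ENNReal.tsum_mul_right]
  refine ENNReal.tsum_le_tsum fun j => ?_
  have hm4 : Measurable fun η => EG F d θ σ W (z + j * W + d.v * n) m (F.shp ((n : ℤ), 0) η) :=
    (EG_meas hL).comp (hL.mp _).measurable
  rw [lintegral_const_mul _ hm4]
  refine mul_le_mul' le_rfl ?_
  have h5 := (hL.mp ((n : ℤ), 0)).lintegral_comp (EG_meas (F := F) (d := d) (θ := θ) (σ := σ) (W := W)
    (z := z + j * W + d.v * n) (m := m) hL)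
  exact h5.le.trans (HB _)

theorem sum_far {x : ℝ} (hx : 0 < x) (M : ℕ) :
    ∑ j ∈ Finset.Icc (-(M : ℤ)) (M : ℤ), Real.exp (-(x * max (|(j : ℝ)| - 1) 0)) ≤ 3 + 2 / x := by
  have h1 : ∀ M : ℕ, ∑ j ∈ Finset.Icc (-(M : ℤ)) (M : ℤ), Real.exp (-(x * max (|(j : ℝ)| - 1) 0)) =
      1 + 2 * ∑ i ∈ Finset.range M, Real.exp (-x) ^ i := by
    intro M
    induction M with
    | zero => simp
    | succ M ih =>
      have e1 : Finset.Icc (-((M + 1 : ℕ) : ℤ)) ((M + 1 : ℕ) : ℤ) =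
          insert (-((M : ℤ) + 1)) (insert ((M : ℤ) + 1) (Finset.Icc (-(M : ℤ)) (M : ℤ))) := by
        ext j
        simp only [Finset.mem_Icc, Finset.mem_insert]
        push_cast
        omega
      have hn1 : (-((M : ℤ) + 1)) ∉ insert ((M : ℤ) + 1) (Finset.Icc (-(M : ℤ)) (M : ℤ)) := by
        simp only [Finset.mem_Icc, Finset.mem_insert]
        omega
      have hn2 : ((M : ℤ) + 1) ∉ Finset.Icc (-(M : ℤ)) (M : ℤ) := by
        simp only [Finset.mem_Icc]
        omega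
      rw [e1, Finset.sum_insert hn1, Finset.sum_insert hn2, ih, Finset.sum_range_succ]
      have hM : (0 : ℝ) ≤ M := Nat.cast_nonneg M
      have v1 : Real.exp (-(x * max (|((-((M : ℤ) + 1) : ℤ) : ℝ)| - 1) 0)) = Real.exp (-x) ^ M := by
        rw [← Real.exp_nat_mul]
        congr 1
        push_cast
        rw [abs_neg, abs_of_nonneg (by linarith), max_eq_left (by linarith)]
        ring
      have v2 : Real.exp (-(x * max (|((((M : ℤ) + 1) : ℤ) : ℝ)| - 1) 0)) = Real.exp (-x) ^ M := by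
        rw [← Real.exp_nat_mul]
        congr 1
        push_cast
        rw [abs_of_nonneg (by linarith), max_eq_left (by linarith)]
        ring
      rw [v1, v2]
      ring
  rw [h1 M]
  have hq : Real.exp (-x) < 1 := by
    rw [Real.exp_lt_one_iff]
    linarith
  have hg : ∑ i ∈ Finset.range M, Real.exp (-x) ^ i ≤ 1 + 1 / x := by
    have h2 : ∑ i ∈ Finset.range M, Real.exp (-x) ^ i ≤ (1 - Real.exp (-x))⁻¹ := by
      have h3 := Summable.sum_le_tsum (f := fun i : ℕ => Real.exp (-x) ^ i) (Finset.range M)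
        (fun i _ => by positivity) (summable_geometric_of_lt_one (Real.exp_pos _).le hq)
      rwa [tsum_geometric_of_lt_one (Real.exp_pos _).le hq] at h3
    refine h2.trans ?_
    have h4 : x / (1 + x) ≤ 1 - Real.exp (-x) := by
      have h5 : 1 + x ≤ Real.exp x := by linarith [Real.add_one_le_exp x]
      have h6 : Real.exp (-x) ≤ 1 / (1 + x) := by
        rw [Real.exp_neg, ← one_div]
        exact one_div_le_one_div_of_le (by linarith) h5
      have h7 : x / (1 + x) = 1 - 1 / (1 + x) := by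
        field_simp
        ring
      rw [h7]
      linarith
    have h8 : (1 - Real.exp (-x))⁻¹ ≤ (x / (1 + x))⁻¹ := inv_anti₀ (by positivity) h4
    refine h8.trans (le_of_eq ?_)
    field_simp
    ring
  linarith [show 2 * (1 + 1 / x) = 2 + 2 / x by ring]

/-- The sum over the cells. -/
theorem tsum_far (hθ : 0 < θ) (hκ : 0 < κ) :
    ∑' j : ℤ, ENNReal.ofReal (Real.exp (θ * C0 - θ * farc κ j)) ≤
      ENNReal.ofReal (Real.exp (θ * C0) * (3 + 2 / (θ * κ))) := by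
  rw [ENNReal.tsum_eq_iSup_sum]
  refine iSup_le fun s => ?_
  obtain ⟨M, hM⟩ : ∃ M : ℕ, s ⊆ Finset.Icc (-(M : ℤ)) (M : ℤ) := by
    refine ⟨s.sup fun j => j.natAbs, fun j hj => ?_⟩
    have h1 : j.natAbs ≤ s.sup fun j => j.natAbs := Finset.le_sup (f := fun j : ℤ => j.natAbs) hj
    rw [Finset.mem_Icc]
    omega
  refine (Finset.sum_le_sum_of_subset hM).trans ?_
  rw [← ENNReal.ofReal_sum_of_nonneg fun j _ => (Real.exp_pos _).le]
  refine ENNReal.ofReal_le_ofReal ?_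
  have e : ∀ j : ℤ, Real.exp (θ * C0 - θ * farc κ j) =
      Real.exp (θ * C0) * Real.exp (-((θ * κ) * max (|(j : ℝ)| - 1) 0)) := by
    intro j
    unfold farc
    rw [← Real.exp_add]
    congr 1
    ring
  simp only [e]
  rw [← Finset.mul_sum]
  exact mul_le_mul_of_nonneg_left (sum_far (mul_pos hθ hκ) M) (Real.exp_pos _).le

/-- All slabs. -/
theorem slabs_mean (hC : CutH F d k1 C0) (hL : LwH F d) (hθ : 0 < θ) (hσ : 0 ≤ σ) (hσ₀ : σ < σ₀) (hk : σ₀ ≤ k1)
    (hW : 0 < W) (hn : 1 ≤ n) {D : ℝ} (hD : 0 ≤ D)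
    (H0 : ∀ z : ℝ, ∫⁻ η, EG F d θ σ₀ W z n η ∂(law F) ≤ ENNReal.ofReal D) (k : ℕ) (z : ℝ) :
    ∫⁻ η, EG F d θ σ W z ((k + 1) * n) η ∂(law F) ≤
      ENNReal.ofReal (D * (D * (Real.exp (θ * C0) * (3 + 2 / (θ * ((σ₀ - σ) * W))))) ^ k) := by
  have hκ : 0 < (σ₀ - σ) * W := mul_pos (by linarith) hW
  have hS0 : 0 ≤ Real.exp (θ * C0) * (3 + 2 / (θ * ((σ₀ - σ) * W))) := by positivity
  induction k generalizing z with
  | zero =>
    rw [pow_zero, mul_one, zero_add, one_mul]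
    exact (lintegral_mono fun η => EG_mono hθ.le hσ₀.le η).trans (H0 z)
  | succ k ih =>
    have e1 : (k + 1 + 1) * n = n + (k + 1) * n := by ring
    rw [e1]
    have hm : 1 ≤ (k + 1) * n := Nat.one_le_iff_ne_zero.2 (by positivity)
    refine (slab_mean hC hL hθ.le hσ hσ₀.le hk hW hn hm H0 ih z).trans ?_
    refine (mul_le_mul' le_rfl (mul_le_mul' (tsum_far hθ hκ) le_rfl)).trans (le_of_eq ?_)
    rw [← ENNReal.ofReal_mul hS0, ← ENNReal.ofReal_mul hD]
    congr 1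
    ring

/-- Jensen. -/
theorem exp_integral_le {f : Env → ℝ} (hf : Integrable f (law F)) (hm : Measurable f) :
    ENNReal.ofReal (Real.exp (∫ η, f η ∂(law F))) ≤ ∫⁻ η, ENNReal.ofReal (Real.exp (f η)) ∂(law F) := by
  by_cases htop : ∫⁻ η, ENNReal.ofReal (Real.exp (f η)) ∂(law F) = ⊤
  · rw [htop]
    exact le_top
  have hem : AEStronglyMeasurable (fun η => Real.exp (f η)) (law F) :=
    (Real.measurable_exp.comp hm).aestronglyMeasurable
  have hei : Integrable (fun η => Real.exp (f η)) (law F) :=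
    (lintegral_ofReal_ne_top_iff_integrable hem (Eventually.of_forall fun η => (Real.exp_pos _).le)).1 htop
  rw [← ofReal_integral_eq_lintegral_ofReal hei (Eventually.of_forall fun η => (Real.exp_pos _).le)]
  refine ENNReal.ofReal_le_ofReal ?_
  obtain ⟨c, hc⟩ : ∃ c, c = ∫ η, f η ∂(law F) := ⟨_, rfl⟩
  rw [← hc]
  have hfc : Integrable (fun η => f η - c) (law F) := hf.sub (integrable_const c)
  have h1 : ∫ η, Real.exp c * (1 + (f η - c)) ∂(law F) = Real.exp c := by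
    rw [integral_const_mul, integral_add (integrable_const _) hfc,
      integral_sub hf (integrable_const _), integral_const, integral_const, probReal_univ, one_smul, one_smul, ← hc,
      sub_self, add_zero, mul_one]
  rw [← h1]
  refine integral_mono (((integrable_const _).add hfc).const_mul _) hei fun η => ?_
  show Real.exp c * (1 + (f η - c)) ≤ Real.exp (f η)
  have h2 : f η = c + (f η - c) := by ring
  have h3 := Real.add_one_le_exp (f η - c)
  calc Real.exp c * (1 + (f η - c)) ≤ Real.exp c * Real.exp (f η - c) :=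
        mul_le_mul_of_nonneg_left (by linarith) (Real.exp_pos _).le
    _ = Real.exp (f η) := by rw [← Real.exp_add, ← h2]

/-- ONE CONE, the means over the multiples of `n`. -/
theorem cone_e (hC : CutH F d k1 C0) (hL : LwH F d) (hθ : 0 < θ) (hσ : 0 ≤ σ) (hσ₀ : σ < σ₀) (hk : σ₀ ≤ k1)
    (hW : 0 < W) (hn : 1 ≤ n) {D : ℝ}
    (H0 : ∀ z : ℝ, ∫⁻ η, EG F d θ σ₀ W z n η ∂(law F) ≤ ENNReal.ofReal D) (hD : 1 ≤ D) (hC0 : 0 ≤ C0) (k : ℕ) (y : ℤ) :
    σ * |(y : ℝ) - d.v * ((k * n : ℕ) : ℝ)| -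
      k * (Real.log (D * (Real.exp (θ * C0) * (3 + 2 / (θ * ((σ₀ - σ) * W))))) / θ) ≤ e F d (k * n) y ∨ k = 0 := by
  rcases Nat.eq_zero_or_pos k with h0 | h0
  · exact Or.inr h0
  left
  obtain ⟨i, rfl⟩ : ∃ i, k = i + 1 := ⟨k - 1, by omega⟩
  obtain ⟨G, hG⟩ : ∃ G : ℝ, G = D * (Real.exp (θ * C0) * (3 + 2 / (θ * ((σ₀ - σ) * W)))) := ⟨_, rfl⟩
  have hκ : 0 < (σ₀ - σ) * W := mul_pos (by linarith) hW
  have hS1 : 1 ≤ Real.exp (θ * C0) * (3 + 2 / (θ * ((σ₀ - σ) * W))) := by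
    have h1 : 1 ≤ Real.exp (θ * C0) := Real.one_le_exp (by positivity)
    have h2 : 1 ≤ 3 + 2 / (θ * ((σ₀ - σ) * W)) := by
      have : 0 < 2 / (θ * ((σ₀ - σ) * W)) := by positivity
      linarith
    nlinarith
  have hDG : D ≤ G := by
    rw [hG]
    nlinarith
  have hG0 : 0 < G := by linarith
  have hb := slabs_mean hC hL hθ hσ hσ₀ hk hW hn (by linarith) H0 i (-W)
  rw [← hG] at hb
  rw [← hG]
  have hn' : 1 ≤ (i + 1) * n := Nat.one_le_iff_ne_zero.2 (by positivity)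
  have h1 : ∀ η, ENNReal.ofReal (Real.exp (θ * (σ * |(y : ℝ) - d.v * (((i + 1) * n : ℕ) : ℝ)| -
      X F d η 0 ((i + 1) * n) y))) ≤ EG F d θ σ W (-W) ((i + 1) * n) η := by
    intro η
    have h2 := le_EG (F := F) (d := d) (θ := θ) (σ := σ) (W := W) (z := -W) (m := (i + 1) * n) η (x := 0)
      (by push_cast; linarith) (by push_cast; linarith) y
    exact h2
  have hint := hL.int ((i + 1) * n) y hn'
  have hi2 : Integrable (fun η => θ * (σ * |(y : ℝ) - d.v * (((i + 1) * n : ℕ) : ℝ)| - X F d η 0 ((i + 1) * n) y)) (law F) :=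
    ((integrable_const _).sub hint).const_mul _
  have hm2 : Measurable fun η => θ * (σ * |(y : ℝ) - d.v * (((i + 1) * n : ℕ) : ℝ)| - X F d η 0 ((i + 1) * n) y) :=
    ((hL.meas 0 ((i + 1) * n) y).const_sub _).const_mul _
  have h3 := (exp_integral_le hi2 hm2).trans ((lintegral_mono h1).trans hb)
  have h4 : ∫ η, θ * (σ * |(y : ℝ) - d.v * (((i + 1) * n : ℕ) : ℝ)| - X F d η 0 ((i + 1) * n) y) ∂(law F) =
      θ * (σ * |(y : ℝ) - d.v * (((i + 1) * n : ℕ) : ℝ)| - e F d ((i + 1) * n) y) := by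
    rw [integral_const_mul, integral_sub (integrable_const _) hint, integral_const, probReal_univ, one_smul]
    rfl
  rw [h4, ENNReal.ofReal_le_ofReal_iff (by positivity)] at h3
  have h5 : D * G ^ i ≤ G ^ (i + 1) := by
    rw [pow_succ, mul_comm]
    exact mul_le_mul_of_nonneg_left hDG (by positivity)
  have h6 := Real.log_le_log (Real.exp_pos _) (h3.trans h5)
  rw [Real.log_exp, Real.log_pow] at h6
  have h7 : σ * |(y : ℝ) - d.v * (((i + 1) * n : ℕ) : ℝ)| - e F d ((i + 1) * n) y ≤ ((i + 1 : ℕ) : ℝ) * Real.log G / θ := by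
    rw [le_div_iff₀ hθ]
    linarith
  rw [mul_div_assoc] at h7
  linarith

end

end Pool.Agent.W_1b8d5d_p
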