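import Pool.Agent.W_1b8d5d_p.FrCut

/-!
MP_1b8d5d_pr, Track P. The slab passage times `TT` between grid points: (A) concatenation, (B) cut with a lateral jump,
(D) Lipschitz bounds, upper and lower bounds; the same for the cost `X`.
-/

namespace Pool.Agent.W_1b8d5d_p

open MeasureTheory Set
open Pool.Agent.W_1b8d5d_h85

section TT

variable {c : Co} {α β : ℝ} {τ : Env}

theorem TT_zero (hτ : Bd α β τ) (hα : 0 ≤ α) (a : Pt) : TT c τ a 0 0 = 0 := by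
  unfold TT
  have h : a + (((0 : ℕ) : ℤ), (0 : ℤ)) = a := by ext <;> simp
  rw [h]
  refine le_antisymm ?_ (TR_nonneg hτ hα _ _ _)
  have := TR_le hτ hα (SimpleGraph.Walk.nil : grid.Walk (c.vt a) (c.vt a)) (S := c.slab a.1 (a.1 + (0 : ℕ)))
    (by intro e he; simp [wedges] at he)
  simpa [cost, wedges] using this

theorem TT_nonneg (hτ : Bd α β τ) (hα : 0 ≤ α) (a : Pt) (n : ℕ) (y : ℤ) : 0 ≤ TT c τ a n y := TR_nonneg hτ hα _ _ _

/-- **(A)** CONCATENATION. -/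
theorem TT_tri (hτ : Bd α β τ) (hα : 0 ≤ α) (a : Pt) {m n : ℕ} (hm : 1 ≤ m) (hn : 1 ≤ n) (y z : ℤ) :
    TT c τ a (m + n) (y + z) ≤ TT c τ a m y + TT c τ (a + ((m : ℤ), y)) n z := by
  unfold TT
  have e1 : a + (((m + n : ℕ) : ℤ), y + z) = a + ((m : ℤ), y) + ((n : ℤ), z) := by
    ext
    · simp only [Prod.fst_add]; push_cast; ring
    · simp only [Prod.snd_add]; ring
  rw [e1]
  refine TR_triangle hτ hα (Co.ne_vt a hm y) (Co.ne_vt (a + ((m : ℤ), y)) hn z) ?_ ?_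
  · exact Co.slab_mono le_rfl (by push_cast; omega)
  · exact Co.slab_mono (by simp only [Prod.fst_add]; omega) (by simp only [Prod.fst_add]; push_cast; omega)

theorem TT_tri' (hτ : Bd α β τ) (hα : 0 ≤ α) (a : Pt) (m n : ℕ) (y z : ℤ) (hm : m = 0 → y = 0) (hn : n = 0 → z = 0) :
    TT c τ a (m + n) (y + z) ≤ TT c τ a m y + TT c τ (a + ((m : ℤ), y)) n z := by
  rcases Nat.eq_zero_or_pos m with h | h
  · subst h
    rw [hm rfl, TT_zero hτ hα, zero_add, zero_add, zero_add]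
    have : a + (((0 : ℕ) : ℤ), (0 : ℤ)) = a := by ext <;> simp
    rw [this]
  rcases Nat.eq_zero_or_pos n with h' | h'
  · subst h'
    rw [hn rfl, TT_zero hτ hα, add_zero, add_zero, add_zero]
  · exact TT_tri hτ hα a h h' y z

/-- Lower bound. -/
theorem TT_lower (hτ : Bd α β τ) (hα : 0 ≤ α) (a : Pt) {n : ℕ} (hn : 1 ≤ n) (y : ℤ) :
    α * nm (c.vt ((n : ℤ), y)) ≤ TT c τ a n y := by
  have h := TR_lower hτ hα (Co.ne_vt (c := c) a hn y)
  have e1 : c.vt (a + ((n : ℤ), y)) - c.vt a = c.vt ((n : ℤ), y) := by rw [Co.vt_add, add_sub_cancel_left]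
  rw [e1] at h
  exact h

/-- Upper bound. -/
theorem TT_upper (hτ : Bd α β τ) (hα : 0 ≤ α) (hβ : 0 ≤ β) (a : Pt) {n : ℕ} (hn : 1 ≤ n) (y : ℤ) :
    TT c τ a n y ≤ β * (nm (c.vt ((n : ℤ), y)) + 4) := by
  have hL := c.L_pos
  have h1 : c.L * a.1 ≤ c.L * (a.1 + n) := mul_le_mul_of_nonneg_left (by omega) (by omega)
  obtain ⟨w, hw, hl⟩ := Co.slab_conn (c := c) (s := a.1) (t := a.1 + n) (x := c.vt a) (y := c.vt (a + ((n : ℤ), y)))
    (by omega) (by rw [Co.tm_vt]; exact ⟨le_rfl, h1⟩) (by rw [Co.tm_vt]; exact ⟨h1, le_rfl⟩)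
  have h2 := TR_le hτ hα w hw
  have h3 := cost_le hτ w
  have e1 : c.vt (a + ((n : ℤ), y)) - c.vt a = c.vt ((n : ℤ), y) := by rw [Co.vt_add, add_sub_cancel_left]
  rw [e1] at hl
  exact h2.trans (h3.trans (mul_le_mul_of_nonneg_left hl hβ))

/-- **(D)** Two end points. -/
theorem TT_end (hτ : Bd α β τ) (hα : 0 ≤ α) (hβ : 0 ≤ β) (a : Pt) {n : ℕ} (hn : 1 ≤ n) (y y' : ℤ) :
    TT c τ a n y ≤ TT c τ a n y' + β * (c.M * |(y : ℝ) - y'| + 4) := by
  have hL := c.L_pos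
  have h1 : c.L * a.1 ≤ c.L * (a.1 + n) := mul_le_mul_of_nonneg_left (by omega) (by omega)
  obtain ⟨w, hw, hl⟩ := Co.slab_conn (c := c) (s := a.1) (t := a.1 + n) (x := c.vt (a + ((n : ℤ), y')))
    (y := c.vt (a + ((n : ℤ), y)))
    (by omega) (by rw [Co.tm_vt]; exact ⟨h1, le_rfl⟩) (by rw [Co.tm_vt]; exact ⟨h1, le_rfl⟩)
  have h2 := TR_concat_le hτ hα w hw (Co.ne_vt a hn y')
  refine h2.trans (add_le_add le_rfl (mul_le_mul_of_nonneg_left ?_ hβ))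
  have h3 : c.vt (a + ((n : ℤ), y)) - c.vt (a + ((n : ℤ), y')) = c.vt (0, y - y') := by
    rw [← Co.vt_sub]
    congr 1
    ext <;> simp
  rw [h3, c.nm_lat] at hl
  push_cast at hl
  exact hl

/-- Two starting points, the same end point. -/
theorem TT_start (hτ : Bd α β τ) (hα : 0 ≤ α) (hβ : 0 ≤ β) (a : Pt) {n : ℕ} (hn : 1 ≤ n) (y k : ℤ) :
    TT c τ a n y ≤ β * (c.M * |(k : ℝ)| + 4) + TT c τ (a + (0, k)) n (y - k) := by
  have hL := c.L_pos
  have h1 : c.L * a.1 ≤ c.L * (a.1 + n) := mul_le_mul_of_nonneg_left (by omega) (by omega)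
  obtain ⟨w, hw, hl⟩ := Co.slab_conn (c := c) (s := a.1) (t := a.1 + n) (x := c.vt a) (y := c.vt (a + (0, k)))
    (by omega) (by rw [Co.tm_vt]; exact ⟨le_rfl, h1⟩)
    (by rw [Co.tm_vt]; simp only [Prod.fst_add, add_zero]; exact ⟨le_rfl, h1⟩)
  have e2 : a + (0, k) + ((n : ℤ), y - k) = a + ((n : ℤ), y) := by ext <;> simp
  have e1 : TT c τ (a + (0, k)) n (y - k) = TR (c.slab a.1 (a.1 + n)) τ (c.vt (a + (0, k))) (c.vt (a + ((n : ℤ), y))) := by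
    unfold TT
    rw [e2]
    simp only [Prod.fst_add, add_zero]
  have h2 := TR_cons_le hτ hα w hw (z := c.vt (a + ((n : ℤ), y))) (by
    have := Co.ne_vt (c := c) (a + (0, k)) hn (y - k)
    rw [e2] at this
    simpa only [Prod.fst_add, add_zero] using this)
  rw [e1]
  refine h2.trans (add_le_add (mul_le_mul_of_nonneg_left ?_ hβ) le_rfl)
  have h3 : c.vt (a + (0, k)) - c.vt a = c.vt (0, k) := by
    rw [← Co.vt_sub]
    congr 1
    ext <;> simp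
  rw [h3, c.nm_lat] at hl
  exact hl

/-- **(B)** THE CUT. -/
theorem TT_cut (hτ : Bd α β τ) (hα : 0 < α) (hαβ : α ≤ β) (a : Pt) {m n : ℕ} (hm : 1 ≤ m) (hn : 1 ≤ n) (y : ℤ) :
    ∃ k k' : ℤ, TT c τ a m k + α * (c.M * |(k : ℝ) - k'|) + TT c τ (a + ((m : ℤ), k')) n (y - k') ≤
      TT c τ a (m + n) y + C0 c β := by
  have hL := c.L_pos
  obtain ⟨w, -, hw, hc⟩ := TR_min hτ hα (Co.ne_vt (c := c) a (n := m + n) (by omega) y)
  have h1 : c.L * a.1 < c.L * (a.1 + m) := by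
    have : c.L * (a.1 + 1) ≤ c.L * (a.1 + m) := mul_le_mul_of_nonneg_left (by omega) (by omega)
    linarith [mul_add c.L a.1 1]
  have h2 : c.L * (a.1 + m) < c.L * (a.1 + (m + n : ℕ)) := by
    have : c.L * (a.1 + m + 1) ≤ c.L * (a.1 + (m + n : ℕ)) := mul_le_mul_of_nonneg_left (by push_cast; omega) (by omega)
    linarith [mul_add c.L (a.1 + m) 1]
  obtain ⟨k, k', hk⟩ := cut_walk (c := c) hτ hα hαβ (s := a.1) (m := a.1 + m) (t := a.1 + (m + n : ℕ))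
    (x := c.vt a) (z := c.vt (a + (((m + n : ℕ) : ℤ), y)))
    (by rw [Co.tm_vt]; exact ⟨le_rfl, h1⟩) (by rw [Co.tm_vt]; exact ⟨h2, le_rfl⟩) w hw
  refine ⟨k - a.2, k' - a.2, ?_⟩
  have e1 : TT c τ a m (k - a.2) = TR (c.slab a.1 (a.1 + m)) τ (c.vt a) (c.vt (a.1 + m, k)) := by
    unfold TT
    congr 2
    ext <;> simp
  have e2 : TT c τ (a + ((m : ℤ), k' - a.2)) n (y - (k' - a.2)) =
      TR (c.slab (a.1 + m) (a.1 + (m + n : ℕ))) τ (c.vt (a.1 + m, k')) (c.vt (a + (((m + n : ℕ) : ℤ), y))) := by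
    unfold TT
    have f1 : a + ((m : ℤ), k' - a.2) = (a.1 + m, k') := by ext <;> simp
    have f2 : a + ((m : ℤ), k' - a.2) + ((n : ℤ), y - (k' - a.2)) = a + (((m + n : ℕ) : ℤ), y) := by
      ext
      · simp only [Prod.fst_add]; push_cast; ring
      · simp only [Prod.snd_add]; ring
    rw [f2, f1]
    simp only
    rw [show a.1 + (m : ℤ) + n = a.1 + ((m + n : ℕ) : ℤ) by push_cast; ring]
  have e3 : ((k - a.2 : ℤ) : ℝ) - ((k' - a.2 : ℤ) : ℝ) = (k : ℝ) - k' := by push_cast; ring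
  rw [e1, e2, e3]
  unfold TT
  rw [← hc]
  exact hk

/-- Dependence. -/
theorem TT_dep (c : Co) (a : Pt) (n : ℕ) (y : ℤ) : DependsOn (fun τ : Env => TT c τ a n y) (c.slab a.1 (a.1 + n)) :=
  TR_dep _ _ _

theorem TT_meas (c : Co) (a : Pt) (n : ℕ) (y : ℤ) : Measurable fun τ : Env => TT c τ a n y := TR_meas _ _ _

/-- Shifts. -/
theorem sh_mem_slab (c : Co) (b : Pt) (s t : ℤ) (x : V) (σ : Bool) :
    (x + c.vt b, σ) ∈ c.slab (s + b.1) (t + b.1) ↔ (x, σ) ∈ c.slab s t := by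
  change (_ ∧ _ ∧ _ ∧ _) ↔ (_ ∧ _ ∧ _ ∧ _)
  simp only
  rw [show x + c.vt b + dir σ = x + dir σ + c.vt b by abel, Co.tm_add, Co.tm_add _ (x + dir σ), Co.tm_vt, mul_add,
    mul_add]
  constructor
  · rintro ⟨h1, h2, h3, h4⟩
    exact ⟨by omega, by omega, by omega, by omega⟩
  · rintro ⟨h1, h2, h3, h4⟩
    exact ⟨by omega, by omega, by omega, by omega⟩

end TT

end Pool.Agent.W_1b8d5d_p
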