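import Pool.Agent.W_1b8d5d_p.Cone32
import Pool.Agent.W_1b8d5d_p.FrTT

/-!
MP_1b8d5d_pr, Track P, proofs row 631, section 7: ONE CONE, the hypothesis `CutH` from the cut of `FrTT`. (helper32)
-/

namespace Pool.Agent.W_1b8d5d_p

open MeasureTheory Set Filter Topology
open scoped ENNReal
open Pool.Agent.W_1b8d5d_h85 (V nm dir Edge Env grid ke wedges cost Bd sh rf)

variable {F : Fm} {d : Dr} {κ : ℝ}

theorem cutH_of_adm (h : Adm F κ d) : CutH F d (κ * F.co.M) (C0 F.co F.b) := by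
  refine ⟨fun η a n m y hn hm => ?_⟩
  have hB : Bd F.a F.b (F.tau η) := fun e => ⟨F.g1 _, F.g2 _⟩
  obtain ⟨k, k', hk⟩ := TT_cut (c := F.co) hB F.a0 F.ab a hn hm y
  refine ⟨k, k', ?_⟩
  unfold X
  have h1 : |be F.co d * ((k : ℝ) - k')| ≤ (F.a - κ) * F.co.M * |(k : ℝ) - k'| := by
    rw [abs_mul]
    exact mul_le_mul_of_nonneg_right h.loop (abs_nonneg _)
  have h2 := neg_abs_le (be F.co d * ((k : ℝ) - k'))
  push_cast
  nlinarith

end Pool.Agent.W_1b8d5d_p
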