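import Pool.Agent.W_1b8d5d_p.Cone32B
import Pool.Agent.W_1b8d5d_p.FrLaw
import Pool.Agent.W_1b8d5d_p.FrPair

/-!
MP_1b8d5d_pr, Track P, proofs row 631, section 7: ONE CONE, the final form for admissible directions. (helper32)
-/

namespace Pool.Agent.W_1b8d5d_p

open MeasureTheory Set Filter Topology
open scoped ENNReal
open Pool.Agent.W_1b8d5d_h85 (V nm dir Edge Env grid ke wedges cost Bd sh rf)

variable {F : Fm} {d : Dr} {κ θ σ σ₀ W D : ℝ} {n : ℕ}

private theorem tau_meas (F : Fm) : Measurable F.tau :=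
  measurable_pi_lambda _ fun e => F.mg.comp (measurable_pi_apply e)

private theorem bd_tau (F : Fm) (η : Env) : Bd F.a F.b (F.tau η) := fun _ => ⟨F.g1 _, F.g2 _⟩

theorem lwH (F : Fm) (d : Dr) : LwH F d where
  meas a n y := ((TT_meas F.co a n y).comp (tau_meas F)).sub_const _
  dep a n y := by
    intro η η' h
    have h1 : TT F.co (F.tau η) a n y = TT F.co (F.tau η') a n y := by
      refine TT_dep F.co a n y fun e he => ?_
      show F.g (η e) = F.g (η' e)
      rw [h e (Co.slab_subset_rows _ _ he)]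
    show X F d η a n y = X F d η' a n y
    unfold X
    rw [h1]
  int n y hn := by
    refine (Integrable.sub ?_ (integrable_const _))
    have hm : Measurable fun η => TT F.co (F.tau η) 0 n y := (TT_meas F.co 0 n y).comp (tau_meas F)
    refine Integrable.of_bound hm.aestronglyMeasurable (F.b * (nm (F.co.vt ((n : ℤ), y)) + 4))
      (Filter.Eventually.of_forall fun η => ?_)
    rw [Real.norm_eq_abs, abs_of_nonneg (TT_nonneg (bd_tau F η) F.a0.le 0 n y)]
    exact TT_upper (bd_tau F η) F.a0.le (F.a0.le.trans F.ab) 0 hn y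
  mp := mp_shp F
  shX η a b n y := by
    unfold X
    have h1 : F.tau (F.shp a η) = sh (F.co.vt a) (F.tau η) := rfl
    rw [h1, TT_sh, add_comm b a]

/-- ONE CONE for an admissible direction. -/
theorem one_cone_e (h : Adm F κ d) (hθ : 0 < θ) (hσ : 0 ≤ σ) (hσ₀ : σ < σ₀) (hk : σ₀ ≤ κ * F.co.M)
    (hW : 0 < W) (hn : 1 ≤ n) (hD : 1 ≤ D)
    (H0 : ∀ z : ℝ, ∫⁻ η, EG F d θ σ₀ W z n η ∂(law F) ≤ ENNReal.ofReal D) {k : ℕ} (hk1 : 1 ≤ k) (y : ℤ) :
    σ * |(y : ℝ) - d.v * ((k * n : ℕ) : ℝ)| -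
      k * (Real.log (D * (Real.exp (θ * C0 F.co F.b) * (3 + 2 / (θ * ((σ₀ - σ) * W))))) / θ) ≤ e F d (k * n) y := by
  have hb : 0 ≤ F.b := F.a0.le.trans F.ab
  have hC0 : 0 ≤ C0 F.co F.b := by
    have h1 : (0 : ℝ) ≤ F.co.M := by
      have : (0 : ℤ) ≤ F.co.M := by have := F.co.M_pos; omega
      exact_mod_cast this
    have h2 : (0 : ℝ) ≤ F.co.R := by
      have : (0 : ℤ) ≤ F.co.R := by have := F.co.R_pos; omega
      exact_mod_cast this
    unfold C0
    positivity
  rcases cone_e (cutH_of_adm h) (lwH F d) hθ hσ hσ₀ hk hW hn H0 hD hC0 k y with h1 | h1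
  · exact h1
  · omega

/-- The exponential moment of one slab from a random variable above all tilted lucks of the starts of a cell. -/
theorem EG_of_box {M : Env → ℝ} (hθ : 0 ≤ θ) {z : ℝ}
    (hM : ∀ (η : Env) (x y : ℤ), z < x → (x : ℝ) ≤ z + W → σ₀ * |(y : ℝ) - d.v * n| - X F d η (0, x) n y ≤ M η)
    (hi : Integrable (fun η => Real.exp (θ * M η)) (law F)) (hD : ∫ η, Real.exp (θ * M η) ∂(law F) ≤ D) :
    ∫⁻ η, EG F d θ σ₀ W z n η ∂(law F) ≤ ENNReal.ofReal D := by
  have h1 : ∀ η, EG F d θ σ₀ W z n η ≤ ENNReal.ofReal (Real.exp (θ * M η)) := fun η =>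
    EG_le η fun x y x1 x2 => ENNReal.ofReal_le_ofReal (Real.exp_le_exp.2 (mul_le_mul_of_nonneg_left (hM η x y x1 x2) hθ))
  refine (lintegral_mono h1).trans ?_
  rw [← ofReal_integral_eq_lintegral_ofReal hi (Filter.Eventually.of_forall fun η => (Real.exp_pos _).le)]
  exact ENNReal.ofReal_le_ofReal hD

end Pool.Agent.W_1b8d5d_p
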