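import Pool.Agent.W_1b8d5d_p.Cone32C

/-!
# Track P of `MP_1b8d5d_pr`: one cone with a small mass `0 < D`, and directions with a linear tilt

`cone_e'` is `cone_e` of `Cone32` with `0 < D` in the place of `1 ≤ D`. `tilt32 F d l u` is the direction `d` with the additional
linear tilt `l (y - u n)`: `X F (tilt32 F d l u) η a n y = X F d η a n y - l (y - u n)`, slope `u`.
-/

namespace Pool.Agent.W_1b8d5d_p

open MeasureTheory
open scoped ENNReal
open Pool.Agent.W_1b8d5d_h85 (Env)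

noncomputable section

variable {F : Fm} {d : Dr} {θ σ σ₀ W k1 C0 : ℝ} {n : ℕ}

/-- ONE CONE, the means over the multiples of `n`, any mass `0 < D`. -/
theorem cone_e' (hC : CutH F d k1 C0) (hL : LwH F d) (hθ : 0 < θ) (hσ : 0 ≤ σ) (hσ₀ : σ < σ₀) (hk : σ₀ ≤ k1)
    (hW : 0 < W) (hn : 1 ≤ n) {D : ℝ}
    (H0 : ∀ z : ℝ, ∫⁻ η, EG F d θ σ₀ W z n η ∂(law F) ≤ ENNReal.ofReal D) (hD : 0 < D) (hC0 : 0 ≤ C0) {k : ℕ}
    (hk1 : 1 ≤ k) (y : ℤ) :
    σ * |(y : ℝ) - d.v * ((k * n : ℕ) : ℝ)| -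
      k * (Real.log (D * (Real.exp (θ * C0) * (3 + 2 / (θ * ((σ₀ - σ) * W))))) / θ) ≤ e F d (k * n) y := by
  obtain ⟨i, rfl⟩ : ∃ i, k = i + 1 := ⟨k - 1, by omega⟩
  obtain ⟨G, hG⟩ : ∃ G : ℝ, G = D * (Real.exp (θ * C0) * (3 + 2 / (θ * ((σ₀ - σ) * W)))) := ⟨_, rfl⟩
  have hκ : 0 < (σ₀ - σ) * W := mul_pos (by linarith) hW
  have hS1 : 1 ≤ Real.exp (θ * C0) * (3 + 2 / (θ * ((σ₀ - σ) * W))) := by
    have h1 : 1 ≤ Real.exp (θ * C0) := Real.one_le_exp (by positivity)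
    have h2 : 1 ≤ 3 + 2 / (θ * ((σ₀ - σ) * W)) := by
      have : 0 < 2 / (θ * ((σ₀ - σ) * W)) := by positivity
      linarith
    nlinarith
  have hDG : D ≤ G := by
    rw [hG]
    nlinarith
  have hG0 : 0 < G := by linarith
  have hb := slabs_mean hC hL hθ hσ hσ₀ hk hW hn hD.le H0 i (-W)
  rw [← hG] at hb
  rw [← hG]
  have hn' : 1 ≤ (i + 1) * n := Nat.one_le_iff_ne_zero.2 (by positivity)
  have h1 : ∀ η, ENNReal.ofReal (Real.exp (θ * (σ * |(y : ℝ) - d.v * (((i + 1) * n : ℕ) : ℝ)| -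
      X F d η 0 ((i + 1) * n) y))) ≤ EG F d θ σ W (-W) ((i + 1) * n) η := by
    intro η
    have h2 := le_EG (F := F) (d := d) (θ := θ) (σ := σ) (W := W) (z := -W) (m := (i + 1) * n) η (x := 0)
      (by push_cast; linarith) (by push_cast; linarith) y
    exact h2
  have hint := hL.int ((i + 1) * n) y hn'
  have hi2 : Integrable (fun η => θ * (σ * |(y : ℝ) - d.v * (((i + 1) * n : ℕ) : ℝ)| - X F d η 0 ((i + 1) * n) y)) (law F) :=
    ((integrable_const _).sub hint).const_mul _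
  have hm2 : Measurable fun η => θ * (σ * |(y : ℝ) - d.v * (((i + 1) * n : ℕ) : ℝ)| - X F d η 0 ((i + 1) * n) y) :=
    ((hL.meas 0 ((i + 1) * n) y).const_sub _).const_mul _
  have h3 := (exp_integral_le hi2 hm2).trans ((lintegral_mono h1).trans hb)
  have h4 : ∫ η, θ * (σ * |(y : ℝ) - d.v * (((i + 1) * n : ℕ) : ℝ)| - X F d η 0 ((i + 1) * n) y) ∂(law F) =
      θ * (σ * |(y : ℝ) - d.v * (((i + 1) * n : ℕ) : ℝ)| - e F d ((i + 1) * n) y) := by
    rw [integral_const_mul, integral_sub (integrable_const _) hint, integral_const, probReal_univ, one_smul]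
    rfl
  rw [h4, ENNReal.ofReal_le_ofReal_iff (by positivity)] at h3
  have h5 : D * G ^ i ≤ G ^ (i + 1) := by
    rw [pow_succ, mul_comm]
    exact mul_le_mul_of_nonneg_left hDG (by positivity)
  have h6 := Real.log_le_log (Real.exp_pos _) (h3.trans h5)
  rw [Real.log_exp, Real.log_pow] at h6
  have h7 : σ * |(y : ℝ) - d.v * (((i + 1) * n : ℕ) : ℝ)| - e F d ((i + 1) * n) y ≤ ((i + 1 : ℕ) : ℝ) * Real.log G / θ := by
    rw [le_div_iff₀ hθ]
    linarith
  rw [mul_div_assoc] at h7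
  linarith

/-- The direction `d` with the additional tilt `l (y - u n)` and the slope `u`. -/
def tilt32 (F : Fm) (d : Dr) (l u : ℝ) : Dr where
  h1 := d.h1 - l * u / F.co.L * F.co.p - l * F.co.s
  h2 := d.h2 - l * u / F.co.L * F.co.q + l * F.co.r
  v := u

theorem tilt_v32 (F : Fm) (d : Dr) (l u : ℝ) : (tilt32 F d l u).v = u := rfl

theorem be_tilt32 (F : Fm) (d : Dr) (l u : ℝ) : be F.co (tilt32 F d l u) = be F.co d + l := by
  have hdet : (F.co.p : ℝ) * F.co.r + F.co.q * F.co.s = 1 := by exact_mod_cast F.co.det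
  unfold be tilt32
  dsimp only
  linear_combination l * hdet

theorem al_tilt32 (F : Fm) (d : Dr) (l u : ℝ) : al F.co (tilt32 F d l u) = al F.co d - l * u := by
  have hdet : (F.co.p : ℝ) * F.co.r + F.co.q * F.co.s = 1 := by exact_mod_cast F.co.det
  have hL : (F.co.L : ℝ) ≠ 0 := by
    have h1 := F.co.hp
    have h2 := F.co.hq
    have h3 : (0 : ℤ) < F.co.L := by
      unfold Co.L
      omega
    exact_mod_cast h3.ne'
  have h1 : (F.co.L : ℝ) * (l * u / F.co.L) = l * u := by field_simp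
  unfold al tilt32
  dsimp only
  linear_combination (-((F.co.p : ℝ) * F.co.r + F.co.q * F.co.s)) * h1 - l * u * hdet

/-- The tilted process. -/
theorem X_tilt32 (F : Fm) (d : Dr) (l u : ℝ) (η : Env) (a : Pt) (n : ℕ) (y : ℤ) :
    X F (tilt32 F d l u) η a n y = X F d η a n y - l * ((y : ℝ) - u * n) := by
  unfold X
  rw [al_tilt32, be_tilt32]
  ring

/-- The tilted mean. -/
theorem e_tilt32 (F : Fm) (d : Dr) (l u : ℝ) {n : ℕ} (hn : 1 ≤ n) (y : ℤ) :
    e F (tilt32 F d l u) n y = e F d n y - l * ((y : ℝ) - u * n) := by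
  unfold e
  rw [integral_congr_ae (Filter.Eventually.of_forall fun η => X_tilt32 F d l u η 0 n y),
    integral_sub ((lwH F d).int n y hn) (integrable_const _), integral_const, probReal_univ, one_smul]

/-- The cut for the tilted direction. -/
theorem cutH_tilt32 (hC : CutH F d k1 C0) (l u : ℝ) : CutH F (tilt32 F d l u) (k1 - |l|) C0 := by
  refine ⟨fun η a n m y hn hm => ?_⟩
  obtain ⟨r, r', h⟩ := hC.cut η a n m y hn hm
  refine ⟨r, r', ?_⟩
  rw [X_tilt32, X_tilt32, X_tilt32]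
  have h1 : l * ((r' : ℝ) - r) ≤ |l| * |(r : ℝ) - r'| := by
    rw [← abs_mul]
    refine le_trans (le_of_eq ?_) (neg_le_abs (l * ((r : ℝ) - r')))
    ring
  push_cast
  nlinarith

/-- ONE CONE FOR A TILTED DIRECTION: from the exponential moment `D` of one slab in the direction with the tilt
`l (y - u n)`, the means of `d` over the multiples of `n` are at least `l (y - u k n) - k log (D e^(θ C0) (3 + 2 / (θ s0 W))) / θ`. -/
theorem cone_tilt32 (hC : CutH F d k1 C0) {l u s0 : ℝ} (hθ : 0 < θ) (hs0 : 0 < s0) (hk : s0 + |l| ≤ k1)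
    (hW : 0 < W) (hn : 1 ≤ n) {D : ℝ}
    (H0 : ∀ z : ℝ, ∫⁻ η, EG F (tilt32 F d l u) θ s0 W z n η ∂(law F) ≤ ENNReal.ofReal D) (hD : 0 < D) (hC0 : 0 ≤ C0) {k : ℕ}
    (hk1 : 1 ≤ k) (y : ℤ) :
    l * ((y : ℝ) - u * ((k * n : ℕ) : ℝ)) -
      k * (Real.log (D * (Real.exp (θ * C0) * (3 + 2 / (θ * (s0 * W))))) / θ) ≤ e F d (k * n) y := by
  have h1 := cone_e' (cutH_tilt32 hC l u) (lwH F (tilt32 F d l u)) hθ (le_refl (0 : ℝ)) hs0 (by linarith) hW hn H0 hD hC0
    hk1 y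
  rw [zero_mul, sub_zero, e_tilt32 F d l u (Nat.one_le_iff_ne_zero.2 (by positivity)) y] at h1
  linarith

end

end Pool.Agent.W_1b8d5d_p
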