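import Pool.Agent.W_1b8d5d_p.Cross
import Pool.Agent.W_1b8d5d_p.FrX

/-!
MP_1b8d5d_pr, Track P (proofs row 636, section 5, (B2)): a luck which is attained outside a window of the cheap displacements
gives, by crossing with a reference path, a larger luck of another starting point; the first index at which the tail of the
luck falls. (helper27)
-/

namespace Pool.Agent.W_1b8d5d_p

open MeasureTheory Set
open Pool.Agent.W_1b8d5d_h85

noncomputable section

/-- The crossing, right of the window: the ends `c + Dp < q` and the starts `0 < Dp`. -/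
theorem mid_right27 {F : Fm} {κ : ℝ} {d : Dr} (hd : Adm F κ d) {m : ℕ} (hm : 1 ≤ m) (η : Env) {E B K : ℝ} {c Dp q : ℤ}
    (hDp : 0 < Dp) (hq : c + Dp < q) (h0 : e F d m c ≤ E) (h1 : (B + 4) * E ≤ e F d m (c + Dp))
    (g1 : |X F d η 0 m (c + Dp) - e F d m (c + Dp)| < E) (g0 : |X F d η (0, Dp) m c - e F d m c| < E)
    (hK : K * E ≤ -X F d η 0 m q) : (K + B) * E ≤ VV F d η (0, Dp) m := by
  have hc := X_cross F d η (0 : Pt) hm (k := Dp) (y := q) (y' := c + Dp) hDp.le hq.le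
  rw [zero_add, show c + Dp - Dp = c by ring] at hc
  have h2 := neg_X_le_VV hd η ((0, Dp) : Pt) hm (q - Dp)
  rw [abs_lt] at g0 g1
  nlinarith

/-- The crossing, left of the window: the ends `q < c - Dm` and the starts `-Dm < 0`. -/
theorem mid_left27 {F : Fm} {κ : ℝ} {d : Dr} (hd : Adm F κ d) {m : ℕ} (hm : 1 ≤ m) (η : Env) {E B K : ℝ} {c Dm q : ℤ}
    (hDm : 0 < Dm) (hq : q < c - Dm) (h0 : e F d m c ≤ E) (h1 : (B + 4) * E ≤ e F d m (c - Dm))
    (g1 : |X F d η 0 m (c - Dm) - e F d m (c - Dm)| < E) (g0 : |X F d η (0, -Dm) m c - e F d m c| < E)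
    (hK : K * E ≤ -X F d η 0 m q) : (K + B) * E ≤ VV F d η (0, -Dm) m := by
  have hc := X_cross F d η ((0, -Dm) : Pt) hm (k := Dm) (y := c) (y' := q + Dm) hDm.le (by omega)
  have e1 : ((0, -Dm) : Pt) + (0, Dm) = 0 := by
    ext <;> simp
  rw [e1, show q + Dm - Dm = q by ring] at hc
  have h2 := neg_X_le_VV hd η ((0, -Dm) : Pt) hm (q + Dm)
  rw [abs_lt] at g0 g1
  nlinarith

/-- **(B2), one step.** Either the luck is attained in the window `[c - Dm, c + Dp]`, or another starting point has a luck which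
is larger by `B E`, or one of the four reference costs is far from its mean. -/
theorem mid_step {F : Fm} {κ : ℝ} {d : Dr} (hd : Adm F κ d) {m : ℕ} (hm : 1 ≤ m) {E B del : ℝ} (_ : 0 < E)
    {c Dp Dm : ℤ} (hDp : 0 < Dp) (hDm : 0 < Dm) (h0 : e F d m c ≤ E) (hp : (B + 4) * E ≤ e F d m (c + Dp))
    (hn : (B + 4) * E ≤ e F d m (c - Dm))
    (b0 : (law F).real {η | E ≤ |X F d η 0 m c - e F d m c|} ≤ del)
    (b1 : (law F).real {η | E ≤ |X F d η 0 m (c + Dp) - e F d m (c + Dp)|} ≤ del)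
    (b2 : (law F).real {η | E ≤ |X F d η 0 m (c - Dm) - e F d m (c - Dm)|} ≤ del) (K : ℝ) :
    (law F).real {η | K * E ≤ VV F d η 0 m} ≤
      (law F).real {η | ∃ q : ℤ, c - Dm ≤ q ∧ q ≤ c + Dp ∧ K * E ≤ -X F d η 0 m q} +
        2 * (law F).real {η | (K + B) * E ≤ VV F d η 0 m} + 4 * del := by
  -- stationarity
  have hst : ∀ (a : Pt), (law F).real {η | E ≤ |X F d η a m c - e F d m c|} =
      (law F).real {η | E ≤ |X F d η 0 m c - e F d m c|} := fun a => by
    have hms : MeasurableSet {η | E ≤ |X F d η 0 m c - e F d m c|} :=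
      measurableSet_le measurable_const ((X_meas F d 0 m c).sub_const _).abs
    rw [← shp_real hms a]
    congr 1
    ext η
    rw [Set.mem_ofPred_eq, Set.mem_ofPred_eq, Set.mem_ofPred_eq, X_shp, zero_add]
  have hsv : ∀ (a : Pt), (law F).real {η | (K + B) * E ≤ VV F d η a m} =
      (law F).real {η | (K + B) * E ≤ VV F d η 0 m} := fun a => by
    have hms : MeasurableSet {η | (K + B) * E ≤ VV F d η 0 m} :=
      measurableSet_le measurable_const (VV_meas F d 0 m)
    rw [← shp_real hms a]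
    congr 1
    ext η
    rw [Set.mem_ofPred_eq, Set.mem_ofPred_eq, Set.mem_ofPred_eq, VV_shp, zero_add]
  obtain ⟨A, hA⟩ : ∃ A : Set Env, A = {η | ∃ q : ℤ, c - Dm ≤ q ∧ q ≤ c + Dp ∧ K * E ≤ -X F d η 0 m q} := ⟨_, rfl⟩
  obtain ⟨V1, hV1⟩ : ∃ A : Set Env, A = {η | (K + B) * E ≤ VV F d η (0, Dp) m} := ⟨_, rfl⟩
  obtain ⟨V2, hV2⟩ : ∃ A : Set Env, A = {η | (K + B) * E ≤ VV F d η (0, -Dm) m} := ⟨_, rfl⟩
  obtain ⟨B1, hB1⟩ : ∃ A : Set Env, A = {η | E ≤ |X F d η 0 m (c + Dp) - e F d m (c + Dp)|} := ⟨_, rfl⟩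
  obtain ⟨B2, hB2⟩ : ∃ A : Set Env, A = {η | E ≤ |X F d η 0 m (c - Dm) - e F d m (c - Dm)|} := ⟨_, rfl⟩
  obtain ⟨B3, hB3⟩ : ∃ A : Set Env, A = {η | E ≤ |X F d η (0, Dp) m c - e F d m c|} := ⟨_, rfl⟩
  obtain ⟨B4, hB4⟩ : ∃ A : Set Env, A = {η | E ≤ |X F d η (0, -Dm) m c - e F d m c|} := ⟨_, rfl⟩
  have hsub : {η | K * E ≤ VV F d η 0 m} ⊆ A ∪ (V1 ∪ (V2 ∪ (B1 ∪ (B2 ∪ (B3 ∪ B4))))) := by
    intro η hη
    rw [Set.mem_ofPred_eq] at hη
    by_contra hcon
    simp only [Set.mem_union, not_or] at hcon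
    obtain ⟨k0, k1, k2, k3, k4, k5, k6⟩ := hcon
    rw [hA, Set.mem_ofPred_eq] at k0
    rw [hV1, Set.mem_ofPred_eq, not_le] at k1
    rw [hV2, Set.mem_ofPred_eq, not_le] at k2
    rw [hB1, Set.mem_ofPred_eq, not_le] at k3
    rw [hB2, Set.mem_ofPred_eq, not_le] at k4
    rw [hB3, Set.mem_ofPred_eq, not_le] at k5
    rw [hB4, Set.mem_ofPred_eq, not_le] at k6
    obtain ⟨q, hq, -⟩ := VV_attained hd η 0 hm
    rw [hq] at hη
    rcases lt_or_ge (c + Dp) q with h1 | h1
    · have := mid_right27 hd hm η hDp h1 h0 hp k3 k5 hη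
      linarith
    · rcases lt_or_ge q (c - Dm) with h2 | h2
      · have := mid_left27 hd hm η hDm h2 h0 hn k4 k6 hη
        linarith
      · exact k0 ⟨q, h2, h1, hη⟩
  have h1 := measureReal_mono (μ := law F) hsub (measure_ne_top _ _)
  have h2 : (law F).real (A ∪ (V1 ∪ (V2 ∪ (B1 ∪ (B2 ∪ (B3 ∪ B4)))))) ≤ (law F).real A + ((law F).real V1 +
      ((law F).real V2 + ((law F).real B1 + ((law F).real B2 + ((law F).real B3 + (law F).real B4))))) := by
    refine (measureReal_union_le _ _).trans (add_le_add le_rfl ?_)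
    refine (measureReal_union_le _ _).trans (add_le_add le_rfl ?_)
    refine (measureReal_union_le _ _).trans (add_le_add le_rfl ?_)
    refine (measureReal_union_le _ _).trans (add_le_add le_rfl ?_)
    refine (measureReal_union_le _ _).trans (add_le_add le_rfl ?_)
    exact measureReal_union_le _ _
  have e1 : (law F).real V1 = (law F).real {η | (K + B) * E ≤ VV F d η 0 m} := by
    rw [hV1]
    exact hsv _
  have e2 : (law F).real V2 = (law F).real {η | (K + B) * E ≤ VV F d η 0 m} := by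
    rw [hV2]
    exact hsv _
  have e3 : (law F).real B3 ≤ del := by
    rw [hB3, hst]
    exact b0
  have e4 : (law F).real B4 ≤ del := by
    rw [hB4, hst]
    exact b0
  rw [← hB1] at b1
  rw [← hB2] at b2
  rw [← hA]
  linarith

/-- **(B2), the first index.** The constant depends only on `p` and `Cs`. -/
theorem first_index {p Cs : ℝ} (hp : 0 < p) (_ : 0 < Cs) : ∃ p' : ℝ, 0 < p' ∧ ∀ (pi mu : ℝ → ℝ),
    Antitone pi → Antitone mu → (∀ t, 0 ≤ mu t) → (∀ t, pi t ≤ 1) → ∀ K B del : ℝ, 0 ≤ B → p ≤ pi K →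
    (∀ j : ℕ, pi (K + j * B) ≤ Cs * (1 / 100) ^ j) →
    (∀ t, K ≤ t → pi t ≤ mu t + 2 * pi (t + B) + 4 * del) → del ≤ p' / 16 → p' / 2 ≤ mu K := by
  obtain ⟨J, hJ⟩ : ∃ J : ℕ, Cs / p < 25 ^ J := by
    obtain ⟨J, hJ⟩ := pow_unbounded_of_one_lt (Cs / p) (show (1 : ℝ) < 25 by norm_num)
    exact ⟨J, hJ⟩
  refine ⟨p * (1 / 4) ^ J / 2, by positivity, ?_⟩
  intro pi mu _ hmu _ _ K B del hB hpK htail hstep hdel
  -- a first index exists
  have hex : ∃ j : ℕ, pi (K + ((j + 1 : ℕ) : ℝ) * B) ≤ pi (K + j * B) / 4 := by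
    by_contra hcon
    push Not at hcon
    have h1 : ∀ j : ℕ, p * (1 / 4) ^ j ≤ pi (K + j * B) := by
      intro j
      induction j with
      | zero => simpa using hpK
      | succ j ih =>
        have h2 := hcon j
        rw [pow_succ]
        linarith
    have h2 := (h1 J).trans (htail J)
    have h3 : (1 / 4 : ℝ) ^ J = 25 ^ J * (1 / 100) ^ J := by
      rw [← mul_pow]
      norm_num
    rw [h3, ← mul_assoc] at h2
    have h4 : p * 25 ^ J ≤ Cs := le_of_mul_le_mul_right h2 (by positivity)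
    rw [div_lt_iff₀ hp] at hJ
    linarith
  classical
  obtain ⟨j, hj⟩ : ∃ j : ℕ, j = Nat.find hex := ⟨_, rfl⟩
  have hj1 : pi (K + ((j + 1 : ℕ) : ℝ) * B) ≤ pi (K + j * B) / 4 := by
    rw [hj]
    exact Nat.find_spec hex
  have hjmin : ∀ i < j, pi (K + i * B) / 4 < pi (K + ((i + 1 : ℕ) : ℝ) * B) := fun i hi => by
    rw [hj] at hi
    exact not_le.1 (Nat.find_min hex hi)
  have hlow : ∀ i ≤ j, p * (1 / 4) ^ i ≤ pi (K + i * B) := by
    intro i
    induction i with
    | zero => intro _; simpa using hpK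
    | succ i ih =>
      intro hi
      have h2 := hjmin i (by omega)
      have h3 := ih (by omega)
      rw [pow_succ]
      linarith
  have hjJ : j ≤ J := by
    by_contra hcon
    have h2 := (hlow J (by omega)).trans (htail J)
    have h3 : (1 / 4 : ℝ) ^ J = 25 ^ J * (1 / 100) ^ J := by
      rw [← mul_pow]
      norm_num
    rw [h3, ← mul_assoc] at h2
    have h4 : p * 25 ^ J ≤ Cs := le_of_mul_le_mul_right h2 (by positivity)
    rw [div_lt_iff₀ hp] at hJ
    linarith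
  have h1 := hlow j le_rfl
  have h2 : p * (1 / 4) ^ J ≤ p * (1 / 4 : ℝ) ^ j :=
    mul_le_mul_of_nonneg_left (pow_le_pow_of_le_one (by norm_num) (by norm_num) hjJ) hp.le
  have hjB : 0 ≤ (j : ℝ) * B := mul_nonneg (Nat.cast_nonneg _) hB
  have h3 := hstep (K + j * B) (by linarith)
  have e1 : K + (j : ℝ) * B + B = K + ((j + 1 : ℕ) : ℝ) * B := by
    push_cast
    ring
  rw [e1] at h3
  have h4 : mu (K + j * B) ≤ mu K := hmu (by linarith)
  have h5 : 0 < p * (1 / 4) ^ J := by positivity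
  linarith

end

end Pool.Agent.W_1b8d5d_p
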