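import Pool.Agent.W_1b8d5d_p.CoreA71
import Pool.Agent.W_1b8d5d_p.Mid27
import Pool.Agent.W_1b8d5d_h4p.ClassZ

/-!
MP_1b8d5d_pr, Track P (proofs row 636, section 5, (B2)): a large luck which ends in the middle. (helper71)
-/

namespace Pool.Agent.W_1b8d5d_p

open MeasureTheory Set
open Pool.Agent.W_1b8d5d_h85
open Pool.Agent.W_1b8d5d_z (BM)
open Pool.Agent.W_1b8d5d_h4p (LawH Fz la_law0 bm_VV bm_X bm_max fz_TR)

noncomputable section

/-- The first displacement of mean at least `L` on the side `σ`. -/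
theorem first_far71 {F : Fm} {κ : ℝ} {d : Dr} (hd : Adm F κ d) {l : ℕ} (hl : 1 ≤ l) {L : ℝ} {σ : ℤ} (hσ : |σ| = 1)
    (h0 : e F d l (xs F d l) < L) : ∃ D : ℕ, 1 ≤ D ∧ L ≤ e F d l (xs F d l + σ * D) ∧
      ∀ j : ℕ, j ≤ D → e F d l (xs F d l + σ * j) ≤ L + Cr F := by
  classical
  have hM : (1 : ℝ) ≤ F.co.M := by exact_mod_cast F.co.M_pos
  have hκ := hd.κ0
  have hex : ∃ D : ℕ, L ≤ e F d l (xs F d l + σ * D) := by
    obtain ⟨D, hD⟩ := exists_nat_ge ((L + C1 F * l) / (κ * F.co.M) + |(xs F d l : ℝ)|)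
    refine ⟨D, ?_⟩
    have h1 := e_coer hd hl (xs F d l + σ * D)
    have h2 : (D : ℝ) - |(xs F d l : ℝ)| ≤ |((xs F d l + σ * D : ℤ) : ℝ)| := by
      have h3 : |((σ * D : ℤ) : ℝ)| = D := by
        have h4 : |((σ * D : ℤ) : ℝ)| = ((|σ * D| : ℤ) : ℝ) := by push_cast; rfl
        rw [h4, abs_mul, hσ, one_mul]
        simp
      have h5 := abs_sub_abs_le_abs_sub (((σ * D : ℤ) : ℝ)) (-(xs F d l : ℝ))
      rw [h3, abs_neg, sub_neg_eq_add] at h5
      push_cast at h5 ⊢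
      rwa [add_comm (xs F d l : ℝ)]
    have h3 : (L + C1 F * l) / (κ * F.co.M) ≤ |((xs F d l + σ * D : ℤ) : ℝ)| := by linarith
    rw [div_le_iff₀ (by positivity)] at h3
    have h4 : κ * (F.co.M * |((xs F d l + σ * D : ℤ) : ℝ)|) = |((xs F d l + σ * D : ℤ) : ℝ)| * (κ * F.co.M) := by ring
    linarith
  obtain ⟨D, hD, hmin⟩ := Nat.find_spec hex |> fun h => (⟨Nat.find hex, h, fun j hj => Nat.find_min hex hj⟩ :
    ∃ D : ℕ, L ≤ e F d l (xs F d l + σ * D) ∧ ∀ j, j < D → ¬ L ≤ e F d l (xs F d l + σ * j))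
  have hD1 : 1 ≤ D := by
    by_contra hc
    have : D = 0 := by omega
    subst this
    simp only [Nat.cast_zero, mul_zero, add_zero] at hD
    linarith
  refine ⟨D, hD1, hD, fun j hj => ?_⟩
  rcases hj.lt_or_eq with h1 | h1
  · have := hmin j h1
    have := Cr_pos F
    linarith
  · subst h1
    obtain ⟨k, rfl⟩ : ∃ k, j = k + 1 := ⟨j - 1, by omega⟩
    have h2 := hmin k (by omega)
    have h3 := e_step hd hl (xs F d l + σ * ((k + 1 : ℕ) : ℤ)) (xs F d l + σ * (k : ℤ))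
    have h4 : |((xs F d l + σ * ((k + 1 : ℕ) : ℤ) : ℤ) : ℝ) - ((xs F d l + σ * (k : ℤ) : ℤ) : ℝ)| = 1 := by
      have h5 : ((xs F d l + σ * ((k + 1 : ℕ) : ℤ) : ℤ) : ℝ) - ((xs F d l + σ * (k : ℤ) : ℤ) : ℝ) = (σ : ℝ) := by
        push_cast
        ring
      rw [h5]
      have h6 : |(σ : ℝ)| = ((|σ| : ℤ) : ℝ) := by push_cast; rfl
      rw [h6, hσ]
      norm_num
    rw [h4] at h3
    unfold Cr
    linarith

/-- **(B2)** From a soft functional of length `l` to a large luck which ends in the middle. -/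
theorem mid71 {F : Fm} {c0 C0' : ℝ} (hL : LawH F c0 C0') {c1 : ℝ} (hc1 : 0 < c1) (hc11 : c1 ≤ 1) {A1 c C B K : ℝ}
    (hA1 : 0 ≤ A1) (hc : 0 < c) (hC : 0 < C) (hB : 0 ≤ B) (hcB : Real.exp (-(c * B)) ≤ 1 / 100) (hK : 0 < K) :
    ∃ p' U₀ : ℝ, 0 < p' ∧ 0 < U₀ ∧ ∀ (κ : ℝ) (d : Dr), Adm F κ d → ∀ E : ℝ, U₀ ≤ E → ∀ l : ℕ, 1 ≤ l →
    e F d l (xs F d l) ≤ E → ∫ η, Real.exp (c / E * max (VV F d η 0 l) 0) ∂(law F) ≤ C →
    ∀ (S : Set Edge) (G : Env → ℝ), Fz F.a F.b S G → (∀ η, G (F.tau η) ≤ VV F d η 0 l) →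
    -(A1 * E) ≤ ∫ η, G (F.tau η) ∂(law F) →
    c1 ≤ (law F).real {η | c1 * E ≤ |G (F.tau η) - ∫ ξ, G (F.tau ξ) ∂(law F)|} →
    ∃ qa qb : ℤ, qa ≤ xs F d l ∧ xs F d l ≤ qb ∧ (∀ q, qa ≤ q → q ≤ qb → e F d l q ≤ (B + 6) * E) ∧
      p' ≤ (law F).real {η | ∃ q, qa ≤ q ∧ q ≤ qb ∧ K * E ≤ -X F d η 0 l q} := by
  obtain ⟨p, U1, hp, hU1, h1⟩ := amp71 hL hc1 hc11 hA1 hc hC hK.le
  obtain ⟨p2, hp2, hfi⟩ := first_index hp hC
  obtain ⟨δ, hδ⟩ : ∃ δ : ℝ, δ = min (p2 / 16) 1 := ⟨_, rfl⟩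
  have hδ0 : 0 < δ := by rw [hδ]; exact lt_min (by positivity) one_pos
  have hδ1 : δ ≤ 1 := by rw [hδ]; exact min_le_right _ _
  have hδ2 : δ ≤ p2 / 16 := by rw [hδ]; exact min_le_left _ _
  obtain ⟨p3, U3, hp3, hU3, h3⟩ := amp71 hL hδ0 hδ1 (A1 := B + 6) (by linarith) hc hC hK.le
  refine ⟨min (p2 / 2) p3, max (max U1 U3) (Cr F), lt_min (by positivity) hp3,
    lt_max_of_lt_left (lt_max_of_lt_left hU1), fun κ d hd E hE l hl hxs hexp S G hG hGV hmean hfl => ?_⟩
  have hE1 : U1 ≤ E := ((le_max_left _ _).trans (le_max_left _ _)).trans hE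
  have hE3 : U3 ≤ E := ((le_max_right _ _).trans (le_max_left _ _)).trans hE
  have hCr : Cr F ≤ E := (le_max_right _ _).trans hE
  have hE0 : 0 < E := hU1.trans_le hE1
  have hVVB : BM fun η => max (VV F d η 0 l) 0 := bm_max (bm_VV hd 0 hl) (BM.const 0)
  have hlt : e F d l (xs F d l) < (B + 4) * E := by nlinarith
  obtain ⟨Dp, hDp1, hDpL, hDpj⟩ := first_far71 hd hl (σ := 1) (by simp) hlt
  obtain ⟨Dm, hDm1, hDmL, hDmj⟩ := first_far71 hd hl (σ := -1) (by simp) hlt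
  have hup : (B + 4) * E + Cr F ≤ (B + 6) * E := by linarith
  have hmid : ∀ q, xs F d l - Dm ≤ q → q ≤ xs F d l + Dp → e F d l q ≤ (B + 6) * E := by
    intro q h4 h5
    rcases le_total (xs F d l) q with h6 | h6
    · have h7 := hDpj (q - xs F d l).toNat (by omega)
      have h8 : xs F d l + 1 * ((q - xs F d l).toNat : ℤ) = q := by omega
      rw [h8] at h7
      exact h7.trans hup
    · have h7 := hDmj (xs F d l - q).toNat (by omega)
      have h8 : xs F d l + -1 * ((xs F d l - q).toNat : ℤ) = q := by omega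
      rw [h8] at h7
      exact h7.trans hup
  refine ⟨xs F d l - Dm, xs F d l + Dp, by omega, by omega, hmid, ?_⟩
  -- Case A: one of three costs fluctuates
  have caseA : ∀ y, xs F d l - Dm ≤ y → y ≤ xs F d l + Dp →
      δ ≤ (law F).real {η | E ≤ |X F d η 0 l y - e F d l y|} →
      p3 ≤ (law F).real {η | ∃ q, xs F d l - Dm ≤ q ∧ q ≤ xs F d l + Dp ∧ K * E ≤ -X F d η 0 l q} := by
    intro y hy1 hy2 hy
    have hne := Co.ne_vt (c := F.co) 0 hl y
    obtain ⟨G', hG'⟩ : ∃ G' : Env → ℝ, G' = fun τ => -(TT F.co τ 0 l y - (al F.co d * l + be F.co d * y)) := ⟨_, rfl⟩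
    have hG'X : ∀ η, G' (F.tau η) = -X F d η 0 l y := fun η => by rw [hG']; rfl
    have hFz : Fz F.a F.b (F.co.slab (0 : Pt).1 ((0 : Pt).1 + l)) G' := by
      rw [hG']
      exact ((fz_TR F.a0 hne).add_const (al F.co d * l + be F.co d * y)).congr fun τ _ => by
        unfold TT
        ring
    have hZB : BM fun η => max (-X F d η 0 l y) 0 := bm_max (bm_X hd 0 hl y).neg (BM.const 0)
    have hZexp : ∫ η, Real.exp (c / E * max (-X F d η 0 l y) 0) ∂(law F) ≤ C := by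
      refine le_trans (integral_mono (bm_exp71 (hZB.const_mul _)).int (bm_exp71 (hVVB.const_mul _)).int fun η => ?_) hexp
      refine Real.exp_le_exp.2 (mul_le_mul_of_nonneg_left ?_ (by positivity))
      exact max_le_max_right _ (neg_X_le_VV hd η 0 hl y)
    have hmean' : ∫ η, G' (F.tau η) ∂(law F) = -e F d l y := by
      simp_rw [hG'X]
      rw [integral_neg]
      rfl
    have h4 := h3 E hE3 (fun η => max (-X F d η 0 l y) 0) hZB (fun η => le_max_right _ _) hZexp _ G' hFz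
      (fun η => by rw [hG'X]; exact le_max_left _ _) (by
        rw [hmean']
        linarith [hmid y hy1 hy2]) (by
        rw [hmean']
        refine hy.trans (measureReal_mono (fun η hη => ?_) (measure_ne_top _ _))
        rw [mem_ofPred_eq] at hη ⊢
        rw [hG'X, show -X F d η 0 l y - -e F d l y = -(X F d η 0 l y - e F d l y) by ring, abs_neg]
        refine le_trans ?_ hη
        nlinarith)
    refine h4.trans (measureReal_mono (fun η hη => ?_) (measure_ne_top _ _))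
    rw [mem_ofPred_eq] at hη ⊢
    refine ⟨y, hy1, hy2, ?_⟩
    rcases le_max_iff.1 hη with h5 | h5
    · exact h5
    · have : 0 < K * E := by positivity
      linarith
  by_cases hA : δ ≤ (law F).real {η | E ≤ |X F d η 0 l (xs F d l) - e F d l (xs F d l)|}
  · exact (min_le_right _ _).trans (caseA _ (by omega) (by omega) hA)
  by_cases hA1' : δ ≤ (law F).real {η | E ≤ |X F d η 0 l (xs F d l + Dp) - e F d l (xs F d l + Dp)|}
  · exact (min_le_right _ _).trans (caseA _ (by omega) (by omega) hA1')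
  by_cases hA2 : δ ≤ (law F).real {η | E ≤ |X F d η 0 l (xs F d l - Dm) - e F d l (xs F d l - Dm)|}
  · exact (min_le_right _ _).trans (caseA _ (by omega) (by omega) hA2)
  refine (min_le_left _ _).trans ?_
  have hpK : p ≤ (law F).real {η | K * E ≤ VV F d η 0 l} := by
    refine (h1 E hE1 (fun η => max (VV F d η 0 l) 0) hVVB (fun η => le_max_right _ _) hexp S G hG
      (fun η => (hGV η).trans (le_max_left _ _)) hmean hfl).trans (measureReal_mono (fun η hη => ?_) (measure_ne_top _ _))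
    rw [mem_ofPred_eq] at hη ⊢
    rcases le_max_iff.1 hη with h5 | h5
    · exact h5
    · have : 0 < K * E := by positivity
      linarith
  have hDmL' : (B + 4) * E ≤ e F d l (xs F d l - Dm) := by
    have e1 : xs F d l + -1 * (Dm : ℤ) = xs F d l - Dm := by ring
    rwa [e1] at hDmL
  have hDpL' : (B + 4) * E ≤ e F d l (xs F d l + Dp) := by
    have e1 : xs F d l + 1 * (Dp : ℤ) = xs F d l + Dp := by ring
    rwa [e1] at hDpL
  refine hfi (fun t => (law F).real {η | t * E ≤ VV F d η 0 l})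
    (fun t => (law F).real {η | ∃ q, xs F d l - Dm ≤ q ∧ q ≤ xs F d l + Dp ∧ t * E ≤ -X F d η 0 l q}) ?_ ?_ ?_ ?_
    K B δ hB hpK ?_ ?_ hδ2
  · intro t t' htt
    refine measureReal_mono (fun η hη => ?_) (measure_ne_top _ _)
    rw [mem_ofPred_eq] at hη ⊢
    exact (mul_le_mul_of_nonneg_right htt hE0.le).trans hη
  · intro t t' htt
    refine measureReal_mono (fun η hη => ?_) (measure_ne_top _ _)
    rw [mem_ofPred_eq] at hη ⊢
    obtain ⟨q, h4, h5, h6⟩ := hη
    exact ⟨q, h4, h5, (mul_le_mul_of_nonneg_right htt hE0.le).trans h6⟩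
  · exact fun t => measureReal_nonneg
  · exact fun t => measureReal_le_one
  · intro j
    have h4 : (law F).real {η | (K + j * B) * E ≤ VV F d η 0 l} ≤
        (law F).real {η | (K + j * B) * E ≤ max (VV F d η 0 l) 0} := by
      refine measureReal_mono (fun η hη => ?_) (measure_ne_top _ _)
      rw [mem_ofPred_eq] at hη ⊢
      exact hη.trans (le_max_left _ _)
    refine h4.trans ((markov_exp71 hVVB hc hE0 hexp (K + j * B)).trans ?_)
    refine mul_le_mul_of_nonneg_left ?_ hC.le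
    have h5 : Real.exp (-(c * (K + j * B))) ≤ Real.exp (-(c * B)) ^ j := by
      rw [← Real.exp_nat_mul]
      refine Real.exp_le_exp.2 ?_
      have : 0 < c * K := by positivity
      nlinarith
    exact h5.trans (pow_le_pow_left₀ (Real.exp_pos _).le hcB j)
  · intro t _
    exact mid_step hd hl hE0 (by omega) (by omega) hxs hDpL' hDmL' (not_le.1 hA).le (not_le.1 hA1').le
      (not_le.1 hA2).le t

end

end Pool.Agent.W_1b8d5d_p
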