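import Pool.Agent.W_1b8d5d_p.LDsym78
import Pool.Agent.W_1b8d5d_p.BalCovB32

/-!
MP_1b8d5d_pr, Track P2, geometry: the frame free local doubling `LD35` in the octant, from the doubling of the rate functions in
the charts. (helper61)
-/

set_option autoImplicit false

namespace Pool.Agent.W_1b8d5d_p

open MeasureTheory Set Filter Topology

variable {μ : (Fin 2 → ℝ) → ℝ} {a b : ℝ}

/-- The rate function increases away from the touching point. -/
theorem Jm_side61 (hN : NormP μ a b) (c : Co) {d : Dr} (ht : d.h1 * ptF c d.v 0 + d.h2 * ptF c d.v 1 = μ (ptF c d.v))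
    (hn : ∀ x : Fin 2 → ℝ, d.h1 * x 0 + d.h2 * x 1 ≤ μ x) {l u : ℝ} (hl0 : 0 ≤ l) (hl1 : l ≤ 1) :
    Jm μ c d (l * u) ≤ Jm μ c d u := by
  have e : ptF c (d.v + l * u) = l • ptF c (d.v + u) + (1 - l) • ptF c d.v := by
    funext i
    fin_cases i
    · show (c.L * c.r - (d.v + l * u) * c.q : ℝ) = l * (c.L * c.r - (d.v + u) * c.q) + (1 - l) * (c.L * c.r - d.v * c.q)
      ring
    · show (c.L * c.s + (d.v + l * u) * c.p : ℝ) = l * (c.L * c.s + (d.v + u) * c.p) + (1 - l) * (c.L * c.s + d.v * c.p)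
      ring
  have h1 := hN.sub (l • ptF c (d.v + u)) ((1 - l) • ptF c d.v)
  rw [← e, hN.hom _ _ hl0, hN.hom _ _ (by linarith : 0 ≤ 1 - l)] at h1
  have e0 : ptF c (d.v + l * u) 0 = l * ptF c (d.v + u) 0 + (1 - l) * ptF c d.v 0 := congrFun e 0
  have e1 : ptF c (d.v + l * u) 1 = l * ptF c (d.v + u) 1 + (1 - l) * ptF c d.v 1 := congrFun e 1
  have h2 := hn (ptF c (d.v + u))
  unfold Jm
  rw [e0, e1]
  have h3 : l * (μ (ptF c (d.v + u)) - (d.h1 * ptF c (d.v + u) 0 + d.h2 * ptF c (d.v + u) 1)) ≤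
      1 * (μ (ptF c (d.v + u)) - (d.h1 * ptF c (d.v + u) 0 + d.h2 * ptF c (d.v + u) 1)) :=
    mul_le_mul_of_nonneg_right hl1 (by linarith)
  have h4 : (1 - l) * (d.h1 * ptF c d.v 0 + d.h2 * ptF c d.v 1) = (1 - l) * μ (ptF c d.v) := by rw [ht]
  nlinarith

/-- The value of the defect in the chart. -/
theorem Jm_val61 (hN : NormP μ a b) (c : Co) (d : Dr) {y : Fin 2 → ℝ} (hy : 0 < tmR c y) {x : ℝ}
    (hx : d.v + x = c.L * psR c y / tmR c y) :
    μ y - (d.h1 * y 0 + d.h2 * y 1) = tmR c y / c.L * Jm μ c d x := by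
  have hL := L_pos' c
  unfold Jm
  rw [hx, z_eq c hy.ne', hN.hom _ _ (by positivity)]
  simp only [Pi.smul_apply, smul_eq_mul]
  field_simp

/-- **The local doubling in the octant**, one choice of coordinates. -/
theorem ld_of_J61 (hN : NormP μ a b) (ha : 0 < a) (c : Co) {K₀ D δ : ℝ} {S : Set Dr} (hS : S ⊆ DA μ c a b K₀) (hδ : 0 < δ)
    (hJ : ∀ d ∈ S, ∀ x : ℝ, |x| ≤ δ → Jm μ c d (2 * x) ≤ D * Jm μ c d x) :
    ∃ C₁ δ₁ : ℝ, 1 ≤ C₁ ∧ 0 < δ₁ ∧ ∀ z : Fin 2 → ℝ, μ z = 1 → 0 ≤ z 1 → z 1 ≤ z 0 → ∀ d ∈ S,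
      d.h1 * z 0 + d.h2 * z 1 = μ z → d.v = c.L * psR c z / tmR c z → LD35 μ C₁ δ₁ z := by
  by_cases hb : 0 < b
  · have hL := L_pos' c
    have hM := M_one c
    obtain ⟨δ₁, hδ₁⟩ : ∃ δ₁ : ℝ, δ₁ = min (1 / (28 * b * c.M)) (δ * a / (8 * b ^ 2 * c.L)) := ⟨_, rfl⟩
    have hδ₁0 : 0 < δ₁ := by rw [hδ₁]; exact lt_min (by positivity) (by positivity)
    refine ⟨2 * max D 1, δ₁, by have := le_max_right D 1; linarith, hδ₁0, fun z hz hz1 hz0 d hd hd1 hd2 => ?_⟩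
    obtain ⟨-, htm, hz3⟩ := oct_bounds hN ha hz hz1 hz0 c
    obtain ⟨-, -, -, hh, htch⟩ := hS hd
    have htz : 0 < tmR c z := lt_of_lt_of_le (by positivity) htm
    -- the times near `z`
    have htime : ∀ y : Fin 2 → ℝ, ‖y - z‖ ≤ δ₁ → |tmR c y - tmR c z| ≤ tmR c z / 7 := by
      intro y hy
      have h0 : |y 0 - z 0| ≤ ‖y - z‖ := norm_le_pi_norm (y - z) 0
      have h1 : |y 1 - z 1| ≤ ‖y - z‖ := norm_le_pi_norm (y - z) 1
      have e1 := abs_tmR c (y - z)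
      simp only [Pi.sub_apply] at e1
      have e2 : tmR c (y - z) = tmR c y - tmR c z := by
        unfold tmR
        simp only [Pi.sub_apply]
        ring
      rw [e2] at e1
      have h2 : δ₁ ≤ 1 / (28 * b * c.M) := by rw [hδ₁]; exact min_le_left _ _
      have e3 : (c.M : ℝ) * (|y 0 - z 0| + |y 1 - z 1|) ≤ 1 / (2 * b) / 7 := by
        have e4 : |y 0 - z 0| + |y 1 - z 1| ≤ 2 * (1 / (28 * b * c.M)) := by linarith
        calc (c.M : ℝ) * (|y 0 - z 0| + |y 1 - z 1|) ≤ c.M * (2 * (1 / (28 * b * c.M))) :=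
              mul_le_mul_of_nonneg_left e4 (by linarith)
          _ = 1 / (2 * b) / 7 := by
            field_simp
            norm_num
      linarith
    have hpos : ∀ y : Fin 2 → ℝ, ‖y - z‖ ≤ δ₁ → 0 < tmR c y := by
      intro y hy
      have h1 := abs_le.1 (htime y hy)
      linarith [h1.1]
    -- the slopes
    have hslope : ∀ y : Fin 2 → ℝ, ‖y - z‖ ≤ δ₁ → d.v + c.L * crs z y / (tmR c y * tmR c z) = c.L * psR c y / tmR c y := by
      intro y hy
      have h1 := hpos y hy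
      rw [hd2, ← crs_tm c z y]
      field_simp
      ring
    have hsmall : ∀ y : Fin 2 → ℝ, ‖y - z‖ ≤ δ₁ → |c.L * crs z y / (tmR c y * tmR c z)| ≤ δ := by
      intro y hy
      have h0 : |y 0 - z 0| ≤ ‖y - z‖ := norm_le_pi_norm (y - z) 0
      have h1 : |y 1 - z 1| ≤ ‖y - z‖ := norm_le_pi_norm (y - z) 1
      have hcrs : |crs z y| ≤ 1 / a * ‖y - z‖ := by
        have e1 : crs z y = z 0 * (y 1 - z 1) - z 1 * (y 0 - z 0) := by
          unfold crs
          ring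
        rw [e1]
        refine (abs_sub _ _).trans ?_
        rw [abs_mul, abs_mul]
        have e2 : |z 0| * |y 1 - z 1| + |z 1| * |y 0 - z 0| ≤ (|z 0| + |z 1|) * ‖y - z‖ := by
          nlinarith [abs_nonneg (z 0), abs_nonneg (z 1)]
        exact e2.trans (mul_le_mul_of_nonneg_right hz3 (norm_nonneg (y - z)))
      have hty := hpos y hy
      have h2 := abs_le.1 (htime y hy)
      have hty2 : 1 / (4 * b) ≤ tmR c y := by
        have e6 : 1 / (2 * b) = 1 / (4 * b) + 1 / (4 * b) := by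
          field_simp
          norm_num
        have e7 : 0 < 1 / (4 * b) := by positivity
        linarith [h2.1]
      rw [abs_div, abs_mul, abs_of_pos hL, abs_of_pos (mul_pos hty htz), div_le_iff₀ (mul_pos hty htz)]
      have h3 : δ₁ ≤ δ * a / (8 * b ^ 2 * c.L) := by rw [hδ₁]; exact min_le_right _ _
      have e1 : c.L * |crs z y| ≤ c.L * (1 / a * (δ * a / (8 * b ^ 2 * c.L))) :=
        mul_le_mul_of_nonneg_left (hcrs.trans (mul_le_mul_of_nonneg_left (hy.trans h3) (by positivity))) hL.le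
      refine e1.trans ?_
      have e2 : (c.L : ℝ) * (1 / a * (δ * a / (8 * b ^ 2 * c.L))) = δ * (1 / (4 * b) * (1 / (2 * b))) := by
        field_simp
        norm_num
      rw [e2]
      exact mul_le_mul_of_nonneg_left (mul_le_mul hty2 htm (by positivity) hty.le) hδ.le
    refine ⟨fm2 d.h1 d.h2, hh, hd1, fun y y' hy hy' hsg hle => ?_⟩
    rw [fm2_apply, fm2_apply]
    have hty := hpos y hy
    have hty' := hpos y' hy'
    have a1 := abs_le.1 (htime y hy)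
    have a2 := abs_le.1 (htime y' hy')
    obtain ⟨x, hx⟩ : ∃ x, x = c.L * crs z y / (tmR c y * tmR c z) := ⟨_, rfl⟩
    obtain ⟨x', hx'⟩ : ∃ x', x' = c.L * crs z y' / (tmR c y' * tmR c z) := ⟨_, rfl⟩
    have v1 := Jm_val61 hN c d hty (x := x) (by rw [hx]; exact hslope y hy)
    have v2 := Jm_val61 hN c d hty' (x := x') (by rw [hx']; exact hslope y' hy')
    have hxs : |x| ≤ δ := by rw [hx]; exact hsmall y hy
    -- the ratio of the slopes
    have hrat : |x'| ≤ 2 * |x| := by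
      have q1 : |x'| = c.L * |crs z y'| / (tmR c y' * tmR c z) := by
        rw [hx', abs_div, abs_of_pos (mul_pos hty' htz), abs_mul, abs_of_pos hL]
      have q2 : |x| = c.L * |crs z y| / (tmR c y * tmR c z) := by
        rw [hx, abs_div, abs_of_pos (mul_pos hty htz), abs_mul, abs_of_pos hL]
      rw [q1, q2, mul_div_assoc', div_le_div_iff₀ (mul_pos hty' htz) (mul_pos hty htz)]
      have g1 : 3 / 2 * tmR c y ≤ 2 * tmR c y' := by linarith [a1.2, a2.1]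
      have g2 : |crs z y'| * tmR c y ≤ 3 / 2 * |crs z y| * tmR c y := mul_le_mul_of_nonneg_right hle hty.le
      have g3 : |crs z y| * (3 / 2 * tmR c y) ≤ |crs z y| * (2 * tmR c y') := mul_le_mul_of_nonneg_left g1 (abs_nonneg _)
      have g4 : |crs z y'| * tmR c y ≤ |crs z y| * (2 * tmR c y') := by linarith
      calc c.L * |crs z y'| * (tmR c y * tmR c z) = c.L * tmR c z * (|crs z y'| * tmR c y) := by ring
        _ ≤ c.L * tmR c z * (|crs z y| * (2 * tmR c y')) := mul_le_mul_of_nonneg_left g4 (by positivity)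
        _ = 2 * (c.L * |crs z y|) * (tmR c y' * tmR c z) := by ring
    have hsgn : 0 ≤ x * x' := by
      have e : x * x' = c.L ^ 2 * (crs z y * crs z y') / (tmR c y * tmR c z * (tmR c y' * tmR c z)) := by
        rw [hx, hx']
        field_simp
      rw [e]
      positivity
    -- the values of the rate function
    have hJ0 : ∀ u, 0 ≤ Jm μ c d u := fun u => by
      unfold Jm
      linarith [hh (ptF c (d.v + u))]
    have hval : Jm μ c d x' ≤ max D 1 * Jm μ c d x := by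
      have h5 : Jm μ c d x' ≤ Jm μ c d (2 * x) := by
        rcases eq_or_ne x 0 with h0 | h0
        · rw [h0, abs_zero, mul_zero] at hrat
          have : x' = 0 := abs_nonpos_iff.1 hrat
          rw [this, h0, mul_zero]
        · have e : x' = x' / (2 * x) * (2 * x) := by field_simp
          rw [e]
          refine Jm_side61 hN c htch hh ?_ ?_
          · have h6 : x' / (2 * x) = x * x' / (2 * x ^ 2) := by field_simp
            rw [h6]
            positivity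
          · refine (le_abs_self _).trans ?_
            rw [abs_div, div_le_one (abs_pos.2 (by positivity)), abs_mul, abs_of_pos (by norm_num : (0 : ℝ) < 2)]
            exact hrat
      refine h5.trans ((hJ d hd x hxs).trans ?_)
      exact mul_le_mul_of_nonneg_right (le_max_left _ _) (hJ0 x)
    rw [v1, v2]
    have hm1 : 1 ≤ max D 1 := le_max_right _ _
    have h6 : tmR c y' ≤ 2 * tmR c y := by linarith [a1.1, a2.2]
    have h7 : tmR c y' / c.L * Jm μ c d x' ≤ tmR c y' / c.L * (max D 1 * Jm μ c d x) :=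
      mul_le_mul_of_nonneg_left hval (by positivity)
    have h8 : tmR c y' / c.L * (max D 1 * Jm μ c d x) ≤ 2 * tmR c y / c.L * (max D 1 * Jm μ c d x) := by
      refine mul_le_mul_of_nonneg_right (div_le_div_of_nonneg_right h6 hL.le) ?_
      exact mul_nonneg (by linarith) (hJ0 x)
    have h9 : 2 * tmR c y / c.L * (max D 1 * Jm μ c d x) = 2 * max D 1 * (tmR c y / c.L * Jm μ c d x) := by ring
    linarith
  · refine ⟨1, 1, le_rfl, one_pos, fun z hz hz1 hz0 => ?_⟩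
    exact absurd (oct_bounds hN ha hz hz1 hz0 c).1 hb

theorem LD35.mono61 {C C' δ δ' : ℝ} {z : Fin 2 → ℝ} (h : LD35 μ C δ z) (hC : C ≤ C') (hδ : δ' ≤ δ) : LD35 μ C' δ' z := by
  obtain ⟨f, h1, h2, h3⟩ := h
  refine ⟨f, h1, h2, fun y y' hy hy' hs hc => (h3 y y' (hy.trans hδ) (hy'.trans hδ) hs hc).trans ?_⟩
  exact mul_le_mul_of_nonneg_right hC (by linarith [h1 y])

/-- Common constants for finitely many choices. -/
theorem common61 (P : ℕ → ℝ → ℝ → Prop) (hP : ∀ j C C' δ δ', P j C δ → C ≤ C' → δ' ≤ δ → P j C' δ') (n : ℕ)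
    (h : ∀ j ≤ n, ∃ C δ : ℝ, 1 ≤ C ∧ 0 < δ ∧ P j C δ) : ∃ C δ : ℝ, 1 ≤ C ∧ 0 < δ ∧ ∀ j ≤ n, P j C δ := by
  induction n with
  | zero =>
    obtain ⟨C, δ, h1, h2, h3⟩ := h 0 le_rfl
    refine ⟨C, δ, h1, h2, fun j hj => ?_⟩
    obtain rfl : j = 0 := by omega
    exact h3
  | succ n ih =>
    obtain ⟨C, δ, h1, h2, h3⟩ := ih fun j hj => h j (by omega)
    obtain ⟨C', δ', g1, g2, g3⟩ := h (n + 1) le_rfl
    refine ⟨max C C', min δ δ', h1.trans (le_max_left _ _), lt_min h2 g2, fun j hj => ?_⟩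
    rcases Nat.lt_or_ge n j with h5 | h5
    · obtain rfl : j = n + 1 := by omega
      exact hP _ _ _ _ _ g3 (le_max_right _ _) (min_le_right _ _)
    · exact hP _ _ _ _ _ (h3 j h5) (le_max_left _ _) (min_le_left _ _)

/-- **The local doubling in the octant.** -/
theorem ld_oct61 (hN : NormP μ a b) (ha : 0 < a) {N : ℕ} {K q₀ : ℝ}
    (hcov : ∀ z : Fin 2 → ℝ, μ z = 1 → 0 ≤ z 1 → z 1 ≤ z 0 → ∃ j : ℕ, j ≤ N + 1 ∧ ∃ d ∈ DA0 μ (coOf N j) a b K q₀,
      d.h1 * z 0 + d.h2 * z 1 = μ z ∧ d.v = (coOf N j).L * psR (coOf N j) z / tmR (coOf N j) z)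
    (hJ : ∀ j ≤ N + 1, ∃ D δ : ℝ, 0 < δ ∧ ∀ d ∈ DA0 μ (coOf N j) a b K q₀, ∀ x : ℝ, |x| ≤ δ →
      Jm μ (coOf N j) d (2 * x) ≤ D * Jm μ (coOf N j) d x) :
    ∃ C δ : ℝ, 1 ≤ C ∧ 0 < δ ∧ ∀ z : Fin 2 → ℝ, μ z = 1 → 0 ≤ z 1 → z 1 ≤ z 0 → LD35 μ C δ z := by
  obtain ⟨C, δ, hC, hδ, h⟩ := common61 (fun j C δ => ∀ z : Fin 2 → ℝ, μ z = 1 → 0 ≤ z 1 → z 1 ≤ z 0 →
      ∀ d ∈ DA0 μ (coOf N j) a b K q₀, d.h1 * z 0 + d.h2 * z 1 = μ z →
      d.v = (coOf N j).L * psR (coOf N j) z / tmR (coOf N j) z → LD35 μ C δ z)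
    (fun j C C' δ δ' h1 h2 h3 z hz hz1 hz0 d hd e1 e2 => (h1 z hz hz1 hz0 d hd e1 e2).mono61 h2 h3) (N + 1) (fun j hj => by
      obtain ⟨D, δ, h1, h2⟩ := hJ j hj
      exact ld_of_J61 hN ha (coOf N j) (fun d hd => hd.1) h1 h2)
  refine ⟨C, δ, hC, hδ, fun z hz hz1 hz0 => ?_⟩
  obtain ⟨j, hj, d, hd, h1, h2⟩ := hcov z hz hz1 hz0
  exact h j hj z hz hz1 hz0 d hd h1 h2

/-- **THE LOCAL DOUBLING AT ALL UNIT VECTORS**, from the doubling of the rate functions in the charts. -/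
theorem ld_all61 (hN : NormP μ a b) (ha : 0 < a) {N : ℕ} {K q₀ : ℝ}
    (hcov : ∀ z : Fin 2 → ℝ, μ z = 1 → 0 ≤ z 1 → z 1 ≤ z 0 → ∃ j : ℕ, j ≤ N + 1 ∧ ∃ d ∈ DA0 μ (coOf N j) a b K q₀,
      d.h1 * z 0 + d.h2 * z 1 = μ z ∧ d.v = (coOf N j).L * psR (coOf N j) z / tmR (coOf N j) z)
    (hJ : ∀ j ≤ N + 1, ∃ D δ : ℝ, 0 < δ ∧ ∀ d ∈ DA0 μ (coOf N j) a b K q₀, ∀ x : ℝ, |x| ≤ δ →
      Jm μ (coOf N j) d (2 * x) ≤ D * Jm μ (coOf N j) d x) :
    ∃ C δ : ℝ, 1 ≤ C ∧ 0 < δ ∧ ∀ z : Fin 2 → ℝ, μ z = 1 → LD35 μ C δ z := by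
  obtain ⟨C, δ, hC, hδ, h⟩ := ld_oct61 hN ha hcov hJ
  exact ⟨C, δ, hC, hδ, fun z hz => (LD_iff35 _ _ _ _).1 (ld_all_of_oct hN (fun z h1 h2 h3 => (LD_iff35 _ _ _ _).2 (h z h1 h2 h3)) z hz)⟩

end Pool.Agent.W_1b8d5d_p
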