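import Pool.Agent.W_1b8d5d_p.Unit1

/-!
MP_1b8d5d_pr, Track P, the bridge: compact sets of directions of the time constant satisfy `Dirs`.
-/

namespace Pool.Agent.W_1b8d5d_p

open MeasureTheory Set Filter Topology

/-- The facts on the time constant of a planar model with weights in `[a, b]`. -/
structure NormP (μ : (Fin 2 → ℝ) → ℝ) (a b : ℝ) : Prop where
  cont : Continuous μ
  hom : ∀ (c : ℝ) (x : Fin 2 → ℝ), 0 ≤ c → μ (c • x) = c * μ x
  sub : ∀ x y : Fin 2 → ℝ, μ (x + y) ≤ μ x + μ y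
  low : ∀ x : Fin 2 → ℝ, a * (|x 0| + |x 1|) ≤ μ x
  upp : ∀ x : Fin 2 → ℝ, μ x ≤ b * (|x 0| + |x 1|)
  strict : ∀ x y : Fin 2 → ℝ, ¬ SameRay ℝ x y → μ (x + y) < μ x + μ y
  diff : ∀ x : Fin 2 → ℝ, x ≠ 0 → DifferentiableAt ℝ μ x
  swap : ∀ x : Fin 2 → ℝ, μ ![x 1, x 0] = μ x
  refl : ∀ x : Fin 2 → ℝ, μ ![-x 0, x 1] = μ x

/-- The point of slope `x` on the line of block time one. -/
noncomputable def ptF (c : Co) (x : ℝ) : Fin 2 → ℝ := ![c.L * c.r - x * c.q, c.L * c.s + x * c.p]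

/-- The directions of the norm `μ` which are admissible for the coordinates `c`. -/
def DA (μ : (Fin 2 → ℝ) → ℝ) (c : Co) (a b K : ℝ) : Set Dr :=
  {d | (0 ≤ d.h1 ∧ 0 ≤ d.h2 ∧ d.h1 ≤ b ∧ d.h2 ≤ b) ∧ |d.v| ≤ K ∧ |be c d| ≤ a / 2 * c.M ∧
    (∀ x : Fin 2 → ℝ, d.h1 * x 0 + d.h2 * x 1 ≤ μ x) ∧
    d.h1 * ptF c d.v 0 + d.h2 * ptF c d.v 1 = μ (ptF c d.v)}

variable {μ : (Fin 2 → ℝ) → ℝ} {a b K : ℝ} {c : Co}

theorem ptF_zero (c : Co) (x : ℝ) : ptF c x 0 = c.L * c.r - x * c.q := rfl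

theorem ptF_one (c : Co) (x : ℝ) : ptF c x 1 = c.L * c.s + x * c.p := rfl

theorem ptF_det (c : Co) (x : ℝ) : c.p * ptF c x 0 + c.q * ptF c x 1 = c.L := by
  have h : (c.p : ℝ) * c.r + c.q * c.s = 1 := by exact_mod_cast c.det
  rw [ptF_zero, ptF_one]
  linear_combination (c.L : ℝ) * h

theorem L_pos' (c : Co) : (0 : ℝ) < c.L := by exact_mod_cast (by linarith [c.L_pos] : 0 < c.L)

theorem ptF_ne (c : Co) (x : ℝ) : ptF c x ≠ 0 := by
  intro h
  have h1 := ptF_det c x
  rw [h] at h1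
  simp only [Pi.zero_apply, mul_zero, add_zero] at h1
  linarith [L_pos' c]

theorem ptF_continuous (c : Co) : Continuous (ptF c) := by
  refine continuous_pi fun i => ?_
  fin_cases i
  · show Continuous fun x : ℝ => (c.L * c.r - x * c.q : ℝ)
    fun_prop
  · show Continuous fun x : ℝ => (c.L * c.s + x * c.p : ℝ)
    fun_prop

theorem ptF_add (c : Co) (x y : ℝ) : ptF c (x + y) = ptF c x + y • ![-(c.q : ℝ), (c.p : ℝ)] := by
  funext i
  fin_cases i
  · show (c.L * c.r - (x + y) * c.q : ℝ) = (c.L * c.r - x * c.q) + y * -c.q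
    ring
  · show (c.L * c.s + (x + y) * c.p : ℝ) = (c.L * c.s + x * c.p) + y * c.p
    ring

/-- The height. -/
theorem form_pt (c : Co) (d : Dr) (x : ℝ) : d.h1 * ptF c x 0 + d.h2 * ptF c x 1 = al c d + be c d * x := by
  rw [ptF_zero, ptF_one]
  unfold al be
  ring

/-- The rate function as a function of the norm. -/
theorem J_eq {F : Fm} (hmu : ∀ x, mu_ F x = μ (ptF F.co x)) (d : Dr) (x : ℝ) :
    J F d x = μ (ptF F.co (d.v + x)) - (d.h1 * ptF F.co (d.v + x) 0 + d.h2 * ptF F.co (d.v + x) 1) := by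
  unfold J
  rw [hmu, form_pt]

/-- The points of different slopes are on different rays. -/
theorem not_sameRay (c : Co) {x y : ℝ} (h : x ≠ y) : ¬ SameRay ℝ (ptF c x) (ptF c y) := by
  intro hr
  have hL := L_pos' c
  rcases hr with h0 | h0 | ⟨s, t, hs, ht, e⟩
  · exact ptF_ne c x h0
  · exact ptF_ne c y h0
  · have h1 := congrFun e 0
    have h2 := congrFun e 1
    simp only [Pi.smul_apply, smul_eq_mul] at h1 h2
    have e1 := ptF_det c x
    have e2 := ptF_det c y
    have h3 : s = t := by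
      have h4 : s * (c.p * ptF c x 0 + c.q * ptF c x 1) = t * (c.p * ptF c y 0 + c.q * ptF c y 1) := by
        linear_combination (c.p : ℝ) * h1 + (c.q : ℝ) * h2
      rw [e1, e2] at h4
      exact mul_right_cancel₀ hL.ne' h4
    subst h3
    have h5 : ptF c x 1 = ptF c y 1 := mul_left_cancel₀ hs.ne' h2
    rw [ptF_one, ptF_one] at h5
    have hp : (0 : ℝ) < c.p := by exact_mod_cast c.p_pos
    have h6 : x * c.p = y * c.p := by linarith
    exact h (mul_right_cancel₀ hp.ne' h6)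

/-! ### One direction -/

section one

variable {F : Fm}

theorem J_pos (hN : NormP μ a b) (hmu : ∀ x, mu_ F x = μ (ptF F.co x)) {d : Dr} (hd : d ∈ DA μ F.co a b K) {x : ℝ}
    (hx : x ≠ 0) : 0 < J F d x := by
  obtain ⟨-, -, -, h1, h2⟩ := hd
  by_contra hcon
  push Not at hcon
  rw [J_eq hmu] at hcon
  have h3 := hN.strict (ptF F.co d.v) (ptF F.co (d.v + x)) (not_sameRay _ (by intro h; exact hx (by linarith)))
  have h4 := h1 (ptF F.co d.v + ptF F.co (d.v + x))
  simp only [Pi.add_apply] at h4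
  linarith

theorem J_small (hN : NormP μ a b) (hmu : ∀ x, mu_ F x = μ (ptF F.co x)) {d : Dr} (hd : d ∈ DA μ F.co a b K) {ε : ℝ}
    (hε : 0 < ε) : ∃ x : ℝ, 0 < x ∧ J F d x < ε * x ∧ J F d (-x) < ε * x := by
  obtain ⟨-, -, -, h1, h2⟩ := hd
  have h3 : DifferentiableAt ℝ (fun x : ℝ => J F d x) 0 := by
    have e1 : (fun x : ℝ => J F d x) = fun x : ℝ => μ (ptF F.co d.v + x • ![-(F.co.q : ℝ), (F.co.p : ℝ)]) -
        (al F.co d + be F.co d * (d.v + x)) := by
      funext x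
      rw [J_eq hmu, form_pt, ptF_add]
    rw [e1]
    have e2 : DifferentiableAt ℝ μ (ptF F.co d.v + (0 : ℝ) • ![-(F.co.q : ℝ), (F.co.p : ℝ)]) := by
      rw [zero_smul, add_zero]
      exact hN.diff _ (ptF_ne _ _)
    have e3 : DifferentiableAt ℝ (fun x : ℝ => ptF F.co d.v + x • ![-(F.co.q : ℝ), (F.co.p : ℝ)]) 0 := by
      fun_prop
    exact (DifferentiableAt.comp (0 : ℝ) e2 e3).sub (by fun_prop)
  have h4 : IsLocalMin (fun x : ℝ => J F d x) 0 := by
    refine Filter.Eventually.of_forall fun x => ?_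
    simp only
    rw [J_eq hmu, J_eq hmu, add_zero, h2, sub_self]
    linarith [h1 (ptF F.co (d.v + x))]
  have h5 : HasDerivAt (fun x : ℝ => J F d x) 0 0 := by
    have := h3.hasDerivAt
    rwa [h4.deriv_eq_zero] at this
  have h0 : J F d 0 = 0 := by
    rw [J_eq hmu, add_zero, h2, sub_self]
  have h6 := (hasDerivAt_iff_isLittleO.1 h5).def (half_pos hε)
  rw [Metric.eventually_nhds_iff] at h6
  obtain ⟨δ, hδ, h7⟩ := h6
  refine ⟨δ / 2, by positivity, ?_, ?_⟩
  · have h8 := h7 (y := δ / 2) (by rw [Real.dist_eq, sub_zero, abs_of_pos (by positivity)]; linarith)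
    rw [h0, sub_zero, sub_zero, smul_zero, sub_zero, Real.norm_eq_abs, Real.norm_eq_abs, abs_of_pos (half_pos hδ)] at h8
    have h9 := (abs_le.1 h8).2
    have : ε / 2 * (δ / 2) < ε * (δ / 2) := by nlinarith [mul_pos hε hδ]
    linarith
  · have h8 := h7 (y := -(δ / 2)) (by rw [Real.dist_eq, sub_zero, abs_neg, abs_of_pos (by positivity)]; linarith)
    rw [h0, sub_zero, sub_zero, smul_zero, sub_zero, Real.norm_eq_abs, Real.norm_eq_abs, abs_neg, abs_of_pos (half_pos hδ)] at h8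
    have h9 := (abs_le.1 h8).2
    have : ε / 2 * (δ / 2) < ε * (δ / 2) := by nlinarith [mul_pos hε hδ]
    linarith

theorem touch_of (hmu : ∀ x, mu_ F x = μ (ptF F.co x)) {d : Dr} (hd : d ∈ DA μ F.co a b K) : Touch F d where
  zero := by
    rw [J_eq hmu, add_zero, hd.2.2.2.2, sub_self]
  nn := fun x => by
    rw [J_eq hmu]
    linarith [hd.2.2.2.1 (ptF F.co (d.v + x))]

/-- The slope of the chord from `0` is monotone. -/
theorem J_chord (hmu : ∀ x, mu_ F x = μ (ptF F.co x)) {d : Dr} (hd : d ∈ DA μ F.co a b K) {r x : ℝ} (hr : 0 < r)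
    (hx : r ≤ |x|) : |x| / r * min (J F d r) (J F d (-r)) ≤ J F d x ∧ ∀ y : ℝ, |y| ≤ r →
      J F d y ≤ |y| / r * max (J F d r) (J F d (-r)) := by
  have hc := J_convex F d
  have ht := touch_of hmu hd
  constructor
  · have hx0 : 0 < |x| := hr.trans_le hx
    -- `σ r` is between `0` and `x`
    have key : ∀ s : ℝ, |s| = r → s = (r / |x|) * x → J F d s ≤ r / |x| * J F d x := by
      intro s _ hs
      have h1 := hc.2 (mem_univ (0 : ℝ)) (mem_univ x) (by rw [sub_nonneg, div_le_one hx0]; exact hx : (0 : ℝ) ≤ 1 - r / |x|)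
        (by positivity : (0 : ℝ) ≤ r / |x|) (by ring)
      simp only [smul_eq_mul, mul_zero, zero_add] at h1
      rw [ht.zero, mul_zero, zero_add, ← hs] at h1
      exact h1
    have h2 : min (J F d r) (J F d (-r)) ≤ r / |x| * J F d x := by
      rcases le_total 0 x with h0 | h0
      · refine (min_le_left _ _).trans (key r (abs_of_pos hr) ?_)
        rw [abs_of_nonneg h0] at hx0 ⊢
        field_simp
      · refine (min_le_right _ _).trans (key (-r) (by rw [abs_neg, abs_of_pos hr]) ?_)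
        rw [abs_of_nonpos h0] at hx0 ⊢
        have hx1 : x ≠ 0 := by
          rintro rfl
          simp at hx0
        field_simp
    calc |x| / r * min (J F d r) (J F d (-r)) ≤ |x| / r * (r / |x| * J F d x) :=
          mul_le_mul_of_nonneg_left h2 (by positivity)
      _ = J F d x := by field_simp
  · intro y hy
    have key : ∀ s : ℝ, y = |y| / r * s → J F d y ≤ |y| / r * J F d s := by
      intro s hs
      have h1 := hc.2 (mem_univ (0 : ℝ)) (mem_univ s) (by rw [sub_nonneg, div_le_one hr]; exact hy : (0 : ℝ) ≤ 1 - |y| / r)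
        (by positivity : (0 : ℝ) ≤ |y| / r) (by ring)
      simp only [smul_eq_mul, mul_zero, zero_add] at h1
      rw [ht.zero, mul_zero, zero_add, ← hs] at h1
      exact h1
    rcases le_total 0 y with h0 | h0
    · refine (key r ?_).trans (mul_le_mul_of_nonneg_left (le_max_left _ _) (by positivity))
      rw [abs_of_nonneg h0]
      field_simp
    · refine (key (-r) ?_).trans (mul_le_mul_of_nonneg_left (le_max_right _ _) (by positivity))
      rw [abs_of_nonpos h0]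
      field_simp

end one

/-! ### Compactness -/

/-- The parameters of a direction. -/
def drOf (t : ℝ × ℝ × ℝ) : Dr := ⟨t.1, t.2.1, t.2.2⟩

theorem drOf_mk (d : Dr) : drOf (d.h1, d.h2, d.v) = d := rfl

theorem DA_compact (hN : NormP μ a b) (c : Co) (K : ℝ) : IsCompact {t : ℝ × ℝ × ℝ | drOf t ∈ DA μ c a b K} := by
  have hcl : IsClosed {t : ℝ × ℝ × ℝ | drOf t ∈ DA μ c a b K} := by
    have e : {t : ℝ × ℝ × ℝ | drOf t ∈ DA μ c a b K} =
        {t | 0 ≤ t.1} ∩ {t | 0 ≤ t.2.1} ∩ {t | t.1 ≤ b} ∩ {t | t.2.1 ≤ b} ∩ {t | |t.2.2| ≤ K} ∩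
        {t | |t.2.1 * (c.p : ℝ) - t.1 * (c.q : ℝ)| ≤ a / 2 * c.M} ∩
        (⋂ x : Fin 2 → ℝ, {t | t.1 * x 0 + t.2.1 * x 1 ≤ μ x}) ∩
        {t | t.1 * ptF c t.2.2 0 + t.2.1 * ptF c t.2.2 1 = μ (ptF c t.2.2)} := by
      ext t
      simp only [DA, drOf, be, mem_ofPred_eq, mem_inter_iff, mem_iInter]
      tauto
    rw [e]
    have hp : Continuous fun t : ℝ × ℝ × ℝ => ptF c t.2.2 := (ptF_continuous c).comp (by fun_prop)
    have hp0 : Continuous fun t : ℝ × ℝ × ℝ => ptF c t.2.2 0 := (continuous_apply 0).comp hp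
    have hp1 : Continuous fun t : ℝ × ℝ × ℝ => ptF c t.2.2 1 := (continuous_apply 1).comp hp
    refine ((((((((isClosed_le continuous_const (by fun_prop)).inter (isClosed_le continuous_const (by fun_prop))).inter
      (isClosed_le (by fun_prop) continuous_const)).inter (isClosed_le (by fun_prop) continuous_const)).inter
      (isClosed_le (by fun_prop) continuous_const)).inter (isClosed_le (by fun_prop) continuous_const)).inter
      (isClosed_iInter fun x => isClosed_le (by fun_prop) continuous_const)).inter ?_)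
    exact isClosed_eq (by fun_prop) (hN.cont.comp hp)
  refine IsCompact.of_isClosed_subset (isCompact_Icc (a := ((0, 0, -K) : ℝ × ℝ × ℝ)) (b := (b, b, K))) hcl ?_
  rintro t ⟨⟨h1, h2, h3, h4⟩, h5, -⟩
  have h6 := abs_le.1 h5
  exact ⟨⟨h1, h2, h6.1⟩, ⟨h3, h4, h6.2⟩⟩

theorem J_cont (F : Fm) (x : ℝ) : Continuous fun t : ℝ × ℝ × ℝ => J F (drOf t) x := by
  have h1 : Continuous (mu_ F) := (tm_sub F).lm_continuous
  unfold J drOf al be
  simp only
  refine (h1.comp (by fun_prop)).sub ?_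
  fun_prop

variable {F : Fm}

/-- **The sets of directions.** -/
theorem dirs (hN : NormP μ a b) (ha : 0 < a) (hFa : F.a = a) (hFb : F.b = b) (hmu : ∀ x, mu_ F x = μ (ptF F.co x)) (K : ℝ) :
    Dirs F (a / 2) K (DA μ F.co a b K) where
  adm := fun d hd => by
    refine ⟨by positivity, hd.1.1, hd.1.2.1, by rw [hFb]; exact hd.1.2.2.1, by rw [hFb]; exact hd.1.2.2.2, ?_⟩
    rw [hFa]
    have := hd.2.2.1
    linarith
  slope := fun d hd => hd.2.1
  touch := fun d hd => touch_of hmu hd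
  nc := fun ε hε => by
    -- a neighbourhood of each direction
    have hloc : ∀ t ∈ {t : ℝ × ℝ × ℝ | drOf t ∈ DA μ F.co a b K}, ∃ V ∈ 𝓝[{t : ℝ × ℝ × ℝ | drOf t ∈ DA μ F.co a b K}] t,
        ∃ δ : ℝ, 0 < δ ∧ ∀ t' ∈ V, drOf t' ∈ DA μ F.co a b K → ∀ x : ℝ, |x| ≤ δ → J F (drOf t') x ≤ ε * |x| := by
      intro t ht
      obtain ⟨δ, hδ, h1, h2⟩ := J_small hN hmu ht hε
      have h3 : ∀ᶠ t' in 𝓝 t, J F (drOf t') δ < ε * δ := (J_cont F δ).continuousAt.eventually_lt continuousAt_const h1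
      have h4 : ∀ᶠ t' in 𝓝 t, J F (drOf t') (-δ) < ε * δ := (J_cont F (-δ)).continuousAt.eventually_lt continuousAt_const h2
      refine ⟨_, mem_nhdsWithin_of_mem_nhds (h3.and h4), δ, hδ, fun t' ht' hd x hx => ?_⟩
      have h5 := (J_chord hmu hd hδ (x := δ) (by rw [abs_of_pos hδ])).2 x hx
      refine h5.trans ?_
      have h6 : max (J F (drOf t') δ) (J F (drOf t') (-δ)) ≤ ε * δ := max_le ht'.1.le ht'.2.le
      calc |x| / δ * max (J F (drOf t') δ) (J F (drOf t') (-δ)) ≤ |x| / δ * (ε * δ) :=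
            mul_le_mul_of_nonneg_left h6 (by positivity)
        _ = ε * |x| := by field_simp
    choose! V hV δ hδ h using hloc
    obtain ⟨s, hs, hcov⟩ := (DA_compact hN F.co K).elim_nhdsWithin_subcover V hV
    by_cases hne : s.Nonempty
    · obtain ⟨t₀, ht₀, hmin⟩ := Finset.exists_min_image s δ hne
      refine ⟨δ t₀, hδ t₀ (hs t₀ ht₀), fun d hd x hx => ?_⟩
      have hd' : (d.h1, d.h2, d.v) ∈ {t : ℝ × ℝ × ℝ | drOf t ∈ DA μ F.co a b K} := by
        show drOf (d.h1, d.h2, d.v) ∈ DA μ F.co a b K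
        rw [drOf_mk]
        exact hd
      obtain ⟨t, ht, htV⟩ := mem_iUnion₂.1 (hcov hd')
      have h7 := h t (hs t ht) _ htV hd' x (hx.trans (hmin t ht))
      rwa [drOf_mk] at h7
    · rw [Finset.not_nonempty_iff_eq_empty] at hne
      subst hne
      refine ⟨1, one_pos, fun d hd => ?_⟩
      have hd' : (d.h1, d.h2, d.v) ∈ {t : ℝ × ℝ × ℝ | drOf t ∈ DA μ F.co a b K} := by
        show drOf (d.h1, d.h2, d.v) ∈ DA μ F.co a b K
        rw [drOf_mk]
        exact hd
      simpa using hcov hd'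
  strict := fun r hr => by
    rcases (DA μ F.co a b K).eq_empty_or_nonempty with he | ⟨d₀, hd₀⟩
    · refine ⟨1, one_pos, fun d hd => ?_⟩
      rw [he] at hd
      exact absurd hd (notMem_empty d)
    · have hne : {t : ℝ × ℝ × ℝ | drOf t ∈ DA μ F.co a b K}.Nonempty := ⟨(d₀.h1, d₀.h2, d₀.v), by
        show drOf (d₀.h1, d₀.h2, d₀.v) ∈ DA μ F.co a b K
        rw [drOf_mk]
        exact hd₀⟩
      obtain ⟨t₁, ht₁, h1⟩ := (DA_compact hN F.co K).exists_isMinOn hne (J_cont F r).continuousOn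
      obtain ⟨t₂, ht₂, h2⟩ := (DA_compact hN F.co K).exists_isMinOn hne (J_cont F (-r)).continuousOn
      have p1 : 0 < J F (drOf t₁) r := J_pos hN hmu ht₁ hr.ne'
      have p2 : 0 < J F (drOf t₂) (-r) := J_pos hN hmu ht₂ (neg_ne_zero.2 hr.ne')
      refine ⟨min (J F (drOf t₁) r) (J F (drOf t₂) (-r)) / r, by positivity, fun d hd x hx => ?_⟩
      have hd' : (d.h1, d.h2, d.v) ∈ {t : ℝ × ℝ × ℝ | drOf t ∈ DA μ F.co a b K} := by
        show drOf (d.h1, d.h2, d.v) ∈ DA μ F.co a b K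
        rw [drOf_mk]
        exact hd
      have h3 := (J_chord hmu hd hr hx).1
      refine le_trans ?_ h3
      have h5 := isMinOn_iff.1 h1 _ hd'
      have h6 := isMinOn_iff.1 h2 _ hd'
      rw [drOf_mk] at h5 h6
      have h4 : min (J F (drOf t₁) r) (J F (drOf t₂) (-r)) ≤ min (J F d r) (J F d (-r)) := min_le_min h5 h6
      calc min (J F (drOf t₁) r) (J F (drOf t₂) (-r)) / r * |x| = |x| / r * min (J F (drOf t₁) r) (J F (drOf t₂) (-r)) := by
            ring
        _ ≤ |x| / r * min (J F d r) (J F d (-r)) := mul_le_mul_of_nonneg_left h4 (by positivity)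

end Pool.Agent.W_1b8d5d_p
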