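import Pool.Agent.W_1b8d5d_p.NormP32
import Pool.Agent.W_1b8d5d_p.DirsA
import Pool.Agent.W_1b8d5d_nc.CoreOf
import Pool.Agent.W_1b8d5d_nd.Core
import Pool.Agent.W_1b8d5d_sc.FinS
import Pool.Agent.W_1b8d5d_sc.ScCore

/-!
MP_1b8d5d_pr, Track P, the bridge: the facts `NormP` on the time constant, from the hypotheses of the final theorem. (helper32)
-/

set_option autoImplicit false

open MeasureTheory ProbabilityTheory Filter Topology

namespace Pool.Agent.W_1b8d5d_p32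

open Pool.Agent.W_1b8d5d_p (NormP)

/-- **The facts on the time constant, in the form of the frozen statement.** -/
theorem normP_of_problem (a b : ℝ) (ha : 0 < a)
    (ν : Measure ℝ) (hν : IsProbabilityMeasure ν) (hsupp : ν (Set.Icc a b)ᶜ = 0)
    (hatom : ∀ x : ℝ, ν ({x} : Set ℝ) = 0)
    (Ω : Type) [MeasurableSpace Ω] (P : Measure Ω) (hP : IsProbabilityMeasure P)
    (τ : (Fin 2 → ℤ) × Fin 2 → Ω → ℝ)
    (hm : ∀ e, Measurable (τ e)) (hi : iIndepFun τ P) (hl : ∀ e, P.map (τ e) = ν)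
    (μ : (Fin 2 → ℝ) → ℝ) (hμ : Continuous μ)
    (hom : ∀ (c : ℝ) (x : Fin 2 → ℝ), 0 ≤ c → μ (c • x) = c * μ x)
    (hlim : ∀ x : Fin 2 → ℤ, TendstoInMeasure P
        (fun (n : ℕ) (ω : Ω) =>
            sInf {t : ℝ | ∃ (m : ℕ) (p : ℕ → Fin 2 → ℤ), p 0 = 0 ∧ p m = (n : ℤ) • x ∧
              (∀ k < m, ∑ i, |p (k+1) i - p k i| = 1) ∧
              t = ∑ k ∈ Finset.range m, ∑ i : Fin 2,
                ((if p (k+1) = p k + (Pi.single i (1 : ℤ) : Fin 2 → ℤ) then τ (p k, i) ω else 0) +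
                 (if p k = p (k+1) + (Pi.single i (1 : ℤ) : Fin 2 → ℤ) then τ (p (k+1), i) ω else 0))}
            / (n : ℝ))
        atTop (fun _ => μ (fun i => (x i : ℝ)))) :
    NormP μ a b := by
  obtain ⟨-, hstrict, -, -⟩ := Pool.Agent.W_1b8d5d_sc.finalS
    (fun _ _ hg hM _ hf => Pool.Agent.W_1b8d5d_sc.sc_core hg hM hf)
    a b ha ν hν hsupp hatom Ω P hP τ hm hi hl μ hμ hom hlim
  have hν0 : ν (Set.Iio 0) = 0 := by
    refine measure_mono_null (fun x hx => ?_) hsupp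
    simp only [Set.mem_compl_iff, Set.mem_Icc, not_and, not_le]
    intro h1
    exact absurd (lt_trans ha (lt_of_le_of_lt h1 hx)) (lt_irrefl _)
  obtain ⟨-, -, -, -, -, hd2⟩ := Pool.Agent.W_1b8d5d_nc.finalD (Pool.Agent.W_1b8d5d_nc.coreD_of
    fun _ _ hd _ _ _ _ _ hX hm hQ => Pool.Agent.W_1b8d5d_nd.no_vtx hd hQ hm hX)
    2 le_rfl ν hν hν0 hatom Ω P hP τ hm hi hl μ hμ hom hlim
  obtain ⟨-, -, hdiff⟩ := hd2 rfl
  have hF : Pool.Agent.W_1b8d5d_nc.FppD ν P τ := ⟨hP, hm, hi, hl⟩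
  have hlim' : Pool.Agent.W_1b8d5d_nc.LimD P τ μ := by
    intro x
    have h1 := hlim x
    have h2 : (fun (n : ℕ) (ω : Ω) => Pool.Agent.W_1b8d5d_gd.T (fun e => τ e ω) 0 (n • x) / (n : ℝ)) =
        fun (n : ℕ) (ω : Ω) =>
        sInf (Pool.Agent.W_1b8d5d_nc.pathD (fun e => τ e ω) ((n : ℤ) • x)) / (n : ℝ) := by
      funext n ω
      rw [Pool.Agent.W_1b8d5d_nc.sInf_pathD, natCast_zsmul]
    rw [h2]
    exact h1
  obtain ⟨hlow, hupp, hperm, hsign, hsub⟩ := bounds_sym hF ha.le hsupp hμ hom hlim'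
  refine ⟨hμ, hom, hsub, fun x => ?_, fun x => ?_, hstrict, hdiff, fun x => ?_, fun x => ?_⟩
  · have h := hlow x
    rwa [Fin.sum_univ_two] at h
  · have h := hupp x
    rwa [Fin.sum_univ_two] at h
  · have h := hperm (Equiv.swap 0 1) x
    have e : (fun i => x (Equiv.swap (0 : Fin 2) 1 i)) = ![x 1, x 0] := by
      funext i
      fin_cases i
      · simp
      · simp
    rwa [e] at h
  · have h := hsign ![-1, 1] (by
      intro i
      fin_cases i
      · simp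
      · simp) x
    have e : (fun i => (((![-1, 1] : Fin 2 → ℤ) i : ℤ) : ℝ) * x i) = ![-x 0, x 1] := by
      funext i
      fin_cases i
      · simp
      · simp
    rwa [e] at h

end Pool.Agent.W_1b8d5d_p32
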