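import Pool.Agent.W_1b8d5d_p.BrTC
import Pool.Agent.W_1b8d5d_p.NormPof32
import Pool.Agent.W_1b8d5d_p.BalFamB78
import Pool.Agent.W_1b8d5d_p.BalDef48
import Pool.Agent.W_1b8d5d_p.SlDefs
import Pool.Agent.W_1b8d5d_p.LDoct61

/-!
MP_1b8d5d_pr, Track P2: the local doubling of the time constant from the uniform doubling of the rate functions, for any class of
laws (a predicate of the model).
-/

set_option autoImplicit false

open MeasureTheory ProbabilityTheory Filter Topology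

namespace Pool.Agent.W_1b8d5d_p

open Pool.Agent.W_1b8d5d_h85 Pool.Agent.W_1b8d5d_fe Pool.Agent.W_1b8d5d_nc

/-- The uniform doubling of the rate functions for a class of models, for the families of directions which are closed under small
tilts in a larger family. -/
def CoreDblX35 (X : Fm → Prop) : Prop := ∀ (F : Fm) (κ K s0 : ℝ) (A A0 : Set Dr), X F → Antitone F.g → 0 < κ →
  Dirs F κ K A → A0 ⊆ A → FamP F A0 A s0 → DblP F A0

/-- **The local doubling of the time constant.** -/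
theorem ldX35 {X : Fm → Prop} (hC : CoreDblX35 X) (a b : ℝ) (ha : 0 < a) (ν : Measure ℝ) (hlaw : Law a b ν)
    (hX : ∀ co : Co, X (fmOf co ha hlaw))
    (Ω : Type) [MeasurableSpace Ω] (P : Measure Ω) (hP : IsProbabilityMeasure P)
    (τ : (Fin 2 → ℤ) × Fin 2 → Ω → ℝ)
    (hm : ∀ e, Measurable (τ e)) (hi : iIndepFun τ P) (hl : ∀ e, P.map (τ e) = ν)
    (μ : (Fin 2 → ℝ) → ℝ) (hμ : Continuous μ)
    (hom : ∀ (c : ℝ) (x : Fin 2 → ℝ), 0 ≤ c → μ (c • x) = c * μ x)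
    (hlim : ∀ x : Fin 2 → ℤ, TendstoInMeasure P
        (fun (n : ℕ) (ω : Ω) =>
            sInf {t : ℝ | ∃ (m : ℕ) (p : ℕ → Fin 2 → ℤ), p 0 = 0 ∧ p m = (n : ℤ) • x ∧
              (∀ k < m, ∑ i, |p (k+1) i - p k i| = 1) ∧
              t = ∑ k ∈ Finset.range m, ∑ i : Fin 2,
                ((if p (k+1) = p k + (Pi.single i (1 : ℤ) : Fin 2 → ℤ) then τ (p k, i) ω else 0) +
                 (if p k = p (k+1) + (Pi.single i (1 : ℤ) : Fin 2 → ℤ) then τ (p (k+1), i) ω else 0))}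
            / (n : ℝ))
        atTop (fun _ => μ (fun i => (x i : ℝ)))) :
    NormP μ a b ∧ ∃ C δ : ℝ, 1 ≤ C ∧ 0 < δ ∧ ∀ z, μ z = 1 → LD35 μ C δ z := by
  obtain ⟨hν, hsupp, hat⟩ := id hlaw
  have hN : NormP μ a b := Pool.Agent.W_1b8d5d_p32.normP_of_problem a b ha ν hν hsupp hat Ω P hP τ hm hi hl μ hμ hom hlim
  have hF := isFPP_of_frozen hP hm hi hl
  have hc' : Continuous (pl μ) := by
    show Continuous fun x : ℝ × ℝ => μ ![x.1, x.2]
    refine hμ.comp ?_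
    refine continuous_pi fun i => ?_
    fin_cases i
    · exact continuous_fst
    · exact continuous_snd
  have hom' : ∀ (c : ℝ) (x : ℝ × ℝ), 0 ≤ c → pl μ (c • x) = c * pl μ x := by
    intro c x hcc
    show μ ![c * x.1, c * x.2] = c * μ ![x.1, x.2]
    rw [← hom c _ hcc]
    congr 1
    funext i
    fin_cases i <;> rfl
  have hlim' : ∀ x : V, Tendsto (fun n : ℕ => Pool.Agent.W_1b8d5d_h85.tm P (fun e => τ (toE e)) (n • x) / n) atTop
      (𝓝 (pl μ (toR x))) := by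
    intro x
    refine tendsto_tm ha hlaw hF ?_
    have h1 := hlim (toF x)
    rw [cast_toF] at h1
    have h2 : (fun (n : ℕ) (ω : Ω) =>
        T (fun e => τ (toE e) ω) 0 (n • x) / (n : ℝ)) = fun (n : ℕ) (ω : Ω) =>
        sInf (pathSet (fun e => τ e ω) ((n : ℤ) • toF x)) / (n : ℝ) := by
      funext n ω
      rw [toF_nsmul, sInf_pathSet]
    rw [h2]
    exact h1
  have hmu : ∀ (co : Co) (x : ℝ), mu_ (fmOf co ha hlaw) x = μ (ptF co x) := fun co x => by
    rw [tc ha hlaw hF hc' hom' hlim' co x]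
    rfl
  obtain ⟨N, K, q0, hK, hq0, hcov⟩ := cover78 hN ha
  have hJ : ∀ j ≤ N + 1, ∃ D δ : ℝ, 0 < δ ∧ ∀ d ∈ DA0 μ (coOf N j) a b K q0, ∀ x : ℝ, |x| ≤ δ →
      Jm μ (coOf N j) d (2 * x) ≤ D * Jm μ (coOf N j) d x := by
    intro j _
    have h1 := dirs (F := fmOf (coOf N j) ha hlaw) hN ha rfl rfl (hmu (coOf N j)) (K + 1)
    obtain ⟨s0, hF⟩ := fam78 (F := fmOf (coOf N j) ha hlaw) hN ha rfl rfl (hmu (coOf N j)) K hq0
    obtain ⟨D, δ, hδ, h⟩ := hC _ (a / 2) (K + 1) s0 _ _ (hX _) (fmOf_anti _ ha hlaw) (by positivity) h1 hF.sub hF.famP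
    refine ⟨D, δ, hδ, fun d hd x hx => ?_⟩
    have h6 := h d hd x hx
    rwa [J_eq_Jm (hmu (coOf N j)), J_eq_Jm (hmu (coOf N j))] at h6
  exact ⟨hN, ld_all61 hN ha hcov hJ⟩

end Pool.Agent.W_1b8d5d_p
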