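import Pool.Agent.W_1b8d5d_p.BalLane69
import Pool.Agent.W_1b8d5d_p.BalCmp14
import Pool.Agent.W_1b8d5d_p.BalNum48
import Pool.Agent.W_1b8d5d_p.BalDbl
import Pool.Agent.W_1b8d5d_p.DblX35

/-!
MP_1b8d5d_pr, Track P2: the uniform doubling of the rate functions is a theorem.
-/

set_option autoImplicit false

namespace Pool.Agent.W_1b8d5d_p

open Pool.Agent.W_1b8d5d_h4p (LawH)

/-- **The uniform doubling of the rate functions.** -/
theorem coreDbl35 (c C : ℝ) : CoreDblX35 fun F => LawH F c C := by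
  intro F κ K s0 A A0 hL hg hκ hD hA hF
  obtain ⟨C3, Cm, hLane⟩ := laneP_all69 hL hg hκ hD le_rfl
  have hCmp := cmp_all14 hD (hD.rate hL) one_pos (cheapP_all hL hD le_rfl) hLane
  obtain ⟨M0, x1, hM0, hbal⟩ := bal_all hD le_rfl (hD.rate hL) (hD.grow_law hL) hA hF hCmp
  exact dblP_of_bal hL (hD.mono_set hA) one_pos (halving_allP hL hg hκ (hD.mono_set hA)) ⟨M0, x1, hbal⟩

end Pool.Agent.W_1b8d5d_p
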