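import Pool.Agent.W_1b8d5d_p.HbP32
import Pool.Agent.W_1b8d5d_p.CoreP
import Pool.Agent.W_1b8d5d_p.FrameF

/-!
# Track P of `MP_1b8d5d_pr`, section (B): HBP from the lucky window and the selection (helper32)
-/

namespace Pool.Agent.W_1b8d5d_p

open Pool.Agent.W_1b8d5d_h4p (LawH)

noncomputable section

variable {F : Fm} {κ K a c0 C0 : ℝ} {A : Set Dr}

/-- **HBP** from the lucky window (`Mid83`) and the selection of the insertion points (`SelP`). -/
theorem hbP_of (hL : LawH F c0 C0) (hg : Antitone F.g) (hD : Dirs F κ K A) (ha : 1 ≤ a) (hMid : Mid83 F)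
    (hsel : SelP F a A) : HBP a F κ A := by
  have ha0 : 0 < a := one_pos.trans_le ha
  have hG := hD.grow_law hL
  have hR := hD.rate hL
  obtain ⟨c, C', hc, hch⟩ := cheapP_all hL hD ha
  obtain ⟨r, C3, -, -, hcore⟩ := coreHB_of_mid83 hMid hg hD ha0 hR hG (lstarP_all hL hD ha0) ⟨c, C', hc, hch⟩
  exact hb32 hD hg hG hR ha0 hc hch hcore hsel

end

end Pool.Agent.W_1b8d5d_p
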