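import Pool.Agent.W_1b8d5d_p.CoreB71
import Pool.Agent.W_1b8d5d_p.HbAll32
import Pool.Agent.W_1b8d5d_h48.SelF83

/-!
# Track P: the lucky window, and (B) from the law and the directions only (helper83)
-/

namespace Pool.Agent.W_1b8d5d_p

open Pool.Agent.W_1b8d5d_h4p (LawH)

variable {F : Fm} {κ K a c0 C0 : ℝ} {A : Set Dr}

/-- The lucky window. -/
theorem mid83 (hL : LawH F c0 C0) : Mid83 F := fun _ _ _ _ _ _ h1 h2 h3 h4 h5 h6 h7 h8 =>
  mid71 hL h1 h2 h3 h4 h5 h6 h7 h8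

/-- **HBP**, for laws with a density, weights nonincreasing in the uniform variables. -/
theorem hbP_all83 (hL : LawH F c0 C0) (hg : Antitone F.g) (hD : Dirs F κ K A) (ha : 1 ≤ a) : HBP a F κ A :=
  hbP_of hL hg hD ha (mid83 hL) (selP_all83 hL hD (one_pos.trans_le ha))

end Pool.Agent.W_1b8d5d_p
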