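import Pool.Agent.W_1b8d5d_p.FrGen
import Pool.Agent.W_1b8d5d_p.Unit1

/-!
MP_1b8d5d_pr, Track P (proofs row 636, section 5, step (B3), in the unit of row 644): the place of the core. A lucky end at a
random position of a window `[qa, qb]` at the block time `m` is continued by `r` cheap displacements to one deterministic grid
point.
-/

namespace Pool.Agent.W_1b8d5d_p

open MeasureTheory Set
open Pool.Agent.W_1b8d5d_h85

noncomputable section

variable {F : Fm} {κ : ℝ} {d : Dr}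

/-- Sums of `r` cheap displacements. -/
theorem ep_pieces {m : ℕ} (hm : 1 ≤ m) {lo hi : ℤ} {B : ℝ} (hB : ∀ y, lo ≤ y → y ≤ hi → ep F d m y ≤ B) {r : ℕ}
    (hr : 1 ≤ r) : ∀ y : ℤ, r * lo ≤ y → y ≤ r * hi → ep F d (r * m) y ≤ r * B := by
  induction r, hr using Nat.le_induction with
  | base =>
    intro y h1 h2
    rw [one_mul]
    push_cast at h1 h2 ⊢
    rw [one_mul] at h1 h2 ⊢
    exact hB y h1 h2
  | succ r hr ih =>
    intro y h1 h2
    have hr0 : (0 : ℤ) < r := by exact_mod_cast hr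
    push_cast at h1 h2
    have hlh : lo ≤ hi := by
      have h3 : ((r : ℤ) + 1) * lo ≤ ((r : ℤ) + 1) * hi := h1.trans h2
      exact le_of_mul_le_mul_left h3 (by omega)
    have hrl : (r : ℤ) * lo ≤ r * hi := mul_le_mul_of_nonneg_left hlh hr0.le
    have e0 : ((r : ℤ) + 1) * lo = r * lo + lo := by ring
    have e1 : ((r : ℤ) + 1) * hi = r * hi + hi := by ring
    rw [e0] at h1
    rw [e1] at h2
    have hz : ∃ z : ℤ, lo ≤ z ∧ z ≤ hi ∧ r * lo ≤ y - z ∧ y - z ≤ r * hi := by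
      rcases le_total lo (y - r * hi) with h | h
      · exact ⟨y - r * hi, h, by omega, by omega, by omega⟩
      · exact ⟨lo, le_rfl, hlh, by omega, by omega⟩
    obtain ⟨z, hz1, hz2, hz3, hz4⟩ := hz
    have h3 := ep_sub F d (m := r * m) (n := m) (Nat.mul_pos hr hm) hm (y - z) z
    rw [sub_add_cancel] at h3
    have e2 : (r + 1) * m = r * m + m := by ring
    rw [e2]
    push_cast
    linarith [ih (y - z) hz3 hz4, hB z hz1 hz2]

/-- Markov. -/
theorem half_le {n : ℕ} (hn : 1 ≤ n) (a : Pt) (y : ℤ) {B : ℝ} (hB : 0 < B) (h : ep F d n y ≤ B) :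
    1 / 2 ≤ (law F).real {η | X F d η a n y ≤ 2 * B} := by
  have hm : Measurable fun η => X F d η a n y := X_meas F d a n y
  have h1 : (law F).real {η | X F d η a n y ≤ 2 * B} = 1 - (law F).real {η | X F d η a n y ≤ 2 * B}ᶜ := by
    rw [probReal_compl_eq_one_sub (measurableSet_le hm measurable_const)]
    ring
  have hint : Integrable (fun η => max (X F d η a n y) 0) (law F) := by
    refine Integrable.of_bound (hm.max measurable_const).aestronglyMeasurable
      (F.b * (nm (F.co.vt ((n : ℤ), y)) + 4) + |al F.co d * n + be F.co d * y|)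
      (Filter.Eventually.of_forall fun η => ?_)
    have h2 := TT_nonneg (c := F.co) (bd_tau F η) F.a0.le a n y
    have h3 := TT_upper (c := F.co) (bd_tau F η) F.a0.le (b_pos F).le a hn y
    have h4 := neg_abs_le (al F.co d * n + be F.co d * y)
    rw [Real.norm_eq_abs, abs_of_nonneg (le_max_right _ _)]
    refine max_le ?_ (add_nonneg (h2.trans h3) (abs_nonneg _))
    unfold X
    linarith
  have h2 : (law F).real {η | X F d η a n y ≤ 2 * B}ᶜ ≤ 1 / 2 := by
    have h3 := mul_meas_ge_le_integral_of_nonneg (μ := law F) (f := fun η => max (X F d η a n y) 0)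
      (Filter.Eventually.of_forall fun _ => le_max_right _ _) hint (2 * B)
    rw [ep_at] at h3
    have h4 : (law F).real {η | X F d η a n y ≤ 2 * B}ᶜ ≤ (law F).real {η | 2 * B ≤ max (X F d η a n y) 0} := by
      refine measureReal_mono fun η hη => ?_
      simp only [mem_compl_iff, mem_ofPred_eq, not_le] at hη ⊢
      exact hη.le.trans (le_max_left _ _)
    have h5 : 2 * B * (law F).real {η | 2 * B ≤ max (X F d η a n y) 0} ≤ B := h3.trans h
    nlinarith
  rw [h1]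
  linarith

/-- **(B3) PLACE**, for any fresh part of duration `N` with an interval `[lo, hi]` of displacements of mean at most `B`. -/
theorem place0 {l N : ℕ} (hN : 1 ≤ N) (hl : 1 ≤ l) {lo hi qa qb : ℤ} {B : ℝ} (hB0 : 0 < B)
    (hB : ∀ y, lo ≤ y → y ≤ hi → ep F d N y ≤ B) (hw : qb - qa ≤ hi - lo) {k k' : ℝ} (hk : k + 2 * B ≤ k') :
    (1 / 2) * (law F).real {η | ∃ q, qa ≤ q ∧ q ≤ qb ∧ k' ≤ -X F d η 0 l q} ≤
      (law F).real {η | k ≤ -X F d η 0 (l + N) (qb + lo)} := by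
  set ι := {q : ℤ // qa ≤ q ∧ q ≤ qb} with hι
  set S : ι → Set Env := fun q => {η | k' ≤ -X F d η 0 l q.1} with hS
  set Bs : ι → Set Env := fun q => {η | X F d η (0 + ((l : ℤ), q.1)) N (qb + lo - q.1) ≤ 2 * B} with hBs
  have h1 := stage (F := F) (S := S) (B := Bs) (m := fun _ => 0) (T := fun _ => F.co.slab 0 l)
    (T' := fun _ => F.co.slab l (l + N)) (c := 1 / 2) (fun _ _ _ => le_rfl)
    (fun _ => Co.slab_disjoint le_rfl)
    (fun q => measurableSet_le measurable_const (X_meas F d 0 l q.1).neg)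
    (fun q η η' h => by
      have h2 : X F d η 0 l q.1 = X F d η' 0 l q.1 := X_dep F d 0 l q.1 (by simpa using h)
      simp only [hS, mem_ofPred_eq, h2])
    (fun q => measurableSet_le (X_meas F d _ _ _) measurable_const)
    (fun q η η' h => by
      have h2 : X F d η (0 + ((l : ℤ), q.1)) N (qb + lo - q.1) = X F d η' (0 + ((l : ℤ), q.1)) N (qb + lo - q.1) :=
        X_dep F d _ N _ (by simpa using h)
      simp only [hBs, mem_ofPred_eq, h2])
    (by norm_num) (fun q => by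
      refine half_le hN _ _ hB0 (hB _ ?_ ?_)
      · have := q.2.2
        omega
      · have := q.2.1
        omega)
  refine le_trans (mul_le_mul_of_nonneg_left (measureReal_mono ?_) (by norm_num)) (h1.trans (measureReal_mono ?_))
  · rintro η ⟨q, hq1, hq2, hq3⟩
    exact mem_iUnion.2 ⟨⟨q, hq1, hq2⟩, hq3⟩
  · intro η hη
    obtain ⟨q, hq1, hq2⟩ := mem_iUnion.1 hη
    have h2 := X_tri F d η 0 hl hN q.1 (qb + lo - q.1)
    have e1 : q.1 + (qb + lo - q.1) = qb + lo := by ring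
    rw [e1] at h2
    simp only [hS, mem_ofPred_eq] at hq1
    simp only [hBs, mem_ofPred_eq] at hq2
    simp only [mem_ofPred_eq]
    linarith

/-- **(B3) PLACE.** -/
theorem place {m r : ℕ} (hm : 1 ≤ m) (hr : 1 ≤ r) {lo hi qa qb : ℤ} {B : ℝ} (hB0 : 0 < B)
    (hB : ∀ y, lo ≤ y → y ≤ hi → ep F d m y ≤ B) (hw : qb - qa ≤ r * (hi - lo)) {k k' : ℝ} (hk : k + 2 * (r * B) ≤ k') :
    (1 / 2) * (law F).real {η | ∃ q, qa ≤ q ∧ q ≤ qb ∧ k' ≤ -X F d η 0 m q} ≤
      (law F).real {η | k ≤ -X F d η 0 (m + r * m) (qb + r * lo)} := by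
  have hr0 : (0 : ℝ) < r := by exact_mod_cast hr
  exact place0 (N := r * m) (Nat.mul_pos hr hm) hm (lo := r * lo) (hi := r * hi) (by positivity)
    (ep_pieces hm hB hr) (by rw [← mul_sub]; exact hw) hk

/-- Sums of `r` cheap displacements and a filler. -/
theorem ep_fill {j m r : ℕ} (hm : 1 ≤ m) {lo hi f : ℤ} {B B' : ℝ} (hf0 : j = 0 → f = 0) (hf : ep F d j f ≤ B')
    (hB : ∀ y, lo ≤ y → y ≤ hi → ep F d m y ≤ B) (hr : 1 ≤ r) (y : ℤ) (h1 : f + r * lo ≤ y) (h2 : y ≤ f + r * hi) :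
    ep F d (j + r * m) y ≤ B' + r * B := by
  have h3 := ep_pieces hm hB hr (y - f) (by omega) (by omega)
  rcases Nat.eq_zero_or_pos j with h | h
  · subst h
    rw [hf0 rfl, sub_zero] at h3
    have h4 := ep_nonneg F d 0 f
    rw [zero_add]
    linarith
  · have h4 := ep_sub F d (m := j) (n := r * m) h (Nat.mul_pos hr hm) f (y - f)
    rw [show f + (y - f) = y by ring] at h4
    linarith

/-- The mean cost of the deterministic end. -/
theorem place_ep {m r : ℕ} (hm : 1 ≤ m) (hr : 1 ≤ r) {lo hi qa qb q0 : ℤ} {B B' : ℝ}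
    (hB : ∀ y, lo ≤ y → y ≤ hi → ep F d m y ≤ B) (hw : qb - qa ≤ r * (hi - lo)) (h1 : qa ≤ q0) (h2 : q0 ≤ qb)
    (hq : ep F d m q0 ≤ B') : ep F d (m + r * m) (qb + r * lo) ≤ B' + r * B := by
  have h3 := ep_sub F d hm (n := r * m) (Nat.mul_pos hr hm) q0 (qb + r * lo - q0)
  have e1 : q0 + (qb + r * lo - q0) = qb + r * lo := by ring
  rw [e1] at h3
  have h4 : ep F d (r * m) (qb + r * lo - q0) ≤ r * B := by
    refine ep_pieces hm hB hr _ (by omega) ?_
    have e2 : (r : ℤ) * (hi - lo) = r * hi - r * lo := by ring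
    rw [e2] at hw
    omega
  linarith

/-- **(B3), with the unit `E` and the width `w`.** `[lo, hi]`: the interval of the cheap displacements of duration `m`,
`x`: one of them; the window `[qa, qb]` contains `x`, its length is at most `c1 w`. The number `r` of the pieces and the
constant `c1 + (1 + 2 r) C` do not depend on the scale. -/
theorem place_scale {m r : ℕ} (hm : 1 ≤ m) {lo hi x qa qb : ℤ} {w E C c0 c1 : ℝ} (hE : 0 < E) (hc0 : 0 < c0)
    (hC : 0 < C) (hc1 : 0 ≤ c1) (hw : 2 / c0 ≤ w) (hlen : c0 * w - 1 ≤ (hi : ℝ) - lo)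
    (hep : ∀ y, lo ≤ y → y ≤ hi → ep F d m y ≤ C * E) (hlat : ∀ y, lo ≤ y → y ≤ hi → |(y : ℝ) - d.v * m| ≤ C * w)
    (hx1 : lo ≤ x) (hx2 : x ≤ hi) (hqa : qa ≤ x) (hqb : x ≤ qb) (hq : (qb : ℝ) - qa ≤ c1 * w) (hr : 1 ≤ r)
    (hr1 : 2 * c1 / c0 ≤ r) :
    ep F d (m + r * m) (qb + r * lo) ≤ (c1 + (1 + 2 * r) * C) * E ∧
    |((qb + r * lo : ℤ) : ℝ) - d.v * (m + r * m : ℕ)| ≤ (c1 + (1 + 2 * r) * C) * w ∧
    ∀ k : ℝ, (1 / 2) * (law F).real {η | ∃ q, qa ≤ q ∧ q ≤ qb ∧ (k + (c1 + (1 + 2 * r) * C)) * E ≤ -X F d η 0 m q} ≤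
      (law F).real {η | k * E ≤ -X F d η 0 (m + r * m) (qb + r * lo)} := by
  have hr0 : (1 : ℝ) ≤ r := by exact_mod_cast hr
  have hw0 : 0 < w := lt_of_lt_of_le (by positivity) hw
  have h1 : 2 ≤ c0 * w := by
    rw [div_le_iff₀ hc0] at hw
    linarith
  have h2 : c0 * w / 2 ≤ (hi : ℝ) - lo := by linarith
  have hwin : qb - qa ≤ r * (hi - lo) := by
    have h3 : c1 * w ≤ r * (c0 * w / 2) := by
      rw [div_le_iff₀ hc0] at hr1
      nlinarith
    have h4 : (r : ℝ) * (c0 * w / 2) ≤ r * ((hi : ℝ) - lo) := mul_le_mul_of_nonneg_left h2 (by linarith)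
    have h5 : ((qb - qa : ℤ) : ℝ) ≤ ((r * (hi - lo) : ℤ) : ℝ) := by
      push_cast
      linarith
    exact_mod_cast h5
  have hxE : ep F d m x ≤ C * E := hep x hx1 hx2
  refine ⟨?_, ?_, fun k => ?_⟩
  · have h3 := place_ep hm hr hep hwin hqa hqb hxE
    refine h3.trans ?_
    have h4 : 0 ≤ c1 * E := mul_nonneg hc1 hE.le
    have h5 : 0 ≤ (r : ℝ) * (C * E) := by positivity
    nlinarith
  · have h3 := abs_le.1 (hlat x hx1 hx2)
    have h4 := abs_le.1 (hlat lo le_rfl (hx1.trans hx2))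
    have h5 : (qb : ℝ) - x ≤ c1 * w := by
      have : (qa : ℝ) ≤ x := by exact_mod_cast hqa
      linarith
    have h6 : (0 : ℝ) ≤ (qb : ℝ) - x := by
      have : (x : ℝ) ≤ qb := by exact_mod_cast hqb
      linarith
    have e1 : ((qb + r * lo : ℤ) : ℝ) - d.v * (m + r * m : ℕ) =
        ((qb : ℝ) - x) + (x - d.v * m) + r * (lo - d.v * m) := by
      push_cast
      ring
    have h7 : (r : ℝ) * (lo - d.v * m) ≤ r * (C * w) := mul_le_mul_of_nonneg_left h4.2 (by linarith)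
    have h8 : (r : ℝ) * (-(C * w)) ≤ r * (lo - d.v * m) := mul_le_mul_of_nonneg_left h4.1 (by linarith)
    have h9 : 0 ≤ (r : ℝ) * (C * w) := by positivity
    have h10 : 0 ≤ c1 * w := mul_nonneg hc1 hw0.le
    have e2 : (c1 + (1 + 2 * r) * C) * w = c1 * w + C * w + 2 * (r * (C * w)) := by ring
    rw [e1, e2, abs_le]
    constructor <;> linarith [h3.1, h3.2]
  · refine place (B := C * E) hm hr (by positivity) hep hwin ?_
    have h3 : 0 ≤ c1 * E := mul_nonneg hc1 hE.le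
    have h4 : 0 < C * E := by positivity
    nlinarith

/-- **(B3), window at the time `l ≤ m`** (`l + j = m`; `f`: a cheap displacement of the duration `j`). -/
theorem place_fill {m r l j : ℕ} (hl : 1 ≤ l) (hlj : l + j = m) {lo hi x f qa qb : ℤ} {w E C c0 c1 : ℝ} (hE : 0 < E)
    (hc0 : 0 < c0) (hC : 0 < C) (hc1 : 0 ≤ c1) (hw : 2 / c0 ≤ w) (hlen : c0 * w - 1 ≤ (hi : ℝ) - lo) (hlh : lo ≤ hi)
    (hep : ∀ y, lo ≤ y → y ≤ hi → ep F d m y ≤ C * E) (hlat : ∀ y, lo ≤ y → y ≤ hi → |(y : ℝ) - d.v * m| ≤ C * w)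
    (hf0 : j = 0 → f = 0) (hf : ep F d j f ≤ C * E) (hfl : |(f : ℝ) - d.v * j| ≤ C * w)
    (hx : ep F d l x ≤ C * E) (hxl : |(x : ℝ) - d.v * l| ≤ C * w)
    (hqa : qa ≤ x) (hqb : x ≤ qb) (hq : (qb : ℝ) - qa ≤ c1 * w) (hr : 1 ≤ r) (hr1 : 2 * c1 / c0 ≤ r) :
    ep F d ((1 + r) * m) (qb + (f + r * lo)) ≤ (c1 + (3 + 2 * r) * C) * E ∧
    |((qb + (f + r * lo) : ℤ) : ℝ) - d.v * ((1 + r) * m : ℕ)| ≤ (c1 + (3 + 2 * r) * C) * w ∧
    ∀ k : ℝ, (1 / 2) * (law F).real {η | ∃ q, qa ≤ q ∧ q ≤ qb ∧ (k + (c1 + (3 + 2 * r) * C)) * E ≤ -X F d η 0 l q} ≤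
      (law F).real {η | k * E ≤ -X F d η 0 ((1 + r) * m) (qb + (f + r * lo))} := by
  have hm : 1 ≤ m := by omega
  have hr0 : (1 : ℝ) ≤ r := by exact_mod_cast hr
  have hw0 : 0 < w := lt_of_lt_of_le (by positivity) hw
  have h1 : 2 ≤ c0 * w := by
    rw [div_le_iff₀ hc0] at hw
    linarith
  have h2 : c0 * w / 2 ≤ (hi : ℝ) - lo := by linarith
  have hwin : qb - qa ≤ (f + r * hi) - (f + r * lo) := by
    have h3 : c1 * w ≤ r * (c0 * w / 2) := by
      rw [div_le_iff₀ hc0] at hr1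
      nlinarith
    have h4 : (r : ℝ) * (c0 * w / 2) ≤ r * ((hi : ℝ) - lo) := mul_le_mul_of_nonneg_left h2 (by linarith)
    have h5 : ((qb - qa : ℤ) : ℝ) ≤ (((f + r * hi) - (f + r * lo) : ℤ) : ℝ) := by
      push_cast
      linarith
    exact_mod_cast h5
  have hN : 1 ≤ j + r * m := le_trans (Nat.mul_pos hr hm) (Nat.le_add_left _ _)
  have hMe : l + (j + r * m) = (1 + r) * m := by rw [← hlj]; ring
  have hfill := ep_fill (F := F) (d := d) (j := j) (m := m) (r := r) hm hf0 hf hep hr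
  have hCE : 0 < C * E := by positivity
  have hc1E : 0 ≤ c1 * E := mul_nonneg hc1 hE.le
  have hrCE : 0 ≤ (r : ℝ) * (C * E) := by positivity
  refine ⟨?_, ?_, fun k => ?_⟩
  · have h3 := ep_sub F d hl hN x (qb + (f + r * lo) - x)
    rw [show x + (qb + (f + r * lo) - x) = qb + (f + r * lo) by ring, hMe] at h3
    have h4 := hfill (qb + (f + r * lo) - x) (by omega) (by omega)
    have e1 : (c1 + (3 + 2 * (r : ℝ)) * C) * E = c1 * E + 3 * (C * E) + 2 * (r * (C * E)) := by ring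
    rw [e1]
    linarith
  · have h3 := abs_le.1 hxl
    have h4 := abs_le.1 (hlat lo le_rfl hlh)
    have h5 : (qb : ℝ) - x ≤ c1 * w := by
      have : (qa : ℝ) ≤ x := by exact_mod_cast hqa
      linarith
    have h6 : (0 : ℝ) ≤ (qb : ℝ) - x := by
      have : (x : ℝ) ≤ qb := by exact_mod_cast hqb
      linarith
    have h7 := abs_le.1 hfl
    have hme : (m : ℝ) = l + j := by exact_mod_cast hlj.symm
    have e1 : ((qb + (f + r * lo) : ℤ) : ℝ) - d.v * ((1 + r) * m : ℕ) =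
        ((qb : ℝ) - x) + (x - d.v * l) + (f - d.v * j) + r * (lo - d.v * m) := by
      push_cast
      linear_combination (-d.v) * hme
    have h8 : (r : ℝ) * (lo - d.v * m) ≤ r * (C * w) := mul_le_mul_of_nonneg_left h4.2 (by linarith)
    have h9 : (r : ℝ) * (-(C * w)) ≤ r * (lo - d.v * m) := mul_le_mul_of_nonneg_left h4.1 (by linarith)
    have h10 : 0 ≤ (r : ℝ) * (C * w) := by positivity
    have h11 : 0 ≤ c1 * w := mul_nonneg hc1 hw0.le
    have h12 : 0 ≤ C * w := by positivity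
    have e2 : (c1 + (3 + 2 * r) * C) * w = c1 * w + 3 * (C * w) + 2 * (r * (C * w)) := by ring
    rw [e1, e2, abs_le]
    constructor <;> linarith [h3.1, h3.2, h7.1, h7.2]
  · have h3 := place0 (F := F) (d := d) (l := l) hN hl (lo := f + r * lo) (hi := f + r * hi) (qa := qa) (qb := qb)
      (B := C * E + r * (C * E)) (by positivity) hfill hwin (k := k * E) (k' := (k + (c1 + (3 + 2 * r) * C)) * E) (by
        have e1 : (k + (c1 + (3 + 2 * (r : ℝ)) * C)) * E = k * E + c1 * E + 3 * (C * E) + 2 * (r * (C * E)) := by ring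
        rw [e1]
        linarith)
    rw [hMe] at h3
    exact h3

end

end Pool.Agent.W_1b8d5d_p
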