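import Pool.Agent.W_1b8d5d_p.TubeB71
import Pool.Agent.W_1b8d5d_p.CoreP3
import Pool.Agent.W_1b8d5d_h48.StepT

/-!
MP_1b8d5d_pr, Track P (proofs row 636, section 5, step (B4)): the core event of the tube, in the form `CoreEv` of the blocks.
-/

namespace Pool.Agent.W_1b8d5d_p

open MeasureTheory Set
open Pool.Agent.W_1b8d5d_h85
open Pool.Agent.W_1b8d5d_h48 (CoreEv)

noncomputable section

variable {F : Fm} {κ : ℝ} {d : Dr}

/-- The edges of the slab of the block times `[0, M]` which start in the tube of half width `ρ`. -/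
def Dc (F : Fm) (d : Dr) (M : ℕ) (ρ : ℝ) : Finset Edge := by
  classical exact (Dt F d M ρ).filter fun e => e ∈ F.co.slab 0 M ∧ |latV F d e.1| ≤ ρ

theorem mem_Dc {M : ℕ} {ρ : ℝ} {e : Edge} (h1 : e ∈ F.co.slab 0 M) (h2 : |latV F d e.1| ≤ ρ) : e ∈ Dc F d M ρ := by
  classical
  unfold Dc
  rw [Finset.mem_filter]
  exact ⟨mem_Dt (by have := h1.1; simpa using this) h1.2.2.1.le h2, h1, h2⟩

theorem of_mem_Dc {M : ℕ} {ρ : ℝ} {e : Edge} (h : e ∈ Dc F d M ρ) : e ∈ F.co.slab 0 M ∧ |latV F d e.1| ≤ ρ := by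
  classical
  unfold Dc at h
  rw [Finset.mem_filter] at h
  exact h.2

/-- The core event: a walk with edges in the tube is lucky by `Y`. -/
def Ec (F : Fm) (d : Dr) (M : ℕ) (k : ℤ) (Y ρ : ℝ) : Set Env :=
  {η | ∃ w : grid.Walk (F.co.vt 0) (F.co.vt ((M : ℤ), k)), (∀ e ∈ wedges w, e ∈ Dc F d M ρ) ∧ exc F d η w ≤ -Y}

theorem Ec_meas (M : ℕ) (k : ℤ) (Y ρ : ℝ) : MeasurableSet (Ec F d M k Y ρ) := by
  have h1 : Ec F d M k Y ρ = ⋃ w : grid.Walk (F.co.vt 0) (F.co.vt ((M : ℤ), k)),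
      ({η : Env | ∀ e ∈ wedges w, e ∈ Dc F d M ρ} ∩ {η : Env | exc F d η w ≤ -Y}) := by
    ext η
    simp only [Ec, mem_ofPred_eq, mem_iUnion, mem_inter_iff]
  rw [h1]
  have : Countable (grid.Walk (F.co.vt 0) (F.co.vt ((M : ℤ), k))) :=
    Function.Injective.countable (f := fun w : grid.Walk (F.co.vt 0) (F.co.vt ((M : ℤ), k)) => w.support)
      fun _ _ h => SimpleGraph.Walk.ext_support h
  exact MeasurableSet.iUnion fun w => (MeasurableSet.const _).inter
    (measurableSet_le (((cost_meas w).comp (tau_meas F)).sub_const _) measurable_const)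

/-- **(B4), the event.** -/
theorem Ec_core (hg : Antitone F.g) {M : ℕ} {k : ℤ} {Y ρ : ℝ} :
    CoreEv F d (d.v / F.co.L) ρ Y M k (Ec F d M k Y ρ) (Dc F d M ρ) where
  meas := Ec_meas M k Y ρ
  up := by
    rintro η η' h ⟨w, hw1, hw2⟩
    refine ⟨w, hw1, le_trans ?_ hw2⟩
    unfold exc
    have := cost_mono w (τ := F.tau η') (τ' := F.tau η) fun e _ => hg (h e)
    linarith
  dep := by
    intro η η' h
    have key : ∀ η η' : Env, (∀ e ∈ Dc F d M ρ, η e = η' e) → η ∈ Ec F d M k Y ρ → η' ∈ Ec F d M k Y ρ := by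
      rintro η η' h ⟨w, hw1, hw2⟩
      refine ⟨w, hw1, ?_⟩
      unfold exc at hw2 ⊢
      rw [cost_congr w (τ := F.tau η') (τ' := F.tau η) fun e he => by
        show F.g (η' e) = F.g (η e)
        rw [h e (hw1 e he)]]
      exact hw2
    exact ⟨key η η' h, key η' η fun e he => (h e he).symm⟩
  rows := fun e he => Co.slab_subset_rows 0 M (of_mem_Dc he).1
  lat := by
    intro e he
    have h1 := (of_mem_Dc he).2
    unfold latV at h1
    rwa [show d.v * ((F.co.tm e.1 : ℝ) / F.co.L) = d.v / F.co.L * F.co.tm e.1 by ring] at h1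
  luck := by
    rintro η ⟨w, hw1, hw2⟩
    have h0 : TR (F.co.slab 0 M) (F.tau η) (F.co.vt 0) (F.co.vt ((M : ℤ), k)) ≤ cost (F.tau η) w :=
      TR_le (bd_tau F η) F.a0.le w fun e he => (of_mem_Dc (hw1 e he)).1
    have h1 : TT F.co (F.tau η) 0 M k ≤ cost (F.tau η) w := by
      unfold TT
      simpa only [Prod.fst_zero, zero_add] using h0
    have e1 : exc F d η w = cost (F.tau η) w - d.H (F.co.vt ((M : ℤ), k)) := by
      unfold exc
      rw [show F.co.vt ((M : ℤ), k) - F.co.vt 0 = F.co.vt ((M : ℤ), k) by rw [Co.vt_zero, sub_zero]]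
    rw [e1] at hw2
    rw [X_eq]
    linarith

/-- **(B4), the probability.** -/
theorem Ec_prob {M : ℕ} (hM : 1 ≤ M) {k : ℤ} {Y ρ x0 : ℝ} {B : Set Env} (hY : -Y ≤ x0)
    (htube : ∀ η, η ∉ B → ∀ g : grid.Walk (F.co.vt 0) (F.co.vt ((M : ℤ), k)), (∀ e ∈ wedges g, e ∈ F.co.slab 0 M) →
      exc F d η g ≤ x0 → ∀ v ∈ g.support, |latV F d v| ≤ ρ) :
    (law F).real {η | Y ≤ -X F d η 0 M k} ≤ (law F).real (Ec F d M k Y ρ) + (law F).real B := by
  refine le_trans (measureReal_mono (s₂ := Ec F d M k Y ρ ∪ B) fun η hη => ?_) (measureReal_union_le _ _)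
  by_cases hB : η ∈ B
  · exact Or.inr hB
  · left
    have hη' : Y ≤ -X F d η 0 M k := hη
    have hne : Nonempty (WK (F.co.slab 0 M) (F.co.vt 0) (F.co.vt ((M : ℤ), k))) := by
      have h := Co.ne_vt (c := F.co) 0 hM k
      simpa using h
    obtain ⟨g, -, hg1, hg2⟩ := TR_min (bd_tau F η) F.a0 hne
    have hTX : TR (F.co.slab 0 M) (F.tau η) (F.co.vt 0) (F.co.vt ((M : ℤ), k)) = TT F.co (F.tau η) 0 M k := by
      unfold TT
      simp only [Prod.fst_zero, zero_add]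
    rw [hTX] at hg2
    have h1 : exc F d η g ≤ -Y := by
      rw [exc_min F d η hg2]
      linarith
    exact ⟨g, fun e he => mem_Dc (hg1 e he) (htube η hB g hg1 (h1.trans hY) _ (wedges_support g he).1), h1⟩

/-- The half width of the tube, in units of `w`. -/
def Rc (c C p : ℝ) : ℝ := (3 * max 0 (Real.log (20 * C / p) / c) + 2) / c

/-- **(B4) at one scale.** -/
theorem core_scale {k1 K1 : ℝ} (hd : Adm F κ d) (hk : Lat F κ k1 K1 d) (hg : Antitone F.g) {E w c C : ℝ} (hE : 0 < E)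
    (hw : 0 < w) (hc : 0 < c) (hC : 0 < C) (h1 : c * E / w ≤ k1 / 2) (h2 : 1 ≤ c / E * (k1 / 2 * w)) (hCP : CP F ≤ E)
    {M : ℕ} (hM : 1 ≤ M) (hL : ∀ o : ℝ, ∫ η, Real.exp (c / E * TL F d (c * E / w) o w M η) ∂(law F) ≤ C) {K p : ℝ}
    (hK : 0 ≤ K) (hp : 0 < p) {k : ℤ} (hprob : p ≤ (law F).real {η | K * E ≤ -X F d η 0 M k}) :
    CoreEv F d (d.v / F.co.L) (Rc c C p * w) (K * E) M k (Ec F d M k (K * E) (Rc c C p * w)) (Dc F d M (Rc c C p * w)) ∧
      p / 2 ≤ (law F).real (Ec F d M k (K * E) (Rc c C p * w)) := by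
  refine ⟨Ec_core hg, ?_⟩
  obtain ⟨K', hK'⟩ : ∃ K', K' = max 0 (Real.log (20 * C / p) / c) := ⟨_, rfl⟩
  have hR : Rc c C p = (3 * K' + 2) / c := by rw [hK']; rfl
  have hK0 : 0 ≤ K' := by rw [hK']; exact le_max_left _ _
  obtain ⟨B, hB, hP, h⟩ := tube_scale hd hk hE hw hc h1 h2 hCP hL K' k
  have h3 : 10 * C * Real.exp (-(c * K')) ≤ p / 2 := by
    have h4 : Real.log (20 * C / p) / c ≤ K' := by rw [hK']; exact le_max_right _ _
    rw [div_le_iff₀ hc] at h4
    have h5 : 20 * C / p ≤ Real.exp (c * K') := by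
      rw [← Real.exp_log (show 0 < 20 * C / p by positivity)]
      exact Real.exp_le_exp.2 (by linarith)
    rw [div_le_iff₀ hp] at h5
    rw [Real.exp_neg]
    have h6 := Real.exp_pos (c * K')
    rw [← div_eq_mul_inv, div_le_iff₀ h6]
    linarith
  have h4 := Ec_prob (F := F) (d := d) hM (k := k) (Y := K * E) (ρ := Rc c C p * w) (x0 := K' * E) (B := B)
    (by nlinarith) (fun η hη g hg1 hg2 v hv => by
      rw [hR]
      exact h η hη g hg1 hg2 v hv)
  linarith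

end

end Pool.Agent.W_1b8d5d_p
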