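import Pool.Agent.W_1b8d5d_p.FrSlab
import Pool.Agent.W_1b8d5d_sc.FWalk

/-!
Track P (MP_1b8d5d_pr), section A (D7): the cut of a minimal slab walk at the window of a junction. (helper66)
-/

namespace Pool.Agent.W_1b8d5d_p66

open MeasureTheory Set Pool.Agent.W_1b8d5d_h85 Pool.Agent.W_1b8d5d_p
open Pool.Agent.W_1b8d5d_sc (split_first split_last)

variable {c : Co} {a b : ℝ} {τ : Env}

/-- The length of a connector. -/
noncomputable def K0 (c : Co) : ℝ := c.R * c.M + 4

theorem K0_pos : 5 ≤ K0 c := by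
  have h1 : (1 : ℝ) ≤ c.R := by exact_mod_cast c.R_pos
  have h2 : (1 : ℝ) ≤ c.M := by exact_mod_cast c.M_pos
  unfold K0
  nlinarith

/-- The grid point next to a vertex. -/
theorem nm_near {z : V} {n : ℤ} (h : |c.tm z - c.L * n| ≤ c.M) : nm (c.vt (n, c.ps z) - z) + 4 ≤ K0 c := by
  have h1 := c.nm_le (c.vt (n, c.ps z) - z)
  have h2 : c.ps (c.vt (n, c.ps z) - z) = 0 := by rw [Co.ps_sub, Co.ps_vt]; simp
  have h3 : c.tm (c.vt (n, c.ps z) - z) = c.L * n - c.tm z := by rw [Co.tm_sub, Co.tm_vt]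
  rw [h2, h3] at h1
  have h4 : |((c.L * n - c.tm z : ℤ) : ℝ)| ≤ c.M := by
    rw [abs_sub_comm] at h
    exact_mod_cast h
  have h5 : (1 : ℝ) ≤ c.R := by exact_mod_cast c.R_pos
  have h6 : (c.R : ℝ) * |((c.L * n - c.tm z : ℤ) : ℝ)| ≤ c.R * c.M := mul_le_mul_of_nonneg_left h4 (by linarith)
  simp only [Int.cast_zero, abs_zero, mul_zero, add_zero] at h1
  unfold K0
  linarith

/-- The times of adjacent vertices. -/
theorem tm_adj {x y : V} (h : grid.Adj x y) : |c.tm y - c.tm x| ≤ c.M := by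
  obtain ⟨s, hs | hs⟩ := h
  · have h1 := c.tm_dir_nonneg s
    have h2 := c.tm_dir_le s
    rw [hs, Co.tm_add, add_sub_cancel_left, abs_of_nonneg h1]
    exact h2
  · have h1 := c.tm_dir_nonneg s
    have h2 := c.tm_dir_le s
    rw [hs, Co.tm_add, show c.tm y - (c.tm y + c.tm (dir s)) = -c.tm (dir s) by ring, abs_neg, abs_of_nonneg h1]
    exact h2

/-- A slab walk whose vertices are before `t'` and after `s'`. -/
theorem slab_walk {s t s' t' : ℤ} {x y : V} {w : grid.Walk x y} (he : ∀ e ∈ wedges w, e ∈ c.slab s t)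
    (h1 : s' = s ∨ ∀ z ∈ w.support, c.L * s' < c.tm z) (h2 : t' = t ∨ ∀ z ∈ w.support, c.tm z < c.L * t') :
    ∀ e ∈ wedges w, e ∈ c.slab s' t' := by
  intro e hm
  obtain ⟨a1, a2⟩ := wedges_support w hm
  obtain ⟨f1, f2, f3, f4⟩ := he e hm
  refine ⟨?_, ?_, ?_, ?_⟩
  · rcases h1 with rfl | h1
    · exact f1
    · exact (h1 _ a1).le
  · rcases h2 with rfl | h2
    · exact f2
    · exact (h2 _ a2).le
  · rcases h2 with rfl | h2
    · exact f3
    · exact h2 _ a1
  · rcases h1 with rfl | h1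
    · exact f4
    · exact h1 _ a2

/-- Slab walk and connector: the passage time to a grid point near the end of a walk. -/
theorem TR_le_conn (hτ : Bd a b τ) (ha : 0 ≤ a) {S : Set Edge} {x y z : V} (w : grid.Walk x y) (hw : ∀ e ∈ wedges w, e ∈ S)
    (v : grid.Walk y z) (hv : ∀ e ∈ wedges v, e ∈ S) : TR S τ x z ≤ cost τ w + b * v.length := by
  have h1 := TR_le hτ ha (w.append v) (fun e he => by
    rw [wedges_append, List.mem_append] at he
    exact he.elim (hw e) (hv e))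
  rw [cost_append] at h1
  have h2 := cost_le hτ v
  linarith

theorem cost_cons {x y z : V} (h : grid.Adj x y) (w : grid.Walk y z) :
    cost τ (SimpleGraph.Walk.cons h w) = τ (ke s(x, y)) + cost τ w := by
  unfold cost wedges
  rw [SimpleGraph.Walk.edges_cons, List.map_cons, List.map_cons, List.sum_cons]

theorem mem_cons {x y z : V} (h : grid.Adj x y) (w : grid.Walk y z) {e : Edge} :
    e ∈ wedges (SimpleGraph.Walk.cons h w) ↔ e = ke s(x, y) ∨ e ∈ wedges w := by
  unfold wedges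
  rw [SimpleGraph.Walk.edges_cons, List.map_cons, List.mem_cons]

/-- The distance of the ends of a walk. -/
theorem nm_le_cost (hτ : Bd a b τ) (ha : 0 ≤ a) {x y : V} (w : grid.Walk x y) : a * nm (y - x) ≤ cost τ w :=
  (mul_le_mul_of_nonneg_left (nm_le_length w) ha).trans (le_cost hτ w)

/-- A lateral displacement. -/
theorem nm_lat' (n k k' : ℤ) : nm (c.vt (n, k') - c.vt (n, k)) = c.M * |(k' : ℝ) - k| := by
  rw [← Co.vt_sub]
  have h : ((n, k') : Pt) - (n, k) = (0, k' - k) := by ext <;> simp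
  rw [h, Co.nm_lat]
  push_cast
  rfl

/-- The constant of the cut. -/
noncomputable def KC (c : Co) (b : ℝ) : ℝ := 10 * b * K0 c

/-- THE CUT AT A JUNCTION. The minimal slab walk from `A` to `A + (n₁ + R + n₂, y)`, the window of the block times
`[A.1 + n₁, A.1 + n₁ + R]`. -/
theorem cut3 (ha : 0 < a) (hab : a ≤ b) (hτ : Bd a b τ) (A : Pt) {n₁ R n₂ : ℕ} (h1 : 1 ≤ n₁) (hR : 1 ≤ R) (h2 : 1 ≤ n₂)
    (y : ℤ) : ∃ (k u v k' : ℤ) (X₁ X₃ : ℝ),
      (TT c τ A n₁ (k - A.2) + a * (c.M * |(u : ℝ) - k|) + a * (c.M * |(k' : ℝ) - u|) +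
        TT c τ (A.1 + n₁, k') (R + n₂) (A.2 + y - k') ≤ TT c τ A (n₁ + R + n₂) y + KC c b) ∧
      (X₁ + TT c τ (A.1 + n₁, u) R (v - u) + X₃ ≤ TT c τ A (n₁ + R + n₂) y + KC c b) ∧
      (∀ z : ℤ, TT c τ A (n₁ + R) (z - A.2) ≤ X₁ + TT c τ (A.1 + n₁, u) R (z - u) + KC c b) ∧
      ((∀ z : ℤ, TT c τ (A.1 + n₁, z) (R + n₂) (A.2 + y - z) ≤ TT c τ (A.1 + n₁, z) R (v - z) + X₃ + KC c b) ∨
        ∀ z : ℤ, a * (c.M * |(k' : ℝ) - z|) + TT c τ (A.1 + n₁, k') (R + n₂) (A.2 + y - k') ≤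
            TT c τ (A.1 + n₁, z) R (v - z) + X₃ + KC c b ∧
          a * (2 * R) + TT c τ (A.1 + n₁, k') (R + n₂) (A.2 + y - k') ≤
            TT c τ (A.1 + n₁, z) R (v - z) + X₃ + KC c b) ∧
      (∀ j ∈ ({k, u, k'} : Set ℤ), a * |(j : ℝ) - A.2| ≤ c.R * (TT c τ A (n₁ + R + n₂) y + KC c b)) := by
  have hb : 0 < b := ha.trans_le hab
  have hL := c.L_eq
  have hM := c.M_pos
  have hLp := c.L_pos
  have hK := K0_pos (c := c)
  have hbK : 0 < b * K0 c := by nlinarith
  obtain ⟨C, hC⟩ : ∃ C : ℝ, C = b * K0 c := ⟨_, rfl⟩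
  have hKC : KC c b = 10 * C := by unfold KC; rw [hC]; ring
  have hC0 : 0 < C := by rw [hC]; exact hbK
  have hbC : b ≤ C := by rw [hC]; nlinarith
  rw [hKC]
  -- the times
  obtain ⟨s, hs⟩ : ∃ s : ℤ, s = A.1 := ⟨_, rfl⟩
  obtain ⟨t₁, ht₁⟩ : ∃ t₁ : ℤ, t₁ = A.1 + n₁ := ⟨_, rfl⟩
  obtain ⟨t₂, ht₂⟩ : ∃ t₂ : ℤ, t₂ = A.1 + n₁ + R := ⟨_, rfl⟩
  obtain ⟨t₃, ht₃⟩ : ∃ t₃ : ℤ, t₃ = A.1 + n₁ + R + n₂ := ⟨_, rfl⟩
  have g1 : c.L * s + c.L ≤ c.L * t₁ := by
    have : c.L * (s + 1) ≤ c.L * t₁ := mul_le_mul_of_nonneg_left (by omega) (by omega)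
    linarith [mul_add c.L s 1]
  have g2 : c.L * t₁ + c.L ≤ c.L * t₂ := by
    have : c.L * (t₁ + 1) ≤ c.L * t₂ := mul_le_mul_of_nonneg_left (by omega) (by omega)
    linarith [mul_add c.L t₁ 1]
  have g3 : c.L * t₂ + c.L ≤ c.L * t₃ := by
    have : c.L * (t₂ + 1) ≤ c.L * t₃ := mul_le_mul_of_nonneg_left (by omega) (by omega)
    linarith [mul_add c.L t₂ 1]
  have hR2 : c.L * t₂ = c.L * t₁ + c.L * R := by
    rw [ht₂, ht₁]
    ring
  -- the passage times
  have eT : ∀ z : ℤ, TT c τ A (n₁ + R) (z - A.2) = TR (c.slab s t₂) τ (c.vt A) (c.vt (t₂, z)) := by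
    intro z
    unfold TT
    have e1 : A.1 + ((n₁ + R : ℕ) : ℤ) = t₂ := by push_cast; omega
    have e2 : A + (((n₁ + R : ℕ) : ℤ), z - A.2) = (t₂, z) := by
      ext <;> simp only [Prod.fst_add, Prod.snd_add] <;> push_cast <;> omega
    rw [e1, e2, hs]
  have eT1 : ∀ z : ℤ, TT c τ A n₁ (z - A.2) = TR (c.slab s t₁) τ (c.vt A) (c.vt (t₁, z)) := by
    intro z
    unfold TT
    have e2 : A + ((n₁ : ℤ), z - A.2) = (t₁, z) := by
      ext <;> simp only [Prod.fst_add, Prod.snd_add] <;> omega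
    rw [e2, hs, ht₁]
  have eR : ∀ z z' : ℤ, TT c τ (A.1 + n₁, z) R (z' - z) = TR (c.slab t₁ t₂) τ (c.vt (t₁, z)) (c.vt (t₂, z')) := by
    intro z z'
    unfold TT
    have e2 : ((A.1 + (n₁ : ℤ), z) : Pt) + ((R : ℤ), z' - z) = (t₂, z') := by
      ext <;> simp only [Prod.fst_add, Prod.snd_add] <;> omega
    rw [e2, ht₁, ht₂]
  have eD : ∀ z : ℤ, TT c τ (A.1 + n₁, z) (R + n₂) (A.2 + y - z) =
      TR (c.slab t₁ t₃) τ (c.vt (t₁, z)) (c.vt (t₃, A.2 + y)) := by
    intro z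
    unfold TT
    have e1 : A.1 + (n₁ : ℤ) + ((R + n₂ : ℕ) : ℤ) = t₃ := by push_cast; omega
    have e2 : ((A.1 + (n₁ : ℤ), z) : Pt) + (((R + n₂ : ℕ) : ℤ), A.2 + y - z) = (t₃, A.2 + y) := by
      ext <;> simp only [Prod.fst_add, Prod.snd_add] <;> push_cast <;> omega
    rw [e2]
    simp only
    rw [e1, ht₁]
  have eA : TT c τ A (n₁ + R + n₂) y = TR (c.slab s t₃) τ (c.vt A) (c.vt (t₃, A.2 + y)) := by
    unfold TT
    have e1 : A.1 + ((n₁ + R + n₂ : ℕ) : ℤ) = t₃ := by push_cast; omega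
    have e2 : A + (((n₁ + R + n₂ : ℕ) : ℤ), y) = (t₃, A.2 + y) := by
      ext <;> simp only [Prod.fst_add, Prod.snd_add] <;> push_cast <;> omega
    rw [e1, e2, hs]
  simp only [eT, eT1, eR, eD, eA]
  have tA : c.tm (c.vt A) = c.L * s := by rw [Co.tm_vt, hs]
  have tY : c.tm (c.vt (t₃, A.2 + y)) = c.L * t₃ := Co.tm_vt _ _
  -- the minimal walk
  obtain ⟨w, -, hwS, hwc⟩ := TR_min (S := c.slab s t₃) (x := c.vt A) (y := c.vt (t₃, A.2 + y)) hτ ha
    (Co.slab_ne (by omega) ⟨by omega, by omega⟩ ⟨by omega, by omega⟩)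
  have hwt : ∀ z ∈ w.support, c.L * s ≤ c.tm z ∧ c.tm z ≤ c.L * t₃ := Co.tm_of_slab hwS ⟨by omega, by omega⟩
  rw [← hwc]
  -- the first vertex of time at least `L t₂`
  obtain ⟨x', v₀, w₁, hadj, w₂, hw, hw₁, hv₀⟩ := split_first (fun z => c.L * t₂ ≤ c.tm z) w
    (by rw [tA]; omega) ⟨_, w.end_mem_support, by rw [tY]; omega⟩
  have hwc' : cost τ w = cost τ w₁ + (τ (ke s(x', v₀)) + cost τ w₂) := by rw [hw, cost_append, cost_cons]
  have hw₁S : ∀ e ∈ wedges w₁, e ∈ c.slab s t₃ := fun e he => hwS e (by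
    rw [hw, wedges_append, List.mem_append]
    exact Or.inl he)
  have heS : ke s(x', v₀) ∈ c.slab s t₃ := hwS _ (by
    rw [hw, wedges_append, List.mem_append, mem_cons]
    exact Or.inr (Or.inl rfl))
  have hw₂S : ∀ e ∈ wedges w₂, e ∈ c.slab s t₃ := fun e he => hwS e (by
    rw [hw, wedges_append, List.mem_append, mem_cons]
    exact Or.inr (Or.inr he))
  have hw₁lt : ∀ z ∈ w₁.support, c.tm z < c.L * t₂ := fun z hz => not_le.1 (hw₁ z hz)
  have hw₁ge : ∀ z ∈ w₁.support, c.L * s ≤ c.tm z := fun z hz => (hwt z (by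
    rw [hw, SimpleGraph.Walk.mem_support_append_iff]
    exact Or.inl hz)).1
  have hw₂t : ∀ z ∈ w₂.support, c.L * s ≤ c.tm z ∧ c.tm z ≤ c.L * t₃ := fun z hz => hwt z (by
    rw [hw, SimpleGraph.Walk.mem_support_append_iff, SimpleGraph.Walk.support_cons, List.mem_cons]
    exact Or.inr (Or.inr hz))
  have had := tm_adj (c := c) hadj
  rw [abs_le] at had
  have hx'lt := hw₁lt x' w₁.end_mem_support
  have hx'1 : c.L * t₁ < c.tm x' := by omega
  -- the last vertex of time at most `L t₁` before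
  obtain ⟨u', u₀, w₁₁, hadu, w₁₂, hwu, hw₁₂, hu'⟩ := split_last (fun z => c.L * t₁ < c.tm z) w₁
    ⟨_, w₁.start_mem_support, by rw [tA]; omega⟩ hx'1
  rw [not_lt] at hu'
  have hadu' := tm_adj (c := c) hadu
  rw [abs_le] at hadu'
  have hu₀ := hw₁₂ u₀ w₁₂.start_mem_support
  have hc₁ : cost τ w₁ = cost τ w₁₁ + (τ (ke s(u', u₀)) + cost τ w₁₂) := by rw [hwu, cost_append, cost_cons]
  have hw₁₁S : ∀ e ∈ wedges w₁₁, e ∈ c.slab s t₃ := fun e he => hw₁S e (by
    rw [hwu, wedges_append, List.mem_append]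
    exact Or.inl he)
  have heuS : ke s(u', u₀) ∈ c.slab s t₃ := hw₁S _ (by
    rw [hwu, wedges_append, List.mem_append, mem_cons]
    exact Or.inr (Or.inl rfl))
  have hw₁₂S : ∀ e ∈ wedges w₁₂, e ∈ c.slab s t₃ := fun e he => hw₁S e (by
    rw [hwu, wedges_append, List.mem_append, mem_cons]
    exact Or.inr (Or.inr he))
  have hw₁₁sup : ∀ z ∈ w₁₁.support, z ∈ w₁.support := fun z hz => by
    rw [hwu, SimpleGraph.Walk.mem_support_append_iff]
    exact Or.inl hz
  have hw₁₂sup : ∀ z ∈ w₁₂.support, z ∈ w₁.support := fun z hz => by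
    rw [hwu, SimpleGraph.Walk.mem_support_append_iff, SimpleGraph.Walk.support_cons, List.mem_cons]
    exact Or.inr (Or.inr hz)
  -- the first part, up to `u₀`
  obtain ⟨wu, hwu'⟩ : ∃ wu : grid.Walk (c.vt A) u₀, wu = w₁₁.append (.cons hadu .nil) := ⟨_, rfl⟩
  have hcu : cost τ wu = cost τ w₁₁ + τ (ke s(u', u₀)) := by
    rw [hwu', cost_append, cost_cons]
    simp [cost, wedges]
  have hwuS : ∀ e ∈ wedges wu, e ∈ c.slab s t₃ := by
    intro e he
    rw [hwu', wedges_append, List.mem_append, mem_cons] at he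
    rcases he with he | he | he
    · exact hw₁₁S e he
    · rw [he]; exact heuS
    · simp [wedges] at he
  have hwulook : ∀ z ∈ wu.support, z ∈ w₁.support := by
    intro z hz
    rw [hwu', SimpleGraph.Walk.mem_support_append_iff, SimpleGraph.Walk.support_cons, List.mem_cons,
      SimpleGraph.Walk.support_nil, List.mem_singleton] at hz
    rcases hz with hz | rfl | rfl
    · exact hw₁₁sup z hz
    · exact hw₁₁sup _ w₁₁.end_mem_support
    · exact hw₁₂sup _ w₁₂.start_mem_support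
  -- the first visit of the time `L t₁`
  obtain ⟨x'', c₀, w₅, hadc, w₆, hwc5, hw₅, hc₀⟩ := split_first (fun z => c.L * t₁ ≤ c.tm z) wu
    (by rw [tA]; omega) ⟨_, wu.end_mem_support, hu₀.le⟩
  have hadc' := tm_adj (c := c) hadc
  rw [abs_le] at hadc'
  have hcc : cost τ wu = cost τ w₅ + (τ (ke s(x'', c₀)) + cost τ w₆) := by rw [hwc5, cost_append, cost_cons]
  have hw₅S : ∀ e ∈ wedges w₅, e ∈ c.slab s t₃ := fun e he => hwuS e (by
    rw [hwc5, wedges_append, List.mem_append]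
    exact Or.inl he)
  have hw₅lt : ∀ z ∈ w₅.support, c.tm z < c.L * t₁ := fun z hz => not_le.1 (hw₅ z hz)
  have hx''lt := hw₅lt x'' w₅.end_mem_support
  have hx''ge : c.L * s ≤ c.tm x'' := hw₁ge _ (hwulook _ (by
    rw [hwc5, SimpleGraph.Walk.mem_support_append_iff]
    exact Or.inl w₅.end_mem_support))
  -- the grid points
  have nearx'' := nm_near (c := c) (z := x'') (n := t₁) (by rw [abs_le]; constructor <;> omega)
  have nearu := nm_near (c := c) (z := u₀) (n := t₁) (by rw [abs_le]; constructor <;> omega)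
  have nearv := nm_near (c := c) (z := x') (n := t₂) (by rw [abs_le]; constructor <;> omega)
  -- the connectors
  obtain ⟨p1, hp1, lp1⟩ := Co.slab_conn (c := c) (s := s) (t := t₁) (by omega) (x := x'') (y := c.vt (t₁, c.ps x''))
    ⟨hx''ge, by omega⟩ ⟨by rw [Co.tm_vt]; simp only; omega, by rw [Co.tm_vt]⟩
  have hu₀t : c.tm u₀ < c.L * t₂ := hw₁lt _ (hw₁₂sup _ w₁₂.start_mem_support)
  obtain ⟨p2, hp2, lp2⟩ := Co.slab_conn (c := c) (s := t₁) (t := t₂) (by omega) (x := c.vt (t₁, c.ps u₀)) (y := u₀)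
    ⟨by rw [Co.tm_vt], by rw [Co.tm_vt]; simp only; omega⟩ ⟨by omega, by omega⟩
  obtain ⟨p3, hp3, lp3⟩ := Co.slab_conn (c := c) (s := t₁) (t := t₂) (by omega) (x := x') (y := c.vt (t₂, c.ps x'))
    ⟨by omega, by omega⟩ ⟨by rw [Co.tm_vt]; simp only; omega, by rw [Co.tm_vt]⟩
  have e0 : ∀ e : Edge, 0 ≤ τ e := fun e => ha.le.trans (hτ e).1
  have sub12 : c.slab t₁ t₂ ⊆ c.slab s t₂ := Co.slab_mono (by omega) le_rfl
  have sub13 : c.slab t₁ t₂ ⊆ c.slab t₁ t₃ := Co.slab_mono le_rfl (by omega)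
  have bp : ∀ {l : ℕ} {r : ℝ}, (l : ℝ) ≤ r + 4 → r + 4 ≤ K0 c → b * l ≤ C := by
    intro l r h h'
    rw [hC]
    exact mul_le_mul_of_nonneg_left (h.trans h') hb.le
  have bp1 : b * p1.length ≤ C := bp lp1 nearx''
  have bp2 : b * p2.length ≤ C := bp lp2 (by rw [nm_sub_comm] at nearu; exact nearu)
  have bp3 : b * p3.length ≤ C := bp lp3 nearv
  have hwuS2 : ∀ e ∈ wedges wu, e ∈ c.slab s t₂ :=
    slab_walk hwuS (Or.inl rfl) (Or.inr fun z hz => hw₁lt z (hwulook z hz))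
  have hw₁₂S2 : ∀ e ∈ wedges w₁₂, e ∈ c.slab t₁ t₂ :=
    slab_walk hw₁₂S (Or.inr fun z hz => hw₁₂ z hz) (Or.inr fun z hz => hw₁lt z (hw₁₂sup z hz))
  -- bounds of the parts
  have b1 : TR (c.slab s t₁) τ (c.vt A) (c.vt (t₁, c.ps x'')) ≤ cost τ w₅ + C := by
    have h := TR_le_conn hτ ha.le w₅ (slab_walk hw₅S (Or.inl rfl) (Or.inr hw₅lt)) p1 hp1
    linarith
  have b2 : TR (c.slab t₁ t₂) τ (c.vt (t₁, c.ps u₀)) (c.vt (t₂, c.ps x')) ≤ cost τ w₁₂ + 2 * C := by
    have h := TR_le hτ ha.le (p2.append (w₁₂.append p3)) (fun e he => by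
      rw [wedges_append, wedges_append, List.mem_append, List.mem_append] at he
      rcases he with he | he | he
      · exact hp2 e he
      · exact hw₁₂S2 e he
      · exact hp3 e he)
    rw [cost_append, cost_append] at h
    have h4 := cost_le hτ p2
    have h5 := cost_le hτ p3
    linarith
  have b3 : ∀ z : ℤ, TR (c.slab s t₂) τ (c.vt A) (c.vt (t₂, z)) ≤
      cost τ wu + TR (c.slab t₁ t₂) τ (c.vt (t₁, c.ps u₀)) (c.vt (t₂, z)) + C := by
    intro z
    have h := TR_triangle (S := c.slab s t₂) (S' := c.slab t₁ t₂) (S'' := c.slab s t₂) (x := c.vt A)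
      (y := c.vt (t₁, c.ps u₀)) (z := c.vt (t₂, z)) hτ ha.le
      ⟨⟨wu.append p2.reverse, fun e he => by
        rw [wedges_append, List.mem_append, wedges_reverse, List.mem_reverse] at he
        exact he.elim (hwuS2 e) fun h => sub12 (hp2 e h)⟩⟩
      (Co.slab_ne (by omega) ⟨by rw [Co.tm_vt], by rw [Co.tm_vt]; simp only; omega⟩
        ⟨by rw [Co.tm_vt]; simp only; omega, by rw [Co.tm_vt]⟩) (le_refl _) sub12
    have h' := TR_le_conn hτ ha.le wu hwuS2 p2.reverse (fun e he => by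
      rw [wedges_reverse, List.mem_reverse] at he
      exact sub12 (hp2 e he))
    rw [SimpleGraph.Walk.length_reverse] at h'
    linarith
  -- lateral distances
  have aC : ∀ r : ℝ, r + 4 ≤ K0 c → a * r ≤ C - 4 * a := by
    intro r hr
    rw [hC]
    have h6 : a * (r + 4) ≤ b * K0 c := by
      have h7 : a * (r + 4) ≤ a * K0 c := mul_le_mul_of_nonneg_left hr ha.le
      have h8 : a * K0 c ≤ b * K0 c := mul_le_mul_of_nonneg_right hab (by linarith)
      linarith
    linarith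
  have latu : a * (c.M * |(c.ps u₀ : ℝ) - c.ps x''|) ≤ (τ (ke s(x'', c₀)) + cost τ w₆) + 2 * C := by
    rw [← nm_lat' (c := c) t₁ (c.ps x'') (c.ps u₀)]
    have h7 := nm_le_cost hτ ha.le (SimpleGraph.Walk.cons hadc w₆)
    rw [cost_cons] at h7
    have e : c.vt (t₁, c.ps u₀) - c.vt (t₁, c.ps x'') =
        (c.vt (t₁, c.ps u₀) - u₀) + ((u₀ - x'') + (x'' - c.vt (t₁, c.ps x''))) := by abel
    have h8 := nm_add_le (c.vt (t₁, c.ps u₀) - u₀) ((u₀ - x'') + (x'' - c.vt (t₁, c.ps x'')))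
    have h9 := nm_add_le (u₀ - x'') (x'' - c.vt (t₁, c.ps x''))
    rw [← e] at h8
    have h10 := aC _ nearu
    have h11 := aC _ nearx''
    rw [nm_sub_comm x''] at h9
    have h12 : nm (c.vt (t₁, c.ps u₀) - c.vt (t₁, c.ps x'')) ≤ nm (c.vt (t₁, c.ps u₀) - u₀) +
        (nm (u₀ - x'') + nm (c.vt (t₁, c.ps x'') - x'')) := by linarith
    have h13 := mul_le_mul_of_nonneg_left h12 ha.le
    linarith
  -- the position bound
  have pos : ∀ {z : V} (p : grid.Walk (c.vt A) z), cost τ p ≤ cost τ w → a * |(c.ps z : ℝ) - A.2| ≤ c.R * (cost τ w) := by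
    intro z p hp
    have h7 := nm_le_cost hτ ha.le p
    have h8 := c.abs_ps_le (z - c.vt A)
    rw [Co.ps_sub, Co.ps_vt] at h8
    push_cast at h8
    have hRp : (0 : ℝ) ≤ c.R := by exact_mod_cast (by have := c.R_pos; omega)
    calc a * |(c.ps z : ℝ) - A.2| ≤ a * (c.R * nm (z - c.vt A)) := mul_le_mul_of_nonneg_left h8 ha.le
      _ = c.R * (a * nm (z - c.vt A)) := by ring
      _ ≤ c.R * cost τ w := mul_le_mul_of_nonneg_left (h7.trans hp) hRp
  have hRp : (0 : ℝ) ≤ c.R := by exact_mod_cast (by have := c.R_pos; omega)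
  have pC : c.R * cost τ w ≤ c.R * (cost τ w + 10 * C) := mul_le_mul_of_nonneg_left (by linarith) hRp
  have cnn : ∀ {x y : V} (p : grid.Walk x y), 0 ≤ cost τ p := fun p =>
    (mul_nonneg ha.le (Nat.cast_nonneg _)).trans (le_cost hτ p)
  have posk : a * |(c.ps x'' : ℝ) - A.2| ≤ c.R * (cost τ w + 10 * C) := by
    refine (pos w₅ ?_).trans pC
    have := cnn w₆
    have := cnn w₁₂
    have := cnn w₂
    have := e0 (ke s(x'', c₀))
    have := e0 (ke s(x', v₀))
    linarith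
  have posu : a * |(c.ps u₀ : ℝ) - A.2| ≤ c.R * (cost τ w + 10 * C) := by
    refine (pos wu ?_).trans pC
    have := cnn w₁₂
    have := cnn w₂
    have := e0 (ke s(x', v₀))
    linarith
  -- the second part
  by_cases hst : ∀ z ∈ w₂.support, c.L * t₁ < c.tm z
  · -- it stays after the time `L t₁`
    have hw₂S3 : ∀ e ∈ wedges w₂, e ∈ c.slab t₁ t₃ := slab_walk hw₂S (Or.inr hst) (Or.inl rfl)
    have heS3 : ke s(x', v₀) ∈ c.slab t₁ t₃ := by
      have h := slab_walk (s' := t₁) (t' := t₃) (w := SimpleGraph.Walk.cons hadj .nil) (s := s) (t := t₃)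
        (fun e he => by
          rw [mem_cons] at he
          rcases he with rfl | he
          · exact heS
          · simp [wedges] at he) (Or.inr fun z hz => by
          rw [SimpleGraph.Walk.support_cons, List.mem_cons, SimpleGraph.Walk.support_nil, List.mem_singleton] at hz
          rcases hz with rfl | rfl
          · exact hx'1
          · exact hst _ w₂.start_mem_support) (Or.inl rfl)
      exact h _ (by rw [mem_cons]; exact Or.inl rfl)
    refine ⟨c.ps x'', c.ps u₀, c.ps x', c.ps u₀, cost τ wu, τ (ke s(x', v₀)) + cost τ w₂, ?_, ?_, ?_, Or.inl ?_, ?_⟩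
    · have h := TR_le hτ ha.le (p2.append (w₁₂.append (.cons hadj w₂))) (fun e he => by
        rw [wedges_append, wedges_append, List.mem_append, List.mem_append, mem_cons] at he
        rcases he with he | he | he | he
        · exact sub13 (hp2 e he)
        · exact sub13 (hw₁₂S2 e he)
        · rw [he]; exact heS3
        · exact hw₂S3 e he)
      rw [cost_append, cost_append, cost_cons] at h
      have h4 := cost_le hτ p2
      rw [sub_self, abs_zero, mul_zero, mul_zero]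
      linarith
    · linarith
    · intro z
      linarith [b3 z]
    · intro z
      have h := TR_triangle (S := c.slab t₁ t₂) (S' := c.slab t₁ t₃) (S'' := c.slab t₁ t₃) (x := c.vt (t₁, z))
        (y := c.vt (t₂, c.ps x')) (z := c.vt (t₃, A.2 + y)) hτ ha.le
        (Co.slab_ne (by omega) ⟨by rw [Co.tm_vt], by rw [Co.tm_vt]; simp only; omega⟩
          ⟨by rw [Co.tm_vt]; simp only; omega, by rw [Co.tm_vt]⟩)
        (Co.slab_ne (by omega) ⟨by rw [Co.tm_vt]; simp only; omega, by rw [Co.tm_vt]; simp only; omega⟩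
          ⟨by rw [Co.tm_vt]; simp only; omega, by rw [Co.tm_vt]⟩) sub13 (le_refl _)
      have h' := TR_le hτ ha.le (p3.reverse.append (.cons hadj w₂)) (S := c.slab t₁ t₃) (fun e he => by
        rw [wedges_append, List.mem_append, wedges_reverse, List.mem_reverse, mem_cons] at he
        rcases he with he | he | he
        · exact sub13 (hp3 e he)
        · rw [he]; exact heS3
        · exact hw₂S3 e he)
      rw [cost_append, cost_cons, cost_reverse] at h'
      have h4 := cost_le hτ p3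
      linarith
    · intro j hj
      rcases hj with rfl | rfl | rfl
      · exact posk
      · exact posu
      · exact posu
  · -- it returns
    push Not at hst
    obtain ⟨z₀, hz₀, hz₀t⟩ := hst
    obtain ⟨q', k₀, w₂₁, hadk, w₂₂, hwk, hw₂₂, hq'⟩ := split_last (fun z => c.L * t₁ < c.tm z) w₂
      ⟨z₀, hz₀, not_lt.2 hz₀t⟩ (by rw [tY]; omega)
    rw [not_lt] at hq'
    have hadk' := tm_adj (c := c) hadk
    rw [abs_le] at hadk'
    have hk₀ := hw₂₂ k₀ w₂₂.start_mem_support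
    have hc₂ : cost τ w₂ = cost τ w₂₁ + (τ (ke s(q', k₀)) + cost τ w₂₂) := by rw [hwk, cost_append, cost_cons]
    have hw₂₂S : ∀ e ∈ wedges w₂₂, e ∈ c.slab t₁ t₃ := slab_walk (fun e he => hw₂S e (by
      rw [hwk, wedges_append, List.mem_append, mem_cons]
      exact Or.inr (Or.inr he))) (Or.inr hw₂₂) (Or.inl rfl)
    have neark := nm_near (c := c) (z := k₀) (n := t₁) (by rw [abs_le]; constructor <;> omega)
    obtain ⟨p4, hp4, lp4⟩ := Co.slab_conn (c := c) (s := t₁) (t := t₂) (by omega) (x := c.vt (t₁, c.ps k₀)) (y := k₀)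
      ⟨by rw [Co.tm_vt], by rw [Co.tm_vt]; simp only; omega⟩ ⟨by omega, by omega⟩
    have bp4 : b * p4.length ≤ C := bp lp4 (by rw [nm_sub_comm] at neark; exact neark)
    have b4 : TR (c.slab t₁ t₃) τ (c.vt (t₁, c.ps k₀)) (c.vt (t₃, A.2 + y)) ≤ cost τ w₂₂ + C := by
      have h := TR_le hτ ha.le (p4.append w₂₂) (S := c.slab t₁ t₃) (fun e he => by
        rw [wedges_append, List.mem_append] at he
        exact he.elim (fun h => sub13 (hp4 e h)) (hw₂₂S e))
      rw [cost_append] at h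
      have h4 := cost_le hτ p4
      linarith
    -- the walk from `u₀` to `k₀`
    obtain ⟨wr, hwr⟩ : ∃ wr : grid.Walk v₀ k₀, wr = w₂₁.append (.cons hadk .nil) := ⟨_, rfl⟩
    have hcr : cost τ wr = cost τ w₂₁ + τ (ke s(q', k₀)) := by
      rw [hwr, cost_append, cost_cons]
      simp [cost, wedges]
    have latk : a * (c.M * |(c.ps k₀ : ℝ) - c.ps u₀|) ≤ (cost τ w₁₂ + (τ (ke s(x', v₀)) + cost τ wr)) + 2 * C := by
      rw [← nm_lat' (c := c) t₁ (c.ps u₀) (c.ps k₀)]
      have h7 := nm_le_cost hτ ha.le (w₁₂.append (.cons hadj wr))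
      rw [cost_append, cost_cons] at h7
      have e : c.vt (t₁, c.ps k₀) - c.vt (t₁, c.ps u₀) =
          (c.vt (t₁, c.ps k₀) - k₀) + ((k₀ - u₀) + (u₀ - c.vt (t₁, c.ps u₀))) := by abel
      have h8 := nm_add_le (c.vt (t₁, c.ps k₀) - k₀) ((k₀ - u₀) + (u₀ - c.vt (t₁, c.ps u₀)))
      have h9 := nm_add_le (k₀ - u₀) (u₀ - c.vt (t₁, c.ps u₀))
      rw [← e] at h8
      have h10 := aC _ neark
      have h11 := aC _ nearu
      rw [nm_sub_comm u₀] at h9
      have h12 : nm (c.vt (t₁, c.ps k₀) - c.vt (t₁, c.ps u₀)) ≤ nm (c.vt (t₁, c.ps k₀) - k₀) +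
          (nm (k₀ - u₀) + nm (c.vt (t₁, c.ps u₀) - u₀)) := by linarith
      have h13 := mul_le_mul_of_nonneg_left h12 ha.le
      linarith
    refine ⟨c.ps x'', c.ps u₀, c.ps x', c.ps k₀, cost τ wu, τ (ke s(x', v₀)) + cost τ w₂, ?_, ?_, ?_, Or.inr ?_, ?_⟩
    · linarith
    · linarith
    · intro z
      linarith [b3 z]
    · intro z
      have hT := TR_lower (S := c.slab t₁ t₂) (x := c.vt (t₁, z)) (y := c.vt (t₂, c.ps x')) hτ ha.le
        (Co.slab_ne (by omega) ⟨by rw [Co.tm_vt], by rw [Co.tm_vt]; simp only; omega⟩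
          ⟨by rw [Co.tm_vt]; simp only; omega, by rw [Co.tm_vt]⟩)
      have h7 := nm_le_cost hτ ha.le (SimpleGraph.Walk.cons hadj wr)
      rw [cost_cons] at h7
      have hsum : cost τ (SimpleGraph.Walk.cons hadj wr) = τ (ke s(x', v₀)) + cost τ wr := cost_cons _ _
      constructor
      · rw [← nm_lat' (c := c) t₁ z (c.ps k₀)]
        have e : c.vt (t₁, c.ps k₀) - c.vt (t₁, z) = (c.vt (t₁, c.ps k₀) - k₀) + ((k₀ - x') +
            ((x' - c.vt (t₂, c.ps x')) + (c.vt (t₂, c.ps x') - c.vt (t₁, z)))) := by abel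
        have h8 := nm_add_le (c.vt (t₁, c.ps k₀) - k₀) ((k₀ - x') +
            ((x' - c.vt (t₂, c.ps x')) + (c.vt (t₂, c.ps x') - c.vt (t₁, z))))
        have h9 := nm_add_le (k₀ - x') ((x' - c.vt (t₂, c.ps x')) + (c.vt (t₂, c.ps x') - c.vt (t₁, z)))
        have h10 := nm_add_le (x' - c.vt (t₂, c.ps x')) (c.vt (t₂, c.ps x') - c.vt (t₁, z))
        rw [← e] at h8
        rw [nm_sub_comm x'] at h10
        have h11 := aC _ neark
        have h12 := aC _ nearv
        have h13 : nm (c.vt (t₁, c.ps k₀) - c.vt (t₁, z)) ≤ nm (c.vt (t₁, c.ps k₀) - k₀) + (nm (k₀ - x') +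
            (nm (c.vt (t₂, c.ps x') - x') + nm (c.vt (t₂, c.ps x') - c.vt (t₁, z)))) := by linarith
        have h14 := mul_le_mul_of_nonneg_left h13 ha.le
        linarith
      · -- the time up to `L t₂` and back
        have hMr : (0 : ℝ) < c.M := by exact_mod_cast (by omega : 0 < c.M)
        have f1 := c.abs_tm_le (c.vt (t₂, c.ps x') - c.vt (t₁, z))
        rw [Co.tm_sub, Co.tm_vt, Co.tm_vt] at f1
        have f2 := c.abs_tm_le (k₀ - x')
        rw [Co.tm_sub] at f2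
        have f3 : (c.M : ℝ) * R ≤ c.M * nm (c.vt (t₂, c.ps x') - c.vt (t₁, z)) := by
          refine le_trans ?_ f1
          have : c.M * R ≤ |c.L * t₂ - c.L * t₁| := by
            rw [hR2, add_sub_cancel_left]
            refine le_trans ?_ (le_abs_self _)
            exact mul_le_mul_of_nonneg_right (by omega) (by omega)
          exact_mod_cast this
        have f4 : (c.M : ℝ) * (R - 2) ≤ c.M * nm (k₀ - x') := by
          refine le_trans ?_ f2
          have : c.M * ((R : ℤ) - 2) ≤ |c.tm k₀ - c.tm x'| := by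
            refine le_trans ?_ (neg_le_abs _)
            have h20 : c.M * ((R : ℤ) - 2) = c.M * R - 2 * c.M := by ring
            have h21 : c.M * (R : ℤ) ≤ c.L * R := mul_le_mul_of_nonneg_right (by omega) (by omega)
            omega
          exact_mod_cast this
        have f5 := le_of_mul_le_mul_left f3 hMr
        have f6 := le_of_mul_le_mul_left f4 hMr
        have f7 := mul_le_mul_of_nonneg_left f5 ha.le
        have f8 := mul_le_mul_of_nonneg_left f6 ha.le
        have f9 : a ≤ C := hab.trans hbC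
        linarith
    · intro j hj
      rcases hj with rfl | rfl | rfl
      · exact posk
      · exact posu
      · refine (pos (wu.append (w₁₂.append (.cons hadj wr))) ?_).trans pC
        rw [cost_append, cost_append, cost_cons]
        have := cnn w₂₂
        linarith

end Pool.Agent.W_1b8d5d_p66
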