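import Pool.Agent.W_1b8d5d_p.FrameC
import Pool.Agent.W_1b8d5d_p.CheapC32
import Pool.Agent.W_1b8d5d_p.Cone32D
import Pool.Agent.W_1b8d5d_h4p.ToolZ

/-!
MP_1b8d5d_pr, Track P. The frame, assembly: (MC), and the cone of every scale.
-/

namespace Pool.Agent.W_1b8d5d_p

open MeasureTheory Set
open Pool.Agent.W_1b8d5d_h85
open Pool.Agent.W_1b8d5d_h4p (LawH mc_X)

noncomputable section

variable {F : Fm} {κ K : ℝ} {Ds : Set Dr}

/-- **(MC)** for the family. -/
theorem mcz {c0 C0 : ℝ} (hL : LawH F c0 C0) (h : Dirs F κ K Ds) : MCz F Ds := by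
  intro p hp
  obtain ⟨T, C, hT, hC, hmc⟩ := mc_X hL hp
  refine ⟨C * T, 1, fun d hd n hn y u h1 h2 => ?_⟩
  by_contra hcon
  rw [not_le] at hcon
  have h3 := hmc κ d (h.adm d hd) (h.touch d hd) n (T * n) hn le_rfl y u hcon.le
  have h4 : C * EE F d (T * n) ≤ C * T * EE F d n := by
    rw [mul_assoc]
    exact mul_le_mul_of_nonneg_left (EE_mul F d n hT) (by linarith)
  rcases le_max_iff.1 h3 with h5 | h5 <;> linarith

theorem J_at (F : Fm) (d : Dr) (r x : ℝ) : J F (d.at r) (x - (r - d.v)) = J F d x := by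
  have e1 : (d.at r).v + (x - (r - d.v)) = d.v + x := by
    show r + (x - (r - d.v)) = d.v + x
    ring
  unfold J
  rw [e1]
  rfl

/-- The cone of the scale `n`. -/
theorem LsAt.cone {d : Dr} {n N w : ℕ} {A E r : ℝ} {α β : ℤ} (hl : LsAt F d n N w A E r α β) (hd : Adm F κ d) (hn : 1 ≤ n)
    (hA : 10 ^ 8 ≤ A) (hE : 0 < E) (hEC : C0 F.co F.b ≤ E) {k1 : ℝ} (hk1 : 0 < k1) (hk1κ : k1 ≤ κ) (hEk : k1 ≤ E)
    (hw : 4 * (A * E / k1) ≤ w) (x : ℝ) :
    A / 128 * E * (n * |x - (r - d.v)|) ≤ ((β : ℝ) - α) * (n * J F d x + 75 * A * E) := by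
  have hA0 : 0 < A := by linarith
  have hM : (1 : ℝ) ≤ F.co.M := by exact_mod_cast F.co.M_pos
  have hAE : 0 < A * E := by positivity
  have h1w : 4 ≤ (w : ℝ) := by
    refine le_trans ?_ hw
    have h1 : 1 ≤ A * E / k1 := by
      rw [le_div_iff₀ hk1]
      nlinarith
    linarith
  have hw0 : (0 : ℝ) < w := by linarith
  obtain ⟨θ, hθ⟩ : ∃ θ : ℝ, θ = 4 / (25 * (A * E)) := ⟨_, rfl⟩
  obtain ⟨σ0, hσ0⟩ : ∃ σ0 : ℝ, σ0 = A * E / (32 * w) := ⟨_, rfl⟩
  have hθ0 : 0 < θ := by rw [hθ]; positivity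
  have hσ00 : 0 < σ0 := by rw [hσ0]; positivity
  have hσk : σ0 ≤ κ * F.co.M := by
    have h1 : A * E / k1 ≤ w / 4 := by linarith
    rw [div_le_iff₀ hk1] at h1
    have h2 : σ0 ≤ k1 := by
      rw [hσ0, div_le_iff₀ (by positivity)]
      nlinarith
    have h3 : κ * 1 ≤ κ * F.co.M := mul_le_mul_of_nonneg_left hM hd.κ0.le
    linarith
  have hsl := sl_of (hd.at r)
  have hone := one_cone (hd.at r) hθ0 (σ := σ0 / 2) (σ₀ := σ0) (by positivity) (by linarith) hσk
    (W := w / 2) (by positivity) hn (D := 2 * Real.exp 2) (by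
      have := Real.add_one_le_exp 2
      linarith) (fun z => by
      refine EG_of_box (M := TL F (d.at r) σ0 z w n) hθ0.le (fun η a y ha1 ha2 => ?_) (expTL_int hsl hσk hθ0.le) ?_
      · have h1 := le_TL hsl hσk η (P := ((0 : ℤ), a)) (Q := ((n : ℤ), a + y)) (o := z) (W := w) (k := n) (t := σ0)
          ⟨le_rfl, by simp, by simp, by
            intro h0
            simp only at h0
            omega, by
            unfold lat
            simp only [Int.cast_zero, mul_zero, sub_zero]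
            exact ha1.le, by
            unfold lat
            simp only [Int.cast_zero, mul_zero, sub_zero]
            linarith⟩
        refine le_trans (le_of_eq ?_) h1
        unfold lat XP
        simp only [Int.cast_zero, mul_zero, sub_zero, Int.cast_add, Int.cast_natCast, Int.toNat_natCast, add_sub_cancel_left]
        congr 3
        ring
      · rw [hθ, hσ0]
        exact hl.ls n le_rfl z) (x - (r - d.v))
  rw [J_at] at hone
  have hlog : Real.log (2 * Real.exp 2 * (Real.exp (θ * C0 F.co F.b) * (3 + 2 / (θ * ((σ0 - σ0 / 2) * (w / 2)))))) ≤ 12 := by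
    have e1 : θ * ((σ0 - σ0 / 2) * (w / 2)) = 1 / 800 := by
      rw [hθ, hσ0]
      field_simp
      norm_num
    have h2 : θ * C0 F.co F.b ≤ 1 := by
      have h3 : θ * C0 F.co F.b ≤ θ * E := mul_le_mul_of_nonneg_left hEC hθ0.le
      have h4 : θ * E = 4 / (25 * A) := by
        rw [hθ]
        field_simp
      have h5 : 4 / (25 * A) ≤ 1 := by
        rw [div_le_one (by positivity)]
        linarith
      linarith
    have h3 := Real.exp_le_exp.2 h2
    rw [e1, Real.log_le_iff_le_exp (by positivity)]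
    have h4 : (2 : ℝ) * Real.exp 2 * (Real.exp (θ * C0 F.co F.b) * (3 + 2 / (1 / 800))) ≤ 3206 * Real.exp 3 := by
      have e3 : Real.exp 3 = Real.exp 2 * Real.exp 1 := by rw [← Real.exp_add]; norm_num
      rw [e3]
      have h6 := mul_le_mul_of_nonneg_left h3 (Real.exp_pos 2).le
      nlinarith
    have h5 : (3206 : ℝ) * Real.exp 3 ≤ Real.exp 12 := by
      have e3 : Real.exp 12 = Real.exp 9 * Real.exp 3 := by rw [← Real.exp_add]; norm_num
      rw [e3]
      refine mul_le_mul_of_nonneg_right ?_ (Real.exp_pos 3).le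
      have h7 : (2.7 : ℝ) ≤ Real.exp 1 := by
        have := Real.exp_one_gt_d9
        linarith
      have h8 : Real.exp 9 = Real.exp 1 ^ 9 := by
        rw [← Real.exp_nat_mul]
        norm_num
      rw [h8]
      calc (3206 : ℝ) ≤ 2.7 ^ 9 := by norm_num
        _ ≤ Real.exp 1 ^ 9 := pow_le_pow_left₀ (by norm_num) h7 9
    exact h4.trans h5
  have h1 : Real.log (2 * Real.exp 2 * (Real.exp (θ * C0 F.co F.b) * (3 + 2 / (θ * ((σ0 - σ0 / 2) * (w / 2)))))) / θ ≤
      75 * A * E := by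
    rw [div_le_iff₀ hθ0]
    have : 75 * A * E * θ = 12 := by
      rw [hθ]
      field_simp
      norm_num
    linarith
  have h2 : σ0 / 2 * (n * |x - (r - d.v)|) ≤ n * J F d x + 75 * A * E := by linarith
  have h3 : A / 128 * E * (n * |x - (r - d.v)|) = w / 2 * (σ0 / 2 * (n * |x - (r - d.v)|)) := by
    rw [hσ0]
    field_simp
    ring
  rw [h3]
  have h4 : (w : ℝ) / 2 ≤ β - α := by
    have := hl.hw
    linarith
  have h5 : 0 ≤ σ0 / 2 * (n * |x - (r - d.v)|) := by positivity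
  exact mul_le_mul h4 h2 h5 (by linarith)

/-- **THE FRAME AT EVERY SCALE, with the cone of the scale.** -/
theorem Dirs.frameD (h : Dirs F κ K Ds) (hr : Rate F Ds) (hg : Grow F Ds) (hmc : MCz F Ds) :
    ∃ (A k1 : ℝ) (H n0 : ℕ), 10 ^ 8 ≤ A ∧ 0 < k1 ∧ 1 ≤ H ∧ 1 ≤ n0 ∧ ∀ d ∈ Ds, ∀ n : ℕ, n0 ≤ n →
      ∃ (r : ℝ) (N w : ℕ) (α β : ℤ), k1 ≤ κ ∧ |r - d.v| ≤ 1 ∧ n ≤ N ∧ N ≤ H * n ∧
        4 * (A * EE F d (H * n) / k1) ≤ w ∧ 4 ≤ w ∧ LsAt F d n N w A (EE F d (H * n)) r α β ∧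
        ∀ x : ℝ, A / 128 * EE F d (H * n) * (n * |x - (r - d.v)|) ≤
          ((β : ℝ) - α) * (n * J F d x + 75 * A * EE F d (H * n)) := by
  obtain ⟨A, k1, H, n1, hA, hk1, hH, hn1, hf⟩ := h.frame hr hg hmc
  obtain ⟨n2, hgrow⟩ := hg (|C0 F.co F.b| + k1)
  refine ⟨A, k1, H, max n1 n2, hA, hk1, hH, hn1.trans (le_max_left _ _), fun d hd n hn => ?_⟩
  have hnn1 : n1 ≤ n := (le_max_left _ _).trans hn
  have hnn2 : n2 ≤ n := (le_max_right _ _).trans hn
  obtain ⟨r, N, w, α, β, h1, h2, h3, h4, h5, h6⟩ := hf d hd n hnn1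
  have hE := hgrow d hd (H * n) (hnn2.trans (Nat.le_mul_of_pos_left n (by omega)))
  have hE0 := EE_pos F d (H * n)
  have g1 := le_abs_self (C0 F.co F.b)
  have g2 := abs_nonneg (C0 F.co F.b)
  have h4w : 4 ≤ w := by
    have g3 : (4 : ℝ) ≤ w := by
      refine le_trans ?_ h5
      have g4 : 1 ≤ A * EE F d (H * n) / k1 := by
        rw [le_div_iff₀ hk1]
        nlinarith
      linarith
    exact_mod_cast g3
  exact ⟨r, N, w, α, β, h1, h2, h3, h4, h5, h4w, h6,
    h6.cone (h.adm d hd) (hn1.trans hnn1) hA hE0 (by linarith) hk1 h1 (by linarith) h5⟩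

/-- **The cones of all scales**: input of `cheap32`. -/
theorem Dirs.coneAt (h : Dirs F κ K Ds) (hr : Rate F Ds) (hg : Grow F Ds) (hmc : MCz F Ds) :
    ∃ (A' C c : ℝ) (H n0 : ℕ), 0 ≤ A' ∧ 0 ≤ C ∧ 0 < c ∧ 1 ≤ H ∧ ∀ d ∈ Ds, ∀ n : ℕ, n0 ≤ n → ConeAt F d H A' C c n := by
  obtain ⟨A, k1, H, n1, hA, hk1, hH, hn1, hf⟩ := h.frameD hr hg hmc
  have hA0 : 0 < A := by linarith
  refine ⟨A * H, 75 * A * H, A / 128, H, n1, by positivity, by positivity, by positivity, hH, fun d hd n hn => ?_⟩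
  obtain ⟨r, N, w, α, β, h1, h2, h3, h4, h5, h4w, h6, h7⟩ := hf d hd n hn
  have hE0 := EE_pos F d (H * n)
  have hE1 : EE F d (H * n) ≤ H * EE F d n := EE_mul F d n hH
  have hE2 : EE F d n ≤ EE F d (H * n) := EE_mono F d (Nat.le_mul_of_pos_left n (by omega))
  have hAE : A * EE F d (H * n) ≤ A * H * EE F d n := by
    rw [mul_assoc]
    exact mul_le_mul_of_nonneg_left hE1 hA0.le
  have hwr : (4 : ℝ) ≤ w := by exact_mod_cast h4w
  have hαβ : α ≤ β := by
    have g1 := h6.hw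
    have g2 : (α : ℝ) ≤ β := by linarith
    exact_mod_cast g2
  have hαβ' : 0 ≤ (β : ℝ) - α := by
    have : (α : ℝ) ≤ β := by exact_mod_cast hαβ
    linarith
  refine ⟨N, α, β, r - d.v, by omega, h4, hαβ, ((h6.int α).2 ⟨le_rfl, hαβ⟩).trans hAE,
    ((h6.int β).2 ⟨hαβ, le_rfl⟩).trans hAE, fun x => ?_⟩
  have g1 : A / 128 * EE F d n * (n * |x - (r - d.v)|) ≤ A / 128 * EE F d (H * n) * (n * |x - (r - d.v)|) :=
    mul_le_mul_of_nonneg_right (mul_le_mul_of_nonneg_left hE2 (by positivity)) (by positivity)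
  have g2 : ((β : ℝ) - α) * (n * J F d x + 75 * A * EE F d (H * n)) ≤
      ((β : ℝ) - α) * (n * J F d x + 75 * A * H * EE F d n) := by
    refine mul_le_mul_of_nonneg_left ?_ hαβ'
    have g3 : 75 * A * EE F d (H * n) ≤ 75 * A * (H * EE F d n) := mul_le_mul_of_nonneg_left hE1 (by positivity)
    linarith
  exact g1.trans ((h7 x).trans g2)

end

end Pool.Agent.W_1b8d5d_p
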