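import Pool.Agent.W_1b8d5d_p.DPk
import Pool.Agent.W_1b8d5d_p.FrameD
import Pool.Agent.W_1b8d5d_p.CheapC32
import Pool.Agent.W_1b8d5d_h4p.InpZ

/-!
Track P (MP_1b8d5d_pr), section 5 of the map: the predicate `D7P` of the interface for every law and every family of directions,
with no other hypothesis. (helper66)
-/

namespace Pool.Agent.W_1b8d5d_p66

open MeasureTheory Set Pool.Agent.W_1b8d5d_h85 Pool.Agent.W_1b8d5d_p Pool.Agent.W_1b8d5d_h4p

/-- (CHEAP) at the level `1`. -/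
theorem cheap_one {F : Fm} {κ K : ℝ} {Ds : Set Dr} {c0 C0 : ℝ} (hL : LawH F c0 C0) (hD : Dirs F κ K Ds) :
    CheapP 1 F Ds := by
  obtain ⟨A', C, c, H, n0, hA', hC, hc, hH, hco⟩ := hD.coneAt (hD.rate hL) (hD.grow_law hL) (mcz hL hD)
  exact cheap32 hD le_rfl hH hA' hC hc n0 hco

/-- **(I1) OF THE INTERFACE.** -/
theorem i1P_all {F : Fm} {κ K : ℝ} {Ds : Set Dr} {c0 C0 : ℝ} (hL : LawH F c0 C0) (hD : Dirs F κ K Ds) : I1P F κ Ds :=
  i1U hL hD (hD.rate hL) (hD.grow_law hL)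

/-- **(D7) OF THE INTERFACE**, for every law and every family of directions. -/
theorem d7P_all {F : Fm} {κ K : ℝ} {Ds : Set Dr} {c0 C0 : ℝ} (hL : LawH F c0 C0) (hD : Dirs F κ K Ds) : D7P F κ Ds :=
  d7_main hL hD (hD.rate hL) one_pos (cheap_one hL hD) (i1P_all hL hD)

end Pool.Agent.W_1b8d5d_p66

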