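import Pool.Agent.W_7d29a1_f21.Ind

/-!
Track P (MP_1b8d5d_pr), section A (D7): sums over chains of slabs which overlap only with their neighbours, countably many
states, with values in `[0, ∞]` (no integrability, no finite ranges). (helper66)
-/

namespace Pool.Agent.W_1b8d5d_p66

open MeasureTheory ProbabilityTheory Pool.Agent.W_7d29a1_f21
open scoped ENNReal

variable {ι S : Type*} {μ : Measure ℝ} [IsProbabilityMeasure μ]

/-- Independence of functions of disjoint sets of sites. -/
theorem lintegral_indep {f g : (ι → ℝ) → ℝ≥0∞} {A B : Set ι} (hf : Measurable f) (hg : Measurable g)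
    (hfA : DependsOn f A) (hgB : DependsOn g B) (h : Disjoint A B) :
    ∫⁻ η, f η * g η ∂(lw ι μ) = (∫⁻ η, f η ∂(lw ι μ)) * ∫⁻ η, g η ∂(lw ι μ) := by
  have hgA : DependsOn g Aᶜ := fun η η' hh =>
    hgB fun p hp => hh p fun hpA => (Set.disjoint_left.mp h) hpA hp
  have hmp := mp_splice (μ := μ) A
  have h0 : ∫⁻ η, f η * g η ∂(lw ι μ) = ∫⁻ w, (f * g) (splice A w.1 w.2) ∂((lw ι μ).prod (lw ι μ)) :=
    (hmp.lintegral_comp (hf.mul hg)).symm
  rw [h0]
  have h1 : ∀ w : (ι → ℝ) × (ι → ℝ), (f * g) (splice A w.1 w.2) = f w.1 * g w.2 := by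
    intro w
    show f _ * g _ = f w.1 * g w.2
    congr 1
    · exact hfA fun p hp => splice_mem _ _ hp
    · exact hgA fun p hp => splice_not_mem _ _ hp
  have h2 : (fun w : (ι → ℝ) × (ι → ℝ) => (f * g) (splice A w.1 w.2)) = fun w => f w.1 * g w.2 := funext h1
  rw [h2, lintegral_prod_mul hf.aemeasurable hg.aemeasurable]

/-- Cauchy - Schwarz for sums with values in `[0, ∞]`. -/
theorem tsum_sq_le {f g h : S → ℝ≥0∞} (hfg : ∀ i, f i ^ 2 ≤ g i * h i) :
    (∑' i, f i) ^ 2 ≤ (∑' i, g i) * ∑' i, h i := by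
  have h1 : ∑' i, f i ≤ ((∑' i, g i) * ∑' i, h i) ^ (1 / 2 : ℝ) := by
    rw [ENNReal.tsum_eq_iSup_sum]
    refine iSup_le fun F => ?_
    have h2 : ∀ i, f i ≤ g i ^ (1 / 2 : ℝ) * h i ^ (1 / 2 : ℝ) := by
      intro i
      rw [← ENNReal.mul_rpow_of_nonneg _ _ (by norm_num)]
      have h3 := ENNReal.rpow_le_rpow (hfg i) (show (0 : ℝ) ≤ 1 / 2 by norm_num)
      rw [← ENNReal.rpow_natCast, ← ENNReal.rpow_mul] at h3
      simpa using h3
    refine (Finset.sum_le_sum fun i _ => h2 i).trans ?_
    have h4 := ENNReal.inner_le_Lp_mul_Lq F (fun i => g i ^ (1 / 2 : ℝ)) (fun i => h i ^ (1 / 2 : ℝ))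
      (p := 2) (q := 2) Real.HolderConjugate.two_two
    refine h4.trans ?_
    rw [← ENNReal.mul_rpow_of_nonneg _ _ (by norm_num)]
    refine ENNReal.rpow_le_rpow ?_ (by norm_num)
    have h5 : ∀ x : ℝ≥0∞, (x ^ (1 / 2 : ℝ)) ^ (2 : ℝ) = x := by
      intro x
      rw [← ENNReal.rpow_mul]
      norm_num
    simp only [h5]
    exact mul_le_mul' (ENNReal.sum_le_tsum F) (ENNReal.sum_le_tsum F)
  have h6 := pow_le_pow_left₀ zero_le h1 2
  refine h6.trans (le_of_eq ?_)
  rw [← ENNReal.rpow_natCast, ← ENNReal.rpow_mul]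
  norm_num

/-- The two alternating majorants. -/
noncomputable def AE (f : ℕ → S → S → (ι → ℝ) → ℝ≥0∞) (T : S → S → ℝ≥0∞) (H : S → ℝ≥0∞) :
    ℕ → Bool → ℕ → S → (ι → ℝ) → ℝ≥0∞
  | 0, _, _, s, _ => H s
  | n + 1, b, j, s, η => ∑' s' : S,
      (if b = true then f j s s' η ^ 2 / T s s' else T s s') * AE f T H n (!b) (j + 1) s' η

variable {f : ℕ → S → S → (ι → ℝ) → ℝ≥0∞} {T : S → S → ℝ≥0∞} {H : S → ℝ≥0∞} {A : ℕ → Set ι}

theorem AE_meas [Countable S] (hf : ∀ j s s', Measurable (f j s s')) (n : ℕ) :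
    ∀ (b : Bool) (j : ℕ) (s : S), Measurable (AE f T H n b j s) := by
  induction n with
  | zero => exact fun b j s => measurable_const
  | succ n ih =>
    intro b j s
    show Measurable fun η => AE f T H (n + 1) b j s η
    simp only [AE]
    refine Measurable.tsum fun s' => Measurable.mul ?_ (ih _ _ _)
    split_ifs
    · exact ((hf _ _ _).pow_const 2).div_const _
    · exact measurable_const

theorem AE_dep (hf : ∀ j s s', DependsOn (f j s s') (A j)) (n : ℕ) :
    ∀ (b : Bool) (j : ℕ) (s : S),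
      DependsOn (AE f T H n b j s) (⋃ k ∈ {k : ℕ | (if b = true then j else j + 1) ≤ k}, A k) := by
  induction n with
  | zero => exact fun b j s η η' _ => rfl
  | succ n ih =>
    intro b j s η η' h
    show AE f T H (n + 1) b j s η = AE f T H (n + 1) b j s η'
    rw [AE, AE]
    refine tsum_congr fun s' => ?_
    cases b with
    | true =>
      rw [if_pos rfl, if_pos rfl]
      congr 1
      · congr 2
        refine hf _ _ _ fun p hp => h p ?_
        rw [Set.mem_iUnion₂]
        exact ⟨j, by simp, hp⟩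
      · refine ih (!true) (j + 1) s' fun p hp => h p ?_
        rw [Set.mem_iUnion₂] at hp ⊢
        obtain ⟨k, hk, hpk⟩ := hp
        refine ⟨k, ?_, hpk⟩
        simp only [Bool.not_true, Bool.false_eq_true, if_false, Set.mem_ofPred_eq] at hk
        simp only [if_true, Set.mem_ofPred_eq]
        omega
    | false =>
      rw [if_neg (by simp), if_neg (by simp)]
      congr 1
      refine ih (!false) (j + 1) s' fun p hp => h p ?_
      rw [Set.mem_iUnion₂] at hp ⊢
      obtain ⟨k, hk, hpk⟩ := hp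
      refine ⟨k, ?_, hpk⟩
      simp only [Bool.not_false, if_true, Set.mem_ofPred_eq] at hk
      simp only [Bool.false_eq_true, if_false, Set.mem_ofPred_eq]
      omega

theorem AE_int [Countable S] (hA : ∀ j k, j + 2 ≤ k → Disjoint (A j) (A k)) (hfm : ∀ j s s', Measurable (f j s s'))
    (hf : ∀ j s s', DependsOn (f j s s') (A j)) (hT : ∀ s s', T s s' ≠ 0) (hT' : ∀ s s', T s s' ≠ ∞)
    (hf2 : ∀ j s s', ∫⁻ η, f j s s' η ^ 2 ∂(lw ι μ) ≤ T s s' ^ 2)
    (hTH : ∀ s, ∑' s', T s s' * H s' ≤ H s / 2) (n : ℕ) :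
    ∀ (b : Bool) (j : ℕ) (s : S), ∫⁻ η, AE f T H n b j s η ∂(lw ι μ) ≤ H s / 2 ^ n := by
  induction n with
  | zero =>
    intro b j s
    show ∫⁻ η, H s ∂(lw ι μ) ≤ H s / 2 ^ 0
    simp
  | succ n ih =>
    intro b j s
    have hterm : ∀ s' : S, ∫⁻ η, (if b = true then f j s s' η ^ 2 / T s s' else T s s') *
          AE f T H n (!b) (j + 1) s' η ∂(lw ι μ) ≤ T s s' * (H s' / 2 ^ n) := by
      intro s'
      cases b with
      | true =>
        simp only [if_true, Bool.not_true]
        have hd1 : DependsOn (fun η => f j s s' η ^ 2 / T s s') (A j) := by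
          intro η η' h
          show f j s s' η ^ 2 / T s s' = f j s s' η' ^ 2 / T s s'
          rw [hf _ _ _ h]
        have hd2 := AE_dep (T := T) (H := H) hf n false (j + 1) s'
        have hm1 : Measurable fun η => f j s s' η ^ 2 / T s s' := ((hfm _ _ _).pow_const 2).div_const _
        have hm2 : Measurable fun η => AE f T H n false (j + 1) s' η := AE_meas hfm n false (j + 1) s'
        have hdis : Disjoint (A j) (⋃ k ∈ {k : ℕ | (if false = true then j + 1 else j + 1 + 1) ≤ k}, A k) := by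
          rw [Set.disjoint_left]
          intro p hp hp'
          rw [Set.mem_iUnion₂] at hp'
          obtain ⟨k, hk, hpk⟩ := hp'
          simp only [Bool.false_eq_true, if_false, Set.mem_ofPred_eq] at hk
          exact Set.disjoint_left.1 (hA j k (by omega)) hp hpk
        have hb2 := ih false (j + 1) s'
        rw [lintegral_indep hm1 hm2 hd1 hd2 hdis]
        refine mul_le_mul' ?_ hb2
        simp only [ENNReal.div_eq_inv_mul]
        rw [lintegral_const_mul _ ((hfm _ _ _).pow_const 2)]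
        calc (T s s')⁻¹ * ∫⁻ η, f j s s' η ^ 2 ∂(lw ι μ) ≤ (T s s')⁻¹ * T s s' ^ 2 :=
              mul_le_mul' le_rfl (hf2 _ _ _)
          _ = T s s' := by
              rw [sq, ← mul_assoc, ENNReal.inv_mul_cancel (hT _ _) (hT' _ _), one_mul]
      | false =>
        simp only [Bool.false_eq_true, if_false, Bool.not_false]
        rw [lintegral_const_mul _ (AE_meas hfm n true (j + 1) s')]
        exact mul_le_mul' le_rfl (ih true (j + 1) s')
    have hAB : AE f T H (n + 1) b j s = fun η => ∑' s' : S,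
        (if b = true then f j s s' η ^ 2 / T s s' else T s s') * AE f T H n (!b) (j + 1) s' η := by
      funext η
      rw [AE]
    rw [hAB]
    rw [lintegral_tsum]
    · refine (ENNReal.tsum_le_tsum hterm).trans ?_
      have h1 : ∑' s', T s s' * (H s' / 2 ^ n) = (∑' s', T s s' * H s') / 2 ^ n := by
        simp only [div_eq_mul_inv]
        rw [← ENNReal.tsum_mul_right]
        exact tsum_congr fun s' => by ring
      rw [h1]
      refine (ENNReal.div_le_div_right (hTH s) _).trans (le_of_eq ?_)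
      simp only [div_eq_mul_inv]
      rw [pow_succ, ENNReal.mul_inv (Or.inr (by norm_num)) (Or.inr (by norm_num)), mul_assoc, mul_comm (2 : ℝ≥0∞)⁻¹]
    · intro s'
      refine (Measurable.mul ?_ (AE_meas hfm _ _ _ _)).aemeasurable
      split_ifs
      · exact ((hfm _ _ _).pow_const 2).div_const _
      · exact measurable_const

/-- THE ABSTRACT BOUND: chains of slabs overlapping only with their neighbours, countably many states. -/
theorem chainE [Countable S] (hA : ∀ j k, j + 2 ≤ k → Disjoint (A j) (A k)) (hfm : ∀ j s s', Measurable (f j s s'))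
    (hf : ∀ j s s', DependsOn (f j s s') (A j)) (hT : ∀ s s', T s s' ≠ 0) (hT' : ∀ s s', T s s' ≠ ∞)
    (hf2 : ∀ j s s', ∫⁻ η, f j s s' η ^ 2 ∂(lw ι μ) ≤ T s s' ^ 2)
    (hTH : ∀ s, ∑' s', T s s' * H s' ≤ H s / 2)
    {M : ℕ} {y : ℕ → S → (ι → ℝ) → ℝ≥0∞} (hyH : ∀ s η, y M s η ≤ H s)
    (hy : ∀ j, j < M → ∀ s η, y j s η ≤ ∑' s', f j s s' η * y (j + 1) s' η) (s : S) :
    ∫⁻ η, y 0 s η ∂(lw ι μ) ≤ 2 * (H s / 2 ^ M) := by
  have hpt : ∀ n j, j + n = M → ∀ s η, y j s η ^ 2 ≤ AE f T H n true j s η * AE f T H n false j s η := by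
    intro n
    induction n with
    | zero =>
      intro j hj s η
      have hjM : j = M := by omega
      rw [hjM]
      show y M s η ^ 2 ≤ H s * H s
      rw [sq]
      exact mul_le_mul' (hyH s η) (hyH s η)
    | succ n ih =>
      intro j hj s η
      have h1 : (∑' s', f j s s' η * y (j + 1) s' η) ^ 2 ≤
          (∑' s', f j s s' η ^ 2 / T s s' * AE f T H n false (j + 1) s' η) *
          ∑' s', T s s' * AE f T H n true (j + 1) s' η := by
        refine tsum_sq_le fun s' => ?_
        have h2 := ih (j + 1) (by omega) s' η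
        have h4 : f j s s' η ^ 2 / T s s' * AE f T H n false (j + 1) s' η *
            (T s s' * AE f T H n true (j + 1) s' η) =
            f j s s' η ^ 2 * (AE f T H n true (j + 1) s' η * AE f T H n false (j + 1) s' η) := by
          calc f j s s' η ^ 2 / T s s' * AE f T H n false (j + 1) s' η *
                (T s s' * AE f T H n true (j + 1) s' η) = (f j s s' η ^ 2 / T s s' * T s s') *
                (AE f T H n true (j + 1) s' η * AE f T H n false (j + 1) s' η) := by ring
            _ = _ := by rw [ENNReal.div_mul_cancel (hT _ _) (hT' _ _)]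
        rw [h4, mul_pow]
        exact mul_le_mul' le_rfl h2
      have h5 : y j s η ^ 2 ≤ (∑' s', f j s s' η * y (j + 1) s' η) ^ 2 :=
        pow_le_pow_left₀ zero_le (hy j (by omega) s η) 2
      refine (h5.trans h1).trans_eq ?_
      rw [AE, AE]
      simp
  have h1 := AE_int (μ := μ) hA hfm hf hT hT' hf2 hTH M true 0 s
  have h2 := AE_int (μ := μ) hA hfm hf hT hT' hf2 hTH M false 0 s
  have h3 : ∀ η, y 0 s η ≤ AE f T H M true 0 s η + AE f T H M false 0 s η := by
    intro η
    have h4 := hpt M 0 (by omega) s η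
    have h5 : AE f T H M true 0 s η * AE f T H M false 0 s η ≤
        (AE f T H M true 0 s η + AE f T H M false 0 s η) ^ 2 := by
      rw [sq]
      exact mul_le_mul' le_self_add le_add_self
    have h6 := h4.trans h5
    rwa [ENNReal.pow_le_pow_left_iff (by norm_num)] at h6
  refine (lintegral_mono h3).trans ?_
  rw [lintegral_add_left (AE_meas hfm _ _ _ _), two_mul]
  exact add_le_add h1 h2

end Pool.Agent.W_1b8d5d_p66
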