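import Pool.Agent.W_1b8d5d_p.Cross
import Pool.Agent.W_1b8d5d_p.FrX
import Pool.Agent.W_1b8d5d_p.Cut66
import Pool.Agent.W_1b8d5d_p.DPa

/-!
Track P (MP_1b8d5d_pr), section A (D7): the junction. The minimal walk meets a reference walk of the window, or a reference of its
cell is bad; a return is a loop. (helper66)
-/

namespace Pool.Agent.W_1b8d5d_p66

open MeasureTheory Set Pool.Agent.W_1b8d5d_h85 Pool.Agent.W_1b8d5d_p
open scoped ENNReal

variable {F : Fm} {d : Dr} {κ : ℝ}

/-- The cost from the position `x` at the block time `s` to the position `y` at the block time `s + n`. -/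
noncomputable def Y (F : Fm) (d : Dr) (η : Env) (s x : ℤ) (n : ℕ) (y : ℤ) : ℝ := X F d η (s, x) n (y - x)

/-- THE JUNCTION. -/
theorem junction (hd : Adm F κ d) (η : Env) (s x : ℤ) {n₁ R n₂ : ℕ} (h1 : 1 ≤ n₁) (hR : 1 ≤ R) (h2 : 1 ≤ n₂) (z : ℤ)
    (o : ℤ) {h : ℤ} (hh : 1 ≤ h) (q : ℤ → ℤ) : ∃ α : ℤ,
      (∃ p : ℤ, (p = o + α * h ∨ p = o + (α + 1) * h) ∧
        (Y F d η s x (n₁ + R) (q α) + Y F d η (s + n₁) p (R + n₂) z ≤
            Y F d η s x (n₁ + R + n₂) z + Y F d η (s + n₁) p R (q α) + 3 * KC F.co F.b ∨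
          ∃ k' : ℤ, Y F d η s x (n₁ + R) (q α) + Y F d η (s + n₁) k' (R + n₂) z +
            κ / 2 * (F.co.M * |(k' : ℝ) - p| + 2 * R) ≤
            Y F d η s x (n₁ + R + n₂) z + Y F d η (s + n₁) p R (q α) + 3 * KC F.co F.b)) ∧
      ∃ k u k' : ℤ, o + α * h ≤ u ∧ u ≤ o + (α + 1) * h ∧
        Y F d η s x n₁ k + κ * (F.co.M * |(u : ℝ) - k|) + κ * (F.co.M * |(k' : ℝ) - u|) +
          Y F d η (s + n₁) k' (R + n₂) z ≤ Y F d η s x (n₁ + R + n₂) z + KC F.co F.b := by
  have hτ := bd_tau F η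
  have hM : (1 : ℝ) ≤ F.co.M := by exact_mod_cast F.co.M_pos
  have hκ := hd.κ0
  have hb := b_pos F
  obtain ⟨k, u, v, k', X₁, X₃, c1, c2, c3, c4, -⟩ := cut3 (c := F.co) F.a0 F.ab hτ (s, x) h1 hR h2 (z - x)
  simp only at c1 c2 c3 c4
  have hz : x + (z - x) = z := by ring
  rw [hz] at c1 c4
  have hKC : 0 ≤ KC F.co F.b := by
    have := K0_pos (c := F.co)
    unfold KC
    positivity
  refine ⟨(u - o) / h, ?_, ?_⟩
  · obtain ⟨α, hα⟩ : ∃ α : ℤ, α = (u - o) / h := ⟨_, rfl⟩
    rw [← hα]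
    have hu1 : o + α * h ≤ u := by
      have := Int.ediv_mul_le (u - o) (b := h) (by omega)
      rw [hα]
      linarith
    have hu2 : u ≤ o + (α + 1) * h := by
      have := Int.lt_ediv_add_one_mul_self (u - o) (b := h) (by omega)
      rw [hα]
      linarith
    -- the crossing
    have key : ∃ p : ℤ, (p = o + α * h ∨ p = o + (α + 1) * h) ∧
        TT F.co (F.tau η) (s + n₁, p) R (v - p) + TT F.co (F.tau η) (s + n₁, u) R (q α - u) ≤
          TT F.co (F.tau η) (s + n₁, u) R (v - u) + TT F.co (F.tau η) (s + n₁, p) R (q α - p) := by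
      rcases le_total (q α) v with hv | hv
      · refine ⟨o + (α + 1) * h, Or.inr rfl, ?_⟩
        obtain ⟨p, hp⟩ : ∃ p : ℤ, p = o + (α + 1) * h := ⟨_, rfl⟩
        rw [← hp] at hu2 ⊢
        have hc := TT_cross (c := F.co) hτ F.a0 (s + n₁, u) hR (k := p - u) (y := v - u) (y' := q α - u) (by omega)
          (by omega)
        have e1 : ((s + n₁, u) : Pt) + (0, p - u) = (s + n₁, p) := by ext <;> simp
        rw [e1, show v - u - (p - u) = v - p by ring, show q α - u - (p - u) = q α - p by ring] at hc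
        linarith
      · refine ⟨o + α * h, Or.inl rfl, ?_⟩
        obtain ⟨p, hp⟩ : ∃ p : ℤ, p = o + α * h := ⟨_, rfl⟩
        rw [← hp] at hu1 ⊢
        have hc := TT_cross (c := F.co) hτ F.a0 (s + n₁, p) hR (k := u - p) (y := q α - p) (y' := v - p) (by omega)
          (by omega)
        have e1 : ((s + n₁, p) : Pt) + (0, u - p) = (s + n₁, u) := by ext <;> simp
        rw [e1, show v - p - (u - p) = v - u by ring, show q α - p - (u - p) = q α - u by ring] at hc
        linarith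
    obtain ⟨p, hp, hcr⟩ := key
    refine ⟨p, hp, ?_⟩
    have h3 := c3 (q α)
    rcases c4 with c4 | c4
    · refine Or.inl ?_
      have h4 := c4 p
      unfold Y X
      push_cast
      linarith
    · refine Or.inr ⟨k', ?_⟩
      obtain ⟨h4, h5⟩ := c4 p
      have h6 : |be F.co d * ((k' : ℝ) - p)| ≤ (F.a - κ) * F.co.M * |(k' : ℝ) - p| := by
        rw [abs_mul]
        exact mul_le_mul_of_nonneg_right hd.loop (abs_nonneg _)
      obtain ⟨h7, h8⟩ := abs_le.1 h6
      obtain ⟨P, hP⟩ : ∃ P : ℝ, P = F.co.M * |(k' : ℝ) - p| := ⟨_, rfl⟩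
      have hP0 : 0 ≤ P := by rw [hP]; positivity
      have hP' : (F.a - κ) * F.co.M * |(k' : ℝ) - p| = (F.a - κ) * P := by rw [hP]; ring
      rw [hP'] at h7 h8
      rw [← hP] at h4 ⊢
      have hR0 : (0 : ℝ) ≤ 2 * R := by positivity
      have hκa := hd.κ_lt
      -- the price of the loop
      obtain ⟨W, hW⟩ : ∃ W : ℝ, W = TT F.co (F.tau η) (s + n₁, p) R (v - p) + X₃ + KC F.co F.b -
        TT F.co (F.tau η) (s + n₁, k') (R + n₂) (z - k') := ⟨_, rfl⟩
      have w1 : F.a * P ≤ W := by rw [hW]; linarith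
      have w2 : F.a * (2 * R) ≤ W := by rw [hW]; linarith
      have w3 : κ / 2 * (P + 2 * R) + (F.a - κ) * P ≤ W := by
        rcases le_total (2 * (R : ℝ)) P with hPR | hPR
        · nlinarith
        · nlinarith [F.a0]
      unfold Y X
      push_cast
      linarith
  · refine ⟨k, u, k', ?_, ?_, ?_⟩
    · have := Int.ediv_mul_le (u - o) (b := h) (by omega)
      linarith
    · have := Int.lt_ediv_add_one_mul_self (u - o) (b := h) (by omega)
      linarith
    · have h6 : |be F.co d * ((k' : ℝ) - k)| ≤ (F.a - κ) * F.co.M * (|(u : ℝ) - k| + |(k' : ℝ) - u|) := by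
        rw [abs_mul]
        refine mul_le_mul hd.loop ?_ (abs_nonneg _) ((abs_nonneg _).trans hd.loop)
        have : (k' : ℝ) - k = ((u : ℝ) - k) + ((k' : ℝ) - u) := by ring
        rw [this]
        exact abs_add_le _ _
      obtain ⟨h7, h8⟩ := abs_le.1 h6
      unfold Y X
      push_cast
      nlinarith

end Pool.Agent.W_1b8d5d_p66
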