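import Pool.Agent.W_1b8d5d_p.DPb

/-!
Track P (MP_1b8d5d_pr), section A (D7): the recursion. States `(β, α)`: the mesh point `α` of the level (`β = true`), or the cell `α`
of the level, smeared: all positions, with a price for the distance to the cell (`β = false`). (helper66)
-/

namespace Pool.Agent.W_1b8d5d_p66

open MeasureTheory Set Pool.Agent.W_1b8d5d_h85 Pool.Agent.W_1b8d5d_p
open scoped ENNReal

variable {F : Fm} {d : Dr} {κ : ℝ}

/-- The exponential function with values in `[0, ∞]`. -/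
noncomputable def ex (t : ℝ) : ℝ≥0∞ := ENNReal.ofReal (Real.exp t)

theorem ex_add (s t : ℝ) : ex (s + t) = ex s * ex t := by
  unfold ex
  rw [Real.exp_add, ENNReal.ofReal_mul (Real.exp_pos s).le]

theorem ex_mono {s t : ℝ} (h : s ≤ t) : ex s ≤ ex t := ENNReal.ofReal_le_ofReal (Real.exp_le_exp.2 h)

theorem ex_zero : ex 0 = 1 := by unfold ex; simp

theorem ex_ne_top (t : ℝ) : ex t ≠ ∞ := ENNReal.ofReal_ne_top

theorem ex_ne_zero (t : ℝ) : ex t ≠ 0 := by
  unfold ex
  exact (ENNReal.ofReal_pos.2 (Real.exp_pos t)).ne'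

theorem ex_pow (t : ℝ) (n : ℕ) : ex t ^ n = ex (n * t) := by
  unfold ex
  rw [← ENNReal.ofReal_pow (Real.exp_pos t).le, ← Real.exp_nat_mul]

theorem ex_meas : Measurable ex := ENNReal.measurable_ofReal.comp Real.measurable_exp

/-- The distance to an interval of positions. -/
noncomputable def dst (lo hi x : ℤ) : ℝ := max 0 (max ((lo : ℝ) - x) ((x : ℝ) - hi))

theorem dst_nonneg (lo hi x : ℤ) : 0 ≤ dst lo hi x := le_max_left _ _

theorem dst_le {lo hi u x : ℤ} (h1 : lo ≤ u) (h2 : u ≤ hi) : dst lo hi x ≤ |(x : ℝ) - u| := by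
  have h1' : (lo : ℝ) ≤ u := by exact_mod_cast h1
  have h2' : (u : ℝ) ≤ hi := by exact_mod_cast h2
  unfold dst
  refine max_le (abs_nonneg _) (max_le ?_ ?_)
  · have := neg_abs_le ((x : ℝ) - u)
    linarith
  · have := le_abs_self ((x : ℝ) - u)
    linarith

theorem dst_of_mem {lo hi x : ℤ} (h1 : lo ≤ x) (h2 : x ≤ hi) : dst lo hi x = 0 := by
  have h := dst_le h1 h2 (x := x)
  rw [sub_self, abs_zero] at h
  exact le_antisymm h (dst_nonneg _ _ _)

/-- The weight of a starting position. -/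
noncomputable def ws (a : ℝ) (β : Bool) (lo hi x : ℤ) : ℝ≥0∞ :=
  if β = true then (if x = lo then 1 else 0) else ex (-(a * dst lo hi x))

/-- The parameters of the chain: the tilt `θ`, the price `a` of a lateral unit, the durations `m`, `R`, the width `h` of the cells,
the displacement `dR` of the references, the offsets `o` of the levels, the bound `ρ` of a good reference. -/
structure Pm where
  θ : ℝ
  a : ℝ
  m : ℕ
  R : ℕ
  h : ℤ
  dR : ℤ
  o : ℕ → ℤ
  ρ : ℝ

namespace Pm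

variable (P : Pm)

/-- The block time of the level `j`. -/
def lv (j : ℕ) : ℤ := (j : ℤ) * P.m

/-- The mesh points. -/
def pos (j : ℕ) (α : ℤ) : ℤ := P.o j + α * P.h

/-- The ends of the references. -/
def qq (j : ℕ) (α : ℤ) : ℤ := P.pos j (α + 1) + P.dR

theorem lv_succ (j : ℕ) : P.lv (j + 1) = P.lv j + P.m := by unfold lv; push_cast; ring

end Pm

/-- From a state to a point. -/
noncomputable def PP (F : Fm) (d : Dr) (θ a : ℝ) (β : Bool) (lo hi s : ℤ) (n : ℕ) (q : ℤ) (η : Env) : ℝ≥0∞ :=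
  ⨆ x : ℤ, ws a β lo hi x * ex (-(θ * Y F d η s x n q))

/-- From a state to a smeared cell. -/
noncomputable def RR (F : Fm) (d : Dr) (θ a : ℝ) (β : Bool) (lo hi s : ℤ) (n : ℕ) (lo' hi' : ℤ) (η : Env) : ℝ≥0∞ :=
  ⨆ x : ℤ, ⨆ k : ℤ, ws a β lo hi x * (ex (-(θ * Y F d η s x n k)) * ex (-(2 * a * dst lo' hi' k)))

/-- A reference of the cell `α` of the level `j` is bad. -/
def BE (F : Fm) (d : Dr) (P : Pm) (j : ℕ) (α : ℤ) : Set Env :=
  {η | P.ρ < Y F d η (P.lv j) (P.pos j α) P.R (P.qq j α) ∨ P.ρ < Y F d η (P.lv j) (P.pos j (α + 1)) P.R (P.qq j α)}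

/-- The factors. -/
noncomputable def ffD (F : Fm) (d : Dr) (κ : ℝ) (P : Pm) (j : ℕ) (s s' : Bool × ℤ) (η : Env) : ℝ≥0∞ :=
  if s'.1 = true then
    ex (P.θ * (3 * KC F.co F.b + P.ρ)) *
      (PP F d P.θ P.a s.1 (P.pos j s.2) (P.pos j (s.2 + 1)) (P.lv j) (P.m + P.R) (P.qq (j + 1) s'.2) η +
       PP F d P.θ P.a s.1 (P.pos j s.2) (P.pos j (s.2 + 1)) (P.lv j) (P.m + P.R) (P.qq (j + 1) (s'.2 - 1)) η)
  else
    ex (P.θ * (3 * KC F.co F.b + P.ρ) - P.θ * (κ * P.R)) *
      PP F d P.θ P.a s.1 (P.pos j s.2) (P.pos j (s.2 + 1)) (P.lv j) (P.m + P.R) (P.qq (j + 1) s'.2) η +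
    ex (P.θ * KC F.co F.b) * ((BE F d P (j + 1) s'.2).indicator (fun _ => 1) η *
      RR F d P.θ P.a s.1 (P.pos j s.2) (P.pos j (s.2 + 1)) (P.lv j) P.m (P.pos (j + 1) s'.2) (P.pos (j + 1) (s'.2 + 1)) η)

/-- The weight of the rest of the walk. -/
noncomputable def yy (F : Fm) (d : Dr) (P : Pm) (n : ℕ) (z : ℤ) (j : ℕ) (s : Bool × ℤ) (η : Env) : ℝ≥0∞ :=
  ⨆ x : ℤ, ws P.a s.1 (P.pos j s.2) (P.pos j (s.2 + 1)) x * ex (-(P.θ * Y F d η (P.lv j) x (P.m + P.R + (n - j) * P.m) z))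

/-- **THE RECURSION.** -/
theorem yy_rec (hd : Adm F κ d) (P : Pm) (hm : 1 ≤ P.m) (hR : 1 ≤ P.R) (hh : 1 ≤ P.h) (hθ : 0 ≤ P.θ)
    (ha : 2 * P.a = P.θ * (κ * F.co.M)) (n : ℕ) (z : ℤ) (j : ℕ) (hj : j < n) (s : Bool × ℤ) (η : Env) :
    yy F d P n z j s η ≤ ∑' s' : Bool × ℤ, ffD F d κ P j s s' η * yy F d P n z (j + 1) s' η := by
  have hM : (1 : ℝ) ≤ F.co.M := by exact_mod_cast F.co.M_pos
  have hκ := hd.κ0
  have ha0 : 0 ≤ P.a := by
    have : 0 ≤ P.θ * (κ * F.co.M) := by positivity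
    linarith
  unfold yy
  refine iSup_le fun x => ?_
  have hn2 : 1 ≤ (n - j) * P.m := Nat.mul_pos (by omega) hm
  obtain ⟨α, ⟨p, hp, hpp⟩, k, u, k', hu1, hu2, hb⟩ := junction hd η (P.lv j) x (n₁ := P.m) (R := P.R)
    (n₂ := (n - j) * P.m) hm hR hn2 z (P.o (j + 1)) hh (P.qq (j + 1))
  have hdur : P.R + (n - j) * P.m = P.m + P.R + (n - (j + 1)) * P.m := by
    have : n - j = (n - (j + 1)) + 1 := by omega
    rw [this]
    ring
  rw [hdur, ← P.lv_succ] at hpp hb
  have hlo : P.o (j + 1) + α * P.h = P.pos (j + 1) α := rfl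
  have hhi : P.o (j + 1) + (α + 1) * P.h = P.pos (j + 1) (α + 1) := rfl
  rw [hlo] at hp hu1
  rw [hhi] at hp hu2
  have hlohi : P.pos (j + 1) α ≤ P.pos (j + 1) (α + 1) := by
    unfold Pm.pos
    nlinarith
  obtain ⟨w, hw⟩ : ∃ w : ℝ≥0∞, w = ws P.a s.1 (P.pos j s.2) (P.pos j (s.2 + 1)) x := ⟨_, rfl⟩
  obtain ⟨T, hT⟩ : ∃ T : ℝ, T = Y F d η (P.lv j) x (P.m + P.R + (n - j) * P.m) z := ⟨_, rfl⟩
  have hT' : Y F d η (P.lv j) x (P.m + P.R + (n - j) * P.m) z = T := hT.symm
  rw [← hw, ← hT]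
  rw [hT'] at hpp hb
  by_cases hbad : η ∈ BE F d P (j + 1) α
  · -- bad reference
    refine le_trans ?_ (ENNReal.le_tsum (false, α))
    have e1 : ex (-(P.θ * T)) ≤ ex (P.θ * KC F.co F.b) * (ex (-(P.θ * Y F d η (P.lv j) x P.m k)) *
        ex (-(2 * P.a * dst (P.pos (j + 1) α) (P.pos (j + 1) (α + 1)) k))) *
        (ex (-(P.a * dst (P.pos (j + 1) α) (P.pos (j + 1) (α + 1)) k')) *
          ex (-(P.θ * Y F d η (P.lv (j + 1)) k' (P.m + P.R + (n - (j + 1)) * P.m) z))) := by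
      simp only [← ex_add]
      refine ex_mono ?_
      have h1 := dst_le hu1 hu2 (x := k)
      have h2 := dst_le hu1 hu2 (x := k')
      rw [abs_sub_comm] at h1
      have h3 := mul_le_mul_of_nonneg_left hb hθ
      have h4 : P.θ * (κ * (F.co.M * |(u : ℝ) - k|)) = 2 * P.a * |(u : ℝ) - k| := by rw [ha]; ring
      have h5 : P.θ * (κ * (F.co.M * |(k' : ℝ) - u|)) = 2 * P.a * |(k' : ℝ) - u| := by rw [ha]; ring
      have h6 : 2 * P.a * dst (P.pos (j + 1) α) (P.pos (j + 1) (α + 1)) k ≤ 2 * P.a * |(u : ℝ) - k| :=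
        mul_le_mul_of_nonneg_left h1 (by linarith)
      have h7 : P.a * dst (P.pos (j + 1) α) (P.pos (j + 1) (α + 1)) k' ≤ P.a * |(k' : ℝ) - u| :=
        mul_le_mul_of_nonneg_left h2 ha0
      have h8 : 0 ≤ P.a * |(k' : ℝ) - u| := by positivity
      simp only [mul_add] at h3
      linarith
    calc w * ex (-(P.θ * T)) ≤ w * (ex (P.θ * KC F.co F.b) * (ex (-(P.θ * Y F d η (P.lv j) x P.m k)) *
        ex (-(2 * P.a * dst (P.pos (j + 1) α) (P.pos (j + 1) (α + 1)) k))) *
        (ex (-(P.a * dst (P.pos (j + 1) α) (P.pos (j + 1) (α + 1)) k')) *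
          ex (-(P.θ * Y F d η (P.lv (j + 1)) k' (P.m + P.R + (n - (j + 1)) * P.m) z)))) := mul_le_mul' le_rfl e1
      _ = (ex (P.θ * KC F.co F.b) * (1 * (w * (ex (-(P.θ * Y F d η (P.lv j) x P.m k)) *
        ex (-(2 * P.a * dst (P.pos (j + 1) α) (P.pos (j + 1) (α + 1)) k)))))) *
        (ex (-(P.a * dst (P.pos (j + 1) α) (P.pos (j + 1) (α + 1)) k')) *
          ex (-(P.θ * Y F d η (P.lv (j + 1)) k' (P.m + P.R + (n - (j + 1)) * P.m) z))) := by ring
      _ ≤ _ := by
        refine mul_le_mul' ?_ ?_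
        · unfold ffD
          rw [if_neg (by simp)]
          refine le_trans (mul_le_mul' le_rfl (mul_le_mul' ?_ ?_)) le_add_self
          · rw [Set.indicator_of_mem hbad]
          · unfold RR
            rw [hw]
            exact le_iSup₂ (f := fun (x k : ℤ) => ws P.a s.1 (P.pos j s.2) (P.pos j (s.2 + 1)) x *
              (ex (-(P.θ * Y F d η (P.lv j) x P.m k)) *
                ex (-(2 * P.a * dst (P.pos (j + 1) α) (P.pos (j + 1) (α + 1)) k)))) x k
        · refine le_trans (le_of_eq ?_) (le_iSup (fun x : ℤ => ws P.a false (P.pos (j + 1) α) (P.pos (j + 1) (α + 1)) x *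
            ex (-(P.θ * Y F d η (P.lv (j + 1)) x (P.m + P.R + (n - (j + 1)) * P.m) z))) k')
          unfold ws
          rw [if_neg (by simp)]
  · -- good references
    have hgood : Y F d η (P.lv (j + 1)) p P.R (P.qq (j + 1) α) ≤ P.ρ := by
      unfold BE at hbad
      simp only [Set.mem_ofPred_eq, not_or, not_lt] at hbad
      rcases hp with rfl | rfl
      · exact hbad.1
      · exact hbad.2
    have hxq : w * ex (-(P.θ * Y F d η (P.lv j) x (P.m + P.R) (P.qq (j + 1) α))) ≤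
        PP F d P.θ P.a s.1 (P.pos j s.2) (P.pos j (s.2 + 1)) (P.lv j) (P.m + P.R) (P.qq (j + 1) α) η := by
      unfold PP
      rw [hw]
      exact le_iSup (fun x : ℤ => ws P.a s.1 (P.pos j s.2) (P.pos j (s.2 + 1)) x *
        ex (-(P.θ * Y F d η (P.lv j) x (P.m + P.R) (P.qq (j + 1) α)))) x
    rcases hpp with hpp | ⟨l, hpp⟩
    · -- no return
      have e1 : w * ex (-(P.θ * T)) ≤ (ex (P.θ * (3 * KC F.co F.b + P.ρ)) *
          PP F d P.θ P.a s.1 (P.pos j s.2) (P.pos j (s.2 + 1)) (P.lv j) (P.m + P.R) (P.qq (j + 1) α) η) *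
          ex (-(P.θ * Y F d η (P.lv (j + 1)) p (P.m + P.R + (n - (j + 1)) * P.m) z)) := by
        calc w * ex (-(P.θ * T)) ≤ w * (ex (P.θ * (3 * KC F.co F.b + P.ρ)) *
              ex (-(P.θ * Y F d η (P.lv j) x (P.m + P.R) (P.qq (j + 1) α))) *
              ex (-(P.θ * Y F d η (P.lv (j + 1)) p (P.m + P.R + (n - (j + 1)) * P.m) z))) := by
              refine mul_le_mul' le_rfl ?_
              simp only [← ex_add]
              refine ex_mono ?_
              have h3 := mul_le_mul_of_nonneg_left hpp hθ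
              have h4 := mul_le_mul_of_nonneg_left hgood hθ
              simp only [mul_add] at h3 ⊢
              linarith
          _ = (ex (P.θ * (3 * KC F.co F.b + P.ρ)) *
              (w * ex (-(P.θ * Y F d η (P.lv j) x (P.m + P.R) (P.qq (j + 1) α))))) *
              ex (-(P.θ * Y F d η (P.lv (j + 1)) p (P.m + P.R + (n - (j + 1)) * P.m) z)) := by ring
          _ ≤ _ := mul_le_mul' (mul_le_mul' le_rfl hxq) le_rfl
      have hyp : ∀ γ : ℤ, p = P.pos (j + 1) γ →
          ex (-(P.θ * Y F d η (P.lv (j + 1)) p (P.m + P.R + (n - (j + 1)) * P.m) z)) ≤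
          ⨆ x : ℤ, ws P.a true (P.pos (j + 1) γ) (P.pos (j + 1) (γ + 1)) x *
            ex (-(P.θ * Y F d η (P.lv (j + 1)) x (P.m + P.R + (n - (j + 1)) * P.m) z)) := by
        intro γ hγ
        refine le_trans (le_of_eq ?_) (le_iSup (fun x : ℤ => ws P.a true (P.pos (j + 1) γ) (P.pos (j + 1) (γ + 1)) x *
            ex (-(P.θ * Y F d η (P.lv (j + 1)) x (P.m + P.R + (n - (j + 1)) * P.m) z))) p)
        unfold ws
        rw [if_pos rfl, if_pos hγ, one_mul]
      rcases hp with hp | hp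
      · refine le_trans ?_ (ENNReal.le_tsum (true, α))
        refine e1.trans (mul_le_mul' ?_ (hyp α hp))
        unfold ffD
        rw [if_pos rfl]
        exact mul_le_mul' le_rfl le_self_add
      · refine le_trans ?_ (ENNReal.le_tsum (true, α + 1))
        refine e1.trans (mul_le_mul' ?_ (hyp (α + 1) hp))
        unfold ffD
        rw [if_pos rfl]
        refine mul_le_mul' le_rfl ?_
        have : (((true, α + 1) : Bool × ℤ)).2 - 1 = α := by simp
        rw [this]
        exact le_add_self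
    · -- a return
      refine le_trans ?_ (ENNReal.le_tsum (false, α))
      have hpm : P.pos (j + 1) α ≤ p ∧ p ≤ P.pos (j + 1) (α + 1) := by
        rcases hp with hp | hp
        · rw [hp]; exact ⟨le_rfl, hlohi⟩
        · rw [hp]; exact ⟨hlohi, le_rfl⟩
      calc w * ex (-(P.θ * T)) ≤ w * (ex (P.θ * (3 * KC F.co F.b + P.ρ) - P.θ * (κ * P.R)) *
            ex (-(P.θ * Y F d η (P.lv j) x (P.m + P.R) (P.qq (j + 1) α))) *
            (ex (-(P.a * dst (P.pos (j + 1) α) (P.pos (j + 1) (α + 1)) l)) *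
              ex (-(P.θ * Y F d η (P.lv (j + 1)) l (P.m + P.R + (n - (j + 1)) * P.m) z)))) := by
            refine mul_le_mul' le_rfl ?_
            simp only [← ex_add]
            refine ex_mono ?_
            have h3 := mul_le_mul_of_nonneg_left hpp hθ
            have h4 := mul_le_mul_of_nonneg_left hgood hθ
            have h5 := mul_le_mul_of_nonneg_left (dst_le hpm.1 hpm.2 (x := l)) ha0
            have h6 : P.θ * (κ / 2 * (F.co.M * |(l : ℝ) - p| + 2 * P.R)) = P.a * |(l : ℝ) - p| + P.θ * (κ * P.R) := by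
              have : P.a = P.θ * (κ * F.co.M) / 2 := by linarith
              rw [this]
              ring
            rw [mul_add, h6] at h3
            simp only [mul_add] at h3 ⊢
            linarith
        _ = (ex (P.θ * (3 * KC F.co F.b + P.ρ) - P.θ * (κ * P.R)) *
            (w * ex (-(P.θ * Y F d η (P.lv j) x (P.m + P.R) (P.qq (j + 1) α))))) *
            (ex (-(P.a * dst (P.pos (j + 1) α) (P.pos (j + 1) (α + 1)) l)) *
              ex (-(P.θ * Y F d η (P.lv (j + 1)) l (P.m + P.R + (n - (j + 1)) * P.m) z))) := by ring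
        _ ≤ _ := by
          refine mul_le_mul' ?_ ?_
          · unfold ffD
            rw [if_neg (by simp)]
            exact le_trans (mul_le_mul' le_rfl hxq) le_self_add
          · refine le_trans (le_of_eq ?_) (le_iSup (fun x : ℤ => ws P.a false (P.pos (j + 1) α)
              (P.pos (j + 1) (α + 1)) x * ex (-(P.θ * Y F d η (P.lv (j + 1)) x (P.m + P.R + (n - (j + 1)) * P.m) z))) l)
            unfold ws
            rw [if_neg (by simp)]

end Pool.Agent.W_1b8d5d_p66
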