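import Pool.Agent.W_1b8d5d_p.DPc

/-!
Track P (MP_1b8d5d_pr), section A (D7): measurability, dependence, the chain. (helper66)
-/

namespace Pool.Agent.W_1b8d5d_p66

open MeasureTheory Set Pool.Agent.W_1b8d5d_h85 Pool.Agent.W_1b8d5d_p
open scoped ENNReal

variable {F : Fm} {d : Dr} {κ : ℝ}

theorem Y_meas (s x : ℤ) (n : ℕ) (y : ℤ) : Measurable fun η => Y F d η s x n y := X_meas F d _ _ _

theorem Y_dep (s x : ℤ) (n : ℕ) (y : ℤ) : DependsOn (fun η => Y F d η s x n y) (F.co.slab s (s + n)) :=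
  X_dep F d (s, x) n (y - x)

theorem Y_eq_of {s x : ℤ} {n : ℕ} {y : ℤ} {S : Set Edge} (h : F.co.slab s (s + n) ⊆ S) {η η' : Env}
    (hh : ∀ e ∈ S, η e = η' e) : Y F d η s x n y = Y F d η' s x n y :=
  Y_dep s x n y fun e he => hh e (h he)

theorem exY_meas (θ : ℝ) (s x : ℤ) (n : ℕ) (y : ℤ) : Measurable fun η => ex (-(θ * Y F d η s x n y)) :=
  ex_meas.comp ((Y_meas s x n y).const_mul θ).neg

variable {θ a : ℝ} {β : Bool} {lo hi s q lo' hi' : ℤ} {n : ℕ}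

theorem PP_meas : Measurable (PP F d θ a β lo hi s n q) :=
  Measurable.iSup fun x => (exY_meas θ s x n q).const_mul _

theorem RR_meas : Measurable (RR F d θ a β lo hi s n lo' hi') :=
  Measurable.iSup fun x => Measurable.iSup fun k => ((exY_meas θ s x n k).mul_const _).const_mul _

theorem PP_eq_of {S : Set Edge} (h : F.co.slab s (s + n) ⊆ S) {η η' : Env} (hh : ∀ e ∈ S, η e = η' e) :
    PP F d θ a β lo hi s n q η = PP F d θ a β lo hi s n q η' := by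
  unfold PP
  refine iSup_congr fun x => ?_
  rw [Y_eq_of h hh]

theorem RR_eq_of {S : Set Edge} (h : F.co.slab s (s + n) ⊆ S) {η η' : Env} (hh : ∀ e ∈ S, η e = η' e) :
    RR F d θ a β lo hi s n lo' hi' η = RR F d θ a β lo hi s n lo' hi' η' := by
  unfold RR
  refine iSup_congr fun x => iSup_congr fun k => ?_
  rw [Y_eq_of h hh]

variable {P : Pm}

theorem BE_meas (j : ℕ) (α : ℤ) : MeasurableSet (BE F d P j α) := by
  unfold BE
  exact (measurableSet_lt measurable_const (Y_meas _ _ _ _)).union (measurableSet_lt measurable_const (Y_meas _ _ _ _))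

theorem BE_iff {S : Set Edge} {j : ℕ} {α : ℤ} (h : F.co.slab (P.lv j) (P.lv j + P.R) ⊆ S) {η η' : Env}
    (hh : ∀ e ∈ S, η e = η' e) : η ∈ BE F d P j α ↔ η' ∈ BE F d P j α := by
  unfold BE
  simp only [Set.mem_ofPred_eq]
  rw [Y_eq_of h hh, Y_eq_of h hh]

theorem ff_meas (j : ℕ) (s s' : Bool × ℤ) : Measurable (ffD F d κ P j s s') := by
  unfold ffD
  split_ifs
  · exact (PP_meas.add PP_meas).const_mul _
  · exact (PP_meas.const_mul _).add (((measurable_const.indicator (BE_meas _ _)).mul RR_meas).const_mul _)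

theorem ff_dep (j : ℕ) (s s' : Bool × ℤ) :
    DependsOn (ffD F d κ P j s s') (F.co.slab (P.lv j) (P.lv (j + 1) + P.R)) := by
  intro η η' hh
  have e1 : F.co.slab (P.lv j) (P.lv j + (P.m + P.R : ℕ)) ⊆ F.co.slab (P.lv j) (P.lv (j + 1) + P.R) := by
    refine Co.slab_mono le_rfl (le_of_eq ?_)
    rw [P.lv_succ]
    push_cast
    ring
  have e2 : F.co.slab (P.lv j) (P.lv j + P.m) ⊆ F.co.slab (P.lv j) (P.lv (j + 1) + P.R) := by
    refine Co.slab_mono le_rfl ?_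
    rw [P.lv_succ]
    have : (0 : ℤ) ≤ P.R := Int.natCast_nonneg _
    linarith
  have e3 : F.co.slab (P.lv (j + 1)) (P.lv (j + 1) + P.R) ⊆ F.co.slab (P.lv j) (P.lv (j + 1) + P.R) := by
    refine Co.slab_mono ?_ le_rfl
    rw [P.lv_succ]
    have : (0 : ℤ) ≤ P.m := Int.natCast_nonneg _
    linarith
  unfold ffD
  have e4 : (BE F d P (j + 1) s'.2).indicator (fun _ => (1 : ℝ≥0∞)) η =
      (BE F d P (j + 1) s'.2).indicator (fun _ => (1 : ℝ≥0∞)) η' := by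
    have := BE_iff (F := F) (d := d) (P := P) (j := j + 1) (α := s'.2) e3 hh
    by_cases hη : η ∈ BE F d P (j + 1) s'.2
    · rw [Set.indicator_of_mem hη, Set.indicator_of_mem (this.1 hη)]
    · rw [Set.indicator_of_notMem hη, Set.indicator_of_notMem (fun h => hη (this.2 h))]
  rw [PP_eq_of e1 hh, PP_eq_of e1 hh, RR_eq_of e2 hh, e4]

theorem slabs_disjoint (hRm : P.R ≤ P.m) (j k : ℕ) (h : j + 2 ≤ k) :
    Disjoint (F.co.slab (P.lv j) (P.lv (j + 1) + P.R)) (F.co.slab (P.lv k) (P.lv (k + 1) + P.R)) := by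
  refine Co.slab_disjoint ?_
  have h1 : ((j + 1 : ℕ) : ℤ) * P.m + P.m ≤ (k : ℤ) * P.m := by
    have h2 : ((j + 2 : ℕ) : ℤ) ≤ k := by exact_mod_cast h
    have h3 : (0 : ℤ) ≤ P.m := Int.natCast_nonneg _
    have h4 := mul_le_mul_of_nonneg_right h2 h3
    push_cast at h4 ⊢
    linarith
  have h2 : (P.R : ℤ) ≤ P.m := by exact_mod_cast hRm
  show ((j + 1 : ℕ) : ℤ) * P.m + P.R ≤ (k : ℤ) * P.m
  linarith

/-- The last piece. -/
theorem yy_last (hd : Adm F κ d) (hmR : 1 ≤ P.m + P.R) (hθ : 0 ≤ P.θ) (ha : 0 ≤ P.a) (n : ℕ) (z : ℤ)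
    (s : Bool × ℤ) (η : Env) : yy F d P n z n s η ≤ ex (P.θ * (C1 F * (P.m + P.R : ℕ))) := by
  unfold yy
  refine iSup_le fun x => ?_
  have h0 : P.m + P.R + (n - n) * P.m = P.m + P.R := by simp
  rw [h0]
  have h1 : ws P.a s.1 (P.pos n s.2) (P.pos n (s.2 + 1)) x ≤ 1 := by
    unfold ws
    split_ifs
    · exact le_rfl
    · exact zero_le_one
    · rw [← ex_zero]
      refine ex_mono ?_
      have := mul_nonneg ha (dst_nonneg (P.pos n s.2) (P.pos n (s.2 + 1)) x)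
      linarith
  have h2 : ex (-(P.θ * Y F d η (P.lv n) x (P.m + P.R) z)) ≤ ex (P.θ * (C1 F * (P.m + P.R : ℕ))) := by
    refine ex_mono ?_
    have h3 := X_lower hd η (P.lv n, x) hmR (z - x)
    have h4 : 0 ≤ κ * (F.co.M * |((z - x : ℤ) : ℝ)|) := by
      have : (1 : ℝ) ≤ F.co.M := by exact_mod_cast F.co.M_pos
      have := hd.κ0
      positivity
    have h5 : -(C1 F * (P.m + P.R : ℕ)) ≤ Y F d η (P.lv n) x (P.m + P.R) z := by
      unfold Y
      linarith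
    have := mul_le_mul_of_nonneg_left h5 hθ
    linarith
  calc _ ≤ 1 * ex (P.θ * (C1 F * (P.m + P.R : ℕ))) := mul_le_mul' h1 h2
    _ = _ := one_mul _

/-- THE CHAIN. -/
theorem chain (hd : Adm F κ d) (P : Pm) (hR : 1 ≤ P.R) (hRm : P.R ≤ P.m) (hh : 1 ≤ P.h) (hθ : 0 ≤ P.θ)
    (ha : 2 * P.a = P.θ * (κ * F.co.M)) {T : Bool × ℤ → Bool × ℤ → ℝ≥0∞} {H : Bool × ℤ → ℝ≥0∞}
    (hT : ∀ s s', T s s' ≠ 0) (hT' : ∀ s s', T s s' ≠ ∞)
    (hf2 : ∀ j s s', ∫⁻ η, ffD F d κ P j s s' η ^ 2 ∂(law F) ≤ T s s' ^ 2)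
    (hTH : ∀ s, ∑' s', T s s' * H s' ≤ H s / 2) (hH : ∀ s, 1 ≤ H s) (n : ℕ) (z : ℤ) (s : Bool × ℤ) :
    ∫⁻ η, yy F d P n z 0 s η ∂(law F) ≤ 2 * (ex (P.θ * (C1 F * (P.m + P.R : ℕ))) * H s / 2 ^ n) := by
  have hM : (1 : ℝ) ≤ F.co.M := by exact_mod_cast F.co.M_pos
  have hκ := hd.κ0
  have ha0 : 0 ≤ P.a := by
    have : 0 ≤ P.θ * (κ * F.co.M) := by positivity
    linarith
  refine chainE (ι := Edge) (S := Bool × ℤ) (μ := F.nu) (f := fun j s s' => ffD F d κ P j s s') (T := T)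
    (H := fun s => ex (P.θ * (C1 F * (P.m + P.R : ℕ))) * H s)
    (A := fun j => F.co.slab (P.lv j) (P.lv (j + 1) + P.R)) (M := n) (y := yy F d P n z)
    (fun j k h => slabs_disjoint hRm j k h) (fun j s s' => ff_meas j s s') (fun j s s' => ff_dep j s s') hT hT' hf2 ?_ ?_ ?_ s
  · intro s
    have h1 : ∀ s', T s s' * (ex (P.θ * (C1 F * (P.m + P.R : ℕ))) * H s') =
        ex (P.θ * (C1 F * (P.m + P.R : ℕ))) * (T s s' * H s') := fun s' => by ring
    simp only [h1]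
    rw [ENNReal.tsum_mul_left, mul_div_assoc]
    exact mul_le_mul' le_rfl (hTH s)
  · intro s η
    refine (yy_last hd (by omega) hθ ha0 n z s η).trans ?_
    calc _ = ex (P.θ * (C1 F * (P.m + P.R : ℕ))) * 1 := (mul_one _).symm
      _ ≤ _ := mul_le_mul' le_rfl (hH s)
  · intro j hj s η
    exact yy_rec hd P (by omega) hR hh hθ ha n z j hj s η

/-- Jensen. -/
theorem exp_neg_e_le (hd : Adm F κ d) (θ : ℝ) {N : ℕ} (hN : 1 ≤ N) (y : ℤ) {B : ℝ} (hB : 0 ≤ B)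
    (h : ∫⁻ η, ex (-(θ * X F d η 0 N y)) ∂(law F) ≤ ENNReal.ofReal B) : Real.exp (-(θ * e F d N y)) ≤ B := by
  have hX := X_integrable hd 0 hN y
  have hm : Measurable fun η => Real.exp (-(θ * X F d η 0 N y)) :=
    Real.measurable_exp.comp ((X_meas F d 0 N y).const_mul θ).neg
  have hbd : ∀ η, |X F d η 0 N y| ≤ C1 F * N + 2 * F.b * (F.co.M * |(y : ℝ)|) + 4 * F.b := fun η => abs_X_le hd η 0 hN y
  obtain ⟨K, hK⟩ : ∃ K : ℝ, K = C1 F * N + 2 * F.b * (F.co.M * |(y : ℝ)|) + 4 * F.b := ⟨_, rfl⟩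
  have hint : Integrable (fun η => Real.exp (-(θ * X F d η 0 N y))) (law F) := by
    refine (integrable_const (Real.exp (|θ| * K))).mono' hm.aestronglyMeasurable (Filter.Eventually.of_forall fun η => ?_)
    rw [Real.norm_eq_abs, abs_of_pos (Real.exp_pos _)]
    refine Real.exp_le_exp.2 ?_
    have h1 := hbd η
    rw [← hK] at h1
    calc -(θ * X F d η 0 N y) ≤ |θ * X F d η 0 N y| := neg_le_abs _
      _ = |θ| * |X F d η 0 N y| := abs_mul _ _
      _ ≤ |θ| * K := mul_le_mul_of_nonneg_left h1 (abs_nonneg _)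
  have hJ : Real.exp (∫ η, -(θ * X F d η 0 N y) ∂(law F)) ≤ ∫ η, Real.exp (-(θ * X F d η 0 N y)) ∂(law F) :=
    convexOn_exp.map_integral_le Real.continuous_exp.continuousOn isClosed_univ
      (Filter.Eventually.of_forall fun _ => Set.mem_univ _) ((hX.const_mul θ).neg) hint
  have h1 : ∫ η, -(θ * X F d η 0 N y) ∂(law F) = -(θ * e F d N y) := by
    rw [integral_neg, integral_const_mul]
    rfl
  rw [h1] at hJ
  refine hJ.trans ?_
  have h2 := ofReal_integral_eq_lintegral_ofReal hint (Filter.Eventually.of_forall fun η => (Real.exp_pos _).le)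
  have h3 : ENNReal.ofReal (∫ η, Real.exp (-(θ * X F d η 0 N y)) ∂(law F)) ≤ ENNReal.ofReal B := h2.trans_le h
  exact (ENNReal.ofReal_le_ofReal_iff hB).1 h3

/-- THE CHAIN, lower bound of the mean cost. -/
theorem chain_e (hd : Adm F κ d) (P : Pm) (hR : 1 ≤ P.R) (hRm : P.R ≤ P.m) (hh : 1 ≤ P.h) (hθ : 0 < P.θ)
    (ha : 2 * P.a = P.θ * (κ * F.co.M)) (ho : P.o 0 = 0) {T : Bool × ℤ → Bool × ℤ → ℝ≥0∞} {H : Bool × ℤ → ℝ≥0∞}
    (hT : ∀ s s', T s s' ≠ 0) (hT' : ∀ s s', T s s' ≠ ∞)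
    (hf2 : ∀ j s s', ∫⁻ η, ffD F d κ P j s s' η ^ 2 ∂(law F) ≤ T s s' ^ 2)
    (hTH : ∀ s, ∑' s', T s s' * H s' ≤ H s / 2) (hH : ∀ s, 1 ≤ H s) (hH0 : H (true, 0) = 1) (n : ℕ) (z : ℤ) :
    ((n : ℝ) - 1) * Real.log 2 / P.θ - C1 F * (P.m + P.R : ℕ) ≤ e F d (P.m + P.R + n * P.m) z := by
  have h1 := chain hd P hR hRm hh hθ.le ha hT hT' hf2 hTH hH n z (true, 0)
  obtain ⟨K, hK⟩ : ∃ K : ℝ, K = P.θ * (C1 F * (P.m + P.R : ℕ)) := ⟨_, rfl⟩
  rw [← hK, hH0, mul_one] at h1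
  have h2 : ∫⁻ η, ex (-(P.θ * X F d η 0 (P.m + P.R + n * P.m) z)) ∂(law F) ≤
      ENNReal.ofReal (Real.exp (Real.log 2 + K - n * Real.log 2)) := by
    have h3 : ∀ η, ex (-(P.θ * X F d η 0 (P.m + P.R + n * P.m) z)) ≤ yy F d P n z 0 (true, 0) η := by
      intro η
      unfold yy
      refine le_trans (le_of_eq ?_) (le_iSup (fun x : ℤ => ws P.a (true, (0 : ℤ)).1 (P.pos 0 (true, (0 : ℤ)).2)
        (P.pos 0 ((true, (0 : ℤ)).2 + 1)) x * ex (-(P.θ * Y F d η (P.lv 0) x (P.m + P.R + (n - 0) * P.m) z))) 0)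
      have e1 : P.pos 0 (true, (0 : ℤ)).2 = 0 := by
        unfold Pm.pos
        rw [ho]
        simp
      have e2 : P.lv 0 = 0 := by unfold Pm.lv; simp
      rw [e1, e2]
      unfold ws Y
      rw [if_pos rfl, if_pos rfl, one_mul, Nat.sub_zero, sub_zero]
      rfl
    refine (lintegral_mono h3).trans (h1.trans (le_of_eq ?_))
    have e3 : (2 : ℝ≥0∞) = ex (Real.log 2) := by
      unfold ex
      rw [Real.exp_log (by norm_num)]
      norm_num
    have e4 : (2 : ℝ≥0∞) ^ n = ex (n * Real.log 2) := by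
      rw [e3, ex_pow]
    rw [e4]
    rw [e3]
    show ex (Real.log 2) * (ex K / ex (n * Real.log 2)) = ex (Real.log 2 + K - n * Real.log 2)
    rw [sub_eq_add_neg, ex_add, ex_add, mul_assoc, div_eq_mul_inv]
    congr 2
    unfold ex
    rw [Real.exp_neg, ENNReal.ofReal_inv_of_pos (Real.exp_pos _)]
  have h4 := exp_neg_e_le hd P.θ (N := P.m + P.R + n * P.m) (by omega) z (Real.exp_pos _).le h2
  have h5 := Real.exp_le_exp.1 h4
  have h6 : ((n : ℝ) - 1) * Real.log 2 - K ≤ P.θ * e F d (P.m + P.R + n * P.m) z := by linarith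
  have h7 : ((n : ℝ) - 1) * Real.log 2 / P.θ - C1 F * (P.m + P.R : ℕ) = (((n : ℝ) - 1) * Real.log 2 - K) / P.θ := by
    rw [hK, sub_div, mul_div_cancel_left₀ _ hθ.ne']
  rw [h7, div_le_iff₀ hθ]
  linarith

end Pool.Agent.W_1b8d5d_p66
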