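import Pool.Agent.W_1b8d5d_p.DPd

/-!
Track P (MP_1b8d5d_pr), section A (D7): fourth moments of the smeared maxima from the bound for pairs of cells. (helper66)
-/

namespace Pool.Agent.W_1b8d5d_p66

open MeasureTheory Set Pool.Agent.W_1b8d5d_h85 Pool.Agent.W_1b8d5d_p
open scoped ENNReal

variable {F : Fm} {d : Dr} {κ : ℝ}

theorem geo_nat {κ : ℝ} (hκ : 0 < κ) (S : Finset ℕ) : ∑ n ∈ S, Real.exp (-(κ * n)) ≤ 1 + 1 / κ := by
  obtain ⟨q, hq⟩ : ∃ q : ℝ, q = Real.exp (-κ) := ⟨_, rfl⟩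
  have hq0 : 0 < q := by rw [hq]; exact Real.exp_pos _
  have hq1 : q < 1 := by rw [hq]; exact Real.exp_lt_one_iff.2 (by linarith)
  have h1 : ∀ n : ℕ, Real.exp (-(κ * n)) = q ^ n := fun n => by
    rw [hq, ← Real.exp_nat_mul]
    congr 1
    ring
  simp only [h1]
  have h2 : ∑ n ∈ S, q ^ n ≤ (1 - q)⁻¹ := by
    rw [← tsum_geometric_of_lt_one hq0.le hq1]
    exact (summable_geometric_of_lt_one hq0.le hq1).sum_le_tsum S fun n _ => pow_nonneg hq0.le n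
  refine h2.trans ?_
  have h3 : (1 + κ) * q ≤ 1 := by
    have h4 : 1 + κ ≤ Real.exp κ := by linarith [Real.add_one_le_exp κ]
    have h5 : Real.exp κ * q = 1 := by rw [hq, ← Real.exp_add]; simp
    nlinarith
  have h6 : 0 < 1 - q := by linarith
  rw [inv_le_comm₀ h6 (by positivity)]
  have h7 : (1 + 1 / κ)⁻¹ = κ / (1 + κ) := by
    field_simp
    ring
  rw [h7, div_le_iff₀ (by linarith)]
  nlinarith

theorem geo_int {κ : ℝ} (hκ : 0 < κ) (D : Finset ℤ) : ∑ δ ∈ D, Real.exp (-(κ * |(δ : ℝ)|)) ≤ 2 + 2 / κ := by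
  classical
  have h1 : ∑ δ ∈ D, Real.exp (-(κ * |(δ : ℝ)|)) = ∑ δ ∈ D.filter (fun δ => 0 ≤ δ), Real.exp (-(κ * |(δ : ℝ)|)) +
      ∑ δ ∈ D.filter (fun δ => ¬ 0 ≤ δ), Real.exp (-(κ * |(δ : ℝ)|)) :=
    (Finset.sum_filter_add_sum_filter_not _ _ _).symm
  have hcast : ∀ δ : ℤ, |(δ : ℝ)| = (δ.natAbs : ℝ) := fun δ => by
    rw [Nat.cast_natAbs, Int.cast_abs]
  have h2 : ∑ δ ∈ D.filter (fun δ => 0 ≤ δ), Real.exp (-(κ * |(δ : ℝ)|)) ≤ 1 + 1 / κ := by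
    have e1 : ∑ δ ∈ D.filter (fun δ => 0 ≤ δ), Real.exp (-(κ * |(δ : ℝ)|)) =
        ∑ n ∈ (D.filter (fun δ => 0 ≤ δ)).image Int.natAbs, Real.exp (-(κ * (n : ℝ))) := by
      rw [Finset.sum_image]
      · exact Finset.sum_congr rfl fun δ _ => by rw [hcast]
      · intro x hx y hy hxy
        have hx0 : 0 ≤ x := (Finset.mem_filter.1 hx).2
        have hy0 : 0 ≤ y := (Finset.mem_filter.1 hy).2
        omega
    rw [e1]
    exact geo_nat hκ _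
  have h3 : ∑ δ ∈ D.filter (fun δ => ¬ 0 ≤ δ), Real.exp (-(κ * |(δ : ℝ)|)) ≤ 1 + 1 / κ := by
    have e1 : ∑ δ ∈ D.filter (fun δ => ¬ 0 ≤ δ), Real.exp (-(κ * |(δ : ℝ)|)) =
        ∑ n ∈ (D.filter (fun δ => ¬ 0 ≤ δ)).image Int.natAbs, Real.exp (-(κ * (n : ℝ))) := by
      rw [Finset.sum_image]
      · exact Finset.sum_congr rfl fun δ _ => by rw [hcast]
      · intro x hx y hy hxy
        have hx0 : ¬ 0 ≤ x := (Finset.mem_filter.1 hx).2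
        have hy0 : ¬ 0 ≤ y := (Finset.mem_filter.1 hy).2
        omega
    rw [e1]
    exact geo_nat hκ _
  rw [h1]
  have h4 : (2 : ℝ) + 2 / κ = (1 + 1 / κ) + (1 + 1 / κ) := by ring
  rw [h4]
  exact add_le_add h2 h3

/-- The geometric sum over all integers, shifted. -/
theorem tsum_ex_le {κ : ℝ} (hκ : 0 < κ) (c : ℝ) (i₀ : ℤ) :
    ∑' i : ℤ, ex (c - κ * |((i - i₀ : ℤ) : ℝ)|) ≤ ex c * ENNReal.ofReal (2 + 2 / κ) := by
  have h1 : ∀ i : ℤ, ex (c - κ * |((i - i₀ : ℤ) : ℝ)|) = ex c * ex (-(κ * |((i - i₀ : ℤ) : ℝ)|)) := fun i => by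
    rw [← ex_add, sub_eq_add_neg]
  simp only [h1]
  rw [ENNReal.tsum_mul_left]
  refine mul_le_mul' le_rfl ?_
  have h2 : ∑' i : ℤ, ex (-(κ * |((i - i₀ : ℤ) : ℝ)|)) = ∑' i : ℤ, ex (-(κ * |(i : ℝ)|)) :=
    (Equiv.subRight i₀).tsum_eq fun i : ℤ => ex (-(κ * |(i : ℝ)|))
  rw [h2, ENNReal.tsum_eq_iSup_sum]
  refine iSup_le fun D => ?_
  unfold ex
  rw [← ENNReal.ofReal_sum_of_nonneg fun i _ => (Real.exp_pos _).le]
  exact ENNReal.ofReal_le_ofReal (geo_int hκ D)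

/-- The maximum over the pairs of two intervals of length `w`. -/
noncomputable def GG (F : Fm) (d : Dr) (θ : ℝ) (s x0 : ℤ) (t : ℕ) (y0 w : ℤ) (η : Env) : ℝ≥0∞ :=
  ⨆ x : ℤ, ⨆ _ : x0 ≤ x ∧ x ≤ x0 + w, ⨆ k : ℤ, ⨆ _ : y0 ≤ k ∧ k ≤ y0 + w, ex (-(θ * Y F d η s x t k))

theorem GG_meas (θ : ℝ) (s x0 : ℤ) (t : ℕ) (y0 w : ℤ) : Measurable (GG F d θ s x0 t y0 w) :=
  Measurable.iSup fun x => Measurable.iSup fun _ => Measurable.iSup fun k => Measurable.iSup fun _ => exY_meas θ s x t k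

theorem le_GG (θ : ℝ) {s x0 : ℤ} (t : ℕ) {y0 w x k : ℤ} (hx : x0 ≤ x ∧ x ≤ x0 + w) (hk : y0 ≤ k ∧ k ≤ y0 + w) (η : Env) :
    ex (-(θ * Y F d η s x t k)) ≤ GG F d θ s x0 t y0 w η :=
  le_iSup_of_le x (le_iSup_of_le hx (le_iSup_of_le k (le_iSup_of_le hk le_rfl)))

theorem GG_shift (θ : ℝ) (s x0 : ℤ) (t : ℕ) (y0 w : ℤ) (η : Env) :
    GG F d θ s x0 t y0 w η ≤ GG F d θ 0 0 t (y0 - x0) w (F.shp (s, x0) η) := by
  refine iSup_le fun x => iSup_le fun hx => iSup_le fun k => iSup_le fun hk => ?_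
  have h1 : Y F d η s x t k = Y F d (F.shp (s, x0) η) 0 (x - x0) t (k - x0) := by
    unfold Y
    rw [X_shp]
    congr 1
    · ext <;> simp
    · ring
  rw [h1]
  exact le_GG θ t ⟨by linarith [hx.1], by linarith [hx.2]⟩ ⟨by linarith [hk.1], by linarith [hk.2]⟩ _

theorem lintegral_shp {g : Env → ℝ≥0∞} (hg : Measurable g) (a : Pt) :
    ∫⁻ η, g (F.shp a η) ∂(law F) = ∫⁻ η, g η ∂(law F) := (mp_shp F a).lintegral_comp hg

theorem GG_int (θ : ℝ) (s x0 : ℤ) (t : ℕ) (y0 w : ℤ) :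
    ∫⁻ η, GG F d θ s x0 t y0 w η ^ 4 ∂(law F) ≤ ∫⁻ η, GG F d θ 0 0 t (y0 - x0) w η ^ 4 ∂(law F) := by
  rw [← lintegral_shp ((GG_meas θ 0 0 t (y0 - x0) w).pow_const 4) (s, x0)]
  exact lintegral_mono fun η => pow_le_pow_left' (GG_shift θ s x0 t y0 w η) 4

theorem iSup_pow_le {ι : Sort*} {f : ι → ℝ≥0∞} {B : ℝ≥0∞} (h : ∀ i, f i ^ 4 ≤ B) : (⨆ i, f i) ^ 4 ≤ B := by
  have h1 : ⨆ i, f i ≤ B ^ (1 / 4 : ℝ) := by
    refine iSup_le fun i => ?_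
    have h2 := ENNReal.rpow_le_rpow (h i) (show (0 : ℝ) ≤ 1 / 4 by norm_num)
    rw [← ENNReal.rpow_natCast, ← ENNReal.rpow_mul] at h2
    simpa using h2
  refine (pow_le_pow_left' h1 4).trans (le_of_eq ?_)
  rw [← ENNReal.rpow_natCast, ← ENNReal.rpow_mul]
  norm_num

/-- The smeared maximum over two cells. -/
noncomputable def SS (F : Fm) (d : Dr) (θ a : ℝ) (h : ℤ) (s lo : ℤ) (t : ℕ) (lo' : ℤ) (η : Env) : ℝ≥0∞ :=
  ⨆ x : ℤ, ⨆ k : ℤ, ex (-(a * dst lo (lo + h) x)) * (ex (-(θ * Y F d η s x t k)) * ex (-(a * dst lo' (lo' + h) k)))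

theorem SS_meas (θ a : ℝ) (h s lo : ℤ) (t : ℕ) (lo' : ℤ) : Measurable (SS F d θ a h s lo t lo') :=
  Measurable.iSup fun x => Measurable.iSup fun k => ((exY_meas θ s x t k).mul_const _).const_mul _

theorem dst_cell {h : ℤ} (hh : 1 ≤ h) (lo x : ℤ) : (h : ℝ) * (|(((x - lo) / h : ℤ) : ℝ)| - 1) ≤ dst lo (lo + h) x := by
  obtain ⟨i, hi⟩ : ∃ i : ℤ, i = (x - lo) / h := ⟨_, rfl⟩
  rw [← hi]
  have h1 : i * h ≤ x - lo := by
    rw [hi]
    exact Int.ediv_mul_le _ (by omega)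
  have h2 : x - lo < (i + 1) * h := by
    rw [hi]
    exact Int.lt_ediv_add_one_mul_self _ (by omega)
  have h1' : (i : ℝ) * h ≤ (x : ℝ) - lo := by exact_mod_cast h1
  have h2' : (x : ℝ) - lo < ((i : ℝ) + 1) * h := by exact_mod_cast h2
  have hh' : (1 : ℝ) ≤ h := by exact_mod_cast hh
  unfold dst
  rcases le_total 0 (i : ℝ) with hi0 | hi0
  · rw [abs_of_nonneg hi0]
    refine le_max_of_le_right (le_max_of_le_right ?_)
    push_cast
    nlinarith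
  · rw [abs_of_nonpos hi0]
    refine le_max_of_le_right (le_max_of_le_left ?_)
    nlinarith

/-- **The fourth moment of a smeared maximum.** -/
theorem SS_mom {θ a B : ℝ} {h Q : ℕ} (hh : 1 ≤ h) (hQ : 2 ≤ Q) (ha : 5 / 4 ≤ a * h) {t : ℕ}
    (hEL : ∀ y0 : ℤ, ∫⁻ η, GG F d θ 0 0 t y0 ((Q * h : ℕ) : ℤ) η ^ 4 ∂(law F) ≤
      ex (4 * (B - |(y0 : ℝ) - d.v * t| / (Q * h : ℕ)))) (s lo lo' : ℤ) :
    ∫⁻ η, SS F d θ a h s lo t lo' η ^ 4 ∂(law F) ≤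
      ex (4 * (B + 3 - |(lo' : ℝ) - lo - d.v * t| / (Q * h : ℕ))) := by
  have hh' : (1 : ℝ) ≤ h := by exact_mod_cast hh
  have hQ' : (2 : ℝ) ≤ Q := by exact_mod_cast hQ
  have hhz : (1 : ℤ) ≤ h := by exact_mod_cast hh
  have hw : (0 : ℝ) < ((Q * h : ℕ) : ℝ) := by push_cast; positivity
  have hwh : (h : ℝ) / ((Q * h : ℕ) : ℝ) ≤ 1 / 2 := by
    rw [div_le_div_iff₀ hw (by norm_num)]
    push_cast
    nlinarith
  have hwz : (h : ℤ) ≤ ((Q * h : ℕ) : ℤ) := by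
    have : h ≤ Q * h := Nat.le_mul_of_pos_left h (by omega)
    exact_mod_cast this
  have ha0 : 0 < a := by
    by_contra hc
    have : a * h ≤ 0 := mul_nonpos_of_nonpos_of_nonneg (not_lt.1 hc) (by linarith)
    linarith
  -- the price of a cell
  have hprice : ∀ lo x : ℤ, ex (-(a * dst lo (lo + h) x)) ^ 4 ≤ ex (5 - 5 * |(((x - lo) / h : ℤ) : ℝ)|) := by
    intro lo x
    rw [ex_pow]
    refine ex_mono ?_
    have h1 := dst_cell hhz lo x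
    have h0 := dst_nonneg lo (lo + h) x
    push_cast at h1 ⊢
    obtain ⟨i, hi⟩ : ∃ i : ℝ, i = |(((x - lo) / h : ℤ) : ℝ)| := ⟨_, rfl⟩
    rw [← hi] at h1 ⊢
    have h2 : 5 / 4 * dst lo (lo + h) x ≤ a * h * dst lo (lo + h) x := mul_le_mul_of_nonneg_right ha h0
    have h3 : 5 / 4 * ((h : ℝ) * (i - 1)) ≤ 5 / 4 * dst lo (lo + h) x := by linarith
    have h4 : (h : ℝ) * (5 / 4 * (i - 1)) ≤ h * (a * dst lo (lo + h) x) := by linarith
    have h5 := le_of_mul_le_mul_left h4 (by linarith)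
    linarith
  have hpt : ∀ η, SS F d θ a h s lo t lo' η ^ 4 ≤ ∑' p : ℤ × ℤ, ex (5 - 5 * |(p.1 : ℝ)|) *
      (ex (5 - 5 * |(p.2 : ℝ)|) * GG F d θ s (lo + p.1 * h) t (lo' + p.2 * h) ((Q * h : ℕ) : ℤ) η ^ 4) := by
    intro η
    refine iSup_pow_le fun x => iSup_pow_le fun k => ?_
    refine le_trans ?_ (ENNReal.le_tsum ((x - lo) / h, (k - lo') / h))
    rw [mul_pow, mul_pow]
    have h1 : lo + (x - lo) / h * h ≤ x := by
      have := Int.ediv_mul_le (x - lo) (b := (h : ℤ)) (by omega)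
      linarith
    have h2 : x ≤ lo + (x - lo) / h * h + ((Q * h : ℕ) : ℤ) := by
      have := Int.lt_ediv_add_one_mul_self (x - lo) (b := (h : ℤ)) (by omega)
      linarith
    have h3 : lo' + (k - lo') / h * h ≤ k := by
      have := Int.ediv_mul_le (k - lo') (b := (h : ℤ)) (by omega)
      linarith
    have h4 : k ≤ lo' + (k - lo') / h * h + ((Q * h : ℕ) : ℤ) := by
      have := Int.lt_ediv_add_one_mul_self (k - lo') (b := (h : ℤ)) (by omega)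
      linarith
    refine mul_le_mul' (hprice lo x) ?_
    rw [mul_comm]
    exact mul_le_mul' (hprice lo' k) (pow_le_pow_left' (le_GG θ t ⟨h1, h2⟩ ⟨h3, h4⟩ η) 4)
  refine (lintegral_mono hpt).trans ?_
  rw [lintegral_tsum fun p => (((GG_meas θ s _ t _ _).pow_const 4).const_mul _).const_mul _ |>.aemeasurable]
  have hterm : ∀ p : ℤ × ℤ, ∫⁻ η, ex (5 - 5 * |(p.1 : ℝ)|) * (ex (5 - 5 * |(p.2 : ℝ)|) *
      GG F d θ s (lo + p.1 * h) t (lo' + p.2 * h) ((Q * h : ℕ) : ℤ) η ^ 4) ∂(law F) ≤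
      ex (4 * (B - |(lo' : ℝ) - lo - d.v * t| / (Q * h : ℕ))) *
        (ex (5 - 3 * |((p.1 - 0 : ℤ) : ℝ)|) * ex (5 - 3 * |((p.2 - 0 : ℤ) : ℝ)|)) := by
    intro p
    rw [lintegral_const_mul _ (((GG_meas θ s _ t _ _).pow_const 4).const_mul _),
      lintegral_const_mul _ ((GG_meas θ s _ t _ _).pow_const 4)]
    refine (mul_le_mul' le_rfl (mul_le_mul' le_rfl ((GG_int θ s _ t _ _).trans (hEL _)))).trans ?_
    simp only [← ex_add]
    refine ex_mono ?_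
    obtain ⟨D, hD⟩ : ∃ D : ℝ, D = |(lo' : ℝ) - lo - d.v * t| / (Q * h : ℕ) := ⟨_, rfl⟩
    rw [← hD]
    have e1 : D - (|(p.1 : ℝ)| + |(p.2 : ℝ)|) / 2 ≤
        |((lo' + p.2 * h - (lo + p.1 * h) : ℤ) : ℝ) - d.v * t| / (Q * h : ℕ) := by
      have e2 : |(lo' : ℝ) - lo - d.v * t| ≤ |((lo' + p.2 * h - (lo + p.1 * h) : ℤ) : ℝ) - d.v * t| +
          (|(p.1 : ℝ)| + |(p.2 : ℝ)|) * h := by
        have e3 : (lo' : ℝ) - lo - d.v * t = (((lo' + p.2 * h - (lo + p.1 * h) : ℤ) : ℝ) - d.v * t) +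
            ((p.1 : ℝ) * h - p.2 * h) := by
          push_cast
          ring
        rw [e3]
        refine (abs_add_le _ _).trans (add_le_add le_rfl ?_)
        refine (abs_sub _ _).trans (le_of_eq ?_)
        rw [abs_mul, abs_mul, abs_of_nonneg (show (0 : ℝ) ≤ h by linarith)]
        ring
      have e4 := div_le_div_of_nonneg_right e2 hw.le
      rw [add_div, mul_div_assoc] at e4
      have e5 : (|(p.1 : ℝ)| + |(p.2 : ℝ)|) * ((h : ℝ) / (Q * h : ℕ)) ≤ (|(p.1 : ℝ)| + |(p.2 : ℝ)|) * (1 / 2) :=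
        mul_le_mul_of_nonneg_left hwh (by positivity)
      rw [hD]
      linarith
    have := abs_nonneg (p.1 : ℝ)
    have := abs_nonneg (p.2 : ℝ)
    simp only [sub_zero]
    linarith
  refine (ENNReal.tsum_le_tsum hterm).trans ?_
  rw [ENNReal.tsum_mul_left, ENNReal.tsum_prod' (f := fun p : ℤ × ℤ =>
    ex (5 - 3 * |((p.1 - 0 : ℤ) : ℝ)|) * ex (5 - 3 * |((p.2 - 0 : ℤ) : ℝ)|))]
  simp only [ENNReal.tsum_mul_left]
  rw [ENNReal.tsum_mul_right]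
  have hone : ∑' i : ℤ, ex (5 - 3 * |((i - 0 : ℤ) : ℝ)|) ≤ ex 6 := by
    refine (tsum_ex_le (by norm_num) 5 0).trans ?_
    have h1 : ENNReal.ofReal (2 + 2 / 3) ≤ ex 1 := by
      refine ENNReal.ofReal_le_ofReal ?_
      have := Real.exp_one_gt_d9
      norm_num at this ⊢
      linarith
    refine (mul_le_mul' le_rfl h1).trans (le_of_eq ?_)
    rw [← ex_add]
    norm_num
  refine (mul_le_mul' le_rfl (mul_le_mul' hone hone)).trans (le_of_eq ?_)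
  simp only [← ex_add]
  congr 1
  ring

end Pool.Agent.W_1b8d5d_p66
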