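import Pool.Agent.W_1b8d5d_p.DPe

/-!
Track P (MP_1b8d5d_pr), section A (D7): the second moments of the factors. (helper66)
-/

namespace Pool.Agent.W_1b8d5d_p66

open MeasureTheory Set Pool.Agent.W_1b8d5d_h85 Pool.Agent.W_1b8d5d_p
open scoped ENNReal

variable {F : Fm} {d : Dr} {κ : ℝ}

theorem ex_rpow_half (t : ℝ) : ex (2 * t) ^ (1 / 2 : ℝ) = ex t := by
  have h : ex (2 * t) = ex t ^ 2 := by rw [ex_pow]; norm_num
  rw [h, ← ENNReal.rpow_natCast, ← ENNReal.rpow_mul]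
  norm_num

/-- Cauchy - Schwarz. -/
theorem cs4 {g f : Env → ℝ≥0∞} (hg : Measurable g) (hf : Measurable f) {p u : ℝ}
    (h1 : ∫⁻ η, g η ^ 2 ∂(law F) ≤ ex (2 * p)) (h2 : ∫⁻ η, f η ^ 4 ∂(law F) ≤ ex (4 * u)) :
    ∫⁻ η, g η * f η ^ 2 ∂(law F) ≤ ex (p + 2 * u) := by
  have h3 := ENNReal.lintegral_mul_le_Lp_mul_Lq (law F) Real.HolderConjugate.two_two hg.aemeasurable
    (hf.pow_const 2).aemeasurable
  have e1 : ∫⁻ η, (g * fun x => f x ^ 2) η ∂(law F) = ∫⁻ η, g η * f η ^ 2 ∂(law F) := rfl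
  have e2 : ∀ η, g η ^ (2 : ℝ) = g η ^ 2 := fun η => by rw [← ENNReal.rpow_natCast]; norm_num
  have e3 : ∀ η, (f η ^ 2) ^ (2 : ℝ) = f η ^ 4 := fun η => by
    rw [← ENNReal.rpow_natCast, ← ENNReal.rpow_natCast, ← ENNReal.rpow_mul]
    norm_num
  simp only [e2, e3] at h3
  rw [e1] at h3
  refine h3.trans ?_
  rw [ex_add]
  refine mul_le_mul' ?_ ?_
  · rw [← ex_rpow_half p]
    exact ENNReal.rpow_le_rpow h1 (by norm_num)
  · rw [← ex_rpow_half (2 * u)]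
    refine ENNReal.rpow_le_rpow (h2.trans (le_of_eq ?_)) (by norm_num)
    congr 1
    ring

theorem sq_of_four {f : Env → ℝ≥0∞} (hf : Measurable f) {u : ℝ} (h2 : ∫⁻ η, f η ^ 4 ∂(law F) ≤ ex (4 * u)) :
    ∫⁻ η, f η ^ 2 ∂(law F) ≤ ex (2 * u) := by
  have h := cs4 (F := F) (g := fun _ => 1) (p := 0) measurable_const hf (by simp [ex_zero]) h2
  simpa using h

theorem add_sq_le4 (x y : ℝ≥0∞) : (x + y) ^ 2 ≤ 4 * (x ^ 2 + y ^ 2) := by
  have h4 : (4 : ℝ≥0∞) = 2 ^ 2 := by norm_num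
  rcases le_total x y with h | h
  · calc (x + y) ^ 2 ≤ (y + y) ^ 2 := pow_le_pow_left' (add_le_add h le_rfl) 2
      _ = 4 * y ^ 2 := by rw [← two_mul, mul_pow, h4]
      _ ≤ _ := mul_le_mul' le_rfl le_add_self
  · calc (x + y) ^ 2 ≤ (x + x) ^ 2 := pow_le_pow_left' (add_le_add le_rfl h) 2
      _ = 4 * x ^ 2 := by rw [← two_mul, mul_pow, h4]
      _ ≤ _ := mul_le_mul' le_rfl le_self_add

theorem four_le : (4 : ℝ≥0∞) ≤ ex 2 := by
  have h1 : (4 : ℝ≥0∞) = ENNReal.ofReal 4 := by norm_num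
  rw [h1]
  refine ENNReal.ofReal_le_ofReal ?_
  have h2 := Real.exp_one_gt_d9
  have h3 : Real.exp 2 = Real.exp 1 * Real.exp 1 := by rw [← Real.exp_add]; norm_num
  rw [h3]
  norm_num at h2
  nlinarith

theorem two_ex_le (t : ℝ) : ex t + ex t ≤ ex (t + 1) := by
  have h1 : (2 : ℝ≥0∞) ≤ ex 1 := by
    have h1 : (2 : ℝ≥0∞) = ENNReal.ofReal 2 := by norm_num
    rw [h1]
    refine ENNReal.ofReal_le_ofReal ?_
    have h2 := Real.exp_one_gt_d9
    norm_num at h2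
    linarith
  rw [ex_add, ← two_mul, mul_comm]
  exact mul_le_mul' le_rfl h1

variable {θ a : ℝ} {β : Bool} {s lo q lo' : ℤ} {n h : ℕ}

theorem ws_le (ha : 0 ≤ a) {hi x : ℤ} (hh : lo ≤ hi) : ws a β lo hi x ≤ ex (-(a * dst lo hi x)) := by
  unfold ws
  split_ifs with h1 h2
  · rw [h2, dst_of_mem le_rfl hh, mul_zero, neg_zero, ex_zero]
  · exact zero_le
  · exact le_rfl

theorem PP_le_SS (ha : 0 ≤ a) (η : Env) :
    PP F d θ a β lo (lo + h) s n q η ≤ SS F d θ a h s lo n q η := by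
  refine iSup_le fun x => ?_
  refine le_iSup_of_le x (le_iSup_of_le q ?_)
  refine mul_le_mul' (ws_le ha (by omega)) ?_
  rw [dst_of_mem (lo := q) (hi := q + h) le_rfl (by omega), mul_zero, neg_zero, ex_zero, mul_one]

theorem RR_le_SS (ha : 0 ≤ a) (η : Env) :
    RR F d θ a β lo (lo + h) s n lo' (lo' + h) η ≤ SS F d θ a h s lo n lo' η := by
  refine iSup_le fun x => iSup_le fun k => ?_
  refine le_iSup_of_le x (le_iSup_of_le k ?_)
  refine mul_le_mul' (ws_le ha (by omega)) (mul_le_mul' le_rfl (ex_mono ?_))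
  have := mul_nonneg ha (dst_nonneg lo' (lo' + h) k)
  linarith

/-- THE DATA OF A SCALE at which nothing fluctuates and the cost of the cheapest displacement grows. -/
structure Sc (F : Fm) (κ : ℝ) (d : Dr) (m R h Q : ℕ) (dR : ℤ) (E e₁ e₂ s₀ A B K ε ω : ℝ) : Prop where
  adm : Adm F κ d
  R1 : 1 ≤ R
  Rm : R ≤ m
  h1 : 1 ≤ h
  E0 : 0 < E
  /-- the constants are small against the unit -/
  kc : A * (3 * KC F.co F.b) ≤ E
  /-- the cells are wide against the unit -/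
  lat : 5 / 2 * E ≤ A * (κ * F.co.M) * h
  /-- the windows are long against the unit -/
  lev : (2 * (A + 2) + ω) * E ≤ 2 * (A * (κ * R))
  unit : e₁ ≤ E
  grow : e₁ + s₀ * E ≤ e₂
  ref1 : (law F).real {η | e₁ + ε * E < X F d η 0 R dR} ≤ ε
  ref2 : (law F).real {η | e₁ + ε * E < X F d η 0 R (dR + h)} ≤ ε
  piece : ∀ y : ℤ, (law F).real {η | X F d η 0 (m + R) y < e₂ - ε * E} ≤ ε
  drift : |(dR : ℝ) - d.v * R| ≤ K * (Q * h : ℕ)
  el1 : ∀ y0 : ℤ, ∫⁻ η, GG F d (A / E) 0 0 m y0 ((Q * h : ℕ) : ℤ) η ^ 4 ∂(law F) ≤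
    ex (4 * (B - |(y0 : ℝ) - d.v * m| / (Q * h : ℕ)))
  el2 : ∀ y0 : ℤ, ∫⁻ η, GG F d (A / E) 0 0 (m + R) y0 ((Q * h : ℕ) : ℤ) η ^ 4 ∂(law F) ≤
    ex (4 * (B - |(y0 : ℝ) - d.v * (m + R : ℕ)| / (Q * h : ℕ)))

/-- The parameters of the chain. -/
noncomputable def pm (F : Fm) (κ : ℝ) (d : Dr) (m R h : ℕ) (dR : ℤ) (E e₁ A ε : ℝ) : Pm where
  θ := A / E
  a := A / E * (κ * F.co.M) / 2
  m := m
  R := R
  h := h
  dR := dR
  o := fun j => ⌊d.v * ((j : ℝ) * m)⌋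
  ρ := e₁ + ε * E

variable {m R Q : ℕ} {dR : ℤ} {E e₁ e₂ s₀ A B K ε ω : ℝ}

theorem pm_o (j : ℕ) : |(((pm F κ d m R h dR E e₁ A ε).o (j + 1) : ℤ) : ℝ) - ((pm F κ d m R h dR E e₁ A ε).o j : ℤ) -
    d.v * m| ≤ 1 := by
  show |((⌊d.v * (((j + 1 : ℕ) : ℝ) * m)⌋ : ℤ) : ℝ) - (⌊d.v * ((j : ℝ) * m)⌋ : ℤ) - d.v * m| ≤ 1
  have h1 := Int.floor_le (d.v * (((j + 1 : ℕ) : ℝ) * m))
  have h2 := Int.lt_floor_add_one (d.v * (((j + 1 : ℕ) : ℝ) * m))
  have h3 := Int.floor_le (d.v * ((j : ℝ) * m))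
  have h4 := Int.lt_floor_add_one (d.v * ((j : ℝ) * m))
  have h5 : d.v * (((j + 1 : ℕ) : ℝ) * m) = d.v * ((j : ℝ) * m) + d.v * m := by push_cast; ring
  rw [h5] at h1 h2 ⊢
  rw [abs_le]
  constructor <;> linarith

theorem pos_succ (P : Pm) (j : ℕ) (α : ℤ) : P.pos j (α + 1) = P.pos j α + P.h := by
  unfold Pm.pos
  ring

theorem div_dist (hh : 1 ≤ h) (hQ : 2 ≤ Q) {x : ℝ} {k δ : ℤ} {r c : ℝ} (hk : |(k : ℝ)| ≥ |(δ : ℝ)| - 1)
    (hx : x = k * h + r) (hr : |r| ≤ 1 + c * (Q * h : ℕ)) : |(δ : ℝ)| / Q - 2 - c ≤ |x| / (Q * h : ℕ) := by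
  have hh' : (1 : ℝ) ≤ h := by exact_mod_cast hh
  have hQ' : (2 : ℝ) ≤ Q := by exact_mod_cast hQ
  have hw : (0 : ℝ) < ((Q * h : ℕ) : ℝ) := by push_cast; positivity
  rw [le_div_iff₀ hw]
  have h1 : |(k : ℝ) * h| - |r| ≤ |x| := by
    rw [hx]
    have := abs_sub_abs_le_abs_sub ((k : ℝ) * h) (-r)
    rw [abs_neg, sub_neg_eq_add] at this
    exact this
  rw [abs_mul, abs_of_nonneg (show (0 : ℝ) ≤ h by linarith)] at h1
  have h2 : (|(δ : ℝ)| - 1) * h ≤ |(k : ℝ)| * h := mul_le_mul_of_nonneg_right hk (by linarith)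
  have h3 : |(δ : ℝ)| / Q * ((Q * h : ℕ) : ℝ) = |(δ : ℝ)| * h := by
    push_cast
    field_simp
  have h4 : (1 : ℝ) + h ≤ 2 * ((Q * h : ℕ) : ℝ) := by
    push_cast
    nlinarith
  have h5 : (|(δ : ℝ)| / Q - 2 - c) * ((Q * h : ℕ) : ℝ) = |(δ : ℝ)| / Q * ((Q * h : ℕ) : ℝ) - 2 * ((Q * h : ℕ) : ℝ) -
      c * ((Q * h : ℕ) : ℝ) := by ring
  rw [h5, h3]
  linarith

namespace Sc

variable (S : Sc F κ d m R h Q dR E e₁ e₂ s₀ A B K ε ω)

include S

theorem a_eq : 2 * (pm F κ d m R h dR E e₁ A ε).a = (pm F κ d m R h dR E e₁ A ε).θ * (κ * F.co.M) := by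
  show 2 * (A / E * (κ * F.co.M) / 2) = A / E * (κ * F.co.M)
  ring

theorem a_h : 5 / 4 ≤ (pm F κ d m R h dR E e₁ A ε).a * h := by
  show 5 / 4 ≤ A / E * (κ * F.co.M) / 2 * h
  have h1 := S.lat
  have h2 := S.E0
  have h3 : A / E * (κ * F.co.M) / 2 * h = A * (κ * F.co.M) * h / (2 * E) := by field_simp
  rw [h3, le_div_iff₀ (by positivity)]
  linarith

theorem a_nonneg : 0 ≤ (pm F κ d m R h dR E e₁ A ε).a := by
  have h1 := S.a_h
  have h2 : (1 : ℝ) ≤ h := by exact_mod_cast S.h1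
  by_contra hc
  have : (pm F κ d m R h dR E e₁ A ε).a * h ≤ 0 := mul_nonpos_of_nonpos_of_nonneg (not_le.1 hc).le (by linarith)
  linarith

/-- The fourth moment of a transition to a point. -/
theorem PP4 (hQ : 2 ≤ Q) (β : Bool) (j : ℕ) (σ α : ℤ) (i : ℤ) (hi : i = 0 ∨ i = 1) :
    ∫⁻ η, PP F d (A / E) (pm F κ d m R h dR E e₁ A ε).a β ((pm F κ d m R h dR E e₁ A ε).pos j σ)
      ((pm F κ d m R h dR E e₁ A ε).pos j (σ + 1)) ((pm F κ d m R h dR E e₁ A ε).lv j) (m + R)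
      ((pm F κ d m R h dR E e₁ A ε).qq (j + 1) (α - i)) η ^ 4 ∂(law F) ≤
      ex (4 * (B + 5 + K - |((α - σ : ℤ) : ℝ)| / Q)) := by
  obtain ⟨P, hP⟩ : ∃ P : Pm, P = pm F κ d m R h dR E e₁ A ε := ⟨_, rfl⟩
  have hPh : P.h = h := by rw [hP]; rfl
  have hdR : P.dR = dR := by rw [hP]; rfl
  have ho := pm_o (F := F) (κ := κ) (d := d) (m := m) (R := R) (h := h) (dR := dR) (E := E) (e₁ := e₁) (A := A)
    (ε := ε) j
  have hah := S.a_h
  have ha0 := S.a_nonneg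
  rw [← hP] at ho hah ha0 ⊢
  rw [pos_succ, hPh]
  refine (lintegral_mono fun η => pow_le_pow_left' (PP_le_SS ha0 η) 4).trans ?_
  refine (SS_mom S.h1 hQ hah S.el2 _ _ _).trans (ex_mono ?_)
  have h1 : |((α - σ : ℤ) : ℝ)| / Q - 2 - K ≤
      |((P.qq (j + 1) (α - i) : ℤ) : ℝ) - (P.pos j σ : ℤ) - d.v * (m + R : ℕ)| / (Q * h : ℕ) := by
    refine div_dist S.h1 hQ (k := α - i + 1 - σ) (δ := α - σ)
      (r := ((P.o (j + 1) : ℤ) : ℝ) - (P.o j : ℤ) - d.v * m + ((dR : ℝ) - d.v * R)) ?_ ?_ ?_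
    · rcases hi with rfl | rfl
      · have : ((α - σ : ℤ) : ℝ) = ((α - 0 + 1 - σ : ℤ) : ℝ) - 1 := by push_cast; ring
        rw [this]
        have := abs_sub ((α - 0 + 1 - σ : ℤ) : ℝ) 1
        rw [abs_one] at this
        linarith
      · have : ((α - 1 + 1 - σ : ℤ) : ℝ) = ((α - σ : ℤ) : ℝ) := by push_cast; ring
        rw [this]
        linarith
    · unfold Pm.qq Pm.pos
      rw [hPh, hdR]
      push_cast
      ring
    · refine (abs_add_le _ _).trans (add_le_add ho S.drift)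
  linarith

/-- The fourth moment of a transition to a cell. -/
theorem RR4 (hQ : 2 ≤ Q) (hK : 0 ≤ K) (β : Bool) (j : ℕ) (σ α : ℤ) :
    ∫⁻ η, RR F d (A / E) (pm F κ d m R h dR E e₁ A ε).a β ((pm F κ d m R h dR E e₁ A ε).pos j σ)
      ((pm F κ d m R h dR E e₁ A ε).pos j (σ + 1)) ((pm F κ d m R h dR E e₁ A ε).lv j) m
      ((pm F κ d m R h dR E e₁ A ε).pos (j + 1) α) ((pm F κ d m R h dR E e₁ A ε).pos (j + 1) (α + 1)) η ^ 4 ∂(law F) ≤
      ex (4 * (B + 5 + K - |((α - σ : ℤ) : ℝ)| / Q)) := by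
  obtain ⟨P, hP⟩ : ∃ P : Pm, P = pm F κ d m R h dR E e₁ A ε := ⟨_, rfl⟩
  have hPh : P.h = h := by rw [hP]; rfl
  have ho := pm_o (F := F) (κ := κ) (d := d) (m := m) (R := R) (h := h) (dR := dR) (E := E) (e₁ := e₁) (A := A)
    (ε := ε) j
  have hah := S.a_h
  have ha0 := S.a_nonneg
  rw [← hP] at ho hah ha0 ⊢
  rw [pos_succ, pos_succ, hPh]
  refine (lintegral_mono fun η => pow_le_pow_left' (RR_le_SS ha0 η) 4).trans ?_
  refine (SS_mom S.h1 hQ hah S.el1 _ _ _).trans (ex_mono ?_)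
  have h1 : |((α - σ : ℤ) : ℝ)| / Q - 2 - 0 ≤
      |((P.pos (j + 1) α : ℤ) : ℝ) - (P.pos j σ : ℤ) - d.v * m| / (Q * h : ℕ) := by
    refine div_dist S.h1 hQ (k := α - σ) (δ := α - σ) (r := ((P.o (j + 1) : ℤ) : ℝ) - (P.o j : ℤ) - d.v * m) ?_ ?_ ?_
    · linarith
    · unfold Pm.pos
      rw [hPh]
      push_cast
      ring
    · rw [zero_mul, add_zero]
      exact ho
  linarith

/-- The probability of a bad reference. -/
theorem bad_le (hε : 2 * ε ≤ Real.exp (-(2 * ω))) (j : ℕ) (α : ℤ) :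
    (law F) (BE F d (pm F κ d m R h dR E e₁ A ε) j α) ≤ ex (2 * -ω) := by
  obtain ⟨P, hP⟩ : ∃ P : Pm, P = pm F κ d m R h dR E e₁ A ε := ⟨_, rfl⟩
  have hPh : P.h = h := by rw [hP]; rfl
  have hdR : P.dR = dR := by rw [hP]; rfl
  have hρ : P.ρ = e₁ + ε * E := by rw [hP]; rfl
  have hPR : P.R = R := by rw [hP]; rfl
  rw [← hP]
  have hone : ∀ (p y : ℤ), (law F).real {η | e₁ + ε * E < X F d η 0 R y} ≤ ε →
      (law F).real {η | e₁ + ε * E < Y F d η (P.lv j) p R (p + y)} ≤ ε := by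
    intro p y hy
    have h1 : {η | e₁ + ε * E < Y F d η (P.lv j) p R (p + y)} = {η | F.shp (P.lv j, p) η ∈
        {η | e₁ + ε * E < X F d η 0 R y}} := by
      ext η
      simp only [Set.mem_ofPred_eq]
      rw [X_shp, zero_add]
      unfold Y
      rw [add_sub_cancel_left]
    rw [h1, shp_real (measurableSet_lt measurable_const (X_meas F d 0 R y))]
    exact hy
  have e1 : P.qq j α = P.pos j α + (dR + h) := by
    unfold Pm.qq
    rw [pos_succ, hPh, hdR]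
    ring
  have e2 : P.qq j α = P.pos j (α + 1) + dR := by
    unfold Pm.qq
    rw [hdR]
  have h1 := hone (P.pos j α) (dR + h) S.ref2
  have h2 := hone (P.pos j (α + 1)) dR S.ref1
  rw [← e1] at h1
  rw [← e2] at h2
  have h3 : (law F).real (BE F d P j α) ≤ ε + ε := by
    unfold BE
    rw [hρ, hPR]
    exact (measureReal_union_le _ _).trans (add_le_add h1 h2)
  rw [← ofReal_measureReal]
  unfold ex
  refine ENNReal.ofReal_le_ofReal (h3.trans ?_)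
  rw [show 2 * -ω = -(2 * ω) by ring]
  linarith

theorem ind2 (hε : 2 * ε ≤ Real.exp (-(2 * ω))) (j : ℕ) (α : ℤ) :
    ∫⁻ η, (BE F d (pm F κ d m R h dR E e₁ A ε) j α).indicator (fun _ => (1 : ℝ≥0∞)) η ^ 2 ∂(law F) ≤ ex (2 * -ω) := by
  have h1 : ∀ η, (BE F d (pm F κ d m R h dR E e₁ A ε) j α).indicator (fun _ => (1 : ℝ≥0∞)) η ^ 2 =
      (BE F d (pm F κ d m R h dR E e₁ A ε) j α).indicator 1 η := by
    intro η
    by_cases hη : η ∈ BE F d (pm F κ d m R h dR E e₁ A ε) j α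
    · rw [Set.indicator_of_mem hη, Set.indicator_of_mem hη]
      simp
    · rw [Set.indicator_of_notMem hη, Set.indicator_of_notMem hη]
      simp
  simp only [h1]
  rw [lintegral_indicator_one (BE_meas _ _)]
  exact S.bad_le hε j α

theorem θ_kc : A / E * (3 * KC F.co F.b) ≤ 1 := by
  have h1 := S.kc
  rw [div_mul_eq_mul_div, div_le_one S.E0]
  exact h1

theorem θ_ρ (hA : 0 < A) (hAε : 4 * A * ε ≤ 1) : A / E * (e₁ + ε * E) ≤ A + 1 := by
  have h2 := S.E0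
  have h1 := S.unit
  rw [div_mul_eq_mul_div, div_le_iff₀ h2]
  have h3 : A * e₁ ≤ A * E := mul_le_mul_of_nonneg_left h1 hA.le
  have h4 : 4 * A * ε * E ≤ 1 * E := mul_le_mul_of_nonneg_right hAε h2.le
  nlinarith

/-- A transition to a cell. -/
theorem bound_b (hQ : 2 ≤ Q) (hK : 0 ≤ K) (hA : 0 < A) (hAε : 4 * A * ε ≤ 1) (hε : 2 * ε ≤ Real.exp (-(2 * ω))) (j : ℕ)
    (s : Bool × ℤ) (α : ℤ) :
    ∫⁻ η, ffD F d κ (pm F κ d m R h dR E e₁ A ε) j s (false, α) η ^ 2 ∂(law F) ≤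
      ex (B + 7 + K - ω / 2 - |((α - s.2 : ℤ) : ℝ)| / Q) ^ 2 := by
  have hE := S.E0
  obtain ⟨u, hu⟩ : ∃ u : ℝ, u = B + 5 + K - |((α - s.2 : ℤ) : ℝ)| / Q := ⟨_, rfl⟩
  have hP4 := S.PP4 hQ s.1 j s.2 α 0 (Or.inl rfl)
  have hR4 := S.RR4 hQ hK s.1 j s.2 α
  have hind := S.ind2 hε (j + 1) α
  rw [← hu] at hP4 hR4
  rw [sub_zero] at hP4
  obtain ⟨P, hP⟩ : ∃ P : Pm, P = pm F κ d m R h dR E e₁ A ε := ⟨_, rfl⟩
  have hθ : P.θ = A / E := by rw [hP]; rfl
  have hm : P.m = m := by rw [hP]; rfl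
  have hPR : P.R = R := by rw [hP]; rfl
  have hρ : P.ρ = e₁ + ε * E := by rw [hP]; rfl
  rw [← hP] at hP4 hR4 hind ⊢
  have hP2 := sq_of_four PP_meas hP4
  have hR2 := cs4 (measurable_const.indicator (BE_meas _ _)) RR_meas hind hR4
  have hpt : ∀ η, ffD F d κ P j s (false, α) η ^ 2 ≤ 4 * (ex (A / E * (3 * KC F.co F.b + (e₁ + ε * E)) - A / E * (κ * R)) ^ 2 *
      PP F d (A / E) P.a s.1 (P.pos j s.2) (P.pos j (s.2 + 1)) (P.lv j) (m + R) (P.qq (j + 1) α) η ^ 2 +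
      ex (A / E * KC F.co F.b) ^ 2 * ((BE F d P (j + 1) α).indicator (fun _ => (1 : ℝ≥0∞)) η *
      RR F d (A / E) P.a s.1 (P.pos j s.2) (P.pos j (s.2 + 1)) (P.lv j) m (P.pos (j + 1) α) (P.pos (j + 1) (α + 1)) η ^ 2)) := by
    intro η
    unfold ffD
    rw [if_neg (by simp), hθ, hρ, hPR, hm]
    refine (add_sq_le4 _ _).trans ?_
    refine mul_le_mul' le_rfl (add_le_add ?_ ?_)
    · rw [mul_pow]
    · rw [mul_pow, mul_pow]
      refine mul_le_mul' le_rfl (mul_le_mul' ?_ le_rfl)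
      by_cases hη : η ∈ BE F d P (j + 1) α
      · rw [Set.indicator_of_mem hη]
        simp
      · rw [Set.indicator_of_notMem hη]
        simp
  refine (lintegral_mono hpt).trans ?_
  rw [lintegral_const_mul' _ _ (by norm_num)]
  rw [lintegral_add_left ((PP_meas.pow_const 2).const_mul _), lintegral_const_mul _ (PP_meas.pow_const 2),
    lintegral_const_mul' _ _ (ENNReal.pow_ne_top (ex_ne_top _))]
  have hkc := S.θ_kc
  have hKC0 : 0 ≤ KC F.co F.b := by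
    have := K0_pos (c := F.co)
    have := b_pos F
    unfold KC
    positivity
  have hθ0 : 0 < A / E := div_pos hA hE
  have hθρ := S.θ_ρ hA hAε
  have hlev : 2 * (A + 2) + ω ≤ 2 * (A / E * (κ * R)) := by
    have h1 := S.lev
    have h2 : 2 * (A / E * (κ * R)) = 2 * (A * (κ * R)) / E := by ring
    rw [h2, le_div_iff₀ hE]
    exact h1
  have c1 : ex (A / E * (3 * KC F.co F.b + (e₁ + ε * E)) - A / E * (κ * R)) ^ 2 ≤ ex (-ω) := by
    rw [ex_pow]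
    refine ex_mono ?_
    push_cast
    rw [mul_add]
    linarith
  have c2 : ex (A / E * KC F.co F.b) ^ 2 ≤ ex 1 := by
    rw [ex_pow]
    refine ex_mono ?_
    have h3 : 0 ≤ A / E * KC F.co F.b := by positivity
    push_cast
    linarith
  have hfin : ex (-ω) * ex (2 * u) + ex 1 * ex (-ω + 2 * u) ≤ ex (2 * u + (2 - ω)) := by
    have h1 : ex (-ω) * ex (2 * u) ≤ ex (2 * u + (1 - ω)) := by
      rw [← ex_add]
      exact ex_mono (by linarith)
    have h2 : ex 1 * ex (-ω + 2 * u) = ex (2 * u + (1 - ω)) := by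
      rw [← ex_add]
      congr 1
      ring
    rw [h2]
    refine (add_le_add h1 le_rfl).trans ((two_ex_le _).trans (le_of_eq ?_))
    congr 1
    ring
  calc _ ≤ 4 * (ex (-ω) * ex (2 * u) + ex 1 * ex (-ω + 2 * u)) :=
        mul_le_mul' le_rfl (add_le_add (mul_le_mul' c1 hP2) (mul_le_mul' c2 hR2))
    _ ≤ ex 2 * ex (2 * u + (2 - ω)) := mul_le_mul' four_le hfin
    _ = _ := by
        rw [← ex_add, ex_pow]
        congr 1
        rw [hu]
        push_cast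
        ring

/-- A transition to a mesh point. -/
theorem bound_g (hQ : 2 ≤ Q) (hA : 0 < A) (hAε : 4 * A * ε ≤ 1) (j : ℕ) (s : Bool × ℤ) (α : ℤ) :
    ∫⁻ η, ffD F d κ (pm F κ d m R h dR E e₁ A ε) j s (true, α) η ^ 2 ∂(law F) ≤
      ex (2 * (B + 5 + K - |((α - s.2 : ℤ) : ℝ)| / Q) + 2 * A + 7) := by
  have hE := S.E0
  obtain ⟨u, hu⟩ : ∃ u : ℝ, u = B + 5 + K - |((α - s.2 : ℤ) : ℝ)| / Q := ⟨_, rfl⟩
  have hP4 := S.PP4 hQ s.1 j s.2 α 0 (Or.inl rfl)
  have hP4' := S.PP4 hQ s.1 j s.2 α 1 (Or.inr rfl)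
  rw [← hu] at hP4 hP4'
  rw [sub_zero] at hP4
  obtain ⟨P, hP⟩ : ∃ P : Pm, P = pm F κ d m R h dR E e₁ A ε := ⟨_, rfl⟩
  have hθ : P.θ = A / E := by rw [hP]; rfl
  have hm : P.m = m := by rw [hP]; rfl
  have hPR : P.R = R := by rw [hP]; rfl
  have hρ : P.ρ = e₁ + ε * E := by rw [hP]; rfl
  rw [← hP] at hP4 hP4' ⊢
  have hP2 := sq_of_four PP_meas hP4
  have hP2' := sq_of_four PP_meas hP4'
  have hpt : ∀ η, ffD F d κ P j s (true, α) η ^ 2 ≤ ex (A / E * (3 * KC F.co F.b + (e₁ + ε * E))) ^ 2 *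
      (4 * (PP F d (A / E) P.a s.1 (P.pos j s.2) (P.pos j (s.2 + 1)) (P.lv j) (m + R) (P.qq (j + 1) α) η ^ 2 +
      PP F d (A / E) P.a s.1 (P.pos j s.2) (P.pos j (s.2 + 1)) (P.lv j) (m + R) (P.qq (j + 1) (α - 1)) η ^ 2)) := by
    intro η
    unfold ffD
    rw [if_pos rfl, hθ, hρ, hPR, hm, mul_pow]
    exact mul_le_mul' le_rfl (add_sq_le4 _ _)
  refine (lintegral_mono hpt).trans ?_
  rw [lintegral_const_mul' _ _ (ENNReal.pow_ne_top (ex_ne_top _)), lintegral_const_mul' _ _ (by norm_num),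
    lintegral_add_left (PP_meas.pow_const 2)]
  have hkc := S.θ_kc
  have hθρ := S.θ_ρ hA hAε
  have c1 : ex (A / E * (3 * KC F.co F.b + (e₁ + ε * E))) ^ 2 ≤ ex (2 * A + 4) := by
    rw [ex_pow]
    refine ex_mono ?_
    push_cast
    rw [mul_add]
    linarith
  calc _ ≤ ex (2 * A + 4) * (4 * (ex (2 * u) + ex (2 * u))) :=
        mul_le_mul' c1 (mul_le_mul' le_rfl (add_le_add hP2 hP2'))
    _ ≤ ex (2 * A + 4) * (ex 2 * ex (2 * u + 1)) := mul_le_mul' le_rfl (mul_le_mul' four_le (two_ex_le _))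
    _ = _ := by
        rw [← ex_add, ← ex_add]
        congr 1
        rw [hu]
        ring

/-- A transition from a mesh point to a mesh point: the growth of the cost. -/
theorem bound_gg (hQ : 2 ≤ Q) (hA : 0 < A) (hAε : 4 * A * ε ≤ 1) (hε0 : 0 ≤ ε)
    (hε : 2 * ε ≤ Real.exp (-(2 * ω))) (hω : 2 * A + 4 + 2 * (B + 5 + K) + 2 * A * s₀ ≤ ω) (j : ℕ) (σ α : ℤ) :
    ∫⁻ η, ffD F d κ (pm F κ d m R h dR E e₁ A ε) j (true, σ) (true, α) η ^ 2 ∂(law F) ≤ ex (7 - 2 * A * s₀) := by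
  have hE := S.E0
  have hP4 := S.PP4 hQ true j σ α 0 (Or.inl rfl)
  have hP4' := S.PP4 hQ true j σ α 1 (Or.inr rfl)
  rw [sub_zero] at hP4
  obtain ⟨P, hP⟩ : ∃ P : Pm, P = pm F κ d m R h dR E e₁ A ε := ⟨_, rfl⟩
  have hθ : P.θ = A / E := by rw [hP]; rfl
  have hm : P.m = m := by rw [hP]; rfl
  have hPR : P.R = R := by rw [hP]; rfl
  have hρ : P.ρ = e₁ + ε * E := by rw [hP]; rfl
  rw [← hP] at hP4 hP4' ⊢
  have hθ0 : 0 < A / E := div_pos hA hE
  -- one factor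
  have hone : ∀ q : ℤ, ∫⁻ η, PP F d (A / E) P.a true (P.pos j σ) (P.pos j (σ + 1)) (P.lv j) (m + R) q η ^ 4 ∂(law F) ≤
      ex (4 * (B + 5 + K - |((α - σ : ℤ) : ℝ)| / Q)) →
      ∫⁻ η, PP F d (A / E) P.a true (P.pos j σ) (P.pos j (σ + 1)) (P.lv j) (m + R) q η ^ 2 ∂(law F) ≤
        ex (-(2 * (A / E * (e₂ - ε * E)))) + ex (-ω + 2 * (B + 5 + K)) := by
    intro q hq
    obtain ⟨Bd, hBd⟩ : ∃ Bd : Set Env, Bd = {η | Y F d η (P.lv j) (P.pos j σ) (m + R) q < e₂ - ε * E} := ⟨_, rfl⟩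
    have hBm : MeasurableSet Bd := by
      rw [hBd]
      exact measurableSet_lt (Y_meas _ _ _ _) measurable_const
    have hBp : (law F) Bd ≤ ex (2 * -ω) := by
      have h1 : (law F).real Bd ≤ ε := by
        have h2 : Bd = {η | F.shp (P.lv j, P.pos j σ) η ∈ {η | X F d η 0 (m + R) (q - P.pos j σ) < e₂ - ε * E}} := by
          rw [hBd]
          ext η
          simp only [Set.mem_ofPred_eq]
          rw [X_shp, zero_add]
          rfl
        rw [h2, shp_real (measurableSet_lt (X_meas F d 0 _ _) measurable_const)]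
        exact S.piece _
      rw [← ofReal_measureReal]
      unfold ex
      refine ENNReal.ofReal_le_ofReal (h1.trans ?_)
      rw [show 2 * -ω = -(2 * ω) by ring]
      linarith
    have hind : ∫⁻ η, Bd.indicator (fun _ => (1 : ℝ≥0∞)) η ^ 2 ∂(law F) ≤ ex (2 * -ω) := by
      have h1 : ∀ η, Bd.indicator (fun _ => (1 : ℝ≥0∞)) η ^ 2 = Bd.indicator 1 η := by
        intro η
        by_cases hη : η ∈ Bd
        · rw [Set.indicator_of_mem hη, Set.indicator_of_mem hη]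
          simp
        · rw [Set.indicator_of_notMem hη, Set.indicator_of_notMem hη]
          simp
      simp only [h1]
      rw [lintegral_indicator_one hBm]
      exact hBp
    have hcs := cs4 (measurable_const.indicator hBm) PP_meas hind hq
    have hpt : ∀ η, PP F d (A / E) P.a true (P.pos j σ) (P.pos j (σ + 1)) (P.lv j) (m + R) q η ^ 2 ≤
        ex (-(2 * (A / E * (e₂ - ε * E)))) + Bd.indicator (fun _ => (1 : ℝ≥0∞)) η *
          PP F d (A / E) P.a true (P.pos j σ) (P.pos j (σ + 1)) (P.lv j) (m + R) q η ^ 2 := by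
      intro η
      by_cases hη : η ∈ Bd
      · rw [Set.indicator_of_mem hη, one_mul]
        exact le_add_self
      · rw [Set.indicator_of_notMem hη, zero_mul, add_zero]
        rw [hBd] at hη
        simp only [Set.mem_ofPred_eq, not_lt] at hη
        have h1 : PP F d (A / E) P.a true (P.pos j σ) (P.pos j (σ + 1)) (P.lv j) (m + R) q η ≤
            ex (-(A / E * (e₂ - ε * E))) := by
          unfold PP ws
          refine iSup_le fun x => ?_
          rw [if_pos rfl]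
          by_cases hx : x = P.pos j σ
          · rw [if_pos hx, one_mul, hx]
            refine ex_mono ?_
            have := mul_le_mul_of_nonneg_left hη hθ0.le
            linarith
          · rw [if_neg hx, zero_mul]
            exact zero_le
        refine (pow_le_pow_left' h1 2).trans (le_of_eq ?_)
        rw [ex_pow]
        congr 1
        push_cast
        ring
    refine (lintegral_mono hpt).trans ?_
    rw [lintegral_add_left measurable_const]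
    refine add_le_add (by simp) (hcs.trans (ex_mono ?_))
    have : 0 ≤ |((α - σ : ℤ) : ℝ)| / Q := by positivity
    linarith
  have h1 := hone _ hP4
  have h2 := hone _ hP4'
  have hpt : ∀ η, ffD F d κ P j (true, σ) (true, α) η ^ 2 ≤ ex (A / E * (3 * KC F.co F.b + (e₁ + ε * E))) ^ 2 *
      (4 * (PP F d (A / E) P.a true (P.pos j σ) (P.pos j (σ + 1)) (P.lv j) (m + R) (P.qq (j + 1) α) η ^ 2 +
      PP F d (A / E) P.a true (P.pos j σ) (P.pos j (σ + 1)) (P.lv j) (m + R) (P.qq (j + 1) (α - 1)) η ^ 2)) := by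
    intro η
    unfold ffD
    rw [if_pos rfl, hθ, hρ, hPR, hm, mul_pow]
    exact mul_le_mul' le_rfl (add_sq_le4 _ _)
  refine (lintegral_mono hpt).trans ?_
  rw [lintegral_const_mul' _ _ (ENNReal.pow_ne_top (ex_ne_top _)), lintegral_const_mul' _ _ (by norm_num),
    lintegral_add_left (PP_meas.pow_const 2)]
  have hkc := S.θ_kc
  have hθρ := S.θ_ρ hA hAε
  obtain ⟨c, hc⟩ : ∃ c : ℝ, c = A / E * (3 * KC F.co F.b + (e₁ + ε * E)) := ⟨_, rfl⟩
  rw [← hc]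
  have hc2 : c ≤ A + 2 := by rw [hc, mul_add]; linarith
  have hgr : 2 * c - 2 * (A / E * (e₂ - ε * E)) ≤ 3 - 2 * A * s₀ := by
    have h3 := mul_le_mul_of_nonneg_left S.grow hθ0.le
    have h4 : A / E * (s₀ * E) = A * s₀ := by field_simp
    have h5 : A / E * (ε * E) = A * ε := by field_simp
    rw [mul_add, h4] at h3
    rw [hc, mul_add, mul_add, mul_sub, h5]
    linarith
  have hX : ex (2 * c) * (ex (-(2 * (A / E * (e₂ - ε * E)))) + ex (-ω + 2 * (B + 5 + K))) ≤ ex (4 - 2 * A * s₀) := by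
    rw [mul_add, ← ex_add, ← ex_add]
    refine (add_le_add (ex_mono (show _ ≤ 3 - 2 * A * s₀ by linarith))
      (ex_mono (show _ ≤ 3 - 2 * A * s₀ by linarith))).trans ((two_ex_le _).trans (le_of_eq ?_))
    congr 1
    ring
  calc _ ≤ ex c ^ 2 * (4 * ((ex (-(2 * (A / E * (e₂ - ε * E)))) + ex (-ω + 2 * (B + 5 + K))) +
        (ex (-(2 * (A / E * (e₂ - ε * E)))) + ex (-ω + 2 * (B + 5 + K))))) :=
        mul_le_mul' le_rfl (mul_le_mul' le_rfl (add_le_add h1 h2))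
    _ = 4 * (ex (2 * c) * (ex (-(2 * (A / E * (e₂ - ε * E)))) + ex (-ω + 2 * (B + 5 + K))) +
        ex (2 * c) * (ex (-(2 * (A / E * (e₂ - ε * E)))) + ex (-ω + 2 * (B + 5 + K)))) := by
        rw [ex_pow]
        push_cast
        ring
    _ ≤ ex 2 * ex (4 - 2 * A * s₀ + 1) :=
        mul_le_mul' four_le ((add_le_add hX hX).trans (two_ex_le _))
    _ = _ := by
        rw [← ex_add]
        congr 1
        ring

end Sc

end Pool.Agent.W_1b8d5d_p66
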