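import Pool.Agent.W_1b8d5d_p.DPf

/-!
Track P (MP_1b8d5d_pr), section A (D7): THEOREM D7-P. A scale at which nothing fluctuates does not grow: otherwise the mean cost is
linear for ever, for every displacement. (helper66)
-/

namespace Pool.Agent.W_1b8d5d_p66

open MeasureTheory Set Pool.Agent.W_1b8d5d_h85 Pool.Agent.W_1b8d5d_p
open scoped ENNReal

/-- The exponents. -/
noncomputable def tt (A s₀ B K ω lam Q : ℝ) (β β' : Bool) (x : ℝ) : ℝ :=
  if β' = true then (if β = true then 4 - A * s₀ / 2 - lam / Q * x else B + A + 9 + K - 1 / Q * x)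
  else B + 7 + K - ω / 2 - 1 / Q * x

theorem d7P {s₀ C₁ K : ℝ} (hs : 0 < s₀) (hs1 : s₀ ≤ 1) (hC : 0 ≤ C₁) (hK : 0 ≤ K) {Q : ℕ} (hQ : 2 ≤ Q) :
    ∃ A₀ : ℝ, 1 ≤ A₀ ∧ ∀ A : ℝ, A₀ ≤ A → ∃ ε ω : ℝ, 0 < ε ∧ ε ≤ 1 / 4 ∧ 0 < ω ∧
      ∀ (F : Fm) (κ : ℝ) (d : Dr) (m R h : ℕ) (dR : ℤ) (E e₁ e₂ : ℝ),
      Sc F κ d m R h Q dR E e₁ e₂ s₀ A (C₁ * A) K ε ω → ∀ (n : ℕ) (z : ℤ),
        ((n : ℝ) - 1) * (Real.log 2 * E / A) - C1 F * (m + R : ℕ) ≤ e F d (m + R + n * m) z := by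
  have hQr : (0 : ℝ) < Q := by exact_mod_cast (by omega : 0 < Q)
  obtain ⟨lam, hlam⟩ : ∃ lam : ℝ, lam = s₀ / (4 * (C₁ + K + 10)) := ⟨_, rfl⟩
  have hlam0 : 0 < lam := by rw [hlam]; positivity
  have hlam1 : lam * (4 * (C₁ + K + 10)) = s₀ := by rw [hlam]; field_simp
  have hlam4 : lam ≤ 1 / 4 := by nlinarith
  obtain ⟨S1, hS1⟩ : ∃ S1 : ℝ, S1 = 2 + 2 / (lam / Q) := ⟨_, rfl⟩
  have hS1p : 0 < S1 := by rw [hS1]; positivity
  obtain ⟨S2, hS2⟩ : ∃ S2 : ℝ, S2 = 2 + 2 / (1 / (Q : ℝ)) := ⟨_, rfl⟩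
  have hS2p : 2 ≤ S2 := by
    rw [hS2]
    have : 0 < 2 / (1 / (Q : ℝ)) := by positivity
    linarith
  refine ⟨max 1 (2 / s₀ * Real.log (4 * Real.exp 4 * S1)), le_max_left _ _, fun A hA => ?_⟩
  have hA1 : 1 ≤ A := (le_max_left _ _).trans hA
  have hA0 : 0 < A := by linarith
  have hAS : Real.log (4 * Real.exp 4 * S1) ≤ A * s₀ / 2 := by
    have h1 : 2 / s₀ * Real.log (4 * Real.exp 4 * S1) ≤ A := (le_max_right _ _).trans hA
    have h2 : s₀ / 2 * (2 / s₀ * Real.log (4 * Real.exp 4 * S1)) ≤ s₀ / 2 * A :=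
      mul_le_mul_of_nonneg_left h1 (by positivity)
    have h3 : s₀ / 2 * (2 / s₀ * Real.log (4 * Real.exp 4 * S1)) = Real.log (4 * Real.exp 4 * S1) := by
      field_simp
    linarith
  obtain ⟨B, hB⟩ : ∃ B : ℝ, B = C₁ * A := ⟨_, rfl⟩
  have hB0 : 0 ≤ B := by rw [hB]; positivity
  obtain ⟨L, hL⟩ : ∃ L : ℝ, L = Real.exp (B + A + 9 + K) * S2 := ⟨_, rfl⟩
  have hLone : 1 ≤ L := by
    have h1 : 1 ≤ Real.exp (B + A + 9 + K) := Real.one_le_exp (by positivity)
    rw [hL]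
    nlinarith
  obtain ⟨ω, hω⟩ : ∃ ω : ℝ, ω = max (2 * A + 4 + 2 * (B + 5 + K) + 2 * A * s₀)
    (2 * (Real.log (16 * L * S2) + B + 7 + K)) := ⟨_, rfl⟩
  have hω1 : 2 * A + 4 + 2 * (B + 5 + K) + 2 * A * s₀ ≤ ω := by rw [hω]; exact le_max_left _ _
  have hω2 : 2 * (Real.log (16 * L * S2) + B + 7 + K) ≤ ω := by rw [hω]; exact le_max_right _ _
  have hωA : A ≤ ω := by
    have : 0 < A * s₀ := by positivity
    linarith
  have hω0 : 0 < ω := by linarith
  obtain ⟨ε, hε⟩ : ∃ ε : ℝ, ε = Real.exp (-(2 * ω)) / 2 := ⟨_, rfl⟩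
  have hε0 : 0 < ε := by rw [hε]; positivity
  have hε2 : 2 * ε ≤ Real.exp (-(2 * ω)) := by rw [hε]; linarith
  have hAε : 4 * A * ε ≤ 1 := by
    have h1 : Real.exp (-(2 * ω)) ≤ Real.exp (-(2 * A)) := Real.exp_le_exp.2 (by linarith)
    have h2 : 2 * A ≤ Real.exp (2 * A) := by linarith [Real.add_one_le_exp (2 * A)]
    have h3 : Real.exp (2 * A) * Real.exp (-(2 * A)) = 1 := by rw [← Real.exp_add]; simp
    have h4 := Real.exp_pos (-(2 * A))
    rw [hε]
    nlinarith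
  have hε4 : ε ≤ 1 / 4 := by nlinarith
  refine ⟨ε, ω, hε0, hε4, hω0, fun F κ d m R h dR E e₁ e₂ S n z => ?_⟩
  have hE := S.E0
  rw [← hB] at S
  obtain ⟨P, hP⟩ : ∃ P : Pm, P = pm F κ d m R h dR E e₁ A ε := ⟨_, rfl⟩
  have hθ : P.θ = A / E := by rw [hP]; rfl
  have hm : P.m = m := by rw [hP]; rfl
  have hPR : P.R = R := by rw [hP]; rfl
  have hPh : P.h = h := by rw [hP]; rfl
  obtain ⟨T, hT⟩ : ∃ T : Bool × ℤ → Bool × ℤ → ℝ≥0∞, T = fun s s' =>
    ex (tt A s₀ B K ω lam Q s.1 s'.1 |((s'.2 - s.2 : ℤ) : ℝ)|) := ⟨_, rfl⟩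
  obtain ⟨H, hH⟩ : ∃ H : Bool × ℤ → ℝ≥0∞, H = fun s => if s.1 = true then 1 else ENNReal.ofReal (4 * L) := ⟨_, rfl⟩
  -- the sums
  have t1 : ∀ σ : ℤ, ∑' α : ℤ, ex (4 - A * s₀ / 2 - lam / Q * |((α - σ : ℤ) : ℝ)|) ≤ ENNReal.ofReal (1 / 4) := by
    intro σ
    refine (tsum_ex_le (div_pos hlam0 hQr) _ σ).trans ?_
    unfold ex
    rw [← hS1, ← ENNReal.ofReal_mul (Real.exp_pos _).le]
    refine ENNReal.ofReal_le_ofReal ?_
    have h2 : 4 * Real.exp 4 * S1 ≤ Real.exp (A * s₀ / 2) := by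
      rw [← Real.log_le_iff_le_exp (by positivity)]
      exact hAS
    have h3 : Real.exp (4 - A * s₀ / 2) = Real.exp 4 * Real.exp (-(A * s₀ / 2)) := by
      rw [← Real.exp_add, sub_eq_add_neg]
    have h4 : Real.exp (A * s₀ / 2) * Real.exp (-(A * s₀ / 2)) = 1 := by
      rw [← Real.exp_add]
      simp
    have h5 := Real.exp_pos (-(A * s₀ / 2))
    have h6 : 4 * Real.exp 4 * S1 * Real.exp (-(A * s₀ / 2)) ≤ 1 := by
      rw [← h4]
      exact mul_le_mul_of_nonneg_right h2 h5.le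
    rw [h3]
    linarith
  have t2 : ∀ σ : ℤ, ∑' α : ℤ, ex (B + A + 9 + K - 1 / Q * |((α - σ : ℤ) : ℝ)|) ≤ ENNReal.ofReal L := by
    intro σ
    refine (tsum_ex_le (by positivity) _ σ).trans (le_of_eq ?_)
    unfold ex
    rw [← hS2, ← ENNReal.ofReal_mul (Real.exp_pos _).le, ← hL]
  have t3 : ∀ σ : ℤ, (∑' α : ℤ, ex (B + 7 + K - ω / 2 - 1 / Q * |((α - σ : ℤ) : ℝ)|)) * ENNReal.ofReal (4 * L) ≤
      ENNReal.ofReal (1 / 4) := by
    intro σ
    refine (mul_le_mul' (tsum_ex_le (by positivity) _ σ) le_rfl).trans ?_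
    unfold ex
    rw [← hS2, ← ENNReal.ofReal_mul (Real.exp_pos _).le, ← ENNReal.ofReal_mul (by positivity)]
    refine ENNReal.ofReal_le_ofReal ?_
    have h1 : Real.exp (B + 7 + K - ω / 2) ≤ Real.exp (-Real.log (16 * L * S2)) := Real.exp_le_exp.2 (by linarith)
    rw [Real.exp_neg, Real.exp_log (by positivity)] at h1
    have h2 : (16 * L * S2)⁻¹ * (16 * L * S2) = 1 := inv_mul_cancel₀ (by positivity)
    have h3 : Real.exp (B + 7 + K - ω / 2) * S2 * (4 * L) = Real.exp (B + 7 + K - ω / 2) * (16 * L * S2) / 4 := by ring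
    rw [h3]
    have h4 : Real.exp (B + 7 + K - ω / 2) * (16 * L * S2) ≤ (16 * L * S2)⁻¹ * (16 * L * S2) :=
      mul_le_mul_of_nonneg_right h1 (by positivity)
    linarith
  have hTH : ∀ s, ∑' s', T s s' * H s' ≤ H s / 2 := by
    rintro ⟨β, σ⟩
    rw [ENNReal.tsum_prod' (f := fun s' : Bool × ℤ => T (β, σ) s' * H s'), tsum_fintype, Fintype.sum_bool]
    have hsF : ∑' α : ℤ, T (β, σ) (false, α) * H (false, α) ≤ ENNReal.ofReal (1 / 4) := by
      rw [hT, hH]
      simp only [Bool.false_eq_true, if_false, tt]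
      rw [ENNReal.tsum_mul_right]
      exact t3 σ
    cases β with
    | true =>
      have hsT : ∑' α : ℤ, T (true, σ) (true, α) * H (true, α) ≤ ENNReal.ofReal (1 / 4) := by
        rw [hT, hH]
        simp only [if_true, tt, mul_one]
        exact t1 σ
      refine (add_le_add hsT hsF).trans ?_
      rw [hH]
      simp only [if_true]
      rw [← ENNReal.ofReal_add (by norm_num) (by norm_num)]
      have : (1 : ℝ≥0∞) / 2 = ENNReal.ofReal (1 / 2) := by
        rw [ENNReal.ofReal_div_of_pos (by norm_num)]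
        norm_num
      rw [this]
      exact ENNReal.ofReal_le_ofReal (by norm_num)
    | false =>
      have hsT : ∑' α : ℤ, T (false, σ) (true, α) * H (true, α) ≤ ENNReal.ofReal L := by
        rw [hT, hH]
        simp only [if_true, tt, Bool.false_eq_true, if_false, mul_one]
        exact t2 σ
      refine (add_le_add hsT hsF).trans ?_
      rw [hH]
      simp only [Bool.false_eq_true, if_false]
      rw [← ENNReal.ofReal_add (by linarith) (by norm_num)]
      have : ENNReal.ofReal (4 * L) / 2 = ENNReal.ofReal (4 * L / 2) := by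
        rw [ENNReal.ofReal_div_of_pos (by norm_num)]
        norm_num
      rw [this]
      exact ENNReal.ofReal_le_ofReal (by linarith)
  have hf2 : ∀ j s s', ∫⁻ η, ffD F d κ P j s s' η ^ 2 ∂(law F) ≤ T s s' ^ 2 := by
    rintro j ⟨β, σ⟩ ⟨β', α⟩
    rw [hT, hP]
    cases β' with
    | false =>
      refine (S.bound_b hQ hK hA0 hAε hε2 j (β, σ) α).trans (le_of_eq ?_)
      simp only [tt, Bool.false_eq_true, if_false]
      congr 2
      ring
    | true =>
      have hg := S.bound_g hQ hA0 hAε j (β, σ) α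
      obtain ⟨x, hx⟩ : ∃ x : ℝ, x = |((α - σ : ℤ) : ℝ)| / Q := ⟨_, rfl⟩
      have hx0 : 0 ≤ x := by rw [hx]; positivity
      simp only at hg
      rw [← hx] at hg
      cases β with
      | false =>
        refine hg.trans ?_
        simp only [tt, Bool.false_eq_true, if_false, if_true]
        rw [ex_pow]
        refine ex_mono ?_
        rw [hx]
        push_cast
        have h1 : |(α : ℝ) - σ| / Q = 1 / Q * |(α : ℝ) - σ| := by ring
        rw [h1]
        linarith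
      | true =>
        have hgg := S.bound_gg hQ hA0 hAε hε0.le hε2 hω1 j σ α
        simp only [tt, if_true]
        rw [ex_pow]
        have h1 : lam / Q * |((α - σ : ℤ) : ℝ)| = lam * x := by rw [hx]; ring
        rw [h1]
        -- the convex combination
        obtain ⟨p, hp⟩ : ∃ p : ℝ, p = 7 - 2 * A * s₀ := ⟨_, rfl⟩
        obtain ⟨r, hr⟩ : ∃ r : ℝ, r = 2 * (B + 5 + K - x) + 2 * A + 7 := ⟨_, rfl⟩
        rw [← hp] at hgg
        rw [← hr] at hg
        have hconv : (1 - lam) * p + lam * r ≤ ((2 : ℕ) : ℝ) * (4 - A * s₀ / 2 - lam * x) := by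
          rw [hp, hr]
          push_cast
          have h2 : lam * (B + A + K + 9) ≤ A * s₀ / 4 := by
            have h3 : B + A + K + 9 ≤ A * (C₁ + K + 10) := by
              rw [hB]
              nlinarith
            have h4 : lam * (B + A + K + 9) ≤ lam * (A * (C₁ + K + 10)) := mul_le_mul_of_nonneg_left h3 hlam0.le
            have h5 : lam * (A * (C₁ + K + 10)) = A * (lam * (4 * (C₁ + K + 10))) / 4 := by ring
            rw [h5, hlam1] at h4
            exact h4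
          have h6 : lam * (A * s₀) ≤ 1 / 4 * (A * s₀) := mul_le_mul_of_nonneg_right hlam4 (by positivity)
          nlinarith
        rcases le_total p r with hpr | hpr
        · refine hgg.trans (ex_mono (le_trans ?_ hconv))
          nlinarith
        · refine hg.trans (ex_mono (le_trans ?_ hconv))
          nlinarith
  have hHone : ∀ s, 1 ≤ H s := by
    intro s
    rw [hH]
    show 1 ≤ if s.1 = true then (1 : ℝ≥0∞) else ENNReal.ofReal (4 * L)
    split_ifs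
    · exact le_rfl
    · rw [← ENNReal.ofReal_one]
      exact ENNReal.ofReal_le_ofReal (by linarith)
  have hfin := chain_e S.adm P (by rw [hPR]; exact S.R1) (by rw [hPR, hm]; exact S.Rm)
    (by rw [hPh]; exact_mod_cast S.h1) (by rw [hθ]; exact div_pos hA0 hE) (by rw [hP]; exact S.a_eq)
    (by rw [hP]; show ⌊d.v * (((0 : ℕ) : ℝ) * m)⌋ = 0; simp) (T := T) (H := H)
    (fun s s' => by rw [hT]; exact ex_ne_zero _) (fun s s' => by rw [hT]; exact ex_ne_top _) hf2 hTH hHone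
    (by rw [hH]; simp) n z
  rw [hθ, hm, hPR] at hfin
  have h7 : ((n : ℝ) - 1) * (Real.log 2 * E / A) = ((n : ℝ) - 1) * Real.log 2 / (A / E) := by
    field_simp
  rw [h7]
  exact hfin

end Pool.Agent.W_1b8d5d_p66
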