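import Pool.Agent.W_1b8d5d_p.DPg
import Pool.Agent.W_1b8d5d_p.Unit1

/-!
Track P (MP_1b8d5d_pr), section A (D7): the data of a scale from (CHEAP), (EL) and concentration; no growth. (helper66)
-/

namespace Pool.Agent.W_1b8d5d_p66

open MeasureTheory Set Pool.Agent.W_1b8d5d_h85 Pool.Agent.W_1b8d5d_p
open scoped ENNReal

variable {F : Fm} {d : Dr} {κ : ℝ}

/-- The mean cost along the direction is sublinear. -/
theorem lin_of_touch (ht : Touch F d) {c : ℝ} (hc : 0 < c) : ∃ N₀ : ℕ, 1 ≤ N₀ ∧ ∀ N : ℕ, N₀ ≤ N →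
    e F d N (md d N) ≤ N * c := by
  obtain ⟨N₁, hN₁, h⟩ := e_upper F (|d.v| + 1) (ε := c / 2) (by positivity)
  obtain ⟨Lp, hLp⟩ : ∃ Lp : ℝ, Lp = CT F + |be F.co d| := ⟨_, rfl⟩
  have hLp0 : 0 ≤ Lp := by
    rw [hLp]
    have := CT_pos F
    positivity
  obtain ⟨N₂, hN₂⟩ := exists_nat_ge (2 * Lp / c)
  refine ⟨max N₁ N₂, hN₁.trans (le_max_left _ _), fun N hN => ?_⟩
  have h1 : N₁ ≤ N := (le_max_left _ _).trans hN
  have h2 : (N₂ : ℝ) ≤ N := by exact_mod_cast (le_max_right N₁ N₂).trans hN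
  have hN1 : (1 : ℝ) ≤ N := by exact_mod_cast hN₁.trans h1
  have hN0 : (0 : ℝ) < N := by linarith
  have h3 := abs_md d N
  have h4 : |((md d N : ℤ) : ℝ)| ≤ (|d.v| + 1) * N := by
    have e1 : ((md d N : ℤ) : ℝ) = (((md d N : ℤ) : ℝ) - d.v * N) + d.v * N := by ring
    rw [e1]
    refine (abs_add_le _ _).trans ?_
    rw [abs_mul, abs_of_pos hN0]
    nlinarith [abs_nonneg d.v]
  refine (h d N h1 _ h4).trans ?_
  refine mul_le_mul_of_nonneg_left ?_ hN0.le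
  -- the rate function near zero
  obtain ⟨x, hx⟩ : ∃ x : ℝ, x = (md d N : ℤ) / N - d.v := ⟨_, rfl⟩
  rw [← hx]
  have hx1 : |x| ≤ 1 / N := by
    have e1 : x = (((md d N : ℤ) : ℝ) - d.v * N) / N := by
      rw [hx]
      field_simp
    rw [e1, abs_div, abs_of_pos hN0]
    exact div_le_div_of_nonneg_right h3 hN0.le
  have h5 : J F d x ≤ Lp * |x| := by
    have e1 := ht.zero
    unfold J at e1 ⊢
    have e2 := mu_lip F (d.v + x) (d.v + 0)
    have e3 : d.v + x - (d.v + 0) = x := by ring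
    rw [e3] at e2
    have e4 := le_abs_self (mu_ F (d.v + x) - mu_ F (d.v + 0))
    have e5 : -(be F.co d * x) ≤ |be F.co d| * |x| := by
      rw [← abs_mul]
      exact neg_le_abs _
    rw [hLp]
    nlinarith
  have h6 : Lp * |x| ≤ Lp * (1 / N) := mul_le_mul_of_nonneg_left hx1 hLp0
  have h7 : Lp * (1 / N) ≤ c / 2 := by
    have h8 := hN₂.trans h2
    rw [div_le_iff₀ hc] at h8
    rw [mul_one_div, div_le_iff₀ hN0]
    linarith
  linarith

/-! Arithmetic. -/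

theorem ar_w {κ δ w U Kc Q : ℝ} (hκ : 0 < κ) (hδ0 : 0 < δ) (hKCb : 50 * κ ≤ Kc) (hKCU : Kc ≤ δ * U)
    (hUw : U ≤ δ * (κ * w)) (hδQ : δ * (10 * Q) ≤ 1) (hQ : 2 ≤ Q) : 2 * Q ≤ w := by
  have hw50 : 50 ≤ δ * δ * w := by
    have h1 : 50 * κ ≤ δ * (δ * (κ * w)) := hKCb.trans (hKCU.trans (mul_le_mul_of_nonneg_left hUw hδ0.le))
    have h2 : δ * (δ * (κ * w)) = κ * (δ * δ * w) := by ring
    rw [h2, mul_comm 50 κ] at h1
    exact le_of_mul_le_mul_left h1 hκ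
  have h1 : δ ≤ 1 := by
    have h0 : δ * 1 ≤ δ * (10 * Q) := mul_le_mul_of_nonneg_left (by linarith) hδ0.le
    linarith
  have h2 : δ * δ ≤ δ * 1 := mul_le_mul_of_nonneg_left h1 hδ0.le
  have hw0 : 0 ≤ w := by
    by_contra hneg
    push Not at hneg
    have : δ * δ * w ≤ 0 := mul_nonpos_of_nonneg_of_nonpos (by positivity) hneg.le
    linarith
  have h3 : 50 ≤ δ * w := hw50.trans (mul_le_mul_of_nonneg_right (by linarith) hw0)
  have h4 : δ * w * (10 * Q) ≤ 1 * w := by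
    calc δ * w * (10 * Q) = (δ * (10 * Q)) * w := by ring
      _ ≤ 1 * w := mul_le_mul_of_nonneg_right hδQ hw0
  have h5 : 50 * (10 * Q) ≤ δ * w * (10 * Q) := mul_le_mul_of_nonneg_right h3 (by linarith)
  linarith

theorem ar_slope {h Q C c₀ s₀ w U D : ℝ} (hh0 : 0 ≤ h) (hQC : 8 * C ≤ Q * (c₀ * s₀)) (hQh1 : Q * h ≤ w)
    (hc : 0 < c₀) (hs : 0 < s₀) (hs1 : s₀ ≤ 1) (hC : 1 ≤ C) (hU : 0 < U) (hw0 : 0 < w) (hD : c₀ * w / 2 ≤ D) :
    h ≤ D ∧ h * (C * U) ≤ s₀ / 4 * U * D := by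
  have hc₀ : 0 < c₀ * w / 2 := by positivity
  have h1 : h * (C * U) ≤ s₀ / 4 * U * D := by
    have h2 : h * (8 * C) ≤ h * (Q * (c₀ * s₀)) := mul_le_mul_of_nonneg_left hQC hh0
    have h3 : h * (Q * (c₀ * s₀)) ≤ w * (c₀ * s₀) := by
      have := mul_le_mul_of_nonneg_right hQh1 (show 0 ≤ c₀ * s₀ by positivity)
      linarith
    have h4 : h * C ≤ s₀ / 4 * (c₀ * w / 2) := by linarith
    have h5 : s₀ / 4 * (c₀ * w / 2) ≤ s₀ / 4 * D := mul_le_mul_of_nonneg_left hD (by positivity)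
    have h6 := mul_le_mul_of_nonneg_right (h4.trans h5) hU.le
    linarith
  refine ⟨?_, h1⟩
  have h7 : h * U ≤ h * (C * U) := by
    refine mul_le_mul_of_nonneg_left ?_ hh0
    have := mul_le_mul_of_nonneg_right hC hU.le
    linarith
  have h8 : s₀ / 4 * U * D ≤ 1 * U * D := by
    refine mul_le_mul_of_nonneg_right (mul_le_mul_of_nonneg_right (by linarith) hU.le) (by linarith)
  have h9 : h * U ≤ D * U := by linarith
  exact le_of_mul_le_mul_right h9 hU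

theorem ar_chord {D X e₁ e₂ h V q : ℝ} (hD : 0 < D) (hh0 : 0 ≤ h) (he₁ : 0 ≤ e₁)
    (hX : D * X ≤ (D - h) * e₁ + h * e₂) (he₂ : e₂ ≤ V) (h2 : h * V ≤ q * D) : X ≤ e₁ + q := by
  have h3 : h * e₂ ≤ h * V := mul_le_mul_of_nonneg_left he₂ hh0
  have h4 : 0 ≤ h * e₁ := mul_nonneg hh0 he₁
  have h5 : D * X ≤ D * (e₁ + q) := by linarith
  exact le_of_mul_le_mul_left h5 hD

theorem ar_lat {U δ κ w Q h A M : ℝ} (hκ : 0 < κ) (hw : 0 < w) (hQ : 0 < Q) (hh0 : 0 ≤ h) (hδ1 : δ ≤ 1 / (10 * Q))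
    (hUw : U ≤ δ * (κ * w)) (hQh2 : w / 2 ≤ Q * h) (hA : 1 ≤ A) (hM : 1 ≤ M) :
    5 / 2 * (2 * U) ≤ A * (κ * M) * h := by
  have h1 : U ≤ 1 / (10 * Q) * (κ * w) := hUw.trans (mul_le_mul_of_nonneg_right hδ1 (by positivity))
  have h2 : 1 / (10 * Q) * (κ * w) ≤ 1 / (10 * Q) * (κ * (2 * (Q * h))) := by
    refine mul_le_mul_of_nonneg_left (mul_le_mul_of_nonneg_left (by linarith) hκ.le) (by positivity)
  have h3 : 1 / (10 * Q) * (κ * (2 * (Q * h))) = κ * h / 5 := by field_simp; ring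
  have h4 : 5 * U ≤ κ * h := by linarith
  have h5 : κ * h ≤ A * (κ * M) * h := by
    have h6 : 1 * 1 ≤ A * M := mul_le_mul hA hM zero_le_one (by linarith)
    have h7 : κ * h * (1 * 1) ≤ κ * h * (A * M) := mul_le_mul_of_nonneg_left h6 (by positivity)
    linarith
  linarith

/-- **NO GROWTH at a scale at which nothing fluctuates.** `x₁` is the cheapest displacement of the duration `R`, `[lo, hi]` an
interval of cheap displacements around it, `w` the natural width, `U` the unit. -/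
theorem no_growth {s₀ C c₀ C₁ Kd : ℝ} (hs : 0 < s₀) (hs1 : s₀ ≤ 1) (hC : 1 ≤ C) (hc : 0 < c₀) (hC₁ : 0 ≤ C₁)
    (hKd : 0 ≤ Kd) : ∃ A₁ : ℝ, 1 ≤ A₁ ∧ ∀ A : ℝ, A₁ ≤ A → ∃ ε δ : ℝ, 0 < ε ∧ ε ≤ 1 ∧ 0 < δ ∧ ∀ (F : Fm) (κ : ℝ)
      (d : Dr) (m R : ℕ)
      (x₁ lo hi : ℤ) (U w : ℝ), Adm F κ d → Touch F d → 1 ≤ R → R ≤ m → 0 < U → KC F.co F.b ≤ δ * U →
      U ≤ δ * (κ * w) → U ≤ δ * (κ * R) → lo ≤ x₁ → x₁ ≤ hi → c₀ * w ≤ (hi : ℝ) - lo →
      (∀ y : ℤ, lo ≤ y → y ≤ hi → e F d R y ≤ C * U) → |(x₁ : ℝ) - d.v * R| ≤ Kd * w → e F d R x₁ ≤ U →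
      (∀ y : ℤ, e F d R x₁ + s₀ * U ≤ e F d (m + R) y) →
      (∀ y : ℤ, e F d R y ≤ 2 * U → (law F).real {η | e F d R y + ε * U < X F d η 0 R y} ≤ ε) →
      (∀ (y : ℤ) (r : ℝ), r ≤ e F d (m + R) y → r ≤ 2 * U →
        (law F).real {η | X F d η 0 (m + R) y < r - ε * U} ≤ ε) →
      (∀ t : ℕ, t = m ∨ t = m + R → ∀ wc : ℕ, w / 2 ≤ wc → (wc : ℝ) ≤ w → ∀ y0 : ℤ,
        ∫⁻ η, GG F d (A / (2 * U)) 0 0 t y0 (wc : ℤ) η ^ 4 ∂(law F) ≤
          ex (4 * (C₁ * A - |(y0 : ℝ) - d.v * t| / wc))) → False := by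
  -- the fineness of the cells
  obtain ⟨Q, hQ⟩ := exists_nat_ge (max 2 (8 * C / (c₀ * s₀)))
  have hQ2r : (2 : ℝ) ≤ Q := (le_max_left _ _).trans hQ
  have hQ2 : 2 ≤ Q := by exact_mod_cast hQ2r
  have hQC : 8 * C ≤ Q * (c₀ * s₀) := by
    have := (le_max_right _ _).trans hQ
    rwa [div_le_iff₀ (by positivity)] at this
  have hQr : (0 : ℝ) < Q := by linarith
  obtain ⟨A₁, hA₁, hd7⟩ := d7P (s₀ := s₀ / 4) (C₁ := C₁) (K := 2 * (Kd + 1)) (by positivity) (by linarith) hC₁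
    (by positivity) hQ2
  refine ⟨A₁, hA₁, fun A₀ hA₀₁ => ?_⟩
  have hA₀ : 1 ≤ A₀ := hA₁.trans hA₀₁
  obtain ⟨ε, ω, hε, hε4, hω, hmain⟩ := hd7 A₀ hA₀₁
  have hA0 : 0 < A₀ := by linarith
  obtain ⟨δ, hδ⟩ : ∃ δ : ℝ, δ = min (min (1 / (10 * (Q : ℝ))) (A₀ / (2 * (A₀ + 2) + ω))) (2 / (3 * A₀)) := ⟨_, rfl⟩
  have hδ1 : δ ≤ 1 / (10 * (Q : ℝ)) := by rw [hδ]; exact (min_le_left _ _).trans (min_le_left _ _)
  have hδ2 : δ ≤ A₀ / (2 * (A₀ + 2) + ω) := by rw [hδ]; exact (min_le_left _ _).trans (min_le_right _ _)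
  have hδ3 : δ ≤ 2 / (3 * A₀) := by rw [hδ]; exact min_le_right _ _
  have hδ0 : 0 < δ := by
    rw [hδ]
    exact lt_min (lt_min (by positivity) (by positivity)) (by positivity)
  have hδQ : δ * (10 * (Q : ℝ)) ≤ 1 := by
    rwa [le_div_iff₀ (by positivity)] at hδ1
  refine ⟨ε / 2, δ, by positivity, by linarith, hδ0, ?_⟩
  intro F κ d m R x₁ lo hi U w hd ht hR1 hRm hU hKCU hUw hUR hlo hhi hwid hch hdrift hx₁ hgrow hcon hpc hel
  have hκ := hd.κ0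
  have hM : (1 : ℝ) ≤ F.co.M := by exact_mod_cast F.co.M_pos
  have hb := b_pos F
  have hK0 := K0_pos (c := F.co)
  have hRr : (1 : ℝ) ≤ R := by exact_mod_cast hR1
  -- `w` is large
  have hκb : κ ≤ F.b := hd.κ_lt.trans F.ab
  have hKCb : 50 * κ ≤ KC F.co F.b := by
    unfold KC
    nlinarith
  have hwQ : 2 * (Q : ℝ) ≤ w := ar_w hκ hδ0 hKCb hKCU hUw hδQ hQ2r
  have hw0 : 0 < w := by linarith
  -- the width of the cells
  obtain ⟨h, hh⟩ : ∃ h : ℕ, h = ⌊w / Q⌋₊ := ⟨_, rfl⟩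
  have hh1 : (h : ℝ) ≤ w / Q := by
    rw [hh]
    exact Nat.floor_le (by positivity)
  have hh2 : w / Q < h + 1 := by
    rw [hh]
    exact Nat.lt_floor_add_one _
  have hQh1 : (Q : ℝ) * h ≤ w := by
    rw [le_div_iff₀ hQr] at hh1
    linarith
  have hQh2 : w / 2 ≤ (Q : ℝ) * h := by
    rw [div_lt_iff₀ hQr] at hh2
    linarith
  have hh1' : 1 ≤ h := by
    by_contra hc'
    have : h = 0 := by omega
    rw [this] at hQh2
    simp at hQh2
    linarith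
  have hh1r : (1 : ℝ) ≤ h := by exact_mod_cast hh1'
  have he0 : ∀ y, 0 ≤ e F d R y := fun y => (mul_nonneg (Nat.cast_nonneg _) (ht.nn _)).trans (e_lower F d hR1 y)
  -- the slope towards the wide side
  have hslope : ∀ D : ℝ, c₀ * w / 2 ≤ D → (h : ℝ) ≤ D ∧ (h : ℝ) * (C * U) ≤ s₀ / 4 * U * D := by
    intro D hD
    exact ar_slope (by linarith) hQC hQh1 hc hs hs1 hC hU hw0 hD
  have hs4U : 0 < s₀ / 4 * U := by positivity
  -- the reference
  have hdR : ∃ dR : ℤ, |(dR : ℝ) - x₁| ≤ h ∧ e F d R dR ≤ e F d R x₁ + s₀ / 4 * U ∧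
      e F d R (dR + h) ≤ e F d R x₁ + s₀ / 4 * U := by
    have hlor : (lo : ℝ) ≤ x₁ := by exact_mod_cast hlo
    have hhir : (x₁ : ℝ) ≤ hi := by exact_mod_cast hhi
    rcases le_total (c₀ * w / 2) ((hi : ℝ) - x₁) with hside | hside
    · obtain ⟨g1, g2⟩ := hslope _ hside
      have hle : x₁ + h ≤ hi := by
        have : (x₁ : ℝ) + h ≤ hi := by linarith
        exact_mod_cast this
      refine ⟨x₁, by rw [sub_self, abs_zero]; linarith, by linarith [hs4U], ?_⟩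
      have hch1 := e_chord F d hR1 (y0 := x₁) (y := x₁ + h) (y1 := hi) (by omega) hle
      have hD0 : 0 < (hi : ℝ) - x₁ := lt_of_lt_of_le (by positivity) hside
      have h1 := hch hi (hlo.trans hhi) le_rfl
      push_cast at hch1
      exact ar_chord (h := h) hD0 (by linarith) (he0 _) (by linarith) h1 g2
    · have hside' : c₀ * w / 2 ≤ (x₁ : ℝ) - lo := by linarith
      obtain ⟨g1, g2⟩ := hslope _ hside'
      have hle : lo ≤ x₁ - h := by
        have : (lo : ℝ) ≤ x₁ - h := by linarith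
        exact_mod_cast this
      refine ⟨x₁ - h, ?_, ?_, ?_⟩
      · push_cast
        rw [show (x₁ : ℝ) - h - x₁ = -h by ring, abs_neg, abs_of_nonneg (by linarith)]
      · have hch1 := e_chord F d hR1 (y0 := lo) (y := x₁ - h) (y1 := x₁) hle (by omega)
        have hD0 : 0 < (x₁ : ℝ) - lo := lt_of_lt_of_le (by positivity) hside'
        have h1 := hch lo le_rfl (hlo.trans hhi)
        push_cast at hch1
        exact ar_chord (h := h) hD0 (by linarith) (he0 _) (by linarith) h1 g2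
      · rw [sub_add_cancel]
        linarith [hs4U]
  obtain ⟨dR, hd1, hd3, hd4⟩ := hdR
  obtain ⟨e₁, he₁⟩ : ∃ e₁ : ℝ, e₁ = e F d R x₁ + s₀ / 4 * U := ⟨_, rfl⟩
  rw [← he₁] at hd3 hd4
  have hUs : s₀ * U ≤ U := by
    have := mul_le_mul_of_nonneg_right hs1 hU.le
    linarith
  have he₁2 : e₁ ≤ 2 * U := by rw [he₁]; linarith
  have href : ∀ y : ℤ, e F d R y ≤ e₁ → (law F).real {η | e₁ + ε * (2 * U) < X F d η 0 R y} ≤ ε := by
    intro y hy
    have h1 := hcon y (hy.trans he₁2)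
    refine le_trans (measureReal_mono ?_ (measure_ne_top _ _)) (h1.trans (by linarith))
    intro η hη
    simp only [Set.mem_ofPred_eq] at hη ⊢
    have : 0 < ε * U := by positivity
    linarith
  have hQh : (((Q * h : ℕ) : ℕ) : ℝ) = Q * h := by push_cast; ring
  have S : Sc F κ d m R h Q dR (2 * U) e₁ (e F d R x₁ + s₀ * U) (s₀ / 4) A₀ (C₁ * A₀) (2 * (Kd + 1)) ε ω := by
    refine ⟨hd, hR1, hRm, hh1', by positivity, ?_, ?_, ?_, he₁2, ?_, href dR hd3, href (dR + h) hd4, ?_, ?_, ?_, ?_⟩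
    · have h1 : A₀ * (3 * KC F.co F.b) ≤ A₀ * (3 * (δ * U)) :=
        mul_le_mul_of_nonneg_left (by linarith) hA0.le
      have h2 : δ * (3 * A₀) ≤ 2 := by rwa [le_div_iff₀ (by positivity)] at hδ3
      have h3 := mul_le_mul_of_nonneg_right h2 hU.le
      linarith
    · exact ar_lat hκ hw0 hQr (by linarith) hδ1 hUw hQh2 hA₀ hM
    · have h1 : U ≤ A₀ / (2 * (A₀ + 2) + ω) * (κ * R) := hUR.trans (mul_le_mul_of_nonneg_right hδ2 (by positivity))
      have h2 : 0 < 2 * (A₀ + 2) + ω := by positivity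
      rw [div_mul_eq_mul_div, le_div_iff₀ h2] at h1
      linarith
    · rw [he₁]
      linarith
    · intro y
      have h1 := hpc y (e F d R x₁ + s₀ * U) (hgrow y) (by linarith)
      refine le_trans (measureReal_mono ?_ (measure_ne_top _ _)) (h1.trans (by linarith))
      intro η hη
      simp only [Set.mem_ofPred_eq] at hη ⊢
      have : 0 < ε * U := by positivity
      linarith
    · rw [hQh]
      have h1 : |(dR : ℝ) - d.v * R| ≤ |(dR : ℝ) - x₁| + |(x₁ : ℝ) - d.v * R| := by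
        have : (dR : ℝ) - d.v * R = ((dR : ℝ) - x₁) + ((x₁ : ℝ) - d.v * R) := by ring
        rw [this]
        exact abs_add_le _ _
      have h2 : (Kd + 1) * w ≤ (Kd + 1) * (2 * (Q * h)) := mul_le_mul_of_nonneg_left (by linarith) (by linarith)
      have h3 : (h : ℝ) ≤ w := by
        have h4 : 1 * (h : ℝ) ≤ Q * h := mul_le_mul_of_nonneg_right (by linarith) (by linarith)
        linarith
      linarith
    · intro y0
      exact hel m (Or.inl rfl) (Q * h) (by rw [hQh]; exact hQh2) (by rw [hQh]; exact hQh1) y0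
    · intro y0
      exact hel (m + R) (Or.inr rfl) (Q * h) (by rw [hQh]; exact hQh2) (by rw [hQh]; exact hQh1) y0
  have hlin := hmain F κ d m R h dR (2 * U) e₁ _ S
  -- the linear lower bound contradicts sublinearity
  obtain ⟨g, hg⟩ : ∃ g : ℝ, g = Real.log 2 * (2 * U) / A₀ := ⟨_, rfl⟩
  have hlog : 0 < Real.log 2 := Real.log_pos (by norm_num)
  have hg0 : 0 < g := by rw [hg]; positivity
  rw [← hg] at hlin
  have hm1 : (1 : ℝ) ≤ m := by exact_mod_cast hR1.trans hRm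
  obtain ⟨N₀, hN₀, hsub⟩ := lin_of_touch (F := F) (d := d) ht (c := g / (2 * m)) (by positivity)
  obtain ⟨n₁, hn₁⟩ := exists_nat_gt ((2 * g + 2 * (C1 F * (m + R : ℕ)) + (m + R : ℕ) * (g / m)) / g)
  obtain ⟨n, hn⟩ : ∃ n : ℕ, n = max N₀ n₁ := ⟨_, rfl⟩
  have hnN : N₀ ≤ m + R + n * m := by
    have h1 : N₀ ≤ n := by rw [hn]; exact le_max_left _ _
    have h2 : n ≤ n * m := Nat.le_mul_of_pos_right n (by omega)
    omega
  have h1 := hsub _ hnN
  have h2 := hlin n (md d (m + R + n * m))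
  have h3 : (n₁ : ℝ) ≤ n := by rw [hn]; exact_mod_cast le_max_right _ _
  rw [div_lt_iff₀ hg0] at hn₁
  have h4 : ((m + R + n * m : ℕ) : ℝ) * (g / (2 * m)) = (m + R : ℕ) * (g / m) / 2 + n * g / 2 := by
    push_cast
    field_simp
  rw [h4] at h1
  have h5 : (n₁ : ℝ) * g ≤ n * g := mul_le_mul_of_nonneg_right h3 hg0.le
  linarith

end Pool.Agent.W_1b8d5d_p66
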