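import Pool.Agent.W_1b8d5d_h4p.ToolZ

/-!
Track P (MP_1b8d5d_pr), section A (D7): concentration of the costs at a scale which is not soft. (helper66)
-/

namespace Pool.Agent.W_1b8d5d_p66

open MeasureTheory Set Pool.Agent.W_1b8d5d_h85 Pool.Agent.W_1b8d5d_p Pool.Agent.W_1b8d5d_h4p

/-- Concentration of a cost whose mean is at most `K` units. -/
theorem con_X {ε : ℝ} (hε : 0 < ε) (K : ℝ) : ∃ α₀ : ℝ, 1 ≤ α₀ ∧ ∀ α : ℝ, α₀ ≤ α → ∀ (F : Fm) (κ : ℝ) (d : Dr),
    Adm F κ d → ∀ (x l : ℕ) (y : ℤ), ¬ Sf F κ d x α → 1 ≤ l → l ≤ 2 ^ (x + 1) → e F d l y ≤ K * EE F d (2 ^ x) →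
    (law F).real {η | ε * EE F d (2 ^ x) ≤ |X F d η 0 l y - e F d l y|} ≤ ε := by
  refine ⟨max 1 (max (-Real.logb 2 ε) (Real.logb 2 (max K 1))), le_max_left _ _, ?_⟩
  intro α hα F κ d hd x l y hS hl hlx hK
  have h1 : 1 ≤ α := (le_max_left _ _).trans hα
  have h2 : -Real.logb 2 ε ≤ α := (le_max_left _ _).trans ((le_max_right _ _).trans hα)
  have h3 : Real.logb 2 (max K 1) ≤ α := (le_max_right _ _).trans ((le_max_right _ _).trans hα)
  have hE := EE_pos F d (2 ^ x)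
  have k1 : (2 : ℝ) ^ (-α) ≤ ε := by
    calc (2 : ℝ) ^ (-α) ≤ 2 ^ (Real.logb 2 ε) := Real.rpow_le_rpow_of_exponent_le one_le_two (by linarith)
      _ = ε := Real.rpow_logb two_pos (by norm_num) hε
  have k2 : K ≤ (2 : ℝ) ^ α := by
    calc K ≤ max K 1 := le_max_left _ _
      _ = 2 ^ (Real.logb 2 (max K 1)) := (Real.rpow_logb two_pos (by norm_num) (by positivity)).symm
      _ ≤ 2 ^ α := Real.rpow_le_rpow_of_exponent_le one_le_two h3
  have hl' : (l : ℝ) ≤ (2 : ℝ) ^ ((x : ℝ) + α) := by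
    calc (l : ℝ) ≤ ((2 ^ (x + 1) : ℕ) : ℝ) := by exact_mod_cast hlx
      _ = (2 : ℝ) ^ ((x : ℝ) + 1) := by
          push_cast
          rw [← Real.rpow_natCast]
          push_cast
          rfl
      _ ≤ _ := Real.rpow_le_rpow_of_exponent_le one_le_two (by linarith)
  have hm : -((2 : ℝ) ^ α * EE F d (2 ^ x)) ≤
      ∫ η, (fun τ : Env => -(TT F.co τ 0 l y - (al F.co d * l + be F.co d * y))) (F.tau η) ∂(law F) := by
    rw [int_negX]
    have := mul_le_mul_of_nonneg_right k2 hE.le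
    linarith
  have hc := conc_of_not_Sf hS hl' (lk_X hd hl y) hm
  rw [int_negX] at hc
  refine le_trans (measureReal_mono (fun η hη => ?_) (measure_ne_top _ _)) (hc.le.trans k1)
  rw [Set.mem_ofPred_eq] at hη ⊢
  have h4 : -(TT F.co (F.tau η) 0 l y - (al F.co d * l + be F.co d * y)) - -e F d l y = -(X F d η 0 l y - e F d l y) := by
    unfold X
    ring
  rw [h4, abs_neg]
  exact (mul_le_mul_of_nonneg_right k1 hE.le).trans hη

/-- The lower tail of a cost, any mean. -/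
theorem pc_X {F : Fm} {c0 C0 : ℝ} (hL : LawH F c0 C0) {ε K : ℝ} (hε : 0 < ε) (hK : 0 < K) :
    ∃ α₀ : ℝ, 1 ≤ α₀ ∧ ∀ α : ℝ, α₀ ≤ α → ∀ (κ : ℝ) (d : Dr), Adm F κ d → Touch F d → ∀ (x l : ℕ) (y : ℤ) (r : ℝ),
    ¬ Sf F κ d x α → 1 ≤ l → l ≤ 2 ^ (x + 1) → r ≤ e F d l y → r ≤ K * EE F d (2 ^ x) →
    (law F).real {η | X F d η 0 l y < r - ε * EE F d (2 ^ x)} ≤ ε := by
  obtain ⟨T, C, hT, hC, hmc⟩ := mc_X hL hε
  obtain ⟨α₀, hα₀, hcon⟩ := con_X hε (max (2 * K) (C * (2 * T)))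
  refine ⟨α₀, hα₀, fun α hα κ d hd ht x l y r hS hl hlx hr hrK => ?_⟩
  have hE := EE_pos F d (2 ^ x)
  by_cases hbig : e F d l y ≤ max (2 * K) (C * (2 * T)) * EE F d (2 ^ x)
  · refine le_trans (measureReal_mono (fun η hη => ?_) (measure_ne_top _ _))
      (hcon α hα F κ d hd x l y hS hl hlx hbig)
    rw [Set.mem_ofPred_eq] at hη ⊢
    have h1 := neg_abs_le (X F d η 0 l y - e F d l y)
    linarith
  · by_contra hcon'
    push Not at hcon'
    refine hbig ?_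
    have h1 : T * l ≤ 2 * T * 2 ^ x := by
      have : T * l ≤ T * 2 ^ (x + 1) := Nat.mul_le_mul_left _ hlx
      rw [pow_succ] at this
      linarith
    have h2 := hmc κ d hd ht l (2 * T * 2 ^ x) hl h1 y (K * EE F d (2 ^ x)) (by
      refine hcon'.le.trans (measureReal_mono (fun η hη => ?_) (measure_ne_top _ _))
      rw [Set.mem_ofPred_eq] at hη ⊢
      have : 0 < ε * EE F d (2 ^ x) := by positivity
      linarith)
    have h3 := EE_mul F d (2 ^ x) (k := 2 * T) (by omega)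
    refine h2.trans (max_le ?_ ?_)
    · have := mul_le_mul_of_nonneg_right (le_max_left (2 * K) (C * (2 * T))) hE.le
      linarith
    · have h4 : C * EE F d (2 * T * 2 ^ x) ≤ C * ((2 * T : ℕ) * EE F d (2 ^ x)) :=
        mul_le_mul_of_nonneg_left h3 (by linarith)
      have h5 := mul_le_mul_of_nonneg_right (le_max_right (2 * K) (C * (2 * T))) hE.le
      push_cast at h4
      linarith

end Pool.Agent.W_1b8d5d_p66
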