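import Pool.Agent.W_1b8d5d_p.DPh
import Pool.Agent.W_1b8d5d_p.DPi
import Pool.Agent.W_1b8d5d_p.EdCon61
import Pool.Agent.W_1b8d5d_p.HsP

/-!
Track P (MP_1b8d5d_pr), section 5 of the map (D7): at a scale which is not soft the cost of the cheapest displacement does not grow,
uniformly in the direction, from (EL), (CHEAP), (I1). (helper66)
-/

namespace Pool.Agent.W_1b8d5d_p66

open MeasureTheory Set Pool.Agent.W_1b8d5d_h85 Pool.Agent.W_1b8d5d_p Pool.Agent.W_1b8d5d_h4p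
open scoped ENNReal

/-- **(EL)** for a set of directions: at a scale which is not soft, the fourth moments of the maxima over pairs of cells. -/
def ELP (a : ℝ) (F : Fm) (κ : ℝ) (Ds : Set Dr) : Prop :=
  ∃ R C C₁ : ℝ, 1 ≤ C ∧ 0 ≤ C₁ ∧ ∀ A : ℝ, R ≤ A → ∀ W₀ : ℝ, ∃ (α : ℝ) (x₀ : ℕ), ∀ d ∈ Ds, ∀ x : ℕ, x₀ ≤ x →
    ¬ Sf F κ d x α → ∃ w : ℕ, W₀ ≤ w ∧ W₀ * EE F d (2 ^ x) ≤ w ∧ (w : ℝ) ≤ C * (vA a F d (2 ^ x) * 2 ^ x) ∧
      vA a F d (2 ^ x) * 2 ^ x ≤ C * w ∧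
      ∀ t wq : ℕ, 1 ≤ t → t ≤ 2 ^ (x + 1) → w ≤ 2 * wq → wq ≤ w → ∀ y0 : ℤ,
        ∫⁻ η, GG F d (A / (C * EE F d (2 ^ x))) 0 0 t y0 (wq : ℤ) η ^ 4 ∂(law F) ≤
          ex (4 * (C₁ * A - |(y0 : ℝ) - d.v * t| / wq))

/-- **THEOREM (D7) of the map, section 5.** -/
theorem d7S {F : Fm} {κ K : ℝ} {Ds : Set Dr} {c0 C0 a cc Cc' : ℝ} (hL : LawH F c0 C0) (hD : Dirs F κ K Ds) (hg : Grow F Ds)
    (hr : Rate F Ds) (ha : 0 < a) (hcc : 0 < cc) (hCh : CheapI a F Ds cc Cc') (hEL : ELP a F κ Ds)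
    (hI : I1U (EoP F Ds) (EmP F Ds) (SfP F κ Ds)) : D7U (EmP F Ds) (SfP F κ Ds) := by
  intro s₁ hs₁
  obtain ⟨s, hs⟩ : ∃ s : ℝ, s = min s₁ 1 := ⟨_, rfl⟩
  have hs0 : 0 < s := by rw [hs]; exact lt_min hs₁ one_pos
  have hs1 : s ≤ 1 := by rw [hs]; exact min_le_right _ _
  have hss : s ≤ s₁ := by rw [hs]; exact min_le_left _ _
  by_cases hne : Ds.Nonempty
  swap
  · exact ⟨0, 0, 0, fun d => absurd ⟨d.1, d.2⟩ hne⟩
  have hκ : 0 < κ := by
    obtain ⟨d, hd⟩ := hne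
    exact (hD.adm d hd).κ0
  obtain ⟨R₀, C, C₁, hC, hC₁, hel⟩ := hEL
  obtain ⟨Cc, hCc'⟩ : ∃ Cc : ℝ, Cc = max Cc' 1 := ⟨_, rfl⟩
  have hCc : 1 ≤ Cc := by rw [hCc']; exact le_max_right _ _
  have hch : CheapI a F Ds cc Cc := hCh.mono (by rw [hCc']; exact le_max_left _ _)
  have hC0 : 0 < C := by linarith
  obtain ⟨A₁, hA₁, hno⟩ := no_growth (s₀ := s / (3 * C)) (C := Cc) (c₀ := cc / (8 * C)) (C₁ := C₁) (Kd := 2 * C + 1)
    (by positivity) (by rw [div_le_one (by positivity)]; linarith) hCc (by positivity) hC₁ (by positivity)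
  obtain ⟨A, hA⟩ : ∃ A : ℝ, A = max A₁ (2 * R₀) := ⟨_, rfl⟩
  have hA1 : A₁ ≤ A := by rw [hA]; exact le_max_left _ _
  have hA2 : R₀ ≤ A / 2 := by
    have : 2 * R₀ ≤ A := by rw [hA]; exact le_max_right _ _
    linarith
  have hA0 : 0 < A := by linarith
  obtain ⟨ε, δ, hε, hε1, hδ, hfalse⟩ := hno A hA1
  obtain ⟨W₀, hW₀⟩ : ∃ W₀ : ℝ, W₀ = max (max 1 (8 * C / cc)) (C / (δ * κ)) := ⟨_, rfl⟩
  have hW1 : 8 * C / cc ≤ W₀ := by rw [hW₀]; exact (le_max_right _ _).trans (le_max_left _ _)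
  have hW3 : 1 ≤ W₀ := by rw [hW₀]; exact (le_max_left _ _).trans (le_max_left _ _)
  have hW2 : C / (δ * κ) ≤ W₀ := by rw [hW₀]; exact le_max_right _ _
  obtain ⟨α₁, x₁, hel'⟩ := hel (A / 2) hA2 W₀
  obtain ⟨α₂, hα₂, hcon⟩ := con_X hε (2 * C)
  obtain ⟨α₃, hα₃, hpc⟩ := pc_X hL hε (K := 2 * C) (by positivity)
  obtain ⟨α₄, z₄, hi1⟩ := hI
  obtain ⟨n5, h5⟩ := hg (KC F.co F.b / δ)
  obtain ⟨n6, h6⟩ := hr (δ * κ / (2 * C)) (by positivity)
  obtain ⟨α, hα⟩ : ∃ α : ℝ, α = max (max α₁ α₂) (max α₃ α₄) := ⟨_, rfl⟩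
  have e1 : α₁ ≤ α := by rw [hα]; exact (le_max_left _ _).trans (le_max_left _ _)
  have e2 : α₂ ≤ α := by rw [hα]; exact (le_max_right _ _).trans (le_max_left _ _)
  have e3 : α₃ ≤ α := by rw [hα]; exact (le_max_left _ _).trans (le_max_right _ _)
  have e4 : α₄ ≤ α := by rw [hα]; exact (le_max_right _ _).trans (le_max_right _ _)
  refine ⟨α, 0, x₁ + z₄ + n5 + n6 + 1, ?_⟩
  rintro ⟨d, hdS⟩ z hz hS0
  have hS : ¬ Sf F κ d z α := hS0 z (by omega) (by omega)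
  show Em F d (2 ^ (z + 1)) ≤ (1 + s₁) * Em F d (2 ^ z)
  by_contra hcontra
  push Not at hcontra
  have hd := hD.adm d hdS
  have ht := hD.touch d hdS
  have hEm0 := Em_pos F d (2 ^ z)
  have hE0 := EE_pos F d (2 ^ z)
  have hCr := Cr_pos F
  -- the record
  obtain ⟨t, ht1, ht2⟩ : ∃ t : ℕ, t ≤ 2 ^ (z + 1) ∧ (1 + s) * Em F d (2 ^ z) < e F d t (xs F d t) + Cr F := by
    by_contra hc
    push Not at hc
    have h1 := Em_le F d (n := 2 ^ (z + 1)) hc
    have h2 : (1 + s) * Em F d (2 ^ z) ≤ (1 + s₁) * Em F d (2 ^ z) := mul_le_mul_of_nonneg_right (by linarith) hEm0.le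
    linarith
  have ht3 : 2 ^ z < t := by
    by_contra hc
    have h1 := le_Em F d (show t ≤ 2 ^ z by omega)
    have : 0 < s * Em F d (2 ^ z) := by positivity
    linarith
  have hzbig : z < 2 ^ z := Nat.lt_two_pow_self
  have h2z : 2 ^ (z + 1) = 2 * 2 ^ z := by ring
  obtain ⟨R, hR⟩ : ∃ R : ℕ, R = t / 2 := ⟨_, rfl⟩
  obtain ⟨m, hm⟩ : ∃ m : ℕ, m = t - t / 2 := ⟨_, rfl⟩
  have hmR : m + R = t := by omega
  have hR1 : 1 ≤ R := by omega
  have hRm : R ≤ m := by omega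
  have hRz : R ≤ 2 ^ z := by omega
  have hR2 : 2 ^ z ≤ 2 * R := by
    rcases Nat.eq_zero_or_pos z with h | h
    · subst h
      omega
    · have : 2 ^ z = 2 * 2 ^ (z - 1) := by
        conv_lhs => rw [show z = (z - 1) + 1 by omega]
        rw [pow_succ]
        ring
      omega
  -- the unit
  obtain ⟨U, hU⟩ : ∃ U : ℝ, U = C * EE F d (2 ^ z) := ⟨_, rfl⟩
  have hU0 : 0 < U := by rw [hU]; positivity
  have hEU : EE F d (2 ^ z) ≤ U := by
    rw [hU]
    have := mul_le_mul_of_nonneg_right hC hE0.le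
    linarith
  have hS1 : ¬ Sf F κ d z α₁ := fun h => hS (h.mono e1)
  obtain ⟨w, hw0, hwE, hwC, hCw, helw⟩ := hel' d hdS z (by omega) hS1
  obtain ⟨lo, hi, hlo, hhi, hwid, hcheap⟩ := hch d hdS R hR1
  have hvA := Dirs.vA_le_two hD hdS ha.le hR1 hRz
  have hvw := Dirs.w_mono hD hdS ha.le hR1 hRz
  have hvp : 0 < vA a F d R := Dirs.vA_pos hD hdS ha hR1
  have hvp' : 0 < vA a F d (2 ^ z) := Dirs.vA_pos hD hdS ha (by omega)
  have hwR : (w : ℝ) ≤ 4 * C * (vA a F d R * R) := by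
    have h1 : vA a F d (2 ^ z) * 2 ^ z ≤ 2 * vA a F d R * (2 * R) := by
      refine mul_le_mul hvA ?_ (by positivity) (by positivity)
      exact_mod_cast hR2
    have h2 : C * (vA a F d (2 ^ z) * 2 ^ z) ≤ C * (2 * vA a F d R * (2 * R)) := mul_le_mul_of_nonneg_left h1 hC0.le
    linarith
  have hw1 : (1 : ℝ) ≤ w := hW3.trans hw0
  have hwpos : 0 < (w : ℝ) := lt_of_lt_of_le (by positivity) (hW1.trans hw0)
  refine hfalse F κ d m R (xs F d R) lo hi U w hd ht hR1 hRm hU0 ?_ ?_ ?_ hlo hhi ?_ ?_ ?_ ?_ ?_ ?_ ?_ ?_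
  · -- constants
    have h1 := h5 d hdS (2 ^ z) (by omega)
    rw [div_le_iff₀ hδ] at h1
    have h2 := mul_le_mul_of_nonneg_left hEU hδ.le
    linarith
  · -- the width
    have h1 : C / (δ * κ) * EE F d (2 ^ z) ≤ w := (mul_le_mul_of_nonneg_right hW2 hE0.le).trans hwE
    have h2 : C / (δ * κ) * EE F d (2 ^ z) = U / (δ * κ) := by rw [hU]; ring
    rw [h2, div_le_iff₀ (by positivity)] at h1
    linarith
  · -- the duration
    have h1 := h6 d hdS (2 ^ z) (by omega)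
    have h2 : (((2 ^ z : ℕ) : ℕ) : ℝ) ≤ 2 * R := by exact_mod_cast hR2
    have h3 : δ * κ / (2 * C) * ((2 ^ z : ℕ) : ℝ) ≤ δ * κ / (2 * C) * (2 * R) :=
      mul_le_mul_of_nonneg_left h2 (by positivity)
    have h4 : C * (δ * κ / (2 * C) * (2 * R)) = δ * (κ * R) := by field_simp
    rw [hU, ← h4]
    exact mul_le_mul_of_nonneg_left (h1.trans h3) hC0.le
  · -- the cheap interval
    have h1 : 8 * C ≤ cc * w := by
      have := hW1.trans hw0
      rw [div_le_iff₀ hcc] at this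
      linarith
    have hwid' : cc * (vA a F d R * R) - 1 ≤ (hi : ℝ) - lo := by
      rw [mul_comm (vA a F d R)]
      exact hwid
    have h2 : cc / (8 * C) * w ≤ cc * (vA a F d R * R) - 1 := by
      have h3 : cc / (8 * C) * w * (8 * C) = cc * w := by field_simp
      have h4 : cc * w ≤ cc * (4 * C * (vA a F d R * R)) := mul_le_mul_of_nonneg_left hwR hcc.le
      have h5 : cc / (8 * C) * w * (8 * C) ≤ (cc * (vA a F d R * R) - 1) * (8 * C) := by
        rw [h3]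
        linarith
      exact le_of_mul_le_mul_right h5 (by positivity)
    linarith
  · -- cheap displacements
    intro y hy1 hy2
    have h1 := (hcheap y hy1 hy2).1
    have h2 : EE F d R ≤ U := (EE_mono F d hRz).trans hEU
    exact h1.trans (mul_le_mul_of_nonneg_left h2 (by linarith))
  · -- the drift
    have h1 := (hcheap _ hlo hhi).2
    have h2 : R * vA a F d R ≤ C * w := by
      have : R * vA a F d R ≤ vA a F d (2 ^ z) * 2 ^ z := by
        have h3 := hvw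
        push_cast at h3
        linarith
      exact this.trans hCw
    linarith
  · -- the mean cost
    have h1 := e_xs_le hd R
    have h2 := le_EE F d hRz
    linarith
  · -- growth
    intro y
    rw [hmR]
    have h1 := xs_le hd (n := t) (by omega) y
    have h2 := le_Em F d hRz
    have h3 : s / (3 * C) * U ≤ s * Em F d (2 ^ z) := by
      have h4 := hi1 ⟨d, hdS⟩ z (by omega) (fun h => hS (Sf.mono h e4))
      have h4' : EE F d (2 ^ z) ≤ 3 * Em F d (2 ^ z) := h4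
      have h5 : s / (3 * C) * U = s * (EE F d (2 ^ z) / 3) := by rw [hU]; field_simp
      rw [h5]
      exact mul_le_mul_of_nonneg_left (by linarith) hs0.le
    linarith
  · -- concentration
    intro y hy
    have h1 := hcon α e2 F κ d hd z R y hS hR1 (by omega) (by rw [hU] at hy; linarith)
    refine le_trans (measureReal_mono (fun η hη => ?_) (measure_ne_top _ _)) h1
    rw [Set.mem_ofPred_eq] at hη ⊢
    have h2 := le_abs_self (X F d η 0 R y - e F d R y)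
    have h3 := mul_le_mul_of_nonneg_left hEU hε.le
    linarith
  · intro y r hr1 hr2
    have h1 := hpc α e3 κ d hd ht z (m + R) y r hS (by omega) (by omega) hr1 (by rw [hU] at hr2; linarith)
    refine le_trans (measureReal_mono (fun η hη => ?_) (measure_ne_top _ _)) h1
    rw [Set.mem_ofPred_eq] at hη ⊢
    have h3 := mul_le_mul_of_nonneg_left hEU hε.le
    linarith
  · -- (EL)
    intro t' ht' wc hwc1 hwc2 y0
    have h1 := helw t' wc (by omega) (by omega) (by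
      have : (w : ℝ) ≤ 2 * wc := by linarith
      exact_mod_cast this) (by exact_mod_cast hwc2) y0
    have h2 : A / (2 * U) = A / 2 / (C * EE F d (2 ^ z)) := by rw [hU]; field_simp
    rw [h2]
    refine h1.trans (ex_mono ?_)
    have h3 : C₁ * (A / 2) ≤ C₁ * A := mul_le_mul_of_nonneg_left (by linarith) hC₁
    linarith

end Pool.Agent.W_1b8d5d_p66
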