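import Pool.Agent.W_1b8d5d_p.EdCon61

/-!
MP_1b8d5d_pr, Track P. The length `ln F d n B` of the cheap sets (UnitC) is comparable with the width `w_n = n vA n`.
-/

namespace Pool.Agent.W_1b8d5d_p

open MeasureTheory Set

noncomputable section

variable {F : Fm} {κ K : ℝ} {Ds : Set Dr} {d : Dr}

/-- A cheap displacement of a duration `m ≤ n` lies in the cone of the scale `n`. -/
theorem Dirs.CI_lev (h : Dirs F κ K Ds) (hd : d ∈ Ds) {b : ℝ} (hb : 0 ≤ b) {n m : ℕ} (hn : 1 ≤ n) (hmn : m ≤ n) {B : ℝ}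
    (hB : B ≤ b * EE F d n) {y : ℤ} (hy : y ∈ CI F d m B) (hB0 : 0 ≤ B) :
    -(n * vl b F d n) ≤ (y : ℝ) - d.v * m ∧ (y : ℝ) - d.v * m ≤ n * vr b F d n := by
  have hn0 : (0 : ℝ) < n := by exact_mod_cast hn
  have h1 : n * J F d (((y : ℝ) - d.v * m) / n) ≤ b * EE F d n := by
    rcases Nat.eq_zero_or_pos m with h0 | h0
    · subst h0
      have h2 := hy.2 rfl
      subst h2
      simp only [Int.cast_zero, Nat.cast_zero, mul_zero, sub_zero, zero_div]
      rw [(h.rf hd).zero, mul_zero]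
      exact hB0.trans hB
    · have hm0 : (0 : ℝ) < m := by exact_mod_cast h0
      have hmn' : (m : ℝ) ≤ n := by exact_mod_cast hmn
      have h2 := e_lower F d h0 y
      have q1 : (0 : ℝ) ≤ 1 - (m : ℝ) / (n : ℝ) := by rw [sub_nonneg, div_le_one hn0]; exact hmn'
      have q2 : (0 : ℝ) ≤ (m : ℝ) / (n : ℝ) := by positivity
      have h3 := (h.rf hd).conv.2 (mem_univ (0 : ℝ)) (mem_univ ((y : ℝ) / m - d.v)) q1 q2 (by ring)
      have e1 : (1 - (m : ℝ) / n) • (0 : ℝ) + ((m : ℝ) / n) • ((y : ℝ) / m - d.v) = ((y : ℝ) - d.v * m) / n := by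
        simp only [smul_eq_mul]
        field_simp
        ring
      rw [e1] at h3
      simp only [smul_eq_mul, (h.rf hd).zero, mul_zero, zero_add] at h3
      have h4 := mul_le_mul_of_nonneg_left h3 hn0.le
      have e2 : (n : ℝ) * ((m : ℝ) / n * J F d ((y : ℝ) / m - d.v)) = m * J F d ((y : ℝ) / m - d.v) := by field_simp
      rw [e2] at h4
      have h5 := CI_e hy
      linarith
  have h2 := (h.lev hd hb hn _).1 h1
  have e1 : (y : ℝ) - d.v * m = n * (((y : ℝ) - d.v * m) / n) := by field_simp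
  rw [e1]
  constructor
  · have := mul_le_mul_of_nonneg_left h2.1 hn0.le
    linarith
  · exact mul_le_mul_of_nonneg_left h2.2 hn0.le

theorem Dirs.ln_upper (h : Dirs F κ K Ds) (hd : d ∈ Ds) {b : ℝ} (hb : 0 ≤ b) {n : ℕ} (hn : 1 ≤ n) {B : ℝ}
    (hB1 : EE F d n ≤ B) (hB : B ≤ b * EE F d n) : (ln F d n B : ℝ) ≤ n * vA b F d n := by
  obtain ⟨m, hm1, hmn, y, h1, h2⟩ := ln_mem (h.adm d hd) hn hB1
  have hB0 : 0 ≤ B := (EE_pos F d n).le.trans hB1
  have h3 := (h.CI_lev hd hb hn hmn hB h1 hB0).1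
  have h4 := (h.CI_lev hd hb hn hmn hB h2 hB0).2
  unfold vA
  push_cast at h4
  linarith

/-- The upper bound at any level of the width. -/
theorem Dirs.ln_upper' (h : Dirs F κ K Ds) (hd : d ∈ Ds) {a b : ℝ} (ha : 0 < a) (hb : 0 ≤ b) {n : ℕ} (hn : 1 ≤ n) {B : ℝ}
    (hB1 : EE F d n ≤ B) (hB : B ≤ b * EE F d n) : (ln F d n B : ℝ) ≤ max 1 (b / a) * (n * vA a F d n) := by
  have h1 := h.ln_upper hd hb hn hB1 hB
  have h2 : b ≤ max 1 (b / a) * a := by
    have h3 : b / a * a ≤ max 1 (b / a) * a := mul_le_mul_of_nonneg_right (le_max_right _ _) ha.le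
    rwa [div_mul_cancel₀ _ ha.ne'] at h3
  have h3 := (h.vA_level_mono hd hb h2 n).trans (h.vA_level_mul hd ha.le (le_max_left 1 (b / a)) n)
  have hn0 : (0 : ℝ) ≤ n := Nat.cast_nonneg n
  have h4 := mul_le_mul_of_nonneg_left h3 hn0
  linarith

/-- Between the cheapest displacement and an end of the cheap interval the cost is below `2 EE` on a definite part. -/
theorem Dirs.part (h : Dirs F κ K Ds) (hd : d ∈ Ds) {C' : ℝ} {n : ℕ} (hn : 1 ≤ n) {y z : ℤ}
    (hz : e F d n z ≤ C' * EE F d n) (h1 : |((y : ℝ) - xs F d n)| * (2 * C') ≤ |(z : ℝ) - xs F d n|)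
    (h2 : (xs F d n ≤ y ∧ y ≤ z) ∨ (z ≤ y ∧ y ≤ xs F d n)) : e F d n y ≤ 2 * EE F d n := by
  have hadm := h.adm d hd
  have hE := EE_pos F d n
  have hCr := Cr_pos F
  have hx : e F d n (xs F d n) ≤ EE F d n := by
    have h3 := e_xs_le hadm n
    have h4 := le_EE F d (le_refl n)
    linarith
  rcases h2 with ⟨ha, hb⟩ | ⟨ha, hb⟩
  · have ha' : (xs F d n : ℝ) ≤ y := by exact_mod_cast ha
    have hb' : (y : ℝ) ≤ z := by exact_mod_cast hb
    rw [abs_of_nonneg (by linarith), abs_of_nonneg (by linarith)] at h1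
    rcases eq_or_lt_of_le (ha'.trans hb') with h0 | h0
    · have : y = xs F d n := by
        have : (y : ℝ) = xs F d n := by linarith
        exact_mod_cast this
      rw [this]
      linarith
    have h5 := e_chord F d hn ha hb
    have h6 : ((z : ℝ) - y) * e F d n (xs F d n) ≤ (z - xs F d n) * EE F d n := by
      calc ((z : ℝ) - y) * e F d n (xs F d n) ≤ (z - y) * EE F d n := mul_le_mul_of_nonneg_left hx (by linarith)
        _ ≤ (z - xs F d n) * EE F d n := mul_le_mul_of_nonneg_right (by linarith) hE.le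
    have h7 : ((y : ℝ) - xs F d n) * e F d n z ≤ (z - xs F d n) * EE F d n := by
      calc ((y : ℝ) - xs F d n) * e F d n z ≤ (y - xs F d n) * (C' * EE F d n) := mul_le_mul_of_nonneg_left hz (by linarith)
        _ = ((y - xs F d n) * C') * EE F d n := by ring
        _ ≤ (z - xs F d n) * EE F d n := mul_le_mul_of_nonneg_right (by nlinarith) hE.le
    have h8 : ((z : ℝ) - xs F d n) * e F d n y ≤ (z - xs F d n) * (2 * EE F d n) := by linarith
    exact le_of_mul_le_mul_left h8 (by linarith)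
  · have ha' : (z : ℝ) ≤ y := by exact_mod_cast ha
    have hb' : (y : ℝ) ≤ xs F d n := by exact_mod_cast hb
    rw [abs_of_nonpos (by linarith), abs_of_nonpos (by linarith)] at h1
    rcases eq_or_lt_of_le (ha'.trans hb') with h0 | h0
    · have : y = xs F d n := by
        have : (y : ℝ) = xs F d n := by linarith
        exact_mod_cast this
      rw [this]
      linarith
    have h5 := e_chord F d hn ha hb
    have h6 : ((y : ℝ) - z) * e F d n (xs F d n) ≤ (xs F d n - z) * EE F d n := by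
      calc ((y : ℝ) - z) * e F d n (xs F d n) ≤ (y - z) * EE F d n := mul_le_mul_of_nonneg_left hx (by linarith)
        _ ≤ (xs F d n - z) * EE F d n := mul_le_mul_of_nonneg_right (by linarith) hE.le
    have h7 : ((xs F d n : ℝ) - y) * e F d n z ≤ (xs F d n - z) * EE F d n := by
      calc ((xs F d n : ℝ) - y) * e F d n z ≤ (xs F d n - y) * (C' * EE F d n) := mul_le_mul_of_nonneg_left hz (by linarith)
        _ = ((xs F d n - y) * C') * EE F d n := by ring
        _ ≤ (xs F d n - z) * EE F d n := mul_le_mul_of_nonneg_right (by nlinarith) hE.le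
    have h8 : ((xs F d n : ℝ) - z) * e F d n y ≤ (xs F d n - z) * (2 * EE F d n) := by linarith
    exact le_of_mul_le_mul_left h8 (by linarith)

/-- Around the cheapest displacement there is an interval of length `c w_n - 3` on which the cost is below `2 EE`. -/
theorem Dirs.cheap2 (h : Dirs F κ K Ds) {a c0 C' : ℝ} (hC' : 1 ≤ C') (hch : CheapI a F Ds c0 C')
    (hd : d ∈ Ds) {n : ℕ} (hn : 1 ≤ n) : ∃ lo hi : ℤ, lo ≤ xs F d n ∧ xs F d n ≤ hi ∧
      c0 / (2 * C') * (n * vA a F d n) - 3 ≤ (hi : ℝ) - lo ∧ (∀ y : ℤ, lo ≤ y → y ≤ hi → e F d n y ≤ 2 * EE F d n) := by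
  obtain ⟨lo', hi', h1, h2, h3, h4⟩ := hch d hd n hn
  have h1' : (lo' : ℝ) ≤ xs F d n := by exact_mod_cast h1
  have h2' : (xs F d n : ℝ) ≤ hi' := by exact_mod_cast h2
  have hC0 : 0 < 2 * C' := by linarith
  obtain ⟨p, hp⟩ : ∃ p : ℤ, p = ⌊((xs F d n : ℝ) - lo') / (2 * C')⌋ := ⟨_, rfl⟩
  obtain ⟨q, hq⟩ : ∃ q : ℤ, q = ⌊((hi' : ℝ) - xs F d n) / (2 * C')⌋ := ⟨_, rfl⟩
  have hp0 : 0 ≤ p := by rw [hp]; exact Int.floor_nonneg.2 (div_nonneg (by linarith) hC0.le)
  have hq0 : 0 ≤ q := by rw [hq]; exact Int.floor_nonneg.2 (div_nonneg (by linarith) hC0.le)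
  have hp1 : (p : ℝ) * (2 * C') ≤ xs F d n - lo' := by
    rw [← le_div_iff₀ hC0, hp]
    exact Int.floor_le _
  have hq1 : (q : ℝ) * (2 * C') ≤ hi' - xs F d n := by
    rw [← le_div_iff₀ hC0, hq]
    exact Int.floor_le _
  have hp2 : ((xs F d n : ℝ) - lo') / (2 * C') - 1 < p := by rw [hp]; exact Int.sub_one_lt_floor _
  have hq2 : ((hi' : ℝ) - xs F d n) / (2 * C') - 1 < q := by rw [hq]; exact Int.sub_one_lt_floor _
  have hp0' : (0 : ℝ) ≤ p := by exact_mod_cast hp0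
  have hq0' : (0 : ℝ) ≤ q := by exact_mod_cast hq0
  have hlo : (lo' : ℝ) ≤ xs F d n - p := by nlinarith
  have hhi : (xs F d n : ℝ) + q ≤ hi' := by nlinarith
  refine ⟨xs F d n - p, xs F d n + q, by omega, by omega, ?_, fun y hy1 hy2 => ?_⟩
  · push_cast
    have h5 : (c0 * (n * vA a F d n) - 1) / (2 * C') ≤ ((hi' : ℝ) - lo') / (2 * C') := div_le_div_of_nonneg_right h3 hC0.le
    have e1 : ((hi' : ℝ) - lo') / (2 * C') = ((xs F d n : ℝ) - lo') / (2 * C') + ((hi' : ℝ) - xs F d n) / (2 * C') := by ring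
    have e2 : (c0 * (n * vA a F d n) - 1) / (2 * C') = c0 / (2 * C') * (n * vA a F d n) - 1 / (2 * C') := by ring
    have h6 : 1 / (2 * C') ≤ 1 := by rw [div_le_one hC0]; linarith
    linarith
  · rcases le_total (xs F d n) y with h5 | h5
    · refine h.part hd hn (h4 hi' (h1.trans h2) le_rfl).1 ?_ (Or.inl ⟨h5, ?_⟩)
      · have h5' : (xs F d n : ℝ) ≤ y := by exact_mod_cast h5
        have h6 : (y : ℝ) ≤ xs F d n + q := by exact_mod_cast hy2
        rw [abs_of_nonneg (by linarith), abs_of_nonneg (by linarith)]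
        nlinarith
      · have h6 : (y : ℝ) ≤ xs F d n + q := by exact_mod_cast hy2
        have h7 : (y : ℝ) ≤ hi' := by linarith
        exact_mod_cast h7
    · refine h.part hd hn (h4 lo' le_rfl (h1.trans h2)).1 ?_ (Or.inr ⟨?_, h5⟩)
      · have h5' : (y : ℝ) ≤ xs F d n := by exact_mod_cast h5
        have h6 : (xs F d n : ℝ) - p ≤ y := by exact_mod_cast hy1
        rw [abs_of_nonpos (by linarith), abs_of_nonpos (by linarith)]
        nlinarith
      · have h6 : (xs F d n : ℝ) - p ≤ y := by exact_mod_cast hy1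
        have h7 : (lo' : ℝ) ≤ y := by linarith
        exact_mod_cast h7

/-- The lower bound for the length of the cheap sets. -/
theorem Dirs.ln_lower (h : Dirs F κ K Ds) (hR : Rate F Ds) {a c0 C' : ℝ} (ha : 0 < a) (hc0 : 0 < c0)
    (hch : CheapI a F Ds c0 C') :
    ∃ (c : ℝ) (n0 : ℕ), 0 < c ∧ 1 ≤ n0 ∧ ∀ d ∈ Ds, ∀ n : ℕ, n0 ≤ n → ∀ B : ℝ, 2 * EE F d n ≤ B →
      c * (n * vA a F d n) ≤ ln F d n B := by
  obtain ⟨C2, hC2, hC2'⟩ : ∃ C2 : ℝ, 1 ≤ C2 ∧ C' ≤ C2 := ⟨max 1 C', le_max_left _ _, le_max_right _ _⟩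
  have hch2 := hch.mono hC2'
  have hCr := Cr_pos F
  obtain ⟨n0, hn0, h1⟩ := h.w_large hR ha (6 / (c0 / (2 * C2)) / Cr F)
  have hc : 0 < c0 / (2 * C2) := by positivity
  refine ⟨c0 / (2 * C2) / 2, n0, by positivity, hn0, fun d hd n hn B hB => ?_⟩
  have hn1 := hn0.trans hn
  obtain ⟨lo, hi, h2, h3, h4, h5⟩ := h.cheap2 hC2 hch2 hd hn1
  have h6 : (hi - lo : ℤ) ≤ ln F d n B :=
    le_ln (h.adm d hd) le_rfl (CI_mk hn1 ((h5 lo le_rfl (h2.trans h3)).trans hB)) (CI_mk hn1 ((h5 hi (h2.trans h3) le_rfl).trans hB))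
  have h7 : ((hi : ℝ) - lo) ≤ ln F d n B := by exact_mod_cast h6
  have h8 : 6 / (c0 / (2 * C2)) ≤ n * vA a F d n := by
    refine le_trans ?_ (h1 d hd n hn)
    calc 6 / (c0 / (2 * C2)) = 6 / (c0 / (2 * C2)) / Cr F * Cr F := by field_simp
      _ ≤ 6 / (c0 / (2 * C2)) / Cr F * EE F d n := mul_le_mul_of_nonneg_left (Cr_le_EE F d n) (by positivity)
  have h9 : 6 ≤ c0 / (2 * C2) * (n * vA a F d n) := by
    rw [div_le_iff₀ hc] at h8
    linarith
  linarith

end

end Pool.Agent.W_1b8d5d_p
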