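import Pool.Agent.W_1b8d5d_p.ElJ
import Pool.Agent.W_1b8d5d_p.UnitL

/-!
TRACK P, (EL) at zero temperature (proofs row 632): (EL) from the cheap intervals `CheapI`. helper67.
-/

set_option autoImplicit false

namespace Pool.Agent.W_1b8d5d_p.El0

open MeasureTheory Set
open Pool.Agent.W_1b8d5d_h85
open Pool.Agent.W_1b8d5d_p
open Pool.Agent.W_1b8d5d_p66 (GG ex)
open Pool.Agent.W_1b8d5d_h4p (LawH Sf)

/-- The theorem (EL) as a property of a family of directions; `C`, `K3` do not depend on `A`, `W0`, the direction, the scale. -/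
def ELP (a : ℝ) (F : Fm) (ka : ℝ) (Ds : Set Dr) (C K3 : ℝ) : Prop :=
  ∀ A : ℝ, 1 ≤ A → ∀ W0 : ℝ, ∃ (al : ℝ) (x0 : ℕ), 0 ≤ al ∧ ∀ d ∈ Ds, ∀ x : ℕ, x0 ≤ x →
    ¬ Sf F ka d x al → ∃ w : ℕ, W0 ≤ w ∧ W0 * EE F d (2 ^ x) ≤ w ∧ vA a F d (2 ^ x) * 2 ^ x ≤ w ∧
      (w : ℝ) ≤ C * (vA a F d (2 ^ x) * 2 ^ x) ∧
      ∀ t wq : ℕ, 1 ≤ t → t ≤ 2 ^ (x + 1) → w ≤ 2 * wq → wq ≤ w → ∀ y0 : ℤ,
        ∫⁻ η, GG F d (A / (K3 * EE F d (2 ^ x))) 0 0 t y0 (wq : ℤ) η ^ 4 ∂(law F) ≤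
          ex (4 * (135 * A - |(y0 : ℝ) - d.v * t| / wq))

/-- **(EL) at zero temperature**, from the cheap intervals. -/
theorem EL_main {F : Fm} {ka K c0 C0 a c0' C' : ℝ} {Ds : Set Dr} (hL : LawH F c0 C0) (hD : Dirs F ka K Ds) (hR : Rate F Ds)
    (hG : Grow F Ds) (ha : 0 < a) (hc : 0 < c0') (hch : CheapI a F Ds c0' C') :
    ∃ C K3 : ℝ, 1 ≤ C ∧ 1 ≤ K3 ∧ ELP a F ka Ds C K3 := by
  obtain ⟨c, n0, hc1, -, h⟩ := hD.ln_lower hR ha hc hch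
  refine EL_P hL hD hR hG ha (c1 := c) hc1 (nc := n0) fun d hd n hn => ?_
  have h1 := h d hd n hn (2 * EE F d (12 * n)) (by
    have := EE_mono F d (show n ≤ 12 * n by omega)
    linarith)
  rwa [mul_comm (n : ℝ)] at h1

end Pool.Agent.W_1b8d5d_p.El0
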