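import Pool.Agent.W_1b8d5d_p.DPj
import Pool.Agent.W_1b8d5d_p.ElK
import Pool.Agent.W_1b8d5d_p.IfaceP

/-!
Track P (MP_1b8d5d_pr), section 5 of the map (D7): the predicate `D7P` of the interface from the law, the cheap displacements and
(I1). (helper66)
-/

namespace Pool.Agent.W_1b8d5d_p66

open MeasureTheory Set Pool.Agent.W_1b8d5d_h85 Pool.Agent.W_1b8d5d_p Pool.Agent.W_1b8d5d_h4p
open scoped ENNReal

/-- (EL) in the form used by `d7S`. -/
theorem elp_of {a : ℝ} {F : Fm} {κ : ℝ} {Ds : Set Dr} {C K3 : ℝ} (hC : 1 ≤ C) (hK3 : 1 ≤ K3)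
    (h : El0.ELP a F κ Ds C K3) : ELP a F κ Ds := by
  obtain ⟨C', hC'⟩ : ∃ C' : ℝ, C' = max C K3 := ⟨_, rfl⟩
  have h1 : C ≤ C' := by rw [hC']; exact le_max_left _ _
  have h2 : K3 ≤ C' := by rw [hC']; exact le_max_right _ _
  have hK0 : 0 < K3 := by linarith
  have hC0 : 0 < C' := by linarith
  refine ⟨C' / K3, C', 135, by linarith, by norm_num, fun A hA W₀ => ?_⟩
  rw [div_le_iff₀ hK0] at hA
  have hA1 : 1 ≤ A * K3 / C' := by rwa [le_div_iff₀ hC0, one_mul]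
  have hA0 : 0 ≤ A := by
    by_contra hc
    push Not at hc
    have : A * K3 < 0 := mul_neg_of_neg_of_pos hc hK0
    linarith
  have hAA : A * K3 / C' ≤ A := by
    rw [div_le_iff₀ hC0]
    exact mul_le_mul_of_nonneg_left h2 hA0
  obtain ⟨α, x₀, -, h⟩ := h (A * K3 / C') hA1 W₀
  refine ⟨α, x₀, fun d hd x hx hS => ?_⟩
  obtain ⟨w, w1, w2, w3, w4, w5⟩ := h d hd x hx hS
  have hw0 : (0 : ℝ) ≤ w := Nat.cast_nonneg w
  have hv0 : 0 ≤ vA a F d (2 ^ x) * 2 ^ x := by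
    by_contra hc
    push Not at hc
    have : C * (vA a F d (2 ^ x) * 2 ^ x) < 0 := mul_neg_of_pos_of_neg (by linarith) hc
    linarith
  refine ⟨w, w1, w2, w4.trans (mul_le_mul_of_nonneg_right h1 hv0), w3.trans ?_, fun t wq ht1 ht2 hq1 hq2 y0 => ?_⟩
  · have := mul_le_mul_of_nonneg_right (show 1 ≤ C' by linarith) hw0
    linarith
  · have h3 := w5 t wq ht1 ht2 hq1 hq2 y0
    have h4 : A / (C' * EE F d (2 ^ x)) = A * K3 / C' / (K3 * EE F d (2 ^ x)) := by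
      have := EE_pos F d (2 ^ x)
      field_simp
    rw [h4]
    refine h3.trans (ex_mono ?_)
    linarith

/-- **(D7) OF THE INTERFACE.** -/
theorem d7_main {F : Fm} {κ K : ℝ} {Ds : Set Dr} {c0 C0 a : ℝ} (hL : LawH F c0 C0) (hD : Dirs F κ K Ds)
    (hr : Rate F Ds) (ha : 0 < a) (hCh : CheapP a F Ds) (hI : I1P F κ Ds) : D7P F κ Ds := by
  have hg : Grow F Ds := hD.grow_law hL
  obtain ⟨cc, Cc, hcc, hch⟩ := hCh
  have hchI : CheapI a F Ds cc Cc := hch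
  obtain ⟨C, K3, hC, hK3, hel⟩ := El0.EL_main hL hD hr hg ha hcc hchI
  exact d7S hL hD hg hr ha hcc hchI (elp_of hC hK3 hel) hI

end Pool.Agent.W_1b8d5d_p66
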