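import Pool.Agent.W_1b8d5d_p.DirsA
import Pool.Agent.W_1b8d5d_p.Curv

/-!
MP_1b8d5d_pr, Track P, the bridge: finitely many coordinates cover all directions of an octant; the local lower bounds at all points
from the lower bounds of the rate functions; the final curvature statement.
-/

namespace Pool.Agent.W_1b8d5d_p

open MeasureTheory Set Filter Topology

variable {μ : (Fin 2 → ℝ) → ℝ} {a b : ℝ}

/-! ### Supporting forms -/

/-- The form with the coefficients `h1`, `h2`. -/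
noncomputable def fm2 (h1 h2 : ℝ) : (Fin 2 → ℝ) →ₗ[ℝ] ℝ where
  toFun x := h1 * x 0 + h2 * x 1
  map_add' x y := by
    simp only [Pi.add_apply]
    ring
  map_smul' s x := by
    simp only [Pi.smul_apply, smul_eq_mul, RingHom.id_apply]
    ring

@[simp] theorem fm2_apply (h1 h2 : ℝ) (x : Fin 2 → ℝ) : fm2 h1 h2 x = h1 * x 0 + h2 * x 1 := rfl

/-- There is a supporting form at every point. -/
theorem exists_form (hN : NormP μ a b) {z : Fin 2 → ℝ} (hz : z ≠ 0) : ∃ h1 h2 : ℝ,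
    (∀ x : Fin 2 → ℝ, h1 * x 0 + h2 * x 1 ≤ μ x) ∧ h1 * z 0 + h2 * z 1 = μ z := by
  have hd := (hN.diff z hz).hasFDerivAt
  obtain ⟨f, hf⟩ : ∃ f, f = fderiv ℝ μ z := ⟨_, rfl⟩
  rw [← hf] at hd
  have hcoord : ∀ x : Fin 2 → ℝ, f x = f ![1, 0] * x 0 + f ![0, 1] * x 1 := by
    intro x
    have e : x = x 0 • ![(1 : ℝ), 0] + x 1 • ![(0 : ℝ), 1] := by
      funext i
      fin_cases i
      · show x 0 = x 0 * 1 + x 1 * 0
        ring
      · show x 1 = x 0 * 0 + x 1 * 1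
        ring
    calc f x = f (x 0 • ![(1 : ℝ), 0] + x 1 • ![(0 : ℝ), 1]) := by rw [← e]
      _ = f ![1, 0] * x 0 + f ![0, 1] * x 1 := by
        rw [map_add, map_smul, map_smul, smul_eq_mul, smul_eq_mul]
        ring
  have hline : ∀ y : Fin 2 → ℝ, HasDerivAt (fun t : ℝ => μ (z + t • y)) (f y) 0 := by
    intro y
    have h1 : HasDerivAt (fun t : ℝ => z + t • y) y 0 := by
      have h2 := ((hasDerivAt_id (0 : ℝ)).smul_const y).const_add z
      simpa using h2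
    have h3 : HasFDerivAt μ f (z + (0 : ℝ) • y) := by rwa [zero_smul, add_zero]
    exact HasFDerivAt.comp_hasDerivAt (x := (0 : ℝ)) h3 h1
  refine ⟨f ![1, 0], f ![0, 1], fun y => ?_, ?_⟩
  · rw [← hcoord y]
    have h1 := (hline y).tendsto_slope_zero_right
    refine le_of_tendsto h1 ?_
    filter_upwards [self_mem_nhdsWithin] with t ht
    have ht0 : (0 : ℝ) < t := ht
    have h2 := hN.sub z (t • y)
    rw [hN.hom t y ht0.le] at h2
    rw [zero_add, zero_smul, add_zero, smul_eq_mul, inv_mul_le_iff₀ ht0]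
    linarith
  · rw [← hcoord z]
    have h1 := (hline z).tendsto_slope_zero_right
    refine tendsto_nhds_unique h1 ?_
    refine tendsto_const_nhds.congr' ?_
    filter_upwards [self_mem_nhdsWithin] with t ht
    have ht0 : (0 : ℝ) < t := ht
    have e : z + t • z = (1 + t) • z := by rw [add_smul, one_smul]
    rw [zero_add, zero_smul, add_zero, e, hN.hom _ _ (by linarith), smul_eq_mul]
    field_simp
    ring

theorem NormP.refl1 (hN : NormP μ a b) (x : Fin 2 → ℝ) : μ ![x 0, -x 1] = μ x := by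
  have h1 := hN.swap ![x 0, -x 1]
  have h2 := hN.refl ![x 1, x 0]
  have h3 := hN.swap x
  have e1 : (![(![x 0, -x 1] : Fin 2 → ℝ) 1, (![x 0, -x 1] : Fin 2 → ℝ) 0] : Fin 2 → ℝ) = ![-x 1, x 0] := rfl
  have e2 : (![-(![x 1, x 0] : Fin 2 → ℝ) 0, (![x 1, x 0] : Fin 2 → ℝ) 1] : Fin 2 → ℝ) = ![-x 1, x 0] := rfl
  rw [e1] at h1
  rw [e2] at h2
  rw [← h1, h2, h3]

/-- In the octant there is a supporting form with ordered coefficients. -/
theorem exists_form_oct (hN : NormP μ a b) {z : Fin 2 → ℝ} (hz : μ z = 1) (hz1 : 0 ≤ z 1) (hz0 : z 1 ≤ z 0) : ∃ h1 h2 : ℝ,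
    (0 ≤ h2 ∧ h2 ≤ h1 ∧ h1 ≤ b) ∧ (∀ x : Fin 2 → ℝ, h1 * x 0 + h2 * x 1 ≤ μ x) ∧ h1 * z 0 + h2 * z 1 = μ z := by
  have hne : z ≠ 0 := by
    rintro rfl
    have := hN.hom 0 0 le_rfl
    rw [zero_smul, hz] at this
    linarith
  have hz00 : 0 < z 0 := by
    rcases eq_or_lt_of_le (hz1.trans hz0) with h | h
    · exfalso
      apply hne
      funext i
      fin_cases i
      · exact h.symm
      · show z 1 = 0
        linarith
    · exact h
  obtain ⟨h1, h2, h3, h4⟩ := exists_form hN hne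
  have hpos1 : 0 ≤ h1 := by
    have e1 := h3 ![-z 0, z 1]
    rw [hN.refl z, ← h4] at e1
    have e2 : h1 * -z 0 + h2 * z 1 ≤ h1 * z 0 + h2 * z 1 := e1
    nlinarith
  -- the sign of `h2`
  obtain ⟨h1, h2, h3, h4, hpos1, hpos2⟩ : ∃ h1 h2 : ℝ, (∀ x : Fin 2 → ℝ, h1 * x 0 + h2 * x 1 ≤ μ x) ∧
      h1 * z 0 + h2 * z 1 = μ z ∧ 0 ≤ h1 ∧ 0 ≤ h2 := by
    rcases le_total 0 h2 with h5 | h5
    · exact ⟨h1, h2, h3, h4, hpos1, h5⟩
    · have e1 := h3 ![z 0, -z 1]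
      rw [hN.refl1 z, ← h4] at e1
      have e2 : h1 * z 0 + h2 * -z 1 ≤ h1 * z 0 + h2 * z 1 := e1
      have e3 : h2 * z 1 = 0 := by
        have e4 : h2 * z 1 ≤ 0 := mul_nonpos_of_nonpos_of_nonneg h5 hz1
        linarith
      refine ⟨h1, -h2, fun x => ?_, by linarith, hpos1, by linarith⟩
      have e4 := h3 ![x 0, -x 1]
      rw [hN.refl1 x] at e4
      have e5 : h1 * x 0 + h2 * -x 1 ≤ μ x := e4
      linarith
  -- the order
  obtain ⟨h1, h2, h3, h4, hpos2, hord⟩ : ∃ h1 h2 : ℝ, (∀ x : Fin 2 → ℝ, h1 * x 0 + h2 * x 1 ≤ μ x) ∧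
      h1 * z 0 + h2 * z 1 = μ z ∧ 0 ≤ h2 ∧ h2 ≤ h1 := by
    rcases le_total h2 h1 with h5 | h5
    · exact ⟨h1, h2, h3, h4, hpos2, h5⟩
    · have e1 := h3 ![z 1, z 0]
      rw [hN.swap z, ← h4] at e1
      have e2 : h1 * z 1 + h2 * z 0 ≤ h1 * z 0 + h2 * z 1 := e1
      refine ⟨h2, h1, fun x => ?_, ?_, hpos1, h5⟩
      · have e4 := h3 ![x 1, x 0]
        rw [hN.swap x] at e4
        have e5 : h1 * x 1 + h2 * x 0 ≤ μ x := e4
        linarith
      · refine le_antisymm ?_ ?_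
        · have e4 := h3 ![z 1, z 0]
          rw [hN.swap z] at e4
          have e5 : h1 * z 1 + h2 * z 0 ≤ μ z := e4
          linarith
        · rw [← h4]
          nlinarith
  refine ⟨h1, h2, ⟨hpos2, hord, ?_⟩, h3, h4⟩
  have e1 := (h3 ![1, 0]).trans (hN.upp ![1, 0])
  have e2 : h1 * 1 + h2 * 0 ≤ b * (|1| + |0|) := e1
  simpa using e2

/-! ### Finitely many coordinates -/

/-- The coordinates with `q / p = j / (N + 1)`. -/
def coOf (N j : ℕ) : Co where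
  p := ((N + 1) / Nat.gcd (N + 1) j : ℕ)
  q := (j / Nat.gcd (N + 1) j : ℕ)
  r := Nat.gcdA ((N + 1) / Nat.gcd (N + 1) j) (j / Nat.gcd (N + 1) j)
  s := Nat.gcdB ((N + 1) / Nat.gcd (N + 1) j) (j / Nat.gcd (N + 1) j)
  hp := by
    have h1 : 0 < Nat.gcd (N + 1) j := Nat.gcd_pos_of_pos_left _ (Nat.succ_pos _)
    have h2 : 0 < (N + 1) / Nat.gcd (N + 1) j := Nat.div_pos (Nat.le_of_dvd (Nat.succ_pos _) (Nat.gcd_dvd_left _ _)) h1
    exact_mod_cast h2
  hq := Int.natCast_nonneg _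
  det := by
    have h1 : 0 < Nat.gcd (N + 1) j := Nat.gcd_pos_of_pos_left _ (Nat.succ_pos _)
    have h2 := Nat.coprime_div_gcd_div_gcd h1
    have h3 := Nat.gcd_eq_gcd_ab ((N + 1) / Nat.gcd (N + 1) j) (j / Nat.gcd (N + 1) j)
    rw [h2] at h3
    exact_mod_cast h3.symm

theorem coOf_eq (N j : ℕ) : ∃ g : ℕ, 0 < g ∧ (g : ℤ) * (coOf N j).p = N + 1 ∧ (g : ℤ) * (coOf N j).q = j := by
  refine ⟨Nat.gcd (N + 1) j, Nat.gcd_pos_of_pos_left _ (Nat.succ_pos _), ?_, ?_⟩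
  · have h := Nat.mul_div_cancel' (Nat.gcd_dvd_left (N + 1) j)
    show ((Nat.gcd (N + 1) j : ℕ) : ℤ) * (((N + 1) / Nat.gcd (N + 1) j : ℕ) : ℤ) = N + 1
    exact_mod_cast h
  · have h := Nat.mul_div_cancel' (Nat.gcd_dvd_right (N + 1) j)
    show ((Nat.gcd (N + 1) j : ℕ) : ℤ) * ((j / Nat.gcd (N + 1) j : ℕ) : ℤ) = j
    exact_mod_cast h

/-- The real time and position. -/
noncomputable def tmR (c : Co) (z : Fin 2 → ℝ) : ℝ := c.p * z 0 + c.q * z 1

noncomputable def psR (c : Co) (z : Fin 2 → ℝ) : ℝ := c.r * z 1 - c.s * z 0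

theorem det_real (c : Co) : (c.p : ℝ) * c.r + c.q * c.s = 1 := by exact_mod_cast c.det

theorem z_eq (c : Co) {z : Fin 2 → ℝ} (h : tmR c z ≠ 0) : ptF c (c.L * psR c z / tmR c z) = (c.L / tmR c z) • z := by
  have hd := det_real c
  have h0 : tmR c z * c.r - psR c z * c.q = z 0 := by
    unfold tmR psR
    linear_combination (z 0) * hd
  have h1 : tmR c z * c.s + psR c z * c.p = z 1 := by
    unfold tmR psR
    linear_combination (z 1) * hd
  funext i
  fin_cases i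
  · show (c.L * c.r - c.L * psR c z / tmR c z * c.q : ℝ) = c.L / tmR c z * z 0
    rw [← h0]
    field_simp
  · show (c.L * c.s + c.L * psR c z / tmR c z * c.p : ℝ) = c.L / tmR c z * z 1
    rw [← h1]
    field_simp

theorem M_one (c : Co) : (1 : ℝ) ≤ c.M := by exact_mod_cast c.M_pos

theorem R_one (c : Co) : (1 : ℝ) ≤ c.R := by exact_mod_cast c.R_pos

theorem abs_tmR (c : Co) (z : Fin 2 → ℝ) : |tmR c z| ≤ c.M * (|z 0| + |z 1|) := by
  have hp : (1 : ℝ) ≤ c.p := by exact_mod_cast c.hp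
  have hq : (0 : ℝ) ≤ c.q := by exact_mod_cast c.hq
  have hM : (c.M : ℝ) = c.p + c.q := by
    unfold Co.M
    push_cast
    ring
  unfold tmR
  refine (abs_add_le _ _).trans ?_
  rw [abs_mul, abs_mul, abs_of_nonneg (by linarith : (0 : ℝ) ≤ c.p), abs_of_nonneg hq, hM]
  nlinarith [abs_nonneg (z 0), abs_nonneg (z 1)]

theorem abs_psR (c : Co) (z : Fin 2 → ℝ) : |psR c z| ≤ c.R * (|z 0| + |z 1|) := by
  have hR : (c.R : ℝ) = |(c.r : ℝ)| + |(c.s : ℝ)| := by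
    unfold Co.R
    push_cast
    ring
  unfold psR
  refine (abs_sub _ _).trans ?_
  rw [abs_mul, abs_mul, hR]
  nlinarith [abs_nonneg (z 0), abs_nonneg (z 1), abs_nonneg (c.r : ℝ), abs_nonneg (c.s : ℝ)]

/-- Points of the unit circle in the octant. -/
theorem oct_bounds (hN : NormP μ a b) (ha : 0 < a) {z : Fin 2 → ℝ} (hz : μ z = 1) (hz1 : 0 ≤ z 1) (hz0 : z 1 ≤ z 0) (c : Co) :
    0 < b ∧ 1 / (2 * b) ≤ tmR c z ∧ |z 0| + |z 1| ≤ 1 / a := by
  have h1 := hN.low z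
  have h2 := hN.upp z
  rw [hz] at h1 h2
  have h3 : |z 0| + |z 1| ≤ 1 / a := by
    rw [le_div_iff₀ ha]
    linarith
  have h4 : 0 ≤ |z 0| + |z 1| := by positivity
  have hb : 0 < b := by
    by_contra hcon
    push Not at hcon
    have : b * (|z 0| + |z 1|) ≤ 0 := mul_nonpos_of_nonpos_of_nonneg hcon h4
    linarith
  refine ⟨hb, ?_, h3⟩
  rw [abs_of_nonneg (hz1.trans hz0), abs_of_nonneg hz1] at h2
  have hp : (1 : ℝ) ≤ c.p := by exact_mod_cast c.hp
  have hq : (0 : ℝ) ≤ c.q := by exact_mod_cast c.hq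
  have h5 : z 0 ≤ tmR c z := by
    unfold tmR
    nlinarith [mul_nonneg hq hz1, hz1.trans hz0]
  rw [div_le_iff₀ (by positivity)]
  nlinarith

/-- **Finitely many coordinates cover the octant.** -/
theorem cover (hN : NormP μ a b) (ha : 0 < a) : ∃ (N : ℕ) (K : ℝ), ∀ z : Fin 2 → ℝ, μ z = 1 → 0 ≤ z 1 → z 1 ≤ z 0 →
    ∃ j : ℕ, j ≤ N + 1 ∧ ∃ d ∈ DA μ (coOf N j) a b K, d.h1 * z 0 + d.h2 * z 1 = μ z ∧
      d.v = (coOf N j).L * psR (coOf N j) z / tmR (coOf N j) z := by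
  obtain ⟨N, hN1⟩ := exists_nat_gt (2 * b / a)
  obtain ⟨K, hK⟩ : ∃ K : ℝ, ∀ j ≤ N + 1, (coOf N j).L * (coOf N j).R * (2 * b / a) ≤ K := by
    obtain ⟨K, hK⟩ := ((Finset.range (N + 2)).image fun j => ((coOf N j).L * (coOf N j).R * (2 * b / a) : ℝ)).bddAbove
    exact ⟨K, fun j hj => hK (by
      rw [Finset.coe_image]
      exact ⟨j, by simpa using by omega, rfl⟩)⟩
  refine ⟨N, K, fun z hz hz1 hz0 => ?_⟩
  obtain ⟨h1, h2, ⟨e1, e2, e3⟩, h3, h4⟩ := exists_form_oct hN hz hz1 hz0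
  have hh1 : 0 < h1 := by
    rcases eq_or_lt_of_le (e1.trans e2) with h | h
    · exfalso
      rw [← h] at h4 e2
      have : h2 = 0 := le_antisymm e2 e1
      rw [this, hz] at h4
      linarith
    · exact h
  -- the fraction
  obtain ⟨j, hj⟩ : ∃ j : ℕ, j = ⌊h2 / h1 * (N + 1 : ℝ)⌋₊ := ⟨_, rfl⟩
  have hθ0 : 0 ≤ h2 / h1 := div_nonneg e1 hh1.le
  have hθ1 : h2 / h1 ≤ 1 := (div_le_one hh1).2 e2
  have hNp : (0 : ℝ) < (N : ℝ) + 1 := by positivity
  have hj1 : (j : ℝ) ≤ h2 / h1 * (N + 1 : ℝ) := by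
    rw [hj]
    exact Nat.floor_le (by positivity)
  have hj2 : h2 / h1 * (N + 1 : ℝ) < j + 1 := by
    rw [hj]
    exact Nat.lt_floor_add_one _
  have hjN : j ≤ N + 1 := by
    have : (j : ℝ) ≤ N + 1 := hj1.trans (by nlinarith)
    exact_mod_cast this
  obtain ⟨g, hg, hgp, hgq⟩ := coOf_eq N j
  set c := coOf N j with hc
  obtain ⟨hb, htm, hz3⟩ := oct_bounds hN ha hz hz1 hz0 c
  have htm0 : 0 < tmR c z := lt_of_lt_of_le (by positivity) htm
  refine ⟨j, hjN, ⟨h1, h2, c.L * psR c z / tmR c z⟩, ⟨⟨hh1.le, e1, e3, e2.trans e3⟩, ?_, ?_, h3, ?_⟩, h4, rfl⟩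
  · -- the slope
    refine le_trans ?_ (hK j hjN)
    rw [← hc]
    have hL := L_pos' c
    have hR := R_one c
    simp only
    rw [abs_div, abs_mul, abs_of_pos hL, abs_of_pos htm0, div_le_iff₀ htm0]
    have f1 := (abs_psR c z).trans (mul_le_mul_of_nonneg_left hz3 (by linarith))
    have f2 : c.L * |psR c z| ≤ c.L * (c.R * (1 / a)) := mul_le_mul_of_nonneg_left f1 hL.le
    refine f2.trans ?_
    have f3 : (c.L : ℝ) * (c.R * (1 / a)) = c.L * c.R * (2 * b / a) * (1 / (2 * b)) := by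
      field_simp
    rw [f3]
    exact mul_le_mul_of_nonneg_left htm (by positivity)
  · -- the loops
    show |h2 * (c.p : ℝ) - h1 * c.q| ≤ a / 2 * c.M
    have hg' : (0 : ℝ) < g := by exact_mod_cast hg
    have hgp' : (g : ℝ) * c.p = N + 1 := by exact_mod_cast hgp
    have hgq' : (g : ℝ) * c.q = j := by exact_mod_cast hgq
    have hM : (c.M : ℝ) = c.p + c.q := by
      unfold Co.M
      push_cast
      ring
    have f1 : (g : ℝ) * (h2 * (c.p : ℝ) - h1 * c.q) = h2 * (N + 1) - h1 * j := by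
      rw [← hgp', ← hgq']
      ring
    have f2 : |h2 * ((N : ℝ) + 1) - h1 * j| ≤ h1 := by
      have g1 : h2 * ((N : ℝ) + 1) = h1 * (h2 / h1 * (N + 1)) := by field_simp
      rw [g1, ← mul_sub, abs_mul, abs_of_pos hh1]
      have g2 : |h2 / h1 * ((N : ℝ) + 1) - j| ≤ 1 := by
        rw [abs_le]
        constructor <;> linarith
      nlinarith
    have f3 : (g : ℝ) * |h2 * (c.p : ℝ) - h1 * c.q| ≤ b := by
      rw [← abs_of_pos hg', ← abs_mul, f1]
      exact f2.trans e3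
    have f4 : b ≤ (g : ℝ) * (a / 2 * c.M) := by
      have g1 : (g : ℝ) * (a / 2 * c.M) = a / 2 * (N + 1 + j) := by
        rw [hM, ← hgp', ← hgq']
        ring
      rw [g1]
      rw [div_lt_iff₀ ha] at hN1
      nlinarith [Nat.cast_nonneg (α := ℝ) j]
    exact le_of_mul_le_mul_left (f3.trans f4) hg'
  · -- the touching point
    simp only
    rw [z_eq c htm0.ne', hN.hom _ _ (by have := L_pos' c; positivity), ← h4]
    simp only [Pi.smul_apply, smul_eq_mul]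
    ring

end Pool.Agent.W_1b8d5d_p
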