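import Pool.Agent.W_1b8d5d_p.DirsB

/-!
MP_1b8d5d_pr, Track P, the bridge: the local lower bounds at all points of the unit circle from the lower bounds of the rate
functions, and the final curvature statement.
-/

namespace Pool.Agent.W_1b8d5d_p

open MeasureTheory Set Filter Topology

variable {μ : (Fin 2 → ℝ) → ℝ} {a b : ℝ}

/-- The rate function of a direction of the norm `μ`. -/
noncomputable def Jm (μ : (Fin 2 → ℝ) → ℝ) (c : Co) (d : Dr) (x : ℝ) : ℝ :=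
  μ (ptF c (d.v + x)) - (d.h1 * ptF c (d.v + x) 0 + d.h2 * ptF c (d.v + x) 1)

theorem J_eq_Jm {F : Fm} (hmu : ∀ x, mu_ F x = μ (ptF F.co x)) (d : Dr) (x : ℝ) : J F d x = Jm μ F.co d x := J_eq hmu d x

/-- The local lower bound at `z`. -/
def Loc (μ : (Fin 2 → ℝ) → ℝ) (c₀ K δ : ℝ) (z : Fin 2 → ℝ) : Prop :=
  ∃ h : (Fin 2 → ℝ) →ₗ[ℝ] ℝ, (∀ y, h y ≤ μ y) ∧ h z = μ z ∧ ∀ y, μ y = 1 → ‖y - z‖ ≤ δ → c₀ * |crs z y| ^ K ≤ μ y - h y

theorem crs_tm (c : Co) (z y : Fin 2 → ℝ) : psR c y * tmR c z - psR c z * tmR c y = crs z y := by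
  have hd := det_real c
  unfold psR tmR crs
  linear_combination (z 0 * y 1 - z 1 * y 0) * hd

/-- **The local lower bound in the octant**, one choice of coordinates. -/
theorem loc_of_J (hN : NormP μ a b) (ha : 0 < a) (c : Co) {K₀ c₀ K δ : ℝ} (hc₀ : 0 < c₀) (hK : 0 < K) (hδ : 0 < δ)
    (hJ : ∀ d ∈ DA μ c a b K₀, ∀ x : ℝ, |x| ≤ δ → c₀ * |x| ^ K ≤ Jm μ c d x) :
    ∃ c₁ δ₁ : ℝ, 0 < c₁ ∧ 0 < δ₁ ∧ ∀ z : Fin 2 → ℝ, μ z = 1 → 0 ≤ z 1 → z 1 ≤ z 0 → ∀ d ∈ DA μ c a b K₀,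
      d.h1 * z 0 + d.h2 * z 1 = μ z → d.v = c.L * psR c z / tmR c z → Loc μ c₁ K δ₁ z := by
  by_cases hb : 0 < b
  · have hL := L_pos' c
    have hM := M_one c
    obtain ⟨D, hD⟩ : ∃ D : ℝ, D = c.L * (4 * b) * (2 * b) * (2 / a) := ⟨_, rfl⟩
    have hD0 : 0 < D := by rw [hD]; positivity
    refine ⟨1 / (4 * b * c.L) * (c₀ * (c.L * a ^ 2 / c.M ^ 2) ^ K), min (1 / (8 * b * c.M)) (δ / D), by positivity,
      by positivity, fun z hz hz1 hz0 d hd hd1 hd2 => ?_⟩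
    obtain ⟨-, htm, hz3⟩ := oct_bounds hN ha hz hz1 hz0 c
    refine ⟨fm2 d.h1 d.h2, hd.2.2.2.1, hd1, fun y hy hyz => ?_⟩
    have hyz1 := hyz.trans (min_le_left _ _)
    have hyz2 := hyz.trans (min_le_right _ _)
    have h0 : |y 0 - z 0| ≤ ‖y - z‖ := norm_le_pi_norm (y - z) 0
    have h1 : |y 1 - z 1| ≤ ‖y - z‖ := norm_le_pi_norm (y - z) 1
    -- the time of `y`
    have htz : 0 < tmR c z := lt_of_lt_of_le (by positivity) htm
    have hty : 1 / (4 * b) ≤ tmR c y := by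
      have e1 := abs_tmR c (y - z)
      simp only [Pi.sub_apply] at e1
      have e2 : tmR c (y - z) = tmR c y - tmR c z := by
        unfold tmR
        simp only [Pi.sub_apply]
        ring
      rw [e2] at e1
      have e3 : (c.M : ℝ) * (|y 0 - z 0| + |y 1 - z 1|) ≤ 1 / (4 * b) := by
        have e4 : |y 0 - z 0| + |y 1 - z 1| ≤ 2 * (1 / (8 * b * c.M)) := by linarith
        calc (c.M : ℝ) * (|y 0 - z 0| + |y 1 - z 1|) ≤ c.M * (2 * (1 / (8 * b * c.M))) :=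
              mul_le_mul_of_nonneg_left e4 (by linarith)
          _ = 1 / (4 * b) := by
            field_simp
            norm_num
      have e5 := (abs_le.1 e1).1
      have e6 : 1 / (2 * b) = 1 / (4 * b) + 1 / (4 * b) := by
        field_simp
        norm_num
      linarith
    have hty0 : 0 < tmR c y := lt_of_lt_of_le (by positivity) hty
    -- the slope of `y`
    obtain ⟨x, hx⟩ : ∃ x, x = c.L * psR c y / tmR c y - d.v := ⟨_, rfl⟩
    have hx1 : x = c.L * crs z y / (tmR c y * tmR c z) := by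
      rw [hx, hd2, ← crs_tm c z y]
      field_simp
    have hya : |y 0| + |y 1| ≤ 1 / a := by
      have := hN.low y
      rw [hy] at this
      rw [le_div_iff₀ ha]
      linarith
    have hcrs : |crs z y| ≤ 2 / a * ‖y - z‖ := by
      have e1 : crs z y = z 0 * (y 1 - z 1) - z 1 * (y 0 - z 0) := by
        unfold crs
        ring
      rw [e1]
      refine (abs_sub _ _).trans ?_
      rw [abs_mul, abs_mul]
      have e2 : |z 0| * |y 1 - z 1| + |z 1| * |y 0 - z 0| ≤ (|z 0| + |z 1|) * ‖y - z‖ := by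
        nlinarith [abs_nonneg (z 0), abs_nonneg (z 1)]
      refine e2.trans ?_
      have e3 := mul_le_mul_of_nonneg_right hz3 (norm_nonneg (y - z))
      have e4 : 1 / a * ‖y - z‖ ≤ 2 / a * ‖y - z‖ := by
        apply mul_le_mul_of_nonneg_right _ (norm_nonneg _)
        gcongr
        norm_num
      linarith
    have hx2 : |x| ≤ δ := by
      rw [hx1, abs_div, abs_mul, abs_of_pos hL, abs_of_pos (mul_pos hty0 htz), div_le_iff₀ (mul_pos hty0 htz)]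
      have e1 : c.L * |crs z y| ≤ c.L * (2 / a * (δ / D)) :=
        mul_le_mul_of_nonneg_left (hcrs.trans (mul_le_mul_of_nonneg_left hyz2 (by positivity))) hL.le
      refine e1.trans ?_
      have e2 : (c.L : ℝ) * (2 / a * (δ / D)) = δ * (1 / (4 * b) * (1 / (2 * b))) := by
        rw [hD]
        field_simp
      rw [e2]
      exact mul_le_mul_of_nonneg_left (mul_le_mul hty htm (by positivity) hty0.le) hδ.le
    have hx3 : c.L * a ^ 2 / c.M ^ 2 * |crs z y| ≤ |x| := by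
      rw [hx1, abs_div, abs_mul, abs_of_pos hL, abs_of_pos (mul_pos hty0 htz), le_div_iff₀ (mul_pos hty0 htz)]
      have e1 : tmR c y ≤ c.M / a := by
        refine (le_abs_self _).trans ((abs_tmR c y).trans ?_)
        rw [div_eq_mul_one_div]
        exact mul_le_mul_of_nonneg_left hya (by linarith)
      have e2 : tmR c z ≤ c.M / a := by
        refine (le_abs_self _).trans ((abs_tmR c z).trans ?_)
        rw [div_eq_mul_one_div]
        exact mul_le_mul_of_nonneg_left hz3 (by linarith)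
      have e3 : tmR c y * tmR c z ≤ c.M / a * (c.M / a) := mul_le_mul e1 e2 htz.le (by positivity)
      calc c.L * a ^ 2 / c.M ^ 2 * |crs z y| * (tmR c y * tmR c z)
          ≤ c.L * a ^ 2 / c.M ^ 2 * |crs z y| * (c.M / a * (c.M / a)) := mul_le_mul_of_nonneg_left e3 (by positivity)
        _ = c.L * |crs z y| := by field_simp
    -- the rate function
    have hJx := hJ d hd x hx2
    have hval : Jm μ c d x = c.L / tmR c y * (μ y - (d.h1 * y 0 + d.h2 * y 1)) := by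
      unfold Jm
      have e1 : d.v + x = c.L * psR c y / tmR c y := by rw [hx]; ring
      rw [e1, z_eq c hty0.ne', hN.hom _ _ (by positivity)]
      simp only [Pi.smul_apply, smul_eq_mul]
      ring
    rw [hval] at hJx
    have hfin : 1 / (4 * b * c.L) * (c₀ * |x| ^ K) ≤ μ y - (d.h1 * y 0 + d.h2 * y 1) := by
      have e1 := mul_le_mul_of_nonneg_left hJx (by positivity : 0 ≤ tmR c y / c.L)
      have e2 : tmR c y / c.L * (c.L / tmR c y * (μ y - (d.h1 * y 0 + d.h2 * y 1))) = μ y - (d.h1 * y 0 + d.h2 * y 1) := by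
        field_simp
      rw [e2] at e1
      refine le_trans ?_ e1
      apply mul_le_mul_of_nonneg_right _ (by positivity)
      rw [div_le_div_iff₀ (by positivity) hL]
      rw [div_le_iff₀ (by positivity)] at hty
      nlinarith
    rw [fm2_apply]
    refine le_trans ?_ hfin
    rw [mul_assoc]
    refine mul_le_mul_of_nonneg_left ?_ (by positivity)
    rw [mul_assoc]
    refine mul_le_mul_of_nonneg_left ?_ hc₀.le
    rw [← Real.mul_rpow (by positivity) (abs_nonneg _)]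
    exact Real.rpow_le_rpow (by positivity) hx3 hK.le
  · refine ⟨1, 1, one_pos, one_pos, fun z hz hz1 hz0 => ?_⟩
    exact absurd (oct_bounds hN ha hz hz1 hz0 c).1 hb

/-- Monotonicity of the local bounds in the constants. -/
theorem Loc.mono {c₀ c₁ K K' δ δ' : ℝ} {z : Fin 2 → ℝ} (h : Loc μ c₁ K δ z) (hc : c₀ ≤ c₁) (hc0 : 0 ≤ c₀) (hK0 : 0 < K)
    (hK : K ≤ K') (hδ : δ' ≤ δ) (hz : ∀ y, μ y = 1 → ‖y - z‖ ≤ δ' → |crs z y| ≤ 1) : Loc μ c₀ K' δ' z := by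
  obtain ⟨f, h1, h2, h3⟩ := h
  refine ⟨f, h1, h2, fun y hy hyz => le_trans ?_ (h3 y hy (hyz.trans hδ))⟩
  rcases eq_or_lt_of_le (abs_nonneg (crs z y)) with h4 | h4
  · rw [← h4, Real.zero_rpow (by linarith : K' ≠ 0), Real.zero_rpow hK0.ne']
    simp
  · exact mul_le_mul hc (Real.rpow_le_rpow_of_exponent_ge h4 (hz y hy hyz) hK) (by positivity) (hc0.trans hc)

theorem crs_near (hN : NormP μ a b) {z y : Fin 2 → ℝ} (hz : μ z = 1) (hyz : ‖y - z‖ ≤ a / 2) : |crs z y| ≤ 1 := by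
  have h0 : |y 0 - z 0| ≤ ‖y - z‖ := norm_le_pi_norm (y - z) 0
  have h1 : |y 1 - z 1| ≤ ‖y - z‖ := norm_le_pi_norm (y - z) 1
  have h2 := hN.low z
  rw [hz] at h2
  have e1 : crs z y = z 0 * (y 1 - z 1) - z 1 * (y 0 - z 0) := by
    unfold crs
    ring
  rw [e1]
  refine (abs_sub _ _).trans ?_
  rw [abs_mul, abs_mul]
  have e2 : |z 0| * |y 1 - z 1| + |z 1| * |y 0 - z 0| ≤ (|z 0| + |z 1|) * ‖y - z‖ := by
    nlinarith [abs_nonneg (z 0), abs_nonneg (z 1)]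
  have e3 : (|z 0| + |z 1|) * ‖y - z‖ ≤ (|z 0| + |z 1|) * (a / 2) := mul_le_mul_of_nonneg_left hyz (by positivity)
  linarith

/-- Common constants for finitely many choices. -/
theorem common (P : ℕ → ℝ → ℝ → ℝ → Prop) (n : ℕ) (h : ∀ j ≤ n, ∃ c K δ : ℝ, 0 < c ∧ 0 < K ∧ 0 < δ ∧ P j c K δ) :
    ∃ c K δ : ℝ, 0 < c ∧ 0 < K ∧ 0 < δ ∧ ∀ j ≤ n, ∃ c' K' δ' : ℝ, c ≤ c' ∧ 0 < K' ∧ K' ≤ K ∧ δ ≤ δ' ∧ P j c' K' δ' := by
  induction n with
  | zero =>
    obtain ⟨c, K, δ, h1, h2, h3, h4⟩ := h 0 le_rfl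
    refine ⟨c, K, δ, h1, h2, h3, fun j hj => ?_⟩
    obtain rfl : j = 0 := by omega
    exact ⟨c, K, δ, le_rfl, h2, le_rfl, le_rfl, h4⟩
  | succ n ih =>
    obtain ⟨c, K, δ, h1, h2, h3, h4⟩ := ih fun j hj => h j (by omega)
    obtain ⟨c', K', δ', g1, g2, g3, g4⟩ := h (n + 1) le_rfl
    refine ⟨min c c', max K K', min δ δ', lt_min h1 g1, h2.trans_le (le_max_left _ _), lt_min h3 g3, fun j hj => ?_⟩
    rcases Nat.lt_or_ge n j with h5 | h5
    · obtain rfl : j = n + 1 := by omega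
      exact ⟨c', K', δ', min_le_right _ _, g2, le_max_right _ _, min_le_right _ _, g4⟩
    · obtain ⟨c₂, K₂, δ₂, f1, f2, f3, f4, f5⟩ := h4 j h5
      exact ⟨c₂, K₂, δ₂, (min_le_left _ _).trans f1, f2, f3.trans (le_max_left _ _), (min_le_left _ _).trans f4, f5⟩

/-- **The local lower bound in the octant.** -/
theorem loc_oct (hN : NormP μ a b) (ha : 0 < a) {N : ℕ} {K₀ : ℝ}
    (hcov : ∀ z : Fin 2 → ℝ, μ z = 1 → 0 ≤ z 1 → z 1 ≤ z 0 → ∃ j : ℕ, j ≤ N + 1 ∧ ∃ d ∈ DA μ (coOf N j) a b K₀,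
      d.h1 * z 0 + d.h2 * z 1 = μ z ∧ d.v = (coOf N j).L * psR (coOf N j) z / tmR (coOf N j) z)
    (hJ : ∀ j ≤ N + 1, ∃ c₀ K δ : ℝ, 0 < c₀ ∧ 0 < K ∧ 0 < δ ∧ ∀ d ∈ DA μ (coOf N j) a b K₀, ∀ x : ℝ, |x| ≤ δ →
      c₀ * |x| ^ K ≤ Jm μ (coOf N j) d x) :
    ∃ c₁ K₁ δ₁ : ℝ, 0 < c₁ ∧ 0 < K₁ ∧ 0 < δ₁ ∧ ∀ z : Fin 2 → ℝ, μ z = 1 → 0 ≤ z 1 → z 1 ≤ z 0 → Loc μ c₁ K₁ δ₁ z := by
  obtain ⟨c, K, δ, hc, hK, hδ, h⟩ := common (fun j c₁ K δ₁ => ∀ z : Fin 2 → ℝ, μ z = 1 → 0 ≤ z 1 → z 1 ≤ z 0 →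
      ∀ d ∈ DA μ (coOf N j) a b K₀, d.h1 * z 0 + d.h2 * z 1 = μ z →
      d.v = (coOf N j).L * psR (coOf N j) z / tmR (coOf N j) z → Loc μ c₁ K δ₁ z) (N + 1) (fun j hj => by
    obtain ⟨c₀, K, δ, h1, h2, h3, h4⟩ := hJ j hj
    obtain ⟨c₁, δ₁, g1, g2, g3⟩ := loc_of_J hN ha (coOf N j) h1 h2 h3 h4
    exact ⟨c₁, K, δ₁, g1, h2, g2, g3⟩)
  refine ⟨c, K, min δ (a / 2), hc, hK, lt_min hδ (by positivity), fun z hz hz1 hz0 => ?_⟩
  obtain ⟨j, hj, d, hd, h1, h2⟩ := hcov z hz hz1 hz0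
  obtain ⟨c', K', δ', f1, f2, f3, f4, f5⟩ := h j hj
  exact (f5 z hz hz1 hz0 d hd h1 h2).mono f1 hc.le f2 f3 ((min_le_left _ _).trans f4)
    fun y _ hyz => crs_near hN hz (hyz.trans (min_le_right _ _))

/-! ### Symmetries -/

theorem norm2 (x : Fin 2 → ℝ) : ‖x‖ = max |x 0| |x 1| := by
  refine le_antisymm ?_ (max_le (norm_le_pi_norm x 0) (norm_le_pi_norm x 1))
  refine (pi_norm_le_iff_of_nonneg (le_max_of_le_left (abs_nonneg _))).2 fun i => ?_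
  fin_cases i
  · exact le_max_left _ _
  · exact le_max_right _ _

/-- A linear symmetry. -/
theorem Loc.sym {c₀ K δ : ℝ} (g : (Fin 2 → ℝ) →ₗ[ℝ] (Fin 2 → ℝ)) (hg : ∀ x, μ (g x) = μ x) (hn : ∀ x, ‖g x‖ = ‖x‖)
    (hcr : ∀ x y, |crs (g x) (g y)| = |crs x y|) {z : Fin 2 → ℝ} (h : Loc μ c₀ K δ (g z)) : Loc μ c₀ K δ z := by
  obtain ⟨f, h1, h2, h3⟩ := h
  refine ⟨f.comp g, fun y => ?_, ?_, fun y hy hyz => ?_⟩
  · rw [LinearMap.comp_apply, ← hg y]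
    exact h1 _
  · rw [LinearMap.comp_apply, h2, hg]
  · have h4 := h3 (g y) (by rw [hg, hy]) (by rw [← map_sub, hn]; exact hyz)
    rw [hcr, hg] at h4
    exact h4

/-- The exchange of the coordinates. -/
noncomputable def gsw : (Fin 2 → ℝ) →ₗ[ℝ] (Fin 2 → ℝ) where
  toFun x := ![x 1, x 0]
  map_add' x y := by
    funext i
    fin_cases i <;> rfl
  map_smul' s x := by
    funext i
    fin_cases i <;> rfl

/-- The reflection of the first coordinate. -/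
noncomputable def grf : (Fin 2 → ℝ) →ₗ[ℝ] (Fin 2 → ℝ) where
  toFun x := ![-x 0, x 1]
  map_add' x y := by
    funext i
    fin_cases i
    · show -(x 0 + y 0) = -x 0 + -y 0
      ring
    · rfl
  map_smul' s x := by
    funext i
    fin_cases i
    · show -(s * x 0) = s * -x 0
      ring
    · rfl

theorem gsw_apply (x : Fin 2 → ℝ) : gsw x = ![x 1, x 0] := rfl

theorem grf_apply (x : Fin 2 → ℝ) : grf x = ![-x 0, x 1] := rfl

theorem Loc.of_sw (hN : NormP μ a b) {c₀ K δ : ℝ} {z : Fin 2 → ℝ} (h : Loc μ c₀ K δ (gsw z)) : Loc μ c₀ K δ z := by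
  refine Loc.sym gsw (fun x => hN.swap x) (fun x => ?_) (fun x y => ?_) h
  · rw [norm2, norm2]
    exact max_comm _ _
  · show |x 1 * y 0 - x 0 * y 1| = |x 0 * y 1 - x 1 * y 0|
    rw [abs_sub_comm]

theorem Loc.of_rf (hN : NormP μ a b) {c₀ K δ : ℝ} {z : Fin 2 → ℝ} (h : Loc μ c₀ K δ (grf z)) : Loc μ c₀ K δ z := by
  refine Loc.sym grf (fun x => hN.refl x) (fun x => ?_) (fun x y => ?_) h
  · rw [norm2, norm2]
    show max |(-x 0)| |x 1| = _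
    rw [abs_neg]
  · show |(-x 0) * y 1 - x 1 * (-y 0)| = |x 0 * y 1 - x 1 * y 0|
    rw [show (-x 0) * y 1 - x 1 * (-y 0) = -(x 0 * y 1 - x 1 * y 0) by ring, abs_neg]

/-- **The local lower bound at all points.** -/
theorem loc_all (hN : NormP μ a b) {c₁ K₁ δ₁ : ℝ}
    (h : ∀ z : Fin 2 → ℝ, μ z = 1 → 0 ≤ z 1 → z 1 ≤ z 0 → Loc μ c₁ K₁ δ₁ z) (z : Fin 2 → ℝ) (hz : μ z = 1) :
    Loc μ c₁ K₁ δ₁ z := by
  -- the quadrant
  have h1 : ∀ z : Fin 2 → ℝ, μ z = 1 → 0 ≤ z 0 → 0 ≤ z 1 → Loc μ c₁ K₁ δ₁ z := by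
    intro z hz h0 h1
    rcases le_total (z 1) (z 0) with h2 | h2
    · exact h z hz h1 h2
    · exact Loc.of_sw hN (h (gsw z) ((hN.swap z).trans hz) h0 h2)
  -- the half plane
  have h2 : ∀ z : Fin 2 → ℝ, μ z = 1 → 0 ≤ z 1 → Loc μ c₁ K₁ δ₁ z := by
    intro z hz h3
    rcases le_total 0 (z 0) with h4 | h4
    · exact h1 z hz h4 h3
    · refine Loc.of_rf hN (h1 (grf z) ((hN.refl z).trans hz) ?_ h3)
      show 0 ≤ -z 0
      linarith
  rcases le_total 0 (z 1) with h3 | h3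
  · exact h2 z hz h3
  · refine Loc.of_sw hN (Loc.of_rf hN (Loc.of_sw hN (h2 (gsw (grf (gsw z))) ?_ ?_)))
    · rw [gsw_apply, hN.swap, grf_apply, hN.refl, gsw_apply, hN.swap]
      exact hz
    · show 0 ≤ -z 1
      linarith

/-- **The curvature of power type from the rate functions.** -/
theorem curv_final (hN : NormP μ a b) (ha : 0 < a) {N : ℕ} {K₀ : ℝ}
    (hcov : ∀ z : Fin 2 → ℝ, μ z = 1 → 0 ≤ z 1 → z 1 ≤ z 0 → ∃ j : ℕ, j ≤ N + 1 ∧ ∃ d ∈ DA μ (coOf N j) a b K₀,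
      d.h1 * z 0 + d.h2 * z 1 = μ z ∧ d.v = (coOf N j).L * psR (coOf N j) z / tmR (coOf N j) z)
    (hJ : ∀ j ≤ N + 1, ∃ c₀ K δ : ℝ, 0 < c₀ ∧ 0 < K ∧ 0 < δ ∧ ∀ d ∈ DA μ (coOf N j) a b K₀, ∀ x : ℝ, |x| ≤ δ →
      c₀ * |x| ^ K ≤ Jm μ (coOf N j) d x) :
    ∃ c K : ℝ, 0 < c ∧ 0 < K ∧ (∀ x y : Fin 2 → ℝ, μ x = 1 → μ y = 1 → c * ‖x - y‖ ^ K ≤ μ x + μ y - μ (x + y)) ∧
      ∀ x y z : Fin 2 → ℝ, μ x = 1 → μ y = 1 → ‖z - (1 / 2 : ℝ) • (x + y)‖ ≤ c * ‖x - y‖ ^ K → μ z ≤ 1 := by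
  obtain ⟨c₁, K₁, δ₁, hc, hK, hδ, h⟩ := loc_oct hN ha hcov hJ
  have hpos : ∀ x : Fin 2 → ℝ, x ≠ 0 → 0 < μ x := by
    intro x hx
    refine lt_of_lt_of_le (mul_pos ha ?_) (hN.low x)
    by_contra hcon
    push Not at hcon
    apply hx
    have e0 := abs_nonneg (x 0)
    have e1 := abs_nonneg (x 1)
    funext i
    fin_cases i
    · exact abs_eq_zero.1 (by linarith : |x 0| = 0)
    · exact abs_eq_zero.1 (by linarith : |x 1| = 0)
  obtain ⟨c₂, hc₂, h2⟩ := curv_of_local hN.cont hN.hom hN.sub hpos hN.strict hc hK hδ (fun x hx => loc_all hN h x hx)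
  obtain ⟨c₃, hc₃, h3⟩ := ball_of_curv hN.cont hN.hom hN.sub hc₂ h2
  refine ⟨min c₂ c₃, K₁, lt_min hc₂ hc₃, hK, fun x y hx hy => ?_, fun x y z hx hy hz => h3 x y z hx hy (hz.trans ?_)⟩
  · exact (mul_le_mul_of_nonneg_right (min_le_left _ _) (by positivity)).trans (h2 x y hx hy)
  · exact mul_le_mul_of_nonneg_right (min_le_right _ _) (by positivity)

end Pool.Agent.W_1b8d5d_p
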