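import Pool.Agent.W_1b8d5d_p.Rg35
import Pool.Agent.W_7d29a1_X20.Quad

/-!
MP_1b8d5d_pr, Track P2, geometry: a dense set of points of exactly quadratic curvature, from the local doubling. (helper20)
-/

set_option autoImplicit false

namespace Pool.Agent.W_1b8d5d_p

open MeasureTheory Set Filter Topology

variable {μ : (Fin 2 → ℝ) → ℝ} {a b C δ : ℝ} {S : (Fin 2 → ℝ) → ((Fin 2 → ℝ) →ₗ[ℝ] ℝ)}

/-- A supporting form at a point of differentiability is the derivative. -/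
theorem form_eq20 (hN : NormP μ a b) {z : Fin 2 → ℝ} (hz : z ≠ 0) {L : (Fin 2 → ℝ) →ₗ[ℝ] ℝ} (h1 : ∀ y, L y ≤ μ y)
    (h2 : L z = μ z) (y : Fin 2 → ℝ) : L y = fderiv ℝ μ z y := by
  have hd := (hN.diff z hz).hasFDerivAt
  have e1 : HasDerivAt (fun t : ℝ => z + t • y) y 0 := by
    simpa using ((hasDerivAt_id (0 : ℝ)).smul_const y).const_add z
  have e2 : HasDerivAt (fun t : ℝ => μ (z + t • y)) (fderiv ℝ μ z y) 0 := by
    refine HasFDerivAt.comp_hasDerivAt_of_eq (0 : ℝ) hd e1 ?_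
    rw [zero_smul, add_zero]
  have e3 : HasDerivAt (fun t : ℝ => L (z + t • y)) (L y) 0 := by
    have e4 : (fun t : ℝ => L (z + t • y)) = fun t => L z + t * L y := by
      funext t
      rw [map_add, map_smul, smul_eq_mul]
    rw [e4]
    simpa using ((hasDerivAt_id (0 : ℝ)).mul_const (L y)).const_add (L z)
  have hmin : IsLocalMin (fun t : ℝ => μ (z + t • y) - L (z + t • y)) 0 := by
    refine Filter.Eventually.of_forall fun t => ?_
    have h3 := h1 (z + t • y)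
    show μ (z + (0 : ℝ) • y) - L (z + (0 : ℝ) • y) ≤ μ (z + t • y) - L (z + t • y)
    rw [zero_smul, add_zero, h2]
    linarith
  have h4 := hmin.hasDerivAt_eq_zero (e2.sub e3)
  linarith

theorem ne_zero20 (hN : NormP μ a b) {z : Fin 2 → ℝ} (hz : 0 < μ z) : z ≠ 0 := by
  rintro rfl
  have h1 := hN.hom 0 0 le_rfl
  rw [zero_smul, zero_mul] at h1
  rw [h1] at hz
  exact lt_irrefl _ hz

/-- Supporting forms at two points of a ray are equal. -/
theorem form_unique20 (hN : NormP μ a b) {z : Fin 2 → ℝ} (hz : 0 < μ z) {c : ℝ} (hc : 0 < c) {L L' : (Fin 2 → ℝ) →ₗ[ℝ] ℝ}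
    (h1 : ∀ y, L y ≤ μ y) (h2 : L z = μ z) (h1' : ∀ y, L' y ≤ μ y) (h2' : L' (c • z) = μ (c • z)) (y : Fin 2 → ℝ) :
    L y = L' y := by
  have hz0 := ne_zero20 hN hz
  have h3 : L' z = μ z := by
    rw [map_smul, hN.hom c z hc.le, smul_eq_mul] at h2'
    exact mul_left_cancel₀ hc.ne' h2'
  rw [form_eq20 hN hz0 h1 h2, form_eq20 hN hz0 h1' h3]

theorem crs_sameRay20 {x y : Fin 2 → ℝ} (h : SameRay ℝ x y) : crs x y = 0 := by
  rcases h with h | h | ⟨r, s, hr, hs, h⟩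
  · rw [h]
    simp [crs]
  · rw [h]
    simp [crs]
  · have h0 := congrFun h 0
    have h1 := congrFun h 1
    simp only [Pi.smul_apply, smul_eq_mul] at h0 h1
    have h2 : r * crs x y = 0 := by
      unfold crs
      linear_combination (y 1) * h0 - (y 0) * h1
    exact (mul_eq_zero.1 h2).resolve_left hr.ne'

/-- The defect is positive off the ray. -/
theorem defect_pos20 (hN : NormP μ a b) {x y : Fin 2 → ℝ} {L : (Fin 2 → ℝ) →ₗ[ℝ] ℝ} (h1 : ∀ y, L y ≤ μ y)
    (h2 : L x = μ x) (hc : crs x y ≠ 0) : L y < μ y := by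
  have h3 := hN.strict x y fun h => hc (crs_sameRay20 h)
  have h4 := h1 (x + y)
  rw [map_add, h2] at h4
  linarith

/-- The derivative along a line. -/
theorem hasDeriv_line20 (hN : NormP μ a b) (hS : SF35 μ C δ S) (x w : Fin 2 → ℝ) {t : ℝ} (ht : 1 / 2 ≤ μ (x + t • w)) :
    HasDerivAt (Fl35 μ S x w) (Gl35 S x w t) t := by
  obtain ⟨h1, h2, -⟩ := hS _ ht
  have hz : x + t • w ≠ 0 := ne_zero20 hN (by linarith)
  have hd := (hN.diff _ hz).hasFDerivAt
  have e1 : HasDerivAt (fun s : ℝ => x + s • w) w t := by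
    simpa using ((hasDerivAt_id t).smul_const w).const_add x
  have e2 : HasDerivAt (fun s : ℝ => μ (x + s • w)) (fderiv ℝ μ (x + t • w) w) t := hd.comp_hasDerivAt t e1
  have e3 : HasDerivAt (fun s : ℝ => S x (x + s • w)) (S x w) t := by
    have e4 : (fun s : ℝ => S x (x + s • w)) = fun s => S x x + s * S x w := by
      funext s
      rw [map_add, map_smul, smul_eq_mul]
    rw [e4]
    simpa using ((hasDerivAt_id t).mul_const (S x w)).const_add (S x x)
  rw [← form_eq20 hN hz h1 h2] at e2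
  exact e2.sub e3

/-- Cramer. -/
theorem cramer20 (P w y : Fin 2 → ℝ) : crs P w • y = crs y w • P + crs P y • w := by
  funext i
  fin_cases i
  · simp only [crs, Pi.smul_apply, Pi.add_apply, smul_eq_mul, Fin.zero_eta, Fin.isValue]
    ring
  · simp only [crs, Pi.smul_apply, Pi.add_apply, smul_eq_mul, Fin.mk_one, Fin.isValue]
    ring

theorem crs_sub_le20 (y z w : Fin 2 → ℝ) (hw : ‖w‖ ≤ 1) : |crs y w - crs z w| ≤ 2 * ‖y - z‖ := by
  have e1 : crs y w - crs z w = (y - z) 0 * w 1 - (y - z) 1 * w 0 := by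
    unfold crs
    simp only [Pi.sub_apply]
    ring
  rw [e1]
  refine (abs_sub _ _).trans ?_
  rw [abs_mul, abs_mul]
  have g0 := abs_apply_le (y - z) 0
  have g1 := abs_apply_le (y - z) 1
  have g2 := (abs_apply_le w 0).trans hw
  have g3 := (abs_apply_le w 1).trans hw
  nlinarith [abs_nonneg ((y - z) 0), abs_nonneg ((y - z) 1), abs_nonneg (w 0), abs_nonneg (w 1), norm_nonneg (y - z)]

/-- Far points. -/
theorem far20 (hN : NormP μ a b) (ha : 0 < a) {ρ : ℝ} (hρ : 0 < ρ) :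
    ∃ c : ℝ, 0 < c ∧ ∀ x y : Fin 2 → ℝ, μ x = 1 → μ y = 1 → ρ ≤ ‖x - y‖ → c ≤ μ x + μ y - μ (x + y) := by
  have hc := hN.cont
  obtain ⟨K, hK⟩ : ∃ K : Set ((Fin 2 → ℝ) × (Fin 2 → ℝ)), K = {p | μ p.1 = 1 ∧ μ p.2 = 1 ∧ ρ ≤ ‖p.1 - p.2‖} := ⟨_, rfl⟩
  have hKcl : IsClosed K := by
    have h1 : IsClosed {p : (Fin 2 → ℝ) × (Fin 2 → ℝ) | μ p.1 = 1} := isClosed_eq (hc.comp continuous_fst) continuous_const
    have h2 : IsClosed {p : (Fin 2 → ℝ) × (Fin 2 → ℝ) | μ p.2 = 1} := isClosed_eq (hc.comp continuous_snd) continuous_const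
    have h3 : IsClosed {p : (Fin 2 → ℝ) × (Fin 2 → ℝ) | ρ ≤ ‖p.1 - p.2‖} :=
      isClosed_le continuous_const (continuous_fst.sub continuous_snd).norm
    rw [hK]
    exact h1.inter (h2.inter h3)
  have hn : ∀ x : Fin 2 → ℝ, μ x = 1 → ‖x‖ ≤ 1 / a := by
    intro x hx
    rw [le_div_iff₀ ha]
    have := hN.ge_norm35 ha x
    rw [hx] at this
    linarith
  have hKb : K ⊆ Metric.closedBall (0 : (Fin 2 → ℝ) × (Fin 2 → ℝ)) (1 / a) := by
    rw [hK]
    rintro ⟨x, y⟩ ⟨hx, hy, -⟩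
    rw [mem_closedBall_zero_iff, Prod.norm_def]
    exact max_le (hn x hx) (hn y hy)
  have hKc : IsCompact K := (isCompact_closedBall _ _).of_isClosed_subset hKcl hKb
  rcases K.eq_empty_or_nonempty with h0 | hne
  · refine ⟨1, one_pos, fun x y hx hy hxy => ?_⟩
    have h1 : (x, y) ∈ K := by
      rw [hK]
      exact ⟨hx, hy, hxy⟩
    rw [h0] at h1
    exact absurd h1 (notMem_empty _)
  · have hcont : Continuous fun p : (Fin 2 → ℝ) × (Fin 2 → ℝ) => μ p.1 + μ p.2 - μ (p.1 + p.2) :=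
      ((hc.comp continuous_fst).add (hc.comp continuous_snd)).sub (hc.comp (continuous_fst.add continuous_snd))
    obtain ⟨p, hp, hmin⟩ := hKc.exists_isMinOn hne hcont.continuousOn
    refine ⟨μ p.1 + μ p.2 - μ (p.1 + p.2), ?_, fun x y hx hy hxy => ?_⟩
    · rw [hK] at hp
      obtain ⟨hp1, hp2, hp3⟩ := hp
      have h1 := hN.strict p.1 p.2 fun hray => by
        have h1 : p.1 ≠ 0 := ne_zero20 hN (by rw [hp1]; norm_num)
        have h2 : p.2 ≠ 0 := ne_zero20 hN (by rw [hp2]; norm_num)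
        obtain ⟨r, hr, h3⟩ := hray.exists_pos_left h1 h2
        have h4 := hN.hom r p.1 hr.le
        rw [h3, hp1, hp2, mul_one] at h4
        rw [← h4, one_smul] at h3
        rw [h3, sub_self, norm_zero] at hp3
        linarith
      linarith
    · refine hmin (show (x, y) ∈ K from ?_)
      rw [hK]
      exact ⟨hx, hy, hxy⟩

/-- The base point identity. -/
theorem bs_line20 (hS : SF35 μ C δ S) (x w : Fin 2 → ℝ) {t : ℝ} (ht : 1 / 2 ≤ μ (x + t • w)) (s : ℝ) :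
    Bs35 (Fl35 μ S x w) (Gl35 S x w) t s = μ (x + t • w + s • w) - S (x + t • w) (x + t • w + s • w) := by
  obtain ⟨-, g2, -⟩ := hS _ ht
  have e0 : x + t • w + s • w = x + (t + s) • w := by rw [add_smul, add_assoc]
  unfold Bs35 Fl35 Gl35
  rw [← e0, map_add (S (x + t • w)), g2, map_smul (S (x + t • w)), map_add (S x) (x + t • w), map_smul (S x) s]
  simp only [smul_eq_mul]
  ring

/-- The direction of the perpendicular. -/
theorem perp20 {x : Fin 2 → ℝ} (hx : x ≠ 0) : ∃ w : Fin 2 → ℝ, ‖w‖ ≤ 1 ∧ 0 < crs x w := by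
  have hn : 0 < ‖x‖ := norm_pos_iff.2 hx
  refine ⟨‖x‖⁻¹ • ![-x 1, x 0], ?_, ?_⟩
  · rw [norm_smul, norm_inv, norm_norm, inv_mul_le_iff₀ hn, mul_one]
    refine norm_le_of _ ?_ ?_
    · show |(-x 1)| ≤ ‖x‖
      rw [abs_neg]
      exact abs_apply_le x 1
    · exact abs_apply_le x 0
  · have h1 : crs x (‖x‖⁻¹ • ![-x 1, x 0]) = ‖x‖⁻¹ * (x 0 ^ 2 + x 1 ^ 2) := by
      unfold crs
      simp only [Pi.smul_apply, smul_eq_mul, Matrix.cons_val_zero, Matrix.cons_val_one]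
      ring
    rw [h1]
    refine mul_pos (inv_pos.2 hn) ?_
    by_contra hcon
    push Not at hcon
    apply hx
    have h0 : x 0 ^ 2 = 0 := by nlinarith [sq_nonneg (x 0), sq_nonneg (x 1)]
    have h2 : x 1 ^ 2 = 0 := by nlinarith [sq_nonneg (x 0), sq_nonneg (x 1)]
    funext i
    fin_cases i
    · exact pow_eq_zero_iff two_ne_zero |>.1 h0
    · exact pow_eq_zero_iff two_ne_zero |>.1 h2

theorem num_low20 {k A n u s E : ℝ} (hk : 0 < k) (hA : 0 ≤ A * n) (h1 : A * n ≤ |u|) (hs : 1 / 4 ≤ s)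
    (hE : k * u ^ 2 ≤ E) : 1 / 4 * k * A ^ 2 * n ^ 2 ≤ s * E := by
  have h2 : (A * n) ^ 2 ≤ u ^ 2 := by
    rw [← sq_abs u]
    exact pow_le_pow_left₀ hA h1 2
  have h3 : 0 ≤ k * u ^ 2 := by positivity
  have h4 : k * (A * n) ^ 2 ≤ k * u ^ 2 := mul_le_mul_of_nonneg_left h2 hk.le
  calc 1 / 4 * k * A ^ 2 * n ^ 2 = 1 / 4 * (k * (A * n) ^ 2) := by ring
    _ ≤ 1 / 4 * (k * u ^ 2) := by linarith
    _ ≤ s * E := mul_le_mul hs hE h3 (by linarith)

theorem num_up20 {K A n u s E : ℝ} (hK : 0 < K) (h1 : |u| ≤ A * n) (hs0 : 0 ≤ s) (hs : s ≤ 4) (hE0 : 0 ≤ E)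
    (hE : E ≤ K * u ^ 2) : s * E ≤ 4 * K * A ^ 2 * n ^ 2 := by
  have h2 : u ^ 2 ≤ (A * n) ^ 2 := by
    rw [← sq_abs u]
    exact pow_le_pow_left₀ (abs_nonneg _) h1 2
  have h4 : K * u ^ 2 ≤ K * (A * n) ^ 2 := mul_le_mul_of_nonneg_left h2 hK.le
  calc s * E ≤ 4 * E := mul_le_mul_of_nonneg_right hs hE0
    _ ≤ 4 * (K * (A * n) ^ 2) := by linarith
    _ = 4 * K * A ^ 2 * n ^ 2 := by ring

/-- **Points of exactly quadratic curvature**, for the defect of the supporting form. -/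
theorem quad_defect20 (hN : NormP μ a b) (ha : 0 < a) (hS : SF35 μ C δ S) (hC : 1 ≤ C) (hδ : 0 < δ) {x₀ : Fin 2 → ℝ}
    (hx₀ : μ x₀ = 1) {ρ : ℝ} (hρ : 0 < ρ) : ∃ z : Fin 2 → ℝ, μ z = 1 ∧ ‖z - x₀‖ < ρ ∧ ∃ k K r : ℝ, 0 < k ∧ 0 < K ∧ 0 < r ∧
      ∀ y : Fin 2 → ℝ, μ y = 1 → ‖y - z‖ ≤ r → k * ‖y - z‖ ^ 2 ≤ μ y - S z y ∧ μ y - S z y ≤ K * ‖y - z‖ ^ 2 := by
  have hb := hN.b0_35 ha
  obtain ⟨w, hw, hcw⟩ := perp20 (ne_zero20 hN (by rw [hx₀]; norm_num) : x₀ ≠ 0)
  obtain ⟨R, hR⟩ : ∃ R, R = min (min (δ / 2) (1 / (4 * b))) (ρ / (2 * (2 * b / a + 1))) := ⟨_, rfl⟩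
  have hR0 : 0 < R := by rw [hR]; positivity
  have hR1 : 2 * R ≤ δ := by
    have : R ≤ δ / 2 := by rw [hR]; exact (min_le_left _ _).trans (min_le_left _ _)
    linarith
  have hR2 : R ≤ 1 / (4 * b) := by rw [hR]; exact (min_le_left _ _).trans (min_le_right _ _)
  have hR3 : R ≤ ρ / (2 * (2 * b / a + 1)) := by rw [hR]; exact min_le_right _ _
  have hdb := line35 hN ha hS hC hx₀ hw hR0 hR1 hR2
  have hhalf : ∀ t : ℝ, |t| ≤ R → 1 / 2 ≤ μ (x₀ + t • w) := fun t ht => half_le35 hN ha hx₀ hw hR2 ht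
  have habs : ∀ t : ℝ, -R ≤ t → t ≤ R → |t| ≤ R := fun t h1 h2 => abs_le.2 ⟨h1, h2⟩
  -- strictness
  have hFpos : ∀ t : ℝ, t ≠ 0 → 0 < Fl35 μ S x₀ w t := by
    intro t ht
    obtain ⟨g1, g2, -⟩ := hS x₀ (by rw [hx₀]; norm_num)
    have h1 := defect_pos20 hN (x := x₀) (y := x₀ + t • w) g1 g2 (by
      rw [crs_line35]
      exact mul_ne_zero ht hcw.ne')
    unfold Fl35
    linarith
  have hG1 : 0 < Gl35 S x₀ w R := by
    have h1 := hdb.le_mul (t := R) (habs R (by linarith) le_rfl)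
    have h2 := hFpos R hR0.ne'
    have h3 : 0 < R * Gl35 S x₀ w R := lt_of_lt_of_le h2 h1
    exact (mul_pos_iff_of_pos_left hR0).1 h3
  have hG2 : Gl35 S x₀ w (-R) < 0 := by
    have h1 := hdb.le_mul (t := -R) (habs (-R) le_rfl (by linarith))
    have h2 := hFpos (-R) (by linarith)
    have h3 : R * Gl35 S x₀ w (-R) < 0 := by linarith
    by_contra hcon
    push Not at hcon
    have := mul_nonneg hR0.le hcon
    linarith
  obtain ⟨v, hv1, hv2, k, K, r, hk, hK, hr, hquad⟩ := Pool.Agent.W_7d29a1_X20.quad_point_J (J := Fl35 μ S x₀ w)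
    (g := Gl35 S x₀ w) (a := -R) (b := R) (C := C ^ 2 + 1) (u₀ := R) (by linarith)
    (fun t h1 h2 => hasDeriv_line20 hN hS x₀ w (hhalf t (habs t h1 h2)))
    (fun s hs t ht hst => hdb.G_mono (habs s hs.1 hs.2) (habs t ht.1 ht.2) hst) (by linarith) (by positivity) hR0
    (fun t s h1 h2 _ h3 h4 => hdb.db t s (habs t h1 h2) (habs _ h3 h4))
  have hvR : |v| ≤ R := habs v hv1.le hv2.le
  obtain ⟨P, hP⟩ : ∃ P, P = x₀ + v • w := ⟨_, rfl⟩
  have hPh : 1 / 2 ≤ μ P := by rw [hP]; exact hhalf v hvR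
  obtain ⟨m, hm⟩ : ∃ m, m = μ P := ⟨_, rfl⟩
  have hm0 : 0 < m := by rw [hm]; linarith
  have hmh : 1 / 2 ≤ m := by rw [hm]; exact hPh
  -- `|m - 1|`
  have hPx : ‖P - x₀‖ ≤ R := by
    rw [hP, add_sub_cancel_left, norm_smul, Real.norm_eq_abs]
    have := mul_le_mul hvR hw (norm_nonneg _) hR0.le
    linarith
  have hm1 : |m - 1| ≤ 2 * b * R := by
    have h1 := lip_of_sub (μ := μ) (hN.le_norm35 ha) hN.sub P x₀
    rw [← hm, hx₀] at h1
    exact h1.trans (mul_le_mul_of_nonneg_left hPx (by positivity))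
  have hm2 : m ≤ 2 := by
    have h1 := (abs_le.1 hm1).2
    have h2 : 2 * b * R ≤ 2 * b * (1 / (4 * b)) := mul_le_mul_of_nonneg_left hR2 (by positivity)
    have h3 : 2 * b * (1 / (4 * b)) = 1 / 2 := by
      field_simp
      norm_num
    linarith
  have hPn : ‖P‖ ≤ m / a := by
    rw [le_div_iff₀ ha, hm]
    have := hN.ge_norm35 ha P
    linarith
  obtain ⟨z, hz⟩ : ∃ z, z = m⁻¹ • P := ⟨_, rfl⟩
  have hPz : P = m • z := by rw [hz, smul_smul, mul_inv_cancel₀ hm0.ne', one_smul]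
  have hμz : μ z = 1 := by rw [hz, hN.hom _ _ (inv_nonneg.2 hm0.le), ← hm, inv_mul_cancel₀ hm0.ne']
  have hzx : ‖z - x₀‖ < ρ := by
    have h1 : ‖z - P‖ ≤ 2 * b / a * R := by
      have e1 : z - P = (m⁻¹ - 1) • P := by rw [hz, sub_smul, one_smul]
      have e2 : |m⁻¹ - 1| = |m - 1| / m := by
        rw [show m⁻¹ - 1 = -(m - 1) / m by field_simp; ring, abs_div, abs_neg, abs_of_pos hm0]
      rw [e1, norm_smul, Real.norm_eq_abs, e2]
      calc |m - 1| / m * ‖P‖ ≤ |m - 1| / m * (m / a) := mul_le_mul_of_nonneg_left hPn (by positivity)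
        _ = |m - 1| / a := by field_simp
        _ ≤ 2 * b * R / a := by gcongr
        _ = 2 * b / a * R := by ring
    have h2 : z - x₀ = (z - P) + (P - x₀) := by abel
    rw [h2]
    refine lt_of_le_of_lt (norm_add_le _ _) ?_
    have h3 : (2 * b / a + 1) * R ≤ (2 * b / a + 1) * (ρ / (2 * (2 * b / a + 1))) :=
      mul_le_mul_of_nonneg_left hR3 (by positivity)
    have h4 : (2 * b / a + 1) * (ρ / (2 * (2 * b / a + 1))) = ρ / 2 := by
      field_simp
    linarith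
  -- the constants
  obtain ⟨q, hq⟩ : ∃ q, q = crs x₀ w := ⟨_, rfl⟩
  rw [← hq] at hcw
  have hPw : crs P w = q := by
    rw [hP, hq]
    unfold crs
    simp only [Pi.add_apply, Pi.smul_apply, smul_eq_mul]
    ring
  have hzw : crs z w = q / m := by
    rw [← hPw, hPz]
    unfold crs
    simp only [Pi.smul_apply, smul_eq_mul]
    field_simp
  have hzn : ‖z‖ ≤ 1 / a := by
    rw [le_div_iff₀ ha]
    have := hN.ge_norm35 ha z
    rw [hμz] at this
    linarith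
  have hzn2 : 1 / (2 * b) ≤ ‖z‖ := by
    rw [div_le_iff₀ (by positivity)]
    have := hN.le_norm35 ha z
    rw [hμz] at this
    linarith
  obtain ⟨B, hB⟩ : ∃ B, B = (2 * b / a + 1) * (2 * b) := ⟨_, rfl⟩
  have hB0 : 0 < B := by rw [hB]; positivity
  refine ⟨z, hμz, hzx, 1 / 4 * k * (1 / (8 * B * q)) ^ 2, 4 * K * (16 / (a * q)) ^ 2,
    min (q / 16) (min (1 / (8 * b)) (a * q * r / 16)), by positivity, by positivity, by positivity, fun y hy hyz => ?_⟩
  have hy1 : ‖y - z‖ ≤ q / 16 := hyz.trans (min_le_left _ _)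
  have hy2 : ‖y - z‖ ≤ 1 / (8 * b) := hyz.trans ((min_le_right _ _).trans (min_le_left _ _))
  have hy3 : ‖y - z‖ ≤ a * q * r / 16 := hyz.trans ((min_le_right _ _).trans (min_le_right _ _))
  -- the line coordinate of `y`
  have hyw := abs_le.1 (crs_sub_le20 y z w hw)
  rw [hzw] at hyw
  have hqm1 : q / 2 ≤ q / m := div_le_div_of_nonneg_left hcw.le hm0 hm2
  have hqm2 : q / m ≤ 2 * q := by
    rw [div_le_iff₀ hm0]
    nlinarith
  have hyw1 : q / 4 ≤ crs y w := by linarith [hyw.1]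
  have hyw2 : crs y w ≤ 4 * q := by linarith [hyw.2]
  have hyw0 : 0 < crs y w := by linarith
  obtain ⟨u, hu⟩ : ∃ u, u = crs P y / crs y w := ⟨_, rfl⟩
  have hyP : y = (crs y w / q) • (P + u • w) := by
    have h1 := cramer20 P w y
    rw [hPw] at h1
    have h2 : crs y w • P + crs P y • w = crs y w • (P + u • w) := by
      rw [smul_add, smul_smul, hu, mul_div_cancel₀ _ hyw0.ne']
    rw [h2] at h1
    rw [div_eq_inv_mul, mul_smul, ← h1, smul_smul, inv_mul_cancel₀ hcw.ne', one_smul]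
  have hPy : crs P y = m * crs z y := by
    rw [hPz]
    unfold crs
    simp only [Pi.smul_apply, smul_eq_mul]
    ring
  have hcrs1 : |crs z y| ≤ 2 / a * ‖y - z‖ := by
    have e1 : crs z y = z 0 * (y - z) 1 - z 1 * (y - z) 0 := by
      unfold crs
      simp only [Pi.sub_apply]
      ring
    rw [e1]
    refine (abs_sub _ _).trans ?_
    rw [abs_mul, abs_mul]
    have g4 : |z 0| * |(y - z) 1| ≤ 1 / a * ‖y - z‖ :=
      mul_le_mul ((abs_apply_le z 0).trans hzn) (abs_apply_le (y - z) 1) (abs_nonneg _) (by positivity)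
    have g5 : |z 1| * |(y - z) 0| ≤ 1 / a * ‖y - z‖ :=
      mul_le_mul ((abs_apply_le z 1).trans hzn) (abs_apply_le (y - z) 0) (abs_nonneg _) (by positivity)
    have e2 : 2 / a * ‖y - z‖ = 1 / a * ‖y - z‖ + 1 / a * ‖y - z‖ := by ring
    linarith
  have hdot : 0 ≤ z 0 * y 0 + z 1 * y 1 := by
    have e2 : z 0 * y 0 + z 1 * y 1 = (z 0 ^ 2 + z 1 ^ 2) + (z 0 * (y - z) 0 + z 1 * (y - z) 1) := by
      simp only [Pi.sub_apply]
      ring
    have g5 : |z 0 * (y - z) 0| ≤ ‖z‖ * ‖y - z‖ := by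
      rw [abs_mul]
      exact mul_le_mul (abs_apply_le z 0) (abs_apply_le (y - z) 0) (abs_nonneg _) (norm_nonneg _)
    have g6 : |z 1 * (y - z) 1| ≤ ‖z‖ * ‖y - z‖ := by
      rw [abs_mul]
      exact mul_le_mul (abs_apply_le z 1) (abs_apply_le (y - z) 1) (abs_nonneg _) (norm_nonneg _)
    have g7 : ‖z‖ ^ 2 ≤ z 0 ^ 2 + z 1 ^ 2 := by
      rw [norm2]
      rcases max_cases |z 0| |z 1| with ⟨g, -⟩ | ⟨g, -⟩
      · rw [g, sq_abs]
        linarith [sq_nonneg (z 1)]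
      · rw [g, sq_abs]
        linarith [sq_nonneg (z 0)]
    have g8 : ‖z‖ * ‖y - z‖ ≤ ‖z‖ * (‖z‖ / 2) := by
      refine mul_le_mul_of_nonneg_left ?_ (norm_nonneg _)
      have e3 : 1 / (8 * b) ≤ 1 / (2 * b) / 2 := by
        rw [div_div]
        exact one_div_le_one_div_of_le (by positivity) (by linarith)
      linarith
    have g9 := abs_le.1 g5
    have g10 := abs_le.1 g6
    nlinarith
  have hcrs2 : ‖y - z‖ ≤ B * |crs z y| := by
    have := norm_le_crs (μ := μ) ha (hN.ge_norm35 ha) (hN.le_norm35 ha) (by positivity) hN.sub hN.hom hμz hy hdot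
    rw [norm_sub_rev, ← hB] at this
    exact this
  -- bounds for `u`
  have hu1 : |u| ≤ 16 / (a * q) * ‖y - z‖ := by
    rw [hu, abs_div, abs_of_pos hyw0, div_le_iff₀ hyw0, hPy, abs_mul, abs_of_pos hm0]
    calc m * |crs z y| ≤ 2 * (2 / a * ‖y - z‖) := mul_le_mul hm2 hcrs1 (abs_nonneg _) two_pos.le
      _ = 16 / (a * q) * ‖y - z‖ * (q / 4) := by
          field_simp
          ring
      _ ≤ 16 / (a * q) * ‖y - z‖ * crs y w := mul_le_mul_of_nonneg_left hyw1 (by positivity)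
  have hu2 : 1 / (8 * B * q) * ‖y - z‖ ≤ |u| := by
    rw [hu, abs_div, abs_of_pos hyw0, le_div_iff₀ hyw0, hPy, abs_mul, abs_of_pos hm0]
    calc 1 / (8 * B * q) * ‖y - z‖ * crs y w ≤ 1 / (8 * B * q) * ‖y - z‖ * (4 * q) :=
          mul_le_mul_of_nonneg_left hyw2 (by positivity)
      _ = 1 / 2 * (‖y - z‖ / B) := by
          field_simp
          ring
      _ ≤ m * |crs z y| := by
          refine mul_le_mul hmh ?_ (by positivity) hm0.le
          rw [div_le_iff₀ hB0]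
          linarith
  have hur : |u| ≤ r := by
    refine hu1.trans ?_
    calc 16 / (a * q) * ‖y - z‖ ≤ 16 / (a * q) * (a * q * r / 16) := mul_le_mul_of_nonneg_left hy3 (by positivity)
      _ = r := by field_simp
  obtain ⟨-, -, hq1, hq2⟩ := hquad u hur
  have hbs := bs_line20 hS x₀ w (hhalf v hvR) u
  unfold Bs35 at hbs
  rw [← hP] at hbs
  rw [hbs] at hq1 hq2
  -- the forms at `z` and `P`
  obtain ⟨f1, f2, -⟩ := hS z (by rw [hμz]; norm_num)
  obtain ⟨f1', f2', -⟩ := hS P hPh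
  have hform : ∀ y, S z y = S P y := fun y => form_unique20 hN (z := z) (by rw [hμz]; norm_num) hm0 f1 f2 f1' (by
    rw [← hPz]
    exact f2') y
  have hval : μ y - S z y = crs y w / q * (μ (P + u • w) - S P (P + u • w)) := by
    rw [hform y]
    have h1 : μ y = crs y w / q * μ (P + u • w) := by
      conv_lhs => rw [hyP]
      exact hN.hom _ _ (by positivity)
    have h2 : S P y = crs y w / q * S P (P + u • w) := by
      conv_lhs => rw [hyP]
      rw [map_smul, smul_eq_mul]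
    rw [h1, h2]
    ring
  have hs1 : 1 / 4 ≤ crs y w / q := by
    rw [le_div_iff₀ hcw]
    linarith
  have hs2 : crs y w / q ≤ 4 := by
    rw [div_le_iff₀ hcw]
    linarith
  have hnn : 0 ≤ k * u ^ 2 := by positivity
  have hEnn := hnn.trans hq1
  rw [hval]
  exact ⟨num_low20 hk (by positivity) hu2 hs1 hq1, num_up20 hK hu1 (by linarith) hs2 hEnn hq2⟩

end Pool.Agent.W_1b8d5d_p
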