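import Pool.Agent.W_1b8d5d_p.Dn20

/-!
MP_1b8d5d_pr, Track P2, geometry: a dense set of points of exactly quadratic curvature, the final form. (helper20)
-/

set_option autoImplicit false

namespace Pool.Agent.W_1b8d5d_p

open MeasureTheory Set Filter Topology

variable {μ : (Fin 2 → ℝ) → ℝ} {a b : ℝ}

/-- **A dense set of points of exactly quadratic curvature.** Near every point of the unit circle of `μ` there is a point `x` at
which the two point function is comparable with the square of the distance, and which satisfies the inequality of the problem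
(a ball around the midpoint) with the exponent `2`. -/
theorem dense20 (hN : NormP μ a b) (ha : 0 < a)
    (hLD : ∃ C δ : ℝ, 1 ≤ C ∧ 0 < δ ∧ ∀ z, μ z = 1 → LD35 μ C δ z) {x₀ : Fin 2 → ℝ} (hx₀ : μ x₀ = 1) {ρ : ℝ}
    (hρ : 0 < ρ) : ∃ x : Fin 2 → ℝ, μ x = 1 ∧ ‖x - x₀‖ < ρ ∧ ∃ ε E : ℝ, 0 < ε ∧ 0 < E ∧ ∀ y : Fin 2 → ℝ, μ y = 1 →
      ε * ‖x - y‖ ^ 2 ≤ μ x + μ y - μ (x + y) ∧ μ x + μ y - μ (x + y) ≤ E * ‖x - y‖ ^ 2 ∧
      ∀ z : Fin 2 → ℝ, ‖z‖ ≤ ε * ‖x - y‖ ^ 2 → μ (midpoint ℝ x y + z) ≤ 1 := by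
  have hb := hN.b0_35 ha
  obtain ⟨C, δ, hC, hδ, hL⟩ := hLD
  obtain ⟨S, hS⟩ := exists_sf35 hN hδ hL
  have hδ2 : 0 < δ / 2 := by positivity
  obtain ⟨ρ₁, D, α, hρ₁, hD, -, hnear⟩ := near35 hN ha hS hC hδ2
  obtain ⟨x, hx, hxx, k, K, r, hk, hK, hr, hq⟩ := quad_defect20 hN ha hS hC hδ2 hx₀ hρ
  obtain ⟨r₁, hr₁⟩ : ∃ r₁, r₁ = min ρ₁ r := ⟨_, rfl⟩
  have hr₁0 : 0 < r₁ := by rw [hr₁]; exact lt_min hρ₁ hr
  obtain ⟨c, hc, hfar⟩ := far20 hN ha hr₁0
  have hn : ∀ x : Fin 2 → ℝ, μ x = 1 → ‖x‖ ≤ 1 / a := by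
    intro x hx
    rw [le_div_iff₀ ha]
    have := hN.ge_norm35 ha x
    rw [hx] at this
    linarith
  obtain ⟨e, he⟩ : ∃ e, e = min (k / D) (c / (2 / a) ^ 2) := ⟨_, rfl⟩
  have hD0 : 0 < D := by linarith
  have he0 : 0 < e := by rw [he]; positivity
  have hlow : ∀ y : Fin 2 → ℝ, μ y = 1 → e * ‖x - y‖ ^ 2 ≤ μ x + μ y - μ (x + y) ∧
      μ x + μ y - μ (x + y) ≤ max K (2 / r₁ ^ 2) * ‖x - y‖ ^ 2 := by
    intro y hy
    have hsq : 0 ≤ ‖x - y‖ ^ 2 := sq_nonneg _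
    rcases le_total ‖x - y‖ r₁ with h | h
    · have h1 : ‖y - x‖ ≤ ρ₁ := by rw [norm_sub_rev]; exact h.trans (by rw [hr₁]; exact min_le_left _ _)
      have h2 : ‖y - x‖ ≤ r := by rw [norm_sub_rev]; exact h.trans (by rw [hr₁]; exact min_le_right _ _)
      obtain ⟨g1, g2, -⟩ := hnear x y hx hy h1
      obtain ⟨g3, g4⟩ := hq y hy h2
      rw [norm_sub_rev y x] at g3 g4
      constructor
      · calc e * ‖x - y‖ ^ 2 ≤ k / D * ‖x - y‖ ^ 2 :=
              mul_le_mul_of_nonneg_right (by rw [he]; exact min_le_left _ _) hsq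
          _ = k * ‖x - y‖ ^ 2 / D := by ring
          _ ≤ (μ y - S x y) / D := div_le_div_of_nonneg_right g3 hD0.le
          _ ≤ _ := g1
      · exact (g2.trans g4).trans (mul_le_mul_of_nonneg_right (le_max_left _ _) hsq)
    · have h1 := hfar x y hx hy h
      have h2 : ‖x - y‖ ≤ 2 / a := by
        refine (norm_sub_le _ _).trans ?_
        have := hn x hx
        have := hn y hy
        have e1 : 2 / a = 1 / a + 1 / a := by ring
        linarith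
      constructor
      · refine le_trans ?_ h1
        calc e * ‖x - y‖ ^ 2 ≤ c / (2 / a) ^ 2 * (2 / a) ^ 2 :=
              mul_le_mul (by rw [he]; exact min_le_right _ _) (pow_le_pow_left₀ (norm_nonneg _) h2 2) hsq (by positivity)
          _ = c := div_mul_cancel₀ _ (by positivity)
      · have h3 : 0 ≤ μ (x + y) := by
          have := hN.ge_norm35 ha (x + y)
          have h4 : 0 ≤ a * ‖x + y‖ := by positivity
          linarith
        have h5 : 2 ≤ 2 / r₁ ^ 2 * ‖x - y‖ ^ 2 := by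
          rw [div_mul_eq_mul_div, le_div_iff₀ (by positivity)]
          exact mul_le_mul_of_nonneg_left (pow_le_pow_left₀ hr₁0.le h 2) (by norm_num)
        have h6 : 2 / r₁ ^ 2 * ‖x - y‖ ^ 2 ≤ max K (2 / r₁ ^ 2) * ‖x - y‖ ^ 2 :=
          mul_le_mul_of_nonneg_right (le_max_right _ _) hsq
        rw [hx, hy]
        linarith
  refine ⟨x, hx, hxx, min e (e / (4 * b)), max K (2 / r₁ ^ 2), by positivity, lt_max_of_lt_left hK, fun y hy => ?_⟩
  obtain ⟨h1, h2⟩ := hlow y hy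
  have hsq : 0 ≤ ‖x - y‖ ^ 2 := sq_nonneg _
  refine ⟨(mul_le_mul_of_nonneg_right (min_le_left _ _) hsq).trans h1, h2, fun z hz => ?_⟩
  have h3 : ‖z‖ ≤ e / (4 * b) * ‖x - y‖ ^ 2 := hz.trans (mul_le_mul_of_nonneg_right (min_le_right _ _) hsq)
  have h4 := hN.sub (midpoint ℝ x y) z
  have h5 := hN.le_norm35 ha z
  have h6 : μ (midpoint ℝ x y) = 1 / 2 * μ (x + y) := by
    rw [midpoint_eq_smul_add, invOf_eq_inv, ← one_div]
    exact hN.hom _ _ (by norm_num)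
  have h7 : 2 * b * ‖z‖ ≤ 2 * b * (e / (4 * b) * ‖x - y‖ ^ 2) := mul_le_mul_of_nonneg_left h3 (by positivity)
  have h8 : 2 * b * (e / (4 * b) * ‖x - y‖ ^ 2) = 1 / 2 * (e * ‖x - y‖ ^ 2) := by
    field_simp
    norm_num
  rw [hx, hy] at h1
  linarith

end Pool.Agent.W_1b8d5d_p
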