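import Pool.Agent.W_1b8d5d_p.FrameF
import Pool.Agent.W_1b8d5d_p.Cone32C
import Pool.Agent.W_1b8d5d_p.EdTail33

/-!
Track P (MP_1b8d5d_pr), uniform doubling: the exponential moment of the luck of `M` blocks at the unit of one block, and (SUB) with
the exponent `1 / 2` at zero temperature. (helper66)
-/

namespace Pool.Agent.W_1b8d5d_p66

open MeasureTheory Set Pool.Agent.W_1b8d5d_h85 Pool.Agent.W_1b8d5d_p Pool.Agent.W_1b8d5d_h4p
open scoped ENNReal

variable {F : Fm} {d : Dr} {κ : ℝ}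

/-- The luck of the origin against the exponential of the tilted luck of a slab. -/
theorem VV_le_EG (hd : Adm F κ d) {θ W : ℝ} (hθ : 0 ≤ θ) (hW : 0 < W) {l : ℕ} (hl : 1 ≤ l) (η : Env) :
    ENNReal.ofReal (Real.exp (θ * VV F d η 0 l)) ≤ EG F d θ 0 W (-W) l η := by
  obtain ⟨y, hy, -⟩ := VV_attained hd η 0 hl
  have h2 := le_EG (F := F) (d := d) (θ := θ) (σ := 0) (W := W) (z := -W) (m := l) η (x := 0)
    (by push_cast; linarith) (by push_cast; linarith) y
  have e1 : θ * (0 * |(y : ℝ) - d.v * (l : ℝ)| - X F d η (0, 0) l y) = θ * VV F d η 0 l := by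
    have : ((0, 0) : Pt) = 0 := rfl
    rw [this, hy]
    ring
  rw [e1] at h2
  exact h2

/-- One slab: the moment of the tilted luck of the starts of a cell. -/
theorem EG_one {θ t W C : ℝ} (hd : Adm F κ d) (hθ : 0 ≤ θ) (ht : t ≤ κ * F.co.M) (hW : 0 < W) {n N : ℕ} (hN : 1 ≤ N) (hNn : N ≤ n)
    (h : ∀ o : ℝ, ∫ η, Real.exp (θ * TL F d t o W n η) ∂(law F) ≤ C) (z : ℝ) :
    ∫⁻ η, EG F d θ t (W / 2) z N η ∂(law F) ≤ ENNReal.ofReal C := by
  have hsl := sl_of hd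
  refine EG_of_box (M := fun η => TL F d t z W n η) hθ ?_ (expTL_int hsl ht hθ) (h z)
  intro η x y h1 h2
  have h3 := le_TL hsl ht η (P := ((0 : ℤ), x)) (Q := ((N : ℤ), x + y)) (o := z) (W := W) (k := n)
    ⟨le_rfl, by simp, by simp only; exact_mod_cast hNn, fun hh => by
      simp only at hh
      omega, by simp only [lat]; push_cast; linarith, by simp only [lat]; push_cast; linarith⟩
  have e1 : XP F d η ((0 : ℤ), x) ((N : ℤ), x + y) = X F d η (0, x) N y := by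
    unfold XP
    simp
  have e2 : lat d ((N : ℤ), x + y) - lat d ((0 : ℤ), x) = (y : ℝ) - d.v * N := by
    unfold lat
    push_cast
    ring
  rw [e1, e2] at h3
  exact h3

/-- **THE BLOCKS**: the exponential moment of the luck of a duration `l ≤ M n` at the unit of the scale `n` is at most `B ^ M`. -/
theorem block_exp0 {K : ℝ} {Ds : Set Dr} {c0 C0' : ℝ} (hL : LawH F c0 C0') (hD : Dirs F κ K Ds) {cm : ℝ} (hcm : 0 < cm) :
    ∃ c : ℝ, 0 < c ∧ c ≤ cm ∧ ∃ B : ℝ, 1 ≤ B ∧ ∃ n₁ : ℕ, 1 ≤ n₁ ∧ ∀ d ∈ Ds, ∀ n : ℕ, n₁ ≤ n → ∀ l M : ℕ, 1 ≤ l → l ≤ M * n →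
      ∫ η, Real.exp (c / EE F d n * VV F d η 0 l) ∂(law F) ≤ B ^ M := by
  rcases Ds.eq_empty_or_nonempty with hemp | ⟨d0, hd0⟩
  · refine ⟨cm, hcm, le_rfl, 1, le_rfl, 1, le_rfl, fun d hd => ?_⟩
    rw [hemp] at hd
    exact absurd hd (Set.notMem_empty d)
  have hκ : 0 < κ := (hD.adm d0 hd0).κ0
  have hM1 : (1 : ℝ) ≤ F.co.M := by exact_mod_cast F.co.M_pos
  have hLJ := LJ_pos F
  have hCr := Cr_pos F
  obtain ⟨c1, n0, hc1, hc11, hn0, h⟩ := hD.lsU (hD.rate hL) (hD.grow_law hL) (mcz hL hD) (a := 1) le_rfl (Hh := 1) le_rfl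
  obtain ⟨C, hC, h⟩ := h 1 le_rfl
  obtain ⟨c, hc⟩ : ∃ c : ℝ, c = min c1 (min cm (κ * F.co.M / LJ F)) := ⟨_, rfl⟩
  have hc0 : 0 < c := by
    rw [hc]
    positivity
  have hcc1 : c ≤ c1 := by rw [hc]; exact min_le_left _ _
  have hccm : c ≤ cm := by rw [hc]; exact (min_le_right _ _).trans (min_le_left _ _)
  have hcLJ : c * LJ F ≤ κ * F.co.M := by
    have : c ≤ κ * F.co.M / LJ F := by rw [hc]; exact (min_le_right _ _).trans (min_le_right _ _)
    rwa [le_div_iff₀ hLJ] at this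
  obtain ⟨q0, hq0⟩ : ∃ q0 : ℝ, q0 = Pool.Agent.W_1b8d5d_p.C0 F.co F.b := ⟨_, rfl⟩
  have hq00 : 0 ≤ q0 := by rw [hq0]; exact C0_nonneg _ (b_pos F).le
  obtain ⟨S, hS⟩ : ∃ S : ℝ, S = Real.exp (c * q0 / Cr F) * (3 + 4 / c ^ 2) := ⟨_, rfl⟩
  have hS1 : 1 ≤ S := by
    have h1 : 1 ≤ Real.exp (c * q0 / Cr F) := Real.one_le_exp (by positivity)
    have h2 : 1 ≤ 3 + 4 / c ^ 2 := by
      have : 0 < 4 / c ^ 2 := by positivity
      linarith
    rw [hS]
    nlinarith
  have hB1 : 1 ≤ C * S := by nlinarith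
  refine ⟨c, hc0, hccm, C * S, hB1, n0, hn0, fun d hd n hn l M hl hlM => ?_⟩
  have hadm := hD.adm d hd
  have hn1 : 1 ≤ n := hn0.trans hn
  have hE0 := EE_pos F d n
  have hEC := Cr_le_EE F d n
  obtain ⟨W, hW⟩ : ∃ W : ℝ, W = 1 * (n * vA 1 F d n) := ⟨_, rfl⟩
  have hvp := hD.vA_pos hd one_pos hn1
  have hn0R : (0 : ℝ) < n := by exact_mod_cast hn1
  have hW0 : 0 < W := by rw [hW]; positivity
  obtain ⟨θ, hθ⟩ : ∃ θ : ℝ, θ = c / EE F d n := ⟨_, rfl⟩
  have hθ0 : 0 < θ := by rw [hθ]; positivity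
  obtain ⟨t, ht⟩ : ∃ t : ℝ, t = c * EE F d n / W := ⟨_, rfl⟩
  have ht0 : 0 < t := by rw [ht]; positivity
  have htk : t ≤ κ * F.co.M := by
    rw [ht, hW, one_mul]
    exact hD.tilt_small hd le_rfl hn1 hc0.le hcLJ
  have hbox : ∀ o : ℝ, ∫ η, Real.exp (θ * TL F d t o W n η) ∂(law F) ≤ C := by
    intro o
    have h1 := (h c hc0 hcc1 d hd n hn n (by simp) o).1
    rw [← hW, ← hθ, ← ht] at h1
    exact h1
  have hsl := sl_of hadm
  have H0 : ∀ N : ℕ, 1 ≤ N → N ≤ n → ∀ z : ℝ, ∫⁻ η, EG F d θ t (W / 2) z N η ∂(law F) ≤ ENNReal.ofReal C :=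
    fun N hN hNn z => EG_one hadm hθ0.le htk hW0 hN hNn hbox z
  have hCH := cutH_of_adm hadm
  have hLH := lwH F d
  -- the constant
  have hθq : Real.exp (θ * q0) ≤ Real.exp (c * q0 / Cr F) := by
    refine Real.exp_le_exp.2 ?_
    rw [hθ, div_mul_eq_mul_div]
    exact div_le_div_of_nonneg_left (by positivity) hCr hEC
  have hθt : θ * ((t - 0) * (W / 2)) = c ^ 2 / 2 := by
    rw [hθ, ht]
    field_simp
    ring
  have hSS : Real.exp (θ * q0) * (3 + 2 / (θ * ((t - 0) * (W / 2)))) ≤ S := by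
    rw [hS, hθt]
    have e : 2 / (c ^ 2 / 2) = 4 / c ^ 2 := by
      field_simp
      ring
    rw [e]
    exact mul_le_mul_of_nonneg_right hθq (by positivity)
  have hW2 : 0 < W / 2 := by positivity
  have hC0 : 0 ≤ C := by linarith
  have hCS0 : 0 ≤ C * S := by linarith
  -- all blocks
  have hblocks : ∀ (q : ℕ), 1 ≤ q → ∀ z : ℝ, ∫⁻ η, EG F d θ 0 (W / 2) z (q * n) η ∂(law F) ≤ ENNReal.ofReal ((C * S) ^ q) := by
    intro q hq z
    obtain ⟨k, rfl⟩ : ∃ k, q = k + 1 := ⟨q - 1, by omega⟩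
    have h1 := slabs_mean hCH hLH hθ0 le_rfl ht0 htk hW2 hn1 hC0 (H0 n hn1 le_rfl) k z
    rw [← hq0] at h1
    refine h1.trans (ENNReal.ofReal_le_ofReal ?_)
    have h2 : (C * (Real.exp (θ * q0) * (3 + 2 / (θ * ((t - 0) * (W / 2)))))) ^ k ≤ (C * S) ^ k := by
      refine pow_le_pow_left₀ ?_ (mul_le_mul_of_nonneg_left hSS hC0) k
      rw [hθt]
      positivity
    have h3 : C ≤ C * S := by nlinarith
    calc C * (C * (Real.exp (θ * q0) * (3 + 2 / (θ * ((t - 0) * (W / 2)))))) ^ k ≤ (C * S) * (C * S) ^ k :=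
          mul_le_mul h3 h2 (by rw [hθt]; positivity) hCS0
      _ = (C * S) ^ (k + 1) := by ring
  -- the lucks of the duration `l`
  have hEG : ∀ z : ℝ, ∫⁻ η, EG F d θ 0 (W / 2) z l η ∂(law F) ≤ ENNReal.ofReal ((C * S) ^ M) := by
    intro z
    have hdiv := Nat.div_add_mod l n
    obtain ⟨q, hq⟩ : ∃ q, q = l / n := ⟨_, rfl⟩
    obtain ⟨r, hr⟩ : ∃ r, r = l % n := ⟨_, rfl⟩
    have hrn : r < n := by rw [hr]; exact Nat.mod_lt _ (by omega)
    rw [← hq, ← hr] at hdiv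
    have hlq : l = q * n + r := by rw [← hdiv, mul_comm]
    rcases Nat.eq_zero_or_pos q with h0 | h0
    · -- one piece
      have hlr : l = r := by rw [hlq, h0, zero_mul, zero_add]
      have hM1' : 1 ≤ M := by
        rcases Nat.eq_zero_or_pos M with h1 | h1
        · rw [h1, zero_mul] at hlM
          omega
        · exact h1
      refine ((lintegral_mono fun η => EG_mono hθ0.le ht0.le η).trans (H0 l hl (by omega) z)).trans
        (ENNReal.ofReal_le_ofReal ?_)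
      calc C ≤ C * S := by nlinarith
        _ = (C * S) ^ 1 := (pow_one _).symm
        _ ≤ (C * S) ^ M := pow_le_pow_right₀ hB1 hM1'
    · rcases Nat.eq_zero_or_pos r with h1 | h1
      · have hlq' : l = q * n := by rw [hlq, h1, add_zero]
        have hqM : q ≤ M := by
          rw [hlq'] at hlM
          exact Nat.le_of_mul_le_mul_right hlM (by omega)
        rw [hlq']
        exact (hblocks q h0 z).trans (ENNReal.ofReal_le_ofReal (pow_le_pow_right₀ hB1 hqM))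
      · have hqM : q + 1 ≤ M := by
          have h2 : q * n < M * n := by omega
          have h3 : q < M := Nat.lt_of_mul_lt_mul_right h2
          omega
        have e1 : l = r + q * n := by rw [hlq, add_comm]
        rw [e1]
        have hm : 1 ≤ q * n := Nat.mul_pos h0 (by omega)
        refine (slab_mean hCH hLH hθ0.le le_rfl ht0.le htk hW2 h1 hm (H0 r h1 hrn.le) (hblocks q h0) z).trans ?_
        refine (mul_le_mul' le_rfl (mul_le_mul' (tsum_far hθ0 (by rw [sub_zero]; positivity)) le_rfl)).trans ?_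
        rw [← hq0, ← ENNReal.ofReal_mul (by rw [hθt]; positivity), ← ENNReal.ofReal_mul hC0]
        refine ENNReal.ofReal_le_ofReal ?_
        calc C * (Real.exp (θ * q0) * (3 + 2 / (θ * ((t - 0) * (W / 2)))) * (C * S) ^ q) ≤
              C * (S * (C * S) ^ q) := mul_le_mul_of_nonneg_left (mul_le_mul_of_nonneg_right hSS (by positivity)) hC0
          _ = (C * S) ^ (q + 1) := by ring
          _ ≤ (C * S) ^ M := pow_le_pow_right₀ hB1 hqM
  -- conclusion
  have hint := Pool.Agent.W_1b8d5d_h33p.VV_exp_bm hadm hl θ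
  have h1 := (lintegral_mono fun η => VV_le_EG hadm hθ0.le hW2 hl η).trans (hEG (-(W / 2)))
  rw [← ofReal_integral_eq_lintegral_ofReal hint (Filter.Eventually.of_forall fun η => (Real.exp_pos _).le)] at h1
  rw [← hθ]
  exact (ENNReal.ofReal_le_ofReal_iff (by positivity)).1 h1

end Pool.Agent.W_1b8d5d_p66
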