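import Pool.Agent.W_1b8d5d_p.DubA66

/-!
Track P (MP_1b8d5d_pr), uniform doubling: (SUB) with the exponent `1 / 2` at zero temperature: at a soft scale `2 ^ x` the square of
the unit is at most `A (2 ^ x / n)` times the square of the unit of any smaller scale `n`. (helper66)
-/

namespace Pool.Agent.W_1b8d5d_p66

open MeasureTheory Set Pool.Agent.W_1b8d5d_h85 Pool.Agent.W_1b8d5d_p Pool.Agent.W_1b8d5d_h4p
open Pool.Agent.W_1b8d5d_z (BM)

variable {F : Fm} {κ : ℝ}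

/-- The second moment about the mean from a fluctuation. -/
theorem sq_of_fluct {f : Env → ℝ} (hf : BM f) {m u p : ℝ} (hu : 0 ≤ u) (hp : p ≤ (law F).real {η | u ≤ |f η - m|}) :
    p * u ^ 2 ≤ ∫ η, (f η - m) ^ 2 ∂(law F) := by
  obtain ⟨hm, K, hK⟩ := hf
  have hS : MeasurableSet {η | u ≤ |f η - m|} :=
    measurableSet_le measurable_const ((hm.sub_const m).norm)
  have hint : Integrable (fun η => (f η - m) ^ 2) (law F) := by
    refine (integrable_const ((K + |m|) ^ 2)).mono' ((hm.sub_const m).pow_const 2).aestronglyMeasurable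
      (Filter.Eventually.of_forall fun η => ?_)
    rw [Real.norm_eq_abs, abs_of_nonneg (sq_nonneg _)]
    rw [← sq_abs (f η - m)]
    refine pow_le_pow_left₀ (abs_nonneg _) ?_ 2
    exact (abs_sub _ _).trans (add_le_add_left (hK η) _)
  have h1 : ∫ η, ({η | u ≤ |f η - m|}.indicator (fun _ => u ^ 2)) η ∂(law F) ≤ ∫ η, (f η - m) ^ 2 ∂(law F) := by
    refine integral_mono ((integrable_const _).indicator hS) hint fun η => ?_
    by_cases hη : η ∈ {η | u ≤ |f η - m|}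
    · rw [Set.indicator_of_mem hη]
      rw [← sq_abs (f η - m)]
      exact pow_le_pow_left₀ hu hη 2
    · rw [Set.indicator_of_notMem hη]
      exact sq_nonneg _
  rw [integral_indicator_const _ hS, smul_eq_mul] at h1
  exact (mul_le_mul_of_nonneg_right hp (sq_nonneg u)).trans h1

/-- **(SUB) with the exponent `1 / 2`.** -/
theorem sub_half0 {K : ℝ} {Ds : Set Dr} {c0 C0' : ℝ} (hL : LawH F c0 C0') (hD : Dirs F κ K Ds) (α : ℝ) :
    ∃ A : ℝ, 0 < A ∧ ∃ n₁ : ℕ, 1 ≤ n₁ ∧ ∀ d ∈ Ds, ∀ x : ℕ, Sf F κ d x α → ∀ n : ℕ, n₁ ≤ n → n ≤ 2 ^ x →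
      EE F d (2 ^ x) ^ 2 ≤ A * ((2 : ℝ) ^ x / n) * EE F d n ^ 2 := by
  have hCr := Cr_pos F
  obtain ⟨k, t0, hk, ht0, hvl⟩ := vl_law0 hL
  obtain ⟨c, hc, hccm, B, hB, n₁, hn₁, hblock⟩ := block_exp0 hL hD (cm := t0 * Cr F) (by positivity)
  have h2a : (0 : ℝ) < 2 ^ α := Real.rpow_pos_of_pos two_pos _
  have h2b : (0 : ℝ) < 2 ^ (-α) := Real.rpow_pos_of_pos two_pos _
  have h2ab : (2 : ℝ) ^ (-α) * 2 ^ α = 1 := by rw [← Real.rpow_add two_pos]; simp
  have hlB : 0 ≤ Real.log B := Real.log_nonneg hB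
  obtain ⟨Q, hQ⟩ : ∃ Q : ℝ, Q = (2 ^ α + 1) * Real.log B + 2 * c * 2 ^ α := ⟨_, rfl⟩
  have hQ0 : 0 < Q := by rw [hQ]; positivity
  refine ⟨(2 ^ α) ^ 3 * (Q / (k * c ^ 2)), by positivity, n₁, hn₁, fun d hd x hS n hn hnx => ?_⟩
  have hadm := hD.adm d hd
  have hn1 : 1 ≤ n := hn₁.trans hn
  have hnR : (1 : ℝ) ≤ n := by exact_mod_cast hn1
  have hn0 : (0 : ℝ) < n := by linarith
  have hnx' : (n : ℝ) ≤ 2 ^ x := by exact_mod_cast hnx
  obtain ⟨l, G, hl, hG, hmean, hfl⟩ := hS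
  obtain ⟨E, hE⟩ : ∃ E, E = EE F d (2 ^ x) := ⟨_, rfl⟩
  obtain ⟨e, he⟩ : ∃ e, e = EE F d n := ⟨_, rfl⟩
  have hE0 : 0 < E := by rw [hE]; exact EE_pos _ _ _
  have he0 : 0 < e := by rw [he]; exact EE_pos _ _ _
  have heC : Cr F ≤ e := by rw [he]; exact Cr_le_EE _ _ _
  rw [← hE] at hmean hfl ⊢
  rw [← he]
  obtain ⟨ρ, hρ⟩ : ∃ ρ : ℝ, ρ = (2 : ℝ) ^ x / n := ⟨_, rfl⟩
  have hρ1 : 1 ≤ ρ := by rw [hρ, one_le_div hn0]; exact hnx'
  rw [← hρ]
  -- the number of blocks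
  obtain ⟨M, hM⟩ : ∃ M : ℕ, M = l / n + 1 := ⟨_, rfl⟩
  have hlM : l ≤ M * n := by
    have h1 := Nat.lt_mul_div_succ l (show 0 < n by omega)
    rw [hM, mul_comm]
    exact h1.le
  have hMR : (M : ℝ) ≤ (2 ^ α + 1) * ρ := by
    have h1 : ((l / n : ℕ) : ℝ) ≤ (l : ℝ) / n := Nat.cast_div_le
    have h2 : (l : ℝ) / n ≤ 2 ^ α * ρ := by
      rw [hρ, ← mul_div_assoc]
      refine div_le_div_of_nonneg_right ?_ hn0.le
      refine hl.trans (le_of_eq ?_)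
      rw [Real.rpow_add two_pos, Real.rpow_natCast]
      ring
    rw [hM]
    push_cast
    linarith
  -- the unit of the large scale
  have hEe : E ≤ 2 * ρ * e := by
    obtain ⟨N, hN⟩ : ∃ N : ℕ, N = 2 ^ x / n + 1 := ⟨_, rfl⟩
    have h1 : 2 ^ x ≤ N * n := by
      have h1 := Nat.lt_mul_div_succ (2 ^ x) (show 0 < n by omega)
      rw [hN, mul_comm]
      exact h1.le
    have h2 := (EE_mono F d h1).trans (EE_mul F d n (k := N) (by rw [hN]; exact Nat.le_add_left 1 _))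
    rw [← hE, ← he] at h2
    have h3 : (N : ℝ) ≤ 2 * ρ := by
      have h4 : ((2 ^ x / n : ℕ) : ℝ) ≤ ((2 ^ x : ℕ) : ℝ) / n := Nat.cast_div_le
      rw [hN]
      push_cast at h4 ⊢
      rw [← hρ] at h4
      linarith
    exact h2.trans (mul_le_mul_of_nonneg_right h3 he0.le)
  -- the tilt
  obtain ⟨t, ht⟩ : ∃ t : ℝ, t = c / e := ⟨_, rfl⟩
  have htp : 0 < t := by rw [ht]; positivity
  have htt : t ≤ t0 := by
    rw [ht, div_le_iff₀ he0]
    exact hccm.trans (mul_le_mul_of_nonneg_left heC ht0.le)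
  have h1 := hvl _ _ (hG.fz0 hadm.κ0.le) t htp.le htt
  have hbm := hG.bm hadm.κ0.le
  obtain ⟨m, hm⟩ : ∃ m, m = ∫ η, G (F.tau η) ∂(law F) := ⟨_, rfl⟩
  rw [← hm] at hmean hfl h1
  have h2 := sq_of_fluct hbm (by positivity) hfl
  -- the log-Laplace transform
  have hint : Integrable (fun η => Real.exp (t * G (F.tau η))) (law F) := by
    obtain ⟨hmG, KG, hKG⟩ := hbm
    refine (integrable_const (Real.exp (t * KG))).mono' (Real.measurable_exp.comp (hmG.const_mul t)).aestronglyMeasurable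
      (Filter.Eventually.of_forall fun η => ?_)
    rw [Real.norm_eq_abs, abs_of_pos (Real.exp_pos _)]
    exact Real.exp_le_exp.2 (mul_le_mul_of_nonneg_left ((le_abs_self _).trans (hKG η)) htp.le)
  have h3 : ∫ η, Real.exp (t * G (F.tau η)) ∂(law F) ≤ B ^ M := by
    refine (integral_mono hint (Pool.Agent.W_1b8d5d_h33p.VV_exp_bm hadm hG.l1 t) fun η => ?_).trans ?_
    · exact Real.exp_le_exp.2 (mul_le_mul_of_nonneg_left (hG.le_VV hadm.κ0.le η) htp.le)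
    · have h4 := hblock d hd n hn l M hG.l1 hlM
      rwa [← he, ← ht] at h4
  have h4 : Real.log (∫ η, Real.exp (t * G (F.tau η)) ∂(law F)) ≤ M * Real.log B := by
    have h5 := Real.log_le_log (integral_exp_pos hint) h3
    rwa [Real.log_pow] at h5
  -- collect
  have h5 : k * t ^ 2 * (2 ^ (-α) * (2 ^ (-α) * E) ^ 2) ≤ M * Real.log B + t * (2 ^ α * E) := by
    have h6 := mul_le_mul_of_nonneg_left h2 (show 0 ≤ k * t ^ 2 by positivity)
    have h7 := mul_le_mul_of_nonneg_left hmean htp.le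
    linarith
  have h6 : M * Real.log B + t * (2 ^ α * E) ≤ Q * ρ := by
    have h7 : M * Real.log B ≤ (2 ^ α + 1) * ρ * Real.log B := mul_le_mul_of_nonneg_right hMR hlB
    have h8 : t * (2 ^ α * E) ≤ 2 * c * 2 ^ α * ρ := by
      have h9 : t * (2 ^ α * E) ≤ t * (2 ^ α * (2 * ρ * e)) :=
        mul_le_mul_of_nonneg_left (mul_le_mul_of_nonneg_left hEe h2a.le) htp.le
      have h10 : t * (2 ^ α * (2 * ρ * e)) = 2 * c * 2 ^ α * ρ := by
        rw [ht]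
        field_simp
      linarith
    rw [hQ]
    nlinarith
  have h7 := h5.trans h6
  have h8 : t ^ 2 * e ^ 2 = c ^ 2 := by
    rw [ht]
    field_simp
  -- the factor
  have h9 : k * c ^ 2 * E ^ 2 ≤ (2 ^ α) ^ 3 * (Q * ρ * e ^ 2) := by
    have e1 : k * t ^ 2 * (2 ^ (-α) * (2 ^ (-α) * E) ^ 2) * ((2 ^ α) ^ 3 * e ^ 2) = k * c ^ 2 * E ^ 2 := by
      calc k * t ^ 2 * (2 ^ (-α) * (2 ^ (-α) * E) ^ 2) * ((2 ^ α) ^ 3 * e ^ 2) =
            k * (t ^ 2 * e ^ 2) * E ^ 2 * ((2 : ℝ) ^ (-α) * 2 ^ α) ^ 3 := by ring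
        _ = k * c ^ 2 * E ^ 2 := by rw [h8, h2ab]; ring
    have h10 := mul_le_mul_of_nonneg_right h7 (show 0 ≤ ((2 : ℝ) ^ α) ^ 3 * e ^ 2 by positivity)
    rw [e1] at h10
    refine h10.trans (le_of_eq ?_)
    ring
  have hkc : 0 < k * c ^ 2 := by positivity
  have h10 : E ^ 2 ≤ (2 ^ α) ^ 3 * (Q * ρ * e ^ 2) / (k * c ^ 2) := by
    rw [le_div_iff₀ hkc]
    linarith
  refine h10.trans (le_of_eq ?_)
  field_simp

end Pool.Agent.W_1b8d5d_p66
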