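import Pool.Agent.W_1b8d5d_p.DubB66

/-!
Track P (MP_1b8d5d_pr), uniform doubling: THE CONE CLOSES AT ALL SCALES, uniformly in the direction. From the chain (`chainU`), (SUB)
with the exponent `1 / 2` (`sub_half0`) and (hF2). (helper66)
-/

open Finset Filter

namespace Pool.Agent.W_1b8d5d_p66

open MeasureTheory Set Pool.Agent.W_1b8d5d_h85 Pool.Agent.W_1b8d5d_p Pool.Agent.W_1b8d5d_h4p

/-- RISING SUN (as in the track SR): a function which grows on all stretches by at most `j / 2 + K` has in every window of a fixed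
length a point from which it grows by at most `3 j / 4` for `L` steps. -/
theorem rising0 {g : ℕ → ℝ} {K : ℝ} {x₀ : ℕ} (hg : ∀ x j : ℕ, x₀ ≤ x → g (x + j) ≤ g x + j / 2 + K) (L : ℕ) {N : ℕ}
    (hN : 4 * K ≤ N) {x : ℕ} (hx : x₀ ≤ x) : ∃ x', x ≤ x' ∧ x' ≤ x + N ∧ ∀ j : ℕ, j ≤ L → g (x' + j) ≤ g x' + 3 / 4 * j := by
  by_contra hcon
  push Not at hcon
  have key : ∀ k : ℕ, k ≤ N + 1 → ∃ y : ℕ, x + k ≤ y ∧ g x + 3 / 4 * ((y : ℝ) - x) ≤ g y := by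
    intro k
    induction k with
    | zero => exact fun _ => ⟨x, le_rfl, by simp⟩
    | succ k ih =>
      intro hk
      obtain ⟨y, hy1, hy2⟩ := ih (by omega)
      rcases lt_or_ge (x + k) y with hlt | hge
      · exact ⟨y, by omega, hy2⟩
      · have hyk : y = x + k := by omega
        obtain ⟨j, -, hj2⟩ := hcon y (by omega) (by omega)
        have hj0 : j ≠ 0 := by
          rintro rfl
          simp at hj2
        refine ⟨y + j, by omega, ?_⟩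
        push_cast
        linarith
  obtain ⟨y, hy1, hy2⟩ := key (N + 1) le_rfl
  have h1 := hg x (y - x) hx
  have h2 : x + (y - x) = y := by omega
  rw [h2] at h1
  have h3 : ((y - x : ℕ) : ℝ) = (y : ℝ) - x := by
    rw [Nat.cast_sub (by omega)]
  rw [h3] at h1
  have h4 : (x : ℝ) + (N + 1) ≤ y := by exact_mod_cast hy1
  linarith

/-- **The chain with the conclusion at all scales**: soft scales, growth of the unit, (SUB), closing of the cone. -/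
theorem chainD {ι : Type*} {g f : ι → ℕ → ℝ} {S : ι → ℕ → ℝ → Prop} {α₀ C₀ D Cg G₀ F₀ : ℝ}
    (hmono : ∀ i x α β, α ≤ β → S i x α → S i x β) (hCg : 0 ≤ Cg)
    (hg : ∀ i y x, y ≤ x → g i y ≤ g i x + Cg) (hg1 : ∀ i x, g i (x + 1) ≤ g i x + D) (hf : ∀ i, Monotone (f i))
    (hg0 : ∀ i, |g i 0| ≤ G₀) (hf0 : ∀ i, -F₀ ≤ f i 0)
    (hf2 : ∀ M : ℝ, ∃ x₁ : ℕ, ∀ i x, x₁ ≤ x → M ≤ f i x)
    (hS : ∃ (P : ι → ℕ → Prop) (α C : ℝ) (k x₀ : ℕ),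
      (∀ i y x, x₀ ≤ y → y ≤ x → (∀ z, y ≤ z → z < x → P i z) → g i x - g i y ≤ (f i x - f i y) / 4 + C) ∧
      ∀ i x, x₀ ≤ x → ¬ P i x → ∃ y, x ≤ y + k ∧ y ≤ x + k ∧ S i y α)
    (hB0 : ∀ i x, S i x (max (g i x - f i x / 2 + C₀) α₀))
    (hB : ∀ a₁ : ℝ, ∃ C : ℝ, ∀ T : ℕ, ∃ y₀ : ℕ, ∀ i y x, y₀ ≤ y → y ≤ x → x ≤ y + T → S i y a₁ →
      S i x (max (g i x - g i y - (f i x - f i y) / 2 + C) α₀))
    (hG : ∀ a₁ : ℝ, ∃ T x₀ : ℕ, ∀ i x, x₀ ≤ x → S i x a₁ → g i x + 1 ≤ g i (x + T))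
    (hV : ∀ a₁ : ℝ, ∃ C : ℝ, ∀ i (x : ℕ), S i x a₁ → g i x ≤ x / 2 + C)
    (hSub : ∀ a₁ : ℝ, ∃ (C : ℝ) (x₀ : ℕ), ∀ i (x j : ℕ), x₀ ≤ x → S i (x + j) a₁ → g i (x + j) ≤ g i x + j / 2 + C)
    (hF2 : ∀ (T x₀ : ℕ) (b : ℝ), (∀ i y, x₀ ≤ y → g i y + 1 ≤ g i (y + T)) → (∀ i y, x₀ ≤ y → S i y b) →
      (∀ i (y : ℕ), g i y ≤ (y : ℝ) / 2 + b) → ∃ (L x₁ : ℕ) (δ : ℝ), 0 < δ ∧ ∀ i x, x₁ ≤ x →
        (∀ j : ℕ, j ≤ L → g i (x + j) ≤ g i x + 3 / 4 * j) → f i x + δ ≤ f i (x + L)) :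
    ∃ (β C δ : ℝ) (T L x₁ : ℕ), 0 < δ ∧ 1 ≤ L ∧ (∀ i x, x₁ ≤ x → S i x β) ∧ (∀ i x, x₁ ≤ x → g i x + 1 ≤ g i (x + T)) ∧
      (∀ i (x j : ℕ), x₁ ≤ x → g i (x + j) ≤ g i x + j / 2 + C) ∧ (∀ i x, x₁ ≤ x → f i x + δ ≤ f i (x + L)) := by
  obtain ⟨P, α, C, k, x₀, hslow, hres⟩ := hS
  have hf0' : ∀ i x, -F₀ ≤ f i x := fun i x => (hf0 i).trans (hf i (Nat.zero_le x))
  have hoften := oftenU hmono hg1 (fun i => (le_abs_self _).trans (hg0 i)) hf0' hf2 hslow hres hB0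
  have hbd := boundedU (err := fun _ _ => 0) (C' := C) (Cf := 0) hmono hCg le_rfl hg hg1
    (fun i y x h => by linarith [hf i h])
    (fun _ _ => le_rfl) (fun _ => ⟨0, fun _ _ _ _ _ _ _ => by simp⟩)
    (fun i y x h1 h2 h3 => by
      have := hslow i y x h1 h2 h3
      simp only [sum_const_zero, add_zero, mul_one]
      exact this) hres hoften hB hG
  obtain ⟨β, x₂, hbd⟩ := hbd
  obtain ⟨T, x₃, hT⟩ := hG β
  obtain ⟨CV, hV⟩ := hV β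
  obtain ⟨CS, x₄, hCS⟩ := hSub β
  obtain ⟨X, hX⟩ : ∃ X : ℕ, X = max (max x₂ x₃) x₄ := ⟨_, rfl⟩
  have hX2 : x₂ ≤ X := by rw [hX]; exact (le_max_left _ _).trans (le_max_left _ _)
  have hX3 : x₃ ≤ X := by rw [hX]; exact (le_max_right _ _).trans (le_max_left _ _)
  have hX4 : x₄ ≤ X := by rw [hX]; exact le_max_right _ _
  have hSub' : ∀ i (x j : ℕ), X ≤ x → g i (x + j) ≤ g i x + j / 2 + CS := fun i x j hx =>
    hCS i x j (hX4.trans hx) (hbd i _ (by omega))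
  obtain ⟨b, hb⟩ : ∃ b : ℝ, b = max β ((X : ℝ) / 2 + |CV| + Cg) := ⟨_, rfl⟩
  have hb2 : (X : ℝ) / 2 + |CV| + Cg ≤ b := by rw [hb]; exact le_max_right _ _
  have h2 : ∀ i (x : ℕ), g i x ≤ (x : ℝ) / 2 + b := by
    intro i x
    have habs := le_abs_self CV
    rcases le_total X x with h | h
    · have h1 := hV i x (hbd i x (hX2.trans h))
      have h2 : (0 : ℝ) ≤ (X : ℝ) / 2 := by positivity
      linarith
    · have h1 := hV i X (hbd i _ hX2)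
      have h2 := hg i x X h
      have h3 : (0 : ℝ) ≤ (x : ℝ) / 2 := by positivity
      linarith
  obtain ⟨L, x₅, δ, hδ, hF⟩ := hF2 T X b (fun i y hy => hT i y (hX3.trans hy) (hbd i y (hX2.trans hy)))
    (fun i y hy => hmono _ _ _ _ (by rw [hb]; exact le_max_left _ _) (hbd i y (hX2.trans hy))) h2
  obtain ⟨N, hN⟩ : ∃ N : ℕ, 4 * CS ≤ N := exists_nat_ge _
  refine ⟨β, CS, δ, T, N + L + 1, max X x₅, hδ, by omega, fun i x hx => hbd i x (hX2.trans ((le_max_left _ _).trans hx)),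
    fun i x hx => hT i x (hX3.trans ((le_max_left _ _).trans hx)) (hbd i x (hX2.trans ((le_max_left _ _).trans hx))),
    fun i x j hx => hSub' i x j ((le_max_left _ _).trans hx), fun i x hx => ?_⟩
  obtain ⟨x', h1, h3, h4⟩ := rising0 (g := g i) (K := CS) (x₀ := X) (fun x j hx => hSub' i x j hx) L hN
    ((le_max_left _ _).trans hx)
  have h5 := hF i x' (((le_max_right _ _).trans hx).trans h1) h4
  have h6 : f i x ≤ f i x' := hf i h1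
  have h7 : f i (x' + L) ≤ f i (x + (N + L + 1)) := hf i (by omega)
  linarith

variable {F : Fm} {κ K : ℝ} {A : Set Dr} {c0 C0' : ℝ}

/-- **THE CONE CLOSES AT ALL SCALES**, uniformly in the direction. -/
theorem cone_all0 {a : ℝ} (hL : LawH F c0 C0') (hκ : 0 < κ) (hD : Dirs F κ K A) (ha : 0 < a) (hS : HSP a F κ A)
    (hB0 : HB0P a F κ A) (hB : HBP a F κ A) (hF2 : HF2P a F κ A) :
    ∃ (β C δ : ℝ) (T L x₁ : ℕ), 0 < δ ∧ 1 ≤ L ∧ (∀ d ∈ A, ∀ x, x₁ ≤ x → Sf F κ d x β) ∧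
      (∀ d ∈ A, ∀ x, x₁ ≤ x → gg F d x + 1 ≤ gg F d (x + T)) ∧
      (∀ d ∈ A, ∀ x j : ℕ, x₁ ≤ x → gg F d (x + j) ≤ gg F d x + j / 2 + C) ∧
      (∀ d ∈ A, ∀ x, x₁ ≤ x → ff a F d x + δ ≤ ff a F d (x + L)) := by
  obtain ⟨C₀, α₀, hB0⟩ := hB0
  obtain ⟨α₁, hB⟩ := hB
  obtain ⟨G₀, hG₀⟩ := gg_zero hD
  obtain ⟨F₀, hF₀⟩ := ff_zero hD ha
  have hgr := hD.grow_law hL
  have key := chainD (ι := A) (g := fun d x => gg F d.1 x) (f := fun d x => ff a F d.1 x) (S := fun d x α => Sf F κ d.1 x α)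
    (α₀ := max α₀ α₁) (C₀ := C₀) (D := 1) (Cg := 0) (G₀ := G₀) (F₀ := F₀)
    (fun d x α β hαβ hs => hs.mono hαβ) le_rfl
    (fun d y x hyx => by simpa using gg_mono F d.1 hyx) (fun d x => gg_succ F d.1 x) (fun d => ff_mono hD ha d.2)
    (fun d => hG₀ d.1 d.2) (fun d => hF₀ d.1 d.2)
    (fun M => by
      obtain ⟨x₁, h⟩ := ff_large hD ha (hD.rate hL) M
      exact ⟨x₁, fun d x hx => h d.1 d.2 x hx⟩)
    hS
    (fun d x => (hB0 d.1 d.2 x).mono (max_le_max_left _ (le_max_left _ _)))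
    (fun a₁ => by
      obtain ⟨C, h⟩ := hB a₁
      refine ⟨C, fun T => ?_⟩
      obtain ⟨y₀, h1⟩ := h T
      exact ⟨y₀, fun d y x h2 h3 h4 h5 => (h1 d.1 d.2 y x h2 h3 h4 h5).mono (max_le_max_left _ (le_max_right _ _))⟩)
    (fun a₁ => by
      obtain ⟨T, x₀, h⟩ := growK0 hL hD.adm hD.touch hgr a₁ 1
      exact ⟨T, x₀, fun d x hx hs => h d.1 d.2 x hx hs⟩)
    (fun a₁ => by
      obtain ⟨C, h⟩ := hV0 hL hκ a₁
      exact ⟨C, fun d x hs => h d.1 (hD.adm d.1 d.2) x hs⟩)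
    (fun a₁ => by
      obtain ⟨Q, hQ, n₁, hn₁, h⟩ := sub_half0 hL hD a₁
      refine ⟨Real.logb 2 Q / 2, n₁, fun d x j hx hs => ?_⟩
      have hpx : n₁ ≤ 2 ^ x := hx.trans (Nat.lt_two_pow_self).le
      have h1 := h d.1 d.2 (x + j) hs (2 ^ x) hpx (Nat.pow_le_pow_right (by norm_num) (by omega))
      have hE1 := EE_pos F d.1 (2 ^ x)
      have hE2 := EE_pos F d.1 (2 ^ (x + j))
      have h2 : (2 : ℝ) ^ (x + j) / ((2 ^ x : ℕ) : ℝ) = (2 : ℝ) ^ j := by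
        push_cast
        rw [pow_add]
        field_simp
      rw [h2] at h1
      have h3 := Real.logb_le_logb_of_le one_lt_two (pow_pos hE2 2) h1
      rw [Real.logb_mul (by positivity) (by positivity), Real.logb_mul (by positivity) (by positivity), Real.logb_pow,
        Real.logb_pow, Real.logb_pow, Real.logb_self_eq_one one_lt_two] at h3
      show gg F d.1 (x + j) ≤ gg F d.1 x + j / 2 + Real.logb 2 Q / 2
      unfold gg
      push_cast at h3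
      linarith)
    (fun T x₀ b h1 h2 h3 => by
      obtain ⟨L, x₁, δ, hδ, h⟩ := hF2 T x₀ b (fun d hd => h1 ⟨d, hd⟩) (fun d hd => h2 ⟨d, hd⟩) (fun d hd => h3 ⟨d, hd⟩)
      exact ⟨L, x₁, δ, hδ, fun d => h d.1 d.2⟩)
  obtain ⟨β, C, δ, T, L, x₁, h0, h1, h2, h3, h4, h5⟩ := key
  exact ⟨β, C, δ, T, L, x₁, h0, h1, fun d hd => h2 ⟨d, hd⟩, fun d hd => h3 ⟨d, hd⟩, fun d hd => h4 ⟨d, hd⟩,
    fun d hd => h5 ⟨d, hd⟩⟩

end Pool.Agent.W_1b8d5d_p66
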