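import Pool.Agent.W_1b8d5d_p.DPe

/-!
Track P (MP_1b8d5d_pr), section 4, proofs row 642: THE EDGE AT ONE SCALE, UNIT FREE. Cells of width `w`, connections of
duration `S` whose displacements `[y0, y0 + w]` are cheap, slabs of length `L'`; `N = S + L' + S`.
-/

namespace Pool.Agent.W_1b8d5d_p7

open MeasureTheory Set Pool.Agent.W_1b8d5d_h85 Pool.Agent.W_1b8d5d_p Pool.Agent.W_1b8d5d_p66
open Pool.Agent.W_7d29a1_f21 (splice splice_mem splice_not_mem mp_splice)
open scoped ENNReal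

variable {F : Fm} {d : Dr} {κ : ℝ}

/-- The edge at one scale: side `sg`, slope `u`, cells of width `w`, connections of duration `S` with the displacements
`[y0, y0 + w]`, unit of costs `1 / th`, slabs of length `L'`. -/
structure EdH (F : Fm) (d : Dr) (sg th u ks De C1 : ℝ) (w S L' : ℕ) (y0 : ℤ) : Prop where
  sg1 : sg = 1 ∨ sg = -1
  th0 : 0 < th
  w1 : 1 ≤ w
  S1 : 1 ≤ S
  L1 : 1 ≤ L'
  con : ∀ y : ℤ, y0 ≤ y → y ≤ y0 + w → th * e F d S y ≤ 1
  shift : |2 * (y0 : ℝ) + w - 2 * u * S| ≤ ks * w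
  tail : ∀ z : ℤ, ∫ η, Real.exp (-(th * X F d η 0 (S + L' + S) z)) ∂(law F) ≤
    C1 * Real.exp (-(th * e F d (S + L' + S) z / 2))
  out : ∀ (z : ℤ) (ρ : ℝ), 1 ≤ ρ → ρ * w ≤ sg * (z - u * ((S + L' + S : ℕ) : ℝ)) → De * ρ ≤ th * e F d (S + L' + S) z

/-! ### Exponential moments of one cost -/

theorem ex_X_integrable (hd : Adm F κ d) (θ : ℝ) {N : ℕ} (hN : 1 ≤ N) (a : Pt) (y : ℤ) :
    Integrable (fun η => Real.exp (-(θ * X F d η a N y))) (law F) := by
  have hm : Measurable fun η => Real.exp (-(θ * X F d η a N y)) :=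
    Real.measurable_exp.comp ((X_meas F d a N y).const_mul θ).neg
  obtain ⟨K, hK⟩ : ∃ K : ℝ, K = C1 F * N + 2 * F.b * (F.co.M * |(y : ℝ)|) + 4 * F.b := ⟨_, rfl⟩
  refine (integrable_const (Real.exp (|θ| * K))).mono' hm.aestronglyMeasurable (Filter.Eventually.of_forall fun η => ?_)
  rw [Real.norm_eq_abs, abs_of_pos (Real.exp_pos _)]
  refine Real.exp_le_exp.2 ?_
  have h1 := abs_X_le hd η a hN y
  rw [← hK] at h1
  calc -(θ * X F d η a N y) ≤ |θ * X F d η a N y| := neg_le_abs _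
    _ = |θ| * |X F d η a N y| := abs_mul _ _
    _ ≤ |θ| * K := mul_le_mul_of_nonneg_left h1 (abs_nonneg _)

theorem lint_ex_X (hd : Adm F κ d) (θ : ℝ) {N : ℕ} (hN : 1 ≤ N) (a : Pt) (y : ℤ) :
    ∫⁻ η, ex (-(θ * X F d η a N y)) ∂(law F) = ENNReal.ofReal (∫ η, Real.exp (-(θ * X F d η a N y)) ∂(law F)) :=
  (ofReal_integral_eq_lintegral_ofReal (ex_X_integrable hd θ hN a y)
    (Filter.Eventually.of_forall fun η => (Real.exp_pos _).le)).symm

/-- Stationarity. -/
theorem lint_ex_shift (F : Fm) (d : Dr) (θ : ℝ) (N : ℕ) (a : Pt) (y : ℤ) :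
    ∫⁻ η, ex (-(θ * X F d η a N y)) ∂(law F) = ∫⁻ η, ex (-(θ * X F d η 0 N y)) ∂(law F) := by
  have hm : Measurable fun η => ex (-(θ * X F d η 0 N y)) := ex_meas.comp ((X_meas F d 0 N y).const_mul θ).neg
  rw [← lintegral_shp (F := F) hm a]
  refine lintegral_congr fun η => ?_
  rw [X_shp, zero_add]

/-- Jensen. -/
theorem ex_e_le (hd : Adm F κ d) (θ : ℝ) {N : ℕ} (hN : 1 ≤ N) (a : Pt) (y : ℤ) :
    ex (-(θ * e F d N y)) ≤ ∫⁻ η, ex (-(θ * X F d η a N y)) ∂(law F) := by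
  rw [lint_ex_shift, lint_ex_X hd θ hN 0 y]
  refine ENNReal.ofReal_le_ofReal ?_
  refine exp_neg_e_le hd θ hN y (integral_nonneg fun η => (Real.exp_pos _).le) ?_
  rw [lint_ex_X hd θ hN 0 y]

/-- Integration over the edges of `A` and over the other edges. -/
theorem lint_splice7 (F : Fm) (A : Set Edge) {f : Env → ℝ≥0∞} (hf : Measurable f) :
    ∫⁻ g, ∫⁻ g', f (splice A g g') ∂(law F) ∂(law F) = ∫⁻ g, f g ∂(law F) := by
  have h1 := mp_splice (ι := Edge) (μ := F.nu) A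
  have h2 : ∫⁻ w, f (splice A w.1 w.2) ∂((law F).prod (law F)) = ∫⁻ g, f g ∂(law F) := h1.lintegral_comp hf
  rw [← h2]
  exact (lintegral_prod (fun w : Env × Env => f (splice A w.1 w.2)) (hf.comp h1.measurable).aemeasurable).symm

/-! ### (A1) Cells and points -/

/-- (A1) THE CELLS ARE CONNECTED TO TWO POINTS. -/
theorem cell0 (hd : Adm F κ d) {θ : ℝ} (hθ : 0 < θ) {w S L' : ℕ} (hS : 1 ≤ S) (hL : 1 ≤ L') {y0 : ℤ}
    (hcon : ∀ y : ℤ, y0 ≤ y → y ≤ y0 + w → θ * e F d S y ≤ 1) (s x0 y : ℤ) :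
    ∫⁻ η, GG F d θ s x0 L' y w η ∂(law F) ≤
      ex 2 * ∫⁻ η, ex (-(θ * X F d η 0 (S + L' + S) (y - x0 + 2 * y0 + w))) ∂(law F) := by
  obtain ⟨a, ha⟩ : ∃ a : Pt, a = (s - S, x0 - y0) := ⟨_, rfl⟩
  obtain ⟨A, hA⟩ : ∃ A : Set Edge, A = F.co.slab s (s + L') := ⟨_, rfl⟩
  obtain ⟨f, hf⟩ : ∃ f : Env → ℝ≥0∞, f = fun η => ex (-(θ * X F d η a (S + L' + S) (y - x0 + 2 * y0 + w))) := ⟨_, rfl⟩
  have hfm : Measurable f := by
    rw [hf]
    exact ex_meas.comp ((X_meas F d a _ _).const_mul θ).neg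
  have hAm : ∀ g g' : Env, ∀ e ∈ A, splice A g g' e = g e := fun g g' e he => splice_mem _ _ he
  have hAn : ∀ g g' : Env, ∀ e, e ∉ A → splice A g g' e = g' e := fun g g' e he => splice_not_mem _ _ he
  have key : ∀ g : Env, ex (-2) * GG F d θ s x0 L' y w g ≤ ∫⁻ g', f (splice A g g') ∂(law F) := by
    intro g
    have h1 : GG F d θ s x0 L' y w g ≤ ex 2 * ∫⁻ g', f (splice A g g') ∂(law F) := by
      refine iSup_le fun x => iSup_le fun hx => iSup_le fun k => iSup_le fun hk => ?_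
      -- the two connections
      obtain ⟨c₁, hc₁⟩ : ∃ c₁ : ℤ, c₁ = x - x0 + y0 := ⟨_, rfl⟩
      obtain ⟨c₂, hc₂⟩ : ∃ c₂ : ℤ, c₂ = y + w + y0 - k := ⟨_, rfl⟩
      obtain ⟨b, hb⟩ : ∃ b : Pt, b = (s + L', k) := ⟨_, rfl⟩
      obtain ⟨G₁, hG₁⟩ : ∃ G₁ : Env → ℝ≥0∞, G₁ = fun g' => ex (-(θ * X F d g' a S c₁)) := ⟨_, rfl⟩
      obtain ⟨G₂, hG₂⟩ : ∃ G₂ : Env → ℝ≥0∞, G₂ = fun g' => ex (-(θ * X F d g' b S c₂)) := ⟨_, rfl⟩
      have hG₁m : Measurable G₁ := by rw [hG₁]; exact ex_meas.comp ((X_meas F d a _ _).const_mul θ).neg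
      have hG₂m : Measurable G₂ := by rw [hG₂]; exact ex_meas.comp ((X_meas F d b _ _).const_mul θ).neg
      have hpt : ∀ g' : Env, ex (-(θ * Y F d g s x L' k)) * (G₁ g' * G₂ g') ≤ f (splice A g g') := by
        intro g'
        rw [hG₁, hG₂, hf]
        simp only [← ex_add]
        refine ex_mono ?_
        obtain ⟨η, hη⟩ : ∃ η : Env, η = splice A g g' := ⟨_, rfl⟩
        rw [← hη]
        have e1 : X F d η a S c₁ = X F d g' a S c₁ := X_dep F d a S c₁ fun e he => by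
          rw [hη]
          refine hAn g g' e fun h => ?_
          rw [hA] at h
          have : Disjoint (F.co.slab a.1 (a.1 + S)) (F.co.slab s (s + L')) := Co.slab_disjoint (by rw [ha]; simp)
          exact (Set.disjoint_left.mp this) he h
        have e2 : Y F d η s x L' k = Y F d g s x L' k := by
          refine X_dep F d (s, x) L' (k - x) fun e he => ?_
          rw [hη]
          exact hAm g g' e (by rw [hA]; exact he)
        have e3 : X F d η b S c₂ = X F d g' b S c₂ := X_dep F d b S c₂ fun e he => by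
          rw [hη]
          refine hAn g g' e fun h => ?_
          rw [hA] at h
          have : Disjoint (F.co.slab s (s + L')) (F.co.slab b.1 (b.1 + S)) := Co.slab_disjoint (by rw [hb])
          exact (Set.disjoint_left.mp this) h he
        have t1 := X_tri F d η a (m := S) (n := L' + S) hS (by omega) c₁ (k - x + c₂)
        have t2 := X_tri F d η (s, x) (m := L') (n := S) hL hS (k - x) c₂
        have p1 : a + ((S : ℤ), c₁) = (s, x) := by
          rw [ha, hc₁]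
          ext
          · show s - (S : ℤ) + S = s
            ring
          · show x0 - y0 + (x - x0 + y0) = x
            ring
        have p2 : ((s, x) : Pt) + ((L' : ℤ), k - x) = b := by
          rw [hb]
          ext
          · rfl
          · show x + (k - x) = k
            ring
        rw [p1] at t1
        rw [p2] at t2
        have p3 : c₁ + (k - x + c₂) = y - x0 + 2 * y0 + w := by rw [hc₁, hc₂]; ring
        have p4 : S + (L' + S) = S + L' + S := by omega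
        rw [p3, p4] at t1
        have t3 : X F d η a (S + L' + S) (y - x0 + 2 * y0 + w) ≤
            X F d g' a S c₁ + (Y F d g s x L' k + X F d g' b S c₂) := by
          rw [← e1, ← e2, ← e3]
          unfold Y
          linarith
        have t4 := mul_le_mul_of_nonneg_left t3 hθ.le
        linarith
      have hind : ∫⁻ g', G₁ g' * G₂ g' ∂(law F) = (∫⁻ g', G₁ g' ∂(law F)) * ∫⁻ g', G₂ g' ∂(law F) := by
        refine lintegral_indep (μ := F.nu) (A := F.co.slab a.1 (a.1 + S)) (B := F.co.slab b.1 (b.1 + S)) hG₁m hG₂m ?_ ?_ ?_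
        · intro η η' h
          have h2 : X F d η a S c₁ = X F d η' a S c₁ := X_dep F d a S c₁ h
          rw [hG₁]
          show ex (-(θ * X F d η a S c₁)) = ex (-(θ * X F d η' a S c₁))
          rw [h2]
        · intro η η' h
          have h2 : X F d η b S c₂ = X F d η' b S c₂ := X_dep F d b S c₂ h
          rw [hG₂]
          show ex (-(θ * X F d η b S c₂)) = ex (-(θ * X F d η' b S c₂))
          rw [h2]
        · exact Co.slab_disjoint (by rw [ha, hb]; simp only; omega)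
      have hJ₁ : ex (-1) ≤ ∫⁻ g', G₁ g' ∂(law F) := by
        rw [hG₁]
        refine (ex_mono ?_).trans (ex_e_le hd θ hS a c₁)
        have := hcon c₁ (by rw [hc₁]; linarith [hx.1]) (by rw [hc₁]; linarith [hx.2])
        linarith
      have hJ₂ : ex (-1) ≤ ∫⁻ g', G₂ g' ∂(law F) := by
        rw [hG₂]
        refine (ex_mono ?_).trans (ex_e_le hd θ hS b c₂)
        have := hcon c₂ (by rw [hc₂]; linarith [hk.2]) (by rw [hc₂]; linarith [hk.1])
        linarith
      have h2 : ex (-(θ * Y F d g s x L' k)) * (ex (-1) * ex (-1)) ≤ ∫⁻ g', f (splice A g g') ∂(law F) := by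
        calc ex (-(θ * Y F d g s x L' k)) * (ex (-1) * ex (-1))
            ≤ ex (-(θ * Y F d g s x L' k)) * ((∫⁻ g', G₁ g' ∂(law F)) * ∫⁻ g', G₂ g' ∂(law F)) :=
              mul_le_mul' le_rfl (mul_le_mul' hJ₁ hJ₂)
          _ = ∫⁻ g', ex (-(θ * Y F d g s x L' k)) * (G₁ g' * G₂ g') ∂(law F) := by
              rw [← hind, lintegral_const_mul (f := fun g' => G₁ g' * G₂ g') _ (hG₁m.mul hG₂m)]
          _ ≤ ∫⁻ g', f (splice A g g') ∂(law F) := lintegral_mono hpt
      calc ex (-(θ * Y F d g s x L' k)) = ex 2 * (ex (-(θ * Y F d g s x L' k)) * (ex (-1) * ex (-1))) := by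
            simp only [← ex_add]
            congr 1
            ring
        _ ≤ ex 2 * ∫⁻ g', f (splice A g g') ∂(law F) := mul_le_mul' le_rfl h2
    calc ex (-2) * GG F d θ s x0 L' y w g ≤ ex (-2) * (ex 2 * ∫⁻ g', f (splice A g g') ∂(law F)) :=
          mul_le_mul' le_rfl h1
      _ = ∫⁻ g', f (splice A g g') ∂(law F) := by
          rw [← mul_assoc, ← ex_add]
          norm_num
          rw [ex_zero, one_mul]
  have h2 : ex (-2) * ∫⁻ η, GG F d θ s x0 L' y w η ∂(law F) ≤ ∫⁻ η, f η ∂(law F) := by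
    rw [← lint_splice7 F A hfm, ← lintegral_const_mul _ (GG_meas θ s x0 L' y w)]
    exact lintegral_mono key
  have h3 : ∫⁻ η, f η ∂(law F) = ∫⁻ η, ex (-(θ * X F d η 0 (S + L' + S) (y - x0 + 2 * y0 + w))) ∂(law F) := by
    rw [hf]
    exact lint_ex_shift F d θ _ a _
  rw [← h3]
  calc ∫⁻ η, GG F d θ s x0 L' y w η ∂(law F) = ex 2 * (ex (-2) * ∫⁻ η, GG F d θ s x0 L' y w η ∂(law F)) := by
        rw [← mul_assoc, ← ex_add]
        norm_num
        rw [ex_zero, one_mul]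
    _ ≤ ex 2 * ∫⁻ η, f η ∂(law F) := mul_le_mul' le_rfl h2

section

variable {sg th u ks De C1 : ℝ} {w S L' : ℕ} {y0 : ℤ}

/-- The distance of the end point from the edge. -/
theorem EdH.near (H : EdH F d sg th u ks De C1 w S L' y0) (z : ℤ) :
    |((z + 2 * y0 + w : ℤ) : ℝ) - u * ((S + L' + S : ℕ) : ℝ) - (z - u * L')| ≤ ks * w := by
  have h := H.shift
  have h2 : ((z + 2 * y0 + w : ℤ) : ℝ) - u * ((S + L' + S : ℕ) : ℝ) - (z - u * L') =
      2 * (y0 : ℝ) + w - 2 * u * S := by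
    push_cast
    ring
  rw [h2]
  exact h

/-- (A3), exact form. -/
theorem EdH.any (hd : Adm F κ d) (H : EdH F d sg th u ks De C1 w S L' y0) (s x0 y : ℤ) :
    ∫⁻ η, GG F d th s x0 L' y w η ∂(law F) ≤
      ex 2 * ENNReal.ofReal (C1 * Real.exp (-(th * e F d (S + L' + S) (y - x0 + 2 * y0 + w) / 2))) := by
  refine (cell0 hd H.th0 H.S1 H.L1 H.con s x0 y).trans (mul_le_mul' le_rfl ?_)
  have h1 : 1 ≤ S + L' + S := by have := H.S1; omega
  rw [lint_ex_X hd th h1 0 _]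
  exact ENNReal.ofReal_le_ofReal (H.tail _)

/-- (A3). -/
theorem EdH.any' (hd : Adm F κ d) (H : EdH F d sg th u ks De C1 w S L' y0) (hC1 : 0 ≤ C1) (s x0 y : ℤ)
    (he : 0 ≤ e F d (S + L' + S) (y - x0 + 2 * y0 + w)) :
    ∫⁻ η, GG F d th s x0 L' y w η ∂(law F) ≤ ex 2 * ENNReal.ofReal C1 := by
  refine (H.any hd s x0 y).trans (mul_le_mul' le_rfl (ENNReal.ofReal_le_ofReal ?_))
  have h1 : Real.exp (-(th * e F d (S + L' + S) (y - x0 + 2 * y0 + w) / 2)) ≤ 1 := by
    rw [Real.exp_le_one_iff]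
    have := mul_nonneg H.th0.le he
    linarith
  nlinarith

/-- (A2). -/
theorem EdH.far (hd : Adm F κ d) (H : EdH F d sg th u ks De C1 w S L' y0) (hC1 : 0 ≤ C1) (s x0 y : ℤ) {ρ : ℝ} (hρ : 1 ≤ ρ)
    (hz : ρ * w ≤ sg * (((y - x0 + 2 * y0 + w : ℤ) : ℝ) - u * ((S + L' + S : ℕ) : ℝ))) :
    ∫⁻ η, GG F d th s x0 L' y w η ∂(law F) ≤ ex 2 * ENNReal.ofReal (C1 * Real.exp (-(De * ρ / 2))) := by
  refine (H.any hd s x0 y).trans (mul_le_mul' le_rfl (ENNReal.ofReal_le_ofReal ?_))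
  refine mul_le_mul_of_nonneg_left (Real.exp_le_exp.2 ?_) hC1
  have := H.out _ ρ hρ hz
  linarith

end

end Pool.Agent.W_1b8d5d_p7
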