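import Pool.Agent.W_1b8d5d_p.EdTail33
import Pool.Agent.W_1b8d5d_p.EdB7

/-!
Track P (MP_1b8d5d_pr), section 4, proofs row 642: `ed_tail` in the form `TlU` which `edge_data` consumes. (helper33)
-/

namespace Pool.Agent.W_1b8d5d_h33p

open MeasureTheory Set
open Pool.Agent.W_1b8d5d_h85 (V nm dir Env Edge grid wedges cost Bd sh)
open Pool.Agent.W_1b8d5d_p Pool.Agent.W_1b8d5d_h4p Pool.Agent.W_1b8d5d_p7

noncomputable section

variable {F : Fm} {c0 C0 κ : ℝ} {d : Dr}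

/-- The tail of the costs in the form of `edge_data`, from the exponential moments (L0) of the luck of the starting point. -/
theorem tlU_of_L0 (hL : LawH F c0 C0) {A : Set Dr} (hadm : ∀ d ∈ A, Adm F κ d) {c C : ℝ} (hc : 0 < c) {n0 H : ℕ}
    (h0 : ∀ d ∈ A, ∀ n, n0 ≤ n → ∀ N, 1 ≤ N → N ≤ H * n →
      ∫ η, Real.exp (c / EE F d n * VV F d η 0 N) ∂(law F) ≤ C) :
    ∃ t0 K : ℝ, 0 < t0 ∧ 0 ≤ K ∧ TlU F A H t0 K n0 := by
  obtain ⟨t0, K, ht0, hK, h⟩ := ed_tail hL hadm hc h0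
  refine ⟨t0, K, ht0, by linarith, fun d hd n hn N hN hNH th hth hth' z => ?_⟩
  have hE := EE_pos F d n
  have h1 := h (th * EE F d n) (mul_pos hth hE) ((le_div_iff₀ hE).1 hth') d hd n hn N hN hNH z
  rwa [mul_div_cancel_right₀ _ hE.ne'] at h1

/-- The same from the exponential moments (L*) of one box luck `TL` around the starting point: `t` = tilt, `[o, o + W)` = box. -/
theorem tlU_of_lstar (hL : LawH F c0 C0) {A : Set Dr} (hadm : ∀ d ∈ A, Adm F κ d) {c C : ℝ} (hc : 0 < c) {n0 H : ℕ}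
    {t o W : Dr → ℕ → ℝ} {k Ca Cb : Dr → ℝ} (hsl : ∀ d ∈ A, Sl F d (k d) (Ca d) (Cb d))
    (ht0 : ∀ d ∈ A, ∀ n, n0 ≤ n → 0 ≤ t d n) (ht : ∀ d ∈ A, ∀ n, n0 ≤ n → t d n ≤ k d)
    (ho : ∀ d ∈ A, ∀ n, n0 ≤ n → o d n ≤ 0) (ho' : ∀ d ∈ A, ∀ n, n0 ≤ n → 0 < o d n + W d n)
    (hint : ∀ d ∈ A, ∀ n, n0 ≤ n → ∀ N, 1 ≤ N → N ≤ H * n →
      Integrable (fun η => Real.exp (c / EE F d n * TL F d (t d n) (o d n) (W d n) N η)) (law F))
    (h0 : ∀ d ∈ A, ∀ n, n0 ≤ n → ∀ N, 1 ≤ N → N ≤ H * n →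
      ∫ η, Real.exp (c / EE F d n * TL F d (t d n) (o d n) (W d n) N η) ∂(law F) ≤ C) :
    ∃ t0 K : ℝ, 0 < t0 ∧ 0 ≤ K ∧ TlU F A H t0 K n0 := by
  refine tlU_of_L0 hL hadm hc (C := C) fun d hd n hn N hN hNH => ?_
  refine le_trans (integral_mono (VV_exp_bm (hadm d hd) hN _) (hint d hd n hn N hN hNH) fun η => ?_) (h0 d hd n hn N hN hNH)
  refine Real.exp_le_exp.2 (mul_le_mul_of_nonneg_left ?_ (div_pos hc (EE_pos F d n)).le)
  exact VV_le_TL (hadm d hd) (hsl d hd) (ht0 d hd n hn) (ht d hd n hn) (ho d hd n hn) (ho' d hd n hn) hN η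

end

end Pool.Agent.W_1b8d5d_h33p
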