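import Pool.Agent.W_1b8d5d_p.EdA

/-!
Track P (MP_1b8d5d_pr), section 4, proofs row 642: THE WALL at one scale, unit free. The probability that some slab walk
crosses from the inner side of `r0` to a point beyond the edge, at a distance of `A'` cells, with a cost at most
`c A' / th`, is at most `C exp (- c A')` (all starts, all ends).
-/

namespace Pool.Agent.W_1b8d5d_p7

open MeasureTheory Set Pool.Agent.W_1b8d5d_h85 Pool.Agent.W_1b8d5d_p Pool.Agent.W_1b8d5d_p66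
open scoped ENNReal

variable {F : Fm} {d : Dr} {κ : ℝ}

theorem tsum_ex_nat {κ : ℝ} (hκ : 0 < κ) : ∑' n : ℕ, ex (-(κ * n)) ≤ ENNReal.ofReal (1 + 1 / κ) := by
  rw [ENNReal.tsum_eq_iSup_sum]
  refine iSup_le fun D => ?_
  unfold ex
  rw [← ENNReal.ofReal_sum_of_nonneg fun i _ => (Real.exp_pos _).le]
  exact ENNReal.ofReal_le_ofReal (geo_nat hκ D)

/-- The integer cells of the two sides. -/
private lemma wl_cells {sg : ℝ} (hsg : sg = 1 ∨ sg = -1) {w : ℕ} (hw : 1 ≤ w) (r0 x1 : ℝ) :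
    ∃ Xa Yb : ℕ → ℤ, (∀ a b : ℕ, x1 + ((a : ℝ) + b) * w ≤ sg * ((Yb b : ℝ) - Xa a)) ∧
      (∀ x : ℤ, sg * (x - r0) ≤ 0 → ∃ a : ℕ, Xa a ≤ x ∧ x ≤ Xa a + w) ∧
      (∀ x : ℤ, x1 ≤ sg * (x - r0) → ∃ b : ℕ, Yb b ≤ x ∧ x ≤ Yb b + w) := by
  have hw' : (1 : ℝ) ≤ w := by exact_mod_cast hw
  have hw0 : (0 : ℝ) < w := by linarith
  -- the index of a nonnegative real number
  have hidx : ∀ r : ℝ, 0 ≤ r → ∃ a : ℕ, (a : ℝ) * w ≤ r ∧ r < ((a : ℝ) + 1) * w := by
    intro r hr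
    refine ⟨⌊r / w⌋₊, ?_, ?_⟩
    · have := Nat.floor_le (div_nonneg hr hw0.le)
      rwa [le_div_iff₀ hw0] at this
    · have := Nat.lt_floor_add_one (r / w)
      rwa [div_lt_iff₀ hw0] at this
  rcases hsg with h | h
  · refine ⟨fun a => ⌈r0 - ((a : ℝ) + 1) * w⌉, fun b => ⌈r0 + x1 + (b : ℝ) * w⌉, ?_, ?_, ?_⟩
    · intro a b
      rw [h, one_mul]
      have h1 := Int.le_ceil (r0 + x1 + (b : ℝ) * w)
      have h2 := Int.ceil_lt_add_one (r0 - ((a : ℝ) + 1) * w)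
      nlinarith
    · intro x hx
      rw [h, one_mul] at hx
      obtain ⟨a, h1, h2⟩ := hidx (r0 - x) (by linarith)
      refine ⟨a, ?_, ?_⟩
      · exact Int.ceil_le.2 (by linarith)
      · have h3 := Int.le_ceil (r0 - ((a : ℝ) + 1) * w)
        have h4 : (x : ℝ) ≤ ((⌈r0 - ((a : ℝ) + 1) * w⌉ + (w : ℤ) : ℤ) : ℝ) := by
          push_cast
          nlinarith
        exact_mod_cast h4
    · intro x hx
      rw [h, one_mul] at hx
      obtain ⟨b, h1, h2⟩ := hidx (x - r0 - x1) (by linarith)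
      refine ⟨b, ?_, ?_⟩
      · exact Int.ceil_le.2 (by linarith)
      · have h3 := Int.le_ceil (r0 + x1 + (b : ℝ) * w)
        have h4 : (x : ℝ) ≤ ((⌈r0 + x1 + (b : ℝ) * w⌉ + (w : ℤ) : ℤ) : ℝ) := by
          push_cast
          nlinarith
        exact_mod_cast h4
  · refine ⟨fun a => ⌈r0 + (a : ℝ) * w⌉, fun b => ⌈r0 - x1 - ((b : ℝ) + 1) * w⌉, ?_, ?_, ?_⟩
    · intro a b
      rw [h]
      have h1 := Int.le_ceil (r0 + (a : ℝ) * w)
      have h2 := Int.ceil_lt_add_one (r0 - x1 - ((b : ℝ) + 1) * w)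
      nlinarith
    · intro x hx
      rw [h] at hx
      obtain ⟨a, h1, h2⟩ := hidx (x - r0) (by linarith)
      refine ⟨a, ?_, ?_⟩
      · exact Int.ceil_le.2 (by linarith)
      · have h3 := Int.le_ceil (r0 + (a : ℝ) * w)
        have h4 : (x : ℝ) ≤ ((⌈r0 + (a : ℝ) * w⌉ + (w : ℤ) : ℤ) : ℝ) := by
          push_cast
          nlinarith
        exact_mod_cast h4
    · intro x hx
      rw [h] at hx
      obtain ⟨b, h1, h2⟩ := hidx (r0 - x - x1) (by linarith)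
      refine ⟨b, ?_, ?_⟩
      · exact Int.ceil_le.2 (by linarith)
      · have h3 := Int.le_ceil (r0 - x1 - ((b : ℝ) + 1) * w)
        have h4 : (x : ℝ) ≤ ((⌈r0 - x1 - ((b : ℝ) + 1) * w⌉ + (w : ℤ) : ℤ) : ℝ) := by
          push_cast
          nlinarith
        exact_mod_cast h4

/-- (WALL), unit free. -/
theorem wall0 {C1 De ks : ℝ} (hC1 : 0 ≤ C1) (hDe : 0 < De) (hks : 0 ≤ ks) : ∃ C c : ℝ, 0 ≤ C ∧ 0 < c ∧
    ∀ (F : Fm) (κ : ℝ) (d : Dr) (sg th u : ℝ) (w S L' : ℕ) (y0 : ℤ), Adm F κ d →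
      EdH F d sg th u ks De C1 w S L' y0 → ∀ (A' x1 r0 : ℝ) (t : ℤ), sg * (u * L') + A' * w ≤ x1 →
      (law F).real {η | ∃ x x' : ℤ, sg * (x - r0) ≤ 0 ∧ x1 ≤ sg * (x' - r0) ∧
        X F d η (t, x) L' (x' - x) ≤ c * A' / th} ≤ C * Real.exp (-(c * A')) := by
  obtain ⟨c, hc⟩ : ∃ c : ℝ, c = De / 4 := ⟨_, rfl⟩
  have hc0 : 0 < c := by rw [hc]; positivity
  obtain ⟨G, hG⟩ : ∃ G : ℝ, G = 1 + 1 / (2 * c) := ⟨_, rfl⟩
  have hG0 : 0 < G := by rw [hG]; positivity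
  obtain ⟨D, hD⟩ : ∃ D : ℝ, D = C1 * Real.exp (2 + 2 * c * ks) * (G * G) := ⟨_, rfl⟩
  have hD0 : 0 ≤ D := by rw [hD]; positivity
  refine ⟨Real.exp (c * (1 + ks)) + D, c, by positivity, hc0, ?_⟩
  intro F κ d sg th u w S L' y0 hd H A' x1 r0 t hx1
  have hth := H.th0
  have hw' : (1 : ℝ) ≤ w := by exact_mod_cast H.w1
  have hw0 : (0 : ℝ) < w := by linarith
  rcases lt_or_ge A' (1 + ks) with hA | hA
  · -- trivial bound
    have h1 : (1 : ℝ) ≤ Real.exp (c * (1 + ks)) * Real.exp (-(c * A')) := by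
      rw [← Real.exp_add]
      refine Real.one_le_exp ?_
      have := mul_le_mul_of_nonneg_left hA.le hc0.le
      linarith
    have h2 : 0 ≤ D * Real.exp (-(c * A')) := by positivity
    refine measureReal_le_one.trans ?_
    rw [add_mul]
    linarith
  · obtain ⟨Xa, Yb, hXY, hXa, hYb⟩ := wl_cells H.sg1 H.w1 r0 x1
    obtain ⟨E, hE⟩ : ∃ E : ℕ × ℕ → Set Env, E = fun p => {η | ex (-(c * A')) ≤ GG F d th t (Xa p.1) L' (Yb p.2) w η} :=
      ⟨_, rfl⟩
    have hsub : {η : Env | ∃ x x' : ℤ, sg * (x - r0) ≤ 0 ∧ x1 ≤ sg * (x' - r0) ∧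
        X F d η (t, x) L' (x' - x) ≤ c * A' / th} ⊆ ⋃ p : ℕ × ℕ, E p := by
      rintro η ⟨x, x', h1, h2, h3⟩
      obtain ⟨a, ha1, ha2⟩ := hXa x h1
      obtain ⟨b, hb1, hb2⟩ := hYb x' h2
      refine Set.mem_iUnion.2 ⟨(a, b), ?_⟩
      rw [hE]
      show ex (-(c * A')) ≤ GG F d th t (Xa a) L' (Yb b) w η
      refine le_trans (ex_mono ?_) (le_GG th L' ⟨ha1, ha2⟩ ⟨hb1, hb2⟩ η)
      have h4 : th * (X F d η (t, x) L' (x' - x)) ≤ c * A' := by
        have := mul_le_mul_of_nonneg_left h3 hth.le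
        have h5 : th * (c * A' / th) = c * A' := by field_simp
        linarith
      have h6 : Y F d η t x L' x' = X F d η (t, x) L' (x' - x) := rfl
      rw [h6]
      linarith
    have hP : ∀ p : ℕ × ℕ, (law F) (E p) ≤ ENNReal.ofReal (C1 * Real.exp (2 + 2 * c * ks) * Real.exp (-(c * A'))) *
        (ex (-(2 * c * (p.1 : ℝ))) * ex (-(2 * c * (p.2 : ℝ)))) := by
      rintro ⟨a, b⟩
      simp only
      have hnear := abs_le.1 (H.near (Yb b - Xa a))
      obtain ⟨ρ, hρ⟩ : ∃ ρ : ℝ, ρ = A' - ks + a + b := ⟨_, rfl⟩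
      have ha0 : (0 : ℝ) ≤ a := Nat.cast_nonneg a
      have hb0 : (0 : ℝ) ≤ b := Nat.cast_nonneg b
      have hz : ρ * w ≤ sg * (((Yb b - Xa a + 2 * y0 + w : ℤ) : ℝ) - u * ((S + L' + S : ℕ) : ℝ)) := by
        have h1 := hXY a b
        have h3 : ((Yb b - Xa a : ℤ) : ℝ) = (Yb b : ℝ) - Xa a := by push_cast; ring
        rw [h3] at hnear
        obtain ⟨q, hq⟩ : ∃ q : ℝ, q = ((Yb b - Xa a + 2 * y0 + w : ℤ) : ℝ) - u * ((S + L' + S : ℕ) : ℝ) := ⟨_, rfl⟩
        rw [← hq] at hnear ⊢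
        rcases H.sg1 with h | h
        · rw [h] at h1 hx1 ⊢
          rw [hρ]
          nlinarith
        · rw [h] at h1 hx1 ⊢
          rw [hρ]
          nlinarith
      have hint := H.far hd hC1 t (Xa a) (Yb b) (ρ := ρ) (by rw [hρ]; linarith) hz
      have h1 : (law F) (E (a, b)) ≤ (∫⁻ η, GG F d th t (Xa a) L' (Yb b) w η ∂(law F)) / ex (-(c * A')) := by
        rw [hE]
        exact meas_ge_le_lintegral_div (GG_meas th t (Xa a) L' (Yb b) w).aemeasurable (ex_ne_zero _) (ex_ne_top _)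
      have h2 : (∫⁻ η, GG F d th t (Xa a) L' (Yb b) w η ∂(law F)) / ex (-(c * A')) =
          ex (c * A') * ∫⁻ η, GG F d th t (Xa a) L' (Yb b) w η ∂(law F) := by
        have h3 : (ex (-(c * A')))⁻¹ = ex (c * A') := by
          unfold ex
          rw [Real.exp_neg, ENNReal.ofReal_inv_of_pos (Real.exp_pos _), inv_inv]
        rw [div_eq_mul_inv, h3, mul_comm]
      rw [h2] at h1
      refine h1.trans ((mul_le_mul' le_rfl hint).trans (le_of_eq ?_))
      unfold ex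
      rw [← ENNReal.ofReal_mul (Real.exp_pos _).le, ← ENNReal.ofReal_mul (Real.exp_pos _).le,
        ← ENNReal.ofReal_mul (Real.exp_pos _).le, ← ENNReal.ofReal_mul (by positivity)]
      congr 1
      have h4 : Real.exp (c * A') * (Real.exp 2 * (C1 * Real.exp (-(De * ρ / 2)))) =
          C1 * (Real.exp (c * A') * (Real.exp 2 * Real.exp (-(De * ρ / 2)))) := by ring
      have h5 : C1 * Real.exp (2 + 2 * c * ks) * Real.exp (-(c * A')) *
          (Real.exp (-(2 * c * (a : ℝ))) * Real.exp (-(2 * c * (b : ℝ)))) =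
          C1 * (Real.exp (2 + 2 * c * ks) * (Real.exp (-(c * A')) *
          (Real.exp (-(2 * c * (a : ℝ))) * Real.exp (-(2 * c * (b : ℝ)))))) := by ring
      rw [h4, h5, ← Real.exp_add, ← Real.exp_add, ← Real.exp_add, ← Real.exp_add, ← Real.exp_add]
      congr 2
      have h6 : De = 4 * c := by rw [hc]; ring
      rw [hρ, h6]
      ring
    have hsum : (law F) {η : Env | ∃ x x' : ℤ, sg * (x - r0) ≤ 0 ∧ x1 ≤ sg * (x' - r0) ∧
        X F d η (t, x) L' (x' - x) ≤ c * A' / th} ≤ ENNReal.ofReal (D * Real.exp (-(c * A'))) := by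
      refine (measure_mono hsub).trans ((measure_iUnion_le _).trans ((ENNReal.tsum_le_tsum hP).trans ?_))
      rw [ENNReal.tsum_mul_left, ENNReal.tsum_prod' (f := fun p : ℕ × ℕ =>
        ex (-(2 * c * (p.1 : ℝ))) * ex (-(2 * c * (p.2 : ℝ))))]
      simp only [ENNReal.tsum_mul_left]
      rw [ENNReal.tsum_mul_right]
      have h1 : ∑' n : ℕ, ex (-(2 * c * (n : ℝ))) ≤ ENNReal.ofReal G := by
        rw [hG]
        exact tsum_ex_nat (by positivity)
      refine (mul_le_mul' le_rfl (mul_le_mul' h1 h1)).trans (le_of_eq ?_)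
      rw [← ENNReal.ofReal_mul hG0.le, ← ENNReal.ofReal_mul (by positivity)]
      congr 1
      rw [hD]
      ring
    have h1 : (law F).real {η : Env | ∃ x x' : ℤ, sg * (x - r0) ≤ 0 ∧ x1 ≤ sg * (x' - r0) ∧
        X F d η (t, x) L' (x' - x) ≤ c * A' / th} ≤ D * Real.exp (-(c * A')) :=
      ENNReal.toReal_le_of_le_ofReal (by positivity) hsum
    have h2 : 0 ≤ Real.exp (c * (1 + ks)) * Real.exp (-(c * A')) := by positivity
    rw [add_mul]
    linarith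

end Pool.Agent.W_1b8d5d_p7
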