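import Mathlib

/-!
TRACK P, (EL) at zero temperature (proofs row 632): the pure parts (restart, step, recursion). helper67.
-/

set_option autoImplicit false

namespace Pool.Agent.W_1b8d5d_p.El0

open MeasureTheory

/-! ### The recursion of the means -/

/-- The recursion of section 3: weights `c l`, decay `lam` per cell. -/
theorem rec0 {c : ℤ → ℝ} {κ lam X0 M : ℝ} {g : ℤ → ℝ} {dst : ℤ → ℕ} {S : ℤ} (hc : ∀ l, 0 ≤ c l)
    (hκ : 0 ≤ κ) (hl0 : 0 < lam) (hl1 : lam ≤ 1) (hX : 0 ≤ X0)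
    (hs : ∀ L : Finset ℤ, κ * ∑ l ∈ L, c l * (lam⁻¹) ^ l.natAbs ≤ 1 / 2)
    (hM : ∀ x, g x ≤ M) (hd : ∀ x l : ℤ, dst x ≤ dst (x + l * S) + l.natAbs)
    (h : ∀ x, ∀ ε : ℝ, 0 < ε → ∃ L : Finset ℤ, g x ≤ (if dst x = 0 then X0 else 0) + κ * ∑ l ∈ L, c l * g (x + l * S) + ε) :
    ∀ x, g x ≤ 2 * X0 * lam ^ dst x := by
  have hli : 1 ≤ lam⁻¹ := (one_le_inv₀ hl0).2 hl1
  have hsum1 : ∀ L : Finset ℤ, κ * ∑ l ∈ L, c l ≤ 1 / 2 := by
    intro L
    refine le_trans (mul_le_mul_of_nonneg_left (Finset.sum_le_sum fun l hl => ?_) hκ) (hs L)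
    have : 1 ≤ (lam⁻¹) ^ l.natAbs := one_le_pow₀ hli
    nlinarith [hc l]
  have key : ∀ j : ℕ, ∀ x, g x ≤ 2 * X0 * lam ^ dst x + |M| * (1 / 2) ^ j := by
    intro j
    induction j with
    | zero =>
      intro x
      have h1 : 0 ≤ 2 * X0 * lam ^ dst x := by positivity
      have h2 := hM x
      have h3 := le_abs_self M
      rw [pow_zero, mul_one]
      linarith
    | succ j ih =>
      intro x
      refine le_of_forall_pos_le_add fun ε hε => ?_
      obtain ⟨L, hL⟩ := h x ε hε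
      have h1 : κ * ∑ l ∈ L, c l * g (x + l * S) ≤
          κ * ∑ l ∈ L, (c l * (lam⁻¹) ^ l.natAbs * (2 * X0 * lam ^ dst x) + c l * (|M| * (1 / 2) ^ j)) := by
        refine mul_le_mul_of_nonneg_left (Finset.sum_le_sum fun l hl => ?_) hκ
        have h2 := mul_le_mul_of_nonneg_left (ih (x + l * S)) (hc l)
        have h3 : lam ^ dst (x + l * S) ≤ (lam⁻¹) ^ l.natAbs * lam ^ dst x := by
          have h4 : lam ^ (dst (x + l * S) + l.natAbs) ≤ lam ^ dst x :=
            pow_le_pow_of_le_one hl0.le hl1 (hd x l)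
          rw [pow_add] at h4
          rw [inv_pow, inv_mul_eq_div, le_div_iff₀ (by positivity)]
          exact h4
        have h5 : c l * (2 * X0 * lam ^ dst (x + l * S)) ≤ c l * (lam⁻¹) ^ l.natAbs * (2 * X0 * lam ^ dst x) := by
          have := mul_le_mul_of_nonneg_left h3 (mul_nonneg (hc l) (by linarith : 0 ≤ 2 * X0))
          linarith
        linarith
      have h6 : κ * ∑ l ∈ L, (c l * (lam⁻¹) ^ l.natAbs * (2 * X0 * lam ^ dst x) + c l * (|M| * (1 / 2) ^ j)) =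
          (κ * ∑ l ∈ L, c l * (lam⁻¹) ^ l.natAbs) * (2 * X0 * lam ^ dst x) + (κ * ∑ l ∈ L, c l) * (|M| * (1 / 2) ^ j) := by
        rw [Finset.sum_add_distrib, ← Finset.sum_mul, ← Finset.sum_mul]
        ring
      have h7 : 0 ≤ 2 * X0 * lam ^ dst x := by positivity
      have h8 : 0 ≤ |M| * (1 / 2 : ℝ) ^ j := by positivity
      have h9 := mul_le_mul_of_nonneg_right (hs L) h7
      have h10 := mul_le_mul_of_nonneg_right (hsum1 L) h8
      have h11 : (if dst x = 0 then X0 else 0) ≤ 1 / 2 * (2 * X0 * lam ^ dst x) := by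
        split_ifs with h12
        · rw [h12, pow_zero]
          linarith
        · positivity
      rw [pow_succ]
      linarith
  intro x
  have h1 : Filter.Tendsto (fun j : ℕ => 2 * X0 * lam ^ dst x + |M| * (1 / 2 : ℝ) ^ j) Filter.atTop
      (nhds (2 * X0 * lam ^ dst x + |M| * 0)) :=
    ((tendsto_pow_atTop_nhds_zero_of_lt_one (by norm_num) (by norm_num)).const_mul _).const_add _
  rw [mul_zero, add_zero] at h1
  exact ge_of_tendsto' h1 fun j => key j x

/-! ### The first level with a property -/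

variable {Ω : Type*}

/-- `m` is the first level at which `H` happens. -/
def Fr (H : ℕ → Ω → Prop) (m : ℕ) (ω : Ω) : Prop := H m ω ∧ ∀ l < m, ¬ H l ω

theorem exists_Fr {H : ℕ → Ω → Prop} {ω : Ω} {N : ℕ} (h : ∃ m ≤ N, H m ω) : ∃ m ≤ N, Fr H m ω := by
  classical
  have h1 : ∃ m, H m ω := ⟨h.choose, h.choose_spec.2⟩
  refine ⟨Nat.find h1, ?_, Nat.find_spec h1, fun l hl => Nat.find_min h1 hl⟩
  obtain ⟨m, hm, hmH⟩ := h
  exact (Nat.find_min' h1 hmH).trans hm

theorem Fr_unique {H : ℕ → Ω → Prop} {ω : Ω} {m m' : ℕ} (h : Fr H m ω) (h' : Fr H m' ω) : m = m' := by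
  rcases lt_trichotomy m m' with h1 | h1 | h1
  · exact absurd h.1 (h'.2 m h1)
  · exact h1
  · exact absurd h'.1 (h.2 m' h1)

variable [MeasurableSpace Ω]

theorem meas_Fr {H : ℕ → Ω → Prop} (hH : ∀ m, MeasurableSet {ω | H m ω}) (m : ℕ) : MeasurableSet {ω | Fr H m ω} := by
  have e : {ω | Fr H m ω} = {ω | H m ω} ∩ ⋂ l ∈ Finset.range m, {ω | H l ω}ᶜ := by
    ext ω
    simp [Fr]
  rw [e]
  exact (hH m).inter (Finset.measurableSet_biInter _ fun l _ => (hH l).compl)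

theorem meas_ex {H : ℕ → Ω → Prop} (hH : ∀ m, MeasurableSet {ω | H m ω}) (N : ℕ) :
    MeasurableSet {ω | ∃ m ≤ N, H m ω} := by
  have e : {ω | ∃ m ≤ N, H m ω} = ⋃ m ∈ Finset.range (N + 1), {ω | H m ω} := by
    ext ω
    simp [Nat.lt_succ_iff]
  rw [e]
  exact Finset.measurableSet_biUnion _ fun m _ => hH m

/-- The indicators of the first level. -/
theorem sum_ind_Fr (H : ℕ → Ω → Prop) (N : ℕ) (ω : Ω) :
    ∑ m ∈ Finset.range (N + 1), Set.indicator {ω | Fr H m ω} (fun _ => (1 : ℝ)) ω =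
      Set.indicator {ω | ∃ m ≤ N, H m ω} (fun _ => (1 : ℝ)) ω := by
  classical
  by_cases h : ∃ m ≤ N, H m ω
  · obtain ⟨m, hm, hF⟩ := exists_Fr h
    rw [Set.indicator_of_mem (show ω ∈ {ω | ∃ m ≤ N, H m ω} from h),
      Finset.sum_eq_single_of_mem m (Finset.mem_range.2 (by omega)),
      Set.indicator_of_mem (show ω ∈ {ω | Fr H m ω} from hF)]
    intro l _ hl
    exact Set.indicator_of_notMem (show ω ∉ {ω | Fr H l ω} from fun h1 => hl (Fr_unique h1 hF)) _
  · rw [Set.indicator_of_notMem (show ω ∉ {ω | ∃ m ≤ N, H m ω} from h)]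
    refine Finset.sum_eq_zero fun m hm =>
      Set.indicator_of_notMem (show ω ∉ {ω | Fr H m ω} from fun h1 => h ⟨m, ?_, h1.1⟩) _
    have := Finset.mem_range.1 hm
    omega

variable {P : Measure Ω} [IsProbabilityMeasure P]

/-- Stop at the first level: `U` depends on the past of the level, `G` on its future; the independence is the hypothesis
`hind`. -/
theorem stop {H : ℕ → Ω → Prop} {N : ℕ} {U G : ℕ → Ω → ℝ} {Um : Ω → ℝ} {g : ℝ} (hH : ∀ m, MeasurableSet {ω | H m ω})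
    (hU0 : ∀ m ω, 0 ≤ U m ω) (hUm : Integrable Um P) (hUi : ∀ m, Integrable (U m) P) (hG0 : ∀ m ω, 0 ≤ G m ω)
    (hi : ∀ m, Integrable (fun ω => Set.indicator {ω | Fr H m ω} (fun _ => (1 : ℝ)) ω * U m ω * G m ω) P)
    (hUle : ∀ m ≤ N, ∀ ω, U m ω ≤ Um ω) (hg : ∀ m ≤ N, ∫ ω, G m ω ∂P ≤ g) (hg0 : 0 ≤ g)
    (hind : ∀ m ≤ N, ∫ ω, Set.indicator {ω | Fr H m ω} (fun _ => (1 : ℝ)) ω * U m ω * G m ω ∂P ≤
      (∫ ω, Set.indicator {ω | Fr H m ω} (fun _ => (1 : ℝ)) ω * U m ω ∂P) * ∫ ω, G m ω ∂P) :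
    ∫ ω, ∑ m ∈ Finset.range (N + 1), Set.indicator {ω | Fr H m ω} (fun _ => (1 : ℝ)) ω * U m ω * G m ω ∂P ≤
      g * ∫ ω, Set.indicator {ω | ∃ m ≤ N, H m ω} (fun _ => (1 : ℝ)) ω * Um ω ∂P := by
  classical
  have hUm0 : ∀ ω, 0 ≤ Um ω := fun ω => (hU0 0 ω).trans (hUle 0 (Nat.zero_le _) ω)
  have hind1 : ∀ (E : Set Ω) (ω : Ω), 0 ≤ Set.indicator E (fun _ => (1 : ℝ)) ω ∧
      Set.indicator E (fun _ => (1 : ℝ)) ω ≤ 1 := by
    intro E ω
    by_cases h : ω ∈ E
    · rw [Set.indicator_of_mem h]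
      exact ⟨zero_le_one, le_rfl⟩
    · rw [Set.indicator_of_notMem h]
      exact ⟨le_rfl, zero_le_one⟩
  have hint : ∀ (E : Set Ω), MeasurableSet E → ∀ f : Ω → ℝ, Integrable f P → (∀ ω, 0 ≤ f ω) →
      Integrable (fun ω => Set.indicator E (fun _ => (1 : ℝ)) ω * f ω) P := by
    intro E hE f hf hf0
    refine hf.mono' ((measurable_const.indicator hE).aestronglyMeasurable.mul hf.aestronglyMeasurable)
      (Filter.Eventually.of_forall fun ω => ?_)
    rw [Real.norm_eq_abs, abs_of_nonneg (mul_nonneg (hind1 E ω).1 (hf0 ω))]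
    exact mul_le_of_le_one_left (hf0 ω) (hind1 E ω).2
  have h1 : ∀ m ∈ Finset.range (N + 1),
      ∫ ω, Set.indicator {ω | Fr H m ω} (fun _ => (1 : ℝ)) ω * U m ω * G m ω ∂P ≤
      g * ∫ ω, Set.indicator {ω | Fr H m ω} (fun _ => (1 : ℝ)) ω * Um ω ∂P := by
    intro m hm
    have hmN : m ≤ N := by
      have := Finset.mem_range.1 hm
      omega
    refine (hind m hmN).trans ?_
    rw [mul_comm]
    refine mul_le_mul (hg m hmN) ?_ (integral_nonneg fun ω => mul_nonneg (hind1 _ ω).1 (hU0 m ω)) hg0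
    exact integral_mono (hint _ (meas_Fr hH m) _ (hUi m) (hU0 m)) (hint _ (meas_Fr hH m) _ hUm hUm0)
      fun ω => mul_le_mul_of_nonneg_left (hUle m hmN ω) (hind1 _ ω).1
  rw [integral_finset_sum _ fun m _ => hi m]
  refine (Finset.sum_le_sum h1).trans ?_
  rw [← Finset.mul_sum, ← integral_finset_sum _ fun m _ => hint _ (meas_Fr hH m) _ hUm hUm0]
  refine mul_le_mul_of_nonneg_left (le_of_eq ?_) hg0
  refine integral_congr_ae (Filter.Eventually.of_forall fun ω => ?_)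
  simp only
  rw [← Finset.sum_mul, sum_ind_Fr]

/-- RESTART (1.2): `M m` = luck behind the level `m`. -/
theorem restart {H : ℕ → Ω → Prop} {N : ℕ} {M : ℕ → Ω → ℝ} {B a q p K : ℝ} (hH : ∀ m, MeasurableSet {ω | H m ω})
    (hMm : ∀ m, Measurable (M m)) (hK : ∀ m ω, |M m ω| ≤ K) (hmono : ∀ m ω, M m ω ≤ M 0 ω) (hq : 0 ≤ q)
    (hfree : ∀ ω, (∀ m ≤ N, ¬ H m ω) → M 0 ω ≤ B) (hrest : ∀ ω, ∀ m ≤ N, Fr H m ω → M 0 ω ≤ B + a + M m ω)
    (hind : ∀ m ≤ N, ∫ ω, Set.indicator {ω | Fr H m ω} (fun _ => (1 : ℝ)) ω * 1 * Real.exp (q * M m ω) ∂P ≤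
      (∫ ω, Set.indicator {ω | Fr H m ω} (fun _ => (1 : ℝ)) ω * 1 ∂P) * ∫ ω, Real.exp (q * M m ω) ∂P)
    (hp : P.real {ω | ∃ m ≤ N, H m ω} ≤ p) (hpq : Real.exp (q * (B + a)) * p ≤ 1 / 2) :
    ∫ ω, Real.exp (q * M 0 ω) ∂P ≤ 2 * Real.exp (q * B) := by
  classical
  have hexp : ∀ m, Integrable (fun ω => Real.exp (q * M m ω)) P := by
    intro m
    refine (integrable_const (Real.exp (q * K))).mono' (by
      exact ((hMm m).const_mul q).exp.aestronglyMeasurable) (Filter.Eventually.of_forall fun ω => ?_)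
    rw [Real.norm_eq_abs, abs_of_pos (Real.exp_pos _)]
    exact Real.exp_le_exp.2 (mul_le_mul_of_nonneg_left ((le_abs_self _).trans (hK m ω)) hq)
  have hind1 : ∀ (E : Set Ω) (ω : Ω), 0 ≤ Set.indicator E (fun _ => (1 : ℝ)) ω ∧
      Set.indicator E (fun _ => (1 : ℝ)) ω ≤ 1 := by
    intro E ω
    by_cases h : ω ∈ E
    · rw [Set.indicator_of_mem h]
      exact ⟨zero_le_one, le_rfl⟩
    · rw [Set.indicator_of_notMem h]
      exact ⟨le_rfl, zero_le_one⟩
  have hi : ∀ m, Integrable (fun ω => Set.indicator {ω | Fr H m ω} (fun _ => (1 : ℝ)) ω * 1 * Real.exp (q * M m ω)) P := by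
    intro m
    refine (hexp m).mono' (((measurable_const.indicator (meas_Fr hH m)).mul_const 1).mul
      ((hMm m).const_mul q).exp).aestronglyMeasurable (Filter.Eventually.of_forall fun ω => ?_)
    rw [Real.norm_eq_abs, mul_one, abs_of_nonneg (mul_nonneg (hind1 _ ω).1 (Real.exp_pos _).le)]
    exact mul_le_of_le_one_left (Real.exp_pos _).le (hind1 _ ω).2
  have h1 := stop (P := P) (N := N) (U := fun _ _ => (1 : ℝ)) (G := fun m ω => Real.exp (q * M m ω)) (Um := fun _ => 1)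
    (g := ∫ ω, Real.exp (q * M 0 ω) ∂P) hH (fun _ _ => zero_le_one) (integrable_const _) (fun _ => integrable_const _)
    (fun _ _ => (Real.exp_pos _).le) hi (fun _ _ _ => le_rfl) (fun m _ => integral_mono (hexp m) (hexp 0) fun ω =>
      Real.exp_le_exp.2 (mul_le_mul_of_nonneg_left (hmono m ω) hq)) (integral_nonneg fun ω => (Real.exp_pos _).le) hind
  have h2 : ∫ ω, Set.indicator {ω | ∃ m ≤ N, H m ω} (fun _ => (1 : ℝ)) ω * 1 ∂P = P.real {ω | ∃ m ≤ N, H m ω} := by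
    simp only [mul_one]
    exact integral_indicator_one (meas_ex hH N)
  rw [h2] at h1
  have h3 : ∀ ω, Real.exp (q * M 0 ω) ≤ Real.exp (q * B) + Real.exp (q * (B + a)) *
      ∑ m ∈ Finset.range (N + 1), Set.indicator {ω | Fr H m ω} (fun _ => (1 : ℝ)) ω * 1 * Real.exp (q * M m ω) := by
    intro ω
    have h0 : ∀ m ∈ Finset.range (N + 1),
        0 ≤ Set.indicator {ω | Fr H m ω} (fun _ => (1 : ℝ)) ω * 1 * Real.exp (q * M m ω) := fun m _ => by
      rw [mul_one]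
      exact mul_nonneg (hind1 _ ω).1 (Real.exp_pos _).le
    by_cases h : ∃ m ≤ N, H m ω
    · obtain ⟨m, hm, hF⟩ := exists_Fr h
      have h4 := Finset.single_le_sum h0 (Finset.mem_range.2 (Nat.lt_succ_of_le hm))
      rw [Set.indicator_of_mem (show ω ∈ {ω | Fr H m ω} from hF), one_mul, one_mul] at h4
      have h5 : Real.exp (q * M 0 ω) ≤ Real.exp (q * (B + a)) * Real.exp (q * M m ω) := by
        rw [← Real.exp_add, ← mul_add]
        exact Real.exp_le_exp.2 (mul_le_mul_of_nonneg_left (hrest ω m hm hF) hq)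
      have h6 := mul_le_mul_of_nonneg_left h4 (Real.exp_pos (q * (B + a))).le
      have h7 := Real.exp_pos (q * B)
      linarith
    · push_neg at h
      have h5 : Real.exp (q * M 0 ω) ≤ Real.exp (q * B) :=
        Real.exp_le_exp.2 (mul_le_mul_of_nonneg_left (hfree ω h) hq)
      have h6 := mul_nonneg (Real.exp_pos (q * (B + a))).le (Finset.sum_nonneg h0)
      linarith
  have h4 := integral_mono (hexp 0) ((integrable_const (Real.exp (q * B))).add
    ((integrable_finset_sum _ fun m _ => hi m).const_mul (Real.exp (q * (B + a))))) h3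
  simp only [Pi.add_apply] at h4
  rw [integral_add (integrable_const _) ((integrable_finset_sum _ fun m _ => hi m).const_mul _), integral_const,
    probReal_univ, one_smul, integral_const_mul] at h4
  obtain ⟨g, hg⟩ : ∃ g, g = ∫ ω, Real.exp (q * M 0 ω) ∂P := ⟨_, rfl⟩
  rw [← hg] at h1 h4 ⊢
  have hg0 : 0 ≤ g := by
    rw [hg]
    exact integral_nonneg fun ω => (Real.exp_pos _).le
  have h5 := mul_le_mul_of_nonneg_left h1 (Real.exp_pos (q * (B + a))).le
  have h6 : Real.exp (q * (B + a)) * (g * P.real {ω | ∃ m ≤ N, H m ω}) ≤ g * (1 / 2) := by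
    have h7 : Real.exp (q * (B + a)) * P.real {ω | ∃ m ≤ N, H m ω} ≤ 1 / 2 :=
      (mul_le_mul_of_nonneg_left hp (Real.exp_pos _).le).trans hpq
    nlinarith
  linarith

end Pool.Agent.W_1b8d5d_p.El0
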