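import Pool.Agent.W_1b8d5d_p.El0A

/-!
TRACK P, (EL) at zero temperature (proofs row 632): the abstract theorem. The weights are `exp (luck)`. helper67.
-/

set_option autoImplicit false

namespace Pool.Agent.W_1b8d5d_p.El0

open MeasureTheory

/-! ### Numbers -/

theorem geo_tail {r : ℝ} (h0 : 0 ≤ r) (h1 : r ≤ 1 / 2) (n : ℕ) : ∑ j ∈ Finset.range n, r ^ (j + 1) ≤ 1 := by
  have h2 : ∑ j ∈ Finset.range n, r ^ (j + 1) ≤ ∑ j ∈ Finset.range n, (1 / 2 : ℝ) ^ (j + 1) :=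
    Finset.sum_le_sum fun j _ => pow_le_pow_left₀ h0 h1 _
  refine h2.trans ?_
  have h3 : ∀ n : ℕ, ∑ j ∈ Finset.range n, (1 / 2 : ℝ) ^ (j + 1) = 1 - (1 / 2) ^ n := by
    intro n
    induction n with
    | zero => simp
    | succ n ih =>
      rw [Finset.sum_range_succ, ih, pow_succ]
      ring
  rw [h3]
  have : (0 : ℝ) ≤ (1 / 2) ^ n := by positivity
  linarith

/-- The weights `rho ^ (|l| - 2)` against the decay `lam`. -/
theorem sum_far {rho lam : ℝ} (h0 : 0 ≤ rho) (hl0 : 0 < lam) (hl1 : lam ≤ 1) (h : rho ≤ lam / 2) (L : Finset ℤ) :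
    ∑ l ∈ L, rho ^ (l.natAbs - 2) * (lam⁻¹) ^ l.natAbs ≤ 7 * (lam⁻¹) ^ 2 := by
  classical
  have hli : 1 ≤ lam⁻¹ := (one_le_inv₀ hl0).2 hl1
  have hr : rho * lam⁻¹ ≤ 1 / 2 := by
    rw [← div_eq_mul_inv, div_le_iff₀ hl0]
    linarith
  have hr0 : 0 ≤ rho * lam⁻¹ := by positivity
  -- embed `L` into an interval
  obtain ⟨n, hn⟩ : ∃ n : ℕ, L ⊆ Finset.Icc (-(n : ℤ)) n := by
    refine ⟨L.sup fun l => l.natAbs, fun l hl => ?_⟩
    have h1 : l.natAbs ≤ L.sup fun l => l.natAbs := Finset.le_sup (f := fun l : ℤ => l.natAbs) hl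
    rw [Finset.mem_Icc]
    omega
  obtain ⟨F, hF⟩ : ∃ F : ℕ → ℝ, F = fun j => rho ^ (j - 2) * (lam⁻¹) ^ j := ⟨_, rfl⟩
  have hF0 : ∀ j, 0 ≤ F j := fun j => by rw [hF]; positivity
  have h1 : ∑ l ∈ L, rho ^ (l.natAbs - 2) * (lam⁻¹) ^ l.natAbs ≤ ∑ l ∈ Finset.Icc (-(n : ℤ)) n, F l.natAbs := by
    refine le_trans (le_of_eq ?_) (Finset.sum_le_sum_of_subset_of_nonneg hn fun l _ _ => hF0 _)
    rw [hF]
  have h2 : ∀ n : ℕ, ∑ l ∈ Finset.Icc (-(n : ℤ)) n, F l.natAbs = F 0 + 2 * ∑ j ∈ Finset.range n, F (j + 1) := by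
    intro n
    induction n with
    | zero => simp
    | succ n ih =>
      have e : Finset.Icc (-((n + 1 : ℕ) : ℤ)) ((n + 1 : ℕ) : ℤ) =
          insert (-((n : ℤ) + 1)) (insert ((n : ℤ) + 1) (Finset.Icc (-(n : ℤ)) n)) := by
        ext l
        simp only [Finset.mem_Icc, Finset.mem_insert]
        push_cast
        omega
      rw [e, Finset.sum_insert (by
        simp only [Finset.mem_insert, Finset.mem_Icc]
        omega), Finset.sum_insert (by
        simp only [Finset.mem_Icc]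
        omega), ih, Finset.sum_range_succ]
      have e1 : (-((n : ℤ) + 1)).natAbs = n + 1 := by omega
      have e2 : ((n : ℤ) + 1).natAbs = n + 1 := by omega
      rw [e1, e2]
      ring
  refine h1.trans ?_
  rw [h2]
  have h3 : ∑ j ∈ Finset.range n, F (j + 1) ≤ 3 * (lam⁻¹) ^ 2 := by
    rcases n with _ | _ | n
    · simp
      positivity
    · simp only [zero_add, Finset.sum_range_one]
      rw [hF]
      simp only [zero_add, pow_one]
      have : rho ^ (1 - 2) = 1 := by norm_num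
      rw [this, one_mul]
      nlinarith
    · rw [Finset.sum_range_succ', Finset.sum_range_succ']
      have h4 : ∑ j ∈ Finset.range n, F (j + 1 + 1 + 1) ≤ (lam⁻¹) ^ 2 := by
        have h5 : ∀ j ∈ Finset.range n, F (j + 1 + 1 + 1) = (lam⁻¹) ^ 2 * (rho * lam⁻¹) ^ (j + 1) := by
          intro j _
          rw [hF]
          simp only
          have e1 : j + 1 + 1 + 1 - 2 = j + 1 := by omega
          rw [e1, mul_pow]
          ring
        rw [Finset.sum_congr rfl h5, ← Finset.mul_sum]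
        have := geo_tail hr0 hr n
        nlinarith [pow_nonneg (zero_le_one.trans hli) 2]
      have h5 : F (0 + 1) ≤ (lam⁻¹) ^ 2 := by
        rw [hF]
        simp only [zero_add, pow_one]
        have : rho ^ (1 - 2) = 1 := by norm_num
        rw [this, one_mul]
        nlinarith
      have h6 : F (0 + 1 + 1) ≤ (lam⁻¹) ^ 2 := by
        rw [hF]
        simp
      linarith
  have h4 : F 0 ≤ (lam⁻¹) ^ 2 := by
    rw [hF]
    simp only [Nat.zero_sub, pow_zero, mul_one]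
    exact one_le_pow₀ hli
  linarith

/-- The recursion of section 3 with the smeared means. -/
theorem rec1 {κ rho lam X0 M : ℝ} {g gs : ℤ → ℝ} {dst : ℤ → ℕ} {S : ℤ} (hκ : 0 ≤ κ) (hr0 : 0 ≤ rho)
    (hl0 : 0 < lam) (hl1 : lam ≤ 1) (hrl : rho ≤ lam / 2) (hκl : 84 * κ ≤ lam ^ 2) (hX : 0 ≤ X0)
    (hg0 : ∀ x, 0 ≤ g x) (hM : ∀ x, g x ≤ M) (hd : ∀ x l : ℤ, dst x ≤ dst (x + l * S) + l.natAbs)
    (hgs : ∀ x, ∀ ε : ℝ, 0 < ε → ∃ L : Finset ℤ, gs x ≤ ∑ l ∈ L, rho ^ (l.natAbs - 1) * g (x + l * S) + ε)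
    (h : ∀ x, g x ≤ (if dst x = 0 then X0 else 0) + 2 * κ * (gs (x - S) + gs x + gs (x + S))) :
    ∀ x, g x ≤ 2 * X0 * lam ^ dst x := by
  classical
  have hrho1 : rho ≤ 1 := by linarith
  obtain ⟨c, hc⟩ : ∃ c : ℤ → ℝ, c = fun l => 3 * rho ^ (l.natAbs - 2) := ⟨_, rfl⟩
  have hc0 : ∀ l, 0 ≤ c l := fun l => by rw [hc]; positivity
  have hpow : ∀ (i l : ℤ), i.natAbs ≤ 1 → rho ^ (l.natAbs - 1) ≤ rho ^ ((l + i).natAbs - 2) := by
    intro i l hi
    refine pow_le_pow_of_le_one hr0 hrho1 ?_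
    omega
  -- each of the three sums
  have hone : ∀ x : ℤ, ∀ i : ℤ, i.natAbs ≤ 1 → ∀ ε : ℝ, 0 < ε → ∃ L' : Finset ℤ, ∀ L'' : Finset ℤ, L' ⊆ L'' →
      gs (x + i * S) ≤ ∑ l ∈ L'', rho ^ (l.natAbs - 2) * g (x + l * S) + ε := by
    intro x i hi ε hε
    obtain ⟨L, hL⟩ := hgs (x + i * S) ε hε
    refine ⟨L.image fun l => l + i, fun L'' hL'' => hL.trans (add_le_add ?_ le_rfl)⟩
    have h1 : ∑ l ∈ L, rho ^ (l.natAbs - 1) * g (x + i * S + l * S) ≤
        ∑ l ∈ L, rho ^ ((l + i).natAbs - 2) * g (x + (l + i) * S) := by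
      refine Finset.sum_le_sum fun l _ => ?_
      have e : x + i * S + l * S = x + (l + i) * S := by ring
      rw [e]
      exact mul_le_mul_of_nonneg_right (hpow i l hi) (hg0 _)
    refine h1.trans ?_
    have h2 : ∑ l ∈ L, rho ^ ((l + i).natAbs - 2) * g (x + (l + i) * S) =
        ∑ l ∈ L.image (fun l => l + i), rho ^ (l.natAbs - 2) * g (x + l * S) := by
      rw [Finset.sum_image fun a _ b _ hab => by simpa using hab]
    rw [h2]
    exact Finset.sum_le_sum_of_subset_of_nonneg hL'' fun l _ _ => mul_nonneg (by positivity) (hg0 _)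
  have hthree : ∀ x : ℤ, ∀ ε : ℝ, 0 < ε → ∃ L' : Finset ℤ,
      gs (x - S) + gs x + gs (x + S) ≤ ∑ l ∈ L', c l * g (x + l * S) + 3 * ε := by
    intro x ε hε
    obtain ⟨L1, h1⟩ := hone x (-1) (by norm_num) ε hε
    obtain ⟨L2, h2⟩ := hone x 0 (by norm_num) ε hε
    obtain ⟨L3, h3⟩ := hone x 1 (by norm_num) ε hε
    obtain ⟨L', hL'⟩ : ∃ L' : Finset ℤ, L' = L1 ∪ (L2 ∪ L3) := ⟨_, rfl⟩
    have h1' := h1 L' (by rw [hL']; exact Finset.subset_union_left)
    have h2' := h2 L' (by rw [hL']; exact Finset.subset_union_left.trans Finset.subset_union_right)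
    have h3' := h3 L' (by rw [hL']; exact Finset.subset_union_right.trans Finset.subset_union_right)
    have e1 : x + -1 * S = x - S := by ring
    have e2 : x + 0 * S = x := by ring
    have e3 : x + 1 * S = x + S := by ring
    rw [e1] at h1'
    rw [e2] at h2'
    rw [e3] at h3'
    have h4 : ∑ l ∈ L', c l * g (x + l * S) = 3 * ∑ l ∈ L', rho ^ (l.natAbs - 2) * g (x + l * S) := by
      rw [hc, Finset.mul_sum]
      exact Finset.sum_congr rfl fun l _ => by ring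
    refine ⟨L', ?_⟩
    rw [h4]
    linarith
  refine rec0 (c := c) (κ := 2 * κ) (lam := lam) (X0 := X0) (M := M) (S := S) hc0 (by linarith)
    hl0 hl1 hX (fun L' => ?_) hM hd fun x ε hε => ?_
  · have h1 := sum_far hr0 hl0 hl1 hrl L'
    have h2 : ∑ l ∈ L', c l * (lam⁻¹) ^ l.natAbs = 3 * ∑ l ∈ L', rho ^ (l.natAbs - 2) * (lam⁻¹) ^ l.natAbs := by
      rw [hc, Finset.mul_sum]
      exact Finset.sum_congr rfl fun l _ => by ring
    rw [h2]
    have h3 : 84 * κ * (lam⁻¹) ^ 2 ≤ 1 := by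
      have h4 := mul_le_mul_of_nonneg_right hκl (sq_nonneg lam⁻¹)
      rwa [← mul_pow, mul_inv_cancel₀ hl0.ne', one_pow] at h4
    have h5 : 2 * κ * (3 * ∑ l ∈ L', rho ^ (l.natAbs - 2) * (lam⁻¹) ^ l.natAbs) ≤ 2 * κ * (3 * (7 * (lam⁻¹) ^ 2)) :=
      mul_le_mul_of_nonneg_left (by linarith) (by linarith)
    linarith
  · obtain ⟨L', hL'⟩ := hthree x (ε / (6 * (κ + 1))) (by positivity)
    refine ⟨L', ?_⟩
    have h1 := mul_le_mul_of_nonneg_left hL' (by linarith : 0 ≤ 2 * κ)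
    have h2 : 2 * κ * (3 * (ε / (6 * (κ + 1)))) ≤ ε := by
      have e : 2 * κ * (3 * (ε / (6 * (κ + 1)))) = ε * (κ / (κ + 1)) := by
        field_simp
        ring
      rw [e]
      have : κ / (κ + 1) ≤ 1 := by
        rw [div_le_one (by linarith)]
        linarith
      nlinarith
    linarith [h x]

end Pool.Agent.W_1b8d5d_p.El0
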