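import Pool.Agent.W_1b8d5d_p.El0B

/-!
TRACK P, (EL) at zero temperature (proofs row 632): the abstract theorem `el0_abs`. helper67.
-/

set_option autoImplicit false

namespace Pool.Agent.W_1b8d5d_p.El0

open MeasureTheory

variable {Ω : Type*}

/-- The indicator of an event. -/
noncomputable def ind (E : Ω → Prop) (ω : Ω) : ℝ := Set.indicator {ω | E ω} (fun _ => (1 : ℝ)) ω

theorem ind_nonneg (E : Ω → Prop) (ω : Ω) : 0 ≤ ind E ω := by
  unfold ind
  exact Set.indicator_nonneg (fun _ _ => zero_le_one) ω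

theorem ind_le_one (E : Ω → Prop) (ω : Ω) : ind E ω ≤ 1 := by
  unfold ind
  exact Set.indicator_le_self' (fun _ _ => zero_le_one) ω

theorem ind_of {E : Ω → Prop} {ω : Ω} (h : E ω) : ind E ω = 1 := by
  unfold ind
  exact Set.indicator_of_mem (show ω ∈ {ω | E ω} from h) _

theorem ind_sq (E : Ω → Prop) (ω : Ω) : ind E ω ^ (2 : ℝ) = ind E ω := by
  classical
  unfold ind
  by_cases h : ω ∈ {ω | E ω}
  · rw [Set.indicator_of_mem h, Real.one_rpow]
  · rw [Set.indicator_of_notMem h, Real.zero_rpow (by norm_num)]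

/-- Subadditivity of `t ↦ t ^ q`. -/
theorem add_rpow {x y q : ℝ} (hx : 0 ≤ x) (hy : 0 ≤ y) (hq : 0 < q) (hq1 : q ≤ 1) : (x + y) ^ q ≤ x ^ q + y ^ q :=
  Real.rpow_add_le_add_rpow hx hy hq.le hq1

theorem sum_rpow {ι : Type*} (I : Finset ι) {f : ι → ℝ} (hf : ∀ i ∈ I, 0 ≤ f i) {q : ℝ} (hq : 0 < q)
    (hq1 : q ≤ 1) : (∑ i ∈ I, f i) ^ q ≤ ∑ i ∈ I, f i ^ q := by
  classical
  induction I using Finset.induction_on with
  | empty => simp [Real.zero_rpow hq.ne']
  | @insert a I ha ih =>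
    rw [Finset.sum_insert ha, Finset.sum_insert ha]
    refine (add_rpow (hf a (Finset.mem_insert_self a I))
      (Finset.sum_nonneg fun i hi => hf i (Finset.mem_insert_of_mem hi)) hq hq1).trans ?_
    exact add_le_add le_rfl (ih fun i hi => hf i (Finset.mem_insert_of_mem hi))

variable [MeasurableSpace Ω] {P : Measure Ω} [IsProbabilityMeasure P]

theorem bdd_int {f : Ω → ℝ} {K : ℝ} (hf : Measurable f) (h0 : ∀ ω, 0 ≤ f ω) (hK : ∀ ω, f ω ≤ K) : Integrable f P :=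
  (integrable_const K).mono' hf.aestronglyMeasurable (Filter.Eventually.of_forall fun ω => by
    rw [Real.norm_eq_abs, abs_of_nonneg (h0 ω)]
    exact hK ω)

theorem int2 {f1 f2 : Ω → ℝ} (h1 : Integrable f1 P) (h2 : Integrable f2 P) :
    ∫ ω, (f1 ω + f2 ω) ∂P = ∫ ω, f1 ω ∂P + ∫ ω, f2 ω ∂P := integral_add h1 h2

theorem int3 {f1 f2 f3 : Ω → ℝ} (h1 : Integrable f1 P) (h2 : Integrable f2 P) (h3 : Integrable f3 P) :
    ∫ ω, (f1 ω + f2 ω + f3 ω) ∂P = ∫ ω, f1 ω ∂P + ∫ ω, f2 ω ∂P + ∫ ω, f3 ω ∂P := by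
  have h12 : Integrable (fun ω => f1 ω + f2 ω) P := h1.add h2
  rw [int2 h12 h3, int2 h1 h2]

theorem ind_meas {E : Ω → Prop} (hE : MeasurableSet {ω | E ω}) : Measurable (ind E) := by
  unfold ind
  exact measurable_const.indicator hE

/-- Cauchy - Schwarz with an event, bounded functions. -/
theorem ind_cs {E : Ω → Prop} (hE : MeasurableSet {ω | E ω}) {f : Ω → ℝ} {K : ℝ} (hf : Measurable f)
    (h0 : ∀ ω, 0 ≤ f ω) (hK : ∀ ω, f ω ≤ K) :
    ∫ ω, ind E ω * f ω ∂P ≤ (P.real {ω | E ω}) ^ (1 / 2 : ℝ) * (∫ ω, f ω ^ (2 : ℝ) ∂P) ^ (1 / 2 : ℝ) := by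
  have h2 : ∀ g : Ω → ℝ, Measurable g → (∀ ω, 0 ≤ g ω) → ∀ C : ℝ, (∀ ω, g ω ≤ C) → MemLp g (ENNReal.ofReal 2) P := by
    intro g hg hg0 C hC
    have e : ENNReal.ofReal 2 = 2 := by simp
    rw [e]
    exact MemLp.of_bound hg.aestronglyMeasurable C (Filter.Eventually.of_forall fun ω => by
      rw [Real.norm_eq_abs, abs_of_nonneg (hg0 ω)]
      exact hC ω)
  have h3 := integral_mul_le_Lp_mul_Lq_of_nonneg (μ := P) Real.HolderConjugate.two_two
    (Filter.Eventually.of_forall (ind_nonneg E)) (Filter.Eventually.of_forall h0)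
    (h2 _ (ind_meas hE) (ind_nonneg E) 1 (ind_le_one E)) (h2 f hf h0 K hK)
  refine h3.trans (le_of_eq ?_)
  congr 2
  simp only [ind_sq]
  unfold ind
  exact integral_indicator_one hE

/-- **(EL) at zero temperature, abstract form.** `M x m` = luck in the strip around `x` behind the level `m`, `pM x m` = luck in the
strip up to the level `m`, `g x m` = weight (`exp` of the luck) of the best start in the cell `x` behind the level `m` to the target,
`gs x m` = the smeared weight. -/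
theorem el0_abs {N : ℕ} {S : ℤ} {q B a B0 K p p' κ rho lam : ℝ} {dst : ℤ → ℕ}
    {M pM g gs : ℤ → ℕ → Ω → ℝ} {HB HE : ℤ → ℕ → Ω → Prop}
    (hq : 0 < q) (hq1 : q ≤ 1) (hB : 0 ≤ B) (ha : 0 ≤ a) (hrho : 0 ≤ rho)
    (hd : ∀ x l : ℤ, dst x ≤ dst (x + l * S) + l.natAbs)
    -- the strip
    (hHB : ∀ x m, MeasurableSet {ω | HB x m ω}) (hMm : ∀ x m, Measurable (M x m)) (hMK : ∀ x m ω, |M x m ω| ≤ K)
    (hMmono : ∀ x m ω, M x m ω ≤ M x 0 ω) (hfree : ∀ x ω, (∀ m ≤ N, ¬ HB x m ω) → M x 0 ω ≤ B)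
    (hrest : ∀ x ω, ∀ m ≤ N, Fr (HB x) m ω → M x 0 ω ≤ B + a + M x m ω)
    (hindB : ∀ r : ℝ, ∀ x, ∀ m ≤ N, ∫ ω, ind (Fr (HB x) m) ω * 1 * Real.exp (r * M x m ω) ∂P ≤
      (∫ ω, ind (Fr (HB x) m) ω * 1 ∂P) * ∫ ω, Real.exp (r * M x m ω) ∂P)
    (hpB : ∀ x, P.real {ω | ∃ m ≤ N, HB x m ω} ≤ p) (hpq : Real.exp (2 * q * (B + a)) * p ≤ 1 / 2)
    -- the exits
    (hHE : ∀ x m, MeasurableSet {ω | HE x m ω}) (hpMm : ∀ x m, Measurable (pM x m)) (hpM : ∀ x m ω, pM x m ω ≤ M x 0 ω)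
    (hgm : ∀ x m, Measurable (g x m)) (hg0 : ∀ x m ω, 0 ≤ g x m ω) (hgK : ∀ x m ω, g x m ω ≤ K)
    (hsm : ∀ x m, Measurable (gs x m)) (hs0 : ∀ x m ω, 0 ≤ gs x m ω) (hsK : ∀ x m ω, gs x m ω ≤ K)
    (hsmono : ∀ x m ω, gs x m ω ≤ gs x 0 ω)
    (hS2 : ∀ x, ∀ ε : ℝ, 0 < ε → ∃ L : Finset ℤ, ∀ ω, gs x 0 ω ≤ ∑ l ∈ L, rho ^ (l.natAbs - 1) * g (x + l * S) 0 ω + ε)
    (hS1 : ∀ x ω, g x 0 ω ≤ (if dst x = 0 then Real.exp (M x 0 ω) else 0) +
      Real.exp (-B0) * (gs (x - S) 0 ω + gs (x + S) 0 ω) +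
      ∑ m ∈ Finset.range (N + 1), ind (Fr (HE x) m) ω * Real.exp (pM x m ω) * (gs (x - S) m ω + gs x m ω + gs (x + S) m ω))
    (hindE : ∀ x, ∀ m ≤ N, ∀ y : ℤ, ∫ ω, ind (Fr (HE x) m) ω * Real.exp (q * pM x m ω) * gs y m ω ^ q ∂P ≤
      (∫ ω, ind (Fr (HE x) m) ω * Real.exp (q * pM x m ω) ∂P) * ∫ ω, gs y m ω ^ q ∂P)
    (hpE : ∀ x, P.real {ω | ∃ m ≤ N, HE x m ω} ≤ p')
    -- the numbers
    (hκ1 : Real.exp (-(q * B0)) ≤ κ) (hκ2 : p' ^ (1 / 2 : ℝ) * (2 * Real.exp (2 * q * B)) ^ (1 / 2 : ℝ) ≤ κ)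
    (hl0 : 0 < lam) (hl1 : lam ≤ 1) (hrl : rho ^ q ≤ lam / 2) (hκl : 84 * κ ≤ lam ^ 2) :
    ∀ x, ∫ ω, g x 0 ω ^ q ∂P ≤ 4 * Real.exp (q * B) * lam ^ dst x := by
  classical
  have hp0 : 0 ≤ p := measureReal_nonneg.trans (hpB 0)
  have hκ0 : 0 ≤ κ := (Real.exp_pos _).le.trans hκ1
  -- moments of the strip
  have hM1 : ∀ x, ∫ ω, Real.exp (q * M x 0 ω) ∂P ≤ 2 * Real.exp (q * B) := by
    intro x
    refine restart (P := P) (p := p) (a := a) (hHB x) (hMm x) (hMK x) (hMmono x) hq.le (hfree x) (hrest x)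
      (fun m hm => hindB q x m hm) (hpB x) (le_trans ?_ hpq)
    refine mul_le_mul_of_nonneg_right (Real.exp_le_exp.2 ?_) hp0
    nlinarith
  have hM2 : ∀ x, ∫ ω, Real.exp (2 * q * M x 0 ω) ∂P ≤ 2 * Real.exp (2 * q * B) := by
    intro x
    exact restart (P := P) (p := p) (a := a) (hHB x) (hMm x) (hMK x) (hMmono x) (by linarith) (hfree x) (hrest x)
      (fun m hm => hindB (2 * q) x m hm) (hpB x) hpq
  -- bounds and integrability
  have hMe : ∀ x m ω, Real.exp (M x m ω) ≤ Real.exp K := fun x m ω =>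
    Real.exp_le_exp.2 ((le_abs_self _).trans (hMK x m ω))
  have hqM : ∀ x ω, Real.exp (q * M x 0 ω) ≤ Real.exp (q * K) := fun x ω =>
    Real.exp_le_exp.2 (mul_le_mul_of_nonneg_left ((le_abs_self _).trans (hMK x 0 ω)) hq.le)
  have hqpM : ∀ x m ω, Real.exp (q * pM x m ω) ≤ Real.exp (q * M x 0 ω) := fun x m ω =>
    Real.exp_le_exp.2 (mul_le_mul_of_nonneg_left (hpM x m ω) hq.le)
  have hgq : ∀ x m, Integrable (fun ω => g x m ω ^ q) P := fun x m =>
    bdd_int ((hgm x m).pow_const q) (fun ω => Real.rpow_nonneg (hg0 x m ω) q)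
      (K := K ^ q) fun ω => Real.rpow_le_rpow (hg0 x m ω) (hgK x m ω) hq.le
  have hsq : ∀ x m, Integrable (fun ω => gs x m ω ^ q) P := fun x m =>
    bdd_int ((hsm x m).pow_const q) (fun ω => Real.rpow_nonneg (hs0 x m ω) q)
      (K := K ^ q) fun ω => Real.rpow_le_rpow (hs0 x m ω) (hsK x m ω) hq.le
  have hMi : ∀ x, Integrable (fun ω => Real.exp (q * M x 0 ω)) P := fun x =>
    bdd_int ((hMm x 0).const_mul q).exp (fun ω => (Real.exp_pos _).le) (hqM x)
  have hpMi : ∀ x m, Integrable (fun ω => Real.exp (q * pM x m ω)) P := fun x m =>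
    bdd_int ((hpMm x m).const_mul q).exp (fun ω => (Real.exp_pos _).le) fun ω => (hqpM x m ω).trans (hqM x ω)
  have hK0 : 0 ≤ K := by
    obtain ⟨ω⟩ : Nonempty Ω := by
      by_contra h
      rw [not_nonempty_iff] at h
      have h1 : P Set.univ = 0 := by
        rw [Set.univ_eq_empty_iff.2 h]
        exact measure_empty
      rw [measure_univ] at h1
      exact one_ne_zero h1
    exact (abs_nonneg _).trans (hMK 0 0 ω)
  have hkint : ∀ x y m, Integrable (fun ω => ind (Fr (HE x) m) ω * Real.exp (q * pM x m ω) * gs y m ω ^ q) P := by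
    intro x y m
    refine bdd_int (K := Real.exp (q * K) * K ^ q)
      (((ind_meas (meas_Fr (hHE x) m)).mul ((hpMm x m).const_mul q).exp).mul ((hsm y m).pow_const q)) (fun ω => ?_) fun ω => ?_
    · exact mul_nonneg (mul_nonneg (ind_nonneg _ _) (Real.exp_pos _).le) (Real.rpow_nonneg (hs0 _ _ _) _)
    · refine mul_le_mul ?_ (Real.rpow_le_rpow (hs0 _ _ _) (hsK _ _ _) hq.le) (Real.rpow_nonneg (hs0 _ _ _) _)
        (Real.exp_pos _).le
      exact (mul_le_of_le_one_left (Real.exp_pos _).le (ind_le_one _ _)).trans ((hqpM x m ω).trans (hqM x ω))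
  obtain ⟨gg, hgg⟩ : ∃ gg : ℤ → ℝ, gg = fun x => ∫ ω, g x 0 ω ^ q ∂P := ⟨_, rfl⟩
  obtain ⟨ss, hss⟩ : ∃ ss : ℤ → ℝ, ss = fun x => ∫ ω, gs x 0 ω ^ q ∂P := ⟨_, rfl⟩
  have hss0 : ∀ x, 0 ≤ ss x := fun x => by
    rw [hss]
    exact integral_nonneg fun ω => Real.rpow_nonneg (hs0 _ _ _) _
  have hssm : ∀ x m, ∫ ω, gs x m ω ^ q ∂P ≤ ss x := fun x m => by
    rw [hss]
    exact integral_mono (hsq x m) (hsq x 0) fun ω => Real.rpow_le_rpow (hs0 _ _ _) (hsmono x m ω) hq.le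
  -- the exits
  have hexit : ∀ x, ∫ ω, ∑ m ∈ Finset.range (N + 1), ind (Fr (HE x) m) ω * Real.exp (q * pM x m ω) *
      (gs (x - S) m ω ^ q + gs x m ω ^ q + gs (x + S) m ω ^ q) ∂P ≤ κ * (ss (x - S) + ss x + ss (x + S)) := by
    intro x
    have hsum0 : 0 ≤ ss (x - S) + ss x + ss (x + S) := by linarith [hss0 (x - S), hss0 x, hss0 (x + S)]
    have h1 := stop (P := P) (H := HE x) (N := N) (U := fun m ω => Real.exp (q * pM x m ω))
      (G := fun m ω => gs (x - S) m ω ^ q + gs x m ω ^ q + gs (x + S) m ω ^ q) (Um := fun ω => Real.exp (q * M x 0 ω))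
      (g := ss (x - S) + ss x + ss (x + S)) (hHE x) (fun _ _ => (Real.exp_pos _).le) (hMi x) (hpMi x)
      (fun m ω => add_nonneg (add_nonneg (Real.rpow_nonneg (hs0 _ _ _) _) (Real.rpow_nonneg (hs0 _ _ _) _))
        (Real.rpow_nonneg (hs0 _ _ _) _)) (fun m => ?_) (fun m _ ω => hqpM x m ω) (fun m _ => ?_) hsum0 (fun m hm => ?_)
    · refine le_trans (le_of_eq ?_) (h1.trans ?_)
      · rfl
      rw [mul_comm]
      refine mul_le_mul_of_nonneg_right ?_ hsum0
      have h2 := ind_cs (P := P) (meas_ex (hHE x) N) (f := fun ω => Real.exp (q * M x 0 ω)) (K := Real.exp (q * K))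
        ((hMm x 0).const_mul q).exp (fun ω => (Real.exp_pos _).le) (hqM x)
      have h3 : ∀ ω, Real.exp (q * M x 0 ω) ^ (2 : ℝ) = Real.exp (2 * q * M x 0 ω) := fun ω => by
        rw [← Real.exp_mul]
        congr 1
        ring
      simp only [h3] at h2
      refine h2.trans (le_trans ?_ hκ2)
      refine mul_le_mul (Real.rpow_le_rpow measureReal_nonneg (hpE x) (by norm_num))
        (Real.rpow_le_rpow (integral_nonneg fun ω => (Real.exp_pos _).le) (hM2 x) (by norm_num))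
        (Real.rpow_nonneg (integral_nonneg fun ω => (Real.exp_pos _).le) _)
        (Real.rpow_nonneg (measureReal_nonneg.trans (hpE x)) _)
    · have e : (fun ω => Set.indicator {ω | Fr (HE x) m ω} (fun _ => (1 : ℝ)) ω * Real.exp (q * pM x m ω) *
          (gs (x - S) m ω ^ q + gs x m ω ^ q + gs (x + S) m ω ^ q)) = fun ω =>
          ind (Fr (HE x) m) ω * Real.exp (q * pM x m ω) * gs (x - S) m ω ^ q +
          ind (Fr (HE x) m) ω * Real.exp (q * pM x m ω) * gs x m ω ^ q +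
          ind (Fr (HE x) m) ω * Real.exp (q * pM x m ω) * gs (x + S) m ω ^ q := by
        funext ω
        unfold ind
        ring
      rw [e]
      exact ((hkint x (x - S) m).add (hkint x x m)).add (hkint x (x + S) m)
    · rw [int3 (hsq (x - S) m) (hsq x m) (hsq (x + S) m)]
      linarith [hssm (x - S) m, hssm x m, hssm (x + S) m]
    · have e : ∀ ω, Set.indicator {ω | Fr (HE x) m ω} (fun _ => (1 : ℝ)) ω * Real.exp (q * pM x m ω) *
          (gs (x - S) m ω ^ q + gs x m ω ^ q + gs (x + S) m ω ^ q) =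
          ind (Fr (HE x) m) ω * Real.exp (q * pM x m ω) * gs (x - S) m ω ^ q +
          ind (Fr (HE x) m) ω * Real.exp (q * pM x m ω) * gs x m ω ^ q +
          ind (Fr (HE x) m) ω * Real.exp (q * pM x m ω) * gs (x + S) m ω ^ q := by
        intro ω
        unfold ind
        ring
      simp only [e]
      rw [int3 (hkint x (x - S) m) (hkint x x m) (hkint x (x + S) m),
        int3 (hsq (x - S) m) (hsq x m) (hsq (x + S) m), mul_add, mul_add]
      exact add_le_add (add_le_add (hindE x m hm _) (hindE x m hm _)) (hindE x m hm _)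
  have hexi : ∀ x, Integrable (fun ω => ∑ m ∈ Finset.range (N + 1), ind (Fr (HE x) m) ω * Real.exp (q * pM x m ω) *
      (gs (x - S) m ω ^ q + gs x m ω ^ q + gs (x + S) m ω ^ q)) P := by
    intro x
    refine integrable_finset_sum _ fun m _ => ?_
    have e : (fun ω => ind (Fr (HE x) m) ω * Real.exp (q * pM x m ω) *
        (gs (x - S) m ω ^ q + gs x m ω ^ q + gs (x + S) m ω ^ q)) = fun ω =>
        ind (Fr (HE x) m) ω * Real.exp (q * pM x m ω) * gs (x - S) m ω ^ q +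
        ind (Fr (HE x) m) ω * Real.exp (q * pM x m ω) * gs x m ω ^ q +
        ind (Fr (HE x) m) ω * Real.exp (q * pM x m ω) * gs (x + S) m ω ^ q := by
      funext ω
      ring
    rw [e]
    exact ((hkint x (x - S) m).add (hkint x x m)).add (hkint x (x + S) m)
  -- the recursion
  have hrec : ∀ x, gg x ≤ (if dst x = 0 then 2 * Real.exp (q * B) else 0) + 2 * κ * (ss (x - S) + ss x + ss (x + S)) := by
    intro x
    have hpt : ∀ ω, g x 0 ω ^ q ≤ (if dst x = 0 then 1 else 0) * Real.exp (q * M x 0 ω) +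
        Real.exp (-(q * B0)) * (gs (x - S) 0 ω ^ q + gs (x + S) 0 ω ^ q) +
        ∑ m ∈ Finset.range (N + 1), ind (Fr (HE x) m) ω * Real.exp (q * pM x m ω) *
          (gs (x - S) m ω ^ q + gs x m ω ^ q + gs (x + S) m ω ^ q) := by
      intro ω
      have hA0 : 0 ≤ (if dst x = 0 then Real.exp (M x 0 ω) else 0) := by
        split_ifs
        · exact (Real.exp_pos _).le
        · exact le_rfl
      have hB0' : 0 ≤ Real.exp (-B0) * (gs (x - S) 0 ω + gs (x + S) 0 ω) :=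
        mul_nonneg (Real.exp_pos _).le (add_nonneg (hs0 _ _ _) (hs0 _ _ _))
      have hC0 : ∀ m ∈ Finset.range (N + 1), 0 ≤ ind (Fr (HE x) m) ω * Real.exp (pM x m ω) *
          (gs (x - S) m ω + gs x m ω + gs (x + S) m ω) := fun m _ =>
        mul_nonneg (mul_nonneg (ind_nonneg _ _) (Real.exp_pos _).le)
          (add_nonneg (add_nonneg (hs0 _ _ _) (hs0 _ _ _)) (hs0 _ _ _))
      have h1 := Real.rpow_le_rpow (hg0 x 0 ω) (hS1 x ω) hq.le
      have h2 := add_rpow (add_nonneg hA0 hB0') (Finset.sum_nonneg hC0) hq hq1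
      have h3 := add_rpow hA0 hB0' hq hq1
      have h4 : (if dst x = 0 then Real.exp (M x 0 ω) else 0) ^ q ≤ (if dst x = 0 then 1 else 0) * Real.exp (q * M x 0 ω) := by
        split_ifs
        · rw [one_mul, ← Real.exp_mul, mul_comm]
        · rw [Real.zero_rpow hq.ne', zero_mul]
      have h5 : (Real.exp (-B0) * (gs (x - S) 0 ω + gs (x + S) 0 ω)) ^ q ≤
          Real.exp (-(q * B0)) * (gs (x - S) 0 ω ^ q + gs (x + S) 0 ω ^ q) := by
        rw [Real.mul_rpow (Real.exp_pos _).le (add_nonneg (hs0 _ _ _) (hs0 _ _ _)), ← Real.exp_mul]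
        have e : -B0 * q = -(q * B0) := by ring
        rw [e]
        exact mul_le_mul_of_nonneg_left (add_rpow (hs0 _ _ _) (hs0 _ _ _) hq hq1) (Real.exp_pos _).le
      have h6 := sum_rpow (Finset.range (N + 1)) hC0 hq hq1
      have h7 : ∀ m ∈ Finset.range (N + 1), (ind (Fr (HE x) m) ω * Real.exp (pM x m ω) *
          (gs (x - S) m ω + gs x m ω + gs (x + S) m ω)) ^ q ≤ ind (Fr (HE x) m) ω * Real.exp (q * pM x m ω) *
          (gs (x - S) m ω ^ q + gs x m ω ^ q + gs (x + S) m ω ^ q) := by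
        intro m _
        rw [Real.mul_rpow (mul_nonneg (ind_nonneg _ _) (Real.exp_pos _).le)
          (add_nonneg (add_nonneg (hs0 _ _ _) (hs0 _ _ _)) (hs0 _ _ _)),
          Real.mul_rpow (ind_nonneg _ _) (Real.exp_pos _).le, ← Real.exp_mul, mul_comm (pM x m ω) q]
        have h8 : ind (Fr (HE x) m) ω ^ q ≤ ind (Fr (HE x) m) ω := by
          unfold ind
          by_cases h : ω ∈ {ω | Fr (HE x) m ω}
          · rw [Set.indicator_of_mem h, Real.one_rpow]
          · rw [Set.indicator_of_notMem h, Real.zero_rpow hq.ne']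
        have h9 : (gs (x - S) m ω + gs x m ω + gs (x + S) m ω) ^ q ≤
            gs (x - S) m ω ^ q + gs x m ω ^ q + gs (x + S) m ω ^ q :=
          (add_rpow (add_nonneg (hs0 _ _ _) (hs0 _ _ _)) (hs0 _ _ _) hq hq1).trans
            (add_le_add (add_rpow (hs0 _ _ _) (hs0 _ _ _) hq hq1) le_rfl)
        refine mul_le_mul (mul_le_mul_of_nonneg_right h8 (Real.exp_pos _).le) h9
          (Real.rpow_nonneg (add_nonneg (add_nonneg (hs0 _ _ _) (hs0 _ _ _)) (hs0 _ _ _)) _)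
          (mul_nonneg (ind_nonneg _ _) (Real.exp_pos _).le)
      have h8 := Finset.sum_le_sum h7
      linarith
    have i1 : Integrable (fun ω => (if dst x = 0 then (1 : ℝ) else 0) * Real.exp (q * M x 0 ω)) P := (hMi x).const_mul _
    have i2 : Integrable (fun ω => Real.exp (-(q * B0)) * (gs (x - S) 0 ω ^ q + gs (x + S) 0 ω ^ q)) P :=
      ((hsq _ _).add (hsq _ _)).const_mul _
    have h1 : ∫ ω, g x 0 ω ^ q ∂P ≤ ∫ ω, ((if dst x = 0 then 1 else 0) * Real.exp (q * M x 0 ω) +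
        Real.exp (-(q * B0)) * (gs (x - S) 0 ω ^ q + gs (x + S) 0 ω ^ q) +
        ∑ m ∈ Finset.range (N + 1), ind (Fr (HE x) m) ω * Real.exp (q * pM x m ω) *
          (gs (x - S) m ω ^ q + gs x m ω ^ q + gs (x + S) m ω ^ q)) ∂P :=
      integral_mono (hgq x 0) ((i1.add i2).add (hexi x)) hpt
    rw [int3 i1 i2 (hexi x), integral_const_mul, integral_const_mul, int2 (hsq (x - S) 0) (hsq (x + S) 0)] at h1
    have h2 : (if dst x = 0 then (1 : ℝ) else 0) * ∫ ω, Real.exp (q * M x 0 ω) ∂P ≤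
        (if dst x = 0 then 2 * Real.exp (q * B) else 0) := by
      split_ifs
      · rw [one_mul]
        exact hM1 x
      · rw [zero_mul]
    have h3 : Real.exp (-(q * B0)) * (∫ ω, gs (x - S) 0 ω ^ q ∂P + ∫ ω, gs (x + S) 0 ω ^ q ∂P) ≤
        κ * (ss (x - S) + ss x + ss (x + S)) := by
      have e1 : ∫ ω, gs (x - S) 0 ω ^ q ∂P = ss (x - S) := by rw [hss]
      have e2 : ∫ ω, gs (x + S) 0 ω ^ q ∂P = ss (x + S) := by rw [hss]
      rw [e1, e2]
      exact mul_le_mul hκ1 (by linarith [hss0 x]) (add_nonneg (hss0 _) (hss0 _)) hκ0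
    have h4 := hexit x
    have e0 : ∫ ω, g x 0 ω ^ q ∂P = gg x := by rw [hgg]
    rw [e0] at h1
    linarith
  have hgs : ∀ x, ∀ ε : ℝ, 0 < ε → ∃ L : Finset ℤ, ss x ≤ ∑ l ∈ L, (rho ^ q) ^ (l.natAbs - 1) * gg (x + l * S) + ε := by
    intro x ε hε
    obtain ⟨L, hL⟩ := hS2 x (ε ^ (1 / q)) (Real.rpow_pos_of_pos hε _)
    refine ⟨L, ?_⟩
    have h1 : ∀ ω, gs x 0 ω ^ q ≤ ∑ l ∈ L, (rho ^ q) ^ (l.natAbs - 1) * g (x + l * S) 0 ω ^ q + ε := by
      intro ω
      have h0 : ∀ l ∈ L, 0 ≤ rho ^ (l.natAbs - 1) * g (x + l * S) 0 ω := fun l _ => mul_nonneg (by positivity) (hg0 _ _ _)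
      have h2 : (ε ^ (1 / q)) ^ q = ε := by
        rw [← Real.rpow_mul hε.le, one_div, inv_mul_cancel₀ hq.ne', Real.rpow_one]
      refine (Real.rpow_le_rpow (hs0 _ _ _) (hL ω) hq.le).trans ?_
      refine (add_rpow (Finset.sum_nonneg h0) (Real.rpow_pos_of_pos hε _).le hq hq1).trans ?_
      rw [h2]
      refine add_le_add ((sum_rpow L h0 hq hq1).trans (le_of_eq ?_)) le_rfl
      refine Finset.sum_congr rfl fun l _ => ?_
      rw [Real.mul_rpow (by positivity) (hg0 _ _ _)]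
      congr 1
      rw [← Real.rpow_natCast, ← Real.rpow_natCast, ← Real.rpow_mul hrho, ← Real.rpow_mul hrho, mul_comm]
    have i1 : Integrable (fun ω => ∑ l ∈ L, (rho ^ q) ^ (l.natAbs - 1) * g (x + l * S) 0 ω ^ q) P :=
      integrable_finset_sum _ fun l _ => (hgq (x + l * S) 0).const_mul _
    have h2 : ∫ ω, gs x 0 ω ^ q ∂P ≤ ∫ ω, (∑ l ∈ L, (rho ^ q) ^ (l.natAbs - 1) * g (x + l * S) 0 ω ^ q + ε) ∂P :=
      integral_mono (hsq x 0) (i1.add (integrable_const ε)) h1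
    rw [int2 i1 (integrable_const ε), integral_finset_sum _ fun l _ => (hgq (x + l * S) 0).const_mul _,
      integral_const, probReal_univ, one_smul] at h2
    rw [hss, hgg]
    refine h2.trans (le_of_eq ?_)
    congr 1
    refine Finset.sum_congr rfl fun l _ => ?_
    rw [integral_const_mul]
  have h := rec1 (κ := κ) (rho := rho ^ q) (lam := lam) (X0 := 2 * Real.exp (q * B)) (M := K ^ q) (g := gg)
    (gs := ss) (dst := dst) (S := S) hκ0 (Real.rpow_nonneg hrho q) hl0 hl1 hrl hκl (by positivity) (fun x => by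
      rw [hgg]
      exact integral_nonneg fun ω => Real.rpow_nonneg (hg0 _ _ _) _) (fun x => by
      rw [hgg]
      have h1 := integral_mono (hgq x 0) (integrable_const (K ^ q)) fun ω =>
        Real.rpow_le_rpow (hg0 x 0 ω) (hgK x 0 ω) hq.le
      rwa [integral_const, probReal_univ, one_smul] at h1) hd hgs hrec
  intro x
  have h1 := h x
  rw [hgg] at h1
  refine h1.trans (le_of_eq ?_)
  ring

end Pool.Agent.W_1b8d5d_p.El0
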