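import Pool.Agent.W_1b8d5d_p.FrCut
import Pool.Agent.W_1b8d5d_p.El0C

/-!
TRACK P, (EL) at zero temperature (proofs row 632): the luck of a walk, the lateral coordinate, first and last steps. helper67.
-/

set_option autoImplicit false

namespace Pool.Agent.W_1b8d5d_p.El0

open MeasureTheory Set
open Pool.Agent.W_1b8d5d_h85
open Pool.Agent.W_1b8d5d_p

/-- The first step into `P`. -/
theorem first_step (P : V → Prop) {x y : V} (w : grid.Walk x y) (hx : ¬ P x) (hy : ∃ z ∈ w.support, P z) :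
    ∃ (u v : V) (w1 : grid.Walk x u) (h : grid.Adj u v) (w2 : grid.Walk v y),
      w = w1.append (SimpleGraph.Walk.cons h w2) ∧ (∀ z ∈ w1.support, ¬ P z) ∧ P v := by
  induction w with
  | nil =>
    obtain ⟨z, hz, hP⟩ := hy
    rw [SimpleGraph.Walk.support_nil, List.mem_singleton] at hz
    exact absurd (hz ▸ hP) hx
  | @cons x v' y hadj w' ih =>
    by_cases hv : P v'
    · refine ⟨x, v', .nil, hadj, w', by simp, ?_, hv⟩
      intro z hz
      rw [SimpleGraph.Walk.support_nil, List.mem_singleton] at hz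
      rw [hz]
      exact hx
    · obtain ⟨u, v, w1, h, w2, e1, e2, e3⟩ := ih hv (by
        obtain ⟨z, hz, hP⟩ := hy
        rw [SimpleGraph.Walk.support_cons, List.mem_cons] at hz
        rcases hz with rfl | hz
        · exact absurd hP hx
        · exact ⟨z, hz, hP⟩)
      refine ⟨u, v, SimpleGraph.Walk.cons hadj w1, h, w2, by rw [e1]; simp, ?_, e3⟩
      intro z hz
      rw [SimpleGraph.Walk.support_cons, List.mem_cons] at hz
      rcases hz with rfl | hz
      · exact hx
      · exact e2 z hz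

/-- The last step out of `P`. -/
theorem last_step (P : V → Prop) {x y : V} (w : grid.Walk x y) (hy : ¬ P y) (hx : ∃ z ∈ w.support, P z) :
    ∃ (u v : V) (w1 : grid.Walk x u) (h : grid.Adj u v) (w2 : grid.Walk v y),
      w = w1.append (SimpleGraph.Walk.cons h w2) ∧ P u ∧ ∀ z ∈ w2.support, ¬ P z := by
  obtain ⟨u, v, w1, h, w2, e1, e2, e3⟩ := first_step P w.reverse hy (by
    obtain ⟨z, hz, hP⟩ := hx
    exact ⟨z, by rw [SimpleGraph.Walk.support_reverse, List.mem_reverse]; exact hz, hP⟩)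
  refine ⟨v, u, w2.reverse, h.symm, w1.reverse, ?_, e3, ?_⟩
  · rw [← w.reverse_reverse, e1, SimpleGraph.Walk.reverse_append, SimpleGraph.Walk.reverse_cons,
      ← SimpleGraph.Walk.append_assoc]
    rfl
  · intro z hz
    rw [SimpleGraph.Walk.support_reverse, List.mem_reverse] at hz
    exact e2 z hz

/-! ### The luck -/

/-- The luck of a walk. -/
noncomputable def lw (d : Dr) (τ : Env) {x y : V} (w : grid.Walk x y) : ℝ := d.H (y - x) - cost τ w

theorem H_add (d : Dr) (x y : V) : d.H (x + y) = d.H x + d.H y := by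
  unfold Dr.H
  push_cast [Prod.fst_add, Prod.snd_add]
  ring

theorem H_zero (d : Dr) : d.H 0 = 0 := by
  unfold Dr.H
  simp

theorem lw_nil (d : Dr) (τ : Env) (x : V) : lw d τ (SimpleGraph.Walk.nil : grid.Walk x x) = 0 := by
  unfold lw cost wedges
  simp [H_zero]

theorem lw_append (d : Dr) (τ : Env) {x y z : V} (w1 : grid.Walk x y) (w2 : grid.Walk y z) :
    lw d τ (w1.append w2) = lw d τ w1 + lw d τ w2 := by
  unfold lw
  rw [cost_append]
  have e : z - x = (y - x) + (z - y) := by abel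
  rw [e, H_add]
  ring

variable {F : Fm} {ka : ℝ} {d : Dr}

theorem ka_le (hA : Adm F ka d) : 0 ≤ F.a - ka := by
  have h1 : (1 : ℝ) ≤ F.co.M := by exact_mod_cast F.co.M_pos
  have h2 := hA.loop
  have h3 := abs_nonneg (be F.co d)
  by_contra h
  push Not at h
  nlinarith

theorem H_back (hA : Adm F ka d) {z : V} (hz : F.co.tm z ≤ 0) : d.H z ≤ (F.a - ka) * nm z := by
  have hp0 : (1 : ℝ) ≤ F.co.p := by exact_mod_cast F.co.hp
  have hq0 : (0 : ℝ) ≤ F.co.q := by exact_mod_cast F.co.hq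
  have hl := abs_le.1 hA.loop
  have hk := ka_le hA
  have h1 := hA.h1n
  have h2 := hA.h2n
  have hz' : (F.co.p : ℝ) * z.1 + F.co.q * z.2 ≤ 0 := by
    unfold Co.tm at hz
    exact_mod_cast hz
  unfold be Co.M at hl
  push_cast at hl
  unfold Dr.H nm
  rcases le_or_gt (z.1 : ℝ) 0 with a1 | a1 <;> rcases le_or_gt (z.2 : ℝ) 0 with a2 | a2
  · rw [abs_of_nonpos a1, abs_of_nonpos a2]
    have h3 : d.h1 * z.1 ≤ 0 := mul_nonpos_of_nonneg_of_nonpos h1 a1
    have h4 : d.h2 * z.2 ≤ 0 := mul_nonpos_of_nonneg_of_nonpos h2 a2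
    have h5 : 0 ≤ (F.a - ka) * (-z.1 + -z.2) := mul_nonneg hk (by linarith)
    linarith
  · rw [abs_of_nonpos a1, abs_of_pos a2]
    -- `p |z1| ≥ q z2`
    have h3 : F.co.q * z.2 ≤ F.co.p * (-(z.1 : ℝ)) := by linarith
    have h4 : F.co.p * (d.h1 * z.1 + d.h2 * z.2) ≤ (d.h2 * F.co.p - d.h1 * F.co.q) * z.2 := by
      nlinarith [mul_le_mul_of_nonneg_left h3 h1]
    have h5 : (d.h2 * F.co.p - d.h1 * F.co.q) * z.2 ≤ (F.a - ka) * (F.co.p + F.co.q) * z.2 :=
      mul_le_mul_of_nonneg_right hl.2 a2.le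
    have h6 : (F.a - ka) * (F.co.p + F.co.q) * z.2 ≤ (F.a - ka) * (F.co.p * (-z.1 + z.2)) := by
      have : (F.a - ka) * (F.co.q * z.2) ≤ (F.a - ka) * (F.co.p * (-(z.1 : ℝ))) := mul_le_mul_of_nonneg_left h3 hk
      linarith
    have h7 : F.co.p * (d.h1 * z.1 + d.h2 * z.2) ≤ F.co.p * ((F.a - ka) * (-z.1 + z.2)) := by linarith
    exact le_of_mul_le_mul_left h7 (by linarith)
  · rw [abs_of_pos a1, abs_of_nonpos a2]
    have h3 : F.co.p * (z.1 : ℝ) ≤ F.co.q * (-(z.2 : ℝ)) := by linarith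
    have hq1 : (0 : ℝ) < F.co.q := by
      rcases hq0.lt_or_eq with h | h
      · exact h
      · exfalso
        rw [← h] at h3
        nlinarith
    have h4 : F.co.q * (d.h1 * z.1 + d.h2 * z.2) ≤ -(d.h2 * F.co.p - d.h1 * F.co.q) * z.1 := by
      nlinarith [mul_le_mul_of_nonneg_left h3 h2]
    have h5 : -(d.h2 * F.co.p - d.h1 * F.co.q) * z.1 ≤ (F.a - ka) * (F.co.p + F.co.q) * z.1 :=
      mul_le_mul_of_nonneg_right (by linarith [hl.1]) a1.le
    have h6 : (F.a - ka) * (F.co.p + F.co.q) * z.1 ≤ (F.a - ka) * (F.co.q * (z.1 + -z.2)) := by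
      have : (F.a - ka) * (F.co.p * (z.1 : ℝ)) ≤ (F.a - ka) * (F.co.q * (-(z.2 : ℝ))) := mul_le_mul_of_nonneg_left h3 hk
      linarith
    have h7 : F.co.q * (d.h1 * z.1 + d.h2 * z.2) ≤ F.co.q * ((F.a - ka) * (z.1 + -z.2)) := by linarith
    exact le_of_mul_le_mul_left h7 hq1
  · exfalso
    nlinarith

theorem H_le (hA : Adm F ka d) (z : V) : d.H z ≤ (F.a - ka) * nm z + 2 * F.b * max (F.co.tm z : ℝ) 0 := by
  have hk := ka_le hA
  have hb : 0 ≤ F.b := F.a0.le.trans F.ab
  rcases le_or_gt (F.co.tm z) 0 with h | h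
  · have h1 := H_back hA h
    have h2 : 0 ≤ 2 * F.b * max (F.co.tm z : ℝ) 0 := mul_nonneg (by linarith) (le_max_right _ _)
    linarith
  · have h0 : (0 : ℝ) < F.co.tm z := by exact_mod_cast h
    rw [max_eq_left h0.le]
    set t := F.co.tm z with ht
    set z' : V := z - (t, 0) with hz'
    have e1 : z = z' + (t, 0) := by rw [hz']; abel
    have hp := F.co.hp
    have h1 : F.co.tm z' ≤ 0 := by
      rw [hz', Co.tm_sub, ← ht]
      have : F.co.tm (t, 0) = F.co.p * t := by unfold Co.tm; simp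
      rw [this]
      nlinarith
    have h2 := H_back hA h1
    have h3 : d.H z = d.H z' + d.h1 * t := by
      rw [e1, H_add]
      congr 1
      unfold Dr.H
      simp
    have h4 : nm z' ≤ nm z + t := by
      have h5 := nm_add_le z (-((t, 0) : V))
      rw [nm_neg, ← sub_eq_add_neg] at h5
      have h6 : nm ((t, 0) : V) = t := by
        unfold nm
        simp only
        rw [abs_of_pos h0]
        simp
      rw [h6] at h5
      exact h5
    have h5 : (F.a - ka) * nm z' ≤ (F.a - ka) * (nm z + t) := mul_le_mul_of_nonneg_left h4 hk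
    have h6 : d.h1 * t ≤ F.b * t := mul_le_mul_of_nonneg_right hA.h1b h0.le
    have h7 : (F.a - ka) * t ≤ F.b * t := mul_le_mul_of_nonneg_right (by linarith [F.ab, hA.κ0]) h0.le
    rw [h3]
    linarith

/-- The luck of a walk is at most `2 b` times the height gained minus `κ` times the length. -/
theorem lw_le (hA : Adm F ka d) {τ : Env} (hτ : Bd F.a F.b τ) {x y : V} (w : grid.Walk x y) :
    lw d τ w ≤ 2 * F.b * max (F.co.tm (y - x) : ℝ) 0 - ka * w.length := by
  have h1 := H_le hA (y - x)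
  have h2 := le_cost hτ w
  have h3 := mul_le_mul_of_nonneg_left (nm_le_length w) (ka_le hA)
  unfold lw
  nlinarith

/-! ### The lateral coordinate -/

/-- The lateral coordinate. -/
noncomputable def kp (c : Co) (v : ℝ) (z : V) : ℝ := c.ps z - v / c.L * c.tm z

/-- The Lipschitz constant of the lateral coordinate. -/
noncomputable def Dk (c : Co) (v : ℝ) : ℝ := c.R + |v|

theorem kp_add (c : Co) (v : ℝ) (x y : V) : kp c v (x + y) = kp c v x + kp c v y := by
  unfold kp
  rw [Co.ps_add, Co.tm_add]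
  push_cast
  ring

theorem kp_sub (c : Co) (v : ℝ) (x y : V) : kp c v (x - y) = kp c v x - kp c v y := by
  unfold kp
  rw [Co.ps_sub, Co.tm_sub]
  push_cast
  ring

theorem Dk_one (c : Co) (v : ℝ) : 1 ≤ Dk c v := by
  have h1 : (1 : ℝ) ≤ c.R := by exact_mod_cast c.R_pos
  unfold Dk
  linarith [abs_nonneg v]

theorem kp_le (c : Co) (v : ℝ) (z : V) : |kp c v z| ≤ Dk c v * nm z := by
  have h1 := c.abs_ps_le z
  have h2 := c.abs_tm_le z
  have hL : (0 : ℝ) < c.L := by exact_mod_cast (by have := c.L_pos; omega : (0 : ℤ) < c.L)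
  have hLM : (c.M : ℝ) ≤ c.L := by
    have := c.L_eq
    exact_mod_cast (by omega : c.M ≤ c.L)
  have hn := nm_nonneg z
  unfold kp Dk
  refine (abs_sub _ _).trans ?_
  rw [abs_mul, abs_div, abs_of_pos hL]
  have h3 : |v| / c.L * |(c.tm z : ℝ)| ≤ |v| * nm z := by
    rw [div_mul_eq_mul_div, div_le_iff₀ hL, mul_assoc]
    refine mul_le_mul_of_nonneg_left (h2.trans ?_) (abs_nonneg v)
    rw [mul_comm]
    exact mul_le_mul_of_nonneg_left hLM hn
  linarith

/-- The price of a lateral unit. -/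
noncomputable def de (F : Fm) (d : Dr) (ka : ℝ) : ℝ := ka / Dk F.co d.v

theorem de_pos (hA : Adm F ka d) : 0 < de F d ka := div_pos hA.κ0 (lt_of_lt_of_le one_pos (Dk_one _ _))

/-- The luck of a walk which gains the height `t` at the most. -/
theorem lw_lat (hA : Adm F ka d) {τ : Env} (hτ : Bd F.a F.b τ) {x y : V} (w : grid.Walk x y) {t : ℝ} (ht : 0 ≤ t)
    (h : (F.co.tm y : ℝ) ≤ F.co.tm x + t) : lw d τ w ≤ 2 * F.b * t - de F d ka * |kp F.co d.v y - kp F.co d.v x| := by
  have h1 := lw_le hA hτ w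
  have hb : 0 ≤ F.b := F.a0.le.trans F.ab
  have hD := Dk_one F.co d.v
  have h2 : max (F.co.tm (y - x) : ℝ) 0 ≤ t := by
    refine max_le ?_ ht
    rw [Co.tm_sub]
    push_cast
    linarith
  have h3 : 2 * F.b * max (F.co.tm (y - x) : ℝ) 0 ≤ 2 * F.b * t := mul_le_mul_of_nonneg_left h2 (by linarith)
  have h4 : de F d ka * |kp F.co d.v y - kp F.co d.v x| ≤ ka * w.length := by
    rw [← kp_sub]
    have h5 : |kp F.co d.v (y - x)| ≤ Dk F.co d.v * w.length :=
      (kp_le _ _ _).trans (mul_le_mul_of_nonneg_left (nm_le_length w) (by linarith))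
    have h6 := mul_le_mul_of_nonneg_left h5 (de_pos hA).le
    refine h6.trans (le_of_eq ?_)
    unfold de
    field_simp
  linarith

/-! ### Edges and levels -/

/-- The walks with all edges between two levels. -/
def inE (c : Co) (i j : ℤ) {x y : V} (w : grid.Walk x y) : Prop := ∀ e ∈ wedges w, e ∈ c.EI i j

theorem inE_append {c : Co} {i j : ℤ} {x y z : V} {w1 : grid.Walk x y} {w2 : grid.Walk y z} :
    inE c i j (w1.append w2) ↔ inE c i j w1 ∧ inE c i j w2 := by
  unfold inE
  rw [wedges_append]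
  constructor
  · intro h
    exact ⟨fun e he => h e (List.mem_append_left _ he), fun e he => h e (List.mem_append_right _ he)⟩
  · rintro ⟨h1, h2⟩ e he
    rw [List.mem_append] at he
    exact he.elim (h1 e) (h2 e)

theorem wedges_cons {x y z : V} (h : grid.Adj x y) (w : grid.Walk y z) :
    wedges (SimpleGraph.Walk.cons h w) = ke s(x, y) :: wedges w := by
  unfold wedges
  rw [SimpleGraph.Walk.edges_cons, List.map_cons]

theorem inE_cons {c : Co} {i j : ℤ} {x y z : V} {h : grid.Adj x y} {w : grid.Walk y z} :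
    inE c i j (SimpleGraph.Walk.cons h w) ↔ ke s(x, y) ∈ c.EI i j ∧ inE c i j w := by
  unfold inE
  rw [wedges_cons]
  simp only [List.mem_cons, forall_eq_or_imp]

theorem inE_nil {c : Co} {i j : ℤ} {x : V} : inE c i j (SimpleGraph.Walk.nil : grid.Walk x x) := by
  intro e he
  simp [wedges] at he

theorem inE_mono {c : Co} {i j i' j' : ℤ} (h1 : i' ≤ i) (h2 : j ≤ j') {x y : V} {w : grid.Walk x y} (h : inE c i j w) :
    inE c i' j' w := fun e he => by
  obtain ⟨h3, h4⟩ := h e he
  exact ⟨h1.trans h3, h4.trans_le h2⟩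

/-- The time of the edge of a step is the smaller one of the two times. -/
theorem tm_ke (c : Co) {x y : V} (h : grid.Adj x y) : c.tm (ke s(x, y)).1 = min (c.tm x) (c.tm y) := by
  obtain ⟨s, hs | hs⟩ := h
  · rw [hs, ke_dir]
    have := c.tm_dir_nonneg s
    rw [Co.tm_add, min_eq_left (by omega)]
  · rw [hs, ke_dir']
    have := c.tm_dir_nonneg s
    rw [Co.tm_add, min_eq_right (by omega)]

/-- Walks of high vertices have high edges. -/
theorem inE_high {c : Co} {i j m : ℤ} {x y : V} {w : grid.Walk x y} (h : inE c i j w) (hm : ∀ z ∈ w.support, m ≤ c.tm z) :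
    inE c m j w := by
  intro e he
  obtain ⟨h1, h2⟩ := h e he
  obtain ⟨g1, g2⟩ := wedges_support w he
  exact ⟨hm _ g1, h2⟩

/-- Walks of low vertices have low edges. -/
theorem inE_low {c : Co} {i j m : ℤ} {x y : V} {w : grid.Walk x y} (h : inE c i j w) (hm : ∀ z ∈ w.support, c.tm z < m) :
    inE c i m w := by
  intro e he
  obtain ⟨h1, h2⟩ := h e he
  obtain ⟨g1, g2⟩ := wedges_support w he
  exact ⟨h1, hm _ g1⟩

/-- The times of the vertices of a walk. -/
theorem inE_tm {c : Co} {i j : ℤ} {x y : V} {w : grid.Walk x y} (h : inE c i j w) (hx : i ≤ c.tm x ∧ c.tm x < j + c.M) :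
    ∀ z ∈ w.support, i ≤ c.tm z ∧ c.tm z < j + c.M := by
  induction w with
  | nil =>
    intro z hz
    rw [SimpleGraph.Walk.support_nil, List.mem_singleton] at hz
    rw [hz]
    exact hx
  | @cons x v y hadj w ih =>
    rw [inE_cons] at h
    obtain ⟨⟨h1, h2⟩, h3⟩ := h
    rw [tm_ke c hadj] at h1 h2
    have h4 := tm_adj c hadj
    intro z hz
    rw [SimpleGraph.Walk.support_cons, List.mem_cons] at hz
    rcases hz with rfl | hz
    · exact hx
    · refine ih h3 ⟨h1.trans (min_le_right _ _), ?_⟩ z hz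
      rcases min_choice (c.tm x) (c.tm v) with h5 | h5 <;> omega

end Pool.Agent.W_1b8d5d_p.El0
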