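import Pool.Agent.W_1b8d5d_p.ElA

/-!
TRACK P, (EL) at zero temperature (proofs row 632): families of walks, the luck in a strip, the weights to a target. helper67.
-/

set_option autoImplicit false

namespace Pool.Agent.W_1b8d5d_p.El0

open MeasureTheory Set
open Pool.Agent.W_1b8d5d_h85
open Pool.Agent.W_1b8d5d_p

/-- A walk with its end points. -/
abbrev WW := Σ p : V × V, grid.Walk p.1 p.2

variable {F : Fm} {ka : ℝ} {d : Dr}

/-- The lateral coordinate of the direction. -/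
noncomputable def kq (F : Fm) (d : Dr) (z : V) : ℝ := kp F.co d.v z

/-- The constant of an overshoot. -/
noncomputable def C1 (F : Fm) : ℝ := 2 * F.b * F.co.M

theorem C1_nonneg (F : Fm) : 0 ≤ C1 F := by
  have hb : 0 ≤ F.b := F.a0.le.trans F.ab
  have h1 : (1 : ℝ) ≤ F.co.M := by exact_mod_cast F.co.M_pos
  unfold C1
  positivity

/-- The walks between the levels `i` and `j` in the strip of half width `S` around `x`. -/
def wS (F : Fm) (d : Dr) (i j : ℤ) (S x : ℝ) : Set WW :=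
  {W | inE F.co i j W.2 ∧ ∀ z ∈ W.2.support, |kq F d z - x| ≤ S}

/-- The walks between the levels `i` and `j` to the target. -/
def wT (F : Fm) (i j : ℤ) (Tg : Set V) : Set WW := {W | inE F.co i j W.2 ∧ W.1.2 ∈ Tg}

/-- The best luck of a family. -/
noncomputable def LS (d : Dr) (A : Set WW) (τ : Env) : ℝ := ⨆ W : A, lw d τ W.1.2

/-- The luck in the strip (with one overshoot). -/
noncomputable def Ms (F : Fm) (d : Dr) (i j : ℤ) (S x : ℝ) (τ : Env) : ℝ := C1 F + LS d (wS F d i j S x) τ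

/-- The weight of the best start in the cell of half width `r0` around `x`. -/
noncomputable def gw (F : Fm) (d : Dr) (i j : ℤ) (Tg : Set V) (r0 x : ℝ) (τ : Env) : ℝ :=
  ⨆ W : {W : WW // W ∈ wT F i j Tg ∧ |kq F d W.1.1 - x| ≤ r0}, Real.exp (lw d τ W.1.2)

/-- The smeared weight. -/
noncomputable def gsw (F : Fm) (d : Dr) (ka : ℝ) (i j : ℤ) (Tg : Set V) (r0 x : ℝ) (τ : Env) : ℝ :=
  ⨆ W : wT F i j Tg, Real.exp (lw d τ W.1.2 - de F d ka * max (|kq F d W.1.1.1 - x| - r0) 0)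

/-- A luck `≥ B` in the strip is completed at the level `j`. -/
def HBs (F : Fm) (d : Dr) (i j : ℤ) (S B x : ℝ) (τ : Env) : Prop :=
  ∃ W ∈ wS F d i j S x, j ≤ F.co.tm W.1.2 ∧ B ≤ lw d τ W.2

/-- A cheap walk from the core of the strip towards its boundary is completed at the level `j`. -/
def HEs (F : Fm) (d : Dr) (ka : ℝ) (i j : ℤ) (S r0 B0 x : ℝ) (τ : Env) : Prop :=
  ∃ W ∈ wS F d i j S x, |kq F d W.1.1 - x| ≤ r0 ∧ j ≤ F.co.tm W.1.2 ∧
    -B0 ≤ lw d τ W.2 - de F d ka * (S - |kq F d W.1.2 - x|)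

/-! ### Height gains and bounds -/

theorem inE_gain {c : Co} {i j : ℤ} (hij : i ≤ j) {x y : V} {w : grid.Walk x y} (h : inE c i j w) :
    c.tm y ≤ c.tm x + (j - i) + c.M := by
  have hM := c.M_pos
  cases w with
  | nil => omega
  | @cons _ v _ hadj w =>
    have h0 := h
    rw [inE_cons] at h
    obtain ⟨⟨h1, h2⟩, h3⟩ := h
    rw [tm_ke c hadj] at h1 h2
    have h4 := tm_adj c hadj
    have h5 : i ≤ c.tm x := h1.trans (min_le_left _ _)
    have h6 : c.tm x < j + c.M := by rcases min_choice (c.tm x) (c.tm v) with h5 | h5 <;> omega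
    have h7 := inE_tm h0 ⟨h5, h6⟩ y (SimpleGraph.Walk.end_mem_support _)
    omega

/-- The bound of the luck between two levels at the distance `N`. -/
noncomputable def K0 (F : Fm) (N : ℕ) : ℝ := 2 * F.b * (N + F.co.M)

theorem K0_nonneg (F : Fm) (N : ℕ) : 0 ≤ K0 F N := by
  have hb : 0 ≤ F.b := F.a0.le.trans F.ab
  have h1 : (1 : ℝ) ≤ F.co.M := by exact_mod_cast F.co.M_pos
  unfold K0
  positivity

theorem lw_bd (hA : Adm F ka d) {τ : Env} (hτ : Bd F.a F.b τ) {i j : ℤ} {N : ℕ} (hij : i ≤ j) (hN : j - i ≤ N) {x y : V}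
    {w : grid.Walk x y} (h : inE F.co i j w) : lw d τ w ≤ K0 F N := by
  have h1 := inE_gain hij h
  have hM : (1 : ℝ) ≤ F.co.M := by exact_mod_cast F.co.M_pos
  have h2 : (F.co.tm y : ℝ) ≤ F.co.tm x + ((N : ℝ) + F.co.M) := by
    have : F.co.tm y ≤ F.co.tm x + ((N : ℤ) + F.co.M) := by omega
    exact_mod_cast this
  have h3 := lw_lat hA hτ w (by positivity) h2
  have h4 : 0 ≤ de F d ka * |kp F.co d.v y - kp F.co d.v x| := mul_nonneg (de_pos hA).le (abs_nonneg _)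
  unfold K0
  linarith

theorem inE_empty {c : Co} {i j : ℤ} (hij : j ≤ i) {x y : V} {w : grid.Walk x y} (h : inE c i j w) :
    wedges w = [] := by
  by_contra h0
  obtain ⟨e, he⟩ := List.exists_mem_of_ne_nil _ h0
  obtain ⟨h1, h2⟩ := h e he
  omega

theorem lw_bd' (hA : Adm F ka d) {τ : Env} (hτ : Bd F.a F.b τ) {i j : ℤ} {N : ℕ} (hN : j - i ≤ N) {x y : V}
    {w : grid.Walk x y} (h : inE F.co i j w) : lw d τ w ≤ K0 F N := by
  rcases le_total i j with hij | hij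
  · exact lw_bd hA hτ hij hN h
  · refine lw_bd hA hτ (le_refl i) (by simp) (w := w) ?_
    intro e he
    rw [inE_empty hij h] at he
    simp at he

theorem LS_bdd (hA : Adm F ka d) {τ : Env} (hτ : Bd F.a F.b τ) {i j : ℤ} {N : ℕ} (hN : j - i ≤ N) {A : Set WW}
    (hAA : ∀ W ∈ A, inE F.co i j W.2) : BddAbove (Set.range fun W : A => lw d τ W.1.2) := by
  refine ⟨K0 F N, ?_⟩
  rintro r ⟨W, rfl⟩
  exact lw_bd' hA hτ hN (hAA W.1 W.2)

theorem LS_ge (hA : Adm F ka d) {τ : Env} (hτ : Bd F.a F.b τ) {i j : ℤ} {N : ℕ} (hN : j - i ≤ N) {A : Set WW}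
    (hAA : ∀ W ∈ A, inE F.co i j W.2) {W : WW} (hW : W ∈ A) : lw d τ W.2 ≤ LS d A τ :=
  le_ciSup (LS_bdd hA hτ hN hAA) (⟨W, hW⟩ : A)

/-- The luck in the strip is nonnegative: the trivial walk. -/
theorem LS_nonneg (hA : Adm F ka d) {τ : Env} (hτ : Bd F.a F.b τ) (i j : ℤ) (S x : ℝ) :
    0 ≤ LS d (wS F d i j S x) τ := by
  by_cases h : Nonempty (wS F d i j S x)
  · obtain ⟨⟨W, hW⟩⟩ := h
    have h1 : (⟨(W.1.1, W.1.1), SimpleGraph.Walk.nil⟩ : WW) ∈ wS F d i j S x := by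
      refine ⟨inE_nil, ?_⟩
      intro z hz
      simp only [SimpleGraph.Walk.support_nil, List.mem_singleton] at hz
      rw [hz]
      exact hW.2 _ W.2.start_mem_support
    have h2 := LS_ge hA hτ (N := (j - i).toNat) (Int.self_le_toNat _) (fun W hW => hW.1) h1
    simp only at h2
    rwa [lw_nil] at h2
  · rw [not_nonempty_iff] at h
    unfold LS
    rw [Real.iSup_of_isEmpty]

theorem Ms_ge (hA : Adm F ka d) {τ : Env} (hτ : Bd F.a F.b τ) {i j : ℤ} {S x : ℝ} {u y : V} {w : grid.Walk u y}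
    (h1 : inE F.co i j w) (h2 : ∀ z ∈ w.support, |kq F d z - x| ≤ S) : C1 F + lw d τ w ≤ Ms F d i j S x τ := by
  have h := LS_ge hA hτ (N := (j - i).toNat) (Int.self_le_toNat _) (A := wS F d i j S x) (fun W hW => hW.1)
    (W := ⟨(u, y), w⟩) ⟨h1, h2⟩
  unfold Ms
  linarith

theorem Ms_nonneg (hA : Adm F ka d) {τ : Env} (hτ : Bd F.a F.b τ) (i j : ℤ) (S x : ℝ) : 0 ≤ Ms F d i j S x τ := by
  have := LS_nonneg hA hτ i j S x
  have := C1_nonneg F
  unfold Ms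
  linarith

theorem Ms_le {τ : Env} {i j : ℤ} {S x r : ℝ} (hr : 0 ≤ r)
    (h : ∀ (u y : V) (w : grid.Walk u y), inE F.co i j w → (∀ z ∈ w.support, |kq F d z - x| ≤ S) → lw d τ w ≤ r) :
    Ms F d i j S x τ ≤ C1 F + r := by
  unfold Ms LS
  refine add_le_add le_rfl (Real.iSup_le ?_ hr)
  rintro ⟨⟨⟨u, y⟩, w⟩, hW⟩
  exact h u y w hW.1 hW.2

theorem Ms_mono (hA : Adm F ka d) {τ : Env} (hτ : Bd F.a F.b τ) {i j i' j' : ℤ} (h1 : i' ≤ i) (h2 : j ≤ j') (S x : ℝ) :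
    Ms F d i j S x τ ≤ Ms F d i' j' S x τ := by
  have h0 := Ms_le (F := F) (d := d) (τ := τ) (i := i) (j := j) (S := S) (x := x) (r := Ms F d i' j' S x τ - C1 F)
    (by have := LS_nonneg hA hτ i' j' S x; unfold Ms; linarith) (fun u y w hw hs => by
      have := Ms_ge hA hτ (inE_mono h1 h2 hw) hs
      linarith)
  linarith

theorem Ms_K (hA : Adm F ka d) {τ : Env} (hτ : Bd F.a F.b τ) {i j : ℤ} {N : ℕ} (hN : j - i ≤ N) (S x : ℝ) :
    |Ms F d i j S x τ| ≤ C1 F + K0 F N := by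
  rw [abs_of_nonneg (Ms_nonneg hA hτ i j S x)]
  exact Ms_le (K0_nonneg F N) fun u y w hw _ => lw_bd' hA hτ hN hw

/-! ### The weights -/

theorem gw_nonneg (i j : ℤ) (Tg : Set V) (r0 x : ℝ) (τ : Env) : 0 ≤ gw F d i j Tg r0 x τ :=
  Real.iSup_nonneg fun _ => (Real.exp_pos _).le

theorem gsw_nonneg (i j : ℤ) (Tg : Set V) (r0 x : ℝ) (τ : Env) : 0 ≤ gsw F d ka i j Tg r0 x τ :=
  Real.iSup_nonneg fun _ => (Real.exp_pos _).le

theorem gw_K (hA : Adm F ka d) {τ : Env} (hτ : Bd F.a F.b τ) {i j : ℤ} {N : ℕ} (hN : j - i ≤ N) (Tg : Set V) (r0 x : ℝ) :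
    gw F d i j Tg r0 x τ ≤ Real.exp (K0 F N) :=
  Real.iSup_le (fun W => Real.exp_le_exp.2 (lw_bd' hA hτ hN W.2.1.1)) (Real.exp_pos _).le

theorem pen_nonneg (hA : Adm F ka d) (u : V) (r0 x : ℝ) : 0 ≤ de F d ka * max (|kq F d u - x| - r0) 0 :=
  mul_nonneg (de_pos hA).le (le_max_right _ _)

theorem gsw_K (hA : Adm F ka d) {τ : Env} (hτ : Bd F.a F.b τ) {i j : ℤ} {N : ℕ} (hN : j - i ≤ N) (Tg : Set V) (r0 x : ℝ) :
    gsw F d ka i j Tg r0 x τ ≤ Real.exp (K0 F N) :=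
  Real.iSup_le (fun W => Real.exp_le_exp.2 (by
    have h1 := lw_bd' hA hτ hN W.2.1
    have h2 := pen_nonneg hA W.1.1.1 r0 x
    linarith)) (Real.exp_pos _).le

theorem gsw_ge (hA : Adm F ka d) {τ : Env} (hτ : Bd F.a F.b τ) {i j : ℤ} {Tg : Set V} (r0 x : ℝ) {u y : V}
    {w : grid.Walk u y} (hw : inE F.co i j w) (hy : y ∈ Tg) :
    Real.exp (lw d τ w - de F d ka * max (|kq F d u - x| - r0) 0) ≤ gsw F d ka i j Tg r0 x τ := by
  have h1 : BddAbove (Set.range fun W : wT F i j Tg =>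
      Real.exp (lw d τ W.1.2 - de F d ka * max (|kq F d W.1.1.1 - x| - r0) 0)) := by
    refine ⟨Real.exp (K0 F (j - i).toNat), ?_⟩
    rintro r ⟨W, rfl⟩
    refine Real.exp_le_exp.2 ?_
    have h1 := lw_bd' hA hτ (N := (j - i).toNat) (Int.self_le_toNat _) W.2.1
    have h2 := pen_nonneg hA W.1.1.1 r0 x
    linarith
  exact le_ciSup h1 (⟨⟨(u, y), w⟩, hw, hy⟩ : wT F i j Tg)

theorem gw_ge (hA : Adm F ka d) {τ : Env} (hτ : Bd F.a F.b τ) {i j : ℤ} {Tg : Set V} {r0 x : ℝ} {u y : V}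
    {w : grid.Walk u y} (hw : inE F.co i j w) (hy : y ∈ Tg) (hu : |kq F d u - x| ≤ r0) :
    Real.exp (lw d τ w) ≤ gw F d i j Tg r0 x τ := by
  have h1 : BddAbove (Set.range fun W : {W : WW // W ∈ wT F i j Tg ∧ |kq F d W.1.1 - x| ≤ r0} =>
      Real.exp (lw d τ W.1.2)) := by
    refine ⟨Real.exp (K0 F (j - i).toNat), ?_⟩
    rintro r ⟨W, rfl⟩
    exact Real.exp_le_exp.2 (lw_bd' hA hτ (N := (j - i).toNat) (Int.self_le_toNat _) W.2.1.1)
  exact le_ciSup h1 (⟨⟨(u, y), w⟩, ⟨hw, hy⟩, hu⟩ : {W : WW // W ∈ wT F i j Tg ∧ |kq F d W.1.1 - x| ≤ r0})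

theorem gsw_mono (hA : Adm F ka d) {τ : Env} (hτ : Bd F.a F.b τ) {i j i' j' : ℤ} (h1 : i' ≤ i) (h2 : j ≤ j') (Tg : Set V)
    (r0 x : ℝ) : gsw F d ka i j Tg r0 x τ ≤ gsw F d ka i' j' Tg r0 x τ := by
  refine Real.iSup_le ?_ (gsw_nonneg _ _ _ _ _ _)
  rintro ⟨⟨⟨u, y⟩, w⟩, hW⟩
  exact gsw_ge hA hτ r0 x (inE_mono h1 h2 hW.1) hW.2

end Pool.Agent.W_1b8d5d_p.El0
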