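import Pool.Agent.W_1b8d5d_p.ElB

/-!
TRACK P, (EL) at zero temperature (proofs row 632): the cuts, the restart of the strip. helper67.
-/

set_option autoImplicit false

namespace Pool.Agent.W_1b8d5d_p.El0

open MeasureTheory Set
open Pool.Agent.W_1b8d5d_h85
open Pool.Agent.W_1b8d5d_p

variable {F : Fm} {ka : ℝ} {d : Dr}

/-- First passage of the level `m`. -/
theorem pass {c : Co} {i j m : ℤ} {x y : V} (w : grid.Walk x y) (h : inE c i j w) (hx : c.tm x < m)
    (hm : ∃ z ∈ w.support, m ≤ c.tm z) : ∃ (u v : V) (w0 : grid.Walk x u) (h0 : grid.Adj u v) (w2 : grid.Walk v y),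
      w = w0.append (SimpleGraph.Walk.cons h0 w2) ∧ inE c i m (w0.append (SimpleGraph.Walk.cons h0 .nil)) ∧
      inE c i j w0 ∧ inE c i j w2 ∧ m ≤ c.tm v ∧ ∀ z ∈ w0.support, c.tm z < m := by
  obtain ⟨u, v, w0, h0, w2, e1, e2, e3⟩ := first_step (fun z => m ≤ c.tm z) w (by simpa using hx) hm
  have e2' : ∀ z ∈ w0.support, c.tm z < m := fun z hz => not_le.1 (e2 z hz)
  rw [e1, inE_append, inE_cons] at h
  obtain ⟨h1, h2, h3⟩ := h
  refine ⟨u, v, w0, h0, w2, e1, ?_, h1, h3, e3, e2'⟩
  rw [inE_append, inE_cons]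
  refine ⟨inE_low h1 e2', ⟨h2.1, ?_⟩, inE_nil⟩
  rw [tm_ke c h0]
  exact (min_le_left _ _).trans_lt (e2' u w0.end_mem_support)

/-- The piece behind the last visit below the level `m`. -/
theorem tail {c : Co} {i j m : ℤ} {v y : V} (w : grid.Walk v y) (h : inE c i j w) (hv : m ≤ c.tm v) (hy : m ≤ c.tm y) :
    ∃ (v' : V) (w3 : grid.Walk v v') (w4 : grid.Walk v' y), w = w3.append w4 ∧ inE c m j w4 ∧ c.tm v' ≤ c.tm v + c.M := by
  have hM := c.M_pos
  by_cases hl : ∀ z ∈ w.support, m ≤ c.tm z
  · exact ⟨v, .nil, w, by simp, inE_high h hl, by omega⟩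
  · push Not at hl
    obtain ⟨u', v', w3, h0, w4, e1, e2, e3⟩ := last_step (fun z => c.tm z < m) w (by simpa using hy) hl
    refine ⟨v', w3.append (SimpleGraph.Walk.cons h0 .nil), w4, ?_, ?_, ?_⟩
    · rw [e1, ← SimpleGraph.Walk.append_assoc]
      rfl
    · rw [e1, inE_append, inE_cons] at h
      exact inE_high h.2.2 fun z hz => not_lt.1 (e3 z hz)
    · have := (tm_adj c h0).1
      omega

theorem supp_left {x u v y : V} {w0 : grid.Walk x u} {h0 : grid.Adj u v} {w2 : grid.Walk v y} {z : V}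
    (hz : z ∈ (w0.append (SimpleGraph.Walk.cons h0 .nil)).support) :
    z ∈ (w0.append (SimpleGraph.Walk.cons h0 w2)).support := by
  rw [SimpleGraph.Walk.mem_support_append_iff, SimpleGraph.Walk.support_cons, List.mem_cons,
    SimpleGraph.Walk.support_nil, List.mem_singleton] at hz
  rw [SimpleGraph.Walk.mem_support_append_iff, SimpleGraph.Walk.support_cons, List.mem_cons]
  rcases hz with hz | hz | hz
  · exact Or.inl hz
  · exact Or.inr (Or.inl hz)
  · exact Or.inr (Or.inr (hz ▸ w2.start_mem_support))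

theorem supp_right {x u v y : V} {w0 : grid.Walk x u} {h0 : grid.Adj u v} {w2 : grid.Walk v y} {z : V}
    (hz : z ∈ w2.support) : z ∈ (w0.append (SimpleGraph.Walk.cons h0 w2)).support := by
  rw [SimpleGraph.Walk.mem_support_append_iff, SimpleGraph.Walk.support_cons, List.mem_cons]
  exact Or.inr (Or.inr hz)

theorem supp_w0 {x u v y : V} {w0 : grid.Walk x u} {h0 : grid.Adj u v} {w2 : grid.Walk v y} {z : V}
    (hz : z ∈ w0.support) : z ∈ (w0.append (SimpleGraph.Walk.cons h0 w2)).support := by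
  rw [SimpleGraph.Walk.mem_support_append_iff]
  exact Or.inl hz

/-- The luck of a walk that does not gain height. -/
theorem lw_down (hA : Adm F ka d) {τ : Env} (hτ : Bd F.a F.b τ) {x y : V} (w : grid.Walk x y)
    (h : F.co.tm y ≤ F.co.tm x) : lw d τ w ≤ 0 := by
  have h1 := lw_lat hA hτ w (le_refl (0 : ℝ)) (by rw [add_zero]; exact_mod_cast h)
  have h2 : 0 ≤ de F d ka * |kp F.co d.v y - kp F.co d.v x| := mul_nonneg (de_pos hA).le (abs_nonneg _)
  linarith

/-- The luck of a walk that gains at most one overshoot. -/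
theorem lw_over (hA : Adm F ka d) {τ : Env} (hτ : Bd F.a F.b τ) {x y : V} (w : grid.Walk x y)
    (h : F.co.tm y ≤ F.co.tm x + F.co.M) : lw d τ w ≤ C1 F - de F d ka * |kq F d y - kq F d x| := by
  have hM : (1 : ℝ) ≤ F.co.M := by exact_mod_cast F.co.M_pos
  exact lw_lat hA hτ w (t := F.co.M) (by linarith) (by exact_mod_cast h)

theorem lw_over' (hA : Adm F ka d) {τ : Env} (hτ : Bd F.a F.b τ) {x y : V} (w : grid.Walk x y)
    (h : F.co.tm y ≤ F.co.tm x + F.co.M) : lw d τ w ≤ C1 F := by
  have h1 := lw_over hA hτ w h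
  have h2 : 0 ≤ de F d ka * |kq F d y - kq F d x| := mul_nonneg (de_pos hA).le (abs_nonneg _)
  linarith

/-- **(D1)** No completion below the level `s + m`: the walks below this level have luck `≤ B`. -/
theorem low_le (hA : Adm F ka d) {τ : Env} (hτ : Bd F.a F.b τ) {s j : ℤ} {m : ℕ} {S B x : ℝ} (hB : 0 ≤ B)
    (hno : ∀ m' < m, ¬ HBs F d s (s + (m' : ℕ)) S B x τ) {u y : V} (w : grid.Walk u y) (hw : inE F.co s j w)
    (hs : ∀ z ∈ w.support, |kq F d z - x| ≤ S) (hl : ∀ z ∈ w.support, F.co.tm z < s + m) : lw d τ w ≤ B := by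
  classical
  -- the highest vertex
  obtain ⟨p, hp, hmax⟩ := w.support.toFinset.exists_max_image F.co.tm
    ⟨u, List.mem_toFinset.2 w.start_mem_support⟩
  rw [List.mem_toFinset] at hp
  have hmax' : ∀ z ∈ w.support, F.co.tm z ≤ F.co.tm p := fun z hz => hmax z (List.mem_toFinset.2 hz)
  rcases le_or_gt (F.co.tm p) (F.co.tm u) with h1 | h1
  · exact (lw_down hA hτ w ((hmax' y w.end_mem_support).trans h1)).trans hB
  · obtain ⟨u', v', w0, h0, w2, e1, e2, e3, e4, e5, e6⟩ := pass w hw h1 ⟨p, hp, le_rfl⟩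
    -- the start is above `s`
    have hsu : s < F.co.tm p := by
      cases w with
      | nil =>
        rw [SimpleGraph.Walk.support_nil, List.mem_singleton] at hp
        rw [hp] at h1
        exact absurd h1 (lt_irrefl _)
      | @cons _ v1 _ hadj w1 =>
        rw [inE_cons] at hw
        have h2 := hw.1.1
        rw [tm_ke F.co hadj] at h2
        have h3 : s ≤ F.co.tm u := h2.trans (min_le_left _ _)
        omega
    obtain ⟨m', hm'⟩ : ∃ m' : ℕ, s + (m' : ℤ) = F.co.tm p := ⟨(F.co.tm p - s).toNat, by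
      rw [Int.toNat_of_nonneg (by omega)]; omega⟩
    have hlt : m' < m := by
      have := hl p hp
      omega
    have h2 : lw d τ (w0.append (SimpleGraph.Walk.cons h0 .nil)) < B := by
      by_contra h
      push Not at h
      refine hno m' hlt ⟨⟨(u, v'), w0.append (SimpleGraph.Walk.cons h0 .nil)⟩, ⟨?_, ?_⟩, ?_, h⟩
      · rw [hm']
        exact e2
      · intro z hz
        refine hs z ?_
        rw [e1]
        exact supp_left hz
      · rw [hm']
        exact e5
    have h3 : lw d τ w2 ≤ 0 := lw_down hA hτ w2 ((hmax' y w.end_mem_support).trans e5)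
    have h4 : lw d τ w = lw d τ (w0.append (SimpleGraph.Walk.cons h0 .nil)) + lw d τ w2 := by
      rw [← lw_append, e1, ← SimpleGraph.Walk.append_assoc]
      rfl
    linarith

/-- **(hfree)** -/
theorem free_le (hA : Adm F ka d) {τ : Env} (hτ : Bd F.a F.b τ) {s : ℤ} {N : ℕ} {S B x : ℝ} (hB : 0 ≤ B)
    (hno : ∀ m ≤ N, ¬ HBs F d s (s + (m : ℕ)) S B x τ) : Ms F d s (s + N) S x τ ≤ B + 2 * C1 F := by
  have hC := C1_nonneg F
  have hM := F.co.M_pos
  have h0 := Ms_le (F := F) (d := d) (τ := τ) (i := s) (j := s + N) (S := S) (x := x) (r := B + C1 F) (by linarith) ?_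
  · linarith
  intro u y w hw hs
  by_cases hl : ∀ z ∈ w.support, F.co.tm z < s + N
  · have := low_le hA hτ hB (fun m' hm' => hno m' hm'.le) w hw hs hl
    linarith
  · push Not at hl
    rcases le_or_gt (s + (N : ℤ)) (F.co.tm u) with h1 | h1
    · have h2 : F.co.tm y ≤ F.co.tm u + F.co.M := by
        cases w with
        | nil => omega
        | @cons _ v1 _ hadj w1 =>
          have h0 := hw
          rw [inE_cons] at hw
          have h2 := hw.1
          unfold Co.EI at h2
          simp only [Set.mem_setOf_eq] at h2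
          rw [tm_ke F.co hadj] at h2
          have h4 := tm_adj F.co hadj
          have h5 : F.co.tm u < s + N + F.co.M := by rcases min_choice (F.co.tm u) (F.co.tm v1) with h5 | h5 <;> omega
          have h6 := (inE_tm h0 ⟨h2.1.trans (min_le_left _ _), h5⟩ y (SimpleGraph.Walk.end_mem_support _)).2
          omega
      have := lw_over' hA hτ w h2
      linarith
    · obtain ⟨u', v', w0, h0, w2, e1, e2, e3, e4, e5, e6⟩ := pass w hw h1 hl
      have h2 : lw d τ (w0.append (SimpleGraph.Walk.cons h0 .nil)) < B := by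
        by_contra h
        push Not at h
        refine hno N le_rfl ⟨⟨(u, v'), w0.append (SimpleGraph.Walk.cons h0 .nil)⟩, ⟨e2, ?_⟩, e5, h⟩
        intro z hz
        refine hs z ?_
        rw [e1]
        exact supp_left hz
      have h3 : F.co.tm y ≤ F.co.tm v' + F.co.M := by
        cases w2 with
        | nil => omega
        | @cons _ v1 _ hadj w1 =>
          have h0' := e4
          rw [inE_cons] at e4
          have h2 := e4.1
          unfold Co.EI at h2
          simp only [Set.mem_setOf_eq] at h2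
          rw [tm_ke F.co hadj] at h2
          have h4 := tm_adj F.co hadj
          have h5 : F.co.tm v' < s + N + F.co.M := by rcases min_choice (F.co.tm v') (F.co.tm v1) with h5 | h5 <;> omega
          have h6 := (inE_tm h0' ⟨h2.1.trans (min_le_left _ _), h5⟩ y (SimpleGraph.Walk.end_mem_support _)).2
          omega
      have h4 := lw_over' hA hτ w2 h3
      have h5 : lw d τ w = lw d τ (w0.append (SimpleGraph.Walk.cons h0 .nil)) + lw d τ w2 := by
        rw [← lw_append, e1, ← SimpleGraph.Walk.append_assoc]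
        rfl
      linarith

/-- The piece behind a vertex of level `≥ m`: one overshoot and a walk above the level `m`. -/
theorem rest_le (hA : Adm F ka d) {τ : Env} (hτ : Bd F.a F.b τ) {i j m : ℤ} {S x : ℝ} {v y : V} (w : grid.Walk v y)
    (hw : inE F.co i j w) (hs : ∀ z ∈ w.support, |kq F d z - x| ≤ S) (hv : m ≤ F.co.tm v) :
    lw d τ w ≤ Ms F d m j S x τ := by
  have hC := C1_nonneg F
  rcases le_or_gt m (F.co.tm y) with hy | hy
  · obtain ⟨v', w3, w4, e1, e2, e3⟩ := tail w hw hv hy
    have h1 := lw_over' hA hτ w3 e3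
    have h2 := Ms_ge hA hτ (S := S) (x := x) e2 (fun z hz => hs z (by
      rw [e1, SimpleGraph.Walk.mem_support_append_iff]
      exact Or.inr hz))
    rw [e1, lw_append]
    linarith
  · have h1 := lw_down hA hτ w (hy.le.trans hv)
    exact h1.trans (Ms_nonneg hA hτ _ _ _ _)

/-- **(hrest)** -/
theorem restart_le (hA : Adm F ka d) {τ : Env} (hτ : Bd F.a F.b τ) {s j : ℤ} {m : ℕ} {S B x : ℝ} (hB : 0 ≤ B)
    (hno : ∀ m' < m, ¬ HBs F d s (s + (m' : ℕ)) S B x τ) :
    Ms F d s j S x τ ≤ B + 2 * C1 F + Ms F d (s + m) j S x τ := by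
  have hC := C1_nonneg F
  have hM := F.co.M_pos
  have hM0 := Ms_nonneg hA hτ (s + m) j S x
  have h0 := Ms_le (F := F) (d := d) (τ := τ) (i := s) (j := j) (S := S) (x := x)
    (r := B + C1 F + Ms F d (s + m) j S x τ) (by linarith) ?_
  · linarith
  intro u y w hw hs
  by_cases hl : ∀ z ∈ w.support, F.co.tm z < s + m
  · have := low_le hA hτ hB hno w hw hs hl
    linarith
  · push Not at hl
    rcases le_or_gt (s + (m : ℤ)) (F.co.tm u) with h1 | h1
    · have := rest_le hA hτ w hw hs h1
      linarith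
    · obtain ⟨u', v', w0, h0, w2, e1, e2, e3, e4, e5, e6⟩ := pass w hw h1 hl
      have h2 := low_le hA hτ hB hno w0 e3 (fun z hz => hs z (by rw [e1]; exact supp_w0 hz)) e6
      have h3 : lw d τ (SimpleGraph.Walk.cons h0 (SimpleGraph.Walk.nil : grid.Walk v' v')) ≤ C1 F :=
        lw_over' hA hτ _ (tm_adj F.co h0).1
      have h4 := rest_le hA hτ w2 e4 (fun z hz => hs z (by rw [e1]; exact supp_right hz)) e5
      have h5 : lw d τ w = lw d τ w0 + (lw d τ (SimpleGraph.Walk.cons h0 (SimpleGraph.Walk.nil : grid.Walk v' v')) +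
          lw d τ w2) := by
        rw [← lw_append, ← lw_append, e1]
        rfl
      linarith

end Pool.Agent.W_1b8d5d_p.El0
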