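import Pool.Agent.W_1b8d5d_p.ElC

/-!
TRACK P, (EL) at zero temperature (proofs row 632): the step of the weights, the smeared weights. helper67.
-/

set_option autoImplicit false

namespace Pool.Agent.W_1b8d5d_p.El0

open MeasureTheory Set
open Pool.Agent.W_1b8d5d_h85
open Pool.Agent.W_1b8d5d_p

variable {F : Fm} {ka : ℝ} {d : Dr}

theorem tau_bd (F : Fm) (η : Env) : Bd F.a F.b (F.tau η) := fun e => ⟨F.g1 _, F.g2 _⟩

theorem kq_adj (F : Fm) (d : Dr) {x y : V} (h : grid.Adj x y) : |kq F d y - kq F d x| ≤ Dk F.co d.v := by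
  have h1 := kp_le F.co d.v (y - x)
  rw [nm_adj h, mul_one, kp_sub] at h1
  exact h1

/-- The case of a walk which has no cheap crossing before it leaves the strip. -/
theorem step_low (hA : Adm F ka d) {τ : Env} (hτ : Bd F.a F.b τ) {s : ℤ} {N m : ℕ} (hm : m ≤ N) {r0 S B0 x : ℝ}
    (hr0 : Dk F.co d.v ≤ r0) (hS : S = 2 * r0) (hno : ¬ HEs F d ka s (s + m) S r0 B0 x τ) {Tg : Set V}
    {u z y : V} (w1 : grid.Walk u z) (w2 : grid.Walk z y)
    (h1 : inE F.co s (s + N) w1) (h2 : inE F.co s (s + N) w2) (hs : ∀ v ∈ w1.support, |kq F d v - x| ≤ S)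
    (hu : |kq F d u - x| ≤ r0) (hz : S - Dk F.co d.v ≤ |kq F d z - x|) (hzm : s + m ≤ F.co.tm z)
    (hzm' : F.co.tm z ≤ s + m + F.co.M) (hy : y ∈ Tg) :
    Real.exp (lw d τ w1 + lw d τ w2) ≤ Real.exp (-(B0 - C1 F - ka)) *
      (gsw F d ka s (s + N) Tg r0 (x - S) τ + gsw F d ka s (s + N) Tg r0 (x + S) τ) := by
  have hM := F.co.M_pos
  have hde := (de_pos hA).le
  have hDk := Dk_one F.co d.v
  -- the first vertex of level `s + m`
  obtain ⟨c, wa, wb, e1, e2, e3⟩ : ∃ (c : V) (wa : grid.Walk u c) (wb : grid.Walk c z), w1 = wa.append wb ∧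
      inE F.co s (s + m) wa ∧ s + m ≤ F.co.tm c := by
    rcases le_or_gt (s + (m : ℤ)) (F.co.tm u) with h | h
    · exact ⟨u, .nil, w1, by simp, inE_nil, h⟩
    · obtain ⟨u', v', w0, h0, w3, f1, f2, f3, f4, f5, f6⟩ := pass w1 h1 h ⟨z, w1.end_mem_support, hzm⟩
      refine ⟨v', w0.append (SimpleGraph.Walk.cons h0 .nil), w3, ?_, f2, f5⟩
      rw [f1, ← SimpleGraph.Walk.append_assoc]
      rfl
  have ha : lw d τ wa < -B0 + de F d ka * (S - |kq F d c - x|) := by
    by_contra h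
    push Not at h
    refine hno ⟨⟨(u, c), wa⟩, ⟨e2, fun v hv => hs v ?_⟩, hu, e3, ?_⟩
    · rw [e1, SimpleGraph.Walk.mem_support_append_iff]
      exact Or.inl hv
    · simp only
      linarith
  have hb := lw_over hA hτ wb (by omega)
  -- the two cells
  have hcell : |kq F d z - (x - S)| ≤ r0 ∨ |kq F d z - (x + S)| ≤ r0 := by
    have h3 := hs z w1.end_mem_support
    rcases le_total (kq F d z - x) 0 with h | h
    · left
      rw [abs_of_nonpos h] at hz h3
      rw [abs_le]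
      constructor <;> linarith
    · right
      rw [abs_of_nonneg h] at hz h3
      rw [abs_le]
      constructor <;> linarith
  have hgs : Real.exp (lw d τ w2) ≤
      gsw F d ka s (s + N) Tg r0 (x - S) τ + gsw F d ka s (s + N) Tg r0 (x + S) τ := by
    rcases hcell with h | h
    · have h3 := gsw_ge hA hτ r0 (x - S) h2 hy
      rw [max_eq_right (by linarith), mul_zero, sub_zero] at h3
      linarith [gsw_nonneg (F := F) (ka := ka) (d := d) s (s + N) Tg r0 (x + S) τ]
    · have h3 := gsw_ge hA hτ r0 (x + S) h2 hy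
      rw [max_eq_right (by linarith), mul_zero, sub_zero] at h3
      linarith [gsw_nonneg (F := F) (ka := ka) (d := d) s (s + N) Tg r0 (x - S) τ]
  rw [Real.exp_add]
  refine mul_le_mul (Real.exp_le_exp.2 ?_) hgs (Real.exp_pos _).le (Real.exp_pos _).le
  rw [e1, lw_append]
  have h3 : S - Dk F.co d.v - |kq F d c - x| ≤ |kq F d z - kq F d c| := by
    have h4 : |kq F d z - x| ≤ |kq F d z - kq F d c| + |kq F d c - x| := abs_sub_le _ _ _
    linarith
  have h4 := mul_le_mul_of_nonneg_left h3 hde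
  have h5 : de F d ka * Dk F.co d.v = ka := by
    unfold de
    rw [div_mul_cancel₀]
    linarith
  have h6 : de F d ka * (S - Dk F.co d.v - |kq F d c - x|) = de F d ka * (S - |kq F d c - x|) - de F d ka * Dk F.co d.v := by
    ring
  linarith

/-- The case of a walk behind the first level with a cheap crossing. -/
theorem step_high (hA : Adm F ka d) {τ : Env} (hτ : Bd F.a F.b τ) {s : ℤ} {N m : ℕ} (hm : m ≤ N) {r0 S x : ℝ}
    (hr0 : 0 ≤ r0) (hS : S = 2 * r0) {Tg : Set V} (hTg : ∀ y ∈ Tg, s + N ≤ F.co.tm y)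
    {u z y : V} (w1 : grid.Walk u z) (w2 : grid.Walk z y)
    (h1 : inE F.co s (s + N) w1) (h2 : inE F.co s (s + N) w2) (hs : ∀ v ∈ w1.support, |kq F d v - x| ≤ S)
    (hzm : s + m ≤ F.co.tm z) (hy : y ∈ Tg) :
    Real.exp (lw d τ w1 + lw d τ w2) ≤ Real.exp (Ms F d s (s + m) S x τ) *
      (gsw F d ka (s + m) (s + N) Tg r0 (x - S) τ + gsw F d ka (s + m) (s + N) Tg r0 x τ +
        gsw F d ka (s + m) (s + N) Tg r0 (x + S) τ) := by
  have hM := F.co.M_pos
  have hde := (de_pos hA).le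
  obtain ⟨c, wa, wb, e1, e2, e3⟩ : ∃ (c : V) (wa : grid.Walk u c) (wb : grid.Walk c z), w1 = wa.append wb ∧
      inE F.co s (s + m) wa ∧ s + m ≤ F.co.tm c := by
    rcases le_or_gt (s + (m : ℤ)) (F.co.tm u) with h | h
    · exact ⟨u, .nil, w1, by simp, inE_nil, h⟩
    · obtain ⟨u', v', w0, h0, w3, f1, f2, f3, f4, f5, f6⟩ := pass w1 h1 h ⟨z, w1.end_mem_support, hzm⟩
      refine ⟨v', w0.append (SimpleGraph.Walk.cons h0 .nil), w3, ?_, f2, f5⟩
      rw [f1, ← SimpleGraph.Walk.append_assoc]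
      rfl
  have hcs : |kq F d c - x| ≤ S := hs c (by
    rw [e1, SimpleGraph.Walk.mem_support_append_iff]
    exact Or.inl wa.end_mem_support)
  have ha := Ms_ge hA hτ (S := S) (x := x) e2 (fun v hv => hs v (by
    rw [e1, SimpleGraph.Walk.mem_support_append_iff]
    exact Or.inl hv))
  rw [e1, inE_append] at h1
  have hyN := hTg y hy
  obtain ⟨c', w3, w4, f1, f2, f3⟩ := tail (m := s + m) (wb.append w2) (inE_append.2 ⟨h1.2, h2⟩) e3 (by omega)
  have hb := lw_over hA hτ w3 f3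
  have hlw : lw d τ w1 + lw d τ w2 = lw d τ wa + (lw d τ w3 + lw d τ w4) := by
    have h3 : lw d τ wb + lw d τ w2 = lw d τ w3 + lw d τ w4 := by
      rw [← lw_append, f1, lw_append]
    rw [e1, lw_append]
    linarith
  -- the cell of `c`
  have key : ∀ x', |kq F d c - x'| ≤ r0 →
      Real.exp (lw d τ w1 + lw d τ w2) ≤ Real.exp (Ms F d s (s + m) S x τ) * gsw F d ka (s + m) (s + N) Tg r0 x' τ := by
    intro x' hx'
    have h3 := gsw_ge hA hτ r0 x' f2 hy
    have h4 : max (|kq F d c' - x'| - r0) 0 ≤ |kq F d c' - kq F d c| := by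
      refine max_le ?_ (abs_nonneg _)
      have : |kq F d c' - x'| ≤ |kq F d c' - kq F d c| + |kq F d c - x'| := abs_sub_le _ _ _
      linarith
    have h5 := mul_le_mul_of_nonneg_left h4 hde
    have h6 : Real.exp (lw d τ w1 + lw d τ w2) ≤ Real.exp (Ms F d s (s + m) S x τ) *
        Real.exp (lw d τ w4 - de F d ka * max (|kq F d c' - x'| - r0) 0) := by
      rw [← Real.exp_add, hlw]
      refine Real.exp_le_exp.2 ?_
      linarith
    exact h6.trans (mul_le_mul_of_nonneg_left h3 (Real.exp_pos _).le)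
  have hex : |kq F d c - (x - S)| ≤ r0 ∨ |kq F d c - x| ≤ r0 ∨ |kq F d c - (x + S)| ≤ r0 := by
    rw [abs_le] at hcs
    obtain ⟨h3, h4⟩ := hcs
    by_cases h5 : kq F d c - x < -r0
    · left
      rw [abs_le]
      constructor <;> linarith
    · by_cases h6 : r0 < kq F d c - x
      · right; right
        rw [abs_le]
        constructor <;> linarith
      · right; left
        rw [abs_le]
        constructor <;> linarith
  have g1 := gsw_nonneg (F := F) (ka := ka) (d := d) (s + m) (s + N) Tg r0 (x - S) τ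
  have g2 := gsw_nonneg (F := F) (ka := ka) (d := d) (s + m) (s + N) Tg r0 x τ
  have g3 := gsw_nonneg (F := F) (ka := ka) (d := d) (s + m) (s + N) Tg r0 (x + S) τ
  rcases hex with h | h | h
  · exact (key _ h).trans (mul_le_mul_of_nonneg_left (by linarith) (Real.exp_pos _).le)
  · exact (key _ h).trans (mul_le_mul_of_nonneg_left (by linarith) (Real.exp_pos _).le)
  · exact (key _ h).trans (mul_le_mul_of_nonneg_left (by linarith) (Real.exp_pos _).le)

/-- **(S1)** The step of the weights. -/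
theorem step_le (hA : Adm F ka d) (η : Env) {s : ℤ} {N : ℕ} {r0 S B0 x : ℝ} {D : ℕ}
    (hr0 : Dk F.co d.v ≤ r0) (hS : S = 2 * r0) {Tg : Set V} (hTg : ∀ y ∈ Tg, s + N ≤ F.co.tm y)
    (hmeet : ∀ y ∈ Tg, |kq F d y - x| ≤ S → D = 0) :
    gw F d s (s + N) Tg r0 x (F.tau η) ≤ (if D = 0 then Real.exp (Ms F d s (s + N) S x (F.tau η)) else 0) +
      Real.exp (-(B0 - C1 F - ka)) *
        (gsw F d ka s (s + N) Tg r0 (x - S) (F.tau η) + gsw F d ka s (s + N) Tg r0 (x + S) (F.tau η)) +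
      ∑ m ∈ Finset.range (N + 1), ind (Fr (fun m η => HEs F d ka s (s + (m : ℕ)) S r0 B0 x (F.tau η)) m) η *
        Real.exp (Ms F d s (s + (m : ℕ)) S x (F.tau η)) *
        (gsw F d ka (s + (m : ℕ)) (s + N) Tg r0 (x - S) (F.tau η) + gsw F d ka (s + (m : ℕ)) (s + N) Tg r0 x (F.tau η) +
          gsw F d ka (s + (m : ℕ)) (s + N) Tg r0 (x + S) (F.tau η)) := by
  have hτ := tau_bd F η
  have hDk := Dk_one F.co d.v
  have hM := F.co.M_pos
  have hA0 : 0 ≤ (if D = 0 then Real.exp (Ms F d s (s + N) S x (F.tau η)) else 0) := by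
    split_ifs
    · exact (Real.exp_pos _).le
    · exact le_rfl
  have hB0 : 0 ≤ Real.exp (-(B0 - C1 F - ka)) *
      (gsw F d ka s (s + N) Tg r0 (x - S) (F.tau η) + gsw F d ka s (s + N) Tg r0 (x + S) (F.tau η)) :=
    mul_nonneg (Real.exp_pos _).le (add_nonneg (gsw_nonneg _ _ _ _ _ _) (gsw_nonneg _ _ _ _ _ _))
  have hC0 : ∀ m ∈ Finset.range (N + 1), 0 ≤ ind (Fr (fun m η => HEs F d ka s (s + (m : ℕ)) S r0 B0 x (F.tau η)) m) η *
      Real.exp (Ms F d s (s + (m : ℕ)) S x (F.tau η)) *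
      (gsw F d ka (s + (m : ℕ)) (s + N) Tg r0 (x - S) (F.tau η) + gsw F d ka (s + (m : ℕ)) (s + N) Tg r0 x (F.tau η) +
        gsw F d ka (s + (m : ℕ)) (s + N) Tg r0 (x + S) (F.tau η)) := fun m _ =>
    mul_nonneg (mul_nonneg (ind_nonneg _ _) (Real.exp_pos _).le)
      (add_nonneg (add_nonneg (gsw_nonneg _ _ _ _ _ _) (gsw_nonneg _ _ _ _ _ _)) (gsw_nonneg _ _ _ _ _ _))
  refine Real.iSup_le ?_ (add_nonneg (add_nonneg hA0 hB0) (Finset.sum_nonneg hC0))
  rintro ⟨⟨⟨u, y⟩, w⟩, ⟨hw, hy⟩, hu⟩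
  simp only at hu hw hy
  simp only
  by_cases hl : ∀ z ∈ w.support, |kq F d z - x| ≤ S
  · -- the walk stays in the strip
    have hD := hmeet y hy (hl y w.end_mem_support)
    have h1 := Ms_ge hA hτ hw hl
    have hC := C1_nonneg F
    have h2 : Real.exp (lw d (F.tau η) w) ≤ (if D = 0 then Real.exp (Ms F d s (s + N) S x (F.tau η)) else 0) := by
      rw [if_pos hD]
      exact Real.exp_le_exp.2 (by linarith)
    have h3 := Finset.sum_nonneg hC0
    linarith
  · push Not at hl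
    obtain ⟨z, v, w1, h0, w2, e1, e2, e3⟩ := first_step (fun z => ¬ |kq F d z - x| ≤ S) w
      (by
        rw [not_not]
        linarith) (by
        obtain ⟨z, hz, h⟩ := hl
        exact ⟨z, hz, not_le.2 h⟩)
    have e2' : ∀ v ∈ w1.support, |kq F d v - x| ≤ S := fun v hv => not_not.1 (e2 v hv)
    have e3' : S < |kq F d v - x| := not_le.1 e3
    have hw' := hw
    rw [e1, inE_append] at hw'
    obtain ⟨hw1, hw2⟩ := hw'
    have hz : S - Dk F.co d.v ≤ |kq F d z - x| := by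
      have h1 := kq_adj F d h0
      have h2 : |kq F d v - x| ≤ |kq F d v - kq F d z| + |kq F d z - x| := abs_sub_le _ _ _
      linarith
    have hke := hw2
    rw [inE_cons] at hke
    obtain ⟨⟨g1, g2⟩, g3⟩ := hke
    rw [tm_ke F.co h0] at g1 g2
    have hadj := tm_adj F.co h0
    have hzs : s ≤ F.co.tm z := g1.trans (min_le_left _ _)
    have hzN : F.co.tm z < s + N + F.co.M := by
      rcases min_choice (F.co.tm z) (F.co.tm v) with h5 | h5 <;> omega
    have hlw : lw d (F.tau η) w = lw d (F.tau η) w1 + lw d (F.tau η) (SimpleGraph.Walk.cons h0 w2) := by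
      rw [e1, lw_append]
    rw [hlw]
    obtain ⟨m0, hm0N, hm0z, hm0z'⟩ : ∃ m0 : ℕ, m0 ≤ N ∧ s + (m0 : ℤ) ≤ F.co.tm z ∧ F.co.tm z ≤ s + m0 + F.co.M := by
      rcases le_total (F.co.tm z) (s + N) with h | h
      · refine ⟨(F.co.tm z - s).toNat, by omega, by omega, by omega⟩
      · exact ⟨N, le_rfl, h, by omega⟩
    by_cases hE : ∃ m ≤ m0, HEs F d ka s (s + (m : ℕ)) S r0 B0 x (F.tau η)
    · obtain ⟨m, hm, hFr⟩ := exists_Fr (H := fun m η => HEs F d ka s (s + (m : ℕ)) S r0 B0 x (F.tau η)) hE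
      have h1 := step_high hA hτ (hm.trans hm0N) (by linarith) hS hTg w1 (SimpleGraph.Walk.cons h0 w2) hw1 hw2 e2'
        (x := x) (m := m) (by omega) hy
      have h2 := Finset.single_le_sum hC0 (Finset.mem_range.2 (Nat.lt_succ_of_le (hm.trans hm0N)))
      rw [ind_of hFr, one_mul] at h2
      linarith
    · push Not at hE
      have h1 := step_low hA hτ hm0N hr0 hS (hE m0 le_rfl) w1 (SimpleGraph.Walk.cons h0 w2) hw1 hw2 e2' hu hz hm0z hm0z' hy
      have h3 := Finset.sum_nonneg hC0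
      linarith

/-- **(S2)** The smeared weights. -/
theorem smear_le (hA : Adm F ka d) (Tg : Set V) {s : ℤ} {N : ℕ} {r0 : ℝ} {S : ℤ} (hS0 : 0 < S)
    (hS : (S : ℝ) = 2 * r0) (x : ℤ) {ε : ℝ} (hε : 0 < ε) : ∃ L : Finset ℤ, ∀ η : Env,
      gsw F d ka s (s + N) Tg r0 x (F.tau η) ≤
        ∑ l ∈ L, Real.exp (-(de F d ka * S)) ^ (l.natAbs - 1) * gw F d s (s + N) Tg r0 ((x + l * S : ℤ) : ℝ) (F.tau η) + ε := by
  have hde := de_pos hA
  have hSr : (0 : ℝ) < S := by exact_mod_cast hS0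
  have hr1 : Real.exp (-(de F d ka * S)) < 1 := Real.exp_lt_one_iff.2 (by
    have : 0 < de F d ka * S := mul_pos hde hSr
    linarith)
  have hr0' := (Real.exp_pos (-(de F d ka * S))).le
  obtain ⟨n, hn⟩ : ∃ n : ℕ, Real.exp (K0 F N) * Real.exp (-(de F d ka * S)) ^ n < ε := by
    obtain ⟨n, hn⟩ := exists_pow_lt_of_lt_one (show 0 < ε / Real.exp (K0 F N) by positivity) hr1
    refine ⟨n, ?_⟩
    rw [lt_div_iff₀ (Real.exp_pos _)] at hn
    linarith
  refine ⟨Finset.Icc (-(n : ℤ)) n, fun η => ?_⟩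
  have hτ := tau_bd F η
  have hterm : ∀ l ∈ Finset.Icc (-(n : ℤ)) n, 0 ≤ Real.exp (-(de F d ka * S)) ^ (l.natAbs - 1) *
      gw F d s (s + N) Tg r0 ((x + l * S : ℤ) : ℝ) (F.tau η) := fun l _ =>
    mul_nonneg (by positivity) (gw_nonneg _ _ _ _ _ _)
  have hsum := Finset.sum_nonneg hterm
  refine Real.iSup_le ?_ (by linarith)
  rintro ⟨⟨⟨u, y⟩, w⟩, hw, hy⟩
  simp only at hw hy
  simp only
  -- the cell of `u`
  obtain ⟨l, hl⟩ : ∃ l : ℤ, l = round ((kq F d u - x) / S) := ⟨_, rfl⟩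
  have h1 : |kq F d u - ((x + l * S : ℤ) : ℝ)| ≤ r0 := by
    have h2 := abs_sub_round ((kq F d u - x) / S)
    rw [← hl] at h2
    have h3 : kq F d u - ((x + l * S : ℤ) : ℝ) = ((kq F d u - x) / S - l) * S := by
      push_cast
      field_simp
      ring
    rw [h3, abs_mul, abs_of_pos hSr]
    have := mul_le_mul_of_nonneg_right h2 hSr.le
    linarith
  have h2 : ((l.natAbs - 1 : ℕ) : ℝ) * S ≤ max (|kq F d u - x| - r0) 0 := by
    rcases Nat.eq_zero_or_pos l.natAbs with h | h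
    · rw [h]
      simp
    · rw [Nat.cast_sub h]
      refine le_max_of_le_left ?_
      have h3 : |(l : ℝ)| * S ≤ |kq F d u - x| + r0 := by
        have h4 : |(l : ℝ) * S| ≤ |kq F d u - x| + |kq F d u - ((x + l * S : ℤ) : ℝ)| := by
          have e : (l : ℝ) * S = (kq F d u - x) - (kq F d u - ((x + l * S : ℤ) : ℝ)) := by
            push_cast
            ring
          rw [e]
          exact abs_sub _ _
        rw [abs_mul, abs_of_pos hSr] at h4
        linarith
      have h4 : ((l.natAbs : ℕ) : ℝ) = |(l : ℝ)| := by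
        rw [Nat.cast_natAbs, Int.cast_abs]
      rw [h4]
      push_cast
      nlinarith
  have h3 : Real.exp (lw d (F.tau η) w - de F d ka * max (|kq F d u - x| - r0) 0) ≤
      Real.exp (-(de F d ka * S)) ^ (l.natAbs - 1) * Real.exp (lw d (F.tau η) w) := by
    rw [← Real.exp_nat_mul, ← Real.exp_add]
    refine Real.exp_le_exp.2 ?_
    have := mul_le_mul_of_nonneg_left h2 hde.le
    nlinarith
  refine h3.trans ?_
  by_cases hln : l ∈ Finset.Icc (-(n : ℤ)) n
  · have h4 := gw_ge hA hτ hw hy h1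
    have h5 := mul_le_mul_of_nonneg_left h4 (by positivity : 0 ≤ Real.exp (-(de F d ka * S)) ^ (l.natAbs - 1))
    have h6 := Finset.single_le_sum hterm hln
    linarith
  · have h4 : n ≤ l.natAbs - 1 := by
      rw [Finset.mem_Icc] at hln
      omega
    have h5 : Real.exp (-(de F d ka * S)) ^ (l.natAbs - 1) ≤ Real.exp (-(de F d ka * S)) ^ n :=
      pow_le_pow_of_le_one hr0' hr1.le h4
    have h6 : Real.exp (lw d (F.tau η) w) ≤ Real.exp (K0 F N) :=
      Real.exp_le_exp.2 (lw_bd' hA hτ (by simp) hw)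
    have h7 : Real.exp (-(de F d ka * S)) ^ (l.natAbs - 1) * Real.exp (lw d (F.tau η) w) ≤
        Real.exp (-(de F d ka * S)) ^ n * Real.exp (K0 F N) :=
      mul_le_mul h5 h6 (Real.exp_pos _).le (by positivity)
    linarith

end Pool.Agent.W_1b8d5d_p.El0
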