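import Pool.Agent.W_1b8d5d_p.FrLaw
import Pool.Agent.W_1b8d5d_p.ElD

/-!
TRACK P, (EL) at zero temperature (proofs row 632): measurability, independence, the far cells from the two probabilities. helper67.
-/

set_option autoImplicit false

namespace Pool.Agent.W_1b8d5d_p.El0

open MeasureTheory Set
open Pool.Agent.W_1b8d5d_h85
open Pool.Agent.W_1b8d5d_p

variable {F : Fm} {ka : ℝ} {d : Dr}

instance (x y : V) : Countable (grid.Walk x y) :=
  Function.Injective.countable (f := fun w : grid.Walk x y => w.support) fun _ _ h => SimpleGraph.Walk.ext_support h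

instance : Countable WW := inferInstance

theorem tau_meas (F : Fm) : Measurable F.tau :=
  measurable_pi_lambda _ fun e => F.mg.comp (measurable_pi_apply e)

theorem lw_meas (F : Fm) (d : Dr) {x y : V} (w : grid.Walk x y) : Measurable fun η => lw d (F.tau η) w :=
  measurable_const.sub ((cost_meas w).comp (tau_meas F))

theorem lw_dep {A : Set Edge} {x y : V} (w : grid.Walk x y) (hw : ∀ e ∈ wedges w, e ∈ A) :
    DependsOn (fun η => lw d (F.tau η) w) A := fun η η' h => by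
  unfold lw
  simp only
  congr 1
  exact cost_congr w fun e he => by
    unfold Fm.tau
    rw [h e (hw e he)]

theorem Ms_meas (i j : ℤ) (S x : ℝ) : Measurable fun η => Ms F d i j S x (F.tau η) := by
  unfold Ms LS
  exact measurable_const.add (Measurable.iSup fun W => lw_meas F d _)

theorem gw_meas (i j : ℤ) (Tg : Set V) (r0 x : ℝ) : Measurable fun η => gw F d i j Tg r0 x (F.tau η) := by
  unfold gw
  exact Measurable.iSup fun W => (lw_meas F d _).exp

theorem gsw_meas (i j : ℤ) (Tg : Set V) (r0 x : ℝ) : Measurable fun η => gsw F d ka i j Tg r0 x (F.tau η) := by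
  unfold gsw
  exact Measurable.iSup fun W => ((lw_meas F d _).sub_const _).exp

theorem HBs_meas (i j : ℤ) (S B x : ℝ) : MeasurableSet {η | HBs F d i j S B x (F.tau η)} := by
  have h : {η | HBs F d i j S B x (F.tau η)} =
      ⋃ W ∈ {W | W ∈ wS F d i j S x ∧ j ≤ F.co.tm W.1.2}, {η | B ≤ lw d (F.tau η) W.2} := by
    ext η
    simp only [HBs, Set.mem_setOf_eq, Set.mem_iUnion, exists_prop]
    constructor
    · rintro ⟨W, h1, h2, h3⟩
      exact ⟨W, ⟨h1, h2⟩, h3⟩
    · rintro ⟨W, ⟨h1, h2⟩, h3⟩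
      exact ⟨W, h1, h2, h3⟩
  rw [h]
  exact MeasurableSet.biUnion (Set.to_countable _) fun W _ => measurableSet_le measurable_const (lw_meas F d _)

theorem HEs_meas (i j : ℤ) (S r0 B0 x : ℝ) : MeasurableSet {η | HEs F d ka i j S r0 B0 x (F.tau η)} := by
  have h : {η | HEs F d ka i j S r0 B0 x (F.tau η)} =
      ⋃ W ∈ {W | W ∈ wS F d i j S x ∧ |kq F d W.1.1 - x| ≤ r0 ∧ j ≤ F.co.tm W.1.2},
        {η | -B0 ≤ lw d (F.tau η) W.2 - de F d ka * (S - |kq F d W.1.2 - x|)} := by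
    ext η
    simp only [HEs, Set.mem_setOf_eq, Set.mem_iUnion, exists_prop]
    constructor
    · rintro ⟨W, h1, h2, h3, h4⟩
      exact ⟨W, ⟨h1, h2, h3⟩, h4⟩
    · rintro ⟨W, ⟨h1, h2, h3⟩, h4⟩
      exact ⟨W, h1, h2, h3, h4⟩
  rw [h]
  exact MeasurableSet.biUnion (Set.to_countable _) fun W _ =>
    measurableSet_le measurable_const ((lw_meas F d _).sub_const _)

theorem Ms_dep (i j : ℤ) (S x : ℝ) : DependsOn (fun η => Ms F d i j S x (F.tau η)) (F.co.EI i j) := fun η η' h => by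
  unfold Ms LS
  simp only
  congr 1
  exact iSup_congr fun W => lw_dep W.1.2 W.2.1 h

theorem gsw_dep (i j : ℤ) (Tg : Set V) (r0 x : ℝ) :
    DependsOn (fun η => gsw F d ka i j Tg r0 x (F.tau η)) (F.co.EI i j) := fun η η' h => by
  unfold gsw
  simp only
  refine iSup_congr fun W => ?_
  have h1 : lw d (F.tau η) W.1.2 = lw d (F.tau η') W.1.2 := lw_dep W.1.2 W.2.1 h
  rw [h1]

theorem Ms_eq {i j : ℤ} {S x : ℝ} {η η' : Env} (h : ∀ e ∈ F.co.EI i j, η e = η' e) :
    Ms F d i j S x (F.tau η) = Ms F d i j S x (F.tau η') := Ms_dep i j S x h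

theorem gsw_eq {i j : ℤ} {Tg : Set V} {r0 x : ℝ} {η η' : Env} (h : ∀ e ∈ F.co.EI i j, η e = η' e) :
    gsw F d ka i j Tg r0 x (F.tau η) = gsw F d ka i j Tg r0 x (F.tau η') := gsw_dep i j Tg r0 x h

theorem HBs_dep (i j : ℤ) (S B x : ℝ) {η η' : Env} (h : ∀ e ∈ F.co.EI i j, η e = η' e) :
    HBs F d i j S B x (F.tau η) ↔ HBs F d i j S B x (F.tau η') := by
  have key : ∀ η η' : Env, (∀ e ∈ F.co.EI i j, η e = η' e) →
      HBs F d i j S B x (F.tau η) → HBs F d i j S B x (F.tau η') := by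
    rintro η η' h ⟨W, h1, h2, h3⟩
    refine ⟨W, h1, h2, ?_⟩
    have h4 : lw d (F.tau η) W.2 = lw d (F.tau η') W.2 := lw_dep W.2 h1.1 h
    rw [← h4]
    exact h3
  exact ⟨key η η' h, key η' η fun e he => (h e he).symm⟩

theorem HEs_dep (i j : ℤ) (S r0 B0 x : ℝ) {η η' : Env} (h : ∀ e ∈ F.co.EI i j, η e = η' e) :
    HEs F d ka i j S r0 B0 x (F.tau η) ↔ HEs F d ka i j S r0 B0 x (F.tau η') := by
  have key : ∀ η η' : Env, (∀ e ∈ F.co.EI i j, η e = η' e) →
      HEs F d ka i j S r0 B0 x (F.tau η) → HEs F d ka i j S r0 B0 x (F.tau η') := by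
    rintro η η' h ⟨W, h1, h2, h3, h4⟩
    refine ⟨W, h1, h2, h3, ?_⟩
    have h5 : lw d (F.tau η) W.2 = lw d (F.tau η') W.2 := lw_dep W.2 h1.1 h
    rw [← h5]
    exact h4
  exact ⟨key η η' h, key η' η fun e he => (h e he).symm⟩

theorem EI_mono (c : Co) {i j i' j' : ℤ} (h1 : i' ≤ i) (h2 : j ≤ j') : c.EI i j ⊆ c.EI i' j' :=
  fun _ he => ⟨h1.trans he.1, he.2.trans_le h2⟩

theorem EI_disj (c : Co) (i : ℤ) {m m' : ℤ} (h : m ≤ m') (j : ℤ) : Disjoint (c.EI i m) (c.EI m' j) := by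
  rw [Set.disjoint_left]
  rintro e ⟨_, h1⟩ ⟨h2, _⟩
  omega

theorem ind_dep {H : ℕ → Env → Prop} {A : Set Edge} {m : ℕ}
    (h : ∀ l ≤ m, ∀ η η' : Env, (∀ e ∈ A, η e = η' e) → (H l η ↔ H l η')) : DependsOn (ind (Fr H m)) A := by
  classical
  intro η η' hh
  have h1 : Fr H m η ↔ Fr H m η' := by
    unfold Fr
    rw [h m le_rfl η η' hh]
    constructor
    · rintro ⟨h2, h3⟩
      exact ⟨h2, fun l hl hc => h3 l hl ((h l hl.le η η' hh).2 hc)⟩
    · rintro ⟨h2, h3⟩
      exact ⟨h2, fun l hl hc => h3 l hl ((h l hl.le η η' hh).1 hc)⟩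
  unfold ind
  by_cases h2 : Fr H m η
  · rw [Set.indicator_of_mem (show η ∈ {η | Fr H m η} from h2), Set.indicator_of_mem (show η' ∈ {η | Fr H m η} from h1.1 h2)]
  · rw [Set.indicator_of_notMem (show η ∉ {η | Fr H m η} from h2),
      Set.indicator_of_notMem (show η' ∉ {η | Fr H m η} from fun hc => h2 (h1.2 hc))]

/-- The number of strips between `x` and the target. -/
noncomputable def dsx (S : ℤ) (y0 r1 : ℝ) (x : ℤ) : ℕ := ⌈(|(x : ℝ) - y0| - r1) / S - 1⌉₊

theorem dsx_lip {S : ℤ} (hS : 0 < S) (y0 r1 : ℝ) (x l : ℤ) : dsx S y0 r1 x ≤ dsx S y0 r1 (x + l * S) + l.natAbs := by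
  have hSr : (0 : ℝ) < S := by exact_mod_cast hS
  unfold dsx
  rw [Nat.ceil_le]
  push_cast
  have h1 := Nat.le_ceil ((|(((x + l * S : ℤ) : ℤ) : ℝ) - y0| - r1) / S - 1)
  have h2 : |(x : ℝ) - y0| ≤ |(((x + l * S : ℤ) : ℤ) : ℝ) - y0| + |(l : ℝ)| * S := by
    have e : (x : ℝ) - y0 = ((((x + l * S : ℤ) : ℤ) : ℝ) - y0) - l * S := by
      push_cast
      ring
    rw [e]
    refine (abs_sub _ _).trans (add_le_add le_rfl ?_)
    rw [abs_mul, abs_of_pos hSr]
  have h3 : (|(x : ℝ) - y0| - r1) / S ≤ (|(((x + l * S : ℤ) : ℤ) : ℝ) - y0| - r1) / S + |(l : ℝ)| := by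
    rw [← sub_nonneg]
    have e : (|(((x + l * S : ℤ) : ℤ) : ℝ) - y0| - r1) / S + |(l : ℝ)| - (|(x : ℝ) - y0| - r1) / S =
        (|(((x + l * S : ℤ) : ℤ) : ℝ) - y0| + |(l : ℝ)| * S - |(x : ℝ) - y0|) / S := by
      field_simp
      ring
    rw [e]
    exact div_nonneg (by linarith) hSr.le
  have h4 : (l.natAbs : ℝ) = |(l : ℝ)| := by
    rw [Nat.cast_natAbs, Int.cast_abs]
  push_cast at h1 h3 ⊢
  rw [h4]
  linarith

/-- **(EL) from the two probabilities.** -/
theorem el_prob (hA : Adm F ka d) {s : ℤ} {N : ℕ} {S : ℤ} {r0 : ℝ} (hS0 : 0 < S) (hS : (S : ℝ) = 2 * r0)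
    (hr0 : Dk F.co d.v ≤ r0) {Tg : Set V} (hTg : ∀ y ∈ Tg, s + N ≤ F.co.tm y) {y0 r1 : ℝ}
    (hT : ∀ y ∈ Tg, |kq F d y - y0| ≤ r1) {q B B0 p p' κ lam : ℝ} (hq : 0 < q) (hq1 : q ≤ 1) (hB : 0 ≤ B)
    (hpB : ∀ x : ℤ, (law F).real {η | ∃ m ≤ N, HBs F d s (s + (m : ℕ)) S B x (F.tau η)} ≤ p)
    (hpq : Real.exp (2 * q * (B + 2 * C1 F)) * p ≤ 1 / 2)
    (hpE : ∀ x : ℤ, (law F).real {η | ∃ m ≤ N, HEs F d ka s (s + (m : ℕ)) S r0 B0 x (F.tau η)} ≤ p')
    (hκ1 : Real.exp (-(q * (B0 - C1 F - ka))) ≤ κ)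
    (hκ2 : p' ^ (1 / 2 : ℝ) * (2 * Real.exp (2 * q * (B + 2 * C1 F))) ^ (1 / 2 : ℝ) ≤ κ)
    (hl0 : 0 < lam) (hl1 : lam ≤ 1) (hrl : Real.exp (-(de F d ka * S)) ^ q ≤ lam / 2) (hκl : 84 * κ ≤ lam ^ 2) (x : ℤ) :
    ∫ η, gw F d s (s + N) Tg r0 x (F.tau η) ^ q ∂(law F) ≤
      4 * Real.exp (q * (B + 2 * C1 F)) * lam ^ dsx S y0 r1 x := by
  have hC := C1_nonneg F
  have hSr : (0 : ℝ) < S := by exact_mod_cast hS0
  have hK0 := K0_nonneg F N
  have hKe : C1 F + K0 F N ≤ Real.exp (C1 F + K0 F N) := by linarith [Real.add_one_le_exp (C1 F + K0 F N)]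
  have hKe' : Real.exp (K0 F N) ≤ Real.exp (C1 F + K0 F N) := Real.exp_le_exp.2 (by linarith)
  have h := el0_abs (P := law F) (N := N) (S := S) (q := q) (B := B + 2 * C1 F) (a := 0) (B0 := B0 - C1 F - ka)
    (K := Real.exp (C1 F + K0 F N)) (p := p) (p' := p') (κ := κ) (rho := Real.exp (-(de F d ka * S))) (lam := lam)
    (dst := dsx S y0 r1)
    (M := fun x m η => Ms F d (s + (m : ℕ)) (s + N) S (x : ℤ) (F.tau η))
    (pM := fun x m η => Ms F d s (s + (min m N : ℕ)) S (x : ℤ) (F.tau η))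
    (g := fun x m η => gw F d (s + (m : ℕ)) (s + N) Tg r0 (x : ℤ) (F.tau η))
    (gs := fun x m η => gsw F d ka (s + (m : ℕ)) (s + N) Tg r0 (x : ℤ) (F.tau η))
    (HB := fun x m η => HBs F d s (s + (m : ℕ)) S B (x : ℤ) (F.tau η))
    (HE := fun x m η => HEs F d ka s (s + (m : ℕ)) S r0 B0 (x : ℤ) (F.tau η))
    hq hq1 (by linarith) le_rfl (Real.exp_pos _).le (dsx_lip hS0 y0 r1)
    (fun x m => HBs_meas _ _ _ _ _) (fun x m => Ms_meas _ _ _ _)
    (fun x m η => (Ms_K hA (tau_bd F η) (N := N) (by omega) _ _).trans hKe)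
    (fun x m η => Ms_mono hA (tau_bd F η) (by omega) le_rfl _ _)
    (fun x η hno => by
      have := free_le hA (tau_bd F η) (s := s) (N := N) (S := S) (B := B) (x := x) hB hno
      simpa using this)
    (fun x η m _ hFr => by
      have := restart_le hA (tau_bd F η) (s := s) (j := s + N) (m := m) (S := S) (B := B) (x := x) hB hFr.2
      simpa using this)
    (fun r x m hm => by
      have := integral_indep (F := F) (f := fun η => ind (Fr (fun m η => HBs F d s (s + (m : ℕ)) S B (x : ℤ) (F.tau η)) m) η * 1)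
        (g := fun η => Real.exp (r * Ms F d (s + (m : ℕ)) (s + N) S (x : ℤ) (F.tau η)))
        (A := F.co.EI s (s + m)) (B := F.co.EI (s + m) (s + N))
        ((ind_meas (meas_Fr (fun m => HBs_meas _ _ _ _ _) m)).mul_const 1) ((Ms_meas _ _ _ _).const_mul r).exp
        (fun η η' hh => by
          simp only
          rw [ind_dep (A := F.co.EI s (s + m)) (H := fun m η => HBs F d s (s + (m : ℕ)) S B (x : ℤ) (F.tau η)) (m := m)
            (fun l hl η η' h => HBs_dep _ _ _ _ _ fun e he => h e (EI_mono F.co le_rfl (by omega) he)) hh])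
        (fun η η' hh => by
          simp only
          rw [Ms_eq hh])
        (EI_disj F.co s le_rfl _)
      exact this.le)
    hpB (by rw [add_zero]; exact hpq)
    (fun x m => HEs_meas _ _ _ _ _ _) (fun x m => Ms_meas _ _ _ _)
    (fun x m η => Ms_mono hA (tau_bd F η) (by omega) (by omega) _ _)
    (fun x m => gw_meas _ _ _ _ _) (fun x m η => gw_nonneg _ _ _ _ _ _)
    (fun x m η => (gw_K hA (tau_bd F η) (N := N) (by omega) _ _ _).trans hKe')
    (fun x m => gsw_meas _ _ _ _ _) (fun x m η => gsw_nonneg _ _ _ _ _ _)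
    (fun x m η => (gsw_K hA (tau_bd F η) (N := N) (by omega) _ _ _).trans hKe')
    (fun x m η => gsw_mono hA (tau_bd F η) (by omega) le_rfl _ _ _)
    (fun x ε hε => by
      obtain ⟨L, hL⟩ := smear_le hA Tg (s := s) (N := N) hS0 hS x hε
      refine ⟨L, fun η => ?_⟩
      simpa using hL η)
    (fun x η => by
      have h1 := step_le hA η (s := s) (N := N) (x := x) (B0 := B0) (D := dsx S y0 r1 x) hr0 hS hTg (fun y hy hyx => by
        have h2 := hT y hy
        unfold dsx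
        rw [Nat.ceil_eq_zero]
        have h3 : |(x : ℝ) - y0| ≤ S + r1 := by
          have : |(x : ℝ) - y0| ≤ |(x : ℝ) - kq F d y| + |kq F d y - y0| := abs_sub_le _ _ _
          rw [abs_sub_comm (x : ℝ) (kq F d y)] at this
          linarith
        have h4 : (|(x : ℝ) - y0| - r1) / S ≤ 1 := by
          rw [div_le_one hSr]
          linarith
        linarith)
      push_cast at h1 ⊢
      simp only [add_zero] at h1 ⊢
      refine h1.trans (le_of_eq ?_)
      congr 1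
      refine Finset.sum_congr rfl fun m hm => ?_
      have hm' : m ≤ N := Nat.lt_succ_iff.1 (Finset.mem_range.1 hm)
      rw [min_eq_left (by exact_mod_cast hm' : (m : ℤ) ≤ N)])
    (fun x m hm y => by
      have hmm : ((min m N : ℕ) : ℤ) = m := by rw [min_eq_left hm]
      have := integral_indep (F := F)
        (f := fun η => ind (Fr (fun m η => HEs F d ka s (s + (m : ℕ)) S r0 B0 (x : ℤ) (F.tau η)) m) η *
          Real.exp (q * Ms F d s (s + (min m N : ℕ)) S (x : ℤ) (F.tau η)))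
        (g := fun η => gsw F d ka (s + (m : ℕ)) (s + N) Tg r0 (y : ℤ) (F.tau η) ^ q)
        (A := F.co.EI s (s + m)) (B := F.co.EI (s + m) (s + N))
        ((ind_meas (meas_Fr (fun m => HEs_meas _ _ _ _ _ _) m)).mul ((Ms_meas _ _ _ _).const_mul q).exp)
        ((gsw_meas _ _ _ _ _).pow_const q)
        (fun η η' hh => by
          simp only
          rw [ind_dep (A := F.co.EI s (s + m)) (H := fun m η => HEs F d ka s (s + (m : ℕ)) S r0 B0 (x : ℤ) (F.tau η)) (m := m)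
            (fun l hl η η' h => HEs_dep _ _ _ _ _ _ fun e he => h e (EI_mono F.co le_rfl (by omega) he)) hh, hmm,
            Ms_eq hh])
        (fun η η' hh => by
          simp only
          rw [gsw_eq hh])
        (EI_disj F.co s le_rfl _)
      exact this.le)
    hpE hκ1 hκ2 hl0 hl1 hrl hκl x
  simpa using h

end Pool.Agent.W_1b8d5d_p.El0
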