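import Pool.Agent.W_1b8d5d_p.FrLine
import Pool.Agent.W_1b8d5d_p.ElE

/-!
TRACK P, (EL) at zero temperature (proofs row 632): the two events in terms of slab pairs (`MM`, `UU`). helper67.
-/

set_option autoImplicit false

namespace Pool.Agent.W_1b8d5d_p.El0

open MeasureTheory Set
open Pool.Agent.W_1b8d5d_h85
open Pool.Agent.W_1b8d5d_p

variable {F : Fm} {ka k1 K1 : ℝ} {d : Dr}

theorem kq_latV (F : Fm) (d : Dr) (z : V) : kq F d z = latV F d z := by
  unfold kq kp latV
  ring

theorem lw_exc (F : Fm) (d : Dr) (η : Env) {x y : V} (w : grid.Walk x y) : lw d (F.tau η) w = -exc F d η w := by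
  unfold lw exc
  ring

/-- The times of a nontrivial walk. -/
theorem inE_times {c : Co} {i j : ℤ} {x y : V} {w : grid.Walk x y} (h : inE c i j w) (hn : ¬ w.Nil) :
    ∀ z ∈ w.support, i ≤ c.tm z ∧ c.tm z < j + c.M := by
  cases w with
  | nil => exact absurd SimpleGraph.Walk.Nil.nil hn
  | @cons _ v _ hadj w =>
    have h0 := h
    rw [inE_cons] at h
    obtain ⟨⟨h1, h2⟩, h3⟩ := h
    rw [tm_ke c hadj] at h1 h2
    have h4 := tm_adj c hadj
    have h5 : i ≤ c.tm x := h1.trans (min_le_left _ _)
    have h6 : c.tm x < j + c.M := by rcases min_choice (c.tm x) (c.tm v) with h5 | h5 <;> omega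
    exact inE_tm h0 ⟨h5, h6⟩

theorem lw_of_nil {τ : Env} {x y : V} {w : grid.Walk x y} (hn : w.Nil) : lw d τ w = 0 := by
  cases hn
  exact lw_nil d τ x

/-- The times of a walk between the block times `s` and `s + t`. -/
theorem times_blk {c : Co} {s : ℤ} {t m : ℕ} (hm : (m : ℤ) ≤ c.L * t) {x y : V} {w : grid.Walk x y}
    (h : inE c (c.L * s) (c.L * s + m) w) (hn : ¬ w.Nil) :
    ∀ z ∈ w.support, c.L * s ≤ c.tm z ∧ c.tm z ≤ c.L * (s + t + 1) := by
  intro z hz
  have h1 := inE_times h hn z hz
  have h2 := c.L_eq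
  have h3 : c.L * (s + t + 1) = c.L * s + c.L * t + c.L := by ring
  omega

/-- **(HB)** A luck `≥ B` in the strip is a luck of a slab pair. -/
theorem HBs_MM (hA : Adm F ka d) (hk : Lat F ka k1 K1 d) (η : Env) {s : ℤ} {t m : ℕ} (hm : (m : ℤ) ≤ F.co.L * t)
    {S B x : ℝ} (hB : 0 < B) (h : HBs F d (F.co.L * s) (F.co.L * s + m) S B x (F.tau η)) :
    B - CP F ≤ MM F d k1 s (s + t + 1) (x - S) (x + S) η := by
  obtain ⟨⟨⟨u, y⟩, w⟩, ⟨h1, h2⟩, _, h4⟩ := h
  simp only at h1 h2 h4
  have hn : ¬ w.Nil := fun hn => by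
    rw [lw_of_nil hn] at h4
    linarith
  have h5 := h2 u w.start_mem_support
  rw [kq_latV, abs_le] at h5
  have h6 := exc_ge_MM hA hk η w (times_blk hm h1 hn) (x0 := x - S) (x1 := x + S) ⟨by linarith, by linarith⟩
  rw [lw_exc] at h4
  linarith

/-- Between two vertices of a walk outside the core the side does not change. -/
theorem side {x r0 : ℝ} (hr0 : Dk F.co d.v ≤ r0) {u v : V} (w : grid.Walk u v)
    (h : ∀ z ∈ w.support, r0 < |kq F d z - x|) : (0 < kq F d u - x ↔ 0 < kq F d v - x) := by
  have hD := Dk_one F.co d.v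
  induction w with
  | nil => exact Iff.rfl
  | @cons u u' v hadj w ih =>
    have h1 := h u (SimpleGraph.Walk.start_mem_support _)
    have h2 := ih fun z hz => h z (by
      rw [SimpleGraph.Walk.support_cons, List.mem_cons]
      exact Or.inr hz)
    have h3 := h u' (by
      rw [SimpleGraph.Walk.support_cons, List.mem_cons]
      exact Or.inr w.start_mem_support)
    have h4 := abs_le.1 (kq_adj F d hadj)
    refine Iff.trans ?_ h2
    rw [lt_abs] at h1 h3
    constructor
    · intro h5
      rcases h1 with h1 | h1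
      · rcases h3 with h3 | h3 <;> linarith
      · linarith
    · intro h5
      rcases h1 with h1 | h1
      · linarith
      · rcases h3 with h3 | h3 <;> linarith

/-- **(HE)** A cheap crossing is a luck of a slab pair or a cheap passage between two lines. -/
theorem HEs_UU (hA : Adm F ka d) (hk : Lat F ka k1 K1 d) (η : Env) {s : ℤ} {t m : ℕ} (hm : (m : ℤ) ≤ F.co.L * t)
    {S r0 B B0 x mid : ℝ} (hS : S = 2 * r0) (hr0 : 2 * Dk F.co d.v ≤ r0) (hmid1 : r0 + Dk F.co d.v ≤ mid)
    (hmid2 : mid ≤ S) (hB : 0 < B) (hbig : B + B0 ≤ de F d ka * (S - mid))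
    (h : HEs F d ka (F.co.L * s) (F.co.L * s + m) S r0 B0 x (F.tau η))
    (hMM : MM F d k1 s (s + t + 1) (x - S) (x + S) η < B - CP F) :
    UU F d k1 s (s + t + 1) (x + r0) (x + mid) η ≤ B0 + 2 * B + CL F k1 K1 ∨
      UU F d k1 s (s + t + 1) (x - r0) (x - mid) η ≤ B0 + 2 * B + CL F k1 K1 := by
  have hD := Dk_one F.co d.v
  have hDK : Dk F.co d.v ≤ K1 := hk.hv
  have hde := de_pos hA
  obtain ⟨⟨⟨u, c⟩, w⟩, ⟨h1, h2⟩, h3, _, h5⟩ := h
  simp only at h1 h2 h3 h5
  -- walks from the strip are not lucky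
  have hluck : ∀ {u' c' : V} (w' : grid.Walk u' c'), inE F.co (F.co.L * s) (F.co.L * s + m) w' → |kq F d u' - x| ≤ S →
      lw d (F.tau η) w' < B := by
    intro u' c' w' hw' hu'
    by_contra hc
    push Not at hc
    have hn : ¬ w'.Nil := fun hn => by
      rw [lw_of_nil hn] at hc
      linarith
    rw [kq_latV, abs_le] at hu'
    have h6 := exc_ge_MM hA hk η w' (times_blk hm hw' hn) (x0 := x - S) (x1 := x + S) ⟨by linarith, by linarith⟩
    rw [lw_exc] at hc
    linarith
  have hSc : |kq F d c - x| ≤ S := h2 c w.end_mem_support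
  have hlw : -B0 ≤ lw d (F.tau η) w := by
    have : 0 ≤ de F d ka * (S - |kq F d c - x|) := mul_nonneg hde.le (by linarith)
    linarith
  -- the end is beyond the middle line
  have hmid : mid < |kq F d c - x| := by
    by_contra hc
    push Not at hc
    have h6 := hluck w h1 (by linarith)
    have h7 : de F d ka * (S - mid) ≤ de F d ka * (S - |kq F d c - x|) := mul_le_mul_of_nonneg_left (by linarith) hde.le
    linarith
  obtain ⟨pv, g, w1, hadj, w2, e1, e2, e3⟩ := first_step (fun z => mid < |kq F d z - x|) w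
    (by
      simp only [not_lt]
      linarith) ⟨c, w.end_mem_support, hmid⟩
  simp only [not_lt] at e2
  obtain ⟨f, f', w3, hadj', w4, g1, g2, g3⟩ := last_step (fun z => |kq F d z - x| ≤ r0)
    (w1.append (SimpleGraph.Walk.cons hadj .nil)) (by
      simp only [not_le]
      linarith) ⟨u, SimpleGraph.Walk.start_mem_support _, h3⟩
  simp only [not_le] at g3
  -- the pieces
  have hE1 : inE F.co (F.co.L * s) (F.co.L * s + m) (w1.append (SimpleGraph.Walk.cons hadj .nil)) ∧
      inE F.co (F.co.L * s) (F.co.L * s + m) w2 := by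
    have h6 := h1
    rw [e1, inE_append, inE_cons] at h6
    exact ⟨by
      rw [inE_append, inE_cons]
      exact ⟨h6.1, h6.2.1, inE_nil⟩, h6.2.2⟩
  have hE2 := hE1.1
  rw [g1, inE_append] at hE2
  have hsplit : lw d (F.tau η) w = lw d (F.tau η) w3 + lw d (F.tau η) (SimpleGraph.Walk.cons hadj' w4) +
      lw d (F.tau η) w2 := by
    have h6 : lw d (F.tau η) w = lw d (F.tau η) (w1.append (SimpleGraph.Walk.cons hadj .nil)) + lw d (F.tau η) w2 := by
      rw [← lw_append, e1, ← SimpleGraph.Walk.append_assoc]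
      rfl
    rw [h6, g1, lw_append]
  have a1 := hluck w3 hE2.1 (by linarith)
  have hgS : |kq F d g - x| ≤ S := h2 g (by
    rw [e1]
    exact supp_right w2.start_mem_support)
  have a2 := hluck w2 hE1.2 hgS
  have a3 : exc F d η (SimpleGraph.Walk.cons hadj' w4) ≤ B0 + 2 * B := by
    have := lw_exc F d η (SimpleGraph.Walk.cons hadj' w4)
    linarith
  have htimes := times_blk hm hE2.2 (by intro hn; cases hn)
  have b1 := abs_le.1 (kq_adj F d hadj')
  have b2 := abs_le.1 (kq_adj F d hadj)
  have b3 := e2 pv w1.end_mem_support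
  have b4 := g3 f' w4.start_mem_support
  have b5 := side (x := x) (show Dk F.co d.v ≤ r0 by linarith) w4 g3
  by_cases hpos : 0 < kq F d f' - x
  · left
    have c1 : r0 < kq F d f' - x := by rwa [abs_of_pos hpos] at b4
    have hg : 0 < kq F d g - x := b5.1 hpos
    have c2 : mid < kq F d g - x := by rwa [abs_of_pos hg] at e3
    have c3 : kq F d pv - x ≤ mid := (le_abs_self _).trans b3
    have c4 : kq F d f - x ≤ r0 := (le_abs_self _).trans g2
    have h6 := exc_ge_UU hA hk η (SimpleGraph.Walk.cons hadj' w4) htimes (l := x + r0) (l' := x + mid)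
      (by
        rw [← kq_latV, abs_le]
        constructor <;> linarith)
      (by
        rw [← kq_latV, abs_le]
        constructor <;> linarith)
    linarith
  · right
    have hneg : kq F d f' - x ≤ 0 := not_lt.1 hpos
    have c1 : kq F d f' - x < -r0 := by
      rw [abs_of_nonpos hneg] at b4
      linarith
    have hg : kq F d g - x ≤ 0 := not_lt.1 fun h => hpos (b5.2 h)
    have c2 : kq F d g - x < -mid := by
      rw [abs_of_nonpos hg] at e3
      linarith
    have c3 : -mid ≤ kq F d pv - x := (abs_le.1 b3).1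
    have c4 : -r0 ≤ kq F d f - x := (abs_le.1 g2).1
    have h6 := exc_ge_UU hA hk η (SimpleGraph.Walk.cons hadj' w4) htimes (l := x - r0) (l' := x - mid)
      (by
        rw [← kq_latV, abs_le]
        constructor <;> linarith)
      (by
        rw [← kq_latV, abs_le]
        constructor <;> linarith)
    linarith

end Pool.Agent.W_1b8d5d_p.El0
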