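import Pool.Agent.W_1b8d5d_p.ElF

/-!
TRACK P, (EL) at zero temperature (proofs row 632): one scale, the form of D7. helper67.
-/

set_option autoImplicit false

namespace Pool.Agent.W_1b8d5d_p.El0

open MeasureTheory Set
open Pool.Agent.W_1b8d5d_h85
open Pool.Agent.W_1b8d5d_p

variable {F : Fm} {ka k1 K1 : ℝ} {d : Dr}

/-- The largest weight between two sets of positions at the block times `s` and `s + t`. -/
noncomputable def GP (F : Fm) (d : Dr) (s : ℤ) (t : ℕ) (I J : Set ℤ) (η : Env) : ℝ :=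
  ⨆ i : I, ⨆ j : J, Real.exp (-X F d η (s, i.1) t (j.1 - i.1))

/-- The coarse cell `α` of positions at the block time `s`. -/
def cel (d : Dr) (s : ℤ) (wc : ℕ) (α : ℤ) : Set ℤ :=
  {i | (α : ℝ) * wc ≤ lat d (s, i) ∧ lat d (s, i) ≤ ((α : ℝ) + 1) * wc}

theorem GP_nonneg (s : ℤ) (t : ℕ) (I J : Set ℤ) (η : Env) : 0 ≤ GP F d s t I J η :=
  Real.iSup_nonneg fun _ => Real.iSup_nonneg fun _ => (Real.exp_pos _).le

theorem kq_vt (F : Fm) (d : Dr) (a : Pt) : kq F d (F.co.vt a) = lat d a := by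
  rw [kq_latV, latV_vt]

theorem slab_EI (c : Co) (s : ℤ) (t : ℕ) : c.slab s (s + t) ⊆ c.EI (c.L * s) (c.L * s + (c.L * t).toNat) := by
  have hL := c.L_pos
  have h0 : 0 ≤ c.L * t := mul_nonneg (by omega) (by omega)
  rintro e ⟨h1, _, h2, _⟩
  refine ⟨h1, ?_⟩
  rw [Int.toNat_of_nonneg h0]
  have : c.L * (s + t) = c.L * s + c.L * t := by ring
  omega

/-- A slab passage is a walk. -/
theorem GP_le (hA : Adm F ka d) (η : Env) {s : ℤ} {t : ℕ} (ht : 1 ≤ t) {I J : Set ℤ} {r0 x : ℝ}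
    (hI : ∀ i ∈ I, |lat d (s, i) - x| ≤ r0) :
    GP F d s t I J η ≤
      gw F d (F.co.L * s) (F.co.L * s + (F.co.L * t).toNat) {y | ∃ j ∈ J, y = F.co.vt (s + t, j)} r0 x (F.tau η) := by
  have hτ := tau_bd F η
  refine Real.iSup_le (fun i => Real.iSup_le (fun j => ?_) (gw_nonneg _ _ _ _ _ _)) (gw_nonneg _ _ _ _ _ _)
  have e1 : ((s, i.1) : Pt) + ((t : ℤ), j.1 - i.1) = (s + t, j.1) := by ext <;> simp
  obtain ⟨w, -, hw, hc⟩ := TR_min hτ F.a0 (Co.ne_vt (c := F.co) (s, i.1) ht (j.1 - i.1))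
  have h1 : inE F.co (F.co.L * s) (F.co.L * s + (F.co.L * t).toNat) w := fun e he => slab_EI F.co s t (hw e he)
  have h2 := gw_ge hA hτ (Tg := {y | ∃ j ∈ J, y = F.co.vt (s + t, j)}) (r0 := r0) (x := x) h1
    ⟨j.1, j.2, by rw [e1]⟩ (by
    rw [kq_vt]
    exact hI i.1 i.2)
  refine le_trans (le_of_eq ?_) h2
  congr 1
  unfold lw X TT
  rw [hc, H_vt_sub]
  simp only [Prod.fst_add, Prod.snd_add]
  push_cast
  ring

theorem exp5 : (84 : ℝ) ≤ Real.exp 5 := by
  have h1 : (2.7 : ℝ) ≤ Real.exp 1 := by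
    have := Real.exp_one_gt_d9
    linarith
  have h2 : Real.exp 5 = Real.exp 1 ^ (5 : ℕ) := by
    rw [← Real.exp_nat_mul]
    norm_num
  rw [h2]
  have h3 : (2.7 : ℝ) ^ (5 : ℕ) ≤ Real.exp 1 ^ (5 : ℕ) := pow_le_pow_left₀ (by norm_num) h1 5
  refine le_trans ?_ h3
  norm_num

/-- **(EL) in the form of D7, one scale**: arbitrary start and target sets. -/
theorem el_GP2 (hAd : Adm F ka d) (hk : Lat F ka k1 K1 d) {s : ℤ} {t w : ℕ} {E b1 A p : ℝ} (hA : 1 ≤ A)
    (hE : 32 * A + 2 * C1 F + ka ≤ E) (ht : 1 ≤ t) (hb1 : 0 < b1) (hw : 4 * Dk F.co d.v + 1 ≤ w)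
    (hwE : (b1 + 20) * E ≤ de F d ka * (w / 2))
    (hMM : ∀ x : ℤ, (law F).real {η | b1 * E - CP F ≤ MM F d k1 s (s + t + 1) (x - 2 * w) (x + 2 * w) η} ≤ p)
    (hUR : ∀ x : ℤ, (law F).real {η | UU F d k1 s (s + t + 1) (x + w) (x + 3 / 2 * w) η ≤
      (11 + 2 * b1) * E + CL F k1 K1} ≤ p)
    (hUL : ∀ x : ℤ, (law F).real {η | UU F d k1 s (s + t + 1) (x - w) (x - 3 / 2 * w) η ≤
      (11 + 2 * b1) * E + CL F k1 K1} ≤ p)
    (hp : p ≤ Real.exp (-((8 * b1 + 84) * A))) {I J : Set ℤ} (x : ℤ) (y0 : ℝ)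
    (hI : ∀ i ∈ I, |lat d (s, i) - x| ≤ (w : ℝ)) (hJ : ∀ j ∈ J, |lat d (s + t, j) - y0| ≤ (w : ℝ)) :
    ∫ η, GP F d s t I J η ^ (4 * (A / E)) ∂(law F) ≤
      Real.exp (4 * ((b1 + 8) * A - 2 * A * (|(x : ℝ) - y0| / w))) := by
  have hC := C1_nonneg F
  have hD := Dk_one F.co d.v
  have hka := hAd.κ0
  have hde := de_pos hAd
  have hE0 : 0 < E := by linarith
  have hw5 : (5 : ℝ) ≤ w := by linarith
  have hp0 : 0 ≤ p := measureReal_nonneg.trans (hMM 0)
  obtain ⟨q, hq⟩ : ∃ q, q = 4 * (A / E) := ⟨_, rfl⟩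
  have hq0 : 0 < q := by rw [hq]; positivity
  have hqE : q * E = 4 * A := by
    rw [hq]
    field_simp
  have hq1 : q ≤ 1 := by
    have : q * E ≤ 1 * E := by
      rw [hqE]
      linarith
    exact le_of_mul_le_mul_right this hE0
  rw [← hq]
  obtain ⟨N, hN⟩ : ∃ N, N = (F.co.L * t).toNat := ⟨_, rfl⟩
  have hL := F.co.L_pos
  have hNt : ((N : ℕ) : ℤ) = F.co.L * t := by
    rw [hN, Int.toNat_of_nonneg (mul_nonneg (by omega) (by omega))]
  obtain ⟨Tg, hTg⟩ : ∃ Tg : Set V, Tg = {y | ∃ j ∈ J, y = F.co.vt (s + t, j)} := ⟨_, rfl⟩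
  have hTg1 : ∀ y ∈ Tg, F.co.L * s + (N : ℤ) ≤ F.co.tm y := by
    intro y hy
    rw [hTg] at hy
    obtain ⟨j, -, rfl⟩ := hy
    rw [Co.tm_vt, hNt]
    simp only
    have : F.co.L * (s + t) = F.co.L * s + F.co.L * t := by ring
    omega
  have hTg2 : ∀ y ∈ Tg, |kq F d y - y0| ≤ (w : ℝ) := by
    intro y hy
    rw [hTg] at hy
    obtain ⟨j, hj, rfl⟩ := hy
    rw [kq_vt]
    exact hJ j hj
  -- the two probabilities
  obtain ⟨B0, hB0⟩ : ∃ B0, B0 = C1 F + ka + 10 * E := ⟨_, rfl⟩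
  have hB : 0 < b1 * E := mul_pos hb1 hE0
  have hpB : ∀ x : ℤ, (law F).real {η | ∃ m ≤ N, HBs F d (F.co.L * s) (F.co.L * s + (m : ℕ)) ((2 * w : ℤ) : ℝ) (b1 * E) x
      (F.tau η)} ≤ p := by
    intro x
    refine (measureReal_mono ?_).trans (hMM x)
    rintro η ⟨m, hm, hη⟩
    have hmt : (m : ℤ) ≤ F.co.L * t := by
      rw [← hNt]
      exact_mod_cast hm
    have h1 := HBs_MM hAd hk η hmt hB hη
    push_cast at h1
    exact h1
  have hpE : ∀ x : ℤ, (law F).real {η | ∃ m ≤ N, HEs F d ka (F.co.L * s) (F.co.L * s + (m : ℕ)) ((2 * w : ℤ) : ℝ) w B0 x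
      (F.tau η)} ≤ 3 * p := by
    intro x
    have hsub : {η | ∃ m ≤ N, HEs F d ka (F.co.L * s) (F.co.L * s + (m : ℕ)) ((2 * w : ℤ) : ℝ) w B0 x (F.tau η)} ⊆
        {η | b1 * E - CP F ≤ MM F d k1 s (s + t + 1) (x - 2 * w) (x + 2 * w) η} ∪
        ({η | UU F d k1 s (s + t + 1) (x + w) (x + 3 / 2 * w) η ≤ (11 + 2 * b1) * E + CL F k1 K1} ∪
        {η | UU F d k1 s (s + t + 1) (x - w) (x - 3 / 2 * w) η ≤ (11 + 2 * b1) * E + CL F k1 K1}) := by
      rintro η ⟨m, hm, hη⟩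
      have hmt : (m : ℤ) ≤ F.co.L * t := by
        rw [← hNt]
        exact_mod_cast hm
      by_cases hM : b1 * E - CP F ≤ MM F d k1 s (s + t + 1) (x - 2 * w) (x + 2 * w) η
      · exact Or.inl hM
      · right
        have h1 := HEs_UU hAd hk η hmt (r0 := w) (mid := 3 / 2 * w) (B := b1 * E) (B0 := B0) (by push_cast; ring)
          (by linarith) (by linarith) (by push_cast; linarith) hB (by
            rw [hB0]
            push_cast
            have e : (2 * (w : ℝ) - 3 / 2 * w) = w / 2 := by ring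
            rw [e]
            linarith) hη (by
            push_cast
            exact not_le.1 hM)
        rcases h1 with h1 | h1
        · left
          rw [hB0] at h1
          simp only [Set.mem_setOf_eq]
          linarith
        · right
          rw [hB0] at h1
          simp only [Set.mem_setOf_eq]
          linarith
    have h1 := (measureReal_mono (μ := law F) hsub).trans (measureReal_union_le _ _)
    have h2 := measureReal_union_le (μ := law F)
      {η | UU F d k1 s (s + t + 1) (x + w) (x + 3 / 2 * w) η ≤ (11 + 2 * b1) * E + CL F k1 K1}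
      {η | UU F d k1 s (s + t + 1) (x - w) (x - 3 / 2 * w) η ≤ (11 + 2 * b1) * E + CL F k1 K1}
    linarith [hMM x, hUR x, hUL x]
  have hqB : q * (b1 * E + 2 * C1 F) ≤ 4 * A * (b1 + 1) := by
    have h1 : q * (b1 * E + 2 * C1 F) ≤ q * (b1 * E + E) := mul_le_mul_of_nonneg_left (by linarith) hq0.le
    refine h1.trans (le_of_eq ?_)
    linear_combination (b1 + 1) * hqE
  have hA5 : (84 : ℝ) ≤ Real.exp (5 * A) := exp5.trans (Real.exp_le_exp.2 (by linarith))
  have h2A : (2 : ℝ) ≤ Real.exp A := by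
    have := Real.add_one_le_exp A
    linarith
  have h4A : (4 : ℝ) ≤ Real.exp (2 * A) := by
    have e : Real.exp (2 * A) = Real.exp A * Real.exp A := by rw [← Real.exp_add]; congr 1; ring
    rw [e]
    nlinarith
  have h := el_prob hAd (s := F.co.L * s) (N := N) (S := (2 * w : ℤ)) (r0 := w) (by
      have : (0 : ℝ) < w := by linarith
      have : 0 < w := by exact_mod_cast this
      omega) (by push_cast; ring) (by linarith) hTg1 (y0 := y0) (r1 := (w : ℝ)) hTg2 (q := q) (B := b1 * E)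
    (B0 := B0) (p := p) (p' := 3 * p) (κ := Real.exp (-(37 * A))) (lam := Real.exp (-(16 * A))) hq0 hq1 hB.le hpB
    (by
      -- `exp (2 q (B + 2 C1)) p ≤ 1 / 2`
      have h1 : Real.exp (2 * q * (b1 * E + 2 * C1 F)) ≤ Real.exp (8 * A * (b1 + 1)) := Real.exp_le_exp.2 (by linarith)
      have h2 : Real.exp (2 * q * (b1 * E + 2 * C1 F)) * p ≤ Real.exp (8 * A * (b1 + 1)) * Real.exp (-((8 * b1 + 84) * A)) :=
        mul_le_mul h1 hp hp0 (Real.exp_pos _).le
      rw [← Real.exp_add] at h2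
      refine h2.trans ?_
      have h3 : Real.exp (8 * A * (b1 + 1) + -((8 * b1 + 84) * A)) ≤ Real.exp (-A) := Real.exp_le_exp.2 (by linarith)
      refine h3.trans ?_
      rw [Real.exp_neg, inv_le_comm₀ (Real.exp_pos _) (by norm_num)]
      linarith) hpE
    (by
      refine Real.exp_le_exp.2 ?_
      rw [hB0]
      have e : q * (C1 F + ka + 10 * E - C1 F - ka) = 40 * A := by linear_combination 10 * hqE
      rw [e]
      linarith)
    (by
      rw [← Real.mul_rpow (by linarith) (by positivity)]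
      have h1 : Real.exp (2 * q * (b1 * E + 2 * C1 F)) ≤ Real.exp (8 * A * (b1 + 1)) := Real.exp_le_exp.2 (by linarith)
      have h2 : 3 * p * (2 * Real.exp (2 * q * (b1 * E + 2 * C1 F))) ≤ Real.exp (-(37 * A)) ^ (2 : ℝ) := by
        rw [← Real.exp_mul]
        calc 3 * p * (2 * Real.exp (2 * q * (b1 * E + 2 * C1 F)))
            ≤ 3 * Real.exp (-((8 * b1 + 84) * A)) * (2 * Real.exp (8 * A * (b1 + 1))) :=
              mul_le_mul (mul_le_mul_of_nonneg_left hp (by norm_num)) (mul_le_mul_of_nonneg_left h1 (by norm_num))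
                (by positivity) (by positivity)
          _ = 6 * Real.exp (-(76 * A)) := by
              have e : Real.exp (-(76 * A)) = Real.exp (-((8 * b1 + 84) * A)) * Real.exp (8 * A * (b1 + 1)) := by
                rw [← Real.exp_add]
                congr 1
                ring
              rw [e]
              ring
          _ ≤ Real.exp (2 * A) * Real.exp (-(76 * A)) := by
              refine mul_le_mul_of_nonneg_right ?_ (Real.exp_pos _).le
              have h3 := Real.quadratic_le_exp_of_nonneg (show 0 ≤ 2 * A by linarith)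
              have h4 := Real.exp_one_gt_d9
              have h5 : Real.exp 2 ≤ Real.exp (2 * A) := Real.exp_le_exp.2 (by linarith)
              have h6 : Real.exp 2 = Real.exp 1 * Real.exp 1 := by rw [← Real.exp_add]; norm_num
              nlinarith
          _ = Real.exp (-(37 * A) * 2) := by
              rw [← Real.exp_add]
              congr 1
              ring
      have h3 := Real.rpow_le_rpow (by positivity) h2 (show (0 : ℝ) ≤ 1 / 2 by norm_num)
      refine h3.trans (le_of_eq ?_)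
      rw [← Real.rpow_mul (Real.exp_pos _).le]
      norm_num)
    (Real.exp_pos _) (Real.exp_le_one_iff.2 (by linarith))
    (by
      -- `exp (- δ S) ^ q ≤ lam / 2`
      rw [← Real.exp_mul]
      have h1 : 17 * A ≤ de F d ka * ((2 * w : ℤ) : ℝ) * q := by
        have h2 : (b1 + 20) * E * 4 ≤ de F d ka * ((2 * w : ℤ) : ℝ) := by
          push_cast
          linarith
        have h3 := mul_le_mul_of_nonneg_right h2 hq0.le
        have h4 : (b1 + 20) * E * 4 * q = (b1 + 20) * 16 * A := by linear_combination (b1 + 20) * 4 * hqE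
        nlinarith
      have h2 : Real.exp (-(de F d ka * ((2 * w : ℤ) : ℝ)) * q) ≤ Real.exp (-(17 * A)) := Real.exp_le_exp.2 (by linarith)
      refine h2.trans ?_
      have e : Real.exp (-(16 * A)) = Real.exp (-(17 * A)) * Real.exp A := by rw [← Real.exp_add]; congr 1; ring
      rw [e]
      have := Real.exp_pos (-(17 * A))
      nlinarith)
    (by
      -- `84 κ ≤ lam ^ 2`
      have e : Real.exp (-(16 * A)) ^ 2 = Real.exp (-(37 * A)) * Real.exp (5 * A) := by
        rw [← Real.exp_add, ← Real.exp_nat_mul]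
        congr 1
        push_cast
        ring
      rw [e, mul_comm]
      exact mul_le_mul_of_nonneg_left hA5 (Real.exp_pos _).le) x
  have hG : ∫ η, GP F d s t I J η ^ q ∂(law F) ≤
      ∫ η, gw F d (F.co.L * s) (F.co.L * s + N) Tg w x (F.tau η) ^ q ∂(law F) := by
    have hbd : ∀ η, gw F d (F.co.L * s) (F.co.L * s + N) Tg w x (F.tau η) ≤ Real.exp (K0 F N) := fun η =>
      gw_K hAd (tau_bd F η) (by omega) _ _ _
    have hint : Integrable (fun η => gw F d (F.co.L * s) (F.co.L * s + N) Tg w x (F.tau η) ^ q) (law F) :=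
      bdd_int ((gw_meas _ _ _ _ _).pow_const q) (fun η => Real.rpow_nonneg (gw_nonneg _ _ _ _ _ _) _)
        (K := Real.exp (K0 F N) ^ q) fun η => Real.rpow_le_rpow (gw_nonneg _ _ _ _ _ _) (hbd η) hq0.le
    refine integral_mono_of_nonneg (Filter.Eventually.of_forall fun η => Real.rpow_nonneg (GP_nonneg _ _ _ _ _) _) hint
      (Filter.Eventually.of_forall fun η => ?_)
    simp only
    refine Real.rpow_le_rpow (GP_nonneg _ _ _ _ _) ?_ hq0.le
    have h1 := GP_le hAd η (s := s) (t := t) ht (I := I) (J := J) (r0 := w) (x := x) hI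
    rw [← hN, ← hTg] at h1
    exact h1
  refine (hG.trans h).trans ?_
  -- the number of strips
  have hdst : |(x : ℝ) - y0| / (2 * w) - 3 / 2 ≤ (dsx (2 * w : ℤ) y0 (w : ℝ) x : ℝ) := by
    unfold dsx
    refine le_trans (le_of_eq ?_) (Nat.le_ceil _)
    have hwpos : (0 : ℝ) < w := by linarith
    push_cast
    field_simp
    ring
  have hpow : Real.exp (-(16 * A)) ^ dsx (2 * w : ℤ) y0 (w : ℝ) x ≤ Real.exp (24 * A - 8 * A * (|(x : ℝ) - y0| / w)) := by
    rw [← Real.exp_nat_mul]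
    refine Real.exp_le_exp.2 ?_
    have := mul_le_mul_of_nonneg_left hdst (show 0 ≤ 16 * A by linarith)
    have e : |(x : ℝ) - y0| / (2 * w) = |(x : ℝ) - y0| / w / 2 := by
      rw [div_div]
      congr 1
      ring
    rw [e] at this
    linarith
  calc 4 * Real.exp (q * (b1 * E + 2 * C1 F)) * Real.exp (-(16 * A)) ^ dsx (2 * w : ℤ) y0 (w : ℝ) x
      ≤ Real.exp (2 * A) * Real.exp (4 * A * (b1 + 1)) * Real.exp (24 * A - 8 * A * (|(x : ℝ) - y0| / w)) := by
        refine mul_le_mul (mul_le_mul h4A (Real.exp_le_exp.2 hqB) (Real.exp_pos _).le (Real.exp_pos _).le) hpow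
          (by positivity) (by positivity)
    _ = Real.exp (2 * A + 4 * A * (b1 + 1) + (24 * A - 8 * A * (|(x : ℝ) - y0| / w))) := by
        rw [← Real.exp_add, ← Real.exp_add]
    _ ≤ _ := by
        refine Real.exp_le_exp.2 ?_
        nlinarith

/-- **(EL) in the form of D7, one scale**: cells. -/
theorem el_GP (hAd : Adm F ka d) (hk : Lat F ka k1 K1 d) {s : ℤ} {t w : ℕ} {E b1 A p : ℝ} (hA : 1 ≤ A)
    (hE : 32 * A + 2 * C1 F + ka ≤ E) (ht : 1 ≤ t) (hb1 : 0 < b1) (hw : 4 * Dk F.co d.v + 1 ≤ w)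
    (hwE : (b1 + 20) * E ≤ de F d ka * (w / 2))
    (hMM : ∀ x : ℤ, (law F).real {η | b1 * E - CP F ≤ MM F d k1 s (s + t + 1) (x - 2 * w) (x + 2 * w) η} ≤ p)
    (hUR : ∀ x : ℤ, (law F).real {η | UU F d k1 s (s + t + 1) (x + w) (x + 3 / 2 * w) η ≤
      (11 + 2 * b1) * E + CL F k1 K1} ≤ p)
    (hUL : ∀ x : ℤ, (law F).real {η | UU F d k1 s (s + t + 1) (x - w) (x - 3 / 2 * w) η ≤
      (11 + 2 * b1) * E + CL F k1 K1} ≤ p)
    (hp : p ≤ Real.exp (-((8 * b1 + 84) * A))) {wc : ℕ} (hwc : w ≤ 2 * wc) (hwc' : wc ≤ w) (α k : ℤ) :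
    ∫ η, GP F d s t (cel d s wc α) (cel d (s + t) wc (α + k)) η ^ (4 * (A / E)) ∂(law F) ≤
      Real.exp (4 * ((b1 + 9) * A - |(k : ℝ)|)) := by
  have hD := Dk_one F.co d.v
  have hw5 : (5 : ℝ) ≤ w := by linarith
  have hwcr : (w : ℝ) ≤ 2 * wc := by exact_mod_cast hwc
  have hwcr' : (wc : ℝ) ≤ w := by exact_mod_cast hwc'
  obtain ⟨x, hx⟩ : ∃ x : ℤ, x = round (((α : ℝ) + 1 / 2) * wc) := ⟨_, rfl⟩
  have hx' : |(x : ℝ) - ((α : ℝ) + 1 / 2) * wc| ≤ 1 / 2 := by
    rw [hx, abs_sub_comm]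
    exact abs_sub_round _
  obtain ⟨y0, hy0⟩ : ∃ y0 : ℝ, y0 = ((α + k : ℤ) + 1 / 2 : ℝ) * wc := ⟨_, rfl⟩
  have h := el_GP2 hAd hk (s := s) (t := t) (I := cel d s wc α) (J := cel d (s + t) wc (α + k)) hA hE ht hb1 hw hwE
    hMM hUR hUL hp x y0 (by
      rintro i ⟨h1, h2⟩
      obtain ⟨h3, h4⟩ := abs_le.1 hx'
      rw [abs_le]
      constructor <;> linarith) (by
      rintro j ⟨h1, h2⟩
      rw [hy0, abs_le]
      push_cast at h1 h2 ⊢
      constructor <;> linarith)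
  refine h.trans (Real.exp_le_exp.2 ?_)
  have h1 : |(k : ℝ)| * wc ≤ |(x : ℝ) - y0| + 1 / 2 := by
    have e : (k : ℝ) * wc = (y0 - x) + (x - ((α : ℝ) + 1 / 2) * wc) := by
      rw [hy0]
      push_cast
      ring
    have h2 : |(k : ℝ) * wc| ≤ |y0 - x| + 1 / 2 := by
      rw [e]
      exact (abs_add_le _ _).trans (add_le_add le_rfl hx')
    rw [abs_mul, abs_of_nonneg (Nat.cast_nonneg wc : (0 : ℝ) ≤ wc), abs_sub_comm] at h2
    exact h2
  have hwpos : (0 : ℝ) < w := by linarith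
  have h2 : |(k : ℝ)| - 1 ≤ 2 * (|(x : ℝ) - y0| / w) := by
    rw [← mul_div_assoc, le_div_iff₀ hwpos]
    have h3 : |(k : ℝ)| * w ≤ |(k : ℝ)| * (2 * wc) := mul_le_mul_of_nonneg_left hwcr (abs_nonneg _)
    linarith
  have h3 := mul_le_mul_of_nonneg_left h2 (show 0 ≤ A by linarith)
  have h4 : 0 ≤ (A - 1) * |(k : ℝ)| := mul_nonneg (by linarith) (abs_nonneg _)
  nlinarith

end Pool.Agent.W_1b8d5d_p.El0
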