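import Pool.Agent.W_1b8d5d_p.FrGen
import Pool.Agent.W_1b8d5d_p.Unit1

/-!
MP_1b8d5d_pr, Track P. The frame: lucks of boxes and lines, and hard passages, from travellers.
-/

namespace Pool.Agent.W_1b8d5d_p

open MeasureTheory Set
open Pool.Agent.W_1b8d5d_h85

noncomputable section

variable {F : Fm} {κ k1 : ℝ} {d : Dr}

/-- From tails to means. -/
theorem frluck_tail {Ω : Type*} [MeasurableSpace Ω] {μ : Measure Ω} [IsProbabilityMeasure μ] {L G : Ω → ℝ} {a c : ℝ}
    (hc : 0 ≤ c) (hL : Measurable L) (hG : Measurable G)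
    (G0 : ∀ η, 0 ≤ G η) (iL : Integrable L μ) (iG : Integrable G μ)
    (h : ∀ Y : ℝ, a < Y → μ.real {η | Y < L η} ≤ c * μ.real {η | Y - a ≤ G η}) :
    ∫ η, L η ∂μ ≤ a + c * ∫ η, G η ∂μ := by
  obtain ⟨K, hK⟩ : ∃ K : Ω → ℝ, K = fun η => max (L η - a) 0 := ⟨_, rfl⟩
  have K0 : ∀ η, 0 ≤ K η := fun η => by rw [hK]; exact le_max_right _ _
  have hKm : Measurable K := by rw [hK]; exact (hL.sub_const a).max measurable_const
  have iK : Integrable K μ := by
    rw [hK]
    exact (iL.sub (integrable_const a)).sup (integrable_const 0)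
  have hLK : ∀ η, L η ≤ a + K η := fun η => by
    rw [hK]
    have := le_max_left (L η - a) 0
    show L η ≤ a + max (L η - a) 0
    linarith
  have e1 : ∫⁻ η, ENNReal.ofReal (K η) ∂μ ≤ ENNReal.ofReal c * ∫⁻ η, ENNReal.ofReal (G η) ∂μ := by
    rw [lintegral_eq_lintegral_meas_lt μ (Filter.Eventually.of_forall K0) hKm.aemeasurable,
      lintegral_eq_lintegral_meas_le μ (Filter.Eventually.of_forall G0) hG.aemeasurable,
      ← lintegral_const_mul' _ _ ENNReal.ofReal_ne_top]
    refine setLIntegral_mono' measurableSet_Ioi fun t ht => ?_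
    have ht0 : (0 : ℝ) < t := ht
    have h1 := h (t + a) (by linarith)
    have e2 : t + a - a = t := by ring
    rw [e2] at h1
    have e3 : {η | t < K η} = {η | t + a < L η} := by
      ext η
      rw [hK]
      show t < max (L η - a) 0 ↔ t + a < L η
      rw [lt_max_iff]
      constructor
      · rintro (h2 | h2)
        · linarith
        · linarith
      · intro h2
        left
        linarith
    rw [e3]
    have h2 := ENNReal.ofReal_le_ofReal h1
    rw [ENNReal.ofReal_mul hc, ofReal_measureReal, ofReal_measureReal] at h2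
    exact h2
  have e2 : ∫ η, K η ∂μ ≤ c * ∫ η, G η ∂μ := by
    rw [← ofReal_integral_eq_lintegral_ofReal iK (Filter.Eventually.of_forall K0),
      ← ofReal_integral_eq_lintegral_ofReal iG (Filter.Eventually.of_forall G0)] at e1
    rw [← ENNReal.ofReal_mul hc] at e1
    have hG0 : 0 ≤ ∫ η, G η ∂μ := integral_nonneg G0
    exact (ENNReal.ofReal_le_ofReal_iff (by positivity)).1 e1
  calc ∫ η, L η ∂μ ≤ ∫ η, (a + K η) ∂μ := integral_mono iL ((integrable_const a).add iK) hLK
    _ = a + ∫ η, K η ∂μ := by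
        rw [integral_add (integrable_const a) iK, integral_const, probReal_univ, one_smul]
    _ ≤ a + c * ∫ η, G η ∂μ := by linarith

/-- Markov. -/
theorem markov34 (hd : Adm F κ d) {P Q : Pt} {m : ℕ} {y : ℤ} (h1 : P.1 + m = Q.1) (h2 : P.2 + y = Q.2) (hm : 1 ≤ m)
    {A : ℝ} (hA : 0 < A) (he : ep F d m y ≤ A) : 3 / 4 ≤ (law F).real {η | XP F d η P Q ≤ 4 * A} := by
  have hX : ∀ η, XP F d η P Q = X F d η P m y := by
    intro η
    unfold XP
    have e1 : (Q.1 - P.1).toNat = m := by omega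
    have e2 : Q.2 - P.2 = y := by omega
    rw [e1, e2]
  have hmeas : Measurable fun η => max (X F d η P m y) 0 := (X_meas F d P m y).max measurable_const
  have hint : Integrable (fun η => max (X F d η P m y) 0) (law F) := (X_integrable hd P hm y).pos_part
  have h3 := mul_meas_ge_le_integral_of_nonneg (μ := law F) (f := fun η => max (X F d η P m y) 0)
    (Filter.Eventually.of_forall fun _ => le_max_right _ _) hint (4 * A)
  rw [ep_at] at h3
  have h4 : (law F).real {η | XP F d η P Q ≤ 4 * A}ᶜ ≤ 1 / 4 := by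
    have h5 : (law F).real {η | XP F d η P Q ≤ 4 * A}ᶜ ≤ (law F).real {η | 4 * A ≤ max (X F d η P m y) 0} := by
      refine measureReal_mono ?_ (measure_ne_top _ _)
      intro η hη
      simp only [mem_compl_iff, mem_ofPred_eq, not_le, hX] at hη
      exact hη.le.trans (le_max_left _ _)
    have h6 : 4 * A * (law F).real {η | 4 * A ≤ max (X F d η P m y) 0} ≤ A := h3.trans he
    have h7 : 4 * (law F).real {η | 4 * A ≤ max (X F d η P m y) 0} ≤ 1 := by
      have : A * (4 * (law F).real {η | 4 * A ≤ max (X F d η P m y) 0}) ≤ A * 1 := by linarith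
      exact le_of_mul_le_mul_left this hA
    linarith
  have hms : MeasurableSet {η | XP F d η P Q ≤ 4 * A} := by
    simp_rw [hX]
    exact measurableSet_le (X_meas F d P m y) measurable_const
  rw [probReal_compl_eq_one_sub hms] at h4
  linarith

private theorem frluck_MM_meas (F : Fm) (d : Dr) (k1 : ℝ) (s t : ℤ) (x0 x1 : ℝ) : Measurable fun η => MM F d k1 s t x0 x1 η :=
  Measurable.iSup fun p => (X_meas F d p.1.1 _ _).neg.sub_const _

private theorem frluck_UU_meas (F : Fm) (d : Dr) (k1 : ℝ) (s t : ℤ) (l l' : ℝ) : Measurable fun η => UU F d k1 s t l l' η :=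
  Measurable.iInf fun p => (X_meas F d p.1.1 _ _).add_const _

private theorem frluck_MM_le (hd : Adm F κ d) (hk : 0 ≤ k1) {s t : ℤ} (hst : s ≤ t) (x0 x1 : ℝ) (η : Env) :
    MM F d k1 s t x0 x1 η ≤ bb F * F.co.L * ((t : ℝ) - s) := by
  have : Nonempty {p : Pt × Pt // IsPr s t p.1 p.2} := ⟨⟨((s, 0), (s, 0)), ⟨le_rfl, hst, Or.inr rfl⟩⟩⟩
  refine ciSup_le fun p => ?_
  have h1 := XP_ge' hd η p.2
  have h2 : 0 ≤ k1 * dI x0 x1 (lat d p.1.1) := mul_nonneg hk (dI_nonneg _ _ _)
  linarith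

/-- A box contains a trivial pair. -/
theorem MM_ge (hd : Adm F κ d) (hk : 0 ≤ k1) {s t : ℤ} (hst : s ≤ t) {x0 x1 : ℝ} (hx : x0 ≤ x1) (η : Env) :
    -k1 ≤ MM F d k1 s t x0 x1 η := by
  have h1 := le_MM (η := η) hd hk x0 x1 (P := (s, ⌊x0 + d.v * s⌋)) (Q := (s, ⌊x0 + d.v * s⌋)) (s := s) (t := t)
    ⟨le_rfl, hst, Or.inr rfl⟩
  rw [XP_self] at h1
  have h2 : dI x0 x1 (lat d (s, ⌊x0 + d.v * s⌋)) ≤ 1 := by
    refine (dI_le x0 x1 (y := x0) ⟨le_rfl, hx⟩).trans ?_
    unfold lat
    simp only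
    have h3 := Int.floor_le (x0 + d.v * s)
    have h4 := Int.lt_floor_add_one (x0 + d.v * s)
    rw [abs_le]
    constructor <;> linarith
  have h5 := mul_le_mul_of_nonneg_left h2 hk
  linarith

/-- **BOX, in probability.** Travellers reach the box from the far point `(-T, o)`. -/
theorem box_prob (hd : Adm F κ d) (hk : 0 < k1) {n T : ℕ} (hT : 1 ≤ T) {A E' : ℝ} (hA : 0 < A) (hE : 0 < E') {x0 x1 : ℝ}
    {o : ℤ}
    (htr : ∀ t : ℕ, t ≤ n → ∀ p : ℤ, k1 * dI x0 x1 (p - d.v * t) ≤ bb F * F.co.L * n →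
      ep F d (T + t) (p - o) ≤ A + k1 / 4 * dI x0 x1 (p - d.v * t))
    (href : ∀ m : ℕ, 1 ≤ m → m ≤ n + 1 → ∃ y, ep F d m y ≤ E') {y : ℝ} (hy : 0 ≤ y) :
    9 / 16 * (law F).real {η | y < MM F d k1 0 n x0 x1 η} ≤
      (law F).real {η | y - 4 * A - 4 * E' ≤ VV F d η (-(T : ℤ), o) (T + n + 1)} := by
  classical
  have hSl := sl_of hd
  have hbb : 0 ≤ bb F * F.co.L := by
    have h1 : (2 : ℝ) ≤ F.co.L := by exact_mod_cast F.co.L_pos
    have := F.a0
    have := F.ab
    unfold bb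
    exact mul_nonneg (by linarith) (by linarith)
  choose! yr hyr using href
  set SP : Set Pt := {P | k1 * dI x0 x1 (lat d P) ≤ bb F * F.co.L * n} with hSP
  have hg := gen hSl (s := 0) (t := n) (O := (-(T : ℤ), o)) (by simp only; omega)
    (Z := fun Q => ((n : ℤ) + 1, Q.2 + yr ((n : ℤ) + 1 - Q.1).toNat)) (SP := SP) (SQ := univ)
    (by intro Q _ hQ; simp only; omega) (φ := fun P => k1 * dI x0 x1 (lat d P)) (ψ := fun _ => 0) (a := 4 * A)
    (b := 4 * E') (y := y) (by
      intro P hP h1 h2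
      have h3 : k1 * dI x0 x1 ((P.2 : ℝ) - d.v * (P.1.toNat : ℕ)) ≤ bb F * F.co.L * n := by
        have h4 : ((P.1.toNat : ℕ) : ℝ) = P.1 := by
          rw [← Int.cast_natCast, Int.toNat_of_nonneg h1]
        rw [h4]
        exact hP
      have h5 := htr P.1.toNat (by omega) P.2 h3
      have h6 : dI x0 x1 ((P.2 : ℝ) - d.v * (P.1.toNat : ℕ)) = dI x0 x1 (lat d P) := by
        have h4 : ((P.1.toNat : ℕ) : ℝ) = P.1 := by
          rw [← Int.cast_natCast, Int.toNat_of_nonneg h1]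
        rw [h4]
        rfl
      rw [h6] at h5
      have h7 : 0 ≤ k1 / 4 * dI x0 x1 (lat d P) := mul_nonneg (by linarith) (dI_nonneg _ _ _)
      have h8 := markov34 hd (P := (-(T : ℤ), o)) (Q := P) (m := T + P.1.toNat) (y := P.2 - o)
        (by simp only; push_cast; omega) (by simp only; omega) (by omega) (by linarith) h5
      have h9 : 4 * (A + k1 / 4 * dI x0 x1 (lat d P)) = 4 * A + k1 * dI x0 x1 (lat d P) := by ring
      rw [h9] at h8
      exact h8) (by
      intro Q _ h1 h2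
      have h3 : 1 ≤ ((n : ℤ) + 1 - Q.1).toNat := by omega
      have h8 := markov34 hd (P := Q) (Q := ((n : ℤ) + 1, Q.2 + yr ((n : ℤ) + 1 - Q.1).toNat))
        (m := ((n : ℤ) + 1 - Q.1).toNat) (y := yr ((n : ℤ) + 1 - Q.1).toNat)
        (by simp only; omega) (by simp only) h3 hE (hyr _ h3 (by omega))
      rw [add_zero]
      exact h8)
  refine le_trans (mul_le_mul_of_nonneg_left (measureReal_mono ?_ (measure_ne_top _ _)) (by norm_num)) (hg.trans
    (measureReal_mono ?_ (measure_ne_top _ _)))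
  · intro η hη
    have hη' : y < ⨆ p : {p : Pt × Pt // IsPr 0 n p.1 p.2}, (-XP F d η p.1.1 p.1.2 - k1 * dI x0 x1 (lat d p.1.1)) := hη
    have : Nonempty {p : Pt × Pt // IsPr 0 n p.1 p.2} :=
      ⟨⟨((0, 0), (0, 0)), ⟨le_rfl, by simp only; omega, Or.inr rfl⟩⟩⟩
    obtain ⟨p, hp⟩ := exists_lt_of_lt_ciSup hη'
    refine ⟨p.1.1, p.1.2, ?_, mem_univ _, p.2, by linarith⟩
    have h1 := XP_ge' hd η p.2
    rw [hSP, mem_ofPred_eq]
    push_cast at h1
    rw [sub_zero] at h1
    linarith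
  · rintro η ⟨Q, -, h1, h2, h3⟩
    rw [mem_ofPred_eq]
    refine h3.trans ?_
    have h4 := neg_X_le_VV hd η (-(T : ℤ), o) (n := T + n + 1) (by omega)
      ((Q.2 + yr ((n : ℤ) + 1 - Q.1).toNat) - o)
    refine le_trans (le_of_eq ?_) h4
    unfold XP
    simp only
    congr 2
    omega

/-- **BOX, mean.** -/
theorem box_mean (hd : Adm F κ d) (hk : 0 < k1) {n T : ℕ} (hT : 1 ≤ T) {A E' : ℝ} (hA : 0 < A) (hE : 0 < E') {x0 x1 : ℝ}
    (hx : x0 ≤ x1) {o : ℤ}
    (htr : ∀ t : ℕ, t ≤ n → ∀ p : ℤ, k1 * dI x0 x1 (p - d.v * t) ≤ bb F * F.co.L * n →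
      ep F d (T + t) (p - o) ≤ A + k1 / 4 * dI x0 x1 (p - d.v * t))
    (href : ∀ m : ℕ, 1 ≤ m → m ≤ n + 1 → ∃ y, ep F d m y ≤ E') :
    ∫ η, max (MM F d k1 0 n x0 x1 η) 0 ∂(law F) ≤
      4 * A + 4 * E' + 16 / 9 * ∫ η, max (VV F d η 0 (T + n + 1)) 0 ∂(law F) := by
  have hVm : Measurable fun η => max (VV F d η (-(T : ℤ), o) (T + n + 1)) 0 :=
    (VV_meas F d _ _).max measurable_const
  have hVi : Integrable (fun η => max (VV F d η (-(T : ℤ), o) (T + n + 1)) 0) (law F) :=
    (VV_integrable hd _ (by omega)).pos_part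
  have hMm : Measurable fun η => max (MM F d k1 0 n x0 x1 η) 0 := (frluck_MM_meas F d k1 0 n x0 x1).max measurable_const
  have hMi : Integrable (fun η => max (MM F d k1 0 n x0 x1 η) 0) (law F) := by
    refine Integrable.mono' (integrable_const (|bb F * F.co.L * n|)) hMm.aestronglyMeasurable
      (Filter.Eventually.of_forall fun η => ?_)
    have h1 := frluck_MM_le (η := η) hd hk.le (s := 0) (t := n) (by omega) x0 x1
    push_cast at h1
    rw [sub_zero] at h1
    rw [Real.norm_eq_abs, abs_of_nonneg (le_max_right _ _)]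
    exact max_le (h1.trans (le_abs_self _)) (abs_nonneg _)
  have h1 := frluck_tail (μ := law F) (L := fun η => max (MM F d k1 0 n x0 x1 η) 0)
    (G := fun η => max (VV F d η (-(T : ℤ), o) (T + n + 1)) 0) (a := 4 * A + 4 * E') (c := 16 / 9) (by norm_num) hMm hVm
    (fun _ => le_max_right _ _) hMi hVi (by
      intro Y hY
      have hY0 : 0 ≤ Y := by linarith
      have h2 := box_prob hd hk hT hA hE (x0 := x0) (x1 := x1) (o := o) htr href hY0
      have h3 : {η | Y < max (MM F d k1 0 n x0 x1 η) 0} ⊆ {η | Y < MM F d k1 0 n x0 x1 η} := by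
        intro η hη
        have hη' : Y < max (MM F d k1 0 n x0 x1 η) 0 := hη
        rcases lt_max_iff.1 hη' with h | h
        · exact h
        · linarith
      have h4 : {η | Y - 4 * A - 4 * E' ≤ VV F d η (-(T : ℤ), o) (T + n + 1)} ⊆
          {η | Y - (4 * A + 4 * E') ≤ max (VV F d η (-(T : ℤ), o) (T + n + 1)) 0} := by
        intro η hη
        have hη' : Y - 4 * A - 4 * E' ≤ VV F d η (-(T : ℤ), o) (T + n + 1) := hη
        have := le_max_left (VV F d η (-(T : ℤ), o) (T + n + 1)) 0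
        rw [mem_ofPred_eq]
        linarith
      have h5 := measureReal_mono (μ := law F) h3 (measure_ne_top _ _)
      have h6 := measureReal_mono (μ := law F) h4 (measure_ne_top _ _)
      linarith)
  have h2 : ∫ η, max (VV F d η (-(T : ℤ), o) (T + n + 1)) 0 ∂(law F) = ∫ η, max (VV F d η 0 (T + n + 1)) 0 ∂(law F) := by
    have h3 := shp_int (F := F) (g := fun η => max (VV F d η 0 (T + n + 1)) 0)
      ((VV_meas F d _ _).max measurable_const) (-(T : ℤ), o)
    simp_rw [VV_shp, zero_add] at h3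
    exact h3
  rw [h2] at h1
  exact h1

/-- **HARD.** A cheap passage from the line `l` to the line `l'` gives a cheap displacement `(2 T + n, z - o)`. -/
theorem hard_prob (hd : Adm F κ d) (hk : 0 < k1) {n T : ℕ} (hT : 1 ≤ T) {A : ℝ} (hA : 0 < A) {l l' : ℝ} {o z : ℤ} {c : ℝ}
    (htr : ∀ t : ℕ, t ≤ n → ∀ p : ℤ, k1 * |p - d.v * t - l| ≤ bb F * F.co.L * n + c →
      ep F d (T + t) (p - o) ≤ A + k1 / 4 * |p - d.v * t - l|)
    (htr' : ∀ t : ℕ, t ≤ n → ∀ p : ℤ, k1 * |p - d.v * t - l'| ≤ bb F * F.co.L * n + c →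
      ep F d (T + (n - t)) (z - p) ≤ A + k1 / 4 * |p - d.v * t - l'|) :
    9 / 16 * (law F).real {η | UU F d k1 0 n l l' η < c} ≤
      (law F).real {η | X F d η 0 (T + n + T) (z - o) ≤ c + 8 * A} := by
  classical
  have hSl := sl_of hd
  have hnat : ∀ P : Pt, 0 ≤ P.1 → ((P.1.toNat : ℕ) : ℝ) = P.1 := fun P h1 => by
    rw [← Int.cast_natCast, Int.toNat_of_nonneg h1]
  have hg := gen hSl (s := 0) (t := n) (O := (-(T : ℤ), o)) (by simp only; omega)
    (Z := fun _ => ((n : ℤ) + T, z)) (SP := {P | k1 * |lat d P - l| ≤ bb F * F.co.L * n + c})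
    (SQ := {Q | k1 * |lat d Q - l'| ≤ bb F * F.co.L * n + c})
    (by intro Q _ hQ; simp only; omega) (φ := fun P => k1 * |lat d P - l|) (ψ := fun Q => k1 * |lat d Q - l'|) (a := 4 * A)
    (b := 4 * A) (y := -c) (by
      intro P hP h1 h2
      have h3 : k1 * |(P.2 : ℝ) - d.v * (P.1.toNat : ℕ) - l| ≤ bb F * F.co.L * n + c := by
        rw [hnat P h1]
        exact hP
      have h5 := htr P.1.toNat (by omega) P.2 h3
      have h6 : |(P.2 : ℝ) - d.v * (P.1.toNat : ℕ) - l| = |lat d P - l| := by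
        rw [hnat P h1]
        rfl
      rw [h6] at h5
      have h7 : 0 ≤ k1 / 4 * |lat d P - l| := mul_nonneg (by linarith) (abs_nonneg _)
      have h8 := markov34 hd (P := (-(T : ℤ), o)) (Q := P) (m := T + P.1.toNat) (y := P.2 - o)
        (by simp only; push_cast; omega) (by simp only; omega) (by omega) (by linarith) h5
      have h9 : 4 * (A + k1 / 4 * |lat d P - l|) = 4 * A + k1 * |lat d P - l| := by ring
      rw [h9] at h8
      exact h8) (by
      intro Q hQ h1 h2
      have h3 : k1 * |(Q.2 : ℝ) - d.v * (Q.1.toNat : ℕ) - l'| ≤ bb F * F.co.L * n + c := by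
        rw [hnat Q h1]
        exact hQ
      have h5 := htr' Q.1.toNat (by omega) Q.2 h3
      have h6 : |(Q.2 : ℝ) - d.v * (Q.1.toNat : ℕ) - l'| = |lat d Q - l'| := by
        rw [hnat Q h1]
        rfl
      rw [h6] at h5
      have h7 : 0 ≤ k1 / 4 * |lat d Q - l'| := mul_nonneg (by linarith) (abs_nonneg _)
      have h8 := markov34 hd (P := Q) (Q := ((n : ℤ) + T, z)) (m := T + (n - Q.1.toNat)) (y := z - Q.2)
        (by simp only; push_cast; omega) (by simp only; omega) (by omega) (by linarith) h5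
      have h9 : 4 * (A + k1 / 4 * |lat d Q - l'|) = 4 * A + k1 * |lat d Q - l'| := by ring
      rw [h9] at h8
      exact h8)
  refine le_trans (mul_le_mul_of_nonneg_left (measureReal_mono ?_ (measure_ne_top _ _)) (by norm_num)) (hg.trans ?_)
  · intro η hη
    have hη' : (⨅ p : {p : Pt × Pt // IsPr 0 n p.1 p.2}, (XP F d η p.1.1 p.1.2 +
      k1 * (|lat d p.1.1 - l| + |lat d p.1.2 - l'|))) < c := hη
    have : Nonempty {p : Pt × Pt // IsPr 0 n p.1 p.2} :=
      ⟨⟨((0, 0), (0, 0)), ⟨le_rfl, by simp only; omega, Or.inr rfl⟩⟩⟩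
    obtain ⟨p, hp⟩ := exists_lt_of_ciInf_lt hη'
    have h1 := XP_ge' hd η p.2
    push_cast at h1
    rw [sub_zero] at h1
    have h2 : 0 ≤ k1 * |lat d p.1.1 - l| := by positivity
    have h3 : 0 ≤ k1 * |lat d p.1.2 - l'| := by positivity
    refine ⟨p.1.1, p.1.2, ?_, ?_, p.2, by linarith⟩
    · rw [mem_ofPred_eq]
      linarith
    · rw [mem_ofPred_eq]
      linarith
  · have h1 : (law F).real {η | X F d η 0 (T + n + T) (z - o) ≤ c + 8 * A} =
        (law F).real {η | X F d η (-(T : ℤ), o) (T + n + T) (z - o) ≤ c + 8 * A} := by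
      have h2 := shp_real (F := F) (E := {η | X F d η 0 (T + n + T) (z - o) ≤ c + 8 * A})
        (measurableSet_le (X_meas F d 0 _ _) measurable_const) (-(T : ℤ), o)
      rw [← h2]
      congr 1
      ext η
      simp only [mem_ofPred_eq, X_shp, zero_add]
    rw [h1]
    refine measureReal_mono ?_ (measure_ne_top _ _)
    rintro η ⟨Q, -, h2, h3, h4⟩
    rw [mem_ofPred_eq]
    have h5 : XP F d η (-(T : ℤ), o) ((n : ℤ) + T, z) = X F d η (-(T : ℤ), o) (T + n + T) (z - o) := by
      unfold XP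
      simp only
      congr 1
      omega
    rw [h5] at h4
    linarith

end

end Pool.Agent.W_1b8d5d_p
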