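import Pool.Agent.W_1b8d5d_p.DPe
import Pool.Agent.W_1b8d5d_p.FrLuck
import Pool.Agent.W_1b8d5d_p.ElG

/-!
TRACK P, (EL) at zero temperature (proofs row 632): fourth moments in the form of D7. helper67.
-/

set_option autoImplicit false

namespace Pool.Agent.W_1b8d5d_p.El0

open MeasureTheory Set
open Pool.Agent.W_1b8d5d_h85
open Pool.Agent.W_1b8d5d_p
open Pool.Agent.W_1b8d5d_p66 (GG ex Y GG_meas iSup_pow_le ex_pow)

variable {F : Fm} {ka k1 K1 : ℝ} {d : Dr}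

/-- A slab passage time is the cost of a walk. -/
theorem X_walk (F : Fm) (d : Dr) (η : Env) (s : ℤ) {t : ℕ} (ht : 1 ≤ t) (i j : ℤ) :
    ∃ w : grid.Walk (F.co.vt (s, i)) (F.co.vt ((s, i) + ((t : ℤ), j - i))),
      inE F.co (F.co.L * s) (F.co.L * s + (F.co.L * t).toNat) w ∧ -X F d η (s, i) t (j - i) = lw d (F.tau η) w := by
  obtain ⟨w, -, hw, hc⟩ := TR_min (tau_bd F η) F.a0 (Co.ne_vt (c := F.co) (s, i) ht (j - i))
  refine ⟨w, fun e he => slab_EI F.co s t (hw e he), ?_⟩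
  unfold lw X TT
  rw [hc, H_vt_sub]
  simp only [Prod.fst_add, Prod.snd_add]
  push_cast
  ring

theorem X_exp (hA : Adm F ka d) (η : Env) (s : ℤ) {t : ℕ} (ht : 1 ≤ t) (i j : ℤ) :
    Real.exp (-X F d η (s, i) t (j - i)) ≤ Real.exp (K0 F (F.co.L * t).toNat) := by
  obtain ⟨w, h1, h2⟩ := X_walk F d η s ht i j
  rw [h2]
  exact Real.exp_le_exp.2 (lw_bd' hA (tau_bd F η) (by omega) h1)

theorem le_GP (hA : Adm F ka d) (η : Env) {s : ℤ} {t : ℕ} (ht : 1 ≤ t) {I J : Set ℤ} {i j : ℤ} (hi : i ∈ I) (hj : j ∈ J) :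
    Real.exp (-X F d η (s, i) t (j - i)) ≤ GP F d s t I J η := by
  have h1 : ∀ i : I, (⨆ j : J, Real.exp (-X F d η (s, i.1) t (j.1 - i.1))) ≤ Real.exp (K0 F (F.co.L * t).toNat) :=
    fun i => Real.iSup_le (fun j => X_exp hA η s ht i.1 j.1) (Real.exp_pos _).le
  have h2 : Real.exp (-X F d η (s, i) t (j - i)) ≤ ⨆ j : J, Real.exp (-X F d η (s, i) t (j.1 - i)) :=
    le_ciSup (f := fun j : J => Real.exp (-X F d η (s, i) t (j.1 - i)))
      ⟨Real.exp (K0 F (F.co.L * t).toNat), by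
        rintro r ⟨j, rfl⟩
        exact X_exp hA η s ht i j.1⟩ (⟨j, hj⟩ : J)
  refine h2.trans ?_
  exact le_ciSup (f := fun i : I => ⨆ j : J, Real.exp (-X F d η (s, i.1) t (j.1 - i.1)))
    ⟨Real.exp (K0 F (F.co.L * t).toNat), by
      rintro r ⟨i, rfl⟩
      exact h1 i⟩ (⟨i, hi⟩ : I)

theorem GP_bd (hA : Adm F ka d) (η : Env) {s : ℤ} {t : ℕ} (ht : 1 ≤ t) (I J : Set ℤ) :
    GP F d s t I J η ≤ Real.exp (K0 F (F.co.L * t).toNat) :=
  Real.iSup_le (fun i => Real.iSup_le (fun j => X_exp hA η s ht i.1 j.1) (Real.exp_pos _).le) (Real.exp_pos _).le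

theorem GP_meas (s : ℤ) (t : ℕ) (I J : Set ℤ) : Measurable (GP F d s t I J) :=
  Measurable.iSup fun i => Measurable.iSup fun j => (X_meas F d _ _ _).neg.exp

theorem GG_GP (hA : Adm F ka d) (η : Env) {t : ℕ} (ht : 1 ≤ t) {θ : ℝ} (hθ : 0 ≤ θ) (y0 w : ℤ) :
    GG F d θ 0 0 t y0 w η ^ 4 ≤
      ENNReal.ofReal (GP F d 0 t {i | 0 ≤ i ∧ i ≤ w} {j | y0 ≤ j ∧ j ≤ y0 + w} η ^ (4 * θ)) := by
  unfold GG
  refine iSup_pow_le fun x => iSup_pow_le fun hx => iSup_pow_le fun k => iSup_pow_le fun hk => ?_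
  rw [ex_pow]
  unfold ex
  refine ENNReal.ofReal_le_ofReal ?_
  have h1 : Real.exp (((4 : ℕ) : ℝ) * -(θ * Y F d η 0 x t k)) = Real.exp (-X F d η (0, x) t (k - x)) ^ (4 * θ) := by
    rw [← Real.exp_mul]
    congr 1
    unfold Y
    push_cast
    ring
  rw [h1]
  exact Real.rpow_le_rpow (Real.exp_pos _).le (le_GP hA η ht ⟨by simpa using hx.1, by simpa using hx.2⟩ hk) (by linarith)

theorem IsPr_mono {s t t' : ℤ} (h : t ≤ t') {P Q : Pt} (hPQ : IsPr s t P Q) : IsPr s t' P Q :=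
  ⟨hPQ.1, hPQ.2.1.trans h, hPQ.2.2⟩

theorem MM_mono (hd : Adm F ka d) (hk : 0 ≤ k1) {s t t' : ℤ} (hst : s ≤ t) (h : t ≤ t') (x0 x1 : ℝ) (η : Env) :
    MM F d k1 s t x0 x1 η ≤ MM F d k1 s t' x0 x1 η := by
  have : Nonempty {p : Pt × Pt // IsPr s t p.1 p.2} := ⟨⟨((s, 0), (s, 0)), ⟨le_rfl, hst, Or.inr rfl⟩⟩⟩
  exact ciSup_le fun p => le_MM hd hk x0 x1 η (IsPr_mono h p.2)

theorem UU_anti (hd : Adm F ka d) (hk : 0 ≤ k1) {s t t' : ℤ} (hst : s ≤ t) (h : t ≤ t') (l l' : ℝ) (η : Env) :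
    UU F d k1 s t' l l' η ≤ UU F d k1 s t l l' η := by
  have : Nonempty {p : Pt × Pt // IsPr s t p.1 p.2} := ⟨⟨((s, 0), (s, 0)), ⟨le_rfl, hst, Or.inr rfl⟩⟩⟩
  exact le_ciInf fun p => UU_le hd hk l l' η (IsPr_mono h p.2)

/-- **(EL), the fourth moments of D7.** -/
theorem el_GG (hAd : Adm F ka d) (hk : Lat F ka k1 K1 d) {n w : ℕ} {E b1 A p : ℝ} (hA : 1 ≤ A)
    (hE : 32 * A + 2 * C1 F + ka ≤ E) (hb1 : 0 < b1) (hw : 4 * Dk F.co d.v + 1 ≤ w)
    (hwE : (b1 + 20) * E ≤ de F d ka * (w / 2))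
    (hMM : ∀ x : ℤ, (law F).real {η | b1 * E - CP F ≤ MM F d k1 0 n (x - 2 * w) (x + 2 * w) η} ≤ p)
    (hUR : ∀ x : ℤ, (law F).real {η | UU F d k1 0 n (x + w) (x + 3 / 2 * w) η ≤ (11 + 2 * b1) * E + CL F k1 K1} ≤ p)
    (hUL : ∀ x : ℤ, (law F).real {η | UU F d k1 0 n (x - w) (x - 3 / 2 * w) η ≤ (11 + 2 * b1) * E + CL F k1 K1} ≤ p)
    (hp : p ≤ Real.exp (-((8 * b1 + 84) * A))) {t : ℕ} (ht : 1 ≤ t) (htn : t + 1 ≤ n) {wq : ℕ} (hwq : w ≤ 2 * wq)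
    (hwq' : wq ≤ w) (y0 : ℤ) :
    ∫⁻ η, GG F d (A / E) 0 0 t y0 (wq : ℤ) η ^ 4 ∂(law F) ≤
      ex (4 * ((b1 + 8) * A - |(y0 : ℝ) - d.v * t| / wq)) := by
  have hD := Dk_one F.co d.v
  have hC := C1_nonneg F
  have hka := hAd.κ0
  have hE0 : 0 < E := by linarith
  have hθ : 0 ≤ A / E := by positivity
  have hw5 : (5 : ℝ) ≤ w := by linarith
  have hwr : (w : ℝ) ≤ 2 * wq := by exact_mod_cast hwq
  have hwr' : (wq : ℝ) ≤ w := by exact_mod_cast hwq'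
  have htn' : ((0 : ℤ) + t + 1) ≤ n := by omega
  obtain ⟨I, hI⟩ : ∃ I : Set ℤ, I = {i | 0 ≤ i ∧ i ≤ (wq : ℤ)} := ⟨_, rfl⟩
  obtain ⟨J, hJ⟩ : ∃ J : Set ℤ, J = {j | y0 ≤ j ∧ j ≤ y0 + (wq : ℤ)} := ⟨_, rfl⟩
  have h := el_GP2 hAd hk (s := 0) (t := t) (w := w) (E := E) (b1 := b1) (A := A) (p := p) hA hE ht hb1 hw hwE
    (fun x => (measureReal_mono fun η hη => by
      simp only [Set.mem_setOf_eq] at hη ⊢
      exact hη.trans (MM_mono hAd hk.k0.le (by omega) htn' _ _ η)).trans (hMM x))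
    (fun x => (measureReal_mono fun η hη => by
      simp only [Set.mem_setOf_eq] at hη ⊢
      exact (UU_anti hAd hk.k0.le (by omega) htn' _ _ η).trans hη).trans (hUR x))
    (fun x => (measureReal_mono fun η hη => by
      simp only [Set.mem_setOf_eq] at hη ⊢
      exact (UU_anti hAd hk.k0.le (by omega) htn' _ _ η).trans hη).trans (hUL x))
    hp (I := I) (J := J) 0 ((y0 : ℝ) - d.v * t) (by
      intro i hi
      rw [hI] at hi
      obtain ⟨h1, h2⟩ := hi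
      have h1' : (0 : ℝ) ≤ i := by exact_mod_cast h1
      have h2' : (i : ℝ) ≤ wq := by exact_mod_cast h2
      unfold lat
      push_cast
      rw [mul_zero, sub_zero, sub_zero, abs_of_nonneg h1']
      linarith) (by
      intro j hj
      rw [hJ] at hj
      obtain ⟨h1, h2⟩ := hj
      have h1' : (y0 : ℝ) ≤ j := by exact_mod_cast h1
      have h2' : (j : ℝ) ≤ y0 + wq := by exact_mod_cast h2
      unfold lat
      push_cast
      rw [abs_le]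
      constructor <;> linarith)
  have hint : Integrable (fun η => GP F d 0 t I J η ^ (4 * (A / E))) (law F) :=
    bdd_int ((GP_meas 0 t I J).pow_const _) (fun η => Real.rpow_nonneg (GP_nonneg _ _ _ _ _) _)
      (K := Real.exp (K0 F (F.co.L * t).toNat) ^ (4 * (A / E))) fun η =>
      Real.rpow_le_rpow (GP_nonneg _ _ _ _ _) (GP_bd hAd η ht I J) (by positivity)
  calc ∫⁻ η, GG F d (A / E) 0 0 t y0 (wq : ℤ) η ^ 4 ∂(law F)
      ≤ ∫⁻ η, ENNReal.ofReal (GP F d 0 t I J η ^ (4 * (A / E))) ∂(law F) := lintegral_mono fun η => by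
        rw [hI, hJ]
        exact GG_GP hAd η ht hθ y0 wq
    _ = ENNReal.ofReal (∫ η, GP F d 0 t I J η ^ (4 * (A / E)) ∂(law F)) :=
        (ofReal_integral_eq_lintegral_ofReal hint
          (Filter.Eventually.of_forall fun η => Real.rpow_nonneg (GP_nonneg _ _ _ _ _) _)).symm
    _ ≤ _ := by
        unfold ex
        refine ENNReal.ofReal_le_ofReal (h.trans (Real.exp_le_exp.2 ?_))
        have hwpos : (0 : ℝ) < w := by linarith
        have hwqpos : (0 : ℝ) < wq := by linarith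
        have h1 : |(y0 : ℝ) - d.v * t| / wq ≤ 2 * (|(y0 : ℝ) - d.v * t| / w) := by
          rw [div_le_iff₀ hwqpos]
          have h2 : |(y0 : ℝ) - d.v * t| * w ≤ |(y0 : ℝ) - d.v * t| * (2 * wq) :=
            mul_le_mul_of_nonneg_left hwr (abs_nonneg _)
          have e : 2 * (|(y0 : ℝ) - d.v * t| / w) * wq = |(y0 : ℝ) - d.v * t| * (2 * wq) / w := by
            field_simp
          rw [e, le_div_iff₀ hwpos]
          exact h2
        have h3 : 0 ≤ |(y0 : ℝ) - d.v * t| / w := by positivity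
        have h4 : (0 : ℝ) ≤ (A - 1) * (2 * (|(y0 : ℝ) - d.v * t| / w)) := mul_nonneg (by linarith) (by linarith)
        have h5 : |((0 : ℤ) : ℝ) - ((y0 : ℝ) - d.v * t)| = |(y0 : ℝ) - d.v * t| := by
          rw [Int.cast_zero, zero_sub, abs_neg]
        rw [h5]
        nlinarith

end Pool.Agent.W_1b8d5d_p.El0
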