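import Pool.Agent.W_1b8d5d_p.ElH

/-!
TRACK P, (EL) at zero temperature (proofs row 632): the two events from travellers with a flat core (HIT, CROSS). helper67.
-/

set_option autoImplicit false

namespace Pool.Agent.W_1b8d5d_p.El0

open MeasureTheory Set
open Pool.Agent.W_1b8d5d_h85
open Pool.Agent.W_1b8d5d_p
open Pool.Agent.W_1b8d5d_p66 (GG ex Y GG_meas iSup_pow_le ex_pow)

variable {F : Fm} {ka k1 K1 : ℝ} {d : Dr}

/-- The projection on an interval. -/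
theorem dI_proj {x0 x1 : ℝ} (h : x0 ≤ x1) (x : ℝ) : ∃ u, x0 ≤ u ∧ u ≤ x1 ∧ |u - x| = dI x0 x1 x := by
  unfold dI
  rcases le_total x x0 with h1 | h1
  · refine ⟨x0, le_rfl, h, ?_⟩
    rw [max_eq_left (by linarith : x - x1 ≤ x0 - x), max_eq_right (by linarith), abs_of_nonneg (by linarith)]
  · rcases le_total x x1 with h2 | h2
    · refine ⟨x, h1, h2, ?_⟩
      rw [sub_self, abs_zero, max_eq_left]
      exact max_le (by linarith) (by linarith)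
    · refine ⟨x1, h, le_rfl, ?_⟩
      rw [max_eq_right (by linarith : x0 - x ≤ x - x1), max_eq_right (by linarith), abs_of_nonpos (by linarith)]
      ring

/-- A point of an interval is in one of the boxes which cover it. -/
theorem box_cover {x0 ρ S : ℝ} (hρ : 0 < ρ) {Nb : ℕ} (hN : S ≤ Nb * ρ) {u : ℝ} (h0 : x0 ≤ u) (h1 : u ≤ x0 + S) :
    ∃ j ∈ Finset.range (Nb + 1), x0 + ρ / 2 + j * ρ - ρ / 2 ≤ u ∧ u ≤ x0 + ρ / 2 + j * ρ + ρ / 2 := by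
  have h2 : 0 ≤ (u - x0) / ρ := div_nonneg (by linarith) hρ.le
  have h3 := Nat.floor_le h2
  have h4 := Nat.lt_floor_add_one ((u - x0) / ρ)
  rw [le_div_iff₀ hρ] at h3
  rw [div_lt_iff₀ hρ] at h4
  refine ⟨⌊(u - x0) / ρ⌋₊, ?_, by linarith, by linarith⟩
  rw [Finset.mem_range, Nat.lt_succ_iff]
  have h5 : (u - x0) / ρ ≤ Nb := by
    rw [div_le_iff₀ hρ]
    linarith
  exact Nat.floor_le_of_le h5

/-- **The lucks of boxes of a moving frame, from travellers.** -/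
theorem hit_trav (hAd : Adm F ka d) (hk1 : 0 < k1) {n T : ℕ} (hT : 1 ≤ T) {E a0 Y ρ R p1 : ℝ} (hE : CP F + 1 ≤ E) (hE0 : 0 < E)
    (ha0 : 0 < a0) (hρ : 1 ≤ ρ)
    (hTr : ∀ t : ℕ, t ≤ n → ∀ p : ℤ, |(p : ℝ) - (Y + d.v * t)| ≤ R →
      ep F d (T + t) p ≤ a0 * E + k1 / 4 * max (|(p : ℝ) - (Y + d.v * t)| - ρ) 0)
    (hR : bb F * F.co.L * n + k1 * ρ ≤ k1 * R)
    (href : ∀ m : ℕ, 1 ≤ m → m ≤ n + 1 → ∃ y, ep F d m y ≤ E)
    (hV : (law F).real {η | E ≤ VV F d η 0 (T + n + 1)} ≤ p1) (c : ℝ) :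
    (law F).real {η | (4 * a0 + 6) * E - CP F - 1 < MM F d k1 0 n (c - ρ / 2) (c + ρ / 2) η} ≤ 16 / 9 * p1 := by
  obtain ⟨o, ho⟩ : ∃ o : ℤ, o = round (c - Y) := ⟨_, rfl⟩
  have ho1 := abs_sub_round (c - Y)
  rw [← ho] at ho1
  have h := box_prob hAd hk1 (n := n) hT (A := a0 * E) (E' := E) (by positivity) hE0 (x0 := c - ρ / 2) (x1 := c + ρ / 2)
    (o := o) (by
      intro t ht p hp
      obtain ⟨u, hu0, hu1, hu2⟩ := dI_proj (x0 := c - ρ / 2) (x1 := c + ρ / 2) (by linarith) ((p : ℝ) - d.v * t)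
      have h1 : |((p - o : ℤ) : ℝ) - (Y + d.v * t)| ≤ ρ / 2 + dI (c - ρ / 2) (c + ρ / 2) ((p : ℝ) - d.v * t) + 1 / 2 := by
        rw [← hu2]
        push_cast
        have h2 := le_abs_self (u - ((p : ℝ) - d.v * t))
        have h3 := neg_abs_le (u - ((p : ℝ) - d.v * t))
        rw [abs_le] at ho1 ⊢
        constructor <;> linarith [ho1.1, ho1.2]
      have h2 := dI_nonneg (c - ρ / 2) (c + ρ / 2) ((p : ℝ) - d.v * t)
      have h3 : |((p - o : ℤ) : ℝ) - (Y + d.v * t)| ≤ R := by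
        have h4 : k1 * |((p - o : ℤ) : ℝ) - (Y + d.v * t)| ≤ k1 * R := by
          have h5 := mul_le_mul_of_nonneg_left h1 hk1.le
          have h6 : k1 * (ρ / 2 + 1 / 2) ≤ k1 * ρ := mul_le_mul_of_nonneg_left (by linarith) hk1.le
          linarith
        exact le_of_mul_le_mul_left h4 hk1
      have h4 := hTr t ht (p - o) h3
      have h5 : max (|((p - o : ℤ) : ℝ) - (Y + d.v * t)| - ρ) 0 ≤ dI (c - ρ / 2) (c + ρ / 2) ((p : ℝ) - d.v * t) :=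
        max_le (by linarith) h2
      have h6 := mul_le_mul_of_nonneg_left h5 (show 0 ≤ k1 / 4 by positivity)
      linarith) href (y := (4 * a0 + 6) * E - CP F - 1) (by nlinarith)
  have h1 : (law F).real {η | (4 * a0 + 6) * E - CP F - 1 - 4 * (a0 * E) - 4 * E ≤ VV F d η (-(T : ℤ), o) (T + n + 1)} ≤ p1 := by
    refine le_trans ?_ hV
    have h2 := shp_real (F := F) (E := {η | (4 * a0 + 6) * E - CP F - 1 - 4 * (a0 * E) - 4 * E ≤ VV F d η 0 (T + n + 1)})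
      (measurableSet_le measurable_const (VV_meas F d 0 _)) (-(T : ℤ), o)
    have h3 : (law F).real {η | (4 * a0 + 6) * E - CP F - 1 - 4 * (a0 * E) - 4 * E ≤ VV F d η (-(T : ℤ), o) (T + n + 1)} =
        (law F).real {η | (4 * a0 + 6) * E - CP F - 1 - 4 * (a0 * E) - 4 * E ≤ VV F d η 0 (T + n + 1)} := by
      rw [← h2]
      congr 1
      ext η
      simp only [mem_ofPred_eq, VV_shp, zero_add]
    rw [h3]
    refine measureReal_mono (fun η hη => ?_) (measure_ne_top _ _)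
    rw [mem_ofPred_eq] at hη ⊢
    linarith
  linarith

/-- **(HIT)** -/
theorem hit_cover (hAd : Adm F ka d) (hk1 : 0 < k1) {n T w Nb : ℕ} (hT : 1 ≤ T) {E a0 Y ρ R p1 : ℝ} (hE : CP F + 1 ≤ E)
    (hE0 : 0 < E) (ha0 : 0 < a0) (hρ : 1 ≤ ρ)
    (hTr : ∀ t : ℕ, t ≤ n → ∀ p : ℤ, |(p : ℝ) - (Y + d.v * t)| ≤ R →
      ep F d (T + t) p ≤ a0 * E + k1 / 4 * max (|(p : ℝ) - (Y + d.v * t)| - ρ) 0)
    (hR : bb F * F.co.L * n + k1 * ρ ≤ k1 * R)
    (href : ∀ m : ℕ, 1 ≤ m → m ≤ n + 1 → ∃ y, ep F d m y ≤ E)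
    (hV : (law F).real {η | E ≤ VV F d η 0 (T + n + 1)} ≤ p1) (hNb : 4 * (w : ℝ) ≤ Nb * ρ) (x : ℝ) :
    (law F).real {η | (4 * a0 + 6) * E - CP F ≤ MM F d k1 0 n (x - 2 * w) (x + 2 * w) η} ≤ 16 / 9 * (Nb + 1) * p1 := by
  have hsub : {η | (4 * a0 + 6) * E - CP F ≤ MM F d k1 0 n (x - 2 * w) (x + 2 * w) η} ⊆
      ⋃ j ∈ Finset.range (Nb + 1), {η | (4 * a0 + 6) * E - CP F - 1 <
        MM F d k1 0 n (x - 2 * w + ρ / 2 + (j : ℕ) * ρ - ρ / 2) (x - 2 * w + ρ / 2 + (j : ℕ) * ρ + ρ / 2) η} := by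
    intro η hη
    have hη' : (4 * a0 + 6) * E - CP F - 1 < ⨆ p : {p : Pt × Pt // IsPr 0 n p.1 p.2},
        (-XP F d η p.1.1 p.1.2 - k1 * dI (x - 2 * w) (x + 2 * w) (lat d p.1.1)) :=
      lt_of_lt_of_le (by linarith) (show _ ≤ MM F d k1 0 n (x - 2 * w) (x + 2 * w) η from hη)
    have : Nonempty {p : Pt × Pt // IsPr 0 n p.1 p.2} :=
      ⟨⟨((0, 0), (0, 0)), ⟨le_rfl, by simp only; omega, Or.inr rfl⟩⟩⟩
    obtain ⟨p, hp⟩ := exists_lt_of_lt_ciSup hη'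
    have hw0 : (0 : ℝ) ≤ w := Nat.cast_nonneg _
    obtain ⟨u, hu0, hu1, hu2⟩ := dI_proj (x0 := x - 2 * w) (x1 := x + 2 * w) (by linarith) (lat d p.1.1)
    obtain ⟨j, hj, hj0, hj1⟩ := box_cover (x0 := x - 2 * w) (S := 4 * w) (ρ := ρ) (by linarith) hNb hu0 (by linarith)
    rw [Set.mem_iUnion₂]
    refine ⟨j, hj, ?_⟩
    rw [mem_ofPred_eq]
    refine lt_of_lt_of_le hp (le_trans ?_ (le_MM hAd hk1.le _ _ η p.2))
    have h1 := dI_le (x - 2 * w + ρ / 2 + (j : ℕ) * ρ - ρ / 2) (x - 2 * w + ρ / 2 + (j : ℕ) * ρ + ρ / 2) (x := lat d p.1.1)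
      (y := u) ⟨hj0, hj1⟩
    rw [hu2] at h1
    have h2 := mul_le_mul_of_nonneg_left h1 hk1.le
    linarith
  refine (measureReal_mono hsub (measure_ne_top _ _)).trans ((measureReal_biUnion_finset_le _ _).trans ?_)
  refine (Finset.sum_le_sum fun j _ => hit_trav hAd hk1 hT hE hE0 ha0 hρ hTr hR href hV
    (x - 2 * w + ρ / 2 + (j : ℕ) * ρ)).trans (le_of_eq ?_)
  rw [Finset.sum_const, Finset.card_range, nsmul_eq_mul]
  push_cast
  ring

/-- **(CROSS)** -/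
theorem cross_trav (hAd : Adm F ka d) (hk1 : 0 < k1) {n T : ℕ} (hT : 1 ≤ T) {E a0 b1 Y ρ R p1 : ℝ} (hE : CL F k1 K1 < E)
    (hE0 : 0 < E) (ha0 : 0 < a0) (hρ : 1 ≤ ρ)
    (hTr : ∀ t : ℕ, t ≤ n → ∀ p : ℤ, |(p : ℝ) - (Y + d.v * t)| ≤ R →
      ep F d (T + t) p ≤ a0 * E + k1 / 4 * max (|(p : ℝ) - (Y + d.v * t)| - ρ) 0)
    (hR : bb F * F.co.L * n + (12 + 2 * b1) * E + k1 * ρ ≤ k1 * R) {l l' : ℝ}
    (hX : ∀ z : ℤ, |(z : ℝ) - (2 * Y + d.v * n + (l' - l))| ≤ 1 →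
      (law F).real {η | X F d η 0 (T + n + T) z ≤ (12 + 2 * b1 + 8 * a0) * E} ≤ p1) :
    (law F).real {η | UU F d k1 0 n l l' η ≤ (11 + 2 * b1) * E + CL F k1 K1} ≤ 16 / 9 * p1 := by
  obtain ⟨o, ho⟩ : ∃ o : ℤ, o = round (l - Y) := ⟨_, rfl⟩
  obtain ⟨z, hz⟩ : ∃ z : ℤ, z = round (l' + d.v * n + Y) := ⟨_, rfl⟩
  have ho1 := abs_sub_round (l - Y)
  have hz1 := abs_sub_round (l' + d.v * n + Y)
  rw [← ho] at ho1
  rw [← hz] at hz1
  have aux : ∀ s : ℕ, s ≤ n → ∀ q : ℤ, ∀ D : ℝ, 0 ≤ D → |(q : ℝ) - (Y + d.v * s)| ≤ D + 1 / 2 →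
      k1 * D ≤ bb F * F.co.L * n + (12 + 2 * b1) * E → ep F d (T + s) q ≤ a0 * E + k1 / 4 * D := by
    intro s hs q D hD h1 h2
    have h3 : |(q : ℝ) - (Y + d.v * s)| ≤ R := by
      refine h1.trans ?_
      have h4 : k1 * (D + 1 / 2) ≤ k1 * R := by
        have h5 : k1 * (1 / 2) ≤ k1 * ρ := mul_le_mul_of_nonneg_left (by linarith) hk1.le
        linarith
      exact le_of_mul_le_mul_left h4 hk1
    have h4 := hTr s hs q h3
    have h5 : max (|(q : ℝ) - (Y + d.v * s)| - ρ) 0 ≤ D := max_le (by linarith) hD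
    have h6 := mul_le_mul_of_nonneg_left h5 (show 0 ≤ k1 / 4 by positivity)
    linarith
  have h := hard_prob hAd hk1 (n := n) hT (A := a0 * E) (by positivity) (l := l) (l' := l') (o := o) (z := z)
    (c := (12 + 2 * b1) * E) (by
      intro t ht p hp
      refine aux t ht (p - o) _ (abs_nonneg _) ?_ hp
      push_cast
      have h2 := le_abs_self ((p : ℝ) - d.v * t - l)
      have h3 := neg_abs_le ((p : ℝ) - d.v * t - l)
      rw [abs_le] at ho1 ⊢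
      constructor <;> linarith [ho1.1, ho1.2]) (by
      intro t ht p hp
      refine aux (n - t) (Nat.sub_le _ _) (z - p) _ (abs_nonneg _) ?_ hp
      rw [Nat.cast_sub ht]
      push_cast
      have h2 := le_abs_self ((p : ℝ) - d.v * t - l')
      have h3 := neg_abs_le ((p : ℝ) - d.v * t - l')
      rw [abs_le] at hz1 ⊢
      constructor <;> linarith [hz1.1, hz1.2])
  have h1 := hX (z - o) (by
    push_cast
    rw [abs_le] at hz1 ho1 ⊢
    constructor <;> linarith [hz1.1, hz1.2, ho1.1, ho1.2])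
  have h2 : (12 + 2 * b1) * E + 8 * (a0 * E) = (12 + 2 * b1 + 8 * a0) * E := by ring
  rw [h2] at h
  have h3 : (law F).real {η | UU F d k1 0 n l l' η ≤ (11 + 2 * b1) * E + CL F k1 K1} ≤
      (law F).real {η | UU F d k1 0 n l l' η < (12 + 2 * b1) * E} := by
    refine measureReal_mono (fun η hη => ?_) (measure_ne_top _ _)
    rw [mem_ofPred_eq] at hη ⊢
    linarith
  linarith

/-- **(EL) from travellers with a flat core.** -/
theorem el_trav (hAd : Adm F ka d) (hk : Lat F ka k1 K1 d) {n T w Nb : ℕ} {E a0 A Y ρ R p1 : ℝ} (hA : 1 ≤ A)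
    (hE : 32 * A + 2 * C1 F + ka ≤ E) (hE1 : CP F + 1 ≤ E) (hE2 : CL F k1 K1 < E) (ha0 : 0 < a0)
    (hw : 4 * Dk F.co d.v + 1 ≤ w) (hwE : (4 * a0 + 26) * E ≤ de F d ka * (w / 2)) (hT : 1 ≤ T) (hρ : 1 ≤ ρ)
    (hTr : ∀ t : ℕ, t ≤ n → ∀ p : ℤ, |(p : ℝ) - (Y + d.v * t)| ≤ R →
      ep F d (T + t) p ≤ a0 * E + k1 / 4 * max (|(p : ℝ) - (Y + d.v * t)| - ρ) 0)
    (hR : bb F * F.co.L * n + (24 + 8 * a0) * E + k1 * ρ ≤ k1 * R)
    (href : ∀ m : ℕ, 1 ≤ m → m ≤ n + 1 → ∃ y, ep F d m y ≤ E)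
    (hV : (law F).real {η | E ≤ VV F d η 0 (T + n + 1)} ≤ p1)
    (hX : ∀ z : ℤ, |(z : ℝ) - (2 * Y + d.v * n + w / 2)| ≤ 1 ∨ |(z : ℝ) - (2 * Y + d.v * n - w / 2)| ≤ 1 →
      (law F).real {η | X F d η 0 (T + n + T) z ≤ (24 + 16 * a0) * E} ≤ p1)
    (hNb : 4 * (w : ℝ) ≤ Nb * ρ) (hp1 : 2 * (Nb + 1) * p1 ≤ Real.exp (-((32 * a0 + 132) * A)))
    {t : ℕ} (ht : 1 ≤ t) (htn : t + 1 ≤ n) {wq : ℕ} (hwq : w ≤ 2 * wq) (hwq' : wq ≤ w) (y0 : ℤ) :
    ∫⁻ η, GG F d (A / E) 0 0 t y0 (wq : ℤ) η ^ 4 ∂(law F) ≤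
      ex (4 * ((4 * a0 + 14) * A - |(y0 : ℝ) - d.v * t| / wq)) := by
  have hC := C1_nonneg F
  have hka := hAd.κ0
  have hE0 : 0 < E := by linarith
  have hp0 : 0 ≤ p1 := measureReal_nonneg.trans hV
  have hN0 : (0 : ℝ) ≤ Nb := Nat.cast_nonneg _
  have hp2 : 16 / 9 * p1 ≤ 16 / 9 * (Nb + 1) * p1 := by nlinarith
  have hRc : bb F * F.co.L * n + (12 + 2 * (4 * a0 + 6)) * E + k1 * ρ ≤ k1 * R := by
    have e : (12 + 2 * (4 * a0 + 6)) * E = (24 + 8 * a0) * E := by ring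
    rw [e]
    exact hR
  have hRh : bb F * F.co.L * n + k1 * ρ ≤ k1 * R := by
    have : 0 ≤ (24 + 8 * a0) * E := by positivity
    linarith
  have hX' : ∀ s : ℝ, (s = (w : ℝ) / 2 ∨ s = -((w : ℝ) / 2)) → ∀ z : ℤ, |(z : ℝ) - (2 * Y + d.v * n + s)| ≤ 1 →
      (law F).real {η | X F d η 0 (T + n + T) z ≤ (12 + 2 * (4 * a0 + 6) + 8 * a0) * E} ≤ p1 := by
    intro s hs z hz
    have e : (12 + 2 * (4 * a0 + 6) + 8 * a0) * E = (24 + 16 * a0) * E := by ring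
    rw [e]
    refine hX z ?_
    rcases hs with hs | hs
    · left
      rw [hs] at hz
      exact hz
    · right
      rw [hs] at hz
      exact hz
  have h := el_GG hAd hk (n := n) (w := w) (E := E) (b1 := 4 * a0 + 6) (A := A) (p := 16 / 9 * (Nb + 1) * p1) hA hE
    (by positivity) hw (by
      have e : (4 * a0 + 6 + 20) * E = (4 * a0 + 26) * E := by ring
      rw [e]
      exact hwE)
    (fun x => hit_cover hAd hk.k0 hT hE1 hE0 ha0 hρ hTr hRh href hV hNb x)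
    (fun x => (cross_trav hAd hk.k0 hT hE2 hE0 ha0 hρ hTr hRc (l := x + w) (l' := x + 3 / 2 * w) (fun z hz => by
      refine hX' _ (Or.inl rfl) z ?_
      have e : (x : ℝ) + 3 / 2 * w - (x + w) = w / 2 := by ring
      rw [e] at hz
      exact hz)).trans hp2)
    (fun x => (cross_trav hAd hk.k0 hT hE2 hE0 ha0 hρ hTr hRc (l := x - w) (l' := x - 3 / 2 * w) (fun z hz => by
      refine hX' _ (Or.inr rfl) z ?_
      have e : (x : ℝ) - 3 / 2 * w - (x - w) = -(w / 2) := by ring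
      rw [e] at hz
      exact hz)).trans hp2)
    (by
      have e : (8 * (4 * a0 + 6) + 84) * A = (32 * a0 + 132) * A := by ring
      rw [e]
      refine le_trans ?_ hp1
      have : 0 ≤ ((Nb : ℝ) + 1) * p1 := by positivity
      linarith) ht htn hwq hwq' y0
  have e : (4 * a0 + 6 + 8) * A = (4 * a0 + 14) * A := by ring
  rw [e] at h
  exact h

end Pool.Agent.W_1b8d5d_p.El0
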