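import Pool.Agent.W_1b8d5d_p.ElI
import Pool.Agent.W_1b8d5d_p.UnitT
import Pool.Agent.W_1b8d5d_p.Width99
import Pool.Agent.W_1b8d5d_h4p.NSz

/-!
TRACK P, (EL) at zero temperature (proofs row 632): the theorem (EL) at scales which are not soft. helper67.
-/

set_option autoImplicit false

namespace Pool.Agent.W_1b8d5d_p.El0

open MeasureTheory Set
open Pool.Agent.W_1b8d5d_h85
open Pool.Agent.W_1b8d5d_p
open Pool.Agent.W_1b8d5d_p66 (GG ex Y GG_meas iSup_pow_le ex_pow)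
open Pool.Agent.W_1b8d5d_h4p (LawH Sf ns1 ns2)

variable {F : Fm} {ka k1 K1 K c0 C0 : ℝ} {d : Dr} {Ds : Set Dr}

/-- The direction `d` seen in a frame of slope `r`. -/
def mv (d : Dr) (r : ℝ) : Dr := ⟨d.h1, d.h2, r⟩

theorem mv_adm (h : Adm F ka d) (r : ℝ) : Adm F ka (mv d r) := ⟨h.κ0, h.h1n, h.h2n, h.h1b, h.h2b, h.loop⟩

theorem mv_X (F : Fm) (d : Dr) (r : ℝ) : X F (mv d r) = X F d := rfl

theorem mv_ep (F : Fm) (d : Dr) (r : ℝ) : ep F (mv d r) = ep F d := rfl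

theorem mv_VV (F : Fm) (d : Dr) (r : ℝ) : VV F (mv d r) = VV F d := rfl

theorem mv_GG (F : Fm) (d : Dr) (r : ℝ) : GG F (mv d r) = GG F d := rfl

theorem e_le_ep (hd : Adm F ka d) {n : ℕ} (hn : 1 ≤ n) (y : ℤ) : e F d n y ≤ ep F d n y := by
  unfold e ep
  exact integral_mono (X_integrable hd 0 hn y) (X_integrable hd 0 hn y).pos_part fun η => le_max_left _ _

/-- Cheap intervals are at most linear. -/
theorem ln_le (hd : Adm F ka d) {n : ℕ} (hn : 1 ≤ n) {B : ℝ} (hB : EE F d n ≤ B) :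
    (ln F d n B : ℝ) ≤ 2 * (B + W_1b8d5d_p.C1 F * n) / ka := by
  obtain ⟨m, hm, hmn, y, h1, h2⟩ := ln_mem hd hn hB
  have hB0 : 0 < B := (EE_pos F d n).trans_le hB
  have hM : (1 : ℝ) ≤ F.co.M := by exact_mod_cast F.co.M_pos
  have hC := C1_pos F
  have hka := hd.κ0
  have hmn' : (m : ℝ) ≤ n := by exact_mod_cast hmn
  have h5 : (|B| + W_1b8d5d_p.C1 F * m) / (ka * F.co.M) ≤ (B + W_1b8d5d_p.C1 F * n) / ka := by
    rw [abs_of_pos hB0]
    have h6 : W_1b8d5d_p.C1 F * m ≤ W_1b8d5d_p.C1 F * n := mul_le_mul_of_nonneg_left hmn' hC.le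
    have h7 : 0 ≤ B + W_1b8d5d_p.C1 F * n := by positivity
    calc (B + W_1b8d5d_p.C1 F * m) / (ka * F.co.M) ≤ (B + W_1b8d5d_p.C1 F * n) / (ka * F.co.M) := by gcongr
      _ ≤ (B + W_1b8d5d_p.C1 F * n) / ka := by
        refine div_le_div_of_nonneg_left h7 hka ?_
        nlinarith
  have h3 := (CI_bdd hd h1).trans h5
  have h4 := (CI_bdd hd h2).trans h5
  push_cast at h4
  rw [abs_le] at h3 h4
  have e1 : 2 * (B + W_1b8d5d_p.C1 F * n) / ka = 2 * ((B + W_1b8d5d_p.C1 F * n) / ka) := by ring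
  rw [e1]
  linarith [h3.1, h4.2]

/-- **(EL) at zero temperature.** At a scale which is not soft: exponential moments of the cheapest passages between cells. -/
theorem EL_P (hL : LawH F c0 C0) (hD : Dirs F ka K Ds) (hR : Rate F Ds) (hG : Grow F Ds) {a : ℝ} (ha : 0 < a)
    {c1 : ℝ} (hc1 : 0 < c1) {nc : ℕ}
    (hCh : ∀ d ∈ Ds, ∀ n : ℕ, nc ≤ n → c1 * (vA a F d n * n) ≤ ln F d n (2 * EE F d (12 * n))) :
    ∃ C K3 : ℝ, 1 ≤ C ∧ 1 ≤ K3 ∧ ∀ A : ℝ, 1 ≤ A → ∀ W0 : ℝ, ∃ (al : ℝ) (x0 : ℕ), 0 ≤ al ∧ ∀ d ∈ Ds, ∀ x : ℕ, x0 ≤ x →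
      ¬ Sf F ka d x al → ∃ w : ℕ, W0 ≤ w ∧ W0 * EE F d (2 ^ x) ≤ w ∧ vA a F d (2 ^ x) * 2 ^ x ≤ w ∧
        (w : ℝ) ≤ C * (vA a F d (2 ^ x) * 2 ^ x) ∧
        ∀ t wq : ℕ, 1 ≤ t → t ≤ 2 ^ (x + 1) → w ≤ 2 * wq → wq ≤ w → ∀ y0 : ℤ,
          ∫⁻ η, GG F d (A / (K3 * EE F d (2 ^ x))) 0 0 t y0 (wq : ℤ) η ^ 4 ∂(law F) ≤
            ex (4 * (135 * A - |(y0 : ℝ) - d.v * t| / wq)) := by
  rcases Ds.eq_empty_or_nonempty with hemp | ⟨d00, hd00⟩
  · refine ⟨1, 1, le_rfl, le_rfl, fun A _ W0 => ⟨0, 0, le_rfl, fun d hd => ?_⟩⟩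
    rw [hemp] at hd
    exact absurd hd (Set.notMem_empty d)
  have hka : 0 < ka := (hD.adm d00 hd00).κ0
  have hK0 : 0 ≤ K := (abs_nonneg _).trans (hD.slope d00 hd00)
  have hC1 := W_1b8d5d_p.C1_pos F
  have hC1' := C1_nonneg F
  have hCr := Cr_pos F
  have hLL : (2 : ℝ) ≤ F.co.L := by exact_mod_cast F.co.L_pos
  have hRR : (1 : ℝ) ≤ F.co.R := by exact_mod_cast F.co.R_pos
  have hbb : 0 ≤ bb F := by
    have := F.a0
    have := F.ab
    unfold bb
    linarith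
  -- prices
  obtain ⟨K1, hK1⟩ : ∃ K1 : ℝ, K1 = F.co.R + K + 1 := ⟨_, rfl⟩
  have hK10 : 0 < K1 := by rw [hK1]; linarith
  obtain ⟨k1, hk1⟩ : ∃ k1 : ℝ, k1 = ka / K1 := ⟨_, rfl⟩
  have hk10 : 0 < k1 := by rw [hk1]; positivity
  obtain ⟨ε, hε⟩ : ∃ ε : ℝ, ε = min (k1 / 4) 1 := ⟨_, rfl⟩
  have hε0 : 0 < ε := by rw [hε]; exact lt_min (by positivity) one_pos
  have hε1 : ε ≤ k1 / 4 := by rw [hε]; exact min_le_left _ _
  have hε2 : ε ≤ 1 := by rw [hε]; exact min_le_right _ _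
  obtain ⟨Cρ, hCρ⟩ : ∃ Cρ : ℝ, Cρ = 6 * (2 + W_1b8d5d_p.C1 F) / ka := ⟨_, rfl⟩
  obtain ⟨R0, hR0⟩ : ∃ R0 : ℝ, R0 = (bb F * F.co.L + 264 + k1 * Cρ) / k1 := ⟨_, rfl⟩
  have hR0' : k1 * R0 = bb F * F.co.L + 264 + k1 * Cρ := by
    rw [hR0]
    field_simp
  obtain ⟨K', n1, hn1, hK'1, htf⟩ := hD.trav_flat hR hε0 R0
  have hK'r : (1 : ℝ) ≤ K' := by exact_mod_cast hK'1
  obtain ⟨K3, hK3⟩ : ∃ K3 : ℝ, K3 = 4 * K' := ⟨_, rfl⟩
  have hK31 : 4 ≤ K3 := by rw [hK3]; linarith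
  obtain ⟨A1, hA1⟩ : ∃ A1 : ℝ, A1 = 504 * K3 + 1 := ⟨_, rfl⟩
  have hA11 : 1 ≤ A1 := by rw [hA1]; linarith
  obtain ⟨c, hc⟩ : ∃ c : ℝ, c = max (A1 / a) 1 := ⟨_, rfl⟩
  have hc1' : 1 ≤ c := by rw [hc]; exact le_max_right _ _
  have hca : A1 ≤ c * a := by
    rw [← div_le_iff₀ ha, hc]
    exact le_max_left _ _
  obtain ⟨C2, hC2⟩ : ∃ C2 : ℝ, C2 = 32 * K' * c := ⟨_, rfl⟩
  have hKc : (1 : ℝ) ≤ K' * c := one_le_mul_of_one_le_of_one_le hK'r hc1'
  have hC21 : 32 ≤ C2 := by rw [hC2]; linarith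
  obtain ⟨Nb, hNb⟩ := exists_nat_ge (4 * (C2 + 6) / (3 * c1))
  rw [div_le_iff₀ (by positivity)] at hNb
  refine ⟨C2 + 6, K3, by linarith, by linarith, fun A hA W0 => ?_⟩
  obtain ⟨p1, hp1⟩ : ∃ p1 : ℝ, p1 = Real.exp (-(1092 * A)) / (2 * (Nb + 1)) := ⟨_, rfl⟩
  have hNb0 : (0 : ℝ) ≤ Nb := Nat.cast_nonneg _
  have hp10 : 0 < p1 := by rw [hp1]; positivity
  obtain ⟨H, hH⟩ : ∃ H : ℕ, H = 8 * K' := ⟨_, rfl⟩
  obtain ⟨α1, hα1, hns1⟩ := ns1 F hp10 H
  obtain ⟨α2, hα2, hns2⟩ := ns2 hL hp10 A1 H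
  obtain ⟨n3, hn3⟩ := hR (1 / 12) (by norm_num)
  obtain ⟨n4, hn4⟩ := hR (1 / K3) (by positivity)
  obtain ⟨B, hB⟩ : ∃ B : ℝ, B = 32 * A + 2 * C1 F + ka + (|CP F| + 1) + (|CL F k1 K1| + 1) := ⟨_, rfl⟩
  obtain ⟨n5, hn5⟩ := hG B
  obtain ⟨Rw, hRw⟩ : ∃ Rw : ℝ, Rw = |W0| + |W0| / Cr F + 1 / Cr F + (4 * K1 + 1) / Cr F + 292 * K3 * (K1 / ka) := ⟨_, rfl⟩
  obtain ⟨n6, hn61, hn6⟩ := hD.w_large hR ha Rw
  refine ⟨max α1 α2, n1 + nc + n3 + n4 + n5 + n6, hα1.trans (le_max_left _ _), fun d hd x hx hS => ?_⟩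
  have hAd := hD.adm d hd
  have hTo := hD.touch d hd
  have hx2 : x < 2 ^ x := Nat.lt_two_pow_self
  obtain ⟨n, hn⟩ : ∃ n : ℕ, n = 4 * 2 ^ x := ⟨_, rfl⟩
  have hxn : 2 ^ x ≤ n := by omega
  have hn1' : 1 ≤ n := by omega
  have hKn1 : n ≤ K' * n := Nat.le_mul_of_pos_left n hK'1
  have hKn2 : 2 * K' * n = 2 * (K' * n) := by ring
  have hnr : (n : ℝ) = 4 * 2 ^ x := by rw [hn]; push_cast; ring
  have hnp : (0 : ℝ) < n := by exact_mod_cast hn1'
  have h2x : (0 : ℝ) < 2 ^ x := by positivity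
  obtain ⟨U, hU⟩ : ∃ U : ℝ, U = EE F d (2 ^ x) := ⟨_, rfl⟩
  have hU0 : 0 < U := by rw [hU]; exact EE_pos _ _ _
  have hUCr : Cr F ≤ U := by rw [hU]; exact Cr_le_EE F d _
  obtain ⟨W, hW⟩ : ∃ W : ℝ, W = vA a F d (2 ^ x) * 2 ^ x := ⟨_, rfl⟩
  have hvp : 0 < vA a F d (2 ^ x) := hD.vA_pos hd ha Nat.one_le_two_pow
  have hW0' : 0 < W := by rw [hW]; positivity
  -- the widths are large
  have hWU : Rw * U ≤ W := by
    have h1 := hn6 d hd (2 ^ x) (by omega)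
    rw [← hU] at h1
    push_cast at h1
    rw [hW]
    linarith
  have hz1 : (0 : ℝ) ≤ |W0| := abs_nonneg _
  have hz2 : (0 : ℝ) ≤ |W0| / Cr F := by positivity
  have hz3 : (0 : ℝ) ≤ 1 / Cr F := by positivity
  have hz4 : (0 : ℝ) ≤ (4 * K1 + 1) / Cr F := by positivity
  have hz5 : (0 : ℝ) ≤ 292 * K3 * (K1 / ka) := by positivity
  have aux : ∀ q : ℝ, q ≤ Rw → q * U ≤ W := fun q hq => (mul_le_mul_of_nonneg_right hq hU0.le).trans hWU
  have aux2 : ∀ q : ℝ, 0 ≤ q → q / Cr F ≤ Rw → q ≤ W := fun q hq0 hq => by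
    refine le_trans ?_ (aux _ hq)
    have h1 : q = q / Cr F * Cr F := by field_simp
    calc q = q / Cr F * Cr F := h1
      _ ≤ q / Cr F * U := mul_le_mul_of_nonneg_left hUCr (by positivity)
  have hw1 : |W0| * U ≤ W := aux _ (by rw [hRw]; linarith)
  have hw2 : |W0| ≤ W := aux2 _ hz1 (by rw [hRw]; linarith)
  have hw3 : 1 ≤ W := aux2 _ zero_le_one (by rw [hRw]; linarith)
  have hw4 : 4 * K1 + 1 ≤ W := aux2 _ (by positivity) (by rw [hRw]; linarith)
  have hw5 : 292 * K3 * (K1 / ka) * U ≤ W := aux _ (by rw [hRw]; linarith)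
  -- the width
  obtain ⟨w, hw⟩ : ∃ w : ℕ, w = ⌈C2 * W⌉₊ + 5 := ⟨_, rfl⟩
  have hwl : C2 * W + 5 ≤ w := by
    rw [hw]
    push_cast
    have := Nat.le_ceil (C2 * W)
    linarith
  have hwu : (w : ℝ) ≤ (C2 + 6) * W := by
    rw [hw]
    push_cast
    have := Nat.ceil_lt_add_one (show 0 ≤ C2 * W by positivity)
    have e1 : (C2 + 6) * W = C2 * W + 6 * W := by ring
    rw [e1]
    linarith only [this, hw3]
  have hC2W : 32 * W ≤ C2 * W := mul_le_mul_of_nonneg_right hC21 hW0'.le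
  have hWw : W ≤ w := by linarith
  refine ⟨w, ?_, ?_, ?_, ?_, ?_⟩
  · exact (le_abs_self W0).trans (hw2.trans hWw)
  · rw [← hU]
    exact (mul_le_mul_of_nonneg_right (le_abs_self W0) hU0.le).trans (hw1.trans hWw)
  · rw [← hW]
    exact hWw
  · rw [← hW]
    exact hwu
  intro t wq ht1 ht2 hwq hwq' y0
  rw [← hU]
  obtain ⟨E, hE⟩ : ∃ E : ℝ, E = K3 * U := ⟨_, rfl⟩
  rw [← hE]
  have hUE : U ≤ E := by rw [hE]; exact le_mul_of_one_le_left hU0.le (by linarith only [hK31])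
  have hE0 : 0 < E := by linarith
  -- units at the multiples of the scale
  have hEK : EE F d (K' * n) ≤ E := by
    have h1 := EE_mul F d (2 ^ x) (k := K' * 4) (by omega)
    have e1 : K' * 4 * 2 ^ x = K' * n := by rw [hn]; ring
    rw [e1] at h1
    push_cast at h1
    rw [hE, hK3, hU]
    linarith
  have hUn : EE F d (2 ^ x) ≤ EE F d n := EE_mono F d hxn
  have hEn : E ≤ n := by
    have h1 := hn4 d hd (2 ^ x) (by omega)
    rw [← hU] at h1
    push_cast at h1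
    rw [hE, hnr]
    have h2 : K3 * U ≤ K3 * (1 / K3 * 2 ^ x) := mul_le_mul_of_nonneg_left h1 (by linarith)
    have h3 : K3 * (1 / K3 * 2 ^ x) = 2 ^ x := by field_simp
    linarith
  have hE12 : EE F d (12 * n) ≤ n := by
    have h1 := hn3 d hd (12 * n) (by omega)
    push_cast at h1
    linarith
  have hBU : B ≤ U := by
    rw [hU]
    exact hn5 d hd (2 ^ x) (by omega)
  -- travellers
  obtain ⟨r, ys, T, hT1, hT12, hTn, hrv, hrn, hxl, htr⟩ := htf d hd n (by omega)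
  obtain ⟨ρ, hρ⟩ : ∃ ρ : ℝ, ρ = 3 * (ln F d n (2 * EE F d (12 * n)) : ℝ) := ⟨_, rfl⟩
  rw [← hρ] at htr
  have hlnB : EE F d n ≤ 2 * EE F d (12 * n) := by
    have h2 := EE_mono F d (show n ≤ 12 * n by omega)
    have h3 := EE_pos F d (12 * n)
    linarith
  have hρ1 : 1 ≤ ρ := by
    have h1 : (1 : ℝ) ≤ ln F d n (2 * EE F d (12 * n)) := by exact_mod_cast one_le_ln hAd hn1' hlnB
    rw [hρ]
    linarith
  have hρ2 : ρ ≤ Cρ * n := by
    have h1 := ln_le hAd hn1' hlnB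
    have h2 : 2 * (2 * EE F d (12 * n) + W_1b8d5d_p.C1 F * n) / ka ≤ 2 * (2 * n + W_1b8d5d_p.C1 F * n) / ka := by gcongr
    have e1 : Cρ * n = 3 * (2 * (2 * n + W_1b8d5d_p.C1 F * n) / ka) := by rw [hCρ]; ring
    rw [e1, hρ]
    linarith
  have hρ3 : 3 * c1 * W ≤ ρ := by
    have h1 := hCh d hd n (by omega)
    have h2 := hD.w_mono hd ha.le (n := 2 ^ x) (n' := n) Nat.one_le_two_pow hxn
    push_cast at h2
    have h3 : W ≤ vA a F d n * n := by rw [hW]; linarith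
    have h4 := mul_le_mul_of_nonneg_left h3 hc1.le
    rw [hρ]
    linarith
  -- the frame
  have hrv1 : |r - d.v| ≤ 1 := hrv.trans hε2
  have hrK : |r| ≤ K + 1 := by
    have h1 := hD.slope d hd
    have h2 := abs_add_le (r - d.v) d.v
    rw [sub_add_cancel] at h2
    linarith
  have hLat : Lat F ka k1 K1 (mv d r) := ⟨hk10, by
    show F.co.R + |r| ≤ K1
    rw [hK1]
    linarith, by
    rw [hk1]
    exact (div_mul_cancel₀ _ hK10.ne').le⟩
  have hDk : Dk F.co r ≤ K1 := by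
    unfold Dk
    rw [hK1]
    linarith
  have hDk1 := Dk_one F.co r
  -- the width of the level set
  have hlevn : ∀ N : ℕ, n ≤ N → N ≤ 2 * K' * n → N * vA A1 F d N ≤ 8 * K' * c * W := by
    intro N hN hN'
    have hA10 : 0 ≤ A1 := by linarith
    have h1 := hD.w_mono hd hA10 (n := N) (n' := 2 * K' * n) (by omega) hN'
    have h2 := hD.vA_mul_le hd hA10 (n := 2 ^ x) (k := 2 * K' * 4) Nat.one_le_two_pow (by omega)
    have e1 : 2 * K' * 4 * 2 ^ x = 2 * K' * n := by rw [hn]; ring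
    rw [e1] at h2
    have h3 := hD.vA_level_mono hd hA10 hca (2 ^ x)
    have h4 := hD.vA_level_mul hd ha.le hc1' (2 ^ x)
    have h5 : vA A1 F d (2 * K' * n) ≤ c * vA a F d (2 ^ x) := h2.trans (h3.trans h4)
    have h6 := mul_le_mul_of_nonneg_left h5 (Nat.cast_nonneg (α := ℝ) (2 * K' * n))
    refine h1.trans (h6.trans (le_of_eq ?_))
    push_cast
    rw [hnr, hW]
    ring
  have hlev : ∀ N : ℕ, n ≤ N → N ≤ 2 * K' * n → ∀ z : ℤ, e F d N z ≤ A1 * U → |(z : ℝ) - d.v * N| ≤ 8 * K' * c * W := by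
    intro N hN hN' z hz
    have hN1 : 1 ≤ N := hn1'.trans hN
    have hNp : (0 : ℝ) < N := by exact_mod_cast hN1
    have h1 := e_lower F d hN1 z
    have h2 : A1 * U ≤ A1 * EE F d N := by
      refine mul_le_mul_of_nonneg_left ?_ (by linarith)
      rw [hU]
      exact EE_mono F d (hxn.trans hN)
    have h3 := hD.lev_abs hd (by linarith : 0 ≤ A1) hN1 (h1.trans (hz.trans h2))
    have e1 : (z : ℝ) - d.v * N = N * ((z : ℝ) / N - d.v) := by field_simp
    rw [e1, abs_mul, Nat.abs_cast]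
    exact (mul_le_mul_of_nonneg_left h3 hNp.le).trans (hlevn N hN hN')
  have h2W : 8 * K' * c * W = C2 * W / 4 := by rw [hC2]; ring
  rw [h2W] at hlev
  have hK3U : 0 ≤ K3 * U := by positivity
  -- the slope of the frame
  have hrn2 : |r - d.v| * n ≤ w / 2 := by
    have h1 := hlev n le_rfl (by omega) (xs F d n) (by
      have h1 := e_xs_le hAd n
      have h2 := le_EE F d hKn1
      have h3 : A1 * U = 504 * (K3 * U) + U := by rw [hA1]; ring
      rw [h3]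
      rw [hE] at hEK
      linarith)
    have e1 : (xs F d n : ℝ) - d.v * n = (r - d.v) * n := by
      rw [hrn]
      field_simp
    rw [e1, abs_mul, Nat.abs_cast] at h1
    linarith
  -- the centre of the far passages
  have hz0 : ∃ z0 : ℤ, |(z0 : ℝ) - (2 * ys + r * n)| ≤ 1 ∧ e F d (T + n + T) z0 ≤ A1 * U := by
    have hr1 := abs_sub_round ys
    have hr2 := abs_sub_round (ys + r * n)
    have hR0n : (1 : ℝ) / 2 ≤ R0 * n := by
      have h1 : k1 * (R0 * n) = (bb F * F.co.L + 264 + k1 * Cρ) * n := by rw [← mul_assoc, hR0']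
      have h2 : k1 * (1 / 2) ≤ k1 * (R0 * n) := by
        rw [h1]
        have h3 : k1 * 1 ≤ k1 * (Cρ * n) := mul_le_mul_of_nonneg_left (hρ1.trans hρ2) hk10.le
        have h4 : 0 ≤ bb F * F.co.L * n := by positivity
        have h5 : k1 * (1 / 2) ≤ k1 * 1 := mul_le_mul_of_nonneg_left (by norm_num) hk10.le
        linarith
      exact le_of_mul_le_mul_left h2 hk10
    have hh1 : ep F d (T + 0) (round ys) ≤ 30 * E := by
      have h1 : |((round ys : ℤ) : ℝ) - (ys + r * (0 : ℕ))| ≤ 1 / 2 := by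
        rw [Nat.cast_zero, mul_zero, add_zero, abs_sub_comm]
        exact hr1
      have h2 := htr 0 (Nat.zero_le _) (round ys) (h1.trans hR0n)
      rw [max_eq_right (sub_nonpos.2 (h1.trans (by linarith))), mul_zero] at h2
      linarith
    have hh2 : ep F d (T + n) (round (ys + r * n)) ≤ 30 * E := by
      have h1 : |((round (ys + r * n) : ℤ) : ℝ) - (ys + r * (n : ℕ))| ≤ 1 / 2 := by
        rw [abs_sub_comm]
        exact hr2
      have h2 := htr n le_rfl (round (ys + r * n)) (h1.trans hR0n)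
      rw [max_eq_right (sub_nonpos.2 (h1.trans (by linarith))), mul_zero] at h2
      linarith
    refine ⟨round (ys + r * n) + round ys, ?_, ?_⟩
    · push_cast
      rw [abs_le] at hr1 hr2 ⊢
      constructor <;> linarith [hr1.1, hr1.2, hr2.1, hr2.2]
    · have h1 := e_sub F d (show 1 ≤ T + n by omega) (show 1 ≤ T by omega) (round (ys + r * n)) (round ys)
      have h2 := e_le_ep hAd (show 1 ≤ T + n by omega) (round (ys + r * n))
      have h3 := e_le_ep hAd (show 1 ≤ T by omega) (round ys)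
      rw [add_zero] at hh1
      have h4 : A1 * U = 504 * (K3 * U) + U := by rw [hA1]; ring
      rw [h4]
      rw [hE] at hh1 hh2
      linarith
  obtain ⟨z0, hz0a, hz0b⟩ := hz0
  have hTT1 : n ≤ T + n + T := by omega
  have hTT2 : T + n + T ≤ 2 * K' * n := by omega
  have hz0c := hlev _ hTT1 hTT2 z0 hz0b
  have hS1 : ¬ Sf F ka d x α1 := fun h => hS (h.mono (le_max_left _ _))
  have hS2 : ¬ Sf F ka d x α2 := fun h => hS (h.mono (le_max_right _ _))
  have hHn : 2 * K' * n = H * 2 ^ x := by rw [hH, hn]; ring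
  -- the conclusion in the moving frame
  have hmain := el_trav (mv_adm hAd r) hLat (n := n) (T := T) (w := w) (Nb := Nb) (E := E) (a0 := 30) (A := A) (Y := ys)
    (ρ := ρ) (R := R0 * n) (p1 := p1) hA (by
      have h1 := abs_nonneg (CP F)
      have h2 := abs_nonneg (CL F k1 K1)
      rw [hB] at hBU
      linarith) (by
      have h1 := le_abs_self (CP F)
      have h2 := abs_nonneg (CL F k1 K1)
      rw [hB] at hBU
      linarith) (by
      have h1 := abs_nonneg (CP F)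
      have h2 := le_abs_self (CL F k1 K1)
      rw [hB] at hBU
      linarith) (by norm_num) (by
      show 4 * Dk F.co r + 1 ≤ w
      linarith) (by
      show (4 * 30 + 26) * E ≤ ka / Dk F.co r * (w / 2)
      have h1 : ka / K1 ≤ ka / Dk F.co r := div_le_div_of_nonneg_left hka.le (by linarith) hDk
      have h2 : (4 * 30 + 26) * E ≤ ka / K1 * (w / 2) := by
        have h3 : ka / K1 * (292 * K3 * (K1 / ka) * U) ≤ ka / K1 * w :=
          mul_le_mul_of_nonneg_left (hw5.trans hWw) (by positivity)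
        have h4 : ka / K1 * (292 * K3 * (K1 / ka) * U) = 292 * (K3 * U) := by field_simp
        rw [h4] at h3
        rw [hE]
        linarith
      exact h2.trans (mul_le_mul_of_nonneg_right h1 (by positivity))) hT1 hρ1 (by
      intro s hs p hp
      have h1 := htr s hs p hp
      have h2 : 0 ≤ max (|(p : ℝ) - (ys + r * s)| - ρ) 0 := le_max_right _ _
      have h3 := mul_le_mul_of_nonneg_right hε1 h2
      show ep F d (T + s) p ≤ 30 * E + k1 / 4 * max (|(p : ℝ) - (ys + r * s)| - ρ) 0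
      linarith) (by
      have h1 : k1 * (R0 * n) = (bb F * F.co.L + 264 + k1 * Cρ) * n := by rw [← mul_assoc, hR0']
      rw [h1]
      have h2 := mul_le_mul_of_nonneg_left hρ2 hk10.le
      linarith) (by
      intro m hm hm'
      obtain ⟨y, hy⟩ := ref_le hAd (show m ≤ K' * n by omega)
      exact ⟨y, hy.trans hEK⟩) (by
      show (law F).real {η | E ≤ VV F d η 0 (T + n + 1)} ≤ p1
      have h1 := hns1 ka d hAd x hS1 hTo (T + n + 1) (by omega) (by rw [← hHn]; omega)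
      refine le_trans (measureReal_mono (fun η hη => ?_) (measure_ne_top _ _)) h1
      rw [mem_ofPred_eq] at hη ⊢
      rw [← hU]
      linarith) (by
      intro z hz
      show (law F).real {η | X F d η 0 (T + n + T) z ≤ (24 + 16 * 30) * E} ≤ p1
      have hz' : |(z : ℝ) - (2 * ys + r * n + w / 2)| ≤ 1 ∨ |(z : ℝ) - (2 * ys + r * n - w / 2)| ≤ 1 := hz
      have he : A1 * EE F d (2 ^ x) ≤ e F d (T + n + T) z := by
        rw [← hU]
        by_contra hcon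
        have h1 := hlev _ hTT1 hTT2 z (not_le.1 hcon).le
        rw [abs_le] at h1 hz0c hz0a
        rcases hz' with h2 | h2
        · rw [abs_le] at h2
          linarith [h1.1, h1.2, hz0c.1, hz0c.2, h2.1, h2.2, hz0a.1, hz0a.2]
        · rw [abs_le] at h2
          linarith [h1.1, h1.2, hz0c.1, hz0c.2, h2.1, h2.2, hz0a.1, hz0a.2]
      have h1 := hns2 ka d hAd hTo x hS2 (T + n + T) (by omega) (by rw [← hHn]; exact hTT2) z he
      refine le_trans (measureReal_mono (fun η hη => ?_) (measure_ne_top _ _)) h1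
      rw [mem_ofPred_eq] at hη ⊢
      rw [← hU, hA1]
      rw [hE] at hη
      linarith) (by
      have h1 : (4 * (C2 + 6)) * W ≤ Nb * (3 * c1) * W := mul_le_mul_of_nonneg_right hNb hW0'.le
      have h2 : (Nb : ℝ) * (3 * c1 * W) ≤ Nb * ρ := mul_le_mul_of_nonneg_left hρ3 hNb0
      linarith) (by
      rw [hp1]
      have e1 : 2 * ((Nb : ℝ) + 1) * (Real.exp (-(1092 * A)) / (2 * (Nb + 1))) = Real.exp (-(1092 * A)) := by field_simp
      rw [e1]
      refine le_of_eq ?_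
      congr 1
      ring) ht1 (by
      have h1 : 2 ^ (x + 1) = 2 * 2 ^ x := by ring
      omega) hwq hwq' y0
  have h1 : ∫⁻ η, GG F d (A / E) 0 0 t y0 (wq : ℤ) η ^ 4 ∂(law F) ≤
      ex (4 * ((4 * 30 + 14) * A - |(y0 : ℝ) - r * t| / wq)) := hmain
  refine h1.trans ?_
  unfold ex
  refine ENNReal.ofReal_le_ofReal (Real.exp_le_exp.2 ?_)
  have hwpos : (0 : ℝ) < w := by linarith
  have hwr : (w : ℝ) ≤ 2 * wq := by exact_mod_cast hwq
  have hwqpos : (0 : ℝ) < wq := by linarith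
  have htn : (t : ℝ) ≤ n := by
    have h1 : 2 ^ (x + 1) = 2 * 2 ^ x := by ring
    have : t ≤ n := by omega
    exact_mod_cast this
  have h2 : |(y0 : ℝ) - d.v * t| ≤ |(y0 : ℝ) - r * t| + wq := by
    have h3 : (y0 : ℝ) - d.v * t = ((y0 : ℝ) - r * t) + (r - d.v) * t := by ring
    rw [h3]
    refine (abs_add_le _ _).trans ?_
    rw [abs_mul (r - d.v), Nat.abs_cast]
    have h4 : |r - d.v| * t ≤ |r - d.v| * n := mul_le_mul_of_nonneg_left htn (abs_nonneg _)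
    linarith
  have h3 : |(y0 : ℝ) - d.v * t| / wq ≤ |(y0 : ℝ) - r * t| / wq + 1 := by
    rw [div_le_iff₀ hwqpos, add_mul, div_mul_cancel₀ _ hwqpos.ne', one_mul]
    exact h2
  linarith

end Pool.Agent.W_1b8d5d_p.El0
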