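import Pool.Agent.W_1b8d5d_p.ElK
import Pool.Agent.W_1b8d5d_p.DPj

/-!
TRACK P, (EL) at zero temperature (proofs row 632): (EL) in the form `ELP` of section 5. helper67.
-/

set_option autoImplicit false

namespace Pool.Agent.W_1b8d5d_p.El0

open MeasureTheory Set
open Pool.Agent.W_1b8d5d_h85
open Pool.Agent.W_1b8d5d_p
open Pool.Agent.W_1b8d5d_p66 (GG ex)
open Pool.Agent.W_1b8d5d_h4p (LawH Sf)

/-- **(EL)** in the form of section 5. -/
theorem elp_of {F : Fm} {ka K c0 C0 a c0' C' : ℝ} {Ds : Set Dr} (hL : LawH F c0 C0) (hD : Dirs F ka K Ds) (hR : Rate F Ds)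
    (hG : Grow F Ds) (ha : 0 < a) (hc : 0 < c0') (hch : CheapI a F Ds c0' C') : Pool.Agent.W_1b8d5d_p66.ELP a F ka Ds := by
  obtain ⟨C, K3, hC, hK3, h⟩ := EL_main hL hD hR hG ha hc hch
  obtain ⟨M, hM⟩ : ∃ M : ℝ, M = max C K3 := ⟨_, rfl⟩
  have hMC : C ≤ M := by rw [hM]; exact le_max_left _ _
  have hMK : K3 ≤ M := by rw [hM]; exact le_max_right _ _
  have hM0 : 0 < M := by linarith
  have hK0 : 0 < K3 := by linarith
  refine ⟨M / K3, M, 135, by linarith, by norm_num, fun A hA W0 => ?_⟩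
  have hA0 : 0 < A := lt_of_lt_of_le (by positivity) hA
  have hA1 : 1 ≤ A * K3 / M := by
    rw [le_div_iff₀ hM0, one_mul]
    rwa [div_le_iff₀ hK0] at hA
  have hA2 : A * K3 / M ≤ A := by
    rw [div_le_iff₀ hM0]
    exact mul_le_mul_of_nonneg_left hMK hA0.le
  obtain ⟨al, x0, -, h1⟩ := h (A * K3 / M) hA1 W0
  refine ⟨al, x0, fun d hd x hx hS => ?_⟩
  obtain ⟨w, h2, h3, h4, h5, h6⟩ := h1 d hd x hx hS
  have hv : 0 < vA a F d (2 ^ x) := hD.vA_pos hd ha Nat.one_le_two_pow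
  have hE := EE_pos F d (2 ^ x)
  have hw0 : (0 : ℝ) ≤ w := Nat.cast_nonneg _
  refine ⟨w, h2, h3, ?_, ?_, ?_⟩
  · exact h5.trans (mul_le_mul_of_nonneg_right hMC (by positivity))
  · refine h4.trans ?_
    have : (1 : ℝ) * w ≤ M * w := mul_le_mul_of_nonneg_right (by linarith) hw0
    linarith
  · intro t wq ht ht' hwq hwq' y0
    have h7 := h6 t wq ht ht' hwq hwq' y0
    have e1 : A * K3 / M / (K3 * EE F d (2 ^ x)) = A / (M * EE F d (2 ^ x)) := by field_simp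
    rw [e1] at h7
    refine h7.trans ?_
    unfold ex
    exact ENNReal.ofReal_le_ofReal (Real.exp_le_exp.2 (by linarith))

end Pool.Agent.W_1b8d5d_p.El0
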