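import Pool.Agent.W_1b8d5d_p.FinP0
import Pool.Agent.W_1b8d5d_p.DirsC
import Pool.Agent.W_1b8d5d_p.NormPof32

/-!
MP_1b8d5d_pr, Track P: the final theorem from the core.
-/

set_option autoImplicit false

open MeasureTheory ProbabilityTheory Filter Topology

namespace Pool.Agent.W_1b8d5d_p

open Pool.Agent.W_1b8d5d_h85 Pool.Agent.W_1b8d5d_fe Pool.Agent.W_1b8d5d_nc

theorem pt1_ptF (μ : (Fin 2 → ℝ) → ℝ) (c : Co) (x : ℝ) : pl μ (pt1 c x) = μ (ptF c x) := rfl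

/-- **The final theorem, from the core.** -/
theorem finalP (hC : CorePow) :
    ∀ (a b c C : ℝ), 0 < a → 0 < c →
    ∀ (ν : Measure ℝ), IsProbabilityMeasure ν →
      ENNReal.ofReal c • volume.restrict (Set.Icc a b) ≤ ν → ν ≤ ENNReal.ofReal C • volume.restrict (Set.Icc a b) →
    ∀ (Ω : Type) [MeasurableSpace Ω] (P : Measure Ω), IsProbabilityMeasure P →
    ∀ (τ : (Fin 2 → ℤ) × Fin 2 → Ω → ℝ),
      (∀ e, Measurable (τ e)) → iIndepFun τ P → (∀ e, P.map (τ e) = ν) →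
    ∀ (μ : (Fin 2 → ℝ) → ℝ), Continuous μ →
      (∀ (c : ℝ) (x : Fin 2 → ℝ), 0 ≤ c → μ (c • x) = c * μ x) →
      (∀ x : Fin 2 → ℤ, TendstoInMeasure P
        (fun (n : ℕ) (ω : Ω) =>
            sInf {t : ℝ | ∃ (m : ℕ) (p : ℕ → Fin 2 → ℤ), p 0 = 0 ∧ p m = (n : ℤ) • x ∧
              (∀ k < m, ∑ i, |p (k+1) i - p k i| = 1) ∧
              t = ∑ k ∈ Finset.range m, ∑ i : Fin 2,
                ((if p (k+1) = p k + (Pi.single i (1 : ℤ) : Fin 2 → ℤ) then τ (p k, i) ω else 0) +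
                 (if p k = p (k+1) + (Pi.single i (1 : ℤ) : Fin 2 → ℤ) then τ (p (k+1), i) ω else 0))}
            / (n : ℝ))
        atTop (fun _ => μ (fun i => (x i : ℝ)))) →
      ∃ ε > 0, ∃ K > 0,
        (∀ x y : Fin 2 → ℝ, μ x = 1 → μ y = 1 → ε * ‖x - y‖ ^ (K : ℝ) ≤ μ x + μ y - μ (x + y)) ∧
        (∀ x y : Fin 2 → ℝ, μ x = 1 → μ y = 1 →
          ∀ z : Fin 2 → ℝ, ‖z‖ ≤ ε * ‖x - y‖ ^ (K : ℝ) → μ (midpoint ℝ x y + z) ≤ 1) := by
  intro a b c C ha hc ν hν hlow hup Ω _ P hP τ hm hi hl μ hμ hom hlim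
  have hat : ∀ x : ℝ, ν ({x} : Set ℝ) = 0 := noatom_of hup
  have hsupp : ν (Set.Icc a b)ᶜ = 0 := supp_of hup
  have hN : NormP μ a b := Pool.Agent.W_1b8d5d_p32.normP_of_problem a b ha ν hν hsupp hat Ω P hP τ hm hi hl μ hμ hom hlim
  have hlaw : Law a b ν := ⟨hν, hsupp, hat⟩
  have hF := isFPP_of_frozen hP hm hi hl
  have hc' : Continuous (pl μ) := by
    show Continuous fun x : ℝ × ℝ => μ ![x.1, x.2]
    refine hμ.comp ?_
    refine continuous_pi fun i => ?_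
    fin_cases i
    · exact continuous_fst
    · exact continuous_snd
  have hom' : ∀ (c : ℝ) (x : ℝ × ℝ), 0 ≤ c → pl μ (c • x) = c * pl μ x := by
    intro c x hcc
    show μ ![c * x.1, c * x.2] = c * μ ![x.1, x.2]
    rw [← hom c _ hcc]
    congr 1
    funext i
    fin_cases i <;> rfl
  have hlim' : ∀ x : V, Tendsto (fun n : ℕ => Pool.Agent.W_1b8d5d_h85.tm P (fun e => τ (toE e)) (n • x) / n) atTop
      (𝓝 (pl μ (toR x))) := by
    intro x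
    refine tendsto_tm ha hlaw hF ?_
    have h1 := hlim (toF x)
    rw [cast_toF] at h1
    have h2 : (fun (n : ℕ) (ω : Ω) =>
        T (fun e => τ (toE e) ω) 0 (n • x) / (n : ℝ)) = fun (n : ℕ) (ω : Ω) =>
        sInf (pathSet (fun e => τ e ω) ((n : ℤ) • toF x)) / (n : ℝ) := by
      funext n ω
      rw [toF_nsmul, sInf_pathSet]
    rw [h2]
    exact h1
  have hmu : ∀ (co : Co) (x : ℝ), mu_ (fmOf co ha hlaw) x = μ (ptF co x) := fun co x => by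
    rw [tc ha hlaw hF hc' hom' hlim' co x, pt1_ptF]
  have hab := ab_of hup
  obtain ⟨N, K, hcov⟩ := cover hN ha
  have hJ : ∀ j ≤ N + 1, ∃ c₀ K' δ : ℝ, 0 < c₀ ∧ 0 < K' ∧ 0 < δ ∧ ∀ d ∈ DA μ (coOf N j) a b K, ∀ x : ℝ, |x| ≤ δ →
      c₀ * |x| ^ K' ≤ Jm μ (coOf N j) d x := by
    intro j _
    have h1 := dirs (F := fmOf (coOf N j) ha hlaw) hN ha rfl rfl (hmu (coOf N j)) K
    obtain ⟨C', hC'⟩ := lawH_of (coOf N j) ha hlaw hab hc hlow hup
    obtain ⟨c0, K0, δ, h2, h3, h4, h5⟩ := hC.at_law (coOf N j) ha hlaw hC' h1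
    refine ⟨c0, K0, δ, h2, h3, h4, fun d hd x hx => ?_⟩
    have h6 := h5 d hd x hx
    rwa [J_eq_Jm (hmu (coOf N j))] at h6
  obtain ⟨ε, K', hε, hK', hA, hB⟩ := curv_final hN ha hcov hJ
  refine ⟨ε, hε, K', hK', hA, fun x y hx hy z hz => hB x y _ hx hy ?_⟩
  have h1 : midpoint ℝ x y + z - (1 / 2 : ℝ) • (x + y) = z := by
    rw [midpoint_eq_smul_add, invOf_eq_inv, one_div, add_sub_cancel_left]
  rwa [h1]

end Pool.Agent.W_1b8d5d_p
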