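import Pool.Agent.W_1b8d5d_p.Unit1
import Pool.Agent.W_1b8d5d_p.BrTC
import Pool.Agent.W_1b8d5d_p.Curv
import Pool.Agent.W_1b8d5d_h4p.RepZ
import Pool.Agent.W_1b8d5d_nc.NcCdf

/-!
MP_1b8d5d_pr, Track P: the last step (1): the core statement, the law of the problem, finitely many column directions.
-/

namespace Pool.Agent.W_1b8d5d_p

open MeasureTheory ProbabilityTheory Set Filter Topology
open Pool.Agent.W_1b8d5d_h85 hiding tm
open Pool.Agent.W_1b8d5d_h4p (LawH)

/-- **The core of Track P**: a lower bound of power type of the rate function, uniform in the direction. -/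
def CorePow : Prop := ∀ (F : Fm) (c C κ K : ℝ) (A : Set Dr), LawH F c C → Antitone F.g →
  0 < κ → Dirs F κ K A → ∃ c0 K0 δ : ℝ, 0 < c0 ∧ 0 < K0 ∧ 0 < δ ∧ ∀ d ∈ A, ∀ x : ℝ, |x| ≤ δ → c0 * |x| ^ K0 ≤ J F d x

section law

variable {ν : Measure ℝ} [IsProbabilityMeasure ν] {a b c C : ℝ}

theorem supp_of (hi : ν ≤ ENNReal.ofReal C • (volume.restrict (Icc a b))) : ν (Icc a b)ᶜ = 0 := by
  have h1 := hi (Icc a b)ᶜ
  rw [Measure.smul_apply, Measure.restrict_apply measurableSet_Icc.compl, compl_inter_self, measure_empty,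
    smul_eq_mul, mul_zero] at h1
  exact le_antisymm h1 zero_le

omit [IsProbabilityMeasure ν] in
theorem noatom_of (hi : ν ≤ ENNReal.ofReal C • (volume.restrict (Icc a b))) (x : ℝ) : ν ({x} : Set ℝ) = 0 := by
  have h1 := hi {x}
  have h2 : (volume.restrict (Icc a b)) ({x} : Set ℝ) = 0 := measure_singleton x
  rw [Measure.smul_apply, h2, smul_eq_mul, mul_zero] at h1
  exact le_antisymm h1 zero_le

theorem ab_of (hi : ν ≤ ENNReal.ofReal C • (volume.restrict (Icc a b))) : a < b := by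
  by_contra hcon
  push Not at hcon
  have h1 : Icc a b ⊆ {a} := by
    intro y hy
    exact le_antisymm (hy.2.trans hcon) hy.1
  have h2 : ν (Icc a b) = 0 := measure_mono_null h1 (noatom_of hi a)
  have h3 : ν univ = 0 := by
    rw [← union_compl_self (Icc a b)]
    exact measure_union_null h2 (supp_of hi)
  rw [measure_univ] at h3
  exact one_ne_zero h3

end law

/-- Finitely many families of rate functions have a common lower bound of power type. -/
theorem unif_pow {ι : Type*} (S : Finset ι) (A : ι → Set Dr) (Jf : ι → Dr → ℝ → ℝ)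
    (h : ∀ i ∈ S, ∃ c0 K0 δ : ℝ, 0 < c0 ∧ 0 < K0 ∧ 0 < δ ∧ ∀ d ∈ A i, ∀ x : ℝ, |x| ≤ δ → c0 * |x| ^ K0 ≤ Jf i d x) :
    ∃ c0 K0 δ : ℝ, 0 < c0 ∧ 0 < K0 ∧ 0 < δ ∧ ∀ i ∈ S, ∀ d ∈ A i, ∀ x : ℝ, |x| ≤ δ → c0 * |x| ^ K0 ≤ Jf i d x := by
  classical
  induction S using Finset.induction_on with
  | empty => exact ⟨1, 1, 1, one_pos, one_pos, one_pos, fun i hi => absurd hi (Finset.notMem_empty i)⟩
  | insert i S hi ih =>
    obtain ⟨c1, K1, δ1, hc1, hK1, hδ1, h1⟩ := ih fun j hj => h j (Finset.mem_insert_of_mem hj)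
    obtain ⟨c2, K2, δ2, hc2, hK2, hδ2, h2⟩ := h i (Finset.mem_insert_self i S)
    refine ⟨min c1 c2, max K1 K2, min 1 (min δ1 δ2), lt_min hc1 hc2, lt_max_of_lt_left hK1,
      lt_min one_pos (lt_min hδ1 hδ2), ?_⟩
    intro j hj d hd x hx
    have hx1 : |x| ≤ 1 := hx.trans (min_le_left _ _)
    have hxa : |x| ≤ δ1 := hx.trans ((min_le_right _ _).trans (min_le_left _ _))
    have hxb : |x| ≤ δ2 := hx.trans ((min_le_right _ _).trans (min_le_right _ _))
    have hp1 : |x| ^ max K1 K2 ≤ |x| ^ K1 :=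
      Real.rpow_le_rpow_of_exponent_ge' (abs_nonneg _) hx1 hK1.le (le_max_left _ _)
    have hp2 : |x| ^ max K1 K2 ≤ |x| ^ K2 :=
      Real.rpow_le_rpow_of_exponent_ge' (abs_nonneg _) hx1 hK2.le (le_max_right _ _)
    have hp0 : 0 ≤ |x| ^ max K1 K2 := Real.rpow_nonneg (abs_nonneg _) _
    rcases Finset.mem_insert.1 hj with h3 | h3
    · subst h3
      refine (mul_le_mul (min_le_right _ _) hp2 hp0 hc2.le).trans (h2 d hd x hxb)
    · exact (mul_le_mul (min_le_left _ _) hp1 hp0 hc1.le).trans (h1 j h3 d hd x hxa)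

/-- The law hypothesis for the model of a law with a density. -/
theorem lawH_of {a b c C : ℝ} {ν : Measure ℝ} (co : Co) (ha : 0 < a) (h : Law a b ν) (hab : a < b) (hc : 0 < c)
    (lo : ENNReal.ofReal c • (volume.restrict (Icc a b)) ≤ ν) (hi : ν ≤ ENNReal.ofReal C • (volume.restrict (Icc a b))) :
    ∃ C' : ℝ, LawH (fmOf co ha h) 1 C' := by
  have : IsProbabilityMeasure ν := h.1
  have hsupp := supp_of hi
  obtain ⟨C', -, hC'⟩ := Pool.Agent.W_1b8d5d_nc.ncf_of_dens ν (a := a) (b := b) (ε := b - a) hc (by linarith)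
    (by
      refine measure_mono_null (fun x hx => ?_) hsupp
      rw [mem_compl_iff, mem_Icc, not_and_or]
      exact Or.inl (not_le.2 hx)) (by
      rw [add_sub_cancel]
      exact lo) (by
      rw [add_sub_cancel]
      refine (Measure.restrict_le_self.trans hi).trans ?_
      gcongr
      exact Measure.restrict_le_self)
  refine ⟨C', hab, one_pos, ?_, ?_, ?_⟩
  · rw [fmOf_map]
    exact noatom_of hi
  · rw [fmOf_map]
    intro u hu
    show 0 < ν.real (Iic (a + u))
    have h1 := lo (Iic (a + u))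
    rw [Measure.smul_apply, Measure.restrict_apply measurableSet_Iic, smul_eq_mul] at h1
    have h2 : ENNReal.ofReal (min u (b - a)) ≤ volume (Iic (a + u) ∩ Icc a b) := by
      have h3 : Icc a (a + min u (b - a)) ⊆ Iic (a + u) ∩ Icc a b := fun x hx =>
        ⟨hx.2.trans (by linarith [min_le_left u (b - a)]), hx.1, hx.2.trans (by linarith [min_le_right u (b - a)])⟩
      have h4 := measure_mono (μ := (volume : Measure ℝ)) h3
      rwa [Real.volume_Icc, add_sub_cancel_left] at h4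
    have h3 : 0 < ν (Iic (a + u)) := by
      refine lt_of_lt_of_le ?_ h1
      have h4 : 0 < ENNReal.ofReal (min u (b - a)) := ENNReal.ofReal_pos.2 (lt_min hu (by linarith))
      exact ENNReal.mul_pos (ENNReal.ofReal_pos.2 hc).ne' (h4.trans_le h2).ne'
    rw [measureReal_def]
    exact ENNReal.toReal_pos h3.ne' (measure_ne_top _ _)
  · rw [fmOf_map]
    exact hC'

/-- The core at the model of a law with a density. -/
theorem CorePow.at_law (hC : CorePow) {a b c C : ℝ} {ν : Measure ℝ} (co : Co) (ha : 0 < a) (h : Law a b ν)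
    (hd : LawH (fmOf co ha h) c C) {K : ℝ} {A : Set Dr} (hD : Dirs (fmOf co ha h) (a / 2) K A) :
    ∃ c0 K0 δ : ℝ, 0 < c0 ∧ 0 < K0 ∧ 0 < δ ∧ ∀ d ∈ A, ∀ x : ℝ, |x| ≤ δ → c0 * |x| ^ K0 ≤ J (fmOf co ha h) d x :=
  hC (fmOf co ha h) c C (a / 2) K A hd (fmOf_anti co ha h) (by positivity) hD

end Pool.Agent.W_1b8d5d_p
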