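import Pool.Agent.W_1b8d5d_p.FrLstar

/-!
MP_1b8d5d_pr, Track P, frame: COVER. From the lucks of a moving frame (slope `r`, width `W`) to the lucks of the original
frame (slope `d.v`, width `W'`), with a smaller tilt; and the same for the reversed lucks.
-/

namespace Pool.Agent.W_1b8d5d_p

open MeasureTheory Set
open Pool.Agent.W_1b8d5d_h85 (V nm dir Edge Env grid wedges cost rf)

noncomputable section

variable {F : Fm} {d : Dr} {K C0 C1 s s' W W' θ D : ℝ} {k : ℕ} {η : Env}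

/-- The direction with another slope. -/
def Dr.wv (d : Dr) (r : ℝ) : Dr := ⟨d.h1, d.h2, r⟩

theorem Adm.wv {κ : ℝ} (hd : Adm F κ d) (r : ℝ) : Adm F κ (d.wv r) := ⟨hd.κ0, hd.h1n, hd.h2n, hd.h1b, hd.h2b, hd.loop⟩

theorem XP_wv (F : Fm) (d : Dr) (r : ℝ) (η : Env) (P Q : Pt) : XP F (d.wv r) η P Q = XP F d η P Q := rfl

theorem lat_wv (d : Dr) (r : ℝ) (P : Pt) : lat (d.wv r) P = lat d P + (d.v - r) * P.1 := by
  unfold lat Dr.wv
  simp only
  ring

theorem Sl.wv (h : Sl F d K C0 C1) (r : ℝ) : Sl F (d.wv r) K C0 C1 :=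
  ⟨h.k0, h.C00, h.C10, h.meas, h.dep, h.shift, h.mp, h.diag, h.tri, h.cut, h.low⟩

/-- The pointwise comparison. -/
theorem cover_pt (h : Sl F d K C0 C1) (hs' : 0 ≤ s') (hs : s' ≤ s) (hsK : s ≤ K) (hW : 0 < W) (hW' : 0 < W')
    (hθ : 0 < θ) {r : ℝ} (hD : |d.v - r| * k ≤ D) (o : ℝ) (η : Env) :
    Real.exp (θ * TL F d s' o W' k η) ≤ Real.exp (θ * (s' * D)) *
      ∑ j ∈ Finset.range ⌈(W' + 2 * D) / W⌉₊, Real.exp (θ * TL F (d.wv r) s (o - D + j * W) W k η) := by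
  obtain ⟨S, hS⟩ : ∃ S, S = ∑ j ∈ Finset.range ⌈(W' + 2 * D) / W⌉₊,
    Real.exp (θ * TL F (d.wv r) s (o - D + j * W) W k η) := ⟨_, rfl⟩
  rw [← hS]
  have h' := h.wv r
  have hD0 : 0 ≤ D := le_trans (mul_nonneg (abs_nonneg _) (Nat.cast_nonneg _)) hD
  have hterm : ∀ j : ℕ, (j : ℝ) < (W' + 2 * D) / W → Real.exp (θ * TL F (d.wv r) s (o - D + j * W) W k η) ≤ S := by
    intro j hj
    rw [hS]
    exact Finset.single_le_sum (f := fun j : ℕ => Real.exp (θ * TL F (d.wv r) s (o - D + j * W) W k η))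
      (fun j _ => (Real.exp_pos _).le) (Finset.mem_range.2 (Nat.lt_ceil.2 hj))
  have hS1 : 1 ≤ S := by
    refine le_trans ?_ (hterm 0 (by
      push_cast
      positivity))
    exact Real.one_le_exp (mul_nonneg hθ.le (TL_nonneg h' hsK η))
  have hE1 : 1 ≤ Real.exp (θ * (s' * D)) := Real.one_le_exp (mul_nonneg hθ.le (mul_nonneg hs' hD0))
  obtain ⟨E, hE⟩ : ∃ E, E = Real.exp (θ * (s' * D)) := ⟨_, rfl⟩
  rw [← hE] at hE1 ⊢
  have hR1 : 1 ≤ E * S := by nlinarith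
  have hRpos : 0 < E * S := by linarith
  have key : ∀ P Q : Pt, (P, Q) ∈ InB d o W' k → Real.exp (θ * (s' * |lat d Q - lat d P| - XP F d η P Q)) ≤ E * S := by
    rintro P Q ⟨h1, h2, h3, h4, h5, h6⟩
    simp only at h1 h2 h3 h4 h5 h6
    have e1 : (0 : ℝ) ≤ P.1 := by exact_mod_cast h1
    have e2 : (P.1 : ℝ) ≤ Q.1 := by exact_mod_cast h2
    have e3 : (Q.1 : ℝ) ≤ k := by exact_mod_cast h3
    have hrP : |(d.v - r) * P.1| ≤ D := by
      rw [abs_mul, abs_of_nonneg e1]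
      exact (mul_le_mul_of_nonneg_left (e2.trans e3) (abs_nonneg _)).trans hD
    have hrP' := abs_le.1 hrP
    have hp0 : 0 ≤ (lat (d.wv r) P - (o - D)) / W := by
      rw [lat_wv]
      exact div_nonneg (by linarith) hW.le
    have hp1 : (lat (d.wv r) P - (o - D)) / W < (W' + 2 * D) / W := by
      rw [lat_wv]
      exact div_lt_div_of_pos_right (by linarith) hW
    -- the cell of `P` in the new frame
    obtain ⟨j, hj1, hj2, hj3⟩ : ∃ j : ℕ, o - D + j * W ≤ lat (d.wv r) P ∧ lat (d.wv r) P < o - D + j * W + W ∧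
        (j : ℝ) < (W' + 2 * D) / W := by
      refine ⟨⌊(lat (d.wv r) P - (o - D)) / W⌋₊, ?_, ?_, ?_⟩
      · have := Nat.floor_le hp0
        rw [le_div_iff₀ hW] at this
        linarith
      · have := Nat.lt_floor_add_one ((lat (d.wv r) P - (o - D)) / W)
        rw [div_lt_iff₀ hW] at this
        linarith
      · exact lt_of_le_of_lt (Nat.floor_le hp0) hp1
    have h8 := le_TL h' hsK η (P := P) (Q := Q) (o := o - D + j * W) (W := W) (k := k) (t := s) ⟨h1, h2, h3, h4, hj1, hj2⟩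
    have h9 : |lat d Q - lat d P| ≤ |lat (d.wv r) Q - lat (d.wv r) P| + D := by
      have e4 : lat d Q - lat d P = (lat (d.wv r) Q - lat (d.wv r) P) + -((d.v - r) * ((Q.1 : ℝ) - P.1)) := by
        rw [lat_wv, lat_wv]
        ring
      rw [e4]
      refine (abs_add_le _ _).trans (add_le_add le_rfl ?_)
      rw [abs_neg, abs_mul, abs_of_nonneg (by linarith : (0 : ℝ) ≤ (Q.1 : ℝ) - P.1)]
      exact (mul_le_mul_of_nonneg_left (by linarith) (abs_nonneg _)).trans hD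
    have h10 := mul_le_mul_of_nonneg_left h9 hs'
    have h11 := mul_le_mul_of_nonneg_right hs (abs_nonneg (lat (d.wv r) Q - lat (d.wv r) P))
    rw [XP_wv] at h8
    calc Real.exp (θ * (s' * |lat d Q - lat d P| - XP F d η P Q))
        ≤ Real.exp (θ * (s' * D) + θ * TL F (d.wv r) s (o - D + j * W) W k η) := by
          refine Real.exp_le_exp.2 ?_
          rw [← mul_add]
          exact mul_le_mul_of_nonneg_left (by linarith) hθ.le
      _ = E * Real.exp (θ * TL F (d.wv r) s (o - D + j * W) W k η) := by rw [Real.exp_add, hE]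
      _ ≤ E * S := mul_le_mul_of_nonneg_left (hterm j hj3) (by linarith)
  have hL : TL F d s' o W' k η ≤ Real.log (E * S) / θ := by
    refine TL_le (div_nonneg (Real.log_nonneg hR1) hθ.le) fun P Q hPQ => ?_
    rw [le_div_iff₀ hθ, mul_comm]
    exact (Real.le_log_iff_exp_le hRpos).2 (key P Q hPQ)
  rw [le_div_iff₀ hθ] at hL
  refine (Real.le_log_iff_exp_le hRpos).1 ?_
  linarith

/-- **COVER.** -/
theorem cover80 (h : Sl F d K C0 C1) (hs' : 0 ≤ s') (hs : s' ≤ s) (hsK : s ≤ K) (hW : 0 < W) (hW' : 0 < W')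
    (hθ : 0 < θ) {r B : ℝ} (hD : |d.v - r| * k ≤ D)
    (hB : ∀ o, ∫ η, Real.exp (θ * TL F (d.wv r) s o W k η) ∂(law F) ≤ B) (o : ℝ) :
    ∫ η, Real.exp (θ * TL F d s' o W' k η) ∂(law F) ≤ Real.exp (θ * (s' * D)) * (((W' + 2 * D) / W + 1) * B) := by
  have h' := h.wv r
  have hD0 : 0 ≤ D := le_trans (mul_nonneg (abs_nonneg _) (Nat.cast_nonneg _)) hD
  have hB0 : 0 ≤ B := le_trans (integral_nonneg fun η => (Real.exp_pos _).le) (hB 0)
  have h1 := integral_mono (expTL_int (o := o) (W := W') (k := k) h (hs.trans hsK) hθ.le)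
    ((integrable_finsetSum (Finset.range ⌈(W' + 2 * D) / W⌉₊) fun j _ =>
      expTL_int (o := o - D + j * W) (W := W) (k := k) h' hsK hθ.le).const_mul (Real.exp (θ * (s' * D))))
    (fun η => cover_pt h hs' hs hsK hW hW' hθ hD o η)
  refine h1.trans ?_
  rw [integral_const_mul]
  refine mul_le_mul_of_nonneg_left ?_ (Real.exp_pos _).le
  rw [integral_finsetSum (Finset.range ⌈(W' + 2 * D) / W⌉₊) fun (j : ℕ) _ =>
    expTL_int (o := o - D + (j : ℝ) * W) (W := W) (k := k) h' hsK hθ.le]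
  refine (Finset.sum_le_sum (s := Finset.range ⌈(W' + 2 * D) / W⌉₊) fun (j : ℕ) _ => hB (o - D + (j : ℝ) * W)).trans ?_
  rw [Finset.sum_const, nsmul_eq_mul, Finset.card_range]
  refine mul_le_mul_of_nonneg_right ?_ hB0
  exact (Nat.ceil_lt_add_one (by positivity)).le

/-- **COVER** for the reversed lucks. -/
theorem cover80r {κ : ℝ} (hd : Adm F κ d) (h : Sl F d K C0 C1) (hs' : 0 ≤ s') (hs : s' ≤ s) (hsK : s ≤ K) (hW : 0 < W)
    (hW' : 0 < W') (hθ : 0 < θ) {r B : ℝ} (hD : |d.v - r| * k ≤ D)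
    (hB : ∀ o, ∫ η, Real.exp (θ * TLr F (d.wv r) s o W k η) ∂(law F) ≤ B) (o : ℝ) :
    ∫ η, Real.exp (θ * TLr F d s' o W' k η) ∂(law F) ≤ Real.exp (θ * (s' * D)) * (((W' + 2 * D) / W + 1) * B) := by
  rw [TLr_int hd]
  refine cover80 h hs' hs hsK hW hW' hθ hD (fun o => ?_) _
  have h1 := hB (-o - W - (d.wv r).v * k)
  rw [TLr_int (hd.wv r)] at h1
  have e1 : -(-o - W - (d.wv r).v * k) - W - (d.wv r).v * k = o := by ring
  rw [e1] at h1
  exact h1

end

end Pool.Agent.W_1b8d5d_p
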