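import Pool.Agent.W_1b8d5d_p.FrSlab

/-!
MP_1b8d5d_pr, Track P. First and last passages of walks; the cut of a slab walk at a block time.
-/

namespace Pool.Agent.W_1b8d5d_p

open MeasureTheory Set
open Pool.Agent.W_1b8d5d_h85

/-- The first step into `{K ≤ f}`. -/
theorem first_cut (f : V → ℤ) (K : ℤ) {x y : V} (w : grid.Walk x y) (hx : f x < K) (hy : K ≤ f y) :
    ∃ (u v : V) (w1 : grid.Walk x u) (h : grid.Adj u v) (w2 : grid.Walk v y),
      w = w1.append (SimpleGraph.Walk.cons h w2) ∧ (∀ z ∈ w1.support, f z < K) ∧ K ≤ f v := by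
  induction w with
  | nil => omega
  | @cons x v' y hadj w' ih =>
    by_cases hv : K ≤ f v'
    · refine ⟨x, v', .nil, hadj, w', by simp, ?_, hv⟩
      intro z hz
      rw [SimpleGraph.Walk.support_nil, List.mem_singleton] at hz
      rw [hz]
      exact hx
    · obtain ⟨u, v, w1, h, w2, e1, e2, e3⟩ := ih (by omega) hy
      refine ⟨u, v, SimpleGraph.Walk.cons hadj w1, h, w2, by rw [e1]; simp, ?_, e3⟩
      intro z hz
      rw [SimpleGraph.Walk.support_cons, List.mem_cons] at hz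
      rcases hz with rfl | hz
      · exact hx
      · exact e2 z hz

/-- The last step out of `{f ≤ K}`. -/
theorem last_cut (f : V → ℤ) (K : ℤ) {x y : V} (w : grid.Walk x y) (hx : f x ≤ K) (hy : K < f y) :
    ∃ (u v : V) (w1 : grid.Walk x u) (h : grid.Adj u v) (w2 : grid.Walk v y),
      w = w1.append (SimpleGraph.Walk.cons h w2) ∧ f u ≤ K ∧ ∀ z ∈ w2.support, K < f z := by
  obtain ⟨u, v, w1, h, w2, e1, e2, e3⟩ := first_cut (fun z => -f z) (-K) w.reverse (by omega) (by omega)
  refine ⟨v, u, w2.reverse, h.symm, w1.reverse, ?_, by omega, ?_⟩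
  · rw [← w.reverse_reverse, e1, SimpleGraph.Walk.reverse_append, SimpleGraph.Walk.reverse_cons,
      ← SimpleGraph.Walk.append_assoc]
    rfl
  · intro z hz
    rw [SimpleGraph.Walk.support_reverse, List.mem_reverse] at hz
    have := e2 z hz
    omega

/-- Three pieces: the walk up to the last vertex before the first visit of `{K ≤ f}`, a middle piece, and the walk from the
first vertex after the last visit of `{f ≤ K}`. -/
theorem three_cut (f : V → ℤ) (K : ℤ) {x y : V} (w : grid.Walk x y) (hx : f x < K) (hy : K < f y) :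
    ∃ (u v u' v' : V) (w1 : grid.Walk x u) (w2 : grid.Walk u v') (w3 : grid.Walk v' y),
      w = w1.append (w2.append w3) ∧ (∀ z ∈ w1.support, f z < K) ∧ (∀ z ∈ w3.support, K < f z) ∧
      grid.Adj u v ∧ K ≤ f v ∧ grid.Adj u' v' ∧ f u' ≤ K := by
  obtain ⟨u, v, w1, h, w2, e1, e2, e3⟩ := first_cut f K w hx hy.le
  obtain ⟨u', v', w3, h', w4, f1, f2, f3⟩ := last_cut f K (SimpleGraph.Walk.cons h w2)
    (e2 u w1.end_mem_support).le hy
  refine ⟨u, v, u', v', w1, w3.append (SimpleGraph.Walk.cons h' .nil), w4, ?_, e2, f3, h, e3, h', f2⟩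
  rw [e1, f1, ← SimpleGraph.Walk.append_assoc]
  rfl

variable {c : Co} {α β : ℝ} {τ : Env}

theorem tm_adj (c : Co) {u v : V} (h : grid.Adj u v) : c.tm v ≤ c.tm u + c.M ∧ c.tm u ≤ c.tm v + c.M := by
  obtain ⟨s, hs | hs⟩ := h
  · rw [hs, Co.tm_add]
    have := c.tm_dir_nonneg s
    have := c.tm_dir_le s
    omega
  · rw [hs, Co.tm_add]
    have := c.tm_dir_nonneg s
    have := c.tm_dir_le s
    omega

/-- The rounding distance. -/
theorem nm_round (c : Co) (m : ℤ) (z : V) : nm (c.vt (m, c.ps z) - z) = c.R * |(c.L * m - c.tm z : ℤ)| := by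
  have h : c.vt (m, c.ps z) - z = ((c.L * m - c.tm z) * c.r, (c.L * m - c.tm z) * c.s) := by
    apply c.ext
    · rw [Co.tm_sub, Co.tm_vt]
      unfold Co.tm
      simp only
      linear_combination (-(c.L * m - (c.p * z.1 + c.q * z.2))) * c.det
    · rw [Co.ps_sub, Co.ps_vt]
      unfold Co.ps
      simp only
      ring
  rw [h]
  unfold nm Co.R
  push_cast
  rw [abs_mul, abs_mul]
  ring

/-- The rounding constant. -/
noncomputable def C0 (c : Co) (β : ℝ) : ℝ := β * (4 * (c.M * c.R) + 8)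

theorem C0_nonneg (c : Co) (hβ : 0 ≤ β) : 0 ≤ C0 c β := by
  have h1 : (1 : ℝ) ≤ c.M := by exact_mod_cast c.M_pos
  have h2 : (1 : ℝ) ≤ c.R := by exact_mod_cast c.R_pos
  unfold C0
  positivity

/-- **(B)** THE CUT at a block time `m`: a slab walk from a time `< L m` to a time `> L m`. -/
theorem cut_walk (hτ : Bd α β τ) (hα : 0 < α) (hαβ : α ≤ β) {s m t : ℤ} {x z : V}
    (hx : c.L * s ≤ c.tm x ∧ c.tm x < c.L * m) (hz : c.L * m < c.tm z ∧ c.tm z ≤ c.L * t) (w : grid.Walk x z)
    (hw : ∀ e ∈ wedges w, e ∈ c.slab s t) :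
    ∃ k k' : ℤ, TR (c.slab s m) τ x (c.vt (m, k)) + α * (c.M * |(k : ℝ) - k'|) + TR (c.slab m t) τ (c.vt (m, k')) z ≤
      cost τ w + C0 c β := by
  have hL := c.L_pos
  have hLM := c.L_eq
  have hR1 : (1 : ℝ) ≤ c.R := by exact_mod_cast c.R_pos
  have hM1 : (1 : ℝ) ≤ c.M := by exact_mod_cast c.M_pos
  have hsm : s < m := by
    by_contra h
    have : c.L * m ≤ c.L * s := mul_le_mul_of_nonneg_left (by omega) (by omega)
    omega
  have hmt : m < t := by
    by_contra h
    have : c.L * t ≤ c.L * m := mul_le_mul_of_nonneg_left (by omega) (by omega)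
    omega
  have hsm' : c.L * s ≤ c.L * m := mul_le_mul_of_nonneg_left (by omega) (by omega)
  have hmt' : c.L * m ≤ c.L * t := mul_le_mul_of_nonneg_left (by omega) (by omega)
  have hst : s < t := by omega
  obtain ⟨u, v, u', v', w1, w2, w3, e1, e2, e3, huv, hv, huv', hu'⟩ := three_cut c.tm (c.L * m) w hx.2 hz.1
  have hsub1 : ∀ e ∈ wedges w1, e ∈ wedges w := by
    intro e he; rw [e1, wedges_append]; exact List.mem_append_left _ he
  have hsub3 : ∀ e ∈ wedges w3, e ∈ wedges w := by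
    intro e he
    rw [e1, wedges_append, wedges_append]
    exact List.mem_append_right _ (List.mem_append_right _ he)
  have hsupp := Co.tm_of_slab hw ⟨hx.1, by omega⟩
  have hus : c.L * s ≤ c.tm u ∧ c.tm u < c.L * m := by
    refine ⟨(hsupp u ?_).1, e2 u w1.end_mem_support⟩
    rw [e1, SimpleGraph.Walk.mem_support_append_iff]
    exact Or.inl w1.end_mem_support
  have hvs : c.L * m < c.tm v' ∧ c.tm v' ≤ c.L * t := by
    refine ⟨e3 v' w3.start_mem_support, (hsupp v' ?_).2⟩
    rw [e1, SimpleGraph.Walk.mem_support_append_iff, SimpleGraph.Walk.mem_support_append_iff]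
    exact Or.inr (Or.inr w3.start_mem_support)
  -- the first piece
  have hw1 : ∀ e ∈ wedges w1, e ∈ c.slab s m := by
    intro e he
    obtain ⟨f1, f2, f3, f4⟩ := hw e (hsub1 e he)
    obtain ⟨g1, g2⟩ := wedges_support w1 he
    have g3 := e2 _ g1
    have g4 := e2 _ g2
    exact ⟨f1, by omega, g3, f4⟩
  have hw3 : ∀ e ∈ wedges w3, e ∈ c.slab m t := by
    intro e he
    obtain ⟨f1, f2, f3, f4⟩ := hw e (hsub3 e he)
    obtain ⟨g1, g2⟩ := wedges_support w3 he
    have g3 := e3 _ g1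
    have g4 := e3 _ g2
    exact ⟨by omega, f2, f3, by omega⟩
  set k := c.ps u with hk
  set k' := c.ps v' with hk'
  have htu : |((c.L * m - c.tm u : ℤ) : ℝ)| ≤ c.M := by
    have h1 := (tm_adj c huv).1
    have h2 : |(c.L * m - c.tm u : ℤ)| ≤ c.M := by rw [abs_of_nonneg (by omega)]; omega
    rw [← Int.cast_abs]
    exact_mod_cast h2
  have htv : |((c.L * m - c.tm v' : ℤ) : ℝ)| ≤ c.M := by
    have h1 := (tm_adj c huv').1
    have h2 : |(c.L * m - c.tm v' : ℤ)| ≤ c.M := by rw [abs_of_neg (by omega)]; omega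
    rw [← Int.cast_abs]
    exact_mod_cast h2
  have hru : nm (c.vt (m, k) - u) ≤ c.M * c.R := by
    rw [hk, nm_round, Int.cast_abs]
    rw [mul_comm]
    exact mul_le_mul_of_nonneg_right htu (by linarith)
  have hrv : nm (c.vt (m, k') - v') ≤ c.M * c.R := by
    rw [hk', nm_round, Int.cast_abs]
    rw [mul_comm]
    exact mul_le_mul_of_nonneg_right htv (by linarith)
  obtain ⟨p1, hp1, lp1⟩ := Co.slab_conn (c := c) (s := s) (t := m) hsm (x := u) (y := c.vt (m, k))
    ⟨hus.1, hus.2.le⟩ (by rw [Co.tm_vt]; exact ⟨hsm', le_rfl⟩)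
  obtain ⟨p2, hp2, lp2⟩ := Co.slab_conn (c := c) (s := m) (t := t) hmt (x := c.vt (m, k')) (y := v')
    (by rw [Co.tm_vt]; exact ⟨le_rfl, hmt'⟩) ⟨hvs.1.le, hvs.2⟩
  refine ⟨k, k', ?_⟩
  have hβ : 0 ≤ β := hα.le.trans hαβ
  have t1 := TR_le hτ hα.le (w1.append p1) (S := c.slab s m) (by
    intro e he
    rw [wedges_append, List.mem_append] at he
    exact he.elim (hw1 e) (hp1 e))
  have t2 := TR_le hτ hα.le (p2.append w3) (S := c.slab m t) (by
    intro e he
    rw [wedges_append, List.mem_append] at he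
    exact he.elim (hp2 e) (hw3 e))
  rw [cost_append] at t1 t2
  have c1 := cost_le hτ p1
  have c2 := cost_le hτ p2
  have c3 : β * p1.length ≤ β * (c.M * c.R + 4) := mul_le_mul_of_nonneg_left (by linarith) hβ
  have c4 : β * p2.length ≤ β * (c.M * c.R + 4) := by
    rw [nm_sub_comm] at hrv
    exact mul_le_mul_of_nonneg_left (by linarith) hβ
  have c5 : α * nm (v' - u) ≤ cost τ w2 :=
    (mul_le_mul_of_nonneg_left (nm_le_length w2) hα.le).trans (le_cost hτ w2)
  have c6 : c.M * |(k : ℝ) - k'| ≤ nm (v' - u) + 2 * (c.M * c.R) := by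
    have h1 : c.vt (0, k' - k) = (c.vt (m, k') - v') + ((v' - u) + (u - c.vt (m, k))) := by
      have h2 : ((0 : ℤ), k' - k) = ((m, k') : Pt) - (m, k) := by ext <;> simp
      rw [h2, Co.vt_sub]
      abel
    have h2 := c.nm_lat (k' - k)
    rw [h1] at h2
    have h3 := nm_add_le (c.vt (m, k') - v') ((v' - u) + (u - c.vt (m, k)))
    have h4 := nm_add_le (v' - u) (u - c.vt (m, k))
    rw [nm_sub_comm u] at h4
    have h5 : |((k' - k : ℤ) : ℝ)| = |(k : ℝ) - k'| := by push_cast; rw [abs_sub_comm]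
    rw [h5] at h2
    linarith
  have c7 : α * (c.M * |(k : ℝ) - k'|) ≤ α * nm (v' - u) + 2 * (β * (c.M * c.R)) := by
    have h1 := mul_le_mul_of_nonneg_left c6 hα.le
    have h2 : α * (c.M * c.R) ≤ β * (c.M * c.R) := mul_le_mul_of_nonneg_right hαβ (by positivity)
    linarith
  rw [e1, cost_append, cost_append]
  unfold C0
  linarith

end Pool.Agent.W_1b8d5d_p
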