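import Pool.Agent.W_1b8d5d_h85.Grid3

/-!
MP_1b8d5d_pr, Track P. The frame: slab passage times of planar first-passage percolation.

TIME. A primitive vector `(p, q)` (`p ≥ 1`, `q ≥ 0`, `p r + q s = 1`): the time of the vertex `z` is the integer
`tm z = p z.1 + q z.2`. Its position is `ps z = r z.2 - s z.1`; `z = tm z (r, s) + ps z (-q, p)`.
BLOCK TIMES are the multiples of `L = p + q + 1`. The grid point `(n, k)` (block time `n`, position `k`) is the vertex
`vt (n, k) = n L (r, s) + k (-q, p)`. The slab of the block times `[s, t]` is a set of edges, symmetric under `z ↦ -z`.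
LAW DATA `F : Fm` (coordinates, bounds `0 < a ≤ b` of the weights, independent weights `g (η e)`), DIRECTION `d : Dr` (linear
form `H z = h1 z.1 + h2 z.2`, slope `v`): one law, a family of directions.
-/

namespace Pool.Agent.W_1b8d5d_p

open MeasureTheory Set
open Pool.Agent.W_1b8d5d_h85 (V nm dir Edge Env grid ke wedges cost Bd sh rf)

noncomputable section

/-- Coordinates: `p r + q s = 1`, `p ≥ 1`, `q ≥ 0`. -/
structure Co where
  p : ℤ
  q : ℤ
  r : ℤ
  s : ℤ
  hp : 1 ≤ p
  hq : 0 ≤ q
  det : p * r + q * s = 1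

/-- Grid points: (block time, position). -/
abbrev Pt := ℤ × ℤ

namespace Co

variable (c : Co)

/-- The time of a vertex. -/
def tm (z : V) : ℤ := c.p * z.1 + c.q * z.2

/-- The position of a vertex. -/
def ps (z : V) : ℤ := c.r * z.2 - c.s * z.1

/-- The length of a block of times. -/
def L : ℤ := c.p + c.q + 1

/-- The length of the lateral period `(-q, p)`. -/
def M : ℤ := c.p + c.q

/-- The vertex of the grid point `(n, k)`. -/
def vt (a : Pt) : V := (c.L * a.1 * c.r - a.2 * c.q, c.L * a.1 * c.s + a.2 * c.p)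

/-- The edges of the slab of the block times `[s, t]`: the two end points have times in `[L s, L t]`, they have not both the
time `L s`, and not both the time `L t`. -/
def slab (s t : ℤ) : Set Edge :=
  {e | c.L * s ≤ c.tm e.1 ∧ c.tm (e.1 + dir e.2) ≤ c.L * t ∧ c.tm e.1 < c.L * t ∧ c.L * s < c.tm (e.1 + dir e.2)}

/-- The edges whose first end point has a time in `[i, j)` (integer times, a partition of all edges). -/
def EI (i j : ℤ) : Set Edge := {e | i ≤ c.tm e.1 ∧ c.tm e.1 < j}

/-- The edges whose first end point has a block time in `[s, t)`. -/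
def rows (s t : ℤ) : Set Edge := c.EI (c.L * s) (c.L * t)

end Co

/-- The walks with all edges in `S`. -/
abbrev WK (S : Set Edge) (x y : V) := {w : grid.Walk x y // ∀ e ∈ wedges w, e ∈ S}

/-- The passage time of the walks with all edges in `S` (`0` if there is none). -/
def TR (S : Set Edge) (τ : Env) (x y : V) : ℝ := ⨅ w : WK S x y, cost τ w.1

/-- The slab passage time from the grid point `a` to the grid point `a + (n, y)`. -/
def TT (c : Co) (τ : Env) (a : Pt) (n : ℕ) (y : ℤ) : ℝ :=
  TR (c.slab a.1 (a.1 + n)) τ (c.vt a) (c.vt (a + ((n : ℤ), y)))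

/-- The data of the law: coordinates, bounds `0 < a ≤ b` of the weights, the weights as functions `g` of independent variables
with law `nu`. -/
structure Fm where
  co : Co
  a : ℝ
  b : ℝ
  g : ℝ → ℝ
  nu : Measure ℝ
  prob : IsProbabilityMeasure nu
  a0 : 0 < a
  ab : a ≤ b
  mg : Measurable g
  g1 : ∀ x, a ≤ g x
  g2 : ∀ x, g x ≤ b

instance (F : Fm) : IsProbabilityMeasure F.nu := F.prob

/-- The law of the environment. -/
def law (F : Fm) : Measure Env := Measure.infinitePi fun _ => F.nu

instance (F : Fm) : IsProbabilityMeasure (law F) := by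
  unfold law
  infer_instance

/-- The weights. -/
def Fm.tau (F : Fm) (η : Env) : Env := fun e => F.g (η e)

/-- The shift by a grid point. -/
def Fm.shp (F : Fm) (a : Pt) (η : Env) : Env := sh (F.co.vt a) η

/-- A direction: a linear form `H` and a slope `v` (displacements `(n, v n)`). -/
structure Dr where
  h1 : ℝ
  h2 : ℝ
  v : ℝ

/-- The linear form. -/
def Dr.H (d : Dr) (z : V) : ℝ := d.h1 * z.1 + d.h2 * z.2

/-- The height of a block time. -/
def al (c : Co) (d : Dr) : ℝ := c.L * (d.h1 * c.r + d.h2 * c.s)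

/-- The height of a position. -/
def be (c : Co) (d : Dr) : ℝ := d.h2 * c.p - d.h1 * c.q

/-- Admissible directions: `0 ≤ H ≤ b` on the unit vectors, and loops at equal times are never lucky. -/
structure Adm (F : Fm) (κ : ℝ) (d : Dr) : Prop where
  κ0 : 0 < κ
  h1n : 0 ≤ d.h1
  h2n : 0 ≤ d.h2
  h1b : d.h1 ≤ F.b
  h2b : d.h2 ≤ F.b
  loop : |be F.co d| ≤ (F.a - κ) * F.co.M

/-- The cost (excess) of the displacement `(n, y)` from `a`. -/
def X (F : Fm) (d : Dr) (η : Env) (a : Pt) (n : ℕ) (y : ℤ) : ℝ :=
  TT F.co (F.tau η) a n y - (al F.co d * n + be F.co d * y)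

/-- The mean cost of the displacement `(n, y)`. -/
def e (F : Fm) (d : Dr) (n : ℕ) (y : ℤ) : ℝ := ∫ η, X F d η 0 n y ∂(law F)

/-- The luck of the starting point `a`. -/
def VV (F : Fm) (d : Dr) (η : Env) (a : Pt) (n : ℕ) : ℝ := ⨆ y : ℤ, -X F d η a n y

/-- The luck of the end point `a`. -/
def Vr (F : Fm) (d : Dr) (η : Env) (a : Pt) (n : ℕ) : ℝ := ⨆ y : ℤ, -X F d η (a - ((n : ℤ), y)) n y

end

end Pool.Agent.W_1b8d5d_p
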