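import Pool.Agent.W_1b8d5d_p.FrResA

/-!
MP_1b8d5d_pr, Track P, frame (proofs row 631, section 6): the restart. The exponential bound.
-/

namespace Pool.Agent.W_1b8d5d_p

open MeasureTheory Set
open Pool.Agent.W_1b8d5d_h85 (V nm dir Edge Env grid)

noncomputable section

variable {F : Fm} {d : Dr} {K C0 C1 s t0 Y o W θ : ℝ} {k m n : ℕ} {η : Env}

/-- The luck behind the block time `m` is a luck of the shifted environment. -/
theorem tail_le (h : Sl F d K C0 C1) (hs : s ≤ K) (η : Env) {R Q : Pt} {o' : ℝ} (hmk : m ≤ k) (h1 : (m : ℤ) ≤ R.1)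
    (h2 : R.1 ≤ Q.1) (h3 : Q.1 ≤ k) (h4 : R.1 = Q.1 → R = Q) (h5 : o' ≤ lat d R) (h6 : lat d R < o' + W) :
    s * |lat d Q - lat d R| - XP F d η R Q ≤ TL F d s (o' + d.v * m) W (k - m) (F.shp ((m : ℤ), 0) η) := by
  have e1 : R - ((m : ℤ), 0) + ((m : ℤ), 0) = R := sub_add_cancel _ _
  have e2 : Q - ((m : ℤ), 0) + ((m : ℤ), 0) = Q := sub_add_cancel _ _
  have l1 : ∀ P : Pt, lat d (P - ((m : ℤ), 0)) = lat d P + d.v * m := by
    intro P
    unfold lat
    simp only [Prod.fst_sub, Prod.snd_sub]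
    push_cast
    ring
  have h7 := le_TL h hs (F.shp ((m : ℤ), 0) η) (P := R - ((m : ℤ), 0)) (Q := Q - ((m : ℤ), 0))
    (o := o' + d.v * m) (W := W) (k := k - m) (t := s) ⟨by
      simp only [Prod.fst_sub]
      linarith, by
      simp only [Prod.fst_sub]
      linarith, by
      simp only [Prod.fst_sub]
      rw [Nat.cast_sub hmk]
      linarith, by
      intro hh
      simp only [Prod.fst_sub] at hh
      simp only
      rw [h4 (by linarith)], by
      rw [l1]
      linarith, by
      rw [l1]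
      linarith⟩
  rw [h.XP_shift, e1, e2, l1, l1] at h7
  have e3 : lat d Q + d.v * m - (lat d R + d.v * m) = lat d Q - lat d R := by ring
  rw [e3] at h7
  exact h7

private theorem cell (hW : 0 < W) (x : ℝ) : ∃ j : ℤ, o + j * W ≤ x ∧ x < o + j * W + W := by
  refine ⟨⌊(x - o) / W⌋, ?_, ?_⟩
  · have := Int.floor_le ((x - o) / W)
    rw [le_div_iff₀ hW] at this
    linarith
  · have := Int.lt_floor_add_one ((x - o) / W)
    rw [div_lt_iff₀ hW] at this
    linarith

private theorem cell_dist {x y : ℝ} {j : ℤ} (h1 : o ≤ x) (h2 : x < o + W) (h3 : o + j * W ≤ y)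
    (h4 : y < o + j * W + W) : max (|(j : ℝ)| - 1) 0 * W ≤ |y - x| := by
  rcases le_total (|(j : ℝ)| - 1) 0 with h5 | h5
  · rw [max_eq_right h5, zero_mul]
    exact abs_nonneg _
  · rw [max_eq_left h5]
    rcases le_total 0 (j : ℝ) with h6 | h6
    · rw [abs_of_nonneg h6]
      refine le_trans ?_ (le_abs_self _)
      nlinarith
    · rw [abs_of_nonpos h6]
      refine le_trans ?_ (neg_le_abs _)
      nlinarith

/-- The term of the block time `m` and of the cell `j`. -/
def term (F : Fm) (d : Dr) (s t0 Y o W θ : ℝ) (k m : ℕ) (j : ℤ) (η : Env) : ℝ :=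
  wj (θ * (t0 - s) * W) j * ((Fst F d t0 Y o W m).indicator (fun _ => (1 : ℝ)) η *
    Real.exp (θ * TL F d s (o + j * W + d.v * m) W (k - m) (F.shp ((m : ℤ), 0) η)))

theorem term_nonneg (m : ℕ) (j : ℤ) (η : Env) : 0 ≤ term F d s t0 Y o W θ k m j η :=
  mul_nonneg (wj_nonneg _ _) (mul_nonneg (Set.indicator_nonneg (fun _ _ => zero_le_one) _) (Real.exp_pos _).le)

theorem term_le_sum {J : ℕ} (hm1 : 1 ≤ m) (hmk : m ≤ k) {j : ℤ} (hj : |j| ≤ J) (η : Env) :
    term F d s t0 Y o W θ k m j η ≤
      ∑ m ∈ Finset.Icc 1 k, ∑ j ∈ Finset.Icc (-(J : ℤ)) J, term F d s t0 Y o W θ k m j η := by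
  have h1 : term F d s t0 Y o W θ k m j η ≤ ∑ j ∈ Finset.Icc (-(J : ℤ)) J, term F d s t0 Y o W θ k m j η :=
    Finset.single_le_sum (f := fun j => term F d s t0 Y o W θ k m j η) (fun j _ => term_nonneg m j η)
      (Finset.mem_Icc.2 (abs_le.1 hj))
  refine h1.trans ?_
  exact Finset.single_le_sum (f := fun m => ∑ j ∈ Finset.Icc (-(J : ℤ)) J, term F d s t0 Y o W θ k m j η)
    (fun m _ => Finset.sum_nonneg fun j _ => term_nonneg m j η) (Finset.mem_Icc.2 ⟨hm1, hmk⟩)

/-- The pointwise bound. -/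
theorem res_pt (h : Sl F d K C0 C1) (hs : 0 ≤ s) (hst : s < t0) (htK : t0 ≤ K) (hY : 0 ≤ Y) (hW : 0 < W) (hθ : 0 < θ)
    {J : ℕ} (hJ : (C1 + K * |d.v|) * k ≤ (t0 - s) * W * J) (η : Env) :
    Real.exp (θ * TL F d s o W k η) ≤ Real.exp (θ * (Y + (2 * C0 + C1 + K * |d.v|))) *
      (1 + ∑ m ∈ Finset.Icc 1 k, ∑ j ∈ Finset.Icc (-(J : ℤ)) J, term F d s t0 Y o W θ k m j η) := by
  obtain ⟨S, hS⟩ : ∃ S, S = ∑ m ∈ Finset.Icc 1 k, ∑ j ∈ Finset.Icc (-(J : ℤ)) J, term F d s t0 Y o W θ k m j η :=
    ⟨_, rfl⟩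
  rw [← hS]
  have hb := bnd_nonneg h
  have hC0 := h.C00
  have hS0 : 0 ≤ S := by
    rw [hS]
    exact Finset.sum_nonneg fun m _ => Finset.sum_nonneg fun j _ => term_nonneg m j η
  have hC2 : 0 ≤ 2 * C0 + C1 + K * |d.v| := by linarith
  have hE1 : 1 ≤ Real.exp (θ * (Y + (2 * C0 + C1 + K * |d.v|))) := Real.one_le_exp (mul_nonneg hθ.le (add_nonneg hY hC2))
  obtain ⟨E, hE⟩ : ∃ E, E = Real.exp (θ * (Y + (2 * C0 + C1 + K * |d.v|))) := ⟨_, rfl⟩
  rw [← hE] at hE1 ⊢
  have hR1 : 1 ≤ E * (1 + S) := by nlinarith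
  have hER : E ≤ E * (1 + S) := by nlinarith
  have hsK : s ≤ K := hst.le.trans htK
  have hfin : ∀ x : ℝ, x ≤ Y + (2 * C0 + C1 + K * |d.v|) → Real.exp (θ * x) ≤ E * (1 + S) := fun x hx => by
    refine (Real.exp_le_exp.2 (mul_le_mul_of_nonneg_left hx hθ.le)).trans ?_
    rw [← hE]
    exact hER
  -- every pair
  have key : ∀ P Q : Pt, (P, Q) ∈ InB d o W k →
      Real.exp (θ * (s * |lat d Q - lat d P| - XP F d η P Q)) ≤ E * (1 + S) := by
    rintro P Q ⟨h1, h2, h3, h4, h5, h6⟩
    simp only at h1 h2 h3 h4 h5 h6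
    by_cases hF : ∃ m' ≤ Q.1.toNat, η ∈ Fst F d t0 Y o W m'
    · obtain ⟨m, hmQ, hm⟩ := hF
      have hm1 : 1 ≤ m := by
        rcases Nat.eq_zero_or_pos m with rfl | hm0
        · obtain ⟨u, y, ⟨hu1, hu2, -⟩, -⟩ := hm.1
          exfalso
          push_cast at hu2
          omega
        · exact hm0
      have hQ1 : ((Q.1.toNat : ℕ) : ℤ) = Q.1 := Int.toNat_of_nonneg (h1.trans h2)
      have hmQ' : (m : ℤ) ≤ Q.1 := by
        rw [← hQ1]
        exact_mod_cast hmQ
      have hmk : m ≤ k := by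
        have : (m : ℤ) ≤ k := hmQ'.trans h3
        exact_mod_cast this
      have hterm : ∀ j : ℤ, term F d s t0 Y o W θ k m j η = wj (θ * (t0 - s) * W) j *
          Real.exp (θ * TL F d s (o + j * W + d.v * m) W (k - m) (F.shp ((m : ℤ), 0) η)) := by
        intro j
        unfold term
        rw [Set.indicator_of_mem hm, one_mul]
      rcases lt_or_ge P.1 (m : ℤ) with hPm | hPm
      · rcases hmQ'.lt_or_eq with hlt | heq
        · -- `P` before, `Q` behind
          obtain ⟨c, c', hc⟩ := h.XP_cut η hPm hlt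
          have ho := overshoot h (hs.trans hst.le) htK hY hm h1 hPm h5 h6 c
          obtain ⟨j, hj1, hj2⟩ := cell (o := o) hW (lat d ((m : ℤ), c'))
          have hD := cell_dist h5 h6 hj1 hj2
          have ht := tail_le h hsK η (R := ((m : ℤ), c')) (Q := Q) (o' := o + j * W) (W := W) hmk le_rfl hlt.le h3
            (fun hh => absurd hh hlt.ne) hj1 hj2
          obtain ⟨D, hDD⟩ : ∃ D, D = |lat d ((m : ℤ), c') - lat d P| := ⟨_, rfl⟩
          rw [← hDD] at hD
          obtain ⟨T, hT⟩ : ∃ T, T = TL F d s (o + j * W + d.v * m) W (k - m) (F.shp ((m : ℤ), 0) η) := ⟨_, rfl⟩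
          rw [← hT] at ht
          have e1 : D ≤ |(c : ℝ) - c'| + |lat d ((m : ℤ), c) - lat d P| := by
            have e2 : lat d ((m : ℤ), c') - lat d ((m : ℤ), c) = (c' : ℝ) - c := by
              unfold lat
              ring
            have e3 : lat d ((m : ℤ), c') - lat d P =
                (lat d ((m : ℤ), c') - lat d ((m : ℤ), c)) + (lat d ((m : ℤ), c) - lat d P) := by ring
            rw [hDD, e3, e2, abs_sub_comm (c : ℝ) c']
            exact abs_add_le _ _
          have e4 : |lat d Q - lat d P| ≤ |lat d Q - lat d ((m : ℤ), c')| + D := by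
            have e5 : lat d Q - lat d P =
                (lat d Q - lat d ((m : ℤ), c')) + (lat d ((m : ℤ), c') - lat d P) := by ring
            rw [e5, hDD]
            exact abs_add_le _ _
          have e6 := mul_le_mul_of_nonneg_left e4 hs
          have e7 := mul_le_mul_of_nonneg_left e1 (hs.trans hst.le)
          have e8 := mul_le_mul_of_nonneg_right htK (abs_nonneg ((c : ℝ) - c'))
          have hval : s * |lat d Q - lat d P| - XP F d η P Q ≤
              Y + (2 * C0 + C1 + K * |d.v|) - (t0 - s) * D + T := by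
            nlinarith [e6, e7, e8, hc, ho, ht]
          rcases le_or_gt |j| (J : ℤ) with hjJ | hjJ
          · have e9 : θ * (s * |lat d Q - lat d P| - XP F d η P Q) ≤
                θ * (Y + (2 * C0 + C1 + K * |d.v|)) + (-(θ * (t0 - s) * W) * max (|(j : ℝ)| - 1) 0 + θ * T) := by
              have e10 := mul_le_mul_of_nonneg_left hval hθ.le
              have e11 := mul_le_mul_of_nonneg_left hD (mul_nonneg hθ.le (sub_nonneg.2 hst.le))
              nlinarith
            have e12 : term F d s t0 Y o W θ k m j η ≤ S := by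
              rw [hS]
              exact term_le_sum hm1 hmk hjJ η
            rw [hterm, ← hT] at e12
            calc Real.exp (θ * (s * |lat d Q - lat d P| - XP F d η P Q))
                ≤ Real.exp (θ * (Y + (2 * C0 + C1 + K * |d.v|)) +
                  (-(θ * (t0 - s) * W) * max (|(j : ℝ)| - 1) 0 + θ * T)) := Real.exp_le_exp.2 e9
              _ = E * (wj (θ * (t0 - s) * W) j * Real.exp (θ * T)) := by
                rw [Real.exp_add, Real.exp_add, hE]
                rfl
              _ ≤ E * (1 + S) := mul_le_mul_of_nonneg_left (by linarith) (by linarith)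
          · have e9 : T ≤ (C1 + K * |d.v|) * k := by
              rw [hT]
              refine (TL_le_bnd h hsK _).trans (mul_le_mul_of_nonneg_left ?_ hb)
              exact_mod_cast Nat.sub_le k m
            have e10 : (J : ℝ) ≤ max (|(j : ℝ)| - 1) 0 := by
              refine le_trans ?_ (le_max_left _ _)
              have : (J : ℤ) + 1 ≤ |j| := hjJ
              have : ((J : ℤ) : ℝ) + 1 ≤ |(j : ℝ)| := by exact_mod_cast this
              push_cast at this
              linarith
            have e11 : (t0 - s) * W * J ≤ (t0 - s) * D := by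
              rw [mul_assoc]
              refine mul_le_mul_of_nonneg_left ?_ (sub_nonneg.2 hst.le)
              calc W * (J : ℝ) ≤ W * max (|(j : ℝ)| - 1) 0 := mul_le_mul_of_nonneg_left e10 hW.le
                _ = max (|(j : ℝ)| - 1) 0 * W := mul_comm _ _
                _ ≤ D := hD
            refine hfin _ ?_
            linarith
        · -- the pair ends at the hit
          have hQ : Q = ((m : ℤ), Q.2) := by
            ext
            · exact heq.symm
            · rfl
          have ho := overshoot h (hs.trans hst.le) htK hY hm h1 hPm h5 h6 Q.2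
          rw [← hQ] at ho
          have e1 := mul_le_mul_of_nonneg_right hst.le (abs_nonneg (lat d Q - lat d P))
          refine hfin _ ?_
          linarith
      · -- the pair starts behind the hit
        have ht := tail_le h hsK η (R := P) (Q := Q) (o' := o) (W := W) hmk hPm h2 h3 h4 h5 h6
        have e12 : term F d s t0 Y o W θ k m 0 η ≤ S := by
          rw [hS]
          exact term_le_sum hm1 hmk (by simp) η
        rw [hterm] at e12
        have e13 : wj (θ * (t0 - s) * W) 0 = 1 := by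
          unfold wj
          simp
        rw [e13, one_mul, Int.cast_zero, zero_mul, add_zero] at e12
        have e14 := Real.exp_le_exp.2 (mul_le_mul_of_nonneg_left ht hθ.le)
        have e15 : S ≤ E * (1 + S) := by nlinarith
        linarith
    · have hnH : η ∉ Hit F d t0 Y o W Q.1.toNat := fun hh => by
        obtain ⟨m', hm', hf⟩ := Fst_of_Hit hh
        exact hF ⟨m', hm', hf⟩
      have e1 := tilt_lt hst.le h hY h1 h2 h4 h5 h6 hnH
      refine hfin _ ?_
      linarith
  have hRpos : 0 < E * (1 + S) := by linarith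
  have hL : TL F d s o W k η ≤ Real.log (E * (1 + S)) / θ := by
    refine TL_le (div_nonneg (Real.log_nonneg hR1) hθ.le) fun P Q hPQ => ?_
    rw [le_div_iff₀ hθ, mul_comm]
    exact (Real.le_log_iff_exp_le hRpos).2 (key P Q hPQ)
  rw [le_div_iff₀ hθ] at hL
  refine (Real.le_log_iff_exp_le hRpos).1 ?_
  linarith

theorem Hit_zero : Hit F d t0 Y o W 0 = ∅ := by
  ext η
  simp only [Hit, Set.mem_ofPred_eq, Set.mem_empty_iff_false, iff_false]
  rintro ⟨u, y, ⟨hu1, hu2, -⟩, -⟩
  push_cast at hu2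
  omega

private theorem bdd_int {g : Env → ℝ} (hg : Measurable g) {C : ℝ} (hC : ∀ η, |g η| ≤ C) : Integrable g (law F) :=
  Integrable.of_bound hg.aestronglyMeasurable C (Filter.Eventually.of_forall fun η => by
    rw [Real.norm_eq_abs]
    exact hC η)

theorem expTL_int (h : Sl F d K C0 C1) (hs : s ≤ K) (hθ : 0 ≤ θ) :
    Integrable (fun η => Real.exp (θ * TL F d s o W k η)) (law F) := by
  refine bdd_int (C := Real.exp (θ * ((C1 + K * |d.v|) * k)))
    (Real.measurable_exp.comp (measurable_const.mul (TL_meas h))) fun η => ?_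
  rw [abs_of_pos (Real.exp_pos _)]
  exact Real.exp_le_exp.2 (mul_le_mul_of_nonneg_left (TL_le_bnd h hs η) hθ)

/-- The mean of a term. -/
theorem term_int (h : Sl F d K C0 C1) (hs : s ≤ K) (hθ : 0 ≤ θ) (m : ℕ) (j : ℤ) :
    Integrable (term F d s t0 Y o W θ k m j) (law F) ∧
    ∫ η, term F d s t0 Y o W θ k m j η ∂(law F) = wj (θ * (t0 - s) * W) j * ((law F).real (Fst F d t0 Y o W m) *
      ∫ η, Real.exp (θ * TL F d s (o + j * W + d.v * m) W (k - m) η) ∂(law F)) := by
  obtain ⟨o', ho'⟩ : ∃ o', o' = o + j * W + d.v * m := ⟨_, rfl⟩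
  have hg : Measurable fun η => Real.exp (θ * TL F d s o' W (k - m) (F.shp ((m : ℤ), 0) η)) :=
    Real.measurable_exp.comp (measurable_const.mul ((TL_meas h).comp (h.mp _).measurable))
  have hf : Measurable ((Fst F d t0 Y o W m).indicator fun _ => (1 : ℝ)) := measurable_const.indicator (Fst_meas h m)
  have e1 := int_ind (F := F) hf hg (Fst_dep h m)
    (fun η η' hh => congrArg (fun x => Real.exp (θ * x)) (TLs_dep h m (k - m) hh)) (rows_disj F.co 0 le_rfl _)
  have e2 : ∫ η, Real.exp (θ * TL F d s o' W (k - m) (F.shp ((m : ℤ), 0) η)) ∂(law F) =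
      ∫ η, Real.exp (θ * TL F d s o' W (k - m) η) ∂(law F) :=
    Pool.Agent.W_7d29a1_f21.mp_integral (h.mp ((m : ℤ), 0)) (F := fun η => Real.exp (θ * TL F d s o' W (k - m) η))
      (Real.measurable_exp.comp (measurable_const.mul (TL_meas h))).aestronglyMeasurable
  have e3 : ∫ η, (Fst F d t0 Y o W m).indicator (fun _ => (1 : ℝ)) η ∂(law F) = (law F).real (Fst F d t0 Y o W m) := by
    rw [integral_indicator_const _ (Fst_meas h m)]
    simp
  have hterm : term F d s t0 Y o W θ k m j = fun η => wj (θ * (t0 - s) * W) j *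
      ((Fst F d t0 Y o W m).indicator (fun _ => (1 : ℝ)) η *
        Real.exp (θ * TL F d s o' W (k - m) (F.shp ((m : ℤ), 0) η))) := by
    rw [ho']
    rfl
  rw [← ho', hterm]
  constructor
  · refine Integrable.const_mul ?_ _
    refine bdd_int (C := Real.exp (θ * ((C1 + K * |d.v|) * (k - m : ℕ)))) (hf.mul hg) fun η => ?_
    have h1 : Real.exp (θ * TL F d s o' W (k - m) (F.shp ((m : ℤ), 0) η)) ≤
        Real.exp (θ * ((C1 + K * |d.v|) * (k - m : ℕ))) :=
      Real.exp_le_exp.2 (mul_le_mul_of_nonneg_left (TL_le_bnd h hs _) hθ)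
    by_cases h2 : η ∈ Fst F d t0 Y o W m
    · rw [Set.indicator_of_mem h2, one_mul, abs_of_pos (Real.exp_pos _)]
      exact h1
    · rw [Set.indicator_of_notMem h2, zero_mul, abs_zero]
      exact (Real.exp_pos _).le
  · rw [integral_const_mul, e1, e2, e3]

theorem sum_Fst (h : Sl F d K C0 C1) (hkn : k ≤ n) :
    ∑ m ∈ Finset.Icc 1 k, (law F).real (Fst F d t0 Y o W m) ≤
      (law F).real {η | ∃ m ≤ n, η ∈ Hit F d t0 Y o W m} := by
  rw [← measureReal_biUnion_finset (fun m _ m' _ hne => Fst_disj hne) fun m _ => Fst_meas h m]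
  refine measureReal_mono ?_
  intro η hη
  simp only [Set.mem_iUnion, Finset.mem_Icc, exists_prop] at hη
  obtain ⟨m, ⟨-, hm⟩, hη⟩ := hη
  exact ⟨m, hm.trans hkn, hη.1⟩

/-- THE RESTART: if every box is hit with probability at most `ε`, the exponential moments of the tilted lucks of all boxes are
bounded by `B`. -/
theorem restart (h : Sl F d K C0 C1) (hs : 0 ≤ s) (hst : s < t0) (htK : t0 ≤ K) (hY : 0 ≤ Y) (hW : 0 < W) (hθ : 0 < θ)
    {ε S B : ℝ} (hHit : ∀ o, (law F).real {η | ∃ m ≤ n, η ∈ Hit F d t0 Y o W m} ≤ ε)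
    (hS : ∀ J : ℕ, ∑ j ∈ Finset.Icc (-(J : ℤ)) J, wj (θ * (t0 - s) * W) j ≤ S) (hB0 : 0 ≤ B)
    (hB : Real.exp (θ * (Y + (2 * C0 + C1 + K * |d.v|))) * (1 + ε * (S * B)) ≤ B) :
    ∀ k ≤ n, ∀ o, ∫ η, Real.exp (θ * TL F d s o W k η) ∂(law F) ≤ B := by
  have hsK : s ≤ K := hst.le.trans htK
  have hS0 : 0 ≤ S := (Finset.sum_nonneg fun j _ => wj_nonneg _ _).trans (hS 0)
  intro k
  induction k using Nat.strong_induction_on with
  | _ k ih =>
    intro hkn o
    obtain ⟨J, hJ⟩ := exists_nat_ge ((C1 + K * |d.v|) * k / ((t0 - s) * W))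
    have hd : 0 < (t0 - s) * W := mul_pos (sub_pos.2 hst) hW
    rw [div_le_iff₀ hd] at hJ
    have h1 := fun η => res_pt (o := o) h hs hst htK hY hW hθ (J := J) (k := k) (by linarith) η
    have h2 : ∀ m ∈ Finset.Icc 1 k, ∀ j ∈ Finset.Icc (-(J : ℤ)) J, Integrable (term F d s t0 Y o W θ k m j) (law F) :=
      fun m _ j _ => (term_int h hsK hθ.le m j).1
    have h3 : Integrable (fun η => ∑ m ∈ Finset.Icc 1 k, ∑ j ∈ Finset.Icc (-(J : ℤ)) J,
        term F d s t0 Y o W θ k m j η) (law F) :=
      integrable_finsetSum _ fun m hm => integrable_finsetSum _ fun j hj => h2 m hm j hj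
    have h4 : ∫ η, ∑ m ∈ Finset.Icc 1 k, ∑ j ∈ Finset.Icc (-(J : ℤ)) J, term F d s t0 Y o W θ k m j η ∂(law F) ≤
        ε * (S * B) := by
      rw [integral_finsetSum _ fun m hm => integrable_finsetSum _ fun j hj => h2 m hm j hj]
      have h5 : ∀ m ∈ Finset.Icc 1 k, ∫ η, ∑ j ∈ Finset.Icc (-(J : ℤ)) J, term F d s t0 Y o W θ k m j η ∂(law F) ≤
          (law F).real (Fst F d t0 Y o W m) * (S * B) := by
        intro m hm
        rw [Finset.mem_Icc] at hm
        rw [integral_finsetSum _ fun j hj => h2 m (Finset.mem_Icc.2 hm) j hj]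
        have h6 : ∀ j ∈ Finset.Icc (-(J : ℤ)) J, ∫ η, term F d s t0 Y o W θ k m j η ∂(law F) ≤
            wj (θ * (t0 - s) * W) j * ((law F).real (Fst F d t0 Y o W m) * B) := by
          intro j _
          rw [(term_int h hsK hθ.le m j).2]
          refine mul_le_mul_of_nonneg_left (mul_le_mul_of_nonneg_left ?_ measureReal_nonneg) (wj_nonneg _ _)
          exact ih (k - m) (by omega) (by omega) _
        refine (Finset.sum_le_sum h6).trans ?_
        rw [← Finset.sum_mul]
        calc (∑ j ∈ Finset.Icc (-(J : ℤ)) J, wj (θ * (t0 - s) * W) j) * ((law F).real (Fst F d t0 Y o W m) * B)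
            ≤ S * ((law F).real (Fst F d t0 Y o W m) * B) :=
              mul_le_mul_of_nonneg_right (hS J) (mul_nonneg measureReal_nonneg hB0)
          _ = _ := by ring
      refine (Finset.sum_le_sum h5).trans ?_
      rw [← Finset.sum_mul]
      exact mul_le_mul_of_nonneg_right ((sum_Fst h hkn).trans (hHit o)) (mul_nonneg hS0 hB0)
    have h8 : Integrable (fun η => 1 + ∑ m ∈ Finset.Icc 1 k, ∑ j ∈ Finset.Icc (-(J : ℤ)) J,
        term F d s t0 Y o W θ k m j η) (law F) := (integrable_const (1 : ℝ)).add h3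
    have h7 := integral_mono (expTL_int (o := o) (W := W) (k := k) h hsK hθ.le) (h8.const_mul _) h1
    refine h7.trans (le_trans ?_ hB)
    rw [integral_const_mul]
    refine mul_le_mul_of_nonneg_left ?_ (Real.exp_pos _).le
    rw [integral_add (integrable_const _) h3]
    simp only [integral_const, probReal_univ, smul_eq_mul, one_mul]
    linarith

/-- The sum of the weights of the cells. -/
theorem sum_wj {a : ℝ} (ha : 0 < a) (J : ℕ) : ∑ j ∈ Finset.Icc (-(J : ℤ)) J, wj a j ≤ 3 + 2 / a := by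
  have hmain : ∀ J : ℕ, ∑ j ∈ Finset.Icc (-(J : ℤ)) J, wj a j = 1 + 2 * ∑ i ∈ Finset.range J, Real.exp (-a) ^ i := by
    intro J
    induction J with
    | zero => simp [wj]
    | succ J ih =>
      have e1 : Finset.Icc (-((J + 1 : ℕ) : ℤ)) ((J + 1 : ℕ) : ℤ) =
          insert ((J : ℤ) + 1) (insert (-((J : ℤ) + 1)) (Finset.Icc (-(J : ℤ)) J)) := by
        ext j
        simp only [Finset.mem_Icc, Finset.mem_insert]
        push_cast
        omega
      rw [e1, Finset.sum_insert, Finset.sum_insert, ih, Finset.sum_range_succ]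
      · have hw : ∀ j : ℤ, |(j : ℝ)| = (J : ℝ) + 1 → wj a j = Real.exp (-a) ^ J := by
          intro j hj
          unfold wj
          rw [hj, add_sub_cancel_right, max_eq_left (Nat.cast_nonneg _), ← Real.exp_nat_mul]
          congr 1
          ring
        have hj0 : (0 : ℝ) ≤ (J : ℝ) + 1 := by positivity
        rw [hw _ (by push_cast; exact abs_of_nonneg hj0), hw _ (by push_cast; rw [abs_neg]; exact abs_of_nonneg hj0)]
        ring
      · simp only [Finset.mem_Icc]
        omega
      · simp only [Finset.mem_insert, Finset.mem_Icc]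
        omega
  have hr0 : 0 < Real.exp (-a) := Real.exp_pos _
  have hr1 : Real.exp (-a) < 1 := by
    rw [← Real.exp_zero]
    exact Real.exp_lt_exp.2 (by linarith)
  have e3 : ∑ i ∈ Finset.range J, Real.exp (-a) ^ i ≤ 1 / (1 - Real.exp (-a)) := by
    rw [le_div_iff₀ (by linarith), mul_comm, mul_neg_geom_sum]
    have : 0 ≤ Real.exp (-a) ^ J := pow_nonneg hr0.le _
    linarith
  have e4 : 1 / (1 - Real.exp (-a)) ≤ 1 + 1 / a := by
    have h5 := Real.add_one_le_exp a
    have h6 : Real.exp (-a) * Real.exp a = 1 := by rw [← Real.exp_add]; simp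
    rw [div_le_iff₀ (by linarith)]
    have h7 : Real.exp (-a) * (a + 1) ≤ 1 := by nlinarith
    have h8 : (1 + 1 / a) * (1 - Real.exp (-a)) = (a + 1 - Real.exp (-a) * (a + 1)) / a := by
      field_simp
    rw [h8, le_div_iff₀ ha]
    linarith
  rw [hmain]
  have : 2 * (1 / a) = 2 / a := by ring
  linarith

end

end Pool.Agent.W_1b8d5d_p
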