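import Pool.Agent.W_1b8d5d_p.FrLine
import Pool.Agent.W_1b8d5d_p.FrResB
import Pool.Agent.W_1b8d5d_p.FrSl

/-!
MP_1b8d5d_pr, Track P, frame (proofs row 631, sections 4, 5): all distances. The deterministic part: no tilted luck of at least
`Y` starts in the box unless the box, one of its two side lines, or one of the two sequences of lines is bad.
-/

namespace Pool.Agent.W_1b8d5d_p

open MeasureTheory Set
open Pool.Agent.W_1b8d5d_h85 (V nm dir Edge Env grid wedges cost)

noncomputable section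

variable {F : Fm} {κ k1 K1 : ℝ} {d : Dr} {η : Env}

/-- The minimal walk of a pair. -/
theorem pair_walk (F : Fm) (d : Dr) (η : Env) {P Q : Pt} (h : P.1 < Q.1) :
    ∃ w : grid.Walk (F.co.vt P) (F.co.vt Q), exc F d η w = XP F d η P Q ∧
      ∀ z ∈ w.support, F.co.L * P.1 ≤ F.co.tm z ∧ F.co.tm z ≤ F.co.L * Q.1 := by
  have hn : 1 ≤ (Q.1 - P.1).toNat := by omega
  have e0 : (((Q.1 - P.1).toNat : ℕ) : ℤ) = Q.1 - P.1 := Int.toNat_of_nonneg (by omega)
  have e1 : P + (((Q.1 - P.1).toNat : ℤ), Q.2 - P.2) = Q := by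
    ext
    · simp only [Prod.fst_add]
      omega
    · simp only [Prod.snd_add]
      omega
  have e2 : P.1 + (((Q.1 - P.1).toNat : ℕ) : ℤ) = Q.1 := by omega
  have h1 := TR_min (bdp F η) F.a0 (F.co.ne_vt P hn (Q.2 - P.2))
  rw [e1, e2] at h1
  obtain ⟨w, -, hw, hc⟩ := h1
  refine ⟨w, ?_, F.co.tm_of_slab hw ?_⟩
  · have h2 : TT F.co (F.tau η) P (Q.1 - P.1).toNat (Q.2 - P.2) = cost (F.tau η) w := by
      unfold TT
      rw [e1, e2, hc]
    unfold exc XP X
    rw [h2, H_vt_sub, ← Int.cast_natCast, e0]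
    push_cast
    ring
  · rw [Co.tm_vt]
    have hL := F.co.L_pos
    exact ⟨le_rfl, mul_le_mul_of_nonneg_left h.le (by omega)⟩

/-- **LINES FROM A BOX.** A walk from the box `[x0, x1]` to a vertex beyond the `k`-th line on the side `ε`. -/
theorem box_lines (hd : Adm F κ d) (hk : Lat F κ k1 K1 d) (η : Env) {s t : ℤ} {ε W b x0 x1 : ℝ}
    (hε : (ε = 1 ∧ b = x1) ∨ (ε = -1 ∧ b = x0)) (hW : K1 < W) (k : ℕ) {u v : V} (w : grid.Walk u v)
    (hw : ∀ z ∈ w.support, F.co.L * s ≤ F.co.tm z ∧ F.co.tm z ≤ F.co.L * t)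
    (hu : x0 ≤ latV F d u ∧ latV F d u ≤ x1) (hv : ε * b + k * W ≤ ε * latV F d v) :
    (∑ m ∈ Finset.range k, UU F d k1 s t (b + ε * (m * W)) (b + ε * ((m + 1) * W)) η) -
      LL F d k1 s t (b + ε * (k * W)) η - MM F d k1 s t x0 x1 η - (k + 1) * CL F k1 K1 - CP F ≤ exc F d η w := by
  have hε' : ε = 1 ∨ ε = -1 := by
    rcases hε with ⟨h, -⟩ | ⟨h, -⟩
    · exact Or.inl h
    · exact Or.inr h
  have hub : ε * latV F d u ≤ ε * b := by
    rcases hε with ⟨rfl, rfl⟩ | ⟨rfl, rfl⟩ <;> linarith [hu.1, hu.2]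
  have hK0 := hk.K0
  have hkW : 0 ≤ (k : ℝ) * W := mul_nonneg (Nat.cast_nonneg _) (by linarith)
  rcases le_or_gt (ε * b) (ε * latV F d u) with h0 | h0
  · have h1 := lines hd hk η hε' hW k w hw b h0 (by linarith) hv
    have h2 := exc_ge_MM hd hk η (SimpleGraph.Walk.nil' u) (s := s) (t := t) (fun z hz => by
      rw [SimpleGraph.Walk.support_nil, List.mem_singleton] at hz
      rw [hz]
      exact hw u w.start_mem_support) hu
    have h3 : exc F d η (SimpleGraph.Walk.nil' u) = 0 := by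
      unfold exc cost wedges
      simp [Dr.H]
    rw [h3] at h2
    linarith
  · obtain ⟨u', v', w1, h1, w2, e1, e2, e3⟩ :=
      Pool.Agent.W_1b8d5d_sc.split_first (fun z => ε * b ≤ ε * latV F d z) w
        (by simp only [not_le]; exact h0) ⟨v, w.end_mem_support, by linarith⟩
    simp only [not_le] at e2
    have hsup1 : ∀ z ∈ (w1.append (SimpleGraph.Walk.cons h1 .nil)).support, z ∈ w.support := by
      intro z hz
      rw [SimpleGraph.Walk.mem_support_append_iff] at hz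
      rw [e1, SimpleGraph.Walk.mem_support_append_iff]
      rcases hz with hz | hz
      · exact Or.inl hz
      · refine Or.inr ?_
        rw [SimpleGraph.Walk.support_cons, SimpleGraph.Walk.support_nil, List.mem_cons, List.mem_singleton] at hz
        rw [SimpleGraph.Walk.support_cons, List.mem_cons]
        rcases hz with hz | hz
        · exact Or.inl hz
        · right
          rw [hz]
          exact w2.start_mem_support
    have hsup2 : ∀ z ∈ w2.support, z ∈ w.support := by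
      intro z hz
      rw [e1, SimpleGraph.Walk.mem_support_append_iff, SimpleGraph.Walk.support_cons]
      exact Or.inr (List.mem_cons_of_mem _ hz)
    have e4 : exc F d η w = exc F d η (w1.append (SimpleGraph.Walk.cons h1 .nil)) + exc F d η w2 := by
      rw [← exc_append]
      congr 1
      rw [e1, ← SimpleGraph.Walk.append_assoc]
      rfl
    have e5 := e2 u' w1.end_mem_support
    have e6 := latV_adj hk h1
    have habs : |latV F d v' - latV F d u'| = |ε * latV F d v' - ε * latV F d u'| := by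
      rw [← mul_sub, abs_mul]
      rcases hε' with rfl | rfl <;> simp
    rw [habs] at e6
    have e7 := (abs_le.1 e6).2
    have a1 := exc_ge_MM hd hk η (w1.append (SimpleGraph.Walk.cons h1 .nil)) (fun z hz => hw z (hsup1 z hz)) hu
    have a2 := lines hd hk η hε' hW k w2 (fun z hz => hw z (hsup2 z hz)) b e3 (by linarith) hv
    rw [e4]
    linarith

/-- The price of the `i`-th line on the side `ε` of `b`. -/
def xi (F : Fm) (d : Dr) (k1 : ℝ) (n : ℕ) (G W ε b : ℝ) (i : ℕ) (η : Env) : ℝ :=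
  max (G - UU F d k1 0 n (b + ε * (i * W)) (b + ε * ((i + 1) * W)) η) 0 +
    max (LL F d k1 0 n (b + ε * ((i + 1) * W)) η) 0

theorem xi_nonneg (n : ℕ) (G W ε b : ℝ) (i : ℕ) (η : Env) : 0 ≤ xi F d k1 n G W ε b i η :=
  add_nonneg (le_max_right _ _) (le_max_right _ _)

/-- One side of the box. -/
theorem side_pt (hd : Adm F κ d) (hk : Lat F κ k1 K1 d) (η : Env) {n Km : ℕ} {G W ε b x0 y0 t0 : ℝ} (hW : K1 < W)
    (hε : (ε = 1 ∧ b = x0 + W) ∨ (ε = -1 ∧ b = x0)) (hG : 0 < G) (hCL : CL F k1 K1 ≤ G / 8) (hCP : CP F ≤ G / 8)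
    (ht0 : t0 = G / (4 * W)) (ht0K : t0 ≤ κ * F.co.M / 2)
    (hKm : 2 * ((C1 F + κ * F.co.M * |d.v|) * n) ≤ κ * F.co.M * (Km * W))
    (hMM : MM F d k1 0 n x0 (x0 + W) η < y0)
    (hL : LL F d k1 0 n b η < G / 8)
    (hbad : ∀ k, 1 ≤ k → k ≤ Km → ∑ i ∈ Finset.range k, xi F d k1 n G W ε b i η < G / 4 * k)
    {P Q : Pt} (hP : 0 ≤ P.1) (hPQ : P.1 < Q.1) (hQ : Q.1 ≤ n) (h1 : x0 ≤ lat d P) (h2 : lat d P < x0 + W)
    (h3 : ε * b ≤ ε * lat d Q) (hy0 : 0 ≤ y0) : t0 * |lat d Q - lat d P| - XP F d η P Q < y0 + G := by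
  have hK0 := hk.K0
  have hWp : 0 < W := by linarith
  have hsl := sl_of hd
  have ht0p : 0 < t0 := by
    rw [ht0]
    positivity
  -- the cell of `Q`
  obtain ⟨k, hk1, hk2⟩ : ∃ k : ℕ, ε * b + k * W ≤ ε * lat d Q ∧ ε * lat d Q < ε * b + (k + 1) * W := by
    refine ⟨⌊(ε * lat d Q - ε * b) / W⌋₊, ?_, ?_⟩
    · have := Nat.floor_le (div_nonneg (sub_nonneg.2 h3) hWp.le)
      rw [le_div_iff₀ hWp] at this
      linarith
    · have := Nat.lt_floor_add_one ((ε * lat d Q - ε * b) / W)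
      rw [div_lt_iff₀ hWp] at this
      linarith
  have hPb : ε * lat d P ≤ ε * b ∧ ε * b - W ≤ ε * lat d P := by
    rcases hε with ⟨rfl, rfl⟩ | ⟨rfl, rfl⟩ <;> constructor <;> linarith
  have habs : |lat d Q - lat d P| = ε * lat d Q - ε * lat d P := by
    rcases hε with ⟨rfl, -⟩ | ⟨rfl, -⟩
    · rw [abs_of_nonneg (by linarith)]
      ring
    · rw [abs_of_nonpos (by linarith)]
      ring
  have hkW0 : 0 ≤ (k : ℝ) * W := mul_nonneg (Nat.cast_nonneg _) hWp.le
  have hdist : |lat d Q - lat d P| ≤ (k + 2) * W := by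
    rw [habs]
    linarith
  have hdist' : (k : ℝ) * W ≤ |lat d Q - lat d P| := by
    rw [habs]
    linarith
  rcases le_or_gt k Km with hkm | hkm
  · obtain ⟨w, hw1, hw2⟩ := pair_walk F d η hPQ
    have hL0 : 0 ≤ F.co.L := by
      have := F.co.L_pos
      omega
    have h4 := box_lines hd hk η (s := 0) (t := n) (ε := ε) (W := W) (b := b) (x0 := x0) (x1 := x0 + W) hε hW k w
      (fun z hz => ⟨(mul_le_mul_of_nonneg_left hP hL0).trans (hw2 z hz).1,
        (hw2 z hz).2.trans (mul_le_mul_of_nonneg_left hQ hL0)⟩)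
      (by rw [latV_vt]; exact ⟨h1, h2.le⟩) (by rw [latV_vt]; exact hk1)
    rw [hw1] at h4
    have h5 : t0 * |lat d Q - lat d P| ≤ G / 4 * (k + 2) := by
      calc t0 * |lat d Q - lat d P| ≤ t0 * ((k + 2) * W) := mul_le_mul_of_nonneg_left hdist ht0p.le
        _ = _ := by
          rw [ht0]
          field_simp
    have hCL0 : 0 ≤ CL F k1 K1 ∨ CL F k1 K1 < 0 := le_or_gt _ _
    rcases Nat.eq_zero_or_pos k with rfl | hkp
    · simp only [Finset.range_zero, Finset.sum_empty, Nat.cast_zero, zero_mul, mul_zero, add_zero, zero_add,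
        one_mul, zero_sub] at h4 h5
      linarith
    · have h6 := hbad k hkp hkm
      have h7 : (k : ℝ) * G - ∑ i ∈ Finset.range k, xi F d k1 n G W ε b i η ≤
          (∑ m ∈ Finset.range k, UU F d k1 0 n (b + ε * (m * W)) (b + ε * ((m + 1) * W)) η) -
            LL F d k1 0 n (b + ε * (k * W)) η := by
        obtain ⟨k', rfl⟩ : ∃ k', k = k' + 1 := ⟨k - 1, by omega⟩
        have h8 : ∀ i ∈ Finset.range (k' + 1), G - UU F d k1 0 n (b + ε * (i * W)) (b + ε * ((i + 1) * W)) η ≤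
            max (G - UU F d k1 0 n (b + ε * (i * W)) (b + ε * ((i + 1) * W)) η) 0 := fun i _ => le_max_left _ _
        have h9 := Finset.sum_le_sum h8
        rw [Finset.sum_sub_distrib, Finset.sum_const, Finset.card_range, nsmul_eq_mul] at h9
        have h10 : ∑ i ∈ Finset.range (k' + 1), xi F d k1 n G W ε b i η =
            (∑ i ∈ Finset.range (k' + 1),
              max (G - UU F d k1 0 n (b + ε * (i * W)) (b + ε * ((i + 1) * W)) η) 0) +
            ∑ i ∈ Finset.range (k' + 1), max (LL F d k1 0 n (b + ε * ((i + 1) * W)) η) 0 := by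
          rw [← Finset.sum_add_distrib]
          rfl
        have h11 : LL F d k1 0 n (b + ε * (((k' + 1 : ℕ) : ℝ) * W)) η ≤
            ∑ i ∈ Finset.range (k' + 1), max (LL F d k1 0 n (b + ε * ((i + 1) * W)) η) 0 := by
          refine le_trans ?_ (Finset.single_le_sum
            (f := fun i : ℕ => max (LL F d k1 0 n (b + ε * (((i : ℝ) + 1) * W)) η) 0)
            (fun i _ => le_max_right _ _) (Finset.mem_range.2 (Nat.lt_succ_self k')))
          refine le_trans (le_of_eq ?_) (le_max_left _ _)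
          push_cast
          rfl
        rw [h10]
        linarith
      have hk1' : (1 : ℝ) ≤ k := by exact_mod_cast hkp
      have h12 : (k + 1 : ℝ) * CL F k1 K1 ≤ (k + 1) * (G / 8) := mul_le_mul_of_nonneg_left hCL (by linarith)
      nlinarith
  · -- far away
    have h4 := hsl.XP_low η hPQ
    have h5 : (Km : ℝ) * W ≤ |lat d Q - lat d P| := by
      refine le_trans (mul_le_mul_of_nonneg_right ?_ hWp.le) hdist'
      exact_mod_cast hkm.le
    have hb := bnd_nonneg hsl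
    have h6 : (C1 F + κ * F.co.M * |d.v|) * ((Q.1 : ℝ) - P.1) ≤ (C1 F + κ * F.co.M * |d.v|) * n := by
      refine mul_le_mul_of_nonneg_left ?_ hb
      have e1 : (0 : ℝ) ≤ P.1 := by exact_mod_cast hP
      have e2 : (Q.1 : ℝ) ≤ n := by exact_mod_cast hQ
      linarith
    have h7 := mul_le_mul_of_nonneg_right ht0K (abs_nonneg (lat d Q - lat d P))
    have h8 := mul_le_mul_of_nonneg_left h5 hsl.k0.le
    linarith

/-- No tilted luck of at least `y0 + G` starts in a good box. -/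
theorem far_pt (hd : Adm F κ d) (hk : Lat F κ k1 K1 d) (η : Env) {n Km : ℕ} {G W x0 y0 t0 : ℝ} (hW : K1 < W)
    (hG : 0 < G) (hCL : CL F k1 K1 ≤ G / 8) (hCP : CP F ≤ G / 8)
    (ht0 : t0 = G / (4 * W)) (ht0K : t0 ≤ κ * F.co.M / 2)
    (hKm : 2 * ((C1 F + κ * F.co.M * |d.v|) * n) ≤ κ * F.co.M * (Km * W)) (hy0 : 0 ≤ y0)
    (hMM : MM F d k1 0 n x0 (x0 + W) η < y0)
    (hL0 : LL F d k1 0 n x0 η < G / 8) (hL1 : LL F d k1 0 n (x0 + W) η < G / 8)
    (hbad0 : ∀ k, 1 ≤ k → k ≤ Km → ∑ i ∈ Finset.range k, xi F d k1 n G W (-1) x0 i η < G / 4 * k)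
    (hbad1 : ∀ k, 1 ≤ k → k ≤ Km → ∑ i ∈ Finset.range k, xi F d k1 n G W 1 (x0 + W) i η < G / 4 * k)
    {m : ℕ} (hm : m ≤ n) : η ∉ Hit F d t0 (y0 + G) x0 W m := by
  rintro ⟨u, y, ⟨hu0, hum, h1, h2⟩, h3⟩
  have hK0 := hk.K0
  have hWp : 0 < W := by linarith
  have hmn : (m : ℤ) ≤ n := by exact_mod_cast hm
  rcases lt_or_ge (lat d ((m : ℤ), y)) x0 with h4 | h4
  · have h5 := side_pt hd hk η hW (Or.inr ⟨rfl, rfl⟩) hG hCL hCP ht0 ht0K hKm hMM hL0 hbad0 (P := u) (Q := ((m : ℤ), y))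
      hu0 hum hmn h1 h2 (by linarith) hy0
    linarith
  rcases le_or_gt (x0 + W) (lat d ((m : ℤ), y)) with h5 | h5
  · have h6 := side_pt hd hk η hW (Or.inl ⟨rfl, rfl⟩) hG hCL hCP ht0 ht0K hKm hMM hL1 hbad1 (P := u) (Q := ((m : ℤ), y))
      hu0 hum hmn h1 h2 (by linarith) hy0
    linarith
  · have h6 := le_MM hd hk.k0.le x0 (x0 + W) η (s := 0) (t := n) (P := u) (Q := ((m : ℤ), y)) ⟨hu0, hmn, Or.inl hum⟩
    have h7 : dI x0 (x0 + W) (lat d u) = 0 := by
      unfold dI
      rw [max_eq_left (max_le (by linarith) (by linarith))]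
    rw [h7, mul_zero, sub_zero] at h6
    have h8 : |lat d ((m : ℤ), y) - lat d u| ≤ W := by
      rw [abs_le]
      constructor <;> linarith
    have ht0p : 0 < t0 := by
      rw [ht0]
      positivity
    have h9 : t0 * |lat d ((m : ℤ), y) - lat d u| ≤ G / 4 := by
      calc t0 * |lat d ((m : ℤ), y) - lat d u| ≤ t0 * W := mul_le_mul_of_nonneg_left h8 ht0p.le
        _ = G / 4 := by
          rw [ht0]
          field_simp
    linarith

end

end Pool.Agent.W_1b8d5d_p
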