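import Pool.Agent.W_1b8d5d_p.FrFarA
import Pool.Agent.W_7d29a1_h30g.Maximal

/-!
MP_1b8d5d_pr, Track P, frame (proofs row 631, sections 4, 5): all distances. The probability of a hit.
-/

namespace Pool.Agent.W_1b8d5d_p

open MeasureTheory Set
open Pool.Agent.W_1b8d5d_h85 (V nm dir Edge Env grid wedges cost)

noncomputable section

variable {F : Fm} {κ k1 K1 : ℝ} {d : Dr} {η : Env}

theorem lat_shift (d : Dr) (P : Pt) (k : ℤ) : lat d (P + (0, k)) = lat d P + k := by
  unfold lat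
  simp only [Prod.fst_add, Prod.snd_add, add_zero]
  push_cast
  ring

/-- Shift of pairs by a position. -/
def shE (s t : ℤ) (k : ℤ) : {p : Pt × Pt // IsPr s t p.1 p.2} ≃ {p : Pt × Pt // IsPr s t p.1 p.2} where
  toFun p := ⟨(p.1.1 + (0, k), p.1.2 + (0, k)), by
    obtain ⟨h1, h2, h3⟩ := p.2
    refine ⟨?_, ?_, ?_⟩
    · simpa using h1
    · simpa using h2
    · rcases h3 with h3 | h3
      · left
        simpa using h3
      · right
        simp only
        rw [h3]⟩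
  invFun p := ⟨(p.1.1 + (0, -k), p.1.2 + (0, -k)), by
    obtain ⟨h1, h2, h3⟩ := p.2
    refine ⟨?_, ?_, ?_⟩
    · simpa using h1
    · simpa using h2
    · rcases h3 with h3 | h3
      · left
        simpa using h3
      · right
        simp only
        rw [h3]⟩
  left_inv p := by
    ext <;> simp
  right_inv p := by
    ext <;> simp

theorem UU_shp (hsl : Sl F d κ k1 K1) (k1' : ℝ) (s t k : ℤ) (l l' : ℝ) (η : Env) :
    UU F d k1' s t l l' (F.shp (0, k) η) = UU F d k1' s t (l + k) (l' + k) η := by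
  unfold UU
  refine Equiv.iInf_congr (shE s t k) fun p => ?_
  simp only [shE, Equiv.coe_fn_mk]
  rw [hsl.XP_shift, lat_shift, lat_shift]
  congr 3 <;> congr 1 <;> ring

theorem LL_shp (hsl : Sl F d κ k1 K1) (k1' : ℝ) (s t k : ℤ) (l : ℝ) (η : Env) :
    LL F d k1' s t l (F.shp (0, k) η) = LL F d k1' s t (l + k) η := by
  unfold LL MM
  refine Equiv.iSup_congr (shE s t k) fun p => ?_
  simp only [shE, Equiv.coe_fn_mk]
  rw [hsl.XP_shift, lat_shift, dI_self, dI_self]
  congr 3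
  ring

theorem far_MM_meas (hsl : Sl F d κ k1 K1) (k1' : ℝ) (s t : ℤ) (x0 x1 : ℝ) : Measurable (MM F d k1' s t x0 x1) := by
  unfold MM
  exact Measurable.iSup fun p => (hsl.XP_meas _ _).neg.sub measurable_const

theorem far_LL_meas (hsl : Sl F d κ k1 K1) (k1' : ℝ) (s t : ℤ) (l : ℝ) : Measurable (LL F d k1' s t l) :=
  far_MM_meas hsl k1' s t l l

theorem far_UU_meas (hsl : Sl F d κ k1 K1) (k1' : ℝ) (s t : ℤ) (l l' : ℝ) : Measurable (UU F d k1' s t l l') := by
  unfold UU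
  exact Measurable.iInf fun p => (hsl.XP_meas _ _).add measurable_const

theorem bbn_nonneg (F : Fm) (n : ℕ) : 0 ≤ bb F * F.co.L * n := by
  have h1 : (2 : ℝ) ≤ F.co.L := by exact_mod_cast F.co.L_pos
  have h2 := F.a0
  have h3 := F.ab
  have h4 : 0 ≤ bb F := by
    unfold bb
    linarith
  exact mul_nonneg (mul_nonneg h4 (by linarith)) (Nat.cast_nonneg _)

theorem MM_le_bnd (hd : Adm F κ d) (hk : 0 ≤ k1) (n : ℕ) (x0 x1 : ℝ) (η : Env) :
    MM F d k1 0 n x0 x1 η ≤ bb F * F.co.L * n := by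
  unfold MM
  have : Nonempty {p : Pt × Pt // IsPr 0 n p.1 p.2} := ⟨⟨(0, 0), ⟨le_rfl, by simp, Or.inr rfl⟩⟩⟩
  refine ciSup_le fun p => ?_
  have h1 := XP_ge' hd η p.2
  have h2 : 0 ≤ k1 * dI x0 x1 (lat d p.1.1) := mul_nonneg hk (dI_nonneg _ _ _)
  push_cast at h1
  linarith

theorem neg_bnd_le_UU (hd : Adm F κ d) (hk : 0 ≤ k1) (n : ℕ) (l l' : ℝ) (η : Env) :
    -(bb F * F.co.L * n) ≤ UU F d k1 0 n l l' η := by
  unfold UU
  have : Nonempty {p : Pt × Pt // IsPr 0 n p.1 p.2} := ⟨⟨(0, 0), ⟨le_rfl, by simp, Or.inr rfl⟩⟩⟩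
  refine le_ciInf fun p => ?_
  have h1 := XP_ge' hd η p.2
  have h2 : 0 ≤ k1 * (|lat d p.1.1 - l| + |lat d p.1.2 - l'|) := by positivity
  push_cast at h1
  linarith

/-- A passage is at least minus the luck of the line. -/
theorem neg_LL_le_UU (hd : Adm F κ d) (hk : 0 ≤ k1) (n : ℕ) (l l' : ℝ) (η : Env) :
    -LL F d k1 0 n l η ≤ UU F d k1 0 n l l' η := by
  unfold UU
  have : Nonempty {p : Pt × Pt // IsPr 0 n p.1 p.2} := ⟨⟨(0, 0), ⟨le_rfl, by simp, Or.inr rfl⟩⟩⟩
  refine le_ciInf fun p => ?_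
  have h1 := le_LL hd hk l η p.2
  have h2 : 0 ≤ k1 * |lat d p.1.2 - l'| := by positivity
  linarith

private theorem bdd_int' {g : Env → ℝ} (hg : Measurable g) {C : ℝ} (hC : ∀ η, |g η| ≤ C) : Integrable g (law F) :=
  Integrable.of_bound hg.aestronglyMeasurable C (Filter.Eventually.of_forall fun η => by
    rw [Real.norm_eq_abs]
    exact hC η)

theorem LLp_int (hd : Adm F κ d) (hk : 0 ≤ k1) (n : ℕ) (l : ℝ) :
    Integrable (fun η => max (LL F d k1 0 n l η) 0) (law F) := by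
  refine bdd_int' (C := bb F * F.co.L * n) ((far_LL_meas (sl_of hd) k1 0 n l).max measurable_const) fun η => ?_
  rw [abs_of_nonneg (le_max_right _ _)]
  exact max_le (MM_le_bnd hd hk n l l η) (bbn_nonneg F n)

/-- The mean of the price of a line. -/
theorem xi_mean (hd : Adm F κ d) (hk : 0 ≤ k1) {n : ℕ} {G W ε b Λ p : ℝ} (hG : 0 ≤ G)
    (hΛ : ∀ l, ∫ η, max (LL F d k1 0 n l η) 0 ∂(law F) ≤ Λ)
    (hp : ∀ l, (law F).real {η | UU F d k1 0 n l (l + ε * W) η < G} ≤ p) :
    Measurable (xi F d k1 n G W ε b 0) ∧ Integrable (xi F d k1 n G W ε b 0) (law F) ∧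
      ∫ η, xi F d k1 n G W ε b 0 η ∂(law F) ≤ G * p + 2 * Λ := by
  have hsl := sl_of hd
  have hm1 : Measurable fun η => max (G - UU F d k1 0 n b (b + ε * W) η) 0 :=
    (measurable_const.sub (far_UU_meas hsl k1 0 n b (b + ε * W))).max measurable_const
  have hm2 : Measurable fun η => max (LL F d k1 0 n (b + ε * W) η) 0 :=
    (far_LL_meas hsl k1 0 n (b + ε * W)).max measurable_const
  have hxi : xi F d k1 n G W ε b 0 = fun η => max (G - UU F d k1 0 n b (b + ε * W) η) 0 +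
      max (LL F d k1 0 n (b + ε * W) η) 0 := by
    funext η
    unfold xi
    simp
  have hi1 : Integrable (fun η => max (G - UU F d k1 0 n b (b + ε * W) η) 0) (law F) := by
    refine bdd_int' (C := G + bb F * F.co.L * n) hm1 fun η => ?_
    rw [abs_of_nonneg (le_max_right _ _)]
    have h1 := neg_bnd_le_UU hd hk n b (b + ε * W) η
    have h2 := bbn_nonneg F n
    exact max_le (by linarith) (by linarith)
  have hi2 := LLp_int hd hk n (b + ε * W)
  have hS : MeasurableSet {η | UU F d k1 0 n b (b + ε * W) η < G} :=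
    measurableSet_lt (far_UU_meas hsl k1 0 n b (b + ε * W)) measurable_const
  refine ⟨by rw [hxi]; exact hm1.add hm2, by rw [hxi]; exact hi1.add hi2, ?_⟩
  rw [hxi, integral_add hi1 hi2]
  have h3 : ∫ η, max (G - UU F d k1 0 n b (b + ε * W) η) 0 ∂(law F) ≤
      ∫ η, ({η | UU F d k1 0 n b (b + ε * W) η < G}.indicator (fun _ => G) η +
        max (LL F d k1 0 n b η) 0) ∂(law F) := by
    refine integral_mono hi1 (((integrable_const G).indicator hS).add (LLp_int hd hk n b)) fun η => ?_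
    simp only
    by_cases h4 : UU F d k1 0 n b (b + ε * W) η < G
    · rw [Set.indicator_of_mem (by exact h4)]
      have h5 := neg_LL_le_UU hd hk n b (b + ε * W) η
      have h6 := le_max_left (LL F d k1 0 n b η) 0
      have h7 := le_max_right (LL F d k1 0 n b η) 0
      exact max_le (by linarith) (by linarith)
    · rw [Set.indicator_of_notMem (by exact h4), zero_add]
      rw [not_lt] at h4
      exact max_le (by linarith [le_max_right (LL F d k1 0 n b η) 0]) (le_max_right _ _)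
  rw [integral_add ((integrable_const G).indicator hS) (LLp_int hd hk n b), integral_indicator_const _ hS] at h3
  have h8 := mul_le_mul_of_nonneg_left (hp b) hG
  have h9 := hΛ b
  have h10 := hΛ (b + ε * W)
  simp only [smul_eq_mul] at h3
  linarith

/-- The sequence of the prices is stationary. -/
theorem xi_iter (hd : Adm F κ d) (n : ℕ) (G b : ℝ) (e : ℤ) (w : ℕ) (i : ℕ) : ∀ η : Env,
    xi F d k1 n G w e b i η = xi F d k1 n G w e b 0 ((F.shp (0, e * w))^[i] η) := by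
  have hsl := sl_of hd
  induction i with
  | zero =>
    intro η
    rfl
  | succ i ih =>
    intro η
    rw [Function.iterate_succ_apply, ← ih]
    unfold xi
    rw [UU_shp hsl, LL_shp hsl]
    have e1 : b + (e : ℝ) * (((i + 1 : ℕ) : ℝ) * (w : ℝ)) = b + e * ((i : ℝ) * w) + ((e * (w : ℤ) : ℤ) : ℝ) := by
      push_cast
      ring
    have e2 : b + (e : ℝ) * ((((i + 1 : ℕ) : ℝ) + 1) * (w : ℝ)) = b + e * (((i : ℝ) + 1) * w) + ((e * (w : ℤ) : ℤ) : ℝ) := by
      push_cast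
      ring
    rw [e1, e2]

/-- **THE PROBABILITY OF A HIT.** -/
theorem hit_le (hd : Adm F κ d) (hk : Lat F κ k1 K1 d) {n w : ℕ} {G Λ p pb y0 t0 : ℝ} (hW : K1 < w)
    (hG : 0 < G) (hCL : CL F k1 K1 ≤ G / 8) (hCP : CP F ≤ G / 8)
    (ht0 : t0 = G / (4 * w)) (ht0K : t0 ≤ κ * F.co.M / 2) (hy0 : 0 ≤ y0)
    (hΛ : ∀ l, ∫ η, max (LL F d k1 0 n l η) 0 ∂(law F) ≤ Λ)
    (hp1 : ∀ l, (law F).real {η | UU F d k1 0 n l (l + w) η < G} ≤ p)
    (hp2 : ∀ l, (law F).real {η | UU F d k1 0 n l (l - w) η < G} ≤ p)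
    (hb : ∀ x0, (law F).real {η | y0 ≤ MM F d k1 0 n x0 (x0 + w) η} ≤ pb) (x0 : ℝ) :
    (law F).real {η | ∃ m ≤ n, η ∈ Hit F d t0 (y0 + G) x0 w m} ≤ pb + 8 * p + 32 * Λ / G := by
  have hsl := sl_of hd
  have hK0 := hk.K0
  have hw0 : (0 : ℝ) < w := by linarith
  obtain ⟨Km, hKm⟩ := exists_nat_ge (2 * ((C1 F + κ * F.co.M * |d.v|) * n) / (κ * F.co.M * w))
  rw [div_le_iff₀ (mul_pos hsl.k0 hw0)] at hKm
  -- the bad sequences
  have hbad : ∀ (e : ℤ) (b : ℝ), (∀ l, (law F).real {η | UU F d k1 0 n l (l + e * w) η < G} ≤ p) →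
      (law F).real {η | ∃ k, 1 ≤ k ∧ k ≤ Km ∧ G / 4 * k ≤ ∑ i ∈ Finset.range k, xi F d k1 n G w e b i η} ≤
        4 * p + 8 * Λ / G := by
    intro e b hp
    obtain ⟨h1, h2, h3⟩ := xi_mean (b := b) hd hk.k0.le hG.le hΛ hp
    have h4 := Pool.Agent.W_7d29a1_h30g.maximal_le (hsl.mp (0, e * w)) h1 h2 (fun η => xi_nonneg n G w e b 0 η)
      (c := G / 4) (by positivity) Km
    have h5 : {η | ∃ k, 1 ≤ k ∧ k ≤ Km ∧ G / 4 * k ≤ ∑ i ∈ Finset.range k, xi F d k1 n G w e b i η} =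
        {η | ∃ k, 1 ≤ k ∧ k ≤ Km ∧ G / 4 * k ≤ ∑ i ∈ Finset.range k, xi F d k1 n G w e b 0 ((F.shp (0, e * w))^[i] η)} := by
      ext η
      simp only [Set.mem_ofPred_eq]
      refine exists_congr fun k => and_congr_right fun _ => and_congr_right fun _ => ?_
      rw [Finset.sum_congr rfl fun i _ => xi_iter (k1 := k1) hd n G b e w i η]
    rw [h5]
    refine h4.trans ?_
    rw [div_le_iff₀ (by positivity)]
    have h6 : (4 * p + 8 * Λ / G) * (G / 4) = G * p + 2 * Λ := by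
      field_simp
      ring
    rw [h6]
    exact h3
  have hline : ∀ l, (law F).real {η | G / 8 ≤ LL F d k1 0 n l η} ≤ 8 * Λ / G := by
    intro l
    have h1 := mul_meas_ge_le_integral_of_nonneg (μ := law F) (f := fun η => max (LL F d k1 0 n l η) 0)
      (Filter.Eventually.of_forall fun η => le_max_right _ _) (LLp_int hd hk.k0.le n l) (G / 8)
    have h2 : (law F).real {η | G / 8 ≤ LL F d k1 0 n l η} ≤ (law F).real {η | G / 8 ≤ max (LL F d k1 0 n l η) 0} := by
      refine measureReal_mono ?_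
      intro η hη
      rw [Set.mem_ofPred_eq] at hη ⊢
      exact hη.trans (le_max_left _ _)
    refine h2.trans ?_
    rw [le_div_iff₀ hG]
    have h3 := hΛ l
    have h4 : (law F).real {η | G / 8 ≤ max (LL F d k1 0 n l η) 0} =
        (law F).real {x | G / 8 ≤ (fun η => max (LL F d k1 0 n l η) 0) x} := rfl
    rw [h4]
    linarith
  have hsub : {η | ∃ m ≤ n, η ∈ Hit F d t0 (y0 + G) x0 w m} ⊆
      {η | y0 ≤ MM F d k1 0 n x0 (x0 + w) η} ∪
      (({η | G / 8 ≤ LL F d k1 0 n x0 η} ∪ {η | G / 8 ≤ LL F d k1 0 n (x0 + w) η}) ∪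
      ({η | ∃ k, 1 ≤ k ∧ k ≤ Km ∧ G / 4 * k ≤ ∑ i ∈ Finset.range k, xi F d k1 n G w (-1 : ℤ) x0 i η} ∪
      {η | ∃ k, 1 ≤ k ∧ k ≤ Km ∧ G / 4 * k ≤ ∑ i ∈ Finset.range k, xi F d k1 n G w (1 : ℤ) (x0 + w) i η})) := by
    rintro η ⟨m, hm, hη⟩
    by_contra hcon
    simp only [Set.mem_union, Set.mem_ofPred_eq, not_or, not_le, not_exists, not_and] at hcon
    obtain ⟨c1, ⟨c2, c3⟩, c4, c5⟩ := hcon
    refine far_pt hd hk η (Km := Km) hW hG hCL hCP ht0 ht0K (by linarith) hy0 c1 c2 c3 ?_ ?_ hm hη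
    · intro k hk1 hk2
      have := c4 k hk1 hk2
      push_cast at this
      exact this
    · intro k hk1 hk2
      have := c5 k hk1 hk2
      push_cast at this
      exact this
  refine (measureReal_mono hsub).trans ?_
  refine (measureReal_union_le _ _).trans ?_
  refine (add_le_add (hb x0) ((measureReal_union_le _ _).trans (add_le_add ((measureReal_union_le _ _).trans
    (add_le_add (hline x0) (hline (x0 + w)))) ((measureReal_union_le _ _).trans (add_le_add (hbad (-1) x0 ?_)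
    (hbad 1 (x0 + w) ?_)))))).trans ?_
  · intro l
    have h := hp2 l
    have e1 : l - (w : ℝ) = l + ((-1 : ℤ) : ℝ) * w := by
      push_cast
      ring
    rwa [e1] at h
  · intro l
    have h := hp1 l
    have e1 : l + (w : ℝ) = l + ((1 : ℤ) : ℝ) * w := by
      push_cast
      ring
    rwa [e1] at h
  · have : 32 * Λ / G = 8 * Λ / G + 8 * Λ / G + (8 * Λ / G + 8 * Λ / G) := by ring
    linarith

end

end Pool.Agent.W_1b8d5d_p
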