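import Pool.Agent.W_1b8d5d_p.FrLine
import Pool.Agent.W_1b8d5d_p.FrSl

/-!
MP_1b8d5d_pr, Track P. The frame: first completion and latest start.
-/

namespace Pool.Agent.W_1b8d5d_p

open MeasureTheory Set
open Pool.Agent.W_1b8d5d_h85

noncomputable section

variable {F : Fm} {d : Dr} {k C0' C1' : ℝ}

/-- Independence of two events of disjoint sets of edges. -/
theorem indep_two {A B : Set Env} {S T : Set Edge} (hA : MeasurableSet A) (hB : MeasurableSet B)
    (hAd : DependsOn (fun η : Env => η ∈ A) S) (hBd : DependsOn (fun η : Env => η ∈ B) T) (h : Disjoint S T) :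
    (law F).real (A ∩ B) = (law F).real A * (law F).real B := by
  have h1 := integral_indep (F := F) (f := A.indicator fun _ => (1 : ℝ)) (g := B.indicator fun _ => (1 : ℝ))
    (measurable_const.indicator hA) (measurable_const.indicator hB) (A := S) (B := T)
    (fun η η' hh => by
      have := hAd hh
      simp only [eq_iff_iff] at this
      by_cases h2 : η ∈ A
      · rw [indicator_of_mem h2, indicator_of_mem (this.1 h2)]
      · rw [indicator_of_notMem h2, indicator_of_notMem fun h3 => h2 (this.2 h3)])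
    (fun η η' hh => by
      have := hBd hh
      simp only [eq_iff_iff] at this
      by_cases h2 : η ∈ B
      · rw [indicator_of_mem h2, indicator_of_mem (this.1 h2)]
      · rw [indicator_of_notMem h2, indicator_of_notMem fun h3 => h2 (this.2 h3)]) h
  have h2 : (fun η => A.indicator (fun _ => (1 : ℝ)) η * B.indicator (fun _ => (1 : ℝ)) η) =
      (A ∩ B).indicator fun _ => (1 : ℝ) := by
    ext η
    by_cases hA' : η ∈ A <;> by_cases hB' : η ∈ B <;> simp [hA', hB']
  rw [h2, integral_indicator_const _ (hA.inter hB), integral_indicator_const _ hA, integral_indicator_const _ hB] at h1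
  simpa using h1

/-- **One stage.** The first success among countably many events with times `m i`, followed by independent events. -/
theorem stage {ι : Type*} [Countable ι] {S B : ι → Set Env} {m : ι → ℕ} {T : ℕ → Set Edge} {T' : ι → Set Edge}
    (hT : Monotone T) (hdis : ∀ i, Disjoint (T (m i)) (T' i)) (hSm : ∀ i, MeasurableSet (S i))
    (hSd : ∀ i, DependsOn (fun η : Env => η ∈ S i) (T (m i))) (hBm : ∀ i, MeasurableSet (B i))
    (hBd : ∀ i, DependsOn (fun η : Env => η ∈ B i) (T' i)) {c : ℝ} (hc : 0 ≤ c) (hB : ∀ i, c ≤ (law F).real (B i)) :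
    c * (law F).real (⋃ i, S i) ≤ (law F).real (⋃ i, S i ∩ B i) := by
  classical
  obtain ⟨f, hf⟩ := exists_injective_nat ι
  set r : ι → ι → Prop := fun i j => Prod.Lex (· < ·) (· < ·) (m i, f i) (m j, f j) with hr
  have hwf : WellFounded r := InvImage.wf (fun i => (m i, f i)) (WellFounded.prod_lex wellFounded_lt wellFounded_lt)
  have hrm : ∀ i j, r j i → m j ≤ m i := by
    intro i j h
    rw [hr] at h
    rcases (Prod.lex_def.1 h) with h1 | h1
    · exact h1.le
    · exact h1.1.le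
  set A : ι → Set Env := fun i => S i \ ⋃ j, ⋃ (_ : r j i), S j with hA
  have hAm : ∀ i, MeasurableSet (A i) := fun i =>
    (hSm i).diff (MeasurableSet.iUnion fun j => MeasurableSet.iUnion fun _ => hSm j)
  have hAd : ∀ i, DependsOn (fun η : Env => η ∈ A i) (T (m i)) := by
    intro i η η' h
    have e1 : (η ∈ S i) = (η' ∈ S i) := hSd i h
    have e2 : ∀ j, r j i → (η ∈ S j) = (η' ∈ S j) := fun j hj => hSd j fun e he => h e (hT (hrm i j hj) he)
    simp only [hA, mem_diff, mem_iUnion, eq_iff_iff]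
    constructor
    · rintro ⟨h1, h2⟩
      refine ⟨e1 ▸ h1, ?_⟩
      rintro ⟨j, hj, h3⟩
      exact h2 ⟨j, hj, (e2 j hj).symm ▸ h3⟩
    · rintro ⟨h1, h2⟩
      refine ⟨e1.symm ▸ h1, ?_⟩
      rintro ⟨j, hj, h3⟩
      exact h2 ⟨j, hj, (e2 j hj) ▸ h3⟩
  have hAdis : Pairwise (Function.onFun Disjoint A) := by
    have key : ∀ i j, r i j → Disjoint (A i) (A j) := by
      intro i j h
      rw [Set.disjoint_left]
      rintro η ⟨h1, -⟩ ⟨-, h2⟩
      exact h2 (mem_iUnion.2 ⟨i, mem_iUnion.2 ⟨h, h1⟩⟩)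
    intro i j hij
    have hne : f i ≠ f j := fun h => hij (hf h)
    rcases lt_trichotomy (m i) (m j) with h | h | h
    · exact key i j (Prod.lex_def.2 (Or.inl h))
    · rcases lt_or_gt_of_ne hne with h' | h'
      · exact key i j (Prod.lex_def.2 (Or.inr ⟨h, h'⟩))
      · exact (key j i (Prod.lex_def.2 (Or.inr ⟨h.symm, h'⟩))).symm
    · exact (key j i (Prod.lex_def.2 (Or.inl h))).symm
  have hAu : (⋃ i, S i) = ⋃ i, A i := by
    ext η
    rw [mem_iUnion, mem_iUnion]
    constructor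
    · rintro ⟨i, hi⟩
      obtain ⟨j, hj, hmin⟩ := hwf.has_min {j | η ∈ S j} ⟨i, hi⟩
      refine ⟨j, hj, ?_⟩
      rw [mem_iUnion]
      rintro ⟨l, hl⟩
      rw [mem_iUnion] at hl
      obtain ⟨h1, h2⟩ := hl
      exact hmin l h2 h1
    · rintro ⟨i, hi⟩
      exact ⟨i, hi.1⟩
  have hAB : ∀ i, ENNReal.ofReal c * law F (A i) ≤ law F (A i ∩ B i) := by
    intro i
    have h1 := indep_two (F := F) (hAm i) (hBm i) (hAd i) (hBd i) (hdis i)
    have h2 : c * (law F).real (A i) ≤ (law F).real (A i ∩ B i) := by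
      rw [h1, mul_comm]
      exact mul_le_mul_of_nonneg_left (hB i) measureReal_nonneg
    have h3 := ENNReal.ofReal_le_ofReal h2
    rwa [ENNReal.ofReal_mul hc, ofReal_measureReal, ofReal_measureReal] at h3
  have h1 : ENNReal.ofReal c * law F (⋃ i, S i) ≤ law F (⋃ i, S i ∩ B i) := by
    rw [hAu, measure_iUnion hAdis hAm, ← ENNReal.tsum_mul_left]
    calc ∑' i, ENNReal.ofReal c * law F (A i) ≤ ∑' i, law F (A i ∩ B i) := ENNReal.tsum_le_tsum hAB
      _ = law F (⋃ i, A i ∩ B i) := by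
        rw [measure_iUnion (fun i j hij => (hAdis hij).mono inter_subset_left inter_subset_left)
          fun i => (hAm i).inter (hBm i)]
      _ ≤ law F (⋃ i, S i ∩ B i) := by
        refine measure_mono (iUnion_mono fun i => ?_)
        exact inter_subset_inter_left _ diff_subset
  have h2 := ENNReal.toReal_mono (measure_ne_top _ _) h1
  rwa [ENNReal.toReal_mul, ENNReal.toReal_ofReal hc] at h2

/-- Concatenation of pairs. -/
theorem Sl.XP_tri (h : Sl F d k C0' C1') (η : Env) {P Q R : Pt} (h1 : P.1 < Q.1) (h2 : Q.1 < R.1) :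
    XP F d η P R ≤ XP F d η P Q + XP F d η Q R := by
  have h3 := h.tri η P (Q.1 - P.1).toNat (R.1 - Q.1).toNat (Q.2 - P.2) (R.2 - Q.2) (by omega) (by omega)
  unfold XP
  have e1 : (Q.1 - P.1).toNat + (R.1 - Q.1).toNat = (R.1 - P.1).toNat := by omega
  have e2 : Q.2 - P.2 + (R.2 - Q.2) = R.2 - P.2 := by ring
  have e3 : P + (((Q.1 - P.1).toNat : ℤ), Q.2 - P.2) = Q := by
    ext
    · simp only [Prod.fst_add]
      omega
    · simp only [Prod.snd_add]
      ring
  rw [e1, e2, e3] at h3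
  exact h3

theorem Sl.XP_tri_left (h : Sl F d k C0' C1') (η : Env) {s t : ℤ} {P Q R : Pt} (hPQ : IsPr s t P Q) (h2 : t < R.1) :
    XP F d η P R ≤ XP F d η P Q + XP F d η Q R := by
  rcases hPQ.2.2 with h1 | h1
  · exact h.XP_tri η h1 (by have := hPQ.2.1; omega)
  · rw [← h1, h.XP_self, zero_add]

/-- **FIRST COMPLETION AND LATEST START.** -/
theorem gen (h : Sl F d k C0' C1') {s t : ℤ} {O : Pt} (hO : O.1 < s) {Z : Pt → Pt} {SP SQ : Set Pt}
    (hZ : ∀ Q ∈ SQ, Q.1 ≤ t → t < (Z Q).1) {φ ψ : Pt → ℝ} {a b y : ℝ}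
    (h1 : ∀ P ∈ SP, s ≤ P.1 → P.1 ≤ t → 3 / 4 ≤ (law F).real {η | XP F d η O P ≤ a + φ P})
    (h2 : ∀ Q ∈ SQ, s ≤ Q.1 → Q.1 ≤ t → 3 / 4 ≤ (law F).real {η | XP F d η Q (Z Q) ≤ b + ψ Q}) :
    9 / 16 * (law F).real {η | ∃ P Q, P ∈ SP ∧ Q ∈ SQ ∧ IsPr s t P Q ∧ y ≤ -XP F d η P Q - φ P - ψ Q} ≤
      (law F).real {η | ∃ Q, Q ∈ SQ ∧ s ≤ Q.1 ∧ Q.1 ≤ t ∧ y - a - b ≤ -XP F d η O (Z Q)} := by
  set ι := {p : Pt × Pt // IsPr s t p.1 p.2 ∧ p.1 ∈ SP ∧ p.2 ∈ SQ} with hι
  have hPQle : ∀ p : ι, p.1.1.1 ≤ p.1.2.1 := by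
    intro p
    rcases p.2.1.2.2 with h3 | h3
    · exact h3.le
    · rw [h3]
  have hXm : ∀ P Q, Measurable fun η => XP F d η P Q := h.XP_meas
  -- the first stage
  have st1 : 3 / 4 * (law F).real (⋃ p : ι, {η | y ≤ -XP F d η p.1.1 p.1.2 - φ p.1.1 - ψ p.1.2}) ≤
      (law F).real (⋃ p : ι, {η | y ≤ -XP F d η p.1.1 p.1.2 - φ p.1.1 - ψ p.1.2} ∩
        {η | XP F d η p.1.2 (Z p.1.2) ≤ b + ψ p.1.2}) := by
    refine stage (m := fun p : ι => (p.1.2.1 - s).toNat) (T := fun m => F.co.rows s (s + m))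
      (T' := fun p => F.co.rows p.1.2.1 (Z p.1.2).1) ?_ ?_ ?_ ?_ ?_ ?_ (by norm_num) ?_
    · intro i j hij
      exact rows_mono F.co le_rfl (by have : (i : ℤ) ≤ j := by exact_mod_cast hij
                                      omega)
    · intro p
      refine rows_disj F.co s ?_ _
      have := hPQle p
      have := p.2.1.1
      omega
    · intro p
      exact measurableSet_le measurable_const (((hXm _ _).neg.sub_const _).sub_const _)
    · intro p η η' hh
      have h3 : XP F d η p.1.1 p.1.2 = XP F d η' p.1.1 p.1.2 :=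
        h.XP_dep (hPQle p) fun e he => hh e (rows_mono F.co p.2.1.1 (by
          have := hPQle p
          have := p.2.1.1
          omega) he)
      simp only [mem_ofPred_eq, h3]
    · intro p
      exact measurableSet_le (hXm _ _) measurable_const
    · intro p η η' hh
      have h3 : XP F d η p.1.2 (Z p.1.2) = XP F d η' p.1.2 (Z p.1.2) :=
        h.XP_dep (by have := hZ p.1.2 p.2.2.2 p.2.1.2.1
                     have := p.2.1.2.1
                     omega) hh
      simp only [mem_ofPred_eq, h3]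
    · intro p
      exact h2 p.1.2 p.2.2.2 (by have := hPQle p
                                 have := p.2.1.1
                                 omega) p.2.1.2.1
  -- the second stage
  have st2 : 3 / 4 * (law F).real (⋃ p : ι, {η | y - b ≤ -XP F d η p.1.1 (Z p.1.2) - φ p.1.1}) ≤
      (law F).real (⋃ p : ι, {η | y - b ≤ -XP F d η p.1.1 (Z p.1.2) - φ p.1.1} ∩
        {η | XP F d η O p.1.1 ≤ a + φ p.1.1}) := by
    refine stage (m := fun p : ι => (t - p.1.1.1).toNat) (T := fun m => {e | F.co.L * (t - m) ≤ F.co.tm e.1})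
      (T' := fun p => F.co.rows O.1 p.1.1.1) ?_ ?_ ?_ ?_ ?_ ?_ (by norm_num) ?_
    · intro i j hij e he
      have h3 : (i : ℤ) ≤ j := by exact_mod_cast hij
      have h4 : F.co.L * (t - j) ≤ F.co.L * (t - i) :=
        mul_le_mul_of_nonneg_left (by omega) (by have := F.co.L_pos; omega)
      exact h4.trans he
    · intro p
      rw [Set.disjoint_left]
      intro e he he'
      have h3 : F.co.tm e.1 < F.co.L * p.1.1.1 := he'.2
      have h4 : F.co.L * (t - ((t - p.1.1.1).toNat : ℤ)) ≤ F.co.tm e.1 := he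
      have h5 : t - ((t - p.1.1.1).toNat : ℤ) = p.1.1.1 := by
        have := hPQle p
        have := p.2.1.2.1
        omega
      rw [h5] at h4
      omega
    · intro p
      exact measurableSet_le measurable_const ((hXm _ _).neg.sub_const _)
    · intro p η η' hh
      have h5 : t - ((t - p.1.1.1).toNat : ℤ) = p.1.1.1 := by
        have := hPQle p
        have := p.2.1.2.1
        omega
      have h3 : XP F d η p.1.1 (Z p.1.2) = XP F d η' p.1.1 (Z p.1.2) := by
        refine h.XP_dep ?_ fun e he => hh e ?_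
        · have := hZ p.1.2 p.2.2.2 p.2.1.2.1
          have := hPQle p
          have := p.2.1.2.1
          omega
        · change F.co.L * (t - ((t - p.1.1.1).toNat : ℤ)) ≤ F.co.tm e.1
          rw [h5]
          exact he.1
      simp only [mem_ofPred_eq, h3]
    · intro p
      exact measurableSet_le (hXm _ _) measurable_const
    · intro p η η' hh
      have h3 : XP F d η O p.1.1 = XP F d η' O p.1.1 :=
        h.XP_dep (by have := p.2.1.1; omega) hh
      simp only [mem_ofPred_eq, h3]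
    · intro p
      exact h1 p.1.1 p.2.2.1 p.2.1.1 (by have := hPQle p
                                         have := p.2.1.2.1
                                         omega)
  have e1 : {η | ∃ P Q, P ∈ SP ∧ Q ∈ SQ ∧ IsPr s t P Q ∧ y ≤ -XP F d η P Q - φ P - ψ Q} =
      ⋃ p : ι, {η | y ≤ -XP F d η p.1.1 p.1.2 - φ p.1.1 - ψ p.1.2} := by
    ext η
    simp only [mem_ofPred_eq, mem_iUnion]
    constructor
    · rintro ⟨P, Q, h3, h4, h5, h6⟩
      exact ⟨⟨(P, Q), h5, h3, h4⟩, h6⟩
    · rintro ⟨p, h3⟩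
      exact ⟨p.1.1, p.1.2, p.2.2.1, p.2.2.2, p.2.1, h3⟩
  have e2 : (law F).real (⋃ p : ι, {η | y ≤ -XP F d η p.1.1 p.1.2 - φ p.1.1 - ψ p.1.2} ∩
        {η | XP F d η p.1.2 (Z p.1.2) ≤ b + ψ p.1.2}) ≤
      (law F).real (⋃ p : ι, {η | y - b ≤ -XP F d η p.1.1 (Z p.1.2) - φ p.1.1}) := by
    refine measureReal_mono (iUnion_mono fun p => ?_) (measure_ne_top _ _)
    rintro η ⟨h3, h4⟩
    have h5 := h.XP_tri_left η p.2.1 (hZ p.1.2 p.2.2.2 p.2.1.2.1)
    simp only [mem_ofPred_eq] at h3 h4 ⊢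
    linarith
  have e3 : (law F).real (⋃ p : ι, {η | y - b ≤ -XP F d η p.1.1 (Z p.1.2) - φ p.1.1} ∩
        {η | XP F d η O p.1.1 ≤ a + φ p.1.1}) ≤
      (law F).real {η | ∃ Q, Q ∈ SQ ∧ s ≤ Q.1 ∧ Q.1 ≤ t ∧ y - a - b ≤ -XP F d η O (Z Q)} := by
    refine measureReal_mono (iUnion_subset fun p => ?_) (measure_ne_top _ _)
    rintro η ⟨h3, h4⟩
    have h6 := hPQle p
    have h7 := hZ p.1.2 p.2.2.2 p.2.1.2.1
    have h8 := p.2.1.1
    have h9 := p.2.1.2.1
    have h5 := h.XP_tri η (P := O) (Q := p.1.1) (R := Z p.1.2) (by omega) (by omega)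
    simp only [mem_ofPred_eq] at h3 h4 ⊢
    exact ⟨p.1.2, p.2.2.2, by omega, h9, by linarith⟩
  rw [e1]
  linarith

end

end Pool.Agent.W_1b8d5d_p
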