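import Pool.Agent.W_1b8d5d_p.FrFarB

/-!
MP_1b8d5d_pr, Track P, frame (proofs row 631, section 6): THE EXPONENTIAL MOMENTS OF ALL TILTED LUCKS, (L*), and the reversed
form (the end point in the box).
-/

namespace Pool.Agent.W_1b8d5d_p

open MeasureTheory Set
open Pool.Agent.W_1b8d5d_h85 (V nm dir Edge Env grid wedges cost rf)

noncomputable section

variable {F : Fm} {κ k1 K1 : ℝ} {d : Dr} {η : Env}

/-- **(L\*)** `G` = price of the distance `w`, `Λ` = mean luck of a line, `p`, `pb` = bad probabilities, `y0` = luck of a box,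
`r` = ratio. The tilt is `G / (8 w)`, the unit is `y0 + G`. -/
theorem lstar (hd : Adm F κ d) (hk : Lat F κ k1 K1 d) {n w : ℕ} {G Λ p pb y0 r : ℝ} (hW : K1 < w)
    (hG : 0 < G) (hCL : CL F k1 K1 ≤ G / 8) (hCP : CP F ≤ G / 8) (hGw : G / (4 * w) ≤ κ * F.co.M / 2) (hy0 : 0 ≤ y0)
    (hΛ : ∀ l, ∫ η, max (LL F d k1 0 n l η) 0 ∂(law F) ≤ Λ)
    (hp1 : ∀ l, (law F).real {η | UU F d k1 0 n l (l + w) η < G} ≤ p)
    (hp2 : ∀ l, (law F).real {η | UU F d k1 0 n l (l - w) η < G} ≤ p)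
    (hb : ∀ x0, (law F).real {η | y0 ≤ MM F d k1 0 n x0 (x0 + w) η} ≤ pb)
    (hr : y0 + G ≤ r * G) (hC : 2 * C0 F.co F.b + C1 F + κ * F.co.M * |d.v| ≤ y0 + G)
    (hε : (pb + 8 * p + 32 * Λ / G) * ((3 + 16 * r) * (2 * Real.exp 2)) ≤ 1) :
    ∀ k ≤ n, ∀ o, ∫ η, Real.exp (1 / (y0 + G) * TL F d (G / (8 * w)) o w k η) ∂(law F) ≤ 2 * Real.exp 2 := by
  have hsl := sl_of hd
  have hK0 := hk.K0
  have hw0 : (0 : ℝ) < w := by linarith
  have hY : 0 < y0 + G := by linarith
  have hs : 0 ≤ G / (8 * w) := by positivity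
  have hst : G / (8 * w) < G / (4 * w) := by
    rw [div_lt_div_iff₀ (by positivity) (by positivity)]
    nlinarith [mul_pos hG hw0]
  have hK := hsl.k0
  have hr0 : 0 < r := by
    by_contra hcon
    rw [not_lt] at hcon
    nlinarith
  have ha : 0 < 1 / (y0 + G) * (G / (4 * w) - G / (8 * w)) * w := by
    have : 0 < G / (4 * w) - G / (8 * w) := by linarith
    positivity
  have ha' : 1 / (8 * r) ≤ 1 / (y0 + G) * (G / (4 * w) - G / (8 * w)) * w := by
    have e1 : 1 / (y0 + G) * (G / (4 * w) - G / (8 * w)) * w = G / (8 * (y0 + G)) := by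
      field_simp
      ring
    rw [e1, div_le_div_iff₀ (by positivity) (by positivity)]
    linarith
  have hS : ∀ J : ℕ, ∑ j ∈ Finset.Icc (-(J : ℤ)) J, wj (1 / (y0 + G) * (G / (4 * w) - G / (8 * w)) * w) j ≤ 3 + 16 * r := by
    intro J
    refine (sum_wj ha J).trans ?_
    have e2 : 2 / (1 / (y0 + G) * (G / (4 * w) - G / (8 * w)) * w) ≤ 2 / (1 / (8 * r)) :=
      div_le_div_of_nonneg_left (by norm_num) (by positivity) ha'
    have e3 : 2 / (1 / (8 * r)) = 16 * r := by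
      field_simp
      norm_num
    linarith
  refine restart hsl hs hst (by linarith) hY.le hw0 (one_div_pos.2 hY)
    (fun o => hit_le hd hk hW hG hCL hCP rfl hGw hy0 hΛ hp1 hp2 hb o) hS (by positivity) ?_
  have h1 : 1 / (y0 + G) * (y0 + G + (2 * C0 F.co F.b + C1 F + κ * F.co.M * |d.v|)) ≤ 2 := by
    rw [one_div, inv_mul_le_iff₀ hY]
    linarith
  have h2 := Real.exp_le_exp.2 h1
  have h3 : (pb + 8 * p + 32 * Λ / G) * ((3 + 16 * r) * (2 * Real.exp 2)) ≤ 1 := hε
  calc Real.exp (1 / (y0 + G) * (y0 + G + (2 * C0 F.co F.b + C1 F + κ * F.co.M * |d.v|))) *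
        (1 + (pb + 8 * p + 32 * Λ / G) * ((3 + 16 * r) * (2 * Real.exp 2)))
      ≤ Real.exp 2 * (1 + 1) := by
        refine mul_le_mul h2 (by linarith) ?_ (Real.exp_pos _).le
        have hp0 : 0 ≤ p := measureReal_nonneg.trans (hp1 0)
        have hpb0 : 0 ≤ pb := measureReal_nonneg.trans (hb 0)
        have hΛ0 : 0 ≤ Λ := (integral_nonneg fun η => le_max_right _ _).trans (hΛ 0)
        positivity
    _ = 2 * Real.exp 2 := by ring

/-! ### Reversal -/

/-- The pairs in the rows `[0, k]` which end in the box `(o, o + W]`. -/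
def InR (d : Dr) (o W : ℝ) (k : ℕ) : Set (Pt × Pt) :=
  {w | 0 ≤ w.1.1 ∧ w.1.1 ≤ w.2.1 ∧ w.2.1 ≤ k ∧ (w.1.1 = w.2.1 → w.1 = w.2) ∧ o < lat d w.2 ∧ lat d w.2 ≤ o + W}

/-- The largest tilted luck of the pairs in the rows `[0, k]` which end in the box `(o, o + W]`. -/
def TLr (F : Fm) (d : Dr) (t o W : ℝ) (k : ℕ) (η : Env) : ℝ :=
  ⨆ w : InR d o W k, (t * |lat d w.1.2 - lat d w.1.1| - XP F d η w.1.1 w.1.2)

theorem XP_rf (F : Fm) (d : Dr) (η : Env) {P Q : Pt} (h : P.1 ≤ Q.1) : XP F d (rf η) P Q = XP F d η (-Q) (-P) := by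
  unfold XP
  rw [X_rf]
  have e1 : (-P - (((Q.1 - P.1).toNat : ℤ), Q.2 - P.2)) = -Q := by
    ext
    · simp only [Prod.fst_sub, Prod.fst_neg]
      omega
    · simp only [Prod.snd_sub, Prod.snd_neg]
      ring
  rw [e1]
  congr 1
  · simp only [Prod.fst_neg]
    congr 1
    ring
  · simp only [Prod.snd_neg]
    ring

theorem lat_neg (d : Dr) (P : Pt) : lat d (-P) = -lat d P := by
  unfold lat
  simp only [Prod.fst_neg, Prod.snd_neg]
  push_cast
  ring

theorem lat_row (d : Dr) (P : Pt) (k : ℤ) : lat d (P + (k, 0)) = lat d P - d.v * k := by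
  unfold lat
  simp only [Prod.fst_add, Prod.snd_add, add_zero]
  push_cast
  ring

/-- The reversal of the pairs. -/
def rvE (d : Dr) (o W : ℝ) (k : ℕ) : InR d o W k ≃ InB d (-o - W - d.v * k) W k where
  toFun w := ⟨(-w.1.2 + ((k : ℤ), 0), -w.1.1 + ((k : ℤ), 0)), by
    obtain ⟨h1, h2, h3, h4, h5, h6⟩ := w.2
    refine ⟨?_, ?_, ?_, ?_, ?_, ?_⟩
    · simp only [Prod.fst_add, Prod.fst_neg]
      linarith
    · simp only [Prod.fst_add, Prod.fst_neg]
      linarith
    · simp only [Prod.fst_add, Prod.fst_neg]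
      linarith
    · intro h
      simp only [Prod.fst_add, Prod.fst_neg] at h
      simp only
      rw [h4 (by linarith)]
    · rw [lat_row, lat_neg]
      push_cast
      linarith
    · rw [lat_row, lat_neg]
      push_cast
      linarith⟩
  invFun w := ⟨(-w.1.2 + ((k : ℤ), 0), -w.1.1 + ((k : ℤ), 0)), by
    obtain ⟨h1, h2, h3, h4, h5, h6⟩ := w.2
    refine ⟨?_, ?_, ?_, ?_, ?_, ?_⟩
    · simp only [Prod.fst_add, Prod.fst_neg]
      linarith
    · simp only [Prod.fst_add, Prod.fst_neg]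
      linarith
    · simp only [Prod.fst_add, Prod.fst_neg]
      linarith
    · intro h
      simp only [Prod.fst_add, Prod.fst_neg] at h
      simp only
      rw [h4 (by linarith)]
    · rw [lat_row, lat_neg]
      push_cast
      linarith
    · rw [lat_row, lat_neg]
      push_cast
      linarith⟩
  left_inv w := by
    ext <;> simp
  right_inv w := by
    ext <;> simp

theorem TLr_eq (hd : Adm F κ d) (t o W : ℝ) (k : ℕ) (η : Env) :
    TLr F d t o W k η = TL F d t (-o - W - d.v * k) W k (F.shp (-(k : ℤ), 0) (rf η)) := by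
  have hsl := sl_of hd
  unfold TLr TL
  refine Equiv.iSup_congr (rvE d o W k) fun w => ?_
  obtain ⟨h1, h2, h3, h4, h5, h6⟩ := w.2
  simp only [rvE, Equiv.coe_fn_mk]
  rw [hsl.XP_shift]
  have e1 : -w.1.2 + ((k : ℤ), (0 : ℤ)) + (-(k : ℤ), 0) = -w.1.2 := by
    ext <;> simp
  have e2 : -w.1.1 + ((k : ℤ), (0 : ℤ)) + (-(k : ℤ), 0) = -w.1.1 := by
    ext <;> simp
  rw [e1, e2, XP_rf F d η (by simp only [Prod.fst_neg]; linarith), neg_neg, neg_neg, lat_row, lat_row, lat_neg, lat_neg]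
  congr 3
  ring

/-- The exponential moments of the reversed lucks are those of the lucks. -/
theorem TLr_int (hd : Adm F κ d) (θ t o W : ℝ) (k : ℕ) :
    ∫ η, Real.exp (θ * TLr F d t o W k η) ∂(law F) =
      ∫ η, Real.exp (θ * TL F d t (-o - W - d.v * k) W k η) ∂(law F) := by
  have hsl := sl_of hd
  have h1 : MeasurePreserving (fun η => F.shp (-(k : ℤ), 0) (rf η)) (law F) (law F) := (hsl.mp _).comp (mp_rf F)
  have h2 : Measurable fun η => Real.exp (θ * TL F d t (-o - W - d.v * k) W k η) :=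
    Real.measurable_exp.comp (measurable_const.mul (TL_meas hsl))
  have h3 := Pool.Agent.W_7d29a1_f21.mp_integral h1 (F := fun η => Real.exp (θ * TL F d t (-o - W - d.v * k) W k η))
    h2.aestronglyMeasurable
  rw [← h3]
  refine integral_congr_ae (Filter.Eventually.of_forall fun η => ?_)
  simp only
  rw [TLr_eq hd]

end

end Pool.Agent.W_1b8d5d_p
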