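import Pool.Agent.W_1b8d5d_p.FrWalk

/-!
MP_1b8d5d_pr, Track P. Coordinates and slabs: existence of slab walks, concatenation, Lipschitz bounds.
-/

namespace Pool.Agent.W_1b8d5d_p

open MeasureTheory Set
open Pool.Agent.W_1b8d5d_h85

namespace Co

variable (c : Co)

theorem q_nonneg : 0 ≤ c.q := c.hq

theorem p_pos : 0 < c.p := by have := c.hp; omega

theorem M_pos : 1 ≤ c.M := by unfold M; have := c.hp; have := c.hq; omega

theorem L_eq : c.L = c.M + 1 := rfl

theorem L_pos : 2 ≤ c.L := by rw [L_eq]; have := c.M_pos; omega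

theorem tm_add (x y : V) : c.tm (x + y) = c.tm x + c.tm y := by
  unfold tm; simp only [Prod.fst_add, Prod.snd_add]; ring

theorem tm_neg (x : V) : c.tm (-x) = -c.tm x := by
  unfold tm; simp only [Prod.fst_neg, Prod.snd_neg]; ring

theorem tm_sub (x y : V) : c.tm (x - y) = c.tm x - c.tm y := by
  rw [sub_eq_add_neg, tm_add, tm_neg]; ring

@[simp] theorem tm_zero : c.tm 0 = 0 := by unfold tm; simp

@[simp] theorem tm_e1 : c.tm (dir false) = c.p := by unfold tm dir; simp

@[simp] theorem tm_e2 : c.tm (dir true) = c.q := by unfold tm dir; simp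

theorem tm_dir_nonneg (s : Bool) : 0 ≤ c.tm (dir s) := by
  cases s
  · rw [tm_e1]; exact c.p_pos.le
  · rw [tm_e2]; exact c.hq

theorem tm_dir_le (s : Bool) : c.tm (dir s) ≤ c.M := by
  have := c.hp
  have := c.hq
  cases s
  · rw [tm_e1]; unfold M; omega
  · rw [tm_e2]; unfold M; omega

theorem ps_add (x y : V) : c.ps (x + y) = c.ps x + c.ps y := by
  unfold ps; simp only [Prod.fst_add, Prod.snd_add]; ring

theorem ps_neg (x : V) : c.ps (-x) = -c.ps x := by
  unfold ps; simp only [Prod.fst_neg, Prod.snd_neg]; ring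

theorem ps_sub (x y : V) : c.ps (x - y) = c.ps x - c.ps y := by
  rw [sub_eq_add_neg, ps_add, ps_neg]; ring

@[simp] theorem ps_zero : c.ps 0 = 0 := by unfold ps; simp

theorem vt_add (a b : Pt) : c.vt (a + b) = c.vt a + c.vt b := by
  unfold vt
  ext <;> simp only [Prod.fst_add, Prod.snd_add] <;> ring

theorem vt_neg (a : Pt) : c.vt (-a) = -c.vt a := by
  unfold vt
  ext <;> simp only [Prod.fst_neg, Prod.snd_neg] <;> ring

theorem vt_sub (a b : Pt) : c.vt (a - b) = c.vt a - c.vt b := by
  rw [sub_eq_add_neg, vt_add, vt_neg, ← sub_eq_add_neg]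

@[simp] theorem vt_zero : c.vt 0 = 0 := by unfold vt; simp

@[simp] theorem tm_vt (a : Pt) : c.tm (c.vt a) = c.L * a.1 := by
  unfold tm vt
  linear_combination (c.L * a.1) * c.det

@[simp] theorem ps_vt (a : Pt) : c.ps (c.vt a) = a.2 := by
  unfold ps vt
  linear_combination (a.2) * c.det

/-- The vertex is determined by time and position. -/
theorem eq_of (z : V) : z = (c.tm z * c.r - c.ps z * c.q, c.tm z * c.s + c.ps z * c.p) := by
  unfold tm ps
  ext
  · simp only
    linear_combination (-z.1) * c.det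
  · simp only
    linear_combination (-z.2) * c.det

theorem ext {z z' : V} (h1 : c.tm z = c.tm z') (h2 : c.ps z = c.ps z') : z = z' := by
  rw [c.eq_of z, c.eq_of z', h1, h2]

/-- Vertices at block times are grid points. -/
theorem eq_vt {z : V} {n : ℤ} (h : c.tm z = c.L * n) : z = c.vt (n, c.ps z) := by
  apply c.ext <;> simp [h]

theorem vt_inj {a b : Pt} (h : c.vt a = c.vt b) : a = b := by
  have h1 : c.L * a.1 = c.L * b.1 := by rw [← tm_vt, ← tm_vt, h]
  have h2 : a.2 = b.2 := by rw [← c.ps_vt a, ← c.ps_vt b, h]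
  have h3 : c.L ≠ 0 := by have := c.L_pos; omega
  exact Prod.ext (mul_left_cancel₀ h3 h1) h2

/-- The form on the grid points. -/
theorem H_vt (d : Dr) (a : Pt) : d.H (c.vt a) = al c d * a.1 + be c d * a.2 := by
  unfold Dr.H vt al be
  push_cast
  ring

/-- The size of the completing vector. -/
def R : ℤ := |c.r| + |c.s|

theorem R_pos : 1 ≤ c.R := by
  have h1 := abs_nonneg c.r
  have h2 := abs_nonneg c.s
  unfold R
  by_contra h
  have h3 : |c.r| = 0 := by omega
  have h4 : |c.s| = 0 := by omega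
  have h5 := abs_eq_zero.1 h3
  have h6 := abs_eq_zero.1 h4
  have := c.det
  rw [h5, h6] at this
  simp at this

theorem nm_le (z : V) : nm z ≤ c.R * |(c.tm z : ℝ)| + c.M * |(c.ps z : ℝ)| := by
  have h := c.eq_of z
  have h1 : (z.1 : ℝ) = c.tm z * c.r - c.ps z * c.q := by
    have := congrArg Prod.fst h
    simp only at this
    exact_mod_cast this
  have h2 : (z.2 : ℝ) = c.tm z * c.s + c.ps z * c.p := by
    have := congrArg Prod.snd h
    simp only at this
    exact_mod_cast this
  have hp : (0 : ℝ) ≤ c.p := by exact_mod_cast c.p_pos.le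
  have hq : (0 : ℝ) ≤ c.q := by exact_mod_cast c.hq
  have h3 : |(z.1 : ℝ)| ≤ |(c.tm z : ℝ)| * |(c.r : ℝ)| + |(c.ps z : ℝ)| * c.q := by
    rw [h1]
    refine (abs_sub _ _).trans ?_
    rw [abs_mul, abs_mul, abs_of_nonneg hq]
  have h4 : |(z.2 : ℝ)| ≤ |(c.tm z : ℝ)| * |(c.s : ℝ)| + |(c.ps z : ℝ)| * c.p := by
    rw [h2]
    refine (abs_add_le _ _).trans ?_
    rw [abs_mul, abs_mul, abs_of_nonneg hp]
  unfold nm R M
  push_cast
  linarith

theorem abs_tm_le (z : V) : |(c.tm z : ℝ)| ≤ c.M * nm z := by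
  have hp : (0 : ℝ) ≤ c.p := by exact_mod_cast c.p_pos.le
  have hq : (0 : ℝ) ≤ c.q := by exact_mod_cast c.hq
  unfold tm nm M
  push_cast
  refine (abs_add_le _ _).trans ?_
  rw [abs_mul, abs_mul, abs_of_nonneg hp, abs_of_nonneg hq]
  nlinarith [abs_nonneg (z.1 : ℝ), abs_nonneg (z.2 : ℝ)]

theorem abs_ps_le (z : V) : |(c.ps z : ℝ)| ≤ c.R * nm z := by
  unfold ps nm R
  push_cast
  refine (abs_sub _ _).trans ?_
  rw [abs_mul, abs_mul]
  nlinarith [abs_nonneg (z.1 : ℝ), abs_nonneg (z.2 : ℝ), abs_nonneg (c.r : ℝ), abs_nonneg (c.s : ℝ)]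

theorem nm_lat (k : ℤ) : nm (c.vt (0, k)) = c.M * |(k : ℝ)| := by
  have hp : (0 : ℝ) ≤ c.p := by exact_mod_cast c.p_pos.le
  have hq : (0 : ℝ) ≤ c.q := by exact_mod_cast c.hq
  unfold nm vt M
  push_cast
  simp only [mul_zero, zero_mul, zero_sub, zero_add, abs_neg]
  rw [abs_mul, abs_mul, abs_of_nonneg hp, abs_of_nonneg hq]
  ring

/-! ### Walks in a window of times -/

private theorem adj_e (x : V) (s : Bool) : grid.Adj x (x + dir s) := ⟨s, Or.inl rfl⟩

private theorem adj_e' (x : V) (s : Bool) : grid.Adj x (x - dir s) := ⟨s, Or.inr (by simp)⟩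

private theorem win_step {lo hi : ℤ} {N : ℕ} {x x' y : V} (hx : lo ≤ c.tm x ∧ c.tm x ≤ hi) (h : grid.Adj x x')
    (ih : ∃ w : grid.Walk x' y, w.length = N ∧ ∀ z ∈ w.support, lo ≤ c.tm z ∧ c.tm z ≤ hi) :
    ∃ w : grid.Walk x y, w.length = N + 1 ∧ ∀ z ∈ w.support, lo ≤ c.tm z ∧ c.tm z ≤ hi := by
  obtain ⟨w, h1, h2⟩ := ih
  refine ⟨SimpleGraph.Walk.cons h w, by simp [h1], ?_⟩
  intro z hz
  rw [SimpleGraph.Walk.support_cons, List.mem_cons] at hz
  rcases hz with rfl | hz
  · exact hx
  · exact h2 z hz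

/-- In a window of `M` times two vertices are joined by a walk of minimal length. -/
theorem win_walk {lo hi : ℤ} (hw : lo + c.M ≤ hi + 1) : ∀ (N : ℕ) (x y : V), |y.1 - x.1| + |y.2 - x.2| = N →
    lo ≤ c.tm x ∧ c.tm x ≤ hi → lo ≤ c.tm y ∧ c.tm y ≤ hi →
    ∃ w : grid.Walk x y, w.length = N ∧ ∀ z ∈ w.support, lo ≤ c.tm z ∧ c.tm z ≤ hi := by
  have hp := c.hp
  have hq := c.hq
  unfold M at hw
  intro N
  induction N with
  | zero =>
    intro x y hN hx hy
    have h1 : y.1 = x.1 := by
      have := abs_nonneg (y.1 - x.1)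
      have h3 := abs_nonneg (y.2 - x.2)
      have : |y.1 - x.1| = 0 := by push_cast at hN; omega
      have := abs_eq_zero.1 this
      omega
    have h2 : y.2 = x.2 := by
      have := abs_nonneg (y.1 - x.1)
      have h3 := abs_nonneg (y.2 - x.2)
      have : |y.2 - x.2| = 0 := by push_cast at hN; omega
      have := abs_eq_zero.1 this
      omega
    have h3 : y = x := Prod.ext h1 h2
    subst h3
    refine ⟨SimpleGraph.Walk.nil, rfl, ?_⟩
    intro z hz
    rw [SimpleGraph.Walk.support_nil, List.mem_singleton] at hz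
    subst hz
    exact hx
  | succ N ih =>
    intro x y hN hx hy
    have hT : c.tm y = c.tm x + c.p * (y.1 - x.1) + c.q * (y.2 - x.2) := by unfold tm; ring
    have f1 : ∀ s : Bool, c.tm (x + dir s) = c.tm x + c.tm (dir s) := fun s => c.tm_add _ _
    have f2 : ∀ s : Bool, c.tm (x - dir s) = c.tm x - c.tm (dir s) := fun s => c.tm_sub _ _
    have e1 : x + dir false = (x.1 + 1, x.2) := by unfold dir; ext <;> simp
    have e2 : x + dir true = (x.1, x.2 + 1) := by unfold dir; ext <;> simp
    have e3 : x - dir false = (x.1 - 1, x.2) := by unfold dir; ext <;> simp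
    have e4 : x - dir true = (x.1, x.2 - 1) := by unfold dir; ext <;> simp
    -- the four moves
    have m1 : 0 < y.1 - x.1 → c.tm x + c.p ≤ hi →
        ∃ w : grid.Walk x y, w.length = N + 1 ∧ ∀ z ∈ w.support, lo ≤ c.tm z ∧ c.tm z ≤ hi := by
      intro h1 h2
      refine c.win_step hx (adj_e x false) (ih _ y ?_ ?_ hy)
      · rw [e1]
        simp only
        rw [abs_of_nonneg (show 0 ≤ y.1 - (x.1 + 1) by omega)]
        rw [abs_of_pos h1] at hN
        push_cast at hN
        omega
      · rw [f1, tm_e1]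
        exact ⟨by omega, h2⟩
    have m2 : 0 < y.2 - x.2 → c.tm x + c.q ≤ hi →
        ∃ w : grid.Walk x y, w.length = N + 1 ∧ ∀ z ∈ w.support, lo ≤ c.tm z ∧ c.tm z ≤ hi := by
      intro h1 h2
      refine c.win_step hx (adj_e x true) (ih _ y ?_ ?_ hy)
      · rw [e2]
        simp only
        rw [abs_of_nonneg (show 0 ≤ y.2 - (x.2 + 1) by omega)]
        rw [abs_of_pos h1] at hN
        push_cast at hN
        omega
      · rw [f1, tm_e2]
        exact ⟨by omega, h2⟩
    have m3 : y.1 - x.1 < 0 → lo ≤ c.tm x - c.p →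
        ∃ w : grid.Walk x y, w.length = N + 1 ∧ ∀ z ∈ w.support, lo ≤ c.tm z ∧ c.tm z ≤ hi := by
      intro h1 h2
      refine c.win_step hx (adj_e' x false) (ih _ y ?_ ?_ hy)
      · rw [e3]
        simp only
        rw [abs_of_nonpos (show y.1 - (x.1 - 1) ≤ 0 by omega)]
        rw [abs_of_neg h1] at hN
        push_cast at hN
        omega
      · rw [f2, tm_e1]
        exact ⟨h2, by omega⟩
    have m4 : y.2 - x.2 < 0 → lo ≤ c.tm x - c.q →
        ∃ w : grid.Walk x y, w.length = N + 1 ∧ ∀ z ∈ w.support, lo ≤ c.tm z ∧ c.tm z ≤ hi := by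
      intro h1 h2
      refine c.win_step hx (adj_e' x true) (ih _ y ?_ ?_ hy)
      · rw [e4]
        simp only
        rw [abs_of_nonpos (show y.2 - (x.2 - 1) ≤ 0 by omega)]
        rw [abs_of_neg h1] at hN
        push_cast at hN
        omega
      · rw [f2, tm_e2]
        exact ⟨h2, by omega⟩
    rcases lt_trichotomy (y.1 - x.1) 0 with h1 | h1 | h1
    · rcases lt_or_ge 0 (y.2 - x.2) with h2 | h2
      · by_cases h3 : lo ≤ c.tm x - c.p
        · exact m3 h1 h3
        · exact m2 h2 (by omega)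
      · refine m3 h1 ?_
        have h3 : c.p * (y.1 - x.1) ≤ -c.p := by nlinarith
        have h4 : c.q * (y.2 - x.2) ≤ 0 := mul_nonpos_of_nonneg_of_nonpos hq h2
        omega
    · rw [h1] at hT hN
      rcases lt_trichotomy (y.2 - x.2) 0 with h2 | h2 | h2
      · refine m4 h2 ?_
        have h4 : c.q * (y.2 - x.2) ≤ -c.q := by nlinarith
        omega
      · rw [h2] at hN
        simp at hN
        omega
      · refine m2 h2 ?_
        have h4 : c.q ≤ c.q * (y.2 - x.2) := by nlinarith
        omega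
    · rcases lt_or_ge (y.2 - x.2) 0 with h2 | h2
      · by_cases h3 : lo ≤ c.tm x - c.q
        · exact m4 h2 h3
        · exact m1 h1 (by omega)
      · refine m1 h1 ?_
        have h3 : c.p ≤ c.p * (y.1 - x.1) := by nlinarith
        have h4 : 0 ≤ c.q * (y.2 - x.2) := mul_nonneg hq h2
        omega

/-! ### Slabs -/

variable {c}

theorem slab_mono {s t s' t' : ℤ} (h1 : s' ≤ s) (h2 : t ≤ t') : c.slab s t ⊆ c.slab s' t' := by
  have hL := c.L_pos
  have h3 : c.L * s' ≤ c.L * s := mul_le_mul_of_nonneg_left h1 (by omega)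
  have h4 : c.L * t ≤ c.L * t' := mul_le_mul_of_nonneg_left h2 (by omega)
  rintro e ⟨e1, e2, e3, e4⟩
  exact ⟨by omega, by omega, by omega, by omega⟩

theorem slab_subset_rows (s t : ℤ) : c.slab s t ⊆ c.rows s t := fun _ h => ⟨h.1, h.2.2.1⟩

theorem rows_disjoint {s t s' t' : ℤ} (h : t ≤ s') : Disjoint (c.rows s t) (c.rows s' t') := by
  have hL := c.L_pos
  have h3 : c.L * t ≤ c.L * s' := mul_le_mul_of_nonneg_left h (by omega)
  rw [Set.disjoint_left]
  rintro e ⟨_, e2⟩ ⟨e3, _⟩
  omega

theorem slab_disjoint {s t s' t' : ℤ} (h : t ≤ s') : Disjoint (c.slab s t) (c.slab s' t') :=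
  (rows_disjoint h).mono (slab_subset_rows _ _) (slab_subset_rows _ _)

theorem rows_mono {s t s' t' : ℤ} (h1 : s' ≤ s) (h2 : t ≤ t') : c.rows s t ⊆ c.rows s' t' := by
  have hL := c.L_pos
  have h3 : c.L * s' ≤ c.L * s := mul_le_mul_of_nonneg_left h1 (by omega)
  have h4 : c.L * t ≤ c.L * t' := mul_le_mul_of_nonneg_left h2 (by omega)
  rintro e ⟨e1, e2⟩
  exact ⟨by omega, by omega⟩

/-- Walks inside the open window are slab walks. -/
theorem slab_of_win {s t : ℤ} {x y : V} {w : grid.Walk x y}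
    (h : ∀ z ∈ w.support, c.L * s + 1 ≤ c.tm z ∧ c.tm z ≤ c.L * t - 1) : ∀ e ∈ wedges w, e ∈ c.slab s t := by
  intro e he
  obtain ⟨h1, h2⟩ := wedges_support w he
  have h3 := h _ h1
  have h4 := h _ h2
  exact ⟨by omega, by omega, by omega, by omega⟩

/-- The vertices of a slab walk have times in the slab. -/
theorem tm_of_slab {s t : ℤ} {x y : V} {w : grid.Walk x y} (h : ∀ e ∈ wedges w, e ∈ c.slab s t)
    (hx : c.L * s ≤ c.tm x ∧ c.tm x ≤ c.L * t) : ∀ z ∈ w.support, c.L * s ≤ c.tm z ∧ c.tm z ≤ c.L * t := by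
  induction w with
  | nil =>
    intro z hz
    rw [SimpleGraph.Walk.support_nil, List.mem_singleton] at hz
    subst hz
    exact hx
  | @cons u v y' hadj w ih =>
    intro z hz
    rw [SimpleGraph.Walk.support_cons, List.mem_cons] at hz
    rcases hz with rfl | hz
    · exact hx
    · refine ih (fun e he => h e ?_) ?_ z hz
      · unfold wedges at he ⊢
        rw [SimpleGraph.Walk.edges_cons, List.map_cons]
        exact List.mem_cons_of_mem _ he
      · have h1 : ke s(u, v) ∈ c.slab s t := h _ (by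
          unfold wedges
          rw [SimpleGraph.Walk.edges_cons, List.map_cons]
          exact List.mem_cons_self)
        obtain ⟨s', hs | hs⟩ := hadj
        · rw [hs, ke_dir] at h1
          obtain ⟨e1, e2, e3, e4⟩ := h1
          have := c.tm_dir_nonneg s'
          simp only at e1 e2 e3 e4
          rw [hs]
          rw [tm_add] at e2 e4 ⊢
          exact ⟨by omega, by omega⟩
        · rw [hs, ke_dir'] at h1
          obtain ⟨e1, e2, e3, e4⟩ := h1
          simp only at e1 e2 e3 e4
          exact ⟨e1, by omega⟩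

/-- The inner neighbour. -/
private theorem inner {s t : ℤ} (hst : s < t) {x : V} (hx : c.L * s ≤ c.tm x ∧ c.tm x ≤ c.L * t) :
    ∃ (x' : V) (w : grid.Walk x x') (w' : grid.Walk x' x), w.length ≤ 1 ∧ w'.length ≤ 1 ∧
      (∀ e ∈ wedges w, e ∈ c.slab s t) ∧ (∀ e ∈ wedges w', e ∈ c.slab s t) ∧
      (c.L * s + 1 ≤ c.tm x' ∧ c.tm x' ≤ c.L * t - 1) ∧ nm (x' - x) ≤ 1 := by
  have hL := c.L_eq
  have hp := c.hp
  have hq := c.hq
  have h0 : c.L * s + c.L ≤ c.L * t := by
    have : c.L * (s + 1) ≤ c.L * t := mul_le_mul_of_nonneg_left (by omega) (by have := c.L_pos; omega)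
    linarith [mul_add c.L s 1]
  unfold M at hL
  by_cases h1 : c.tm x = c.L * s
  · have hk : ke s(x, x + dir false) = (x, false) := ke_dir x false
    have hk' : ke s(x + dir false, x) = (x, false) := ke_dir' x false
    have hm : (x, false) ∈ c.slab s t := by
      refine ⟨by simp only; omega, ?_, by simp only; omega, ?_⟩ <;> simp only [tm_add, tm_e1] <;> omega
    refine ⟨x + dir false, SimpleGraph.Walk.cons (adj_e x false) .nil,
      SimpleGraph.Walk.cons (adj_e x false).symm .nil, by simp, by simp, ?_, ?_, ?_, ?_⟩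
    · intro e he
      unfold wedges at he
      rw [SimpleGraph.Walk.edges_cons, SimpleGraph.Walk.edges_nil, List.map_cons, List.map_nil,
        List.mem_singleton, hk] at he
      rw [he]; exact hm
    · intro e he
      unfold wedges at he
      rw [SimpleGraph.Walk.edges_cons, SimpleGraph.Walk.edges_nil, List.map_cons, List.map_nil,
        List.mem_singleton, hk'] at he
      rw [he]; exact hm
    · rw [tm_add, tm_e1]; constructor <;> omega
    · rw [add_sub_cancel_left, nm_dir]
  by_cases h2 : c.tm x = c.L * t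
  · have e0 : x - dir false + dir false = x := by simp
    have hk : ke s(x, x - dir false) = (x - dir false, false) := by
      have := ke_dir' (x - dir false) false
      rwa [e0] at this
    have hk' : ke s(x - dir false, x) = (x - dir false, false) := by
      have := ke_dir (x - dir false) false
      rwa [e0] at this
    have hm : (x - dir false, false) ∈ c.slab s t := by
      refine ⟨?_, ?_, ?_, ?_⟩ <;> simp only [tm_add, tm_sub, tm_e1] <;> omega
    refine ⟨x - dir false, SimpleGraph.Walk.cons (adj_e' x false) .nil,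
      SimpleGraph.Walk.cons (adj_e' x false).symm .nil, by simp, by simp, ?_, ?_, ?_, ?_⟩
    · intro e he
      unfold wedges at he
      rw [SimpleGraph.Walk.edges_cons, SimpleGraph.Walk.edges_nil, List.map_cons, List.map_nil,
        List.mem_singleton, hk] at he
      rw [he]; exact hm
    · intro e he
      unfold wedges at he
      rw [SimpleGraph.Walk.edges_cons, SimpleGraph.Walk.edges_nil, List.map_cons, List.map_nil,
        List.mem_singleton, hk'] at he
      rw [he]; exact hm
    · rw [tm_sub, tm_e1]; constructor <;> omega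
    · rw [show x - dir false - x = -dir false by abel, nm_neg, nm_dir]
  · refine ⟨x, .nil, .nil, by simp, by simp, ?_, ?_, ⟨by omega, by omega⟩, ?_⟩
    · intro e he; simp [wedges] at he
    · intro e he; simp [wedges] at he
    · rw [sub_self, nm_zero]; norm_num

/-- Two vertices of a slab are joined by a slab walk of almost minimal length. -/
theorem slab_conn {s t : ℤ} (hst : s < t) {x y : V} (hx : c.L * s ≤ c.tm x ∧ c.tm x ≤ c.L * t)
    (hy : c.L * s ≤ c.tm y ∧ c.tm y ≤ c.L * t) :
    ∃ w : grid.Walk x y, (∀ e ∈ wedges w, e ∈ c.slab s t) ∧ (w.length : ℝ) ≤ nm (y - x) + 4 := by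
  obtain ⟨x', w1, -, l1, -, s1, -, hx', n1⟩ := inner hst hx
  obtain ⟨y', -, w3, -, l3, -, s3, hy', n3⟩ := inner hst hy
  have h0 : c.L * s + c.L ≤ c.L * t := by
    have : c.L * (s + 1) ≤ c.L * t := mul_le_mul_of_nonneg_left (by omega) (by have := c.L_pos; omega)
    linarith [mul_add c.L s 1]
  have hL := c.L_eq
  obtain ⟨w2, l2, s2⟩ := c.win_walk (lo := c.L * s + 1) (hi := c.L * t - 1) (by omega)
    (|y'.1 - x'.1| + |y'.2 - x'.2|).toNat x' y'
    (by rw [Int.toNat_of_nonneg]; positivity) hx' hy'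
  refine ⟨w1.append (w2.append w3), ?_, ?_⟩
  · intro e he
    rw [wedges_append, wedges_append, List.mem_append, List.mem_append] at he
    rcases he with he | he | he
    · exact s1 e he
    · exact slab_of_win s2 e he
    · exact s3 e he
  · have h2 : (w2.length : ℝ) = nm (y' - x') := by
      rw [l2]
      unfold nm
      have h3 : (((|y'.1 - x'.1| + |y'.2 - x'.2|).toNat : ℤ) : ℝ) = ((|y'.1 - x'.1| + |y'.2 - x'.2| : ℤ) : ℝ) := by
        rw [Int.toNat_of_nonneg]; positivity
      rw [← Int.cast_natCast, h3, Prod.fst_sub, Prod.snd_sub]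
      push_cast
      rfl
    have h4 : nm (y' - x') ≤ nm (y - x) + 2 := by
      have e : y' - x' = (y' - y) + ((y - x) + (x - x')) := by abel
      rw [e]
      have h5 := nm_add_le (y' - y) ((y - x) + (x - x'))
      have h6 := nm_add_le (y - x) (x - x')
      rw [nm_sub_comm x x'] at h6
      linarith
    rw [SimpleGraph.Walk.length_append, SimpleGraph.Walk.length_append]
    push_cast
    have h5 : (w1.length : ℝ) ≤ 1 := by exact_mod_cast l1
    have h6 : (w3.length : ℝ) ≤ 1 := by exact_mod_cast l3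
    linarith

theorem slab_ne {s t : ℤ} (hst : s < t) {x y : V} (hx : c.L * s ≤ c.tm x ∧ c.tm x ≤ c.L * t)
    (hy : c.L * s ≤ c.tm y ∧ c.tm y ≤ c.L * t) : Nonempty (WK (c.slab s t) x y) := by
  obtain ⟨w, hw, -⟩ := slab_conn hst hx hy
  exact ⟨⟨w, hw⟩⟩

/-- There are slab walks between grid points. -/
theorem ne_vt (a : Pt) {n : ℕ} (hn : 1 ≤ n) (y : ℤ) :
    Nonempty (WK (c.slab a.1 (a.1 + n)) (c.vt a) (c.vt (a + ((n : ℤ), y)))) := by
  have hL := c.L_pos
  have h1 : c.L * a.1 ≤ c.L * (a.1 + n) := mul_le_mul_of_nonneg_left (by omega) (by omega)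
  refine slab_ne (by omega) ?_ ?_
  · rw [tm_vt]; exact ⟨le_rfl, h1⟩
  · rw [tm_vt]; exact ⟨h1, le_rfl⟩

end Co

end Pool.Agent.W_1b8d5d_p
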