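import Pool.Agent.W_1b8d5d_p.FrLstar

/-!
MP_1b8d5d_pr, Track P, frame: change of the slope of the frame (the costs do not depend on the slope).
-/

namespace Pool.Agent.W_1b8d5d_p

open MeasureTheory Set
open Pool.Agent.W_1b8d5d_h85 (V nm dir Edge Env grid wedges cost rf)

noncomputable section

variable {F : Fm} {d : Dr} {K C0 C1 t W θ : ℝ} {k : ℕ} {η : Env}

/-- The direction with the slope changed by `r`. -/
def Dr.tilt (d : Dr) (r : ℝ) : Dr := ⟨d.h1, d.h2, d.v + r⟩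

theorem Adm.tilt {κ : ℝ} (hd : Adm F κ d) (r : ℝ) : Adm F κ (d.tilt r) := ⟨hd.κ0, hd.h1n, hd.h2n, hd.h1b, hd.h2b, hd.loop⟩

theorem X_tilt (F : Fm) (d : Dr) (r : ℝ) (η : Env) (a : Pt) (n : ℕ) (y : ℤ) :
    X F (d.tilt r) η a n y = X F d η a n y := rfl

theorem XP_tilt (F : Fm) (d : Dr) (r : ℝ) (η : Env) (P Q : Pt) : XP F (d.tilt r) η P Q = XP F d η P Q := rfl

theorem lat_tilt (d : Dr) (r : ℝ) (P : Pt) : lat (d.tilt r) P = lat d P - r * P.1 := by
  unfold lat Dr.tilt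
  simp only
  ring

theorem Sl.tilt (h : Sl F d K C0 C1) (r : ℝ) : Sl F (d.tilt r) K C0 C1 :=
  ⟨h.k0, h.C00, h.C10, h.meas, h.dep, h.shift, h.mp, h.diag, h.tri, h.cut, h.low⟩

/-- The pointwise comparison. -/
theorem slope_pt (h : Sl F d K C0 C1) (ht : 0 ≤ t) (htK : t ≤ K) (hW : 0 < W) (hθ : 0 < θ) {r : ℝ} {J : ℕ}
    (hJ : |r| * k ≤ J * W) (o : ℝ) (η : Env) :
    Real.exp (θ * TL F d t o W k η) ≤ Real.exp (θ * (t * (|r| * k))) *
      ∑ j ∈ Finset.Icc (-(J : ℤ)) J, Real.exp (θ * TL F (d.tilt r) t (o + j * W) W k η) := by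
  obtain ⟨S, hS⟩ : ∃ S, S = ∑ j ∈ Finset.Icc (-(J : ℤ)) J, Real.exp (θ * TL F (d.tilt r) t (o + j * W) W k η) := ⟨_, rfl⟩
  rw [← hS]
  have h' := h.tilt r
  have hterm : ∀ j : ℤ, |j| ≤ J → Real.exp (θ * TL F (d.tilt r) t (o + j * W) W k η) ≤ S := by
    intro j hj
    rw [hS]
    exact Finset.single_le_sum (f := fun j : ℤ => Real.exp (θ * TL F (d.tilt r) t (o + j * W) W k η))
      (fun j _ => (Real.exp_pos _).le) (Finset.mem_Icc.2 (abs_le.1 hj))
  have hS1 : 1 ≤ S := by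
    refine le_trans ?_ (hterm 0 (by simp))
    exact Real.one_le_exp (mul_nonneg hθ.le (TL_nonneg h' htK η))
  have hE1 : 1 ≤ Real.exp (θ * (t * (|r| * k))) :=
    Real.one_le_exp (mul_nonneg hθ.le (mul_nonneg ht (mul_nonneg (abs_nonneg _) (Nat.cast_nonneg _))))
  obtain ⟨E, hE⟩ : ∃ E, E = Real.exp (θ * (t * (|r| * k))) := ⟨_, rfl⟩
  rw [← hE] at hE1 ⊢
  have hR1 : 1 ≤ E * S := by nlinarith
  have hRpos : 0 < E * S := by linarith
  have key : ∀ P Q : Pt, (P, Q) ∈ InB d o W k → Real.exp (θ * (t * |lat d Q - lat d P| - XP F d η P Q)) ≤ E * S := by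
    rintro P Q ⟨h1, h2, h3, h4, h5, h6⟩
    simp only at h1 h2 h3 h4 h5 h6
    have e1 : (0 : ℝ) ≤ P.1 := by exact_mod_cast h1
    have e2 : (P.1 : ℝ) ≤ Q.1 := by exact_mod_cast h2
    have e3 : (Q.1 : ℝ) ≤ k := by exact_mod_cast h3
    have hrP : |r * P.1| ≤ J * W := by
      rw [abs_mul, abs_of_nonneg e1]
      exact (mul_le_mul_of_nonneg_left (e2.trans e3) (abs_nonneg r)).trans hJ
    have hrP' := abs_le.1 hrP
    -- the cell of `P` in the new frame
    obtain ⟨j, hj1, hj2⟩ : ∃ j : ℤ, o + j * W ≤ lat (d.tilt r) P ∧ lat (d.tilt r) P < o + j * W + W := by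
      refine ⟨⌊(lat (d.tilt r) P - o) / W⌋, ?_, ?_⟩
      · have := Int.floor_le ((lat (d.tilt r) P - o) / W)
        rw [le_div_iff₀ hW] at this
        linarith
      · have := Int.lt_floor_add_one ((lat (d.tilt r) P - o) / W)
        rw [div_lt_iff₀ hW] at this
        linarith
    have hjJ : |j| ≤ J := by
      rw [lat_tilt] at hj1 hj2
      rw [abs_le]
      constructor
      · by_contra hcon
        rw [not_le] at hcon
        have h7 : (j : ℝ) + 1 ≤ -(J : ℝ) := by exact_mod_cast hcon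
        nlinarith
      · by_contra hcon
        rw [not_le] at hcon
        have h7 : (J : ℝ) + 1 ≤ j := by exact_mod_cast hcon
        nlinarith
    have h8 := le_TL h' htK η (P := P) (Q := Q) (o := o + j * W) (W := W) (k := k) (t := t) ⟨h1, h2, h3, h4, hj1, hj2⟩
    have h9 : |lat d Q - lat d P| ≤ |lat (d.tilt r) Q - lat (d.tilt r) P| + |r| * k := by
      have e4 : lat d Q - lat d P = (lat (d.tilt r) Q - lat (d.tilt r) P) + r * ((Q.1 : ℝ) - P.1) := by
        rw [lat_tilt, lat_tilt]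
        ring
      rw [e4]
      refine (abs_add_le _ _).trans (add_le_add le_rfl ?_)
      rw [abs_mul, abs_of_nonneg (by linarith : (0 : ℝ) ≤ (Q.1 : ℝ) - P.1)]
      exact mul_le_mul_of_nonneg_left (by linarith) (abs_nonneg _)
    have h10 := mul_le_mul_of_nonneg_left h9 ht
    rw [XP_tilt] at h8
    calc Real.exp (θ * (t * |lat d Q - lat d P| - XP F d η P Q))
        ≤ Real.exp (θ * (t * (|r| * k)) + θ * TL F (d.tilt r) t (o + j * W) W k η) := by
          refine Real.exp_le_exp.2 ?_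
          rw [← mul_add]
          exact mul_le_mul_of_nonneg_left (by linarith) hθ.le
      _ = E * Real.exp (θ * TL F (d.tilt r) t (o + j * W) W k η) := by rw [Real.exp_add, hE]
      _ ≤ E * S := mul_le_mul_of_nonneg_left (hterm j hjJ) (by linarith)
  have hL : TL F d t o W k η ≤ Real.log (E * S) / θ := by
    refine TL_le (div_nonneg (Real.log_nonneg hR1) hθ.le) fun P Q hPQ => ?_
    rw [le_div_iff₀ hθ, mul_comm]
    exact (Real.le_log_iff_exp_le hRpos).2 (key P Q hPQ)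
  rw [le_div_iff₀ hθ] at hL
  refine (Real.le_log_iff_exp_le hRpos).1 ?_
  linarith

/-- **CHANGE OF SLOPE.** -/
theorem slope_int (h : Sl F d K C0 C1) (ht : 0 ≤ t) (htK : t ≤ K) (hW : 0 < W) (hθ : 0 < θ) {r B : ℝ} {J : ℕ}
    (hJ : |r| * k ≤ J * W) (hB : ∀ o, ∫ η, Real.exp (θ * TL F (d.tilt r) t o W k η) ∂(law F) ≤ B) (o : ℝ) :
    ∫ η, Real.exp (θ * TL F d t o W k η) ∂(law F) ≤ Real.exp (θ * (t * (|r| * k))) * ((2 * J + 1) * B) := by
  have h' := h.tilt r
  have h1 := integral_mono (expTL_int (o := o) (W := W) (k := k) h htK hθ.le)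
    ((integrable_finsetSum (Finset.Icc (-(J : ℤ)) J) fun j _ =>
      expTL_int (o := o + j * W) (W := W) (k := k) h' htK hθ.le).const_mul (Real.exp (θ * (t * (|r| * k)))))
    (fun η => slope_pt h ht htK hW hθ hJ o η)
  refine h1.trans ?_
  rw [integral_const_mul]
  refine mul_le_mul_of_nonneg_left ?_ (Real.exp_pos _).le
  rw [integral_finsetSum (Finset.Icc (-(J : ℤ)) J) fun (j : ℤ) _ =>
    expTL_int (o := o + (j : ℝ) * W) (W := W) (k := k) h' htK hθ.le]
  refine (Finset.sum_le_sum (s := Finset.Icc (-(J : ℤ)) J) fun (j : ℤ) _ => hB (o + (j : ℝ) * W)).trans ?_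
  rw [Finset.sum_const, nsmul_eq_mul, Int.card_Icc]
  have e1 : (((J : ℤ) + 1 - -(J : ℤ)).toNat : ℝ) = 2 * J + 1 := by
    have : (((J : ℤ) + 1 - -(J : ℤ)).toNat : ℤ) = 2 * J + 1 := by omega
    exact_mod_cast this
  rw [e1]

end

end Pool.Agent.W_1b8d5d_p
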