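import Pool.Agent.W_1b8d5d_p.FrDefs

/-!
MP_1b8d5d_pr, Track P. Restricted passage times `TR S τ x y`.
-/

namespace Pool.Agent.W_1b8d5d_p

open MeasureTheory Set
open Pool.Agent.W_1b8d5d_h85

variable {a b : ℝ} {τ : Env} {S S' : Set Edge} {x y z : V}

theorem TR_bdd (hτ : Bd a b τ) (ha : 0 ≤ a) (S : Set Edge) (x y : V) :
    BddBelow (Set.range fun w : WK S x y => cost τ w.1) := by
  refine ⟨0, ?_⟩
  rintro r ⟨w, rfl⟩
  have h := le_cost hτ w.1
  have h1 : 0 ≤ a * (w.1.length : ℝ) := mul_nonneg ha (Nat.cast_nonneg _)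
  exact h1.trans h

/-- The restricted passage time is at most the cost of a walk in `S`. -/
theorem TR_le (hτ : Bd a b τ) (ha : 0 ≤ a) (w : grid.Walk x y) (hw : ∀ e ∈ wedges w, e ∈ S) :
    TR S τ x y ≤ cost τ w :=
  ciInf_le (TR_bdd hτ ha S x y) (⟨w, hw⟩ : WK S x y)

theorem le_TR (hne : Nonempty (WK S x y)) {r : ℝ} (h : ∀ w : grid.Walk x y, (∀ e ∈ wedges w, e ∈ S) → r ≤ cost τ w) :
    r ≤ TR S τ x y :=
  le_ciInf fun w => h w.1 w.2

theorem wedges_bypass_subset (w : grid.Walk x y) {e : Edge} (he : e ∈ wedges w.bypass) : e ∈ wedges w := by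
  unfold wedges at he ⊢
  rw [List.mem_map] at he ⊢
  obtain ⟨e', he', rfl⟩ := he
  exact ⟨e', w.edges_bypass_subset_edges he', rfl⟩

theorem cost_bypass (hτ : Bd a b τ) (ha : 0 ≤ a) (w : grid.Walk x y) : cost τ w.bypass ≤ cost τ w := by
  unfold cost wedges
  refine List.Sublist.sum_le_sum ((w.edges_bypass_sublist_edges.map ke).map τ) ?_
  intro t ht
  obtain ⟨e, -, rfl⟩ := List.mem_map.1 ht
  exact ha.trans (hτ e).1

private theorem frw_finite (x : V) : (grid.neighborSet x).Finite := by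
  refine Set.Finite.subset (Set.toFinite
    ({x + dir true, x + dir false, x - dir true, x - dir false} : Set V)) ?_
  rintro y ⟨s, h | h⟩
  · cases s <;> simp [h]
  · cases s <;> simp [h]

private noncomputable instance frw_lf : grid.LocallyFinite := fun x => (frw_finite x).fintype

/-- The restricted passage time is attained by a path. -/
theorem TR_min (hτ : Bd a b τ) (ha : 0 < a) (hne : Nonempty (WK S x y)) :
    ∃ w : grid.Walk x y, w.IsPath ∧ (∀ e ∈ wedges w, e ∈ S) ∧ cost τ w = TR S τ x y := by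
  classical
  have hne' := hne
  obtain ⟨⟨w₀, hw₀⟩⟩ := hne'
  obtain ⟨N, hN⟩ := exists_nat_gt (max (b * w₀.length / a) w₀.length)
  have hN1 : b * w₀.length < a * N := by
    have := (le_max_left _ _).trans_lt hN
    rw [div_lt_iff₀ ha] at this
    linarith
  have hN2 : w₀.length < N := by
    have := (le_max_right _ _).trans_lt hN
    exact_mod_cast this
  set I := (grid.finsetWalkLengthLT N x y).filter fun w => ∀ e ∈ wedges w, e ∈ S with hI
  have hI1 : I.Nonempty := ⟨w₀, Finset.mem_filter.2 ⟨SimpleGraph.mem_finsetWalkLengthLT_iff.2 hN2, hw₀⟩⟩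
  obtain ⟨w₁, hw₁, hmin⟩ := Finset.exists_min_image _ (fun w => cost τ w) hI1
  have hmin' : ∀ w : grid.Walk x y, (∀ e ∈ wedges w, e ∈ S) → cost τ w₁ ≤ cost τ w := by
    intro w hw
    by_cases h : w.length < N
    · exact hmin w (Finset.mem_filter.2 ⟨SimpleGraph.mem_finsetWalkLengthLT_iff.2 h, hw⟩)
    · push Not at h
      have h1 := hmin w₀ (Finset.mem_filter.2 ⟨SimpleGraph.mem_finsetWalkLengthLT_iff.2 hN2, hw₀⟩)
      have h2 := cost_le hτ w₀
      have h3 := le_cost hτ w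
      have h4 : a * (N : ℝ) ≤ a * w.length := by
        have : (N : ℝ) ≤ w.length := by exact_mod_cast h
        exact mul_le_mul_of_nonneg_left this ha.le
      linarith
  have hw₁' : ∀ e ∈ wedges w₁.bypass, e ∈ S := fun e he =>
    (Finset.mem_filter.1 hw₁).2 e (wedges_bypass_subset w₁ he)
  refine ⟨w₁.bypass, w₁.bypass_isPath, hw₁', le_antisymm ?_ (TR_le hτ ha.le _ hw₁')⟩
  exact le_ciInf fun w => (cost_bypass hτ ha.le w₁).trans (hmin' w.1 w.2)

theorem WK_append (hxy : Nonempty (WK S x y)) (hyz : Nonempty (WK S' y z)) {S'' : Set Edge} (h1 : S ⊆ S'')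
    (h2 : S' ⊆ S'') : Nonempty (WK S'' x z) := by
  obtain ⟨⟨w, hw⟩⟩ := hxy
  obtain ⟨⟨w', hw'⟩⟩ := hyz
  refine ⟨⟨w.append w', ?_⟩⟩
  intro e he
  rw [wedges_append, List.mem_append] at he
  exact he.elim (fun h => h1 (hw e h)) fun h => h2 (hw' e h)

/-- Concatenation. -/
theorem TR_triangle (hτ : Bd a b τ) (ha : 0 ≤ a) (hxy : Nonempty (WK S x y)) (hyz : Nonempty (WK S' y z))
    {S'' : Set Edge} (h1 : S ⊆ S'') (h2 : S' ⊆ S'') : TR S'' τ x z ≤ TR S τ x y + TR S' τ y z := by
  have key : ∀ (w : WK S x y) (w' : WK S' y z), TR S'' τ x z ≤ cost τ w.1 + cost τ w'.1 := by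
    intro w w'
    rw [← cost_append]
    refine TR_le hτ ha _ ?_
    intro e he
    rw [wedges_append, List.mem_append] at he
    exact he.elim (fun h => h1 (w.2 e h)) fun h => h2 (w'.2 e h)
  have h3 : ∀ w : WK S x y, TR S'' τ x z - cost τ w.1 ≤ TR S' τ y z := fun w =>
    le_ciInf fun w' => by linarith [key w w']
  have h4 : TR S'' τ x z - TR S' τ y z ≤ TR S τ x y := le_ciInf fun w => by linarith [h3 w]
  linarith

/-- A walk in `S` before a walk. -/
theorem TR_cons_le (hτ : Bd a b τ) (ha : 0 ≤ a) (w : grid.Walk x y) (hw : ∀ e ∈ wedges w, e ∈ S)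
    (hyz : Nonempty (WK S y z)) : TR S τ x z ≤ b * w.length + TR S τ y z := by
  have h := TR_triangle (x := x) (y := y) (z := z) (S := S) (S' := S) hτ ha ⟨⟨w, hw⟩⟩ hyz (le_refl S) (le_refl S)
  have h1 := TR_le hτ ha w hw
  have h2 := cost_le hτ w
  linarith

theorem TR_concat_le (hτ : Bd a b τ) (ha : 0 ≤ a) (w : grid.Walk y z) (hw : ∀ e ∈ wedges w, e ∈ S)
    (hxy : Nonempty (WK S x y)) : TR S τ x z ≤ TR S τ x y + b * w.length := by
  have h := TR_triangle (x := x) (y := y) (z := z) (S := S) (S' := S) hτ ha hxy ⟨⟨w, hw⟩⟩ (le_refl S) (le_refl S)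
  have h1 := TR_le hτ ha w hw
  have h2 := cost_le hτ w
  linarith

theorem TR_anti (hτ : Bd a b τ) (ha : 0 ≤ a) (hne : Nonempty (WK S x y)) (h : S ⊆ S') : TR S' τ x y ≤ TR S τ x y :=
  le_ciInf fun w => TR_le hτ ha w.1 fun e he => h (w.2 e he)

theorem T_le_TR (hτ : Bd a b τ) (ha : 0 ≤ a) (hne : Nonempty (WK S x y)) : T τ x y ≤ TR S τ x y :=
  le_ciInf fun w => T_le_cost hτ ha w.1

theorem TR_lower (hτ : Bd a b τ) (ha : 0 ≤ a) (hne : Nonempty (WK S x y)) : a * nm (y - x) ≤ TR S τ x y :=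
  (T_lower hτ ha x y).trans (T_le_TR hτ ha hne)

theorem TR_nonneg (hτ : Bd a b τ) (ha : 0 ≤ a) (S : Set Edge) (x y : V) : 0 ≤ TR S τ x y := by
  refine Real.iInf_nonneg fun w => ?_
  exact (mul_nonneg ha (Nat.cast_nonneg _)).trans (le_cost hτ w.1)

/-- The restricted passage time depends only on the edges of `S`. -/
theorem TR_congr {τ τ' : Env} (S : Set Edge) (x y : V) (h : ∀ e ∈ S, τ e = τ' e) : TR S τ x y = TR S τ' x y := by
  unfold TR
  refine iInf_congr fun w => ?_
  exact cost_congr w.1 fun e he => h e (w.2 e he)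

theorem TR_dep (S : Set Edge) (x y : V) : DependsOn (fun τ : Env => TR S τ x y) S := fun _ _ h =>
  TR_congr S x y h

/-- Monotonicity in the environment. -/
theorem TR_mono {τ τ' : Env} (hτ : Bd a b τ) (ha : 0 ≤ a) (h : ∀ e ∈ S, τ e ≤ τ' e) (x y : V) :
    TR S τ x y ≤ TR S τ' x y := by
  by_cases hne : Nonempty (WK S x y)
  · refine le_ciInf fun w => (TR_le hτ ha w.1 w.2).trans (cost_mono w.1 fun e he => h e (w.2 e he))
  · rw [not_nonempty_iff] at hne
    unfold TR
    rw [Real.iInf_of_isEmpty, Real.iInf_of_isEmpty]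

/-- Measurability. -/
theorem cost_meas {x y : V} (w : grid.Walk x y) : Measurable fun τ : Env => cost τ w := by
  unfold cost
  induction wedges w with
  | nil => simp
  | cons e l ih =>
    simp only [List.map_cons, List.sum_cons]
    exact (measurable_pi_apply e).add ih

theorem TR_meas (S : Set Edge) (x y : V) : Measurable fun τ : Env => TR S τ x y := by
  set Λ := {l : List Edge // ∃ w : WK S x y, wedges w.1 = l} with hΛ
  have h : ∀ τ : Env, TR S τ x y = ⨅ l : Λ, (l.1.map τ).sum := by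
    intro τ
    unfold TR
    have hs : Function.Surjective (fun w : WK S x y => (⟨wedges w.1, w, rfl⟩ : Λ)) := by
      rintro ⟨l, w, rfl⟩
      exact ⟨w, rfl⟩
    exact hs.iInf_comp (g := fun l : Λ => (l.1.map τ).sum)
  have h1 : (fun τ : Env => TR S τ x y) = fun τ => ⨅ l : Λ, (l.1.map τ).sum := funext h
  rw [h1]
  refine Measurable.iInf fun l => ?_
  generalize l.1 = l'
  induction l' with
  | nil => simp
  | cons e l ih =>
    simp only [List.map_cons, List.sum_cons]
    exact (measurable_pi_apply e).add ih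

end Pool.Agent.W_1b8d5d_p
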