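import Pool.Agent.W_1b8d5d_p.FrLuck

/-!
MP_1b8d5d_pr, Track P. The frame, assembly: line luck, hard passages and box luck from the travellers of one scale. The slope `d.v`
is the slope of the moving frame.
-/

namespace Pool.Agent.W_1b8d5d_p

open MeasureTheory Set
open Pool.Agent.W_1b8d5d_h85

noncomputable section

/-- The inputs of the frame at one scale: travellers along a line of slope `d.v` in all levels of the slab `[0, n]` from one far
point, references, lucks of starting points. -/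
structure FrHyp (F : Fm) (κ k1 K1 : ℝ) (d : Dr) (n T : ℕ) (ys R E C : ℝ) : Prop where
  adm : Adm F κ d
  lat : Lat F κ k1 K1 d
  n1 : 1 ≤ n
  T1 : 1 ≤ T
  E1 : k1 ≤ E
  C1 : 1 ≤ C
  tr : ∀ t : ℕ, t ≤ n → ∀ y : ℤ, |(y : ℝ) - (ys + d.v * t)| ≤ R →
    ep F d (T + t) y ≤ C * E + k1 / 8 * |(y : ℝ) - (ys + d.v * t)|
  ref : ∀ m : ℕ, 1 ≤ m → m ≤ 4 * (T + n) → ∃ y, ep F d m y ≤ E
  epe : ∀ m : ℕ, 1 ≤ m → m ≤ 4 * (T + n) → ∀ y, ep F d m y ≤ e F d m y + E
  vv : ∀ m : ℕ, 1 ≤ m → m ≤ 8 * (T + n) → ∫ η, max (VV F d η 0 m) 0 ∂(law F) ≤ E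

variable {F : Fm} {κ k1 K1 : ℝ} {d : Dr} {n T : ℕ} {ys R E C : ℝ}

theorem FrHyp.E0 (h : FrHyp F κ k1 K1 d n T ys R E C) : 0 < E := h.lat.k0.trans_le h.E1

/-- **LINE LUCK.** -/
theorem FrHyp.line (h : FrHyp F κ k1 K1 d n T ys R E C) (hR : bb F * F.co.L * n ≤ k1 * (R - 1)) (l : ℝ) :
    ∫ η, max (LL F d k1 0 n l η) 0 ∂(law F) ≤ (4 * C + 7) * E := by
  have hk := h.lat.k0
  have hE := h.E0
  have hC := h.C1
  have hE1 := h.E1
  have hCE : 0 < C * E := by positivity
  have h1 := box_mean h.adm hk (n := n) (T := T) h.T1 (A := C * E + k1 / 8) (by positivity) hE (x0 := l) (x1 := l)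
    le_rfl (o := ⌊l - ys⌋) (by
      intro t ht p hp
      rw [dI_self] at hp ⊢
      have h2 := Int.floor_le (l - ys)
      have h3 := Int.lt_floor_add_one (l - ys)
      have h4 : |((p - ⌊l - ys⌋ : ℤ) : ℝ) - (ys + d.v * t)| ≤ |(p : ℝ) - d.v * t - l| + 1 := by
        have e1 : ((p - ⌊l - ys⌋ : ℤ) : ℝ) - (ys + d.v * t) = ((p : ℝ) - d.v * t - l) + (l - ys - ⌊l - ys⌋) := by
          push_cast
          ring
        rw [e1]
        refine (abs_add_le _ _).trans (add_le_add le_rfl ?_)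
        rw [abs_le]
        constructor <;> linarith
      have h5 : |(p : ℝ) - d.v * t - l| ≤ R - 1 := le_of_mul_le_mul_left (hp.trans hR) hk
      have h6 := h.tr t ht (p - ⌊l - ys⌋) (by linarith)
      have h7 := mul_le_mul_of_nonneg_left h4 (by linarith : 0 ≤ k1 / 8)
      have h8 : 0 ≤ k1 * |(p : ℝ) - d.v * t - l| := by positivity
      linarith) (fun m hm hm' => h.ref m hm (by have := h.T1; omega))
  have h2 := h.vv (T + n + 1) (by omega) (by have := h.T1; omega)
  have h3 : (LL F d k1 0 n l) = MM F d k1 0 n l l := rfl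
  rw [h3]
  have h4 : k1 / 8 ≤ E / 8 := by linarith
  nlinarith

/-- **HARD PASSAGES**: the passage from the line `l` to the line `l'`. -/
theorem FrHyp.hard (h : FrHyp F κ k1 K1 d n T ys R E C) {c : ℝ} (hR : bb F * F.co.L * n + c ≤ k1 * (R - 1)) (l l' : ℝ) :
    ∃ y : ℤ, l' - l + 2 * ys + d.v * n ≤ y ∧ (y : ℝ) < l' - l + 2 * ys + d.v * n + 2 ∧
      9 / 16 * (law F).real {η | UU F d k1 0 n l l' η < c} ≤
        (law F).real {η | X F d η 0 (T + n + T) y ≤ c + 8 * (C + 1) * E} := by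
  have hk := h.lat.k0
  have hE := h.E0
  have hC := h.C1
  have hE1 := h.E1
  have hCE : 0 < C * E := by positivity
  have f1 := Int.floor_le (l - ys)
  have f2 := Int.lt_floor_add_one (l - ys)
  have g1 := Int.le_ceil (l' + ys + d.v * n)
  have g2 := Int.ceil_lt_add_one (l' + ys + d.v * n)
  refine ⟨⌈l' + ys + d.v * n⌉ - ⌊l - ys⌋, ?_, ?_, ?_⟩
  · push_cast
    linarith
  · push_cast
    linarith
  have h1 := hard_prob h.adm hk (n := n) (T := T) h.T1 (A := C * E + k1 / 8) (by positivity) (l := l) (l' := l')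
    (o := ⌊l - ys⌋) (z := ⌈l' + ys + d.v * n⌉) (c := c) (by
      intro t ht p hp
      have h4 : |((p - ⌊l - ys⌋ : ℤ) : ℝ) - (ys + d.v * t)| ≤ |(p : ℝ) - d.v * t - l| + 1 := by
        have e1 : ((p - ⌊l - ys⌋ : ℤ) : ℝ) - (ys + d.v * t) = ((p : ℝ) - d.v * t - l) + (l - ys - ⌊l - ys⌋) := by
          push_cast
          ring
        rw [e1]
        refine (abs_add_le _ _).trans (add_le_add le_rfl ?_)
        rw [abs_le]
        constructor <;> linarith
      have h5 : |(p : ℝ) - d.v * t - l| ≤ R - 1 := le_of_mul_le_mul_left (hp.trans hR) hk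
      have h6 := h.tr t ht (p - ⌊l - ys⌋) (by linarith)
      have h7 := mul_le_mul_of_nonneg_left h4 (by linarith : 0 ≤ k1 / 8)
      have h8 : 0 ≤ k1 * |(p : ℝ) - d.v * t - l| := by positivity
      linarith) (by
      intro t ht p hp
      have h4 : |((⌈l' + ys + d.v * n⌉ - p : ℤ) : ℝ) - (ys + d.v * (n - t : ℕ))| ≤ |(p : ℝ) - d.v * t - l'| + 1 := by
        have e1 : ((⌈l' + ys + d.v * n⌉ - p : ℤ) : ℝ) - (ys + d.v * (n - t : ℕ)) =
            (⌈l' + ys + d.v * n⌉ - (l' + ys + d.v * n)) - ((p : ℝ) - d.v * t - l') := by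
          rw [Nat.cast_sub ht]
          push_cast
          ring
        rw [e1]
        refine (abs_sub _ _).trans ?_
        rw [add_comm]
        refine add_le_add le_rfl ?_
        rw [abs_le]
        constructor <;> linarith
      have h5 : |(p : ℝ) - d.v * t - l'| ≤ R - 1 := le_of_mul_le_mul_left (hp.trans hR) hk
      have h6 := h.tr (n - t) (by omega) (⌈l' + ys + d.v * n⌉ - p) (by linarith)
      have h7 := mul_le_mul_of_nonneg_left h4 (by linarith : 0 ≤ k1 / 8)
      have h8 : 0 ≤ k1 * |(p : ℝ) - d.v * t - l'| := by positivity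
      linarith)
  refine h1.trans (measureReal_mono ?_ (measure_ne_top _ _))
  intro η hη
  have hη' : X F d η 0 (T + n + T) (⌈l' + ys + d.v * n⌉ - ⌊l - ys⌋) ≤ c + 8 * (C * E + k1 / 8) := hη
  rw [mem_ofPred_eq]
  linarith

/-- The centre of the cheap interval. -/
theorem FrHyp.centre (h : FrHyp F κ k1 K1 d n T ys R E C) (hR : 1 ≤ R) {A : ℝ} (hA : 2 * C + 1 ≤ A) {α β : ℤ}
    (hαβ : ∀ y : ℤ, e F d (T + n + T) y ≤ A * E → α ≤ y ∧ y ≤ β) :
    (α : ℝ) ≤ 2 * ys + d.v * n ∧ 2 * ys + d.v * n ≤ β := by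
  have hk := h.lat.k0
  have hE := h.E0
  have hE1 := h.E1
  have key : ∀ y y' : ℤ, |(y : ℝ) - ys| ≤ 1 → |(y' : ℝ) - (ys + d.v * n)| ≤ 1 → α ≤ y' + y ∧ y' + y ≤ β := by
    intro y y' h1 h2
    refine hαβ _ ?_
    have h3 := h.tr 0 (by omega) y (by
      have : (y : ℝ) - (ys + d.v * (0 : ℕ)) = y - ys := by push_cast; ring
      rw [this]
      linarith)
    have e0 : (y : ℝ) - (ys + d.v * (0 : ℕ)) = y - ys := by push_cast; ring
    rw [e0, add_zero] at h3
    have h4 := h.tr n le_rfl y' (by linarith)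
    have h5 := e_sub F d (m := T + n) (n := T) (by have := h.T1; omega) h.T1 y' y
    have h6 := e_le_ep F d (n := T + n) (by have := h.T1; omega) y'
    have h7 := e_le_ep F d (n := T) h.T1 y
    have h8 := mul_le_mul_of_nonneg_left h1 (by linarith : 0 ≤ k1 / 8)
    have h9 := mul_le_mul_of_nonneg_left h2 (by linarith : 0 ≤ k1 / 8)
    have h10 : (2 * C + 1) * E ≤ A * E := mul_le_mul_of_nonneg_right hA hE.le
    linarith
  constructor
  · have f1 := Int.floor_le ys
    have f2 := Int.lt_floor_add_one ys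
    have g1 := Int.floor_le (ys + d.v * n)
    have g2 := Int.lt_floor_add_one (ys + d.v * n)
    have h1 := (key ⌊ys⌋ ⌊ys + d.v * n⌋ (by rw [abs_le]; constructor <;> linarith)
      (by rw [abs_le]; constructor <;> linarith)).1
    have h2 : (α : ℝ) ≤ ⌊ys + d.v * n⌋ + ⌊ys⌋ := by exact_mod_cast h1
    linarith
  · have f1 := Int.le_ceil ys
    have f2 := Int.ceil_lt_add_one ys
    have g1 := Int.le_ceil (ys + d.v * n)
    have g2 := Int.ceil_lt_add_one (ys + d.v * n)
    have h1 := (key ⌈ys⌉ ⌈ys + d.v * n⌉ (by rw [abs_le]; constructor <;> linarith)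
      (by rw [abs_le]; constructor <;> linarith)).2
    have h2 : ((⌈ys + d.v * n⌉ : ℝ) + ⌈ys⌉) ≤ β := by exact_mod_cast h1
    linarith

/-- **HARD PASSAGES** at the distance of the length of the cheap interval, in both directions. -/
theorem FrHyp.hard' (h : FrHyp F κ k1 K1 d n T ys R E C) {A p : ℝ} (hA : 2 * C + 1 ≤ A) (hAC : 32 * (C + 1) ≤ A)
    (hR : bb F * F.co.L * n + A / 4 * E ≤ k1 * (R - 1)) (hR1 : 1 ≤ R) {α β : ℤ}
    (hαβ : ∀ y : ℤ, e F d (T + n + T) y ≤ A * E → α ≤ y ∧ y ≤ β)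
    (hmc : ∀ y : ℤ, A * E < e F d (T + n + T) y → (law F).real {η | X F d η 0 (T + n + T) y ≤ A * E / 2} ≤ p)
    {ε : ℝ} (hε : ε = 1 ∨ ε = -1) {W : ℝ} (hW : (β : ℝ) - α + 2 ≤ W) (l : ℝ) :
    (law F).real {η | UU F d k1 0 n l (l + ε * W) η < A / 4 * E} ≤ 16 / 9 * p := by
  obtain ⟨c1, c2⟩ := h.centre hR1 hA hαβ
  obtain ⟨y, h1, h2, h3⟩ := h.hard hR l (l + ε * W)
  have hE := h.E0
  have h4 : A * E < e F d (T + n + T) y := by
    by_contra h5
    push Not at h5
    obtain ⟨h6, h7⟩ := hαβ y h5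
    have h6' : (α : ℝ) ≤ y := by exact_mod_cast h6
    have h7' : (y : ℝ) ≤ β := by exact_mod_cast h7
    rcases hε with rfl | rfl
    · linarith
    · linarith
  have h5 := hmc y h4
  have h6 : (law F).real {η | X F d η 0 (T + n + T) y ≤ A / 4 * E + 8 * (C + 1) * E} ≤
      (law F).real {η | X F d η 0 (T + n + T) y ≤ A * E / 2} := by
    refine measureReal_mono ?_ (measure_ne_top _ _)
    intro η hη
    have hη' : X F d η 0 (T + n + T) y ≤ A / 4 * E + 8 * (C + 1) * E := hη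
    have h7 : 8 * (C + 1) * E ≤ A / 4 * E := mul_le_mul_of_nonneg_right (by linarith) hE.le
    rw [mem_ofPred_eq]
    linarith
  linarith

/-- **BOX LUCK.** -/
theorem FrHyp.box (h : FrHyp F κ k1 K1 d n T ys R E C) {A : ℝ} (hA : 1 ≤ A)
    (hR : bb F * F.co.L * n ≤ k1 * (R - 3)) {α β : ℤ} (hαβ0 : α ≤ β)
    (hαβ : ∀ y : ℤ, α ≤ y → y ≤ β → e F d (T + n + T) y ≤ A * E) {W : ℝ} (hW : W = (β : ℝ) - α + 2) (x0 : ℝ)
    {u : ℝ} (hu : 0 < u) :
    (law F).real {η | 4 * (A + C + 2) * E + 4 * E + u < MM F d k1 0 n x0 (x0 + W) η} ≤ 16 / 9 * (E / u) := by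
  have hk := h.lat.k0
  have hE := h.E0
  have hC := h.C1
  have hE1 := h.E1
  have hT := h.T1
  set N : ℕ := T + n + T with hN
  have h1 := box_prob h.adm hk (n := n) (T := N + T) (by omega) (A := (A + C + 2) * E) (by positivity) hE (x0 := x0)
    (x1 := x0 + W) (o := ⌊x0 - ys - α⌋) (by
      intro t ht p hp
      have f1 := Int.floor_le (x0 - ys - α)
      have f2 := Int.lt_floor_add_one (x0 - ys - α)
      set D := dI x0 (x0 + W) ((p : ℝ) - d.v * t) with hD
      have hD0 : 0 ≤ D := dI_nonneg _ _ _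
      have hD1 : x0 - ((p : ℝ) - d.v * t) ≤ D := (le_max_left _ _).trans (le_max_right _ _)
      have hD2 : ((p : ℝ) - d.v * t) - (x0 + W) ≤ D := (le_max_right _ _).trans (le_max_right _ _)
      obtain ⟨v, hv⟩ : ∃ v : ℝ, v = (p : ℝ) - d.v * t - x0 := ⟨_, rfl⟩
      obtain ⟨i, hi0, hi1, hi2⟩ : ∃ i : ℤ, 0 ≤ i ∧ i ≤ β - α ∧ |v - i| ≤ D + 2 := by
        have g1 := Int.floor_le v
        have g2 := Int.lt_floor_add_one v
        rcases lt_or_ge v 0 with hv0 | hv0
        · refine ⟨0, le_rfl, by omega, ?_⟩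
          rw [Int.cast_zero, sub_zero, abs_of_neg hv0]
          linarith
        rcases le_or_gt (⌊v⌋ : ℤ) (β - α) with h2 | h2
        · refine ⟨⌊v⌋, Int.floor_nonneg.2 hv0, h2, ?_⟩
          rw [abs_le]
          constructor <;> linarith
        · refine ⟨β - α, by omega, le_rfl, ?_⟩
          have h3 : ((β - α : ℤ) : ℝ) ≤ v := by
            have : ((β - α : ℤ) : ℝ) ≤ ((⌊v⌋ : ℤ) : ℝ) := by exact_mod_cast h2.le
            linarith
          rw [abs_of_nonneg (by linarith)]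
          push_cast at h3 ⊢
          rw [hW] at hD2
          linarith
      have hq : |((p - ⌊x0 - ys - α⌋ - α - i : ℤ) : ℝ) - (ys + d.v * t)| ≤ D + 3 := by
        have e1 : ((p - ⌊x0 - ys - α⌋ - α - i : ℤ) : ℝ) - (ys + d.v * t) = (v - i) + (x0 - ys - α - ⌊x0 - ys - α⌋) := by
          rw [hv]
          push_cast
          ring
        rw [e1]
        have : |x0 - ys - α - (⌊x0 - ys - α⌋ : ℝ)| ≤ 1 := by
          rw [abs_le]
          constructor <;> linarith
        have := abs_add_le (v - i) (x0 - ys - α - ⌊x0 - ys - α⌋)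
        linarith
      have hDR : D ≤ R - 3 := le_of_mul_le_mul_left (hp.trans hR) hk
      have h3 := h.tr t ht (p - ⌊x0 - ys - α⌋ - α - i) (by linarith)
      have h4 := hαβ (α + i) (by omega) (by omega)
      have h5 := h.epe N (by omega) (by omega) (α + i)
      have h6 := ep_sub F d (m := N) (n := T + t) (by omega) (by omega) (α + i) (p - ⌊x0 - ys - α⌋ - α - i)
      have e2 : N + (T + t) = N + T + t := by omega
      have e3 : α + i + (p - ⌊x0 - ys - α⌋ - α - i) = p - ⌊x0 - ys - α⌋ := by ring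
      rw [e2, e3] at h6
      have h7 := mul_le_mul_of_nonneg_left hq (by linarith : 0 ≤ k1 / 8)
      have h8 : 0 ≤ k1 * D := by positivity
      linarith) (fun m hm hm' => h.ref m hm (by omega))
    (y := 4 * (A + C + 2) * E + 4 * E + u) (by positivity)
  have h2 : (law F).real {η | 4 * (A + C + 2) * E + 4 * E + u - 4 * ((A + C + 2) * E) - 4 * E ≤
      VV F d η (-((N + T : ℕ) : ℤ), ⌊x0 - ys - α⌋) (N + T + n + 1)} ≤ E / u := by
    set a : Pt := (-((N + T : ℕ) : ℤ), ⌊x0 - ys - α⌋) with ha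
    have h3 : ∫ η, max (VV F d η a (N + T + n + 1)) 0 ∂(law F) ≤ E := by
      have h4 := shp_int (F := F) (g := fun η => max (VV F d η 0 (N + T + n + 1)) 0)
        ((VV_meas F d _ _).max measurable_const) a
      simp_rw [VV_shp, zero_add] at h4
      rw [h4]
      exact h.vv _ (by omega) (by omega)
    have h5 := mul_meas_ge_le_integral_of_nonneg (μ := law F) (f := fun η => max (VV F d η a (N + T + n + 1)) 0)
      (Filter.Eventually.of_forall fun _ => le_max_right _ _) (VV_integrable h.adm _ (by omega)).pos_part u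
    have h6 : (law F).real {η | 4 * (A + C + 2) * E + 4 * E + u - 4 * ((A + C + 2) * E) - 4 * E ≤
        VV F d η a (N + T + n + 1)} ≤ (law F).real {η | u ≤ max (VV F d η a (N + T + n + 1)) 0} := by
      refine measureReal_mono ?_ (measure_ne_top _ _)
      intro η hη
      have hη' : 4 * (A + C + 2) * E + 4 * E + u - 4 * ((A + C + 2) * E) - 4 * E ≤ VV F d η a (N + T + n + 1) := hη
      rw [mem_ofPred_eq]
      refine le_trans ?_ (le_max_left _ _)
      linarith
    refine h6.trans ?_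
    rw [le_div_iff₀ hu]
    have h7 : u * (law F).real {η | u ≤ max (VV F d η a (N + T + n + 1)) 0} ≤ E := h5.trans h3
    linarith
  linarith

end

end Pool.Agent.W_1b8d5d_p
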