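import Pool.Agent.W_1b8d5d_p.Unit1

/-!
MP_1b8d5d_pr, Track P. Cheap intervals (helper11's (U2)): Minkowski sums, the cheapest displacements are almost additive, hence
close to a line; one fixed far point is cheap for all the points next to a line (TRAV*).
-/

namespace Pool.Agent.W_1b8d5d_p

open MeasureTheory Set

noncomputable section

/-- HYERS - ULAM on an interval. -/
theorem hyers {x : ℕ → ℝ} {n : ℕ} (hn : 1 ≤ n) {l : ℝ} (hl : 0 ≤ l)
    (h : ∀ s t : ℕ, 1 ≤ s → 1 ≤ t → s + t ≤ n → |x (s + t) - x s - x t| ≤ l) :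
    ∀ t : ℕ, 1 ≤ t → t ≤ n → |x t - x n / n * t| ≤ 3 * l := by
  have hn0 : (n : ℝ) ≠ 0 := by exact_mod_cast (show n ≠ 0 by omega)
  obtain ⟨t0, ht0, hmax⟩ := (Finset.Icc 1 n).exists_max_image (fun t : ℕ => |x t - x n / n * t|) ⟨1, by simp; omega⟩
  rw [Finset.mem_Icc] at ht0
  have hM : ∀ t : ℕ, 1 ≤ t → t ≤ n → |x t - x n / n * t| ≤ |x t0 - x n / n * t0| := fun t h1 h2 =>
    hmax t (Finset.mem_Icc.2 ⟨h1, h2⟩)
  have key : |x t0 - x n / n * t0| ≤ 3 * l := by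
    have hadd : ∀ s t : ℕ, 1 ≤ s → 1 ≤ t → s + t ≤ n →
        |(x (s + t) - x n / n * ((s + t : ℕ) : ℝ)) - (x s - x n / n * s) - (x t - x n / n * t)| ≤ l := by
      intro s t hs ht hst
      have := h s t hs ht hst
      have e1 : (x (s + t) - x n / n * ((s + t : ℕ) : ℝ)) - (x s - x n / n * s) - (x t - x n / n * t) =
          x (s + t) - x s - x t := by
        push_cast
        ring
      rw [e1]
      exact this
    have hdbl : ∀ s : ℕ, 1 ≤ s → 2 * s ≤ n → 2 * |x s - x n / n * s| ≤ |x t0 - x n / n * t0| + l := by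
      intro s hs hs2
      have h1 := hadd s s hs hs (by omega)
      have h2 := hM (s + s) (by omega) (by omega)
      rw [abs_le] at h1 h2
      have h3 : 2 * |x s - x n / n * s| = |2 * (x s - x n / n * s)| := by rw [abs_mul, abs_two]
      rw [h3, abs_le]
      constructor <;> linarith [h1.1, h1.2, h2.1, h2.2]
    rcases Nat.lt_or_ge n (2 * t0) with h1 | h1
    · rcases Nat.lt_or_ge t0 n with h2 | h2
      · have h3 := hadd t0 (n - t0) ht0.1 (by omega) (by omega)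
        have h4 := hdbl (n - t0) (by omega) (by omega)
        rw [show t0 + (n - t0) = n by omega] at h3
        rw [div_mul_cancel₀ _ hn0, sub_self, zero_sub] at h3
        have h5 : |x t0 - x n / n * t0| ≤ l + |x (n - t0) - x n / n * ((n - t0 : ℕ) : ℝ)| := by
          rw [abs_le] at h3
          have h6 := neg_abs_le (x (n - t0) - x n / n * ((n - t0 : ℕ) : ℝ))
          have h7 := le_abs_self (x (n - t0) - x n / n * ((n - t0 : ℕ) : ℝ))
          rw [abs_le]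
          constructor <;> linarith [h3.1, h3.2]
        linarith
      · have h3 : t0 = n := by omega
        rw [h3, div_mul_cancel₀ _ hn0, sub_self, abs_zero]
        positivity
    · have h2 := hdbl t0 ht0.1 h1
      linarith
  intro t h1 h2
  exact (hM t h1 h2).trans key

/-- The displacements of duration `n` and mean cost at most `B`. -/
def CI (F : Fm) (d : Dr) (n : ℕ) (B : ℝ) : Set ℤ := {y | e F d n y ≤ B ∧ (n = 0 → y = 0)}

variable {F : Fm} {κ : ℝ} {d : Dr}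

theorem CI_e {n : ℕ} {B : ℝ} {y : ℤ} (h : y ∈ CI F d n B) : e F d n y ≤ B := h.1

theorem CI_mk {n : ℕ} (hn : 1 ≤ n) {B : ℝ} {y : ℤ} (h : e F d n y ≤ B) : y ∈ CI F d n B := ⟨h, fun h0 => by omega⟩

theorem CI_mono {n : ℕ} {B B' : ℝ} (h : B ≤ B') : CI F d n B ⊆ CI F d n B' := fun _ hy => ⟨hy.1.trans h, hy.2⟩

theorem CI_add {m n : ℕ} {A B : ℝ} {y z : ℤ} (hy : y ∈ CI F d m A) (hz : z ∈ CI F d n B) :
    y + z ∈ CI F d (m + n) (A + B) :=
  ⟨(e_sub' F d m n y z hy.2 hz.2).trans (add_le_add hy.1 hz.1), fun h => by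
    rw [hy.2 (by omega), hz.2 (by omega), add_zero]⟩

theorem CI_mul {m : ℕ} {B : ℝ} {y : ℤ} (hy : y ∈ CI F d m B) (k : ℕ) : (k : ℤ) * y ∈ CI F d (k * m) (k * B) := by
  induction k with
  | zero =>
    refine ⟨?_, fun _ => by simp⟩
    simp [e_zero]
  | succ k ih =>
    have := CI_add ih hy
    have e1 : ((k + 1 : ℕ) : ℤ) * y = (k : ℤ) * y + y := by push_cast; ring
    have e2 : (k + 1) * m = k * m + m := by ring
    have e3 : ((k + 1 : ℕ) : ℝ) * B = k * B + B := by push_cast; ring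
    rw [e1, e2, e3]
    exact this

theorem CI_conv {n : ℕ} {B : ℝ} {y0 y y1 : ℤ} (h0 : y0 ∈ CI F d n B) (h1 : y1 ∈ CI F d n B) (ha : y0 ≤ y)
    (hb : y ≤ y1) : y ∈ CI F d n B := by
  rcases Nat.eq_zero_or_pos n with hn | hn
  · have e1 := h0.2 hn
    have e2 := h1.2 hn
    have e3 : y = y0 := by omega
    rw [e3]
    exact h0
  refine CI_mk hn ?_
  rcases eq_or_lt_of_le (ha.trans hb) with h | h
  · have e3 : y = y0 := by omega
    rw [e3]
    exact h0.1
  have h2 := e_chord F d hn ha hb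
  have h3 : ((y1 : ℝ) - y) * e F d n y0 ≤ (y1 - y) * B :=
    mul_le_mul_of_nonneg_left h0.1 (by have : (y : ℝ) ≤ y1 := by exact_mod_cast hb
                                       linarith)
  have h4 : ((y : ℝ) - y0) * e F d n y1 ≤ (y - y0) * B :=
    mul_le_mul_of_nonneg_left h1.1 (by have : (y0 : ℝ) ≤ y := by exact_mod_cast ha
                                       linarith)
  have h5 : (0 : ℝ) < y1 - y0 := by
    have : (y0 : ℝ) < y1 := by exact_mod_cast h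
    linarith
  have h6 : ((y1 : ℝ) - y0) * e F d n y ≤ (y1 - y0) * B := by linarith
  exact le_of_mul_le_mul_left h6 h5

theorem xs_mem (hd : Adm F κ d) {n N : ℕ} (h : n ≤ N) {E : ℝ} (hE : EE F d N ≤ E) : xs F d n ∈ CI F d n (E - Cr F) :=
  ⟨by have := e_xs_le hd n; have := le_EE F d h; linarith, fun h0 => by rw [h0, xs_zero]⟩

theorem xs_mem' (hd : Adm F κ d) {n N : ℕ} (h : n ≤ N) {E : ℝ} (hE : EE F d N ≤ E) : xs F d n ∈ CI F d n E :=
  CI_mono (by linarith [Cr_pos F]) (xs_mem hd h hE)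

theorem CI_bdd (hd : Adm F κ d) {n : ℕ} {B : ℝ} {y : ℤ} (h : y ∈ CI F d n B) :
    |(y : ℝ)| ≤ (|B| + C1 F * n) / (κ * F.co.M) := by
  have hM : (1 : ℝ) ≤ F.co.M := by exact_mod_cast F.co.M_pos
  have hκ := hd.κ0
  have hC := C1_pos F
  rw [le_div_iff₀ (by positivity)]
  rcases Nat.eq_zero_or_pos n with hn | hn
  · rw [h.2 hn]
    simp only [Int.cast_zero, abs_zero, zero_mul]
    positivity
  have h1 := e_coer hd hn y
  have h2 := h.1
  have h3 := le_abs_self B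
  nlinarith

/-- The length of the longest cheap interval of a duration `≤ n`. -/
def ln (F : Fm) (d : Dr) (n : ℕ) (B : ℝ) : ℕ :=
  sSup {k : ℕ | ∃ m, 1 ≤ m ∧ m ≤ n ∧ ∃ y : ℤ, y ∈ CI F d m B ∧ y + k ∈ CI F d m B}

theorem ln_bdd (hd : Adm F κ d) (n : ℕ) (B : ℝ) :
    BddAbove {k : ℕ | ∃ m, 1 ≤ m ∧ m ≤ n ∧ ∃ y : ℤ, y ∈ CI F d m B ∧ y + k ∈ CI F d m B} := by
  have hM : (1 : ℝ) ≤ F.co.M := by exact_mod_cast F.co.M_pos
  have hκ := hd.κ0
  have hC := C1_pos F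
  obtain ⟨N, hN⟩ := exists_nat_ge (2 * ((|B| + C1 F * n) / (κ * F.co.M)))
  refine ⟨N, ?_⟩
  rintro k ⟨m, hm, hmn, y, h1, h2⟩
  have h3 := CI_bdd hd h1
  have h4 := CI_bdd hd h2
  have h5 : (|B| + C1 F * m) / (κ * F.co.M) ≤ (|B| + C1 F * n) / (κ * F.co.M) := by
    have : (m : ℝ) ≤ n := by exact_mod_cast hmn
    gcongr
  have h6 : (k : ℝ) ≤ |((y + (k : ℤ) : ℤ) : ℝ)| + |(y : ℝ)| := by
    have h7 := abs_sub ((y + (k : ℤ) : ℤ) : ℝ) y
    push_cast at h7 ⊢
    rw [add_sub_cancel_left, Nat.abs_cast] at h7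
    exact h7
  have h8 : (k : ℝ) ≤ N := by linarith
  exact_mod_cast h8

theorem le_ln (hd : Adm F κ d) {n : ℕ} {B : ℝ} {m : ℕ} (hmn : m ≤ n) {y z : ℤ} (hy : y ∈ CI F d m B)
    (hz : z ∈ CI F d m B) : z - y ≤ ln F d n B := by
  rcases Nat.eq_zero_or_pos m with hm | hm
  · rw [hy.2 hm, hz.2 hm, sub_zero]
    exact Int.natCast_nonneg _
  rcases le_total z y with h | h
  · exact (show z - y ≤ 0 by omega).trans (Int.natCast_nonneg _)
  · obtain ⟨k, rfl⟩ : ∃ k : ℕ, z = y + k := ⟨(z - y).toNat, by omega⟩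
    have := le_csSup (ln_bdd hd n B) ⟨m, hm, hmn, y, hy, hz⟩
    rw [add_sub_cancel_left]
    exact_mod_cast this

theorem abs_le_ln (hd : Adm F κ d) {n : ℕ} {B : ℝ} {m : ℕ} (hmn : m ≤ n) {y z : ℤ} (hy : y ∈ CI F d m B)
    (hz : z ∈ CI F d m B) : |(z : ℝ) - y| ≤ ln F d n B := by
  have h1 := le_ln hd hmn hy hz
  have h2 := le_ln hd hmn hz hy
  rw [abs_le]
  constructor
  · have : ((y - z : ℤ) : ℝ) ≤ ((ln F d n B : ℤ) : ℝ) := by exact_mod_cast h2
    push_cast at this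
    linarith
  · have : ((z - y : ℤ) : ℝ) ≤ ((ln F d n B : ℤ) : ℝ) := by exact_mod_cast h1
    push_cast at this
    linarith

theorem ln_mem (hd : Adm F κ d) {n : ℕ} (hn : 1 ≤ n) {B : ℝ} (hB : EE F d n ≤ B) :
    ∃ m, 1 ≤ m ∧ m ≤ n ∧ ∃ y : ℤ, y ∈ CI F d m B ∧ y + ln F d n B ∈ CI F d m B :=
  Nat.sSup_mem (s := {k : ℕ | ∃ m, 1 ≤ m ∧ m ≤ n ∧ ∃ y : ℤ, y ∈ CI F d m B ∧ y + k ∈ CI F d m B})
    ⟨0, n, hn, le_rfl, xs F d n, xs_mem' hd le_rfl hB, by simpa using xs_mem' hd le_rfl hB⟩ (ln_bdd hd n B)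

/-- A lateral step of the cheapest displacement is cheap. -/
theorem one_le_ln (hd : Adm F κ d) {n : ℕ} (hn : 1 ≤ n) {B : ℝ} (hB : EE F d n ≤ B) : 1 ≤ ln F d n B := by
  have h1 := xs_mem hd (le_refl n) hB
  have h2 : xs F d n + 1 ∈ CI F d n B := by
    refine CI_mk hn ?_
    have h3 := e_step hd hn (xs F d n + 1) (xs F d n)
    have h4 := h1.1
    push_cast at h3
    rw [add_sub_cancel_left, abs_one] at h3
    have h5 : Cr F = 2 * F.b * (F.co.M * 1) + 4 * F.b := by unfold Cr; ring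
    linarith
  have := le_ln hd (le_refl n) (CI_mono (by linarith [Cr_pos F]) h1) h2
  rw [add_sub_cancel_left] at this
  exact_mod_cast this

/-- The cheapest displacements are close to a line. -/
theorem xs_line (hd : Adm F κ d) {n : ℕ} (hn : 1 ≤ n) {E : ℝ} (hE : EE F d n ≤ E) (t : ℕ) (ht : t ≤ n) :
    |(xs F d t : ℝ) - (xs F d n : ℝ) / n * t| ≤ 3 * ln F d n (2 * E) := by
  rcases Nat.eq_zero_or_pos t with h0 | h0
  · subst h0
    rw [xs_zero]
    simp
  have hE0 : 0 < E := (EE_pos F d n).trans_le hE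
  refine hyers (x := fun t => (xs F d t : ℝ)) hn (Nat.cast_nonneg _) ?_ t h0 ht
  intro s t hs ht hst
  have h1 := CI_add (xs_mem' hd (show s ≤ n by omega) hE) (xs_mem' hd (show t ≤ n by omega) hE)
  rw [← two_mul] at h1
  have h2 : xs F d (s + t) ∈ CI F d (s + t) (2 * E) := CI_mono (by linarith) (xs_mem' hd hst hE)
  have h3 := abs_le_ln hd hst h1 h2
  have e1 : (xs F d (s + t) : ℝ) - xs F d s - xs F d t = xs F d (s + t) - ((xs F d s + xs F d t : ℤ) : ℝ) := by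
    push_cast
    ring
  rw [e1]
  exact h3

/-- The far cheap interval is long. -/
theorem far_long (hd : Adm F κ d) {n : ℕ} (hn : 1 ≤ n) {E : ℝ} (hE : EE F d (12 * n) ≤ E) :
    ∃ lo hi : ℤ, lo ∈ CI F d (12 * n) (25 * E) ∧ hi ∈ CI F d (12 * n) (25 * E) ∧ hi = lo + 12 * ln F d n (2 * E) := by
  have hE1 : EE F d n ≤ E := (EE_mono F d (by omega)).trans hE
  have hE0 : 0 < E := (EE_pos F d n).trans_le hE1
  obtain ⟨m, hm, hmn, y, h1, h2⟩ := ln_mem hd hn (B := 2 * E) (by linarith)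
  have h3 := CI_mul h1 12
  have h4 := CI_mul h2 12
  have h5 := xs_mem' hd (show 12 * n - 12 * m ≤ 12 * n by omega) hE
  have e1 : 12 * m + (12 * n - 12 * m) = 12 * n := by omega
  have h6 := CI_add h3 h5
  have h7 := CI_add h4 h5
  have e2 : ((12 : ℕ) : ℝ) * (2 * E) + E = 25 * E := by push_cast; ring
  rw [e1, e2] at h6 h7
  refine ⟨_, _, h6, h7, ?_⟩
  push_cast
  ring

/-- **(TRAV*)** One fixed far point serves all the levels of the slab along a line. -/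
theorem trav_star (hd : Adm F κ d) {n : ℕ} (hn : 1 ≤ n) {E : ℝ} (hE : EE F d (12 * n) ≤ E) :
    ∃ r Y : ℝ, r = (xs F d n : ℝ) / n ∧ (∀ t : ℕ, t ≤ n → |(xs F d t : ℝ) - r * t| ≤ 3 * ln F d n (2 * E)) ∧
      ∀ t : ℕ, t ≤ n → ∀ z : ℤ, |(z : ℝ) - (Y + r * t)| ≤ 3 * ln F d n (2 * E) → e F d (12 * n + t) z ≤ 26 * E := by
  have hE1 : EE F d n ≤ E := (EE_mono F d (by omega)).trans hE
  obtain ⟨lo, hi, h1, h2, h3⟩ := far_long hd hn hE
  refine ⟨(xs F d n : ℝ) / n, ((lo : ℝ) + hi) / 2, rfl, fun t ht => xs_line hd hn hE1 t ht, fun t ht z hz => ?_⟩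
  have h4 := xs_line hd hn hE1 t ht
  have h5 := xs_mem' hd ht hE1
  have h6 : z - xs F d t ∈ CI F d (12 * n) (25 * E) := by
    have h7 : (hi : ℝ) = lo + 12 * ln F d n (2 * E) := by rw [h3]; push_cast; ring
    rw [abs_le] at h4 hz
    refine CI_conv h1 h2 ?_ ?_
    · have : (lo : ℝ) ≤ ((z - xs F d t : ℤ) : ℝ) := by push_cast; linarith [h4.1, h4.2, hz.1, hz.2]
      exact_mod_cast this
    · have : ((z - xs F d t : ℤ) : ℝ) ≤ hi := by push_cast; linarith [h4.1, h4.2, hz.1, hz.2]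
      exact_mod_cast this
  have h8 := CI_add h6 h5
  rw [sub_add_cancel] at h8
  have := h8.1
  linarith

end

end Pool.Agent.W_1b8d5d_p
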