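import Pool.Agent.W_1b8d5d_p.FrameA
import Pool.Agent.W_1b8d5d_p.FrLstar
import Pool.Agent.W_1b8d5d_p.UnitC

/-!
MP_1b8d5d_pr, Track P. The frame, assembly: (L*) at one scale in the moving frame.
-/

namespace Pool.Agent.W_1b8d5d_p

open MeasureTheory Set
open Pool.Agent.W_1b8d5d_h85

noncomputable section

variable {F : Fm} {κ k1 K1 : ℝ} {d : Dr} {n T : ℕ} {ys R E C : ℝ}

/-- The cheap displacements of one duration are the integers of an interval. -/
theorem cheap_int (hd : Adm F κ d) {n : ℕ} (hn : 1 ≤ n) {B : ℝ} {y0 : ℤ} (h0 : e F d n y0 ≤ B) :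
    ∃ α β : ℤ, α ≤ y0 ∧ y0 ≤ β ∧ ∀ y : ℤ, e F d n y ≤ B ↔ α ≤ y ∧ y ≤ β := by
  have hmem : ∀ y : ℤ, e F d n y ≤ B ↔ y ∈ CI F d n B := fun y =>
    ⟨fun h => ⟨h, fun h' => by omega⟩, fun h => h.1⟩
  obtain ⟨M, hM⟩ := exists_nat_ge ((|B| + C1 F * n) / (κ * F.co.M))
  have hb : ∀ y : ℤ, e F d n y ≤ B → -(M : ℤ) ≤ y ∧ y ≤ M := by
    intro y hy
    have h1 := CI_bdd hd ((hmem y).1 hy)
    have h2 : |(y : ℝ)| ≤ M := h1.trans hM
    rw [abs_le] at h2
    constructor
    · exact_mod_cast h2.1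
    · exact_mod_cast h2.2
  obtain ⟨β, hβ1, hβ2⟩ := Int.exists_greatest_of_bdd (P := fun y => e F d n y ≤ B) ⟨M, fun y hy => (hb y hy).2⟩ ⟨y0, h0⟩
  obtain ⟨α, hα1, hα2⟩ := Int.exists_least_of_bdd (P := fun y => e F d n y ≤ B) ⟨-M, fun y hy => (hb y hy).1⟩ ⟨y0, h0⟩
  refine ⟨α, β, hα2 y0 h0, hβ2 y0 h0, fun y => ⟨fun h => ⟨hα2 y h, hβ2 y h⟩, ?_⟩⟩
  rintro ⟨h1, h2⟩
  exact (CI_conv ((hmem α).1 hα1) ((hmem β).1 hβ1) h1 h2).1

/-- The cheap interval is long: the travellers have slope `k1 / 8`. -/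
theorem FrHyp.long (h : FrHyp F κ k1 K1 d n T ys R E C) {A : ℝ} (hA : 4 * C + 4 ≤ A) (hR : 4 * (A * E / k1) + 1 ≤ R)
    {α β : ℤ} (hαβ : ∀ y : ℤ, e F d (T + n + T) y ≤ A * E ↔ α ≤ y ∧ y ≤ β) : 4 * (A * E / k1) ≤ (β : ℝ) - α := by
  have hk := h.lat.k0
  have hE := h.E0
  have hC := h.C1
  have hE1 := h.E1
  have hT := h.T1
  have hA0 : 0 < A := by linarith
  have hAE : 0 ≤ A * E / k1 := by positivity
  -- a displacement at the distance `D` from the centre
  have key : ∀ y y' : ℤ, |(y : ℝ) - ys| ≤ 4 * (A * E / k1) + 1 → |(y' : ℝ) - (ys + d.v * n)| ≤ 1 →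
      α ≤ y' + y ∧ y' + y ≤ β := by
    intro y y' h1 h2
    refine (hαβ _).1 ?_
    have e0 : (y : ℝ) - (ys + d.v * (0 : ℕ)) = y - ys := by push_cast; ring
    have h3 := h.tr 0 (by omega) y (by rw [e0]; linarith)
    rw [e0, add_zero] at h3
    have h4 := h.tr n le_rfl y' (by linarith)
    have h5 := e_sub F d (m := T + n) (n := T) (by omega) hT y' y
    have h6 := e_le_ep F d (n := T + n) (by omega) y'
    have h7 := e_le_ep F d (n := T) hT y
    have h8 := mul_le_mul_of_nonneg_left h1 (by linarith : 0 ≤ k1 / 8)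
    have h9 := mul_le_mul_of_nonneg_left h2 (by linarith : 0 ≤ k1 / 8)
    have h10 : k1 / 8 * (4 * (A * E / k1) + 1) = A * E / 2 + k1 / 8 := by field_simp; ring
    have h11 : (4 * C + 4) * E ≤ A * E := mul_le_mul_of_nonneg_right hA hE.le
    linarith
  have f1 := Int.floor_le (ys - 4 * (A * E / k1))
  have f2 := Int.lt_floor_add_one (ys - 4 * (A * E / k1))
  have g1 := Int.floor_le (ys + d.v * n)
  have g2 := Int.lt_floor_add_one (ys + d.v * n)
  have i1 := Int.le_ceil (ys + 4 * (A * E / k1))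
  have i2 := Int.ceil_lt_add_one (ys + 4 * (A * E / k1))
  have h1 := (key ⌊ys - 4 * (A * E / k1)⌋ ⌊ys + d.v * n⌋ (by rw [abs_le]; constructor <;> linarith)
    (by rw [abs_le]; constructor <;> linarith)).1
  have h2 := (key ⌈ys + 4 * (A * E / k1)⌉ ⌊ys + d.v * n⌋ (by rw [abs_le]; constructor <;> linarith)
    (by rw [abs_le]; constructor <;> linarith)).2
  have h3 : (α : ℝ) ≤ ⌊ys + d.v * n⌋ + ⌊ys - 4 * (A * E / k1)⌋ := by exact_mod_cast h1
  have h4 : ((⌊ys + d.v * n⌋ : ℝ) + ⌈ys + 4 * (A * E / k1)⌉) ≤ β := by exact_mod_cast h2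
  linarith

/-- The smallest unit. -/
def Emin (F : Fm) (κ k1 K1 v : ℝ) : ℝ :=
  |CL F k1 K1| + |CP F| + (2 * C0 F.co F.b + C1 F + κ * F.co.M * |v|) + k1 * K1

/-- **(L\*)** at one scale, in the moving frame. -/
theorem FrHyp.lstar (h : FrHyp F κ k1 K1 d n T ys R E C) (hE : Emin F κ k1 K1 d.v ≤ E) {A : ℝ}
    (hA' : 10 ^ 8 * (C + 2) ≤ A)
    (hR1 : bb F * F.co.L * n + A / 4 * E ≤ k1 * (R - 3)) (hR2 : 4 * (A * E / k1) + 1 ≤ R)
    (hmc : ∀ y : ℤ, A * E < e F d (T + n + T) y →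
      (law F).real {η | X F d η 0 (T + n + T) y ≤ A * E / 2} ≤ 10⁻¹ ^ 7) :
    ∃ (α β : ℤ) (w : ℕ), (∀ y : ℤ, e F d (T + n + T) y ≤ A * E ↔ α ≤ y ∧ y ≤ β) ∧ (w : ℝ) = (β : ℝ) - α + 2 ∧
      K1 < w ∧ 4 * (A * E / k1) ≤ w ∧ (α : ℝ) ≤ 2 * ys + d.v * n ∧ 2 * ys + d.v * n ≤ β ∧
      ∀ k ≤ n, ∀ o, ∫ η, Real.exp (4 / (25 * (A * E)) * TL F d (A * E / (32 * w)) o w k η) ∂(law F) ≤
        2 * Real.exp 2 := by
  have hk := h.lat.k0
  have hE0 := h.E0
  have hC := h.C1
  have hE1 := h.E1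
  have hT := h.T1
  have hκ := h.adm.κ0
  have hKK := h.lat.K0
  have hM : (1 : ℝ) ≤ F.co.M := by exact_mod_cast F.co.M_pos
  have hC0 := C0_nonneg F.co (b_pos F).le
  have hC1 := C1_pos F
  have hA0 : 0 < A := by linarith
  have hR3 : 1 ≤ R := by
    have : 0 ≤ 4 * (A * E / k1) := by positivity
    linarith
  have hv : 0 ≤ κ * F.co.M * |d.v| := by positivity
  have hbbn := bbn_nonneg F n
  -- the cheap interval
  obtain ⟨α, β, -, -, hαβ⟩ := cheap_int h.adm (n := T + n + T) (by omega) (B := A * E) (y0 := ⌊ys + d.v * n⌋ + ⌊ys⌋) (by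
    have f1 := Int.floor_le ys
    have f2 := Int.lt_floor_add_one ys
    have g1 := Int.floor_le (ys + d.v * n)
    have g2 := Int.lt_floor_add_one (ys + d.v * n)
    have e0 : ((⌊ys⌋ : ℤ) : ℝ) - (ys + d.v * (0 : ℕ)) = ⌊ys⌋ - ys := by push_cast; ring
    have a1 : |((⌊ys⌋ : ℤ) : ℝ) - ys| ≤ 1 := by rw [abs_le]; constructor <;> linarith
    have a2 : |((⌊ys + d.v * n⌋ : ℤ) : ℝ) - (ys + d.v * n)| ≤ 1 := by rw [abs_le]; constructor <;> linarith
    have h3 := h.tr 0 (by omega) ⌊ys⌋ (by rw [e0]; linarith)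
    rw [e0, add_zero] at h3
    have h4 := h.tr n le_rfl ⌊ys + d.v * n⌋ (by linarith)
    have h5 := e_sub F d (m := T + n) (n := T) (by omega) hT ⌊ys + d.v * n⌋ ⌊ys⌋
    have h6 := e_le_ep F d (n := T + n) (by omega) ⌊ys + d.v * n⌋
    have h7 := e_le_ep F d (n := T) hT ⌊ys⌋
    have h8 := mul_le_mul_of_nonneg_left a1 (by linarith : 0 ≤ k1 / 8)
    have h9 := mul_le_mul_of_nonneg_left a2 (by linarith : 0 ≤ k1 / 8)
    have h10 : (2 * C + 1) * E ≤ A * E := mul_le_mul_of_nonneg_right (by linarith) hE0.le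
    linarith)
  have hlong := h.long (A := A) (by linarith) hR2 hαβ
  have hcent := h.centre hR3 (A := A) (by linarith) (fun y hy => (hαβ y).1 hy)
  have hαβle : α ≤ β := by
    have h1 : (α : ℝ) ≤ β := by
      have : 0 ≤ 4 * (A * E / k1) := by positivity
      linarith
    exact_mod_cast h1
  obtain ⟨w, hw⟩ : ∃ w : ℕ, (w : ℤ) = β - α + 2 := ⟨(β - α + 2).toNat, Int.toNat_of_nonneg (by omega)⟩
  have hwr : (w : ℝ) = (β : ℝ) - α + 2 := by
    have : ((w : ℤ) : ℝ) = ((β - α + 2 : ℤ) : ℝ) := by rw [hw]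
    push_cast at this
    exact this
  have hw4 : 4 * (A * E / k1) ≤ w := by linarith
  unfold Emin at hE
  have hCLE : |CL F k1 K1| ≤ E := by
    have := abs_nonneg (CP F)
    have : 0 ≤ k1 * K1 := by positivity
    linarith
  have hCPE : |CP F| ≤ E := by
    have := abs_nonneg (CL F k1 K1)
    have : 0 ≤ k1 * K1 := by positivity
    linarith
  have hvE : 2 * C0 F.co F.b + Pool.Agent.W_1b8d5d_p.C1 F + κ * F.co.M * |d.v| ≤ E := by
    have := abs_nonneg (CL F k1 K1)
    have := abs_nonneg (CP F)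
    have : 0 ≤ k1 * K1 := by positivity
    linarith
  have hKE : k1 * K1 ≤ E := by
    have := abs_nonneg (CL F k1 K1)
    have := abs_nonneg (CP F)
    linarith
  have hA1 : 10 ^ 8 ≤ A := by linarith
  have hAE : 10 ^ 8 * E ≤ A * E := mul_le_mul_of_nonneg_right hA1 hE0.le
  have hK1w : K1 < w := by
    have h1 : K1 ≤ E / k1 := by rw [le_div_iff₀ hk]; linarith
    have h2 : E / k1 < 4 * (A * E / k1) := by
      have : 4 * (A * E / k1) = 4 * (A * E) / k1 := by ring
      rw [this]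
      exact div_lt_div_of_pos_right (by linarith) hk
    linarith
  have hw0 : (0 : ℝ) < w := by linarith
  refine ⟨α, β, w, hαβ, hwr, hK1w, hw4, hcent.1, hcent.2, ?_⟩
  have hG0 : 0 < A / 4 * E := by positivity
  have hfin := Pool.Agent.W_1b8d5d_p.lstar h.adm h.lat (n := n) (w := w) (G := A / 4 * E) (Λ := (4 * C + 7) * E) (p := 16 / 9 * 10⁻¹ ^ 7)
    (pb := 16 / 9 * (1 / A)) (y0 := 6 * (A * E)) (r := 25) hK1w hG0
    (by have := le_abs_self (CL F k1 K1); linarith) (by have := le_abs_self (CP F); linarith) (by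
      rw [div_le_iff₀ (by positivity)]
      have h1 : k1 * w ≥ 4 * (A * E) := by
        have := mul_le_mul_of_nonneg_left hw4 hk.le
        have e1 : k1 * (4 * (A * E / k1)) = 4 * (A * E) := by field_simp
        linarith
      have h2 : k1 ≤ κ := by
        have := h.lat.hκ
        nlinarith
      have h3 : k1 * w ≤ κ * F.co.M * w := by
        refine mul_le_mul_of_nonneg_right ?_ hw0.le
        nlinarith
      have h4 : κ * F.co.M / 2 * (4 * w) = 2 * (κ * F.co.M * w) := by ring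
      rw [h4]
      have h5 : A / 4 * E = A * E / 4 := by ring
      have h6 : 0 < A * E := by positivity
      linarith)
    (by positivity) (fun l => h.line (by
      have : k1 * (R - 3) ≤ k1 * (R - 1) := mul_le_mul_of_nonneg_left (by linarith) hk.le
      linarith) l) (fun l => by
      have := h.hard' (A := A) (p := 10⁻¹ ^ 7) (by linarith) (by linarith) (by
        have : k1 * (R - 3) ≤ k1 * (R - 1) := mul_le_mul_of_nonneg_left (by linarith) hk.le
        linarith) hR3 (fun y hy => (hαβ y).1 hy) hmc (ε := 1) (Or.inl rfl) (W := w) hwr.ge l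
      rwa [one_mul] at this) (fun l => by
      have := h.hard' (A := A) (p := 10⁻¹ ^ 7) (by linarith) (by linarith) (by
        have : k1 * (R - 3) ≤ k1 * (R - 1) := mul_le_mul_of_nonneg_left (by linarith) hk.le
        linarith) hR3 (fun y hy => (hαβ y).1 hy) hmc (ε := -1) (Or.inr rfl) (W := w) hwr.ge l
      rwa [neg_one_mul, ← sub_eq_add_neg] at this) (fun x0 => by
      have h1 := h.box (A := A) (by linarith) (by linarith) hαβle (fun y h1 h2 => (hαβ y).2 ⟨h1, h2⟩) hwr x0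
        (u := A * E) (by positivity)
      have h2 : E / (A * E) = 1 / A := by
        field_simp
      rw [h2] at h1
      refine le_trans (measureReal_mono ?_ (measure_ne_top _ _)) h1
      intro η hη
      have hη' : 6 * (A * E) ≤ MM F d k1 0 n x0 (x0 + w) η := hη
      rw [mem_ofPred_eq]
      have h3 : (4 * C + 13) * E ≤ A * E / 2 := by
        have : (4 * C + 13) * E ≤ A / 2 * E := mul_le_mul_of_nonneg_right (by linarith) hE0.le
        linarith
      have h4 : 0 < A * E := by positivity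
      linarith) (by linarith) (by
      have h4 : 0 < A * E := by positivity
      linarith) (by
      have e1 : 32 * ((4 * C + 7) * E) / (A / 4 * E) = 128 * (4 * C + 7) / A := by
        field_simp
        ring
      rw [e1]
      have h1 : 128 * (4 * C + 7) / A ≤ 128 * 4 / 10 ^ 8 := by
        rw [div_le_div_iff₀ (by positivity) (by positivity)]
        nlinarith
      have h2 : 1 / A ≤ 1 / 10 ^ 8 := div_le_div_of_nonneg_left (by norm_num) (by norm_num) hA1
      have h3 : Real.exp 2 ≤ 8 := by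
        have h4 := Real.exp_one_lt_d9
        have h5 : Real.exp 2 = Real.exp 1 * Real.exp 1 := by rw [← Real.exp_add]; norm_num
        have h6 := Real.exp_pos 1
        rw [h5]
        nlinarith
      have h4 := Real.exp_pos 2
      have h5 : 16 / 9 * (1 / A) + 8 * (16 / 9 * 10⁻¹ ^ 7) + 128 * (4 * C + 7) / A ≤ 1 / 10 ^ 5 := by
        have : (10⁻¹ : ℝ) ^ 7 = 1 / 10 ^ 7 := by norm_num
        rw [this]
        norm_num at h1 h2 ⊢
        linarith
      have h6 : (3 + 16 * (25 : ℝ)) * (2 * Real.exp 2) ≤ 6448 := by nlinarith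
      have h7 : 0 ≤ (3 + 16 * (25 : ℝ)) * (2 * Real.exp 2) := by positivity
      calc _ ≤ 1 / 10 ^ 5 * ((3 + 16 * (25 : ℝ)) * (2 * Real.exp 2)) := mul_le_mul_of_nonneg_right h5 h7
        _ ≤ 1 / 10 ^ 5 * 6448 := mul_le_mul_of_nonneg_left h6 (by norm_num)
        _ ≤ 1 := by norm_num)
  intro k hkn o
  have h1 := hfin k hkn o
  have e1 : 1 / (6 * (A * E) + A / 4 * E) = 4 / (25 * (A * E)) := by
    field_simp
    ring
  have e2 : A / 4 * E / (8 * w) = A * E / (32 * w) := by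
    field_simp
    ring
  rw [e1, e2] at h1
  exact h1

end

end Pool.Agent.W_1b8d5d_p
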