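import Pool.Agent.W_1b8d5d_p.FrameB
import Pool.Agent.W_1b8d5d_p.UnitT

/-!
MP_1b8d5d_pr, Track P. The frame, assembly: (L*) at every large scale for a family of directions, in the moving frame, with constants
which depend on the law and on the family only.
-/

namespace Pool.Agent.W_1b8d5d_p

open MeasureTheory Set
open Pool.Agent.W_1b8d5d_h85

noncomputable section

/-- (MC): large means are large with high probability. -/
def MCz (F : Fm) (Ds : Set Dr) : Prop :=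
  ∀ p : ℝ, 0 < p → ∃ (Ap : ℝ) (n0 : ℕ), ∀ d ∈ Ds, ∀ n : ℕ, n0 ≤ n → ∀ (y : ℤ) (u : ℝ), Ap * EE F d n < e F d n y →
    2 * u < e F d n y → (law F).real {η | X F d η 0 n y ≤ u} ≤ p

/-- The direction with another slope. -/
def Dr.at (d : Dr) (r : ℝ) : Dr := { d with v := r }

/-- **(L\*)** at the scale `n`, in the moving frame of slope `r`: `N` = duration of the cheap interval `[α, β]`, `w` its length,
`E` the unit, `A` the level. -/
structure LsAt (F : Fm) (d : Dr) (n N w : ℕ) (A E r : ℝ) (α β : ℤ) : Prop where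
  int : ∀ y : ℤ, e F d N y ≤ A * E ↔ α ≤ y ∧ y ≤ β
  hw : (w : ℝ) = (β : ℝ) - α + 2
  w1 : 1 ≤ w
  ls : ∀ k ≤ n, ∀ o, ∫ η, Real.exp (4 / (25 * (A * E)) * TL F (d.at r) (A * E / (32 * w)) o w k η) ∂(law F) ≤
    2 * Real.exp 2

variable {F : Fm} {κ K : ℝ} {Ds : Set Dr}

theorem Adm.at {d : Dr} (h : Adm F κ d) (r : ℝ) : Adm F κ (d.at r) :=
  ⟨h.κ0, h.h1n, h.h2n, h.h1b, h.h2b, h.loop⟩

/-- **THE FRAME AT EVERY SCALE.** -/
theorem Dirs.frame (h : Dirs F κ K Ds) (hr : Rate F Ds) (hg : Grow F Ds) (hmc : MCz F Ds) :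
    ∃ (A k1 : ℝ) (H n0 : ℕ), 10 ^ 8 ≤ A ∧ 0 < k1 ∧ 1 ≤ H ∧ 1 ≤ n0 ∧ ∀ d ∈ Ds, ∀ n : ℕ, n0 ≤ n →
      ∃ (r : ℝ) (N w : ℕ) (α β : ℤ), k1 ≤ κ ∧ |r - d.v| ≤ 1 ∧ n ≤ N ∧ N ≤ H * n ∧
        4 * (A * EE F d (H * n) / k1) ≤ w ∧ LsAt F d n N w A (EE F d (H * n)) r α β := by
  classical
  rcases Ds.eq_empty_or_nonempty with h0 | ⟨d0, hd0⟩
  · refine ⟨10 ^ 8, 1, 1, 1, le_rfl, one_pos, le_rfl, le_rfl, fun d hd => ?_⟩
    rw [h0] at hd
    exact absurd hd (notMem_empty _)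
  have hκ := (h.adm d0 hd0).κ0
  have hK0 : 0 ≤ K := (abs_nonneg _).trans (h.slope d0 hd0)
  have hR1 : (1 : ℝ) ≤ F.co.R := by exact_mod_cast F.co.R_pos
  have hM : (1 : ℝ) ≤ F.co.M := by exact_mod_cast F.co.M_pos
  have hb := b_pos F
  obtain ⟨K1, hK1⟩ : ∃ K1 : ℝ, K1 = F.co.R + K + 1 := ⟨_, rfl⟩
  have hK10 : 1 ≤ K1 := by rw [hK1]; linarith
  obtain ⟨k1, hk1⟩ : ∃ k1 : ℝ, k1 = κ / K1 := ⟨_, rfl⟩
  have hk10 : 0 < k1 := by rw [hk1]; positivity
  have hk1K : k1 * K1 = κ := by rw [hk1]; field_simp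
  have hk1κ : k1 ≤ κ := by nlinarith
  have hbbL : 0 ≤ bb F * F.co.L := by
    have := bbn_nonneg F 1
    push_cast at this
    linarith
  obtain ⟨R0, hR0⟩ : ∃ R0 : ℝ, R0 = (bb F * F.co.L + 1) / k1 + 4 := ⟨_, rfl⟩
  have hR0k : k1 * R0 = bb F * F.co.L + 1 + 4 * k1 := by rw [hR0]; field_simp
  have hR04 : 4 ≤ R0 := by
    rw [hR0]
    have : 0 ≤ (bb F * F.co.L + 1) / k1 := by positivity
    linarith
  obtain ⟨K', n1, hn1, hK', htr⟩ := h.trav_far hr (ε := min (k1 / 8) 1) (lt_min (by positivity) one_pos) R0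
  obtain ⟨Ap, n2, hmc'⟩ := hmc (10⁻¹ ^ 7) (by norm_num)
  obtain ⟨A, hA⟩ : ∃ A : ℝ, A = max (10 ^ 8 * (30 + 2)) Ap := ⟨_, rfl⟩
  have hA1 : 10 ^ 8 * (30 + 2) ≤ A := by rw [hA]; exact le_max_left _ _
  have hA2 : Ap ≤ A := by rw [hA]; exact le_max_right _ _
  have hA0 : 0 < A := by linarith
  obtain ⟨H, hH⟩ : ∃ H : ℕ, H = 8 * K' := ⟨_, rfl⟩
  have hH1 : 1 ≤ H := by omega
  have hH0 : (1 : ℝ) ≤ H := by exact_mod_cast hH1
  obtain ⟨n3, hrate⟩ := hr (min 1 (k1 / 8) / (A * H)) (by positivity)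
  obtain ⟨n4, hgrow⟩ := hg (|CL F k1 K1| + |CP F| + (2 * C0 F.co F.b + C1 F + κ * F.co.M * (K + 1)) + k1 * K1 + k1)
  refine ⟨A, k1, H, max (max n1 n2) (max n3 (max n4 1)), by linarith, hk10, hH1,
    (le_max_right _ _).trans ((le_max_right _ _).trans (le_max_right _ _)), ?_⟩
  intro d hd n hn
  have hnn1 : n1 ≤ n := (le_max_left _ _).trans ((le_max_left _ _).trans hn)
  have hnn2 : n2 ≤ n := (le_max_right _ _).trans ((le_max_left _ _).trans hn)
  have hnn3 : n3 ≤ n := (le_max_left _ _).trans ((le_max_right _ _).trans hn)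
  have hnn4 : n4 ≤ n := (le_max_left _ _).trans ((le_max_right _ _).trans ((le_max_right _ _).trans hn))
  have hn0 : 1 ≤ n := (le_max_right _ _).trans ((le_max_right _ _).trans ((le_max_right _ _).trans hn))
  have hn0r : (1 : ℝ) ≤ n := by exact_mod_cast hn0
  have hnHn : n ≤ H * n := Nat.le_mul_of_pos_left n (by omega)
  obtain ⟨E, hE⟩ : ∃ E : ℝ, E = EE F d (H * n) := ⟨_, rfl⟩
  rw [← hE]
  have hEn : A * E ≤ min 1 (k1 / 8) * n := by
    have h1 := hrate d hd (H * n) (hnn3.trans hnHn)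
    rw [← hE] at h1
    have h2 := mul_le_mul_of_nonneg_left h1 hA0.le
    have h3 : A * (min 1 (k1 / 8) / (A * H) * ((H * n : ℕ) : ℝ)) = min 1 (k1 / 8) * n := by
      push_cast
      field_simp
    linarith
  have hEn1 : A * E ≤ n := hEn.trans (by
    have := mul_le_mul_of_nonneg_right (min_le_left 1 (k1 / 8)) (Nat.cast_nonneg (α := ℝ) n)
    linarith)
  have hEn2 : A * E ≤ k1 / 8 * n := hEn.trans (mul_le_mul_of_nonneg_right (min_le_right 1 (k1 / 8)) (Nat.cast_nonneg n))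
  have hEg := hgrow d hd (H * n) (hnn4.trans hnHn)
  rw [← hE] at hEg
  have hE0 : 0 < E := by rw [hE]; exact EE_pos F d _
  obtain ⟨r, ys, T, hT1, -, hTn, hrv, -, -, htr'⟩ := htr d hd n hnn1
  have hadm := h.adm d hd
  have htouch := h.touch d hd
  have hrv1 : |r - d.v| ≤ 1 := hrv.trans (min_le_right _ _)
  have hrK : |r| ≤ K + 1 := by
    have h1 := h.slope d hd
    have h2 := abs_sub_abs_le_abs_sub r d.v
    linarith
  have hC0 := C0_nonneg F.co hb.le
  have hC1 := C1_pos F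
  have a1 := abs_nonneg (CL F k1 K1)
  have a2 := abs_nonneg (CP F)
  have a3 : 0 ≤ κ * F.co.M * (K + 1) := by positivity
  have a4 : 0 ≤ k1 * K1 := by positivity
  have hTn4 : 4 * (T + n) ≤ H * n := by
    rw [hH]
    nlinarith
  have hTn8 : 8 * (T + n) ≤ H * n := by
    rw [hH]
    nlinarith
  have hyp : FrHyp F κ k1 K1 (d.at r) n T ys (R0 * n) E 30 := by
    refine ⟨hadm.at r, ⟨hk10, ?_, hk1K.le⟩, hn0, hT1, by linarith, by norm_num, ?_, ?_, ?_, ?_⟩
    · show F.co.R + |r| ≤ K1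
      rw [hK1]
      linarith
    · intro t ht y hy
      have h1 := htr' t ht y hy
      have h2 : EE F d (K' * n) ≤ E := by
        rw [hE]
        refine EE_mono F d ?_
        rw [hH]
        nlinarith
      have h3 : min (k1 / 8) 1 * |(y : ℝ) - (ys + r * t)| ≤ k1 / 8 * |(y : ℝ) - (ys + r * t)| :=
        mul_le_mul_of_nonneg_right (min_le_left _ _) (abs_nonneg _)
      show ep F d (T + t) y ≤ 30 * E + k1 / 8 * |(y : ℝ) - (ys + r * t)|
      linarith
    · intro m _ hm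
      rw [hE]
      exact ref_le hadm (hm.trans hTn4)
    · intro m hm hm' y
      show ep F d m y ≤ e F d m y + E
      rw [hE]
      exact ep_le_EE hadm htouch hm (hm'.trans hTn4) y
    · intro m hm hm'
      obtain ⟨y, hy⟩ := ref_le hadm (hm'.trans hTn8)
      rw [← hE] at hy
      exact (VV_pos_le hadm htouch hm y).trans hy
  have hNH : T + n + T ≤ H * n := by omega
  obtain ⟨α, β, w, h1, h2, h3, h4, -, -, h5⟩ := hyp.lstar (A := A) (by
      unfold Emin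
      have h6 : κ * F.co.M * |(d.at r).v| ≤ κ * F.co.M * (K + 1) := mul_le_mul_of_nonneg_left hrK (by positivity)
      linarith) (by linarith) (by
      have h6 : k1 * (R0 * n - 3) = (bb F * F.co.L + 1 + 4 * k1) * n - 3 * k1 := by rw [← hR0k]; ring
      rw [h6]
      nlinarith) (by
      have h6 : 4 * (A * E / k1) ≤ n / 2 := by
        have : A * E / k1 ≤ n / 8 := by
          rw [div_le_iff₀ hk10]
          linarith
        linarith
      have h7 : 4 * (n : ℝ) ≤ R0 * n := mul_le_mul_of_nonneg_right hR04 (Nat.cast_nonneg n)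
      linarith) (by
      intro y hy
      have hy' : A * E < e F d (T + n + T) y := hy
      have h6 : EE F d (T + n + T) ≤ E := by rw [hE]; exact EE_mono F d hNH
      refine hmc' d hd (T + n + T) (by omega) y (A * E / 2) ?_ (by linarith)
      have h7 := EE_pos F d (T + n + T)
      have h8 : Ap * EE F d (T + n + T) ≤ A * EE F d (T + n + T) := mul_le_mul_of_nonneg_right hA2 h7.le
      have h9 : A * EE F d (T + n + T) ≤ A * E := mul_le_mul_of_nonneg_left h6 hA0.le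
      linarith)
  refine ⟨r, T + n + T, w, α, β, hk1κ, hrv1, by omega, hNH, h4, ⟨h1, h2, ?_, h5⟩⟩
  have : (1 : ℝ) ≤ w := by linarith
  exact_mod_cast this

end

end Pool.Agent.W_1b8d5d_p
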