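import Pool.Agent.W_1b8d5d_p.FrameD
import Pool.Agent.W_1b8d5d_p.FrCov80
import Pool.Agent.W_1b8d5d_p.UnitK
import Pool.Agent.W_1b8d5d_p.FrCor

/-!
MP_1b8d5d_pr, Track P. The frame, assembly: (L*) in the original frame, with the widths `n vA n`.
-/

namespace Pool.Agent.W_1b8d5d_p

open MeasureTheory Set
open Pool.Agent.W_1b8d5d_h85
open Pool.Agent.W_1b8d5d_h4p (LawH)

noncomputable section

variable {F : Fm} {κ K : ℝ} {Ds : Set Dr}

theorem expTL_mono {d : Dr} {K0 C0 C1 s o W θ θ' : ℝ} {k : ℕ} (h : Sl F d K0 C0 C1) (hs : s ≤ K0) (hθ' : 0 ≤ θ')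
    (hθ : θ' ≤ θ) :
    ∫ η, Real.exp (θ' * TL F d s o W k η) ∂(law F) ≤ ∫ η, Real.exp (θ * TL F d s o W k η) ∂(law F) := by
  refine integral_mono (expTL_int h hs hθ') (expTL_int h hs (hθ'.trans hθ)) fun η => ?_
  exact Real.exp_le_exp.2 (mul_le_mul_of_nonneg_right hθ (TL_nonneg h hs η))

/-- The three comparisons of the frame with the widths. -/
theorem Dirs.frame_cmp (h : Dirs F κ K Ds) {d : Dr} (hd : d ∈ Ds) {A a r : ℝ} {H Hh n N w : ℕ} {α β : ℤ} (hA : 10 ^ 8 ≤ A)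
    (ha : 1 ≤ a) (hH : 1 ≤ H) (hHh : 1 ≤ Hh) (hn : 1 ≤ n) (hN : Hh * n ≤ N) (hNH : N ≤ H * (Hh * n)) (hw : 4 ≤ w)
    (hl : LsAt F d (Hh * n) N w A (EE F d (H * (Hh * n))) r α β)
    (hc : ∀ x : ℝ, A / 128 * EE F d (H * (Hh * n)) * (((Hh * n : ℕ) : ℝ) * |x - (r - d.v)|) ≤
      ((β : ℝ) - α) * (((Hh * n : ℕ) : ℝ) * J F d x + 75 * A * EE F d (H * (Hh * n)))) :
    |d.v - r| * ((Hh * n : ℕ) : ℝ) ≤ 9600 * w ∧ w ≤ 4 * A * H ^ 2 * Hh * (n * vA a F d n) ∧
      n * vA a F d n ≤ 256 * (a + 75) * w := by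
  have hA0 : 0 < A := by linarith
  have hH0 : (1 : ℝ) ≤ H := by exact_mod_cast hH
  have hHh0 : (1 : ℝ) ≤ Hh := by exact_mod_cast hHh
  have hn0 : (1 : ℝ) ≤ n := by exact_mod_cast hn
  have hwr : (4 : ℝ) ≤ w := by exact_mod_cast hw
  have hab := hl.hw
  have hαβ : 0 ≤ (β : ℝ) - α := by linarith
  have hαβi : α ≤ β := by
    have : (α : ℝ) ≤ β := by linarith
    exact_mod_cast this
  have hm1 : 1 ≤ Hh * n := Nat.mul_pos hHh hn
  have hN1 : 1 ≤ N := hm1.trans hN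
  obtain ⟨E, hE⟩ : ∃ E, E = EE F d (H * (Hh * n)) := ⟨_, rfl⟩
  rw [← hE] at hc hl
  have hE0 : 0 < E := by rw [hE]; exact EE_pos F d _
  have hmr : ((Hh * n : ℕ) : ℝ) = Hh * n := by push_cast; ring
  rw [hmr] at hc ⊢
  have hAE : 0 < A * E := by positivity
  have h1 : |d.v - r| * (Hh * n) ≤ 9600 * (β - α) := by
    have h2 := hc 0
    rw [(h.touch d hd).zero, zero_sub, abs_neg, abs_sub_comm r d.v] at h2
    have h3 : A / 128 * E * (Hh * n * |d.v - r|) = A * E * (Hh * n * |d.v - r| / 128) := by ring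
    have h4 : ((β : ℝ) - α) * (Hh * n * 0 + 75 * A * E) = A * E * (75 * (β - α)) := by ring
    rw [h3, h4] at h2
    have h5 := le_of_mul_le_mul_left h2 hAE
    linarith
  refine ⟨by linarith, ?_, ?_⟩
  · have hEN : E ≤ H * EE F d N := by
      rw [hE]
      exact (EE_mono F d (Nat.mul_le_mul_left H hN)).trans (EE_mul F d N hH)
    have hAH : 0 ≤ A * H := by positivity
    have key : ∀ y : ℤ, α ≤ y → y ≤ β → |(y : ℝ) - d.v * N| ≤ vA (A * H) F d N * N := by
      intro y y1 y2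
      refine h.e_cone hd hAH hN1 (((hl.int y).2 ⟨y1, y2⟩).trans ?_)
      rw [mul_assoc]
      exact mul_le_mul_of_nonneg_left hEN hA0.le
    have k1 := abs_le.1 (key α le_rfl hαβi)
    have k2 := abs_le.1 (key β hαβi le_rfl)
    have k3 : (β : ℝ) - α ≤ 2 * (N * vA (A * H) F d N) := by linarith [k1.1, k2.2]
    have k4 := h.w_mono hd hAH hN1 hNH
    have k5 : vA (A * H) F d (H * (Hh * n)) ≤ vA (A * H) F d n := by
      rw [← mul_assoc]
      exact h.vA_mul_le hd hAH hn (Nat.mul_pos hH hHh)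
    have k6 : vA (A * H) F d n ≤ A * H * vA a F d n := by
      have g1 := h.vA_level_mono hd hAH (show A * H ≤ A * H * a by nlinarith) n
      exact g1.trans (h.vA_level_mul hd (by linarith) (by nlinarith) n)
    have k7 : ((H * (Hh * n) : ℕ) : ℝ) * vA (A * H) F d (H * (Hh * n)) ≤ H * (Hh * n) * (A * H * vA a F d n) := by
      push_cast
      exact mul_le_mul_of_nonneg_left (k5.trans k6) (by positivity)
    have k8 : (β : ℝ) - α ≤ 2 * (H * (Hh * n) * (A * H * vA a F d n)) := by linarith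
    nlinarith
  · obtain ⟨R, hR⟩ : ∃ R : ℝ, R = 128 * (β - α) * (a + 75) / n := ⟨_, rfl⟩
    have hR0 : 0 ≤ R := by rw [hR]; positivity
    have hEn : EE F d n ≤ E := by
      rw [hE]
      exact EE_mono F d ((Nat.le_mul_of_pos_left n (by omega)).trans (Nat.le_mul_of_pos_left _ (by omega)))
    have h2 : vA a F d n ≤ 2 * R := by
      rw [h.vA_wd hd (by linarith)]
      refine wd_le32 (r := r - d.v) hR0 fun x hx => ?_
      rw [le_div_iff₀ (by linarith)] at hx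
      have h3 : ((Hh : ℝ) * n) * J F d x ≤ Hh * (a * E) := by
        have g1 : a * EE F d n ≤ a * E := mul_le_mul_of_nonneg_left hEn (by linarith)
        have g2 : (Hh : ℝ) * (J F d x * n) ≤ Hh * (a * E) := mul_le_mul_of_nonneg_left (hx.trans g1) (by linarith)
        linarith
      have h4 : ((β : ℝ) - α) * (Hh * n * J F d x + 75 * A * E) ≤ (β - α) * (A * Hh * E * (a + 75)) := by
        refine mul_le_mul_of_nonneg_left ?_ hαβ
        have g3 : (Hh : ℝ) * (a * E) ≤ A * Hh * E * a := by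
          have : 0 ≤ (Hh : ℝ) * E * a := by positivity
          nlinarith
        have g4 : 75 * A * E ≤ A * Hh * E * 75 := by
          have : 0 ≤ A * E := hAE.le
          nlinarith
        linarith
      have h5 := (hc x).trans h4
      have h6 : A / 128 * E * (Hh * n * |x - (r - d.v)|) = A * Hh * E * (n * |x - (r - d.v)| / 128) := by ring
      have h7 : ((β : ℝ) - α) * (A * Hh * E * (a + 75)) = A * Hh * E * ((β - α) * (a + 75)) := by ring
      rw [h6, h7] at h5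
      have h8 := le_of_mul_le_mul_left h5 (by positivity)
      rw [hR, le_div_iff₀ (by linarith)]
      linarith
    have h9 : n * vA a F d n ≤ n * (2 * R) := mul_le_mul_of_nonneg_left h2 (by linarith)
    have h10 : (n : ℝ) * (2 * R) = 256 * (a + 75) * (β - α) := by
      rw [hR]
      field_simp
      ring
    have h11 : 256 * (a + 75) * ((β : ℝ) - α) ≤ 256 * (a + 75) * w :=
      mul_le_mul_of_nonneg_left (by linarith) (by linarith)
    linarith

/-- **(L\*) in the original frame**, at every level `a` of the widths and for every multiple `Λ` of the widths. -/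
theorem Dirs.lsU (h : Dirs F κ K Ds) (hr : Rate F Ds) (hg : Grow F Ds) (hmc : MCz F Ds) {a : ℝ} (ha : 1 ≤ a) {Hh : ℕ}
    (hHh : 1 ≤ Hh) :
    ∃ (c0 : ℝ) (n0 : ℕ), 0 < c0 ∧ c0 ≤ 1 ∧ 1 ≤ n0 ∧ ∀ Λ : ℝ, 1 ≤ Λ → ∃ C : ℝ, 1 ≤ C ∧ ∀ c : ℝ, 0 < c → c ≤ c0 →
      ∀ d ∈ Ds, ∀ n : ℕ, n0 ≤ n → ∀ N ≤ Hh * n, ∀ o : ℝ,
        ∫ η, Real.exp (c / EE F d n *
          TL F d (c * EE F d n / (Λ * (n * vA a F d n))) o (Λ * (n * vA a F d n)) N η) ∂(law F) ≤ C ∧
        ∫ η, Real.exp (c / EE F d n *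
          TLr F d (c * EE F d n / (Λ * (n * vA a F d n))) o (Λ * (n * vA a F d n)) N η) ∂(law F) ≤ C := by
  obtain ⟨A, k1, H, n0, hA, hk1, hH, hn0, hf⟩ := h.frameD hr hg hmc
  have hA0 : 0 < A := by linarith
  have hH0 : (1 : ℝ) ≤ H := by exact_mod_cast hH
  have hHh0 : (1 : ℝ) ≤ Hh := by exact_mod_cast hHh
  obtain ⟨c0, hc0, h01, h02, h03⟩ : ∃ c0 : ℝ, 0 < c0 ∧ c0 ≤ 1 ∧ c0 ≤ 4 / (25 * A * H * Hh) ∧ c0 ≤ 1 / (128 * H ^ 2 * Hh) :=
    ⟨min 1 (min (4 / (25 * A * H * Hh)) (1 / (128 * H ^ 2 * Hh))), by positivity, min_le_left _ _,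
      (min_le_right _ _).trans (min_le_left _ _), (min_le_right _ _).trans (min_le_right _ _)⟩
  refine ⟨c0, n0, hc0, h01, hn0, fun Λ hΛ => ?_⟩
  obtain ⟨C3, hC3⟩ : ∃ C3 : ℝ, C3 = 256 * (a + 75) := ⟨_, rfl⟩
  have hC30 : 0 < C3 := by rw [hC3]; positivity
  refine ⟨Real.exp 48 * ((Λ * C3 + 19201) * (2 * Real.exp 2)), ?_, fun c hc hcc0 d hd n hn N hN => ?_⟩
  · have g1 : 1 ≤ Real.exp 48 := Real.one_le_exp (by norm_num)
    have g2 : 1 ≤ Real.exp 2 := Real.one_le_exp (by norm_num)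
    have g3 : 0 ≤ Λ * C3 := by positivity
    have g4 : 1 ≤ (Λ * C3 + 19201) * (2 * Real.exp 2) := by nlinarith
    nlinarith
  have hadm := h.adm d hd
  have hn1 : 1 ≤ n := hn0.trans hn
  have hn1r : (1 : ℝ) ≤ n := by exact_mod_cast hn1
  have hnm : n ≤ Hh * n := Nat.le_mul_of_pos_left n (by omega)
  obtain ⟨r, N0, w, α, β, q1, q2, q3, q4, q5, q6, q7, q8⟩ := hf d hd (Hh * n) (hn.trans hnm)
  obtain ⟨r1, r2, r3⟩ := h.frame_cmp hd hA ha hH hHh hn1 q3 q4 q6 q7 q8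
  obtain ⟨E, hE⟩ : ∃ E, E = EE F d (H * (Hh * n)) := ⟨_, rfl⟩
  rw [← hE] at q5 q7 q8
  obtain ⟨En, hEn⟩ : ∃ En, En = EE F d n := ⟨_, rfl⟩
  have hE0 : 0 < E := by rw [hE]; exact EE_pos F d _
  have hEn0 : 0 < En := by rw [hEn]; exact EE_pos F d _
  have hEE1 : En ≤ E := by
    rw [hE, hEn]
    exact EE_mono F d (hnm.trans (Nat.le_mul_of_pos_left _ (by omega)))
  have hEE2 : E ≤ H * Hh * En := by
    rw [hE, hEn, ← mul_assoc]
    have := EE_mul F d n (Nat.mul_pos hH hHh)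
    push_cast at this
    exact this
  rw [← hEn]
  obtain ⟨V, hV⟩ : ∃ V, V = n * vA a F d n := ⟨_, rfl⟩
  rw [← hV] at r2 r3 ⊢
  have hV0 : 0 < V := by
    rw [hV]
    have := h.vA_pos hd (show 0 < a by linarith) hn1
    positivity
  have hwr : (4 : ℝ) ≤ w := by exact_mod_cast q6
  have hw0 : (0 : ℝ) < w := by linarith
  obtain ⟨W, hW⟩ : ∃ W, W = Λ * V := ⟨_, rfl⟩
  rw [← hW]
  have hVW : V ≤ W := by rw [hW]; nlinarith
  have hW0 : 0 < W := by linarith
  have hsl := sl_of hadm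
  have hM : (1 : ℝ) ≤ F.co.M := by exact_mod_cast F.co.M_pos
  have hs'0 : 0 ≤ c * En / W := by positivity
  have hss : c * En / W ≤ A * E / (32 * w) := by
    rw [div_le_div_iff₀ hW0 (by positivity)]
    have g1 : c ≤ 1 / (128 * H ^ 2 * Hh) := hcc0.trans h03
    rw [le_div_iff₀ (by positivity)] at g1
    have g2 : c * (32 * w) ≤ A * W := by
      have g3 : c * w ≤ c * (4 * A * H ^ 2 * Hh * V) := mul_le_mul_of_nonneg_left r2 hc.le
      have g4 : c * (4 * A * H ^ 2 * Hh * V) = c * (128 * H ^ 2 * Hh) * (A * V) / 32 := by ring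
      have g5 : c * (128 * H ^ 2 * Hh) * (A * V) ≤ 1 * (A * V) := mul_le_mul_of_nonneg_right g1 (by positivity)
      have g6 : A * V ≤ A * W := mul_le_mul_of_nonneg_left hVW hA0.le
      linarith
    calc c * En * (32 * w) = En * (c * (32 * w)) := by ring
      _ ≤ E * (A * W) := mul_le_mul hEE1 g2 (by positivity) hE0.le
      _ = A * E * W := by ring
  have hsK : A * E / (32 * w) ≤ κ * F.co.M := by
    have g1 : A * E / k1 ≤ w / 4 := by linarith
    rw [div_le_iff₀ hk1] at g1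
    have g2 : A * E / (32 * w) ≤ k1 := by
      rw [div_le_iff₀ (by positivity)]
      nlinarith
    have g3 : κ * 1 ≤ κ * F.co.M := mul_le_mul_of_nonneg_left hM hadm.κ0.le
    linarith
  have hθ0 : 0 < 4 / (25 * (A * E)) := by positivity
  have hθ : c / En ≤ 4 / (25 * (A * E)) := by
    rw [div_le_div_iff₀ hEn0 (by positivity)]
    have g1 : c ≤ 4 / (25 * A * H * Hh) := hcc0.trans h02
    rw [le_div_iff₀ (by positivity)] at g1
    have g2 : c * (25 * (A * E)) ≤ c * (25 * (A * (H * Hh * En))) := by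
      refine mul_le_mul_of_nonneg_left ?_ hc.le
      exact mul_le_mul_of_nonneg_left (mul_le_mul_of_nonneg_left hEE2 hA0.le) (by norm_num)
    have g3 : c * (25 * (A * (H * Hh * En))) = c * (25 * A * H * Hh) * En := by ring
    have g4 : c * (25 * A * H * Hh) * En ≤ 4 * En := mul_le_mul_of_nonneg_right g1 hEn0.le
    linarith
  have main : ∀ o : ℝ, ∫ η, Real.exp (c / En * TL F d (c * En / W) o W N η) ∂(law F) ≤
      Real.exp 48 * ((Λ * C3 + 19201) * (2 * Real.exp 2)) := by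
    intro o
    refine (expTL_mono hsl (hss.trans hsK) (by positivity) hθ).trans ?_
    refine (cover80 hsl hs'0 hss hsK hw0 hW0 hθ0 (r := r) (B := 2 * Real.exp 2) (D := 9600 * w) ?_
      (fun o => q7.ls N hN o) o).trans ?_
    · refine le_trans (mul_le_mul_of_nonneg_left ?_ (abs_nonneg _)) r1
      exact_mod_cast hN
    · refine mul_le_mul ?_ ?_ (by positivity) (Real.exp_pos _).le
      · refine Real.exp_le_exp.2 ?_
        have g1 : 4 / (25 * (A * E)) * (c * En / W * (9600 * w)) ≤ 4 / (25 * (A * E)) * (A * E / (32 * w) * (9600 * w)) :=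
          mul_le_mul_of_nonneg_left (mul_le_mul_of_nonneg_right hss (by positivity)) hθ0.le
        have g2 : 4 / (25 * (A * E)) * (A * E / (32 * w) * (9600 * w)) = 48 := by
          field_simp
          norm_num
        linarith
      · refine mul_le_mul_of_nonneg_right ?_ (by positivity)
        have g1 : (W + 2 * (9600 * w)) / w ≤ Λ * C3 + 19200 := by
          rw [div_le_iff₀ hw0]
          have g2 : W ≤ Λ * (C3 * w) := by
            rw [hW, hC3]
            exact mul_le_mul_of_nonneg_left r3 (by linarith)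
          linarith
        linarith
  exact fun o => ⟨main o, by rw [TLr_int hadm]; exact main _⟩

/-- The same for one multiple of the widths, chosen so that the two conditions of `tube_scale` hold. -/
theorem Dirs.lsTube (h : Dirs F κ K Ds) (hr : Rate F Ds) (hg : Grow F Ds) (hmc : MCz F Ds) {a : ℝ} (ha : 1 ≤ a) {Hh : ℕ}
    (hHh : 1 ≤ Hh) {k' : ℝ} (hk' : 0 < k') :
    ∃ (Λ c C : ℝ) (n0 : ℕ), 1 ≤ Λ ∧ 0 < c ∧ c ≤ 1 ∧ 1 ≤ C ∧ 1 ≤ n0 ∧ ∀ d ∈ Ds, ∀ n : ℕ, n0 ≤ n →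
      CP F ≤ EE F d n ∧ 0 < Λ * (n * vA a F d n) ∧
      c * EE F d n / (Λ * (n * vA a F d n)) ≤ k' / 2 ∧ 1 ≤ c / EE F d n * (k' / 2 * (Λ * (n * vA a F d n))) ∧
      ∀ N ≤ Hh * n, ∀ o : ℝ,
        ∫ η, Real.exp (c / EE F d n *
          TL F d (c * EE F d n / (Λ * (n * vA a F d n))) o (Λ * (n * vA a F d n)) N η) ∂(law F) ≤ C ∧
        ∫ η, Real.exp (c / EE F d n *
          TLr F d (c * EE F d n / (Λ * (n * vA a F d n))) o (Λ * (n * vA a F d n)) N η) ∂(law F) ≤ C := by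
  obtain ⟨c, n1, hc, hc1, hn1, hls⟩ := h.lsU hr hg hmc ha hHh
  obtain ⟨n2, hgrow⟩ := hg (CP F)
  have hLJ := LJ_pos F
  obtain ⟨Λ, hΛ1, hΛ2⟩ : ∃ Λ : ℝ, 1 ≤ Λ ∧ LJ F ≤ a * c * k' * Λ := by
    refine ⟨max 1 (LJ F / (a * c * k')), le_max_left _ _, ?_⟩
    have g1 := le_max_right 1 (LJ F / (a * c * k'))
    rw [div_le_iff₀ (by positivity)] at g1
    linarith
  obtain ⟨C, hC, hls'⟩ := hls Λ hΛ1
  refine ⟨Λ, c, C, max n1 n2, hΛ1, hc, hc1, hC, hn1.trans (le_max_left _ _), fun d hd n hn => ?_⟩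
  have hnn1 : n1 ≤ n := (le_max_left _ _).trans hn
  have hnn2 : n2 ≤ n := (le_max_right _ _).trans hn
  have hn0 : 1 ≤ n := hn1.trans hnn1
  have hn0r : (1 : ℝ) ≤ n := by exact_mod_cast hn0
  have hE0 := EE_pos F d n
  have hlow := h.vA_lower hd (show 0 ≤ a by linarith) hn0
  obtain ⟨V, hV⟩ : ∃ V, V = n * vA a F d n := ⟨_, rfl⟩
  have hV1 : 2 * (a * EE F d n) ≤ V * LJ F := by
    have g1 := mul_le_mul_of_nonneg_left hlow (show (0 : ℝ) ≤ n by linarith)
    have g2 : (n : ℝ) * (2 * (a * EE F d n / n / LJ F)) = 2 * (a * EE F d n) / LJ F := by field_simp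
    rw [g2, div_le_iff₀ hLJ, ← hV] at g1
    exact g1
  rw [← hV]
  have hV0 : 0 < V := by
    rw [hV]
    have := h.vA_pos hd (show 0 < a by linarith) hn0
    positivity
  have hW0 : 0 < Λ * V := by positivity
  have key : 2 * EE F d n ≤ c * k' * (Λ * V) := by
    have g1 : LJ F * V ≤ a * c * k' * Λ * V := mul_le_mul_of_nonneg_right hΛ2 hV0.le
    have g2 : a * (2 * EE F d n) ≤ a * (c * k' * (Λ * V)) := by linarith
    exact le_of_mul_le_mul_left g2 (by linarith)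
  refine ⟨hgrow d hd n hnn2, hW0, ?_, ?_, fun N hN o => ?_⟩
  · rw [div_le_div_iff₀ hW0 two_pos]
    have g1 : c * (c * k' * (Λ * V)) ≤ 1 * (k' * (Λ * V)) := by
      have g2 : c * c ≤ 1 := by nlinarith
      have g3 : 0 ≤ k' * (Λ * V) := by positivity
      nlinarith
    have g4 : c * (2 * EE F d n) ≤ c * (c * k' * (Λ * V)) := mul_le_mul_of_nonneg_left key hc.le
    linarith
  · have g1 : c / EE F d n * (k' / 2 * (Λ * V)) = c * k' * (Λ * V) / (2 * EE F d n) := by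
      field_simp
    rw [g1, one_le_div (by positivity)]
    exact key
  · have := hls' c hc le_rfl d hd n hnn1 N hN o
    rw [← hV] at this
    exact this

/-- **(L0)**: the exponential moments of the lucks of one point. -/
theorem Dirs.l0 (h : Dirs F κ K Ds) (hr : Rate F Ds) (hg : Grow F Ds) (hmc : MCz F Ds) {Hh : ℕ} (hHh : 1 ≤ Hh) :
    ∃ (c C : ℝ) (n0 : ℕ), 0 < c ∧ c ≤ 1 ∧ 1 ≤ C ∧ 1 ≤ n0 ∧ ∀ d ∈ Ds, ∀ n : ℕ, n0 ≤ n → ∀ N : ℕ, 1 ≤ N → N ≤ Hh * n →
      Integrable (fun η => Real.exp (c / EE F d n * VV F d η 0 N)) (law F) ∧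
        ∫ η, Real.exp (c / EE F d n * VV F d η 0 N) ∂(law F) ≤ C := by
  rcases Ds.eq_empty_or_nonempty with hemp | ⟨d0, hd0⟩
  · refine ⟨1, 1, 1, one_pos, le_rfl, le_rfl, le_rfl, fun d hd => ?_⟩
    rw [hemp] at hd
    exact absurd hd (notMem_empty _)
  have hκ := (h.adm d0 hd0).κ0
  have hM : (1 : ℝ) ≤ F.co.M := by exact_mod_cast F.co.M_pos
  obtain ⟨Λ, c, C, n0, hΛ, hc, hc1, hC, hn0, hls⟩ := h.lsTube hr hg hmc (a := 1) le_rfl hHh (k' := κ) hκ
  refine ⟨c, C, n0, hc, hc1, hC, hn0, fun d hd n hn N hN hNn => ?_⟩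
  obtain ⟨-, hW, hk, -, hL⟩ := hls d hd n hn
  have hE0 := EE_pos F d n
  have hsl := sl_of (h.adm d hd)
  have hsK : c * EE F d n / (Λ * (n * vA 1 F d n)) ≤ κ * F.co.M := by
    have g1 : κ * 1 ≤ κ * F.co.M := mul_le_mul_of_nonneg_left hM hκ.le
    linarith
  have hi : Integrable (fun η => Real.exp (c / EE F d n * VV F d η 0 N)) (law F) := by
    refine Integrable.mono' (integrable_const (Real.exp (c / EE F d n * (C1 F * N))))
      (Real.measurable_exp.comp ((VV_meas F d 0 N).const_mul _)).aestronglyMeasurable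
      (Filter.Eventually.of_forall fun η => ?_)
    rw [Real.norm_eq_abs, abs_of_pos (Real.exp_pos _)]
    exact Real.exp_le_exp.2 (mul_le_mul_of_nonneg_left (VV_upper (h.adm d hd) η 0 hN) (by positivity))
  refine ⟨hi, (integral_mono hi (expTL_int (o := 0) (W := Λ * (n * vA 1 F d n)) (k := N) hsl hsK
    (show 0 ≤ c / EE F d n by positivity)) fun η => ?_).trans (hL N hNn 0).1⟩
  exact Real.exp_le_exp.2 (mul_le_mul_of_nonneg_left (VV_le_TL hsl (by positivity) hsK hW le_rfl η hN) (by positivity))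

end

end Pool.Agent.W_1b8d5d_p
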