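import Pool.Agent.W_1b8d5d_p.Rf35

/-!
MP_1b8d5d_pr, Track P2, geometry: the gradient of a planar norm with the local doubling is bi-Hoelder on the unit circle.
-/

set_option autoImplicit false

namespace Pool.Agent.W_1b8d5d_p

open MeasureTheory Set Filter Topology

variable {μ : (Fin 2 → ℝ) → ℝ} {a b C δ : ℝ} {S : (Fin 2 → ℝ) → ((Fin 2 → ℝ) →ₗ[ℝ] ℝ)}

/-- The supporting form is the gradient. -/
theorem fderiv_eq35 (hN : NormP μ a b) (hS : SF35 μ C δ S) {x : Fin 2 → ℝ} (hx : μ x = 1) (v : Fin 2 → ℝ) :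
    fderiv ℝ μ x v = S x v := by
  obtain ⟨g1, g2, -⟩ := hS x (by rw [hx]; norm_num)
  obtain ⟨L, hL⟩ : ∃ L : (Fin 2 → ℝ) →L[ℝ] ℝ, ∀ v, L v = S x v := ⟨LinearMap.toContinuousLinearMap (S x), fun _ => rfl⟩
  have h1 : IsLocalMin (fun y => μ y - L y) x := by
    refine Filter.Eventually.of_forall fun y => ?_
    show μ x - L x ≤ μ y - L y
    rw [hL, hL, g2, sub_self]
    have := g1 y
    linarith
  have h2 : HasFDerivAt (fun y => μ y - L y) (fderiv ℝ μ x - L) x :=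
    (hN.diff x (ne_zero35 hN hx)).hasFDerivAt.sub L.hasFDerivAt
  have h3 : fderiv ℝ μ x - L = 0 := by
    have h4 := h1.fderiv_eq_zero
    rwa [h2.fderiv] at h4
  have h5 : fderiv ℝ μ x = L := sub_eq_zero.1 h3
  rw [h5, hL]

theorem cramer35 (x w v : Fin 2 → ℝ) : crs x w • v = crs v w • x + crs x v • w := by
  funext i
  unfold crs
  fin_cases i
  · show (x 0 * w 1 - x 1 * w 0) * v 0 = (v 0 * w 1 - v 1 * w 0) * x 0 + (x 0 * v 1 - x 1 * v 0) * w 0
    ring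
  · show (x 0 * w 1 - x 1 * w 0) * v 1 = (v 0 * w 1 - v 1 * w 0) * x 1 + (x 0 * v 1 - x 1 * v 0) * w 1
    ring

theorem abs_crs_le35 (x y : Fin 2 → ℝ) : |crs x y| ≤ 2 * (‖x‖ * ‖y‖) := by
  unfold crs
  refine (abs_sub _ _).trans ?_
  rw [abs_mul, abs_mul]
  have g4 : |x 0| * |y 1| ≤ ‖x‖ * ‖y‖ := mul_le_mul (abs_apply_le x 0) (abs_apply_le y 1) (abs_nonneg _) (norm_nonneg _)
  have g5 : |x 1| * |y 0| ≤ ‖x‖ * ‖y‖ := mul_le_mul (abs_apply_le x 1) (abs_apply_le y 0) (abs_nonneg _) (norm_nonneg _)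
  linarith

/-- **The gradient is bi-Hoelder on the unit circle.** -/
theorem grad35 (hN : NormP μ a b) (ha : 0 < a) (hS : SF35 μ C δ S) {ρ D α c K : ℝ} (hρ : 0 < ρ) (hD : 1 ≤ D) (hα : 0 < α)
    (hnear : ∀ x y : Fin 2 → ℝ, μ x = 1 → μ y = 1 → ‖y - x‖ ≤ ρ → μ y - S x y ≤ D * ‖y - x‖ ^ (1 + α))
    (hc : 0 < c)
    (hcurv : ∀ x y : Fin 2 → ℝ, μ x = 1 → μ y = 1 → c * ‖x - y‖ ^ K ≤ μ x + μ y - μ (x + y)) :
    ∃ m M : ℝ, 0 < m ∧ 0 < M ∧ ∀ x y : Fin 2 → ℝ, μ x = 1 → μ y = 1 →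
      m * ‖x - y‖ ^ K ≤ ‖fderiv ℝ μ x - fderiv ℝ μ y‖ ∧ ‖fderiv ℝ μ x - fderiv ℝ μ y‖ ≤ M * ‖x - y‖ ^ α := by
  have hb := hN.b0_35 ha
  obtain ⟨Q, hQ⟩ : ∃ Q, Q = (2 * b / a + 1) * (2 * b) := ⟨_, rfl⟩
  have hQ0 : 0 < Q := by rw [hQ]; positivity
  obtain ⟨r, hr⟩ : ∃ r, r = min (min ρ 1) (1 / (8 * b)) := ⟨_, rfl⟩
  have hr0 : 0 < r := by rw [hr]; positivity
  have hr1 : r ≤ ρ := by rw [hr]; exact (min_le_left _ _).trans (min_le_left _ _)
  have hr2 : r ≤ 1 / (8 * b) := by rw [hr]; exact min_le_right _ _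
  have hr3 : r ≤ 1 := by rw [hr]; exact (min_le_left _ _).trans (min_le_right _ _)
  obtain ⟨M, hM⟩ : ∃ M, M = Q * (2 * D + 2 / a * (2 * D)) + 4 * b / r ^ α := ⟨_, rfl⟩
  have hMa : 0 < Q * (2 * D + 2 / a * (2 * D)) := by positivity
  have hMb : 0 < 4 * b / r ^ α := by positivity
  -- the norm of one gradient
  have hbd : ∀ x : Fin 2 → ℝ, μ x = 1 → ‖fderiv ℝ μ x‖ ≤ 2 * b := by
    intro x hx
    refine ContinuousLinearMap.opNorm_le_bound _ (by positivity) fun v => ?_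
    rw [fderiv_eq35 hN hS hx, Real.norm_eq_abs]
    obtain ⟨g1, -, -⟩ := hS x (by rw [hx]; norm_num)
    have h1 := (g1 v).trans (hN.le_norm35 ha v)
    have h2 := (g1 (-v)).trans (hN.le_norm35 ha (-v))
    rw [map_neg, norm_neg] at h2
    exact abs_le.2 ⟨by linarith, h1⟩
  refine ⟨c * a, M, by positivity, by rw [hM]; positivity, fun x y hx hy => ?_⟩
  obtain ⟨s1, s2, -⟩ := hS x (by rw [hx]; norm_num)
  obtain ⟨t1, t2, -⟩ := hS y (by rw [hy]; norm_num)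
  rw [hx] at s2
  rw [hy] at t2
  -- the value on `x - y`
  have hval : (fderiv ℝ μ x - fderiv ℝ μ y) (x - y) = (μ y - S x y) + (μ x - S y x) := by
    rw [ContinuousLinearMap.sub_apply, fderiv_eq35 hN hS hx, fderiv_eq35 hN hS hy, map_sub, map_sub, s2, t2, hx, hy]
    ring
  constructor
  · have h1 := hcurv x y hx hy
    have h2 := s1 (x + y)
    have h3 := t1 (x + y)
    rw [map_add, s2] at h2
    rw [map_add, t2] at h3
    have h4 : c * ‖x - y‖ ^ K * 2 ≤ (fderiv ℝ μ x - fderiv ℝ μ y) (x - y) := by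
      rw [hval]
      linarith
    have h5 := (fderiv ℝ μ x - fderiv ℝ μ y).le_opNorm (x - y)
    rw [Real.norm_eq_abs] at h5
    have h6 := dist_le35 hN ha hx hy
    have h7 : ‖fderiv ℝ μ x - fderiv ℝ μ y‖ * ‖x - y‖ ≤ ‖fderiv ℝ μ x - fderiv ℝ μ y‖ * (2 / a) :=
      mul_le_mul_of_nonneg_left h6 (norm_nonneg _)
    have h8 : c * ‖x - y‖ ^ K * 2 ≤ ‖fderiv ℝ μ x - fderiv ℝ μ y‖ * (2 / a) := by
      linarith [le_abs_self ((fderiv ℝ μ x - fderiv ℝ μ y) (x - y))]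
    have h9 := mul_le_mul_of_nonneg_right h8 (show 0 ≤ a / 2 by positivity)
    have e1 : ‖fderiv ℝ μ x - fderiv ℝ μ y‖ * (2 / a) * (a / 2) = ‖fderiv ℝ μ x - fderiv ℝ μ y‖ := by field_simp
    rw [e1] at h9
    linarith
  · rcases le_total ‖x - y‖ r with hxy | hxy
    · rcases (norm_nonneg (x - y)).eq_or_lt with h0 | h0
      · have hxy' : x = y := by
          rw [eq_comm, norm_eq_zero, sub_eq_zero] at h0
          exact h0
        rw [hxy', sub_self, norm_zero]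
        rw [hM]
        positivity
      have hyx : 0 < ‖y - x‖ := by rw [norm_sub_rev]; exact h0
      have e1 := hnear x y hx hy (by rw [norm_sub_rev]; linarith)
      have e2 := hnear y x hy hx (by linarith)
      rw [norm_sub_rev] at e1
      obtain ⟨t, ht⟩ : ∃ t, t = ‖x - y‖ := ⟨_, rfl⟩
      have hcr := crs_ge35 hN ha hx hy (by rw [norm_sub_rev]; linarith)
      rw [← hQ, norm_sub_rev] at hcr
      obtain ⟨w, hw, hyw⟩ := dir35 hyx
      rw [norm_sub_rev, ← ht] at hyw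
      rw [← ht] at e1 e2 h0 hxy hcr ⊢
      have hEx := defect_nonneg35 hS hx y
      have hEy := defect_nonneg35 hS hy x
      have hta : t ^ (1 + α) = t * t ^ α := by rw [Real.rpow_add h0, Real.rpow_one]
      have htα : 0 < t ^ α := Real.rpow_pos_of_pos h0 α
      rw [hta] at e1 e2
      -- the values on `w` and `x`
      obtain ⟨A, hA⟩ : ∃ A, A = fderiv ℝ μ x - fderiv ℝ μ y := ⟨_, rfl⟩
      rw [← hA] at hval ⊢
      have hw2 : |A w| ≤ 2 * D * t ^ α := by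
        have h1 : A (x - y) = -(t * A w) := by
          have : x - y = -(t • w) := by rw [← hyw]; abel
          rw [this, map_neg, map_smul, smul_eq_mul]
        rw [hval] at h1
        have h2 : t * |A w| ≤ t * (2 * D * t ^ α) := by
          have h3 : t * |A w| = |(μ y - S x y) + (μ x - S y x)| := by
            rw [h1, abs_neg, abs_mul, abs_of_pos h0]
          rw [h3, abs_of_nonneg (by linarith)]
          nlinarith
        exact le_of_mul_le_mul_left h2 h0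
      have hx2 : |A x| ≤ D * (t * t ^ α) := by
        have h1 : A x = μ x - S y x := by
          rw [hA, ContinuousLinearMap.sub_apply, fderiv_eq35 hN hS hx, fderiv_eq35 hN hS hy, s2, hx]
        rw [h1, abs_of_nonneg hEy]
        exact e2
      have hcw : 1 ≤ |crs x w| * Q := by
        have e3 : crs x y = t * crs x w := by rw [← hyw, crs_line35]
        rw [e3, abs_mul, abs_of_pos h0] at hcr
        have h2 : t * 1 ≤ t * (|crs x w| * Q) := by linarith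
        exact le_of_mul_le_mul_left h2 h0
      refine ContinuousLinearMap.opNorm_le_bound _ (by rw [hM]; positivity) fun v => ?_
      rw [Real.norm_eq_abs]
      have h1 : crs x w * A v = crs v w * A x + crs x v * A w := by
        have := congrArg A (cramer35 x w v)
        rw [map_add, map_smul, map_smul, map_smul, smul_eq_mul, smul_eq_mul, smul_eq_mul] at this
        exact this
      have hxn := unit_norm35 hN ha hx
      have h2 : |crs v w| ≤ 2 * ‖v‖ := by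
        have g := abs_crs_le35 v w
        have g2 : ‖v‖ * ‖w‖ ≤ ‖v‖ * 1 := mul_le_mul_of_nonneg_left hw (norm_nonneg _)
        linarith
      have h3 : |crs x v| ≤ 2 / a * ‖v‖ := by
        have g := abs_crs_le35 x v
        have g2 : ‖x‖ * ‖v‖ ≤ 1 / a * ‖v‖ := mul_le_mul_of_nonneg_right hxn (norm_nonneg _)
        have g3 : 2 / a * ‖v‖ = 2 * (1 / a * ‖v‖) := by ring
        linarith
      have h4 : |crs x w| * |A v| ≤ 2 * ‖v‖ * (D * (t * t ^ α)) + 2 / a * ‖v‖ * (2 * D * t ^ α) := by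
        rw [← abs_mul, h1]
        refine (abs_add_le _ _).trans ?_
        rw [abs_mul, abs_mul]
        exact add_le_add (mul_le_mul h2 hx2 (abs_nonneg _) (by positivity)) (mul_le_mul h3 hw2 (abs_nonneg _) (by positivity))
      have h5 : 2 * ‖v‖ * (D * (t * t ^ α)) ≤ 2 * ‖v‖ * (D * (1 * t ^ α)) := by
        refine mul_le_mul_of_nonneg_left (mul_le_mul_of_nonneg_left ?_ (by linarith)) (by positivity)
        exact mul_le_mul_of_nonneg_right (by linarith) htα.le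
      have h6 : |A v| ≤ (|crs x w| * |A v|) * Q := by
        have g := mul_le_mul_of_nonneg_right hcw (abs_nonneg (A v))
        linarith
      have h7 : (|crs x w| * |A v|) * Q ≤ (2 * ‖v‖ * (D * (1 * t ^ α)) + 2 / a * ‖v‖ * (2 * D * t ^ α)) * Q :=
        mul_le_mul_of_nonneg_right (by linarith) hQ0.le
      have h8 : (2 * ‖v‖ * (D * (1 * t ^ α)) + 2 / a * ‖v‖ * (2 * D * t ^ α)) * Q =
          Q * (2 * D + 2 / a * (2 * D)) * t ^ α * ‖v‖ := by ring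
      have h9 : Q * (2 * D + 2 / a * (2 * D)) * t ^ α * ‖v‖ ≤ M * t ^ α * ‖v‖ := by
        refine mul_le_mul_of_nonneg_right (mul_le_mul_of_nonneg_right ?_ htα.le) (norm_nonneg _)
        rw [hM]
        linarith
      linarith
    · refine (norm_sub_le _ _).trans ?_
      have h1 := hbd x hx
      have h2 := hbd y hy
      have h3 : r ^ α ≤ ‖x - y‖ ^ α := Real.rpow_le_rpow hr0.le hxy hα.le
      have hrα : 0 < r ^ α := Real.rpow_pos_of_pos hr0 α
      calc ‖fderiv ℝ μ x‖ + ‖fderiv ℝ μ y‖ ≤ 4 * b := by linarith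
        _ = 4 * b / r ^ α * r ^ α := by field_simp
        _ ≤ 4 * b / r ^ α * ‖x - y‖ ^ α := mul_le_mul_of_nonneg_left h3 hMb.le
        _ ≤ M * ‖x - y‖ ^ α := by
          refine mul_le_mul_of_nonneg_right ?_ (by positivity)
          rw [hM]
          linarith

/-- **REGULARITY AND CURVATURE OF THE UNIT BALL, UNIFORMLY**, with the gradient. -/
theorem regularG35 (hN : NormP μ a b) (ha : 0 < a)
    (hLD : ∃ C δ : ℝ, 1 ≤ C ∧ 0 < δ ∧ ∀ z, μ z = 1 → LD35 μ C δ z) :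
    ∃ ε > 0, ∃ K > 0, ∃ α > 0, ∃ M > 0,
      (∀ x y : Fin 2 → ℝ, μ x = 1 → μ y = 1 →
        ε * ‖x - y‖ ^ (K : ℝ) ≤ μ x + μ y - μ (x + y) ∧ μ x + μ y - μ (x + y) ≤ M * ‖x - y‖ ^ (1 + α : ℝ)) ∧
      (∀ x y : Fin 2 → ℝ, μ x = 1 → μ y = 1 →
        ∀ z : Fin 2 → ℝ, ‖z‖ ≤ ε * ‖x - y‖ ^ (K : ℝ) → μ (midpoint ℝ x y + z) ≤ 1) ∧
      (∀ x y y' : Fin 2 → ℝ, μ x = 1 → μ y = 1 → μ y' = 1 → ‖x - y'‖ ≤ 2 * ‖x - y‖ →
        μ x + μ y' - μ (x + y') ≤ M * (μ x + μ y - μ (x + y))) ∧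
      (∀ x : Fin 2 → ℝ, x ≠ 0 → DifferentiableAt ℝ μ x) ∧
      (∀ x y : Fin 2 → ℝ, μ x = 1 → μ y = 1 →
        ε * ‖x - y‖ ^ (K : ℝ) ≤ ‖fderiv ℝ μ x - fderiv ℝ μ y‖ ∧
        ‖fderiv ℝ μ x - fderiv ℝ μ y‖ ≤ M * ‖x - y‖ ^ (α : ℝ)) := by
  obtain ⟨ε₀, hε₀, K₀, hK₀, α₀, hα₀, C₀, hC₀, h1, h2, h3⟩ := regular35 hN ha hLD
  obtain ⟨C₁, δ, hC₁, hδ, hLD⟩ := hLD
  obtain ⟨S, hS⟩ := exists_sf35 hN hδ hLD
  have hδ2 : 0 < δ / 2 := by positivity
  obtain ⟨ρ₁, D₁, α, hρ₁, hD₁, hα, hnear⟩ := near35 hN ha hS hC₁ hδ2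
  obtain ⟨m, M, hm, hM, hg⟩ := grad35 hN ha hS hρ₁ hD₁ hα (fun x y hx hy hxy => (hnear x y hx hy hxy).2.2) hε₀
    (fun x y hx hy => (h1 x y hx hy).1)
  -- the smaller of the two exponents
  obtain ⟨R, hR⟩ : ∃ R, R = max 1 (2 / a) := ⟨_, rfl⟩
  have hR1 : 1 ≤ R := by rw [hR]; exact le_max_left _ _
  have hR0 : 0 < R := by linarith
  have hd : ∀ x y : Fin 2 → ℝ, μ x = 1 → μ y = 1 → ‖x - y‖ ≤ R := fun x y hx hy => by
    rw [hR]
    exact (dist_le35 hN ha hx hy).trans (le_max_right _ _)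
  have hpow : ∀ t p p' : ℝ, 0 ≤ t → t ≤ R → 0 < p' → p' ≤ p → t ^ p ≤ R ^ p * t ^ p' := by
    intro t p p' ht htR hp' hpp
    rcases ht.eq_or_lt with h0 | h0
    · rw [← h0, Real.zero_rpow (by linarith), Real.zero_rpow hp'.ne', mul_zero]
    have e1 : t ^ p = t ^ (p - p') * t ^ p' := by rw [← Real.rpow_add h0, sub_add_cancel]
    rw [e1]
    refine mul_le_mul_of_nonneg_right ?_ (by positivity)
    exact (Real.rpow_le_rpow ht htR (by linarith)).trans (Real.rpow_le_rpow_of_exponent_le hR1 (by linarith))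
  obtain ⟨β, hβ⟩ : ∃ β, β = min α₀ α := ⟨_, rfl⟩
  have hβ0 : 0 < β := by rw [hβ]; exact lt_min hα₀ hα
  have hβ1 : β ≤ α₀ := by rw [hβ]; exact min_le_left _ _
  have hβ2 : β ≤ α := by rw [hβ]; exact min_le_right _ _
  refine ⟨min ε₀ m, lt_min hε₀ hm, K₀, hK₀, β, hβ0, C₀ + C₀ * R ^ (1 + α₀) + M * R ^ α, by positivity,
    fun x y hx hy => ⟨?_, ?_⟩, fun x y hx hy z hz => ?_, fun x y y' hx hy hy' h => ?_, hN.diff, fun x y hx hy => ⟨?_, ?_⟩⟩
  · exact (mul_le_mul_of_nonneg_right (min_le_left _ _) (by positivity)).trans (h1 x y hx hy).1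
  · refine ((h1 x y hx hy).2).trans ?_
    have g := hpow _ (1 + α₀) (1 + β) (norm_nonneg (x - y)) (hd x y hx hy) (by linarith) (by linarith)
    have p1 : 0 ≤ ‖x - y‖ ^ (1 + β) := by positivity
    calc C₀ * ‖x - y‖ ^ (1 + α₀) ≤ C₀ * (R ^ (1 + α₀) * ‖x - y‖ ^ (1 + β)) := mul_le_mul_of_nonneg_left g hC₀.le
      _ = C₀ * R ^ (1 + α₀) * ‖x - y‖ ^ (1 + β) := by ring
      _ ≤ (C₀ + C₀ * R ^ (1 + α₀) + M * R ^ α) * ‖x - y‖ ^ (1 + β) := by
        refine mul_le_mul_of_nonneg_right ?_ p1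
        have : 0 ≤ M * R ^ α := by positivity
        linarith
  · exact h3 x y hx hy z (hz.trans (mul_le_mul_of_nonneg_right (min_le_left _ _) (by positivity)))
  · refine (h2 x y y' hx hy hy' h).trans ?_
    have h0 : 0 ≤ μ x + μ y - μ (x + y) := by
      have := hN.sub x y
      linarith
    refine mul_le_mul_of_nonneg_right ?_ h0
    have q1 : 0 ≤ M * R ^ α := by positivity
    have q2 : 0 ≤ C₀ * R ^ (1 + α₀) := by positivity
    linarith
  · exact (mul_le_mul_of_nonneg_right (min_le_right _ _) (by positivity)).trans (hg x y hx hy).1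
  · refine ((hg x y hx hy).2).trans ?_
    have g := hpow _ α β (norm_nonneg (x - y)) (hd x y hx hy) hβ0 hβ2
    have p1 : 0 ≤ ‖x - y‖ ^ β := by positivity
    calc M * ‖x - y‖ ^ α ≤ M * (R ^ α * ‖x - y‖ ^ β) := mul_le_mul_of_nonneg_left g hM.le
      _ = M * R ^ α * ‖x - y‖ ^ β := by ring
      _ ≤ (C₀ + C₀ * R ^ (1 + α₀) + M * R ^ α) * ‖x - y‖ ^ β := by
        refine mul_le_mul_of_nonneg_right ?_ p1
        have : 0 ≤ C₀ * R ^ (1 + α₀) := by positivity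
        linarith

end Pool.Agent.W_1b8d5d_p
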