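import Pool.Agent.W_1b8d5d_p.MuA
import Pool.Agent.W_1b8d5d_p.Unit1

/-!
MP_1b8d5d_pr, Track P: the units tend to infinity, uniformly in the direction (`Grow`). If the mean cost of the centre at one large time
were bounded, then the positions near the centre would cost almost the same (`trav0`), one of many parallel straight runs would be
cheap with probability near one, and a detour through it would have a negative mean cost. (helper29)
-/

set_option autoImplicit false

namespace Pool.Agent.W_1b8d5d_p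

open MeasureTheory Set
open Pool.Agent.W_1b8d5d_h85 (V nm dir Edge Env grid ke wedges cost Bd sh rf cost_append le_cost cost_le nm_dir nm_nonneg)

noncomputable section

/-- The edges of the straight run of `N` steps in the direction `s` from `x`. -/
def run (x : V) (s : Bool) (N : ℕ) : Finset Edge := (Finset.range N).image fun i : ℕ => (x + (i : ℤ) • dir s, s)

theorem mem_run {x : V} {s : Bool} {N : ℕ} {e : Edge} : e ∈ run x s N ↔ ∃ i : ℕ, i < N ∧ (x + (i : ℤ) • dir s, s) = e := by
  unfold run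
  rw [Finset.mem_image]
  simp only [Finset.mem_range]

theorem dir_ne (s : Bool) : dir s ≠ 0 := by
  cases s <;> simp [dir]

theorem run_card (x : V) (s : Bool) (N : ℕ) : (run x s N).card = N := by
  unfold run
  rw [Finset.card_image_of_injective, Finset.card_range]
  intro i j h
  have h1 : x + (i : ℤ) • dir s = x + (j : ℤ) • dir s := congrArg Prod.fst h
  have h2 : (i : ℤ) • dir s = (j : ℤ) • dir s := add_left_cancel h1
  have h3 : (i : ℤ) = j := by
    cases s
    · have := congrArg Prod.fst h2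
      simpa [dir] using this
    · have := congrArg Prod.snd h2
      simpa [dir] using this
  exact_mod_cast h3

theorem run_walk (x : V) (s : Bool) (N : ℕ) : ∃ w : grid.Walk x (x + (N : ℤ) • dir s),
    wedges w = (List.range N).map fun i : ℕ => (x + (i : ℤ) • dir s, s) := by
  induction N with
  | zero =>
    have e : x + ((0 : ℕ) : ℤ) • dir s = x := by simp
    exact ⟨(SimpleGraph.Walk.nil : grid.Walk x x).copy rfl e.symm, by simp [wedges]⟩
  | succ N ih =>
    obtain ⟨w, hw⟩ := ih
    have e1 : x + ((N + 1 : ℕ) : ℤ) • dir s = x + (N : ℤ) • dir s + dir s := by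
      push_cast
      rw [add_smul, one_smul, add_assoc]
    have hadj : grid.Adj (x + (N : ℤ) • dir s) (x + ((N + 1 : ℕ) : ℤ) • dir s) := ⟨s, Or.inl e1⟩
    refine ⟨w.concat hadj, ?_⟩
    unfold wedges at hw ⊢
    rw [SimpleGraph.Walk.edges_concat, List.concat_eq_append, List.map_append, hw, List.range_succ, List.map_append]
    congr 1
    rw [List.map_cons, List.map_nil, List.map_cons, List.map_nil, e1, Pool.Agent.W_1b8d5d_h85.ke_dir]

variable {F : Fm}

/-- The end of a run whose length is a multiple of `L`. -/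
theorem run_end (c : Co) (a : Pt) (s : Bool) (j : ℕ) :
    c.vt a + ((c.L * j : ℤ)) • dir s = c.vt (a + (c.tm (dir s) * j, c.L * j * c.ps (dir s))) := by
  have h1 : ∀ m : ℤ, c.tm (m • dir s) = m * c.tm (dir s) := by
    intro m
    unfold Co.tm
    simp only [Prod.smul_fst, Prod.smul_snd, smul_eq_mul]
    ring
  have h2 : ∀ m : ℤ, c.ps (m • dir s) = m * c.ps (dir s) := by
    intro m
    unfold Co.ps
    simp only [Prod.smul_fst, Prod.smul_snd, smul_eq_mul]
    ring
  apply c.ext
  · rw [Co.tm_add, Co.tm_vt, Co.tm_vt, h1, Prod.fst_add]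
    ring
  · rw [Co.ps_add, Co.ps_vt, Co.ps_vt, h2, Prod.snd_add]

/-- The edges of the run are in the slab. -/
theorem run_slab (c : Co) (a : Pt) (s : Bool) (hs : 1 ≤ c.tm (dir s)) (j : ℕ) {e : Edge}
    (he : e ∈ run (c.vt a) s (c.L.toNat * j)) : e ∈ c.slab a.1 (a.1 + (c.tm (dir s) * j)) := by
  obtain ⟨i, hi, rfl⟩ := mem_run.1 he
  have hL := c.L_pos
  have h1 : c.tm (c.vt a + (i : ℤ) • dir s) = c.L * a.1 + i * c.tm (dir s) := by
    rw [Co.tm_add, Co.tm_vt]
    unfold Co.tm
    simp only [Prod.smul_fst, Prod.smul_snd, smul_eq_mul]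
    ring
  have h2 : c.tm (c.vt a + (i : ℤ) • dir s + dir s) = c.L * a.1 + (i + 1) * c.tm (dir s) := by
    rw [Co.tm_add, h1]
    ring
  have hi2 : (i : ℤ) + 1 ≤ c.L * j := by
    have h3 : ((c.L.toNat * j : ℕ) : ℤ) = c.L * j := by
      push_cast
      rw [Int.toNat_of_nonneg (by omega)]
    have h4 : ((i + 1 : ℕ) : ℤ) ≤ ((c.L.toNat * j : ℕ) : ℤ) := by exact_mod_cast hi
    rw [h3] at h4
    push_cast at h4
    exact h4
  have hi0 : (0 : ℤ) ≤ i := Int.natCast_nonneg i
  have h5 : c.L * (a.1 + c.tm (dir s) * j) = c.L * a.1 + (c.L * j) * c.tm (dir s) := by ring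
  have h6 : ((i : ℤ) + 1) * c.tm (dir s) ≤ (c.L * j) * c.tm (dir s) := mul_le_mul_of_nonneg_right hi2 (by omega)
  have h7 : 0 ≤ (i : ℤ) * c.tm (dir s) := mul_nonneg hi0 (by omega)
  have h8 : ((i : ℤ) + 1) * c.tm (dir s) = i * c.tm (dir s) + c.tm (dir s) := by ring
  refine ⟨?_, ?_, ?_, ?_⟩
  · show c.L * a.1 ≤ c.tm (c.vt a + (i : ℤ) • dir s)
    rw [h1]
    linarith
  · show c.tm (c.vt a + (i : ℤ) • dir s + dir s) ≤ _
    rw [h2, h5]
    linarith
  · show c.tm (c.vt a + (i : ℤ) • dir s) < _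
    rw [h1, h5]
    omega
  · show _ < c.tm (c.vt a + (i : ℤ) • dir s + dir s)
    rw [h2]
    omega

/-- The cost of the run. -/
theorem run_TT (η : Env) (a : Pt) (s : Bool) (hs : 1 ≤ F.co.tm (dir s)) (j : ℕ) {r : ℝ}
    (h : ∀ e ∈ run (F.co.vt a) s (F.co.L.toNat * j), F.tau η e ≤ r) :
    TT F.co (F.tau η) a ((F.co.tm (dir s)).toNat * j) (F.co.L * j * F.co.ps (dir s)) ≤ r * (F.co.L * j) := by
  have hL := F.co.L_pos
  have hLj : ((F.co.L.toNat * j : ℕ) : ℤ) = F.co.L * j := by
    push_cast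
    rw [Int.toNat_of_nonneg (by omega)]
  have htj : (((F.co.tm (dir s)).toNat * j : ℕ) : ℤ) = F.co.tm (dir s) * j := by
    push_cast
    rw [Int.toNat_of_nonneg (by omega)]
  obtain ⟨w, hw⟩ := run_walk (F.co.vt a) s (F.co.L.toNat * j)
  have hend : F.co.vt a + ((F.co.L.toNat * j : ℕ) : ℤ) • dir s =
      F.co.vt (a + ((((F.co.tm (dir s)).toNat * j : ℕ) : ℤ), F.co.L * j * F.co.ps (dir s))) := by
    rw [hLj, htj, run_end]
  have hmem : ∀ e ∈ wedges w, e ∈ run (F.co.vt a) s (F.co.L.toNat * j) := by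
    intro e he
    rw [hw, List.mem_map] at he
    obtain ⟨i, hi, rfl⟩ := he
    exact mem_run.2 ⟨i, List.mem_range.1 hi, rfl⟩
  have hcost : cost (F.tau η) w ≤ r * (F.co.L * j) := by
    unfold cost
    rw [hw, List.map_map]
    have h1 : ((List.range (F.co.L.toNat * j)).map ((F.tau η) ∘ fun i : ℕ => (F.co.vt a + (i : ℤ) • dir s, s))).sum ≤
        ((List.range (F.co.L.toNat * j)).map fun _ => r).sum := by
      apply List.sum_le_sum
      intro i hi
      exact h _ (mem_run.2 ⟨i, List.mem_range.1 hi, rfl⟩)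
    refine h1.trans (le_of_eq ?_)
    rw [List.map_const', List.sum_replicate, List.length_range, nsmul_eq_mul]
    have h2 : ((F.co.L.toNat * j : ℕ) : ℝ) = F.co.L * j := by
      have := congrArg (Int.cast : ℤ → ℝ) hLj
      push_cast at this ⊢
      exact this
    rw [h2]
    ring
  refine le_trans ?_ hcost
  unfold TT
  have h2 := TR_le (F.bd η) F.a0.le (w.copy rfl hend) (S := F.co.slab a.1 (a.1 + (((F.co.tm (dir s)).toNat * j : ℕ) : ℤ))) ?_
  · refine h2.trans (le_of_eq ?_)
    unfold cost wedges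
    rw [SimpleGraph.Walk.edges_copy]
  · intro e he
    have he' : e ∈ wedges w := by
      unfold wedges at he ⊢
      rwa [SimpleGraph.Walk.edges_copy] at he
    rw [htj]
    exact run_slab F.co a s hs j (hmem e he')

/-- The slope of the form in the direction `s`. -/
def Dr.hs (d : Dr) (s : Bool) : ℝ := d.H (dir s)

theorem H_run (c : Co) (d : Dr) (s : Bool) (j : ℕ) :
    al c d * (c.tm (dir s) * j : ℤ) + be c d * (c.L * j * c.ps (dir s) : ℤ) = c.L * j * d.hs s := by
  have h1 := run_end c 0 s j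
  rw [Co.vt_zero, zero_add, zero_add] at h1
  have h2 := Co.H_vt (c := c) d (c.tm (dir s) * j, c.L * j * c.ps (dir s))
  rw [← h1] at h2
  simp only at h2
  rw [← h2]
  unfold Dr.hs Dr.H
  simp only [Prod.smul_fst, Prod.smul_snd, smul_eq_mul]
  push_cast
  ring

/-- The cost of the run in the direction `d`. -/
theorem run_X (d : Dr) (η : Env) (a : Pt) (s : Bool) (hs : 1 ≤ F.co.tm (dir s)) (j : ℕ) {r : ℝ}
    (h : ∀ e ∈ run (F.co.vt a) s (F.co.L.toNat * j), F.tau η e ≤ r) :
    X F d η a ((F.co.tm (dir s)).toNat * j) (F.co.L * j * F.co.ps (dir s)) ≤ (r - d.hs s) * (F.co.L * j) := by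
  have h1 := run_TT η a s hs j h
  have h2 := H_run F.co d s j
  have htj : (((F.co.tm (dir s)).toNat * j : ℕ) : ℝ) = ((F.co.tm (dir s) * j : ℤ) : ℝ) := by
    have : (((F.co.tm (dir s)).toNat * j : ℕ) : ℤ) = F.co.tm (dir s) * j := by
      push_cast
      rw [Int.toNat_of_nonneg (by omega)]
    exact_mod_cast this
  unfold X
  rw [htj, h2]
  linarith

private theorem gr_X_tri (d : Dr) (η : Env) (a : Pt) {m n : ℕ} (hm : 1 ≤ m) (hn : 1 ≤ n) (y z : ℤ) :
    X F d η a (m + n) (y + z) ≤ X F d η a m y + X F d η (a + ((m : ℤ), y)) n z := by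
  have h := TT_tri (c := F.co) (F.bd η) F.a0.le a hm hn y z
  unfold X
  push_cast
  linarith

private theorem gr_b0 (F : Fm) : 0 < F.b := F.a0.trans_le F.ab

private theorem gr_tau (F : Fm) : Measurable F.tau :=
  measurable_pi_lambda _ fun e => F.mg.comp (measurable_pi_apply e)

private theorem gr_meas (F : Fm) (d : Dr) (a : Pt) (n : ℕ) (y : ℤ) : Measurable fun η => X F d η a n y :=
  ((TT_meas F.co a n y).comp (gr_tau F)).sub_const _

private theorem gr_bound (F : Fm) (d : Dr) (a : Pt) {n : ℕ} (hn : 1 ≤ n) (y : ℤ) : ∃ B : ℝ, 0 ≤ B ∧ ∀ η : Env, |X F d η a n y| ≤ B := by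
  refine ⟨F.b * (nm (F.co.vt ((n : ℤ), y)) + 4) + |al F.co d * n + be F.co d * y|, ?_, fun η => ?_⟩
  · have := gr_b0 F
    have := nm_nonneg (F.co.vt ((n : ℤ), y))
    positivity
  · unfold X
    refine (abs_sub _ _).trans (add_le_add ?_ le_rfl)
    rw [abs_of_nonneg (TT_nonneg (F.bd η) F.a0.le a n y)]
    exact TT_upper (F.bd η) F.a0.le (gr_b0 F).le a hn y

private theorem gr_int (F : Fm) (d : Dr) (a : Pt) {n : ℕ} (hn : 1 ≤ n) (y : ℤ) :
    Integrable (fun η => X F d η a n y) (law F) := by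
  obtain ⟨B, -, hB⟩ := gr_bound F d a hn y
  exact Integrable.of_bound (gr_meas F d a n y).aestronglyMeasurable B
    (Filter.Eventually.of_forall fun η => by rw [Real.norm_eq_abs]; exact hB η)

private theorem gr_dep (F : Fm) (d : Dr) (a : Pt) (n : ℕ) (y : ℤ) :
    DependsOn (fun η => X F d η a n y) (F.co.slab a.1 (a.1 + n)) := by
  intro η η' h
  have h1 : TT F.co (F.tau η) a n y = TT F.co (F.tau η') a n y :=
    TT_dep F.co a n y fun e he => by
      show F.g (η e) = F.g (η' e)
      rw [h e he]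
  simp only
  unfold X
  rw [h1]

/-- The indicator of a cheap edge. -/
def h01 (F : Fm) (t : ℝ) (x : ℝ) : ℝ := if F.g x ≤ F.a + t then 1 else 0

theorem h01_meas (F : Fm) (t : ℝ) : Measurable (h01 F t) :=
  Measurable.ite (measurableSet_le F.mg measurable_const) measurable_const measurable_const

theorem h01_int (F : Fm) (t : ℝ) : ∫ x, h01 F t x ∂F.nu = F.nu.real {x | F.g x ≤ F.a + t} := by
  have hS : MeasurableSet {x | F.g x ≤ F.a + t} := measurableSet_le F.mg measurable_const
  have h1 : h01 F t = {x | F.g x ≤ F.a + t}.indicator fun _ => (1 : ℝ) := by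
    funext x
    unfold h01
    by_cases hx : F.g x ≤ F.a + t
    · rw [if_pos hx, indicator_of_mem (show x ∈ {x | F.g x ≤ F.a + t} from hx)]
    · rw [if_neg hx, indicator_of_notMem (show x ∉ {x | F.g x ≤ F.a + t} from hx)]
  rw [h1, integral_indicator hS, setIntegral_const]
  simp

/-- The indicator of a cheap run. -/
def bbG (F : Fm) (t : ℝ) (S : Finset Edge) (η : Env) : ℝ := ∏ e ∈ S, h01 F t (η e)

theorem bb_meas (F : Fm) (t : ℝ) (S : Finset Edge) : Measurable (bbG F t S) :=
  Finset.measurable_prod S fun e _ => (h01_meas F t).comp (measurable_pi_apply e)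

theorem bb_nn (F : Fm) (t : ℝ) (S : Finset Edge) (η : Env) : 0 ≤ bbG F t S η :=
  Finset.prod_nonneg fun e _ => by unfold h01; split_ifs <;> norm_num

theorem bb_le (F : Fm) (t : ℝ) (S : Finset Edge) (η : Env) : bbG F t S η ≤ 1 :=
  Finset.prod_le_one (fun e _ => by unfold h01; split_ifs <;> norm_num) fun e _ => by unfold h01; split_ifs <;> norm_num

theorem bb_ne {F : Fm} {t : ℝ} {S : Finset Edge} {η : Env} (h : bbG F t S η ≠ 0) : ∀ e ∈ S, F.tau η e ≤ F.a + t := by
  intro e he
  have h1 := Finset.prod_ne_zero_iff.1 h e he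
  unfold h01 at h1
  by_contra h2
  exact h1 (if_neg h2)

theorem bb_dep (F : Fm) (t : ℝ) (S : Finset Edge) : DependsOn (bbG F t S) (S : Set Edge) := by
  intro η η' h
  unfold bbG
  exact Finset.prod_congr rfl fun e he => by rw [h e (Finset.mem_coe.2 he)]

theorem bb_int (F : Fm) (t : ℝ) (S : Finset Edge) : ∫ η, bbG F t S η ∂(law F) = F.nu.real {x | F.g x ≤ F.a + t} ^ S.card := by
  unfold bbG
  rw [muA_prod_edges F (h01_meas F t) S, h01_int]

/-- No run before `i` is cheap. -/
def UU0 (F : Fm) (t : ℝ) (S : ℕ → Finset Edge) (i : ℕ) (η : Env) : ℝ := ∏ l ∈ Finset.range i, (1 - bbG F t (S l) η)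

/-- The run `i` is the first cheap one. -/
def WW0 (F : Fm) (t : ℝ) (S : ℕ → Finset Edge) (i : ℕ) (η : Env) : ℝ := UU0 F t S i η * bbG F t (S i) η

section UW

variable (F : Fm) (t : ℝ) (S : ℕ → Finset Edge)

theorem UU0_meas (i : ℕ) : Measurable (UU0 F t S i) :=
  Finset.measurable_prod _ fun l _ => measurable_const.sub (bb_meas F t (S l))

theorem WW0_meas (i : ℕ) : Measurable (WW0 F t S i) := (UU0_meas F t S i).mul (bb_meas F t (S i))

theorem UU0_nn (i : ℕ) (η : Env) : 0 ≤ UU0 F t S i η :=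
  Finset.prod_nonneg fun l _ => by linarith [bb_le F t (S l) η]

theorem UU0_le (i : ℕ) (η : Env) : UU0 F t S i η ≤ 1 :=
  Finset.prod_le_one (fun l _ => by linarith [bb_le F t (S l) η]) fun l _ => by linarith [bb_nn F t (S l) η]

theorem WW0_nn (i : ℕ) (η : Env) : 0 ≤ WW0 F t S i η := mul_nonneg (UU0_nn F t S i η) (bb_nn F t (S i) η)

theorem WW0_le (i : ℕ) (η : Env) : WW0 F t S i η ≤ 1 :=
  mul_le_one₀ (UU0_le F t S i η) (bb_nn F t (S i) η) (bb_le F t (S i) η)

theorem WW0_sum (D : ℕ) (η : Env) : ∑ i ∈ Finset.range D, WW0 F t S i η + UU0 F t S D η = 1 := by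
  induction D with
  | zero => simp [UU0]
  | succ D ih =>
    have h1 : UU0 F t S (D + 1) η = UU0 F t S D η * (1 - bbG F t (S D) η) := by
      unfold UU0
      rw [Finset.prod_range_succ]
    rw [Finset.sum_range_succ, h1]
    unfold WW0
    unfold WW0 at ih
    linarith

theorem UU0_dep {B : Set Edge} (hB : ∀ l, (S l : Set Edge) ⊆ B) (i : ℕ) : DependsOn (UU0 F t S i) B := by
  intro η η' h
  unfold UU0
  refine Finset.prod_congr rfl fun l _ => ?_
  rw [bb_dep F t (S l) fun e he => h e (hB l he)]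

theorem WW0_dep {B : Set Edge} (hB : ∀ l, (S l : Set Edge) ⊆ B) (i : ℕ) : DependsOn (WW0 F t S i) B := by
  intro η η' h
  unfold WW0
  rw [UU0_dep F t S hB i h, bb_dep F t (S i) fun e he => h e (hB i he)]

theorem UU0_int {N : ℕ} (hN : ∀ l, (S l).card = N) (hdis : ∀ l l', l ≠ l' → Disjoint (S l : Set Edge) (S l' : Set Edge)) (D : ℕ) :
    ∫ η, UU0 F t S D η ∂(law F) = (1 - F.nu.real {x | F.g x ≤ F.a + t} ^ N) ^ D := by
  unfold UU0
  rw [indep_prod (Finset.range D) (fun l η => 1 - bbG F t (S l) η) (fun l => (S l : Set Edge))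
    (fun l _ => measurable_const.sub (bb_meas F t (S l)))
    (fun l _ => fun η η' h => by
      show 1 - bbG F t (S l) η = 1 - bbG F t (S l) η'
      rw [bb_dep F t (S l) h])
    (fun l _ l' _ hll => hdis l l' hll)]
  have h1 : ∀ l, ∫ η, (1 - bbG F t (S l) η) ∂(law F) = 1 - F.nu.real {x | F.g x ≤ F.a + t} ^ N := by
    intro l
    have hi : Integrable (bbG F t (S l)) (law F) :=
      Integrable.of_bound (bb_meas F t (S l)).aestronglyMeasurable 1
        (Filter.Eventually.of_forall fun η => by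
          rw [Real.norm_eq_abs, abs_of_nonneg (bb_nn F t (S l) η)]
          exact bb_le F t (S l) η)
    rw [integral_sub (integrable_const _) hi, bb_int, hN, integral_const]
    simp
  rw [Finset.prod_congr rfl fun l _ => h1 l, Finset.prod_const, Finset.card_range]

end UW

/-- The runs from different positions of one time are disjoint. -/
theorem run_disjoint (c : Co) (s : Bool) (hs : 1 ≤ c.tm (dir s)) (n : ℤ) {y y' : ℤ} (h : y ≠ y') (N : ℕ) :
    Disjoint (run (c.vt (n, y)) s N : Set Edge) (run (c.vt (n, y')) s N : Set Edge) := by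
  rw [Set.disjoint_left]
  intro e h1 h2
  obtain ⟨i, -, hi⟩ := mem_run.1 (Finset.mem_coe.1 h1)
  obtain ⟨i', -, hi'⟩ := mem_run.1 (Finset.mem_coe.1 h2)
  have h3 : c.vt (n, y) + (i : ℤ) • dir s = c.vt (n, y') + (i' : ℤ) • dir s := congrArg Prod.fst (hi.trans hi'.symm)
  apply h
  cases s
  · have h4 := congrArg Prod.snd h3
    unfold Co.vt at h4
    simp only [Prod.snd_add, Prod.smul_snd, dir] at h4
    have hp := c.p_pos
    simp only [Bool.false_eq_true, if_false, smul_eq_mul, mul_zero, add_zero] at h4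
    have h5 : (y - y') * c.p = 0 := by linarith
    rcases mul_eq_zero.1 h5 with h6 | h6
    · omega
    · omega
  · have h4 := congrArg Prod.fst h3
    unfold Co.vt at h4
    simp only [Prod.fst_add, Prod.smul_fst, dir] at h4
    have hq : 1 ≤ c.q := by simpa using hs
    simp only [if_true, smul_eq_mul, mul_zero, add_zero] at h4
    have h5 : (y - y') * c.q = 0 := by linarith
    rcases mul_eq_zero.1 h5 with h6 | h6
    · omega
    · omega

end

end Pool.Agent.W_1b8d5d_p
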