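import Pool.Agent.W_1b8d5d_p.TubeB71
import Pool.Agent.W_1b8d5d_p.Width99
import Pool.Agent.W_1b8d5d_h4p.ToolZ
import Pool.Agent.W_1b8d5d_nc.NcLev

/-!
MP_1b8d5d_pr, Track P (proofs row 636, section 4): HB0, the inputs from the law, and the small scales. (helper71)
-/

namespace Pool.Agent.W_1b8d5d_p

open MeasureTheory Set
open Pool.Agent.W_1b8d5d_h85
open Pool.Agent.W_1b8d5d_h4p (LawH Lk Sf lk_X)

noncomputable section

/-- The two levels of the weights. -/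
theorem levels71 {F : Fm} {c C : ℝ} (hL : LawH F c C) : ∃ t1 t2 : ℝ, t1 < t2 ∧ 0 < F.nu.real {u | F.g u ≤ t1} ∧
    0 < F.nu.real {u | t2 ≤ F.g u} ∧ F.nu.real {u | F.g u < t2} ≤ 1 / 256 := 
  Pool.Agent.W_1b8d5d_nc.levelsN (hL.at0 F.a) hL.pos (by norm_num) (by norm_num)

variable {F : Fm} {κ k1 K1 : ℝ} {d : Dr}

/-- The cost of one block fluctuates, uniformly in the direction. -/
theorem one_block71 {c C : ℝ} (hL : LawH F c C) (hK1 : 0 ≤ K1) (κ k1 : ℝ) : ∃ δ : ℝ, 0 < δ ∧ ∀ d : Dr, Adm F κ d →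
    Lat F κ k1 K1 d → ∀ m : ℝ, δ ≤ (law F).real {η | δ ≤ |X F d η 0 1 0 - m|} := by
  obtain ⟨t1, t2, ht, hq1, hq2, hp⟩ := levels71 hL
  have hb := b_pos F
  have hL1 : (2 : ℝ) ≤ F.co.L := by exact_mod_cast F.co.L_pos
  have hR1 : (1 : ℝ) ≤ F.co.R := by exact_mod_cast F.co.R_pos
  obtain ⟨ρ, hρ⟩ : ∃ ρ : ℝ, ρ = K1 * ((C1 F + 4 * F.b + F.b * (F.co.L * F.co.R)) / F.a) := ⟨_, rfl⟩
  have hC1 := C1_pos F
  have ha := F.a0
  have hρ0 : 0 ≤ ρ := by rw [hρ]; positivity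
  obtain ⟨Q, hQ⟩ : ∃ Q : ℝ, Q = 2 * ((F.co.L * ((1 : ℕ) : ℝ) + 1) * (2 * ρ + 1)) *
      ((F.nu.real {u | t2 ≤ F.g u})⁻¹ + (F.nu.real {u | F.g u ≤ t1})⁻¹) ^ 2 := ⟨_, rfl⟩
  have hQ0 : 0 < Q := by rw [hQ]; positivity
  obtain ⟨Δ, hΔ⟩ : ∃ Δ : ℝ, Δ = t2 - t1 := ⟨_, rfl⟩
  have hΔ0 : 0 < Δ := by rw [hΔ]; linarith
  obtain ⟨δ, hδ⟩ : ∃ δ : ℝ, δ = min (1 / 8) (Δ ^ 2 / (128 * Q * (1 + (1 + Δ) ^ 2))) := ⟨_, rfl⟩
  have hδ0 : 0 < δ := by rw [hδ]; exact lt_min (by norm_num) (by positivity)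
  have hδ1 : δ ≤ 1 / 8 := by rw [hδ]; exact min_le_left _ _
  have hδ2 : δ ≤ Δ ^ 2 / (128 * Q * (1 + (1 + Δ) ^ 2)) := by rw [hδ]; exact min_le_right _ _
  refine ⟨δ, hδ0, fun d hd hk m => ?_⟩
  by_contra hcon
  push Not at hcon
  have key := fluct_scale (F := F) (d := d) hq1 hq2 ht hp (n := 1) le_rfl (y := 0) (x0 := C1 F + 4 * F.b) (ρ := ρ) hρ0
    (B := ∅) MeasurableSet.empty (by simp) (by
      have h0 : {η : Env | C1 F + 4 * F.b < X F d η 0 1 0} = ∅ := by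
        ext η
        simp only [mem_ofPred_eq, mem_empty_iff_false, iff_false, not_lt]
        have h1 := abs_X_le hd η 0 le_rfl 0
        have h2 := le_abs_self (X F d η 0 1 0)
        simp only [Int.cast_zero, abs_zero, mul_zero, add_zero, Nat.cast_one, mul_one] at h1
        linarith
      rw [h0]
      simp) (by
      intro η _ g _ hx v hv
      have h1 : exc F d η g = cost (F.tau η) g - d.H (F.co.vt (((1 : ℕ) : ℤ), 0) - F.co.vt 0) := rfl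
      have h2 := le_cost (bd_tau F η) g
      have h3 := hd.H_le (F.co.vt (((1 : ℕ) : ℤ), 0) - F.co.vt 0)
      have h4 : nm (F.co.vt (((1 : ℕ) : ℤ), 0) - F.co.vt 0) = F.co.L * F.co.R := by
        rw [Co.vt_zero, sub_zero, nm_vt_n]
        simp
      rw [h4] at h3
      have h5 : (g.length : ℝ) ≤ (C1 F + 4 * F.b + F.b * (F.co.L * F.co.R)) / F.a := by
        rw [le_div_iff₀ ha]
        have := (abs_le.1 h3).2
        rw [h1] at hx
        linarith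
      have h6 := latV_lip hk v 0
      have h7 : latV F d 0 = 0 := by
        unfold latV
        simp
      rw [h7, sub_zero, sub_zero] at h6
      have h8 := nm_le_length (g.takeUntil v hv)
      have e0 : v - F.co.vt 0 = v := by rw [Co.vt_zero, sub_zero]
      rw [e0] at h8
      have h9 : ((g.takeUntil v hv).length : ℝ) ≤ g.length := by exact_mod_cast g.length_takeUntil_le_length hv
      rw [hρ]
      exact h6.trans (mul_le_mul_of_nonneg_left ((h8.trans h9).trans h5) hK1)) m (s := δ) hδ0.le (by linarith)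
  rw [← hQ, ← hΔ] at key
  obtain ⟨P, hP⟩ : ∃ P : ℝ, P = (law F).real {η | δ ≤ |X F d η 0 1 0 - m|} := ⟨_, rfl⟩
  rw [← hP] at key hcon
  have hP0 : 0 ≤ P := by rw [hP]; exact measureReal_nonneg
  have h1 : δ ^ 2 + (δ + Δ) ^ 2 * P ≤ δ * (1 + (1 + Δ) ^ 2) := by
    have h2 : (δ + Δ) ^ 2 ≤ (1 + Δ) ^ 2 := pow_le_pow_left₀ (by positivity) (by linarith) 2
    have h3 : (δ + Δ) ^ 2 * P ≤ (1 + Δ) ^ 2 * δ := mul_le_mul h2 hcon.le hP0 (by positivity)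
    nlinarith
  have h2 : Q * (δ ^ 2 + (δ + Δ) ^ 2 * P) ≤ Q * (δ * (1 + (1 + Δ) ^ 2)) := mul_le_mul_of_nonneg_left h1 hQ0.le
  have h3 : δ * (128 * Q * (1 + (1 + Δ) ^ 2)) ≤ Δ ^ 2 := by
    rwa [le_div_iff₀ (by positivity)] at hδ2
  have h4 : (Δ * (((1 : ℕ) : ℝ) / 8)) ^ 2 = Δ ^ 2 / 64 := by
    push_cast
    ring
  rw [h4] at key
  have h5 : 0 < Δ ^ 2 := by positivity
  have h6 : Q * (δ * (1 + (1 + Δ) ^ 2)) = δ * (128 * Q * (1 + (1 + Δ) ^ 2)) / 128 := by ring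
  rw [h6] at h2
  linarith

/-- The power of the exponent. -/
theorem pow_alpha71 {K a : ℝ} {Ds : Set Dr} (hD : Dirs F κ K Ds) (ha : 0 < a) (hd : d ∈ Ds) (C0 : ℝ) (x : ℕ) :
    (2 : ℝ) ^ (gg F d x - ff a F d x / 2 + C0) =
      2 ^ C0 * (EE F d (2 ^ x) * Real.sqrt (vA a F d (2 ^ x))) := by
  have h1 : gg F d x - ff a F d x / 2 + C0 = C0 + (gg F d x + -ff a F d x * (1 / 2)) := by ring
  rw [h1, Real.rpow_add two_pos, Real.rpow_add two_pos, pow_gg, Real.rpow_mul two_pos.le, pow_ff hD ha hd,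
    Real.sqrt_eq_rpow]

/-- **Small scales**: the cost of one block is soft enough. -/
theorem small71 {K a c C : ℝ} {Ds : Set Dr} (hL : LawH F c C) (hD : Dirs F κ K Ds) (ha : 0 < a) (hk10 : 0 ≤ K1)
    (hk : ∀ d ∈ Ds, Lat F κ k1 K1 d) (x1 : ℕ) : ∃ C0 : ℝ, ∀ C0', C0 ≤ C0' → ∀ d ∈ Ds, ∀ x : ℕ, x < x1 →
    Sf F κ d x (max (gg F d x - ff a F d x / 2 + C0') 3) := by
  obtain ⟨δ, hδ, hfl⟩ := one_block71 hL hk10 κ k1
  have hCr := Cr_pos F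
  have hLJ := LJ_pos F
  obtain ⟨vm, hvm⟩ : ∃ vm : ℝ, vm = 2 * (a * Cr F / 2 ^ x1 / LJ F) := ⟨_, rfl⟩
  have hvm0 : 0 < vm := by rw [hvm]; positivity
  have hsv : 0 < Real.sqrt vm := Real.sqrt_pos.2 hvm0
  have hKu : 0 < Ku F := by
    unfold Ku
    have h1 := b_pos F
    have hL1 : (2 : ℝ) ≤ F.co.L := by exact_mod_cast F.co.L_pos
    have hR1 : (1 : ℝ) ≤ F.co.R := by exact_mod_cast F.co.R_pos
    positivity
  obtain ⟨T, hT⟩ : ∃ T : ℝ, T = (Ku F / Cr F + 1 / δ + 2 ^ x1 * Ku F / δ) / (Cr F * Real.sqrt vm) := ⟨_, rfl⟩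
  have hT0 : 0 < T := by rw [hT]; positivity
  refine ⟨Real.logb 2 T, fun C0' hC0' d hd x hx => ?_⟩
  have hadm := hD.adm d hd
  have hE := EE_pos F d (2 ^ x)
  have hCrE := Cr_le_EE F d (2 ^ x)
  obtain ⟨α, hα⟩ : ∃ α : ℝ, α = max (gg F d x - ff a F d x / 2 + C0') 3 := ⟨_, rfl⟩
  rw [← hα]
  have h2x : ((2 ^ x : ℕ) : ℝ) ≤ 2 ^ x1 := by
    push_cast
    exact pow_le_pow_right₀ one_le_two hx.le
  have h2x0 : (0 : ℝ) < ((2 ^ x : ℕ) : ℝ) := by exact_mod_cast Nat.pos_of_ne_zero (pow_ne_zero _ two_ne_zero)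
  have hv : vm ≤ vA a F d (2 ^ x) := by
    refine le_trans ?_ (hD.vA_lower hd ha.le (n := 2 ^ x) Nat.one_le_two_pow)
    rw [hvm]
    refine mul_le_mul_of_nonneg_left ?_ (by norm_num)
    refine div_le_div_of_nonneg_right ?_ hLJ.le
    exact div_le_div₀ (by positivity) (mul_le_mul_of_nonneg_left hCrE ha.le) h2x0 h2x
  -- the size of `2 ^ α`
  have hpow : Ku F / Cr F + 1 / δ + 2 ^ x1 * Ku F / δ ≤ (2 : ℝ) ^ α := by
    have h1 : (2 : ℝ) ^ (gg F d x - ff a F d x / 2 + C0') ≤ (2 : ℝ) ^ α :=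
      Real.rpow_le_rpow_of_exponent_le one_le_two (by rw [hα]; exact le_max_left _ _)
    rw [pow_alpha71 hD ha hd] at h1
    have h2 : T ≤ (2 : ℝ) ^ C0' := by
      have h3 : (2 : ℝ) ^ Real.logb 2 T = T := Real.rpow_logb two_pos (by norm_num) hT0
      rw [← h3]
      exact Real.rpow_le_rpow_of_exponent_le one_le_two hC0'
    have h3 : Cr F * Real.sqrt vm ≤ EE F d (2 ^ x) * Real.sqrt (vA a F d (2 ^ x)) :=
      mul_le_mul hCrE (Real.sqrt_le_sqrt hv) hsv.le hE.le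
    have h4 : T * (Cr F * Real.sqrt vm) ≤ 2 ^ C0' * (EE F d (2 ^ x) * Real.sqrt (vA a F d (2 ^ x))) :=
      mul_le_mul h2 h3 (by positivity) (by positivity)
    have h5 : T * (Cr F * Real.sqrt vm) = Ku F / Cr F + 1 / δ + 2 ^ x1 * Ku F / δ := by
      rw [hT]
      field_simp
    linarith
  have hα0 : 0 ≤ α := by rw [hα]; exact le_max_of_le_right (by norm_num)
  have hp1 : Ku F / Cr F ≤ (2 : ℝ) ^ α := by
    have : 0 ≤ 1 / δ + 2 ^ x1 * Ku F / δ := by positivity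
    linarith
  have hp2 : 1 / δ ≤ (2 : ℝ) ^ α := by
    have : 0 ≤ Ku F / Cr F + 2 ^ x1 * Ku F / δ := by positivity
    linarith
  have hp3 : 2 ^ x1 * Ku F / δ ≤ (2 : ℝ) ^ α := by
    have : 0 ≤ Ku F / Cr F + 1 / δ := by positivity
    linarith
  have h2α : (0 : ℝ) < 2 ^ α := Real.rpow_pos_of_pos two_pos _
  have hneg : (2 : ℝ) ^ (-α) = ((2 : ℝ) ^ α)⁻¹ := Real.rpow_neg two_pos.le _
  have hq2 : (2 : ℝ) ^ (-α) ≤ δ := by
    rw [hneg, inv_le_comm₀ h2α hδ]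
    rwa [one_div] at hp2
  have hEu : EE F d (2 ^ x) ≤ 2 ^ x1 * Ku F := by
    have h1 := EE_le_Ku hadm (n := 2 ^ x) Nat.one_le_two_pow
    exact h1.trans (mul_le_mul_of_nonneg_right h2x hKu.le)
  have hq3 : (2 : ℝ) ^ (-α) * EE F d (2 ^ x) ≤ δ := by
    rw [hneg, inv_mul_le_iff₀ h2α]
    rw [div_le_iff₀ hδ] at hp3
    linarith
  have hGX : ∀ η, (fun τ : Env => -(TT F.co τ 0 1 0 - (al F.co d * ((1 : ℕ) : ℝ) + be F.co d * ((0 : ℤ) : ℝ)))) (F.tau η) =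
      -X F d η 0 1 0 := fun η => rfl
  have hmean : ∫ η, -X F d η 0 1 0 ∂(law F) = -e F d 1 0 := by
    rw [integral_neg]
    rfl
  refine ⟨1, fun τ => -(TT F.co τ 0 1 0 - (al F.co d * ((1 : ℕ) : ℝ) + be F.co d * ((0 : ℤ) : ℝ))), ?_,
    lk_X hadm le_rfl 0, ?_, ?_⟩
  · push_cast
    exact Real.one_le_rpow one_le_two (by positivity)
  · simp_rw [hGX]
    rw [hmean, neg_le_neg_iff]
    have h1 : e F d 1 0 ≤ Ku F := by
      have h2 := (e_le_ep F d le_rfl 0).trans (ep_one_le hadm)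
      unfold Ku
      linarith
    have h2 : Ku F ≤ 2 ^ α * Cr F := by rwa [div_le_iff₀ hCr] at hp1
    exact h1.trans (h2.trans (mul_le_mul_of_nonneg_left hCrE h2α.le))
  · simp_rw [hGX]
    rw [hmean]
    refine hq2.trans ((hfl d hadm (hk d hd) (e F d 1 0)).trans (measureReal_mono (fun η hη => ?_) (measure_ne_top _ _)))
    rw [mem_ofPred_eq] at hη ⊢
    rw [show -X F d η 0 1 0 - -e F d 1 0 = -(X F d η 0 1 0 - e F d 1 0) by ring, abs_neg]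
    exact hq3.trans hη

end

end Pool.Agent.W_1b8d5d_p
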