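import Pool.Agent.W_1b8d5d_p.HbDefs32
import Pool.Agent.W_1b8d5d_p.Width99

/-!
# Track P of `MP_1b8d5d_pr`, section (B): the assembly at one scale (helper32)
-/

namespace Pool.Agent.W_1b8d5d_p

open MeasureTheory
open Pool.Agent.W_1b8d5d_h85 (Env Edge)
open Pool.Agent.W_1b8d5d_h48 (CoreEv Sel manyT)
open Pool.Agent.W_1b8d5d_h4p (Sf)

noncomputable section

variable {F : Fm} {κ : ℝ} {d : Dr}

/-- Repeated displacements. -/
theorem ep_mul32 {l : ℕ} (hl : 1 ≤ l) (y : ℤ) {n : ℕ} (hn : 1 ≤ n) (z : ℤ) (i : ℕ) :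
    ep F d (n + i * l) (z + i * y) ≤ ep F d n z + i * ep F d l y := by
  induction i with
  | zero => simp
  | succ i ih =>
    have h1 := ep_sub F d (m := n + i * l) (n := l) (by omega) hl (z + i * y) y
    have e1 : n + (i + 1) * l = n + i * l + l := by ring
    have e2 : z + ((i + 1 : ℕ) : ℤ) * y = z + i * y + y := by
      push_cast
      ring
    rw [e1, e2]
    push_cast
    linarith

/-- The number of steps. -/
theorem steps32 {C2 K E' Em X X' t : ℝ} (hC2 : 0 ≤ C2) (hK : 0 < K) (hEm : 0 < Em)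
    (ht : t ≤ 8 * (C2 + 1) * E' / (K * Em) + 40) (hX : 0 ≤ X) (h1 : E' * X ≤ X' * Em) (h2 : X ≤ X') :
    t * X ≤ (8 * (C2 + 1) / K + 40) * X' := by
  have h3 : t * X ≤ (8 * (C2 + 1) * E' / (K * Em) + 40) * X := mul_le_mul_of_nonneg_right ht hX
  have h4 : E' * X / Em ≤ X' := by
    rw [div_le_iff₀ hEm]
    exact h1
  have h5 : 8 * (C2 + 1) * E' / (K * Em) * X = 8 * (C2 + 1) / K * (E' * X / Em) := by
    field_simp
  have h6 : 8 * (C2 + 1) / K * (E' * X / Em) ≤ 8 * (C2 + 1) / K * X' :=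
    mul_le_mul_of_nonneg_left h4 (by positivity)
  linarith

/-- **The assembly at one scale.** -/
theorem hb_one (hd : Adm F κ d) (ht : Touch F d) (hg : Antitone F.g) {r m n' : ℕ} {lo hi k x0 : ℤ} {E : Set Env}
    {D : Finset Edge} {sl E' Em w' wm C2 C3 K H Cz R R1 c0 cJ Λ ε s β p : ℝ} (hC2 : 0 ≤ C2) (hC3 : 0 ≤ C3) (hK0 : 0 < K)
    (hK : 2 + 2 * (C2 + 1) + (2 * (C2 + 1) + C3) / 8 ≤ K / 8)
    (hH : 1 + (3 + r) * (8 * (C2 + 1) / K + 40) ≤ H)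
    (hCz1 : (C2 + 1) + (2 * (C2 + 1) + C3) * (8 * (C2 + 1) / K + 40) ≤ Cz)
    (hCz2 : 3 + (6 + C3) * (8 * (C2 + 1) / K + 40) ≤ Cz) (hm : 1 ≤ m) (hmn : m ≤ n') (hEm0 : 0 < Em)
    (hE : Em ≤ E') (hEmn : E' * m ≤ n' * Em) (hEw : E' * wm ≤ w' * Em) (hww : wm ≤ w') (hwm1 : 1 ≤ wm)
    (hc0 : 0 < c0) (hwm : 4 ≤ c0 * wm) (hlen : c0 * wm - 1 ≤ (hi : ℝ) - lo)
    (hch : ∀ u : ℤ, lo ≤ u → u ≤ hi → ep F d m u ≤ (C2 + 1) * Em ∧ |(u : ℝ) - d.v * m| ≤ 2 * wm + 1)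
    (hx0 : e F d n' x0 ≤ C2 * E') (hx1 : ep F d n' x0 ≤ (C2 + 1) * E') (hx2 : |(x0 : ℝ) - d.v * n'| ≤ 2 * w' + 1)
    (hk1 : ep F d ((1 + r) * m) k ≤ C3 * Em) (hk2 : |(k : ℝ) - d.v * (((1 + r) * m : ℕ) : ℝ)| ≤ C3 * wm)
    (hR : 0 ≤ R) (hcore : CoreEv F d sl (R * wm) (K * Em) ((1 + r) * m) k E D) (hp0 : 0 < p) (hp : p ≤ (law F).real E)
    (hs : 0 ≤ s) (hsE : 8 * s ≤ E') (hβ : β ≤ 1 / 8)
    (hcon : ∀ (N : ℕ) (y : ℤ), 1 ≤ N → (N : ℝ) ≤ H * n' → e F d N y ≤ Cz * E' →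
      (law F).real {η | s ≤ |-X F d η 0 N y - ∫ ξ, -X F d ξ 0 N y ∂(law F)|} ≤ β)
    (hsel : ∀ (N : ℕ) (y : ℤ), n' ≤ N → (N : ℝ) ≤ H * n' → e F d N y ≤ Cz * E' → |(y : ℝ) - d.v * N| ≤ Cz * w' →
      ∀ (wc : ℤ) (J Z : ℕ) (osc : ℝ), 0 < wc → 0 ≤ osc → (J : ℝ) ≤ cJ * (n' / ((1 + r) * m : ℕ)) →
      R1 * w' + wc ≤ Z * wc → ∃ (Js : Finset ℕ) (cen : ℕ → ℤ) (Bd : ℤ) (c : ℕ → Env → ℤ) (lo : ℕ → Env → ℝ),
        Sel F d ((1 + r) * m) J Z wc (1 / 8) (Λ + ε * osc) osc N y Js cen Bd c lo)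
    (hR1 : 0 ≤ R1) (hlam : Λ + ε * (2 * (8 * (K * Em + s))) ≤ Em)
    (hlog : Real.log (2 * ((4 * R1 / c0 + 2) * (w' / wm))) + 1 ≤ Em) (hcJ : 0 < cJ)
    (hnJ : 2 ≤ cJ * (n' / ((1 + r) * m : ℕ))) {q : ℕ} (hq : 8 * R / c0 < q) :
    p * (cJ * (n' / ((1 + r) * m : ℕ)) / 2) * (K * Em / 8) ^ 2 / (2 * ((4 * R1 / c0 + 2) * (w' / wm))) ≤
      q * (s ^ 2 + (2 * (8 * (K * Em + s))) ^ 2 * β) := by
  have hwm0 : 0 < wm := by linarith
  have hw'0 : 0 < w' := by linarith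
  have hE'0 : 0 < E' := by linarith
  have hm0 : (0 : ℝ) < m := by exact_mod_cast hm
  have hn'1 : 1 ≤ n' := hm.trans hmn
  have hmn' : (m : ℝ) ≤ n' := by exact_mod_cast hmn
  have hY : 0 < K * Em := by positivity
  obtain ⟨C4, hC4⟩ : ∃ C4, C4 = 2 * (C2 + 1) + C3 := ⟨_, rfl⟩
  rw [← hC4] at hK hCz1
  obtain ⟨θ, hθ⟩ : ∃ θ, θ = 8 * (C2 + 1) / K + 40 := ⟨_, rfl⟩
  rw [← hθ] at hH hCz1 hCz2
  have hθ0 : 0 ≤ θ := by rw [hθ]; positivity
  -- the cells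
  obtain ⟨wc, hwc⟩ : ∃ wc : ℤ, wc = (hi - lo) / 2 := ⟨_, rfl⟩
  obtain ⟨uo, huo⟩ : ∃ uo : ℤ, uo = lo + wc := ⟨_, rfl⟩
  have hwc1 : 2 * wc ≤ hi - lo := by omega
  have hwc2 : hi - lo ≤ 2 * wc + 1 := by omega
  have hwc2' : (hi : ℝ) - lo ≤ 2 * wc + 1 := by exact_mod_cast hwc2
  have hwc3 : c0 * wm / 4 ≤ wc := by linarith
  have hwcr : (0 : ℝ) < wc := by linarith
  have hwc0 : 0 < wc := by exact_mod_cast hwcr
  have hcell : ∀ u : ℤ, |u - uo| ≤ wc → lo ≤ u ∧ u ≤ hi := by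
    intro u hu
    rw [abs_le] at hu
    omega
  have huo1 : lo ≤ uo ∧ uo ≤ hi := by omega
  have hA : ∀ u : ℤ, |u - uo| ≤ wc → ∫ η, max (X F d η 0 m u) 0 ∂(law F) ≤ (C2 + 1) * Em := fun u hu =>
    (hch u (hcell u hu).1 (hcell u hu).2).1
  obtain ⟨M, hM⟩ : ∃ M : ℕ, M = (1 + r) * m := ⟨_, rfl⟩
  rw [← hM] at hk1 hk2 hcore hsel hnJ ⊢
  have hM1 : 1 ≤ M := by
    rw [hM]
    exact Nat.one_le_iff_ne_zero.2 (by positivity)
  have hMr : (M : ℝ) = (1 + r) * m := by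
    rw [hM]
    push_cast
    ring
  have hM0 : (0 : ℝ) < M := by exact_mod_cast hM1
  have hx : ep F d (m + M + m) (uo + k + uo) ≤ C4 * Em := by
    have h1 := ep_sub F d (m := m + M) (n := m) (by omega) hm (uo + k) uo
    have h2 := ep_sub F d (m := m) (n := M) hm hM1 uo k
    have h3 := (hch uo huo1.1 huo1.2).1
    rw [hC4]
    linarith
  have hyl : |((uo + k + uo : ℤ) : ℝ) - d.v * ((m + M + m : ℕ) : ℝ)| ≤ (6 + C3) * wm := by
    have h3 := abs_le.1 (hch uo huo1.1 huo1.2).2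
    have h4 := abs_le.1 hk2
    push_cast
    rw [abs_le]
    constructor <;> linarith [h3.1, h3.2, h4.1, h4.2]
  -- the number of steps
  obtain ⟨Q, hQ⟩ : ∃ Q : ℝ, Q = 8 * (C2 + 1) * E' / (K * Em) := ⟨_, rfl⟩
  have hQ0 : 0 ≤ Q := by rw [hQ]; positivity
  obtain ⟨Ms, hMs⟩ : ∃ Ms : ℕ, Ms = ⌊Q⌋₊ + 40 := ⟨_, rfl⟩
  have hMs1 : (Ms : ℝ) ≤ Q + 40 := by
    rw [hMs]
    push_cast
    linarith [Nat.floor_le hQ0]
  have hMs2 : Q + 39 ≤ Ms := by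
    rw [hMs]
    push_cast
    linarith [Nat.lt_floor_add_one Q]
  have hsteps : ∀ i : ℕ, i ≤ Ms → ∀ X X' : ℝ, 0 ≤ X → E' * X ≤ X' * Em → X ≤ X' → i * X ≤ θ * X' := by
    intro i hi X X' hX h1 h2
    have h3 : (i : ℝ) ≤ Ms := by exact_mod_cast hi
    rw [hθ]
    refine steps32 hC2 hK0 hEm0 (E' := E') ?_ hX h1 h2
    rw [← hQ]
    linarith
  have hlr : ((m + M + m : ℕ) : ℝ) = (3 + r) * m := by
    push_cast
    rw [hMr]
    ring
  have hN : ∀ i : ℕ, i ≤ Ms → ((n' + i * (m + M + m) : ℕ) : ℝ) ≤ H * n' := by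
    intro i hi
    have h1 := hsteps i hi m n' hm0.le hEmn hmn'
    have h2 : ((n' + i * (m + M + m) : ℕ) : ℝ) = n' + (3 + r) * (i * m) := by
      rw [Nat.cast_add, Nat.cast_mul, hlr]
      ring
    rw [h2]
    have h3 : (3 + (r : ℝ)) * (i * m) ≤ (3 + r) * (θ * n') := mul_le_mul_of_nonneg_left h1 (by positivity)
    have h4 : (1 + (3 + r) * θ) * n' ≤ H * n' := mul_le_mul_of_nonneg_right hH (Nat.cast_nonneg _)
    linarith
  have he : ∀ i : ℕ, i ≤ Ms → e F d (n' + i * (m + M + m)) (x0 + i * (uo + k + uo)) ≤ Cz * E' := by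
    intro i hi
    have h1 := e_le_ep F d (n := n' + i * (m + M + m)) (by omega) (x0 + i * (uo + k + uo))
    have h2 := ep_mul32 (F := F) (d := d) (l := m + M + m) (by omega) (uo + k + uo) hn'1 x0 i
    have h3 := hsteps i hi Em E' hEm0.le le_rfl hE
    have h4 : (i : ℝ) * ep F d (m + M + m) (uo + k + uo) ≤ i * (C4 * Em) := mul_le_mul_of_nonneg_left hx (Nat.cast_nonneg _)
    have h5 : C4 * (i * Em) ≤ C4 * (θ * E') := mul_le_mul_of_nonneg_left h3 (by rw [hC4]; positivity)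
    have h6 : ((C2 + 1) + C4 * θ) * E' ≤ Cz * E' := mul_le_mul_of_nonneg_right hCz1 hE'0.le
    linarith
  have hlat : ∀ i : ℕ, i ≤ Ms → |((x0 + i * (uo + k + uo) : ℤ) : ℝ) - d.v * ((n' + i * (m + M + m) : ℕ) : ℝ)| ≤ Cz * w' := by
    intro i hi
    have h1 := hsteps i hi wm w' hwm0.le hEw hww
    have e1 : ((x0 + i * (uo + k + uo) : ℤ) : ℝ) - d.v * ((n' + i * (m + M + m) : ℕ) : ℝ) =
        (x0 - d.v * n') + i * (((uo + k + uo : ℤ) : ℝ) - d.v * ((m + M + m : ℕ) : ℝ)) := by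
      push_cast
      ring
    rw [e1]
    refine (abs_add_le _ _).trans ?_
    rw [abs_mul, Nat.abs_cast]
    have h2 : (i : ℝ) * |((uo + k + uo : ℤ) : ℝ) - d.v * ((m + M + m : ℕ) : ℝ)| ≤ i * ((6 + C3) * wm) :=
      mul_le_mul_of_nonneg_left hyl (Nat.cast_nonneg _)
    have h3 : (6 + C3) * (i * wm) ≤ (6 + C3) * (θ * w') := mul_le_mul_of_nonneg_left h1 (by positivity)
    have h4 : (3 + (6 + C3) * θ) * w' ≤ Cz * w' := mul_le_mul_of_nonneg_right hCz2 hw'0.le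
    linarith
  -- the window
  obtain ⟨Z, hZ⟩ : ∃ Z : ℕ, Z = ⌈(R1 * w' + wc) / (wc : ℝ)⌉₊ := ⟨_, rfl⟩
  have hZ1 : R1 * w' + wc ≤ Z * wc := by
    have h1 := Nat.le_ceil ((R1 * w' + wc) / (wc : ℝ))
    rw [← hZ, div_le_iff₀ hwcr] at h1
    exact h1
  have hZ2 : (Z : ℝ) ≤ (4 * R1 / c0 + 2) * (w' / wm) := by
    have h1 := Nat.ceil_lt_add_one (a := (R1 * w' + wc) / (wc : ℝ)) (by positivity)
    rw [← hZ] at h1
    have h2 : (R1 * w' + wc) / (wc : ℝ) = R1 * w' / wc + 1 := by field_simp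
    have h3 : R1 * w' / wc ≤ R1 * w' / (c0 * wm / 4) := div_le_div_of_nonneg_left (by positivity) (by positivity) hwc3
    have h4 : R1 * w' / (c0 * wm / 4) = 4 * R1 / c0 * (w' / wm) := by field_simp
    have h5 : 1 ≤ w' / wm := by
      rw [le_div_iff₀ hwm0]
      linarith
    rw [h2] at h1
    linarith
  have hZ0 : 1 ≤ Z := by
    rcases Nat.eq_zero_or_pos Z with h | h
    · rw [h] at hZ1
      push_cast at hZ1
      nlinarith [mul_nonneg hR1 hw'0.le]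
    · exact h
  have hZr : (1 : ℝ) ≤ Z := by exact_mod_cast hZ0
  -- the number of insertions
  obtain ⟨J, hJ⟩ : ∃ J : ℕ, J = ⌊cJ * (n' / (M : ℝ))⌋₊ := ⟨_, rfl⟩
  have hJ1 : (J : ℝ) ≤ cJ * (n' / M) := by
    rw [hJ]
    exact Nat.floor_le (by positivity)
  have hJ2 : cJ * (n' / M) / 2 ≤ J := by
    have h1 := Nat.lt_floor_add_one (cJ * (n' / (M : ℝ)))
    rw [← hJ] at h1
    linarith
  have hq1 : 0 < q := by
    have h1 : (0 : ℝ) < q := lt_of_le_of_lt (by positivity) hq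
    exact_mod_cast h1
  have key := manyT (F := F) (d := d) hd hg hcore (m := m) (N₀ := n') (J := J) (Z := Z) (q := q) (Ms := Ms) (wc := wc)
    (uo := uo) (y₀ := x0) hn'1 hm hM1 hwc0 hq1 (by
      rw [div_lt_iff₀ hc0] at hq
      have h1 : (q : ℝ) * (c0 * wm / 4) ≤ q * wc := mul_le_mul_of_nonneg_left hwc3 (Nat.cast_nonneg _)
      nlinarith) hZ0 hY (p := p) (A := (C2 + 1) * Em) (x := C4 * Em) (δ := 1 / 8)
    (lam := Λ + ε * (2 * (8 * (K * Em + s)))) (β := β) (s := s) (E₀ := (C2 + 1) * E') hp0 hp hA hx le_rfl hβ hs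
    (fun i hi => hsel _ _ (by omega) (hN i hi.le) (he i hi.le) (hlat i hi.le) wc J Z _ hwc0 (by positivity) hJ1 hZ1)
    (fun i hi => hcon _ _ (by omega) (hN i hi) (he i hi))
    (by
      have h1 : Real.log (2 * Z) ≤ Real.log (2 * ((4 * R1 / c0 + 2) * (w' / wm))) :=
        Real.log_le_log (by positivity) (by linarith)
      have h2 := mul_le_mul_of_nonneg_right hK hEm0.le
      linarith)
    (by
      have h1 := e_nonneg' ht (n := n' + Ms * (m + M + m)) (by omega) (x0 + Ms * (uo + k + uo))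
      linarith)
    (by
      have h1 : (8 * (C2 + 1) * E' / (K * Em) + 39) * (K * Em) ≤ Ms * (K * Em) :=
        mul_le_mul_of_nonneg_right (by rw [← hQ]; exact hMs2) hY.le
      have h2 : (8 * (C2 + 1) * E' / (K * Em) + 39) * (K * Em) = 8 * (C2 + 1) * E' + 39 * (K * Em) := by
        field_simp
      have h3 : 0 ≤ C2 * E' := by positivity
      linarith)
  have h1 : p * (cJ * (n' / M) / 2) * (K * Em / 8) ^ 2 / (2 * ((4 * R1 / c0 + 2) * (w' / wm))) ≤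
      p * J * (K * Em / 8) ^ 2 / (2 * Z) := by
    refine div_le_div₀ (by positivity) ?_ (by positivity) (by linarith)
    exact mul_le_mul_of_nonneg_right (mul_le_mul_of_nonneg_left hJ2 hp0.le) (by positivity)
  exact h1.trans key

end

end Pool.Agent.W_1b8d5d_p
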