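import Pool.Agent.W_1b8d5d_p.HbA71
import Pool.Agent.W_1b8d5d_p.IfaceP
import Pool.Agent.W_1b8d5d_p.FrameE

/-!
MP_1b8d5d_pr, Track P (proofs row 636, section 4): HB0 for a family of directions. (helper71)
-/

namespace Pool.Agent.W_1b8d5d_p

open MeasureTheory Set
open Pool.Agent.W_1b8d5d_h85
open Pool.Agent.W_1b8d5d_h4p (LawH Lk Sf lk_X conc_of_not_Sf)

noncomputable section

section num

theorem hb_card71 {L n R w : ℝ} (h1 : 1 ≤ L * n) (h2 : 1 ≤ R * w) :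
    2 * ((L * n + 1) * (2 * (R * w) + 1)) ≤ 12 * L * R * (n * w) := by
  have h3 : (L * n + 1) * (2 * (R * w) + 1) ≤ (2 * (L * n)) * (3 * (R * w)) :=
    mul_le_mul (by linarith) (by linarith) (by linarith) (by linarith)
  refine (mul_le_mul_of_nonneg_left h3 (by norm_num : (0 : ℝ) ≤ 2)).trans (le_of_eq ?_)
  ring

theorem hb_term71 {s Δ P q : ℝ} (hP : 0 ≤ P) (hPq : P ≤ q) (hq : q ≤ 1) :
    s ^ 2 + (s + Δ) ^ 2 * P ≤ 3 * s ^ 2 + 2 * Δ ^ 2 * q := by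
  have h1 : (s + Δ) ^ 2 ≤ 2 * s ^ 2 + 2 * Δ ^ 2 := by nlinarith [sq_nonneg (s - Δ)]
  have h2 : (s + Δ) ^ 2 * P ≤ (2 * s ^ 2 + 2 * Δ ^ 2) * q := mul_le_mul h1 hPq hP (by positivity)
  have h3 : 2 * s ^ 2 * q ≤ 2 * s ^ 2 * 1 := mul_le_mul_of_nonneg_left hq (by positivity)
  have h4 : (2 * s ^ 2 + 2 * Δ ^ 2) * q = 2 * s ^ 2 * q + 2 * Δ ^ 2 * q := by ring
  linarith

theorem hb_size71 {v q E Z : ℝ} (hv : 0 < v) (hv1 : v ≤ 1) (hE : 1 ≤ E) (hq : 0 < q) (hZ : 1 ≤ Z)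
    (h : q * (Z * (E * Real.sqrt v)) ≤ 1) : v * (q * E) ^ 2 * Z ≤ 1 ∧ v * q * Z ≤ 1 := by
  have hsv : 0 < Real.sqrt v := Real.sqrt_pos.2 hv
  have hsv2 : Real.sqrt v * Real.sqrt v = v := Real.mul_self_sqrt hv.le
  have hsv1 : Real.sqrt v ≤ 1 := Real.sqrt_le_one.2 hv1
  obtain ⟨r, hr⟩ : ∃ r : ℝ, r = Real.sqrt v := ⟨_, rfl⟩
  rw [← hr] at hsv hsv2 hsv1 h
  rw [← hsv2]
  constructor
  · have h0 : 0 ≤ q * (Z * (E * r)) := by positivity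
    have h1 : (q * (Z * (E * r))) ^ 2 ≤ 1 := pow_le_one₀ h0 h
    have h2 : (q * (Z * (E * r))) ^ 2 = r * r * (q * E) ^ 2 * Z * Z := by ring
    have h3 : r * r * (q * E) ^ 2 * Z ≤ r * r * (q * E) ^ 2 * Z * Z := le_mul_of_one_le_right (by positivity) hZ
    linarith
  · have h3 : 0 ≤ q * Z * r := by positivity
    have h4 : r * r * q * Z = q * Z * r * r := by ring
    have h5 : q * (Z * (E * r)) = q * Z * r * E := by ring
    rw [h4]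
    rw [h5] at h
    exact (mul_le_mul_of_nonneg_left (hsv1.trans hE) h3).trans h

theorem hb_final71 {Δ L n R v kk s q P E Z w : ℝ} (hn : 0 < n) (hL : 0 < L) (hR : 0 < R) (h1 : 1 ≤ L * n)
    (hw : w = n * v) (h2 : 1 ≤ R * w) (hv : 0 < v) (hv1 : v ≤ 1) (hE : 1 ≤ E) (hs : s = q * E) (hq : 0 < q)
    (hq1 : q ≤ 1) (hP : 0 ≤ P) (hPq : P ≤ q) (hZ : 1 ≤ Z) (h : q * (Z * (E * Real.sqrt v)) ≤ 1)
    (key : (Δ * (n / 8)) ^ 2 ≤ 2 * ((L * n + 1) * (2 * (R * w) + 1)) * kk ^ 2 * (s ^ 2 + (s + Δ) ^ 2 * P)) :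
    Δ ^ 2 / 64 * Z ≤ 12 * L * R * kk ^ 2 * (3 + 2 * Δ ^ 2) := by
  have h3 := hb_card71 h1 h2
  have h4 := hb_term71 (s := s) (Δ := Δ) hP hPq hq1
  obtain ⟨h5, h6⟩ := hb_size71 hv hv1 hE hq hZ h
  rw [← hs] at h5
  have hterm0 : 0 ≤ s ^ 2 + (s + Δ) ^ 2 * P := by positivity
  have h7 : (Δ * (n / 8)) ^ 2 ≤ 12 * L * R * (n * w) * kk ^ 2 * (3 * s ^ 2 + 2 * Δ ^ 2 * q) := by
    refine key.trans (mul_le_mul (mul_le_mul_of_nonneg_right h3 (sq_nonneg kk)) h4 hterm0 ?_)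
    rw [hw]
    positivity
  have h8 : n ^ 2 * (Δ ^ 2 / 64) ≤ n ^ 2 * (12 * L * R * kk ^ 2 * (3 * (v * s ^ 2) + 2 * Δ ^ 2 * (v * q))) := by
    rw [hw] at h7
    refine le_trans (le_of_eq ?_) (h7.trans (le_of_eq ?_)) <;> ring
  have h9 : Δ ^ 2 / 64 ≤ 12 * L * R * kk ^ 2 * (3 * (v * s ^ 2) + 2 * Δ ^ 2 * (v * q)) :=
    le_of_mul_le_mul_left h8 (by positivity)
  have h10 := mul_le_mul_of_nonneg_right h9 (zero_le_one.trans hZ)
  have h11 : 12 * L * R * kk ^ 2 * (3 * (v * s ^ 2) + 2 * Δ ^ 2 * (v * q)) * Z =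
      12 * L * R * kk ^ 2 * (3 * (v * s ^ 2 * Z) + 2 * Δ ^ 2 * (v * q * Z)) := by
    ring
  rw [h11] at h10
  refine h10.trans (mul_le_mul_of_nonneg_left ?_ (by positivity))
  have h12 : 2 * Δ ^ 2 * (v * q * Z) ≤ 2 * Δ ^ 2 * 1 := mul_le_mul_of_nonneg_left h6 (by positivity)
  linarith

theorem exp_small71 {c C K : ℝ} (hc : 0 < c) (h : 160 * C / c ≤ K) : 10 * C * Real.exp (-(c * K)) ≤ 1 / 16 := by
  rw [Real.exp_neg]
  have h1 : 160 * C ≤ c * K := by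
    rw [div_le_iff₀ hc] at h
    linarith
  have h2 : c * K + 1 ≤ Real.exp (c * K) := Real.add_one_le_exp _
  rw [← div_eq_mul_inv, div_le_iff₀ (Real.exp_pos _)]
  linarith

end num

variable {F : Fm} {κ k1 K1 K a : ℝ} {Ds : Set Dr} {d : Dr}

/-- The upper tail of the cost. -/
theorem upper71 (hd : Adm F κ d) {n : ℕ} (hn : 1 ≤ n) {y : ℤ} {E Kt : ℝ} (hE : 0 < E) (hKt : 16 ≤ Kt)
    (hep : ep F d n y ≤ E) : (law F).real {η | Kt * E < X F d η 0 n y} ≤ 1 / 16 := by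
  have hB : Pool.Agent.W_1b8d5d_z.BM fun η => max (X F d η 0 n y) 0 :=
    Pool.Agent.W_1b8d5d_h4p.bm_max (Pool.Agent.W_1b8d5d_h4p.bm_X hd 0 hn y) (Pool.Agent.W_1b8d5d_z.BM.const 0)
  have h1 := mul_meas_ge_le_integral_of_nonneg (μ := law F) (f := fun η => max (X F d η 0 n y) 0)
    (Filter.Eventually.of_forall fun η => le_max_right _ _) hB.int (16 * E)
  have h2 : (law F).real {η | Kt * E < X F d η 0 n y} ≤ (law F).real {η | 16 * E ≤ max (X F d η 0 n y) 0} := by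
    refine measureReal_mono (fun η hη => ?_) (measure_ne_top _ _)
    rw [mem_ofPred_eq] at hη ⊢
    refine le_max_of_le_left (le_trans ?_ hη.le)
    exact mul_le_mul_of_nonneg_right hKt hE.le
  have h3 : 16 * E * (law F).real {η | 16 * E ≤ max (X F d η 0 n y) 0} ≤ E := h1.trans hep
  have h4 : 16 * E * (law F).real {η | 16 * E ≤ max (X F d η 0 n y) 0} ≤ 16 * E * (1 / 16) := by linarith
  exact h2.trans (le_of_mul_le_mul_left h4 (by positivity))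

/-- The fluctuations of a cheap displacement at a scale which is not soft. -/
theorem not_soft71 (hd : Adm F κ d) {x n : ℕ} (hn : n = 2 ^ x) {α q E : ℝ} (hα : 3 ≤ α) (hq : q = (2 : ℝ) ^ (-α))
    (hE : E = EE F d n) (hS : ¬ Sf F κ d x α) {y : ℤ} (he : e F d n y ≤ E) :
    (law F).real {η | q * E ≤ |X F d η 0 n y - e F d n y|} < q := by
  have h1n : 1 ≤ n := by rw [hn]; exact Nat.one_le_two_pow
  have h12α : (1 : ℝ) ≤ 2 ^ α := Real.one_le_rpow one_le_two (by linarith)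
  have hE0 : 0 < E := by rw [hE]; exact EE_pos F d n
  have hmean : ∫ η, -X F d η 0 n y ∂(law F) = -e F d n y := by
    rw [integral_neg]
    rfl
  have hconc := conc_of_not_Sf hS (l := n) (by
    rw [hn]
    push_cast
    rw [← Real.rpow_natCast]
    exact Real.rpow_le_rpow_of_exponent_le one_le_two (by linarith)) (lk_X hd h1n y) (by
      show -((2 : ℝ) ^ α * EE F d (2 ^ x)) ≤ ∫ η, -X F d η 0 n y ∂(law F)
      rw [hmean, neg_le_neg_iff, ← hn, ← hE]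
      exact he.trans (le_mul_of_one_le_left hE0.le h12α))
  rw [← hn, ← hE, ← hq] at hconc
  refine lt_of_le_of_lt (measureReal_mono (fun η hη => ?_) (measure_ne_top _ _)) hconc
  rw [mem_ofPred_eq] at hη ⊢
  show q * E ≤ |-X F d η 0 n y - ∫ ξ, -X F d ξ 0 n y ∂(law F)|
  rw [hmean, show -X F d η 0 n y - -e F d n y = -(X F d η 0 n y - e F d n y) by ring, abs_neg]
  exact hη

/-- **HB0 at one scale**: with the tube event, a scale which is not soft at the level `α` has a small width. -/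
theorem hb0_scale71 {t1 t2 : ℝ} (hq1 : 0 < F.nu.real {u | F.g u ≤ t1}) (hq2 : 0 < F.nu.real {u | t2 ≤ F.g u})
    (ht : t1 < t2) (hp : F.nu.real {u | F.g u < t2} ≤ 1 / 256) (hd : Adm F κ d) (hk : Lat F κ k1 K1 d) {x n : ℕ}
    (hn : n = 2 ^ x) {c C Kt v W Λ E : ℝ} (hc : 0 < c) (hKt1 : 16 ≤ Kt) (hKt2 : 160 * C / c ≤ Kt) (hΛ : 1 ≤ Λ)
    (hE : E = EE F d n) (hE1 : 1 ≤ E) (hv : 0 < v) (hv1 : v ≤ 1) (hW : W = Λ * (n * v))
    (hCP : CP F ≤ E) (hs1 : c * E / W ≤ k1 / 2) (hs2 : 1 ≤ c / E * (k1 / 2 * W)) (hcw : c ≤ n * v)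
    (hL : ∀ o : ℝ, ∫ η, Real.exp (c / E * TL F d (c * E / W) o W n η) ∂(law F) ≤ C) {α Z : ℝ} (hα : 3 ≤ α)
    (hZ : 1 ≤ Z) (hZα : Z * (E * Real.sqrt v) ≤ (2 : ℝ) ^ α) (hS : ¬ Sf F κ d x α) :
    (t2 - t1) ^ 2 / 64 * Z ≤ 12 * F.co.L * ((3 * Kt + 2) / c * Λ) *
      ((F.nu.real {u | t2 ≤ F.g u})⁻¹ + (F.nu.real {u | F.g u ≤ t1})⁻¹) ^ 2 * (3 + 2 * (t2 - t1) ^ 2) := by
  have h1n : 1 ≤ n := by rw [hn]; exact Nat.one_le_two_pow
  have hn0 : (0 : ℝ) < n := by exact_mod_cast h1n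
  have hE0 : 0 < E := by linarith
  have hW0 : 0 < W := by rw [hW]; positivity
  have hL1 : (2 : ℝ) ≤ F.co.L := by exact_mod_cast F.co.L_pos
  obtain ⟨y, hy⟩ := es_attained hd n
  have hep : ep F d n y ≤ E := by
    rw [hy, hE]
    have h1 := le_EE F d (le_refl n)
    have h2 := Cr_pos F
    linarith
  have he : e F d n y ≤ E := (e_le_ep F d h1n y).trans hep
  obtain ⟨B, hBm, hPB, htube⟩ := tube_scale hd hk hE0 hW0 hc hs1 hs2 hCP (N := n) (C := C) hL Kt y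
  have hρ : 0 ≤ (3 * Kt + 2) / c * W := by positivity
  have hXu := upper71 hd h1n hE0 hKt1 hep
  obtain ⟨q, hq⟩ : ∃ q : ℝ, q = (2 : ℝ) ^ (-α) := ⟨_, rfl⟩
  have h2α : (0 : ℝ) < 2 ^ α := Real.rpow_pos_of_pos two_pos _
  have hq0 : 0 < q := by rw [hq]; exact Real.rpow_pos_of_pos two_pos _
  have hq8 : q ≤ 1 / 8 := by
    rw [hq]
    have h1 : (2 : ℝ) ^ (-α) ≤ 2 ^ (-3 : ℝ) := Real.rpow_le_rpow_of_exponent_le one_le_two (by linarith)
    have h2 : (2 : ℝ) ^ (-3 : ℝ) = 1 / 8 := by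
      rw [Real.rpow_neg two_pos.le]
      norm_num
    rw [h2] at h1
    exact h1
  have hset := not_soft71 hd hn hα hq hE hS he
  have key := fluct_scale (F := F) (d := d) hq1 hq2 ht hp h1n (y := y) (x0 := Kt * E) hρ hBm
    (hPB.trans (exp_small71 hc hKt2)) hXu (fun η hη g hg hx v' hv' => htube η hη g hg hx v' hv') (e F d n y)
    (s := q * E) (mul_nonneg hq0.le hE0.le) (hset.le.trans hq8)
  have hneg : (2 : ℝ) ^ (-α) = ((2 : ℝ) ^ α)⁻¹ := Real.rpow_neg two_pos.le _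
  have hqZ : q * (Z * (E * Real.sqrt v)) ≤ 1 := by
    rw [hq, hneg, inv_mul_le_iff₀ h2α, mul_one]
    exact hZα
  have hLn : (1 : ℝ) ≤ F.co.L * n := by
    have h1 : (1 : ℝ) ≤ n := by exact_mod_cast h1n
    have h2 : (2 : ℝ) * 1 ≤ F.co.L * n := mul_le_mul hL1 h1 zero_le_one (by linarith)
    linarith
  have hRw : 1 ≤ (3 * Kt + 2) / c * Λ * (n * v) := by
    have h1 : 1 ≤ (3 * Kt + 2) / c * (n * v) := by
      rw [div_mul_eq_mul_div, le_div_iff₀ hc, one_mul]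
      have h2 : 1 * (n * v) ≤ (3 * Kt + 2) * (n * v) := mul_le_mul_of_nonneg_right (by linarith) (by positivity)
      linarith
    have h2 : (3 * Kt + 2) / c * Λ * (n * v) = (3 * Kt + 2) / c * (n * v) * Λ := by ring
    rw [h2]
    have h3 : (1 : ℝ) * 1 ≤ (3 * Kt + 2) / c * (n * v) * Λ := mul_le_mul h1 hΛ zero_le_one (by positivity)
    linarith
  have hρeq : (3 * Kt + 2) / c * W = (3 * Kt + 2) / c * Λ * (n * v) := by
    rw [hW]
    ring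
  rw [hρeq] at key
  exact hb_final71 hn0 (by linarith) (by positivity) hLn rfl hRw hv hv1 hE1 rfl hq0 (hq8.trans (by norm_num))
    measureReal_nonneg hset.le hZ hqZ key

/-- The constants of the lateral positions. -/
theorem lat_of71 (hD : Dirs F κ K Ds) (hd0 : d ∈ Ds) : ∃ k1 K1 : ℝ, 0 < k1 ∧ 0 ≤ K1 ∧ ∀ d ∈ Ds, Lat F κ k1 K1 d := by
  have hκ := (hD.adm d hd0).κ0
  have hK0 : 0 ≤ K := (abs_nonneg _).trans (hD.slope d hd0)
  have hR1 : (1 : ℝ) ≤ F.co.R := by exact_mod_cast F.co.R_pos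
  have hK1 : 0 < F.co.R + K := by linarith
  refine ⟨κ / (F.co.R + K), F.co.R + K, by positivity, hK1.le, fun d hd => ⟨by positivity, ?_, ?_⟩⟩
  · linarith [hD.slope d hd]
  · rw [div_mul_cancel₀ _ hK1.ne']

/-- **(hB0)** for a family of directions. -/
theorem hb0P_71 {cl Cl : ℝ} (hL : LawH F cl Cl) (hD : Dirs F κ K Ds) (ha : 0 < a) : HB0P a F κ Ds := by
  rcases Ds.eq_empty_or_nonempty with h0 | ⟨d0, hd0⟩
  · refine ⟨0, 0, fun d hd => ?_⟩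
    rw [h0] at hd
    exact absurd hd (notMem_empty _)
  refine HB0P.change hD ha one_pos ?_
  obtain ⟨k1, K1, hk10, hK10, hk⟩ := lat_of71 hD hd0
  have hR : Rate F Ds := hD.rate hL
  have hG : Grow F Ds := hD.grow_law hL
  obtain ⟨Λ, c, C, n0, hΛ, hc, hc1, hC, -, hls⟩ := hD.lsTube hR hG (mcz hL hD) (a := 1) le_rfl (Hh := 1) le_rfl hk10
  obtain ⟨n2, -, h2⟩ := hD.w_large hR one_pos c
  obtain ⟨n3, h3⟩ := hG 1
  obtain ⟨n4, -, h4⟩ := hD.vA_small hR one_pos (ε := 1) one_pos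
  obtain ⟨t1, t2, ht, hq1, hq2, hp⟩ := levels71 hL
  obtain ⟨x1, hx1⟩ : ∃ x1 : ℕ, max (max n0 n2) (max n3 n4) ≤ 2 ^ x1 := ⟨_, Nat.lt_two_pow_self.le⟩
  obtain ⟨C1, hC1⟩ := small71 (a := 1) hL hD one_pos hK10 hk x1
  obtain ⟨Kt, hKt⟩ : ∃ Kt : ℝ, Kt = max 16 (160 * C / c) := ⟨_, rfl⟩
  have hKt1 : 16 ≤ Kt := by rw [hKt]; exact le_max_left _ _
  have hKt2 : 160 * C / c ≤ Kt := by rw [hKt]; exact le_max_right _ _
  obtain ⟨Q, hQ⟩ : ∃ Q : ℝ, Q = 12 * F.co.L * ((3 * Kt + 2) / c * Λ) *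
      ((F.nu.real {u | t2 ≤ F.g u})⁻¹ + (F.nu.real {u | F.g u ≤ t1})⁻¹) ^ 2 * (3 + 2 * (t2 - t1) ^ 2) := ⟨_, rfl⟩
  have hL1 : (2 : ℝ) ≤ F.co.L := by exact_mod_cast F.co.L_pos
  have hΔ : 0 < (t2 - t1) ^ 2 := by
    have : 0 < t2 - t1 := by linarith
    positivity
  have hQ0 : 0 < Q := by rw [hQ]; positivity
  obtain ⟨C2, hC2⟩ : ∃ C2 : ℝ, C2 = max 0 (Real.logb 2 (128 * Q / (t2 - t1) ^ 2)) := ⟨_, rfl⟩
  obtain ⟨C0, hC0⟩ : ∃ C0 : ℝ, C0 = max C1 C2 := ⟨_, rfl⟩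
  refine ⟨C0, 3, fun d hd x => ?_⟩
  rcases lt_or_ge x x1 with hx | hx
  · exact hC1 _ (by rw [hC0]; exact le_max_left _ _) d hd x hx
  have hC02 : C2 ≤ C0 := by rw [hC0]; exact le_max_right _ _
  have hC00 : 0 ≤ C0 := le_trans (by rw [hC2]; exact le_max_left _ _) hC02
  by_contra hS
  have hnx : max (max n0 n2) (max n3 n4) ≤ 2 ^ x := hx1.trans (Nat.pow_le_pow_right (by norm_num) hx)
  have hn0 : n0 ≤ 2 ^ x := ((le_max_left _ _).trans (le_max_left _ _)).trans hnx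
  have hn2 : n2 ≤ 2 ^ x := ((le_max_right _ _).trans (le_max_left _ _)).trans hnx
  have hn3 : n3 ≤ 2 ^ x := ((le_max_left _ _).trans (le_max_right _ _)).trans hnx
  have hn4 : n4 ≤ 2 ^ x := ((le_max_right _ _).trans (le_max_right _ _)).trans hnx
  obtain ⟨hCP, hW, hs1, hs2, hLS⟩ := hls d hd (2 ^ x) hn0
  have hE1 := h3 d hd (2 ^ x) hn3
  have hcw : c ≤ ((2 ^ x : ℕ) : ℝ) * vA 1 F d (2 ^ x) := by
    refine le_trans ?_ (h2 d hd (2 ^ x) hn2)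
    exact le_mul_of_one_le_right hc.le hE1
  obtain ⟨Z, hZ⟩ : ∃ Z : ℝ, Z = (2 : ℝ) ^ C0 := ⟨_, rfl⟩
  have hZ1 : 1 ≤ Z := by rw [hZ]; exact Real.one_le_rpow one_le_two hC00
  have key := hb0_scale71 hq1 hq2 ht hp (hD.adm d hd) (hk d hd) (x := x) rfl (v := vA 1 F d (2 ^ x)) hc hKt1 hKt2 hΛ rfl
    hE1 (hD.vA_pos hd one_pos Nat.one_le_two_pow) (h4 d hd (2 ^ x) hn4) rfl hCP hs1 hs2 hcw
    (fun o => (hLS (2 ^ x) (by omega) o).1) (α := max (gg F d x - ff 1 F d x / 2 + C0) 3) (le_max_right _ _) hZ1 (by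
      rw [hZ, ← pow_alpha71 hD one_pos hd]
      exact Real.rpow_le_rpow_of_exponent_le one_le_two (le_max_left _ _)) hS
  rw [← hQ] at key
  have hZbig : 128 * Q / (t2 - t1) ^ 2 ≤ Z := by
    have h1 : 0 < 128 * Q / (t2 - t1) ^ 2 := by positivity
    have h2 : (2 : ℝ) ^ Real.logb 2 (128 * Q / (t2 - t1) ^ 2) = 128 * Q / (t2 - t1) ^ 2 :=
      Real.rpow_logb two_pos (by norm_num) h1
    rw [← h2, hZ]
    refine Real.rpow_le_rpow_of_exponent_le one_le_two (le_trans ?_ hC02)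
    rw [hC2]
    exact le_max_right _ _
  rw [div_le_iff₀ hΔ] at hZbig
  have e1 : (t2 - t1) ^ 2 / 64 * Z = Z * (t2 - t1) ^ 2 / 64 := by ring
  rw [e1] at key
  linarith

end

end Pool.Agent.W_1b8d5d_p
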