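import Pool.Agent.W_1b8d5d_p.IfaceP
import Pool.Agent.W_1b8d5d_p.HfC80

/-!
MP_1b8d5d_pr, Track P, HF2 (proofs row 645, (iii)): SEPARATION from `LStarP` (the predicate of the interface).
-/

namespace Pool.Agent.W_1b8d5d_p

open MeasureTheory Set
open Pool.Agent.W_1b8d5d_h85

noncomputable section

variable {F : Fm} {κ K a : ℝ} {Ds : Set Dr}

/-- The form `LS80` of (L\*) from `LStarP`. -/
theorem LS80_of_LStarP (h : LStarP a F Ds) : LS80 a F Ds := by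
  obtain ⟨C, n0, hC, hL⟩ := h 1
  have hC0 : 0 < C := by linarith
  refine ⟨C, C⁻¹, max n0 1, hC, by positivity, le_max_right _ _, fun d hd n hn N hN o => ?_⟩
  have h1 := hL d hd n ((le_max_left _ _).trans hn) N (by omega) o
  have e1 : C⁻¹ * EE F d n / (n * vA a F d n) = EE F d n / (C * (n * vA a F d n)) := by
    rw [inv_mul_eq_div, div_div]
  rw [e1]
  exact h1

/-- **SEPARATION** from (L\*) in the form of the interface. -/
theorem sep_P80 (hD : Dirs F κ K Ds) (hR : Rate F Ds) (hG : Grow F Ds) (ha : 0 < a) (hLS : LStarP a F Ds) (T : ℕ) {P c8 : ℝ}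
    (hP : 1 ≤ P) (hc8 : 0 < c8) : ∃ S0 n1 : ℕ, 1 ≤ n1 ∧ ∀ S : ℕ, S0 ≤ S → ∀ d ∈ Ds, ∀ n : ℕ, n1 ≤ n → ∀ m : ℕ, 1 ≤ m →
      m ≤ 2 ^ T * n → ∀ y : ℤ, e F d m y ≤ EE F d n → ∀ a1 a2 : Pt,
      c8 * (2 ^ S * (n * vA a F d n)) ≤ |lat d a2 - lat d a1| → ∀ b : ℝ,
      ∃ c0 : ℝ, (law F).real {η | b < |X F d η 0 m y - c0|} ≤
        (law F).real {η | b < |X F d η a1 m y - X F d η a2 m y|} + 3 / (32 * P) :=
  sep_T80 hD hR hG ha (LS80_of_LStarP hLS) T hP hc8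

end

end Pool.Agent.W_1b8d5d_p
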