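import Pool.Agent.W_1b8d5d_p.Width99

/-!
MP_1b8d5d_pr, Track P, (hF2) in the new unit, part (i): the means. From two cheap tubes of different slopes and the record trick
(predicate `RTF`) to intervals of cheap displacements of width `c8 v q` for all durations `n ≤ q ≤ 2 ^ S n`.
-/

namespace Pool.Agent.W_1b8d5d_p

open MeasureTheory Set
open Pool.Agent.W_1b8d5d_h85 (V nm dir Edge Env grid ke wedges cost Bd sh rf)

noncomputable section

/-- Two slopes `sm < sp` at a distance of at least `c7 v`, with the record trick along both: pieces of the duration `2 t + 1` and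
the displacement `s t + xs t` cost at most the cheapest displacement of the duration `t` and a share of the tube. -/
structure TwoL (A c7 C7 Cc : ℝ) (F : Fm) (d : Dr) (n N : ℕ) (t0 sp sm : ℝ) : Prop where
  gap : c7 * vA A F d n ≤ sp - sm
  absp : |sp - d.v| ≤ C7 * vA A F d n
  absm : |sm - d.v| ≤ C7 * vA A F d n
  rt : ∀ t : ℕ, t0 ≤ t → 8 * t ≤ N → ∀ s : ℝ, s = sp ∨ s = sm → c7 / 4 * (vA A F d n * t) ≤ |s * t - xs F d t| →
    ∃ y : ℤ, |(y : ℝ) - (s * t + xs F d t)| ≤ Cc ∧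
      e F d (2 * t + 1) y ≤ e F d t (xs F d t) + C7 * (t / N) * EE F d N + Cc

/-- **Two tubes and the record trick, uniformly**, in slow windows (exponent `θ`) with flat widths (flat also on `j0` octaves
before the window, `j0 ∈ Js`). -/
def RTFs (Js : Set ℕ) (θ A : ℝ) (F : Fm) (Ds : Set Dr) : Prop :=
  ∃ (c7 C7 Cc : ℝ) (h0 : ℕ), 0 < c7 ∧ 0 < C7 ∧ 0 < Cc ∧ ∀ c0 : ℝ, 0 < c0 → ∃ j0 ∈ Js, ∀ h : ℕ, h0 ≤ h →
    ∃ (L x1 : ℕ) (δ : ℝ), 0 < δ ∧ ∀ d ∈ Ds, ∀ x : ℕ, x1 ≤ x → j0 ≤ x →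
      (∀ j : ℕ, j ≤ L → gg F d (x + j) ≤ gg F d x + θ * j) → ff A F d (x + L) < ff A F d (x - j0) + δ →
      ∃ sp sm : ℝ, TwoL A c7 C7 Cc F d (2 ^ x) (2 ^ (x + h)) (c0 * 2 ^ x) sp sm

/-- The same without octaves before the window. -/
def RTF (θ A : ℝ) (F : Fm) (Ds : Set Dr) : Prop :=
  ∃ (c7 C7 Cc : ℝ) (h0 : ℕ), 0 < c7 ∧ 0 < C7 ∧ 0 < Cc ∧ ∀ c0 : ℝ, 0 < c0 → ∀ h : ℕ, h0 ≤ h →
    ∃ (L x1 : ℕ) (δ : ℝ), 0 < δ ∧ ∀ d ∈ Ds, ∀ x : ℕ, x1 ≤ x →
      (∀ j : ℕ, j ≤ L → gg F d (x + j) ≤ gg F d x + θ * j) → ff A F d (x + L) < ff A F d x + δ →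
      ∃ sp sm : ℝ, TwoL A c7 C7 Cc F d (2 ^ x) (2 ^ (x + h)) (c0 * 2 ^ x) sp sm

theorem RTF.to {θ A : ℝ} {F : Fm} {Ds : Set Dr} (h : RTF θ A F Ds) : RTFs {0} θ A F Ds := by
  obtain ⟨c7, C7, Cc, h0, h1, h2, h3, h4⟩ := h
  refine ⟨c7, C7, Cc, h0, h1, h2, h3, fun c0 hc0 => ⟨0, rfl, fun h hh => ?_⟩⟩
  obtain ⟨L, x1, δ, hδ, h5⟩ := h4 c0 hc0 h hh
  exact ⟨L, x1, δ, hδ, fun d hd x hx _ => h5 d hd x hx⟩

variable {F : Fm} {κ K A c7 C7 Cc θ : ℝ} {d : Dr} {Ds : Set Dr} {n N : ℕ} {t0 sp sm : ℝ}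

/-! ### One scale -/

/-- One of the two sides is far. -/
theorem TwoL.side (h : TwoL A c7 C7 Cc F d n N t0 sp sm) (hv : 0 ≤ vA A F d n) (hc : 0 ≤ c7) (t : ℕ) (x : ℝ) :
    ∃ s, (s = sp ∨ s = sm) ∧ c7 / 4 * (vA A F d n * t) ≤ |s * t - x| := by
  have ht : (0 : ℝ) ≤ t := Nat.cast_nonneg t
  have h1 := mul_le_mul_of_nonneg_right h.gap ht
  have h2 : 0 ≤ c7 * vA A F d n * t := by positivity
  rcases le_total (c7 / 4 * (vA A F d n * t)) |sp * t - x| with h3 | h3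
  · exact ⟨sp, Or.inl rfl, h3⟩
  · refine ⟨sm, Or.inr rfl, ?_⟩
    have h4 := le_abs_self (sp * t - x)
    have h5 := neg_abs_le (sm * t - x)
    linarith

theorem e_xs_nonneg (ht : Touch F d) {m : ℕ} (hm : 1 ≤ m) : 0 ≤ e F d m (xs F d m) := by
  refine le_trans ?_ (e_lower F d hm _)
  exact mul_nonneg (Nat.cast_nonneg _) (ht.nn _)

theorem e_xs_le_EE (hd : Adm F κ d) {m M : ℕ} (h : m ≤ M) : e F d m (xs F d m) ≤ EE F d M := by
  have h1 := e_xs_le hd m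
  have h2 := le_EE F d h
  have h3 := Cr_pos F
  linarith

/-- One block step more. -/
theorem e_xs_step (hd : Adm F κ d) {m : ℕ} (hm : 1 ≤ m) (y : ℤ) : e F d (m + 1) (y + xs F d 1) ≤ e F d m y + Ku F := by
  have h1 := e_sub F d hm le_rfl y (xs F d 1)
  have h2 := e_xs_le_EE hd (le_refl 1)
  have h3 := EE_one_le hd
  linarith

/-- The record trick for the cheapest displacements. -/
theorem TwoL.record (h : TwoL A c7 C7 Cc F d n N t0 sp sm) (hd : Adm F κ d) (hv : 0 ≤ vA A F d n) (hc : 0 ≤ c7) {t : ℕ}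
    (ht : t0 ≤ t) (htN : 8 * t ≤ N) :
    e F d (2 * t + 1) (xs F d (2 * t + 1)) ≤ e F d t (xs F d t) + C7 * (t / N) * EE F d N + Cc := by
  obtain ⟨s, hs, h1⟩ := h.side hv hc t (xs F d t)
  obtain ⟨y, -, h2⟩ := h.rt t ht htN s hs h1
  exact (xs_le hd (by omega) y).trans h2

/-- The chain of the record trick. -/
theorem TwoL.chain (h : TwoL A c7 C7 Cc F d n N t0 sp sm) (hd : Adm F κ d) (hv : 0 ≤ vA A F d n) (hc : 0 ≤ c7)
    (hC7 : 0 ≤ C7) (hCc : 0 ≤ Cc) {ρ : ℕ} (hρ : 2 ≤ ρ) (ht0 : 4 * t0 ≤ ρ) (k : ℕ) :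
    ∀ m : ℕ, 1 ≤ m → m ≤ 2 ^ k * ρ → 4 * m ≤ N →
      e F d m (xs F d m) ≤ EE F d ρ + C7 * (m / N) * EE F d N + k * (Cc + Ku F) := by
  have hKu : 0 < Ku F := (EE_pos F d 1).trans_le (EE_one_le hd)
  have hEN := EE_pos F d N
  induction k with
  | zero =>
    intro m hm hm2 hm3
    rw [pow_zero, one_mul] at hm2
    have h1 := e_xs_le_EE hd hm2
    have h2 : 0 ≤ C7 * (m / N : ℝ) * EE F d N := by positivity
    push_cast
    linarith
  | succ k ih =>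
    intro m hm hm2 hm3
    have hk : (0 : ℝ) ≤ (k : ℝ) * (Cc + Ku F) := by positivity
    rcases le_total m ρ with h0 | h0
    · have h1 := e_xs_le_EE hd h0
      have h2 : 0 ≤ C7 * (m / N : ℝ) * EE F d N := by positivity
      push_cast
      linarith
    rcases Nat.eq_or_lt_of_le h0 with h0' | h0'
    · have h1 := e_xs_le_EE (F := F) hd (le_of_eq h0'.symm)
      have h2 : 0 ≤ C7 * (m / N : ℝ) * EE F d N := by positivity
      push_cast
      linarith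
    obtain ⟨t, ht⟩ : ∃ t, t = (m - 1) / 2 := ⟨_, rfl⟩
    have ht1 : 1 ≤ t := by omega
    have ht2 : ρ ≤ 2 * t + 1 := by omega
    have ht3 : t0 ≤ t := by
      have h1 : (ρ : ℝ) ≤ 2 * t + 1 := by exact_mod_cast ht2
      have h2 : (1 : ℝ) ≤ t := by exact_mod_cast ht1
      linarith
    have ht4 : t ≤ 2 ^ k * ρ := by
      have h1 : 2 ^ (k + 1) * ρ = 2 * (2 ^ k * ρ) := by ring
      omega
    have h5 := ih t ht1 ht4 (by omega)
    have h6 := h.record hd hv hc ht3 (by omega)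
    have h7 : e F d m (xs F d m) ≤ e F d (2 * t + 1) (xs F d (2 * t + 1)) + Ku F := by
      rcases Nat.even_or_odd m with hp | hp
      · have e1 : m = 2 * t + 1 + 1 := by
          obtain ⟨r, hr⟩ := hp
          omega
        rw [e1]
        exact (xs_le hd (by omega) _).trans (e_xs_step hd (by omega) _)
      · have e1 : m = 2 * t + 1 := by
          obtain ⟨r, hr⟩ := hp
          omega
        rw [e1]
        linarith
    have h8 : C7 * (t / N : ℝ) * EE F d N + C7 * (t / N : ℝ) * EE F d N ≤ C7 * (m / N : ℝ) * EE F d N := by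
      have h9 : (2 : ℝ) * t ≤ m := by exact_mod_cast (by omega : 2 * t ≤ m)
      have h10 : C7 * (t / N : ℝ) * EE F d N + C7 * (t / N : ℝ) * EE F d N = C7 * (2 * t / N : ℝ) * EE F d N := by ring
      rw [h10]
      exact mul_le_mul_of_nonneg_right (mul_le_mul_of_nonneg_left (div_le_div_of_nonneg_right h9 (Nat.cast_nonneg _)) hC7) hEN.le
    push_cast
    linarith

/-- Between two cheap displacements every displacement is cheap. -/
theorem e_between (F : Fm) (d : Dr) {m : ℕ} (hm : 1 ≤ m) {y0 y1 y : ℤ} (h0 : y0 ≤ y) (h1 : y ≤ y1) {B : ℝ}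
    (hB0 : e F d m y0 ≤ B) (hB1 : e F d m y1 ≤ B) : e F d m y ≤ B := by
  rcases eq_or_lt_of_le (h0.trans h1) with h | h
  · have : y = y0 := by omega
    rw [this]
    exact hB0
  · have h2 := e_chord F d hm h0 h1
    have h3 : (0 : ℝ) < (y1 : ℝ) - y0 := by
      have : (y0 : ℝ) < y1 := by exact_mod_cast h
      linarith
    have h4 : (0 : ℝ) ≤ (y1 : ℝ) - y := by
      have : (y : ℝ) ≤ y1 := by exact_mod_cast h1
      linarith
    have h5 : (0 : ℝ) ≤ (y : ℝ) - y0 := by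
      have : (y0 : ℝ) ≤ y := by exact_mod_cast h0
      linarith
    have h6 := mul_le_mul_of_nonneg_left hB0 h4
    have h7 := mul_le_mul_of_nonneg_left hB1 h5
    have h8 : ((y1 : ℝ) - y0) * e F d m y ≤ (y1 - y0) * B := by
      calc ((y1 : ℝ) - y0) * e F d m y ≤ _ := h2
        _ ≤ (y1 - y) * B + (y - y0) * B := add_le_add h6 h7
        _ = (y1 - y0) * B := by ring
    exact le_of_mul_le_mul_left h8 h3

/-- The cheapest displacement is in the cone. -/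
theorem Dirs.xs_near (hD : Dirs F κ K Ds) (hd : d ∈ Ds) (hA : 1 ≤ A) {m : ℕ} (hm : 1 ≤ m) :
    |(xs F d m : ℝ) - d.v * m| ≤ m * vA A F d m := by
  have hm0 : (0 : ℝ) < m := by exact_mod_cast hm
  have h1 := e_lower F d hm (xs F d m)
  have h2 := e_xs_le_EE (hD.adm d hd) (le_refl m)
  have h3 : (m : ℝ) * J F d ((xs F d m : ℝ) / m - d.v) ≤ A * EE F d m := by
    have h4 := EE_pos F d m
    nlinarith
  have h4 := hD.lev_abs hd (zero_le_one.trans hA) hm h3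
  have e1 : (xs F d m : ℝ) - d.v * m = m * ((xs F d m : ℝ) / m - d.v) := by field_simp
  rw [e1, abs_mul, Nat.abs_cast]
  exact mul_le_mul_of_nonneg_left h4 hm0.le

/-- The widths of at most half the duration. -/
theorem Dirs.w_half (hD : Dirs F κ K Ds) (hd : d ∈ Ds) (hA : 0 ≤ A) (hn : 1 ≤ n) {t q : ℕ} (ht : 1 ≤ t) (hq : n ≤ q)
    (htq : 2 * t ≤ q) : t * vA A F d t ≤ vA A F d n * q := by
  have hv : 0 ≤ vA A F d n := by
    rw [hD.vA_wd hd hA]
    exact wd_nonneg _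
  have ht0 : (0 : ℝ) ≤ t := Nat.cast_nonneg t
  have hq' : (n : ℝ) ≤ q := by exact_mod_cast hq
  have hq2 : (2 : ℝ) * t ≤ q := by exact_mod_cast htq
  rcases le_total t n with h | h
  · have h1 := hD.w_mono hd hA ht h
    have h2 := mul_le_mul_of_nonneg_right hq' hv
    linarith
  · have h1 := hD.vA_le_two hd hA hn h
    have h2 := mul_le_mul_of_nonneg_left h1 ht0
    have h3 := mul_le_mul_of_nonneg_right hq2 hv
    linarith

/-- The interval of an odd duration. -/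
theorem TwoL.odd (h : TwoL A c7 C7 Cc F d n N t0 sp sm) (hD : Dirs F κ K Ds) (hd : d ∈ Ds) (hA : 1 ≤ A)
    (hc : 0 ≤ c7) (hC7 : 0 ≤ C7) {W1 : ℝ} (hW1 : vA A F d 1 ≤ W1) {t : ℕ} (ht1 : 1 ≤ t) {Q : ℝ}
    (hwt : t * vA A F d t ≤ Q) (hQ : vA A F d n * t ≤ Q) (ht : t0 ≤ t) (htN : 8 * t ≤ N) :
    ∃ lo hi : ℤ, c7 / 4 * (vA A F d n * t) - (Cc + W1 + K) ≤ (hi : ℝ) - lo ∧ ∀ y : ℤ, lo ≤ y → y ≤ hi →
      e F d (2 * t + 1) y ≤ max (2 * e F d t (xs F d t) + Ku F) (e F d t (xs F d t) + C7 * (t / N) * EE F d N + Cc) ∧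
      |(y : ℝ) - d.v * (2 * t + 1 : ℕ)| ≤ (2 + C7) * Q + (Cc + W1 + K) := by
  have hadm := hD.adm d hd
  have hA0 : 0 ≤ A := zero_le_one.trans hA
  have hv : 0 ≤ vA A F d n := by
    rw [hD.vA_wd hd hA0]
    exact wd_nonneg _
  have ht0 : (0 : ℝ) ≤ t := Nat.cast_nonneg t
  obtain ⟨s, hs, h1⟩ := h.side hv hc t (xs F d t)
  obtain ⟨z, hz1, hz2⟩ := h.rt t ht htN s hs h1
  have h2 := hD.xs_near hd hA ht1
  have h3 := hD.xs_near hd hA (le_refl 1)
  have hK := hD.slope d hd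
  have hsv : |s - d.v| ≤ C7 * vA A F d n := by
    rcases hs with hs | hs
    · rw [hs]
      exact h.absp
    · rw [hs]
      exact h.absm
  have hQ0 : 0 ≤ Q := (mul_nonneg hv ht0).trans hQ
  have hCc0 : 0 ≤ Cc := (abs_nonneg _).trans hz1
  have hK0 : 0 ≤ K := (abs_nonneg _).trans hK
  have hW0 : 0 ≤ W1 := by
    refine le_trans ?_ hW1
    rw [hD.vA_wd hd hA0]
    exact wd_nonneg _
  rw [Nat.cast_one, one_mul, mul_one] at h3
  have h3' := h3.trans hW1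
  have hst : |s - d.v| * t ≤ C7 * Q := by
    have k1 := mul_le_mul_of_nonneg_right hsv ht0
    have k2 := mul_le_mul_of_nonneg_left hQ hC7
    linarith
  have hC7Q : 0 ≤ C7 * Q := mul_nonneg hC7 hQ0
  have e2 : ((2 * t + 1 : ℕ) : ℝ) = 2 * t + 1 := by push_cast; ring
  -- the two ends
  obtain ⟨y0, hy0⟩ : ∃ y0, y0 = xs F d t + xs F d t + xs F d 1 := ⟨_, rfl⟩
  have he0 : e F d (2 * t + 1) y0 ≤ 2 * e F d t (xs F d t) + Ku F := by
    have k1 := e_sub F d ht1 ht1 (xs F d t) (xs F d t)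
    have k2 := e_xs_step hadm (show 1 ≤ t + t by omega) (xs F d t + xs F d t)
    rw [hy0, two_mul t]
    linarith
  have hb0 : |(y0 : ℝ) - d.v * (2 * t + 1 : ℕ)| ≤ (2 + C7) * Q + (Cc + W1 + K) := by
    have e1 : (y0 : ℝ) - d.v * (2 * t + 1 : ℕ) =
        ((xs F d t - d.v * t) + (xs F d t - d.v * t)) + (xs F d 1 - d.v) := by
      rw [hy0, e2]
      push_cast
      ring
    have k1 := abs_add_le (((xs F d t : ℝ) - d.v * t) + (xs F d t - d.v * t)) ((xs F d 1 : ℝ) - d.v)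
    have k2 := abs_add_le ((xs F d t : ℝ) - d.v * t) (xs F d t - d.v * t)
    rw [e1]
    linarith
  have hb1 : |(z : ℝ) - d.v * (2 * t + 1 : ℕ)| ≤ (2 + C7) * Q + (Cc + W1 + K) := by
    have e1 : (z : ℝ) - d.v * (2 * t + 1 : ℕ) =
        (((z - (s * t + xs F d t)) + (s - d.v) * t) + (xs F d t - d.v * t)) + -d.v := by
      rw [e2]
      ring
    have k1 := abs_add_le ((((z : ℝ) - (s * t + xs F d t)) + (s - d.v) * t) + (xs F d t - d.v * t)) (-d.v)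
    have k2 := abs_add_le (((z : ℝ) - (s * t + xs F d t)) + (s - d.v) * t) ((xs F d t : ℝ) - d.v * t)
    have k3 := abs_add_le ((z : ℝ) - (s * t + xs F d t)) ((s - d.v) * t)
    rw [abs_mul, Nat.abs_cast] at k3
    rw [abs_neg] at k1
    rw [e1]
    linarith
  have hdist : c7 / 4 * (vA A F d n * t) - (Cc + W1 + K) ≤ |(z : ℝ) - y0| := by
    have e1 : s * t - xs F d t = (z - y0) + (-(z - (s * t + xs F d t)) + xs F d 1) := by
      rw [hy0]
      push_cast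
      ring
    have k1 := abs_add_le ((z : ℝ) - y0) (-(z - (s * t + xs F d t)) + xs F d 1)
    have k2 := abs_add_le (-((z : ℝ) - (s * t + xs F d t))) (xs F d 1 : ℝ)
    rw [abs_neg] at k2
    have k3 : |(xs F d 1 : ℝ)| ≤ W1 + K := by
      have k4 := abs_add_le ((xs F d 1 : ℝ) - d.v) d.v
      rw [sub_add_cancel] at k4
      linarith
    rw [← e1] at k1
    linarith
  have hb := fun y : ℤ => fun (B : ℝ) (k1 : |(y0 : ℝ) - d.v * (2 * t + 1 : ℕ)| ≤ B) (k2 : |(z : ℝ) - d.v * (2 * t + 1 : ℕ)| ≤ B)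
    (k3 : (min y0 z : ℤ) ≤ y) (k4 : y ≤ (max y0 z : ℤ)) => show |(y : ℝ) - d.v * (2 * t + 1 : ℕ)| ≤ B by
      rw [abs_le] at k1 k2 ⊢
      constructor
      · rcases min_le_iff.1 k3 with k | k
        · have : (y0 : ℝ) ≤ y := by exact_mod_cast k
          linarith [k1.1]
        · have : (z : ℝ) ≤ y := by exact_mod_cast k
          linarith [k2.1]
      · rcases le_max_iff.1 k4 with k | k
        · have : (y : ℝ) ≤ y0 := by exact_mod_cast k
          linarith [k1.2]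
        · have : (y : ℝ) ≤ z := by exact_mod_cast k
          linarith [k2.2]
  refine ⟨min y0 z, max y0 z, ?_, fun y k1 k2 => ⟨?_, hb y _ hb0 hb1 k1 k2⟩⟩
  · refine hdist.trans (le_of_eq ?_)
    push_cast
    rw [max_sub_min_eq_abs, abs_sub_comm]
  · refine e_between F d (by omega) k1 k2 ?_ ?_
    · rcases min_choice y0 z with k | k
      · rw [k]
        exact he0.trans (le_max_left _ _)
      · rw [k]
        exact hz2.trans (le_max_right _ _)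
    · rcases max_choice y0 z with k | k
      · rw [k]
        exact he0.trans (le_max_left _ _)
      · rw [k]
        exact hz2.trans (le_max_right _ _)

/-- **The interval of cheap displacements**, all durations. -/
theorem TwoL.interval (h : TwoL A c7 C7 Cc F d n N t0 sp sm) (hD : Dirs F κ K Ds) (hd : d ∈ Ds) (hA : 1 ≤ A) (hn : 8 ≤ n)
    (hc : 0 < c7) (hC7 : 0 ≤ C7) {W1 : ℝ} (hW1 : vA A F d 1 ≤ W1)
    (hw : 32 * (Cc + W1 + K) ≤ c7 * (n * vA A F d n)) (hw1 : 1 ≤ n * vA A F d n) (ht0 : 4 * t0 ≤ n) {q : ℕ} (hnq : n ≤ q)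
    (hqN : 4 * q ≤ N) {R : ℝ} (hR : ∀ t : ℕ, 1 ≤ t → 2 * t ≤ q → e F d t (xs F d t) ≤ R)
    (hR' : C7 * (q / N) * EE F d N ≤ R) :
    ∃ lo hi : ℤ, c7 / 16 * (vA A F d n * q) ≤ (hi : ℝ) - lo ∧ ∀ y : ℤ, lo ≤ y → y ≤ hi →
      e F d q y ≤ 2 * R + Cc + 2 * Ku F ∧ |(y : ℝ) - d.v * q| ≤ (2 + C7 + 2 * (Cc + W1 + K)) * (vA A F d n * q) := by
  have hadm := hD.adm d hd
  have hA0 : 0 ≤ A := zero_le_one.trans hA
  have hv : 0 ≤ vA A F d n := by
    rw [hD.vA_wd hd hA0]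
    exact wd_nonneg _
  have hKu : 0 < Ku F := (EE_pos F d 1).trans_le (EE_one_le hadm)
  obtain ⟨t, ht⟩ : ∃ t, t = (q - 1) / 2 := ⟨_, rfl⟩
  have ht1 : 1 ≤ t := by omega
  have hW0 : 0 ≤ W1 := by
    refine le_trans ?_ hW1
    rw [hD.vA_wd hd hA0]
    exact wd_nonneg _
  have hK0 : 0 ≤ K := (abs_nonneg _).trans (hD.slope d hd)
  have htt : t0 ≤ t := by
    have h1 : (n : ℝ) ≤ 4 * t := by exact_mod_cast (by omega : n ≤ 4 * t)
    linarith
  have hRt := hR t ht1 (by omega)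
  -- side constants
  have hCc : 0 ≤ Cc := by
    obtain ⟨s, hs, h1⟩ := h.side hv hc.le t (xs F d t)
    obtain ⟨z, hz1, -⟩ := h.rt t htt (by omega) s hs h1
    exact (abs_nonneg _).trans hz1
  have hn0 : (0 : ℝ) < n := by exact_mod_cast (by omega : 0 < n)
  have hqn : (n : ℝ) ≤ q := by exact_mod_cast hnq
  have hvq : 1 ≤ vA A F d n * q := by
    have := mul_le_mul_of_nonneg_left hqn hv
    linarith
  have htq : (t : ℝ) ≤ q := by exact_mod_cast (by omega : t ≤ q)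
  have herr : C7 * (t / N : ℝ) * EE F d N ≤ R := by
    refine le_trans ?_ hR'
    exact mul_le_mul_of_nonneg_right (mul_le_mul_of_nonneg_left (div_le_div_of_nonneg_right htq (Nat.cast_nonneg _)) hC7)
      (EE_pos F d N).le
  have hR0 := (e_xs_nonneg (hD.touch d hd) ht1).trans hRt
  have hmax : max (2 * e F d t (xs F d t) + Ku F) (e F d t (xs F d t) + C7 * (t / N) * EE F d N + Cc) ≤ 2 * R + Cc + Ku F :=
    max_le (by linarith) (by linarith)
  have hlen : c7 / 16 * (vA A F d n * q) ≤ c7 / 4 * (vA A F d n * t) - (Cc + W1 + K) := by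
    have h1 : (q : ℝ) ≤ 2 * t + 2 := by exact_mod_cast (by omega : q ≤ 2 * t + 2)
    have h2 : (8 : ℝ) ≤ n := by exact_mod_cast hn
    have h3 : c7 * vA A F d n * q ≤ c7 * vA A F d n * (2 * t + 2) := mul_le_mul_of_nonneg_left h1 (by positivity)
    have h4 : c7 * vA A F d n * 8 ≤ c7 * vA A F d n * q := mul_le_mul_of_nonneg_left (h2.trans hqn) (by positivity)
    have h5 : c7 * vA A F d n * n ≤ c7 * vA A F d n * q := mul_le_mul_of_nonneg_left hqn (by positivity)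
    linarith
  have hwt : t * vA A F d t ≤ vA A F d n * q := hD.w_half hd hA0 (by omega) ht1 hnq (by omega)
  obtain ⟨lo, hi, k1, k2⟩ := h.odd hD hd hA hc.le hC7 hW1 ht1 hwt (mul_le_mul_of_nonneg_left htq hv) htt (by omega)
  have hkey : (2 + C7) * (vA A F d n * q) + 2 * (Cc + W1 + K) ≤ (2 + C7 + 2 * (Cc + W1 + K)) * (vA A F d n * q) := by
    have h2 : 2 * (Cc + W1 + K) * 1 ≤ 2 * (Cc + W1 + K) * (vA A F d n * q) := mul_le_mul_of_nonneg_left hvq (by linarith)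
    linarith
  rcases Nat.even_or_odd q with hp | hp
  · have e1 : q = 2 * t + 1 + 1 := by
      obtain ⟨r, hr⟩ := hp
      omega
    have h3 := hD.xs_near hd hA (le_refl 1)
    rw [Nat.cast_one, one_mul, mul_one] at h3
    refine ⟨lo + xs F d 1, hi + xs F d 1, ?_, fun y h1 h2 => ?_⟩
    · push_cast
      linarith
    · obtain ⟨m1, m2⟩ := k2 (y - xs F d 1) (by omega) (by omega)
      constructor
      · have m3 := e_xs_step hadm (show 1 ≤ 2 * t + 1 by omega) (y - xs F d 1)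
        rw [sub_add_cancel, ← e1] at m3
        linarith [m1.trans hmax]
      · have e3 : (y : ℝ) - d.v * q = (((y - xs F d 1 : ℤ) : ℝ) - d.v * (2 * t + 1 : ℕ)) + (xs F d 1 - d.v) := by
          have e4 : (q : ℝ) = (2 * t + 1 : ℕ) + 1 := by exact_mod_cast e1
          rw [e4]
          push_cast
          ring
        have m4 := abs_add_le (((y - xs F d 1 : ℤ) : ℝ) - d.v * (2 * t + 1 : ℕ)) ((xs F d 1 : ℝ) - d.v)
        rw [e3]
        linarith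
  · have e1 : q = 2 * t + 1 := by
      obtain ⟨r, hr⟩ := hp
      omega
    refine ⟨lo, hi, by linarith, fun y h1 h2 => ?_⟩
    obtain ⟨m1, m2⟩ := k2 y h1 h2
    rw [← e1] at m1 m2
    exact ⟨by linarith [m1.trans hmax], by linarith⟩

/-! ### Uniformly in the direction -/

/-- A bound of the first width. -/
theorem Dirs.vA_one (hD : Dirs F κ K Ds) (hA : 0 ≤ A) : ∃ W1 : ℝ, 0 ≤ W1 ∧ ∀ d ∈ Ds, vA A F d 1 ≤ W1 := by
  obtain ⟨j, hj, h⟩ := hD.strict 1 one_pos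
  refine ⟨2 * max 1 (A * Ku F / j), by positivity, fun d hd => ?_⟩
  rw [hD.vA_wd hd hA]
  refine (wd_le zero_le_one hj fun x hx => h d hd x hx).trans ?_
  have h1 := EE_one_le (hD.adm d hd)
  have h4 : A * EE F d 1 / (1 : ℕ) / j ≤ A * Ku F / j := by
    rw [Nat.cast_one, div_one]
    exact div_le_div_of_nonneg_right (mul_le_mul_of_nonneg_left h1 hA) hj.le
  have h5 := max_le_max (le_refl (1 : ℝ)) h4
  linarith

/-- Doubling in the past. -/
theorem gg_past {T x2 : ℕ} (h : ∀ y : ℕ, x2 ≤ y → gg F d y + 1 ≤ gg F d (y + T)) (k : ℕ) :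
    ∀ x : ℕ, x2 + k * T ≤ x → gg F d (x - k * T) + k ≤ gg F d x := by
  induction k with
  | zero =>
    intro x _
    simp
  | succ k ih =>
    intro x hx
    have e1 : (k + 1) * T = k * T + T := by ring
    rw [e1] at hx ⊢
    have h1 := ih x (by omega)
    have h2 := h (x - (k * T + T)) (by omega)
    have e2 : x - (k * T + T) + T = x - k * T := by omega
    rw [e2] at h2
    push_cast
    linarith

theorem EE_past {T x2 : ℕ} (h : ∀ y : ℕ, x2 ≤ y → gg F d y + 1 ≤ gg F d (y + T)) (k x : ℕ) (hx : x2 + k * T ≤ x) :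
    (2 : ℝ) ^ k * EE F d (2 ^ (x - k * T)) ≤ EE F d (2 ^ x) := by
  have h1 := gg_past h k x hx
  rw [← pow_gg, ← pow_gg, ← Real.rpow_natCast, ← Real.rpow_add two_pos]
  refine Real.rpow_le_rpow_of_exponent_le one_le_two ?_
  linarith

/-- The growth in a slow window. -/
theorem EE_slow {x j : ℕ} (h : gg F d (x + j) ≤ gg F d x + θ * j) :
    EE F d (2 ^ (x + j)) ≤ (2 : ℝ) ^ (θ * j) * EE F d (2 ^ x) := by
  rw [← pow_gg, ← pow_gg, ← Real.rpow_add two_pos]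
  refine Real.rpow_le_rpow_of_exponent_le one_le_two ?_
  linarith

/-- **(hF2), the means**: in a slow window with flat widths, for all durations `q` between `n = 2 ^ x` and `2 ^ S n` there is an
interval of displacements of length at least `c8 vA(n) q` with mean costs at most `ε EE(n)`, inside the cone of slope `C8 vA(n)`;
`c8`, `C8` do not depend on `T`, `S`, `ε`. -/
theorem hfEs {Js : Set ℕ} (hD : Dirs F κ K Ds) (hA : 1 ≤ A) (hR : Rate F Ds) (hG : Grow F Ds) (hθ : θ < 1)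
    (hT : RTFs Js θ A F Ds) :
    ∃ c8 C8 : ℝ, 0 < c8 ∧ 0 < C8 ∧ ∀ T x2 : ℕ, (∀ d ∈ Ds, ∀ y : ℕ, x2 ≤ y → gg F d y + 1 ≤ gg F d (y + T)) →
      ∀ (S : ℕ) (ε : ℝ), 0 < ε → ∃ j0 ∈ Js, ∃ (L x1 : ℕ) (δ : ℝ), 0 < δ ∧ ∀ d ∈ Ds, ∀ x : ℕ, x1 ≤ x → j0 ≤ x →
        (∀ j : ℕ, j ≤ L → gg F d (x + j) ≤ gg F d x + θ * j) → ff A F d (x + L) < ff A F d (x - j0) + δ →
        ∀ q : ℕ, 2 ^ x ≤ q → q ≤ 2 ^ (x + S) → ∃ lo hi : ℤ, c8 * (vA A F d (2 ^ x) * q) ≤ (hi : ℝ) - lo ∧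
          ∀ y : ℤ, lo ≤ y → y ≤ hi → e F d q y ≤ ε * EE F d (2 ^ x) ∧
            |(y : ℝ) - d.v * q| ≤ C8 * (vA A F d (2 ^ x) * q) := by
  have hA0 : 0 < A := one_pos.trans_le hA
  obtain ⟨c7, C7, Cc, h0, hc7, hC7, hCc, hT⟩ := hT
  obtain ⟨W1, hW1, hW⟩ := hD.vA_one hA0.le
  rcases Ds.eq_empty_or_nonempty with hempty | ⟨dd, hdd⟩
  · obtain ⟨j0, hj0, -⟩ := hT 1 one_pos
    refine ⟨1, 1, one_pos, one_pos, fun T x2 _ S ε _ => ⟨j0, hj0, 0, 0, 1, one_pos, fun d hd => ?_⟩⟩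
    rw [hempty] at hd
    exact absurd hd (notMem_empty d)
  have hK : 0 ≤ K := (abs_nonneg _).trans (hD.slope dd hdd)
  have hKu : 0 < Ku F := (EE_pos F dd 1).trans_le (EE_one_le (hD.adm dd hdd))
  have hCr := Cr_pos F
  refine ⟨c7 / 16, 2 + C7 + 2 * (Cc + W1 + K), by positivity, by positivity, fun T x2 hdbl S ε hε => ?_⟩
  obtain ⟨k0, hk0⟩ := pow_unbounded_of_one_lt (16 / ε) (one_lt_two (α := ℝ))
  obtain ⟨i, hi⟩ : ∃ i, i = k0 * T := ⟨_, rfl⟩
  obtain ⟨j0, hJs, hj0⟩ := hT (1 / 2 ^ (i + 2)) (by positivity)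
  -- the height
  have hr1 : (2 : ℝ) ^ (θ - 1) < 1 := Real.rpow_lt_one_of_one_lt_of_neg one_lt_two (by linarith)
  have hr0 : (0 : ℝ) < (2 : ℝ) ^ (θ - 1) := by positivity
  obtain ⟨h1, hh1⟩ := exists_pow_lt_of_lt_one (show 0 < ε / (16 * C7 * 2 ^ S) by positivity) hr1
  obtain ⟨h, hh⟩ : ∃ h, h = max h0 (max (S + 2) h1) := ⟨_, rfl⟩
  have hh0 : h0 ≤ h := by rw [hh]; exact le_max_left _ _
  have hhS : S + 2 ≤ h := by rw [hh]; exact (le_max_left _ _).trans (le_max_right _ _)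
  have hhh : h1 ≤ h := by rw [hh]; exact (le_max_right _ _).trans (le_max_right _ _)
  obtain ⟨L', x1, δ, hδ, hmain⟩ := hj0 h hh0
  -- large scales
  obtain ⟨n1, hn1⟩ := hG (16 * ((i + S : ℕ) * (Cc + Ku F)) / ε + 2 * (Cc + 2 * Ku F) / ε)
  obtain ⟨n2, -, hn2⟩ := hD.w_large hR hA0 ((1 + 32 * (Cc + W1 + K) / c7) / Cr F)
  refine ⟨j0, hJs, max L' h, max x1 (max (x2 + i + 3) (max n1 n2)), δ, hδ, fun d hd x hx hxj hslow hflat q hq1 hq2 => ?_⟩
  have hx1 : x1 ≤ x := (le_max_left _ _).trans hx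
  have hx2 : x2 + i + 3 ≤ x := (le_max_left _ _).trans ((le_max_right _ _).trans hx)
  have hxn1 : n1 ≤ 2 ^ x := ((le_max_left _ _).trans ((le_max_right _ _).trans ((le_max_right _ _).trans hx))).trans
    Nat.lt_two_pow_self.le
  have hxn2 : n2 ≤ 2 ^ x := ((le_max_right _ _).trans ((le_max_right _ _).trans ((le_max_right _ _).trans hx))).trans
    Nat.lt_two_pow_self.le
  obtain ⟨sp, sm, hTL⟩ := hmain d hd x hx1 hxj (fun j hj => hslow j (hj.trans (le_max_left _ _)))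
    (lt_of_le_of_lt (ff_mono hD hA0 hd (Nat.add_le_add_left (le_max_left _ _) x)) hflat)
  have hadm := hD.adm d hd
  have hE := EE_pos F d (2 ^ x)
  have hEN := EE_pos F d (2 ^ (x + h))
  obtain ⟨E, hEd⟩ : ∃ E, E = EE F d (2 ^ x) := ⟨_, rfl⟩
  rw [← hEd] at hE ⊢
  -- the past
  have hpast : EE F d (2 ^ (x - i)) ≤ ε / 16 * E := by
    have h1 := EE_past (hdbl d hd) k0 x (by omega)
    rw [← hi, ← hEd] at h1
    have h2 : 16 / ε * EE F d (2 ^ (x - i)) ≤ E :=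
      (mul_le_mul_of_nonneg_right hk0.le (EE_pos F d _).le).trans h1
    have h3 := mul_le_mul_of_nonneg_left h2 (show 0 ≤ ε / 16 by positivity)
    have e1 : ε / 16 * (16 / ε * EE F d (2 ^ (x - i))) = EE F d (2 ^ (x - i)) := by field_simp
    rwa [e1] at h3
  -- the share of the tube
  have hshare : ∀ m : ℕ, m ≤ 2 ^ (x + S) → C7 * ((m : ℝ) / (2 ^ (x + h) : ℕ)) * EE F d (2 ^ (x + h)) ≤ ε / 16 * E := by
    intro m hm
    have h2 := EE_slow (hslow h (le_max_right _ _))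
    rw [← hEd] at h2
    have h3 : (m : ℝ) / (2 ^ (x + h) : ℕ) ≤ 2 ^ S / 2 ^ h := by
      have h4 : (m : ℝ) ≤ 2 ^ (x + S) := by exact_mod_cast hm
      push_cast
      rw [div_le_div_iff₀ (by positivity) (by positivity)]
      calc (m : ℝ) * 2 ^ h ≤ 2 ^ (x + S) * 2 ^ h := mul_le_mul_of_nonneg_right h4 (by positivity)
        _ = 2 ^ S * 2 ^ (x + h) := by ring
    have h4 : (2 : ℝ) ^ (θ * h) / 2 ^ h = ((2 : ℝ) ^ (θ - 1)) ^ h := by
      rw [← Real.rpow_natCast ((2 : ℝ) ^ (θ - 1)) h, ← Real.rpow_mul two_pos.le, sub_mul, one_mul, Real.rpow_sub two_pos,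
        Real.rpow_natCast]
    have h5 : ((2 : ℝ) ^ (θ - 1)) ^ h ≤ ε / (16 * C7 * 2 ^ S) :=
      (pow_le_pow_of_le_one hr0.le hr1.le hhh).trans hh1.le
    calc C7 * ((m : ℝ) / (2 ^ (x + h) : ℕ)) * EE F d (2 ^ (x + h))
        ≤ C7 * (2 ^ S / 2 ^ h) * ((2 : ℝ) ^ (θ * h) * E) :=
          mul_le_mul (mul_le_mul_of_nonneg_left h3 hC7.le) h2 hEN.le (by positivity)
      _ = C7 * 2 ^ S * ((2 : ℝ) ^ (θ * h) / 2 ^ h) * E := by ring
      _ ≤ C7 * 2 ^ S * (ε / (16 * C7 * 2 ^ S)) * E := by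
          rw [h4]
          exact mul_le_mul_of_nonneg_right (mul_le_mul_of_nonneg_left h5 (by positivity)) hE.le
      _ = ε / 16 * E := by field_simp
  -- the constants
  have hEbig := hn1 d hd (2 ^ x) hxn1
  rw [← hEd] at hEbig
  have hc1 : ((i + S : ℕ) : ℝ) * (Cc + Ku F) ≤ ε / 16 * E := by
    have h2 : 0 ≤ 2 * (Cc + 2 * Ku F) / ε := by positivity
    have h3 : 16 * ((i + S : ℕ) * (Cc + Ku F)) / ε ≤ E := by linarith
    rw [div_le_iff₀ hε] at h3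
    linarith
  have hc2 : Cc + 2 * Ku F ≤ ε / 2 * E := by
    have h2 : 0 ≤ 16 * ((i + S : ℕ) * (Cc + Ku F)) / ε := by positivity
    have h3 : 2 * (Cc + 2 * Ku F) / ε ≤ E := by linarith
    rw [div_le_iff₀ hε] at h3
    linarith
  have hwbig : 1 + 32 * (Cc + W1 + K) / c7 ≤ (2 ^ x : ℕ) * vA A F d (2 ^ x) := by
    have h2 := hn2 d hd (2 ^ x) hxn2
    refine le_trans ?_ h2
    have h3 := mul_le_mul_of_nonneg_left (Cr_le_EE F d (2 ^ x)) (show 0 ≤ (1 + 32 * (Cc + W1 + K) / c7) / Cr F by positivity)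
    rwa [div_mul_cancel₀ _ hCr.ne'] at h3
  have hw : 32 * (Cc + W1 + K) ≤ c7 * ((2 ^ x : ℕ) * vA A F d (2 ^ x)) := by
    have h2 : 32 * (Cc + W1 + K) / c7 ≤ (2 ^ x : ℕ) * vA A F d (2 ^ x) := by linarith
    rw [div_le_iff₀ hc7] at h2
    linarith
  have hw1 : 1 ≤ ((2 ^ x : ℕ) : ℝ) * vA A F d (2 ^ x) := by
    have h2 : 0 ≤ 32 * (Cc + W1 + K) / c7 := by positivity
    linarith
  have hv : 0 ≤ vA A F d (2 ^ x) := (hD.vA_pos hd hA0 Nat.one_le_two_pow).le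
  -- the thresholds of the record trick
  have ht0 : 4 * (1 / 2 ^ (i + 2) * 2 ^ x : ℝ) ≤ (2 ^ (x - i) : ℕ) := by
    have e1 : x = (x - i) + i := by omega
    have e2 : (2 : ℝ) ^ x = 2 ^ (x - i) * 2 ^ i := by rw [← pow_add, ← e1]
    push_cast
    rw [e2]
    refine le_of_eq ?_
    field_simp
    ring
  have hρ2 : 2 ≤ 2 ^ (x - i) := by
    calc 2 = 2 ^ 1 := by norm_num
      _ ≤ 2 ^ (x - i) := Nat.pow_le_pow_right (by norm_num) (by omega)
  have hρn : ((2 ^ (x - i) : ℕ) : ℝ) ≤ (2 ^ x : ℕ) := by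
    exact_mod_cast Nat.pow_le_pow_right (n := 2) (by norm_num) (by omega : x - i ≤ x)
  have hchain := hTL.chain hadm hv hc7.le hC7.le hCc.le hρ2 ht0 (i + S)
  have hN : ∀ m : ℕ, m ≤ 2 ^ (x + S) → 4 * m ≤ 2 ^ (x + h) := by
    intro m hm
    calc 4 * m ≤ 2 ^ 2 * 2 ^ (x + S) := by omega
      _ = 2 ^ (x + (S + 2)) := by ring
      _ ≤ 2 ^ (x + h) := Nat.pow_le_pow_right (by norm_num) (by omega)
  have hGt : ∀ t : ℕ, 1 ≤ t → 2 * t ≤ q → e F d t (xs F d t) ≤ ε / 4 * E := by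
    intro t ht1 ht2
    have ht3 : t ≤ 2 ^ (x + S) := by omega
    have e1 : 2 ^ (i + S) * 2 ^ (x - i) = 2 ^ (x + S) := by
      rw [← pow_add]
      congr 1
      omega
    have h2 := hchain t ht1 (by rw [e1]; exact ht3) (hN t ht3)
    have h3 := hshare t ht3
    have h4 : 0 ≤ ε / 16 * E := by positivity
    linarith
  have hn8 : 8 ≤ 2 ^ x := by
    calc 8 = 2 ^ 3 := by norm_num
      _ ≤ 2 ^ x := Nat.pow_le_pow_right (by norm_num) (by omega)
  have hshq := hshare q hq2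
  have h4 : 0 ≤ ε / 16 * E := by positivity
  obtain ⟨lo, hi', k1, k2⟩ := hTL.interval hD hd hA hn8 hc7 hC7.le (hW d hd) hw hw1 (ht0.trans hρn) hq1 (hN q hq2) hGt (by linarith)
  refine ⟨lo, hi', k1, fun y m1 m2 => ⟨?_, (k2 y m1 m2).2⟩⟩
  have k3 := (k2 y m1 m2).1
  linarith

/-- **(hF2), the means**, without octaves before the window. -/
theorem hfE (hD : Dirs F κ K Ds) (hA : 1 ≤ A) (hR : Rate F Ds) (hG : Grow F Ds) (hθ : θ < 1) (hT : RTF θ A F Ds) :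
    ∃ c8 C8 : ℝ, 0 < c8 ∧ 0 < C8 ∧ ∀ T x2 : ℕ, (∀ d ∈ Ds, ∀ y : ℕ, x2 ≤ y → gg F d y + 1 ≤ gg F d (y + T)) →
      ∀ (S : ℕ) (ε : ℝ), 0 < ε → ∃ (L x1 : ℕ) (δ : ℝ), 0 < δ ∧ ∀ d ∈ Ds, ∀ x : ℕ, x1 ≤ x →
        (∀ j : ℕ, j ≤ L → gg F d (x + j) ≤ gg F d x + θ * j) → ff A F d (x + L) < ff A F d x + δ →
        ∀ q : ℕ, 2 ^ x ≤ q → q ≤ 2 ^ (x + S) → ∃ lo hi : ℤ, c8 * (vA A F d (2 ^ x) * q) ≤ (hi : ℝ) - lo ∧
          ∀ y : ℤ, lo ≤ y → y ≤ hi → e F d q y ≤ ε * EE F d (2 ^ x) ∧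
            |(y : ℝ) - d.v * q| ≤ C8 * (vA A F d (2 ^ x) * q) := by
  obtain ⟨c8, C8, h1, h2, h3⟩ := hfEs hD hA hR hG hθ hT.to
  refine ⟨c8, C8, h1, h2, fun T x2 h4 S ε hε => ?_⟩
  obtain ⟨j0, hj0, L, x1, δ, hδ, h5⟩ := h3 T x2 h4 S ε hε
  obtain rfl : j0 = 0 := hj0
  exact ⟨L, x1, δ, hδ, fun d hd x hx => h5 d hd x hx (Nat.zero_le x)⟩

end

end Pool.Agent.W_1b8d5d_p
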