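import Pool.Agent.W_1b8d5d_p.DirsC

/-!
MP_1b8d5d_pr, Track P2, geometry: the frame free local doubling of a norm at a unit vector.
-/

namespace Pool.Agent.W_1b8d5d_p

/-- **The local doubling at `z`**: `h` is a supporting form at `z`; among the vectors near `z` on one side of the line of `z`, the
defect `μ y - h y` is at most multiplied by `C` when the distance `|crs z y|` to the line of `z` is multiplied by `3 / 2`. -/
def LD35 (μ : (Fin 2 → ℝ) → ℝ) (C δ : ℝ) (z : Fin 2 → ℝ) : Prop :=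
  ∃ h : (Fin 2 → ℝ) →ₗ[ℝ] ℝ, (∀ y, h y ≤ μ y) ∧ h z = μ z ∧ ∀ y y' : Fin 2 → ℝ, ‖y - z‖ ≤ δ → ‖y' - z‖ ≤ δ →
    0 ≤ crs z y * crs z y' → |crs z y'| ≤ 3 / 2 * |crs z y| → μ y' - h y' ≤ C * (μ y - h y)

end Pool.Agent.W_1b8d5d_p
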