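import Pool.Agent.W_1b8d5d_p.DirsC
import Pool.Agent.W_1b8d5d_p.LDd35

/-!
MP_1b8d5d_pr, Track P2, geometry: the local doubling `LD` at a point of the unit circle, and its symmetries. (helper78)
-/

set_option autoImplicit false

namespace Pool.Agent.W_1b8d5d_p

open Set

noncomputable section

variable {μ : (Fin 2 → ℝ) → ℝ} {a b : ℝ}

/-- **Local doubling at `z`**: a supporting form `h` at `z` such that the height `μ - h` of a vector `y'` near `z` is at most a multiple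
of the height of a vector `y` near `z` on the same side of the ray of `z`, as soon as `|z × y'| ≤ (3/2) |z × y|`. -/
def LD (μ : (Fin 2 → ℝ) → ℝ) (C δ : ℝ) (z : Fin 2 → ℝ) : Prop :=
  ∃ h : (Fin 2 → ℝ) →ₗ[ℝ] ℝ, (∀ y, h y ≤ μ y) ∧ h z = μ z ∧ ∀ y y' : Fin 2 → ℝ, ‖y - z‖ ≤ δ → ‖y' - z‖ ≤ δ →
    0 ≤ crs z y * crs z y' → |crs z y'| ≤ 3 / 2 * |crs z y| → μ y' - h y' ≤ C * (μ y - h y)

/-- The two names of the local doubling. -/
theorem LD_iff35 (μ : (Fin 2 → ℝ) → ℝ) (C δ : ℝ) (z : Fin 2 → ℝ) : LD μ C δ z ↔ LD35 μ C δ z := Iff.rfl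

/-- Monotonicity of the local doubling in the constants. -/
theorem LD.mono {C C' δ δ' : ℝ} {z : Fin 2 → ℝ} (h : LD μ C δ z) (hC : C ≤ C') (hδ : δ' ≤ δ) : LD μ C' δ' z := by
  obtain ⟨f, h1, h2, h3⟩ := h
  refine ⟨f, h1, h2, fun y y' hy hy' h4 h5 => (h3 y y' (hy.trans hδ) (hy'.trans hδ) h4 h5).trans ?_⟩
  exact mul_le_mul_of_nonneg_right hC (by linarith [h1 y])

/-- A linear symmetry. -/
theorem LD.sym {C δ e : ℝ} (g : (Fin 2 → ℝ) →ₗ[ℝ] (Fin 2 → ℝ)) (hg : ∀ x, μ (g x) = μ x) (hn : ∀ x, ‖g x‖ = ‖x‖)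
    (he : e ^ 2 = 1) (hcr : ∀ x y, crs (g x) (g y) = e * crs x y) {z : Fin 2 → ℝ} (h : LD μ C δ (g z)) : LD μ C δ z := by
  obtain ⟨f, h1, h2, h3⟩ := h
  have hab : |e| = 1 := by
    rw [← abs_one, ← sq_eq_sq_iff_abs_eq_abs, he, one_pow]
  refine ⟨f.comp g, fun y => ?_, ?_, fun y y' hy hy' hs hle => ?_⟩
  · rw [LinearMap.comp_apply, ← hg y]
    exact h1 _
  · rw [LinearMap.comp_apply, h2, hg]
  · have h4 := h3 (g y) (g y') (by rw [← map_sub, hn]; exact hy) (by rw [← map_sub, hn]; exact hy') (by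
      rw [hcr, hcr, show e * crs z y * (e * crs z y') = e ^ 2 * (crs z y * crs z y') by ring, he, one_mul]
      exact hs) (by
      rw [hcr, hcr, abs_mul, abs_mul, hab, one_mul, one_mul]
      exact hle)
    rw [hg, hg] at h4
    exact h4

theorem LD.of_sw (hN : NormP μ a b) {C δ : ℝ} {z : Fin 2 → ℝ} (h : LD μ C δ (gsw z)) : LD μ C δ z := by
  refine LD.sym (e := -1) gsw (fun x => hN.swap x) (fun x => ?_) (by norm_num) (fun x y => ?_) h
  · rw [norm2, norm2]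
    exact max_comm _ _
  · show x 1 * y 0 - x 0 * y 1 = -1 * (x 0 * y 1 - x 1 * y 0)
    ring

theorem LD.of_rf (hN : NormP μ a b) {C δ : ℝ} {z : Fin 2 → ℝ} (h : LD μ C δ (grf z)) : LD μ C δ z := by
  refine LD.sym (e := -1) grf (fun x => hN.refl x) (fun x => ?_) (by norm_num) (fun x y => ?_) h
  · rw [norm2, norm2]
    show max |(-x 0)| |x 1| = _
    rw [abs_neg]
  · show (-x 0) * y 1 - x 1 * (-y 0) = -1 * (x 0 * y 1 - x 1 * y 0)
    ring

/-- **The local doubling at all points of the unit circle from the octant.** -/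
theorem ld_all_of_oct (hN : NormP μ a b) {C δ : ℝ}
    (h : ∀ z : Fin 2 → ℝ, μ z = 1 → 0 ≤ z 1 → z 1 ≤ z 0 → LD μ C δ z) (z : Fin 2 → ℝ) (hz : μ z = 1) :
    LD μ C δ z := by
  -- the quadrant
  have h1 : ∀ z : Fin 2 → ℝ, μ z = 1 → 0 ≤ z 0 → 0 ≤ z 1 → LD μ C δ z := by
    intro z hz h0 h1
    rcases le_total (z 1) (z 0) with h2 | h2
    · exact h z hz h1 h2
    · exact LD.of_sw hN (h (gsw z) ((hN.swap z).trans hz) h0 h2)
  -- the half plane
  have h2 : ∀ z : Fin 2 → ℝ, μ z = 1 → 0 ≤ z 1 → LD μ C δ z := by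
    intro z hz h3
    rcases le_total 0 (z 0) with h4 | h4
    · exact h1 z hz h4 h3
    · refine LD.of_rf hN (h1 (grf z) ((hN.refl z).trans hz) ?_ h3)
      show 0 ≤ -z 0
      linarith
  rcases le_total 0 (z 1) with h3 | h3
  · exact h2 z hz h3
  · refine LD.of_sw hN (LD.of_rf hN (LD.of_sw hN (h2 (gsw (grf (gsw z))) ?_ ?_)))
    · rw [gsw_apply, hN.swap, grf_apply, hN.refl, gsw_apply, hN.swap]
      exact hz
    · show 0 ≤ -z 1
      linarith

end

end Pool.Agent.W_1b8d5d_p
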