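import Mathlib

/-!
MP_1b8d5d_pr, Track P2, geometry, one variable: a convex function which is doubling at all base points of an interval has a
derivative which is reverse doubling, is comparable on both sides of a base point, and is uniformly convex at all scales.
-/

set_option autoImplicit false

namespace Pool.Agent.W_1b8d5d_p

/-- The function `F` seen from the base point `t` (`G` is the derivative of `F`). -/
def Bs35 (F G : ℝ → ℝ) (t s : ℝ) : ℝ := F (t + s) - F t - G t * s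

/-- `G` is a choice of slopes of the convex function `F` on `[-R, R]`, `F 0 = G 0 = 0`, and `F` is doubling at all base
points. -/
structure Db35 (F G : ℝ → ℝ) (R D : ℝ) : Prop where
  sl : ∀ t s : ℝ, |t| ≤ R → |s| ≤ R → F t + G t * (s - t) ≤ F s
  F0 : F 0 = 0
  G0 : G 0 = 0
  R0 : 0 < R
  D1 : 1 ≤ D
  db : ∀ t s : ℝ, |t| ≤ R → |t + 2 * s| ≤ R → Bs35 F G t (2 * s) ≤ D * Bs35 F G t s

variable {F G : ℝ → ℝ} {R D t u : ℝ}

namespace Db35

theorem neg (h : Db35 F G R D) : Db35 (fun x => F (-x)) (fun x => -G (-x)) R D where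
  sl := fun t s ht hs => by
    have h1 := h.sl (-t) (-s) (by rwa [abs_neg]) (by rwa [abs_neg])
    have e1 : -G (-t) * (s - t) = G (-t) * (-s - -t) := by ring
    show F (-t) + -G (-t) * (s - t) ≤ F (-s)
    rw [e1]
    exact h1
  F0 := by simp [h.F0]
  G0 := by simp [h.G0]
  R0 := h.R0
  D1 := h.D1
  db := fun t s ht hs => by
    have h1 := h.db (-t) (-s) (by rwa [abs_neg]) (by rwa [show -t + 2 * -s = -(t + 2 * s) by ring, abs_neg])
    have e1 : ∀ x : ℝ, Bs35 (fun x => F (-x)) (fun x => -G (-x)) t x = Bs35 F G (-t) (-x) := fun x => by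
      show F (-(t + x)) - F (-t) - -G (-t) * x = F (-t + -x) - F (-t) - G (-t) * -x
      rw [show -(t + x) = -t + -x by ring]
      ring
    rw [e1, e1, show -(2 * s) = 2 * -s by ring]
    exact h1

theorem nonneg (h : Db35 F G R D) (ht : |t| ≤ R) : 0 ≤ F t := by
  have h1 := h.sl 0 t (by rw [abs_zero]; exact h.R0.le) ht
  rw [h.F0, h.G0] at h1
  linarith

/-- `F t ≤ t G t`. -/
theorem le_mul (h : Db35 F G R D) (ht : |t| ≤ R) : F t ≤ t * G t := by
  have h1 := h.sl t 0 ht (by rw [abs_zero]; exact h.R0.le)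
  rw [h.F0] at h1
  linarith

theorem G_mono (h : Db35 F G R D) {s : ℝ} (hs : |s| ≤ R) (ht : |t| ≤ R) (hst : s ≤ t) : G s ≤ G t := by
  rcases hst.eq_or_lt with h0 | h0
  · rw [h0]
  have h1 := h.sl s t hs ht
  have h2 := h.sl t s ht hs
  by_contra hcon
  push Not at hcon
  have h3 := mul_pos (sub_pos.2 h0) (sub_pos.2 hcon)
  nlinarith

theorem G_nonneg (h : Db35 F G R D) (ht : |t| ≤ R) (ht0 : 0 ≤ t) : 0 ≤ G t := by
  have := h.G_mono (s := 0) (t := t) (by rw [abs_zero]; exact h.R0.le) ht ht0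
  rwa [h.G0] at this

/-- The doubling from the half. -/
theorem F_double (h : Db35 F G R D) {t : ℝ} (ht : |2 * t| ≤ R) : F (2 * t) ≤ D * F t := by
  have h1 := h.db 0 t (by rw [abs_zero]; exact h.R0.le) (by rwa [zero_add])
  unfold Bs35 at h1
  rw [h.F0, h.G0] at h1
  simpa using h1

/-- **Reverse doubling of the derivative.** -/
theorem rev (h : Db35 F G R D) (ht0 : 0 < t) (ht : t ≤ R) : G (t / 2) ≤ (1 - 2 / D ^ 2) * G t := by
  have hD : 0 < D := one_pos.trans_le h.D1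
  have a1 : |t| ≤ R := by rwa [abs_of_pos ht0]
  have a2 : |t / 2| ≤ R := by rw [abs_of_pos (by positivity)]; linarith
  have a3 : |-t| ≤ R := by rwa [abs_neg]
  have h1 := h.db t (-t) a1 (by rw [show t + 2 * -t = -t by ring]; exact a3)
  have h2 := h.db t (-(t / 2)) a1 (by rw [show t + 2 * -(t / 2) = 0 by ring, abs_zero]; exact h.R0.le)
  rw [show 2 * -(t / 2) = -t by ring] at h2
  have e1 : Bs35 F G t (2 * -t) = F (-t) - F t + 2 * (t * G t) := by
    unfold Bs35
    rw [show t + 2 * -t = -t by ring]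
    ring
  have e2 : Bs35 F G t (-(t / 2)) = F (t / 2) - F t + t / 2 * G t := by
    unfold Bs35
    rw [show t + -(t / 2) = t / 2 by ring]
    ring
  have h3 := h.nonneg a3
  have h4 := h.le_mul a1
  have h5 := h.sl (t / 2) t a2 a1
  have h6 : t * G t ≤ D ^ 2 * (t / 2 * (G t - G (t / 2))) := by
    calc t * G t ≤ Bs35 F G t (2 * -t) := by rw [e1]; linarith
      _ ≤ D * Bs35 F G t (-t) := h1
      _ ≤ D * (D * Bs35 F G t (-(t / 2))) := mul_le_mul_of_nonneg_left h2 hD.le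
      _ = D ^ 2 * Bs35 F G t (-(t / 2)) := by ring
      _ ≤ D ^ 2 * (t / 2 * (G t - G (t / 2))) := by
        refine mul_le_mul_of_nonneg_left ?_ (by positivity)
        rw [e2]
        linarith
  have h7 : G t ≤ D ^ 2 / 2 * (G t - G (t / 2)) := by
    have e3 : D ^ 2 * (t / 2 * (G t - G (t / 2))) = t * (D ^ 2 / 2 * (G t - G (t / 2))) := by ring
    rw [e3] at h6
    exact le_of_mul_le_mul_left h6 ht0
  have h8 : 2 / D ^ 2 * G t ≤ G t - G (t / 2) := by
    have h9 := mul_le_mul_of_nonneg_left h7 (show 0 ≤ 2 / D ^ 2 by positivity)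
    have e4 : 2 / D ^ 2 * (D ^ 2 / 2 * (G t - G (t / 2))) = G t - G (t / 2) := by field_simp
    rwa [e4] at h9
  linarith

/-- **Uniform convexity at all scales.** -/
theorem tp (h : Db35 F G R D) (hu : 0 < u) (hu1 : u ≤ R) : F u / D ^ 3 ≤ F u - 2 * F (u / 2) := by
  have hD : 0 < D := one_pos.trans_le h.D1
  have a1 : |u| ≤ R := by rwa [abs_of_pos hu]
  have a2 : |u / 2| ≤ R := by rw [abs_of_pos (by positivity)]; linarith
  have a4 : |u / 4| ≤ R := by rw [abs_of_pos (by positivity)]; linarith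
  have h1 := h.rev (t := u / 2) (by positivity) (by linarith)
  rw [show u / 2 / 2 = u / 4 by ring] at h1
  have h2 := h.le_mul a4
  have h3 := h.sl (u / 2) (u / 4) a2 a4
  have h4 := h.sl (u / 2) u a2 a1
  have h5 := h.F_double (t := u / 2) (by rwa [show 2 * (u / 2) = u by ring])
  rw [show 2 * (u / 2) = u by ring] at h5
  have h6 := h.le_mul a2
  have h7 := h.G_nonneg a2 (by positivity)
  -- F (u / 2) ≤ (u / 4) G (u / 4) + (u / 4) G (u / 2)
  have h8 : F (u / 2) ≤ u / 4 * (G (u / 4) + G (u / 2)) := by linarith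
  have h9 : u / 4 * (G (u / 4) + G (u / 2)) ≤ u / 4 * ((1 - 2 / D ^ 2) * G (u / 2) + G (u / 2)) :=
    mul_le_mul_of_nonneg_left (by linarith) (by positivity)
  have h10 : u / 2 * G (u / 2) ≤ F u - F (u / 2) := by linarith
  have h11 : u / 2 * G (u / 2) / D ^ 2 ≤ F u - 2 * F (u / 2) := by
    have e1 : u / 4 * ((1 - 2 / D ^ 2) * G (u / 2) + G (u / 2)) = u / 2 * G (u / 2) - u / 2 * G (u / 2) / D ^ 2 := by
      field_simp
      ring
    rw [e1] at h9
    linarith
  refine le_trans ?_ h11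
  rw [div_le_div_iff₀ (by positivity) (by positivity)]
  have h12 : F u ≤ D * (u / 2 * G (u / 2)) := h5.trans (mul_le_mul_of_nonneg_left h6 hD.le)
  calc F u * D ^ 2 ≤ D * (u / 2 * G (u / 2)) * D ^ 2 := mul_le_mul_of_nonneg_right h12 (by positivity)
    _ = u / 2 * G (u / 2) * D ^ 3 := by ring

/-- **Both sides are comparable.** -/
theorem sides (h : Db35 F G R D) (hu : 0 < u) (hu1 : 2 * u ≤ R) : F (-u) ≤ (1 + D ^ 2) * F u := by
  have hD : 0 < D := one_pos.trans_le h.D1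
  have a1 : |u| ≤ R := by rw [abs_of_pos hu]; linarith
  have a2 : |2 * u| ≤ R := by rw [abs_of_pos (by positivity)]; exact hu1
  have h1 := h.db u (-u) a1 (by rw [show u + 2 * -u = -u by ring, abs_neg]; exact a1)
  have e1 : Bs35 F G u (2 * -u) = F (-u) - F u + 2 * (u * G u) := by
    unfold Bs35
    rw [show u + 2 * -u = -u by ring]
    ring
  have e2 : Bs35 F G u (-u) = u * G u - F u := by
    unfold Bs35
    rw [show u + -u = 0 by ring, h.F0]
    ring
  rw [e1, e2] at h1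
  have h2 := h.sl u (2 * u) a1 a2
  have h3 := h.F_double a2
  have h4 := h.nonneg a1
  have h5 := h.G_nonneg a1 hu.le
  have h6 : u * G u ≤ (D - 1) * F u := by linarith
  have h7 : D * (u * G u) ≤ D * ((D - 1) * F u) := mul_le_mul_of_nonneg_left h6 hD.le
  nlinarith [mul_nonneg hu.le h5, mul_nonneg hD.le h4]

/-- The derivative decays geometrically towards the base point. -/
theorem G_pow (h : Db35 F G R D) (hq : 0 ≤ 1 - 2 / D ^ 2) (k : ℕ) : G (R / 2 ^ k) ≤ (1 - 2 / D ^ 2) ^ k * G R := by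
  induction k with
  | zero => simp
  | succ k ih =>
    have h1 := h.rev (t := R / 2 ^ k) (div_pos h.R0 (by positivity)) (div_le_self h.R0.le (one_le_pow₀ one_le_two))
    rw [show R / 2 ^ (k + 1) = R / 2 ^ k / 2 by rw [pow_succ]; field_simp]
    refine h1.trans ?_
    rw [pow_succ (1 - 2 / D ^ 2) k, mul_comm ((1 - 2 / D ^ 2) ^ k), mul_assoc]
    exact mul_le_mul_of_nonneg_left ih hq

end Db35

/-- **The upper power bound**: with `q = 1 - 2 / D ^ 2` and `al = log2 (1 / q)`, `F t ≤ (G R / q) (t / R) ^ al * t`. -/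
theorem Db35.pow_up (h : Db35 F G R D) (hD : 2 ≤ D) : ∀ t : ℝ, 0 < t → t ≤ R →
    F t ≤ t * ((1 - 2 / D ^ 2)⁻¹ * (t / R) ^ (Real.logb 2 (1 - 2 / D ^ 2)⁻¹) * G R) := by
  obtain ⟨q, hq⟩ : ∃ q, q = 1 - 2 / D ^ 2 := ⟨_, rfl⟩
  have hD2 : 4 ≤ D ^ 2 := by nlinarith
  have hq1 : q < 1 := by rw [hq]; have : 0 < 2 / D ^ 2 := by positivity
                         linarith
  have hq0 : 1 / 2 ≤ q := by
    rw [hq]
    have : 2 / D ^ 2 ≤ 2 / 4 := div_le_div_of_nonneg_left (by norm_num) (by norm_num) hD2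
    linarith
  have hq00 : 0 < q := by linarith
  rw [← hq]
  intro t ht htR
  have hR := h.R0
  have a1 : |t| ≤ R := by rwa [abs_of_pos ht]
  obtain ⟨k, hk1, hk2⟩ : ∃ k : ℕ, 2 ^ k ≤ R / t ∧ R / t < 2 ^ (k + 1) :=
    exists_nat_pow_near (by rw [le_div_iff₀ ht]; linarith) one_lt_two
  have h1 : t ≤ R / 2 ^ k := by
    rw [le_div_iff₀ (by positivity)]
    rw [le_div_iff₀ ht] at hk1
    linarith
  have h2 := h.G_pow (by rw [← hq]; exact hq00.le) k
  rw [← hq] at h2
  have hGR : 0 ≤ G R := h.G_nonneg (by rw [abs_of_pos hR]) hR.le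
  have h3 : G t ≤ q ^ k * G R := by
    refine (h.G_mono a1 ?_ h1).trans h2
    rw [abs_of_pos (by positivity)]
    exact div_le_self hR.le (one_le_pow₀ one_le_two)
  have h4 : q ^ k ≤ q⁻¹ * (t / R) ^ (Real.logb 2 q⁻¹) := by
    have e1 : (2 : ℝ) ^ (Real.logb 2 q⁻¹) = q⁻¹ := Real.rpow_logb two_pos (by norm_num) (by positivity)
    have e4 : ((2 : ℝ) ^ k) ^ (Real.logb 2 q⁻¹) = q⁻¹ ^ k := by
      rw [← Real.rpow_natCast 2 k, ← Real.rpow_mul two_pos.le, mul_comm (k : ℝ), Real.rpow_mul two_pos.le, e1, Real.rpow_natCast]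
    have e2 : q ^ k = (((2 : ℝ) ^ k)⁻¹) ^ (Real.logb 2 q⁻¹) := by
      rw [Real.inv_rpow (by positivity), e4, inv_pow, inv_inv]
    have e3 : q⁻¹ * (t / R) ^ (Real.logb 2 q⁻¹) = (2 * (t / R)) ^ (Real.logb 2 q⁻¹) := by
      rw [Real.mul_rpow two_pos.le (by positivity), e1]
    rw [e2, e3]
    refine Real.rpow_le_rpow (by positivity) ?_ ?_
    · rw [inv_le_iff_one_le_mul₀ (by positivity)]
      rw [div_lt_iff₀ ht, pow_succ] at hk2
      rw [show 2 * (t / R) * 2 ^ k = (2 ^ k * 2 * t) / R by ring, le_div_iff₀ hR]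
      linarith
    · refine Real.logb_nonneg one_lt_two ?_
      exact (one_le_inv₀ hq00).2 hq1.le
  calc F t ≤ t * G t := h.le_mul a1
    _ ≤ t * (q⁻¹ * (t / R) ^ (Real.logb 2 q⁻¹) * G R) :=
      mul_le_mul_of_nonneg_left (h3.trans (mul_le_mul_of_nonneg_right h4 hGR)) ht.le

end Pool.Agent.W_1b8d5d_p
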