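import Pool.Agent.W_1b8d5d_p.LDd35
import Pool.Agent.W_1b8d5d_p.Tp35
import Pool.Agent.W_1b8d5d_p.Ae35

/-!
MP_1b8d5d_pr, Track P2, geometry: from the local doubling at all unit vectors to the lines, and to the two point function.
-/

set_option autoImplicit false

namespace Pool.Agent.W_1b8d5d_p

open MeasureTheory Set Filter Topology

variable {μ : (Fin 2 → ℝ) → ℝ} {a b C δ : ℝ}

theorem NormP.b0_35 (hN : NormP μ a b) (ha : 0 < a) : 0 < b := by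
  have h1 := hN.low ![1, 0]
  have h2 := hN.upp ![1, 0]
  simp at h1 h2
  linarith

theorem NormP.ge_norm35 (hN : NormP μ a b) (ha : 0 < a) (x : Fin 2 → ℝ) : a * ‖x‖ ≤ μ x := by
  refine le_trans ?_ (hN.low x)
  refine mul_le_mul_of_nonneg_left ?_ ha.le
  refine norm_le_of x ?_ ?_
  · linarith [abs_nonneg (x 1)]
  · linarith [abs_nonneg (x 0)]

theorem NormP.le_norm35 (hN : NormP μ a b) (ha : 0 < a) (x : Fin 2 → ℝ) : μ x ≤ 2 * b * ‖x‖ := by
  refine (hN.upp x).trans ?_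
  have hb := hN.b0_35 ha
  have h0 := abs_apply_le x 0
  have h1 := abs_apply_le x 1
  nlinarith

theorem crs_smul_smul35 (s t : ℝ) (x y : Fin 2 → ℝ) : crs (s • x) (t • y) = s * t * crs x y := by
  unfold crs
  simp only [Pi.smul_apply, smul_eq_mul]
  ring

theorem crs_line35 (z w : Fin 2 → ℝ) (s : ℝ) : crs z (z + s • w) = s * crs z w := by
  unfold crs
  simp only [Pi.smul_apply, Pi.add_apply, smul_eq_mul]
  ring

/-- A choice of supporting forms with the local doubling. -/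
def SF35 (μ : (Fin 2 → ℝ) → ℝ) (C δ : ℝ) (S : (Fin 2 → ℝ) → ((Fin 2 → ℝ) →ₗ[ℝ] ℝ)) : Prop :=
  ∀ z, 1 / 2 ≤ μ z → (∀ y, S z y ≤ μ y) ∧ S z z = μ z ∧ ∀ y y' : Fin 2 → ℝ, ‖y - z‖ ≤ δ → ‖y' - z‖ ≤ δ →
    0 ≤ crs z y * crs z y' → |crs z y'| ≤ 3 / 2 * |crs z y| → μ y' - S z y' ≤ C * (μ y - S z y)

theorem exists_sf35 (hN : NormP μ a b) (hδ : 0 < δ) (h : ∀ z, μ z = 1 → LD35 μ C δ z) : ∃ S, SF35 μ C (δ / 2) S := by
  have key : ∀ z : Fin 2 → ℝ, ∃ L : (Fin 2 → ℝ) →ₗ[ℝ] ℝ, 1 / 2 ≤ μ z → (∀ y, L y ≤ μ y) ∧ L z = μ z ∧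
      ∀ y y' : Fin 2 → ℝ, ‖y - z‖ ≤ δ / 2 → ‖y' - z‖ ≤ δ / 2 →
        0 ≤ crs z y * crs z y' → |crs z y'| ≤ 3 / 2 * |crs z y| → μ y' - L y' ≤ C * (μ y - L y) := by
    intro z
    by_cases hz : 1 / 2 ≤ μ z
    swap
    · exact ⟨0, fun h => absurd h hz⟩
    obtain ⟨m, hm⟩ : ∃ m, m = μ z := ⟨_, rfl⟩
    have hm0 : 0 < m := by rw [hm]; linarith
    have hi : m⁻¹ ≤ 2 := by
      rw [inv_le_comm₀ hm0 two_pos, hm]
      linarith
    have hi0 : 0 < m⁻¹ := inv_pos.2 hm0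
    have hunit : μ (m⁻¹ • z) = 1 := by
      rw [hN.hom _ _ hi0.le, ← hm, inv_mul_cancel₀ hm0.ne']
    obtain ⟨L, h1, h2, h3⟩ := h (m⁻¹ • z) hunit
    have hback : ∀ y : Fin 2 → ℝ, μ (m⁻¹ • y) - L (m⁻¹ • y) = m⁻¹ * (μ y - L y) := fun y => by
      rw [hN.hom _ _ hi0.le, map_smul, smul_eq_mul]
      ring
    refine ⟨L, fun _ => ⟨h1, ?_, fun y y' hy hy' hc1 hc2 => ?_⟩⟩
    · rw [map_smul, smul_eq_mul, hunit, ← hm] at *
      field_simp at h2
      linarith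
    · have hnorm : ∀ y : Fin 2 → ℝ, ‖y - z‖ ≤ δ / 2 → ‖m⁻¹ • y - m⁻¹ • z‖ ≤ δ := by
        intro y hy
        rw [← smul_sub, norm_smul, Real.norm_eq_abs, abs_of_pos hi0]
        have h4 := mul_le_mul hi hy (norm_nonneg _) two_pos.le
        linarith
      have h5 := h3 (m⁻¹ • y) (m⁻¹ • y') (hnorm y hy) (hnorm y' hy') (by
        rw [crs_smul_smul35, crs_smul_smul35]
        have h6 : m⁻¹ * m⁻¹ * crs z y * (m⁻¹ * m⁻¹ * crs z y') = (m⁻¹ * m⁻¹) ^ 2 * (crs z y * crs z y') := by ring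
        rw [h6]
        exact mul_nonneg (sq_nonneg _) hc1) (by
        rw [crs_smul_smul35, crs_smul_smul35, abs_mul, abs_mul (m⁻¹ * m⁻¹), abs_of_pos (mul_pos hi0 hi0)]
        have h6 := mul_le_mul_of_nonneg_left hc2 (mul_pos hi0 hi0).le
        linarith)
      rw [hback, hback] at h5
      have h7 : m⁻¹ * (μ y' - L y') ≤ m⁻¹ * (C * (μ y - L y)) := by linarith
      exact le_of_mul_le_mul_left h7 hi0
  choose S hS using key
  exact ⟨S, hS⟩

variable {S : (Fin 2 → ℝ) → ((Fin 2 → ℝ) →ₗ[ℝ] ℝ)}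

/-- Doubling at a base point, along a line. -/
theorem SF35.dbl (hS : SF35 μ C δ S) (hC : 0 ≤ C) {z w : Fin 2 → ℝ} (hz : 1 / 2 ≤ μ z) {s : ℝ} (hs : ‖(2 * s) • w‖ ≤ δ) :
    μ (z + (2 * s) • w) - S z (z + (2 * s) • w) ≤ C ^ 2 * (μ (z + s • w) - S z (z + s • w)) := by
  obtain ⟨h1, h2, h3⟩ := hS z hz
  have hn : ∀ t : ℝ, |t| ≤ |2 * s| → ‖z + t • w - z‖ ≤ δ := by
    intro t ht
    rw [add_sub_cancel_left]
    refine le_trans ?_ hs
    rw [norm_smul, norm_smul, Real.norm_eq_abs, Real.norm_eq_abs]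
    exact mul_le_mul_of_nonneg_right ht (norm_nonneg _)
  have b1 : |2 * s| = 2 * |s| := by rw [abs_mul, abs_two]
  have b2 : |4 / 3 * s| = 4 / 3 * |s| := by rw [abs_mul, abs_of_pos (show (0 : ℝ) < 4 / 3 by norm_num)]
  have a1 : |s| ≤ |2 * s| := by
    rw [b1]
    linarith [abs_nonneg s]
  have a2 : |4 / 3 * s| ≤ |2 * s| := by
    rw [b1, b2]
    linarith [abs_nonneg s]
  have g1 := h3 (z + (4 / 3 * s) • w) (z + (2 * s) • w) (hn _ a2) (hn _ le_rfl) (by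
      rw [crs_line35, crs_line35]
      nlinarith [sq_nonneg (s * crs z w)]) (by
      rw [crs_line35, crs_line35, abs_mul (2 * s), abs_mul (4 / 3 * s), b1, b2]
      refine le_of_eq ?_
      ring)
  have g2 := h3 (z + s • w) (z + (4 / 3 * s) • w) (hn _ a1) (hn _ a2) (by
      rw [crs_line35, crs_line35]
      nlinarith [sq_nonneg (s * crs z w)]) (by
      rw [crs_line35, crs_line35, abs_mul (4 / 3 * s), abs_mul s, b2]
      nlinarith [mul_nonneg (abs_nonneg s) (abs_nonneg (crs z w))])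
  calc μ (z + (2 * s) • w) - S z (z + (2 * s) • w) ≤ C * (μ (z + (4 / 3 * s) • w) - S z (z + (4 / 3 * s) • w)) := g1
    _ ≤ C * (C * (μ (z + s • w) - S z (z + s • w))) := mul_le_mul_of_nonneg_left g2 hC
    _ = C ^ 2 * (μ (z + s • w) - S z (z + s • w)) := by ring

/-- The defect of the supporting form at `x`, along the line `x + t w`. -/
def Fl35 (μ : (Fin 2 → ℝ) → ℝ) (S : (Fin 2 → ℝ) → ((Fin 2 → ℝ) →ₗ[ℝ] ℝ)) (x w : Fin 2 → ℝ) (t : ℝ) : ℝ :=
  μ (x + t • w) - S x (x + t • w)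

/-- Its slopes. -/
def Gl35 (S : (Fin 2 → ℝ) → ((Fin 2 → ℝ) →ₗ[ℝ] ℝ)) (x w : Fin 2 → ℝ) (t : ℝ) : ℝ := S (x + t • w) w - S x w

theorem half_le35 (hN : NormP μ a b) (ha : 0 < a) {x w : Fin 2 → ℝ} (hx : μ x = 1) (hw : ‖w‖ ≤ 1) {R t : ℝ}
    (hR : R ≤ 1 / (4 * b)) (ht : |t| ≤ R) : 1 / 2 ≤ μ (x + t • w) := by
  have hb := hN.b0_35 ha
  have h1 := hN.sub (x + t • w) ((-t) • w)
  rw [neg_smul, add_neg_cancel_right, hx] at h1
  have h2 := hN.le_norm35 ha (-(t • w))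
  rw [norm_neg, norm_smul, Real.norm_eq_abs] at h2
  have h3 : |t| * ‖w‖ ≤ 1 / (4 * b) * 1 := mul_le_mul (ht.trans hR) hw (norm_nonneg _) (by positivity)
  have h4 : 2 * b * (|t| * ‖w‖) ≤ 2 * b * (1 / (4 * b) * 1) := mul_le_mul_of_nonneg_left h3 (by positivity)
  have h5 : 2 * b * (1 / (4 * b) * 1) = 1 / 2 := by
    field_simp
    norm_num
  linarith

/-- **The lines.** -/
theorem line35 (hN : NormP μ a b) (ha : 0 < a) (hS : SF35 μ C δ S) (hC : 1 ≤ C) {x w : Fin 2 → ℝ} (hx : μ x = 1)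
    (hw : ‖w‖ ≤ 1) {R : ℝ} (hR0 : 0 < R) (hR1 : 2 * R ≤ δ) (hR2 : R ≤ 1 / (4 * b)) :
    Db35 (Fl35 μ S x w) (Gl35 S x w) R (C ^ 2 + 1) := by
  have hhalf : ∀ t : ℝ, |t| ≤ R → 1 / 2 ≤ μ (x + t • w) := fun t ht => half_le35 hN ha hx hw hR2 ht
  have hx2 : 1 / 2 ≤ μ x := by rw [hx]; norm_num
  have e0 : ∀ t s : ℝ, x + t • w + s • w = x + (t + s) • w := fun t s => by rw [add_smul, add_assoc]
  have eBs : ∀ t s : ℝ, |t| ≤ R → Bs35 (Fl35 μ S x w) (Gl35 S x w) t s =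
      μ (x + t • w + s • w) - S (x + t • w) (x + t • w + s • w) := by
    intro t s ht
    obtain ⟨-, g2, -⟩ := hS _ (hhalf t ht)
    unfold Bs35 Fl35 Gl35
    rw [← e0, map_add (S (x + t • w)), g2, map_smul (S (x + t • w)), map_add (S x) (x + t • w), map_smul (S x) s]
    simp only [smul_eq_mul]
    ring
  refine ⟨fun t s ht hs => ?_, ?_, ?_, hR0, by nlinarith, fun t s ht hs => ?_⟩
  · obtain ⟨g1, g2, -⟩ := hS _ (hhalf t ht)
    have h1 := g1 (x + s • w)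
    have h2 : x + s • w = (x + t • w) + (s - t) • w := by
      rw [add_assoc, ← add_smul]
      congr 2
      ring
    have h3 : S (x + t • w) (x + s • w) = μ (x + t • w) + (s - t) * S (x + t • w) w := by
      rw [h2, map_add, g2, map_smul, smul_eq_mul]
    have h4 : S x (x + s • w) = S x (x + t • w) + (s - t) * S x w := by
      rw [h2, map_add (S x), map_smul, smul_eq_mul]
    unfold Fl35 Gl35
    rw [h3] at h1
    rw [h4]
    linarith
  · obtain ⟨-, g2, -⟩ := hS _ hx2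
    unfold Fl35
    rw [zero_smul, add_zero, g2, sub_self]
  · unfold Gl35
    rw [zero_smul, add_zero, sub_self]
  · rw [eBs t _ ht, eBs t _ ht]
    have hn : ‖(2 * s) • w‖ ≤ δ := by
      rw [norm_smul, Real.norm_eq_abs]
      have h1 : |2 * s| ≤ 2 * R := by
        have h2 := abs_sub (t + 2 * s) t
        rw [add_sub_cancel_left] at h2
        linarith
      calc |2 * s| * ‖w‖ ≤ 2 * R * 1 := mul_le_mul h1 hw (norm_nonneg _) (by positivity)
        _ ≤ δ := by linarith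
    have h1 := hS.dbl (by linarith) (hhalf t ht) hn
    obtain ⟨g1, -, -⟩ := hS _ (hhalf t ht)
    have h2 := g1 (x + t • w + s • w)
    have h3 : 0 ≤ μ (x + t • w + s • w) - S (x + t • w) (x + t • w + s • w) := by linarith
    linarith

/-- The two point function along a line. -/
theorem two_pt35 (hN : NormP μ a b) (hS : SF35 μ C δ S) {x w : Fin 2 → ℝ} (hx : μ x = 1) (t : ℝ) (hy : μ (x + t • w) = 1) :
    μ x + μ (x + t • w) - μ (x + (x + t • w)) = Fl35 μ S x w t - 2 * Fl35 μ S x w (t / 2) := by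
  have hx2 : 1 / 2 ≤ μ x := by rw [hx]; norm_num
  obtain ⟨-, g2, -⟩ := hS _ hx2
  have e1 : x + (x + t • w) = (2 : ℝ) • (x + (t / 2) • w) := by
    rw [smul_add, smul_smul, two_smul, show (2 : ℝ) * (t / 2) = t by ring, add_assoc]
  unfold Fl35
  rw [e1, hN.hom _ _ two_pos.le, map_add, map_add, map_smul, map_smul, g2, hx, smul_eq_mul, smul_eq_mul, hy]
  ring

end Pool.Agent.W_1b8d5d_p
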