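import Pool.Agent.W_1b8d5d_p.IfaceP
import Pool.Agent.W_1b8d5d_p.FinP

/-!
MP_1b8d5d_pr, Track P: the core statement from the leaves of the sections.
-/

set_option autoImplicit false

namespace Pool.Agent.W_1b8d5d_p

open MeasureTheory Set
open Pool.Agent.W_1b8d5d_h4p (LawH)

/-- What the sections have to prove, for a law `F` and a family `A` of directions: one octave of (D4), (D7), (I1), (hB0), (hB), (hF2).
The levels of the widths are free. -/
structure LeavesP (F : Fm) (κ : ℝ) (A : Set Dr) : Prop where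
  oct : ∃ a : ℝ, 0 < a ∧ OctP a F κ A
  d7 : D7P F κ A
  i1 : I1P F κ A
  hB0 : ∃ a : ℝ, 0 < a ∧ HB0P a F κ A
  hB : ∃ a : ℝ, 0 < a ∧ HBP a F κ A
  hF2 : ∃ a : ℝ, 0 < a ∧ HF2P a F κ A

/-- The frame: the lucks (`LStarP`, `L0P`) and the cheap displacements (`CheapP`) at one level of the width. -/
structure FrameP (a : ℝ) (F : Fm) (A : Set Dr) : Prop where
  pos : 0 < a
  lstar : LStarP a F A
  l0 : L0P F A
  cheap : CheapP a F A

theorem core_of_leaves {F : Fm} {κ K c0 C0 : ℝ} {A : Set Dr} (hL : LawH F c0 C0) (hκ : 0 < κ) (hD : Dirs F κ K A)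
    (h : LeavesP F κ A) :
    ∃ c K0 δ : ℝ, 0 < c ∧ 0 < K0 ∧ 0 < δ ∧ ∀ d ∈ A, ∀ x : ℝ, |x| ≤ δ → c * |x| ^ K0 ≤ J F d x := by
  obtain ⟨a1, ha1, hO⟩ := h.oct
  obtain ⟨a2, ha2, hB0⟩ := h.hB0
  obtain ⟨a3, ha3, hB⟩ := h.hB
  obtain ⟨a, ha, hF2⟩ := h.hF2
  exact core_of_sections hL hκ hD ha ha1 ha2 ha3 hO h.d7 h.i1 hB0 hB hF2

/-- **The core from the leaves.** -/
theorem corePow_of (h : ∀ (F : Fm) (c C κ K : ℝ) (A : Set Dr), LawH F c C → Antitone F.g → 0 < κ → Dirs F κ K A →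
    LeavesP F κ A) : CorePow := fun F c C κ K A hL hg hκ hD => core_of_leaves hL hκ hD (h F c C κ K A hL hg hκ hD)

end Pool.Agent.W_1b8d5d_p
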