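import Pool.Agent.W_1b8d5d_p.MainOf
import Pool.Agent.W_1b8d5d_p.AllP
import Pool.Agent.W_1b8d5d_p.D7P
import Pool.Agent.W_1b8d5d_p.HbP71
import Pool.Agent.W_1b8d5d_p.CoreF83
import Pool.Agent.W_1b8d5d_h6p.HF2All
import Pool.Agent.W_1b8d5d_h52p.OctAll

/-!
MP_1b8d5d_pr, Track P: the core statement `CorePow` (all the leaves from the law and the family of directions).
-/

set_option autoImplicit false

namespace Pool.Agent.W_1b8d5d_p

open Pool.Agent.W_1b8d5d_h4p (LawH)

/-- All the leaves of the core, for every law of the class and every uniformly admissible family of directions. -/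
theorem leavesP_all {F : Fm} {κ K c0 C0 : ℝ} {A : Set Dr} (hL : LawH F c0 C0) (hg : Antitone F.g) (hD : Dirs F κ K A) :
    LeavesP F κ A where
  oct := ⟨1, one_pos, Pool.Agent.W_1b8d5d_h52p.octP_all hL hD le_rfl⟩
  d7 := Pool.Agent.W_1b8d5d_p66.d7P_all hL hD
  i1 := i1P_allP hL hD
  hB0 := ⟨1, one_pos, hb0P_71 hL hD one_pos⟩
  hB := ⟨1, one_pos, hbP_all83 hL hg hD le_rfl⟩
  hF2 := ⟨1, one_pos, Pool.Agent.W_1b8d5d_h6p.hF2_all hL hD le_rfl⟩

/-- **The core.** -/
theorem corePow : CorePow := corePow_of fun _ _ _ _ _ _ hL hg _ hD => leavesP_all hL hg hD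

end Pool.Agent.W_1b8d5d_p
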