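import Pool.Agent.W_1b8d5d_p.MainP
import Pool.Agent.W_1b8d5d_p.DubD66

/-!
MP_1b8d5d_pr, Track P: the consequences of the six sections, with the law and the family of directions as the only hypotheses:
(hS), the growth of the width, the closing of the cone at all scales, the halving of the caps.
-/

set_option autoImplicit false

namespace Pool.Agent.W_1b8d5d_p

open Pool.Agent.W_1b8d5d_h4p (LawH Sf)

variable {F : Fm} {κ K a c0 C0 : ℝ} {A : Set Dr}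

/-- (hS), from the law. -/
theorem hsp_all (hL : LawH F c0 C0) (hD : Dirs F κ K A) (ha : 0 < a) : HSP a F κ A :=
  HSP.of hD ha one_pos (Pool.Agent.W_1b8d5d_h52p.octP_all hL hD le_rfl) (Pool.Agent.W_1b8d5d_p66.d7P_all hL hD) (i1P_allP hL hD)

/-- The width grows at least as a power, uniformly in the direction. -/
theorem widthPow_all (hL : LawH F c0 C0) (hg : Antitone F.g) (hκ : 0 < κ) (hD : Dirs F κ K A) (ha : 1 ≤ a) :
    WidthPow a F A :=
  chainP hL hκ hD (one_pos.trans_le ha) (hsp_all hL hD (one_pos.trans_le ha)) (hb0P_71 hL hD (one_pos.trans_le ha))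
    (hbP_all83 hL hg hD ha) (Pool.Agent.W_1b8d5d_h6p.hF2_all hL hD ha)

/-- **The cone closes at all scales**, uniformly in the direction. -/
theorem cone_allP (hL : LawH F c0 C0) (hg : Antitone F.g) (hκ : 0 < κ) (hD : Dirs F κ K A) (ha : 1 ≤ a) :
    ∃ (β C δ : ℝ) (T L x₁ : ℕ), 0 < δ ∧ 1 ≤ L ∧ (∀ d ∈ A, ∀ x, x₁ ≤ x → Sf F κ d x β) ∧
      (∀ d ∈ A, ∀ x, x₁ ≤ x → gg F d x + 1 ≤ gg F d (x + T)) ∧
      (∀ d ∈ A, ∀ x j : ℕ, x₁ ≤ x → gg F d (x + j) ≤ gg F d x + j / 2 + C) ∧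
      (∀ d ∈ A, ∀ x, x₁ ≤ x → ff a F d x + δ ≤ ff a F d (x + L)) :=
  Pool.Agent.W_1b8d5d_p66.cone_all0 hL hκ hD (one_pos.trans_le ha) (hsp_all hL hD (one_pos.trans_le ha))
    (hb0P_71 hL hD (one_pos.trans_le ha)) (hbP_all83 hL hg hD ha) (Pool.Agent.W_1b8d5d_h6p.hF2_all hL hD ha)

/-- **The halving of the caps**, uniformly in the direction. -/
theorem halving_allP (hL : LawH F c0 C0) (hg : Antitone F.g) (hκ : 0 < κ) (hD : Dirs F κ K A) :
    ∃ θ t₀ : ℝ, 0 < θ ∧ θ ≤ 1 ∧ 0 < t₀ ∧ ∀ d ∈ A, ∀ t : ℝ, 0 < t → t ≤ t₀ → wd (J F d) (θ * t) ≤ wd (J F d) t / 2 :=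
  Pool.Agent.W_1b8d5d_p66.halving_of hL hκ hD one_pos (hsp_all hL hD one_pos) (hb0P_71 hL hD one_pos)
    (hbP_all83 hL hg hD le_rfl) (Pool.Agent.W_1b8d5d_h6p.hF2_all hL hD le_rfl)

end Pool.Agent.W_1b8d5d_p
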