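import Pool.Agent.W_1b8d5d_p.FrWalk
import Pool.Agent.W_1b8d5d_h85.AWalk

/-!
MP_1b8d5d_pr, Track P: the mean passage time is larger than `a` times the distance by a fixed factor (path counting, exponential
moments), for laws with a small atom at the bottom: `P(τ ≤ a + t) ≤ 1 / 32`. (helper29)
-/

set_option autoImplicit false

namespace Pool.Agent.W_1b8d5d_p

open MeasureTheory ProbabilityTheory Set Finset
open Pool.Agent.W_1b8d5d_h85

noncomputable section

/-- The product over finitely many edges of functions of the weights. -/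
theorem muA_prod_edges (F : Fm) {h : ℝ → ℝ} (hm : Measurable h) (s : Finset Edge) :
    ∫ η, ∏ e ∈ s, h (η e) ∂(law F) = (∫ x, h x ∂F.nu) ^ s.card := by
  have h1 : iIndepFun (fun (e : Edge) (η : Env) => h (η e)) (law F) :=
    iIndepFun_infinitePi (P := fun _ : Edge => F.nu) (X := fun _ : Edge => h) (fun _ => hm)
  have h2 : iIndepFun (fun (e : s) (η : Env) => h (η (e : Edge))) (law F) :=
    h1.precomp Subtype.val_injective
  have h3 := h2.integral_fun_prod_eq_prod_integral
    (fun e => (hm.comp (measurable_pi_apply (e : Edge))).aestronglyMeasurable)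
  have h4 : ∀ e : Edge, ∫ η, h (η e) ∂(law F) = ∫ x, h x ∂F.nu := by
    intro e
    have hmp : MeasurePreserving (Function.eval e) (law F) F.nu :=
      measurePreserving_eval_infinitePi (fun _ : Edge => F.nu) e
    have h5 := integral_map (μ := law F) (φ := Function.eval e) hmp.measurable.aemeasurable
      (f := h) hm.aestronglyMeasurable
    rw [hmp.map_eq] at h5
    exact h5.symm
  calc ∫ η, ∏ e ∈ s, h (η e) ∂(law F) = ∫ η, ∏ e : s, h (η (e : Edge)) ∂(law F) := by
        congr 1
        funext η
        exact (Finset.prod_coe_sort s fun e => h (η e)).symm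
    _ = ∏ e : s, ∫ η, h (η (e : Edge)) ∂(law F) := h3
    _ = ∏ _e : s, ∫ x, h x ∂F.nu := Finset.prod_congr rfl fun e _ => h4 (e : Edge)
    _ = (∫ x, h x ∂F.nu) ^ s.card := by
        rw [Finset.prod_const, Finset.card_univ, Fintype.card_coe]

/-- The exponential moment of one weight. -/
def muPhi (F : Fm) (θ : ℝ) : ℝ := ∫ x, Real.exp (-(θ * (F.g x - F.a))) ∂F.nu

theorem muA_phi_le (F : Fm) {θ t : ℝ} (hθ : 0 ≤ θ) :
    muPhi F θ ≤ F.nu.real {x | F.g x ≤ F.a + t} + Real.exp (-(θ * t)) := by
  have hS : MeasurableSet {x | F.g x ≤ F.a + t} := measurableSet_le F.mg measurable_const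
  have h1 : ∀ x, Real.exp (-(θ * (F.g x - F.a))) ≤
      ({x | F.g x ≤ F.a + t}.indicator (fun _ => (1 : ℝ)) x) + Real.exp (-(θ * t)) := by
    intro x
    by_cases hx : x ∈ {x | F.g x ≤ F.a + t}
    · rw [indicator_of_mem hx]
      have h2 : Real.exp (-(θ * (F.g x - F.a))) ≤ 1 := by
        rw [Real.exp_le_one_iff]
        have := mul_nonneg hθ (sub_nonneg.2 (F.g1 x))
        linarith
      have := Real.exp_pos (-(θ * t))
      linarith
    · rw [indicator_of_notMem hx, zero_add]
      apply Real.exp_le_exp.2
      have hx' : F.a + t < F.g x := not_le.1 hx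
      have := mul_le_mul_of_nonneg_left (show t ≤ F.g x - F.a by linarith) hθ
      linarith
  have hm : Measurable fun x => Real.exp (-(θ * (F.g x - F.a))) :=
    Real.measurable_exp.comp (((F.mg.sub_const _).const_mul θ).neg)
  have hi1 : Integrable (fun x => Real.exp (-(θ * (F.g x - F.a)))) F.nu := by
    refine Integrable.of_bound hm.aestronglyMeasurable 1 (Filter.Eventually.of_forall fun x => ?_)
    rw [Real.norm_eq_abs, abs_of_pos (Real.exp_pos _), Real.exp_le_one_iff]
    have := mul_nonneg hθ (sub_nonneg.2 (F.g1 x))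
    linarith
  have hi2 : Integrable ({x | F.g x ≤ F.a + t}.indicator (fun _ => (1 : ℝ))) F.nu :=
    (integrable_const _).indicator hS
  unfold muPhi
  calc ∫ x, Real.exp (-(θ * (F.g x - F.a))) ∂F.nu
      ≤ ∫ x, (({x | F.g x ≤ F.a + t}.indicator (fun _ => (1 : ℝ)) x) + Real.exp (-(θ * t))) ∂F.nu :=
        integral_mono hi1 (hi2.add (integrable_const _)) h1
    _ = F.nu.real {x | F.g x ≤ F.a + t} + Real.exp (-(θ * t)) := by
        rw [integral_add hi2 (integrable_const _), integral_indicator hS, setIntegral_const, integral_const]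
        simp

theorem muA_phi_nonneg (F : Fm) (θ : ℝ) : 0 ≤ muPhi F θ := integral_nonneg fun _ => (Real.exp_pos _).le

private theorem muA_bd (F : Fm) (η : Env) : Bd F.a F.b (F.tau η) := fun _ => ⟨F.g1 _, F.g2 _⟩

private theorem muA_meas (F : Fm) : Measurable F.tau := measurable_pi_iff.2 fun e => F.mg.comp (measurable_pi_apply e)

/-- The weight of a path, as an exponential moment. -/
theorem exp_path (F : Fm) {θ : ℝ} (l : List Edge) (hl : l.Nodup) (k : ℝ) :
    ∫ η, Real.exp (-(θ * ((l.map (F.tau η)).sum - (F.a + k) * l.length))) ∂(law F) =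
      (muPhi F θ * Real.exp (θ * k)) ^ l.length := by
  have h1 : ∀ η : Env, Real.exp (-(θ * ((l.map (F.tau η)).sum - (F.a + k) * l.length))) =
      Real.exp (θ * k) ^ l.length * ∏ e ∈ l.toFinset, Real.exp (-(θ * (F.g (η e) - F.a))) := by
    intro η
    rw [← Real.exp_sum, ← Real.exp_nat_mul, ← Real.exp_add]
    congr 1
    have h2 : (l.map (F.tau η)).sum = ∑ e ∈ l.toFinset, F.g (η e) := by
      rw [List.sum_toFinset _ hl]
      rfl
    have h3 : ∑ e ∈ l.toFinset, -(θ * (F.g (η e) - F.a)) = -(θ * (∑ e ∈ l.toFinset, F.g (η e) - F.a * l.length)) := by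
      rw [Finset.sum_neg_distrib, ← Finset.mul_sum, Finset.sum_sub_distrib, Finset.sum_const,
        List.toFinset_card_of_nodup hl, nsmul_eq_mul]
      ring
    rw [h2, h3]
    ring
  simp_rw [h1]
  rw [integral_const_mul, muA_prod_edges F (h := fun x => Real.exp (-(θ * (F.g x - F.a))))
    (Real.measurable_exp.comp (((F.mg.sub_const _).const_mul θ).neg)), List.toFinset_card_of_nodup hl, mul_pow]
  unfold muPhi
  ring

/-- **Exponential moment of the passage time.** -/
theorem exp_TR_le (F : Fm) {θ k : ℝ} (hθ : 0 < θ) (hk : 0 ≤ k) (hφ : muPhi F θ * Real.exp (θ * k) ≤ 1 / 8) (S : Set Edge)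
    {x y : V} (hne : Nonempty (WK S x y)) :
    ∫ η, Real.exp (-(θ * (TR S (F.tau η) x y - (F.a + k) * nm (y - x)))) ∂(law F) ≤ 2 := by
  have ha := F.a0
  have hb : 0 < F.b := lt_of_lt_of_le F.a0 F.ab
  obtain ⟨w₀⟩ := hne
  -- the length of a minimal path
  set n : ℕ := ⌈F.b / F.a * w₀.1.length⌉₊ with hn
  have key : ∀ η : Env, Real.exp (-(θ * (TR S (F.tau η) x y - (F.a + k) * nm (y - x)))) ≤
      ∑ j ∈ range (n + 1), ∑ σ : Fin j → Bool × Bool, if (sedges x (List.ofFn σ)).Nodup then
        Real.exp (-(θ * (((sedges x (List.ofFn σ)).map (F.tau η)).sum -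
          (F.a + k) * (sedges x (List.ofFn σ)).length))) else 0 := by
    intro η
    obtain ⟨w, hw, hwS, hc⟩ := TR_min (muA_bd F η) ha ⟨w₀⟩
    have hlen : w.length ≤ n := by
      have h1 := le_cost (muA_bd F η) w
      have h2 := TR_le (muA_bd F η) ha.le w₀.1 w₀.2
      have h3 := cost_le (muA_bd F η) w₀.1
      have h4 : (w.length : ℝ) ≤ F.b / F.a * w₀.1.length := by
        rw [div_mul_eq_mul_div, le_div_iff₀ ha]
        linarith
      exact_mod_cast h4.trans (Nat.le_ceil _)
    obtain ⟨l, hl1, hl2⟩ := exists_steps w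
    have hnn : ∀ (j : ℕ) (σ : Fin j → Bool × Bool), 0 ≤ (if (sedges x (List.ofFn σ)).Nodup then
        Real.exp (-(θ * (((sedges x (List.ofFn σ)).map (F.tau η)).sum -
          (F.a + k) * (sedges x (List.ofFn σ)).length))) else 0) := by
      intro j σ
      split_ifs
      · exact (Real.exp_pos _).le
      · exact le_rfl
    have h1 : Real.exp (-(θ * (TR S (F.tau η) x y - (F.a + k) * nm (y - x)))) ≤
        (if (sedges x (List.ofFn l.get)).Nodup then
        Real.exp (-(θ * (((sedges x (List.ofFn l.get)).map (F.tau η)).sum -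
          (F.a + k) * (sedges x (List.ofFn l.get)).length))) else 0) := by
      rw [List.ofFn_get, hl2, if_pos (wedges_nodup hw)]
      apply Real.exp_le_exp.2
      have h2 : ((wedges w).map (F.tau η)).sum = TR S (F.tau η) x y := hc
      rw [h2, length_wedges]
      have h3 := nm_le_length w
      have h4 : (F.a + k) * nm (y - x) ≤ (F.a + k) * w.length := mul_le_mul_of_nonneg_left h3 (by linarith)
      have h5 := mul_le_mul_of_nonneg_left h4 hθ.le
      nlinarith
    refine h1.trans ?_
    refine le_trans ?_ (single_le_sum (f := fun j => ∑ σ : Fin j → Bool × Bool,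
        if (sedges x (List.ofFn σ)).Nodup then Real.exp (-(θ * (((sedges x (List.ofFn σ)).map (F.tau η)).sum -
          (F.a + k) * (sedges x (List.ofFn σ)).length))) else 0)
      (fun j _ => Finset.sum_nonneg fun σ _ => hnn j σ) (a := l.length) (mem_range.2 (by omega)))
    exact single_le_sum (f := fun σ : Fin l.length → Bool × Bool =>
      if (sedges x (List.ofFn σ)).Nodup then Real.exp (-(θ * (((sedges x (List.ofFn σ)).map (F.tau η)).sum -
          (F.a + k) * (sedges x (List.ofFn σ)).length))) else 0)
      (fun σ _ => hnn _ σ) (mem_univ l.get)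
  -- the terms
  have hterm : ∀ (j : ℕ) (σ : Fin j → Bool × Bool), Integrable (fun η : Env => if (sedges x (List.ofFn σ)).Nodup then
        Real.exp (-(θ * (((sedges x (List.ofFn σ)).map (F.tau η)).sum -
          (F.a + k) * (sedges x (List.ofFn σ)).length))) else 0) (law F) ∧
      ∫ η, (if (sedges x (List.ofFn σ)).Nodup then
        Real.exp (-(θ * (((sedges x (List.ofFn σ)).map (F.tau η)).sum -
          (F.a + k) * (sedges x (List.ofFn σ)).length))) else 0) ∂(law F) ≤ (1 / 8) ^ j := by
    intro j σ
    by_cases hnd : (sedges x (List.ofFn σ)).Nodup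
    · simp only [if_pos hnd]
      have hlj : (sedges x (List.ofFn σ)).length = j := by rw [length_sedges, List.length_ofFn]
      constructor
      · have hm : Measurable fun η : Env => Real.exp (-(θ * (((sedges x (List.ofFn σ)).map (F.tau η)).sum -
            (F.a + k) * (sedges x (List.ofFn σ)).length))) := by
          apply Real.measurable_exp.comp
          apply Measurable.neg
          apply Measurable.const_mul
          apply Measurable.sub_const
          have : (fun η : Env => ((sedges x (List.ofFn σ)).map (F.tau η)).sum) =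
              fun η : Env => ∑ e ∈ (sedges x (List.ofFn σ)).toFinset, F.g (η e) := by
            funext η
            rw [List.sum_toFinset _ hnd]
            rfl
          rw [this]
          exact Finset.measurable_sum _ fun e _ => F.mg.comp (measurable_pi_apply e)
        refine Integrable.of_bound hm.aestronglyMeasurable (Real.exp (θ * (k * j))) (Filter.Eventually.of_forall fun η => ?_)
        rw [Real.norm_eq_abs, abs_of_pos (Real.exp_pos _)]
        apply Real.exp_le_exp.2
        have h1 : F.a * j ≤ ((sedges x (List.ofFn σ)).map (F.tau η)).sum := by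
          rw [List.sum_toFinset _ hnd |>.symm]
          calc F.a * j = ∑ _e ∈ (sedges x (List.ofFn σ)).toFinset, F.a := by
                rw [Finset.sum_const, List.toFinset_card_of_nodup hnd, hlj, nsmul_eq_mul, mul_comm]
            _ ≤ _ := Finset.sum_le_sum fun e _ => F.g1 _
        rw [hlj]
        nlinarith
      · rw [exp_path F _ hnd, hlj]
        exact pow_le_pow_left₀ (mul_nonneg (muA_phi_nonneg F θ) (Real.exp_pos _).le) hφ j
    · simp only [if_neg hnd]
      exact ⟨integrable_zero _ _ _, by rw [integral_zero]; positivity⟩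
  have hTm : Measurable fun η : Env => TR S (F.tau η) x y := (TR_meas S x y).comp (muA_meas F)
  have hlow : ∀ η : Env, 0 ≤ TR S (F.tau η) x y := fun η => TR_nonneg (muA_bd F η) ha.le S x y
  have hint : Integrable (fun η : Env => Real.exp (-(θ * (TR S (F.tau η) x y - (F.a + k) * nm (y - x))))) (law F) := by
    refine Integrable.of_bound (Real.measurable_exp.comp
      (((hTm.sub_const _).const_mul θ).neg)).aestronglyMeasurable
      (Real.exp (θ * ((F.a + k) * nm (y - x)))) (Filter.Eventually.of_forall fun η => ?_)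
    rw [Real.norm_eq_abs, abs_of_pos (Real.exp_pos _)]
    apply Real.exp_le_exp.2
    have := mul_nonneg hθ.le (hlow η)
    nlinarith
  calc ∫ η, Real.exp (-(θ * (TR S (F.tau η) x y - (F.a + k) * nm (y - x)))) ∂(law F)
      ≤ ∫ η, ∑ j ∈ range (n + 1), ∑ σ : Fin j → Bool × Bool, (if (sedges x (List.ofFn σ)).Nodup then
        Real.exp (-(θ * (((sedges x (List.ofFn σ)).map (F.tau η)).sum -
          (F.a + k) * (sedges x (List.ofFn σ)).length))) else 0) ∂(law F) :=
        integral_mono hint (integrable_finsetSum _ fun j _ => integrable_finsetSum _ fun σ _ => (hterm j σ).1) key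
    _ = ∑ j ∈ range (n + 1), ∑ σ : Fin j → Bool × Bool, ∫ η, (if (sedges x (List.ofFn σ)).Nodup then
        Real.exp (-(θ * (((sedges x (List.ofFn σ)).map (F.tau η)).sum -
          (F.a + k) * (sedges x (List.ofFn σ)).length))) else 0) ∂(law F) := by
        rw [integral_finsetSum _ fun j _ => integrable_finsetSum _ fun σ _ => (hterm j σ).1]
        exact Finset.sum_congr rfl fun j _ => integral_finsetSum _ fun σ _ => (hterm j σ).1
    _ ≤ ∑ j ∈ range (n + 1), ∑ _σ : Fin j → Bool × Bool, ((1 : ℝ) / 8) ^ j :=
        Finset.sum_le_sum fun j _ => Finset.sum_le_sum fun σ _ => (hterm j σ).2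
    _ = ∑ j ∈ range (n + 1), ((1 : ℝ) / 2) ^ j := by
        refine Finset.sum_congr rfl fun j _ => ?_
        rw [Finset.sum_const, Finset.card_univ, Fintype.card_fun, Fintype.card_fin, Fintype.card_prod, Fintype.card_bool,
          nsmul_eq_mul]
        push_cast
        rw [← mul_pow]
        norm_num
    _ ≤ 2 := by
        have h1 : ∀ m : ℕ, ∑ j ∈ range m, ((1 : ℝ) / 2) ^ j ≤ 2 - (1 / 2) ^ m * 2 := by
          intro m
          induction m with
          | zero => simp
          | succ m ih =>
            rw [sum_range_succ, pow_succ]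
            linarith
        have h2 := h1 (n + 1)
        have h3 : (0 : ℝ) ≤ (1 / 2) ^ (n + 1) * 2 := by positivity
        linarith

/-- **The mean passage time is larger than `a` times the distance by a fixed factor.** -/
theorem mean_lower (F : Fm) {t : ℝ} (ht : 0 < t) (h : F.nu.real {x | F.g x ≤ F.a + t} ≤ 1 / 32) :
    ∃ k C : ℝ, 0 < k ∧ 0 ≤ C ∧ k ≤ t ∧ ∀ (S : Set Edge) (x y : V), Nonempty (WK S x y) →
      (F.a + k) * nm (y - x) - C ≤ ∫ η, TR S (F.tau η) x y ∂(law F) := by
  have hl2 : 0 < Real.log 2 := Real.log_pos (by norm_num)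
  set θ : ℝ := 5 * Real.log 2 / t with hθ
  have hθ0 : 0 < θ := by positivity
  set k : ℝ := Real.log 2 / θ with hk
  have hk0 : 0 < k := by positivity
  have hφ : muPhi F θ * Real.exp (θ * k) ≤ 1 / 8 := by
    have h1 := muA_phi_le F (t := t) hθ0.le
    have h2 : Real.exp (-(θ * t)) = 1 / 32 := by
      have h3 : θ * t = Real.log 32 := by
        rw [hθ, div_mul_cancel₀ _ ht.ne']
        have h4 : (32 : ℝ) = 2 ^ (5 : ℕ) := by norm_num
        rw [h4, Real.log_pow]
        norm_num
      rw [h3, Real.exp_neg, Real.exp_log (by norm_num)]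
      norm_num
    have h3 : Real.exp (θ * k) = 2 := by
      rw [hk, mul_div_cancel₀ _ hθ0.ne', Real.exp_log (by norm_num)]
    rw [h3]
    linarith
  refine ⟨k, 1 / θ, hk0, by positivity, ?_, fun S x y hne => ?_⟩
  · rw [hk, hθ]
    have : Real.log 2 / (5 * Real.log 2 / t) = t / 5 := by field_simp
    rw [this]
    linarith
  · have h1 := exp_TR_le F hθ0 hk0.le hφ S hne
    have ha := F.a0
    have hTm : Measurable fun η : Env => TR S (F.tau η) x y := (TR_meas S x y).comp (muA_meas F)
    have hlow : ∀ η : Env, 0 ≤ TR S (F.tau η) x y := fun η => TR_nonneg (muA_bd F η) ha.le S x y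
    obtain ⟨w₀⟩ := hne
    have hup : ∀ η : Env, TR S (F.tau η) x y ≤ F.b * w₀.1.length := fun η =>
      (TR_le (muA_bd F η) ha.le w₀.1 w₀.2).trans (cost_le (muA_bd F η) w₀.1)
    have hiT : Integrable (fun η : Env => TR S (F.tau η) x y) (law F) := by
      refine Integrable.of_bound hTm.aestronglyMeasurable (F.b * w₀.1.length) (Filter.Eventually.of_forall fun η => ?_)
      rw [Real.norm_eq_abs, abs_of_nonneg (hlow η)]
      exact hup η
    have hint : Integrable (fun η : Env => Real.exp (-(θ * (TR S (F.tau η) x y - (F.a + k) * nm (y - x))))) (law F) := by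
      refine Integrable.of_bound (Real.measurable_exp.comp
        (((hTm.sub_const _).const_mul θ).neg)).aestronglyMeasurable
        (Real.exp (θ * ((F.a + k) * nm (y - x)))) (Filter.Eventually.of_forall fun η => ?_)
      rw [Real.norm_eq_abs, abs_of_pos (Real.exp_pos _)]
      apply Real.exp_le_exp.2
      have := mul_nonneg hθ0.le (hlow η)
      nlinarith
    have h2 : ∫ η, (1 - θ * (TR S (F.tau η) x y - (F.a + k) * nm (y - x))) ∂(law F) ≤ 2 := by
      refine le_trans (integral_mono ?_ hint fun η => ?_) h1
      · exact (integrable_const _).sub ((hiT.sub (integrable_const _)).const_mul θ)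
      · have := Real.add_one_le_exp (-(θ * (TR S (F.tau η) x y - (F.a + k) * nm (y - x))))
        simp only
        linarith
    have h5 : ∫ η, (1 - θ * (TR S (F.tau η) x y - (F.a + k) * nm (y - x))) ∂(law F) =
        (1 + θ * ((F.a + k) * nm (y - x))) - θ * ∫ η, TR S (F.tau η) x y ∂(law F) := by
      have e1 : (fun η : Env => 1 - θ * (TR S (F.tau η) x y - (F.a + k) * nm (y - x))) =
          fun η : Env => (1 + θ * ((F.a + k) * nm (y - x))) - θ * TR S (F.tau η) x y := by
        funext η
        ring
      rw [e1, integral_sub (integrable_const _) (hiT.const_mul θ), integral_const_mul, integral_const]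
      simp
    rw [h5] at h2
    have h3 : θ * ((F.a + k) * nm (y - x) - 1 / θ) = θ * ((F.a + k) * nm (y - x)) - 1 := by
      rw [mul_sub, mul_one_div_cancel hθ0.ne']
    have h4 : θ * ((F.a + k) * nm (y - x) - 1 / θ) ≤ θ * ∫ η, TR S (F.tau η) x y ∂(law F) := by
      rw [h3]
      linarith
    exact le_of_mul_le_mul_left h4 hθ0

end

end Pool.Agent.W_1b8d5d_p
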