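import Pool.Agent.W_1b8d5d_nc.FinalD

/-!
MP_1b8d5d_pr, Track P, the bridge: bounds and symmetries of the time constant in the plane. (helper32)
-/

set_option autoImplicit false

open MeasureTheory ProbabilityTheory Filter Topology

namespace Pool.Agent.W_1b8d5d_p32

open Pool.Agent.W_1b8d5d_gd Pool.Agent.W_1b8d5d_nc

variable {d : ℕ} [NeZero d] {ν : Measure ℝ} {Ω : Type} [MeasurableSpace Ω] {P : Measure Ω} {τ : Edge d → Ω → ℝ} {a b : ℝ}
  {μ : (Fin d → ℝ) → ℝ}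

omit [NeZero d] in
theorem ae_bd (h : FppD ν P τ) (hν : ν (Set.Icc a b)ᶜ = 0) : ∀ᵐ ω ∂P, Bd a b (fun e => τ e ω) := by
  unfold Bd
  rw [ae_all_iff]
  intro e
  have h1 : P.map (τ e) (Set.Icc a b)ᶜ = 0 := by rw [h.law e, hν]
  rw [Measure.map_apply (h.meas e) measurableSet_Icc.compl] at h1
  rw [ae_iff]
  have h2 : {ω | ¬ (a ≤ τ e ω ∧ τ e ω ≤ b)} = τ e ⁻¹' (Set.Icc a b)ᶜ := by
    ext ω
    simp [Set.mem_Icc]
  rw [h2]
  exact h1

theorem mu_lattice (h : FppD ν P τ) (ha : 0 ≤ a) (hν : ν (Set.Icc a b)ᶜ = 0) (hl : LimD P τ μ) (x : V d) :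
    a * nm x ≤ μ (toRD x) ∧ μ (toRD x) ≤ b * nm x := by
  have := h.prob
  have key : ∀ ε : ℝ, 0 < ε → a * nm x ≤ μ (toRD x) + ε ∧ μ (toRD x) ≤ b * nm x + ε := by
    intro ε hε
    have h1 := hl.ev x hε (η := 1 / 3) (by norm_num)
    obtain ⟨n, hn1, hn0⟩ := (h1.and (eventually_ge_atTop 1)).exists
    have hn : (0 : ℝ) < n := by exact_mod_cast hn0
    have h4 := ae_bd h hν
    rw [ae_iff] at h4
    obtain ⟨ω, h5, -, -, h6⟩ := exists_good3 (B := ∅) (C := ∅) h4 hn1 (by simp) (by simp)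
    simp only [Set.mem_ofPred_eq, not_le, not_not] at h5 h6
    have h7 := T_lower h6 ha 0 (n • x)
    have h8 := T_upper h6 ha 0 (n • x)
    rw [sub_zero, nm_nsmulD] at h7 h8
    rw [abs_lt] at h5
    have h9 : a * nm x ≤ T (fun e => τ e ω) 0 (n • x) / (n : ℝ) := by
      rw [le_div_iff₀ hn]
      linarith
    have h10 : T (fun e => τ e ω) 0 (n • x) / (n : ℝ) ≤ b * nm x := by
      rw [div_le_iff₀ hn]
      linarith
    exact ⟨by linarith [h5.2], by linarith [h5.1]⟩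
  exact ⟨le_of_forall_pos_le_add fun ε hε => (key ε hε).1, le_of_forall_pos_le_add fun ε hε => (key ε hε).2⟩

omit [NeZero d] in
theorem upp_of_lattice (hc : Continuous μ) (hhom : ∀ (c : ℝ) (x : Fin d → ℝ), 0 ≤ c → μ (c • x) = c * μ x)
    {c : ℝ} (h : ∀ x : V d, μ (toRD x) ≤ c * nm x) (x : Fin d → ℝ) : μ x ≤ c * ∑ i, |x i| := by
  have h1 : Tendsto (fun n : ℕ => c * ∑ i, |((n : ℝ)⁻¹ • toRD (apxD x n)) i|) atTop (𝓝 (c * ∑ i, |x i|)) := by
    have h2 : Continuous (fun y : Fin d → ℝ => c * ∑ i, |y i|) := by fun_prop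
    exact (h2.tendsto x).comp (apxD_tendsto x)
  refine le_of_tendsto_of_tendsto' (apxD_mu hc hhom x) h1 fun n => ?_
  have hn : 0 ≤ (n : ℝ)⁻¹ := inv_nonneg.2 (Nat.cast_nonneg n)
  have h2 : c * ∑ i, |((n : ℝ)⁻¹ • toRD (apxD x n)) i| = (n : ℝ)⁻¹ * (c * nm (apxD x n)) := by
    have h3 : ∑ i, |((n : ℝ)⁻¹ • toRD (apxD x n)) i| = (n : ℝ)⁻¹ * nm (apxD x n) := by
      unfold nm
      rw [Finset.mul_sum]
      refine Finset.sum_congr rfl fun i _ => ?_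
      rw [Pi.smul_apply, smul_eq_mul, abs_mul, abs_of_nonneg hn]
      rfl
    rw [h3]
    ring
  rw [h2]
  exact mul_le_mul_of_nonneg_left (h _) hn

/-- The bounds and the symmetries of the time constant. -/
theorem bounds_sym (h : FppD ν P τ) (ha : 0 ≤ a) (hν : ν (Set.Icc a b)ᶜ = 0) (hc : Continuous μ)
    (hhom : ∀ (c : ℝ) (x : Fin d → ℝ), 0 ≤ c → μ (c • x) = c * μ x) (hl : LimD P τ μ) :
    (∀ x, a * ∑ i, |x i| ≤ μ x) ∧ (∀ x, μ x ≤ b * ∑ i, |x i|) ∧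
    (∀ (σ : Equiv.Perm (Fin d)) (x : Fin d → ℝ), μ (fun i => x (σ i)) = μ x) ∧
    (∀ ε : Fin d → ℤ, (∀ i, ε i = 1 ∨ ε i = -1) → ∀ x : Fin d → ℝ, μ (fun i => (ε i : ℝ) * x i) = μ x) ∧
    (∀ x y, μ (x + y) ≤ μ x + μ y) := by
  have hν0 : ν (Set.Iio 0) = 0 := by
    refine measure_mono_null (fun x hx => ?_) hν
    simp only [Set.mem_compl_iff, Set.mem_Icc, not_and, not_le]
    intro h1
    exact absurd (lt_of_le_of_lt ha (lt_of_le_of_lt h1 hx)) (lt_irrefl _)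
  exact ⟨low_of_lattice hc hhom fun x => (mu_lattice h ha hν hl x).1,
    upp_of_lattice hc hhom fun x => (mu_lattice h ha hν hl x).2, fun σ x => hl.perm h hc hhom σ x,
    fun ε hε x => hl.sign h hc hhom hε x, add_of_lattice hc hhom (hl.add h hν0)⟩

end Pool.Agent.W_1b8d5d_p32
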