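import Pool.Agent.W_1b8d5d_p.Cheap71

/-!
MP_1b8d5d_pr, Track P (proofs row 636, section 3): the influence of single edges on a clipped functional (Newman - Piza at zero
temperature, in probability). (helper71)
-/

namespace Pool.Agent.W_1b8d5d_p

open MeasureTheory Set
open Pool.Agent.W_1b8d5d_h85

noncomputable section

variable {F : Fm}

/-- Bounded measurable functions of the environment. -/
def Bm (f : Env → ℝ) : Prop := Measurable f ∧ ∃ C : ℝ, ∀ η, |f η| ≤ C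

namespace Bm

variable {f g : Env → ℝ}

theorem int (h : Bm f) {μ : Measure Env} [IsFiniteMeasure μ] : Integrable f μ := by
  obtain ⟨h1, C, h2⟩ := h
  exact Integrable.of_bound (C := C) h1.aestronglyMeasurable (Filter.Eventually.of_forall fun η => by
    rw [Real.norm_eq_abs]
    exact h2 η)

theorem const (c : ℝ) : Bm fun _ => c := ⟨measurable_const, |c|, fun _ => le_rfl⟩

theorem add (h : Bm f) (k : Bm g) : Bm fun η => f η + g η := by
  obtain ⟨C, hC⟩ := h.2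
  obtain ⟨D, hD⟩ := k.2
  exact ⟨h.1.add k.1, C + D, fun η => (abs_add_le _ _).trans (add_le_add (hC η) (hD η))⟩

theorem neg (h : Bm f) : Bm fun η => -f η := by
  obtain ⟨C, hC⟩ := h.2
  exact ⟨h.1.neg, C, fun η => by rw [abs_neg]; exact hC η⟩

theorem sub (h : Bm f) (k : Bm g) : Bm fun η => f η - g η := by
  simp only [sub_eq_add_neg]
  exact h.add k.neg

theorem mul (h : Bm f) (k : Bm g) : Bm fun η => f η * g η := by
  obtain ⟨C, hC⟩ := h.2
  obtain ⟨D, hD⟩ := k.2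
  refine ⟨h.1.mul k.1, C * D, fun η => ?_⟩
  rw [abs_mul]
  exact mul_le_mul (hC η) (hD η) (abs_nonneg _) ((abs_nonneg _).trans (hC η))

theorem max (h : Bm f) (k : Bm g) : Bm fun η => Max.max (f η) (g η) := by
  obtain ⟨C, hC⟩ := h.2
  obtain ⟨D, hD⟩ := k.2
  exact ⟨h.1.max k.1, Max.max C D, fun η =>
    (abs_max_le_max_abs_abs).trans (max_le_max (hC η) (hD η))⟩

theorem min (h : Bm f) (k : Bm g) : Bm fun η => Min.min (f η) (g η) := by
  have e : ∀ η, Min.min (f η) (g η) = -Max.max (-f η) (-g η) := fun η => by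
    rw [max_neg_neg, neg_neg]
  simp only [e]
  exact (h.neg.max k.neg).neg

theorem sum {ι : Type*} {f : ι → Env → ℝ} (I : Finset ι) (h : ∀ i ∈ I, Bm (f i)) : Bm fun η => ∑ i ∈ I, f i η := by
  classical
  induction I using Finset.induction_on with
  | empty => simpa using const 0
  | insert i I hi ih =>
    simp only [Finset.sum_insert hi]
    exact (h i (Finset.mem_insert_self _ _)).add (ih fun j hj => h j (Finset.mem_insert_of_mem hj))

theorem ind {A : Set Env} (hA : MeasurableSet A) (c : ℝ) : Bm fun η => A.indicator (fun _ => c) η := by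
  refine ⟨measurable_const.indicator hA, |c|, fun η => ?_⟩
  show |A.indicator (fun _ => c) η| ≤ |c|
  by_cases h : η ∈ A
  · rw [Set.indicator_of_mem h]
  · rw [Set.indicator_of_notMem h, abs_zero]
    exact abs_nonneg c

end Bm

open Classical in
/-- The test function of one weight. -/
def chi (F : Fm) (t1 t2 u : ℝ) : ℝ := (if t2 ≤ F.g u then (F.nu.real {u | t2 ≤ F.g u})⁻¹ else 0) -
  if F.g u ≤ t1 then (F.nu.real {u | F.g u ≤ t1})⁻¹ else 0

theorem chi_meas (t1 t2 : ℝ) : Measurable (chi F t1 t2) :=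
  (Measurable.ite (measurableSet_le measurable_const F.mg) measurable_const measurable_const).sub
    (Measurable.ite (measurableSet_le F.mg measurable_const) measurable_const measurable_const)

theorem chi_abs (t1 t2 u : ℝ) : |chi F t1 t2 u| ≤ (F.nu.real {u | t2 ≤ F.g u})⁻¹ + (F.nu.real {u | F.g u ≤ t1})⁻¹ := by
  have h1 : (0 : ℝ) ≤ (F.nu.real {u | t2 ≤ F.g u})⁻¹ := inv_nonneg.2 measureReal_nonneg
  have h2 : (0 : ℝ) ≤ (F.nu.real {u | F.g u ≤ t1})⁻¹ := inv_nonneg.2 measureReal_nonneg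
  unfold chi
  rw [abs_le]
  split_ifs <;> constructor <;> linarith

theorem chi_int {t1 t2 : ℝ} (hq1 : 0 < F.nu.real {u | F.g u ≤ t1}) (hq2 : 0 < F.nu.real {u | t2 ≤ F.g u}) :
    ∫ u, chi F t1 t2 u ∂F.nu = 0 := by
  have hm1 : MeasurableSet {u | F.g u ≤ t1} := measurableSet_le F.mg measurable_const
  have hm2 : MeasurableSet {u | t2 ≤ F.g u} := measurableSet_le measurable_const F.mg
  have e1 : ∀ u, chi F t1 t2 u = {u | t2 ≤ F.g u}.indicator (fun _ => (F.nu.real {u | t2 ≤ F.g u})⁻¹) u -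
      {u | F.g u ≤ t1}.indicator (fun _ => (F.nu.real {u | F.g u ≤ t1})⁻¹) u := by
    intro u
    unfold chi
    simp only [Set.indicator, Set.mem_ofPred_eq]
  simp only [e1]
  rw [integral_sub ((integrable_const _).indicator hm2) ((integrable_const _).indicator hm1), integral_indicator hm2,
    integral_indicator hm1]
  simp only [integral_const, smul_eq_mul, measureReal_restrict_apply_univ]
  rw [mul_inv_cancel₀ hq2.ne', mul_inv_cancel₀ hq1.ne', sub_self]

theorem chi_env_int {t1 t2 : ℝ} (hq1 : 0 < F.nu.real {u | F.g u ≤ t1}) (hq2 : 0 < F.nu.real {u | t2 ≤ F.g u}) (e : Edge) :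
    ∫ η : Env, chi F t1 t2 (η e) ∂(law F) = 0 := by
  rw [int_eval (chi_meas t1 t2) e, chi_int hq1 hq2]

theorem chi_bm (t1 t2 : ℝ) (e : Edge) : Bm fun η => chi F t1 t2 (η e) :=
  ⟨(chi_meas t1 t2).comp (measurable_pi_apply e), _, fun _ => chi_abs _ _ _⟩

/-- The second moment of the sum of the test functions. -/
theorem chi_sum_sq {t1 t2 : ℝ} (hq1 : 0 < F.nu.real {u | F.g u ≤ t1}) (hq2 : 0 < F.nu.real {u | t2 ≤ F.g u})
    (D : Finset Edge) : ∫ η : Env, (∑ e ∈ D, chi F t1 t2 (η e)) ^ 2 ∂(law F) ≤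
      D.card * ((F.nu.real {u | t2 ≤ F.g u})⁻¹ + (F.nu.real {u | F.g u ≤ t1})⁻¹) ^ 2 := by
  obtain ⟨κ, hκ⟩ : ∃ κ, κ = (F.nu.real {u | t2 ≤ F.g u})⁻¹ + (F.nu.real {u | F.g u ≤ t1})⁻¹ := ⟨_, rfl⟩
  rw [← hκ]
  have hi : ∀ p q : Edge, Integrable (fun η : Env => chi F t1 t2 (η p) * chi F t1 t2 (η q)) (law F) := fun p q =>
    ((chi_bm t1 t2 p).mul (chi_bm t1 t2 q)).int
  have hcross : ∀ p q : Edge, p ≠ q → ∫ η : Env, chi F t1 t2 (η p) * chi F t1 t2 (η q) ∂(law F) = 0 := by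
    intro p q hpq
    rw [integral_indep (F := F) (f := fun η : Env => chi F t1 t2 (η p)) (g := fun η : Env => chi F t1 t2 (η q))
      (A := {p}) (B := {q}) ((chi_meas t1 t2).comp (measurable_pi_apply p))
      ((chi_meas t1 t2).comp (measurable_pi_apply q)) (fun η η' h => by
        show chi F t1 t2 (η p) = chi F t1 t2 (η' p)
        rw [h p rfl]) (fun η η' h => by
        show chi F t1 t2 (η q) = chi F t1 t2 (η' q)
        rw [h q rfl]) (by simpa using hpq), chi_env_int hq1 hq2, zero_mul]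
  calc ∫ η : Env, (∑ e ∈ D, chi F t1 t2 (η e)) ^ 2 ∂(law F)
      = ∫ η : Env, ∑ p ∈ D, ∑ q ∈ D, chi F t1 t2 (η p) * chi F t1 t2 (η q) ∂(law F) := by
        congr 1
        funext η
        rw [sq, Finset.sum_mul_sum]
    _ = ∑ p ∈ D, ∑ q ∈ D, ∫ η : Env, chi F t1 t2 (η p) * chi F t1 t2 (η q) ∂(law F) := by
        rw [integral_finsetSum]
        · refine Finset.sum_congr rfl fun p _ => ?_
          rw [integral_finsetSum]
          exact fun q _ => hi p q
        · exact fun p _ => integrable_finsetSum _ fun q _ => hi p q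
    _ = ∑ p ∈ D, ∫ η : Env, chi F t1 t2 (η p) * chi F t1 t2 (η p) ∂(law F) := by
        refine Finset.sum_congr rfl fun p hp => ?_
        rw [Finset.sum_eq_single_of_mem p hp]
        intro q _ hq
        exact hcross p q (Ne.symm hq)
    _ ≤ ∑ _p ∈ D, κ ^ 2 := by
        refine Finset.sum_le_sum fun p _ => ?_
        calc ∫ η : Env, chi F t1 t2 (η p) * chi F t1 t2 (η p) ∂(law F) ≤ ∫ _η : Env, κ ^ 2 ∂(law F) := by
              refine integral_mono (hi p p) (integrable_const _) fun η => ?_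
              have h1 := chi_abs (F := F) t1 t2 (η p)
              rw [← hκ] at h1
              show chi F t1 t2 (η p) * chi F t1 t2 (η p) ≤ κ ^ 2
              rw [← sq, ← sq_abs]
              exact pow_le_pow_left₀ (abs_nonneg _) h1 2
          _ = κ ^ 2 := by simp
    _ = D.card * κ ^ 2 := by rw [Finset.sum_const, nsmul_eq_mul]

/-- Clip to `[m - H, m + H]`, centred. -/
def cl (m H r : ℝ) : ℝ := max (-H) (min (r - m) H)

theorem cl_mono (m H : ℝ) {r r' : ℝ} (h : r ≤ r') : cl m H r ≤ cl m H r' :=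
  max_le_max le_rfl (min_le_min (by linarith) le_rfl)

theorem cl_eq {m H r : ℝ} (h : |r - m| ≤ H) : cl m H r = r - m := by
  obtain ⟨h1, h2⟩ := abs_le.1 h
  unfold cl
  rw [min_eq_left h2, max_eq_right h1]

theorem cl_abs {m H : ℝ} (hH : 0 ≤ H) (r : ℝ) : |cl m H r| ≤ H := by
  unfold cl
  rw [abs_le]
  exact ⟨le_max_left _ _, max_le (by linarith) (min_le_right _ _)⟩

theorem Bm.cl {f : Env → ℝ} (h : Bm f) (m H : ℝ) : Bm fun η => cl m H (f η) :=
  (Bm.const (-H)).max ((h.sub (Bm.const m)).min (Bm.const H))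

/-- The response of the clipped functional to one edge. -/
theorem one_edge {t1 t2 ε : ℝ} (hq1 : 0 < F.nu.real {u | F.g u ≤ t1}) (hq2 : 0 < F.nu.real {u | t2 ≤ F.g u})
    (ht : t1 < t2) (hε : 0 ≤ ε) {e : Edge} {T T1 : Env → ℝ} (hT : Bm T) (hT1 : Bm T1) (hdep : DependsOn T1 {e}ᶜ)
    (h2 : ∀ η : Env, t2 ≤ F.g (η e) → T1 η ≤ T η) (h1 : ∀ η : Env, F.g (η e) ≤ t1 → T η ≤ T1 η) (m : ℝ) {s : ℝ}
    (hs : 0 ≤ s) :
    ε * (law F).real {η | (t2 ≤ F.g (η e) ∧ T1 η + ε ≤ T η) ∧ |T η - m| < s} ≤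
      ∫ η, cl m (s + ε) (T η) * chi F t1 t2 (η e) ∂(law F) := by
  classical
  have hH : 0 ≤ s + ε := by linarith
  obtain ⟨A, hA⟩ : ∃ A : Set Env, A = {η | (t2 ≤ F.g (η e) ∧ T1 η + ε ≤ T η) ∧ |T η - m| < s} := ⟨_, rfl⟩
  have hAm : MeasurableSet A := by
    rw [hA]
    exact ((measurableSet_le measurable_const (F.mg.comp (measurable_pi_apply e))).inter
      (measurableSet_le (hT1.1.add_const ε) hT.1)).inter (measurableSet_lt (hT.1.sub_const m).abs measurable_const)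
  have hz : ∫ η, cl m (s + ε) (T1 η) * chi F t1 t2 (η e) ∂(law F) = 0 := by
    rw [integral_indep (F := F) (A := {e}ᶜ) (B := {e}) (hT1.cl m (s + ε)).1 (chi_bm t1 t2 e).1
      (fun η η' h => by
        show cl m (s + ε) (T1 η) = cl m (s + ε) (T1 η')
        rw [hdep h]) (fun η η' h => by
        show chi F t1 t2 (η e) = chi F t1 t2 (η' e)
        rw [h e rfl]) disjoint_compl_left, chi_env_int hq1 hq2, mul_zero]
  have b1 := (hT.cl m (s + ε)).mul (chi_bm (F := F) t1 t2 e)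
  have b2 := (hT1.cl m (s + ε)).mul (chi_bm (F := F) t1 t2 e)
  rw [← hA]
  have e1 : ε * (law F).real A = ∫ η, A.indicator (fun _ => ε) η ∂(law F) := by
    rw [integral_indicator hAm, setIntegral_const, smul_eq_mul, mul_comm]
  have e2 : ∫ η, cl m (s + ε) (T η) * chi F t1 t2 (η e) ∂(law F) =
      ∫ η, (cl m (s + ε) (T η) * chi F t1 t2 (η e) - cl m (s + ε) (T1 η) * chi F t1 t2 (η e)) ∂(law F) := by
    rw [integral_sub b1.int b2.int, hz, sub_zero]
  rw [e1, e2]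
  refine integral_mono (Bm.ind hAm ε).int (b1.sub b2).int fun η => ?_
  show A.indicator (fun _ => ε) η ≤ cl m (s + ε) (T η) * chi F t1 t2 (η e) - cl m (s + ε) (T1 η) * chi F t1 t2 (η e)
  rw [← sub_mul]
  have k1 : F.nu.real {u | F.g u ≤ t1} ≤ 1 := measureReal_le_one
  have k2 : F.nu.real {u | t2 ≤ F.g u} ≤ 1 := measureReal_le_one
  have hne : ¬ (t2 ≤ F.g (η e) ∧ F.g (η e) ≤ t1) := fun h => by linarith [h.1, h.2]
  by_cases c2 : t2 ≤ F.g (η e)
  · have c1 : ¬ F.g (η e) ≤ t1 := fun h => hne ⟨c2, h⟩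
    have e3 : chi F t1 t2 (η e) = (F.nu.real {u | t2 ≤ F.g u})⁻¹ := by
      unfold chi
      rw [if_pos c2, if_neg c1, sub_zero]
    have e4 : 1 ≤ (F.nu.real {u | t2 ≤ F.g u})⁻¹ := (one_le_inv₀ hq2).2 k2
    have e5 := cl_mono m (s + ε) (h2 η c2)
    rw [e3]
    by_cases hη : η ∈ A
    · rw [Set.indicator_of_mem hη]
      have hη' := hη
      rw [hA] at hη'
      obtain ⟨⟨-, g1⟩, g2⟩ := hη'
      have g3 := abs_lt.1 g2
      have e6 : cl m (s + ε) (T η) = T η - m := cl_eq (g2.le.trans (by linarith))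
      have e7 : cl m (s + ε) (T1 η) ≤ T η - ε - m := by
        rw [← cl_eq (m := m) (H := s + ε) (r := T η - ε) (by
          rw [abs_le]
          constructor <;> linarith)]
        exact cl_mono _ _ (by linarith)
      rw [e6]
      have e8 : ε ≤ T η - m - cl m (s + ε) (T1 η) := by linarith
      calc ε = ε * 1 := (mul_one ε).symm
        _ ≤ _ := mul_le_mul e8 e4 zero_le_one (hε.trans e8)
    · rw [Set.indicator_of_notMem hη]
      exact mul_nonneg (by linarith) (by linarith)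
  · have hη : η ∉ A := by
      rw [hA]
      rintro ⟨⟨h, -⟩, -⟩
      exact c2 h
    rw [Set.indicator_of_notMem hη]
    by_cases c1 : F.g (η e) ≤ t1
    · have e3 : chi F t1 t2 (η e) = -(F.nu.real {u | F.g u ≤ t1})⁻¹ := by
        unfold chi
        rw [if_neg c2, if_pos c1, zero_sub]
      have e4 : 0 ≤ (F.nu.real {u | F.g u ≤ t1})⁻¹ := inv_nonneg.2 hq1.le
      have e5 := cl_mono m (s + ε) (h1 η c1)
      rw [e3]
      nlinarith
    · have e3 : chi F t1 t2 (η e) = 0 := by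
        unfold chi
        rw [if_neg c2, if_neg c1, sub_zero]
      rw [e3, mul_zero]

/-- Cauchy - Schwarz. -/
theorem cs_bm {f g : Env → ℝ} (hf : Bm f) (hg : Bm g) :
    (∫ η, f η * g η ∂(law F)) ^ 2 ≤ (∫ η, f η ^ 2 ∂(law F)) * ∫ η, g η ^ 2 ∂(law F) := by
  obtain ⟨a, ha⟩ : ∃ a, a = ∫ η, g η ^ 2 ∂(law F) := ⟨_, rfl⟩
  obtain ⟨b, hb⟩ : ∃ b, b = ∫ η, f η * g η ∂(law F) := ⟨_, rfl⟩
  obtain ⟨c, hc⟩ : ∃ c, c = ∫ η, f η ^ 2 ∂(law F) := ⟨_, rfl⟩
  have hff : Bm fun η => f η ^ 2 := by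
    simp only [sq]
    exact hf.mul hf
  have hgg : Bm fun η => g η ^ 2 := by
    simp only [sq]
    exact hg.mul hg
  have h : ∀ x : ℝ, 0 ≤ a * (x * x) + (-2 * b) * x + c := by
    intro x
    have h1 : 0 ≤ ∫ η, (f η - x * g η) ^ 2 ∂(law F) := integral_nonneg fun η => sq_nonneg _
    have e1 : ∀ η, (f η - x * g η) ^ 2 = f η ^ 2 - 2 * x * (f η * g η) + x ^ 2 * g η ^ 2 := fun η => by ring
    simp only [e1] at h1
    rw [integral_add (hff.sub ((Bm.const (2 * x)).mul (hf.mul hg))).int ((Bm.const (x ^ 2)).mul hgg).int,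
      integral_sub hff.int ((Bm.const (2 * x)).mul (hf.mul hg)).int, integral_const_mul, integral_const_mul, ← ha, ← hb,
      ← hc] at h1
    linarith
  have h2 := discrim_le_zero h
  unfold discrim at h2
  rw [← ha, ← hb, ← hc]
  nlinarith

/-- **NEWMAN - PIZA** for clipped functionals at zero temperature. -/
theorem np0 {t1 t2 ε : ℝ} (hq1 : 0 < F.nu.real {u | F.g u ≤ t1}) (hq2 : 0 < F.nu.real {u | t2 ≤ F.g u})
    (ht : t1 < t2) (hε : 0 ≤ ε) (D : Finset Edge) {T : Env → ℝ} {T1 : Edge → Env → ℝ} (hT : Bm T)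
    (hT1 : ∀ e ∈ D, Bm (T1 e)) (hdep : ∀ e ∈ D, DependsOn (T1 e) {e}ᶜ)
    (h2 : ∀ e ∈ D, ∀ η : Env, t2 ≤ F.g (η e) → T1 e η ≤ T η) (h1 : ∀ e ∈ D, ∀ η : Env, F.g (η e) ≤ t1 → T η ≤ T1 e η)
    (m : ℝ) {s : ℝ} (hs : 0 ≤ s) :
    (ε * ∑ e ∈ D, (law F).real {η | (t2 ≤ F.g (η e) ∧ T1 e η + ε ≤ T η) ∧ |T η - m| < s}) ^ 2 ≤
      D.card * ((F.nu.real {u | t2 ≤ F.g u})⁻¹ + (F.nu.real {u | F.g u ≤ t1})⁻¹) ^ 2 *
        (s ^ 2 + (s + ε) ^ 2 * (law F).real {η | s ≤ |T η - m|}) := by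
  obtain ⟨κ, hκ⟩ : ∃ κ, κ = (F.nu.real {u | t2 ≤ F.g u})⁻¹ + (F.nu.real {u | F.g u ≤ t1})⁻¹ := ⟨_, rfl⟩
  have hH : 0 ≤ s + ε := by linarith
  have hbad : MeasurableSet {η : Env | s ≤ |T η - m|} := measurableSet_le measurable_const (hT.1.sub_const m).abs
  have hS : Bm fun η => ∑ e ∈ D, chi F t1 t2 (η e) := Bm.sum D fun e _ => chi_bm t1 t2 e
  have hC := hT.cl m (s + ε)
  have k1 : ε * ∑ e ∈ D, (law F).real {η | (t2 ≤ F.g (η e) ∧ T1 e η + ε ≤ T η) ∧ |T η - m| < s} ≤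
      ∫ η, cl m (s + ε) (T η) * ∑ e ∈ D, chi F t1 t2 (η e) ∂(law F) := by
    have e1 : ∫ η, cl m (s + ε) (T η) * ∑ e ∈ D, chi F t1 t2 (η e) ∂(law F) =
        ∑ e ∈ D, ∫ η, cl m (s + ε) (T η) * chi F t1 t2 (η e) ∂(law F) := by
      rw [← integral_finsetSum]
      · refine integral_congr_ae (Filter.Eventually.of_forall fun η => ?_)
        show cl m (s + ε) (T η) * ∑ e ∈ D, chi F t1 t2 (η e) = ∑ e ∈ D, cl m (s + ε) (T η) * chi F t1 t2 (η e)
        rw [Finset.mul_sum]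
      · exact fun e _ => (hC.mul (chi_bm t1 t2 e)).int
    rw [e1, Finset.mul_sum]
    exact Finset.sum_le_sum fun e he => one_edge hq1 hq2 ht hε hT (hT1 e he) (hdep e he) (h2 e he) (h1 e he) m hs
  have k0 : 0 ≤ ε * ∑ e ∈ D, (law F).real {η | (t2 ≤ F.g (η e) ∧ T1 e η + ε ≤ T η) ∧ |T η - m| < s} :=
    mul_nonneg hε (Finset.sum_nonneg fun e _ => measureReal_nonneg)
  have k2 := cs_bm (F := F) hC hS
  have k3 : ∫ η, (∑ e ∈ D, chi F t1 t2 (η e)) ^ 2 ∂(law F) ≤ D.card * κ ^ 2 := by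
    rw [hκ]
    exact chi_sum_sq hq1 hq2 D
  have k4 : ∫ η, cl m (s + ε) (T η) ^ 2 ∂(law F) ≤ s ^ 2 + (s + ε) ^ 2 * (law F).real {η | s ≤ |T η - m|} := by
    have hCC : Bm fun η => cl m (s + ε) (T η) ^ 2 := by
      simp only [sq]
      exact hC.mul hC
    calc ∫ η, cl m (s + ε) (T η) ^ 2 ∂(law F)
        ≤ ∫ η, (s ^ 2 + {η : Env | s ≤ |T η - m|}.indicator (fun _ => (s + ε) ^ 2) η) ∂(law F) := by
          refine integral_mono hCC.int ((Bm.const _).add (Bm.ind hbad _)).int fun η => ?_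
          show cl m (s + ε) (T η) ^ 2 ≤ s ^ 2 + {η : Env | s ≤ |T η - m|}.indicator (fun _ => (s + ε) ^ 2) η
          by_cases h7 : η ∈ {η : Env | s ≤ |T η - m|}
          · rw [Set.indicator_of_mem h7, ← sq_abs (cl m (s + ε) (T η))]
            have h8 := pow_le_pow_left₀ (abs_nonneg _) (cl_abs (m := m) hH (T η)) 2
            have h9 := sq_nonneg s
            linarith
          · have h8 : |T η - m| < s := lt_of_not_ge h7
            rw [Set.indicator_of_notMem h7, add_zero, cl_eq (by linarith), ← sq_abs (T η - m)]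
            exact pow_le_pow_left₀ (abs_nonneg _) h8.le 2
      _ = _ := by
          rw [integral_add (integrable_const _) ((integrable_const _).indicator hbad), integral_indicator hbad,
            setIntegral_const, smul_eq_mul]
          simp
          ring
  have k5 : 0 ≤ ∫ η, (∑ e ∈ D, chi F t1 t2 (η e)) ^ 2 ∂(law F) := integral_nonneg fun η => sq_nonneg _
  rw [← hκ]
  calc _ ≤ (∫ η, cl m (s + ε) (T η) * ∑ e ∈ D, chi F t1 t2 (η e) ∂(law F)) ^ 2 := pow_le_pow_left₀ k0 k1 2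
    _ ≤ _ := k2
    _ ≤ (s ^ 2 + (s + ε) ^ 2 * (law F).real {η | s ≤ |T η - m|}) * (D.card * κ ^ 2) :=
        mul_le_mul k4 k3 k5 (by positivity)
    _ = _ := by ring

end

end Pool.Agent.W_1b8d5d_p
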