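import Pool.Agent.W_1b8d5d_p.HfP99
import Pool.Agent.W_1b8d5d_h14.UncC14

/-!
MP_1b8d5d_pr, Track P: the record trick along a tube (predicate `RecH`), by iteration of the exact uncrossing `unc14`.
-/

namespace Pool.Agent.W_1b8d5d_p

open MeasureTheory Set
open Pool.Agent.W_1b8d5d_h85 (V nm dir Edge Env grid ke wedges cost Bd sh rf)
open Pool.Agent.W_1b8d5d_h57p (wv HasT XT TbE)
open Pool.Agent.W_1b8d5d_h14 (m14 m14_nonneg unc14)

noncomputable section

variable {c : Co} {a b : ℝ} {τ : Env} {S0 : Set Edge} {p t : ℕ} {T : ℤ}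

/-- The edge sets of the iteration. -/
def SK (c : Co) (S0 : Set Edge) (p t : ℕ) (T : ℤ) : ℕ → Set Edge
  | 0 => S0
  | k + 1 => (SK c S0 p t T k ∪ c.slab (k * p : ℕ) (k * p + t : ℕ)) ∩ c.slab (k * p : ℕ) T

/-- The starts of the iteration. -/
def xK (c : Co) (xx : ℕ → ℤ) (p : ℕ) : ℕ → V
  | 0 => c.vt 0
  | k + 1 => c.vt (((k * p : ℕ) : ℤ), xx k)

/-- The first times. -/
def aK (p : ℕ) : ℕ → ℤ
  | 0 => 0
  | k + 1 => (k * p : ℕ)

theorem SK_sub (hS : S0 ⊆ c.slab 0 T) : ∀ k, SK c S0 p t T k ⊆ c.slab (aK p k) T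
  | 0 => hS
  | _ + 1 => fun _ he => he.2

theorem SK_mem (k : ℕ) (e : Edge) (he : e ∈ SK c S0 p t T k) :
    e ∈ S0 ∨ ∃ j, j < k ∧ e ∈ c.slab (j * p : ℕ) (j * p + t : ℕ) := by
  induction k with
  | zero => exact Or.inl he
  | succ k ih =>
    rcases he.1 with h | h
    · rcases ih h with h1 | ⟨j, hj, h1⟩
      · exact Or.inl h1
      · exact Or.inr ⟨j, by omega, h1⟩
    · exact Or.inr ⟨k, by omega, h⟩

theorem tm_xK (xx : ℕ → ℤ) (k : ℕ) : c.tm (xK c xx p k) = c.L * aK p k := by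
  cases k with
  | zero =>
    show c.tm (c.vt 0) = c.L * 0
    rw [Co.tm_vt]
    rfl
  | succ k =>
    show c.tm (c.vt _) = _
    rw [Co.tm_vt]
    rfl

theorem slab_end {s s' : ℤ} {e : Edge} (he : e ∈ c.slab s s') {z : V} (hz : z = e.1 ∨ z = e.1 + dir e.2) :
    c.tm z ≤ c.L * s' := by
  obtain ⟨h1, h2, h3, h4⟩ := he
  rcases hz with h | h
  · rw [h]
    exact h3.le
  · rw [h]
    exact h2

/-- The iteration of the exact uncrossing. -/
theorem unc_iter (hτ : Bd a b τ) (ha : 0 < a) (hS : S0 ⊆ c.slab 0 T) (ht : 1 ≤ t) (hp : t + 1 ≤ p) {y : V}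
    (hy : c.L * T ≤ c.tm y) (hne : Nonempty (WK S0 (c.vt 0) y)) {sg : ℤ} (hsg : sg = 1 ∨ sg = -1) (xx yy : ℕ → ℤ) {k : ℕ}
    (hk : ((k * p + t : ℕ) : ℤ) ≤ T) (h0 : m14 c < sg * xx 0)
    (hlow : ∀ i, i ≤ k → ∀ z : V, (∃ e ∈ S0, z = e.1 ∨ z = e.1 + dir e.2) → c.L * (i * p : ℕ) - c.M < c.tm z →
      c.tm z ≤ c.L * (i * p : ℕ) → m14 c < sg * (xx i - c.ps z))
    (hhigh : ∀ i, i ≤ k → ∀ z : V, (∃ e ∈ S0, z = e.1 ∨ z = e.1 + dir e.2) → c.L * (i * p + t : ℕ) ≤ c.tm z →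
      c.tm z < c.L * (i * p + t : ℕ) + c.M → m14 c < sg * (c.ps z - yy i)) :
    ∀ n, n ≤ k + 1 → Nonempty (WK (SK c S0 p t T n) (xK c xx p n) y) ∧
      ∑ j ∈ Finset.range n, TR (c.slab (aK p j) (j * p + t : ℕ)) τ (xK c xx p j) (c.vt (((j * p + t : ℕ) : ℤ), yy j)) +
        TR (SK c S0 p t T n) τ (xK c xx p n) y ≤ TR S0 τ (c.vt 0) y +
        ∑ j ∈ Finset.range n, TR (c.slab (j * p : ℕ) (j * p + t : ℕ)) τ (c.vt (((j * p : ℕ) : ℤ), xx j))
          (c.vt (((j * p + t : ℕ) : ℤ), yy j)) := by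
  have hL := c.L_pos
  have hLM := c.L_eq
  have hM := c.M_pos
  have hmul : ∀ s s' : ℤ, s ≤ s' → c.L * s ≤ c.L * s' := fun s s' h => mul_le_mul_of_nonneg_left h (by omega)
  intro n
  induction n with
  | zero =>
    intro _
    refine ⟨hne, ?_⟩
    simp only [Finset.range_zero, Finset.sum_empty, zero_add, add_zero]
    exact le_rfl
  | succ n ih =>
    intro hn
    obtain ⟨ih1, ih2⟩ := ih (by omega)
    have hnk : n ≤ k := by omega
    have hnp : n * p + t ≤ k * p + t := Nat.add_le_add_right (Nat.mul_le_mul_right p hnk) t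
    have haK : aK p n ≤ ((n * p : ℕ) : ℤ) := by
      cases n with
      | zero => simp [aK]
      | succ n =>
        show ((n * p : ℕ) : ℤ) ≤ _
        have : n * p ≤ (n + 1) * p := Nat.mul_le_mul_right p (by omega)
        exact_mod_cast this
    have hcast : ((n * p + t : ℕ) : ℤ) = ((n * p : ℕ) : ℤ) + t := by push_cast; ring
    have hu := unc14 (c := c) hτ ha (S := SK c S0 p t T n) (A := aK p n) (B := T) (A' := ((n * p : ℕ) : ℤ))
      (B' := ((n * p + t : ℕ) : ℤ)) (SK_sub hS n) haK (by rw [hcast]; omega)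
      (le_trans (by exact_mod_cast hnp) hk) (x := xK c xx p n) (y := y) (by rw [tm_xK]; exact hmul _ _ haK)
      (le_trans (hmul _ _ (le_trans (by exact_mod_cast hnp) hk)) hy) (i := xx n) (j := yy n) ih1 hsg ?_ ?_
    · obtain ⟨hu1, hu2⟩ := hu
      refine ⟨hu2, ?_⟩
      rw [Finset.sum_range_succ, Finset.sum_range_succ]
      have e1 : TR (SK c S0 p t T (n + 1)) τ (xK c xx p (n + 1)) y =
          TR ((SK c S0 p t T n ∪ c.slab (n * p : ℕ) (n * p + t : ℕ)) ∩ c.slab (n * p : ℕ) T) τ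
            (c.vt (((n * p : ℕ) : ℤ), xx n)) y := rfl
      rw [e1]
      linarith
    · rintro z (hz | ⟨e, he, hz⟩) h1 h2
      · cases n with
        | zero =>
          rw [hz]
          show m14 c < sg * (xx 0 - c.ps (c.vt 0))
          rw [Co.ps_vt]
          simpa using h0
        | succ n =>
          exfalso
          rw [hz, tm_xK] at h1
          have h3 : aK p (n + 1) = ((n * p : ℕ) : ℤ) := rfl
          have h4 : (((n + 1) * p : ℕ) : ℤ) = ((n * p : ℕ) : ℤ) + p := by push_cast; ring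
          rw [h3, h4] at h1
          have h5 : c.L * (((n * p : ℕ) : ℤ) + 1) ≤ c.L * (((n * p : ℕ) : ℤ) + p) := hmul _ _ (by omega)
          have h6 : c.L * (((n * p : ℕ) : ℤ) + 1) = c.L * ((n * p : ℕ) : ℤ) + c.L := by ring
          omega
      · rcases SK_mem n e he with h3 | ⟨j, hj, h3⟩
        · exact hlow n hnk z ⟨e, h3, hz⟩ h1 h2
        · exfalso
          have h4 := slab_end h3 hz
          have h5 : ((j * p + t : ℕ) : ℤ) + 1 ≤ ((n * p : ℕ) : ℤ) := by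
            have h6 : (j + 1) * p ≤ n * p := Nat.mul_le_mul_right p (by omega)
            have h7 : (j + 1) * p = j * p + p := by ring
            have h8 : j * p + t + 1 ≤ n * p := by omega
            exact_mod_cast h8
          have h6 := hmul _ _ h5
          have h7 : c.L * (((j * p + t : ℕ) : ℤ) + 1) = c.L * ((j * p + t : ℕ) : ℤ) + c.L := by ring
          omega
    · rintro z (hz | ⟨e, he, hz⟩) h1 h2
      · exfalso
        rw [hz, tm_xK] at h1
        have h3 := hmul _ _ haK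
        have h4 : c.L * (((n * p : ℕ) : ℤ) + 1) ≤ c.L * ((n * p + t : ℕ) : ℤ) := hmul _ _ (by rw [hcast]; omega)
        have h5 : c.L * (((n * p : ℕ) : ℤ) + 1) = c.L * ((n * p : ℕ) : ℤ) + c.L := by ring
        omega
      · rcases SK_mem n e he with h3 | ⟨j, hj, h3⟩
        · exact hhigh n hnk z ⟨e, h3, hz⟩ h1 h2
        · exfalso
          have h4 := slab_end h3 hz
          have h5 : ((j * p + t : ℕ) : ℤ) + 1 ≤ ((n * p : ℕ) : ℤ) := by
            have h6 : (j + 1) * p ≤ n * p := Nat.mul_le_mul_right p (by omega)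
            have h7 : (j + 1) * p = j * p + p := by ring
            have h8 : j * p + t + 1 ≤ n * p := by omega
            exact_mod_cast h8
          have h6 := hmul _ _ h5
          have h7 : c.L * (((j * p + t : ℕ) : ℤ) + 1) = c.L * ((j * p + t : ℕ) : ℤ) + c.L := by ring
          have h8 : c.L * ((n * p : ℕ) : ℤ) ≤ c.L * ((n * p + t : ℕ) : ℤ) := hmul _ _ (by rw [hcast]; omega)
          omega

/-- The restricted passage time of a slab between grid points. -/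
theorem TR_eq_TT (c : Co) (τ : Env) {A B : ℤ} {n : ℕ} (h : B = A + n) (i j : ℤ) :
    TR (c.slab A B) τ (c.vt (A, i)) (c.vt (B, j)) = TT c τ (A, i) n (j - i) := by
  unfold TT
  have e1 : ((A, i) : Pt) + ((n : ℤ), j - i) = (B, j) := by
    ext
    · simp [h]
    · simp
  rw [e1, ← h]

/-- The iteration in terms of slab passage times. -/
theorem unc_TT (hτ : Bd a b τ) (ha : 0 < a) {k : ℕ} (hS : S0 ⊆ c.slab 0 (k * p + t : ℕ)) (ht : 1 ≤ t) (hp : t + 1 ≤ p)
    {Z : ℤ} (hne : Nonempty (WK S0 (c.vt 0) (c.vt (((k * p + t : ℕ) : ℤ), Z)))) {sg : ℤ} (hsg : sg = 1 ∨ sg = -1)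
    (xx yy : ℕ → ℤ) (h0 : m14 c < sg * xx 0)
    (hlow : ∀ i, i ≤ k → ∀ z : V, (∃ e ∈ S0, z = e.1 ∨ z = e.1 + dir e.2) → c.L * (i * p : ℕ) - c.M < c.tm z →
      c.tm z ≤ c.L * (i * p : ℕ) → m14 c < sg * (xx i - c.ps z))
    (hhigh : ∀ i, i ≤ k → ∀ z : V, (∃ e ∈ S0, z = e.1 ∨ z = e.1 + dir e.2) → c.L * (i * p + t : ℕ) ≤ c.tm z →
      c.tm z < c.L * (i * p + t : ℕ) + c.M → m14 c < sg * (c.ps z - yy i)) :
    TT c τ 0 t (yy 0) + ∑ j ∈ Finset.range k, TT c τ (((j * p : ℕ) : ℤ), xx j) (p + t) (yy (j + 1) - xx j) +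
        TT c τ (((k * p : ℕ) : ℤ), xx k) t (Z - xx k) ≤
      TR S0 τ (c.vt 0) (c.vt (((k * p + t : ℕ) : ℤ), Z)) +
        ∑ j ∈ Finset.range (k + 1), TT c τ (((j * p : ℕ) : ℤ), xx j) t (yy j - xx j) := by
  obtain ⟨h1, h2⟩ := unc_iter hτ ha hS ht hp (y := c.vt (((k * p + t : ℕ) : ℤ), Z)) (by rw [Co.tm_vt]) hne hsg xx yy
    (k := k) le_rfl h0 hlow hhigh (k + 1) le_rfl
  have h3 : TR (c.slab (k * p : ℕ) (k * p + t : ℕ)) τ (c.vt (((k * p : ℕ) : ℤ), xx k)) (c.vt (((k * p + t : ℕ) : ℤ), Z)) ≤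
      TR (SK c S0 p t (k * p + t : ℕ) (k + 1)) τ (xK c xx p (k + 1)) (c.vt (((k * p + t : ℕ) : ℤ), Z)) :=
    TR_anti hτ ha.le h1 (SK_sub hS (k + 1))
  rw [TR_eq_TT c τ (n := t) (by push_cast; ring)] at h3
  have h4 : ∑ j ∈ Finset.range (k + 1), TR (c.slab (j * p : ℕ) (j * p + t : ℕ)) τ (c.vt (((j * p : ℕ) : ℤ), xx j))
      (c.vt (((j * p + t : ℕ) : ℤ), yy j)) =
      ∑ j ∈ Finset.range (k + 1), TT c τ (((j * p : ℕ) : ℤ), xx j) t (yy j - xx j) :=
    Finset.sum_congr rfl fun j _ => TR_eq_TT c τ (n := t) (by push_cast; ring) _ _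
  rw [h4, Finset.sum_range_succ'] at h2
  have h5 : ∑ j ∈ Finset.range k, TR (c.slab (aK p (j + 1)) ((j + 1) * p + t : ℕ)) τ (xK c xx p (j + 1))
      (c.vt ((((j + 1) * p + t : ℕ) : ℤ), yy (j + 1))) =
      ∑ j ∈ Finset.range k, TT c τ (((j * p : ℕ) : ℤ), xx j) (p + t) (yy (j + 1) - xx j) :=
    Finset.sum_congr rfl fun j _ => TR_eq_TT c τ (n := p + t) (by
      show (((j + 1) * p + t : ℕ) : ℤ) = ((j * p : ℕ) : ℤ) + _
      push_cast
      ring) _ _
  have h6 : TR (c.slab (aK p 0) (0 * p + t : ℕ)) τ (xK c xx p 0) (c.vt (((0 * p + t : ℕ) : ℤ), yy 0)) = TT c τ 0 t (yy 0) := by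
    have e1 : xK c xx p 0 = c.vt ((0 : ℤ), (0 : ℤ)) := rfl
    have e2 : aK p 0 = 0 := rfl
    rw [e1, e2, TR_eq_TT c τ (n := t) (by push_cast; ring), sub_zero]
    rfl
  rw [h5, h6] at h2
  linarith

/-! ### The costs -/

variable {F : Fm} {κ : ℝ} {d : Dr} {D s : ℝ}

/-- The zone of the tube. -/
theorem tube_zone {z : V} {n : ℤ} (hz : ∃ e ∈ F.co.slab 0 T ∩ TbE F (wv d s) 0 D, z = e.1 ∨ z = e.1 + dir e.2)
    (h : |(F.co.tm z : ℝ) / F.co.L - n| ≤ 1) : |(F.co.ps z : ℝ) - s * n| < D + |s| := by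
  obtain ⟨e, ⟨-, he1, he2⟩, hz⟩ := hz
  have h1 : |latV F (wv d s) z| < D := by
    have e0 : lat (wv d s) (0 : Pt) = 0 := by
      unfold lat
      simp
    rw [e0, sub_zero] at he1 he2
    rcases hz with hz | hz
    · rw [hz]
      exact he1
    · rw [hz]
      exact he2
  have h2 : latV F (wv d s) z = F.co.ps z - s * ((F.co.tm z : ℝ) / F.co.L) := rfl
  rw [h2] at h1
  have e1 : (F.co.ps z : ℝ) - s * n = (F.co.ps z - s * ((F.co.tm z : ℝ) / F.co.L)) + s * ((F.co.tm z : ℝ) / F.co.L - n) := by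
    ring
  rw [e1]
  refine (abs_add_le _ _).trans_lt (add_lt_add_of_lt_of_le h1 ?_)
  rw [abs_mul]
  exact (mul_le_mul_of_nonneg_left h (abs_nonneg _)).trans (le_of_eq (mul_one _))

theorem tm_low {z : V} {n : ℤ} (h1 : F.co.L * n - F.co.M < F.co.tm z) (h2 : F.co.tm z ≤ F.co.L * n) :
    |(F.co.tm z : ℝ) / F.co.L - n| ≤ 1 := by
  have hL : (0 : ℝ) < F.co.L := by exact_mod_cast (by have := F.co.L_pos; omega : (0 : ℤ) < F.co.L)
  have hLM := F.co.L_eq
  have h3 : (F.co.L : ℝ) * n - F.co.L ≤ F.co.tm z := by exact_mod_cast (by omega : F.co.L * n - F.co.L ≤ F.co.tm z)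
  have h4 : (F.co.tm z : ℝ) ≤ F.co.L * n := by exact_mod_cast h2
  have e1 : (F.co.tm z : ℝ) / F.co.L - n = (F.co.tm z - F.co.L * n) / F.co.L := by field_simp
  rw [e1, abs_div, abs_of_pos hL, div_le_iff₀ hL, abs_le]
  constructor <;> linarith

theorem tm_high {z : V} {n : ℤ} (h1 : F.co.L * n ≤ F.co.tm z) (h2 : F.co.tm z < F.co.L * n + F.co.M) :
    |(F.co.tm z : ℝ) / F.co.L - n| ≤ 1 := by
  have hL : (0 : ℝ) < F.co.L := by exact_mod_cast (by have := F.co.L_pos; omega : (0 : ℤ) < F.co.L)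
  have hLM := F.co.L_eq
  have h3 : (F.co.tm z : ℝ) ≤ F.co.L * n + F.co.L := by exact_mod_cast (by omega : F.co.tm z ≤ F.co.L * n + F.co.L)
  have h4 : (F.co.L * n : ℝ) ≤ F.co.tm z := by exact_mod_cast h1
  have e1 : (F.co.tm z : ℝ) / F.co.L - n = (F.co.tm z - F.co.L * n) / F.co.L := by field_simp
  rw [e1, abs_div, abs_of_pos hL, div_le_iff₀ hL, abs_le]
  constructor <;> linarith

/-- **The record trick, pointwise.** -/
theorem rec_X (F : Fm) (d : Dr) (η : Env) {k : ℕ} {Z : ℤ} (ht : 1 ≤ t) (hp : t + 1 ≤ p) (hne : HasT F (wv d s) D (k * p + t) Z)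
    {sg : ℤ} (hsg : sg = 1 ∨ sg = -1) (xx yy : ℕ → ℤ)
    (h0 : (m14 F.co : ℝ) < sg * xx 0)
    (hlow : ∀ i, i ≤ k → (m14 F.co : ℝ) + D + |s| ≤ sg * (xx i - s * (i * p : ℕ)))
    (hhigh : ∀ i, i ≤ k → (m14 F.co : ℝ) + D + |s| ≤ sg * (s * (i * p + t : ℕ) - yy i)) :
    X F d η 0 t (yy 0) + ∑ j ∈ Finset.range k, X F d η (((j * p : ℕ) : ℤ), xx j) (p + t) (yy (j + 1) - xx j) +
        X F d η (((k * p : ℕ) : ℤ), xx k) t (Z - xx k) ≤
      XT F (wv d s) D η 0 (k * p + t) Z + ∑ j ∈ Finset.range (k + 1), X F d η (((j * p : ℕ) : ℤ), xx j) t (yy j - xx j) := by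
  have hsg2 : ∀ r : ℝ, |(sg : ℝ) * r| = |r| := by
    intro r
    rcases hsg with h | h <;> rw [h] <;> simp
  have eZ : (0 : Pt) + (((k * p + t : ℕ) : ℤ), Z) = (((k * p + t : ℕ) : ℤ), Z) := zero_add _
  have eS : F.co.slab (0 : Pt).1 ((0 : Pt).1 + ((k * p + t : ℕ) : ℤ)) = F.co.slab 0 ((k * p + t : ℕ) : ℤ) := by
    rw [Prod.fst_zero, zero_add]
  have hne' : Nonempty (WK (F.co.slab 0 ((k * p + t : ℕ) : ℤ) ∩ TbE F (wv d s) 0 D) (F.co.vt 0)
      (F.co.vt (((k * p + t : ℕ) : ℤ), Z))) := by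
    have h := hne
    unfold HasT at h
    rwa [zero_add, eZ] at h
  have key := unc_TT (c := F.co) (τ := F.tau η) (F.bd η) F.a0
    (S0 := F.co.slab 0 ((k * p + t : ℕ) : ℤ) ∩ TbE F (wv d s) 0 D) (k := k) inter_subset_left ht hp (Z := Z) hne' hsg xx yy
    (by exact_mod_cast h0) ?_ ?_
  · have e1 : XT F (wv d s) D η 0 (k * p + t) Z = TR (F.co.slab 0 ((k * p + t : ℕ) : ℤ) ∩ TbE F (wv d s) 0 D) (F.tau η) (F.co.vt 0)
        (F.co.vt (((k * p + t : ℕ) : ℤ), Z)) - (al F.co d * (k * p + t : ℕ) + be F.co d * Z) := by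
      unfold XT
      rw [eS, eZ]
      rfl
    rw [e1]
    unfold X
    rw [Finset.sum_sub_distrib, Finset.sum_sub_distrib]
    have e2 : ∑ j ∈ Finset.range k, (al F.co d * ((p + t : ℕ) : ℝ) + be F.co d * ((yy (j + 1) - xx j : ℤ) : ℝ)) =
        k * (al F.co d * ((p + t : ℕ) : ℝ)) + be F.co d * (∑ j ∈ Finset.range k, (yy (j + 1) : ℝ) - ∑ j ∈ Finset.range k, (xx j : ℝ)) := by
      rw [Finset.sum_add_distrib, Finset.sum_const, Finset.card_range, nsmul_eq_mul, ← Finset.mul_sum]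
      push_cast
      rw [Finset.sum_sub_distrib]
    have e3 : ∑ j ∈ Finset.range (k + 1), (al F.co d * ((t : ℕ) : ℝ) + be F.co d * ((yy j - xx j : ℤ) : ℝ)) =
        (k + 1) * (al F.co d * (t : ℝ)) + be F.co d * ((∑ j ∈ Finset.range k, (yy (j + 1) : ℝ) + yy 0) -
          (∑ j ∈ Finset.range k, (xx j : ℝ) + xx k)) := by
      rw [Finset.sum_add_distrib, Finset.sum_const, Finset.card_range, nsmul_eq_mul, ← Finset.mul_sum]
      push_cast
      rw [Finset.sum_sub_distrib, Finset.sum_range_succ' (fun j => (yy j : ℝ)), Finset.sum_range_succ (fun j => (xx j : ℝ))]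
    have e4 : ((k * p + t : ℕ) : ℝ) = k * p + t := by push_cast; ring
    have e5 : ((p + t : ℕ) : ℝ) = p + t := by push_cast; ring
    have e6 : ((Z - xx k : ℤ) : ℝ) = Z - xx k := by push_cast; ring
    rw [e2, e3, e4, e5, e6]
    linarith
  · intro i hi z hz h1 h2
    have h3 := tube_zone hz (tm_low h1 h2)
    have h4 := hlow i hi
    have h5 : (m14 F.co : ℝ) < sg * (xx i - F.co.ps z) := by
      have h6 := le_abs_self ((sg : ℝ) * (F.co.ps z - s * ((i * p : ℕ) : ℤ)))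
      rw [hsg2] at h6
      push_cast at h3 h4 h6 ⊢
      linarith
    exact_mod_cast h5
  · intro i hi z hz h1 h2
    have h3 := tube_zone hz (tm_high h1 h2)
    have h4 := hhigh i hi
    have h5 : (m14 F.co : ℝ) < sg * (F.co.ps z - yy i) := by
      have h6 := neg_abs_le ((sg : ℝ) * (F.co.ps z - s * ((i * p + t : ℕ) : ℤ)))
      rw [hsg2] at h6
      push_cast at h3 h4 h6 ⊢
      linarith
    exact_mod_cast h5

theorem XT_integrable {n : ℕ} {Z : ℤ} (hne : HasT F (wv d s) D n Z) :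
    Integrable (fun η => XT F (wv d s) D η 0 n Z) (law F) := by
  obtain ⟨⟨w, hw⟩⟩ := hne
  refine Integrable.of_bound (Pool.Agent.W_1b8d5d_h57p.XT_meas F (wv d s) D 0 n Z).aestronglyMeasurable
    (F.b * w.length + |al F.co d * n + be F.co d * Z|) (Filter.Eventually.of_forall fun η => ?_)
  rw [Real.norm_eq_abs]
  have e1 : XT F (wv d s) D η 0 n Z = TR (F.co.slab 0 (0 + n) ∩ TbE F (wv d s) 0 D) (F.tau η) (F.co.vt 0)
      (F.co.vt (0 + ((n : ℤ), Z))) - (al F.co d * n + be F.co d * Z) := rfl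
  rw [e1]
  refine (abs_sub _ _).trans (add_le_add ?_ le_rfl)
  rw [abs_of_nonneg (TR_nonneg (F.bd η) F.a0.le _ _ _)]
  exact (TR_le (F.bd η) F.a0.le w hw).trans (Pool.Agent.W_1b8d5d_h85.cost_le (F.bd η) w)

/-- **(REC)**: the record trick, in the mean. -/
theorem recH99 {K : ℝ} {Ds : Set Dr} (hD : Dirs F κ K Ds) : RecH F Ds := by
  intro S0
  have hm0 : (0 : ℝ) ≤ m14 F.co := by exact_mod_cast m14_nonneg F.co
  obtain ⟨C, hC⟩ : ∃ C : ℝ, C = 2 * (|S0| + m14 F.co + 3) := ⟨_, rfl⟩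
  have hS0 := abs_nonneg S0
  refine ⟨C, by rw [hC]; positivity, fun d hd s D σ t p k Z hs hDp hσ ht hp hk hside hne => ?_⟩
  have hadm := hD.adm d hd
  have hs' : |s| ≤ |S0| := hs.trans (le_abs_self _)
  obtain ⟨sg, hsg, hsgσ⟩ : ∃ sg : ℤ, (sg = 1 ∨ sg = -1) ∧ (sg : ℝ) = σ := by
    rcases hσ with h | h
    · exact ⟨1, Or.inl rfl, by rw [h]; simp⟩
    · exact ⟨-1, Or.inr rfl, by rw [h]; simp⟩
  have hσσ : σ * σ = 1 := by
    rcases hσ with h | h <;> rw [h] <;> ring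
  have hσabs : ∀ r : ℝ, |σ * r| = |r| := by
    intro r
    rcases hσ with h | h <;> rw [h] <;> simp
  obtain ⟨xx, hxx⟩ : ∃ xx : ℕ → ℤ, xx = fun i : ℕ => ⌊s * ((i : ℝ) * p) + σ * (D + C / 2)⌋ := ⟨_, rfl⟩
  have hx1 : ∀ i : ℕ, |(xx i : ℝ) - (s * (i * p) + σ * (D + C / 2))| ≤ 1 := by
    intro i
    have k1 := Int.floor_le (s * (i * p) + σ * (D + C / 2))
    have k2 := Int.lt_floor_add_one (s * (i * p) + σ * (D + C / 2))
    rw [hxx]
    rw [abs_le]
    simp only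
    constructor <;> linarith
  have hx2 : ∀ i : ℕ, D + C / 2 - 1 ≤ σ * (xx i - s * (i * p)) := by
    intro i
    have k1 := neg_abs_le (σ * ((xx i : ℝ) - (s * (i * p) + σ * (D + C / 2))))
    rw [hσabs] at k1
    have k2 := hx1 i
    have e1 : σ * ((xx i : ℝ) - (s * (i * p) + σ * (D + C / 2))) = σ * (xx i - s * (i * p)) - σ * σ * (D + C / 2) := by ring
    rw [e1, hσσ, one_mul] at k1
    linarith
  have hx3 : ∀ i : ℕ, σ * (xx i - s * (i * p)) ≤ D + C / 2 + 1 := by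
    intro i
    have k1 := le_abs_self (σ * ((xx i : ℝ) - (s * (i * p) + σ * (D + C / 2))))
    rw [hσabs] at k1
    have k2 := hx1 i
    have e1 : σ * ((xx i : ℝ) - (s * (i * p) + σ * (D + C / 2))) = σ * (xx i - s * (i * p)) - σ * σ * (D + C / 2) := by ring
    rw [e1, hσσ, one_mul] at k1
    linarith
  refine ⟨xx, hx1, ?_⟩
  obtain ⟨r, hr⟩ : ∃ r, r = xs F d t := ⟨_, rfl⟩
  have hX := fun η => rec_X F d η (k := k) (Z := Z) ht hp hne hsg xx (fun i => xx i + r) (by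
      have k1 := hx2 0
      rw [hsgσ]
      push_cast at k1
      rw [zero_mul, mul_zero, sub_zero] at k1
      linarith) (fun i _ => by
      have k1 := hx2 i
      rw [hsgσ]
      push_cast
      linarith) (fun i _ => by
      have k1 := hx3 i
      have k2 := hside
      rw [← hr] at k2
      rw [hsgσ]
      push_cast
      have e1 : σ * (s * (i * p + t) - (xx i + r)) = σ * (s * t - r) - σ * (xx i - s * (i * p)) := by ring
      rw [e1]
      linarith)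
  -- the means
  have hi1 := fun (a : Pt) (n : ℕ) (hn : 1 ≤ n) (y : ℤ) => X_integrable hadm a hn y
  have hpt : 1 ≤ p + t := by omega
  have hsum1 : Integrable (fun η => ∑ j ∈ Finset.range k, X F d η (((j * p : ℕ) : ℤ), xx j) (p + t) (xx (j + 1) + r - xx j)) (law F) :=
    integrable_finsetSum _ fun j _ => hi1 _ _ hpt _
  have hsum2 : Integrable (fun η => ∑ j ∈ Finset.range (k + 1), X F d η (((j * p : ℕ) : ℤ), xx j) t (xx j + r - xx j)) (law F) :=
    integrable_finsetSum _ fun j _ => hi1 _ _ ht _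
  have hI := integral_mono (((hi1 0 t ht (xx 0 + r)).add hsum1).add (hi1 (((k * p : ℕ) : ℤ), xx k) t ht (Z - xx k)))
    ((XT_integrable hne).add hsum2) hX
  have hl : ∫ η, (X F d η 0 t (xx 0 + r) + ∑ j ∈ Finset.range k, X F d η (((j * p : ℕ) : ℤ), xx j) (p + t) (xx (j + 1) + r - xx j) +
      X F d η (((k * p : ℕ) : ℤ), xx k) t (Z - xx k)) ∂(law F) =
      e F d t (xx 0 + r) + ∑ j ∈ Finset.range k, e F d (p + t) (xx (j + 1) + r - xx j) + e F d t (Z - xx k) := by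
    have k1 : Integrable (fun η => X F d η 0 t (xx 0 + r) +
        ∑ j ∈ Finset.range k, X F d η (((j * p : ℕ) : ℤ), xx j) (p + t) (xx (j + 1) + r - xx j)) (law F) :=
      (hi1 0 t ht (xx 0 + r)).add hsum1
    rw [integral_add k1 (hi1 _ t ht _), integral_add (hi1 0 t ht _) hsum1, integral_finsetSum _ fun j _ => hi1 _ _ hpt _]
    simp_rw [e_at]
  have hr2 : ∫ η, (XT F (wv d s) D η 0 (k * p + t) Z +
      ∑ j ∈ Finset.range (k + 1), X F d η (((j * p : ℕ) : ℤ), xx j) t (xx j + r - xx j)) ∂(law F) =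
      ∫ η, XT F (wv d s) D η 0 (k * p + t) Z ∂(law F) + (k + 1) * e F d t r := by
    rw [integral_add (XT_integrable hne) hsum2, integral_finsetSum _ fun j _ => hi1 _ _ ht _]
    have k1 : ∀ j : ℕ, xx j + r - xx j = r := fun j => by ring
    simp_rw [e_at, k1]
    rw [Finset.sum_const, Finset.card_range, nsmul_eq_mul]
    push_cast
    ring
  have hI' : e F d t (xx 0 + r) + ∑ j ∈ Finset.range k, e F d (p + t) (xx (j + 1) + r - xx j) + e F d t (Z - xx k) ≤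
      ∫ η, XT F (wv d s) D η 0 (k * p + t) Z ∂(law F) + (k + 1) * e F d t r := by
    rw [← hl, ← hr2]
    exact hI
  have k1 := xs_le hadm ht (xx 0 + r)
  have k2 := xs_le hadm ht (Z - xx k)
  rw [← hr] at k1 k2 ⊢
  linarith

end

end Pool.Agent.W_1b8d5d_p
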