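import Pool.Agent.W_1b8d5d_p.RecH99
import Pool.Agent.W_1b8d5d_h52p.OctP

/-!
MP_1b8d5d_pr, Track P: the record trick in the form of the octave (predicate `RecP`).
-/

namespace Pool.Agent.W_1b8d5d_p

open MeasureTheory Set
open Pool.Agent.W_1b8d5d_h57p (wv HasT XT)
open Pool.Agent.W_1b8d5d_h52p (RecP)

variable {F : Fm} {κ K : ℝ} {Ds : Set Dr}

/-- The maximum of the bulk is attained. -/
theorem Em_attained (F : Fm) (d : Dr) (n : ℕ) : ∃ m, m ≤ n ∧ Em F d n = e F d m (xs F d m) + Cr F := by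
  obtain ⟨m, hm, h⟩ := Finset.exists_mem_eq_sup' (Finset.nonempty_range_add_one (n := n)) fun m => e F d m (xs F d m)
  refine ⟨m, Nat.lt_succ_iff.1 (Finset.mem_range.1 hm), ?_⟩
  unfold Em
  rw [h]
  ring

/-- **The record trick of the octave.** -/
theorem recP99 (hD : Dirs F κ K Ds) : RecP F Ds := by
  obtain ⟨C, hC, hRec⟩ := recH99 hD (K + 1)
  refine ⟨C, 2, fun d hd ρ hρ => ?_⟩
  have hadm := hD.adm d hd
  by_cases heq : Em F d (2 * ρ) = Em F d ρ
  · exact Or.inl heq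
  obtain ⟨m0, h1, h2⟩ := Em_attained F d (2 * ρ)
  have h3 : ρ < m0 := by
    by_contra hcon
    push Not at hcon
    have k1 := le_Em F d hcon
    have k2 := Em_mono F d (show ρ ≤ 2 * ρ by omega)
    exact heq (le_antisymm (by linarith) k2)
  refine Or.inr ⟨m0, h3, h1, fun sg u D hsg hu hDp hside k Z hk hne => ?_⟩
  obtain ⟨t, ht⟩ : ∃ t, t = (m0 - 1) / 2 := ⟨_, rfl⟩
  rw [← ht] at hside hne ⊢
  have ht1 : 1 ≤ t := by omega
  have htp : t + 1 ≤ m0 - t := by omega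
  have htρ : t ≤ ρ := by omega
  have hs : |d.v + u| ≤ K + 1 := (abs_add_le _ _).trans (add_le_add (hD.slope d hd) hu)
  obtain ⟨xx, -, hsum⟩ := hRec d hd (d.v + u) D sg t (m0 - t) k Z hs hDp hsg ht1 htp hk hside hne
  have e1 : m0 - t + t = m0 := by omega
  rw [e1] at hsum
  have h4 : (k : ℝ) * e F d m0 (xs F d m0) ≤ ∑ i ∈ Finset.range k, e F d m0 (xx (i + 1) + xs F d t - xx i) := by
    have k1 : ∑ i ∈ Finset.range k, e F d m0 (xs F d m0) ≤ ∑ i ∈ Finset.range k, e F d m0 (xx (i + 1) + xs F d t - xx i) :=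
      Finset.sum_le_sum fun i _ => xs_le hadm (by omega) _
    rwa [Finset.sum_const, Finset.card_range, nsmul_eq_mul] at k1
  have h5 := le_Em F d htρ
  have h6 : (1 : ℝ) ≤ k := by exact_mod_cast hk
  have h7 : ((k : ℝ) - 1) * e F d t (xs F d t) ≤ (k - 1) * (Em F d ρ - Cr F) :=
    mul_le_mul_of_nonneg_left (by linarith) (by linarith)
  have h8 : e F d m0 (xs F d m0) = Em F d (2 * ρ) - Cr F := by linarith
  rw [h8] at h4
  linarith

end Pool.Agent.W_1b8d5d_p
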