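import Pool.Agent.W_1b8d5d_p.Rg35

/-!
MP_1b8d5d_pr, Track P2, geometry, final pure statements: a planar norm with the local doubling at all unit vectors has a uniformly
curved and uniformly regular unit ball (`regular35`), and almost every linear form is maximal at a point of exactly quadratic
curvature from below (`typical35`).
-/

set_option autoImplicit false

namespace Pool.Agent.W_1b8d5d_p

open MeasureTheory Set Filter Topology

variable {μ : (Fin 2 → ℝ) → ℝ} {a b C δ : ℝ} {S : (Fin 2 → ℝ) → ((Fin 2 → ℝ) →ₗ[ℝ] ℝ)}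

theorem unit_norm35 (hN : NormP μ a b) (ha : 0 < a) {x : Fin 2 → ℝ} (hx : μ x = 1) : ‖x‖ ≤ 1 / a := by
  rw [le_div_iff₀ ha]
  have := hN.ge_norm35 ha x
  rw [hx] at this
  linarith

theorem crs_le35 (hN : NormP μ a b) (ha : 0 < a) {x : Fin 2 → ℝ} (hx : μ x = 1) (y : Fin 2 → ℝ) :
    |crs x y| ≤ 2 / a * ‖y - x‖ := by
  have hxn := unit_norm35 hN ha hx
  have e1 : crs x y = x 0 * (y - x) 1 - x 1 * (y - x) 0 := by
    unfold crs
    simp only [Pi.sub_apply]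
    ring
  rw [e1]
  refine (abs_sub _ _).trans ?_
  rw [abs_mul, abs_mul]
  have g4 : |x 0| * |(y - x) 1| ≤ 1 / a * ‖y - x‖ :=
    mul_le_mul ((abs_apply_le x 0).trans hxn) (abs_apply_le (y - x) 1) (abs_nonneg _) (by positivity)
  have g5 : |x 1| * |(y - x) 0| ≤ 1 / a * ‖y - x‖ :=
    mul_le_mul ((abs_apply_le x 1).trans hxn) (abs_apply_le (y - x) 0) (abs_nonneg _) (by positivity)
  have e2 : 2 / a * ‖y - x‖ = 1 / a * ‖y - x‖ + 1 / a * ‖y - x‖ := by ring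
  linarith

theorem crs_ge35 (hN : NormP μ a b) (ha : 0 < a) {x y : Fin 2 → ℝ} (hx : μ x = 1) (hy : μ y = 1)
    (h : ‖y - x‖ ≤ 1 / (8 * b)) : ‖y - x‖ ≤ (2 * b / a + 1) * (2 * b) * |crs x y| := by
  have hb := hN.b0_35 ha
  have hxn2 : 1 / (2 * b) ≤ ‖x‖ := by
    rw [div_le_iff₀ (by positivity)]
    have := hN.le_norm35 ha x
    rw [hx] at this
    linarith
  have hdot : 0 ≤ x 0 * y 0 + x 1 * y 1 := by
    have e2 : x 0 * y 0 + x 1 * y 1 = (x 0 ^ 2 + x 1 ^ 2) + (x 0 * (y - x) 0 + x 1 * (y - x) 1) := by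
      simp only [Pi.sub_apply]
      ring
    have g5 : |x 0 * (y - x) 0| ≤ ‖x‖ * ‖y - x‖ := by
      rw [abs_mul]
      exact mul_le_mul (abs_apply_le x 0) (abs_apply_le (y - x) 0) (abs_nonneg _) (norm_nonneg _)
    have g6 : |x 1 * (y - x) 1| ≤ ‖x‖ * ‖y - x‖ := by
      rw [abs_mul]
      exact mul_le_mul (abs_apply_le x 1) (abs_apply_le (y - x) 1) (abs_nonneg _) (norm_nonneg _)
    have g7 : ‖x‖ ^ 2 ≤ x 0 ^ 2 + x 1 ^ 2 := by
      rw [norm2]
      rcases max_cases |x 0| |x 1| with ⟨g, -⟩ | ⟨g, -⟩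
      · rw [g, sq_abs]
        linarith [sq_nonneg (x 1)]
      · rw [g, sq_abs]
        linarith [sq_nonneg (x 0)]
    have g8 : ‖x‖ * ‖y - x‖ ≤ ‖x‖ * (‖x‖ / 2) := by
      refine mul_le_mul_of_nonneg_left ?_ (norm_nonneg _)
      have e3 : 1 / (8 * b) ≤ 1 / (2 * b) / 2 := by
        rw [div_div]
        exact one_div_le_one_div_of_le (by positivity) (by linarith)
      linarith
    have g9 := abs_le.1 g5
    have g10 := abs_le.1 g6
    nlinarith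
  have := norm_le_crs (μ := μ) ha (hN.ge_norm35 ha) (hN.le_norm35 ha) (by positivity) hN.sub hN.hom hx hy hdot
  rwa [norm_sub_rev] at this

theorem ne_zero35 (hN : NormP μ a b) {x : Fin 2 → ℝ} (hx : μ x = 1) : x ≠ 0 := by
  rintro rfl
  have := hN.upp 0
  rw [hx] at this
  simp at this
  linarith

theorem not_ray35 {x y : Fin 2 → ℝ} (hx : x ≠ 0) (h : crs x y ≠ 0) : ¬ SameRay ℝ x y := by
  intro hr
  rcases hr with h0 | h0 | ⟨s, t, hs, ht, e⟩
  · exact hx h0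
  · apply h
    rw [h0]
    unfold crs
    simp
  · apply h
    have h1 := congrFun e 0
    have h2 := congrFun e 1
    simp only [Pi.smul_apply, smul_eq_mul] at h1 h2
    have h3 : t * crs x y = 0 := by
      unfold crs
      linear_combination x 1 * h1 - x 0 * h2
    rcases mul_eq_zero.1 h3 with h4 | h4
    · exact absurd h4 ht.ne'
    · exact h4

/-- The strict convexity, uniformly away from the rays. -/
theorem strict_unif35 (hN : NormP μ a b) (ha : 0 < a) {R c : ℝ} (hc : 0 < c) :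
    ∃ c₀ : ℝ, 0 < c₀ ∧ ∀ x z : Fin 2 → ℝ, μ x = 1 → ‖z - x‖ ≤ R → c ≤ |crs x z| → c₀ ≤ μ x + μ z - μ (x + z) := by
  obtain ⟨T, hT⟩ : ∃ T : Set ((Fin 2 → ℝ) × (Fin 2 → ℝ)), T = {p | μ p.1 = 1 ∧ ‖p.2 - p.1‖ ≤ R ∧ c ≤ |crs p.1 p.2|} := ⟨_, rfl⟩
  have hcc : Continuous fun p : (Fin 2 → ℝ) × (Fin 2 → ℝ) => |crs p.1 p.2| := by
    unfold crs
    fun_prop
  have hTcl : IsClosed T := by
    rw [hT]
    have h1 : IsClosed {p : (Fin 2 → ℝ) × (Fin 2 → ℝ) | μ p.1 = 1} :=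
      isClosed_eq (hN.cont.comp continuous_fst) continuous_const
    have h2 : IsClosed {p : (Fin 2 → ℝ) × (Fin 2 → ℝ) | ‖p.2 - p.1‖ ≤ R} :=
      isClosed_le (continuous_snd.sub continuous_fst).norm continuous_const
    exact h1.inter (h2.inter (isClosed_le continuous_const hcc))
  have hTb : T ⊆ Metric.closedBall (0 : (Fin 2 → ℝ) × (Fin 2 → ℝ)) (1 / a + |R|) := by
    rw [hT]
    rintro ⟨x, z⟩ ⟨hx, hz, -⟩
    simp only at hx hz
    have h1 := unit_norm35 hN ha hx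
    rw [mem_closedBall_zero_iff, Prod.norm_def]
    refine max_le ?_ ?_
    · show ‖x‖ ≤ _
      linarith [abs_nonneg R]
    · show ‖z‖ ≤ _
      have h2 := norm_add_le x (z - x)
      rw [add_sub_cancel] at h2
      linarith [le_abs_self R]
  have hTc : IsCompact T := (isCompact_closedBall _ _).of_isClosed_subset hTcl hTb
  rcases T.eq_empty_or_nonempty with h0 | hne
  · refine ⟨1, one_pos, fun x z hx hz hcr => absurd (show (x, z) ∈ T from ?_) (by rw [h0]; simp)⟩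
    rw [hT]
    exact ⟨hx, hz, hcr⟩
  · have hcont : Continuous fun p : (Fin 2 → ℝ) × (Fin 2 → ℝ) => μ p.1 + μ p.2 - μ (p.1 + p.2) :=
      ((hN.cont.comp continuous_fst).add (hN.cont.comp continuous_snd)).sub
        (hN.cont.comp (continuous_fst.add continuous_snd))
    obtain ⟨p, hp, hmin⟩ := hTc.exists_isMinOn hne hcont.continuousOn
    refine ⟨μ p.1 + μ p.2 - μ (p.1 + p.2), ?_, fun x z hx hz hcr => hmin (show (x, z) ∈ T from ?_)⟩
    · rw [hT] at hp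
      obtain ⟨hp1, -, hp3⟩ := hp
      have h1 : crs p.1 p.2 ≠ 0 := by
        intro h
        rw [h, abs_zero] at hp3
        linarith
      have := hN.strict p.1 p.2 (not_ray35 (ne_zero35 hN hp1) h1)
      linarith
    · rw [hT]
      exact ⟨hx, hz, hcr⟩

/-- **The lower power bound of the defect.** -/
theorem low35 (hN : NormP μ a b) (ha : 0 < a) (hS : SF35 μ C δ S) (hC : 1 ≤ C) (hδ : 0 < δ) :
    ∃ ρ c K : ℝ, 0 < ρ ∧ 0 < c ∧ 0 < K ∧ ∀ x y : Fin 2 → ℝ, μ x = 1 → μ y = 1 → ‖y - x‖ ≤ ρ →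
      c * ‖y - x‖ ^ K ≤ μ y - S x y := by
  have hb := hN.b0_35 ha
  obtain ⟨R, hR⟩ : ∃ R, R = min (δ / 2) (1 / (8 * b)) := ⟨_, rfl⟩
  have hR0 : 0 < R := by rw [hR]; positivity
  have hR1 : 2 * R ≤ δ := by
    have : R ≤ δ / 2 := by rw [hR]; exact min_le_left _ _
    linarith
  have hR3 : R ≤ 1 / (8 * b) := by rw [hR]; exact min_le_right _ _
  have hR2 : R ≤ 1 / (4 * b) := hR3.trans (one_div_le_one_div_of_le (by positivity) (by linarith))
  obtain ⟨D, hD⟩ : ∃ D, D = C ^ 2 + 1 := ⟨_, rfl⟩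
  have hD2 : 2 ≤ D := by rw [hD]; nlinarith
  obtain ⟨Q, hQ⟩ : ∃ Q, Q = (2 * b / a + 1) * (2 * b) := ⟨_, rfl⟩
  have hQ0 : 0 < Q := by rw [hQ]; positivity
  obtain ⟨c₀, hc₀, hst⟩ := strict_unif35 hN ha (R := R) (c := R / 2 / Q) (by positivity)
  obtain ⟨K, hK⟩ : ∃ K, K = Real.logb 2 D := ⟨_, rfl⟩
  have hK0 : 0 < K := by rw [hK]; exact Real.logb_pos one_lt_two (by linarith)
  refine ⟨R, c₀ / R ^ K, K, hR0, by positivity, hK0, fun x y hx hy hxy => ?_⟩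
  have hE := defect_nonneg35 hS hx y
  rcases (norm_nonneg (y - x)).eq_or_lt with h0 | h0
  · rw [← h0, Real.zero_rpow hK0.ne', mul_zero]
    exact hE
  have hcr := crs_ge35 hN ha hx hy (hxy.trans hR3)
  rw [← hQ] at hcr
  obtain ⟨w, hw, hyw⟩ := dir35 h0
  obtain ⟨t, ht⟩ : ∃ t, t = ‖y - x‖ := ⟨_, rfl⟩
  rw [← ht] at h0 hyw hxy hcr ⊢
  have hdb := line35 hN ha hS hC hx hw hR0 hR1 hR2
  rw [← hD] at hdb
  have hF : Fl35 μ S x w t = μ y - S x y := by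
    unfold Fl35
    rw [hyw]
  obtain ⟨k, hk1, hk2⟩ : ∃ k : ℕ, 2 ^ k ≤ R / t ∧ R / t < 2 ^ (k + 1) :=
    exists_nat_pow_near (by rw [le_div_iff₀ h0]; linarith) one_lt_two
  obtain ⟨u, hu⟩ : ∃ u, u = 2 ^ k * t := ⟨_, rfl⟩
  have hu0 : 0 < u := by rw [hu]; positivity
  have huR : u ≤ R := by
    rw [hu]
    rwa [le_div_iff₀ h0] at hk1
  have huR2 : R / 2 ≤ u := by
    rw [div_lt_iff₀ h0, pow_succ] at hk2
    rw [hu]
    linarith
  have h1 := hdb.F_pow hu0 huR k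
  have e1 : u / 2 ^ k = t := by
    rw [hu]
    field_simp
  rw [e1, hF] at h1
  -- the lower bound at the distance `u`
  have hcw : 1 / Q ≤ |crs x w| := by
    have e2 : crs x y = t * crs x w := by rw [← hyw, crs_line35]
    rw [e2, abs_mul, abs_of_pos h0] at hcr
    rw [div_le_iff₀ hQ0]
    have h2 : t * 1 ≤ t * (|crs x w| * Q) := by linarith
    exact le_of_mul_le_mul_left h2 h0
  have h2 : c₀ ≤ Fl35 μ S x w u := by
    have h3 := hst x (x + u • w) hx (by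
      rw [add_sub_cancel_left, norm_smul, Real.norm_eq_abs, abs_of_pos hu0]
      have : u * ‖w‖ ≤ R * 1 := mul_le_mul huR hw (norm_nonneg _) hR0.le
      linarith) (by
      rw [crs_line35, abs_mul, abs_of_pos hu0]
      have : R / 2 * (1 / Q) ≤ u * |crs x w| := mul_le_mul huR2 hcw (by positivity) hu0.le
      calc R / 2 / Q = R / 2 * (1 / Q) := by ring
        _ ≤ _ := this)
    obtain ⟨g1, g2, -⟩ := hS x (by rw [hx]; norm_num)
    have h4 := g1 (x + (x + u • w))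
    rw [map_add, g2] at h4
    unfold Fl35
    linarith
  have h3 : D ^ k ≤ R ^ K / t ^ K := by
    have e3 : D ^ k = ((2 : ℝ) ^ k) ^ K := by
      rw [← Real.rpow_natCast 2 k, ← Real.rpow_mul two_pos.le, mul_comm (k : ℝ), Real.rpow_mul two_pos.le, hK,
        Real.rpow_logb two_pos (by norm_num) (by linarith), Real.rpow_natCast]
    rw [e3, ← Real.div_rpow hR0.le h0.le]
    exact Real.rpow_le_rpow (by positivity) hk1 hK0.le
  have h4 : c₀ ≤ R ^ K / t ^ K * (μ y - S x y) := by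
    calc c₀ ≤ Fl35 μ S x w u := h2
      _ ≤ D ^ k * (μ y - S x y) := h1
      _ ≤ R ^ K / t ^ K * (μ y - S x y) := mul_le_mul_of_nonneg_right h3 hE
  have h5 : 0 < t ^ K := Real.rpow_pos_of_pos h0 K
  have h6 : 0 < R ^ K := Real.rpow_pos_of_pos hR0 K
  rw [div_mul_eq_mul_div, div_le_iff₀ h6]
  rw [div_mul_eq_mul_div, le_div_iff₀ h5] at h4
  linarith

/-- The bounds of the two point function at all distances. -/
theorem curv35 (hN : NormP μ a b) (ha : 0 < a) (hS : SF35 μ C δ S) (hC : 1 ≤ C) (hδ : 0 < δ) :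
    ∃ c K : ℝ, 0 < c ∧ 0 < K ∧ ∀ x y : Fin 2 → ℝ, μ x = 1 → μ y = 1 → c * ‖x - y‖ ^ K ≤ μ x + μ y - μ (x + y) := by
  obtain ⟨ρ, c, K, hρ, hc, hK, h⟩ := low35 hN ha hS hC hδ
  have hpos : ∀ x : Fin 2 → ℝ, x ≠ 0 → 0 < μ x := fun x hx =>
    lt_of_lt_of_le (mul_pos ha (norm_pos_iff.2 hx)) (hN.ge_norm35 ha x)
  obtain ⟨c', hc', h'⟩ := curv_of_local hN.cont hN.hom hN.sub hpos hN.strict (c₀ := c * (a / 2) ^ K) (by positivity) hK hρ
    (fun x hx => ⟨S x, (hS x (by rw [hx]; norm_num)).1, (hS x (by rw [hx]; norm_num)).2.1, fun y hy hyx => by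
      refine le_trans ?_ (h x y hx hy hyx)
      rw [mul_assoc, ← Real.mul_rpow (by positivity) (abs_nonneg _)]
      refine mul_le_mul_of_nonneg_left (Real.rpow_le_rpow (by positivity) ?_ hK.le) hc.le
      have h1 := mul_le_mul_of_nonneg_left (crs_le35 hN ha hx y) (show 0 ≤ a / 2 by positivity)
      have e1 : a / 2 * (2 / a * ‖y - x‖) = ‖y - x‖ := by field_simp
      linarith⟩)
  exact ⟨c', K, hc', hK, h'⟩

theorem two_le35 (hN : NormP μ a b) (ha : 0 < a) {x y : Fin 2 → ℝ} (hx : μ x = 1) (hy : μ y = 1) :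
    μ x + μ y - μ (x + y) ≤ 2 := by
  have := (mul_nonneg ha.le (norm_nonneg (x + y))).trans (hN.ge_norm35 ha (x + y))
  rw [hx, hy]
  linarith

theorem dist_le35 (hN : NormP μ a b) (ha : 0 < a) {x y : Fin 2 → ℝ} (hx : μ x = 1) (hy : μ y = 1) : ‖x - y‖ ≤ 2 / a := by
  have h1 := unit_norm35 hN ha hx
  have h2 := unit_norm35 hN ha hy
  have e : (2 : ℝ) / a = 1 / a + 1 / a := by ring
  rw [e]
  exact (norm_sub_le _ _).trans (by linarith)

/-- The ball around the midpoint. -/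
theorem ball35 (hN : NormP μ a b) (ha : 0 < a) {x y z : Fin 2 → ℝ} (hx : μ x = 1) (hy : μ y = 1) {r : ℝ}
    (h : 4 * b * r ≤ μ x + μ y - μ (x + y)) (hz : ‖z‖ ≤ r) : μ (midpoint ℝ x y + z) ≤ 1 := by
  have hb := hN.b0_35 ha
  have h1 := hN.sub (midpoint ℝ x y) z
  have h2 : μ (midpoint ℝ x y) = 1 / 2 * μ (x + y) := by
    rw [midpoint_eq_smul_add, invOf_eq_inv, hN.hom _ _ (by norm_num)]
    norm_num
  have h3 := hN.le_norm35 ha z
  have h4 : 2 * b * ‖z‖ ≤ 2 * b * r := mul_le_mul_of_nonneg_left hz (by positivity)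
  rw [hx, hy] at h
  linarith

/-- **REGULARITY AND CURVATURE OF THE UNIT BALL, UNIFORMLY.** -/
theorem regular35 (hN : NormP μ a b) (ha : 0 < a)
    (hLD : ∃ C δ : ℝ, 1 ≤ C ∧ 0 < δ ∧ ∀ z, μ z = 1 → LD35 μ C δ z) :
    ∃ ε > 0, ∃ K > 0, ∃ α > 0, ∃ C > 0,
      (∀ x y : Fin 2 → ℝ, μ x = 1 → μ y = 1 →
        ε * ‖x - y‖ ^ (K : ℝ) ≤ μ x + μ y - μ (x + y) ∧ μ x + μ y - μ (x + y) ≤ C * ‖x - y‖ ^ (1 + α : ℝ)) ∧
      (∀ x y y' : Fin 2 → ℝ, μ x = 1 → μ y = 1 → μ y' = 1 → ‖x - y'‖ ≤ 2 * ‖x - y‖ →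
        μ x + μ y' - μ (x + y') ≤ C * (μ x + μ y - μ (x + y))) ∧
      (∀ x y : Fin 2 → ℝ, μ x = 1 → μ y = 1 →
        ∀ z : Fin 2 → ℝ, ‖z‖ ≤ ε * ‖x - y‖ ^ (K : ℝ) → μ (midpoint ℝ x y + z) ≤ 1) := by
  obtain ⟨C₁, δ, hC₁, hδ, hLD⟩ := hLD
  obtain ⟨S, hS⟩ := exists_sf35 hN hδ hLD
  have hδ2 : 0 < δ / 2 := by positivity
  have hb := hN.b0_35 ha
  obtain ⟨c, K, hc, hK, hcurv⟩ := curv35 hN ha hS hC₁ hδ2
  obtain ⟨ρ₁, D₁, α, hρ₁, hD₁, hα, hnear⟩ := near35 hN ha hS hC₁ hδ2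
  obtain ⟨ρ₂, D₂, hρ₂, hD₂, hcmp⟩ := cmp35 hN ha hS hC₁ hδ2
  obtain ⟨ρ, hρ⟩ : ∃ ρ, ρ = min (ρ₁ / 2) ρ₂ := ⟨_, rfl⟩
  have hρ0 : 0 < ρ := by rw [hρ]; positivity
  have hρa : ρ ≤ ρ₁ / 2 := by rw [hρ]; exact min_le_left _ _
  have hρb : ρ ≤ ρ₂ := by rw [hρ]; exact min_le_right _ _
  obtain ⟨CC, hCC⟩ : ∃ CC, CC = D₁ + D₂ * D₁ + 2 / ρ ^ (1 + α) + 2 / (c * ρ ^ K) := ⟨_, rfl⟩
  have hp1 : 0 < D₂ * D₁ := by positivity
  have hp2 : 0 < 2 / ρ ^ (1 + α) := by positivity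
  have hp3 : 0 < 2 / (c * ρ ^ K) := by positivity
  have hnn : ∀ x y : Fin 2 → ℝ, μ x = 1 → μ y = 1 → 0 ≤ μ x + μ y - μ (x + y) := fun x y hx hy => by
    have := hN.sub x y
    linarith
  refine ⟨min c (c / (4 * b)), by positivity, K, hK, α, hα, CC, by rw [hCC]; positivity, fun x y hx hy => ⟨?_, ?_⟩,
    fun x y y' hx hy hy' h => ?_, fun x y hx hy z hz => ?_⟩
  · exact (mul_le_mul_of_nonneg_right (min_le_left _ _) (by positivity)).trans (hcurv x y hx hy)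
  · rcases le_total ‖x - y‖ ρ with h | h
    · have h1 : ‖y - x‖ ≤ ρ₁ := by rw [norm_sub_rev]; linarith
      obtain ⟨-, g2, g3⟩ := hnear x y hx hy h1
      refine (g2.trans g3).trans ?_
      rw [norm_sub_rev y x]
      refine mul_le_mul_of_nonneg_right ?_ (by positivity)
      rw [hCC]
      linarith
    · refine (two_le35 hN ha hx hy).trans ?_
      have h1 : ρ ^ (1 + α) ≤ ‖x - y‖ ^ (1 + α) := Real.rpow_le_rpow hρ0.le h (by positivity)
      calc (2 : ℝ) = 2 / ρ ^ (1 + α) * ρ ^ (1 + α) := by field_simp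
        _ ≤ 2 / ρ ^ (1 + α) * ‖x - y‖ ^ (1 + α) := mul_le_mul_of_nonneg_left h1 hp2.le
        _ ≤ CC * ‖x - y‖ ^ (1 + α) := by
          refine mul_le_mul_of_nonneg_right ?_ (by positivity)
          rw [hCC]
          linarith
  · have h0 := hnn x y hx hy
    rcases le_total ‖x - y‖ ρ with h1 | h1
    · have h2 : ‖y - x‖ ≤ ρ₁ := by rw [norm_sub_rev]; linarith
      have h3 : ‖y' - x‖ ≤ ρ₁ := by rw [norm_sub_rev]; linarith
      obtain ⟨g1, -, -⟩ := hnear x y hx hy h2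
      obtain ⟨-, g2, -⟩ := hnear x y' hx hy' h3
      have g3 := hcmp x y y' hx hy hy' (by rw [norm_sub_rev]; linarith) (by rw [norm_sub_rev y' x, norm_sub_rev y x]; exact h)
      rw [div_le_iff₀ (by linarith)] at g1
      calc μ x + μ y' - μ (x + y') ≤ μ y' - S x y' := g2
        _ ≤ D₂ * (μ y - S x y) := g3
        _ ≤ D₂ * ((μ x + μ y - μ (x + y)) * D₁) := mul_le_mul_of_nonneg_left g1 (by linarith)
        _ = D₂ * D₁ * (μ x + μ y - μ (x + y)) := by ring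
        _ ≤ CC * (μ x + μ y - μ (x + y)) := by
          refine mul_le_mul_of_nonneg_right ?_ h0
          rw [hCC]
          linarith
    · refine (two_le35 hN ha hx hy').trans ?_
      have h2 := hcurv x y hx hy
      have h3 : c * ρ ^ K ≤ c * ‖x - y‖ ^ K := mul_le_mul_of_nonneg_left (Real.rpow_le_rpow hρ0.le h1 hK.le) hc.le
      calc (2 : ℝ) = 2 / (c * ρ ^ K) * (c * ρ ^ K) := by field_simp
        _ ≤ 2 / (c * ρ ^ K) * (μ x + μ y - μ (x + y)) := mul_le_mul_of_nonneg_left (h3.trans h2) hp3.le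
        _ ≤ CC * (μ x + μ y - μ (x + y)) := by
          refine mul_le_mul_of_nonneg_right ?_ h0
          rw [hCC]
          linarith
  · refine ball35 hN ha hx hy (r := c / (4 * b) * ‖x - y‖ ^ K) ?_ (hz.trans (mul_le_mul_of_nonneg_right (min_le_right _ _)
      (by positivity)))
    have e1 : 4 * b * (c / (4 * b) * ‖x - y‖ ^ K) = c * ‖x - y‖ ^ K := by field_simp
    rw [e1]
    exact hcurv x y hx hy

/-- **THE TYPICAL DIRECTION**: for almost every linear form the curvature inequality of the problem, with the exponent two, holds at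
the point of the unit ball where the form is maximal. -/
theorem typical35 (hN : NormP μ a b) (ha : 0 < a)
    (hLD : ∃ C δ : ℝ, 1 ≤ C ∧ 0 < δ ∧ ∀ z, μ z = 1 → LD35 μ C δ z) :
    ∀ᵐ f : Fin 2 → ℝ, ∀ x : Fin 2 → ℝ, μ x = 1 → (∀ y : Fin 2 → ℝ, μ y ≤ 1 → f 0 * y 0 + f 1 * y 1 ≤ f 0 * x 0 + f 1 * x 1) →
      ∃ ε > 0, ∀ y : Fin 2 → ℝ, μ y = 1 →
        ε * ‖x - y‖ ^ (2 : ℝ) ≤ μ x + μ y - μ (x + y) ∧
        ∀ z : Fin 2 → ℝ, ‖z‖ ≤ ε * ‖x - y‖ ^ (2 : ℝ) → μ (midpoint ℝ x y + z) ≤ 1 := by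
  obtain ⟨C₁, δ, hC₁, hδ, hLD⟩ := hLD
  obtain ⟨S, hS⟩ := exists_sf35 hN hδ hLD
  have hδ2 : 0 < δ / 2 := by positivity
  have hb := hN.b0_35 ha
  obtain ⟨c, K, hc, hK, hcurv⟩ := curv35 hN ha hS hC₁ hδ2
  obtain ⟨ρ, D₁, α, hρ0, hD₁, hα, hnear⟩ := near35 hN ha hS hC₁ hδ2
  have hBc : IsCompact {y : Fin 2 → ℝ | μ y ≤ 1} := by
    refine (isCompact_closedBall (0 : Fin 2 → ℝ) (1 / a)).of_isClosed_subset (isClosed_le hN.cont continuous_const) ?_
    intro y hy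
    rw [mem_closedBall_zero_iff, le_div_iff₀ ha]
    have h1 := hN.ge_norm35 ha y
    have h2 : μ y ≤ 1 := hy
    linarith
  have hμ0 : μ 0 = 0 := by
    have := hN.hom 0 0 le_rfl
    simpa using this
  filter_upwards [ae_touch35 hBc] with f hf
  intro x hx hmax
  obtain ⟨c₁, hc₁, h1⟩ := hf x hx.le hmax
  have hx0 := ne_zero35 hN hx
  obtain ⟨m, hm⟩ : ∃ m, m = f 0 * x 0 + f 1 * x 1 := ⟨_, rfl⟩
  have hm0 : 0 < m := by
    have h2 := h1 0 (by show μ 0 ≤ 1; rw [hμ0]; norm_num)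
    rw [zero_sub, norm_neg] at h2
    have h3 : 0 < c₁ * ‖x‖ ^ 2 := by
      have := norm_pos_iff.2 hx0
      positivity
    simp only [Pi.zero_apply, mul_zero, add_zero, sub_zero] at h2
    rw [hm]
    linarith
  rw [← hm] at h1 hmax
  -- the supporting form at `x`
  have hsup : ∀ v : Fin 2 → ℝ, f 0 / m * v 0 + f 1 / m * v 1 ≤ μ v := by
    intro v
    rcases eq_or_ne v 0 with h2 | h2
    · rw [h2, hμ0]
      simp
    have hv : 0 < μ v := lt_of_lt_of_le (mul_pos ha (norm_pos_iff.2 h2)) (hN.ge_norm35 ha v)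
    have h3 := hmax ((μ v)⁻¹ • v) (by rw [hN.hom _ _ (inv_pos.2 hv).le, inv_mul_cancel₀ hv.ne'])
    simp only [Pi.smul_apply, smul_eq_mul] at h3
    have e1 : f 0 / m * v 0 + f 1 / m * v 1 = (f 0 * ((μ v)⁻¹ * v 0) + f 1 * ((μ v)⁻¹ * v 1)) * (μ v / m) := by
      field_simp
    rw [e1]
    calc (f 0 * ((μ v)⁻¹ * v 0) + f 1 * ((μ v)⁻¹ * v 1)) * (μ v / m) ≤ m * (μ v / m) :=
          mul_le_mul_of_nonneg_right h3 (by positivity)
      _ = μ v := by field_simp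
  have htouch : f 0 / m * x 0 + f 1 / m * x 1 = μ x := by
    rw [hx, hm]
    have : f 0 * x 0 + f 1 * x 1 ≠ 0 := by rw [← hm]; exact hm0.ne'
    field_simp
  obtain ⟨s1, s2, -⟩ := hS x (by rw [hx]; norm_num)
  have hSc : ∀ v : Fin 2 → ℝ, S x v = S x ![1, 0] * v 0 + S x ![0, 1] * v 1 := by
    intro v
    have e : v = v 0 • ![(1 : ℝ), 0] + v 1 • ![(0 : ℝ), 1] := by
      funext i
      fin_cases i
      · show v 0 = v 0 * 1 + v 1 * 0
        ring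
      · show v 1 = v 0 * 0 + v 1 * 1
        ring
    conv_lhs => rw [e]
    rw [map_add, map_smul, map_smul, smul_eq_mul, smul_eq_mul]
    ring
  obtain ⟨u1, u2⟩ := form_unique32 hN hx0 (h1 := S x ![1, 0]) (h2 := S x ![0, 1]) (g1 := f 0 / m) (g2 := f 1 / m)
    (fun v => by rw [← hSc]; exact s1 v) (by rw [← hSc]; exact s2) hsup htouch
  have hdef : ∀ y : Fin 2 → ℝ, μ y = 1 → c₁ / m * ‖y - x‖ ^ 2 ≤ μ y - S x y := by
    intro y hy
    have h2 := h1 y hy.le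
    rw [hSc y, u1, u2, hy]
    have e1 : 1 - (f 0 / m * y 0 + f 1 / m * y 1) = (m - (f 0 * y 0 + f 1 * y 1)) / m := by
      field_simp
    rw [e1, div_mul_eq_mul_div]
    exact div_le_div_of_nonneg_right h2 hm0.le
  obtain ⟨e, he⟩ : ∃ e, e = min (c₁ / m / D₁) (c * ρ ^ K / (2 / a) ^ 2) := ⟨_, rfl⟩
  have he0 : 0 < e := by rw [he]; positivity
  have hmain : ∀ y : Fin 2 → ℝ, μ y = 1 → e * ‖x - y‖ ^ 2 ≤ μ x + μ y - μ (x + y) := by
    intro y hy
    rcases le_total ‖x - y‖ ρ with h2 | h2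
    · obtain ⟨g1, -, -⟩ := hnear x y hx hy (by rw [norm_sub_rev]; exact h2)
      have g2 := hdef y hy
      refine le_trans ?_ g1
      rw [norm_sub_rev] at g2
      calc e * ‖x - y‖ ^ 2 ≤ c₁ / m / D₁ * ‖x - y‖ ^ 2 := by
            refine mul_le_mul_of_nonneg_right ?_ (sq_nonneg _)
            rw [he]
            exact min_le_left _ _
        _ = (c₁ / m * ‖x - y‖ ^ 2) / D₁ := by ring
        _ ≤ (μ y - S x y) / D₁ := div_le_div_of_nonneg_right g2 (by linarith)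
    · refine le_trans ?_ (hcurv x y hx hy)
      have h3 : ρ ^ K ≤ ‖x - y‖ ^ K := Real.rpow_le_rpow hρ0.le h2 hK.le
      have h4 : ‖x - y‖ ^ 2 ≤ (2 / a) ^ 2 := pow_le_pow_left₀ (norm_nonneg _) (dist_le35 hN ha hx hy) 2
      calc e * ‖x - y‖ ^ 2 ≤ c * ρ ^ K / (2 / a) ^ 2 * (2 / a) ^ 2 := by
            refine mul_le_mul ?_ h4 (sq_nonneg _) (by positivity)
            rw [he]
            exact min_le_right _ _
        _ = c * ρ ^ K := by field_simp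
        _ ≤ c * ‖x - y‖ ^ K := mul_le_mul_of_nonneg_left h3 hc.le
  refine ⟨min e (e / (4 * b)), by positivity, fun y hy => ⟨?_, fun z hz => ?_⟩⟩
  · rw [Real.rpow_two]
    exact (mul_le_mul_of_nonneg_right (min_le_left _ _) (sq_nonneg _)).trans (hmain y hy)
  · rw [Real.rpow_two] at hz
    refine ball35 hN ha hx hy (r := e / (4 * b) * ‖x - y‖ ^ 2) ?_ (hz.trans (mul_le_mul_of_nonneg_right (min_le_right _ _)
      (sq_nonneg _)))
    have e1 : 4 * b * (e / (4 * b) * ‖x - y‖ ^ 2) = e * ‖x - y‖ ^ 2 := by field_simp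
    rw [e1]
    exact hmain y hy

end Pool.Agent.W_1b8d5d_p
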