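import Pool.Agent.W_1b8d5d_p.Ln35
import Pool.Agent.W_1b8d5d_p.BalCov32

/-!
MP_1b8d5d_pr, Track P2, geometry: the two point function of a norm with the local doubling: power bounds from above, doubling in the
distance, quadratic lower bounds for almost every direction.
-/

set_option autoImplicit false

namespace Pool.Agent.W_1b8d5d_p

open MeasureTheory Set Filter Topology

variable {μ : (Fin 2 → ℝ) → ℝ} {a b C δ : ℝ} {S : (Fin 2 → ℝ) → ((Fin 2 → ℝ) →ₗ[ℝ] ℝ)}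

/-- The direction from `x` to `y`. -/
theorem dir35 {x y : Fin 2 → ℝ} (h : 0 < ‖y - x‖) : ∃ w : Fin 2 → ℝ, ‖w‖ ≤ 1 ∧ x + ‖y - x‖ • w = y := by
  refine ⟨‖y - x‖⁻¹ • (y - x), ?_, ?_⟩
  · rw [norm_smul, norm_inv, norm_norm, inv_mul_cancel₀ h.ne']
  · rw [smul_smul, mul_inv_cancel₀ h.ne', one_smul, add_sub_cancel]

theorem defect_nonneg35 (hS : SF35 μ C δ S) {x : Fin 2 → ℝ} (hx : μ x = 1) (y : Fin 2 → ℝ) : 0 ≤ μ y - S x y := by
  have := (hS x (by rw [hx]; norm_num)).1 y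
  linarith

theorem defect_self35 (hS : SF35 μ C δ S) {x : Fin 2 → ℝ} (hx : μ x = 1) : μ x - S x x = 0 := by
  have := (hS x (by rw [hx]; norm_num)).2.1
  linarith

theorem two_self35 (hN : NormP μ a b) (x : Fin 2 → ℝ) : μ x + μ x - μ (x + x) = 0 := by
  rw [← two_smul ℝ x, hN.hom _ _ two_pos.le]
  ring

/-- **The two point function near the diagonal.** -/
theorem near35 (hN : NormP μ a b) (ha : 0 < a) (hS : SF35 μ C δ S) (hC : 1 ≤ C) (hδ : 0 < δ) :
    ∃ ρ D α : ℝ, 0 < ρ ∧ 1 ≤ D ∧ 0 < α ∧ ∀ x y : Fin 2 → ℝ, μ x = 1 → μ y = 1 → ‖y - x‖ ≤ ρ →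
      (μ y - S x y) / D ≤ μ x + μ y - μ (x + y) ∧ μ x + μ y - μ (x + y) ≤ μ y - S x y ∧
      μ y - S x y ≤ D * ‖y - x‖ ^ (1 + α) := by
  have hb := hN.b0_35 ha
  obtain ⟨R, hR⟩ : ∃ R, R = min (δ / 2) (1 / (4 * b)) := ⟨_, rfl⟩
  have hR0 : 0 < R := by rw [hR]; positivity
  have hR1 : 2 * R ≤ δ := by
    have : R ≤ δ / 2 := by rw [hR]; exact min_le_left _ _
    linarith
  have hR2 : R ≤ 1 / (4 * b) := by rw [hR]; exact min_le_right _ _
  obtain ⟨D, hD⟩ : ∃ D, D = C ^ 2 + 1 := ⟨_, rfl⟩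
  have hD2 : 2 ≤ D := by rw [hD]; nlinarith
  obtain ⟨q, hq⟩ : ∃ q, q = 1 - 2 / D ^ 2 := ⟨_, rfl⟩
  have hD4 : 4 ≤ D ^ 2 := by nlinarith
  have hq1 : q < 1 := by
    have : 0 < 2 / D ^ 2 := by positivity
    rw [hq]
    linarith
  have hq0 : 1 / 2 ≤ q := by
    have : 2 / D ^ 2 ≤ 2 / 4 := div_le_div_of_nonneg_left (by norm_num) (by norm_num) hD4
    rw [hq]
    linarith
  have hq00 : 0 < q := by linarith
  obtain ⟨α, hα⟩ : ∃ α, α = Real.logb 2 q⁻¹ := ⟨_, rfl⟩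
  have hα0 : 0 < α := by
    rw [hα]
    exact Real.logb_pos one_lt_two ((one_lt_inv₀ hq00).2 hq1)
  refine ⟨R, max (D ^ 3) (q⁻¹ * (4 * b) / R ^ α), α, hR0, le_max_of_le_left (one_le_pow₀ (by linarith)), hα0,
    fun x y hx hy hxy => ?_⟩
  rcases (norm_nonneg (y - x)).eq_or_lt with h0 | h0
  · have hxy' : y = x := by
      rw [eq_comm, norm_eq_zero, sub_eq_zero] at h0
      exact h0
    subst hxy'
    have e1 := defect_self35 hS hy
    have e2 := two_self35 hN y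
    rw [e1, e2]
    refine ⟨by simp, le_rfl, ?_⟩
    positivity
  obtain ⟨w, hw, hyw⟩ := dir35 h0
  obtain ⟨t, ht⟩ : ∃ t, t = ‖y - x‖ := ⟨_, rfl⟩
  rw [← ht] at h0 hyw hxy ⊢
  have hdb := line35 hN ha hS hC hx hw hR0 hR1 hR2
  rw [← hD] at hdb
  have hF : Fl35 μ S x w t = μ y - S x y := by
    unfold Fl35
    rw [hyw]
  have htp := two_pt35 hN hS hx t (by rw [hyw]; exact hy)
  rw [hyw] at htp
  have h1 := hdb.tp h0 hxy
  have h2 := hdb.nonneg (t := t / 2) (by rw [abs_of_pos (by positivity)]; linarith)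
  have h3 := hdb.pow_up hD2 t h0 hxy
  rw [← hq, ← hα, hF] at h3
  have hE := defect_nonneg35 hS hx y
  rw [hF] at h1
  have hG : Gl35 S x w R ≤ 4 * b := by
    have hz := half_le35 hN ha hx hw hR2 (t := R) (by rw [abs_of_pos hR0])
    have g1 := (hS _ hz).1 w
    have g2 := (hS x (by rw [hx]; norm_num)).1 (-w)
    rw [map_neg] at g2
    have g3 := hN.le_norm35 ha w
    have g4 := hN.le_norm35 ha (-w)
    rw [norm_neg] at g4
    have g5 : 2 * b * ‖w‖ ≤ 2 * b * 1 := mul_le_mul_of_nonneg_left hw (by positivity)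
    unfold Gl35
    linarith
  refine ⟨?_, ?_, ?_⟩
  · rw [htp]
    rw [hF]
    refine le_trans ?_ h1
    exact div_le_div_of_nonneg_left hE (by positivity) (le_max_left _ _)
  · rw [htp, hF]
    linarith
  · refine h3.trans ?_
    have e1 : t * (q⁻¹ * (t / R) ^ α * Gl35 S x w R) ≤ t * (q⁻¹ * (t / R) ^ α * (4 * b)) :=
      mul_le_mul_of_nonneg_left (mul_le_mul_of_nonneg_left hG (by positivity)) h0.le
    have e2 : t * (q⁻¹ * (t / R) ^ α * (4 * b)) = q⁻¹ * (4 * b) / R ^ α * t ^ (1 + α) := by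
      rw [Real.div_rpow h0.le hR0.le, Real.rpow_add h0, Real.rpow_one]
      field_simp
    rw [e2] at e1
    exact e1.trans (mul_le_mul_of_nonneg_right (le_max_right _ _) (by positivity))

/-- The iterated doubling along a line. -/
theorem Db35.F_pow {F G : ℝ → ℝ} {R D : ℝ} (h : Db35 F G R D) {t : ℝ} (ht0 : 0 < t) (ht : t ≤ R) (k : ℕ) :
    F t ≤ D ^ k * F (t / 2 ^ k) := by
  induction k with
  | zero => simp
  | succ k ih =>
    have h1 : 0 < t / 2 ^ (k + 1) := by positivity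
    have e1 : 2 * (t / 2 ^ (k + 1)) = t / 2 ^ k := by
      rw [pow_succ]
      field_simp
    have h2 := h.F_double (t := t / 2 ^ (k + 1)) (by
      rw [e1, abs_of_pos (by positivity)]
      exact (div_le_self ht0.le (one_le_pow₀ one_le_two)).trans ht)
    rw [e1] at h2
    have hD : 0 ≤ D ^ k := pow_nonneg (by linarith [h.D1]) k
    calc F t ≤ D ^ k * F (t / 2 ^ k) := ih
      _ ≤ D ^ k * (D * F (t / 2 ^ (k + 1))) := mul_le_mul_of_nonneg_left h2 hD
      _ = D ^ (k + 1) * F (t / 2 ^ (k + 1)) := by ring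

/-- **Comparison of the defects of two points at comparable distances.** -/
theorem cmp35 (hN : NormP μ a b) (ha : 0 < a) (hS : SF35 μ C δ S) (hC : 1 ≤ C) (hδ : 0 < δ) :
    ∃ ρ D : ℝ, 0 < ρ ∧ 1 ≤ D ∧ ∀ x y y' : Fin 2 → ℝ, μ x = 1 → μ y = 1 → μ y' = 1 → ‖y - x‖ ≤ ρ →
      ‖y' - x‖ ≤ 2 * ‖y - x‖ → μ y' - S x y' ≤ D * (μ y - S x y) := by
  have hb := hN.b0_35 ha
  obtain ⟨R, hR⟩ : ∃ R, R = min (δ / 2) (1 / (4 * b)) := ⟨_, rfl⟩
  have hR0 : 0 < R := by rw [hR]; positivity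
  have hR1 : 2 * R ≤ δ := by
    have : R ≤ δ / 2 := by rw [hR]; exact min_le_left _ _
    linarith
  have hR2 : R ≤ 1 / (4 * b) := by rw [hR]; exact min_le_right _ _
  obtain ⟨D, hD⟩ : ∃ D, D = C ^ 2 + 1 := ⟨_, rfl⟩
  have hD1 : 1 ≤ D := by rw [hD]; nlinarith
  obtain ⟨Q, hQ⟩ : ∃ Q, Q = 4 / a * ((2 * b / a + 1) * (2 * b)) := ⟨_, rfl⟩
  obtain ⟨k, hk⟩ := pow_unbounded_of_one_lt Q one_lt_two
  have hDk : 1 ≤ D ^ k := one_le_pow₀ hD1
  refine ⟨R / 4, D ^ k * ((1 + D ^ 2) * C), by positivity, ?_, fun x y y' hx hy hy' hxy hyy' => ?_⟩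
  · have : 1 ≤ (1 + D ^ 2) * C := by nlinarith [sq_nonneg D]
    nlinarith
  have hE := defect_nonneg35 hS hx y
  have hD0 : 0 < D := by linarith
  rcases (norm_nonneg (y' - x)).eq_or_lt with h0 | h0
  · have hxy' : y' = x := by
      rw [eq_comm, norm_eq_zero, sub_eq_zero] at h0
      exact h0
    rw [hxy', defect_self35 hS hx]
    positivity
  have hxn : ‖x‖ ≤ 1 / a := by
    rw [le_div_iff₀ ha]
    have := hN.ge_norm35 ha x
    rw [hx] at this
    linarith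
  have hxn2 : 1 / (2 * b) ≤ ‖x‖ := by
    rw [div_le_iff₀ (by positivity)]
    have := hN.le_norm35 ha x
    rw [hx] at this
    linarith
  -- the cross products
  have hc1 : |crs x y'| ≤ 2 / a * ‖y' - x‖ := by
    have e1 : crs x y' = x 0 * (y' - x) 1 - x 1 * (y' - x) 0 := by
      unfold crs
      simp only [Pi.sub_apply]
      ring
    rw [e1]
    refine (abs_sub _ _).trans ?_
    rw [abs_mul, abs_mul]
    have g0 := abs_apply_le x 0
    have g1 := abs_apply_le x 1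
    have g2 := abs_apply_le (y' - x) 0
    have g3 := abs_apply_le (y' - x) 1
    have g4 : |x 0| * |(y' - x) 1| ≤ 1 / a * ‖y' - x‖ := mul_le_mul (g0.trans hxn) g3 (abs_nonneg _) (by positivity)
    have g5 : |x 1| * |(y' - x) 0| ≤ 1 / a * ‖y' - x‖ := mul_le_mul (g1.trans hxn) g2 (abs_nonneg _) (by positivity)
    have e2 : 2 / a * ‖y' - x‖ = 1 / a * ‖y' - x‖ + 1 / a * ‖y' - x‖ := by ring
    linarith
  have hdot : 0 ≤ x 0 * y 0 + x 1 * y 1 := by
    have g2 := abs_apply_le (y - x) 0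
    have g3 := abs_apply_le (y - x) 1
    have g4 : ‖y - x‖ ≤ 1 / (8 * b) := by
      have e1 : 1 / (8 * b) = 1 / (4 * b) / 2 := by field_simp; norm_num
      rw [e1]
      linarith
    have e2 : x 0 * y 0 + x 1 * y 1 = (x 0 ^ 2 + x 1 ^ 2) + (x 0 * (y - x) 0 + x 1 * (y - x) 1) := by
      simp only [Pi.sub_apply]
      ring
    have g5 : |x 0 * (y - x) 0| ≤ ‖x‖ * ‖y - x‖ := by
      rw [abs_mul]
      exact mul_le_mul (abs_apply_le x 0) g2 (abs_nonneg _) (norm_nonneg _)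
    have g6 : |x 1 * (y - x) 1| ≤ ‖x‖ * ‖y - x‖ := by
      rw [abs_mul]
      exact mul_le_mul (abs_apply_le x 1) g3 (abs_nonneg _) (norm_nonneg _)
    have g7 : ‖x‖ ^ 2 ≤ x 0 ^ 2 + x 1 ^ 2 := by
      rw [norm2]
      rcases max_cases |x 0| |x 1| with ⟨g, -⟩ | ⟨g, -⟩
      · rw [g, sq_abs]
        linarith [sq_nonneg (x 1)]
      · rw [g, sq_abs]
        linarith [sq_nonneg (x 0)]
    have g8 : ‖x‖ * ‖y - x‖ ≤ ‖x‖ * (‖x‖ / 2) := by
      refine mul_le_mul_of_nonneg_left ?_ (norm_nonneg _)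
      have e3 : 1 / (8 * b) ≤ 1 / (2 * b) / 2 := by
        rw [div_div]
        exact one_div_le_one_div_of_le (by positivity) (by linarith)
      linarith
    have g9 := abs_le.1 g5
    have g10 := abs_le.1 g6
    nlinarith
  have hc2 : ‖y - x‖ ≤ (2 * b / a + 1) * (2 * b) * |crs x y| := by
    have := norm_le_crs (μ := μ) ha (hN.ge_norm35 ha) (hN.le_norm35 ha) (by positivity) hN.sub hN.hom hx hy hdot
    rwa [norm_sub_rev] at this
  have hc3 : |crs x y'| ≤ 2 ^ k * |crs x y| := by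
    have e1 : 2 / a * ‖y' - x‖ ≤ 2 / a * (2 * ((2 * b / a + 1) * (2 * b) * |crs x y|)) :=
      mul_le_mul_of_nonneg_left (by linarith) (by positivity)
    have e2 : 2 / a * (2 * ((2 * b / a + 1) * (2 * b) * |crs x y|)) = Q * |crs x y| := by
      rw [hQ]
      ring
    rw [e2] at e1
    exact (hc1.trans e1).trans (mul_le_mul_of_nonneg_right hk.le (abs_nonneg _))
  obtain ⟨w, hw, hyw⟩ := dir35 h0
  obtain ⟨t, ht⟩ : ∃ t, t = ‖y' - x‖ := ⟨_, rfl⟩
  rw [← ht] at h0 hyw hyy'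
  have htR : t ≤ R := by linarith
  have hdb := line35 hN ha hS hC hx hw hR0 hR1 hR2
  rw [← hD] at hdb
  have hF : Fl35 μ S x w t = μ y' - S x y' := by
    unfold Fl35
    rw [hyw]
  have h1 := hdb.F_pow h0 htR k
  obtain ⟨τ, hτ⟩ : ∃ τ, τ = t / 2 ^ k := ⟨_, rfl⟩
  have hτ0 : 0 < τ := by rw [hτ]; positivity
  have hτt : τ ≤ t := by rw [hτ]; exact div_le_self h0.le (one_le_pow₀ one_le_two)
  rw [← hτ, hF] at h1
  -- the comparison on the line of `y`
  have hcw : |crs x w| * τ ≤ |crs x y| := by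
    have e1 : crs x y' = t * crs x w := by rw [← hyw, crs_line35]
    rw [e1, abs_mul, abs_of_pos h0] at hc3
    rw [hτ, mul_div_assoc', div_le_iff₀ (by positivity)]
    linarith
  obtain ⟨-, -, hLD⟩ := hS x (by rw [hx]; norm_num)
  have hside : ∀ s : ℝ, |s| = τ → 0 ≤ crs x y * (s * crs x w) → Fl35 μ S x w s ≤ C * (μ y - S x y) := by
    intro s hs hsgn
    refine hLD y (x + s • w) (by linarith) ?_ ?_ ?_
    · rw [add_sub_cancel_left, norm_smul, Real.norm_eq_abs, hs]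
      have : τ * ‖w‖ ≤ R * 1 := mul_le_mul (by linarith) hw (norm_nonneg _) hR0.le
      linarith
    · rw [crs_line35]
      exact hsgn
    · rw [crs_line35, abs_mul, hs]
      linarith [abs_nonneg (crs x y)]
  have h2 : Fl35 μ S x w τ ≤ (1 + D ^ 2) * (C * (μ y - S x y)) := by
    have hCE : 0 ≤ C * (μ y - S x y) := by positivity
    rcases le_total 0 (crs x y * (τ * crs x w)) with g | g
    · have g1 := hside τ (abs_of_pos hτ0) g
      nlinarith [sq_nonneg D]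
    · have g1 := hside (-τ) (by rw [abs_neg, abs_of_pos hτ0]) (by
        rw [show crs x y * (-τ * crs x w) = -(crs x y * (τ * crs x w)) by ring]
        linarith)
      have g2 := hdb.neg.sides hτ0 (by linarith)
      simp only [neg_neg] at g2
      exact g2.trans (mul_le_mul_of_nonneg_left g1 (by positivity))
  calc μ y' - S x y' ≤ D ^ k * Fl35 μ S x w τ := h1
    _ ≤ D ^ k * ((1 + D ^ 2) * (C * (μ y - S x y))) := mul_le_mul_of_nonneg_left h2 (by positivity)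
    _ = D ^ k * ((1 + D ^ 2) * C) * (μ y - S x y) := by ring

end Pool.Agent.W_1b8d5d_p
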