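import Pool.Agent.W_1b8d5d_p.DubD66
import Pool.Agent.W_1b8d5d_p.SlDefs

/-!
MP_1b8d5d_pr, Track P2 (row 653): (SL') in terms of the caps. There are `Q` and `t₀` such that for every direction of the family and
every `0 < t ≤ t₀` the level set `{J ≤ t / Q}` has at least `2 / Q` times the length of the level set `{J ≤ t}`. (helper61)
-/

set_option autoImplicit false

namespace Pool.Agent.W_1b8d5d_p

open MeasureTheory Set
open Pool.Agent.W_1b8d5d_h4p (LawH Sf)
open Pool.Agent.W_1b8d5d_p66 (wd_eq wd_mono)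

/-- The length of a level set is concave in the level. -/
theorem wd_lin61 {J : ℝ → ℝ} (h : Rf J) {s t : ℝ} (hs : 0 < s) (hst : s ≤ t) : s * wd J t ≤ t * wd J s := by
  have h1 : 1 ≤ t / s := (one_le_div hs).2 hst
  have h2 := h.wR_mul hs.le h1
  have h3 := h.wL_mul hs.le h1
  rw [div_mul_cancel₀ _ hs.ne'] at h2 h3
  rw [wd_eq h hs.le, wd_eq h (hs.le.trans hst)]
  have h4 : s * (t / s * wR J s + t / s * wL J s) = t * (wR J s + wL J s) := by field_simp
  have h5 := mul_le_mul_of_nonneg_left (add_le_add h2 h3) hs.le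
  linarith

/-- **(Caps).** -/
def CapP (F : Fm) (A : Set Dr) : Prop :=
  ∃ Q t₀ : ℝ, 1 ≤ Q ∧ 0 < t₀ ∧ ∀ d ∈ A, ∀ t : ℝ, 0 < t → t ≤ t₀ → 2 * wd (J F d) t ≤ Q * wd (J F d) (t / Q)

variable {F : Fm} {κ K a : ℝ} {A : Set Dr}

theorem cap_of_SLP61 (hD : Dirs F κ K A) (hR : Rate F A) (ha : 0 < a) (hSL : SLP' a F A) : CapP F A := by
  obtain ⟨L, x₁, hSL⟩ := hSL
  have hCr := Cr_pos F
  refine ⟨2 ^ (L + 1), a * Cr F / 2 ^ x₁, one_le_pow₀ one_le_two, by positivity, fun d hd t ht htt => ?_⟩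
  have hrf := hD.rf hd
  -- the levels
  obtain ⟨s, hs⟩ : ∃ s : ℕ → ℝ, s = fun x => a * EE F d (2 ^ x) / ((2 ^ x : ℕ) : ℝ) := ⟨_, rfl⟩
  have hs' : ∀ x, s x = a * EE F d (2 ^ x) / 2 ^ x := by
    intro x
    rw [hs]
    push_cast
    rfl
  have hs0 : ∀ x, 0 < s x := fun x => by
    have := EE_pos F d (2 ^ x)
    rw [hs']
    positivity
  have hsv : ∀ x, vA a F d (2 ^ x) = wd (J F d) (s x) := fun x => by
    rw [hD.vA_wd hd ha.le, hs]
  have hslow : ∀ x j, s x ≤ 2 ^ j * s (x + j) := by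
    intro x j
    have h1 : EE F d (2 ^ x) ≤ EE F d (2 ^ (x + j)) := EE_mono F d (Nat.pow_le_pow_right (by norm_num) (by omega))
    rw [hs', hs']
    have e : (2 : ℝ) ^ j * (a * EE F d (2 ^ (x + j)) / 2 ^ (x + j)) = a * EE F d (2 ^ (x + j)) / 2 ^ x := by
      have e2 : (2 : ℝ) ^ (x + j) = 2 ^ x * 2 ^ j := pow_add _ _ _
      rw [e2]
      field_simp
    rw [e]
    exact div_le_div_of_nonneg_right (mul_le_mul_of_nonneg_left h1 ha.le) (by positivity)
  -- the scale of the level `t`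
  have hex : ∃ x, x₁ ≤ x ∧ s x < t := by
    obtain ⟨n0, hn0⟩ := hR (t / (2 * a)) (by positivity)
    refine ⟨max x₁ n0, le_max_left _ _, ?_⟩
    have h1 : n0 ≤ 2 ^ (max x₁ n0) := (Nat.lt_two_pow_self).le.trans (Nat.pow_le_pow_right (by norm_num) (le_max_right _ _))
    have h2 := hn0 d hd _ h1
    push_cast at h2
    rw [hs', div_lt_iff₀ (by positivity)]
    calc a * EE F d (2 ^ max x₁ n0) ≤ a * (t / (2 * a) * 2 ^ max x₁ n0) := mul_le_mul_of_nonneg_left h2 ha.le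
      _ = t * 2 ^ max x₁ n0 / 2 := by
        field_simp
      _ < t * 2 ^ max x₁ n0 := by
        have : 0 < t * 2 ^ max x₁ n0 := by positivity
        linarith
  classical
  obtain ⟨x, hx, hmin⟩ : ∃ x, (x₁ ≤ x ∧ s x < t) ∧ ∀ y, y < x → ¬ (x₁ ≤ y ∧ s y < t) :=
    ⟨Nat.find hex, Nat.find_spec hex, fun y hy => Nat.find_min hex hy⟩
  have hx1 : x₁ < x := by
    rcases hx.1.lt_or_eq with h | h
    · exact h
    · exfalso
      have h1 := hx.2
      rw [← h] at h1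
      have h2 : a * Cr F / 2 ^ x₁ ≤ s x₁ := by
        rw [hs']
        exact div_le_div_of_nonneg_right (mul_le_mul_of_nonneg_left (Cr_le_EE F d _) ha.le) (by positivity)
      linarith
  obtain ⟨y, rfl⟩ : ∃ y, x = y + 1 := ⟨x - 1, by omega⟩
  have hy : t ≤ s y := by
    have h1 := hmin y (by omega)
    rw [not_and, not_lt] at h1
    exact h1 (by omega)
  -- (SL') at the scale `y + 1`
  have h4 := hSL d hd (y + 1) hx1.le
  have hv1 := hD.vA_pos hd ha (n := 2 ^ (y + 1)) Nat.one_le_two_pow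
  have hv2 := hD.vA_pos hd ha (n := 2 ^ (y + 1 + L)) Nat.one_le_two_pow
  have hE1 := EE_pos F d (2 ^ (y + 1))
  have hE2 := EE_pos F d (2 ^ (y + 1 + L))
  have h5 : 2 * (2 ^ (y + 1) * vA a F d (2 ^ (y + 1)) / EE F d (2 ^ (y + 1))) ≤
      2 ^ (y + 1 + L) * vA a F d (2 ^ (y + 1 + L)) / EE F d (2 ^ (y + 1 + L)) := by
    have key : ∀ z : ℕ, 0 < vA a F d (2 ^ z) → 0 < EE F d (2 ^ z) →
        Real.logb 2 (2 ^ z * vA a F d (2 ^ z) / EE F d (2 ^ z)) = sA a F d z := by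
      intro z hz1 hz2
      unfold sA ff gg
      rw [Real.logb_div (by positivity) (by positivity), Real.logb_mul (by positivity) (by positivity),
        Real.logb_pow, Real.logb_self_eq_one one_lt_two]
      ring
    have h6 : Real.logb 2 (2 * (2 ^ (y + 1) * vA a F d (2 ^ (y + 1)) / EE F d (2 ^ (y + 1)))) ≤
        Real.logb 2 (2 ^ (y + 1 + L) * vA a F d (2 ^ (y + 1 + L)) / EE F d (2 ^ (y + 1 + L))) := by
      rw [Real.logb_mul two_ne_zero (by positivity), Real.logb_self_eq_one one_lt_two, key _ hv1 hE1, key _ hv2 hE2]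
      linarith
    exact (Real.logb_le_logb one_lt_two (by positivity) (by positivity)).1 h6
  -- in terms of the levels
  have h7 : 2 * (vA a F d (2 ^ (y + 1)) / s (y + 1)) ≤ vA a F d (2 ^ (y + 1 + L)) / s (y + 1 + L) := by
    have e : ∀ z : ℕ, vA a F d (2 ^ z) / s z = (2 ^ z * vA a F d (2 ^ z) / EE F d (2 ^ z)) / a := by
      intro z
      have := EE_pos F d (2 ^ z)
      rw [hs']
      field_simp
    rw [e, e, ← mul_div_assoc]
    exact div_le_div_of_nonneg_right h5 ha.le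
  -- `wd t / t ≤ wd (s (y + 1)) / s (y + 1)` and `wd (s (y + 1 + L)) / s (y + 1 + L) ≤ wd (t / Q) / (t / Q)`
  have h8 := wd_lin61 hrf (hs0 (y + 1)) hx.2.le
  have h9 : t / 2 ^ (L + 1) ≤ s (y + 1 + L) := by
    have h2 := hslow y (L + 1)
    have e : y + (L + 1) = y + 1 + L := by ring
    rw [e] at h2
    rw [div_le_iff₀ (by positivity), mul_comm]
    exact hy.trans h2
  have h10 := wd_lin61 hrf (s := t / 2 ^ (L + 1)) (by positivity) h9
  rw [← hsv] at h8 h10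
  have hs1 := hs0 (y + 1)
  have hs2 := hs0 (y + 1 + L)
  rw [mul_div_assoc'] at h7
  rw [div_le_div_iff₀ hs1 hs2] at h7
  -- combine
  have hw0 : 0 ≤ wd (J F d) (t / 2 ^ (L + 1)) := wd_nonneg _
  have h11 : wd (J F d) t / t ≤ vA a F d (2 ^ (y + 1)) / s (y + 1) := by
    rw [div_le_div_iff₀ ht hs1]
    linarith
  have h12 : vA a F d (2 ^ (y + 1 + L)) / s (y + 1 + L) ≤ wd (J F d) (t / 2 ^ (L + 1)) / (t / 2 ^ (L + 1)) := by
    rw [div_le_div_iff₀ hs2 (by positivity)]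
    linarith
  have h13 : 2 * (vA a F d (2 ^ (y + 1)) / s (y + 1)) ≤ vA a F d (2 ^ (y + 1 + L)) / s (y + 1 + L) := by
    rw [mul_div_assoc', div_le_div_iff₀ hs1 hs2]
    exact h7
  have h14 : 2 * (wd (J F d) t / t) ≤ wd (J F d) (t / 2 ^ (L + 1)) / (t / 2 ^ (L + 1)) := by linarith
  have h15 : wd (J F d) (t / 2 ^ (L + 1)) / (t / 2 ^ (L + 1)) = 2 ^ (L + 1) * wd (J F d) (t / 2 ^ (L + 1)) / t := by
    field_simp
  rw [h15, mul_div_assoc', div_le_div_iff_of_pos_right ht] at h14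
  exact h14

end Pool.Agent.W_1b8d5d_p
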