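import Pool.Agent.W_1b8d5d_p.SlDblA61

/-!
MP_1b8d5d_pr, Track P2 (row 653): **THE DOUBLING**. From (Caps) for a set `A` of directions: the one-sided doubling of the rate
functions `J F d` and the comparability of their two sides, for the directions `d` all of whose neighbours are in `A`. (helper61)
-/

set_option autoImplicit false

namespace Pool.Agent.W_1b8d5d_p

open MeasureTheory Set
open Pool.Agent.W_1b8d5d_h4p (LawH Sf)
open Pool.Agent.W_1b8d5d_p66 (wd_eq wd_mono)

variable {m g : ℝ → ℝ}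

/-- The widths of the reflected function. -/
theorem wd_neg61 {J : ℝ → ℝ} (h : Rf J) {t : ℝ} (ht : 0 ≤ t) : wd (fun x => J (-x)) t = wd J t := by
  rw [wd_eq h ht, wd_eq h.neg ht, add_comm]
  congr 1
  unfold wL
  congr 1
  funext x
  simp only [neg_neg]

/-- The reflection. -/
theorem Jb_neg61 (m g : ℝ → ℝ) (p x : ℝ) : Jb (fun y => m (-y)) (fun y => -g (-y)) p x = Jb m g (-p) (-x) := by
  unfold Jb
  simp only
  have e : -(p + x) = -p + -x := by ring
  rw [e]
  ring

/-- **DOUBLING ON BOTH SIDES, for the masses**, near a point. -/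
theorem dbl_both61 {Q t₀ δ G : ℝ} (hQ : 1 ≤ Q) (ht₀ : 0 < t₀) (hδ : 0 < δ) (hG : 0 ≤ G) :
    ∃ C δ' : ℝ, 1 ≤ C ∧ 0 < δ' ∧ δ' ≤ δ ∧ ∀ (m g : ℝ → ℝ) (x : ℝ),
      (∀ p, |p - x| ≤ δ → ∀ y, m p + g p * (y - p) ≤ m y) → ContinuousOn g (Icc (x - δ) (x + δ)) →
      (∀ p, |p - x| ≤ δ → Rf (Jb m g p)) →
      (∀ p, |p - x| ≤ δ → ∀ t, 0 < t → t ≤ t₀ → 2 * wd (Jb m g p) t ≤ Q * wd (Jb m g p) (t / Q)) →
      g (x + δ) - g (x - δ) ≤ G → ∀ r, 0 < r → r ≤ δ' → g (x + 2 * r) - g x ≤ C * (g (x + r) - g x) ∧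
        g x - g (x - 2 * r) ≤ C * (g x - g (x - r)) := by
  obtain ⟨C, δ', hC, hδ', hδδ, h⟩ := dbl_right61 hQ ht₀ hδ hG
  refine ⟨C, δ', hC, hδ', hδδ, fun m g x hm hg hrf hcap hGb r hr hrδ => ?_⟩
  have ab : ∀ p, x ≤ p → p ≤ x + δ → |p - x| ≤ δ := fun p h1 h2 => abs_le.2 ⟨by linarith, by linarith⟩
  have ab' : ∀ p, -x ≤ p → p ≤ -x + δ → |-p - x| ≤ δ := fun p h1 h2 => abs_le.2 ⟨by linarith, by linarith⟩
  have m0 := hm x (by simpa using hδ.le)
  have m1 := hm (x + δ) (by rw [add_sub_cancel_left, abs_of_pos hδ])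
  have m2 := hm (x - δ) (by rw [sub_sub_cancel_left, abs_neg, abs_of_pos hδ])
  have g1 := g_mono61 m0 m1 (by linarith)
  have g2 := g_mono61 m2 m0 (by linarith)
  constructor
  · exact h m g x (fun p h1 h2 => hm p (ab p h1 h2)) (hg.mono (Icc_subset_Icc (by linarith) le_rfl))
      (fun p h1 h2 => hrf p (ab p h1 h2)) (fun p h1 h2 => hcap p (ab p h1 h2)) (by linarith) r hr hrδ
  · have h3 := h (fun y => m (-y)) (fun y => -g (-y)) (-x)
      (fun p h1 h2 y => by
        have := hm (-p) (ab' p h1 h2) (-y)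
        have e : -g (-p) * (y - p) = g (-p) * (-y - -p) := by ring
        rw [e]
        exact this)
      (by
        refine ContinuousOn.neg (hg.comp continuousOn_neg fun y hy => ?_)
        rw [mem_Icc] at hy ⊢
        constructor <;> linarith [hy.1, hy.2])
      (fun p h1 h2 => by
        have e : Jb (fun y => m (-y)) (fun y => -g (-y)) p = fun x => Jb m g (-p) (-x) := by
          funext z
          exact Jb_neg61 m g p z
        rw [e]
        exact (hrf (-p) (ab' p h1 h2)).neg)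
      (fun p h1 h2 t ht1 ht2 => by
        have e : Jb (fun y => m (-y)) (fun y => -g (-y)) p = fun x => Jb m g (-p) (-x) := by
          funext z
          exact Jb_neg61 m g p z
        have hr' := hrf (-p) (ab' p h1 h2)
        rw [e, wd_neg61 hr' ht1.le, wd_neg61 hr' (by positivity)]
        exact hcap (-p) (ab' p h1 h2) t ht1 ht2)
      (by
        simp only [neg_neg, neg_add]
        have e : x + -δ = x - δ := by ring
        rw [e]
        linarith) r hr hrδ
    simp only [neg_neg, neg_add] at h3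
    have e1 : x + -(2 * r) = x - 2 * r := by ring
    have e2 : x + -r = x - r := by ring
    rw [e1, e2] at h3
    linarith

/-- The excess from the masses: lower bound on the right. -/
theorem Jb_ge_half61 {p r : ℝ} (hp : ∀ y, m p + g p * (y - p) ≤ m y)
    (hc : ∀ y, m (p + r / 2) + g (p + r / 2) * (y - (p + r / 2)) ≤ m y) :
    r / 2 * (g (p + r / 2) - g p) ≤ Jb m g p r := by
  have h1 := Jb_ge_right (u := r) hp hc
  have e : (g (p + r / 2) - g p) * (p + r - (p + r / 2)) = r / 2 * (g (p + r / 2) - g p) := by ring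
  linarith

variable {F : Fm} {κ K a : ℝ} {A : Set Dr}

/-- The directions all of whose neighbours are in `A`. -/
def Inn61 (A : Set Dr) (δ : ℝ) : Set Dr := {d | d ∈ A ∧ ∀ x : ℝ, |x| ≤ δ → ∃ d' ∈ A, d'.v = d.v + x}

/-- **THE DOUBLING OF THE RATE FUNCTIONS AND THE COMPARABILITY OF THEIR TWO SIDES.** -/
theorem dbl61 (hD : Dirs F κ K A) (hcap : CapP F A) {δ₀ : ℝ} (hδ₀ : 0 < δ₀) :
    ∃ C δ : ℝ, 1 ≤ C ∧ 0 < δ ∧ ∀ d ∈ Inn61 A δ₀, ∀ x : ℝ, |x| ≤ δ →
      J F d (2 * x) ≤ C * J F d x ∧ J F d (-x) ≤ C * J F d x := by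
  obtain ⟨Q, t₀, hQ, ht₀, hcap⟩ := hcap
  obtain ⟨G, hG⟩ : ∃ G : ℝ, G = 2 * ((F.a) * F.co.M) := ⟨_, rfl⟩
  have hM : (1 : ℝ) ≤ F.co.M := by exact_mod_cast F.co.M_pos
  have hG0 : 0 ≤ G := by
    rw [hG]
    have := F.a0
    positivity
  obtain ⟨C, δ', hC, hδ', hδδ, hdbl⟩ := dbl_both61 (δ := δ₀ / 2) hQ ht₀ (by positivity) hG0
  refine ⟨4 * C ^ 2, min δ' (δ₀ / 2), by nlinarith, lt_min hδ' (by positivity), fun d hd => ?_⟩
  obtain ⟨hdA, hnb⟩ := hd
  -- the selection of the directions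
  have hsel : ∀ p : ℝ, ∃ d' : Dr, |p - d.v| ≤ δ₀ → d' ∈ A ∧ d'.v = p ∧ (p = d.v → d' = d) := by
    intro p
    by_cases hp : |p - d.v| ≤ δ₀
    · by_cases hpd : p = d.v
      · exact ⟨d, fun _ => ⟨hdA, hpd.symm, fun _ => rfl⟩⟩
      · obtain ⟨d', h1, h2⟩ := hnb (p - d.v) hp
        exact ⟨d', fun _ => ⟨h1, by rw [h2]; ring, fun h => absurd h hpd⟩⟩
    · exact ⟨d, fun h => absurd h hp⟩
  choose D hDs using hsel
  obtain ⟨g, hg⟩ : ∃ g : ℝ → ℝ, g = fun p => be F.co (D p) := ⟨_, rfl⟩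
  have hJb : ∀ p, |p - d.v| ≤ δ₀ → J F (D p) = Jb (mu_ F) g p := by
    intro p hp
    obtain ⟨h1, h2, -⟩ := hDs p hp
    have ht := (hD.touch _ h1).zero
    funext x
    unfold J at ht ⊢
    unfold Jb
    rw [h2] at ht ⊢
    rw [hg]
    simp only
    rw [add_zero] at ht
    linarith
  have hm : ∀ p, |p - d.v| ≤ δ₀ → ∀ y, mu_ F p + g p * (y - p) ≤ mu_ F y := by
    intro p hp y
    obtain ⟨h1, h2, -⟩ := hDs p hp
    have h3 := (hD.touch _ h1).nn (y - p)
    rw [hJb p hp] at h3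
    unfold Jb at h3
    rw [add_sub_cancel] at h3
    linarith
  have hgd : g d.v = be F.co d := by
    rw [hg]
    simp only
    rw [(hDs d.v (by simpa using hδ₀.le)).2.2 rfl]
  have hJd : J F d = Jb (mu_ F) g d.v := by
    have h1 := hJb d.v (by simpa using hδ₀.le)
    rwa [(hDs d.v (by simpa using hδ₀.le)).2.2 rfl] at h1
  -- continuity of `g`
  have hmono : ∀ p q, |p - d.v| ≤ δ₀ → |q - d.v| ≤ δ₀ → p ≤ q → g p ≤ g q := fun p q hp hq h =>
    g_mono61 (hm p hp) (hm q hq) h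
  have hcont : ContinuousOn g (Icc (d.v - δ₀) (d.v + δ₀)) := by
    intro p hp
    have hp' : |p - d.v| ≤ δ₀ := abs_le.2 ⟨by linarith [hp.1], by linarith [hp.2]⟩
    rw [Metric.continuousWithinAt_iff]
    intro ε hε
    obtain ⟨ρ, hρ, hnc⟩ := hD.nc (ε / 4) (by positivity)
    have key : ∀ s t, |s - d.v| ≤ δ₀ → |t - d.v| ≤ δ₀ → s ≤ t → 2 * (t - s) ≤ ρ → g t - g s ≤ ε / 2 := by
      intro s t hs ht hst hr
      rcases hst.eq_or_lt with rfl | hst
      · rw [sub_self]
        positivity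
      have h1 := Jb_ge_right (u := 2 * (t - s)) (hm s hs) (hm t ht)
      have h2 := hnc _ (hDs s hs).1 (2 * (t - s)) (by rw [abs_of_pos (by linarith)]; exact hr)
      rw [hJb s hs, abs_of_pos (by linarith)] at h2
      have e : (g t - g s) * (s + 2 * (t - s) - t) = (g t - g s) * (t - s) := by ring
      rw [e] at h1
      have h3 : (g t - g s) * (t - s) ≤ ε / 2 * (t - s) := by linarith
      exact le_of_mul_le_mul_right h3 (by linarith)
    refine ⟨ρ / 2, by positivity, fun q hq hqp => ?_⟩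
    have hq' : |q - d.v| ≤ δ₀ := abs_le.2 ⟨by linarith [hq.1], by linarith [hq.2]⟩
    rw [Real.dist_eq] at hqp ⊢
    have h4 := abs_lt.1 hqp
    rw [abs_lt]
    rcases le_total p q with h | h
    · have h5 := key p q hp' hq' h (by linarith)
      have h6 := hmono p q hp' hq' h
      constructor <;> linarith
    · have h5 := key q p hq' hp' h (by linarith)
      have h6 := hmono q p hq' hp' h
      constructor <;> linarith
  have hbe : ∀ p, |p - d.v| ≤ δ₀ → |g p| ≤ F.a * F.co.M := by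
    intro p hp
    have h1 := (hD.adm _ (hDs p hp).1).loop
    have h2 := (hD.adm _ (hDs p hp).1).κ0
    rw [hg]
    refine h1.trans (mul_le_mul_of_nonneg_right (by linarith) (by linarith))
  -- doubling of the masses at the points near `d.v`
  have hd2 : ∀ x, |x - d.v| ≤ δ₀ / 2 → ∀ r, 0 < r → r ≤ δ' → g (x + 2 * r) - g x ≤ C * (g (x + r) - g x) ∧
      g x - g (x - 2 * r) ≤ C * (g x - g (x - r)) := by
    intro x hx
    have hx2 := abs_le.1 hx
    have hnear : ∀ p, |p - x| ≤ δ₀ / 2 → |p - d.v| ≤ δ₀ := fun p hp => by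
      have hp2 := abs_le.1 hp
      exact abs_le.2 ⟨by linarith [hx2.1, hp2.1], by linarith [hx2.2, hp2.2]⟩
    refine hdbl (mu_ F) g x (fun p hp => hm p (hnear p hp)) (hcont.mono (Icc_subset_Icc (by linarith) (by linarith)))
      (fun p hp => ?_) (fun p hp t ht1 ht2 => ?_) ?_
    · rw [← hJb p (hnear p hp)]
      exact hD.rf (hDs p (hnear p hp)).1
    · rw [← hJb p (hnear p hp)]
      exact hcap _ (hDs p (hnear p hp)).1 t ht1 ht2
    · have h1 := abs_le.1 (hbe (x + δ₀ / 2) (hnear _ (by rw [add_sub_cancel_left, abs_of_pos (by positivity)])))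
      have h2 := abs_le.1 (hbe (x - δ₀ / 2) (hnear _ (by rw [sub_sub_cancel_left, abs_neg, abs_of_pos (by positivity)])))
      rw [hG]
      linarith [h1.2, h2.1]
  -- the statement for one sign, for a function and its reflection
  have pos : ∀ (m g : ℝ → ℝ) (v : ℝ), (∀ p, |p - v| ≤ δ₀ → ∀ y, m p + g p * (y - p) ≤ m y) →
      (∀ x, |x - v| ≤ δ₀ / 2 → ∀ r, 0 < r → r ≤ δ' → g (x + 2 * r) - g x ≤ C * (g (x + r) - g x) ∧
        g x - g (x - 2 * r) ≤ C * (g x - g (x - r))) → ∀ r, 0 < r → r ≤ min δ' (δ₀ / 2) →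
      Jb m g v (2 * r) ≤ 4 * C ^ 2 * Jb m g v r ∧ Jb m g v (-r) ≤ 4 * C ^ 2 * Jb m g v r := by
    intro m g v hm hd2 r hr hrδ
    have r1 : r ≤ δ' := hrδ.trans (min_le_left _ _)
    have r2 : r ≤ δ₀ / 2 := hrδ.trans (min_le_right _ _)
    have m0 := hm v (by simpa using hδ₀.le)
    have mh := hm (v + r / 2) (by rw [add_sub_cancel_left, abs_of_pos (by positivity)]; linarith)
    have m1 := hm (v + r) (by rw [add_sub_cancel_left, abs_of_pos hr]; linarith)
    have m2 := hm (v + 2 * r) (by rw [add_sub_cancel_left, abs_of_pos (by positivity)]; linarith)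
    have mn := hm (v + -r) (by rw [add_sub_cancel_left, abs_neg, abs_of_pos hr]; linarith)
    have a1 := (hd2 v (by simpa using (half_pos hδ₀).le) r hr r1).1
    have a2 := (hd2 v (by simpa using (half_pos hδ₀).le) (r / 2) (by positivity) (by linarith)).1
    have a3 := (hd2 (v + r) (by rw [add_sub_cancel_left, abs_of_pos hr]; exact r2) r hr r1).2
    have e1 : 2 * (r / 2) = r := by ring
    have e2 : v + r - r = v := by ring
    have e3 : v + r - 2 * r = v + -r := by ring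
    rw [e1] at a2
    rw [e2, e3] at a3
    have hlow := Jb_ge_half61 m0 mh
    obtain ⟨N, hN⟩ : ∃ N : ℝ, N = g (v + r / 2) - g v := ⟨_, rfl⟩
    rw [← hN] at a2 hlow
    have hN0 : 0 ≤ N := by
      have := g_mono61 m0 mh (by linarith)
      linarith
    have b1 : g (v + r) - g v ≤ C * N := a2
    have b2 : C * (g (v + r) - g v) ≤ C * (C * N) := mul_le_mul_of_nonneg_left b1 (by linarith)
    have hC2 : 4 * C ^ 2 * (r / 2 * N) ≤ 4 * C ^ 2 * Jb m g v r := mul_le_mul_of_nonneg_left hlow (by positivity)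
    constructor
    · have u1 := Jb_le (p := v) (u := 2 * r) m2
      have u2 : (g (v + 2 * r) - g v) * (2 * r) ≤ C * (C * N) * (2 * r) :=
        mul_le_mul_of_nonneg_right (a1.trans b2) (by positivity)
      have e : C * (C * N) * (2 * r) = 4 * C ^ 2 * (r / 2 * N) := by ring
      linarith
    · have u1 := Jb_le (p := v) (u := -r) mn
      have gv := g_mono61 m0 m1 (by linarith)
      have u2 : (g (v + -r) - g v) * -r = (g v - g (v + -r)) * r := by ring
      have u3 : (g v - g (v + -r)) * r ≤ C * (C * N) * r := mul_le_mul_of_nonneg_right (by linarith) hr.le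
      have u4 : C * (C * N) * r ≤ 4 * C ^ 2 * (r / 2 * N) := by
        have : 0 ≤ C * (C * N) * r := by positivity
        have e : 4 * C ^ 2 * (r / 2 * N) = 2 * (C * (C * N) * r) := by ring
        linarith
      linarith
  intro x hx
  have hxd := abs_le.1 hx
  rcases lt_trichotomy x 0 with hx0 | rfl | hx0
  · -- the reflection
    have h1 := pos (fun y => mu_ F (-y)) (fun y => -g (-y)) (-d.v)
      (fun p hp y => by
        have hp' : |-p - d.v| ≤ δ₀ := by
          rw [← abs_neg]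
          have e : -(-p - d.v) = p - -d.v := by ring
          rw [e]
          exact hp
        have := hm (-p) hp' (-y)
        have e : -g (-p) * (y - p) = g (-p) * (-y - -p) := by ring
        rw [e]
        exact this)
      (fun y hy r hr hrδ => by
        have hy' : |-y - d.v| ≤ δ₀ / 2 := by
          rw [← abs_neg]
          have e : -(-y - d.v) = y - -d.v := by ring
          rw [e]
          exact hy
        have h2 := hd2 (-y) hy' r hr hrδ
        have e1 : -(y + 2 * r) = -y - 2 * r := by ring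
        have e2 : -(y + r) = -y - r := by ring
        have e3 : -(y - 2 * r) = -y + 2 * r := by ring
        have e4 : -(y - r) = -y + r := by ring
        rw [e1, e2, e3, e4]
        constructor <;> linarith [h2.1, h2.2]) (-x) (by linarith) (by linarith [hxd.1])
    rw [Jb_neg61, Jb_neg61, Jb_neg61, neg_neg, neg_neg, ← hJd] at h1
    have e1 : -(2 * -x) = 2 * x := by ring
    rw [e1] at h1
    exact h1
  · rw [mul_zero, neg_zero]
    have h1 := (hD.touch d hdA).zero
    rw [h1]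
    constructor <;> linarith
  · rw [hJd]
    exact pos (mu_ F) g d.v hm hd2 x hx0 (by linarith [hxd.2])

/-- **THE DOUBLING from (SL')**. -/
theorem dbl_of_SLP61 (hD : Dirs F κ K A) (hR : Rate F A) (ha : 0 < a) (hSL : SLP' a F A) {δ₀ : ℝ} (hδ₀ : 0 < δ₀) :
    ∃ C δ : ℝ, 1 ≤ C ∧ 0 < δ ∧ ∀ d ∈ Inn61 A δ₀, ∀ x : ℝ, |x| ≤ δ →
      J F d (2 * x) ≤ C * J F d x ∧ J F d (-x) ≤ C * J F d x :=
  dbl61 hD (cap_of_SLP61 hD hR ha hSL) hδ₀

theorem dblP61 (hD : Dirs F κ K A) (hR : Rate F A) (ha : 0 < a) (hSL : SLP' a F A) {δ₀ : ℝ} (hδ₀ : 0 < δ₀) :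
    DblP F (Inn61 A δ₀) := by
  obtain ⟨C, δ, -, hδ, h⟩ := dbl_of_SLP61 hD hR ha hSL hδ₀
  exact ⟨C, δ, hδ, fun d hd x hx => (h d hd x hx).1⟩

end Pool.Agent.W_1b8d5d_p
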