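import Pool.Agent.W_1b8d5d_p.SlCap61

/-!
MP_1b8d5d_pr, Track P2 (row 653): the caps at all base points give the doubling of the curvature measure. Pure real analysis: a
convex function `m` with the continuous derivative `g`; the mass of `(x, y]` is `g y - g x`. (helper61)
-/

set_option autoImplicit false

namespace Pool.Agent.W_1b8d5d_p

open MeasureTheory Set
open Pool.Agent.W_1b8d5d_p66 (wd_eq wd_mono)

/-- The excess of `m` over the supporting line at `p`. -/
def Jb (m g : ℝ → ℝ) (p x : ℝ) : ℝ := m (p + x) - m p - g p * x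

variable {m g : ℝ → ℝ}

/-- The excess at distance `u` on the right is at least (the mass of `(p, c]`) times the distance to `c`. -/
theorem Jb_ge_right {p c u : ℝ} (hp : ∀ y, m p + g p * (y - p) ≤ m y) (hc : ∀ y, m c + g c * (y - c) ≤ m y) :
    (g c - g p) * (p + u - c) ≤ Jb m g p u := by
  have h1 := hp c
  have h2 := hc (p + u)
  unfold Jb
  linarith

/-- The same on both sides: `u` of any sign. -/
theorem Jb_le {p u : ℝ} (hq : ∀ y, m (p + u) + g (p + u) * (y - (p + u)) ≤ m y) :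
    Jb m g p u ≤ (g (p + u) - g p) * u := by
  have h1 := hq p
  unfold Jb
  linarith

theorem g_mono61 {p q : ℝ} (hp : ∀ y, m p + g p * (y - p) ≤ m y) (hq : ∀ y, m q + g q * (y - q) ≤ m y) (h : p ≤ q) :
    g p ≤ g q := by
  rcases h.eq_or_lt with rfl | h
  · exact le_rfl
  have h1 := hp q
  have h2 := hq p
  by_contra hc
  push Not at hc
  have h3 : 0 < (g p - g q) * (q - p) := mul_pos (by linarith) (by linarith)
  linarith

/-- The upper bound of the right width. -/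
theorem wR_le61 {J : ℝ → ℝ} (h : Rf J) {t s c : ℝ} (ht : 0 ≤ t) (hc : 0 < c) (hs : c * s ≤ t)
    (hJ : ∀ u, s ≤ u → c * u ≤ J u) : wR J t ≤ t / c := by
  refine csSup_le (h.set_ne ht) ?_
  rintro u ⟨hu0, hu⟩
  rw [le_div_iff₀ hc]
  rcases le_total s u with h1 | h1
  · linarith [hJ u h1]
  · have := mul_le_mul_of_nonneg_left h1 hc.le
    linarith

/-- **One step.** -/
theorem dbl_step61 {Q t₀ x r : ℝ} (hQ : 1 ≤ Q) (hr : 0 < r)
    (hm : ∀ p, x ≤ p → p ≤ x + 2 * r → ∀ y, m p + g p * (y - p) ≤ m y) (hg : ContinuousOn g (Icc x (x + 2 * r)))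
    (hrf : ∀ p, x ≤ p → p ≤ x + 2 * r → Rf (Jb m g p))
    (hcap : ∀ p, x ≤ p → p ≤ x + 2 * r → ∀ t, 0 < t → t ≤ t₀ → 2 * wd (Jb m g p) t ≤ Q * wd (Jb m g p) (t / Q))
    (ht : r * (g (x + 2 * r) - g x) ≤ t₀) :
    g (x + (1 + 1 / Q ^ 4) * r) - g x ≤ 3 * (g (x + r) - g x) := by
  have hQ0 : 0 < Q := by linarith
  have hQ4 : 1 ≤ Q ^ 4 := one_le_pow₀ hQ
  obtain ⟨η, hη⟩ : ∃ η : ℝ, η = 1 / Q ^ 4 := ⟨_, rfl⟩
  have hη0 : 0 < η := by rw [hη]; positivity
  have hη1 : η ≤ 1 := by rw [hη, div_le_one (by positivity)]; exact hQ4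
  have hηQ : η * Q ^ 4 = 1 := by rw [hη]; field_simp
  rw [← hη]
  have hηr : 0 < η * r := mul_pos hη0 hr
  have hηr1 : η * r ≤ r := by nlinarith
  obtain ⟨b, hb⟩ : ∃ b : ℝ, b = x + r := ⟨_, rfl⟩
  obtain ⟨c, hc⟩ : ∃ c : ℝ, c = x + (1 + η) * r := ⟨_, rfl⟩
  have hbc : c = b + η * r := by rw [hb, hc]; ring
  rw [← hb, ← hc]
  by_contra hcon
  push Not at hcon
  have mx := hm x le_rfl (by linarith)
  have mb := hm b (by linarith) (by linarith)
  have mc := hm c (by linarith) (by linarith)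
  have me := hm (x + 2 * r) (by linarith) le_rfl
  have gxb := g_mono61 mx mb (by linarith)
  have gbc := g_mono61 mb mc (by linarith)
  have gce := g_mono61 mc me (by linarith)
  obtain ⟨M, hM⟩ : ∃ M : ℝ, M = g c - g b := ⟨_, rfl⟩
  have hM1 : 2 * (g b - g x) < M := by linarith
  have hM0 : 0 < M := by linarith
  -- the base point
  obtain ⟨p, ⟨hp1, hp2⟩, hp⟩ : ∃ p ∈ Icc b c, g p = g b + M / 2 := by
    have h1 : ContinuousOn g (Icc b c) := hg.mono (Icc_subset_Icc (by linarith) (by linarith))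
    have h2 := intermediate_value_Icc (by linarith : b ≤ c) h1
    exact h2 ⟨by linarith, by linarith⟩
  have hpx : x ≤ p := by linarith
  have hp2r : p ≤ x + 2 * r := by linarith
  have mp := hm p hpx hp2r
  have hJ := hrf p hpx hp2r
  -- the lower bounds
  have hR : ∀ u, 2 * (η * r) ≤ u → M / 4 * u ≤ Jb m g p u := by
    intro u hu
    have h1 := Jb_ge_right (u := u) mp mc
    have h2 : g c - g p = M / 2 := by linarith
    rw [h2] at h1
    have h3 : M / 2 * (u / 2) ≤ M / 2 * (p + u - c) := mul_le_mul_of_nonneg_left (by linarith) (by linarith)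
    linarith
  have hL : ∀ u, 2 * (η * r) ≤ u → M / 4 * u ≤ Jb m g p (-u) := by
    intro u hu
    have h1 := Jb_ge_right (u := -u) mp mb
    have h2 : g b - g p = -(M / 2) := by linarith
    rw [h2] at h1
    have h3 : M / 2 * (u / 2) ≤ M / 2 * (b - (p - u)) := mul_le_mul_of_nonneg_left (by linarith) (by linarith)
    have h4 : -(M / 2) * (p + -u - b) = M / 2 * (b - (p - u)) := by ring
    linarith
  -- the upper bound on the left
  have hU : ∀ u, 0 ≤ u → u ≤ r → Jb m g p (-u) ≤ M * u := by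
    intro u hu0 hur
    have mu := hm (p + -u) (by linarith) (by linarith)
    have h1 := Jb_le (p := p) (u := -u) mu
    have h2 := g_mono61 mx mu (by linarith)
    have h3 : (g (p + -u) - g p) * -u = (g p - g (p + -u)) * u := by ring
    have h4 : (g p - g (p + -u)) * u ≤ M * u := mul_le_mul_of_nonneg_right (by linarith) hu0
    linarith
  -- the caps
  have hc1 := hcap p hpx hp2r
  have hrM : 0 < r * M := mul_pos hr hM0
  have hrM0 : r * M ≤ t₀ := le_trans (mul_le_mul_of_nonneg_left (by linarith) hr.le) ht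
  have hit : ∀ k : ℕ, 2 ^ k * wd (Jb m g p) (r * M) ≤ Q ^ k * wd (Jb m g p) (r * M / Q ^ k) := by
    intro k
    induction k with
    | zero => simp
    | succ k ih =>
      have hQk : 1 ≤ Q ^ k := one_le_pow₀ hQ
      have h1 := hc1 (r * M / Q ^ k) (by positivity) (le_trans (div_le_self hrM.le hQk) hrM0)
      have e : r * M / Q ^ k / Q = r * M / Q ^ (k + 1) := by rw [div_div, pow_succ]
      rw [e] at h1
      have h2 := mul_le_mul_of_nonneg_left h1 (show (0 : ℝ) ≤ Q ^ k by positivity)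
      have e2 : (2 : ℝ) ^ (k + 1) = 2 ^ k * 2 := pow_succ _ _
      have e3 : Q ^ (k + 1) = Q ^ k * Q := pow_succ _ _
      rw [e2]
      nth_rewrite 1 [e3]
      linarith
  have h4 := hit 4
  have hlow : r ≤ wd (Jb m g p) (r * M) := by
    rw [wd_eq hJ hrM.le]
    have h5 := hJ.wR_nonneg hrM.le
    have h6 : r ≤ wL (Jb m g p) (r * M) := by
      refine hJ.neg.le_wR hr.le ?_
      have := hU r hr.le le_rfl
      linarith
    linarith
  have hup : wd (Jb m g p) (r * M / Q ^ 4) ≤ 8 * (r / Q ^ 4) := by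
    have ht0 : 0 ≤ r * M / Q ^ 4 := by positivity
    rw [wd_eq hJ ht0]
    have hM4 : 0 < M / 4 := by linarith
    have h7 : M / 4 * (2 * (η * r)) ≤ r * M / Q ^ 4 := by
      rw [hη]
      have : M / 4 * (2 * (1 / Q ^ 4 * r)) = r * M / Q ^ 4 / 2 := by ring
      rw [this]
      linarith
    have h8 := wR_le61 hJ ht0 hM4 h7 hR
    have h9 : wL (Jb m g p) (r * M / Q ^ 4) ≤ r * M / Q ^ 4 / (M / 4) := wR_le61 hJ.neg ht0 hM4 h7 hL
    have h10 : r * M / Q ^ 4 / (M / 4) = 4 * (r / Q ^ 4) := by field_simp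
    rw [h10] at h8 h9
    linarith
  have h11 : Q ^ 4 * (8 * (r / Q ^ 4)) = 8 * r := by field_simp
  have h12 := mul_le_mul_of_nonneg_left hup (show (0 : ℝ) ≤ Q ^ 4 by positivity)
  have h13 : (2 : ℝ) ^ 4 = 16 := by norm_num
  rw [h13] at h4
  linarith

/-- **DOUBLING TO THE RIGHT.** -/
theorem dbl_right61 {Q t₀ δ G : ℝ} (hQ : 1 ≤ Q) (ht₀ : 0 < t₀) (hδ : 0 < δ) (hG : 0 ≤ G) :
    ∃ C δ' : ℝ, 1 ≤ C ∧ 0 < δ' ∧ δ' ≤ δ ∧ ∀ (m g : ℝ → ℝ) (x : ℝ),
      (∀ p, x ≤ p → p ≤ x + δ → ∀ y, m p + g p * (y - p) ≤ m y) → ContinuousOn g (Icc x (x + δ)) →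
      (∀ p, x ≤ p → p ≤ x + δ → Rf (Jb m g p)) →
      (∀ p, x ≤ p → p ≤ x + δ → ∀ t, 0 < t → t ≤ t₀ → 2 * wd (Jb m g p) t ≤ Q * wd (Jb m g p) (t / Q)) →
      g (x + δ) - g x ≤ G → ∀ r, 0 < r → r ≤ δ' → g (x + 2 * r) - g x ≤ C * (g (x + r) - g x) := by
  have hQ4 : 1 ≤ Q ^ 4 := one_le_pow₀ hQ
  obtain ⟨η, hη⟩ : ∃ η : ℝ, η = 1 / Q ^ 4 := ⟨_, rfl⟩
  have hη0 : 0 < η := by rw [hη]; positivity
  have hη1 : η ≤ 1 := by rw [hη, div_le_one (by positivity)]; exact hQ4
  obtain ⟨k, hk⟩ : ∃ k : ℕ, 2 < (1 + η) ^ k := pow_unbounded_of_one_lt 2 (by linarith)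
  obtain ⟨ρ, hρ⟩ : ∃ ρ : ℝ, ρ = min δ (t₀ / (G + 1)) := ⟨_, rfl⟩
  have hρ0 : 0 < ρ := by rw [hρ]; exact lt_min hδ (by positivity)
  have hρδ : ρ ≤ δ := by rw [hρ]; exact min_le_left _ _
  have hρG : ρ * G ≤ t₀ := by
    have h1 : ρ ≤ t₀ / (G + 1) := by rw [hρ]; exact min_le_right _ _
    have h2 := mul_le_mul_of_nonneg_right h1 hG
    have h3 : t₀ / (G + 1) * G ≤ t₀ := by
      rw [div_mul_eq_mul_div, div_le_iff₀ (by linarith)]
      nlinarith
    linarith
  refine ⟨3 ^ k, ρ / 2 ^ (k + 1), one_le_pow₀ (by norm_num), by positivity,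
    le_trans (div_le_self hρ0.le (one_le_pow₀ one_le_two)) hρδ, fun m g x hm hg hrf hcap hGb r hr hrδ => ?_⟩
  have hrk : 2 ^ (k + 1) * r ≤ ρ := by
    rw [le_div_iff₀ (by positivity)] at hrδ
    linarith
  have key : ∀ i : ℕ, i ≤ k → g (x + (1 + η) ^ i * r) - g x ≤ 3 ^ i * (g (x + r) - g x) := by
    intro i
    induction i with
    | zero => intro _; simp
    | succ i ih =>
      intro hi
      have h1 := ih (by omega)
      have hp1 : (1 + η) ^ i ≤ 2 ^ i := pow_le_pow_left₀ (by linarith) (by linarith) i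
      have hp2 : (2 : ℝ) ^ i ≤ 2 ^ k := pow_le_pow_right₀ one_le_two (by omega)
      have hs0 : 0 < (1 + η) ^ i * r := by positivity
      have hs1 : 2 * ((1 + η) ^ i * r) ≤ ρ := by
        have h2 : (1 + η) ^ i * r ≤ 2 ^ k * r := mul_le_mul_of_nonneg_right (hp1.trans hp2) hr.le
        have h3 : (2 : ℝ) ^ (k + 1) * r = 2 * (2 ^ k * r) := by ring
        linarith
      have mx := hm x le_rfl (by linarith)
      have m1 := hm (x + 2 * ((1 + η) ^ i * r)) (by linarith) (by linarith)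
      have m2 := hm (x + δ) (by linarith) le_rfl
      have g1 := g_mono61 mx m1 (by linarith)
      have g2 := g_mono61 m1 m2 (by linarith)
      have h4 := dbl_step61 (m := m) (g := g) (x := x) (t₀ := t₀) hQ hs0 (fun p h5 h6 => hm p h5 (by linarith))
        (hg.mono (Icc_subset_Icc le_rfl (by linarith))) (fun p h5 h6 => hrf p h5 (by linarith))
        (fun p h5 h6 => hcap p h5 (by linarith)) (by
          refine le_trans ?_ hρG
          refine mul_le_mul (by linarith) (by linarith) (by linarith) hρ0.le)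
      rw [← hη] at h4
      have e1 : (1 + η) * ((1 + η) ^ i * r) = (1 + η) ^ (i + 1) * r := by ring
      rw [e1] at h4
      have e2 : (3 : ℝ) ^ (i + 1) = 3 * 3 ^ i := by ring
      rw [e2]
      linarith
  have h5 := key k le_rfl
  have hp1 : (1 + η) ^ k ≤ 2 ^ k := pow_le_pow_left₀ (by linarith) (by linarith) k
  have h6 : (1 + η) ^ k * r ≤ 2 ^ k * r := mul_le_mul_of_nonneg_right hp1 hr.le
  have h7 : (2 : ℝ) ^ (k + 1) * r = 2 * (2 ^ k * r) := by ring
  have h8 : 2 * r ≤ (1 + η) ^ k * r := mul_le_mul_of_nonneg_right hk.le hr.le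
  have m1 := hm (x + 2 * r) (by linarith) (by linarith)
  have m2 := hm (x + (1 + η) ^ k * r) (by linarith) (by linarith)
  have g1 := g_mono61 m1 m2 (by linarith)
  linarith

end Pool.Agent.W_1b8d5d_p
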