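import Pool.Agent.W_1b8d5d_p.FrTT

/-!
MP_1b8d5d_pr, Track P. Cutting walks: first and last visits, the cut at a time with a lateral jump (JUMP), the last lowest and
first highest vertex (CUT), net backward walks are never lucky.
-/

namespace Pool.Agent.W_1b8d5d_p

open MeasureTheory Set
open Pool.Agent.W_1b8d5d_h85

/-! ### Walks -/

section walks

variable {x y z : V}

/-- First vertex with the property `P`. -/
theorem walk_first (P : V → Prop) (w : grid.Walk x y) (hy : ∃ z ∈ w.support, P z) :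
    ∃ (u : V) (w₁ : grid.Walk x u) (w₂ : grid.Walk u y), w = w₁.append w₂ ∧ P u ∧
      (∀ z ∈ w₁.support, P z → z = u) := by
  classical
  induction w with
  | @nil x =>
    obtain ⟨z, hz, hp⟩ := hy
    rw [SimpleGraph.Walk.support_nil, List.mem_singleton] at hz
    subst hz
    refine ⟨z, .nil, .nil, rfl, hp, fun z' hz' _ => ?_⟩
    rwa [SimpleGraph.Walk.support_nil, List.mem_singleton] at hz'
  | @cons x v y h w ih =>
    by_cases hx : P x
    · refine ⟨x, .nil, .cons h w, rfl, hx, fun z' hz' _ => ?_⟩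
      rwa [SimpleGraph.Walk.support_nil, List.mem_singleton] at hz'
    · have hy' : ∃ z ∈ w.support, P z := by
        obtain ⟨z, hz, hp⟩ := hy
        rw [SimpleGraph.Walk.support_cons, List.mem_cons] at hz
        rcases hz with rfl | hz
        · exact absurd hp hx
        · exact ⟨z, hz, hp⟩
      obtain ⟨u, w₁, w₂, e, h1, h2⟩ := ih hy'
      refine ⟨u, .cons h w₁, w₂, ?_, h1, ?_⟩
      · rw [SimpleGraph.Walk.cons_append, ← e]
      · intro z hz hp
        rw [SimpleGraph.Walk.support_cons, List.mem_cons] at hz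
        rcases hz with rfl | hz
        · exact absurd hp hx
        · exact h2 z hz hp

/-- Last vertex with the property `P`. -/
theorem walk_last (P : V → Prop) (w : grid.Walk x y) (hy : ∃ z ∈ w.support, P z) :
    ∃ (u : V) (w₁ : grid.Walk x u) (w₂ : grid.Walk u y), w = w₁.append w₂ ∧ P u ∧
      (∀ z ∈ w₂.support, P z → z = u) := by
  obtain ⟨u, w₁, w₂, e, h1, h2⟩ := walk_first P w.reverse (by simpa using hy)
  refine ⟨u, w₂.reverse, w₁.reverse, ?_, h1, ?_⟩
  · rw [← SimpleGraph.Walk.reverse_append, ← e, SimpleGraph.Walk.reverse_reverse]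
  · intro z hz hp
    exact h2 z (by simpa using hz) hp

/-- First vertex behind the last vertex without the property `P` (the end of the walk has the property). It is the starting point
if all vertices have the property. -/
theorem walk_after (P : V → Prop) (w : grid.Walk x y) (hy : P y) :
    ∃ (u : V) (w₁ : grid.Walk x u) (w₂ : grid.Walk u y), w = w₁.append w₂ ∧ (∀ z ∈ w₂.support, P z) ∧
      (((∀ z ∈ w.support, P z) ∧ u = x) ∨ ∃ u' ∈ w₁.support, grid.Adj u' u ∧ ¬ P u') := by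
  classical
  induction w with
  | @nil x =>
    have h0 : ∀ z ∈ (SimpleGraph.Walk.nil : grid.Walk x x).support, P z := fun z hz => by
      rw [SimpleGraph.Walk.support_nil, List.mem_singleton] at hz
      rwa [hz]
    exact ⟨x, .nil, .nil, rfl, h0, Or.inl ⟨h0, rfl⟩⟩
  | @cons x v y h w ih =>
    by_cases hu : ∀ z ∈ w.support, P z
    · by_cases hx : P x
      · have h0 : ∀ z ∈ (SimpleGraph.Walk.cons h w).support, P z := fun z hz => by
          rw [SimpleGraph.Walk.support_cons, List.mem_cons] at hz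
          rcases hz with rfl | hz
          · exact hx
          · exact hu z hz
        exact ⟨x, .nil, .cons h w, rfl, h0, Or.inl ⟨h0, rfl⟩⟩
      · refine ⟨v, .cons h .nil, w, rfl, hu, Or.inr ⟨x, ?_, h, hx⟩⟩
        exact SimpleGraph.Walk.start_mem_support _
    · obtain ⟨u, w₁, w₂, e, h1, h2⟩ := ih hy
      refine ⟨u, .cons h w₁, w₂, ?_, h1, ?_⟩
      · rw [SimpleGraph.Walk.cons_append, ← e]
      · rcases h2 with ⟨h2, -⟩ | ⟨u', hu', ha, hp⟩
        · exact absurd h2 hu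
        · refine Or.inr ⟨u', ?_, ha, hp⟩
          rw [SimpleGraph.Walk.support_cons]
          exact List.mem_cons_of_mem _ hu'

/-- The vertex before the end of a walk. -/
theorem walk_pred (w : grid.Walk x y) (hxy : x ≠ y) : ∃ u ∈ w.support, grid.Adj u y := by
  induction w with
  | nil => exact absurd rfl hxy
  | @cons x v y h w ih =>
    by_cases hv : v = y
    · subst hv
      exact ⟨x, SimpleGraph.Walk.start_mem_support _, h⟩
    · obtain ⟨u, hu, ha⟩ := ih hv
      refine ⟨u, ?_, ha⟩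
      rw [SimpleGraph.Walk.support_cons]
      exact List.mem_cons_of_mem _ hu

theorem mem_left {u : V} (w₁ : grid.Walk x u) (w₂ : grid.Walk u y) (hz : z ∈ w₁.support) : z ∈ (w₁.append w₂).support := by
  rw [SimpleGraph.Walk.mem_support_append_iff]
  exact Or.inl hz

theorem mem_right {u : V} (w₁ : grid.Walk x u) (w₂ : grid.Walk u y) (hz : z ∈ w₂.support) : z ∈ (w₁.append w₂).support := by
  rw [SimpleGraph.Walk.mem_support_append_iff]
  exact Or.inr hz

theorem wedges_left {u : V} (w₁ : grid.Walk x u) (w₂ : grid.Walk u y) {e : Edge} (he : e ∈ wedges w₁) :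
    e ∈ wedges (w₁.append w₂) := by
  rw [wedges_append, List.mem_append]
  exact Or.inl he

theorem wedges_right {u : V} (w₁ : grid.Walk x u) (w₂ : grid.Walk u y) {e : Edge} (he : e ∈ wedges w₂) :
    e ∈ wedges (w₁.append w₂) := by
  rw [wedges_append, List.mem_append]
  exact Or.inr he

/-- The two end points of an edge are different. -/
theorem add_dir_ne (x : V) (s : Bool) : x + dir s ≠ x := by
  intro h
  have h1 : dir s = 0 := by simpa using h
  cases s <;> simp [dir] at h1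

/-- A property of the end points of the edges is a property of the vertices. -/
theorem support_of_wedges (P : V → Prop) (w : grid.Walk x y) (hx : P x)
    (h : ∀ e ∈ wedges w, P e.1 ∧ P (e.1 + dir e.2)) : ∀ z ∈ w.support, P z := by
  induction w with
  | nil =>
    intro z hz
    rw [SimpleGraph.Walk.support_nil, List.mem_singleton] at hz
    rwa [hz]
  | @cons x v y ha w ih =>
    intro z hz
    rw [SimpleGraph.Walk.support_cons, List.mem_cons] at hz
    rcases hz with rfl | hz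
    · exact hx
    · refine ih ?_ (fun e he => h e ?_) z hz
      · have h1 : ke s(x, v) ∈ wedges (SimpleGraph.Walk.cons ha w) := by
          unfold wedges
          rw [SimpleGraph.Walk.edges_cons, List.map_cons]
          exact List.mem_cons_self
        have h2 := h _ h1
        obtain ⟨s, hs | hs⟩ := ha
        · rw [hs, ke_dir] at h2
          rw [hs]
          exact h2.2
        · rw [hs, ke_dir'] at h2
          exact h2.1
      · unfold wedges at he ⊢
        rw [SimpleGraph.Walk.edges_cons, List.map_cons]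
        exact List.mem_cons_of_mem _ he

theorem le_cost_nm {a b : ℝ} {τ : Env} (hτ : Bd a b τ) (ha : 0 ≤ a) (w : grid.Walk x y) : a * nm (y - x) ≤ cost τ w :=
  (mul_le_mul_of_nonneg_left (nm_le_length w) ha).trans (le_cost hτ w)

end walks

/-! ### Times -/

namespace Co

variable (c : Co)

theorem tm_edge (e : Edge) : c.tm e.1 ≤ c.tm (e.1 + dir e.2) ∧ c.tm (e.1 + dir e.2) ≤ c.tm e.1 + c.M := by
  have h1 := c.tm_dir_nonneg e.2
  have h2 := c.tm_dir_le e.2
  rw [c.tm_add]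
  constructor <;> linarith

/-- The time and the position determine the vertex. -/
theorem fst_eq (z : V) : z.1 = c.tm z * c.r - c.ps z * c.q := by
  have h := c.det
  unfold tm ps
  linear_combination -z.1 * h

theorem snd_eq (z : V) : z.2 = c.tm z * c.s + c.ps z * c.p := by
  have h := c.det
  unfold tm ps
  linear_combination -z.2 * h

/-- The edges of the slab of the times `[i, j]`: both end points have times in `[i, j]`, not both the time `i`, not both the
time `j`. -/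
def sl (i j : ℤ) : Set Edge :=
  {e | i ≤ c.tm e.1 ∧ c.tm (e.1 + dir e.2) ≤ j ∧ c.tm e.1 < j ∧ i < c.tm (e.1 + dir e.2)}

theorem slab_eq (s t : ℤ) : c.slab s t = c.sl (c.L * s) (c.L * t) := rfl

theorem sl_sub_EI (i j : ℤ) : c.sl i j ⊆ c.EI i j := fun _ he => ⟨he.1, he.2.2.1⟩

/-- The times along a walk of a slab. -/
theorem tm_mem_sl {i j : ℤ} {x y : V} (w : grid.Walk x y) (hw : ∀ e ∈ wedges w, e ∈ c.sl i j) (hx : i ≤ c.tm x ∧ c.tm x ≤ j) :
    ∀ z ∈ w.support, i ≤ c.tm z ∧ c.tm z ≤ j := by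
  refine support_of_wedges (fun z => i ≤ c.tm z ∧ c.tm z ≤ j) w hx fun e he => ?_
  have h := hw e he
  have h1 := c.tm_edge e
  exact ⟨⟨h.1, h1.1.trans h.2.1⟩, ⟨h.1.trans h1.1, h.2.1⟩⟩

end Co

variable {a b : ℝ} {τ : Env} {S : Set Edge} {x y z : V}

/-- A walk of a part of the slab. -/
theorem sl_of_walk (c : Co) {q p : V} (w : grid.Walk q p) (hw : ∀ z ∈ w.support, c.tm q ≤ c.tm z ∧ c.tm z ≤ c.tm p)
    (hq : ∀ z ∈ w.support, c.tm z = c.tm q → z = q) (hp : ∀ z ∈ w.support, c.tm z = c.tm p → z = p) :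
    ∀ e ∈ wedges w, e ∈ c.sl (c.tm q) (c.tm p) := by
  intro e he
  obtain ⟨h1, h2⟩ := wedges_support w he
  have h3 := add_dir_ne e.1 e.2
  have h4 := c.tm_edge e
  refine ⟨(hw _ h1).1, (hw _ h2).2, ?_, ?_⟩
  · by_contra hcon
    push Not at hcon
    have e1 : c.tm e.1 = c.tm p := le_antisymm (hw _ h1).2 hcon
    have e2 : c.tm (e.1 + dir e.2) = c.tm p := le_antisymm (hw _ h2).2 (hcon.trans h4.1)
    exact h3 ((hp _ h2 e2).trans (hp _ h1 e1).symm)
  · by_contra hcon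
    push Not at hcon
    have e1 : c.tm (e.1 + dir e.2) = c.tm q := le_antisymm hcon (hw _ h2).1
    have e2 : c.tm e.1 = c.tm q := le_antisymm (h4.1.trans hcon) (hw _ h1).1
    exact h3 ((hq _ h2 e1).trans (hq _ h1 e2).symm)

/-- **(CUT), walks.** `q` = last lowest vertex, `p` = first highest vertex of the part after `q`. -/
theorem walk_CUT (c : Co) (w : grid.Walk x y) : ∃ (q p : V) (w₁ : grid.Walk x q) (w₂ : grid.Walk q p) (w₃ : grid.Walk p y),
    w = w₁.append (w₂.append w₃) ∧ (∀ z ∈ w.support, c.tm q ≤ c.tm z) ∧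
    (∀ z ∈ (w₂.append w₃).support, c.tm z ≤ c.tm p) ∧ ∀ e ∈ wedges w₂, e ∈ c.sl (c.tm q) (c.tm p) := by
  classical
  -- the lowest time
  obtain ⟨z₀, hz₀, hmin⟩ := Finset.exists_min_image w.support.toFinset c.tm ⟨x, by simp⟩
  rw [List.mem_toFinset] at hz₀
  obtain ⟨q, w₁, w', e, h1, h2⟩ := walk_last (fun z => c.tm z = c.tm z₀) w ⟨z₀, hz₀, rfl⟩
  have hlow : ∀ z ∈ w.support, c.tm q ≤ c.tm z := fun z hz => by
    rw [h1]
    exact hmin z (List.mem_toFinset.2 hz)
  -- the highest time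
  obtain ⟨z₁, hz₁, hmax⟩ := Finset.exists_max_image w'.support.toFinset c.tm ⟨q, by simp⟩
  rw [List.mem_toFinset] at hz₁
  obtain ⟨p, w₂, w₃, e', h3, h4⟩ := walk_first (fun z => c.tm z = c.tm z₁) w' ⟨z₁, hz₁, rfl⟩
  have hhigh : ∀ z ∈ w'.support, c.tm z ≤ c.tm p := fun z hz => by
    rw [h3]
    exact hmax z (List.mem_toFinset.2 hz)
  subst e'
  refine ⟨q, p, w₁, w₂, w₃, e, hlow, hhigh, ?_⟩
  refine sl_of_walk c w₂ (fun z hz => ⟨hlow z ?_, hhigh z (mem_left _ _ hz)⟩) (fun z hz hq => h2 z (mem_left _ _ hz) (hq.trans h1))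
    fun z hz hp => h4 z hz (hp.trans h3)
  rw [e]
  exact mem_right _ _ (mem_left _ _ hz)

/-- **(JUMP), walks.** `u` = first vertex of time `≥ m`, `u'` = first vertex behind the last vertex of time `< m` of the rest. -/
theorem walk_JUMP (c : Co) (w : grid.Walk x y) (m : ℤ) (hm : m ≤ c.tm y) :
    ∃ (u u' : V) (w₁ : grid.Walk x u) (w₂ : grid.Walk u u') (w₃ : grid.Walk u' y), w = w₁.append (w₂.append w₃) ∧
    m ≤ c.tm u ∧ (u = x ∨ c.tm u < m + c.M) ∧ m ≤ c.tm u' ∧ (u' = u ∨ c.tm u' < m + c.M) ∧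
    (∀ e ∈ wedges w₁, c.tm e.1 < m) ∧ (∀ z ∈ w₁.support, m ≤ c.tm z → z = u) ∧ (∀ z ∈ w₃.support, m ≤ c.tm z) := by
  obtain ⟨u, w₁, w', e, h1, h2⟩ := walk_first (fun z => m ≤ c.tm z) w ⟨y, w.end_mem_support, hm⟩
  obtain ⟨u', w₂, w₃, e', h3, h4⟩ := walk_after (fun z => m ≤ c.tm z) w' hm
  subst e'
  refine ⟨u, u', w₁, w₂, w₃, e, h1, ?_, h3 _ w₃.start_mem_support, ?_, ?_, h2, h3⟩
  · by_cases hx : x = u
    · exact Or.inl hx.symm
    · right
      obtain ⟨v, hv, ha⟩ := walk_pred w₁ hx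
      have h5 := tm_adj c ha
      have h6 : c.tm v < m := by
        by_contra hcon
        push Not at hcon
        exact ha.ne (h2 v hv hcon)
      linarith [h5.1]
  · rcases h4 with ⟨-, h4⟩ | ⟨v, hv, ha, hp⟩
    · exact Or.inl h4
    · right
      push Not at hp
      linarith [(tm_adj c ha).1]
  · intro e he
    by_contra hcon
    push Not at hcon
    obtain ⟨h5, h6⟩ := wedges_support w₁ he
    exact add_dir_ne e.1 e.2 ((h2 _ h6 (hcon.trans (c.tm_edge e).1)).trans (h2 _ h5 hcon).symm)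

/-- **(CUT), passage times.** -/
theorem TR_CUT (c : Co) (hτ : Bd a b τ) (ha : 0 ≤ a) (w : grid.Walk x y) (hw : ∀ e ∈ wedges w, e ∈ S) :
    ∃ q p : V, q ∈ w.support ∧ p ∈ w.support ∧ (∀ z ∈ w.support, c.tm q ≤ c.tm z) ∧ c.tm y ≤ c.tm p ∧
      Nonempty (WK (S ∩ c.sl (c.tm q) (c.tm p)) q p) ∧
      a * nm (q - x) + TR (S ∩ c.sl (c.tm q) (c.tm p)) τ q p + a * nm (y - p) ≤ cost τ w := by
  obtain ⟨q, p, w₁, w₂, w₃, rfl, h1, h2, h3⟩ := walk_CUT c w
  have h4 : ∀ e ∈ wedges w₂, e ∈ S ∩ c.sl (c.tm q) (c.tm p) := fun e he =>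
    ⟨hw e (wedges_right _ _ (wedges_left _ _ he)), h3 e he⟩
  refine ⟨q, p, mem_left _ _ w₁.end_mem_support, mem_right _ _ (mem_left _ _ w₂.end_mem_support), h1,
    h2 y (mem_right _ _ w₃.end_mem_support), ⟨⟨w₂, h4⟩⟩, ?_⟩
  rw [cost_append, cost_append]
  have e1 := le_cost_nm hτ ha w₁
  have e2 := TR_le hτ ha w₂ h4
  have e3 := le_cost_nm hτ ha w₃
  linarith

/-- **(JUMP), passage times.** -/
theorem TR_JUMP (c : Co) (hτ : Bd a b τ) (ha : 0 ≤ a) (w : grid.Walk x y) (hw : ∀ e ∈ wedges w, e ∈ S) (m : ℤ)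
    (hm : m ≤ c.tm y) :
    ∃ u u' : V, u ∈ w.support ∧ u' ∈ w.support ∧ m ≤ c.tm u ∧ (u = x ∨ c.tm u < m + c.M) ∧ m ≤ c.tm u' ∧
      (u' = u ∨ c.tm u' < m + c.M) ∧
      Nonempty (WK (S ∩ {e | c.tm e.1 < m}) x u) ∧ Nonempty (WK (S ∩ {e | m ≤ c.tm e.1}) u' y) ∧
      TR (S ∩ {e | c.tm e.1 < m}) τ x u + a * nm (u' - u) + TR (S ∩ {e | m ≤ c.tm e.1}) τ u' y ≤ cost τ w := by
  obtain ⟨u, u', w₁, w₂, w₃, rfl, h1, h2, h3, h4, h5, -, h6⟩ := walk_JUMP c w m hm
  have h7 : ∀ e ∈ wedges w₁, e ∈ S ∩ {e | c.tm e.1 < m} := fun e he => ⟨hw e (wedges_left _ _ he), h5 e he⟩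
  have h8 : ∀ e ∈ wedges w₃, e ∈ S ∩ {e | m ≤ c.tm e.1} := fun e he =>
    ⟨hw e (wedges_right _ _ (wedges_right _ _ he)), h6 _ (wedges_support w₃ he).1⟩
  refine ⟨u, u', mem_left _ _ w₁.end_mem_support, mem_right _ _ (mem_left _ _ w₂.end_mem_support), h1, h2, h3, h4,
    ⟨⟨w₁, h7⟩⟩, ⟨⟨w₃, h8⟩⟩, ?_⟩
  rw [cost_append, cost_append]
  have e1 := TR_le hτ ha w₁ h7
  have e2 := le_cost_nm hτ ha w₂
  have e3 := TR_le hτ ha w₃ h8
  linarith

/-! ### Net backward walks are never lucky -/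

section adm

variable {F : Fm} {κ : ℝ} {d : Dr}

theorem Dr.H_add (d : Dr) (x y : V) : d.H (x + y) = d.H x + d.H y := by
  unfold Dr.H
  simp only [Prod.fst_add, Prod.snd_add]
  push_cast
  ring

theorem Dr.H_sub (d : Dr) (x y : V) : d.H (x - y) = d.H x - d.H y := by
  unfold Dr.H
  simp only [Prod.fst_sub, Prod.snd_sub]
  push_cast
  ring

theorem Dr.H_neg (d : Dr) (x : V) : d.H (-x) = -d.H x := by
  unfold Dr.H
  simp only [Prod.fst_neg, Prod.snd_neg]
  push_cast
  ring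

private theorem Adm.kle83 (hA : Adm F κ d) : κ ≤ F.a := by
  have h1 := (abs_nonneg _).trans hA.loop
  have h2 : (0 : ℝ) < F.co.M := by exact_mod_cast (by linarith [F.co.M_pos] : 0 < F.co.M)
  by_contra hcon
  push Not at hcon
  have : (F.a - κ) * F.co.M < 0 := mul_neg_of_neg_of_pos (by linarith) h2
  linarith

/-- A displacement which does not go forward in time is never lucky. -/
theorem Adm.back (hA : Adm F κ d) {z : V} (hz : F.co.tm z ≤ 0) : κ * nm z ≤ F.a * nm z - d.H z := by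
  obtain ⟨z1, z2⟩ := z
  have hκ := hA.kle83
  have hκ0 := hA.κ0
  have hp1 : (1 : ℝ) ≤ F.co.p := by exact_mod_cast F.co.hp
  have hq0 : (0 : ℝ) ≤ F.co.q := by exact_mod_cast F.co.hq
  have hl := abs_le.1 hA.loop
  unfold be at hl
  have hM : (F.co.M : ℝ) = F.co.p + F.co.q := by
    unfold Co.M
    push_cast
    ring
  rw [hM] at hl
  have hz' : (F.co.p : ℝ) * z1 + F.co.q * z2 ≤ 0 := by
    have h0 : F.co.p * z1 + F.co.q * z2 ≤ 0 := hz
    exact_mod_cast h0
  have h1n := hA.h1n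
  have h2n := hA.h2n
  unfold nm Dr.H
  simp only
  obtain ⟨P, hP⟩ : ∃ P : ℝ, P = F.co.p := ⟨_, rfl⟩
  obtain ⟨Q, hQ⟩ : ∃ Q : ℝ, Q = F.co.q := ⟨_, rfl⟩
  obtain ⟨X, hX⟩ : ∃ X : ℝ, X = z1 := ⟨_, rfl⟩
  obtain ⟨Y, hY⟩ : ∃ Y : ℝ, Y = z2 := ⟨_, rfl⟩
  rw [← hP, ← hQ] at hl
  rw [← hP, ← hQ, ← hX, ← hY] at hz'
  rw [← hP] at hp1
  rw [← hQ] at hq0
  rw [← hX, ← hY]
  obtain ⟨l1, l2⟩ := hl
  rcases le_total X 0 with hx | hx <;> rcases le_total Y 0 with hy | hy
  · rw [abs_of_nonpos hx, abs_of_nonpos hy]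
    have e1 : d.h1 * X ≤ 0 := mul_nonpos_of_nonneg_of_nonpos h1n hx
    have e2 : d.h2 * Y ≤ 0 := mul_nonpos_of_nonneg_of_nonpos h2n hy
    have e3 : 0 ≤ (F.a - κ) * (-X + -Y) := mul_nonneg (by linarith) (by linarith)
    nlinarith
  · -- `X ≤ 0 ≤ Y`, `z = α (-1,0) + β (-q,p)` with `β = Y / p`
    rw [abs_of_nonpos hx, abs_of_nonneg hy]
    have hP0 : 0 < P := by linarith
    -- multiply by `p`
    have key : 0 ≤ P * ((F.a - κ) * (-X + Y) - (d.h1 * X + d.h2 * Y)) := by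
      have e1 : P * ((F.a - κ) * (-X + Y) - (d.h1 * X + d.h2 * Y)) =
          ((F.a - κ) + d.h1) * (-(P * X + Q * Y)) + Y * ((F.a - κ) * (P + Q) - (d.h2 * P - d.h1 * Q)) := by ring
      rw [e1]
      have e2 : 0 ≤ ((F.a - κ) + d.h1) * (-(P * X + Q * Y)) := mul_nonneg (by linarith) (by linarith)
      have e3 : 0 ≤ Y * ((F.a - κ) * (P + Q) - (d.h2 * P - d.h1 * Q)) := mul_nonneg hy (by linarith)
      linarith
    have := nonneg_of_mul_nonneg_right key hP0
    linarith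
  · -- `Y ≤ 0 ≤ X`, `z = α (0,-1) + β (q,-p)`
    rw [abs_of_nonneg hx, abs_of_nonpos hy]
    rcases eq_or_lt_of_le hq0 with hQ0 | hQ0
    · have hX0 : X = 0 := by
        rw [← hQ0] at hz'
        have : P * X ≤ 0 := by linarith
        nlinarith
      rw [hX0]
      have e2 : d.h2 * Y ≤ 0 := mul_nonpos_of_nonneg_of_nonpos h2n hy
      have e3 : 0 ≤ (F.a - κ) * (0 + -Y) := mul_nonneg (by linarith) (by linarith)
      nlinarith
    · have key : 0 ≤ Q * ((F.a - κ) * (X + -Y) - (d.h1 * X + d.h2 * Y)) := by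
        have e1 : Q * ((F.a - κ) * (X + -Y) - (d.h1 * X + d.h2 * Y)) =
            ((F.a - κ) + d.h2) * (-(P * X + Q * Y)) + X * ((F.a - κ) * (P + Q) + (d.h2 * P - d.h1 * Q)) := by ring
        rw [e1]
        have e2 : 0 ≤ ((F.a - κ) + d.h2) * (-(P * X + Q * Y)) := mul_nonneg (by linarith) (by linarith)
        have e3 : 0 ≤ X * ((F.a - κ) * (P + Q) + (d.h2 * P - d.h1 * Q)) := mul_nonneg hx (by linarith)
        linarith
      have := nonneg_of_mul_nonneg_right key hQ0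
      linarith
  · -- both nonnegative: only if `X = 0` and `Q Y = 0`
    rw [abs_of_nonneg hx, abs_of_nonneg hy]
    have hP0 : 0 < P := by linarith
    have key : 0 ≤ P * ((F.a - κ) * (X + Y) - (d.h1 * X + d.h2 * Y)) := by
      have hX0 : X = 0 := by
        have e1 : 0 ≤ Q * Y := mul_nonneg hq0 hy
        have e2 : P * X ≤ 0 := by linarith
        nlinarith
      rw [hX0]
      have e1 : P * ((F.a - κ) * (0 + Y) - (d.h1 * 0 + d.h2 * Y)) =
          ((F.a - κ) + d.h1) * (-(P * 0 + Q * Y)) + Y * ((F.a - κ) * (P + Q) - (d.h2 * P - d.h1 * Q)) := by ring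
      rw [e1]
      rw [hX0] at hz'
      have e2 : 0 ≤ ((F.a - κ) + d.h1) * (-(P * 0 + Q * Y)) := mul_nonneg (by linarith) (by linarith)
      have e3 : 0 ≤ Y * ((F.a - κ) * (P + Q) - (d.h2 * P - d.h1 * Q)) := mul_nonneg hy (by linarith)
      linarith
    have := nonneg_of_mul_nonneg_right key hP0
    linarith

/-- The same with an error for a forward displacement. -/
theorem Adm.back' (hA : Adm F κ d) {z : V} {t : ℕ} (hz : F.co.tm z ≤ t) : κ * nm z - 2 * F.b * t ≤ F.a * nm z - d.H z := by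
  have h0 : F.co.tm (z - (t : ℤ) • dir false) ≤ 0 := by
    have e1 : F.co.tm ((t : ℤ) • dir false) = F.co.p * t := by
      unfold Co.tm
      simp [dir]
    rw [F.co.tm_sub, e1]
    have e2 := F.co.hp
    have e3 : (0 : ℤ) ≤ t := Int.natCast_nonneg t
    nlinarith
  have h1 := hA.back h0
  rw [d.H_sub] at h1
  have h2 : d.H ((t : ℤ) • dir false) = d.h1 * t := by
    unfold Dr.H
    simp [dir]
  rw [h2] at h1
  have h3 : nm (z - (t : ℤ) • dir false) ≥ nm z - t := by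
    have e1 := nm_add_le (z - (t : ℤ) • dir false) ((t : ℤ) • dir false)
    rw [sub_add_cancel] at e1
    have e2 : nm ((t : ℤ) • dir false) = t := by simp [nm, dir]
    linarith
  have h4 : (F.a - κ) * (nm z + t) ≥ (F.a - κ) * nm (z - (t : ℤ) • dir false) := by
    refine mul_le_mul_of_nonneg_left ?_ (by linarith [hA.kle83])
    have e1 := nm_add_le z (-((t : ℤ) • dir false))
    rw [← sub_eq_add_neg, nm_neg] at e1
    have e2 : nm ((t : ℤ) • dir false) = t := by simp [nm, dir]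
    linarith
  have h5 : (0 : ℝ) ≤ t := Nat.cast_nonneg t
  have h6 := hA.h1n
  have h7 : (F.a - κ) * t ≤ F.b * t := mul_le_mul_of_nonneg_right (by linarith [hA.κ0, F.ab]) h5
  have h8 : 0 ≤ F.b * t := mul_nonneg (F.a0.le.trans F.ab) h5
  have h9 : d.h1 * t ≤ F.b * t := mul_le_mul_of_nonneg_right hA.h1b h5
  nlinarith

/-- A displacement of time less than one step. -/
theorem Adm.jump (hA : Adm F κ d) {u u' : V} {m : ℤ} (h1 : m ≤ F.co.tm u) (h2 : u' = u ∨ F.co.tm u' < m + F.co.M) :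
    κ * nm (u' - u) - 2 * F.b * F.co.M ≤ F.a * nm (u' - u) - d.H (u' - u) := by
  have hM : 0 ≤ F.co.M := by linarith [F.co.M_pos]
  have h3 : F.co.tm (u' - u) ≤ (F.co.M.toNat : ℤ) := by
    rw [F.co.tm_sub, Int.toNat_of_nonneg hM]
    rcases h2 with rfl | h2 <;> linarith
  have h4 := hA.back' h3
  have h5 : ((F.co.M.toNat : ℕ) : ℝ) = (F.co.M : ℝ) := by
    have := Int.toNat_of_nonneg hM
    exact_mod_cast this
  rwa [h5] at h4

end adm

/-! ### Excesses -/

theorem Fm.bd (F : Fm) (η : Env) : Bd F.a F.b (F.tau η) := fun _ => ⟨F.g1 _, F.g2 _⟩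

/-- The excess of the restricted passage time. -/
noncomputable def XR (F : Fm) (d : Dr) (η : Env) (S : Set Edge) (x y : V) : ℝ := TR S (F.tau η) x y - d.H (y - x)

section exc

variable {F : Fm} {κ : ℝ} {d : Dr}

theorem X_eq_XR (F : Fm) (d : Dr) (η : Env) (a : Pt) (n : ℕ) (y : ℤ) :
    X F d η a n y = XR F d η (F.co.slab a.1 (a.1 + n)) (F.co.vt a) (F.co.vt (a + ((n : ℤ), y))) := by
  unfold X XR TT
  congr 1
  unfold al be Dr.H Co.vt
  simp only [Prod.fst_sub, Prod.snd_sub, Prod.fst_add, Prod.snd_add]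
  push_cast
  ring

/-- **Net backward walks are never lucky.** -/
theorem Adm.back_walk (hA : Adm F κ d) (η : Env) (w : grid.Walk x y) (h : F.co.tm y ≤ F.co.tm x) :
    κ * nm (y - x) ≤ cost (F.tau η) w - d.H (y - x) := by
  have h1 := hA.back (z := y - x) (by rw [F.co.tm_sub]; linarith)
  have h2 := le_cost_nm (F.bd η) F.a0.le w
  linarith

/-- **(CUT), excesses.** -/
theorem XR_CUT (hA : Adm F κ d) (η : Env) (w : grid.Walk x y) (hw : ∀ e ∈ wedges w, e ∈ S) :
    ∃ q p : V, q ∈ w.support ∧ p ∈ w.support ∧ (∀ z ∈ w.support, F.co.tm q ≤ F.co.tm z) ∧ F.co.tm y ≤ F.co.tm p ∧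
      Nonempty (WK (S ∩ F.co.sl (F.co.tm q) (F.co.tm p)) q p) ∧
      κ * nm (q - x) + XR F d η (S ∩ F.co.sl (F.co.tm q) (F.co.tm p)) q p + κ * nm (y - p) ≤
        cost (F.tau η) w - d.H (y - x) := by
  obtain ⟨q, p, h1, h2, h3, h4, h5, h6⟩ := TR_CUT F.co (F.bd η) F.a0.le w hw
  refine ⟨q, p, h1, h2, h3, h4, h5, ?_⟩
  have e1 := hA.back (z := q - x) (by rw [F.co.tm_sub]; linarith [h3 x w.start_mem_support])
  have e2 := hA.back (z := y - p) (by rw [F.co.tm_sub]; linarith)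
  have e3 : d.H (y - x) = d.H (q - x) + d.H (p - q) + d.H (y - p) := by
    rw [← d.H_add, ← d.H_add]
    congr 1
    abel
  unfold XR
  linarith

/-- **(JUMP), excesses.** -/
theorem XR_JUMP (hA : Adm F κ d) (η : Env) (w : grid.Walk x y) (hw : ∀ e ∈ wedges w, e ∈ S) (m : ℤ) (hm : m ≤ F.co.tm y) :
    ∃ u u' : V, u ∈ w.support ∧ u' ∈ w.support ∧ m ≤ F.co.tm u ∧ (u = x ∨ F.co.tm u < m + F.co.M) ∧ m ≤ F.co.tm u' ∧
      (u' = u ∨ F.co.tm u' < m + F.co.M) ∧
      Nonempty (WK (S ∩ {e | F.co.tm e.1 < m}) x u) ∧ Nonempty (WK (S ∩ {e | m ≤ F.co.tm e.1}) u' y) ∧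
      XR F d η (S ∩ {e | F.co.tm e.1 < m}) x u + (κ * nm (u' - u) - 2 * F.b * F.co.M) +
        XR F d η (S ∩ {e | m ≤ F.co.tm e.1}) u' y ≤ cost (F.tau η) w - d.H (y - x) := by
  obtain ⟨u, u', h1, h2, h3, h4, h5, h6, h7, h8, h9⟩ := TR_JUMP F.co (F.bd η) F.a0.le w hw m hm
  refine ⟨u, u', h1, h2, h3, h4, h5, h6, h7, h8, ?_⟩
  have e1 := hA.jump h3 h6
  have e3 : d.H (y - x) = d.H (u - x) + d.H (u' - u) + d.H (y - u') := by
    rw [← d.H_add, ← d.H_add]
    congr 1
    abel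
  unfold XR
  linarith

/-- The excess is at least the excess of a minimal path. -/
theorem XR_min (η : Env) (d : Dr) (hne : Nonempty (WK S x y)) : ∃ w : grid.Walk x y, w.IsPath ∧ (∀ e ∈ wedges w, e ∈ S) ∧
    cost (F.tau η) w - d.H (y - x) = XR F d η S x y := by
  obtain ⟨w, h1, h2, h3⟩ := TR_min (F.bd η) F.a0 hne
  exact ⟨w, h1, h2, by unfold XR; rw [h3]⟩

theorem XR_le (η : Env) (d : Dr) (w : grid.Walk x y) (hw : ∀ e ∈ wedges w, e ∈ S) :
    XR F d η S x y ≤ cost (F.tau η) w - d.H (y - x) := by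
  unfold XR
  linarith [TR_le (F.bd η) F.a0.le w hw]

theorem XR_anti {S' : Set Edge} (η : Env) (d : Dr) (hne : Nonempty (WK S x y)) (h : S ⊆ S') :
    XR F d η S' x y ≤ XR F d η S x y := by
  unfold XR
  linarith [TR_anti (F.bd η) F.a0.le hne h]

theorem XR_triangle {S' S'' : Set Edge} (η : Env) (d : Dr) (hxy : Nonempty (WK S x y)) (hyz : Nonempty (WK S' y z))
    (h1 : S ⊆ S'') (h2 : S' ⊆ S'') : XR F d η S'' x z ≤ XR F d η S x y + XR F d η S' y z := by
  have e3 : d.H (z - x) = d.H (y - x) + d.H (z - y) := by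
    rw [← d.H_add]
    congr 1
    abel
  unfold XR
  linarith [TR_triangle (F.bd η) F.a0.le hxy hyz h1 h2]

/-- **(0.3)**: every walk is at most one slab walk plus two net backward ends. -/
theorem XR_CUT_TR (hA : Adm F κ d) (η : Env) (hne : Nonempty (WK S x y)) :
    ∃ q p : V, F.co.tm q ≤ F.co.tm x ∧ F.co.tm q ≤ F.co.tm p ∧ F.co.tm y ≤ F.co.tm p ∧
      Nonempty (WK (S ∩ F.co.sl (F.co.tm q) (F.co.tm p)) q p) ∧
      κ * nm (q - x) + XR F d η (S ∩ F.co.sl (F.co.tm q) (F.co.tm p)) q p + κ * nm (y - p) ≤ XR F d η S x y := by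
  obtain ⟨w, -, h2, h3⟩ := XR_min (F := F) η d hne
  obtain ⟨q, p, h4, h5, h6, h7, h8, h9⟩ := XR_CUT hA η w h2
  rw [h3] at h9
  exact ⟨q, p, h6 x w.start_mem_support, h6 p h5, h7, h8, h9⟩

end exc

end Pool.Agent.W_1b8d5d_p
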