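import Pool.Agent.W_1b8d5d_p.AllP
import Pool.Agent.W_1b8d5d_p.WCut
import Pool.Agent.W_1b8d5d_sc.FWalk

/-!
Track P2 (MP_1b8d5d_pr), proofs row 653, step (3b), LOW: every walk with nonnegative times from the row `0` to the block time `N`
(it may go higher in between) costs at least `c (E / w) |lateral displacement| - K E`, with probability at least `1 - e`. (helper33)
-/

namespace Pool.Agent.W_1b8d5d_p

open MeasureTheory Set
open Pool.Agent.W_1b8d5d_h85 (V nm dir Edge Env grid ke wedges cost Bd sh nm_nonneg)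
open Pool.Agent.W_1b8d5d_h4p (LawH)

noncomputable section

variable {F : Fm} {κ K a c0 C0' k1 K1 t : ℝ} {A : Set Dr} {d : Dr}

/-- The deterministic bound. -/
theorem walk_low33 (hd : Adm F κ d) (hk : Lat F κ k1 K1 d) (ht : 0 ≤ t) (htk : t ≤ k1) (hk1 : k1 ≤ κ * F.co.M) (η : Env)
    {x : ℤ} {W : ℝ} (hW : 0 ≤ W) {N : ℕ} (hN : 1 ≤ N) {z : V} (hz : F.co.tm z = F.co.L * N)
    (w : grid.Walk (F.co.vt (0, x)) z) (hw : ∀ u ∈ w.support, 0 ≤ F.co.tm u) :
    t * |latV F d z - x| - MT F d t (k1 - t) x W (N + 1) η - CP F ≤ exc F d η w := by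
  have hL := F.co.L_pos
  have hLM := F.co.L_eq
  have hx0 : F.co.tm (F.co.vt (0, x)) = 0 := by
    rw [Co.tm_vt]
    simp
  have hLN : F.co.L ≤ F.co.L * N := by
    have : (1 : ℤ) ≤ N := by exact_mod_cast hN
    nlinarith
  obtain ⟨u, v, w₁, h, w₂, e, h1, h2⟩ := Pool.Agent.W_1b8d5d_sc.split_first (fun y => F.co.L * (N : ℤ) ≤ F.co.tm y) w
    (by rw [hx0, not_le]; omega) ⟨z, w.end_mem_support, hz.ge⟩
  have hu := h1 u w₁.end_mem_support
  rw [not_le] at hu
  have hv : F.co.tm v ≤ F.co.L * N + F.co.L := by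
    obtain ⟨s, hs | hs⟩ := h
    · rw [hs, Co.tm_add]
      have := F.co.tm_dir_le s
      omega
    · have h3 := congrArg F.co.tm hs
      rw [Co.tm_add] at h3
      have := F.co.tm_dir_nonneg s
      omega
  have e2 : w = (w₁.append (.cons h .nil)).append w₂ := by
    rw [e, ← SimpleGraph.Walk.append_assoc, SimpleGraph.Walk.cons_append, SimpleGraph.Walk.nil_append]
  have hsup : ∀ y ∈ (w₁.append (SimpleGraph.Walk.cons h .nil)).support, 0 ≤ F.co.tm y ∧
      F.co.tm y ≤ F.co.L * ((N + 1 : ℕ) : ℤ) := by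
    intro y hy
    have hy2 : y ∈ w.support := by
      rw [e2, SimpleGraph.Walk.mem_support_append_iff]
      exact Or.inl hy
    refine ⟨hw y hy2, ?_⟩
    push_cast
    rw [mul_add, mul_one]
    rw [SimpleGraph.Walk.mem_support_append_iff] at hy
    rcases hy with hy | hy
    · have := h1 y hy
      rw [not_le] at this
      omega
    · rw [SimpleGraph.Walk.support_cons, SimpleGraph.Walk.support_nil, List.mem_cons, List.mem_singleton] at hy
      rcases hy with rfl | rfl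
      · omega
      · exact hv
  have hl0 : latV F d (F.co.vt (0, x)) = x := by
    rw [latV_vt]
    simp [lat]
  have h3 := walk_MT (o := x) (W := W) (k := N + 1) hd hk ht htk hk1 η (w₁.append (.cons h .nil)) hsup
    (by rw [hl0]; exact ⟨le_rfl, by linarith⟩)
  rw [hl0] at h3
  have h4 := exc_ge hd η w₂ (T := 0) (by rw [hz]; push_cast; omega)
  have h5 := latV_lip hk z v
  have h6 := mul_le_mul_of_nonneg_left h5 hk.k0.le
  have h7 := mul_le_mul_of_nonneg_right hk.hκ (nm_nonneg (z - v))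
  have h8 : |latV F d z - x| ≤ |latV F d z - latV F d v| + |latV F d v - x| := by
    have e3 : latV F d z - x = (latV F d z - latV F d v) + (latV F d v - x) := by ring
    rw [e3]
    exact abs_add_le _ _
  have h9 := mul_le_mul_of_nonneg_left h8 ht
  have h10 := mul_le_mul_of_nonneg_right htk (abs_nonneg (latV F d z - latV F d v))
  rw [e2, exc_append]
  push_cast at h4
  nlinarith

/-- One scale. -/
theorem low_scale33 (hd : Adm F κ d) (hk : Lat F κ k1 K1 d) (hk1 : k1 ≤ κ * F.co.M) {E w c C : ℝ} (hE : 0 < E) (hw : 0 < w)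
    (hc : 0 < c) (h1 : c * E / w ≤ k1 / 2) (h2 : 1 ≤ c / E * (k1 / 2 * w)) (hCP : CP F ≤ E) {N : ℕ} (hN : 1 ≤ N)
    (hL : ∀ o : ℝ, ∫ η, Real.exp (c / E * TL F d (c * E / w) o w (N + 1) η) ∂(law F) ≤ C) (x : ℤ) (k : ℝ) :
    ∃ B : Set Env, MeasurableSet B ∧ (law F).real B ≤ 5 * C * Real.exp (-(c * k)) ∧ ∀ η, η ∉ B →
      ∀ (z : V), F.co.tm z = F.co.L * N → ∀ g : grid.Walk (F.co.vt (0, x)) z, (∀ u ∈ g.support, 0 ≤ F.co.tm u) →
        c * E / w * |latV F d z - x| - (k + 1) * E ≤ exc F d η g := by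
  have hsl := sl_of hd
  have ht0 : 0 ≤ c * E / w := by positivity
  have hk0 := hk.k0
  have htk : c * E / w ≤ k1 := by linarith
  have hδ : k1 / 2 ≤ k1 - c * E / w := by linarith
  have hδ0 : 0 < k1 - c * E / w := by linarith
  refine ⟨{η | k * E ≤ MT F d (c * E / w) (k1 - c * E / w) x w (N + 1) η}, measurableSet_le measurable_const (MT_meas hsl),
    ?_, fun η hη z hz g hg => ?_⟩
  · have h3 := MT_tail hsl (htk.trans hk1) hδ0 hw (div_pos hc hE) hL x (k * E)
    have hC0 : 0 ≤ C := (integral_nonneg fun η => (Real.exp_pos _).le).trans (hL 0)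
    have e1 : c / E * (k * E) = c * k := by field_simp
    rw [e1] at h3
    refine h3.trans (mul_le_mul_of_nonneg_right (mul_le_mul_of_nonneg_right ?_ hC0) (Real.exp_pos _).le)
    have h4 : 1 ≤ c / E * (k1 - c * E / w) * w := by
      refine h2.trans ?_
      rw [mul_assoc]
      exact mul_le_mul_of_nonneg_left (mul_le_mul_of_nonneg_right hδ hw.le) (by positivity)
    have h5 : 2 / (c / E * (k1 - c * E / w) * w) ≤ 2 := div_le_self (by norm_num) h4
    linarith
  · have h3 := walk_low33 hd hk ht0 htk hk1 η hw.le hN hz g hg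
    have h4 : MT F d (c * E / w) (k1 - c * E / w) x w (N + 1) η < k * E := not_le.1 hη
    linarith

/-- **LOW**, all scales: `N ≤ H n`, start in the row `0` at the position `x`, end at the block time `N`. -/
theorem low33 (hL : LawH F c0 C0') (hD : Dirs F κ K A) (ha : 0 < a) (H : ℕ) :
    ∃ (c C : ℝ) (n0 : ℕ), 0 < c ∧ c ≤ 1 ∧ 1 ≤ C ∧ 1 ≤ n0 ∧ ∀ d ∈ A, ∀ n : ℕ, n0 ≤ n → ∀ N : ℕ, 1 ≤ N → N ≤ H * n →
      ∀ (x : ℤ) (k : ℝ), ∃ B : Set Env, MeasurableSet B ∧ (law F).real B ≤ C * Real.exp (-(c * k)) ∧ ∀ η, η ∉ B →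
        ∀ (z : V), F.co.tm z = F.co.L * N → ∀ g : grid.Walk (F.co.vt (0, x)) z, (∀ u ∈ g.support, 0 ≤ F.co.tm u) →
          c * EE F d n / (n * vA a F d n) * |latV F d z - x| - (k + 1) * EE F d n ≤ exc F d η g := by
  obtain ⟨k1, K1, hk1, hlat⟩ := hD.lat_all
  obtain ⟨c, C, n0, hc, hc1, hC, hn0, h⟩ := (lstarP_all hL hD ha).scale hD (hD.rate hL) (hD.grow_law hL) ha hk1 (H + 1)
  refine ⟨c, 5 * C, n0, hc, hc1, by linarith, hn0, fun d hd n hn N hN hNH x k => ?_⟩
  obtain ⟨h1, h2, h3, h4, h5⟩ := h d hd n hn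
  refine low_scale33 (hD.adm d hd) (hlat d hd).2 (hlat d hd).1 (EE_pos F d n) h1 hc h2 h3 h4 hN (h5 (N + 1) ?_) x k
  have : 1 ≤ n := hn0.trans hn
  nlinarith

/-- **LOW** with an error probability `e`, and its form with the unit of a later time `m` ((WG)): a lateral displacement of at
least `ρ w_m` costs at least `c ρ E_m - K0 E_n`. -/
theorem low_e33 (hL : LawH F c0 C0') (hD : Dirs F κ K A) (ha : 0 < a) (H : ℕ) {e : ℝ} (he : 0 < e) :
    ∃ (c K0 : ℝ) (n0 : ℕ), 0 < c ∧ c ≤ 1 ∧ 0 ≤ K0 ∧ 1 ≤ n0 ∧ ∀ d ∈ A, ∀ n : ℕ, n0 ≤ n → ∀ N : ℕ, 1 ≤ N → N ≤ H * n →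
      ∀ x : ℤ, ∃ B : Set Env, MeasurableSet B ∧ (law F).real B ≤ e ∧ ∀ η, η ∉ B →
        ∀ (z : V), F.co.tm z = F.co.L * N → ∀ g : grid.Walk (F.co.vt (0, x)) z, (∀ u ∈ g.support, 0 ≤ F.co.tm u) →
          c * EE F d n / (n * vA a F d n) * |latV F d z - x| - K0 * EE F d n ≤ exc F d η g ∧
          ∀ (m : ℕ) (ρ : ℝ), n ≤ m → ρ * (m * vA a F d m) ≤ |latV F d z - x| →
            c / 2 * ρ * EE F d m - K0 * EE F d n ≤ exc F d η g := by
  obtain ⟨c, C, n0, hc, hc1, hC, hn0, h⟩ := low33 hL hD ha H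
  have hC0 : 0 < C := by linarith
  obtain ⟨k, hk⟩ : ∃ k : ℝ, 0 ≤ k ∧ C * Real.exp (-(c * k)) ≤ e := by
    refine ⟨max 0 (Real.log (C / e) / c), le_max_left _ _, ?_⟩
    have h1 : Real.log (C / e) ≤ c * max 0 (Real.log (C / e) / c) := by
      have := mul_le_mul_of_nonneg_left (le_max_right 0 (Real.log (C / e) / c)) hc.le
      rwa [mul_div_cancel₀ _ hc.ne'] at this
    calc C * Real.exp (-(c * max 0 (Real.log (C / e) / c))) ≤ C * Real.exp (-Real.log (C / e)) :=
          mul_le_mul_of_nonneg_left (Real.exp_le_exp.2 (by linarith)) hC0.le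
      _ = e := by
          rw [Real.exp_neg, Real.exp_log (by positivity)]
          field_simp
  refine ⟨c, k + 1, n0, hc, hc1, by linarith [hk.1], hn0, fun d hd n hn N hN hNH x => ?_⟩
  obtain ⟨B, hB, hP, hlow⟩ := h d hd n hn N hN hNH x k
  refine ⟨B, hB, hP.trans hk.2, fun η hη z hz g hg => ?_⟩
  have h1 := hlow η hη z hz g hg
  refine ⟨h1, fun m ρ hnm hρ => ?_⟩
  have hn1 : 1 ≤ n := hn0.trans hn
  have hn0' : (0 : ℝ) < n := by exact_mod_cast hn1
  have hv := hD.vA_pos hd ha hn1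
  have hE := EE_pos F d n
  have hEm := EE_pos F d m
  obtain ⟨w, hw⟩ : ∃ w : ℝ, w = n * vA a F d n := ⟨_, rfl⟩
  obtain ⟨W, hW⟩ : ∃ W : ℝ, W = m * vA a F d m := ⟨_, rfl⟩
  have hw0 : 0 < w := by
    rw [hw]
    positivity
  have h2 := hD.EE_w_two hd ha.le hn1 hnm
  rw [← hw] at h1 h2
  rw [← hW] at h2 hρ
  have hct : 0 < c * EE F d n / w := by positivity
  rcases le_or_gt ρ 0 with hρ0 | hρ0
  · have h3 : c / 2 * ρ * EE F d m ≤ 0 := by
      have : c / 2 * ρ ≤ 0 := mul_nonpos_of_nonneg_of_nonpos (by linarith) hρ0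
      exact mul_nonpos_of_nonpos_of_nonneg this hEm.le
    have h4 : 0 ≤ c * EE F d n / w * |latV F d z - x| := mul_nonneg hct.le (abs_nonneg _)
    linarith
  · have h3 := mul_le_mul_of_nonneg_left hρ hct.le
    have h4 : c / 2 * ρ * EE F d m ≤ c * EE F d n / w * (ρ * W) := by
      have e0 : c * EE F d n / w * (ρ * W) = c * EE F d n * (ρ * W) / w := by ring
      rw [e0, le_div_iff₀ hw0]
      have h5 := mul_le_mul_of_nonneg_left h2 (by positivity : 0 ≤ c * ρ / 2)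
      have e1 : c / 2 * ρ * EE F d m * w = c * ρ / 2 * (EE F d m * w) := by ring
      have e2 : c * EE F d n * (ρ * W) = c * ρ / 2 * (2 * (W * EE F d n)) := by ring
      rw [e1, e2]
      exact h5
    linarith

end

end Pool.Agent.W_1b8d5d_p
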