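import Pool.Agent.W_1b8d5d_p.UnitL
import Pool.Agent.W_1b8d5d_p.UnitT

/-!
MP_1b8d5d_pr, Track P2 (row 653), Step 3: the mean costs of the deterministic displacements: from `(0, L)` to the point `a`
(duration `2 r`: a cheap displacement of duration `r`, then `N` pieces of duration `δ = r / N`), from the end `q` of the lucky strip to
`b`, and from the points `0`, `L`, `2 L` of the row `0` to `b`. (helper57)
-/

set_option autoImplicit false

namespace Pool.Agent.W_1b8d5d_p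

open MeasureTheory Set

noncomputable section

variable {F : Fm} {κ K : ℝ} {Ds : Set Dr} {d : Dr}

/-- The width grows at most by the factor `2` between `n` and `m ≤ 2 n`. -/
theorem Dirs.w_two57 (h : Dirs F κ K Ds) (hd : d ∈ Ds) {a : ℝ} (ha : 0 ≤ a) {n m : ℕ} (hn : 1 ≤ n) (hnm : n ≤ m)
    (hm : m ≤ 2 * n) : m * vA a F d m ≤ 2 * (n * vA a F d n) := by
  have hn0 : (0 : ℝ) < n := by exact_mod_cast hn
  have hm0 : (0 : ℝ) < m := by exact_mod_cast (show 0 < m by omega)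
  have hE := EE_pos F d n
  obtain ⟨c, hc⟩ : ∃ c : ℝ, c = 2 * n / m := ⟨_, rfl⟩
  have hc1 : 1 ≤ c := by
    rw [hc, le_div_iff₀ hm0, one_mul]
    exact_mod_cast hm
  have hcm : c * m = 2 * n := by rw [hc]; field_simp
  have h1 : vA a F d m ≤ vA (c * a) F d n := by
    rw [h.vA_wd hd ha, h.vA_wd hd (mul_nonneg (by linarith) ha)]
    obtain ⟨r, j, hj, h1⟩ := h.gw hd
    refine wd_mono hj h1 ?_
    have h2 := EE_add F d n (m - n)
    rw [Nat.add_sub_cancel' hnm] at h2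
    have h3 := EE_mono F d (show m - n ≤ n by omega)
    have h4 : a * n * EE F d m ≤ a * n * (2 * EE F d n) :=
      mul_le_mul_of_nonneg_left (by linarith) (mul_nonneg ha hn0.le)
    rw [div_le_div_iff₀ hm0 hn0]
    calc a * EE F d m * n = a * n * EE F d m := by ring
      _ ≤ a * n * (2 * EE F d n) := h4
      _ = (2 * n) * (a * EE F d n) := by ring
      _ = (c * m) * (a * EE F d n) := by rw [hcm]
      _ = c * a * EE F d n * m := by ring
  have h2 := h1.trans (h.vA_level_mul hd ha hc1 n)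
  calc m * vA a F d m ≤ m * (c * vA a F d n) := mul_le_mul_of_nonneg_left h2 hm0.le
    _ = (c * m) * vA a F d n := by ring
    _ = 2 * (n * vA a F d n) := by rw [hcm]; ring

/-- Equal pieces. -/
theorem ep_mul57 (F : Fm) (d : Dr) {δ : ℕ} (hδ : 1 ≤ δ) (y : ℤ) {N : ℕ} (hN : 1 ≤ N) :
    ep F d (N * δ) (N * y) ≤ N * ep F d δ y := by
  induction N, hN using Nat.le_induction with
  | base => simp
  | succ N hN ih =>
    have h1 := ep_sub F d (m := N * δ) (n := δ) (Nat.mul_pos hN hδ) hδ (N * y) y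
    have e1 : (N + 1) * δ = N * δ + δ := by ring
    have e2 : ((N + 1 : ℕ) : ℤ) * y = N * y + y := by push_cast; ring
    rw [e1, e2]
    push_cast
    linarith

/-- `N` cheapest pieces. -/
theorem ep_xs57 (hd : Adm F κ d) (ht : Touch F d) {δ N r : ℕ} (hδ : 1 ≤ δ) (hN : 1 ≤ N) (hr : δ ≤ r) :
    ep F d (N * δ) (N * xs F d δ) ≤ 2 * N * EE F d r := by
  have h1 := ep_mul57 F d hδ (xs F d δ) hN
  have h2 := ep_xs_le hd ht hδ
  have h3 := le_EE F d hr
  have h4 := Cr_pos F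
  have h5 : ep F d δ (xs F d δ) ≤ 2 * EE F d r := by linarith
  have h6 := mul_le_mul_of_nonneg_left h5 (Nat.cast_nonneg (α := ℝ) N)
  linarith

/-- A cheap displacement of duration `r`, then `N` cheapest pieces of duration `r / N`. -/
theorem ep_a57 (hd : Adm F κ d) (ht : Touch F d) {C' : ℝ} {r δ N : ℕ} (hδ : 1 ≤ δ) (hN : 1 ≤ N) (hr : r = N * δ) {y : ℤ}
    (hy : e F d r y ≤ C' * EE F d r) : ep F d (2 * r) (y + N * xs F d δ) ≤ (C' + 1 + 2 * N) * EE F d r := by
  have hr1 : 1 ≤ r := by rw [hr]; exact Nat.mul_pos hN hδ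
  have hδr : δ ≤ r := by rw [hr]; exact Nat.le_mul_of_pos_left δ hN
  have h1 := ep_sub F d hr1 hr1 y (N * xs F d δ)
  have h2 := ep_le_EE hd ht hr1 le_rfl y
  have h3 := ep_xs57 hd ht hδ hN hδr
  rw [← hr] at h3
  rw [two_mul]
  linarith

/-- Markov's inequality for the costs. -/
theorem ep_markov57 (hd : Adm F κ d) (P : Pt) {n : ℕ} (hn : 1 ≤ n) (y : ℤ) {B s : ℝ} (hs : 0 < s) (hB : ep F d n y ≤ B) :
    (law F).real {η | s ≤ X F d η P n y} ≤ B / s := by
  have hi : Integrable (fun η => max (X F d η P n y) 0) (law F) := (X_integrable hd P hn y).pos_part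
  have h1 := mul_meas_ge_le_integral_of_nonneg (μ := law F) (f := fun η => max (X F d η P n y) 0)
    (Filter.Eventually.of_forall fun _ => le_max_right _ _) hi s
  rw [ep_at] at h1
  have h2 : (law F).real {η | s ≤ X F d η P n y} ≤ (law F).real {η | s ≤ max (X F d η P n y) 0} :=
    measureReal_mono fun η hη => le_max_of_le_left (show s ≤ X F d η P n y from hη)
  rw [le_div_iff₀ hs]
  calc (law F).real {η | s ≤ X F d η P n y} * s ≤ (law F).real {η | s ≤ max (X F d η P n y) 0} * s :=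
        mul_le_mul_of_nonneg_right h2 hs.le
    _ = s * (law F).real {η | s ≤ max (X F d η P n y) 0} := mul_comm _ _
    _ ≤ ep F d n y := h1
    _ ≤ B := hB

/-- **THE MEANS of Step 3.** `b - (0, x) = (m, L + (ym + N xs δ) + k + mid - x)`. -/
theorem means57 (hD : Dirs F κ K Ds) (hR : Rate F Ds) {a c0 C' : ℝ} (ha : 0 < a) (hc0 : 0 < c0)
    (hch : CheapI a F Ds c0 C') :
    ∃ n0 : ℕ, 1 ≤ n0 ∧ ∀ d ∈ Ds, ∀ m m1 : ℕ, n0 ≤ m → m1 ≤ m → m ≤ 2 * m1 → ∃ mid : ℤ,
      |(mid : ℝ) - d.v * m1| ≤ 2 * (m1 * vA a F d m1) + 1 ∧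
      (∀ t : ℤ, 8 * |(t : ℝ)| ≤ c0 * (m * vA a F d m) → ep F d m1 (mid + t) ≤ (C' + 1) * EE F d m1) ∧
      (∀ P : Pt, ∫ η, max (X F d η P m1 mid) 0 ∂(law F) ≤ (C' + 1) * EE F d m1) ∧
      ∀ r δ N M' : ℕ, 1 ≤ δ → 1 ≤ N → r = N * δ → 1 ≤ M' → 2 * r + M' + m1 = m → ∀ (ym k : ℤ) (C3 : ℝ),
        e F d r ym ≤ C' * EE F d r → ep F d M' k ≤ C3 * EE F d m →
        (∀ P : Pt, ∫ η, max (X F d η P (2 * r) (ym + N * xs F d δ)) 0 ∂(law F) ≤ (C' + 1 + 2 * N) * EE F d r) ∧
        ∀ L x : ℤ, 8 * (L : ℝ) ≤ c0 * (m * vA a F d m) → |x - L| ≤ L →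
          ep F d m (L + (ym + N * xs F d δ) + k + mid - x) ≤ (2 * |C'| + 2 + 2 * N + |C3|) * EE F d m := by
  obtain ⟨n0, hn0, hw⟩ := hD.w_large hR ha (8 / c0 / Cr F)
  refine ⟨n0, hn0, fun d hd m m1 hm hm1 hm2 => ?_⟩
  have hadm := hD.adm d hd
  have ht := hD.touch d hd
  have hm1' : 1 ≤ m1 := by have := hn0.trans hm; omega
  have hm0 : (0 : ℝ) < m := by exact_mod_cast (show 0 < m by omega)
  have hCr := Cr_pos F
  have hEm := EE_pos F d m
  have hEm1 := EE_pos F d m1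
  obtain ⟨lo, hi, h1, h2, h3, h4⟩ := hch d hd m1 hm1'
  -- the width is large
  have h5 : 8 ≤ c0 * (m * vA a F d m) := by
    have h6 := hw d hd m hm
    have h7 : 8 / c0 ≤ m * vA a F d m := by
      refine le_trans ?_ h6
      calc 8 / c0 = 8 / c0 / Cr F * Cr F := by field_simp
        _ ≤ 8 / c0 / Cr F * EE F d m := mul_le_mul_of_nonneg_left (Cr_le_EE F d m) (by positivity)
    rw [div_le_iff₀ hc0] at h7
    linarith
  have h6 := hD.w_two57 hd ha.le hm1' hm1 hm2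
  have h7 : c0 * (m * vA a F d m) ≤ 2 * (c0 * (m1 * vA a F d m1)) := by
    have := mul_le_mul_of_nonneg_left h6 hc0.le
    linarith
  obtain ⟨mid, hmid⟩ : ∃ mid : ℤ, mid = (lo + hi) / 2 := ⟨_, rfl⟩
  have hmid1 : 2 * mid ≤ lo + hi := by omega
  have hmid2 : lo + hi ≤ 2 * mid + 1 := by omega
  have hlh : lo ≤ hi := h1.trans h2
  have hml : lo ≤ mid := by omega
  have hmh : mid ≤ hi := by omega
  have hmid1' : 2 * (mid : ℝ) ≤ lo + hi := by exact_mod_cast hmid1
  have hmid2' : (lo : ℝ) + hi ≤ 2 * mid + 1 := by exact_mod_cast hmid2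
  have key : ∀ t : ℤ, 8 * |(t : ℝ)| ≤ c0 * (m * vA a F d m) → ep F d m1 (mid + t) ≤ (C' + 1) * EE F d m1 := by
    intro t ht8
    have ht1 := abs_le.1 (le_refl |(t : ℝ)|)
    have g1 : lo ≤ mid + t := by
      have : (lo : ℝ) ≤ mid + t := by linarith [ht1.1]
      exact_mod_cast this
    have g2 : mid + t ≤ hi := by
      have : (mid : ℝ) + t ≤ hi := by linarith [ht1.2]
      exact_mod_cast this
    have g3 := ep_le_EE hadm ht hm1' le_rfl (mid + t)
    have g4 := (h4 _ g1 g2).1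
    linarith
  refine ⟨mid, (h4 mid hml hmh).2, key, fun P => ?_, ?_⟩
  · rw [ep_at]
    have h8 := key 0 (by simpa using by linarith)
    rwa [add_zero] at h8
  intro r δ N M' hδ hN hr hM' hsum ym k C3 hym hk
  have hr1 : 1 ≤ r := by rw [hr]; exact Nat.mul_pos hN hδ
  have ha57 := ep_a57 hadm ht hδ hN hr hym
  refine ⟨fun P => by rw [ep_at]; exact ha57, fun L x hL hx => ?_⟩
  have hx8 : 8 * |((L - x : ℤ) : ℝ)| ≤ c0 * (m * vA a F d m) := by
    have h8 : |((L - x : ℤ) : ℝ)| ≤ L := by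
      rw [← Int.cast_abs, abs_sub_comm]
      exact_mod_cast hx
    linarith
  have h8 := key (L - x) hx8
  have h9 := ep_sub F d (m := 2 * r + M') (n := m1) (by omega) hm1' ((ym + N * xs F d δ) + k) (mid + (L - x))
  have h10 := ep_sub F d (m := 2 * r) (n := M') (by omega) hM' (ym + N * xs F d δ) k
  have e1 : (ym + N * xs F d δ) + k + (mid + (L - x)) = L + (ym + N * xs F d δ) + k + mid - x := by ring
  rw [hsum, e1] at h9
  have hEr := EE_mono F d (show r ≤ m by omega)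
  have hEm1' := EE_mono F d hm1
  have hEr0 := EE_pos F d r
  have g1 : (C' + 1 + 2 * N) * EE F d r ≤ (|C'| + 1 + 2 * N) * EE F d m := by
    have : C' + 1 + 2 * (N : ℝ) ≤ |C'| + 1 + 2 * N := by linarith [le_abs_self C']
    exact mul_le_mul this hEr hEr0.le (by positivity)
  have g2 : (C' + 1) * EE F d m1 ≤ (|C'| + 1) * EE F d m :=
    mul_le_mul (by linarith [le_abs_self C']) hEm1' hEm1.le (by positivity)
  have g3 : C3 * EE F d m ≤ |C3| * EE F d m := mul_le_mul_of_nonneg_right (le_abs_self _) hEm.le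
  linarith

end

end Pool.Agent.W_1b8d5d_p
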