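import Pool.Agent.W_1b8d5d_p.SlDefs
import Pool.Agent.W_1b8d5d_p.UnitT
import Pool.Agent.W_1b8d5d_p.EdCon61

/-!
MP_1b8d5d_pr, Track P2 (row 653), Step 1: the oscillation of the profile of the lucks. (helper71)

If the displacement from `(0, x)` to `(m, y)` is cheap, then the luck `h_n(x)` and the luck of the point `(m, y)` differ by a multiple of
the unit `EE F d m`, in the mean over the times `n` in `(N, 2 N]`: the difference is bounded below by a cost, and the mean of the
difference telescopes.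
-/

set_option autoImplicit false

namespace Pool.Agent.W_1b8d5d_p

open MeasureTheory Set
open Pool.Agent.W_1b8d5d_h4p (LawH Sf)

noncomputable section

variable {F : Fm} {κ K : ℝ} {A : Set Dr} {d : Dr}

/-- The mean luck is at least minus the unit. -/
theorem VV_mean_ge71 (hd : Adm F κ d) {n : ℕ} (hn : 1 ≤ n) : -es F d n ≤ ∫ η, VV F d η 0 n ∂(law F) := by
  have h1 : ∀ y, -(∫ η, VV F d η 0 n ∂(law F)) ≤ ep F d n y := by
    intro y
    have h2 : ∫ η, -X F d η 0 n y ∂(law F) ≤ ∫ η, VV F d η 0 n ∂(law F) :=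
      integral_mono (X_integrable hd 0 hn y).neg (VV_integrable hd 0 hn) fun η => neg_X_le_VV hd η 0 hn y
    rw [integral_neg, X_mean] at h2
    have h3 := e_le_ep F d hn y
    linarith
  have h4 : -(∫ η, VV F d η 0 n ∂(law F)) ≤ es F d n := le_ciInf h1
  linarith

/-- A telescoping sum. -/
theorem tele71 (g : ℕ → ℝ) {m N : ℕ} (hm : m ≤ N) :
    ∑ n ∈ Finset.Ioc N (2 * N), (g n - g (n - m)) =
      ∑ n ∈ Finset.Ioc (2 * N - m) (2 * N), g n - ∑ n ∈ Finset.Ioc (N - m) N, g n := by
  have h1 : ∑ n ∈ Finset.Ioc N (2 * N), g (n - m) = ∑ n ∈ Finset.Ioc (N - m) (2 * N - m), g n := by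
    refine Finset.sum_bij (fun n _ => n - m) ?_ ?_ ?_ ?_
    · intro n hn
      simp only [Finset.mem_Ioc] at hn ⊢
      omega
    · intro n hn n' hn' h
      simp only [Finset.mem_Ioc] at hn hn'
      omega
    · intro n hn
      simp only [Finset.mem_Ioc] at hn
      exact ⟨n + m, by simp only [Finset.mem_Ioc]; omega, by omega⟩
    · intro n _
      rfl
  have h2 := Finset.sum_Ioc_consecutive g (show N - m ≤ N by omega) (show N ≤ 2 * N by omega)
  have h3 := Finset.sum_Ioc_consecutive g (show N - m ≤ 2 * N - m by omega) (show 2 * N - m ≤ 2 * N by omega)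
  rw [Finset.sum_sub_distrib, h1]
  linarith

/-- The unit of a larger time. -/
theorem mul_EE_le71 (F : Fm) (d : Dr) {m N : ℕ} (hm : 1 ≤ m) (hN : m ≤ N) : m * EE F d N ≤ 2 * N * EE F d m := by
  have h1 : N ≤ (N / m + 1) * m := by
    have h7 := Nat.div_add_mod N m
    have h8 := Nat.mod_lt N hm
    rw [Nat.add_mul, Nat.mul_comm (N / m) m]
    omega
  have h2 : (N / m + 1) * m ≤ 2 * N := by
    have h7 := Nat.div_mul_le_self N m
    rw [Nat.add_mul]
    omega
  have h3 := (EE_mono F d h1).trans (EE_mul F d m (Nat.succ_pos (N / m)))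
  have h4 : (((N / m + 1 : ℕ) : ℝ)) * m ≤ 2 * N := by exact_mod_cast h2
  have h5 := EE_pos F d m
  have hm0 : (0 : ℝ) < m := by exact_mod_cast hm
  calc (m : ℝ) * EE F d N ≤ m * (((N / m + 1 : ℕ) : ℝ) * EE F d m) := mul_le_mul_of_nonneg_left h3 hm0.le
    _ = (((N / m + 1 : ℕ) : ℝ) * m) * EE F d m := by ring
    _ ≤ 2 * N * EE F d m := mul_le_mul_of_nonneg_right h4 h5.le

/-- The average of the mean increments of the lucks. -/
theorem av_incr71 (hd : Adm F κ d) (ht : Touch F d) {m N : ℕ} (hm : 1 ≤ m) (hN : m ≤ N) :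
    (av N fun n => (∫ η, VV F d η 0 n ∂(law F)) - ∫ η, VV F d η 0 (n - m) ∂(law F)) ≤ 2 * EE F d m := by
  have hN0 : (0 : ℝ) < N := by exact_mod_cast (by omega : 0 < N)
  unfold av
  rw [div_le_iff₀ hN0, tele71 (fun n => ∫ η, VV F d η 0 n ∂(law F)) hN]
  have h1 : ∑ n ∈ Finset.Ioc (2 * N - m) (2 * N), ∫ η, VV F d η 0 n ∂(law F) ≤ 0 := by
    refine Finset.sum_nonpos fun n hn => ?_
    rw [Finset.mem_Ioc] at hn
    exact VV_mean_le hd ht (by omega)
  have h2 : ∑ n ∈ Finset.Ioc (N - m) N, -(∫ η, VV F d η 0 n ∂(law F)) ≤ ∑ _n ∈ Finset.Ioc (N - m) N, EE F d N := by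
    refine Finset.sum_le_sum fun n hn => ?_
    rw [Finset.mem_Ioc] at hn
    have h3 := VV_mean_ge71 hd (n := n) (by omega)
    have h4 := le_EE F d hn.2
    have h5 := Cr_pos F
    linarith
  rw [Finset.sum_neg_distrib, Finset.sum_const, Nat.card_Ioc, nsmul_eq_mul, show N - (N - m) = m by omega] at h2
  have h6 := mul_EE_le71 F d hm hN
  linarith

/-- The difference of the lucks for one time. -/
theorem osc_one71 (hd : Adm F κ d) {m n : ℕ} (hm : 1 ≤ m) (hn : m < n) (x y : ℤ) :
    ∫ η, |VV F d η (0, x) n - VV F d η ((m : ℤ), y) (n - m)| ∂(law F) ≤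
      ((∫ η, VV F d η 0 n ∂(law F)) - ∫ η, VV F d η 0 (n - m) ∂(law F)) + 2 * ep F d m (y - x) := by
  have i1 : Integrable (fun η => VV F d η (0, x) n) (law F) := VV_integrable hd _ (by omega)
  have i2 : Integrable (fun η => VV F d η ((m : ℤ), y) (n - m)) (law F) := VV_integrable hd _ (by omega)
  have i3 : Integrable (fun η => max (X F d η (0, x) m (y - x)) 0) (law F) := (X_integrable hd _ hm _).pos_part
  have h1 : ∀ η, |VV F d η (0, x) n - VV F d η ((m : ℤ), y) (n - m)| ≤
      (VV F d η (0, x) n - VV F d η ((m : ℤ), y) (n - m)) + 2 * max (X F d η (0, x) m (y - x)) 0 := by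
    intro η
    have h2 := VV_super hd η (0, x) hm (show 1 ≤ n - m by omega) (y - x)
    rw [show ((0 : ℤ), x) + ((m : ℤ), y - x) = ((m : ℤ), y) by ext <;> simp, show m + (n - m) = n by omega] at h2
    rcases abs_cases (VV F d η (0, x) n - VV F d η ((m : ℤ), y) (n - m)) with ⟨h3, _⟩ | ⟨h3, _⟩ <;> rw [h3]
    · linarith [le_max_right (X F d η (0, x) m (y - x)) 0]
    · linarith [le_max_left (X F d η (0, x) m (y - x)) 0]
  have i4 : Integrable (fun η => VV F d η (0, x) n - VV F d η ((m : ℤ), y) (n - m)) (law F) := i1.sub i2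
  have h4 := integral_mono i4.abs (i4.add (i3.const_mul 2)) h1
  have h5 : ∫ η, ((VV F d η (0, x) n - VV F d η ((m : ℤ), y) (n - m)) + 2 * max (X F d η (0, x) m (y - x)) 0) ∂(law F) =
      ((∫ η, VV F d η 0 n ∂(law F)) - ∫ η, VV F d η 0 (n - m) ∂(law F)) + 2 * ep F d m (y - x) := by
    rw [integral_add i4 (i3.const_mul 2), integral_sub i1 i2, integral_const_mul, ep_at, VV_int F d (0, x),
      VV_int F d ((m : ℤ), y)]
  exact h4.trans h5.le

/-- **(1a)**. -/
theorem oscB71 (hD : Dirs F κ K A) : OscB F A := by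
  intro d hd m N hm hN x y B hB
  have had := hD.adm d hd
  have h1 : (av N fun n => ∫ η, |VV F d η (0, x) n - VV F d η ((m : ℤ), y) (n - m)| ∂(law F)) ≤
      av N fun n => ((∫ η, VV F d η 0 n ∂(law F)) - ∫ η, VV F d η 0 (n - m) ∂(law F)) + 2 * B := by
    refine av_mono fun n hn _ => ?_
    have := osc_one71 had hm (show m < n by omega) x y
    linarith
  refine h1.trans ?_
  rw [av_add, av_const (by omega)]
  have := av_incr71 had (hD.touch d hd) hm hN
  linarith

/-- **(1a)** as a probability: the average over the times of the probability of a large difference. -/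
theorem oscM71 (hD : Dirs F κ K A) (hd : d ∈ A) {m N : ℕ} (hm : 1 ≤ m) (hN : m ≤ N) {x y : ℤ} {B : ℝ}
    (hB : ep F d m (y - x) ≤ B) {t : ℝ} (ht : 0 < t) :
    (av N fun n => (law F).real {η | t ≤ |VV F d η (0, x) n - VV F d η ((m : ℤ), y) (n - m)|}) ≤
      (2 * EE F d m + 2 * B) / t := by
  have had := hD.adm d hd
  rw [le_div_iff₀ ht]
  have h1 : (av N fun n => t * (law F).real {η | t ≤ |VV F d η (0, x) n - VV F d η ((m : ℤ), y) (n - m)|}) ≤
      av N fun n => ∫ η, |VV F d η (0, x) n - VV F d η ((m : ℤ), y) (n - m)| ∂(law F) := by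
    refine av_mono fun n hn _ => ?_
    exact mul_meas_ge_le_integral_of_nonneg (Filter.Eventually.of_forall fun _ => abs_nonneg _)
      ((VV_integrable had _ (by omega)).sub (VV_integrable had _ (by omega))).abs t
  rw [av_const_mul] at h1
  have h2 := oscB71 hD d hd m N hm hN x y B hB
  linarith

/-- **STEP 1 (Osc)**. -/
theorem oscP71 (hD : Dirs F κ K A) {a c0 C' c : ℝ} (ha : 0 < a) (hch : CheapI a F A c0 C') (hc0 : c ≤ c0 / 2) : OscP a F A c := by
  refine ⟨8 + 4 * C', fun d hd m N hm hN L hL => ?_⟩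
  have had := hD.adm d hd
  have htc := hD.touch d hd
  obtain ⟨lo, hi, h1, h2, h3, h4⟩ := hch d hd m hm
  have hE := EE_pos F d m
  have hw : 0 ≤ m * vA a F d m := mul_nonneg (Nat.cast_nonneg m) (hD.vA_pos hd ha hm).le
  have hLhi : |(L : ℝ)| ≤ (hi : ℝ) - lo := by
    rcases eq_or_ne L 0 with h | h
    · subst h
      have : ((lo : ℤ) : ℝ) ≤ hi := by exact_mod_cast h1.trans h2
      simp
      linarith
    · have h5 : (1 : ℝ) ≤ |(L : ℝ)| := by
        have := Int.one_le_abs h
        exact_mod_cast this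
      have h6 : c * (m * vA a F d m) ≤ c0 / 2 * (m * vA a F d m) := mul_le_mul_of_nonneg_right hc0 hw
      linarith
  have hep : ∀ y : ℤ, lo ≤ y → y ≤ hi → ep F d m y ≤ (C' + 1) * EE F d m := by
    intro y hy1 hy2
    have h5 := ep_le_EE had htc hm le_rfl y
    have h6 := (h4 y hy1 hy2).1
    linarith
  obtain ⟨z, hz1, hz2, hz3, hz4⟩ : ∃ z : ℤ, lo ≤ z ∧ z ≤ hi ∧ lo ≤ z - L ∧ z - L ≤ hi := by
    rcases le_or_gt 0 L with h | h
    · have h5 : (L : ℝ) ≤ (hi : ℝ) - lo := (le_abs_self _).trans hLhi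
      have h6 : L ≤ hi - lo := by exact_mod_cast h5
      exact ⟨hi, by omega, le_rfl, by omega, by omega⟩
    · have h5 : -(L : ℝ) ≤ (hi : ℝ) - lo := (neg_le_abs _).trans hLhi
      have h6 : -L ≤ hi - lo := by exact_mod_cast h5
      exact ⟨lo, le_rfl, by omega, by omega, by omega⟩
  have hB0 := oscB71 hD d hd m N hm hN 0 z ((C' + 1) * EE F d m) (by rw [sub_zero]; exact hep z hz1 hz2)
  have hBL := oscB71 hD d hd m N hm hN L z ((C' + 1) * EE F d m) (hep (z - L) hz3 hz4)
  have h5 : vN F d N L ≤ av N fun n => (∫ η, |VV F d η (0, 0) n - VV F d η ((m : ℤ), z) (n - m)| ∂(law F)) +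
      ∫ η, |VV F d η (0, L) n - VV F d η ((m : ℤ), z) (n - m)| ∂(law F) := by
    refine av_mono fun n hn _ => ?_
    have i0 : Integrable (fun η => VV F d η (0, 0) n) (law F) := VV_integrable had _ (by omega)
    have i1 : Integrable (fun η => VV F d η (0, L) n) (law F) := VV_integrable had _ (by omega)
    have i2 : Integrable (fun η => VV F d η ((m : ℤ), z) (n - m)) (law F) := VV_integrable had _ (by omega)
    have i3 : Integrable (fun η => |VV F d η (0, 0) n - VV F d η ((m : ℤ), z) (n - m)|) (law F) := (i0.sub i2).abs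
    have i4 : Integrable (fun η => |VV F d η (0, L) n - VV F d η ((m : ℤ), z) (n - m)|) (law F) := (i1.sub i2).abs
    rw [← integral_add i3 i4]
    refine integral_mono (i0.sub i1).abs (i3.add i4) fun η => ?_
    show |VV F d η 0 n - VV F d η (0, L) n| ≤ |VV F d η (0, 0) n - VV F d η ((m : ℤ), z) (n - m)| +
      |VV F d η (0, L) n - VV F d η ((m : ℤ), z) (n - m)|
    have := abs_sub_le (VV F d η 0 n) (VV F d η ((m : ℤ), z) (n - m)) (VV F d η (0, L) n)
    rw [abs_sub_comm (VV F d η ((m : ℤ), z) (n - m))] at this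
    exact this
  rw [av_add] at h5
  linarith

end

end Pool.Agent.W_1b8d5d_p
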