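import Pool.Agent.W_1b8d5d_p.MainQ
import Pool.Agent.W_1b8d5d_p.SlDefs

/-!
MP_1b8d5d_pr, Track P2 (row 653): the cone is closed at all scales. (helper66)
-/

set_option autoImplicit false

namespace Pool.Agent.W_1b8d5d_p

open Pool.Agent.W_1b8d5d_h4p (LawH Sf)

variable {F : Fm} {κ K a c0 C0 : ℝ} {A : Set Dr}

theorem reg0_all (hL : LawH F c0 C0) (hg : Antitone F.g) (hκ : 0 < κ) (hD : Dirs F κ K A) (ha : 1 ≤ a) :
    ∃ (β C δ : ℝ) (T L x₁ : ℕ), Reg0 F κ A a β C δ T L x₁ := by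
  obtain ⟨β, C, δ, T, L, x₁, h1, h2, h3, h4, h5, h6⟩ := cone_allP hL hg hκ hD ha
  exact ⟨β, C, δ, T, L, x₁, h1, h2, h3, h4, h5, h6⟩

end Pool.Agent.W_1b8d5d_p
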