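import Pool.Agent.W_1b8d5d_p.FrLine
import Pool.Agent.W_1b8d5d_p.FrResA
import Pool.Agent.W_1b8d5d_p.FrSl

/-!
MP_1b8d5d_pr, Track P (proofs row 636, section 1): confinement of all cheap walks, from the exponential moments of the tilted
lucks. Unit free, in every moving frame (the slope `d.v` is arbitrary). (helper71)
-/

namespace Pool.Agent.W_1b8d5d_p

open MeasureTheory Set
open Pool.Agent.W_1b8d5d_h85

noncomputable section

/-- The sum over the cells. -/
theorem cell_sum71 {a : ℝ} (ha : 1 ≤ a) (J : ℕ) :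
    ∑ j ∈ Finset.Icc (-(J : ℤ)) J, Real.exp (-(a * max (|(j : ℝ)| - 1) 0)) ≤ 5 := by
  have h1 : ∀ J : ℕ, ∑ j ∈ Finset.Icc (-(J : ℤ)) J, Real.exp (-(a * max (|(j : ℝ)| - 1) 0)) ≤
      1 + 2 * ∑ k ∈ Finset.range J, Real.exp (-(a * k)) := by
    intro J
    induction J with
    | zero => simp
    | succ J ih =>
      have e1 : Finset.Icc (-((J + 1 : ℕ) : ℤ)) ((J + 1 : ℕ) : ℤ) =
          insert (-((J + 1 : ℕ) : ℤ)) (insert ((J + 1 : ℕ) : ℤ) (Finset.Icc (-(J : ℤ)) J)) := by
        ext j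
        simp only [Finset.mem_insert, Finset.mem_Icc]
        push_cast
        omega
      have n1 : ((J + 1 : ℕ) : ℤ) ∉ Finset.Icc (-(J : ℤ)) J := by
        rw [Finset.mem_Icc]
        push_cast
        omega
      have n2 : (-((J + 1 : ℕ) : ℤ)) ∉ insert ((J + 1 : ℕ) : ℤ) (Finset.Icc (-(J : ℤ)) J) := by
        rw [Finset.mem_insert, Finset.mem_Icc]
        push_cast
        omega
      rw [e1, Finset.sum_insert n2, Finset.sum_insert n1, Finset.sum_range_succ]
      have e2 : max (|((((J + 1 : ℕ) : ℤ)) : ℝ)| - 1) 0 = J := by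
        push_cast
        rw [abs_of_nonneg (by positivity), add_sub_cancel_right]
        exact max_eq_left (by positivity)
      have e3 : max (|(((-((J + 1 : ℕ) : ℤ)) : ℤ) : ℝ)| - 1) 0 = J := by
        push_cast
        rw [abs_neg, abs_of_nonneg (by positivity), add_sub_cancel_right]
        exact max_eq_left (by positivity)
      rw [e2, e3]
      linarith
  refine (h1 J).trans ?_
  have h2 : ∀ k ∈ Finset.range J, Real.exp (-(a * k)) ≤ (1 / 2) ^ k := by
    intro k _
    have h3 : Real.exp (-(a * k)) = (Real.exp (-a)) ^ k := by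
      rw [← Real.exp_nat_mul]
      congr 1
      ring
    rw [h3]
    refine pow_le_pow_left₀ (Real.exp_pos _).le ?_ k
    have h4 : Real.exp (-a) ≤ Real.exp (-1) := Real.exp_le_exp.2 (by linarith)
    have h5 : Real.exp (-1) ≤ 1 / 2 := by
      rw [Real.exp_neg, one_div]
      exact inv_anti₀ two_pos (by linarith [Real.add_one_le_exp (1 : ℝ)])
    exact h4.trans h5
  have h3 := Finset.sum_le_sum h2
  have h4 : ∑ k ∈ Finset.range J, (1 / 2 : ℝ) ^ k ≤ 2 := by
    rw [geom_sum_eq (by norm_num)]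
    have : (0 : ℝ) ≤ (1 / 2) ^ J := by positivity
    rw [div_le_iff_of_neg (by norm_num)]
    linarith
  linarith

variable {F : Fm} {κ k1 K1 : ℝ} {d : Dr}

/-- The reflected environment: `0` and `E` are exchanged. -/
def Rf71 (F : Fm) (E : Pt) (η : Env) : Env := rf (F.shp E η)

theorem mp_Rf71 (F : Fm) (E : Pt) : MeasurePreserving (Rf71 F E) (law F) (law F) := (mp_rf F).comp (mp_shp F E)

theorem XP_Rf71 (F : Fm) (d : Dr) (η : Env) (E : Pt) {P Q : Pt} (h : P.1 ≤ Q.1) :
    XP F d (Rf71 F E η) P Q = XP F d η (E - Q) (E - P) := by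
  unfold XP Rf71
  rw [X_rf, X_shp]
  have e1 : -P - (((Q.1 - P.1).toNat : ℤ), Q.2 - P.2) + E = E - Q := by
    ext
    · simp only [Prod.fst_add, Prod.fst_sub, Prod.fst_neg]
      omega
    · simp only [Prod.snd_add, Prod.snd_sub, Prod.snd_neg]
      omega
  have e2 : (E - P).1 - (E - Q).1 = Q.1 - P.1 := by
    simp only [Prod.fst_sub]
    ring
  have e3 : (E - P).2 - (E - Q).2 = Q.2 - P.2 := by
    simp only [Prod.snd_sub]
    ring
  rw [e1, e2, e3]

theorem lat_sub71 (d : Dr) (P Q : Pt) : lat d (P - Q) = lat d P - lat d Q := by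
  unfold lat
  simp only [Prod.fst_sub, Prod.snd_sub]
  push_cast
  ring

theorem lat_zero71 (d : Dr) : lat d 0 = 0 := by
  unfold lat
  simp

/-- Some pair of `[0, N]` has a tilted luck larger than `y` plus a half of the price of its distance from the line `0`. -/
def BadT (F : Fm) (d : Dr) (k1 s : ℝ) (N : ℕ) (y : ℝ) : Set Env :=
  {η | ∃ P Q : Pt, IsPr 0 N P Q ∧ y < s * |lat d Q - lat d P| - XP F d η P Q - k1 / 2 * |lat d P|}

theorem BadT_meas (F : Fm) (d : Dr) (k1 s : ℝ) (N : ℕ) (y : ℝ) : MeasurableSet (BadT F d k1 s N y) := by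
  have h1 : BadT F d k1 s N y = ⋃ P : Pt, ⋃ Q : Pt, ({η : Env | IsPr 0 N P Q} ∩
      {η : Env | y < s * |lat d Q - lat d P| - XP F d η P Q - k1 / 2 * |lat d P|}) := by
    ext η
    simp only [BadT, Set.mem_ofPred_eq, Set.mem_iUnion, Set.mem_inter_iff]
  rw [h1]
  exact MeasurableSet.iUnion fun P => MeasurableSet.iUnion fun Q => (MeasurableSet.const _).inter
    (measurableSet_lt measurable_const (((X_meas F d _ _ _).const_sub _).sub_const _))

/-- The probability of the bad event. -/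
theorem BadT_prob {k C0' C1' : ℝ} (hSl : Sl F d k C0' C1') {s W θ C : ℝ} (hk1 : 0 < k1) (hsk : s ≤ k) (hW : 0 < W)
    (hθ : 0 < θ) (hθ1 : 1 ≤ θ * (k1 / 2 * W)) {N : ℕ}
    (hL : ∀ o : ℝ, ∫ η, Real.exp (θ * TL F d s o W N η) ∂(law F) ≤ C) (y : ℝ) :
    (law F).real (BadT F d k1 s N y) ≤ 5 * (C * Real.exp (-(θ * y))) := by
  have hC : 0 ≤ C := (integral_nonneg fun η => (Real.exp_pos _).le).trans (hL 0)
  have hkW : 0 < k1 / 2 * W := by positivity
  obtain ⟨J, hJ⟩ := exists_nat_ge (((C1' + k * |d.v|) * N - y) / (k1 / 2 * W))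
  rw [div_le_iff₀ hkW] at hJ
  have hsub : BadT F d k1 s N y ⊆ ⋃ j ∈ Finset.Icc (-(J : ℤ)) J,
      {η | y + k1 / 2 * W * max (|(j : ℝ)| - 1) 0 ≤ TL F d s (j * W) W N η} := by
    rintro η ⟨P, Q, ⟨p1, p2, p3⟩, hy⟩
    obtain ⟨j, hj⟩ : ∃ j : ℤ, j = ⌊lat d P / W⌋ := ⟨_, rfl⟩
    have h1 : (j : ℝ) * W ≤ lat d P := by
      rw [← le_div_iff₀ hW, hj]
      exact Int.floor_le _
    have h2 : lat d P < (j : ℝ) * W + W := by
      have := Int.lt_floor_add_one (lat d P / W)
      rw [← hj, div_lt_iff₀ hW] at this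
      linarith
    have hPQ : P.1 ≤ Q.1 := by
      rcases p3 with h | h
      · exact h.le
      · rw [h]
    have h3 : (P, Q) ∈ InB d (j * W) W N := ⟨p1, hPQ, by exact_mod_cast p2, fun h => by
      rcases p3 with h4 | h4
      · exact absurd h h4.ne
      · exact h4, h1, h2⟩
    have h4 := le_TL hSl hsk η h3
    have h5 : W * max (|(j : ℝ)| - 1) 0 ≤ |lat d P| := by
      rcases le_or_gt 0 j with h0 | h0
      · have h0' : (0 : ℝ) ≤ j := by exact_mod_cast h0
        rw [abs_of_nonneg h0']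
        have h6 : 0 ≤ (j : ℝ) * W := mul_nonneg h0' hW.le
        rw [abs_of_nonneg (h6.trans h1)]
        rcases max_cases ((j : ℝ) - 1) 0 with ⟨h7, -⟩ | ⟨h7, -⟩
        · rw [h7]
          nlinarith
        · rw [h7, mul_zero]
          linarith
      · have h0' : (j : ℝ) + 1 ≤ 0 := by exact_mod_cast h0
        rw [abs_of_nonpos (by linarith : (j : ℝ) ≤ 0)]
        rcases max_cases (-(j : ℝ) - 1) 0 with ⟨h7, -⟩ | ⟨h7, -⟩
        · rw [h7]
          have := neg_abs_le (lat d P)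
          nlinarith
        · rw [h7, mul_zero]
          exact abs_nonneg _
    have h6 : y + k1 / 2 * W * max (|(j : ℝ)| - 1) 0 < TL F d s (j * W) W N η := by
      have h7 := mul_le_mul_of_nonneg_left h5 (by positivity : 0 ≤ k1 / 2)
      rw [← mul_assoc] at h7
      linarith
    refine Set.mem_biUnion ?_ h6.le
    have h8 := TL_le_bnd hSl hsk (o := j * W) (W := W) (k := N) η
    have h9 : k1 / 2 * W * max (|(j : ℝ)| - 1) 0 < (J : ℝ) * (k1 / 2 * W) := by linarith
    have h10 : |(j : ℝ)| - 1 < J := by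
      by_contra hc
      push Not at hc
      have h11 := mul_le_mul_of_nonneg_left (hc.trans (le_max_left _ (0 : ℝ))) hkW.le
      linarith
    have h12 : |j| < J + 1 := by
      have : (|j| : ℝ) < J + 1 := by linarith
      exact_mod_cast this
    rw [abs_lt] at h12
    rw [Finset.mem_coe, Finset.mem_Icc]
    constructor <;> omega
  refine (measureReal_mono hsub (measure_ne_top _ _)).trans ((measureReal_biUnion_finset_le _ _).trans ?_)
  have hterm : ∀ j ∈ Finset.Icc (-(J : ℤ)) J,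
      (law F).real {η | y + k1 / 2 * W * max (|(j : ℝ)| - 1) 0 ≤ TL F d s (j * W) W N η} ≤
        C * Real.exp (-(θ * y)) * Real.exp (-(θ * (k1 / 2 * W) * max (|(j : ℝ)| - 1) 0)) := by
    intro j _
    obtain ⟨x, hx⟩ : ∃ x, x = y + k1 / 2 * W * max (|(j : ℝ)| - 1) 0 := ⟨_, rfl⟩
    have hm : Measurable fun η => Real.exp (θ * TL F d s (j * W) W N η) := ((TL_meas hSl).const_mul θ).exp
    have hi : Integrable (fun η => Real.exp (θ * TL F d s (j * W) W N η)) (law F) := by
      refine Integrable.of_bound (C := Real.exp (θ * ((C1' + k * |d.v|) * N))) hm.aestronglyMeasurable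
        (Filter.Eventually.of_forall fun η => ?_)
      rw [Real.norm_eq_abs, abs_of_pos (Real.exp_pos _)]
      exact Real.exp_le_exp.2 (mul_le_mul_of_nonneg_left (TL_le_bnd hSl hsk η) hθ.le)
    have hM := mul_meas_ge_le_integral_of_nonneg (μ := law F) (f := fun η => Real.exp (θ * TL F d s (j * W) W N η))
      (Filter.Eventually.of_forall fun η => (Real.exp_pos _).le) hi (Real.exp (θ * x))
    have e1 : {η | Real.exp (θ * x) ≤ Real.exp (θ * TL F d s (j * W) W N η)} =
        {η | y + k1 / 2 * W * max (|(j : ℝ)| - 1) 0 ≤ TL F d s (j * W) W N η} := by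
      ext η
      simp only [Set.mem_ofPred_eq, Real.exp_le_exp]
      rw [← hx]
      exact mul_le_mul_iff_right₀ hθ
    rw [e1] at hM
    have e2 : C * Real.exp (-(θ * y)) * Real.exp (-(θ * (k1 / 2 * W) * max (|(j : ℝ)| - 1) 0)) = C * (Real.exp (θ * x))⁻¹ := by
      rw [← Real.exp_neg, mul_assoc, ← Real.exp_add]
      congr 2
      rw [hx]
      ring
    rw [e2, ← div_eq_mul_inv, le_div_iff₀ (Real.exp_pos _), mul_comm]
    exact hM.trans (hL _)
  refine (Finset.sum_le_sum hterm).trans ?_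
  rw [← Finset.mul_sum]
  have h5 := mul_le_mul_of_nonneg_left (cell_sum71 hθ1 J) (mul_nonneg hC (Real.exp_pos (-(θ * y))).le)
  linarith

/-- The deterministic part: a slab walk with a vertex far from the line `0`. -/
theorem tube_det (hd : Adm F κ d) (hk : Lat F κ k1 K1 d) {s : ℝ} (hs : 0 ≤ s) (hsk : s ≤ k1 / 2) {N : ℕ} {y : ℝ} {yE : ℤ}
    {η : Env} (h1 : η ∉ BadT F d k1 s N y) (h2 : Rf71 F ((N : ℤ), yE) η ∉ BadT F d k1 s N y)
    (w : grid.Walk (F.co.vt 0) (F.co.vt ((N : ℤ), yE))) (hw : ∀ e ∈ wedges w, e ∈ F.co.slab 0 N) {v : V}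
    (hv : v ∈ w.support) : s * |latV F d v| ≤ exc F d η w + 2 * y + 2 * CP F := by
  classical
  have hL := F.co.L_pos
  have htm := Co.tm_of_slab (c := F.co) hw (by
    rw [Co.tm_vt]
    simp only [Prod.fst_zero, mul_zero]
    exact ⟨le_rfl, mul_nonneg (by omega) (Nat.cast_nonneg N)⟩)
  have e0 : exc F d η w = exc F d η (w.takeUntil v hv) + exc F d η (w.dropUntil v hv) := by
    rw [← exc_append, w.take_spec hv]
  obtain ⟨P1, Q1, hp1, hx1⟩ := piece_lat (s := 0) (t := (N : ℤ)) hd hk η (w.takeUntil v hv) fun z hz =>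
    htm z (w.support_takeUntil_subset_support hv hz)
  obtain ⟨P2, Q2, hp2, hx2⟩ := piece_lat (s := 0) (t := (N : ℤ)) hd hk η (w.dropUntil v hv) fun z hz =>
    htm z (w.support_dropUntil_subset_support hv hz)
  rw [latV_vt, lat_zero71] at hx1
  rw [latV_vt] at hx2
  have g1 : s * |lat d Q1 - lat d P1| - XP F d η P1 Q1 - k1 / 2 * |lat d P1| ≤ y := by
    by_contra hc
    push Not at hc
    exact h1 ⟨P1, Q1, hp1, hc⟩
  have hPQ2 : P2.1 ≤ Q2.1 := by
    rcases hp2.2.2 with h | h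
    · exact h.le
    · rw [h]
  have g2 : s * |lat d (((N : ℤ), yE) - P2) - lat d (((N : ℤ), yE) - Q2)| - XP F d η P2 Q2 -
      k1 / 2 * |lat d (((N : ℤ), yE) - Q2)| ≤ y := by
    by_contra hc
    push Not at hc
    refine h2 ⟨((N : ℤ), yE) - Q2, ((N : ℤ), yE) - P2, ⟨?_, ?_, ?_⟩, ?_⟩
    · have := hp2.2.1
      simp only [Prod.fst_sub]
      omega
    · have := hp2.1
      simp only [Prod.fst_sub]
      omega
    · rcases hp2.2.2 with h | h
      · left
        simp only [Prod.fst_sub]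
        omega
      · right
        rw [h]
    · rw [XP_Rf71 F d η _ (by simp only [Prod.fst_sub]; omega)]
      simp only [sub_sub_cancel]
      exact hc
  rw [lat_sub71 d _ Q2] at g2
  have k0 := hk.k0
  have t1 : |latV F d v| ≤ |latV F d v - lat d Q1| + |lat d Q1 - lat d P1| + |lat d P1| := by
    have a1 := abs_add_le (latV F d v - lat d Q1) (lat d Q1)
    have a2 := abs_add_le (lat d Q1 - lat d P1) (lat d P1)
    rw [sub_add_cancel] at a1 a2
    linarith
  have t2 := mul_le_mul_of_nonneg_left t1 hs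
  have t3 := abs_nonneg (latV F d v - lat d Q1)
  have t4 := abs_nonneg (lat d P1)
  have t5 := abs_nonneg (lat d ((N : ℤ), yE) - lat d Q2)
  have t6 := mul_nonneg hs (abs_nonneg (lat d (((N : ℤ), yE) - P2) - (lat d ((N : ℤ), yE) - lat d Q2)))
  have t7 := abs_nonneg (latV F d v - lat d P2)
  have t8 : s * |latV F d v - lat d Q1| ≤ k1 * |latV F d v - lat d Q1| := mul_le_mul_of_nonneg_right (by linarith) t3
  have t9 : s * |lat d P1| ≤ k1 / 2 * |lat d P1| := mul_le_mul_of_nonneg_right hsk t4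
  have t10 : |0 - lat d P1| = |lat d P1| := by rw [zero_sub, abs_neg]
  rw [t10] at hx1
  have t11 := mul_nonneg k0.le t7
  have t12 := mul_nonneg k0.le t5
  rw [e0]
  nlinarith

/-- **CONFINEMENT OF ALL CHEAP WALKS.** -/
theorem tube_gen (hd : Adm F κ d) (hk : Lat F κ k1 K1 d) {s W θ C : ℝ} (hs : 0 < s) (hsk : s ≤ k1 / 2) (hW : 0 < W)
    (hθ : 0 < θ) (hθ1 : 1 ≤ θ * (k1 / 2 * W)) {N : ℕ}
    (hL : ∀ o : ℝ, ∫ η, Real.exp (θ * TL F d s o W N η) ∂(law F) ≤ C) (y : ℝ) (yE : ℤ) :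
    ∃ B : Set Env, MeasurableSet B ∧ (law F).real B ≤ 10 * C * Real.exp (-(θ * y)) ∧ ∀ η, η ∉ B →
      ∀ w : grid.Walk (F.co.vt 0) (F.co.vt ((N : ℤ), yE)), (∀ e ∈ wedges w, e ∈ F.co.slab 0 N) →
        ∀ v ∈ w.support, s * |latV F d v| ≤ exc F d η w + 2 * y + 2 * CP F := by
  have hSl := sl_of hd
  have hkM : s ≤ κ * F.co.M := by
    have h1 : (1 : ℝ) ≤ F.co.M := by exact_mod_cast F.co.M_pos
    have h2 := hk.hκ
    have h3 := hk.K0
    have h4 := hk.k0
    have h5 := hd.κ0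
    nlinarith
  have hm := BadT_meas F d k1 s N y
  refine ⟨BadT F d k1 s N y ∪ Rf71 F ((N : ℤ), yE) ⁻¹' BadT F d k1 s N y, hm.union ((mp_Rf71 F _).measurable hm), ?_, ?_⟩
  · have h1 := BadT_prob hSl hk.k0 hkM hW hθ hθ1 hL y
    have h2 : (law F).real (Rf71 F ((N : ℤ), yE) ⁻¹' BadT F d k1 s N y) = (law F).real (BadT F d k1 s N y) :=
      (mp_Rf71 F _).measureReal_preimage hm.nullMeasurableSet
    have h3 := measureReal_union_le (μ := law F) (BadT F d k1 s N y) (Rf71 F ((N : ℤ), yE) ⁻¹' BadT F d k1 s N y)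
    rw [h2] at h3
    linarith
  · intro η hη w hw v hv
    exact tube_det hd hk hs.le hsk (fun h => hη (Or.inl h)) (fun h => hη (Or.inr h)) w hw hv

end

end Pool.Agent.W_1b8d5d_p
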