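import Pool.Agent.W_7d29a1_f21.Ind

/-!
Track P (MP_1b8d5d_pr), section A (D7): sums over chains of slabs which overlap only with their neighbours, for any independent family,
not stationary. The sum over all patterns is bounded by two alternating majorants. (helper66)
-/

namespace Pool.Agent.W_1b8d5d_p66

open MeasureTheory ProbabilityTheory Pool.Agent.W_7d29a1_f21

variable {ι S : Type*} {μ : Measure ℝ} [IsProbabilityMeasure μ]

/-- Independence of functions of disjoint sets of sites. -/
theorem integral_indep {f g : (ι → ℝ) → ℝ} {A B : Set ι} (hf : Measurable f) (hg : Measurable g)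
    (hfA : DependsOn f A) (hgB : DependsOn g B) (h : Disjoint A B) :
    ∫ η, f η * g η ∂(lw ι μ) = (∫ η, f η ∂(lw ι μ)) * ∫ η, g η ∂(lw ι μ) := by
  have hgA : DependsOn g Aᶜ := fun η η' hh =>
    hgB fun p hp => hh p fun hpA => (Set.disjoint_left.mp h) hpA hp
  exact integral_mul_indep (μ := μ) A hf hg hfA hgA

/-- A product of integrable functions of disjoint sets of sites is integrable. -/
theorem integrable_mul_indep {f g : (ι → ℝ) → ℝ} {A B : Set ι} (hf : Integrable f (lw ι μ))
    (hg : Integrable g (lw ι μ)) (hfm : Measurable f) (hgm : Measurable g) (hfA : DependsOn f A)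
    (hgB : DependsOn g B) (h : Disjoint A B) : Integrable (fun η => f η * g η) (lw ι μ) := by
  have hgA : DependsOn g Aᶜ := fun η η' hh =>
    hgB fun p hp => hh p fun hpA => (Set.disjoint_left.mp h) hpA hp
  have hmp := mp_splice (μ := μ) A
  refine (hmp.integrable_comp (hfm.mul hgm).aestronglyMeasurable).1 ?_
  have h1 : Integrable (fun w : (ι → ℝ) × (ι → ℝ) => f w.1 * g w.2) ((lw ι μ).prod (lw ι μ)) :=
    Integrable.mul_prod hf hg
  refine h1.congr (Filter.Eventually.of_forall fun w => ?_)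
  show f w.1 * g w.2 = f _ * g _
  congr 1
  · exact (hfA fun p hp => splice_mem _ _ hp).symm
  · exact (hgA fun p hp => splice_not_mem _ _ hp).symm

/-- The two alternating majorants. -/
noncomputable def AB (f : ℕ → S → S → (ι → ℝ) → ℝ) (T : ℕ → S → S → ℝ) (H : ℕ → S → ℝ)
    (Nx : ℕ → S → Finset S) : ℕ → Bool → ℕ → S → (ι → ℝ) → ℝ
  | 0, _, j, s, _ => H j s
  | n + 1, b, j, s, η => ∑ s' ∈ Nx j s,
      (if b = true then f j s s' η ^ 2 / T j s s' else T j s s') * AB f T H Nx n (!b) (j + 1) s' η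

variable {f : ℕ → S → S → (ι → ℝ) → ℝ} {T : ℕ → S → S → ℝ} {H : ℕ → S → ℝ} {Nx : ℕ → S → Finset S}
  {A : ℕ → Set ι}

omit [IsProbabilityMeasure μ] in
theorem AB_nonneg (hT : ∀ j s s', 0 < T j s s') (hH : ∀ j s, 0 ≤ H j s) (n : ℕ) :
    ∀ (b : Bool) (j : ℕ) (s : S) (η : ι → ℝ), 0 ≤ AB f T H Nx n b j s η := by
  induction n with
  | zero => exact fun b j s η => hH j s
  | succ n ih =>
    intro b j s η
    rw [AB]
    refine Finset.sum_nonneg fun s' _ => mul_nonneg ?_ (ih _ _ _ _)
    split_ifs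
    · exact div_nonneg (sq_nonneg _) (hT _ _ _).le
    · exact (hT _ _ _).le

theorem AB_meas (hf : ∀ j s s', Measurable (f j s s')) (n : ℕ) :
    ∀ (b : Bool) (j : ℕ) (s : S), Measurable (AB f T H Nx n b j s) := by
  induction n with
  | zero => exact fun b j s => measurable_const
  | succ n ih =>
    intro b j s
    show Measurable fun η => AB f T H Nx (n + 1) b j s η
    simp only [AB]
    refine Finset.measurable_sum _ fun s' _ => Measurable.mul ?_ (ih _ _ _)
    split_ifs
    · exact ((hf _ _ _).pow_const 2).div_const _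
    · exact measurable_const

theorem AB_dep (hf : ∀ j s s', DependsOn (f j s s') (A j)) (n : ℕ) :
    ∀ (b : Bool) (j : ℕ) (s : S),
      DependsOn (AB f T H Nx n b j s) (⋃ k ∈ {k : ℕ | (if b = true then j else j + 1) ≤ k}, A k) := by
  induction n with
  | zero => exact fun b j s η η' _ => rfl
  | succ n ih =>
    intro b j s η η' h
    show AB f T H Nx (n + 1) b j s η = AB f T H Nx (n + 1) b j s η'
    rw [AB, AB]
    refine Finset.sum_congr rfl fun s' _ => ?_
    cases b with
    | true =>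
      rw [if_pos rfl, if_pos rfl]
      congr 1
      · congr 2
        refine hf _ _ _ fun p hp => h p ?_
        rw [Set.mem_iUnion₂]
        exact ⟨j, by simp, hp⟩
      · refine ih (!true) (j + 1) s' fun p hp => h p ?_
        rw [Set.mem_iUnion₂] at hp ⊢
        obtain ⟨k, hk, hpk⟩ := hp
        refine ⟨k, ?_, hpk⟩
        simp only [Bool.not_true, Bool.false_eq_true, if_false, Set.mem_ofPred_eq] at hk
        simp only [if_true, Set.mem_ofPred_eq]
        omega
    | false =>
      rw [if_neg (by simp), if_neg (by simp)]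
      congr 1
      refine ih (!false) (j + 1) s' fun p hp => h p ?_
      rw [Set.mem_iUnion₂] at hp ⊢
      obtain ⟨k, hk, hpk⟩ := hp
      refine ⟨k, ?_, hpk⟩
      simp only [Bool.not_false, if_true, Set.mem_ofPred_eq] at hk
      simp only [Bool.false_eq_true, if_false, Set.mem_ofPred_eq]
      omega

theorem AB_int (hA : ∀ j k, j + 2 ≤ k → Disjoint (A j) (A k)) (hfm : ∀ j s s', Measurable (f j s s'))
    (hf : ∀ j s s', DependsOn (f j s s') (A j)) (hT : ∀ j s s', 0 < T j s s') (hH : ∀ j s, 0 ≤ H j s)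
    (hfi : ∀ j s s', Integrable (fun η => f j s s' η ^ 2) (lw ι μ))
    (hf2 : ∀ j s s', ∫ η, f j s s' η ^ 2 ∂(lw ι μ) ≤ T j s s' ^ 2)
    (hTH : ∀ j s, ∑ s' ∈ Nx j s, T j s s' * H (j + 1) s' ≤ H j s / 2) (n : ℕ) :
    ∀ (b : Bool) (j : ℕ) (s : S), Integrable (AB f T H Nx n b j s) (lw ι μ) ∧
      ∫ η, AB f T H Nx n b j s η ∂(lw ι μ) ≤ H j s / 2 ^ n := by
  induction n with
  | zero =>
    intro b j s
    refine ⟨integrable_const _, ?_⟩
    show ∫ η, H j s ∂(lw ι μ) ≤ H j s / 2 ^ 0
    simp
  | succ n ih =>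
    intro b j s
    have hterm : ∀ s' : S, Integrable (fun η =>
        (if b = true then f j s s' η ^ 2 / T j s s' else T j s s') * AB f T H Nx n (!b) (j + 1) s' η) (lw ι μ) ∧
        ∫ η, (if b = true then f j s s' η ^ 2 / T j s s' else T j s s') *
          AB f T H Nx n (!b) (j + 1) s' η ∂(lw ι μ) ≤ T j s s' * (H (j + 1) s' / 2 ^ n) := by
      intro s'
      cases b with
      | true =>
        simp only [if_true, Bool.not_true]
        have hd1 : DependsOn (fun η => f j s s' η ^ 2 / T j s s') (A j) := by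
          intro η η' h
          show f j s s' η ^ 2 / T j s s' = f j s s' η' ^ 2 / T j s s'
          rw [hf _ _ _ h]
        have hd2 := AB_dep (T := T) (H := H) (Nx := Nx) hf n false (j + 1) s'
        have hm1 : Measurable fun η => f j s s' η ^ 2 / T j s s' := ((hfm _ _ _).pow_const 2).div_const _
        have hm2 : Measurable fun η => AB f T H Nx n false (j + 1) s' η := AB_meas hfm n false (j + 1) s'
        have hdis : Disjoint (A j) (⋃ k ∈ {k : ℕ | (if false = true then j + 1 else j + 1 + 1) ≤ k}, A k) := by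
          rw [Set.disjoint_left]
          intro p hp hp'
          rw [Set.mem_iUnion₂] at hp'
          obtain ⟨k, hk, hpk⟩ := hp'
          simp only [Bool.false_eq_true, if_false, Set.mem_ofPred_eq] at hk
          exact Set.disjoint_left.1 (hA j k (by omega)) hp hpk
        have hi1 : Integrable (fun η => f j s s' η ^ 2 / T j s s') (lw ι μ) := (hfi _ _ _).div_const _
        obtain ⟨hi2, hb2⟩ := ih false (j + 1) s'
        refine ⟨integrable_mul_indep hi1 hi2 hm1 hm2 hd1 hd2 hdis, ?_⟩
        rw [integral_indep hm1 hm2 hd1 hd2 hdis]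
        refine mul_le_mul ?_ hb2 (integral_nonneg fun η => AB_nonneg hT hH n _ _ _ _) (hT _ _ _).le
        rw [integral_div, div_le_iff₀ (hT _ _ _), ← sq]
        exact hf2 _ _ _
      | false =>
        simp only [Bool.false_eq_true, if_false, Bool.not_false]
        obtain ⟨hi2, hb2⟩ := ih true (j + 1) s'
        refine ⟨hi2.const_mul _, ?_⟩
        rw [integral_const_mul]
        exact mul_le_mul_of_nonneg_left hb2 (hT _ _ _).le
    have hAB : AB f T H Nx (n + 1) b j s = fun η => ∑ s' ∈ Nx j s,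
        (if b = true then f j s s' η ^ 2 / T j s s' else T j s s') * AB f T H Nx n (!b) (j + 1) s' η := by
      funext η
      rw [AB]
    rw [hAB]
    refine ⟨integrable_finsetSum _ fun s' _ => (hterm s').1, ?_⟩
    rw [integral_finsetSum _ fun s' _ => (hterm s').1]
    refine (Finset.sum_le_sum fun s' _ => (hterm s').2).trans ?_
    have h1 : ∑ s' ∈ Nx j s, T j s s' * (H (j + 1) s' / 2 ^ n) =
        (∑ s' ∈ Nx j s, T j s s' * H (j + 1) s') / 2 ^ n := by
      rw [Finset.sum_div]
      exact Finset.sum_congr rfl fun s' _ => by ring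
    rw [h1, pow_succ, mul_comm ((2 : ℝ) ^ n) 2, ← div_div]
    exact div_le_div_of_nonneg_right (hTH j s) (by positivity)

/-- THE ABSTRACT BOUND: chains of slabs overlapping only with their neighbours. -/
theorem two_chain (hA : ∀ j k, j + 2 ≤ k → Disjoint (A j) (A k)) (hfm : ∀ j s s', Measurable (f j s s'))
    (hf : ∀ j s s', DependsOn (f j s s') (A j)) (hT : ∀ j s s', 0 < T j s s') (hH : ∀ j s, 0 ≤ H j s)
    (hfi : ∀ j s s', Integrable (fun η => f j s s' η ^ 2) (lw ι μ))
    (hf2 : ∀ j s s', ∫ η, f j s s' η ^ 2 ∂(lw ι μ) ≤ T j s s' ^ 2)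
    (hTH : ∀ j s, ∑ s' ∈ Nx j s, T j s s' * H (j + 1) s' ≤ H j s / 2)
    {M : ℕ} {y : ℕ → S → (ι → ℝ) → ℝ} (hy0 : ∀ j s η, 0 ≤ y j s η) (hyH : ∀ s η, y M s η ≤ H M s)
    (hy : ∀ j, j < M → ∀ s η, y j s η ≤ ∑ s' ∈ Nx j s, f j s s' η * y (j + 1) s' η) (s : S)
    {g : (ι → ℝ) → ℝ} (hg0 : ∀ η, 0 ≤ g η) (hg : ∀ η, g η ≤ y 0 s η) :
    ∫ η, g η ∂(lw ι μ) ≤ H 0 s / 2 ^ M := by
  have hpt : ∀ n j, j + n = M → ∀ s η, y j s η ^ 2 ≤ AB f T H Nx n true j s η * AB f T H Nx n false j s η := by
    intro n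
    induction n with
    | zero =>
      intro j hj s η
      have hjM : j = M := by omega
      rw [hjM]
      show y M s η ^ 2 ≤ H M s * H M s
      rw [sq]
      exact mul_le_mul (hyH s η) (hyH s η) (hy0 _ _ _) (hH M s)
    | succ n ih =>
      intro j hj s η
      have h1 : (∑ s' ∈ Nx j s, f j s s' η * y (j + 1) s' η) ^ 2 ≤
          (∑ s' ∈ Nx j s, f j s s' η ^ 2 / T j s s' * AB f T H Nx n false (j + 1) s' η) *
          ∑ s' ∈ Nx j s, T j s s' * AB f T H Nx n true (j + 1) s' η := by
        refine Finset.sum_sq_le_sum_mul_sum_of_sq_le_mul _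
          (fun s' _ => mul_nonneg (div_nonneg (sq_nonneg _) (hT _ _ _).le) (AB_nonneg hT hH n _ _ _ _))
          (fun s' _ => mul_nonneg (hT _ _ _).le (AB_nonneg hT hH n _ _ _ _)) fun s' _ => ?_
        have h2 := ih (j + 1) (by omega) s' η
        have h3 := (hT j s s').ne'
        have h4 : f j s s' η ^ 2 / T j s s' * AB f T H Nx n false (j + 1) s' η *
            (T j s s' * AB f T H Nx n true (j + 1) s' η) =
            f j s s' η ^ 2 * (AB f T H Nx n true (j + 1) s' η * AB f T H Nx n false (j + 1) s' η) := by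
          field_simp
        rw [h4, mul_pow]
        exact mul_le_mul_of_nonneg_left h2 (sq_nonneg _)
      have h5 : y j s η ^ 2 ≤ (∑ s' ∈ Nx j s, f j s s' η * y (j + 1) s' η) ^ 2 :=
        pow_le_pow_left₀ (hy0 _ _ _) (hy j (by omega) s η) 2
      refine (h5.trans h1).trans_eq ?_
      rw [AB, AB]
      simp
  have h1 := AB_int (μ := μ) hA hfm hf hT hH hfi hf2 hTH M true 0 s
  have h2 := AB_int (μ := μ) hA hfm hf hT hH hfi hf2 hTH M false 0 s
  have h3 : ∫ η, g η ∂(lw ι μ) ≤
      ∫ η, (AB f T H Nx M true 0 s η + AB f T H Nx M false 0 s η) / 2 ∂(lw ι μ) := by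
    refine integral_mono_of_nonneg (Filter.Eventually.of_forall hg0)
      ((h1.1.add h2.1).div_const 2) (Filter.Eventually.of_forall fun η => ?_)
    have h4 := hpt M 0 (by omega) s η
    have h5 := AB_nonneg (f := f) (Nx := Nx) hT hH M true 0 s η
    have h6 := AB_nonneg (f := f) (Nx := Nx) hT hH M false 0 s η
    have h7 := hy0 0 s η
    refine (hg η).trans ?_
    show y 0 s η ≤ (AB f T H Nx M true 0 s η + AB f T H Nx M false 0 s η) / 2
    nlinarith [sq_nonneg (AB f T H Nx M true 0 s η - AB f T H Nx M false 0 s η)]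
  refine h3.trans ?_
  rw [integral_div, integral_add h1.1 h2.1]
  linarith [h1.2, h2.2]

end Pool.Agent.W_1b8d5d_p66
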