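import Pool.Agent.W_1b8d5d_p.UnitC

/-!
MP_1b8d5d_pr, Track P. The mean costs near a cheap displacement (spread), uniformly in the direction; (TRAV*) with a linear term.
-/

namespace Pool.Agent.W_1b8d5d_p

open MeasureTheory Set

noncomputable section

variable {F : Fm} {κ K : ℝ} {A : Set Dr}

/-- A cheap displacement has a slope close to the direction. -/
theorem Dirs.cheap_slope (h : Dirs F κ K A) {x : ℝ} (hx : 0 < x) : ∃ δ : ℝ, 0 < δ ∧ ∀ d ∈ A, ∀ N : ℕ, 1 ≤ N → ∀ c : ℤ,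
    e F d N c ≤ δ * N → |(c : ℝ) - d.v * N| ≤ x * N := by
  obtain ⟨j, hj, hj1⟩ := h.strict x hx
  refine ⟨j * x / 2, by positivity, fun d hd N hN c hc => ?_⟩
  have hN0 : (0 : ℝ) < N := by exact_mod_cast hN
  by_contra hcon
  push Not at hcon
  have e1 : |(c : ℝ) / N - d.v| = |(c : ℝ) - d.v * N| / N := by
    rw [show (c : ℝ) / N - d.v = (c - d.v * N) / N by field_simp, abs_div, Nat.abs_cast]
  have h1 : x ≤ |(c : ℝ) / N - d.v| := by
    rw [e1, le_div_iff₀ hN0]
    exact hcon.le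
  have h2 := hj1 d hd _ h1
  have h3 := e_lower F d hN c
  have h4 : j * x * N ≤ e F d N c := by
    refine le_trans ?_ h3
    have h5 : j * x ≤ J F d ((c : ℝ) / N - d.v) := (mul_le_mul_of_nonneg_left h1 hj.le).trans h2
    have h6 := mul_le_mul_of_nonneg_left h5 hN0.le
    linarith
  have h5 : 0 < j * x * N := by positivity
  linarith

/-- **SPREAD.** The mean costs grow slowly around a cheap displacement. -/
theorem Dirs.spread (h : Dirs F κ K A) {ε : ℝ} (hε : 0 < ε) : ∃ η δ : ℝ, 0 < η ∧ 0 < δ ∧ ∃ n0 : ℕ, 1 ≤ n0 ∧ ∀ d ∈ A,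
    ∀ N : ℕ, n0 ≤ N → ∀ c : ℤ, e F d N c ≤ δ * N → ∀ z : ℤ, |(z : ℝ) - c| ≤ η * N →
      e F d N z ≤ max (e F d N c) 0 + ε * |(z : ℝ) - c| := by
  obtain ⟨x, hx, hx1⟩ := h.small (ε := ε / 4) (by positivity)
  obtain ⟨N0, hN0, hN1⟩ := hx1 x hx le_rfl
  obtain ⟨δ, hδ, hδ1⟩ := h.cheap_slope (x := x / 2) (by positivity)
  obtain ⟨N2, hN2⟩ := exists_nat_ge (4 / x)
  refine ⟨x / 4, δ, by positivity, hδ, max N0 N2, hN0.trans (le_max_left _ _), fun d hd N hN c hc z hz => ?_⟩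
  have hNN : N0 ≤ N := (le_max_left _ _).trans hN
  have hN1' : 1 ≤ N := hN0.trans hNN
  have hNp : (0 : ℝ) < N := by exact_mod_cast hN1'
  have hxN : 4 ≤ x * N := by
    have h1 : (N2 : ℝ) ≤ N := by exact_mod_cast (le_max_right _ _).trans hN
    have h2 : 4 / x ≤ N := hN2.trans h1
    rw [div_le_iff₀ hx] at h2
    linarith
  have hcs := hδ1 d hd N hN1' c hc
  set D : ℤ := ⌊x / 2 * N⌋ with hD
  have hD1 : (D : ℝ) ≤ x / 2 * N := Int.floor_le _
  have hD2 : x / 2 * N - 1 < (D : ℝ) := Int.sub_one_lt_floor _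
  have hD3 : x / 4 * N ≤ (D : ℝ) := by linarith
  have hD0 : (0 : ℝ) < D := by linarith
  have hcost : ∀ w : ℤ, |(w : ℝ) - c| = D → e F d N w ≤ ε * D := by
    intro w hw
    have h1 : |(w : ℝ) - d.v * N| ≤ x * N := by
      have h2 := abs_add_le ((w : ℝ) - c) ((c : ℝ) - d.v * N)
      rw [sub_add_sub_cancel, hw] at h2
      linarith
    have h2 := hN1 d hd N hNN w h1
    have h3 : ε / 4 * (x * N) ≤ ε * D := by
      have := mul_le_mul_of_nonneg_left hD3 hε.le
      linarith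
    linarith
  have hzD : |(z : ℝ) - c| ≤ D := hz.trans hD3
  have hm0 : e F d N c ≤ max (e F d N c) 0 := le_max_left _ _
  have hm1 : 0 ≤ max (e F d N c) 0 := le_max_right _ _
  rcases le_total c z with hcz | hcz
  · have hz' : (c : ℝ) ≤ z := by exact_mod_cast hcz
    have ha : |(z : ℝ) - c| = z - c := abs_of_nonneg (by linarith)
    rw [ha] at hzD ⊢
    have hy1 : z ≤ c + D := by
      have : (z : ℝ) ≤ ((c + D : ℤ) : ℝ) := by push_cast; linarith
      exact_mod_cast this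
    have h1 := e_chord F d hN1' hcz hy1
    have h2 := hcost (c + D) (by push_cast; rw [add_sub_cancel_left, abs_of_pos hD0])
    push_cast at h1
    rw [add_sub_cancel_left] at h1
    have h3 : (D : ℝ) * e F d N z ≤ D * (max (e F d N c) 0 + ε * (z - c)) := by
      have h4 : ((c : ℝ) + D - z) * e F d N c ≤ D * max (e F d N c) 0 := by
        have h5 : ((c : ℝ) + D - z) * e F d N c ≤ ((c : ℝ) + D - z) * max (e F d N c) 0 :=
          mul_le_mul_of_nonneg_left hm0 (by linarith)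
        have h6 : ((c : ℝ) + D - z) * max (e F d N c) 0 ≤ D * max (e F d N c) 0 :=
          mul_le_mul_of_nonneg_right (by linarith) hm1
        linarith
      have h5 : ((z : ℝ) - c) * e F d N (c + D) ≤ (z - c) * (ε * D) :=
        mul_le_mul_of_nonneg_left h2 (by linarith)
      linarith
    exact le_of_mul_le_mul_left h3 hD0
  · have hz' : (z : ℝ) ≤ c := by exact_mod_cast hcz
    have ha : |(z : ℝ) - c| = c - z := by rw [abs_sub_comm, abs_of_nonneg (by linarith)]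
    rw [ha] at hzD ⊢
    have hy1 : c - D ≤ z := by
      have : ((c - D : ℤ) : ℝ) ≤ (z : ℝ) := by push_cast; linarith
      exact_mod_cast this
    have h1 := e_chord F d hN1' hy1 hcz
    have h2 := hcost (c - D) (by
      push_cast
      rw [show (c : ℝ) - D - c = -D by ring, abs_neg, abs_of_pos hD0])
    push_cast at h1
    rw [sub_sub_cancel] at h1
    have h3 : (D : ℝ) * e F d N z ≤ D * (max (e F d N c) 0 + ε * (c - z)) := by
      have h4 : ((z : ℝ) - (c - D)) * e F d N c ≤ D * max (e F d N c) 0 := by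
        have h5 : ((z : ℝ) - (c - D)) * e F d N c ≤ ((z : ℝ) - (c - D)) * max (e F d N c) 0 :=
          mul_le_mul_of_nonneg_left hm0 (by linarith)
        have h6 : ((z : ℝ) - (c - D)) * max (e F d N c) 0 ≤ D * max (e F d N c) 0 :=
          mul_le_mul_of_nonneg_right (by linarith) hm1
        linarith
      have h5 : ((c : ℝ) - z) * e F d N (c - D) ≤ (c - z) * (ε * D) :=
        mul_le_mul_of_nonneg_left h2 (by linarith)
      linarith
    exact le_of_mul_le_mul_left h3 hD0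

/-- **(TRAV*)** with a linear term. -/
theorem Dirs.trav_eps (h : Dirs F κ K A) {ε : ℝ} (hε : 0 < ε) : ∃ η δ : ℝ, 0 < η ∧ 0 < δ ∧ ∃ n0 : ℕ, 1 ≤ n0 ∧ ∀ d ∈ A,
    ∀ n : ℕ, n0 ≤ n → ∀ E r Y l : ℝ, 0 ≤ E → E ≤ δ * n → 1 ≤ l →
      (∀ t : ℕ, t ≤ n → ∀ z : ℤ, |(z : ℝ) - (Y + r * t)| ≤ l → e F d (12 * n + t) z ≤ E) →
      ∀ t : ℕ, t ≤ n → ∀ z : ℤ, |(z : ℝ) - (Y + r * t)| ≤ η * n →
        e F d (12 * n + t) z ≤ E + ε * |(z : ℝ) - (Y + r * t)| := by
  obtain ⟨η, δ, hη, hδ, n0, hn0, hs⟩ := h.spread hε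
  refine ⟨η, δ, hη, hδ, n0, hn0, fun d hd n hn E r Y l hE0 hE hl hcore t ht z hz => ?_⟩
  have hnp : (0 : ℝ) ≤ n := Nat.cast_nonneg _
  have hNn : (n : ℝ) ≤ ((12 * n + t : ℕ) : ℝ) := by push_cast; linarith [Nat.cast_nonneg (α := ℝ) t]
  have hε0 : 0 ≤ ε * |(z : ℝ) - (Y + r * t)| := by positivity
  by_cases hcase : |(z : ℝ) - (Y + r * t)| ≤ l
  · linarith [hcore t ht z hcase]
  push Not at hcase
  -- the end of the core next to `z`
  have key : ∀ c : ℤ, |(c : ℝ) - (Y + r * t)| ≤ l → |(z : ℝ) - c| ≤ |(z : ℝ) - (Y + r * t)| →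
      e F d (12 * n + t) z ≤ E + ε * |(z : ℝ) - (Y + r * t)| := by
    intro c hc hzc
    have h1 := hcore t ht c hc
    have h2 : e F d (12 * n + t) c ≤ δ * ((12 * n + t : ℕ) : ℝ) :=
      (h1.trans hE).trans (mul_le_mul_of_nonneg_left hNn hδ.le)
    have h3 : |(z : ℝ) - c| ≤ η * ((12 * n + t : ℕ) : ℝ) :=
      (hzc.trans hz).trans (mul_le_mul_of_nonneg_left hNn hη.le)
    have h4 := hs d hd (12 * n + t) (by omega) c h2 z h3
    have h5 : max (e F d (12 * n + t) c) 0 ≤ E := max_le h1 hE0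
    have h6 := mul_le_mul_of_nonneg_left hzc hε.le
    linarith
  have f1 : ((⌊Y + r * t⌋ : ℤ) : ℝ) ≤ Y + r * t := Int.floor_le _
  have f2 : Y + r * t < (⌊Y + r * t⌋ : ℤ) + 1 := Int.lt_floor_add_one _
  rcases le_total (Y + r * t) z with hzY | hzY
  · rw [abs_of_nonneg (by linarith)] at hcase
    refine key (⌊Y + r * t⌋ + 1) ?_ ?_
    · push_cast
      rw [abs_le]
      constructor <;> linarith
    · push_cast
      rw [abs_of_nonneg (by linarith), abs_of_nonneg (by linarith)]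
      linarith
  · rw [abs_of_nonpos (by linarith)] at hcase
    refine key ⌊Y + r * t⌋ ?_ ?_
    · rw [abs_le]
      constructor <;> linarith
    · rw [abs_of_nonpos (by linarith), abs_of_nonpos (by linarith)]
      linarith

end

end Pool.Agent.W_1b8d5d_p
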