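import Pool.Agent.W_7d29a1_h42.LuckBase

/-!
ZERO TEMPERATURE (proofs rows 623 and 627): functions of independent variables `X i = Q (u i)`, `u i` uniform on
`[0, 1]`, with a subgradient in `[0, 1]`. Definitions.

The law of `X` has a density in `[r-, r+]` on `[0, 1]` iff `Q` satisfies `Qf Q (1 / r+) (1 / r-)` (`ZQuant`).
`PN`, `cn` are those of `W_7d29a1_h42`.
-/

namespace Pool.Agent.W_1b8d5d_z

open MeasureTheory Set
open Pool.Agent.W_7d29a1_h42

noncomputable section

/-- The uniform law on `[0, 1]`. -/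
abbrev U01 : Measure ℝ := volume.restrict (Icc 0 1)

instance : IsProbabilityMeasure U01 := ⟨by simp⟩

/-- The quantile functions: slopes in `[a, b]` on `[0, 1]`, monotone and Lipschitz on the whole line (constant outside
of `[0, 1]`), values in an interval of length one. -/
structure Qf (Q : ℝ → ℝ) (a b : ℝ) : Prop where
  mono : Monotone Q
  a0 : 0 < a
  ab : a ≤ b
  lo : ∀ x y, 0 ≤ x → x ≤ y → y ≤ 1 → a * (y - x) ≤ Q y - Q x
  hi : ∀ x y, x ≤ y → Q y - Q x ≤ b * (y - x)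
  one : ∀ x y, Q y - Q x ≤ 1

theorem Qf.b0 {Q : ℝ → ℝ} {a b : ℝ} (h : Qf Q a b) : 0 < b := lt_of_lt_of_le h.a0 h.ab

theorem Qf.osc {Q : ℝ → ℝ} {a b : ℝ} (h : Qf Q a b) (x y : ℝ) : |Q y - Q x| ≤ 1 :=
  _root_.abs_le.2 ⟨by linarith [h.one y x], h.one x y⟩

theorem Qf.abs_lip {Q : ℝ → ℝ} {a b : ℝ} (h : Qf Q a b) (x y : ℝ) : |Q y - Q x| ≤ b * |y - x| := by
  rcases le_total x y with h1 | h1
  · rw [abs_of_nonneg (by linarith [h.mono h1]), abs_of_nonneg (by linarith)]
    exact h.hi x y h1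
  · rw [abs_sub_comm, abs_sub_comm y x, abs_of_nonneg (by linarith [h.mono h1]), abs_of_nonneg (by linarith)]
    exact h.hi y x h1

/-- Bounded measurable functions. -/
def BM {α : Type} [MeasurableSpace α] (F : α → ℝ) : Prop := Measurable F ∧ ∃ C : ℝ, ∀ x, |F x| ≤ C

section bm

variable {α : Type} [MeasurableSpace α] {F G : α → ℝ}

theorem BM.int (h : BM F) {μ : Measure α} [IsFiniteMeasure μ] : Integrable F μ := by
  obtain ⟨hm, C, hC⟩ := h
  exact (integrable_const C).mono' hm.aestronglyMeasurable (Filter.Eventually.of_forall fun x => by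
    rw [Real.norm_eq_abs]
    exact hC x)

theorem BM.const (c : ℝ) : BM fun _ : α => c := ⟨measurable_const, |c|, fun _ => le_rfl⟩

theorem BM.add (h : BM F) (k : BM G) : BM fun x => F x + G x := by
  obtain ⟨hm, C, hC⟩ := h
  obtain ⟨km, D, hD⟩ := k
  exact ⟨hm.add km, C + D, fun x => (abs_add_le _ _).trans (add_le_add (hC x) (hD x))⟩

theorem BM.neg (h : BM F) : BM fun x => -F x := by
  obtain ⟨hm, C, hC⟩ := h
  exact ⟨hm.neg, C, fun x => by rw [abs_neg]; exact hC x⟩

theorem BM.sub (h : BM F) (k : BM G) : BM fun x => F x - G x := by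
  simpa [sub_eq_add_neg] using h.add k.neg

theorem BM.mul (h : BM F) (k : BM G) : BM fun x => F x * G x := by
  obtain ⟨hm, C, hC⟩ := h
  obtain ⟨km, D, hD⟩ := k
  refine ⟨hm.mul km, |C| * |D|, fun x => ?_⟩
  rw [abs_mul]
  exact mul_le_mul ((hC x).trans (le_abs_self C)) ((hD x).trans (le_abs_self D)) (abs_nonneg _) (abs_nonneg _)

theorem BM.const_mul (c : ℝ) (h : BM F) : BM fun x => c * F x := (BM.const c).mul h

theorem BM.pow (h : BM F) (n : ℕ) : BM fun x => F x ^ n := by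
  obtain ⟨hm, C, hC⟩ := h
  refine ⟨hm.pow_const n, |C| ^ n, fun x => ?_⟩
  rw [abs_pow]
  exact pow_le_pow_left₀ (abs_nonneg _) ((hC x).trans (le_abs_self C)) n

theorem BM.max0 (h : BM F) (s : ℝ) : BM fun x => max (F x - s) 0 := by
  obtain ⟨hm, C, hC⟩ := h
  refine ⟨(hm.sub_const s).max measurable_const, |C| + |s|, fun x => ?_⟩
  rw [abs_of_nonneg (le_max_right _ _)]
  refine max_le ?_ (by positivity)
  linarith [le_abs_self (F x), neg_abs_le s, hC x, le_abs_self C]

theorem BM.comp {β : Type} [MeasurableSpace β] (h : BM F) {k : β → α} (hk : Measurable k) : BM fun y => F (k y) := by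
  obtain ⟨hm, C, hC⟩ := h
  exact ⟨hm.comp hk, C, fun y => hC (k y)⟩

end bm

/-- A subgradient `g` of `F` in the variables `Q (x i)`, with values in `[0, 1]`. -/
structure SG (Q : ℝ → ℝ) (N : ℕ) (g : Fin N → (Fin N → ℝ) → ℝ) (F : (Fin N → ℝ) → ℝ) : Prop where
  mF : Measurable F
  mg : ∀ i, Measurable (g i)
  g0 : ∀ i x, 0 ≤ g i x
  g1 : ∀ i x, g i x ≤ 1
  sub : ∀ x y, F x + ∑ i, g i x * (Q (y i) - Q (x i)) ≤ F y

end

end Pool.Agent.W_1b8d5d_z
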