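import Pool.Agent.W_1b8d5d_p.ZRec

/-!
ZERO TEMPERATURE (proofs row 623, steps (2) - (4)): luck from the stopped variance, by induction on the number of
coordinates. Dual form: all levels `s`; `ρ` is the value of the likelihood, `L` the budget which is left.
-/

namespace Pool.Agent.W_1b8d5d_z

open MeasureTheory Set
open Pool.Agent.W_7d29a1_h42

noncomputable section

variable {Q : ℝ → ℝ} {a b : ℝ}

private theorem zk_triv {N : ℕ} {Go Fp : (Fin N → ℝ) → ℝ} (hGo : BM Go) (hFp : BM Fp) (h : ∀ x, Go x ≤ Fp x) {B : ℝ}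
    (hB : 1 ≤ B) (s : ℝ) : ∫ x, Go x ∂(PN U01 N) ≤ s + B * ∫ x, max (Fp x - s) 0 ∂(PN U01 N) := by
  have h1 : ∫ x, Go x ∂(PN U01 N) ≤ ∫ x, (s + B * max (Fp x - s) 0) ∂(PN U01 N) := by
    refine integral_mono hGo.int ((BM.const s).add ((hFp.max0 s).const_mul B)).int fun x => ?_
    have h2 := h x
    have h3 := le_max_left (Fp x - s) 0
    have h4 := le_max_right (Fp x - s) 0
    nlinarith
  rw [integral_add (integrable_const _) ((hFp.max0 s).const_mul B).int, integral_const_mul] at h1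
  simpa using h1

/-- One step: from the pointwise inequality to the integrals. -/
private theorem zk_step (hQ : Qf Q a b) {θ cc P : ℝ} (hθ0 : 0 ≤ θ) (hθ1 : θ ≤ 1 / 2) (hcc : cc = a / (2 * b) * θ)
    {γ f G S k : ℝ → ℝ} (h : SG1 Q γ f) (hG : BM G) (hS : BM S)
    (hk : BM fun y => (1 + θ * (f y - ∫ x, f x ∂U01)) * k y)
    (hmain : ∀ x y, G x + γ x * (Q y - Q x) + cc * (S x - P * (1 + θ * (f y - ∫ x, f x ∂U01))) ≤ k y) :
    ∫ x, G x ∂U01 + cc * (Vr f + ∫ x, S x ∂U01) - cc * P * (1 + θ ^ 2 * Vr f) ≤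
      ∫ y, (1 + θ * (f y - ∫ x, f x ∂U01)) * k y ∂U01 := by
  obtain ⟨m, hm⟩ : ∃ m, m = ∫ x, f x ∂U01 := ⟨_, rfl⟩
  have hf := h.bm hQ
  have hosc : ∀ y, |f y - m| ≤ 1 := fun y => by rw [hm]; exact h.osc_mean hQ y
  have hr0 : ∀ y, 0 ≤ 1 + θ * (f y - m) := fun y => by
    have := abs_le.1 (hosc y)
    nlinarith
  have hτ : Measurable (tau θ f) := tau_meas hQ h θ
  have e1 := tau_map hQ h hθ0 hθ1 hG
  have e2 := tau_map hQ h hθ0 hθ1 hS
  have e3 := gain hQ h hθ0 hθ1
  rw [← hm] at hk hmain e1 e2 e3 ⊢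
  have hr : BM fun y => 1 + θ * (f y - m) := (BM.const 1).add ((hf.sub (BM.const m)).const_mul θ)
  have hQb : BM fun y => Q y - Q (tau θ f y) := by
    refine ⟨hQ.mono.measurable.sub (hQ.mono.measurable.comp hτ), 1, fun y => hQ.osc _ _⟩
  have b1 : BM fun y => (1 + θ * (f y - m)) * G (tau θ f y) := hr.mul (hG.comp hτ)
  have b2 : BM fun y => (1 + θ * (f y - m)) * (γ (tau θ f y) * (Q y - Q (tau θ f y))) :=
    hr.mul ((h.bγ.comp hτ).mul hQb)
  have b3 : BM fun y => (1 + θ * (f y - m)) * S (tau θ f y) := hr.mul (hS.comp hτ)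
  have b4 : BM fun y => (1 + θ * (f y - m)) ^ 2 := hr.pow 2
  have hpt : ∀ y, (1 + θ * (f y - m)) * G (tau θ f y) +
      ((1 + θ * (f y - m)) * (γ (tau θ f y) * (Q y - Q (tau θ f y))) +
        (cc * ((1 + θ * (f y - m)) * S (tau θ f y)) - cc * P * (1 + θ * (f y - m)) ^ 2)) ≤
      (1 + θ * (f y - m)) * k y := by
    intro y
    have h1 := mul_le_mul_of_nonneg_left (hmain (tau θ f y) y) (hr0 y)
    refine le_trans (le_of_eq ?_) h1
    ring
  have hint := integral_mono (b1.add (b2.add ((b3.const_mul cc).sub (b4.const_mul (cc * P))))).int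
    (μ := U01) hk.int hpt
  rw [integral_add b1.int (b2.add ((b3.const_mul cc).sub (b4.const_mul (cc * P)))).int,
    integral_add b2.int ((b3.const_mul cc).sub (b4.const_mul (cc * P))).int,
    integral_sub (b3.const_mul cc).int (b4.const_mul (cc * P)).int, integral_const_mul, integral_const_mul,
    e1, e2] at hint
  have e4 : ∫ y, (1 + θ * (f y - m)) ^ 2 ∂U01 = 1 + θ ^ 2 * Vr f := by
    have h1 : ∀ y, (1 + θ * (f y - m)) ^ 2 = 1 + (2 * θ * (f y - m) + θ ^ 2 * (f y - m) ^ 2) := fun y => by ring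
    have i1 : BM fun y => f y - m := hf.sub (BM.const m)
    simp_rw [h1]
    have h2 : ∫ x, (f x - m) ∂U01 = 0 := by
      rw [integral_sub hf.int (integrable_const _), ← hm]
      simp
    rw [integral_add (integrable_const _) ((i1.const_mul _).add ((i1.pow 2).const_mul _)).int,
      integral_add (i1.const_mul _).int ((i1.pow 2).const_mul _).int, integral_const_mul, integral_const_mul, h2]
    unfold Vr
    rw [← hm]
    simp
  rw [e4] at hint
  rw [hcc] at hint ⊢
  linarith

theorem key0 (hQ : Qf Q a b) {θ N0 : ℝ} (hθ0 : 0 ≤ θ) (hθ1 : θ ≤ 1 / 2) (hN0 : 0 < N0) (N : ℕ) :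
    ∀ (F Go Fp : (Fin N → ℝ) → ℝ) (g : Fin N → (Fin N → ℝ) → ℝ) (L ρ s : ℝ), SG Q N g F → BM Go → BM Fp →
      0 ≤ L → 0 < ρ → ρ ≤ 2 * N0 → (∀ x y, Go x + ∑ i, g i x * (Q (y i) - Q (x i)) ≤ Fp y) →
      ∫ x, Go x ∂(PN U01 N) + (a / (2 * b) * θ) * (VS N F L - L * (ρ / N0) * Real.exp (θ ^ 2 * L)) ≤
      s + (2 * N0 / ρ) * ∫ x, max (Fp x - s) 0 ∂(PN U01 N) := by
  have hb0 := hQ.b0
  have ha0 := hQ.a0
  have hcc0 : 0 ≤ a / (2 * b) * θ := by positivity
  induction N with
  | zero =>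
    intro F Go Fp g L ρ s hF hGo hFp hL hρ0 hρ1 h
    have h1 : ∀ x, Go x ≤ Fp x := fun x => by
      have := h x x
      simpa using this
    have hB : 1 ≤ 2 * N0 / ρ := by rw [le_div_iff₀ hρ0]; linarith
    have h2 := zk_triv hGo hFp h1 hB s
    have h3 : 0 ≤ L * (ρ / N0) * Real.exp (θ ^ 2 * L) :=
      mul_nonneg (mul_nonneg hL (by positivity)) (Real.exp_pos _).le
    have h4 := mul_nonneg hcc0 h3
    simp only [VS]
    nlinarith
  | succ N ih =>
    intro F Go Fp g L ρ s hF hGo hFp hL hρ0 hρ1 h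
    have h1 : ∀ x, Go x ≤ Fp x := fun x => by
      have := h x x
      simpa using this
    have hB : 1 ≤ 2 * N0 / ρ := by rw [le_div_iff₀ hρ0]; linarith
    have htriv := zk_triv hGo hFp h1 hB s
    have hpen : 0 ≤ L * (ρ / N0) * Real.exp (θ ^ 2 * L) :=
      mul_nonneg (mul_nonneg hL (by positivity)) (Real.exp_pos _).le
    obtain ⟨cc, hcc⟩ : ∃ cc, cc = a / (2 * b) * θ := ⟨_, rfl⟩
    rw [← hcc] at hcc0 ih ⊢
    by_cases hcase1 : Vr (fm F) ≤ L
    swap
    · have hVS : VS (N + 1) F L = 0 := by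
        simp only [VS]
        rw [if_neg hcase1]
      rw [hVS]
      have h4 := mul_nonneg hcc0 hpen
      nlinarith
    by_cases hcase2 : N0 < ρ
    · have h2 : VS (N + 1) F L ≤ L := VS_le _ _ _ hF.mF hL
      have h3 : L * 1 ≤ L * (ρ / N0 * Real.exp (θ ^ 2 * L)) := by
        refine mul_le_mul_of_nonneg_left ?_ hL
        have h5 : 1 ≤ ρ / N0 := by rw [le_div_iff₀ hN0]; linarith
        have h6 : 1 ≤ Real.exp (θ ^ 2 * L) := Real.one_le_exp (by positivity)
        nlinarith
      have h4 : cc * (VS (N + 1) F L - L * (ρ / N0) * Real.exp (θ ^ 2 * L)) ≤ 0 := by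
        refine mul_nonpos_of_nonneg_of_nonpos hcc0 ?_
        rw [mul_assoc]
        linarith
      linarith
    push Not at hcase2
    -- the main case
    obtain ⟨V, hV⟩ : ∃ V, V = Vr (fm F) := ⟨_, rfl⟩
    have hV0 : 0 ≤ V := by rw [hV]; exact Vr_nonneg _
    rw [← hV] at hcase1
    obtain ⟨m, hm⟩ : ∃ m, m = ∫ x, fm F x ∂U01 := ⟨_, rfl⟩
    have hFb := hF.bm hQ
    have h1s := hF.one hQ
    have hosc : ∀ y, |fm F y - m| ≤ 1 := fun y => by rw [hm]; exact h1s.osc_mean hQ y
    have hr0 : ∀ y, 1 / 2 ≤ 1 + θ * (fm F y - m) := fun y => by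
      have := abs_le.1 (hosc y)
      nlinarith
    have hr1 : ∀ y, 1 + θ * (fm F y - m) ≤ 2 := fun y => by
      have := abs_le.1 (hosc y)
      nlinarith
    obtain ⟨P, hP⟩ : ∃ P, P = (L - V) * (ρ / N0) * Real.exp (θ ^ 2 * (L - V)) := ⟨_, rfl⟩
    obtain ⟨k, hk⟩ : ∃ k : ℝ → ℝ, k = fun y => s + (2 * N0 / (ρ * (1 + θ * (fm F y - m)))) *
        fm (fun x => max (Fp x - s) 0) y := ⟨_, rfl⟩
    have hHb : BM (fm fun x => max (Fp x - s) 0) := (hFp.max0 s).fm
    have hrb : BM fun y => 1 + θ * (fm F y - m) := (BM.const 1).add ((hFb.fm.sub (BM.const m)).const_mul θ)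
    have ek : ∀ y, (1 + θ * (fm F y - m)) * k y = s * (1 + θ * (fm F y - m)) +
        (2 * N0 / ρ) * fm (fun x => max (Fp x - s) 0) y := by
      intro y
      rw [hk]
      have h2 := hr0 y
      have h3 : 1 + θ * (fm F y - m) ≠ 0 := by
        intro h0
        rw [h0] at h2
        norm_num at h2
      field_simp
    have hkb : BM fun y => (1 + θ * (fm F y - m)) * k y := by
      have h2 := (hrb.const_mul s).add (hHb.const_mul (2 * N0 / ρ))
      refine ⟨?_, ?_⟩
      · have e : (fun y => (1 + θ * (fm F y - m)) * k y) = fun y => s * (1 + θ * (fm F y - m)) +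
          (2 * N0 / ρ) * fm (fun x => max (Fp x - s) 0) y := funext ek
        rw [e]
        exact h2.1
      · obtain ⟨C, hC⟩ := h2.2
        refine ⟨C, fun y => ?_⟩
        show |(1 + θ * (fm F y - m)) * k y| ≤ C
        rw [ek]
        exact hC y
    have hSb : BM fun r => VS N (sc F r) (L - V) := VS_sec_bm hF.mF (by linarith)
    have hmain : ∀ x y, fm Go x + fm (g 0) x * (Q y - Q x) +
        cc * (VS N (sc F x) (L - V) - P * (1 + θ * (fm F y - m))) ≤ k y := by
      intro x y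
      have hρ' : 0 < ρ * (1 + θ * (fm F y - m)) := mul_pos hρ0 (by linarith [hr0 y])
      have hρ'' : ρ * (1 + θ * (fm F y - m)) ≤ 2 * N0 := by
        have := hr1 y
        nlinarith
      have hGx : BM fun z => Go (cn x z) + g 0 (cn x z) * (Q y - Q x) :=
        (hGo.sc x).add (((hF.bg 0).sc x).mul (BM.const (Q y - Q x)))
      have h2 := ih (sc F x) (fun z => Go (cn x z) + g 0 (cn x z) * (Q y - Q x)) (fun z => Fp (cn y z))
        (fun i z => g i.succ (cn x z)) (L - V) (ρ * (1 + θ * (fm F y - m))) s (hF.sec x) hGx (hFp.sc y)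
        (by linarith) hρ' hρ'' (fun z z' => by
          have h3 := h (cn x z) (cn y z')
          rw [Fin.sum_univ_succ] at h3
          simp only [cn_zero, cn_succ] at h3
          linarith)
      have j1 : Integrable (fun z => Go (cn x z)) (PN U01 N) := (hGo.sc x).int
      have j2 : Integrable (fun z => g 0 (cn x z) * (Q y - Q x)) (PN U01 N) := ((hF.bg 0).sc x).int.mul_const _
      rw [integral_add j1 j2, integral_mul_const] at h2
      have h4 : (L - V) * (ρ * (1 + θ * (fm F y - m)) / N0) * Real.exp (θ ^ 2 * (L - V)) =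
          P * (1 + θ * (fm F y - m)) := by
        rw [hP]
        ring
      rw [h4] at h2
      rw [hk]
      exact h2
    have hstep := zk_step (k := k) (P := P) hQ hθ0 hθ1 hcc h1s hGo.fm hSb (by rw [← hm]; exact hkb)
      (by rw [← hm]; exact hmain)
    rw [← hm] at hstep
    simp_rw [ek] at hstep
    rw [integral_add (hrb.const_mul s).int (hHb.const_mul _).int, integral_const_mul, integral_const_mul,
      ← int_fm (hFp.max0 s), ← int_fm hGo, ← hV] at hstep
    have er : ∫ y, (1 + θ * (fm F y - m)) ∂U01 = 1 := by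
      rw [integral_add (integrable_const _) ((hFb.fm.sub (BM.const m)).const_mul θ).int, integral_const_mul,
        integral_sub hFb.fm.int (integrable_const _), ← hm]
      simp
    rw [er, mul_one] at hstep
    refine le_trans ?_ hstep
    have hVS : VS (N + 1) F L = V + ∫ r, VS N (sc F r) (L - V) ∂U01 := by
      simp only [VS]
      rw [← hV, if_pos hcase1]
    rw [hVS]
    have hP0 : 0 ≤ P := by
      rw [hP]
      exact mul_nonneg (mul_nonneg (by linarith) (by positivity)) (Real.exp_pos _).le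
    have hexp : P * (1 + θ ^ 2 * V) ≤ L * (ρ / N0) * Real.exp (θ ^ 2 * L) := by
      have h2 : 1 + θ ^ 2 * V ≤ Real.exp (θ ^ 2 * V) := by
        have h3 := Real.add_one_le_exp (θ ^ 2 * V)
        linarith
      calc P * (1 + θ ^ 2 * V) ≤ P * Real.exp (θ ^ 2 * V) := mul_le_mul_of_nonneg_left h2 hP0
        _ = (L - V) * (ρ / N0) * Real.exp (θ ^ 2 * L) := by
            rw [hP, mul_assoc, ← Real.exp_add]
            ring_nf
        _ ≤ L * (ρ / N0) * Real.exp (θ ^ 2 * L) := by
            refine mul_le_mul_of_nonneg_right ?_ (Real.exp_pos _).le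
            refine mul_le_mul_of_nonneg_right ?_ (by positivity)
            linarith
    have h2 := mul_le_mul_of_nonneg_left hexp hcc0
    nlinarith

end

end Pool.Agent.W_1b8d5d_z
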