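import Pool.Agent.W_1b8d5d_p.ZDefs

/-!
ZERO TEMPERATURE (proofs row 623 (1)): one coordinate. `f` has the subgradient `γ` in the variable `Q x`; the target `s` has
the density `1 + θ (f - m)` on `[0, 1]`, its source is `τ s = s - θ Ps f s ≤ s`, which is uniform.
-/

namespace Pool.Agent.W_1b8d5d_z

open MeasureTheory Set Filter Topology

noncomputable section

variable {Q : ℝ → ℝ} {a b : ℝ}

/-- A function of one coordinate with the subgradient `γ`. -/
structure SG1 (Q : ℝ → ℝ) (γ f : ℝ → ℝ) : Prop where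
  mγ : Measurable γ
  γ0 : ∀ x, 0 ≤ γ x
  γ1 : ∀ x, γ x ≤ 1
  sub : ∀ x y, f x + γ x * (Q y - Q x) ≤ f y

theorem SG1.mono {γ f : ℝ → ℝ} (hQ : Qf Q a b) (h : SG1 Q γ f) : Monotone f := by
  intro x y hxy
  have h1 := h.sub x y
  have h2 := mul_nonneg (h.γ0 x) (by linarith [hQ.mono hxy] : 0 ≤ Q y - Q x)
  linarith

theorem SG1.up {γ f : ℝ → ℝ} (hQ : Qf Q a b) (h : SG1 Q γ f) {x y : ℝ} (hxy : x ≤ y) : f y - f x ≤ Q y - Q x := by
  have h1 := h.sub y x
  have h2 : γ y * (Q y - Q x) ≤ 1 * (Q y - Q x) := mul_le_mul_of_nonneg_right (h.γ1 y) (by linarith [hQ.mono hxy])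
  have h3 : γ y * (Q x - Q y) = -(γ y * (Q y - Q x)) := by ring
  linarith

theorem SG1.lip {γ f : ℝ → ℝ} (hQ : Qf Q a b) (h : SG1 Q γ f) (x y : ℝ) : |f y - f x| ≤ b * |y - x| := by
  rcases le_total x y with h1 | h1
  · rw [abs_of_nonneg (by linarith [h.mono hQ h1]), abs_of_nonneg (by linarith)]
    exact (h.up hQ h1).trans (hQ.hi x y h1)
  · rw [abs_sub_comm, abs_sub_comm y x, abs_of_nonneg (by linarith [h.mono hQ h1]), abs_of_nonneg (by linarith)]
    exact (h.up hQ h1).trans (hQ.hi y x h1)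

theorem SG1.osc {γ f : ℝ → ℝ} (hQ : Qf Q a b) (h : SG1 Q γ f) (x y : ℝ) : |f y - f x| ≤ 1 := by
  rcases le_total x y with h1 | h1
  · rw [abs_of_nonneg (by linarith [h.mono hQ h1])]
    exact (h.up hQ h1).trans (hQ.one x y)
  · rw [abs_sub_comm, abs_of_nonneg (by linarith [h.mono hQ h1])]
    exact (h.up hQ h1).trans (hQ.one y x)

theorem SG1.bm {γ f : ℝ → ℝ} (hQ : Qf Q a b) (h : SG1 Q γ f) : BM f := by
  refine ⟨(h.mono hQ).measurable, |f 0| + 1, fun y => ?_⟩
  have h1 := h.osc hQ 0 y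
  have h2 : |f y| ≤ |f 0| + |f y - f 0| := by
    have := abs_add_le (f 0) (f y - f 0)
    rwa [add_sub_cancel] at this
  linarith

theorem SG1.osc_mean {γ f : ℝ → ℝ} (hQ : Qf Q a b) (h : SG1 Q γ f) (x : ℝ) : |f x - ∫ y, f y ∂U01| ≤ 1 := by
  have e1 : f x - ∫ y, f y ∂U01 = ∫ y, (f x - f y) ∂U01 := by
    rw [integral_sub (integrable_const _) (h.bm hQ).int]
    simp
  rw [e1]
  have h1 := norm_integral_le_of_norm_le_const (μ := U01) (f := fun y => f x - f y) (C := 1)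
    (Filter.Eventually.of_forall fun y => by rw [Real.norm_eq_abs]; exact h.osc hQ y x)
  simpa using h1

theorem SG1.bγ {γ f : ℝ → ℝ} (h : SG1 Q γ f) : BM γ :=
  ⟨h.mγ, 1, fun x => by rw [abs_of_nonneg (h.γ0 x)]; exact h.γ1 x⟩

/-- The mass above `s` of the centred function. -/
def Ps (f : ℝ → ℝ) (s : ℝ) : ℝ := ∫ v in s..1, (f v - ∫ x, f x ∂U01)

/-- The variance. -/
def Vr (f : ℝ → ℝ) : ℝ := ∫ x, (f x - ∫ y, f y ∂U01) ^ 2 ∂U01

/-- The source `τ s ≤ s` of the target `s` (`s` has the density `1 + θ (f - m)`, `τ s` is uniform). -/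
def tau (θ : ℝ) (f : ℝ → ℝ) (s : ℝ) : ℝ := s - θ * Ps f s

theorem int_U01 (f : ℝ → ℝ) : ∫ x, f x ∂U01 = ∫ x in (0 : ℝ)..1, f x := by
  rw [intervalIntegral.integral_of_le zero_le_one, ← integral_Icc_eq_integral_Ioc]

section one

variable {γ f : ℝ → ℝ}

theorem SG1.cont (hQ : Qf Q a b) (h : SG1 Q γ f) : Continuous f := by
  have hl : LipschitzWith (Real.toNNReal b) f := LipschitzWith.of_dist_le_mul fun x y => by
    rw [Real.dist_eq, Real.dist_eq, Real.coe_toNNReal b hQ.b0.le]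
    exact h.lip hQ y x
  exact hl.continuous

theorem Ps_zero (hQ : Qf Q a b) (h : SG1 Q γ f) : Ps f 0 = 0 := by
  unfold Ps
  rw [intervalIntegral.integral_sub ((h.cont hQ).intervalIntegrable _ _) intervalIntegrable_const, ← int_U01]
  simp

theorem Ps_one : Ps f 1 = 0 := by
  unfold Ps
  simp

theorem Ps_deriv (hQ : Qf Q a b) (h : SG1 Q γ f) (s : ℝ) : HasDerivAt (Ps f) (-(f s - ∫ x, f x ∂U01)) s := by
  have hc : Continuous fun v => f v - ∫ x, f x ∂U01 := (h.cont hQ).sub continuous_const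
  have h1 := (hc.integral_hasStrictDerivAt 1 s).hasDerivAt.neg
  refine h1.congr_of_eventuallyEq (Eventually.of_forall fun u => ?_)
  show Ps f u = -∫ v in (1 : ℝ)..u, (f v - ∫ x, f x ∂U01)
  unfold Ps
  rw [intervalIntegral.integral_symm]

theorem Ps_cont (hQ : Qf Q a b) (h : SG1 Q γ f) : Continuous (Ps f) :=
  continuous_iff_continuousAt.2 fun s => (Ps_deriv hQ h s).continuousAt

theorem Ps_diff (hQ : Qf Q a b) (h : SG1 Q γ f) (x y : ℝ) :
    Ps f x - Ps f y = ∫ v in x..y, (f v - ∫ x, f x ∂U01) := by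
  have hc : Continuous fun v => f v - ∫ x, f x ∂U01 := (h.cont hQ).sub continuous_const
  unfold Ps
  have h1 := intervalIntegral.integral_add_adjacent_intervals (hc.intervalIntegrable (μ := volume) x y)
    (hc.intervalIntegrable (μ := volume) y 1)
  linarith

/-- On `[0, 1]` the mass is nonnegative. -/
theorem Ps_nonneg (hQ : Qf Q a b) (h : SG1 Q γ f) {s : ℝ} (h0 : 0 ≤ s) (h1 : s ≤ 1) : 0 ≤ Ps f s := by
  have hm := h.mono hQ
  rcases le_total (∫ x, f x ∂U01) (f s) with hs | hs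
  · unfold Ps
    refine intervalIntegral.integral_nonneg h1 fun v hv => ?_
    have := hm hv.1
    linarith
  · have h2 := Ps_diff hQ h 0 s
    rw [Ps_zero hQ h] at h2
    have h3 : 0 ≤ ∫ v in (0 : ℝ)..s, -(f v - ∫ x, f x ∂U01) := by
      refine intervalIntegral.integral_nonneg h0 fun v hv => ?_
      have := hm hv.2
      linarith
    rw [intervalIntegral.integral_neg] at h3
    linarith

theorem Ps_le_one (hQ : Qf Q a b) (h : SG1 Q γ f) {s : ℝ} (h0 : 0 ≤ s) (h1 : s ≤ 1) : Ps f s ≤ 1 := by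
  have hc : Continuous fun v => f v - ∫ x, f x ∂U01 := (h.cont hQ).sub continuous_const
  unfold Ps
  calc ∫ v in s..1, (f v - ∫ x, f x ∂U01) ≤ ∫ _v in s..1, (1 : ℝ) :=
        intervalIntegral.integral_mono_on h1 (hc.intervalIntegrable _ _) intervalIntegrable_const fun v _ =>
          (le_abs_self _).trans (h.osc_mean hQ v)
    _ ≤ 1 := by
        rw [intervalIntegral.integral_const, smul_eq_mul]
        linarith

theorem tau_deriv (hQ : Qf Q a b) (h : SG1 Q γ f) (θ s : ℝ) :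
    HasDerivAt (tau θ f) (1 + θ * (f s - ∫ x, f x ∂U01)) s := by
  have h1 := (hasDerivAt_id s).sub ((Ps_deriv hQ h s).const_mul θ)
  have e : (1 : ℝ) - θ * -(f s - ∫ x, f x ∂U01) = 1 + θ * (f s - ∫ x, f x ∂U01) := by ring
  rw [e] at h1
  exact h1

theorem tau_cont (hQ : Qf Q a b) (h : SG1 Q γ f) (θ : ℝ) : Continuous (tau θ f) :=
  continuous_iff_continuousAt.2 fun s => (tau_deriv hQ h θ s).continuousAt

/-- (iii) -/
theorem tau_meas (hQ : Qf Q a b) (h : SG1 Q γ f) (θ : ℝ) : Measurable (tau θ f) := (tau_cont hQ h θ).measurable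

theorem rr_pos (hQ : Qf Q a b) (h : SG1 Q γ f) {θ : ℝ} (hθ0 : 0 ≤ θ) (hθ1 : θ ≤ 1 / 2) (s : ℝ) :
    1 / 2 ≤ 1 + θ * (f s - ∫ x, f x ∂U01) := by
  have h1 := abs_le.1 (h.osc_mean hQ s)
  nlinarith

theorem tau_mono (hQ : Qf Q a b) (h : SG1 Q γ f) {θ : ℝ} (hθ0 : 0 ≤ θ) (hθ1 : θ ≤ 1 / 2) : StrictMono (tau θ f) := by
  refine strictMono_of_hasDerivAt_pos (fun s => tau_deriv hQ h θ s) fun s => ?_
  linarith [rr_pos hQ h hθ0 hθ1 s]

theorem tau_zero (hQ : Qf Q a b) (h : SG1 Q γ f) (θ : ℝ) : tau θ f 0 = 0 := by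
  unfold tau
  rw [Ps_zero hQ h]
  ring

theorem tau_one (θ : ℝ) : tau θ f 1 = 1 := by
  unfold tau
  rw [Ps_one]
  ring

theorem tau_image (hQ : Qf Q a b) (h : SG1 Q γ f) {θ : ℝ} (hθ0 : 0 ≤ θ) (hθ1 : θ ≤ 1 / 2) :
    tau θ f '' Icc 0 1 = Icc 0 1 := by
  have hm := (tau_mono hQ h hθ0 hθ1).monotone
  refine Subset.antisymm ?_ ?_
  · rintro _ ⟨x, hx, rfl⟩
    have h1 := hm hx.1
    have h2 := hm hx.2
    rw [tau_zero hQ h] at h1
    rw [tau_one] at h2
    exact ⟨h1, h2⟩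
  · have h1 := intermediate_value_Icc zero_le_one ((tau_cont hQ h θ).continuousOn (s := Icc 0 1))
    rw [tau_zero hQ h, tau_one] at h1
    exact h1

/-- (i) CHANGE OF VARIABLES. -/
theorem tau_map (hQ : Qf Q a b) (h : SG1 Q γ f) {θ : ℝ} (hθ0 : 0 ≤ θ) (hθ1 : θ ≤ 1 / 2) {G : ℝ → ℝ}
    (_hG : BM G) : ∫ y, (1 + θ * (f y - ∫ x, f x ∂U01)) * G (tau θ f y) ∂U01 = ∫ x, G x ∂U01 := by
  have h1 := integral_image_eq_integral_abs_deriv_smul (s := Icc (0 : ℝ) 1) (f := tau θ f)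
    (f' := fun s => 1 + θ * (f s - ∫ x, f x ∂U01)) measurableSet_Icc
    (fun x _ => (tau_deriv hQ h θ x).hasDerivWithinAt) ((tau_mono hQ h hθ0 hθ1).injective.injOn) G
  rw [tau_image hQ h hθ0 hθ1] at h1
  rw [h1]
  refine integral_congr_ae (Eventually.of_forall fun y => ?_)
  show (1 + θ * (f y - ∫ x, f x ∂U01)) * G (tau θ f y) = |1 + θ * (f y - ∫ x, f x ∂U01)| • G (tau θ f y)
  rw [abs_of_nonneg (by linarith [rr_pos hQ h hθ0 hθ1 y]), smul_eq_mul]

/-- At a point of differentiability the derivative is at most `b γ`. -/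
theorem deriv_le (hQ : Qf Q a b) (h : SG1 Q γ f) {x : ℝ} (hx : DifferentiableAt ℝ f x) : deriv f x ≤ b * γ x := by
  have h1 := (hasDerivAt_iff_tendsto_slope.1 hx.hasDerivAt).mono_left
    (nhdsWithin_mono x (fun y (hy : y < x) => ne_of_lt hy) : 𝓝[<] x ≤ 𝓝[≠] x)
  refine le_of_tendsto h1 ?_
  filter_upwards [self_mem_nhdsWithin] with y hy
  have hy' : y < x := hy
  rw [slope_comm, slope_def_field, div_le_iff₀ (by linarith)]
  have h2 := h.sub x y
  have h3 : γ x * (Q x - Q y) ≤ γ x * (b * (x - y)) := mul_le_mul_of_nonneg_left (hQ.hi y x hy'.le) (h.γ0 x)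
  have h4 : γ x * (Q y - Q x) = -(γ x * (Q x - Q y)) := by ring
  nlinarith

theorem Vr_le (hQ : Qf Q a b) (h : SG1 Q γ f) : Vr f ≤ b * ∫ x, γ x * Ps f x ∂U01 := by
  obtain ⟨m, hm⟩ : ∃ m, m = ∫ x, f x ∂U01 := ⟨_, rfl⟩
  have hfc := h.cont hQ
  have hPc := Ps_cont hQ h
  have hPd : ∀ s, HasDerivAt (Ps f) (-(f s - m)) s := fun s => by rw [hm]; exact Ps_deriv hQ h s
  have hacf : AbsolutelyContinuousOnInterval f 0 1 := by
    have hl : LipschitzWith (Real.toNNReal b) f := LipschitzWith.of_dist_le_mul fun x y => by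
      rw [Real.dist_eq, Real.dist_eq, Real.coe_toNNReal b hQ.b0.le]
      exact h.lip hQ y x
    exact (hl.lipschitzOnWith (s := uIcc 0 1)).absolutelyContinuousOnInterval
  have hacP : AbsolutelyContinuousOnInterval (Ps f) 0 1 := by
    have hl : LipschitzWith 1 (Ps f) := by
      refine lipschitzWith_of_nnnorm_deriv_le (fun s => (hPd s).differentiableAt) fun s => ?_
      rw [(hPd s).deriv, ← NNReal.coe_le_coe, coe_nnnorm, Real.norm_eq_abs, abs_neg, hm]
      exact h.osc_mean hQ s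
    exact (hl.lipschitzOnWith (s := uIcc 0 1)).absolutelyContinuousOnInterval
  have hparts := hacf.integral_mul_deriv_eq_deriv_mul hacP
  rw [Ps_one, Ps_zero hQ h] at hparts
  have e1 : ∫ x in (0 : ℝ)..1, f x * deriv (Ps f) x = -Vr f := by
    have h1 : ∀ x, f x * deriv (Ps f) x = -((f x - m) ^ 2 + m * (f x - m)) := fun x => by
      rw [(hPd x).deriv]
      ring
    simp_rw [h1]
    have c1 : Continuous fun x => (f x - m) ^ 2 := (hfc.sub continuous_const).pow 2
    have c2 : Continuous fun x => m * (f x - m) := continuous_const.mul (hfc.sub continuous_const)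
    rw [intervalIntegral.integral_neg, intervalIntegral.integral_add (c1.intervalIntegrable _ _)
      (c2.intervalIntegrable _ _), intervalIntegral.integral_const_mul,
      intervalIntegral.integral_sub (hfc.intervalIntegrable _ _) intervalIntegrable_const, ← int_U01, ← int_U01, ← hm]
    unfold Vr
    rw [← hm]
    simp
  rw [e1] at hparts
  have e2 : Vr f = ∫ x in (0 : ℝ)..1, deriv f x * Ps f x := by linarith
  rw [e2, int_U01, ← intervalIntegral.integral_const_mul]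
  have hae := hacf.ae_differentiableAt
  refine intervalIntegral.integral_mono_ae_restrict zero_le_one ?_ ?_ ?_
  · exact hacf.intervalIntegrable_deriv.mul_continuousOn hPc.continuousOn
  · have hbγ : BM fun x => b * (γ x * max 0 (min 1 (Ps f x))) := by
      refine (h.bγ.mul ⟨measurable_const.max (measurable_const.min hPc.measurable), 1, fun x => ?_⟩).const_mul b
      rw [abs_of_nonneg (le_max_left _ _)]
      exact max_le zero_le_one (min_le_left _ _)
    have h1 : IntervalIntegrable (fun x => b * (γ x * max 0 (min 1 (Ps f x)))) volume 0 1 := by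
      rw [intervalIntegrable_iff_integrableOn_Icc_of_le zero_le_one]
      exact hbγ.int (μ := U01)
    refine h1.congr fun x hx => ?_
    rw [uIoc_of_le zero_le_one] at hx
    rw [min_eq_right (Ps_le_one hQ h hx.1.le hx.2), max_eq_right (Ps_nonneg hQ h hx.1.le hx.2)]
  · have h2 : ∀ᵐ x ∂(volume.restrict (Icc (0 : ℝ) 1)), x ∈ Icc (0 : ℝ) 1 := ae_restrict_mem measurableSet_Icc
    filter_upwards [h2, ae_restrict_of_ae hae] with x hx hd
    have hx' : x ∈ uIcc (0 : ℝ) 1 := by rw [uIcc_of_le zero_le_one]; exact hx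
    have h3 := deriv_le hQ h (hd hx')
    have h4 := mul_le_mul_of_nonneg_right h3 (Ps_nonneg hQ h hx.1 hx.2)
    rw [mul_assoc] at h4
    exact h4

/-- (ii) THE GAIN (row 623 (1)). -/
theorem gain (hQ : Qf Q a b) (h : SG1 Q γ f) {θ : ℝ} (hθ0 : 0 ≤ θ) (hθ1 : θ ≤ 1 / 2) :
    a / (2 * b) * θ * Vr f ≤
      ∫ y, (1 + θ * (f y - ∫ x, f x ∂U01)) * (γ (tau θ f y) * (Q y - Q (tau θ f y))) ∂U01 := by
  have ha0 := hQ.a0
  have hb0 := hQ.b0
  obtain ⟨m, hm⟩ : ∃ m, m = ∫ x, f x ∂U01 := ⟨_, rfl⟩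
  obtain ⟨G, hG⟩ : ∃ G : ℝ → ℝ, G = fun x => γ x * max 0 (min 1 (Ps f x)) := ⟨_, rfl⟩
  have hGb : BM G := by
    rw [hG]
    refine h.bγ.mul ⟨measurable_const.max (measurable_const.min (Ps_cont hQ h).measurable), 1, fun x => ?_⟩
    rw [abs_of_nonneg (le_max_left _ _)]
    exact max_le zero_le_one (min_le_left _ _)
  have hGP : ∀ x ∈ Icc (0 : ℝ) 1, G x = γ x * Ps f x := fun x hx => by
    rw [hG]
    dsimp only
    rw [min_eq_right (Ps_le_one hQ h hx.1 hx.2), max_eq_right (Ps_nonneg hQ h hx.1 hx.2)]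
  have hmap := tau_map hQ h hθ0 hθ1 hGb
  have hV := Vr_le hQ h
  have e1 : ∫ x, γ x * Ps f x ∂U01 = ∫ x, G x ∂U01 := by
    refine setIntegral_congr_fun measurableSet_Icc fun x hx => ?_
    exact (hGP x hx).symm
  rw [e1, ← hmap] at hV
  have hτc := tau_cont hQ h θ
  have hτm := (tau_mono hQ h hθ0 hθ1).monotone
  have hrb : BM fun y => 1 + θ * (f y - ∫ x, f x ∂U01) :=
    (BM.const 1).add (((h.bm hQ).sub (BM.const _)).const_mul θ)
  have hQb : BM fun y => Q y - Q (tau θ f y) :=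
    ⟨hQ.mono.measurable.sub (hQ.mono.measurable.comp hτc.measurable), 1, fun y => hQ.osc _ _⟩
  have b1 : BM fun y => (1 + θ * (f y - ∫ x, f x ∂U01)) * G (tau θ f y) := hrb.mul (hGb.comp hτc.measurable)
  have b2 : BM fun y => (1 + θ * (f y - ∫ x, f x ∂U01)) * (γ (tau θ f y) * (Q y - Q (tau θ f y))) :=
    hrb.mul ((h.bγ.comp hτc.measurable).mul hQb)
  have hpt : ∀ y ∈ Icc (0 : ℝ) 1, a / 2 * θ * ((1 + θ * (f y - ∫ x, f x ∂U01)) * G (tau θ f y)) ≤
      (1 + θ * (f y - ∫ x, f x ∂U01)) * (γ (tau θ f y) * (Q y - Q (tau θ f y))) := by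
    intro y hy
    have hP0 := Ps_nonneg hQ h hy.1 hy.2
    have ht0 : 0 ≤ tau θ f y := by
      have := hτm hy.1
      rwa [tau_zero hQ h] at this
    have ht1 : tau θ f y ≤ y := by
      unfold tau
      have := mul_nonneg hθ0 hP0
      linarith
    have h1 : a * (θ * Ps f y) ≤ Q y - Q (tau θ f y) := by
      have h2 := hQ.lo (tau θ f y) y ht0 ht1 hy.2
      have h3 : y - tau θ f y = θ * Ps f y := by unfold tau; ring
      rwa [h3] at h2
    have h2 : Ps f (tau θ f y) ≤ 2 * Ps f y := by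
      have h3 := Ps_diff hQ h (tau θ f y) y
      have hc : Continuous fun v => f v - ∫ x, f x ∂U01 := (h.cont hQ).sub continuous_const
      have h4 : ∫ v in (tau θ f y)..y, (f v - ∫ x, f x ∂U01) ≤ ∫ _v in (tau θ f y)..y, (1 : ℝ) :=
        intervalIntegral.integral_mono_on ht1 (hc.intervalIntegrable _ _) intervalIntegrable_const fun v _ =>
          (le_abs_self _).trans (h.osc_mean hQ v)
      rw [intervalIntegral.integral_const, smul_eq_mul, mul_one] at h4
      have h5 : y - tau θ f y = θ * Ps f y := by unfold tau; ring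
      rw [h5] at h4
      nlinarith
    have hG1 : G (tau θ f y) = γ (tau θ f y) * Ps f (tau θ f y) := hGP _ ⟨ht0, ht1.trans hy.2⟩
    have hγ0 := h.γ0 (tau θ f y)
    have hr0 : 0 ≤ 1 + θ * (f y - ∫ x, f x ∂U01) := by linarith [rr_pos hQ h hθ0 hθ1 y]
    rw [hG1]
    have h3 : a / 2 * θ * (γ (tau θ f y) * Ps f (tau θ f y)) ≤ γ (tau θ f y) * (Q y - Q (tau θ f y)) := by
      have h4 : a / 2 * θ * Ps f (tau θ f y) ≤ Q y - Q (tau θ f y) := by
        have h5 : a / 2 * θ * Ps f (tau θ f y) ≤ a / 2 * θ * (2 * Ps f y) :=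
          mul_le_mul_of_nonneg_left h2 (by positivity)
        linarith
      have h5 := mul_le_mul_of_nonneg_left h4 hγ0
      linarith
    have h4 := mul_le_mul_of_nonneg_left h3 hr0
    linarith
  have hint : a / 2 * θ * ∫ y, (1 + θ * (f y - ∫ x, f x ∂U01)) * G (tau θ f y) ∂U01 ≤
      ∫ y, (1 + θ * (f y - ∫ x, f x ∂U01)) * (γ (tau θ f y) * (Q y - Q (tau θ f y))) ∂U01 := by
    rw [← integral_const_mul]
    exact setIntegral_mono_on (b1.const_mul _).int b2.int measurableSet_Icc hpt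
  refine le_trans ?_ hint
  have h1 := mul_le_mul_of_nonneg_left hV (by positivity : 0 ≤ a / (2 * b) * θ)
  refine h1.trans (le_of_eq ?_)
  field_simp

end one

end

end Pool.Agent.W_1b8d5d_z
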